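import Pool.Agent.OEG.StM

/-!
# Project OEG, module ASM: the elimination of the first family from its parts
-/

set_option autoImplicit false

namespace Pool.Agent.OEG

open Pool.Agent.Lib_helper5.LK (rs)

namespace AS

lemma rs_int (n : ℕ) [NeZero n] (x : ℤ) : ((rs n x : ℕ) : ℤ) = x % n := ZMod.val_intCast x

/-- one of the two signs is canonical -/
lemma cn (q b : ℤ) : Cn q b ∨ Cn (-q) (-b) := by
  have h1 := rs_int 13 q
  have h2 := rs_int 13 b
  have h3 := rs_int 13 (-q)
  have h4 := rs_int 13 (-b)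
  push_cast at h1 h2 h3 h4
  unfold Cn
  omega

lemma g2 {u p q : ℤ} {m : ℕ} (h : G2 u p (-q) m) : G2 u p q m := by
  obtain ⟨h1, ⟨ε, hε, h2⟩, h3⟩ := h
  refine ⟨h1, ⟨-ε, ?_, ?_⟩, h3⟩
  · rcases hε with rfl | rfl
    · right; rfl
    · left; norm_num
  · have e : q - -ε = -(-q - ε) := by ring
    rw [e]; exact (dvd_neg).2 h2

lemma g3 {l p q : ℤ} {m : ℕ} (h : G3 l p (-q) m) : G3 l p q m := by
  obtain ⟨h1, ⟨ε, hε, h2⟩, h3⟩ := h
  refine ⟨h1, ⟨-ε, ?_, ?_⟩, h3⟩
  · rcases hε with rfl | rfl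
    · right; rfl
    · left; norm_num
  · have e : q - -ε * p = -(-q - ε * p) := by ring
    rw [e]; exact (dvd_neg).2 h2

lemma pw {l u : ℤ} (hl : OEX.Sg l) (hu : OEX.Sg u) (m : ℕ) :
    l * (u * l) ^ m = 1 ∨ l * (u * l) ^ m = -1 := by
  have h : (u * l) ^ m = 1 ∨ (u * l) ^ m = -1 := by
    have h0 : u * l = 1 ∨ u * l = -1 := by
      rcases hl with rfl | rfl <;> rcases hu with rfl | rfl <;> norm_num
    rcases h0 with h0 | h0
    · left; rw [h0, one_pow]
    · rw [h0]; exact neg_one_pow_eq_or ℤ m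
  rcases hl with rfl | rfl <;> rcases h with h | h <;> rw [h] <;> norm_num

/-- the discriminant modulo `1365` in the first case -/
lemma disc {D l u p q b : ℤ} {m : ℕ} (hl : OEX.Sg l) (hu : OEX.Sg u)
    (hD : D = (q * p ^ m + b) ^ 2 + 4 * l * p ^ m)
    (hp : (1365 : ℤ) ∣ p - u * l) (hb : (1365 : ℤ) ∣ b) :
    (1365 : ℤ) ∣ D - (q ^ 2 + 4 * (l * (u * l) ^ m)) := by
  have hpm : (1365 : ℤ) ∣ p ^ m - (u * l) ^ m := hp.trans (sub_dvd_pow_sub_pow _ _ _)
  have h2 : ((u * l) ^ m) ^ 2 = 1 := by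
    have h0 : (u * l) ^ 2 = 1 := by
      rcases hl with rfl | rfl <;> rcases hu with rfl | rfl <;> norm_num
    rw [← pow_mul, mul_comm m 2, pow_mul, h0, one_pow]
  obtain ⟨x, hx⟩ := hpm
  obtain ⟨y, hy⟩ := hb
  have e : p ^ m = (u * l) ^ m + 1365 * x := by linarith
  rw [hD, e, hy]
  refine ⟨q ^ 2 * (2 * (u * l) ^ m * x + 1365 * x ^ 2) +
    2 * q * ((u * l) ^ m + 1365 * x) * y + 1365 * y ^ 2 + 4 * l * x, ?_⟩
  linear_combination q ^ 2 * h2

lemma inr5 {D : ℤ} (h : Lib_helper5.K5.In 5 D) : D % 5 ≠ 0 := by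
  intro h0
  have h1 := rs_int 5 D
  push_cast at h1
  rw [h0] at h1
  have h2 : rs 5 D = 0 := by omega
  unfold Lib_helper5.K5.In at h
  rw [h2] at h
  exact absurd h (by decide)

end AS

/-- **ASM** -/
theorem t_ASM : Stmt_ASM := by
  intro hM hO h17 h19 hS D l u p q b m hl hu hm hqb hD hp hOS
  by_cases c17 : D % 455 = 293
  · exact h17 D l u p q b m hl hu hm hqb hD hp hOS c17
  by_cases c19 : D % 455 = 437
  · exact h19 D l u p q b m hl hu hm hqb hD hp hOS c19
  have h5 : D % 5 ≠ 0 := AS.inr5 (hOS.inr 5 (by norm_num) (by norm_num) (by norm_num))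
  -- the first case
  have key : (1365 : ℤ) ∣ p - u * l → (1365 : ℤ) ∣ b → G1 l u p q b := by
    intro hp1 hb1
    have hd := AS.disc hl hu hD hp1 hb1
    have hw := AS.pw hl hu m
    refine ⟨hp1, hb1, fun hq => ?_, fun hq => ?_⟩
    · exfalso
      have hq2 : (1365 : ℤ) ∣ q ^ 2 - 289 := by
        rcases hq with hq | hq
        · have e : q ^ 2 - 289 = (q - 17) * (q + 17) := by ring
          rw [e]; exact hq.mul_right _
        · have e : q ^ 2 - 289 = (q + 17) * (q - 17) := by ring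
          rw [e]; exact hq.mul_right _
      generalize l * (u * l) ^ m = w at hd hw
      generalize q ^ 2 = r at hd hq2
      rcases hw with rfl | rfl <;> omega
    · exfalso
      have hq2 : (1365 : ℤ) ∣ q ^ 2 - 441 := by
        rcases hq with hq | hq
        · have e : q ^ 2 - 441 = (q - 21) * (q + 21) := by ring
          rw [e]; exact hq.mul_right _
        · have e : q ^ 2 - 441 = (q + 21) * (q - 21) := by ring
          rw [e]; exact hq.mul_right _
      generalize l * (u * l) ^ m = w at hd hw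
      generalize q ^ 2 = r at hd hq2
      rcases hw with rfl | rfl <;> omega
  rcases AS.cn q b with hc | hc
  · rcases hM D l u p q b m hl hu hm hqb hD hp hOS hc with ⟨h1, h2⟩ | h | h | h | h | h
    · exact Or.inl (key h1 h2)
    · exact Or.inr (Or.inl h)
    · exact Or.inr (Or.inr h)
    · exact absurd h c17
    · exact absurd h c19
    · exact absurd h (hO D l u p q b m hl hu hm hqb hD hp hOS)
  · have hqb' : -q * -b = u * p - l := by rw [← hqb]; ring
    have hD' : D = (-q * p ^ m + -b) ^ 2 + 4 * l * p ^ m := by rw [hD]; ring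
    have hOS' := hS 9699690 D l u p q b m hOS
    rcases hM D l u p (-q) (-b) m hl hu hm hqb' hD' hp hOS' hc with ⟨h1, h2⟩ | h | h | h | h | h
    · exact Or.inl (key h1 ((dvd_neg).1 h2))
    · exact Or.inr (Or.inl (AS.g2 h))
    · exact Or.inr (Or.inr (AS.g3 h))
    · exact absurd h c17
    · exact absurd h c19
    · exact absurd h (hO D l u p (-q) (-b) m hl hu hm hqb' hD' hp hOS')

end Pool.Agent.OEG
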