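import Pool.Agent.OEG.StG

/-!
# Project OEG: the block theorem for any family
-/

set_option autoImplicit false

namespace Pool.Agent.OEG.G

open Finset (range)
open Pool.Agent.PSX (Es W sg nu ev Z0 EZ SX I0 I1 TT ED fb evZ v3 v5 v7)
open Pool.Agent.P4G (Fam QN FN FZ CR)

namespace BL2x

lemma geo (l : ℕ) (g m : ℤ) (h : m ∣ g - 1) (hl : (l : ℤ) ∣ m) : m * l ∣ g ^ l - 1 := by
  have e : g ^ l - 1 = (g - 1) * ∑ i ∈ range l, g ^ i := by
    rw [mul_comm]; exact (geom_sum_mul g l).symm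
  have h1 : ∀ i ∈ range l, (l : ℤ) ∣ g ^ i - 1 := fun i _ =>
    (hl.trans h).trans (sub_one_dvd_pow_sub_one g i)
  have h2 : ∑ i ∈ range l, g ^ i = ∑ i ∈ range l, (g ^ i - 1) + l := by
    simp [Finset.sum_sub_distrib]
  rw [e, h2]
  exact mul_dvd_mul h (dvd_add (Finset.dvd_sum h1) dvd_rfl)

lemma gpow (l q0 : ℕ) (g : ℤ) (h : ((q0 * l : ℕ) : ℤ) ∣ g - 1) (j : ℕ) :
    ((q0 * l ^ (j + 1) : ℕ) : ℤ) ∣ g ^ (l ^ j) - 1 := by
  induction j with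
  | zero => simpa using h
  | succ j ih =>
    have h1 := geo l (g ^ (l ^ j)) _ ih (by
      push_cast
      exact Dvd.intro_left ((q0 : ℤ) * (l : ℤ) ^ j) (by ring))
    have e1 : g ^ (l ^ (j + 1)) = (g ^ (l ^ j)) ^ l := by rw [← pow_mul, ← pow_succ]
    rw [e1]
    have e2 : ((q0 * l ^ (j + 1 + 1) : ℕ) : ℤ) = ((q0 * l ^ (j + 1) : ℕ) : ℤ) * l := by
      push_cast; ring
    rw [e2]
    exact h1

lemma itP (Q g : ℤ) (P : ℕ → ℤ) (h : ∀ i, Q ∣ P (i + 1) - g * P i) (i m : ℕ) :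
    Q ∣ P (i + m) - g ^ m * P i := by
  induction m with
  | zero => simp
  | succ m ih =>
    have e : P (i + (m + 1)) - g ^ (m + 1) * P i =
        (P (i + m + 1) - g * P (i + m)) + g * (P (i + m) - g ^ m * P i) := by
      rw [← add_assoc]; ring
    rw [e]
    exact dvd_add (h _) (dvd_mul_of_dvd_right ih _)

lemma itS (Q g : ℤ) (S : ℕ → ℤ) (h : ∀ i, Q ∣ g * S (i + 1) - S i) (i m : ℕ) :
    Q ∣ g ^ m * S (i + m) - S i := by
  induction m with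
  | zero => simp
  | succ m ih =>
    have e : g ^ (m + 1) * S (i + (m + 1)) - S i =
        g ^ m * (g * S (i + m + 1) - S (i + m)) + (g ^ m * S (i + m) - S i) := by
      rw [← add_assoc]; ring
    rw [e]
    exact dvd_add (dvd_mul_of_dvd_right (h _) _) ih

lemma pow_exp (Q w : ℤ) (t : ℕ) : Q * Q ∣ (1 + Q * w) ^ t - 1 - t * (Q * w) := by
  induction t with
  | zero => simp
  | succ t ih =>
    have e : (1 + Q * w) ^ (t + 1) - 1 - ((t + 1 : ℕ) : ℤ) * (Q * w) =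
        (1 + Q * w) * ((1 + Q * w) ^ t - 1 - t * (Q * w)) + Q * Q * (t * w ^ 2) := by
      push_cast; ring
    rw [e]
    exact dvd_add (dvd_mul_of_dvd_right ih _) (dvd_mul_right _ _)

lemma sum_split {M : Type*} [AddCommMonoid M] (f : ℕ → M) (L m : ℕ) :
    ∑ i ∈ range (L * m), f i = ∑ i ∈ range L, ∑ t ∈ range m, f (i + L * t) := by
  rw [Finset.sum_comm]
  induction m with
  | zero => simp
  | succ m ih =>
    rw [Nat.mul_succ, Finset.sum_range_add, Finset.sum_range_succ, ih]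
    congr 1
    exact Finset.sum_congr rfl fun i _ => by rw [add_comm]

lemma castQ (Q : ℕ) (a b : ℤ) (h : (Q : ℤ) ∣ a - b) : ((a : ℤ) : ZMod Q) = ((b : ℤ) : ZMod Q) := by
  rw [ZMod.intCast_eq_intCast_iff_dvd_sub]
  have := (dvd_neg.mpr h)
  rwa [neg_sub] at this

lemma step (hLQL : Stmt_LQL) (l q0 n e e0 : ℕ) (ψ : ℤ → ℤ) [NeZero (QN l q0 n)]
    (hf : PSX.Fm l q0 n e e0 ψ) (g R : ℤ) (P S c : ℕ → ℤ) (w : ℤ)
    (hw : g ^ (l ^ n) = 1 + (QN l q0 n : ℤ) * w)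
    (hP : ∀ i, ((QN l q0 n : ℕ) : ℤ) ∣ P (i + 1) - g * P i)
    (hS : ∀ i, ((QN l q0 n : ℕ) : ℤ) ∣ g * S (i + 1) - S i)
    (hc : ∀ i, ((QN l q0 n * l : ℕ) : ℤ) ∣ c (i + 1) - g * c i) (i t : ℕ) :
    Es (FZ l q0 n e ψ) (P (i + l ^ n * t) : ZMod (QN l q0 n)) (R : ZMod (QN l q0 n))
        (S (i + l ^ n * t) : ZMod (QN l q0 n)) (c (i + l ^ n * t)) =
      Es (FZ l q0 n e ψ) (P i : ZMod (QN l q0 n)) (R : ZMod (QN l q0 n))
        (S i : ZMod (QN l q0 n)) (c i) +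
      (t : ZMod (l ^ (n + 1))) * (2 * ((w * c i : ℤ) : ZMod (l ^ (n + 1))) *
        SX (QN l q0 n) (I0 l q0 n e ψ (P i) R (S i))) := by
  have hgt : g ^ (l ^ n * t) = (1 + (QN l q0 n : ℤ) * w) ^ t := by rw [pow_mul, hw]
  have h1 : ((QN l q0 n : ℕ) : ℤ) ∣ g ^ (l ^ n * t) - 1 := by
    rw [hgt]
    have := sub_one_dvd_pow_sub_one (1 + (QN l q0 n : ℤ) * w) t
    refine dvd_trans ?_ this
    exact ⟨w, by ring⟩
  have hPe : ((P (i + l ^ n * t) : ℤ) : ZMod (QN l q0 n)) = ((P i : ℤ) : ZMod (QN l q0 n)) := by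
    apply castQ
    have e1 : P (i + l ^ n * t) - P i =
        (P (i + l ^ n * t) - g ^ (l ^ n * t) * P i) + (g ^ (l ^ n * t) - 1) * P i := by ring
    rw [e1]
    exact dvd_add (itP _ g P hP i _) (dvd_mul_of_dvd_left h1 _)
  have hSe : ((S (i + l ^ n * t) : ℤ) : ZMod (QN l q0 n)) = ((S i : ℤ) : ZMod (QN l q0 n)) := by
    apply castQ
    have e1 : S (i + l ^ n * t) - S i =
        (g ^ (l ^ n * t) * S (i + l ^ n * t) - S i) -
          (g ^ (l ^ n * t) - 1) * S (i + l ^ n * t) := by ring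
    rw [e1]
    exact dvd_sub (itS _ g S hS i _) (dvd_mul_of_dvd_left h1 _)
  obtain ⟨ha, -, -⟩ := hLQL l q0 n e e0 ψ hf (P i) R (S i)
    (c i + (QN l q0 n : ℕ) * ((t : ℤ) * (w * c i)))
  obtain ⟨-, hb, -⟩ := hLQL l q0 n e e0 ψ hf (P i) R (S i) (c i)
  have hcd : ((QN l q0 n * l : ℕ) : ℤ) ∣
      c (i + l ^ n * t) - (c i + (QN l q0 n : ℕ) * ((t : ℤ) * (w * c i))) := by
    have e1 : c (i + l ^ n * t) - (c i + (QN l q0 n : ℕ) * ((t : ℤ) * (w * c i))) =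
        (c (i + l ^ n * t) - g ^ (l ^ n * t) * c i) +
          ((1 + (QN l q0 n : ℤ) * w) ^ t - 1 - t * ((QN l q0 n : ℤ) * w)) * c i := by
      rw [hgt]; ring
    rw [e1]
    refine dvd_add (itP _ g c hc i _) (dvd_mul_of_dvd_left ?_ _)
    refine dvd_trans ?_ (pow_exp (QN l q0 n : ℤ) w t)
    have : ((QN l q0 n * l : ℕ) : ℤ) = (QN l q0 n : ℤ) * (l : ℤ) := by push_cast; ring
    rw [this]
    refine mul_dvd_mul_left _ ?_
    unfold QN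
    push_cast
    exact Dvd.intro_left ((q0 : ℤ) * (l : ℤ) ^ n) (by ring)
  rw [hPe, hSe, ha _ hcd, hb]
  push_cast
  ring

lemma total (hLQL : Stmt_LQL) (l q0 n e e0 : ℕ) (ψ : ℤ → ℤ) [NeZero (QN l q0 n)]
    (hf : PSX.Fm l q0 n e e0 ψ) (g R : ℤ) (P S c : ℕ → ℤ)
    (hg : ((q0 * l : ℕ) : ℤ) ∣ g - 1)
    (hP : ∀ i, ((QN l q0 n : ℕ) : ℤ) ∣ P (i + 1) - g * P i)
    (hS : ∀ i, ((QN l q0 n : ℕ) : ℤ) ∣ g * S (i + 1) - S i)
    (hc : ∀ i, ((QN l q0 n * l : ℕ) : ℤ) ∣ c (i + 1) - g * c i) (k : ℕ) :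
    ∑ i ∈ range (l ^ (n + 1) * k), Es (FZ l q0 n e ψ) (P i : ZMod (QN l q0 n))
        (R : ZMod (QN l q0 n)) (S i : ZMod (QN l q0 n)) (c i) =
      (k : ZMod (l ^ (n + 1))) * ((l : ZMod (l ^ (n + 1))) *
        ∑ i ∈ range (l ^ n), Es (FZ l q0 n e ψ) (P i : ZMod (QN l q0 n))
        (R : ZMod (QN l q0 n)) (S i : ZMod (QN l q0 n)) (c i)) := by
  obtain ⟨w, hw⟩ := gpow l q0 g hg n
  have hw' : g ^ (l ^ n) = 1 + (QN l q0 n : ℤ) * w := by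
    have : ((q0 * l ^ (n + 1) : ℕ) : ℤ) = (QN l q0 n : ℤ) := rfl
    rw [this] at hw
    linarith
  have e1 : l ^ (n + 1) * k = l ^ n * (l * k) := by ring
  rw [e1, sum_split, Finset.mul_sum, Finset.mul_sum]
  refine Finset.sum_congr rfl fun i _ => ?_
  obtain ⟨-, -, h0⟩ := hLQL l q0 n e e0 ψ hf (P i) R (S i) (c i)
  have e2 : ∀ t ∈ range (l * k), Es (FZ l q0 n e ψ) (P (i + l ^ n * t) : ZMod (QN l q0 n))
      (R : ZMod (QN l q0 n)) (S (i + l ^ n * t) : ZMod (QN l q0 n)) (c (i + l ^ n * t)) =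
      Es (FZ l q0 n e ψ) (P i : ZMod (QN l q0 n)) (R : ZMod (QN l q0 n))
        (S i : ZMod (QN l q0 n)) (c i) +
      (t : ZMod (l ^ (n + 1))) * (2 * ((w * c i : ℤ) : ZMod (l ^ (n + 1))) *
        SX (QN l q0 n) (I0 l q0 n e ψ (P i) R (S i))) := fun t _ =>
    step hLQL l q0 n e e0 ψ hf g R P S c w hw' hP hS hc i t
  rw [Finset.sum_congr rfl e2, Finset.sum_add_distrib, ← Finset.sum_mul]
  have e3 : (∑ t ∈ range (l * k), (t : ZMod (l ^ (n + 1)))) *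
      (2 * ((w * c i : ℤ) : ZMod (l ^ (n + 1))) *
        SX (QN l q0 n) (I0 l q0 n e ψ (P i) R (S i))) = 0 := by
    have e4 : (∑ t ∈ range (l * k), (t : ZMod (l ^ (n + 1)))) * 2 =
        (l : ZMod (l ^ (n + 1))) * ((k * (l * k - 1 : ℕ) : ℕ) : ZMod (l ^ (n + 1))) := by
      have := Finset.sum_range_id_mul_two (l * k)
      have h5 := congrArg (fun z : ℕ => (z : ZMod (l ^ (n + 1)))) this
      push_cast at h5 ⊢
      rw [h5]
      ring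
    have e6 : (∑ t ∈ range (l * k), (t : ZMod (l ^ (n + 1)))) *
      (2 * ((w * c i : ℤ) : ZMod (l ^ (n + 1))) *
        SX (QN l q0 n) (I0 l q0 n e ψ (P i) R (S i))) =
        ((∑ t ∈ range (l * k), (t : ZMod (l ^ (n + 1)))) * 2) *
          (((w * c i : ℤ) : ZMod (l ^ (n + 1))) *
        SX (QN l q0 n) (I0 l q0 n e ψ (P i) R (S i))) := by ring
    rw [e6, e4]
    have e7 : (l : ZMod (l ^ (n + 1))) * ((k * (l * k - 1 : ℕ) : ℕ) : ZMod (l ^ (n + 1))) *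
          (((w * c i : ℤ) : ZMod (l ^ (n + 1))) *
        SX (QN l q0 n) (I0 l q0 n e ψ (P i) R (S i))) =
        ((k * (l * k - 1 : ℕ) : ℕ) : ZMod (l ^ (n + 1))) * ((w * c i : ℤ) : ZMod (l ^ (n + 1))) *
          ((l : ZMod (l ^ (n + 1))) * SX (QN l q0 n) (I0 l q0 n e ψ (P i) R (S i))) := by ring
    rw [e7, h0, mul_zero]
  rw [e3, add_zero, Finset.sum_const, Finset.card_range, nsmul_eq_mul]
  push_cast
  ring

lemma lmul_zero (l n : ℕ) [NeZero (l ^ (n + 1 + 1))] (h : l ^ (n + 1) ∣ l ^ (n + 1 + 1))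
    (X : ZMod (l ^ (n + 1 + 1)))
    (hX : ZMod.castHom h (ZMod (l ^ (n + 1))) X = 0) : (l : ZMod (l ^ (n + 1 + 1))) * X = 0 := by
  have h1 : ((X.val : ℕ) : ZMod (l ^ (n + 1 + 1))) = X := ZMod.natCast_zmod_val X
  rw [← h1, map_natCast, ZMod.natCast_eq_zero_iff] at hX
  rw [← h1]
  have h2 : ((l * X.val : ℕ) : ZMod (l ^ (n + 1 + 1))) = 0 := by
    rw [ZMod.natCast_eq_zero_iff]
    have h3 : l * l ^ (n + 1) ∣ l * X.val := mul_dvd_mul_left l hX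
    have h4 : l * l ^ (n + 1) = l ^ (n + 1 + 1) := by ring
    rwa [h4] at h3
  push_cast at h2
  exact h2

theorem key (hLQL : Stmt_LQL) (hLVL : Stmt_LVL) (l q0 e e0 : ℕ) (ψ : ℤ → ℤ) (g R : ℤ)
    (P S c : ℕ → ℤ) (hg : ((q0 * l : ℕ) : ℤ) ∣ g - 1) : ∀ (n : ℕ) [NeZero (QN l q0 n)],
    PSX.Fm l q0 n e e0 ψ →
    (∀ i, ((QN l q0 n : ℕ) : ℤ) ∣ P (i + 1) - g * P i) →
    (∀ i, ((QN l q0 n : ℕ) : ℤ) ∣ g * S (i + 1) - S i) →
    (∀ i, ((QN l q0 n * l : ℕ) : ℤ) ∣ c (i + 1) - g * c i) →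
    (l : ZMod (l ^ (n + 1))) *
        ∑ i ∈ range (l ^ n), Es (FZ l q0 n e ψ) (P i : ZMod (QN l q0 n))
        (R : ZMod (QN l q0 n)) (S i : ZMod (QN l q0 n)) (c i) = 0 := by
  intro n
  induction n with
  | zero =>
    intro _ _ _ _ _
    have : (l : ZMod (l ^ (0 + 1))) = 0 := by
      rw [ZMod.natCast_eq_zero_iff]
      simp
    rw [this, zero_mul]
  | succ n ih =>
    intro inst hf hP hS hc
    have hl0 : l ≠ 0 := hf.fam.hl.ne_zero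
    have hQ0 : QN l q0 (n + 1) ≠ 0 := inst.out
    have hq0 : q0 ≠ 0 := by
      intro h
      apply hQ0
      unfold QN
      rw [h, zero_mul]
    have hi1 : NeZero (QN l q0 n) := ⟨by unfold QN; exact mul_ne_zero hq0 (pow_ne_zero _ hl0)⟩
    have hi2 : NeZero (l ^ (n + 1 + 1)) := ⟨pow_ne_zero _ hl0⟩
    obtain ⟨hf', hlev⟩ := hLVL l q0 (n + 1) n e e0 ψ (Nat.le_succ n) hf
    have hdQ : ((QN l q0 n : ℕ) : ℤ) ∣ ((QN l q0 (n + 1) : ℕ) : ℤ) := by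
      unfold QN
      push_cast
      exact Dvd.intro_left (l : ℤ) (by ring)
    have hQl : ((QN l q0 n * l : ℕ) : ℤ) ∣ ((QN l q0 (n + 1) * l : ℕ) : ℤ) := by
      push_cast
      exact mul_dvd_mul_right hdQ _
    have hP' : ∀ i, ((QN l q0 n : ℕ) : ℤ) ∣ P (i + 1) - g * P i := fun i => hdQ.trans (hP i)
    have hS' : ∀ i, ((QN l q0 n : ℕ) : ℤ) ∣ g * S (i + 1) - S i := fun i => hdQ.trans (hS i)
    have hc' : ∀ i, ((QN l q0 n * l : ℕ) : ℤ) ∣ c (i + 1) - g * c i := fun i =>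
      hQl.trans (hc i)
    have hih := ih hf' hP' hS' hc'
    have htot := total hLQL l q0 n e e0 ψ hf' g R P S c hg hP' hS' hc' 1
    rw [hih, mul_zero, mul_one] at htot
    apply lmul_zero l n (pow_dvd_pow l (Nat.succ_le_succ (Nat.le_succ n)))
    rw [map_sum, ← htot]
    exact Finset.sum_congr rfl fun i _ => hlev (P i) R (S i) (c i)

end BL2x

open BL2x in
theorem t_BL2 (hLQL : Stmt_LQL) (hLVL : Stmt_LVL) : Stmt_BL2 := by
  intro l q0 n e e0 ψ inst hf g R P S c hg hP hS hc k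
  rw [total hLQL l q0 n e e0 ψ hf g R P S c hg hP hS hc k,
    key hLQL hLVL l q0 e e0 ψ g R P S c hg n hf hP hS hc, mul_zero]

end Pool.Agent.OEG.G
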