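import Pool.Agent.OEG.StG

/-!
# Module BLI (helper4): the block theorem, type I
-/

set_option autoImplicit false

namespace Pool.Agent.OEG.G

open Finset (range)
open Pool.Agent.PSX (Es W sg nu ev Z0 EZ SX I0 I1 TT ED fb evZ)
open Pool.Agent.P4G (Fam QN FN FZ CR)

namespace BLIM

/-- first order expansion of a power -/
lemma one_add_pow (a : ℤ) (n : ℕ) : ∃ t : ℤ, (1 + a) ^ n = 1 + n * a + a ^ 2 * t := by
  induction n with
  | zero => exact ⟨0, by simp⟩
  | succ n ih =>
    obtain ⟨t, ht⟩ := ih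
    refine ⟨t + n + a * t, ?_⟩
    rw [pow_succ, ht]
    push_cast
    ring

lemma pow_level {l q0 : ℕ} {g : ℤ} (h : ((q0 * l : ℕ) : ℤ) ∣ g - 1) (j : ℕ) :
    ((q0 * l ^ (j + 1) : ℕ) : ℤ) ∣ g ^ (l ^ j) - 1 := by
  induction j with
  | zero => simpa using h
  | succ j ih =>
    obtain ⟨u, hu⟩ := ih
    have e : g ^ (l ^ j) = 1 + ((q0 * l ^ (j + 1) : ℕ) : ℤ) * u := by linarith
    obtain ⟨t, ht⟩ := one_add_pow (((q0 * l ^ (j + 1) : ℕ) : ℤ) * u) l
    rw [pow_succ l j, pow_mul, e, ht]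
    refine ⟨u + ((q0 * l ^ j : ℕ) : ℤ) * u ^ 2 * t, ?_⟩
    push_cast
    ring

/-- if the reduction is zero then `l` times the element is zero -/
lemma l_mul_zero {l n : ℕ} [NeZero (l ^ (n + 1 + 1))] (x : ZMod (l ^ (n + 1 + 1)))
    (h : ZMod.castHom (pow_dvd_pow l (Nat.succ_le_succ (Nat.le_succ n))) (ZMod (l ^ (n + 1))) x = 0) :
    (l : ZMod (l ^ (n + 1 + 1))) * x = 0 := by
  rw [← ZMod.natCast_zmod_val x, map_natCast, ZMod.natCast_eq_zero_iff] at h
  rw [← ZMod.natCast_zmod_val x, ← Nat.cast_mul, ZMod.natCast_eq_zero_iff]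
  obtain ⟨y, hy⟩ := h
  exact ⟨y, by rw [hy]; ring⟩

/-- an edge sum depends on the form and the letter modulo `Q` -/
lemma Es_congr (hTLQ : Stmt_TLQ) {l q0 n e e0 : ℕ} {ψ : ℤ → ℤ} [NeZero (QN l q0 n)]
    (hFm : PSX.Fm l q0 n e e0 ψ) (he : 2 * e0 < l - 1) {P R S c P' S' c' : ℤ}
    (hP : ((QN l q0 n : ℕ) : ℤ) ∣ P' - P) (hS : ((QN l q0 n : ℕ) : ℤ) ∣ S' - S)
    (hc : ((QN l q0 n : ℕ) : ℤ) ∣ c' - c) :
    Es (FZ l q0 n e ψ) (P' : ZMod (QN l q0 n)) (R : ZMod (QN l q0 n)) (S' : ZMod (QN l q0 n)) c'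
      = Es (FZ l q0 n e ψ) (P : ZMod (QN l q0 n)) (R : ZMod (QN l q0 n)) (S : ZMod (QN l q0 n)) c := by
  have e1 : ((P' : ℤ) : ZMod (QN l q0 n)) = ((P : ℤ) : ZMod (QN l q0 n)) :=
    ((ZMod.intCast_eq_intCast_iff_dvd_sub P P' (QN l q0 n)).2 hP).symm
  have e2 : ((S' : ℤ) : ZMod (QN l q0 n)) = ((S : ℤ) : ZMod (QN l q0 n)) :=
    ((ZMod.intCast_eq_intCast_iff_dvd_sub S S' (QN l q0 n)).2 hS).symm
  rw [e1, e2, hTLQ l q0 n e e0 ψ hFm he P R S c c' hc]

end BLIM

theorem t_BLI (hTLQ : Stmt_TLQ) (hTSM : Stmt_TSM) (hLVL : Stmt_LVL) : Stmt_BLI := by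
  intro l q0 n
  induction n with
  | zero =>
    intro e e0 ψ _ hFm he g R P S c hg hP hS hc k
    have hQ : ((QN l q0 0 : ℕ) : ℤ) ∣ g - 1 := by
      unfold QN
      simpa using hg
    have cP : ∀ i, ((QN l q0 0 : ℕ) : ℤ) ∣ P i - P 0 := by
      intro i
      induction i with
      | zero => simp
      | succ i ih =>
        have h1 := dvd_add (hP i) ((hQ.mul_right (P i)).add ih)
        have e1 : P (i + 1) - g * P i + ((g - 1) * P i + (P i - P 0)) = P (i + 1) - P 0 := by ring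
        rwa [e1] at h1
    have cS : ∀ i, ((QN l q0 0 : ℕ) : ℤ) ∣ S i - S 0 := by
      intro i
      induction i with
      | zero => simp
      | succ i ih =>
        have h1 := dvd_sub (dvd_add (hS i) ih) (hQ.mul_right (S (i + 1)))
        have e1 : g * S (i + 1) - S i + (S i - S 0) - (g - 1) * S (i + 1) = S (i + 1) - S 0 := by
          ring
        rwa [e1] at h1
    have cc : ∀ i, ((QN l q0 0 : ℕ) : ℤ) ∣ c i - c 0 := by
      intro i
      induction i with
      | zero => simp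
      | succ i ih =>
        have h1 := dvd_add (hc i) ((hQ.mul_right (c i)).add ih)
        have e1 : c (i + 1) - g * c i + ((g - 1) * c i + (c i - c 0)) = c (i + 1) - c 0 := by ring
        rwa [e1] at h1
    have key : ∀ i, Es (FZ l q0 0 e ψ) (P i : ZMod (QN l q0 0)) (R : ZMod (QN l q0 0))
        (S i : ZMod (QN l q0 0)) (c i) = Es (FZ l q0 0 e ψ) (P 0 : ZMod (QN l q0 0))
        (R : ZMod (QN l q0 0)) (S 0 : ZMod (QN l q0 0)) (c 0) := fun i =>
      BLIM.Es_congr hTLQ hFm he (cP i) (cS i) (cc i)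
    rw [Finset.sum_congr rfl (fun i _ => key i), Finset.sum_const, Finset.card_range, nsmul_eq_mul]
  | succ n ih =>
    intro e e0 ψ _ hFm he g R P S c hg hP hS hc k
    have hfam := hFm.fam
    have hlpos : 0 < l := hfam.hl.pos
    have : NeZero (l ^ (n + 1 + 1)) := ⟨(pow_pos hlpos _).ne'⟩
    have hne : NeZero (QN l q0 n) := (hLVL l q0 (n + 1) n e e0 ψ (Nat.le_succ n) hFm).1.fam.ne
    obtain ⟨hFm', hcast⟩ := hLVL l q0 (n + 1) n e e0 ψ (Nat.le_succ n) hFm
    have hQ2 : ((QN l q0 (n + 1) : ℕ) : ℤ) ∣ ((q0 * l ^ (n + 1) : ℕ) : ℤ) ^ 2 := by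
      refine ⟨((q0 * l ^ n : ℕ) : ℤ), ?_⟩
      unfold QN
      push_cast
      ring
    have hQl : ((QN l q0 (n + 1) : ℕ) : ℤ) = l * ((q0 * l ^ (n + 1) : ℕ) : ℤ) := by
      unfold QN
      push_cast
      ring
    -- the power of `g`
    obtain ⟨τ, hτ⟩ := BLIM.pow_level hg n
    have hgt : ∀ t : ℕ, ((QN l q0 (n + 1) : ℕ) : ℤ) ∣
        g ^ (l ^ n * t) - (1 + ((q0 * l ^ (n + 1) : ℕ) : ℤ) * (t * τ)) := by
      intro t
      obtain ⟨v, hv⟩ := BLIM.one_add_pow (((q0 * l ^ (n + 1) : ℕ) : ℤ) * τ) t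
      have e1 : g ^ (l ^ n) = 1 + ((q0 * l ^ (n + 1) : ℕ) : ℤ) * τ := by linarith
      rw [pow_mul, e1, hv]
      obtain ⟨w, hw⟩ := hQ2
      refine ⟨w * τ ^ 2 * v, ?_⟩
      linear_combination (τ ^ 2 * v) * hw
    have gP : ∀ i s, ((QN l q0 (n + 1) : ℕ) : ℤ) ∣ P (i + s) - g ^ s * P i := by
      intro i s
      induction s with
      | zero => simp
      | succ s ih2 =>
        have h1 := dvd_add (hP (i + s)) (ih2.mul_left g)
        have e1 : P (i + s + 1) - g * P (i + s) + g * (P (i + s) - g ^ s * P i) =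
            P (i + (s + 1)) - g ^ (s + 1) * P i := by
          rw [← add_assoc]; ring
        rwa [e1] at h1
    have gc : ∀ i s, ((QN l q0 (n + 1) : ℕ) : ℤ) ∣ c (i + s) - g ^ s * c i := by
      intro i s
      induction s with
      | zero => simp
      | succ s ih2 =>
        have h1 := dvd_add (hc (i + s)) (ih2.mul_left g)
        have e1 : c (i + s + 1) - g * c (i + s) + g * (c (i + s) - g ^ s * c i) =
            c (i + (s + 1)) - g ^ (s + 1) * c i := by
          rw [← add_assoc]; ring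
        rwa [e1] at h1
    have gS : ∀ i s, ((QN l q0 (n + 1) : ℕ) : ℤ) ∣ g ^ s * S (i + s) - S i := by
      intro i s
      induction s with
      | zero => simp
      | succ s ih2 =>
        have h1 := dvd_add ((hS (i + s)).mul_left (g ^ s)) ih2
        have e1 : g ^ s * (g * S (i + s + 1) - S (i + s)) + (g ^ s * S (i + s) - S i) =
            g ^ (s + 1) * S (i + (s + 1)) - S i := by
          rw [← add_assoc]; ring
        rwa [e1] at h1
    -- the edge sums
    obtain ⟨E, hE⟩ : ∃ E : ℕ → ZMod (l ^ (n + 1 + 1)), ∀ i, E i =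
        Es (FZ l q0 (n + 1) e ψ) (P i : ZMod (QN l q0 (n + 1))) (R : ZMod (QN l q0 (n + 1)))
        (S i : ZMod (QN l q0 (n + 1))) (c i) := ⟨_, fun _ => rfl⟩
    simp only [← hE]
    -- one block
    have hblock : ∀ i, ∑ t ∈ range l, E (l ^ n * t + i) = (l : ZMod (l ^ (n + 1 + 1))) * E i := by
      intro i
      have h1 := hTSM l q0 (n + 1) e e0 ψ hFm he (by omega) (P i) R (S i) (P i * τ) (-(S i * τ))
        (c i) (c i * τ)
      rw [hE i, ← h1]
      apply Finset.sum_congr rfl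
      intro t _
      rw [hE]
      have ht := hgt t
      have p1 := gP i (l ^ n * t)
      have p2 := gc i (l ^ n * t)
      have p3 := gS i (l ^ n * t)
      rw [add_comm i (l ^ n * t)] at p1 p2 p3
      generalize g ^ (l ^ n * t) = G at *
      apply BLIM.Es_congr hTLQ hFm he
      · have h2 := dvd_add p1 (ht.mul_right (P i))
        have e1 : P (l ^ n * t + i) - G * P i + (G - (1 + ((q0 * l ^ (n + 1) : ℕ) : ℤ) * (t * τ))) *
            P i = P (l ^ n * t + i) - (P i + ((q0 * l ^ (n + 1) : ℕ) : ℤ) * (P i * τ * t)) := by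
          ring
        rwa [e1] at h2
      · have h2 := (dvd_sub p3 (ht.mul_right (S (l ^ n * t + i)))).mul_right
          (1 - ((q0 * l ^ (n + 1) : ℕ) : ℤ) * (t * τ))
        have h3 := dvd_add h2 (hQ2.mul_right ((t * τ) ^ 2 * S (l ^ n * t + i)))
        have e1 : (G * S (l ^ n * t + i) - S i -
            (G - (1 + ((q0 * l ^ (n + 1) : ℕ) : ℤ) * (t * τ))) * S (l ^ n * t + i)) *
            (1 - ((q0 * l ^ (n + 1) : ℕ) : ℤ) * (t * τ)) +
            ((q0 * l ^ (n + 1) : ℕ) : ℤ) ^ 2 * ((t * τ) ^ 2 * S (l ^ n * t + i)) =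
            S (l ^ n * t + i) - (S i + ((q0 * l ^ (n + 1) : ℕ) : ℤ) * (-(S i * τ) * t)) := by
          ring
        rwa [e1] at h3
      · have h2 := dvd_add p2 (ht.mul_right (c i))
        have e1 : c (l ^ n * t + i) - G * c i + (G - (1 + ((q0 * l ^ (n + 1) : ℕ) : ℤ) * (t * τ))) *
            c i = c (l ^ n * t + i) - (c i + ((q0 * l ^ (n + 1) : ℕ) : ℤ) * (c i * τ * t)) := by
          ring
        rwa [e1] at h2
    -- the period
    have hper : ∀ i, E (i + l ^ (n + 1)) = E i := by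
      intro i
      rw [hE, hE]
      have ht := hgt l
      have p1 := gP i (l ^ n * l)
      have p2 := gc i (l ^ n * l)
      have p3 := gS i (l ^ n * l)
      rw [← pow_succ] at ht p1 p2 p3
      generalize g ^ (l ^ (n + 1)) = G at *
      have hG : ((QN l q0 (n + 1) : ℕ) : ℤ) ∣ G - 1 := by
        have h4 : ((QN l q0 (n + 1) : ℕ) : ℤ) ∣ ((q0 * l ^ (n + 1) : ℕ) : ℤ) * (l * τ) :=
          ⟨τ, by rw [hQl]; ring⟩
        have h5 := dvd_add ht h4
        have e1 : G - (1 + ((q0 * l ^ (n + 1) : ℕ) : ℤ) * (l * τ)) +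
            ((q0 * l ^ (n + 1) : ℕ) : ℤ) * (l * τ) = G - 1 := by ring
        rwa [e1] at h5
      apply BLIM.Es_congr hTLQ hFm he
      · have h2 := dvd_add p1 (hG.mul_right (P i))
        have e1 : P (i + l ^ (n + 1)) - G * P i + (G - 1) * P i = P (i + l ^ (n + 1)) - P i := by
          ring
        rwa [e1] at h2
      · have h2 := dvd_sub p3 (hG.mul_right (S (i + l ^ (n + 1))))
        have e1 : G * S (i + l ^ (n + 1)) - S i - (G - 1) * S (i + l ^ (n + 1)) =
            S (i + l ^ (n + 1)) - S i := by ring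
        rwa [e1] at h2
      · have h2 := dvd_add p2 (hG.mul_right (c i))
        have e1 : c (i + l ^ (n + 1)) - G * c i + (G - 1) * c i = c (i + l ^ (n + 1)) - c i := by
          ring
        rwa [e1] at h2
    have hperk : ∀ k i, E (i + l ^ (n + 1) * k) = E i := by
      intro k
      induction k with
      | zero => intro i; simp
      | succ k ihk => intro i; rw [mul_add, mul_one, ← add_assoc, hper, ihk]
    have hone : ∑ i ∈ range (l ^ (n + 1)), E i =
        (l : ZMod (l ^ (n + 1 + 1))) * ∑ i ∈ range (l ^ n), E i := by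
      rw [show range (l ^ (n + 1)) = range (l ^ n * l) by rw [pow_succ], P4G.sum_blocks,
        Finset.mul_sum]
      exact Finset.sum_congr rfl fun i _ => hblock i
    have hall : ∑ i ∈ range (l ^ (n + 1) * k), E i =
        (k : ZMod (l ^ (n + 1 + 1))) * ∑ i ∈ range (l ^ (n + 1)), E i := by
      rw [P4G.sum_blocks, Finset.mul_sum]
      apply Finset.sum_congr rfl
      intro i _
      rw [Finset.sum_congr rfl (g := fun _ => E i) (fun t _ => by
        rw [show l ^ (n + 1) * t + i = i + l ^ (n + 1) * t from Nat.add_comm _ _, hperk]),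
        Finset.sum_const, Finset.card_range, nsmul_eq_mul]
    -- the lower level
    have hlow : (l : ZMod (l ^ (n + 1 + 1))) * (∑ i ∈ range (l ^ n), E i -
        ((l ^ n : ℕ) : ZMod (l ^ (n + 1 + 1))) * E 0) = 0 := by
      apply BLIM.l_mul_zero
      have hQd : ((QN l q0 n : ℕ) : ℤ) ∣ ((QN l q0 (n + 1) : ℕ) : ℤ) := by
        refine ⟨l, ?_⟩
        unfold QN
        push_cast
        ring
      have h1 := ih e e0 ψ hFm' he g R P S c hg (fun i => hQd.trans (hP i))
        (fun i => hQd.trans (hS i)) (fun i => hQd.trans (hc i)) 1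
      rw [mul_one] at h1
      rw [map_sub, map_mul, map_natCast, map_sum]
      simp only [hE]
      simp only [hcast]
      rw [h1, sub_self]
    have hfin : (l : ZMod (l ^ (n + 1 + 1))) * ∑ i ∈ range (l ^ n), E i =
        (l : ZMod (l ^ (n + 1 + 1))) * (((l ^ n : ℕ) : ZMod (l ^ (n + 1 + 1))) * E 0) := by
      linear_combination hlow
    rw [hall, hone, hfin]
    push_cast
    ring

end Pool.Agent.OEG.G
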