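import Pool.Agent.OEG.StA

/-!
# Project OEG: the cone identity with an unknown integral factor (helper94, after helper4)
-/

set_option autoImplicit false

namespace Pool.Agent.OEG

open Pool.Agent.P4G (Fam QN FN FZ)
open Pool.Agent.Lib_helper5.LK (Fm)
open Pool.Agent.Lib_helper5 (XZ YX RZ)

/-- the cone identity of a list of terms, up to an integral factor -/
def CIj (d : ℕ) (J : List Fm) : Prop :=
  ∃ z : ℤ, ∀ q : ℕ, 0 < q → Nat.Coprime q d → ∀ f : ℤ → ℤ, (∀ x, f (x + q) = f x) →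
    (∀ x, f (-x) = - f x) → (d : ℤ) * (4 * LJ q f J) = 3 * z * RZ q d f

/-- the first family -/
def Stmt_CIj1 : Prop := ∀ (d : ℕ) (l u p q b : ℤ) (m : ℕ), UF d → d % 8 = 5 → Q1 d l u p q b m →
    CIj d (J1 l u p q b m)

/-- the second family -/
def Stmt_CIj2 : Prop := ∀ (d : ℕ) (s l p : ℤ) (A m : ℕ), UF d → d % 8 = 5 → Q2 d s l p A m →
    CIj d (J2 s l p A m)

/-- the relations of the families, first family -/
def Stmt_RLj1 : Prop := ∀ (d : ℕ) (l u p q b : ℤ) (m : ℕ), OEX.Sg l → OEX.Sg u →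
    q * b = u * p - l → (d : ℤ) = (q * p ^ m + b) ^ 2 + 4 * l * p ^ m → 1 ≤ m →
    d % 8 = 5 → CIj d (J1 l u p q b m) → ∀ Q0 : ℕ, Nat.Coprime (Q0 * 13) d →
    RelJ Q0 (J1 l u p q b m)

/-- the relations of the families, second family -/
def Stmt_RLj2 : Prop := ∀ (d : ℕ) (s l p : ℤ) (A m : ℕ), OEX.Sg s → OEX.Sg l → 1 ≤ m → m + 1 ≤ A →
    (d : ℤ) = (p ^ A + s * p ^ m - l * s) ^ 2 + 4 * l * p ^ m →
    d % 8 = 5 → CIj d (J2 s l p A m) → ∀ Q0 : ℕ, Nat.Coprime (Q0 * 13) d →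
    RelJ Q0 (J2 s l p A m)

end Pool.Agent.OEG
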