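import Pool.Agent.OEG.Sg4

/-!
The exact relation for signed chains: the sum is a multiple of the value of the principal cycle.
-/

namespace Pool.Agent.OEG.SG

open Finset Function Pool.Agent.RDF Pool.Agent.Lib_helper5 Pool.Agent.LibH4 Pool.Agent.LibH4.CFO
  Pool.Agent.LibH4.CW

/-- the data attached to a number that is five modulo eight -/
theorem exists_data5 (d : ℕ) (h8 : d % 8 = 5) :
    ∃ (m B : ℤ) (s : ℝ) (x : ℕ → ℝ) (c : ℕ → ℕ), Data m B s x c ∧ 0 < m ∧ 1 ≤ B ∧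
      (d : ℤ) = B ^ 2 + 4 * m ∧ B % 2 = 1 ∧ m % 2 = 1 := by
  have hirr : Irrational √(d : ℝ) := by
    rw [irrational_sqrt_natCast_iff]
    rintro ⟨r, hr⟩
    have h1 : r % 8 < 8 := Nat.mod_lt _ (by norm_num)
    have h2 : (r * r) % 8 = 5 := by rw [← hr]; exact h8
    rw [Nat.mul_mod] at h2
    interval_cases r % 8 <;> omega
  have h1 : 1 < d := by omega
  have hpos : 0 < √(d : ℝ) := Real.sqrt_pos.2 (by positivity)
  have hsq : √(d : ℝ) ^ 2 = ((d : ℤ) : ℝ) := by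
    rw [Real.sq_sqrt (by positivity)]; push_cast; rfl
  set s := √(d : ℝ) with hs
  have hd1 : (1 : ℝ) < s := by
    rw [hs, Real.lt_sqrt (by norm_num)]
    have : (1 : ℝ) < d := by exact_mod_cast h1
    linarith
  obtain ⟨w, hw⟩ : ∃ w : ℝ, w = (1 + s) / 2 := ⟨_, rfl⟩
  have hωirr : Irrational w := by
    rw [hw]
    have := (hirr.intCast_add 1).div_natCast (m := 2) (by norm_num)
    exact_mod_cast this
  obtain ⟨g1, g2, g3⟩ := gsh_pos hωirr
  obtain ⟨q, hq⟩ : ∃ q : ℤ, q = ⌊w⌋ := ⟨_, rfl⟩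
  have hq1 : 1 ≤ q := by
    rw [hq]
    exact Int.le_floor.2 (by push_cast; rw [hw]; linarith)
  obtain ⟨B, hB⟩ : ∃ B : ℤ, B = 2 * q - 1 := ⟨_, rfl⟩
  have hfr : Int.fract w = (s - B) / 2 := by
    have : Int.fract w = w - q := by rw [hq]; rfl
    rw [this, hw, hB]; push_cast; ring
  have hf0 : 0 < Int.fract w := by
    have : (0 : ℝ) < (gsh w)⁻¹ := by positivity
    unfold gsh at this
    rwa [inv_inv] at this
  have hf1 := Int.fract_lt_one w
  rw [hfr] at hf0 hf1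
  have hB1 : 1 ≤ B := by omega
  have hBR : (1 : ℝ) ≤ B := by exact_mod_cast hB1
  have hBo : B % 2 = 1 := by omega
  obtain ⟨m, hm⟩ : ∃ m : ℤ, (d : ℤ) = B ^ 2 + 4 * m := by
    obtain ⟨c, hc⟩ : ∃ c, B = 2 * c + 1 := ⟨B / 2, by omega⟩
    obtain ⟨k, hk⟩ : ∃ k : ℤ, (d : ℤ) = 4 * k + 1 := ⟨d / 4, by omega⟩
    exact ⟨k - c ^ 2 - c, by rw [hk, hc]; ring⟩
  have hBs : (B : ℝ) < s := by linarith
  have hm0 : 0 < m := by
    have h2 : (B : ℝ) ^ 2 < s ^ 2 := by nlinarith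
    rw [hsq, hm] at h2
    push_cast at h2
    have h3 : (0 : ℝ) < m := by linarith
    exact_mod_cast h3
  have hm2 : m % 2 = 1 := by
    obtain ⟨c, hc⟩ : ∃ c, B = 2 * c + 1 := ⟨B / 2, by omega⟩
    obtain ⟨k, hk⟩ := Int.even_mul_succ_self c
    have e : (d : ℤ) = 4 * (c * (c + 1)) + 1 + 4 * m := by rw [hm, hc]; ring
    rw [hk] at e
    omega
  obtain ⟨x0, hx0⟩ : ∃ x0 : ℝ, x0 = (B + s) / 2 := ⟨_, rfl⟩
  have hx0i : Irrational x0 := by
    rw [hx0]
    have := (hirr.intCast_add B).div_natCast (m := 2) (by norm_num)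
    exact_mod_cast this
  have hx01 : 1 < x0 := by rw [hx0]; linarith
  have hgt : ∀ k, Irrational (gsh^[k] x0) ∧ 1 < gsh^[k] x0 := by
    intro k
    induction k with
    | zero => exact ⟨hx0i, hx01⟩
    | succ k ih =>
      rw [iterate_succ_apply']
      obtain ⟨a1, a2, -⟩ := gsh_pos ih.1
      exact ⟨a2, a1⟩
  refine ⟨m, B, s, fun k => gsh^[k] x0, fun k => ⌊gsh^[k] x0⌋.toNat, ?_, hm0, hB1, hm, hBo, hm2⟩
  exact {
    irr := hirr
    sq := by rw [hsq, hm]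
    x0 := hx0
    step := fun k => iterate_succ_apply' gsh k x0
    fl := by
      intro k
      have : (0 : ℤ) ≤ ⌊gsh^[k] x0⌋ := Int.le_floor.2 (by
        push_cast; linarith [(hgt k).2])
      exact Int.toNat_of_nonneg this
    Bs := hBs
    sB := by linarith
    x0pos := hx01 }

section

variable {m B : ℤ} {s : ℝ} {x : ℕ → ℝ} {c : ℕ → ℕ}

lemma nm_ne (h : Data m B s x c) (α : ℤ × ℤ) (hα : α ≠ 0) : nm m B α ≠ 0 := by
  intro h0
  apply hα
  obtain ⟨a, b⟩ := α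
  unfold nm at h0
  simp only at h0
  have h1 : (((2 * a + B * b : ℤ) : ℝ) - s * (b : ℝ)) * (((2 * a + B * b : ℤ) : ℝ) + s * (b : ℝ)) = 0 := by
    have h2 := congrArg (Int.cast : ℤ → ℝ) h0
    have h3 := h.sq
    push_cast at h2 h3 ⊢
    linear_combination 4 * h2 - (b : ℝ) ^ 2 * h3
  rcases mul_eq_zero.1 h1 with h2 | h2
  · obtain ⟨e1, e2⟩ := irr_lin h.irr (A := 2 * a + B * b) (C := -b) (by push_cast at h2 ⊢; linarith)
    have hb : b = 0 := by omega
    subst hb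
    have ha : a = 0 := by omega
    rw [ha]
    rfl
  · obtain ⟨e1, e2⟩ := irr_lin h.irr (A := 2 * a + B * b) (C := b) (by push_cast at h2 ⊢; linarith)
    subst e1
    have ha : a = 0 := by omega
    rw [ha]
    rfl

lemma nm_pr (z : QuadraticAlgebra ℤ m B) : nm m B (pr z) = z.norm := by
  rw [← tq_norm, tq_pr]

lemma nm_unit (w : (QuadraticAlgebra ℤ m B)ˣ) :
    nm m B (pr (w : QuadraticAlgebra ℤ m B)) = 1 ∨ nm m B (pr (w : QuadraticAlgebra ℤ m B)) = -1 := by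
  rw [nm_pr]
  exact Int.natAbs_eq_iff.1 (CG.unit_norm w)

lemma is_unit_tq {α : ℤ × ℤ} (h : nm m B α = 1 ∨ nm m B α = -1) : IsUnit (tq m B α) := by
  rw [QuadraticAlgebra.isUnit_iff_norm_isUnit, tq_norm, Int.isUnit_iff]
  exact h

lemma mu_one (α : ℤ × ℤ) : mu m B α (1, 0) = α := by
  unfold mu; ext <;> simp

/-- moving a path by a unit -/
lemma shift_path {ε : ℤ × ℤ} (hε : nm m B ε = 1 ∨ nm m B ε = -1) {q : ℕ} [NeZero q] {f : ℤ → ℤ}
    (hper : ∀ x, f (x + q) = f x) (hodd : ∀ x, f (-x) = - f x) {U : ℤ × ℤ → ℚ}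
    (hU : ∀ α β, Adj α β → U β - U α = Ph m B q f α β) (w : ℕ → ℤ × ℤ) (n : ℕ)
    (hw : ∀ k < n, Adj (w k) (w (k + 1))) :
    U (mu m B ε (w n)) - U (w n) = U (mu m B ε (w 0)) - U (w 0) := by
  induction n with
  | zero => rfl
  | succ n ih =>
    rw [← ih (fun k hk => hw k (by omega))]
    have ha := hw n (by omega)
    have ha' : Adj (mu m B ε (w n)) (mu m B ε (w (n + 1))) := by
      unfold Adj at *
      rw [dt_mu]
      rcases hε with e | e <;> rcases ha with a | a <;> rw [e, a] <;> norm_num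
    have h1 := hU _ _ ha
    have h2 := hU _ _ ha'
    rw [Ph_mu hε hper hodd] at h2
    linear_combination h2 - h1

/-- powers of a unit -/
lemma U_pow {q : ℕ} [NeZero q] {f : ℤ → ℤ}
    (hper : ∀ x, f (x + q) = f x) (hodd : ∀ x, f (-x) = - f x) {U : ℤ × ℤ → ℚ}
    (hU : ∀ α β, Adj α β → U β - U α = Ph m B q f α β) (w : ℕ → ℤ × ℤ) (n : ℕ)
    (hw : ∀ k < n, Adj (w k) (w (k + 1))) (w0 : w 0 = (1, 0)) (u : (QuadraticAlgebra ℤ m B)ˣ)
    (hu : pr (u : QuadraticAlgebra ℤ m B) = w n) (j : ℤ) :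
    U (pr ((u ^ j : (QuadraticAlgebra ℤ m B)ˣ) : QuadraticAlgebra ℤ m B)) =
      U (1, 0) + j * (U (w n) - U (1, 0)) := by
  have stp : ∀ j : ℤ, U (pr ((u ^ (j + 1) : (QuadraticAlgebra ℤ m B)ˣ) : QuadraticAlgebra ℤ m B)) =
      U (pr ((u ^ j : (QuadraticAlgebra ℤ m B)ˣ) : QuadraticAlgebra ℤ m B)) +
        (U (w n) - U (1, 0)) := by
    intro j
    have h1 := shift_path (nm_unit (u ^ j)) hper hodd hU w n hw
    rw [w0, mu_one] at h1
    rw [zpow_add_one, Units.val_mul, pr_mul, hu]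
    linear_combination h1
  induction j using Int.induction_on with
  | zero =>
    rw [zpow_zero, Units.val_one]
    have : pr (1 : QuadraticAlgebra ℤ m B) = (1, 0) := rfl
    rw [this]
    push_cast
    ring
  | succ j ih =>
    rw [stp, ih]
    push_cast
    ring
  | pred j ih =>
    have h1 := stp (-(j : ℤ) - 1)
    rw [sub_add_cancel, ih] at h1
    push_cast at h1 ⊢
    linear_combination -h1

end

/-- the positive cycle is a signed chain -/
lemma sc_of {m B : ℤ} {K : ℕ} {P R S : ℕ → ℤ} {c : ℕ → ℕ} (h : CG.CycM m B K P R S c) :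
    SCyc K P R S (fun k => (c k : ℤ)) where
  hP := h.hP
  hR := h.hR
  hS := h.hS
  S0 := h.S1
  cl := Or.inl ⟨h.P0, h.R0, h.S0⟩

/-- **the exact relation** -/
theorem main {d : ℕ} (h8 : d % 8 = 5)
    (hUF : ∀ m B : ℤ, (d : ℤ) = B ^ 2 + 4 * m → ∃ _ : IsDomain (QuadraticAlgebra ℤ m B),
      UniqueFactorizationMonoid (QuadraticAlgebra ℤ m B))
    {K : ℕ} {P R S c : ℕ → ℤ} (h : SCyc K P R S c) (hd : (d : ℤ) = R 0 ^ 2 + 4 * P 0) :
    ∃ j : ℤ, ∀ q : ℕ, 0 < q → Nat.Coprime q d → ∀ f : ℤ → ℤ, (∀ x, f (x + q) = f x) →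
      (∀ x, f (-x) = - f x) → (d : ℤ) * (4 * LS K P R S c q f) = 3 * j * RZ q d f := by
  obtain ⟨m, B, s, x, c0, hD, hm, hB1, hdB, hB2, hm2⟩ := exists_data5 d h8
  obtain ⟨iD, iU⟩ := hUF m B hdB
  obtain ⟨t, ht⟩ : ∃ t : ℤ, R 0 = B + 2 * t := by
    have h1 : R 0 % 2 = 1 := by
      rcases Int.emod_two_eq_zero_or_one (R 0) with h0 | h0
      · exfalso
        obtain ⟨r, hr⟩ : ∃ r, R 0 = 2 * r := ⟨R 0 / 2, by omega⟩
        have : (d : ℤ) = 4 * (r ^ 2 + P 0) := by rw [hd, hr]; ring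
        omega
      · exact h0
    exact ⟨(R 0 - B) / 2, by omega⟩
  have hP0 : P 0 = m - B * t - t ^ 2 := by
    have : 4 * P 0 = 4 * (m - B * t - t ^ 2) := by
      rw [ht] at hd
      linear_combination hdB - hd
    linarith
  have hns := nm_ne hD
  obtain ⟨J, hJ, hC, hPo, e, he, key⟩ := exists_cyc hD hm hm2 hB2 hdB h8
  have hSC := sc_of hC
  -- the unit of the principal cycle
  obtain ⟨u, hu⟩ : ∃ u : (QuadraticAlgebra ℤ m B)ˣ,
      (u : QuadraticAlgebra ℤ m B) = CG.rho m B c0 (2 * J + 1) := by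
    have : IsUnit (CG.rho m B c0 (2 * J + 1)) := by
      rw [QuadraticAlgebra.isUnit_iff_norm_isUnit, CG.norm_rho hC (2 * J) le_rfl, hC.S0, hC.S1,
        mul_one, Int.isUnit_iff]
      exact neg_one_pow_eq_or ℤ _
    exact ⟨this.unit, rfl⟩
  -- the unit of the formal chain
  obtain ⟨hn, -⟩ := chain_end h hP0 ht
  obtain ⟨w, hw⟩ := is_unit_tq hn
  have hsq : ∀ σ : QuadraticAlgebra ℤ m B →ₐ[ℤ] ℝ,
      0 < σ ((w * w : (QuadraticAlgebra ℤ m B)ˣ) : QuadraticAlgebra ℤ m B) := by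
    intro σ
    rw [Units.val_mul, map_mul]
    have h1 : σ (w : QuadraticAlgebra ℤ m B) ≠ 0 := by
      have := (Units.map (σ : QuadraticAlgebra ℤ m B →* ℝ) w).ne_zero
      exact this
    exact mul_self_pos.2 h1
  obtain ⟨j, hj⟩ := unit_pow hm J hC hJ hPo u (w * w) hu (hsq _) (hsq _)
  refine ⟨if e = 1 then 2 * j else j, ?_⟩
  intro q hq hcop f hper hodd
  have : NeZero q := ⟨hq.ne'⟩
  obtain ⟨U, hUn, hU⟩ := exists_potential (coc hns hper hodd (m := m) (B := B))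
  have l1 := LS_unit hns hSC (t := 0) (by rw [hC.Pm]; ring) (by rw [hC.RB]; ring) hper hodd hUn hU
  have l2 := LS_unit hns h hP0 ht hper hodd hUn hU
  have adj1 : ∀ k < 2 * J, Adj (vv 0 (fun k => (c0 k : ℤ)) (k + 1))
      (vv 0 (fun k => (c0 k : ℤ)) (k + 1 + 1)) := by
    intro k hk
    have h1 := (chain_inv (m := m) (B := B) hSC (t := 0) (by rw [hC.Pm]; ring)
      (by rw [hC.RB]; ring) (k + 1) (by omega)).2.2.2
    unfold Adj
    rw [h1]
    rcases sgn_cases (k + 1) with e | e <;> rw [e] <;> simp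
  have adj2 : ∀ k < K, Adj (vv t c (k + 1)) (vv t c (k + 1 + 1)) := by
    intro k hk
    have h1 := (chain_inv (m := m) (B := B) h hP0 ht (k + 1) (by omega)).2.2.2
    unfold Adj
    rw [h1]
    rcases sgn_cases (k + 1) with e | e <;> rw [e] <;> simp
  have p1 := U_pow hper hodd hU (fun k => vv 0 (fun k => (c0 k : ℤ)) (k + 1)) (2 * J) adj1
    (vv_one _ _) u (by
      rw [hu, ← (vv_rho (m := m) (B := B) c0 (2 * J)).2, pr_tq]) j
  have p2 := shift_path hn hper hodd hU (fun k => vv t c (k + 1)) K adj2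
  beta_reduce at p1 p2
  rw [zero_add, vv_one, mu_one] at p2
  have hww : pr ((w * w : (QuadraticAlgebra ℤ m B)ˣ) : QuadraticAlgebra ℤ m B) =
      mu m B (vv t c (K + 1)) (vv t c (K + 1)) := by
    rw [Units.val_mul, pr_mul, hw, pr_tq]
  rw [hj] at hww
  rw [hww] at p1
  have hq : (2 * LS K P R S c q f : ℚ) =
      j * (LS (2 * J) (QP m B c0) (QR m B c0) (QS m B c0) (fun k => (c0 k : ℤ)) q f : ℚ) := by
    rw [l1, l2]
    linear_combination -p1 + p2
  have hq' : 2 * LS K P R S c q f = j * LL (2 * J) (QP m B c0) (QR m B c0) (QS m B c0) c0 q f := by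
    exact_mod_cast hq
  have k1 := key q (Nat.pos_of_ne_zero (NeZero.ne q)) hcop f hper hodd
  rcases he with rfl | rfl
  · rw [if_pos rfl]
    linear_combination (2 * (d : ℤ)) * hq' + 2 * j * k1
  · rw [if_neg (by norm_num)]
    linear_combination (2 * (d : ℤ)) * hq' + j * k1

end Pool.Agent.OEG.SG
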