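import Pool.Agent.OEG.F2Fin
import Pool.Agent.OEG.Sg5
import Pool.Agent.OEG.CIj

/-!
The cone identities of the two families with an unknown integer factor.
-/

set_option autoImplicit false

namespace Pool.Agent.OEG

open Finset (range)
open Pool.Agent.Lib_helper5.LK (Fm)
open Pool.Agent.Lib_helper5 (XZ YX RZ)

lemma sg_sq {x : ℤ} (h : OEX.Sg x) : x ^ 2 = 1 := by
  rcases h with h | h <;> rw [h] <;> norm_num

/-- **the cone identity of the first family** -/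
theorem ci1 {d : ℕ} (hUF : UF d) (h8 : d % 8 = 5) {l u p q b : ℤ} {m : ℕ} (hl : OEX.Sg l)
    (hu : OEX.Sg u) (hqb : q * b = u * p - l)
    (hd : (d : ℤ) = (q * p ^ m + b) ^ 2 + 4 * l * p ^ m) : CIj d (J1 l u p q b m) := by
  have hP : F1.Par p q b l u := ⟨sg_sq hl, sg_sq hu, hqb⟩
  obtain ⟨j, hj⟩ := SG.main h8 hUF (F1.scyc (m := m) hP) (by
    rw [F1.R_zero, F1.P_zero, hd]; ring)
  refine ⟨j, fun Q hQ hcop f hper hodd => ?_⟩
  have : NeZero Q := ⟨hQ.ne'⟩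
  rw [← F1.LS_LJ hP hper hodd]
  exact hj Q hQ hcop f hper hodd

/-- **the cone identity of the second family** -/
theorem ci2 {d : ℕ} (hUF : UF d) (h8 : d % 8 = 5) {s l p : ℤ} {A m : ℕ} (hs : OEX.Sg s)
    (hl : OEX.Sg l) (hm : 1 ≤ m) (hA : m < A) (hcop : Nat.Coprime A m) (hp : p ≠ 0)
    (hd : (d : ℤ) = (p ^ A + s * p ^ m - l * s) ^ 2 + 4 * l * p ^ m) : CIj d (J2 s l p A m) := by
  have hP : F2.Par s l A m := ⟨sg_sq hs, sg_sq hl, hm, hA, hcop⟩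
  obtain ⟨j, hj⟩ := SG.main h8 hUF (F2.scyc (p := p) hP hp) (by
    rw [F2.R_zero, F2.P_zero, hd]
    unfold F2.N1
    ring)
  refine ⟨j, fun Q hQ hcop f hper hodd => ?_⟩
  have : NeZero Q := ⟨hQ.ne'⟩
  rw [← F2.LS_LJ hP hper hodd]
  exact hj Q hQ hcop f hper hodd

theorem t_CIj1 : Stmt_CIj1 := fun _ _ _ _ _ _ _ hUF h8 h => ci1 hUF h8 h.l1 h.u1 h.qb h.D1

theorem t_CIj2 : Stmt_CIj2 := fun _ _ _ _ _ _ hUF h8 h =>
  ci2 hUF h8 h.s1 h.l1 h.m1 (by have := h.A2; omega) h.cop (by have := h.p5; omega) h.D1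

end Pool.Agent.OEG
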