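import Pool.Agent.OEG.StG

/-!
# Project OEG, module CQ3: the three central sums
-/

set_option autoImplicit false

namespace Pool.Agent.OEG.G

open Finset (range)
open Pool.Agent.PSX (SX I0)
open Pool.Agent.P4G (Fam QN FN FZ)
open Pool.Agent.Lib_helper5.LK (Fm)

theorem CQ3_SX {M : Type*} [CommRing M] (Q : ℕ) (a b : M) (f g : ℤ → M)
    (h : ∀ x, a * f x = b * g x) : a * SX Q f = b * SX Q g := by
  unfold SX
  rw [Finset.mul_sum, Finset.mul_sum]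
  refine Finset.sum_congr rfl fun x _ => ?_
  rw [mul_left_comm, h, mul_left_comm]

theorem t_CQ3 (hCQP : PSX.Stmt_CQP) (hUNI : PSX.Stmt_UNI) : Stmt_CQ3 := by
  intro l q0 n e e0 ψ _ hF X σ hσ hX
  have h := hF.fam
  have h1 : FN l n e ψ 1 = 1 := (hUNI l q0 n e e0 ψ hF).2.1
  have hneg : ∀ u : ℤ, FN l n e ψ (-u) = - FN l n e ψ u := h.FN_neg
  have hs : FN l n e ψ σ = (σ : ZMod (l ^ (n + 1))) := by
    rcases hσ with rfl | rfl
    · simpa using h1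
    · rw [hneg, h1]; push_cast; rfl
  have hss : σ ^ 2 = 1 := by rcases hσ with rfl | rfl <;> norm_num
  have hsc : IsCoprime σ ((q0 * l : ℕ) : ℤ) := ⟨σ, 0, by rw [zero_mul, add_zero, ← sq, hss]⟩
  have hsX : FN l n e ψ (σ * X) = σ * FN l n e ψ X := by rw [h.FN_mul, hs]
  have hc1 : IsCoprime (σ * X) ((q0 * l : ℕ) : ℤ) := hsc.mul_left hX
  have hc3 : IsCoprime (-X) ((q0 * l : ℕ) : ℤ) := hX.neg_left
  have e1 := CQ3_SX (QN l q0 n) _ _ _ _
    (fun x => hCQP l q0 n e e0 ψ hF 1 (-σ) (σ * X) X (-σ) σ x hc1 hsc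
      ⟨0, by ring⟩)
  have e2 := CQ3_SX (QN l q0 n) _ _ _ _
    (fun x => hCQP l q0 n e e0 ψ hF X (2 * X + σ) (-X) X (-σ) σ x hc3 hsc
      ⟨0, by ring⟩)
  rw [hsX, hs] at e1
  rw [hneg, hs] at e2
  linear_combination e1 + e2
end Pool.Agent.OEG.G
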