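import Pool.Agent.OEG.StG

/-!
# Project OEG: module CR1, core of the ghosts 2, 3, 4
-/

set_option autoImplicit false

namespace Pool.Agent.OEG.G

open Finset (range)
open Pool.Agent.PSX (Es W sg nu ev Z0 EZ SX I0 I1 TT ED fb evZ v3 v5 v7)
open Pool.Agent.P4G (Fam QN FN FZ CR)
open Pool.Agent.Lib_helper5.LK (Fm)

namespace CR1aux

theorem cast_zero (n T : ℕ) (h1 : 13 ^ n ∣ T) (h2 : ¬ 13 ^ (n + 1) ∣ T)
    (x : ZMod (13 ^ (n + 1))) (hx : (T : ZMod (13 ^ (n + 1))) * x = 0) :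
    ZMod.castHom (dvd_pow_self 13 (Nat.succ_ne_zero n)) (ZMod 13) x = 0 := by
  have : NeZero (13 ^ (n + 1)) := ⟨by positivity⟩
  obtain ⟨T', rfl⟩ := h1
  have h3 : ¬ 13 ∣ T' := fun h => h2 (by
    rw [pow_succ]
    exact mul_dvd_mul_left _ h)
  have h4 : (((13 ^ n * T') * x.val : ℕ) : ZMod (13 ^ (n + 1))) = 0 := by
    rw [Nat.cast_mul, ZMod.natCast_zmod_val]
    exact hx
  rw [ZMod.natCast_eq_zero_iff, mul_assoc] at h4
  have h5 : 13 ∣ T' * x.val := by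
    generalize T' * x.val = w at h4
    rw [pow_succ] at h4
    exact Nat.dvd_of_mul_dvd_mul_left (by positivity) h4
  have h6 : 13 ∣ x.val := ((by norm_num : Nat.Prime 13).dvd_mul.1 h5).resolve_left h3
  have h7 : ((x.val : ℕ) : ZMod 13) = 0 := (ZMod.natCast_eq_zero_iff _ _).2 h6
  rw [← ZMod.natCast_zmod_val x, map_natCast]
  exact h7

theorem E0_congr (q0 : ℕ) [NeZero (q0 * 13)] (χ : ℤ → ZMod 13) (P R S S' c : ℤ)
    (h : (S : ZMod (q0 * 13)) = (S' : ZMod (q0 * 13))) : E0 q0 χ P R S c = E0 q0 χ P R S' c := by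
  unfold E0
  rw [h]

theorem pb_pow (m : ℕ) (p pb : ℤ) (h1 : (m : ℤ) ∣ p ^ 12 - 1) (h2 : (m : ℤ) ∣ p * pb - 1)
    (j : ℕ) (hj : j ≤ 12) : ((pb ^ j : ℤ) : ZMod m) = ((p ^ (12 - j) : ℤ) : ZMod m) := by
  have e1 : ((p : ZMod m)) ^ 12 = 1 := by
    have := (ZMod.intCast_zmod_eq_zero_iff_dvd _ m).2 h1
    push_cast at this
    exact sub_eq_zero.1 this
  have e2 : (p : ZMod m) * (pb : ZMod m) = 1 := by
    have := (ZMod.intCast_zmod_eq_zero_iff_dvd _ m).2 h2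
    push_cast at this
    exact sub_eq_zero.1 this
  push_cast
  calc (pb : ZMod m) ^ j = (pb : ZMod m) ^ j * (p : ZMod m) ^ 12 := by rw [e1, mul_one]
    _ = (pb : ZMod m) ^ j * ((p : ZMod m) ^ j * (p : ZMod m) ^ (12 - j)) := by
        rw [← pow_add]
        congr 2
        omega
    _ = ((p : ZMod m) * (pb : ZMod m)) ^ j * (p : ZMod m) ^ (12 - j) := by
        rw [mul_pow]
        ring
    _ = (p : ZMod m) ^ (12 - j) := by rw [e2, one_pow, one_mul]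

theorem EL0_L4 (q0 : ℕ) [NeZero (q0 * 13)] (χ : ℤ → ZMod 13) (p X σ : ℤ) :
    EL0 q0 χ (L4 p X σ) =
      ∑ j ∈ range 12, E0 q0 χ (p ^ j) (-σ) (σ * (X * p ^ (12 - j))) (σ * p ^ j) +
      ∑ j ∈ range 12, E0 q0 χ (X * p ^ j) (2 * X + σ) (-(X * p ^ (12 - j))) (-p ^ j) := by
  unfold EL0 L4
  rw [List.map_append, List.sum_append, List.map_map, List.map_map]
  have h : ∀ f : ℕ → ZMod 13, ((List.range 12).map f).sum = ∑ j ∈ range 12, f j := by
    intro f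
    rw [Finset.sum_range_succ, Finset.sum_range_succ, Finset.sum_range_succ, Finset.sum_range_succ,
      Finset.sum_range_succ, Finset.sum_range_succ, Finset.sum_range_succ, Finset.sum_range_succ,
      Finset.sum_range_succ, Finset.sum_range_succ, Finset.sum_range_succ, Finset.sum_range_one]
    simp only [List.range_succ, List.range_zero, List.map_append, List.map_cons, List.map_nil,
      List.sum_append, List.sum_cons, List.sum_nil]
    ring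
  rw [h, h]
  congr 1
  refine Finset.sum_congr rfl fun j _ => ?_
  simp only [Function.comp, neg_neg]

theorem core (hGP1 : Stmt_GP1) (hLV0 : Stmt_LV0) (q0 n T s t : ℕ) (p pb X σ : ℤ)
    (hq : q0 ∣ 105) (h1 : 13 ^ n ∣ T) (h2 : ¬ 13 ^ (n + 1) ∣ T) (h3 : (1365 : ℤ) ∣ p ^ 12 - 1)
    (h4 : (1365 : ℤ) ∣ p ^ T - 1) (h5 : (105 * 13 ^ (n + 1) : ℤ) ∣ p * pb - 1)
    (e e0 : ℕ) (ψ : ℤ → ℤ) (χ : ℤ → ZMod 13) [NeZero (QN 13 q0 n)] [NeZero (q0 * 13)]
    (hF : PSX.Fm 13 q0 n e e0 ψ) (he : 2 * e0 < 12) (hχ : ∀ u, fb e ψ u = χ u)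
    (hne : EL0 q0 χ (L4 p X σ) ≠ 0) :
    ∑ j ∈ range T, Ge q0 n e ψ 1 (-σ) (σ * X) σ p pb (s + j)
        + ∑ j ∈ range T, Ge q0 n e ψ X (2 * X + σ) (-X) (-1) p pb (t + j) ≠ 0 := by
  intro h0
  apply hne
  have hqz : ((q0 : ℕ) : ℤ) ∣ 105 := by exact_mod_cast hq
  have hQ : ((QN 13 q0 n : ℕ) : ℤ) ∣ p * pb - 1 := by
    refine dvd_trans ?_ h5
    unfold QN
    push_cast
    exact mul_dvd_mul_right hqz _
  have hm : ((q0 * 13 : ℕ) : ℤ) ∣ 1365 := by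
    have : (1365 : ℤ) = 105 * 13 := by norm_num
    rw [this]
    push_cast
    exact mul_dvd_mul_right hqz _
  have h12 : ((q0 * 13 : ℕ) : ℤ) ∣ p ^ 12 - 1 := hm.trans h3
  have hT : ((q0 * 13 : ℕ) : ℤ) ∣ p ^ T - 1 := hm.trans h4
  have hpb : ((q0 * 13 : ℕ) : ℤ) ∣ p * pb - 1 := by
    refine dvd_trans ?_ h5
    push_cast
    exact mul_dvd_mul hqz (dvd_pow_self 13 (Nat.succ_ne_zero n))
  have g1 := hGP1 q0 n e e0 ψ hF he 1 (-σ) (σ * X) σ p pb s T hQ h12 hT h1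
  have g2 := hGP1 q0 n e e0 ψ hF he X (2 * X + σ) (-X) (-1) p pb t T hQ h12 hT h1
  have g3 : (T : ZMod (13 ^ (n + 1))) *
      (∑ j ∈ range 12, Ge q0 n e ψ 1 (-σ) (σ * X) σ p pb j +
        ∑ j ∈ range 12, Ge q0 n e ψ X (2 * X + σ) (-X) (-1) p pb j) = 0 := by
    rw [mul_add, ← g1, ← g2, ← mul_add, h0, mul_zero]
  have g4 := cast_zero n T h1 h2 _ g3
  rw [map_add, map_sum, map_sum] at g4
  rw [EL0_L4, ← g4]
  congr 1
  · refine Finset.sum_congr rfl fun j hj => ?_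
    have hj' : j ≤ 12 := by
      have := Finset.mem_range.1 hj
      omega
    unfold Ge
    rw [hLV0 q0 n e e0 ψ χ hF hχ, one_mul]
    refine E0_congr q0 χ _ _ _ _ _ ?_
    have := pb_pow (q0 * 13) p pb h12 hpb j hj'
    push_cast at this ⊢
    rw [this]
    ring
  · refine Finset.sum_congr rfl fun j hj => ?_
    have hj' : j ≤ 12 := by
      have := Finset.mem_range.1 hj
      omega
    unfold Ge
    rw [hLV0 q0 n e e0 ψ χ hF hχ, neg_one_mul]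
    refine E0_congr q0 χ _ _ _ _ _ ?_
    have := pb_pow (q0 * 13) p pb h12 hpb j hj'
    push_cast at this ⊢
    rw [this]
    ring

end CR1aux

open CR1aux in
theorem t_CR1 (hGP1 : Stmt_GP1) (hLV0 : Stmt_LV0) (hFAI : Stmt_FAI) (hNV4 : Stmt_NV4) :
    Stmt_CR1 := by
  intro n T s t p pb X σ m' hσ h1 h2 h3 h4 h5 h6 h7
  have i1 : NeZero (35 * 13) := ⟨by norm_num⟩
  have i2 : NeZero (15 * 13) := ⟨by norm_num⟩
  have i3 : NeZero (QN 13 35 n) := ⟨by unfold QN; positivity⟩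
  have i4 : NeZero (QN 13 15 n) := ⟨by unfold QN; positivity⟩
  obtain ⟨fa, fb', fc, -, -⟩ := hFAI
  rcases hNV4 p X σ m' hσ h3 h6 h7 with h | h | h
  · obtain ⟨e, ψ, hF, hχ⟩ := fa n
    exact ⟨35, e, 5, ψ, i3, by norm_num, hF, by norm_num,
      core hGP1 hLV0 35 n T s t p pb X σ (by norm_num) h1 h2 h3 h4 h5 e 5 ψ χa hF (by norm_num)
        hχ h⟩
  · obtain ⟨e, ψ, hF, hχ⟩ := fb' n
    exact ⟨35, e, 5, ψ, i3, by norm_num, hF, by norm_num,
      core hGP1 hLV0 35 n T s t p pb X σ (by norm_num) h1 h2 h3 h4 h5 e 5 ψ χb hF (by norm_num)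
        hχ h⟩
  · obtain ⟨e, ψ, hF, hχ⟩ := fc n
    exact ⟨15, e, 3, ψ, i4, by norm_num, hF, by norm_num,
      core hGP1 hLV0 15 n T s t p pb X σ (by norm_num) h1 h2 h3 h4 h5 e 3 ψ χc hF (by norm_num)
        hχ h⟩

end Pool.Agent.OEG.G
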