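import Pool.Agent.OEG.StG

/-!
# Level change of an edge sum
-/

set_option autoImplicit false

namespace Pool.Agent.OEG.G

open Pool.Agent.PSX (Es W sg nu ev Z0)

theorem t_DSG (hDSW : Stmt_DSW) : Stmt_DSG := by
  intro Q' Q _ _ h hodd M M' _ _ π F F' hF P R S c
  classical
  set φ : ZMod Q →+* ZMod Q' := ZMod.castHom h (ZMod Q') with hφ
  set G : ZMod Q' → ZMod Q' → M' := fun x y => F' (ev (φ P) (φ R) (φ S) x y) with hG
  have h1 : π (Es F P R S c) = ∑ x : ZMod Q, ∑ y : ZMod Q, G (φ x) (φ y) * ((W c x y : ℤ) : M') := by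
    unfold Es
    rw [map_sum]
    refine Finset.sum_congr rfl fun x _ => ?_
    rw [map_sum]
    refine Finset.sum_congr rfl fun y _ => ?_
    rw [map_mul, map_intCast, hF]
    have h2 : φ (ev P R S x y) = ev (φ P) (φ R) (φ S) (φ x) (φ y) := by
      unfold ev
      simp only [map_sub, map_add, map_mul, map_pow]
    rw [h2]
  have h3 : ∀ x y : ZMod Q, G (φ x) (φ y) * ((W c x y : ℤ) : M') =
      ∑ x' : ZMod Q', ∑ y' : ZMod Q', G x' y' *
        (((if φ x = x' ∧ φ y = y' then W c x y else 0) : ℤ) : M') := by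
    intro x y
    rw [Finset.sum_eq_single (φ x)]
    · rw [Finset.sum_eq_single (φ y)]
      · rw [if_pos ⟨rfl, rfl⟩]
      · intro b _ hb
        rw [if_neg (fun hh => hb hh.2.symm), Int.cast_zero, mul_zero]
      · intro hh
        exact absurd (Finset.mem_univ _) hh
    · intro b _ hb
      refine Finset.sum_eq_zero fun y' _ => ?_
      rw [if_neg (fun hh => hb hh.1.symm), Int.cast_zero, mul_zero]
    · intro hh
      exact absurd (Finset.mem_univ _) hh
  have h4 : π (Es F P R S c) = ∑ x' : ZMod Q', ∑ y' : ZMod Q', G x' y' *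
      ((W c x' y' + if x' = 0 then c * ((Q / Q' : ℕ) - 1) else 0 : ℤ) : M') := by
    rw [h1]
    have h5 : ∀ x' y' : ZMod Q', G x' y' *
        ((W c x' y' + if x' = 0 then c * ((Q / Q' : ℕ) - 1) else 0 : ℤ) : M') =
        ∑ x : ZMod Q, ∑ y : ZMod Q, G x' y' *
        (((if φ x = x' ∧ φ y = y' then W c x y else 0) : ℤ) : M') := by
      intro x' y'
      rw [← hDSW Q' Q h hodd c x' y']
      simp only [Int.cast_sum, Finset.mul_sum]
      rfl
    rw [Finset.sum_congr rfl fun x _ => Finset.sum_congr rfl fun y _ => h3 x y]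
    rw [Finset.sum_congr rfl fun x' _ => Finset.sum_congr rfl fun y' _ => h5 x' y']
    calc ∑ x : ZMod Q, ∑ y : ZMod Q, ∑ x' : ZMod Q', ∑ y' : ZMod Q', G x' y' *
          (((if φ x = x' ∧ φ y = y' then W c x y else 0) : ℤ) : M')
        = ∑ x : ZMod Q, ∑ x' : ZMod Q', ∑ y : ZMod Q, ∑ y' : ZMod Q', G x' y' *
          (((if φ x = x' ∧ φ y = y' then W c x y else 0) : ℤ) : M') :=
          Finset.sum_congr rfl fun x _ => Finset.sum_comm
      _ = ∑ x' : ZMod Q', ∑ x : ZMod Q, ∑ y : ZMod Q, ∑ y' : ZMod Q', G x' y' *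
          (((if φ x = x' ∧ φ y = y' then W c x y else 0) : ℤ) : M') := Finset.sum_comm
      _ = ∑ x' : ZMod Q', ∑ x : ZMod Q, ∑ y' : ZMod Q', ∑ y : ZMod Q, G x' y' *
          (((if φ x = x' ∧ φ y = y' then W c x y else 0) : ℤ) : M') :=
          Finset.sum_congr rfl fun x' _ => Finset.sum_congr rfl fun x _ => Finset.sum_comm
      _ = ∑ x' : ZMod Q', ∑ y' : ZMod Q', ∑ x : ZMod Q, ∑ y : ZMod Q, G x' y' *
          (((if φ x = x' ∧ φ y = y' then W c x y else 0) : ℤ) : M') :=
          Finset.sum_congr rfl fun x' _ => Finset.sum_comm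
  rw [h4]
  simp only [Int.cast_add, mul_add, Finset.sum_add_distrib]
  congr 1
  rw [Finset.sum_eq_single (0 : ZMod Q')]
  · unfold Z0
    rw [Finset.mul_sum]
    refine Finset.sum_congr rfl fun y' _ => ?_
    rw [if_pos rfl, mul_comm]
    congr 1
    show F' (ev (φ P) (φ R) (φ S) 0 y') = F' (-(φ S * y' ^ 2))
    unfold ev
    congr 1
    ring
  · intro b _ hb
    refine Finset.sum_eq_zero fun y' _ => ?_
    rw [if_neg hb, Int.cast_zero, mul_zero]
  · intro hh
    exact absurd (Finset.mem_univ _) hh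

end Pool.Agent.OEG.G
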