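import Pool.Agent.OEG.StG
import Pool.Agent.PSX.M_NUS

/-!
# Module DSW (helper4): distribution of the weights over the fibres of `ZMod Q → ZMod Q'`
-/

set_option autoImplicit false

namespace Pool.Agent.OEG.G

open Finset (range)
open Pool.Agent.PSX (W sg nu)
open Pool.Agent.RDF (β)

namespace DSWM

variable {Q' Q : ℕ} [NeZero Q'] [NeZero Q]

/-- sum over a fibre -/
lemma fib (h : Q' ∣ Q) (g : ZMod Q → ℤ) (x' : ZMod Q') :
    ∑ x : ZMod Q, (if ZMod.castHom h (ZMod Q') x = x' then g x else 0) =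
      ∑ k ∈ range (Q / Q'), g ((x'.val + Q' * k : ℕ) : ZMod Q) := by
  classical
  have hQ' : 0 < Q' := Nat.pos_of_ne_zero (NeZero.ne Q')
  have hval : ∀ k < Q / Q', ((x'.val + Q' * k : ℕ) : ZMod Q).val = x'.val + Q' * k := by
    intro k hk
    apply ZMod.val_cast_of_lt
    have h1 := ZMod.val_lt x'
    have h2 : Q' * (k + 1) ≤ Q' * (Q / Q') := Nat.mul_le_mul_left _ hk
    have h3 : Q' * (Q / Q') = Q := Nat.mul_div_cancel' h
    rw [mul_add, mul_one] at h2
    omega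
  rw [← Finset.sum_filter]
  symm
  refine Finset.sum_bij' (fun k _ => ((x'.val + Q' * k : ℕ) : ZMod Q)) (fun x _ => x.val / Q')
    ?_ ?_ ?_ ?_ ?_
  · intro k _
    rw [Finset.mem_filter]
    refine ⟨Finset.mem_univ _, ?_⟩
    rw [map_natCast]
    push_cast
    rw [ZMod.natCast_self, zero_mul, add_zero, ZMod.natCast_zmod_val]
  · intro x _
    rw [Finset.mem_range]
    have h1 := ZMod.val_lt x
    rw [Nat.div_lt_iff_lt_mul hQ', mul_comm, Nat.mul_div_cancel' h]
    exact h1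
  · intro k hk
    change ((x'.val + Q' * k : ℕ) : ZMod Q).val / Q' = k
    rw [hval k (Finset.mem_range.1 hk), Nat.add_mul_div_left _ _ hQ',
      Nat.div_eq_of_lt (ZMod.val_lt x'), zero_add]
  · intro x hx
    rw [Finset.mem_filter] at hx
    have h1 : x'.val = x.val % Q' := by
      rw [← hx.2]
      have : ZMod.castHom h (ZMod Q') x = ((x.val : ℕ) : ZMod Q') := by
        conv_lhs => rw [← ZMod.natCast_zmod_val x]
        rw [map_natCast]
      rw [this, ZMod.val_natCast]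
    change ((x'.val + Q' * (x.val / Q') : ℕ) : ZMod Q) = x
    rw [h1, Nat.mod_add_div, ZMod.natCast_zmod_val]
  · intro k _
    rfl

/-- the values on a fibre -/
lemma fval (h : Q' ∣ Q) (x' : ZMod Q') {k : ℕ} (hk : k < Q / Q') :
    ((x'.val + Q' * k : ℕ) : ZMod Q).val = x'.val + Q' * k := by
  apply ZMod.val_cast_of_lt
  have h1 := ZMod.val_lt x'
  have h2 : Q' * (k + 1) ≤ Q' * (Q / Q') := Nat.mul_le_mul_left _ hk
  have h3 : Q' * (Q / Q') = Q := Nat.mul_div_cancel' h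
  rw [mul_add, mul_one] at h2
  omega

lemma beta_eq (x : ZMod Q) : β x = (Q : ℤ) - 2 * (x.val : ℤ) - if x = 0 then (Q : ℤ) else 0 := by
  unfold β Lib_helper5.bZ
  by_cases hx : x = 0
  · subst hx
    simp
  · rw [if_neg hx, sub_zero, if_neg]
    intro h0
    exact hx ((ZMod.val_eq_zero x).1 h0)

lemma sg_eq (x : ZMod Q) : sg x = (-1) ^ x.val - if x = 0 then 1 else 0 := by
  unfold sg
  by_cases hx : x = 0
  · subst hx
    simp
  · rw [if_neg hx, if_neg hx, sub_zero]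

lemma alt0 {K : ℕ} (hK : K % 2 = 1) : ∑ k ∈ range K, ((-1 : ℤ)) ^ k = 1 := by
  obtain ⟨j, rfl⟩ : ∃ j, K = 2 * j + 1 := ⟨K / 2, by omega⟩
  induction j with
  | zero => simp
  | succ j ih =>
    rw [show 2 * (j + 1) + 1 = 2 * j + 1 + 1 + 1 by ring, Finset.sum_range_succ,
      Finset.sum_range_succ, ih (by omega)]
    rw [show 2 * j + 1 + 1 = 2 * (j + 1) by ring, pow_mul, pow_succ, pow_mul]
    norm_num

lemma alt1 {K : ℕ} (hK : K % 2 = 1) : ∑ k ∈ range K, 2 * (((-1 : ℤ)) ^ k * k) = K - 1 := by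
  obtain ⟨j, rfl⟩ : ∃ j, K = 2 * j + 1 := ⟨K / 2, by omega⟩
  induction j with
  | zero => simp
  | succ j ih =>
    rw [show 2 * (j + 1) + 1 = 2 * j + 1 + 1 + 1 by ring, Finset.sum_range_succ,
      Finset.sum_range_succ, ih (by omega)]
    rw [show 2 * j + 1 + 1 = 2 * (j + 1) by ring, pow_mul, pow_succ, pow_mul]
    push_cast
    norm_num
    ring

lemma sumk (K : ℕ) : ∑ k ∈ range K, 2 * (k : ℤ) = K * (K - 1) := by
  induction K with
  | zero => simp
  | succ K ih =>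
    rw [Finset.sum_range_succ, ih]
    push_cast
    ring

/-- the exceptional term of a fibre -/
lemma fib_zero (h : Q' ∣ Q) (hK : 0 < Q / Q') (x' : ZMod Q') (g : ℤ) :
    ∑ k ∈ range (Q / Q'), (if ((x'.val + Q' * k : ℕ) : ZMod Q) = 0 then g else 0) =
      if x' = 0 then g else 0 := by
  have hQ' : 0 < Q' := Nat.pos_of_ne_zero (NeZero.ne Q')
  have key : ∀ k < Q / Q', ((x'.val + Q' * k : ℕ) : ZMod Q) = 0 ↔ (x' = 0 ∧ k = 0) := by
    intro k hk
    rw [← ZMod.val_eq_zero, fval h x' hk, ← ZMod.val_eq_zero x']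
    constructor
    · intro h1
      have h2 : x'.val = 0 := by omega
      have h3 : Q' * k = 0 := by omega
      exact ⟨h2, (Nat.mul_eq_zero.1 h3).resolve_left hQ'.ne'⟩
    · rintro ⟨h1, h2⟩
      rw [h1, h2, mul_zero, add_zero]
  by_cases hx : x' = 0
  · rw [if_pos hx, Finset.sum_eq_single_of_mem 0 (Finset.mem_range.2 hK)]
    · rw [if_pos ((key 0 hK).2 ⟨hx, rfl⟩)]
    · intro k hk hk0
      rw [if_neg]
      intro h1
      exact hk0 ((key k (Finset.mem_range.1 hk)).1 h1).2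
  · rw [if_neg hx]
    apply Finset.sum_eq_zero
    intro k hk
    rw [if_neg]
    intro h1
    exact hx ((key k (Finset.mem_range.1 hk)).1 h1).1

lemma odd_parts (h : Q' ∣ Q) (hodd : Q % 2 = 1) :
    Q' % 2 = 1 ∧ (Q / Q') % 2 = 1 ∧ 0 < Q / Q' := by
  obtain ⟨K, hK⟩ := h
  have hQ' : 0 < Q' := Nat.pos_of_ne_zero (NeZero.ne Q')
  have h1 : Q / Q' = K := by rw [hK, Nat.mul_div_cancel_left _ hQ']
  rw [h1]
  have h2 : (Q' * K) % 2 = 1 := by rw [← hK]; exact hodd
  have h3 := Nat.odd_mul.1 (Nat.odd_iff.2 h2)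
  have h4 := Nat.odd_iff.1 h3.2
  exact ⟨Nat.odd_iff.1 h3.1, h4, by omega⟩

lemma neg_pow_fib (hodd : Q' % 2 = 1) (v k : ℕ) : ((-1 : ℤ)) ^ (v + Q' * k) = (-1) ^ v * (-1) ^ k := by
  rw [pow_add, pow_mul, Odd.neg_one_pow (Nat.odd_iff.2 hodd)]

variable (h : Q' ∣ Q) (hodd : Q % 2 = 1) (x' : ZMod Q')

include h hodd

lemma sum_sg : ∑ k ∈ range (Q / Q'), sg ((x'.val + Q' * k : ℕ) : ZMod Q) = sg x' := by
  obtain ⟨o1, o2, o3⟩ := odd_parts h hodd
  simp only [sg_eq]
  rw [Finset.sum_sub_distrib, fib_zero h o3]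
  congr 1
  rw [Finset.sum_congr rfl (g := fun k => (-1 : ℤ) ^ x'.val * (-1) ^ k) (fun k hk => by
    rw [fval h x' (Finset.mem_range.1 hk), neg_pow_fib o1]), ← Finset.mul_sum, alt0 o2, mul_one]

lemma sum_beta : ∑ k ∈ range (Q / Q'), β ((x'.val + Q' * k : ℕ) : ZMod Q) =
    ((Q / Q' : ℕ) : ℤ) * β x' := by
  obtain ⟨o1, o2, o3⟩ := odd_parts h hodd
  have hQ : (Q : ℤ) = Q' * ((Q / Q' : ℕ) : ℤ) := by exact_mod_cast (Nat.mul_div_cancel' h).symm
  simp only [beta_eq]
  rw [Finset.sum_sub_distrib, fib_zero h o3]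
  have e : ∀ k ∈ range (Q / Q'), (Q : ℤ) - 2 * (((x'.val + Q' * k : ℕ) : ZMod Q).val : ℤ) =
      ((Q : ℤ) - 2 * (x'.val : ℤ)) - Q' * (2 * (k : ℤ)) := by
    intro k hk
    rw [fval h x' (Finset.mem_range.1 hk)]
    push_cast
    ring
  rw [Finset.sum_congr rfl e, Finset.sum_sub_distrib, ← Finset.mul_sum, sumk, Finset.sum_const, Finset.card_range,
    nsmul_eq_mul]
  generalize ((Q / Q' : ℕ) : ℤ) = K at *
  by_cases hx : x' = 0
  · rw [if_pos hx, if_pos hx, hQ]
    ring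
  · rw [if_neg hx, if_neg hx, hQ]
    ring

lemma sum_sgb : ∑ k ∈ range (Q / Q'), sg ((x'.val + Q' * k : ℕ) : ZMod Q) *
      β ((x'.val + Q' * k : ℕ) : ZMod Q) =
    sg x' * β x' - if x' = 0 then (Q' : ℤ) * (((Q / Q' : ℕ) : ℤ) - 1) else 0 := by
  obtain ⟨o1, o2, o3⟩ := odd_parts h hodd
  have hQ : (Q : ℤ) = Q' * ((Q / Q' : ℕ) : ℤ) := by exact_mod_cast (Nat.mul_div_cancel' h).symm
  have e : ∀ k ∈ range (Q / Q'), sg ((x'.val + Q' * k : ℕ) : ZMod Q) *
      β ((x'.val + Q' * k : ℕ) : ZMod Q) = ((-1 : ℤ) ^ x'.val * ((Q : ℤ) - 2 * (x'.val : ℤ))) *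
        (-1) ^ k - ((-1 : ℤ) ^ x'.val * Q') * (2 * ((-1) ^ k * k)) -
        if ((x'.val + Q' * k : ℕ) : ZMod Q) = 0 then (Q : ℤ) else 0 := by
    intro k hk
    rw [sg_eq, beta_eq]
    have hv := fval h x' (Finset.mem_range.1 hk)
    by_cases h0 : ((x'.val + Q' * k : ℕ) : ZMod Q) = 0
    · have h1 : x'.val + Q' * k = 0 := by rw [← hv, h0, ZMod.val_zero]
      have h2 : x'.val = 0 := by omega
      have hQ' : 0 < Q' := Nat.pos_of_ne_zero (NeZero.ne Q')
      have h3 : k = 0 := by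
        have : Q' * k = 0 := by omega
        exact (Nat.mul_eq_zero.1 this).resolve_left hQ'.ne'
      simp only [if_pos h0, hv, h2, h3]
      simp
    · simp only [if_neg h0, hv, neg_pow_fib o1]
      push_cast
      ring
  rw [Finset.sum_congr rfl e, Finset.sum_sub_distrib, Finset.sum_sub_distrib, ← Finset.mul_sum,
    ← Finset.mul_sum, alt0 o2, alt1 o2, fib_zero h o3, sg_eq x', beta_eq x']
  generalize ((Q / Q' : ℕ) : ℤ) = K at *
  by_cases hx : x' = 0
  · subst hx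
    rw [if_pos rfl, if_pos rfl, if_pos rfl, if_pos rfl, ZMod.val_zero, hQ]
    push_cast
    ring
  · rw [if_neg hx, if_neg hx, if_neg hx, if_neg hx, hQ]
    ring

end DSWM

theorem t_DSW : Stmt_DSW := by
  classical
  intro Q' Q _ _ h hodd c x' y'
  obtain ⟨o1, o2, o3⟩ := DSWM.odd_parts h hodd
  have hQ : (Q : ℤ) = Q' * ((Q / Q' : ℕ) : ℤ) := by exact_mod_cast (Nat.mul_div_cancel' h).symm
  have hQ0 : (Q : ℤ) ≠ 0 := by exact_mod_cast NeZero.ne Q
  set φ : ZMod Q →+* ZMod Q' := ZMod.castHom h (ZMod Q') with hφ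
  have nu1 := (PSX.t_NUS Q).1
  have nu2 := (PSX.t_NUS Q').1 c x' y'
  apply mul_left_cancel₀ hQ0
  -- the inner sum
  have inner : ∀ x : ZMod Q, φ x = x' → ∑ y : ZMod Q, (if φ y = y' then (Q : ℤ) * W c x y else 0) =
      sg x * (((Q / Q' : ℕ) : ℤ) * β y' - ((Q / Q' : ℕ) : ℤ) * β (y' - (c : ZMod Q') * x') +
        Q * sg y') - c * ((Q / Q' : ℕ) : ℤ) * (sg x * β x) := by
    intro x hx
    have e1 : ∑ y : ZMod Q, (if φ y = y' then β y else 0) = ((Q / Q' : ℕ) : ℤ) * β y' := by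
      rw [DSWM.fib h, DSWM.sum_beta h hodd]
    have e2 : ∑ y : ZMod Q, (if φ y = y' then β (y - (c : ZMod Q) * x) else 0) =
        ((Q / Q' : ℕ) : ℤ) * β (y' - (c : ZMod Q') * x') := by
      rw [← DSWM.sum_beta h hodd, ← DSWM.fib h]
      apply Finset.sum_bij' (fun y _ => y - (c : ZMod Q) * x) (fun y _ => y + (c : ZMod Q) * x)
      · intro _ _; exact Finset.mem_univ _
      · intro _ _; exact Finset.mem_univ _
      · intro y _; simp
      · intro y _; simp
      · intro y _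
        have : (φ (y - (c : ZMod Q) * x) = y' - (c : ZMod Q') * x') ↔ (φ y = y') := by
          rw [map_sub, map_mul, map_intCast, hx]
          exact sub_left_inj
        change (if φ y = y' then β (y - (c : ZMod Q) * x) else 0) =
          (if φ (y - (c : ZMod Q) * x) = y' - (c : ZMod Q') * x' then β (y - (c : ZMod Q) * x) else 0)
        simp only [this]
    have e3 : ∑ y : ZMod Q, (if φ y = y' then sg y else 0) = sg y' := by
      rw [DSWM.fib h, DSWM.sum_sg h hodd]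
    have e4 : ∑ y : ZMod Q, (if φ y = y' then (1 : ℤ) else 0) = ((Q / Q' : ℕ) : ℤ) := by
      rw [DSWM.fib h]
      simp
    rw [← e1, ← e2, ← e3]
    have key : ∀ y : ZMod Q, (if φ y = y' then (Q : ℤ) * W c x y else 0) =
        sg x * (if φ y = y' then β y else 0) - sg x *
          (if φ y = y' then β (y - (c : ZMod Q) * x) else 0) +
          sg x * Q * (if φ y = y' then sg y else 0) -
          c * (sg x * β x) * (if φ y = y' then (1 : ℤ) else 0) := by
      intro y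
      by_cases hy : φ y = y'
      · simp only [if_pos hy]
        unfold W
        linear_combination sg x * nu1 c x y
      · simp only [if_neg hy]
        ring
    rw [Finset.sum_congr rfl fun y _ => key y, Finset.sum_sub_distrib, Finset.sum_add_distrib,
      Finset.sum_sub_distrib, ← Finset.mul_sum, ← Finset.mul_sum, ← Finset.mul_sum,
      ← Finset.mul_sum, e4]
    ring
  have e5 : (Q : ℤ) * ∑ x : ZMod Q, ∑ y : ZMod Q, (if φ x = x' ∧ φ y = y' then W c x y else 0) =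
      ∑ x : ZMod Q, (if φ x = x' then
        sg x * (((Q / Q' : ℕ) : ℤ) * β y' - ((Q / Q' : ℕ) : ℤ) * β (y' - (c : ZMod Q') * x') +
        Q * sg y') - c * ((Q / Q' : ℕ) : ℤ) * (sg x * β x) else 0) := by
    rw [Finset.mul_sum]
    apply Finset.sum_congr rfl
    intro x _
    by_cases hx : φ x = x'
    · rw [if_pos hx, ← inner x hx, Finset.mul_sum]
      apply Finset.sum_congr rfl
      intro y _
      by_cases hy : φ y = y'
      · rw [if_pos ⟨hx, hy⟩, if_pos hy]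
      · rw [if_neg (fun hh => hy hh.2), if_neg hy, mul_zero]
    · rw [if_neg hx]
      rw [Finset.sum_eq_zero, mul_zero]
      intro y _
      rw [if_neg (fun hh => hx hh.1)]
  rw [e5, DSWM.fib h, Finset.sum_sub_distrib, ← Finset.sum_mul, ← Finset.mul_sum,
    DSWM.sum_sg h hodd, DSWM.sum_sgb h hodd]
  unfold W
  have hK : (((Q / Q' : ℕ) : ℤ)) = ((Q / Q' : ℕ) : ℤ) := rfl
  by_cases hx : x' = 0
  · subst hx
    rw [if_pos rfl, if_pos rfl]
    have s0 : sg (0 : ZMod Q') = 0 := by unfold sg; simp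
    rw [s0, hQ]
    ring
  · rw [if_neg hx, if_neg hx, hQ]
    linear_combination (-(((Q / Q' : ℕ) : ℤ)) * sg x') * nu2

end Pool.Agent.OEG.G
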