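import Pool.Agent.PSX.GDefs
import Pool.Agent.PSX.OdSys
import Pool.Agent.OEX.Defs

/-!
# Project OEG: definitions (helper94)

Class number one and exactly one non-inert prime below Minkowski's bound, exceptional prime
at least `100000`. Families of OEX (`OEX.F1`, `OEX.F2`), and their cone sums, as sums over the powers
of `p`. A form `(P, R, S)` has the value `P x² + R x y - S y²`; a term `T(P, R, S; c)` is
`3 X(P,R,S) - c Y(P,R,S)`, in a list `⟨P, R, -S, 3, -c⟩`.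

## First family
`D = N² + 4 l p^m = N'² + 4 u p^(m+1)`, `N = q p^m + b`, `N' = q p^m - b`, `q b = u p - l`. Edges

* `N_j = (p^j, N, l p^(m-j))`, letter `l q p^j` (`j < m`), `l N` (`j = m`), `0 ≤ j ≤ m`;
* `N'_j = (p^j, N', u p^(m+1-j))`, letter `u q p^(j-1)`, `1 ≤ j ≤ m`.

The edge after `N_j` is `N'_{m-j}` for `j < m`, and `N_0` for `j = m`; the edge after `N'_j` is
`N_{m+1-j}` (up to the sign symmetries `(-P,R,-S;-c) ~ (P,R,S;c)`). Order of the cycle: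
`N_0, N'_m, N_1, N'_{m-1}, N_2, …, N'_1, N_m`.

## Second family
`D = N² + 4 l p^m = N3² - 4 l s p^A = N4² + 4 s p^(A+m)`, `N = p^A + s p^m - l s`, `N3 = N + 2 l s`,
`N4 = p^A - s p^m - l s`. Edges

* `N_j = (p^j, N, l p^(m-j))`, letter `l (p^(A-m+j) + s p^j)` (`j < m`), `l N` (`j = m`), `0 ≤ j ≤ m`;
* `N4_j = (p^j, N4, s p^(A+m-j))`, letter `s p^(j-m)`, `m+1 ≤ j ≤ A-1`;
* `N3_j = (p^j, N3, - l s p^(A-j))`, letter `- l s p^j - [j ≥ A-m] l p^(m-A+j)`, `1 ≤ j ≤ A-1`.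

The edge after `N_j` is `N3_{m-j}` for `j < m`, and `N_0` for `j = m`; after `N4_j`: `N3_{A+m-j}`;
after `N3_j`: `N_{A-j}` if `A - j ≤ m`, else `N4_{A-j}`. Order of the cycle: `e_i = - i m` mod `A`
(`0 ≤ i < A`), `f_i = m - e_i` mod `A`: edge `N_{e_i}` or `N4_{e_i}` (if `e_i > m`), then `N3_{f_i}`, for
`i = 0, 1, …, A-1` (without the last `N3`).
-/

set_option autoImplicit false

namespace Pool.Agent.OEG

open Pool.Agent.PSX (Es)
open Pool.Agent.P4G (Fam QN FN FZ)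
open Pool.Agent.Lib_helper5.LK (Fm)
open Pool.Agent.Lib_helper5 (XZ YX RZ)

/-- the first family -/
structure Q1 (D l u p q b : ℤ) (m : ℕ) : Prop where
  l1 : OEX.Sg l
  u1 : OEX.Sg u
  p5 : 100000 ≤ p
  q2 : 2 ≤ q
  m1 : 1 ≤ m
  qb : q * b = u * p - l
  D1 : D = (q * p ^ m + b) ^ 2 + 4 * l * p ^ m

/-- the second family -/
structure Q2 (D s l p : ℤ) (A m : ℕ) : Prop where
  s1 : OEX.Sg s
  l1 : OEX.Sg l
  p5 : 100000 ≤ p
  m1 : 1 ≤ m
  A2 : m + 2 ≤ A
  cop : Nat.Coprime A m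
  D1 : D = (p ^ A + s * p ^ m - l * s) ^ 2 + 4 * l * p ^ m

/-- the letter of the edge `N_j` of the first family -/
def c1 (l p q b : ℤ) (m j : ℕ) : ℤ := l * q * p ^ j + if j = m then l * b else 0

/-- the edges of the first family -/
def J1 (l u p q b : ℤ) (m : ℕ) : List Fm :=
  (List.range (m + 1)).map (fun j =>
    (⟨p ^ j, q * p ^ m + b, -(l * p ^ (m - j)), 3, -(c1 l p q b m j)⟩ : Fm)) ++
  (List.range m).map (fun j =>
    (⟨p ^ (j + 1), q * p ^ m - b, -(u * p ^ (m - j)), 3, -(u * q * p ^ j)⟩ : Fm))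

/-- the letter of the edge `N_j` of the second family -/
def c2 (s l p : ℤ) (A m j : ℕ) : ℤ :=
  if j = m then l * (p ^ A + s * p ^ m - l * s) else l * (p ^ (A - m + j) + s * p ^ j)

/-- the letter of the edge `N3_j` of the second family -/
def c3 (s l p : ℤ) (A m j : ℕ) : ℤ :=
  -(l * s * p ^ j) - if A ≤ m + j then l * p ^ (m + j - A) else 0

/-- the edges of the second family -/
def J2 (s l p : ℤ) (A m : ℕ) : List Fm :=
  (List.range (m + 1)).map (fun j =>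
    (⟨p ^ j, p ^ A + s * p ^ m - l * s, -(l * p ^ (m - j)), 3, -(c2 s l p A m j)⟩ : Fm)) ++
  (List.range (A - 1 - m)).map (fun i =>
    (⟨p ^ (m + 1 + i), p ^ A - s * p ^ m - l * s, -(s * p ^ (A - 1 - i)), 3,
      -(s * p ^ (i + 1))⟩ : Fm)) ++
  (List.range (A - 1)).map (fun i =>
    (⟨p ^ (i + 1), p ^ A + s * p ^ m + l * s, l * s * p ^ (A - 1 - i), 3,
      -(c3 s l p A m (i + 1))⟩ : Fm))

/-- the cone sum of a list of terms, for a function of integers -/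
def LJ (Q : ℕ) (g : ℤ → ℤ) (J : List Fm) : ℤ :=
  (J.map (fun j => (j.κ : ℤ) * XZ Q g j.P j.R (-j.S) + j.α * YX Q g j.P j.R (-j.S))).sum

/-- the cone identity of a list of terms -/
def CI (d : ℕ) (J : List Fm) : Prop :=
  ∀ q : ℕ, 0 < q → Nat.Coprime q d → ∀ f : ℤ → ℤ, (∀ x, f (x + q) = f x) → (∀ x, f (-x) = - f x) →
    (d : ℤ) * (2 * LJ q f J) = 3 * RZ q d f

/-- the edge sum of the list for a function on residues with values in a ring -/
noncomputable def EJ {Q : ℕ} [NeZero Q] {M : Type*} [CommRing M] (F : ZMod Q → M)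
    (J : List Fm) : M :=
  (J.map (fun j => Es F (j.P : ZMod Q) (j.R : ZMod Q) ((-j.S : ℤ) : ZMod Q) (-j.α))).sum

/-- the relations of a list for all families of conductor dividing `105 * 17 * 19` -/
def RelJ (Q0 : ℕ) (J : List Fm) : Prop :=
  ∀ (q0 n e e0 : ℕ) (ψ : ℤ → ℤ) [NeZero (QN 13 q0 n)], q0 ∣ Q0 → PSX.Fm 13 q0 n e e0 ψ →
    EJ (FZ 13 q0 n e ψ) J = 0

end Pool.Agent.OEG
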