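import Pool.Agent.OEG.E2D

/-!
Project OEG, EL2: the affine identity (helper1). The sum of the values over the list `J2` is a sum
over one period with affine weights.
-/

set_option autoImplicit false

namespace Pool.Agent.OEG.E2

open Pool.Agent.LibH4 Pool.Agent.LibH4.Ker
open Pool.Agent.Lib_helper5 Pool.Agent.Lib_helper5.LK Pool.Agent.Lib_helper5.TB
open Pool.Agent.LibH4.S7 (Rl)

namespace Aff

/-! ### periodic sums -/

lemma cnt_eq (L k j : ℕ) : cnt L k j = (k + (L - 1) - j) / L := rfl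

lemma cnt_zero {L j : ℕ} (hj : j < L) : cnt L 0 j = 0 := by
  rw [cnt_eq]
  apply Nat.div_eq_of_lt
  omega

lemma cnt_succ {L k j : ℕ} (hj : j < L) :
    cnt L (k + 1) j = cnt L k j + if j = k % L then 1 else 0 := by
  rw [cnt_eq, cnt_eq]
  have e : k + 1 + (L - 1) - j = (k + (L - 1) - j) + 1 := by omega
  rw [e, Nat.succ_div]
  congr 1
  have h1 : (L ∣ k + (L - 1) - j + 1) ↔ j = k % L := by
    have h2 : k + (L - 1) - j + 1 = k + L - j := by omega
    rw [h2, Nat.dvd_iff_mod_eq_zero]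
    have h3 := Nat.mod_add_div k L
    have h4 := Nat.mod_lt k (show 0 < L by omega)
    constructor
    · intro h
      have h5 : (k + L - j + j) % L = (0 + j) % L := Nat.ModEq.add_right j (by
        show (k + L - j) % L = 0 % L
        rw [h, Nat.zero_mod])
      have h6 : k + L - j + j = k + L := by omega
      rw [h6, zero_add, Nat.add_mod_right, Nat.mod_eq_of_lt hj] at h5
      exact h5.symm
    · intro h
      have h5 : k + L - j = L * (k / L + 1) := by
        rw [mul_add, mul_one]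
        omega
      rw [h5, Nat.mul_mod_right]
  simp only [h1]

lemma cnt_add {L k j t : ℕ} (hj : j < L) : cnt L (k + L * t) j = cnt L k j + t := by
  rw [cnt_eq, cnt_eq]
  have e : k + L * t + (L - 1) - j = (k + (L - 1) - j) + L * t := by omega
  rw [e, Nat.add_mul_div_left _ _ (by omega)]

lemma psum {M : Type*} [CommRing M] {L : ℕ} (hL : 0 < L) (F : ℕ → M)
    (hF : ∀ j, F (j + L) = F j) (k : ℕ) :
    ∑ j ∈ Finset.range k, F j = ∑ j ∈ Finset.range L, F j * (cnt L k j : M) := by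
  induction k with
  | zero =>
    rw [Finset.range_zero, Finset.sum_empty]
    symm
    apply Finset.sum_eq_zero
    intro j hj
    rw [cnt_zero (Finset.mem_range.1 hj), Nat.cast_zero, mul_zero]
  | succ k ih =>
    rw [Finset.sum_range_succ, ih]
    have h1 : ∑ j ∈ Finset.range L, F j * (cnt L (k + 1) j : M) =
        ∑ j ∈ Finset.range L, (F j * (cnt L k j : M) + if j = k % L then F j else 0) := by
      apply Finset.sum_congr rfl
      intro j hj
      rw [cnt_succ (Finset.mem_range.1 hj)]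
      split_ifs
      · push_cast; ring
      · push_cast; ring
    rw [h1, Finset.sum_add_distrib, Finset.sum_ite_eq', if_pos (Finset.mem_range.2
      (Nat.mod_lt k hL))]
    congr 1
    exact ((show Function.Periodic F L from hF).map_mod_nat k).symm

/-! ### powers of units -/

lemma pw {G : Type*} [Group G] {u : G} {L : ℕ} (h : u ^ L = 1) {a b : ℕ}
    (hab : (L : ℤ) ∣ (a : ℤ) - b) : u ^ a = u ^ b := by
  rw [← zpow_natCast, ← zpow_natCast]
  obtain ⟨c, hc⟩ := hab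
  have e : (a : ℤ) = b + L * c := by linear_combination hc
  rw [e, zpow_add, zpow_mul, zpow_natCast u L, h, one_zpow, mul_one]

lemma pwv {n : ℕ} {v : (ZMod n)ˣ} {L : ℕ} (h : v ^ L = 1) {a b : ℕ}
    (hab : (L : ℤ) ∣ (a : ℤ) - b) : (v : ZMod n) ^ a = (v : ZMod n) ^ b := by
  rw [← Units.val_pow_eq_pow_val, ← Units.val_pow_eq_pow_val, pw h hab]

lemma up_nat {n : ℕ} (u : (ZMod n)ˣ) (k : ℕ) : up n u (k : ℤ) = (u : ZMod n) ^ k := by
  unfold up
  rw [zpow_natCast, Units.val_pow_eq_pow_val]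

lemma up_add {n : ℕ} {u : (ZMod n)ˣ} {L : ℕ} (h : u ^ L = 1) (e : ℤ) :
    up n u (e + L) = up n u e := by
  unfold up
  rw [zpow_add, zpow_natCast, h, mul_one]

lemma up_sub {n : ℕ} {u : (ZMod n)ˣ} {L : ℕ} (h : u ^ L = 1) (e : ℤ) :
    up n u (e - L) = up n u e := by
  rw [← up_add h (e - L)]
  congr 1
  ring

section per

variable {n : ℕ} {u : (ZMod n)ˣ} {L : ℕ} (h : u ^ L = 1) (s l : ℤ) (A m ex PT j : ℕ)

include h

lemma qN_per : qN n s l u A m ex PT (j + L) = qN n s l u A m ex PT j := by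
  unfold qN
  have e1 : ((j + L : ℕ) : ℤ) = (j : ℤ) + L := by push_cast; ring
  have e2 : (m : ℤ) - ((j + L : ℕ) : ℤ) = (m : ℤ) - j - L := by push_cast; ring
  rw [e2, up_sub h, e1, up_add h]

lemma q4_per : q4 n s l u A m ex PT (j + L) = q4 n s l u A m ex PT j := by
  unfold q4
  have e1 : ((j + L : ℕ) : ℤ) = (j : ℤ) + L := by push_cast; ring
  have e2 : (A : ℤ) + m - ((j + L : ℕ) : ℤ) = (A : ℤ) + m - j - L := by push_cast; ring
  rw [e2, up_sub h, e1, up_add h]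

lemma q3_per : q3 n s l u A m ex PT (j + L) = q3 n s l u A m ex PT j := by
  unfold q3
  have e1 : ((j + L : ℕ) : ℤ) = (j : ℤ) + L := by push_cast; ring
  have e2 : (A : ℤ) - ((j + L : ℕ) : ℤ) = (A : ℤ) - j - L := by push_cast; ring
  rw [e2, up_sub h, e1, up_add h]

end per

/-! ### values of the terms -/

lemma rs_def (n : ℕ) (x : ℤ) : rs n x = (x : ZMod n).val := rfl

section pos

variable {n : ℕ} {p : ℤ} {u : (ZMod n)ˣ} (h : (p : ZMod n) = u) (s l : ℤ) (A m ex PT : ℕ)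

include h

lemma rs_pow (j : ℕ) : rs n (p ^ j) = (up n u j).val := by
  rw [rs_def, up_nat, Int.cast_pow, h]

lemma qN_eq {j : ℕ} (hj : j ≤ m) : qN n s l u A m ex PT j =
    pos n ex PT (rs n (p ^ j)) (rs n (p ^ A + s * p ^ m - l * s)) (rs n (-(l * p ^ (m - j)))) := by
  unfold qN
  rw [rs_pow h, rs_def, rs_def]
  have e1 : (m : ℤ) - j = ((m - j : ℕ) : ℤ) := by rw [Nat.cast_sub hj]
  have e2 : ((p ^ A + s * p ^ m - l * s : ℤ) : ZMod n) = zN n s l u A m := by
    unfold zN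
    push_cast
    rw [h]
  have e3 : ((-(l * p ^ (m - j)) : ℤ) : ZMod n) = -(l * up n u ((m : ℤ) - j)) := by
    rw [e1, up_nat]
    push_cast
    rw [h]
  rw [e2, e3]

lemma q4_eq {j : ℕ} (hj : j ≤ A + m) : q4 n s l u A m ex PT j =
    pos n ex PT (rs n (p ^ j)) (rs n (p ^ A - s * p ^ m - l * s))
      (rs n (-(s * p ^ (A + m - j)))) := by
  unfold q4
  rw [rs_pow h, rs_def, rs_def]
  have e1 : (A : ℤ) + m - j = ((A + m - j : ℕ) : ℤ) := by rw [Nat.cast_sub hj]; push_cast; ring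
  have e2 : ((p ^ A - s * p ^ m - l * s : ℤ) : ZMod n) = zN4 n s l u A m := by
    unfold zN4
    push_cast
    rw [h]
  have e3 : ((-(s * p ^ (A + m - j)) : ℤ) : ZMod n) = -(s * up n u ((A : ℤ) + m - j)) := by
    rw [e1, up_nat]
    push_cast
    rw [h]
  rw [e2, e3]

lemma q3_eq {j : ℕ} (hj : j ≤ A) : q3 n s l u A m ex PT j =
    pos n ex PT (rs n (p ^ j)) (rs n (p ^ A + s * p ^ m + l * s))
      (rs n (l * s * p ^ (A - j))) := by
  unfold q3
  rw [rs_pow h, rs_def, rs_def]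
  have e1 : (A : ℤ) - j = ((A - j : ℕ) : ℤ) := by rw [Nat.cast_sub hj]
  have e2 : ((p ^ A + s * p ^ m + l * s : ℤ) : ZMod n) = zN3 n s l u A m := by
    unfold zN3
    push_cast
    rw [h]
  have e3 : ((l * s * p ^ (A - j) : ℤ) : ZMod n) = l * s * up n u ((A : ℤ) - j) := by
    rw [e1, up_nat]
    push_cast
    rw [h]
  rw [e2, e3]

end pos

lemma mu_pow {n t ℓ : ℕ} (M : Mu n t ℓ) (x : ZMod n) (j : ℕ) :
    ((dig t (x ^ j).val : ℕ) : ZMod ℓ) = ((dig t x.val : ℕ) : ZMod ℓ) ^ j := by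
  induction j with
  | zero => rw [pow_zero, pow_zero, M.2]
  | succ k ih => rw [pow_succ, M.1, ih, pow_succ]

section val

variable (r : Rl) [NeZero r.n1] [NeZero r.n2] [NeZero r.n3] [NeZero r.l]
    {p : ℤ} {u1 : (ZMod r.n1)ˣ} {u2 : (ZMod r.n2)ˣ} {u3 : (ZMod r.n3)ˣ}
    (p1 : (p : ZMod r.n1) = u1) (p2 : (p : ZMod r.n2) = u2) (p3 : (p : ZMod r.n3) = u3)
    (M1 : Mu r.n1 r.t1 r.l) (M2 : Mu r.n2 r.t2 r.l) (M3 : Mu r.n3 r.t3 r.l)
    (s l : ℤ) (A m : ℕ)

include p1 p2 p3 M1 M2 M3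

omit [NeZero r.n1] [NeZero r.n2] [NeZero r.n3] [NeZero r.l] in
lemma chv (j : ℕ) : ((dig r.t1 (rs r.n1 (p ^ j)) * dig r.t2 (rs r.n2 (p ^ j)) *
    dig r.t3 (rs r.n3 (p ^ j)) : ℕ) : ZMod r.l) = (cc r u1 u2 u3) ^ j := by
  rw [rs_def, rs_def, rs_def, Int.cast_pow, Int.cast_pow, Int.cast_pow, p1, p2, p3]
  push_cast
  rw [mu_pow M1, mu_pow M2, mu_pow M3]
  unfold cc
  ring

lemma valN {j : ℕ} (hj : j ≤ m) (c : ℤ) :
    ((r.val ⟨p ^ j, p ^ A + s * p ^ m - l * s, -(l * p ^ (m - j)), 3, c⟩ : ℕ) : ZMod r.l) =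
      (cc r u1 u2 u3) ^ j * (3 * (XN r s l u1 u2 u3 A m j : ZMod r.l) +
        c * (YN r s l u1 u2 u3 A m j : ZMod r.l)) := by
  unfold Rl.val fval XN YN
  rw [Nat.cast_mul, chv r p1 p2 p3 M1 M2 M3, qN_eq p1 s l A m _ _ hj, qN_eq p2 s l A m _ _ hj,
    qN_eq p3 s l A m _ _ hj]
  push_cast
  rw [rs_cast]

lemma val4 {j : ℕ} (hj : j ≤ A + m) (c : ℤ) :
    ((r.val ⟨p ^ j, p ^ A - s * p ^ m - l * s, -(s * p ^ (A + m - j)), 3, c⟩ : ℕ) :
      ZMod r.l) =
      (cc r u1 u2 u3) ^ j * (3 * (X4 r s l u1 u2 u3 A m j : ZMod r.l) +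
        c * (Y4 r s l u1 u2 u3 A m j : ZMod r.l)) := by
  unfold Rl.val fval X4 Y4
  rw [Nat.cast_mul, chv r p1 p2 p3 M1 M2 M3, q4_eq p1 s l A m _ _ hj, q4_eq p2 s l A m _ _ hj,
    q4_eq p3 s l A m _ _ hj]
  push_cast
  rw [rs_cast]

lemma val3 {j : ℕ} (hj : j ≤ A) (c : ℤ) :
    ((r.val ⟨p ^ j, p ^ A + s * p ^ m + l * s, l * s * p ^ (A - j), 3, c⟩ : ℕ) : ZMod r.l) =
      (cc r u1 u2 u3) ^ j * (3 * (X3 r s l u1 u2 u3 A m j : ZMod r.l) +
        c * (Y3 r s l u1 u2 u3 A m j : ZMod r.l)) := by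
  unfold Rl.val fval X3 Y3
  rw [Nat.cast_mul, chv r p1 p2 p3 M1 M2 M3, q3_eq p1 s l A m _ _ hj, q3_eq p2 s l A m _ _ hj,
    q3_eq p3 s l A m _ _ hj]
  push_cast
  rw [rs_cast]

end val

lemma lsum (f : ℕ → ℕ) (n : ℕ) : ((List.range n).map f).sum = ∑ i ∈ Finset.range n, f i := rfl

end Aff

open Aff in
theorem t_AFF : Stmt_AFF := by
  intro r _ _ _ _ s l p A m A0 m0 L α β u1 u2 u3 v hJ hAm hA0 hm0 hA hm p1 p2 p3 pv h1 h2 h3 hv
    M1 M2 M3
  have hL : 0 < L := by omega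
  obtain ⟨C, hC⟩ : ∃ C : ZMod r.l, C = cc r u1 u2 u3 := ⟨_, rfl⟩
  have hCL : C ^ L = 1 := by
    rw [hC]
    unfold cc
    rw [mul_pow, mul_pow, ← mu_pow M1, ← mu_pow M2, ← mu_pow M3, ← Units.val_pow_eq_pow_val,
      ← Units.val_pow_eq_pow_val, ← Units.val_pow_eq_pow_val, h1, h2, h3, Units.val_one,
      Units.val_one, Units.val_one, M1.2, M2.2, M3.2, one_mul, one_mul]
  have hCp : ∀ j, C ^ (j + L) = C ^ j := fun j => by rw [pow_add, hCL, mul_one]
  have xN : ∀ j, XN r s l u1 u2 u3 A m (j + L) = XN r s l u1 u2 u3 A m j := fun j => by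
    unfold XN; rw [qN_per h1, qN_per h2, qN_per h3]
  have yN : ∀ j, YN r s l u1 u2 u3 A m (j + L) = YN r s l u1 u2 u3 A m j := fun j => by
    unfold YN; rw [qN_per h1, qN_per h2, qN_per h3]
  have x4 : ∀ j, X4 r s l u1 u2 u3 A m (j + L) = X4 r s l u1 u2 u3 A m j := fun j => by
    unfold X4; rw [q4_per h1, q4_per h2, q4_per h3]
  have y4 : ∀ j, Y4 r s l u1 u2 u3 A m (j + L) = Y4 r s l u1 u2 u3 A m j := fun j => by
    unfold Y4; rw [q4_per h1, q4_per h2, q4_per h3]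
  have x3 : ∀ j, X3 r s l u1 u2 u3 A m (j + L) = X3 r s l u1 u2 u3 A m j := fun j => by
    unfold X3; rw [q3_per h1, q3_per h2, q3_per h3]
  have y3 : ∀ j, Y3 r s l u1 u2 u3 A m (j + L) = Y3 r s l u1 u2 u3 A m j := fun j => by
    unfold Y3; rw [q3_per h1, q3_per h2, q3_per h3]
  -- the periodic functions
  obtain ⟨G1, g1⟩ : ∃ G : ℕ → ZMod r.l, ∀ j, G j = C ^ j * (3 * (XN r s l u1 u2 u3 A m j :
    ZMod r.l)) := ⟨fun j => _, fun _ => rfl⟩
  obtain ⟨G2, g2⟩ : ∃ G : ℕ → ZMod r.l, ∀ j, G j = C ^ j * (-(l * ((v : ZMod r.l) ^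
    (A0 + L - m0 + j) + s * (v : ZMod r.l) ^ j)) * (YN r s l u1 u2 u3 A m j : ZMod r.l)) :=
    ⟨fun j => _, fun _ => rfl⟩
  obtain ⟨G3, g3⟩ : ∃ G : ℕ → ZMod r.l, ∀ j, G j = C ^ j * (3 * (X4 r s l u1 u2 u3 A m j :
    ZMod r.l) + -(s * (v : ZMod r.l) ^ (j + L - m0)) * (Y4 r s l u1 u2 u3 A m j : ZMod r.l)) :=
    ⟨fun j => _, fun _ => rfl⟩
  obtain ⟨G5, g5⟩ : ∃ G : ℕ → ZMod r.l, ∀ j, G j = C ^ j * (3 * (X3 r s l u1 u2 u3 A m j :
    ZMod r.l) + l * s * (v : ZMod r.l) ^ j * (Y3 r s l u1 u2 u3 A m j : ZMod r.l)) :=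
    ⟨fun j => _, fun _ => rfl⟩
  obtain ⟨G7, g7⟩ : ∃ G : ℕ → ZMod r.l, ∀ j, G j = C ^ j * (l * (v : ZMod r.l) ^
    (m0 + j + L - A0) * (Y3 r s l u1 u2 u3 A m j : ZMod r.l)) := ⟨fun j => _, fun _ => rfl⟩
  have P1 : ∀ j, G1 (j + L) = G1 j := fun j => by rw [g1, g1, hCp, xN]
  have P2 : ∀ j, G2 (j + L) = G2 j := fun j => by
    rw [g2, g2, hCp, yN, pwv hv (show (L : ℤ) ∣ ((A0 + L - m0 + (j + L) : ℕ) : ℤ) -
      (A0 + L - m0 + j : ℕ) from ⟨1, by push_cast; ring⟩), pwv hv (show (L : ℤ) ∣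
      ((j + L : ℕ) : ℤ) - (j : ℕ) from ⟨1, by push_cast; ring⟩)]
  have P3 : ∀ j, G3 (j + L) = G3 j := fun j => by
    rw [g3, g3, hCp, x4, y4, pwv hv (show (L : ℤ) ∣ ((j + L + L - m0 : ℕ) : ℤ) -
      (j + L - m0 : ℕ) from ⟨1, by
        rw [Nat.cast_sub (by omega), Nat.cast_sub (by omega)]; push_cast; ring⟩)]
  have P5 : ∀ j, G5 (j + L) = G5 j := fun j => by
    rw [g5, g5, hCp, x3, y3, pwv hv (show (L : ℤ) ∣ ((j + L : ℕ) : ℤ) - (j : ℕ) from
      ⟨1, by push_cast; ring⟩)]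
  have P7 : ∀ j, G7 (j + L) = G7 j := fun j => by
    rw [g7, g7, hCp, y3, pwv hv (show (L : ℤ) ∣ ((m0 + (j + L) + L - A0 : ℕ) : ℤ) -
      (m0 + j + L - A0 : ℕ) from ⟨1, by
        rw [Nat.cast_sub (by omega), Nat.cast_sub (by omega)]; push_cast; ring⟩)]
  -- the sum over the list
  have hsum : ((∑ j ∈ Finset.range (m + 1), r.val ⟨p ^ j, p ^ A + s * p ^ m - l * s,
      -(l * p ^ (m - j)), 3, -(c2 s l p A m j)⟩ : ℕ) : ZMod r.l) +
      ((∑ i ∈ Finset.range (A - 1 - m), r.val ⟨p ^ (m + 1 + i), p ^ A - s * p ^ m - l * s,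
        -(s * p ^ (A - 1 - i)), 3, -(s * p ^ (i + 1))⟩ : ℕ) : ZMod r.l) +
      ((∑ i ∈ Finset.range (A - 1), r.val ⟨p ^ (i + 1), p ^ A + s * p ^ m + l * s,
        l * s * p ^ (A - 1 - i), 3, -(c3 s l p A m (i + 1))⟩ : ℕ) : ZMod r.l) = 0 := by
    have h : ((J2 s l p A m).map r.val).sum % r.l = 0 := hJ
    unfold J2 at h
    rw [List.map_append, List.map_append, List.map_map, List.map_map, List.map_map,
      List.sum_append, List.sum_append, lsum, lsum, lsum] at h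
    have h' := (ZMod.natCast_eq_zero_iff _ r.l).2 (Nat.dvd_of_mod_eq_zero h)
    rw [Nat.cast_add, Nat.cast_add] at h'
    exact h'
  have T1 : ((∑ j ∈ Finset.range (m + 1), r.val ⟨p ^ j, p ^ A + s * p ^ m - l * s,
      -(l * p ^ (m - j)), 3, -(c2 s l p A m j)⟩ : ℕ) : ZMod r.l) =
      ∑ j ∈ Finset.range (m + 1), G1 j + ∑ j ∈ Finset.range m, G2 j +
        C ^ m * (-(l * zN r.l s l v A m) * (YN r s l u1 u2 u3 A m m : ZMod r.l)) := by
    rw [Nat.cast_sum, Finset.sum_range_succ, Finset.sum_range_succ (fun j => G1 j)]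
    have e1 : ∀ j ∈ Finset.range m, ((r.val ⟨p ^ j, p ^ A + s * p ^ m - l * s,
        -(l * p ^ (m - j)), 3, -(c2 s l p A m j)⟩ : ℕ) : ZMod r.l) = G1 j + G2 j := by
      intro j hj
      have hj' := Finset.mem_range.1 hj
      rw [valN r p1 p2 p3 M1 M2 M3 s l A m hj'.le, ← hC, g1, g2]
      have e2 : c2 s l p A m j = l * (p ^ (A - m + j) + s * p ^ j) := by
        unfold c2
        rw [if_neg hj'.ne]
      have e3 : ((-(c2 s l p A m j) : ℤ) : ZMod r.l) =
          -(l * ((v : ZMod r.l) ^ (A0 + L - m0 + j) + s * (v : ZMod r.l) ^ j)) := by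
        rw [e2]
        push_cast
        rw [pv, pwv hv (show (L : ℤ) ∣ ((A - m + j : ℕ) : ℤ) - (A0 + L - m0 + j : ℕ) from
          ⟨α - β - 1, by
            rw [Nat.cast_add, Nat.cast_sub (by omega), Nat.cast_add, Nat.cast_sub (by omega),
              hA, hm]
            push_cast
            ring⟩)]
      rw [e3]
      ring
    rw [Finset.sum_congr rfl e1, Finset.sum_add_distrib, valN r p1 p2 p3 M1 M2 M3 s l A m le_rfl,
      ← hC, g1]
    have e2 : ((-(c2 s l p A m m) : ℤ) : ZMod r.l) = -(l * zN r.l s l v A m) := by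
      unfold c2 zN
      rw [if_pos rfl]
      push_cast
      rw [pv]
    rw [e2]
    ring
  have T2 : ((∑ i ∈ Finset.range (A - 1 - m), r.val ⟨p ^ (m + 1 + i),
      p ^ A - s * p ^ m - l * s, -(s * p ^ (A - 1 - i)), 3, -(s * p ^ (i + 1))⟩ : ℕ) :
      ZMod r.l) = ∑ j ∈ Finset.range A, G3 j - ∑ j ∈ Finset.range (m + 1), G3 j := by
    have e0 : A = (m + 1) + (A - 1 - m) := by omega
    have e1 : ∑ j ∈ Finset.range A, G3 j = ∑ j ∈ Finset.range (m + 1), G3 j +
        ∑ i ∈ Finset.range (A - 1 - m), G3 (m + 1 + i) := by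
      rw [← Finset.sum_range_add, ← e0]
    rw [e1, add_sub_cancel_left, Nat.cast_sum]
    apply Finset.sum_congr rfl
    intro i hi
    have hi' := Finset.mem_range.1 hi
    have e2 : A - 1 - i = A + m - (m + 1 + i) := by omega
    rw [e2, val4 r p1 p2 p3 M1 M2 M3 s l A m (by omega), ← hC, g3]
    have e3 : ((-(s * p ^ (i + 1)) : ℤ) : ZMod r.l) =
        -(s * (v : ZMod r.l) ^ (m + 1 + i + L - m0)) := by
      push_cast
      rw [pv, pwv hv (show (L : ℤ) ∣ ((i + 1 : ℕ) : ℤ) - (m + 1 + i + L - m0 : ℕ) from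
        ⟨-β - 1, by
          rw [Nat.cast_sub (by omega), hm]
          push_cast
          ring⟩)]
    rw [e3]
  have T3 : ((∑ i ∈ Finset.range (A - 1), r.val ⟨p ^ (i + 1), p ^ A + s * p ^ m + l * s,
        l * s * p ^ (A - 1 - i), 3, -(c3 s l p A m (i + 1))⟩ : ℕ) : ZMod r.l) =
      ∑ j ∈ Finset.range A, G5 j - G5 0 +
        (∑ j ∈ Finset.range A, G7 j - ∑ j ∈ Finset.range (A - m), G7 j) := by
    obtain ⟨H, hH⟩ : ∃ H : ℕ → ZMod r.l, ∀ j, H j = if A ≤ m + j then G7 j else 0 :=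
      ⟨fun j => _, fun _ => rfl⟩
    have e0 : A = (A - 1) + 1 := by omega
    have e1 : ∑ j ∈ Finset.range A, G5 j = ∑ i ∈ Finset.range (A - 1), G5 (i + 1) + G5 0 := by
      rw [← Finset.sum_range_succ', ← e0]
    have e2 : ∑ j ∈ Finset.range A, H j = ∑ i ∈ Finset.range (A - 1), H (i + 1) := by
      have e3 : ∑ j ∈ Finset.range A, H j = ∑ i ∈ Finset.range (A - 1), H (i + 1) + H 0 := by
        rw [← Finset.sum_range_succ', ← e0]
      rw [e3, hH 0, if_neg (by omega), add_zero]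
    have e4 : A = (A - m) + m := by omega
    have e5 : ∑ j ∈ Finset.range A, H j = ∑ x ∈ Finset.range m, G7 (A - m + x) := by
      have e6 : ∑ j ∈ Finset.range A, H j = ∑ j ∈ Finset.range (A - m), H j +
          ∑ x ∈ Finset.range m, H (A - m + x) := by
        rw [← Finset.sum_range_add, ← e4]
      rw [e6, Finset.sum_eq_zero, zero_add]
      · apply Finset.sum_congr rfl
        intro x _
        rw [hH, if_pos (by omega)]
      · intro j hj
        have := Finset.mem_range.1 hj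
        rw [hH, if_neg (by omega)]
    have e7 : ∑ j ∈ Finset.range A, G7 j = ∑ j ∈ Finset.range (A - m), G7 j +
          ∑ x ∈ Finset.range m, G7 (A - m + x) := by
        rw [← Finset.sum_range_add, ← e4]
    rw [e7, add_sub_cancel_left, ← e5, e2, e1, add_sub_cancel_right, ← Finset.sum_add_distrib,
      Nat.cast_sum]
    apply Finset.sum_congr rfl
    intro i hi
    have hi' := Finset.mem_range.1 hi
    have e8 : A - 1 - i = A - (i + 1) := by omega
    rw [e8, val3 r p1 p2 p3 M1 M2 M3 s l A m (by omega), ← hC, g5, hH, g7]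
    have e9 : ((-(c3 s l p A m (i + 1)) : ℤ) : ZMod r.l) =
        l * s * (v : ZMod r.l) ^ (i + 1) +
          if A ≤ m + (i + 1) then l * (v : ZMod r.l) ^ (m0 + (i + 1) + L - A0) else 0 := by
      unfold c3
      split_ifs with h
      · push_cast
        rw [pv, pwv hv (show (L : ℤ) ∣ ((m + (i + 1) - A : ℕ) : ℤ) -
          (m0 + (i + 1) + L - A0 : ℕ) from ⟨β - α - 1, by
            rw [Nat.cast_sub (by omega), Nat.cast_sub (by omega), hA, hm]
            push_cast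
            ring⟩)]
        ring
      · push_cast
        rw [pv]
        ring
    rw [e9]
    split_ifs
    · ring
    · ring
  rw [T1, T2, T3, psum hL G1 P1, psum hL G2 P2, psum hL G3 P3, psum hL G3 P3, psum hL G5 P5,
    psum hL G7 P7, psum hL G7 P7] at hsum
  have hK : C ^ m * (-(l * zN r.l s l v A m) * (YN r s l u1 u2 u3 A m m : ZMod r.l)) =
      ∑ j ∈ Finset.range L, if j = m0 then
        C ^ j * (-(l * zN r.l s l v A m) * (YN r s l u1 u2 u3 A m j : ZMod r.l)) else 0 := by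
    rw [Finset.sum_ite_eq', if_pos (Finset.mem_range.2 hm0)]
    have e1 : m % L = m0 := by rw [hm, Nat.add_mul_mod_self_left, Nat.mod_eq_of_lt hm0]
    have e2 : YN r s l u1 u2 u3 A m m = YN r s l u1 u2 u3 A m m0 := by
      have := (show Function.Periodic (fun j => YN r s l u1 u2 u3 A m j) L from yN).map_mod_nat m
      rw [e1] at this
      exact this.symm
    have e3 : C ^ m = C ^ m0 := by
      have := (show Function.Periodic (fun j => C ^ j) L from hCp).map_mod_nat m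
      rw [e1] at this
      exact this.symm
    rw [e2, e3]
  have hG : G5 0 = ∑ j ∈ Finset.range L, if j = 0 then G5 j else 0 := by
    rw [Finset.sum_ite_eq', if_pos (Finset.mem_range.2 hL)]
  rw [hK, hG] at hsum
  rw [← hsum, ← hC]
  simp only [← Finset.sum_add_distrib, ← Finset.sum_sub_distrib]
  apply Finset.sum_congr rfl
  intro j hj
  have hj' := Finset.mem_range.1 hj
  have k1 : (cnt L (m + 1) j : ZMod r.l) = cnt L (m0 + 1) j + β := by
    have e : m + 1 = (m0 + 1) + L * β := by omega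
    rw [e, cnt_add hj']
    push_cast
    ring
  have k2 : (cnt L m j : ZMod r.l) = cnt L m0 j + β := by
    rw [hm, cnt_add hj']
    push_cast
    ring
  have k3 : (cnt L A j : ZMod r.l) = cnt L A0 j + α := by
    rw [hA, cnt_add hj']
    push_cast
    ring
  have k4 : (cnt L (A - m) j : ZMod r.l) = cnt L (A0 + L - m0) j + α - (β + 1) := by
    have e : (A - m) + L * (β + 1) = (A0 + L - m0) + L * α := by
      rw [mul_add, mul_one]
      omega
    have e1 := congrArg (fun k => (cnt L k j : ZMod r.l)) e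
    rw [cnt_add hj', cnt_add hj'] at e1
    push_cast at e1
    linear_combination e1
  rw [k1, k2, k3, k4, g1, g2, g3, g5, g7]
  unfold SJ wUN wVN wU4 wV4 wU3 wV3
  split_ifs
  all_goals ring

end Pool.Agent.OEG.E2
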