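import Pool.Agent.OEG.E2D

/-!
Project OEG, EL2: the codes of a class (`t_CL : Stmt_CL`), and the conditions on the discriminant.
-/

set_option autoImplicit false

namespace Pool.Agent.OEG.E2

open Pool.Agent.LibH4 Pool.Agent.LibH4.Ker
open Pool.Agent.Lib_helper5 Pool.Agent.Lib_helper5.LK Pool.Agent.Lib_helper5.TB

/-! ### lists -/

theorem bld_eq {α β : Type} {g : ℕ → (α → β) → β} {f : ℕ → α} (h : ∀ i k, g i k = k (f i))
    (n : ℕ) : ∀ (acc : List α) (k : List α → β),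
      bld g n acc k = k ((List.range n).map f ++ acc) := by
  induction n with
  | zero => intro acc k; rfl
  | succ n ih =>
    intro acc k
    have e : bld g (n + 1) acc k = g n fun x => bld g n (x :: acc) k := rfl
    rw [e, h, ih, List.range_succ, List.map_append, List.append_assoc]
    rfl

/-! ### residues -/

theorem val_of {n x : ℕ} {z : ZMod n} (h : (x : ZMod n) = z) : x % n = z.val := by
  rw [← h, ZMod.val_natCast]

theorem mod_of {n x y : ℕ} (h : (x : ZMod n) = (y : ZMod n)) : x % n = y % n :=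
  (ZMod.natCast_eq_natCast_iff' x y n).1 h

theorem cast_sg {n : ℕ} [NeZero n] (σ : ℕ) : ((sg n σ : ℕ) : ZMod n) = ((((-1 : ℤ) ^ σ : ℤ)) : ZMod n) := by
  have hn : 1 ≤ n := Nat.one_le_iff_ne_zero.2 (NeZero.ne n)
  have e : sg n σ = (n - 1) ^ σ % n := rfl
  rw [e, ZMod.natCast_mod, Nat.cast_pow, Nat.cast_sub hn, ZMod.natCast_self]
  push_cast
  ring

theorem sg_lt {n : ℕ} [NeZero n] (σ : ℕ) : sg n σ < n := Nat.mod_lt _ (Nat.pos_of_ne_zero (NeZero.ne n))

/-- cast of `n - x` -/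
theorem cast_nsub {n x : ℕ} (h : x ≤ n) : ((n - x : ℕ) : ZMod n) = -(x : ZMod n) := by
  rw [Nat.cast_sub h, ZMod.natCast_self, zero_sub]

/-- the function `base` in plain words -/
theorem base_eq {β : Type} (n σ τ A0 m0 q : ℕ) (k : ℕ → ℕ → ℕ → ℕ → ℕ → ℕ → β) :
    base n σ τ A0 m0 q k =
      k (q ^ A0 % n) (q ^ m0 % n) (sg n σ) (sg n τ) (sg n σ * sg n τ % n)
        ((q ^ A0 % n + (sg n σ * (q ^ m0 % n) + (n - sg n σ * sg n τ % n))) % n) := by
  unfold base
  simp only [strict_eq]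
  rfl

/-- the function `cj` in plain words -/
theorem cj_eq (n PT iq N N3 N4 KN K4 K3 j : ℕ) :
    cj n PT iq N N3 N4 KN K4 K3 j =
      dig PT (n * (N * (iq ^ j % n) % n) + KN * ((iq ^ j % n) * (iq ^ j % n) % n) % n) +
      16777216 *
      (dig PT (n * (N4 * (iq ^ j % n) % n) + K4 * ((iq ^ j % n) * (iq ^ j % n) % n) % n) +
      16777216 *
      dig PT (n * (N3 * (iq ^ j % n) % n) + K3 * ((iq ^ j % n) * (iq ^ j % n) % n) % n)) := by
  unfold cj
  simp only [strict_eq]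
  rfl

/-- the function `clst` in plain words -/
theorem clst_eq {β : Type} (n ex PT L q a b s l sl N : ℕ) (k : List ℕ → β) :
    clst n ex PT L q a b s l sl N k = k ((List.range L).map
      (cj n PT (q ^ ex % n) N ((N + 2 * sl) % n) ((a + ((n - s) * b + (n - sl))) % n)
        ((n - l) * b % n) ((n - s) * (a * b) % n) (sl * a % n))) := by
  unfold clst
  simp only [strict_eq]
  refine (bld_eq (fun i k => rfl) L [] k).trans ?_
  rw [List.append_nil]
  rfl

/-- the function `pos` in plain words -/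
theorem pos_eq (n ex PT P R S : ℕ) :
    pos n ex PT P R S = dig PT (n * (R * (P ^ ex % n) % n) + S * (P ^ ex % n) % n) := by
  unfold pos iv
  simp only [strict_eq]
  rfl

/-! ### the codes -/

section

variable {n : ℕ} {u : (ZMod n)ˣ} {ex : ℕ}

theorem up_inv (hu : (u : ZMod n) * (u : ZMod n) ^ ex = 1) (j : ℕ) (q : ℕ)
    (hq : ((q : ℕ) : ZMod n) = u) :
    (((q ^ ex % n) ^ j % n : ℕ) : ZMod n) = ((u⁻¹ : (ZMod n)ˣ) : ZMod n) ^ j := by
  rw [ZMod.natCast_mod, Nat.cast_pow, ZMod.natCast_mod, Nat.cast_pow, hq]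
  congr 1
  exact (Units.inv_eq_of_mul_eq_one_right hu).symm

theorem inv_up [NeZero n] (hu : (u : ZMod n) * (u : ZMod n) ^ ex = 1) (j : ℕ) :
    (((up n u j).val ^ ex % n : ℕ) : ZMod n) = ((u⁻¹ : (ZMod n)ˣ) : ZMod n) ^ j := by
  rw [ZMod.natCast_mod, Nat.cast_pow, ZMod.natCast_zmod_val]
  unfold up
  rw [zpow_natCast, Units.val_pow_eq_pow_val, ← pow_mul, mul_comm j ex, pow_mul]
  congr 1
  exact (Units.inv_eq_of_mul_eq_one_right hu).symm

theorem inv_eq [NeZero n] (hu : (u : ZMod n) * (u : ZMod n) ^ ex = 1) (j : ℕ) (q : ℕ)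
    (hq : ((q : ℕ) : ZMod n) = u) :
    (up n u j).val ^ ex % n = (q ^ ex % n) ^ j % n := by
  have h := (inv_up hu j).trans (up_inv hu j q hq).symm
  have h' := mod_of h
  rwa [Nat.mod_mod, Nat.mod_mod] at h'

theorem up_sub (hk : ℕ) (j : ℕ) :
    up n u (hk - j) * ((u⁻¹ : (ZMod n)ˣ) : ZMod n) ^ j =
      (u : ZMod n) ^ hk * (((u⁻¹ : (ZMod n)ˣ) : ZMod n) ^ j * ((u⁻¹ : (ZMod n)ˣ) : ZMod n) ^ j) := by
  unfold up
  rw [zpow_sub, zpow_natCast, zpow_natCast]
  push_cast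
  ring

/-- the position of a form in plain words -/
theorem pos_of [NeZero n] {PT R0 K q j : ℕ} {R S : ZMod n}
    (hu : (u : ZMod n) * (u : ZMod n) ^ ex = 1) (hq : ((q : ℕ) : ZMod n) = u)
    (hR : (R0 : ZMod n) = R)
    (hS : S * ((u⁻¹ : (ZMod n)ˣ) : ZMod n) ^ j =
      (K : ZMod n) * (((u⁻¹ : (ZMod n)ˣ) : ZMod n) ^ j * ((u⁻¹ : (ZMod n)ˣ) : ZMod n) ^ j)) :
    dig PT (n * (R0 * ((q ^ ex % n) ^ j % n) % n) +
      K * (((q ^ ex % n) ^ j % n) * ((q ^ ex % n) ^ j % n) % n) % n) =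
    pos n ex PT (up n u j).val R.val S.val := by
  have hi := up_inv hu j q hq
  rw [pos_eq, inv_eq hu j q hq]
  have e1 : R0 * ((q ^ ex % n) ^ j % n) % n = R.val * ((q ^ ex % n) ^ j % n) % n := by
    apply mod_of
    rw [Nat.cast_mul, Nat.cast_mul, hR, ZMod.natCast_zmod_val]
  have e2 : K * (((q ^ ex % n) ^ j % n) * ((q ^ ex % n) ^ j % n) % n) % n =
      S.val * ((q ^ ex % n) ^ j % n) % n := by
    apply mod_of
    rw [Nat.cast_mul, Nat.cast_mul, ZMod.natCast_zmod_val, ZMod.natCast_mod, Nat.cast_mul, hi, hS]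
  rw [e1, e2]

end

theorem t_CL : Stmt_CL := by
  intro n ex PT L σ τ A0 m0 A m _ p u hn hp hu hA hm β k
  have hn0 : 0 < n := by omega
  set q := rs n p with hqd
  have hq : ((q : ℕ) : ZMod n) = u := by rw [hqd, rs_cast, hp]
  have hu' : (u : ZMod n) * (u : ZMod n) ^ ex = 1 := by
    have := congrArg (fun x : (ZMod n)ˣ => (x : ZMod n)) hu
    simpa only [Units.val_mul, Units.val_pow_eq_pow_val, Units.val_one] using this
  have hA' : (u : ZMod n) ^ A0 = (u : ZMod n) ^ A := by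
    have := congrArg (fun x : (ZMod n)ˣ => (x : ZMod n)) hA
    simpa only [Units.val_pow_eq_pow_val] using this
  have hm' : (u : ZMod n) ^ m0 = (u : ZMod n) ^ m := by
    have := congrArg (fun x : (ZMod n)ˣ => (x : ZMod n)) hm
    simpa only [Units.val_pow_eq_pow_val] using this
  set s : ℤ := (-1) ^ σ with hs
  set l : ℤ := (-1) ^ τ with hl
  rw [base_eq]
  simp only [clst_eq]
  set a := q ^ A0 % n with had
  set b := q ^ m0 % n with hbd
  set s0 := sg n σ with hs0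
  set l0 := sg n τ with hl0
  set sl := s0 * l0 % n with hsl
  set N := (a + (s0 * b + (n - sl))) % n with hNd
  have ca : (a : ZMod n) = (u : ZMod n) ^ A := by
    rw [had, ZMod.natCast_mod, Nat.cast_pow, hq, hA']
  have cb : (b : ZMod n) = (u : ZMod n) ^ m := by
    rw [hbd, ZMod.natCast_mod, Nat.cast_pow, hq, hm']
  have cs : (s0 : ZMod n) = (s : ZMod n) := cast_sg σ
  have cl : (l0 : ZMod n) = (l : ZMod n) := cast_sg τ
  have csl : (sl : ZMod n) = (s : ZMod n) * l := by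
    rw [hsl, ZMod.natCast_mod, Nat.cast_mul, cs, cl]
  have slt : sl ≤ n := (Nat.mod_lt _ hn0).le
  have s0t : s0 ≤ n := (sg_lt σ).le
  have l0t : l0 ≤ n := (sg_lt τ).le
  have cN : (N : ZMod n) = zN n s l u A m := by
    rw [hNd, ZMod.natCast_mod, Nat.cast_add, Nat.cast_add, Nat.cast_mul, cast_nsub slt, ca, cb,
      cs, csl]
    unfold zN
    ring
  have cN3 : (((N + 2 * sl) % n : ℕ) : ZMod n) = zN3 n s l u A m := by
    rw [ZMod.natCast_mod, Nat.cast_add, Nat.cast_mul, cN, csl]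
    unfold zN zN3
    push_cast
    ring
  have cN4 : (((a + ((n - s0) * b + (n - sl))) % n : ℕ) : ZMod n) = zN4 n s l u A m := by
    rw [ZMod.natCast_mod, Nat.cast_add, Nat.cast_add, Nat.cast_mul, cast_nsub slt, cast_nsub s0t,
      ca, cb, cs, csl]
    unfold zN4
    ring
  have cKN : (((n - l0) * b % n : ℕ) : ZMod n) = -(l * (u : ZMod n) ^ m) := by
    rw [ZMod.natCast_mod, Nat.cast_mul, cast_nsub l0t, cb, cl]
    ring
  have cK4 : (((n - s0) * (a * b) % n : ℕ) : ZMod n) =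
      -(s * ((u : ZMod n) ^ A * (u : ZMod n) ^ m)) := by
    rw [ZMod.natCast_mod, Nat.cast_mul, Nat.cast_mul, cast_nsub s0t, ca, cb, cs]
    ring
  have cK3 : ((sl * a % n : ℕ) : ZMod n) = l * s * (u : ZMod n) ^ A := by
    rw [ZMod.natCast_mod, Nat.cast_mul, csl, ca]
    ring
  have hD : dsc n b l0 N = rs n (DD s l p A m) := by
    have e : dsc n b l0 N = (N * N + 4 * (l0 * b)) % n := rfl
    rw [e]
    apply rs_of
    rw [Nat.cast_add, Nat.cast_mul, Nat.cast_mul, Nat.cast_mul, cN, cl, cb]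
    unfold DD zN
    push_cast
    rw [hp]
    ring
  rw [hD]
  congr 1
  apply List.map_congr_left
  intro j _
  rw [cj_eq]
  unfold cdn qN q4 q3
  rw [pos_of (R := zN n s l u A m) (S := -(l * up n u (m - j))) hu' hq cN
      (by rw [cKN, neg_mul, neg_mul, mul_assoc, up_sub, mul_assoc]),
    pos_of (R := zN4 n s l u A m) (S := -(s * up n u (A + m - j))) hu' hq cN4
      (by
        have e := up_sub (u := u) (A + m) j
        rw [Nat.cast_add] at e
        rw [cK4, neg_mul, neg_mul, mul_assoc, e, pow_add]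
        ring),
    pos_of (R := zN3 n s l u A m) (S := l * s * up n u (A - j)) hu' hq cN3
      (by
        rw [cK3, mul_assoc, up_sub]
        ring)]

/-! ### the conditions on the discriminant -/

/-- a test commutes with the list of codes -/
theorem base_test {β : Type} (T : ℕ → Bool) (n ex PT L σ τ A0 m0 q : ℕ) (no : β)
    (k : List ℕ → β) :
    base n σ τ A0 m0 q (fun a b s l sl N =>
      @Bool.rec (fun _ => β) no (clst n ex PT L q a b s l sl N k) (T (dsc n b l N))) =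
    base n σ τ A0 m0 q (fun a b s l sl N =>
      clst n ex PT L q a b s l sl N
        ((fun D C => @Bool.rec (fun _ => β) no (k C) (T D)) (dsc n b l N))) := by
  rw [base_eq, base_eq]
  simp only [clst_eq]

/-- **codes of a class, component with a condition**: the discriminant is a non residue -/
theorem cl_eq {n ex PT L σ τ A0 m0 A m : ℕ} [NeZero n] {p : ℤ} {u : (ZMod n)ˣ}
    (hn : 1 < n) (hp : (p : ZMod n) = u) (hu : u * u ^ ex = 1) (hA : u ^ A0 = u ^ A)
    (hm : u ^ m0 = u ^ m) (hD : K5.In n (DD ((-1) ^ σ) ((-1) ^ τ) p A m))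
    {β : Type} (no : β) (k : List ℕ → β) :
    cl n ex PT L σ τ A0 m0 (rs n p) no k =
      k ((List.range L).map (cdn n ((-1) ^ σ) ((-1) ^ τ) u A m ex PT)) := by
  unfold cl
  rw [base_test (dok n)]
  refine (t_CL n ex PT L σ τ A0 m0 A m p u hn hp hu hA hm β
    (fun D C => @Bool.rec (fun _ => β) no (k C) (dok n D))).trans ?_
  have e : dok n (rs n (DD ((-1) ^ σ) ((-1) ^ τ) p A m)) = true := hD
  simp only [e]

/-- **codes of a class modulo `8`**: the discriminant is `5` modulo `8` -/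
theorem cl8_eq {ex PT L σ τ A0 m0 A m : ℕ} {p : ℤ} {u : (ZMod 8)ˣ}
    (hp : (p : ZMod 8) = u) (hu : u * u ^ ex = 1) (hA : u ^ A0 = u ^ A)
    (hm : u ^ m0 = u ^ m) (hD : DD ((-1) ^ σ) ((-1) ^ τ) p A m % 8 = 5)
    {β : Type} (no : β) (k : List ℕ → β) :
    cl8 ex PT L σ τ A0 m0 (rs 8 p) no k =
      k ((List.range L).map (cdn 8 ((-1) ^ σ) ((-1) ^ τ) u A m ex PT)) := by
  unfold cl8
  refine (base_test (fun D => Nat.beq D (nat_lit 5)) (nat_lit 8) ex PT L σ τ A0 m0 (rs 8 p)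
    no k).trans ?_
  refine (t_CL 8 ex PT L σ τ A0 m0 A m p u (by norm_num) hp hu hA hm β
    (fun D C => @Bool.rec (fun _ => β) no (k C) (Nat.beq D (nat_lit 5)))).trans ?_
  have e : Nat.beq (rs 8 (DD ((-1) ^ σ) ((-1) ^ τ) p A m)) (nat_lit 5) = true := by
    have e5 : rs 8 (DD ((-1) ^ σ) ((-1) ^ τ) p A m) = 5 := by
      have h := rs_of (p := 8) (n := 5) (x := DD ((-1) ^ σ) ((-1) ^ τ) p A m) (by
        have h3 : ((DD ((-1) ^ σ) ((-1) ^ τ) p A m : ℤ) : ZMod 8) = ((5 : ℤ) : ZMod 8) :=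
          (ZMod.intCast_eq_intCast_iff' _ _ _).2 hD
        rw [h3]
        norm_num)
      rw [← h]
    rw [e5]
    rfl
  simp only [e]

/-- **codes of a class modulo `4`** -/
theorem cl4_eq {ex PT L σ τ A0 m0 A m : ℕ} {p : ℤ} {u : (ZMod 4)ˣ}
    (hp : (p : ZMod 4) = u) (hu : u * u ^ ex = 1) (hA : u ^ A0 = u ^ A)
    (hm : u ^ m0 = u ^ m) {β : Type} (k : List ℕ → β) :
    cl4 ex PT L σ τ A0 m0 (rs 4 p) k =
      k ((List.range L).map (cdn 4 ((-1) ^ σ) ((-1) ^ τ) u A m ex PT)) := by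
  unfold cl4
  exact t_CL 4 ex PT L σ τ A0 m0 A m p u (by norm_num) hp hu hA hm β (fun _ C => k C)

end Pool.Agent.OEG.E2
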