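import Pool.Agent.OEG.E2K

/-!
Project OEG, EL2: residues, positions, weights (mathematical side) and the statements
`Stmt_AFF` (affine identity), `Stmt_CL` (codes of a class), `Stmt_WT` (weights).

`A = A0 + L α`, `m = m0 + L β` with `A0, m0 < L`, and `L` is a period of the powers of `p` modulo all
components. All exponents below may be reduced modulo `L`.
-/

set_option autoImplicit false

namespace Pool.Agent.OEG.E2

open Pool.Agent.LibH4 Pool.Agent.LibH4.Ker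
open Pool.Agent.Lib_helper5 Pool.Agent.Lib_helper5.LK Pool.Agent.Lib_helper5.TB
open Pool.Agent.LibH4.S7 (Rl)

section Res

variable (n : ℕ) (s l : ℤ) (u : (ZMod n)ˣ) (A m : ℕ)

/-- `N = p^A + s p^m - l s` modulo `n` (`u` is the class of `p`) -/
def zN : ZMod n := (u : ZMod n) ^ A + s * (u : ZMod n) ^ m - l * s

/-- `N3 = p^A + s p^m + l s` modulo `n` -/
def zN3 : ZMod n := (u : ZMod n) ^ A + s * (u : ZMod n) ^ m + l * s

/-- `N4 = p^A - s p^m - l s` modulo `n` -/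
def zN4 : ZMod n := (u : ZMod n) ^ A - s * (u : ZMod n) ^ m - l * s

/-- power with an integer exponent -/
def up (e : ℤ) : ZMod n := ((u ^ e : (ZMod n)ˣ) : ZMod n)

/-- position of the form `N_j = (p^j, N, -l p^(m-j))` -/
def qN (ex PT j : ℕ) : ℕ :=
  pos n ex PT (up n u j).val (zN n s l u A m).val (-(l * up n u (m - j))).val

/-- position of the form `N4_j = (p^j, N4, -s p^(A+m-j))` -/
def q4 (ex PT j : ℕ) : ℕ :=
  pos n ex PT (up n u j).val (zN4 n s l u A m).val (-(s * up n u (A + m - j))).val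

/-- position of the form `N3_j = (p^j, N3, l s p^(A-j))` -/
def q3 (ex PT j : ℕ) : ℕ :=
  pos n ex PT (up n u j).val (zN3 n s l u A m).val (l * s * up n u (A - j)).val

/-- the code of the index `j` -/
def cdn (ex PT j : ℕ) : ℕ :=
  qN n s l u A m ex PT j + 16777216 * (q4 n s l u A m ex PT j +
    16777216 * q3 n s l u A m ex PT j)

end Res

section Weights

variable (ℓ : ℕ) (s l : ℤ) (v : (ZMod ℓ)ˣ) (A m A0 m0 L α β j : ℕ)

/-- weight of `X (N_j)` -/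
def wUN : ZMod ℓ := 3 * (β + cnt L (m0 + 1) j)

/-- weight of `Y (N_j)` -/
def wVN : ZMod ℓ :=
  -(l * ((v : ZMod ℓ) ^ (A0 + L - m0 + j) + s * (v : ZMod ℓ) ^ j)) * (β + cnt L m0 j) +
    (if j = m0 then -(l * zN ℓ s l v A m) else 0)

/-- weight of `X (N4_j)` -/
def wU4 : ZMod ℓ := 3 * (α - β + cnt L A0 j - cnt L (m0 + 1) j)

/-- weight of `Y (N4_j)` -/
def wV4 : ZMod ℓ :=
  -(s * (v : ZMod ℓ) ^ (j + L - m0)) * (α - β + cnt L A0 j - cnt L (m0 + 1) j)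

/-- weight of `X (N3_j)` -/
def wU3 : ZMod ℓ := 3 * (α + cnt L A0 j - if j = 0 then 1 else 0)

/-- weight of `Y (N3_j)` -/
def wV3 : ZMod ℓ :=
  l * s * (v : ZMod ℓ) ^ j * (α + cnt L A0 j - if j = 0 then 1 else 0) +
    l * (v : ZMod ℓ) ^ (m0 + j + L - A0) * (β + 1 + cnt L A0 j - cnt L (A0 + L - m0) j)

end Weights

/-- the reduced character is multiplicative -/
def Mu (n t ℓ : ℕ) : Prop :=
  (∀ x y : ZMod n, ((dig t (x * y).val : ℕ) : ZMod ℓ) =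
    ((dig t x.val : ℕ) : ZMod ℓ) * ((dig t y.val : ℕ) : ZMod ℓ)) ∧
  ((dig t (1 : ZMod n).val : ℕ) : ZMod ℓ) = 1

section Rel

variable (r : Rl) (s l : ℤ) (u1 : (ZMod r.n1)ˣ) (u2 : (ZMod r.n2)ˣ) (u3 : (ZMod r.n3)ˣ)
  (v : (ZMod r.l)ˣ) (A m A0 m0 L α β j : ℕ)

/-- the value of the character at `p` -/
def cc : ZMod r.l :=
  ((dig r.t1 (u1 : ZMod r.n1).val : ℕ) : ZMod r.l) *
    (((dig r.t2 (u2 : ZMod r.n2).val : ℕ) : ZMod r.l) *
    ((dig r.t3 (u3 : ZMod r.n3).val : ℕ) : ZMod r.l))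

/-- table value at the form `N_j` -/
def XN : ℕ := tX r.rows r.len3 (qN r.n1 s l u1 A m r.ex1 r.PT1 j)
  (qN r.n2 s l u2 A m r.ex2 r.PT2 j) (qN r.n3 s l u3 A m r.ex3 r.PT3 j)
/-- table value at the form `N_j` -/
def YN : ℕ := tY r.rows r.len3 (qN r.n1 s l u1 A m r.ex1 r.PT1 j)
  (qN r.n2 s l u2 A m r.ex2 r.PT2 j) (qN r.n3 s l u3 A m r.ex3 r.PT3 j)
/-- table value at the form `N4_j` -/
def X4 : ℕ := tX r.rows r.len3 (q4 r.n1 s l u1 A m r.ex1 r.PT1 j)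
  (q4 r.n2 s l u2 A m r.ex2 r.PT2 j) (q4 r.n3 s l u3 A m r.ex3 r.PT3 j)
/-- table value at the form `N4_j` -/
def Y4 : ℕ := tY r.rows r.len3 (q4 r.n1 s l u1 A m r.ex1 r.PT1 j)
  (q4 r.n2 s l u2 A m r.ex2 r.PT2 j) (q4 r.n3 s l u3 A m r.ex3 r.PT3 j)
/-- table value at the form `N3_j` -/
def X3 : ℕ := tX r.rows r.len3 (q3 r.n1 s l u1 A m r.ex1 r.PT1 j)
  (q3 r.n2 s l u2 A m r.ex2 r.PT2 j) (q3 r.n3 s l u3 A m r.ex3 r.PT3 j)
/-- table value at the form `N3_j` -/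
def Y3 : ℕ := tY r.rows r.len3 (q3 r.n1 s l u1 A m r.ex1 r.PT1 j)
  (q3 r.n2 s l u2 A m r.ex2 r.PT2 j) (q3 r.n3 s l u3 A m r.ex3 r.PT3 j)

/-- the contribution of the index `j` modulo `L` -/
def SJ : ZMod r.l :=
  wUN r.l m0 L β j * (XN r s l u1 u2 u3 A m j : ZMod r.l) +
  (wVN r.l s l v A m A0 m0 L β j * (YN r s l u1 u2 u3 A m j : ZMod r.l) +
  (wU4 r.l A0 m0 L α β j * (X4 r s l u1 u2 u3 A m j : ZMod r.l) +
  (wV4 r.l s v A0 m0 L α β j * (Y4 r s l u1 u2 u3 A m j : ZMod r.l) +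
  (wU3 r.l A0 L α j * (X3 r s l u1 u2 u3 A m j : ZMod r.l) +
  wV3 r.l s l v A0 m0 L α β j * (Y3 r s l u1 u2 u3 A m j : ZMod r.l)))))

end Rel

/-- **AFF** (helper1), the affine identity. The list `J2` has the terms `N_j` (`j ≤ m`), `N4_j`
(`m < j < A`), `N3_j` (`1 ≤ j < A`); `Rl.val` of a term depends only on the residues, and all residues,
letters and characters of a term are periodic in `j` with period `L` (`u ^ L = 1`), where the letter of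
`N_m` is the exceptional `l N` and the letter of `N3_j` has a second part for `j ≥ A - m`. For a
function `F` with period `L` and `k = k0 + L t`, `k0 ≤ L`:
`∑ j < k, F j = ∑ j < L, F j * (t + [j < k0])`. The number of the `t ≥ 0` with `j + L t < A - m` is
`α - β - 1 + cnt L (A0 + L - m0) j` (in `ℤ`). -/
def Stmt_AFF : Prop := ∀ (r : Rl) [NeZero r.n1] [NeZero r.n2] [NeZero r.n3] [NeZero r.l]
    (s l p : ℤ) (A m A0 m0 L α β : ℕ)
    (u1 : (ZMod r.n1)ˣ) (u2 : (ZMod r.n2)ˣ) (u3 : (ZMod r.n3)ˣ) (v : (ZMod r.l)ˣ),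
    Hj r (J2 s l p A m) → m + 2 ≤ A → A0 < L → m0 < L → A = A0 + L * α →
    m = m0 + L * β → (p : ZMod r.n1) = u1 → (p : ZMod r.n2) = u2 → (p : ZMod r.n3) = u3 →
    (p : ZMod r.l) = v → u1 ^ L = 1 → u2 ^ L = 1 → u3 ^ L = 1 → v ^ L = 1 →
    Mu r.n1 r.t1 r.l → Mu r.n2 r.t2 r.l → Mu r.n3 r.t3 r.l →
    ∑ j ∈ Finset.range L, cc r u1 u2 u3 ^ j * SJ r s l u1 u2 u3 v A m A0 m0 L α β j = 0

/-- the discriminant -/
def DD (s l p : ℤ) (A m : ℕ) : ℤ := (p ^ A + s * p ^ m - l * s) ^ 2 + 4 * l * p ^ m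

/-- **CL** (helper4), the codes of a class: kernel function `clst` (with `base`), and the conditions on
the discriminant. `pos` uses the inverse `iv n ex P = P ^ ex % n`; here `(p^j)^ex = (p^ex)^j`, so `i` in
`cj` is this inverse, and `S i = K i²` as `i p^j = 1`. -/
def Stmt_CL : Prop := ∀ (n ex PT L σ τ A0 m0 A m : ℕ) [NeZero n] (p : ℤ) (u : (ZMod n)ˣ),
    1 < n → (p : ZMod n) = u → u * u ^ ex = 1 → u ^ A0 = u ^ A → u ^ m0 = u ^ m →
    (∀ (β : Type) (k : ℕ → List ℕ → β),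
      base n σ τ A0 m0 (rs n p) (fun a b s l sl N =>
        clst n ex PT L (rs n p) a b s l sl N (k (dsc n b l N))) =
      k (rs n (DD ((-1) ^ σ) ((-1) ^ τ) p A m))
        ((List.range L).map (cdn n ((-1) ^ σ) ((-1) ^ τ) u A m ex PT)))

/-- a packed weight with the value `x` -/
def IsW (ℓ α β w : ℕ) (x : ZMod ℓ) : Prop :=
  ∃ c a b : ℕ, c ≤ ℓ ∧ a ≤ ℓ ∧ b ≤ ℓ ∧ w = pk c a b ∧ (c : ZMod ℓ) + a * α + b * β = x

/-- **WT**, the weights: kernel function `wl` -/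
def Stmt_WT : Prop := ∀ (ℓ L σ τ A0 m0 A m α β : ℕ) [NeZero ℓ] (p : ℤ) (v : (ZMod ℓ)ˣ),
    3 < ℓ → A0 < L → m0 < L → A = A0 + L * α → m = m0 + L * β → (p : ZMod ℓ) = v → v ^ L = 1 →
    ∃ W : ℕ → W6,
      (∀ (γ : Type) (k : List W6 → γ), wl ℓ L σ τ A0 m0 (rs ℓ p) k = k ((List.range L).map W)) ∧
      ∀ j < L, IsW ℓ α β (W j).a (wUN ℓ m0 L β j) ∧
        IsW ℓ α β (W j).b (wVN ℓ ((-1) ^ σ) ((-1) ^ τ) v A m A0 m0 L β j) ∧
        IsW ℓ α β (W j).c (wU4 ℓ A0 m0 L α β j) ∧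
        IsW ℓ α β (W j).d (wV4 ℓ ((-1) ^ σ) v A0 m0 L α β j) ∧
        IsW ℓ α β (W j).e (wU3 ℓ A0 L α j) ∧
        IsW ℓ α β (W j).f (wV3 ℓ ((-1) ^ σ) ((-1) ^ τ) v A0 m0 L α β j)

end Pool.Agent.OEG.E2
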