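import Pool.Agent.OEG.E2S

/-!
Project OEG, EL2: the evaluation in lanes (`Stmt_EV`, helper26)
-/

set_option autoImplicit false

namespace Pool.Agent.OEG.E2

namespace Evm

lemma pk_add (a b c a' b' c' : ℕ) : pk a b c + pk a' b' c' = pk (a + a') (b + b') (c + c') := by
  show a + BB * (b + BB * c) + (a' + BB * (b' + BB * c')) = a + a' + BB * (b + b' + BB * (c + c'))
  ring

lemma pk_mul (n a b c : ℕ) : n * pk a b c = pk (n * a) (n * b) (n * c) := by
  show n * (a + BB * (b + BB * c)) = n * a + BB * (n * b + BB * (n * c))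
  ring

lemma dg8_le (A e : ℕ) : dg8 A e ≤ 255 := by
  have : dg8 A e < 256 := Nat.mod_lt _ (by norm_num)
  omega

/-- the value of the tail sum -/
def SS {R : Type} [CommRing R] (c : R) (t : ℕ → R) : List ℕ → R
  | [] => 0
  | j :: K => t j + c * SS c t K

lemma SS_range {R : Type} [CommRing R] (c : R) (t : ℕ → R) (L a : ℕ) :
    SS c t (List.range' a L) = ∑ j ∈ Finset.range L, c ^ j * t (a + j) := by
  induction L generalizing a with
  | zero => rfl
  | succ L ih =>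
    rw [List.range'_succ, SS, ih, Finset.sum_range_succ', Finset.mul_sum, add_comm]
    congr 1
    · apply Finset.sum_congr rfl
      intro j _
      rw [pow_succ, show a + 1 + j = a + (j + 1) by ring]
      ring
    · simp

/-- the product of a weight and a digit -/
lemma one {ℓ α β w : ℕ} {x : ZMod ℓ} (hℓ : ℓ ≤ 19) (h : IsW ℓ α β w x) (A e : ℕ) :
    ∃ c a b : ℕ, c ≤ 4845 ∧ a ≤ 4845 ∧ w * dg8 A e = pk c a b ∧
      (c : ZMod ℓ) + a * α + b * β = x * (dg8 A e : ℕ) := by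
  obtain ⟨c, a, b, hc, ha, hb, rfl, hx⟩ := h
  have hd := dg8_le A e
  refine ⟨dg8 A e * c, dg8 A e * a, dg8 A e * b, ?_, ?_, ?_, ?_⟩
  · calc dg8 A e * c ≤ 255 * 19 := Nat.mul_le_mul hd (hc.trans hℓ)
      _ = 4845 := by norm_num
  · calc dg8 A e * a ≤ 255 * 19 := Nat.mul_le_mul hd (ha.trans hℓ)
      _ = 4845 := by norm_num
  · rw [mul_comm, pk_mul]
  · rw [← hx]
    push_cast
    ring

lemma evL {ℓ c α β : ℕ} (hℓ : ℓ ≤ 19) (hc : c ≤ 18) (w r : ℕ → W6) (e : ℕ → E3)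
    (x1 x2 x3 x4 x5 x6 : ℕ → ZMod ℓ) (K : List ℕ)
    (h : ∀ j ∈ K, IsW ℓ α β (w j).a (x1 j) ∧ IsW ℓ α β (w j).b (x2 j) ∧ IsW ℓ α β (w j).c (x3 j) ∧
      IsW ℓ α β (w j).d (x4 j) ∧ IsW ℓ α β (w j).e (x5 j) ∧ IsW ℓ α β (w j).f (x6 j)) :
    ∃ V0 VA Vm : ℕ, V0 ≤ 29070 * 19 ^ K.length ∧ VA ≤ 29070 * 19 ^ K.length ∧
      ev c (K.map w) (K.map r) (K.map e) = pk V0 VA Vm ∧
      (V0 : ZMod ℓ) + VA * α + Vm * β = SS (c : ZMod ℓ) (fun j =>
        (x1 j * (dg8 (r j).a (e j).a : ℕ) + (x2 j * (dg8 (r j).b (e j).a : ℕ) +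
        (x3 j * (dg8 (r j).c (e j).b : ℕ) + (x4 j * (dg8 (r j).d (e j).b : ℕ) +
        (x5 j * (dg8 (r j).e (e j).c : ℕ) + x6 j * (dg8 (r j).f (e j).c : ℕ))))))) K := by
  induction K with
  | nil =>
    refine ⟨0, 0, 0, Nat.zero_le _, Nat.zero_le _, rfl, ?_⟩
    simp [SS]
  | cons j K ih =>
    obtain ⟨V0, VA, Vm, b0, bA, hev, hval⟩ := ih fun i hi => h i (List.mem_cons_of_mem _ hi)
    obtain ⟨h1, h2, h3, h4, h5, h6⟩ := h j List.mem_cons_self
    obtain ⟨c1, a1, m1, p1, q1, e1, v1⟩ := one hℓ h1 (r j).a (e j).a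
    obtain ⟨c2, a2, m2, p2, q2, e2, v2⟩ := one hℓ h2 (r j).b (e j).a
    obtain ⟨c3, a3, m3, p3, q3, e3, v3⟩ := one hℓ h3 (r j).c (e j).b
    obtain ⟨c4, a4, m4, p4, q4, e4, v4⟩ := one hℓ h4 (r j).d (e j).b
    obtain ⟨c5, a5, m5, p5, q5, e5, v5⟩ := one hℓ h5 (r j).e (e j).c
    obtain ⟨c6, a6, m6, p6, q6, e6, v6⟩ := one hℓ h6 (r j).f (e j).c
    have hP : 1 ≤ 19 ^ K.length := Nat.one_le_pow _ _ (by norm_num)
    have hcV : c * V0 ≤ 18 * V0 := Nat.mul_le_mul_right _ hc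
    have hcA : c * VA ≤ 18 * VA := Nat.mul_le_mul_right _ hc
    refine ⟨c1 + (c2 + (c3 + (c4 + (c5 + (c6 + c * V0))))),
      a1 + (a2 + (a3 + (a4 + (a5 + (a6 + c * VA))))),
      m1 + (m2 + (m3 + (m4 + (m5 + (m6 + c * Vm))))), ?_, ?_, ?_, ?_⟩
    · rw [List.length_cons, pow_succ]
      omega
    · rw [List.length_cons, pow_succ]
      omega
    · show (w j).a * dg8 (r j).a (e j).a + ((w j).b * dg8 (r j).b (e j).a +
        ((w j).c * dg8 (r j).c (e j).b + ((w j).d * dg8 (r j).d (e j).b +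
        ((w j).e * dg8 (r j).e (e j).c + ((w j).f * dg8 (r j).f (e j).c +
        c * ev c (K.map w) (K.map r) (K.map e)))))) = _
      rw [hev, e1, e2, e3, e4, e5, e6, pk_mul, pk_add, pk_add, pk_add, pk_add, pk_add, pk_add]
    · rw [SS, ← hval, ← v1, ← v2, ← v3, ← v4, ← v5, ← v6]
      push_cast
      ring

end Evm

open Evm in
/-- **EV** -/
theorem t_EV : Stmt_EV := by
  intro ℓ L c α β w r e x1 x2 x3 x4 x5 x6 hℓ hL hc h
  obtain ⟨V0, VA, Vm, b0, bA, hev, hval⟩ := evL (α := α) (β := β) hℓ hc w r e x1 x2 x3 x4 x5 x6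
    (List.range L) (fun j hj => h j (List.mem_range.1 hj))
  rw [List.length_range] at b0 bA
  have hB : 29070 * 19 ^ L < BB := by
    calc 29070 * 19 ^ L ≤ 29070 * 19 ^ 48 :=
          Nat.mul_le_mul_left _ (Nat.pow_le_pow_right (by norm_num) hL)
      _ < BB := by
        show 29070 * 19 ^ 48 <
          115792089237316195423570985008687907853269984665640564039457584007913129639936
        norm_num
  refine ⟨V0, VA, Vm, b0.trans_lt hB, bA.trans_lt hB, hev, ?_⟩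
  rw [hval, List.range_eq_range', SS_range]
  simp only [zero_add]

end Pool.Agent.OEG.E2
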