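import Pool.Agent.OEG.E2F01a

/-!
Project OEG, EL2: the computation, signs `0, 0`, residues `8, ..., 11`.
-/

set_option autoImplicit false

namespace Pool.Agent.OEG.E2

theorem run_0_0_8 : run (nat_lit 0) (nat_lit 0) (nat_lit 8) = true := by
  decide +kernel

theorem run_0_0_9 : run (nat_lit 0) (nat_lit 0) (nat_lit 9) = true := by
  decide +kernel

theorem run_0_0_10 : run (nat_lit 0) (nat_lit 0) (nat_lit 10) = true := by
  decide +kernel

theorem run_0_0_11 : run (nat_lit 0) (nat_lit 0) (nat_lit 11) = true := by
  decide +kernel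

end Pool.Agent.OEG.E2
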