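import Pool.Agent.OEG.E2R

/-!
Project OEG, EL2: the computation, signs `1, 0`, residues `0, ..., 3`.
-/

set_option autoImplicit false

namespace Pool.Agent.OEG.E2

theorem run_1_0_0 : run (nat_lit 1) (nat_lit 0) (nat_lit 0) = true := by
  decide +kernel

theorem run_1_0_1 : run (nat_lit 1) (nat_lit 0) (nat_lit 1) = true := by
  decide +kernel

theorem run_1_0_2 : run (nat_lit 1) (nat_lit 0) (nat_lit 2) = true := by
  decide +kernel

theorem run_1_0_3 : run (nat_lit 1) (nat_lit 0) (nat_lit 3) = true := by
  decide +kernel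

end Pool.Agent.OEG.E2
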