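import Pool.Agent.OEG.E2F10a

/-!
Project OEG, EL2: the computation, signs `1, 1`, residues `4, ..., 7`.
-/

set_option autoImplicit false

namespace Pool.Agent.OEG.E2

theorem run_1_1_4 : run (nat_lit 1) (nat_lit 1) (nat_lit 4) = true := by
  decide +kernel

theorem run_1_1_5 : run (nat_lit 1) (nat_lit 1) (nat_lit 5) = true := by
  decide +kernel

theorem run_1_1_6 : run (nat_lit 1) (nat_lit 1) (nat_lit 6) = true := by
  decide +kernel

theorem run_1_1_7 : run (nat_lit 1) (nat_lit 1) (nat_lit 7) = true := by
  decide +kernel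

end Pool.Agent.OEG.E2
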