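import Pool.Agent.OEG.ERel

/-!
Project OEG, elimination for the second family (EL2): kernel functions.

In a state (`p` modulo the components, `A0 = A mod L`, `m0 = m mod L`, `A = A0 + L α`,
`m = m0 + L β`) the value of a relation modulo `ℓ` is
`∑ j < L, c ^ j (UN XN + VN YN + U4 X4 + V4 Y4 + U3 X3 + V3 Y3) (j)`, where `c` is the value of the
character at `p`, the `X`, `Y` are table values of the forms `N_j, N4_j, N3_j` and the `U`, `V` are affine
in `(α, β)`; they are packed in three lanes of 256 bits (`pk`).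
-/

set_option autoImplicit false

namespace Pool.Agent.OEG.E2

open Pool.Agent.LibH4 Pool.Agent.LibH4.Ker
open Pool.Agent.Lib_helper5.TB

/-! ### lists -/

/-- forced list `[f 0, …, f (n-1)] ++ acc` -/
def bld {α β : Type} (g : ℕ → (α → β) → β) (n : ℕ) : List α → (List α → β) → β :=
  @Nat.rec (fun _ => List α → (List α → β) → β) (fun acc k => k acc)
    (fun i ih acc k => g i fun x => ih (x :: acc) k) n

/-- forced append -/
def apK {α β : Type} (X Y : List α) : (List α → β) → β :=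
  @List.rec α (fun _ => (List α → β) → β) (fun k => k Y)
    (fun x _ ih k => ih fun Z => k (x :: Z)) X

/-- six numbers -/
structure W6 where
  /-- part -/
  a : ℕ
  /-- part -/
  b : ℕ
  /-- part -/
  c : ℕ
  /-- part -/
  d : ℕ
  /-- part -/
  e : ℕ
  /-- part -/
  f : ℕ

/-- three offsets -/
structure E3 where
  /-- part -/
  a : ℕ
  /-- part -/
  b : ℕ
  /-- part -/
  c : ℕ

/-- forced -/
def mk6 {β : Type} (a b c d e f : ℕ) (k : W6 → β) : β :=
  strict a fun a => strict b fun b => strict c fun c => strict d fun d => strict e fun e =>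
  strict f fun f => k ⟨a, b, c, d, e, f⟩

/-! ### classes -/

/-- `(-1) ^ σ` modulo `n` -/
def sg (n σ : ℕ) : ℕ := Nat.mod (Nat.pow (Nat.sub n (nat_lit 1)) σ) n

/-- positions of the forms `N_j`, `N4_j`, `N3_j` in lanes of 24 bits -/
def cj (n PT iq N N3 N4 KN K4 K3 j : ℕ) : ℕ :=
  strict (Nat.mod (Nat.pow iq j) n) fun i =>
  strict (Nat.mod (Nat.mul i i) n) fun i2 =>
  Nat.add (dig PT (Nat.add (Nat.mul n (Nat.mod (Nat.mul N i) n)) (Nat.mod (Nat.mul KN i2) n)))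
    (Nat.mul (nat_lit 16777216)
    (Nat.add (dig PT (Nat.add (Nat.mul n (Nat.mod (Nat.mul N4 i) n)) (Nat.mod (Nat.mul K4 i2) n)))
    (Nat.mul (nat_lit 16777216)
    (dig PT (Nat.add (Nat.mul n (Nat.mod (Nat.mul N3 i) n)) (Nat.mod (Nat.mul K3 i2) n))))))

/-- basic data of a class: `p ^ A`, `p ^ m`, `s`, `l`, `s l`, `N` modulo `n` -/
def base {β : Type} (n σ τ A0 m0 q : ℕ) (k : ℕ → ℕ → ℕ → ℕ → ℕ → ℕ → β) : β :=
  strict (Nat.mod (Nat.pow q A0) n) fun a =>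
  strict (Nat.mod (Nat.pow q m0) n) fun b =>
  strict (sg n σ) fun s => strict (sg n τ) fun l =>
  strict (Nat.mod (Nat.mul s l) n) fun sl =>
  strict (Nat.mod (Nat.add a (Nat.add (Nat.mul s b) (Nat.sub n sl))) n) fun N =>
  k a b s l sl N

/-- the discriminant modulo `n` -/
def dsc (n b l N : ℕ) : ℕ :=
  Nat.mod (Nat.add (Nat.mul N N) (Nat.mul (nat_lit 4) (Nat.mul l b))) n

/-- the discriminant is a non residue -/
def dok (n D : ℕ) : Bool :=
  Nat.beq (Nat.mod (Nat.pow D (Nat.div n (nat_lit 2))) n) (Nat.sub n (nat_lit 1))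

/-- the list of codes -/
def clst {β : Type} (n ex PT L q a b s l sl N : ℕ) (k : List ℕ → β) : β :=
  strict (Nat.mod (Nat.pow q ex) n) fun iq =>
  strict (Nat.mod (Nat.add N (Nat.mul (nat_lit 2) sl)) n) fun N3 =>
  strict (Nat.mod (Nat.add a (Nat.add (Nat.mul (Nat.sub n s) b) (Nat.sub n sl))) n) fun N4 =>
  strict (Nat.mod (Nat.mul (Nat.sub n l) b) n) fun KN =>
  strict (Nat.mod (Nat.mul (Nat.sub n s) (Nat.mul a b)) n) fun K4 =>
  strict (Nat.mod (Nat.mul sl a) n) fun K3 =>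
  bld (fun j k => strict (cj n PT iq N N3 N4 KN K4 K3 j) k) L [] k

/-- codes of a class with good discriminant -/
def cl {β : Type} (n ex PT L σ τ A0 m0 q : ℕ) (no : β) (k : List ℕ → β) : β :=
  base n σ τ A0 m0 q fun a b s l sl N =>
  @Bool.rec (fun _ => β) no (clst n ex PT L q a b s l sl N k) (dok n (dsc n b l N))

/-- codes of a class modulo `8`, discriminant `5` -/
def cl8 {β : Type} (ex PT L σ τ A0 m0 q : ℕ) (no : β) (k : List ℕ → β) : β :=
  base (nat_lit 8) σ τ A0 m0 q fun a b s l sl N =>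
  @Bool.rec (fun _ => β) no (clst (nat_lit 8) ex PT L q a b s l sl N k)
    (Nat.beq (dsc (nat_lit 8) b l N) (nat_lit 5))

/-- codes of a class modulo `4` -/
def cl4 {β : Type} (ex PT L σ τ A0 m0 q : ℕ) (k : List ℕ → β) : β :=
  base (nat_lit 4) σ τ A0 m0 q fun a b s l sl N => clst (nat_lit 4) ex PT L q a b s l sl N k

/-! ### weights -/

/-- lanes -/
def BB : ℕ :=
  nat_lit 115792089237316195423570985008687907853269984665640564039457584007913129639936

/-- packing -/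
def pk (c a b : ℕ) : ℕ := Nat.add c (Nat.mul BB (Nat.add a (Nat.mul BB b)))

/-- number of the `t` with `j + L t < k` -/
def cnt (L k j : ℕ) : ℕ := Nat.div (Nat.sub (Nat.add k (Nat.sub L (nat_lit 1))) j) L

/-- zero -/
def isz (j : ℕ) : ℕ := @Nat.rec (fun _ => ℕ) (nat_lit 1) (fun _ _ => nat_lit 0) j

/-- equal -/
def ise (j m : ℕ) : ℕ := @Bool.rec (fun _ => ℕ) (nat_lit 0) (nat_lit 1) (Nat.beq j m)

/-- weights of the index `j` -/
def wj {β : Type} (ℓ L A0 m0 v s l sl N j : ℕ) (k : W6 → β) : β :=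
  strict (Nat.mod (Nat.pow v j) ℓ) fun vj =>
  strict (cnt L A0 j) fun cA =>
  strict (cnt L (Nat.succ m0) j) fun c1 =>
  strict (Nat.mod (Nat.mul (Nat.sub ℓ l) (Nat.add (Nat.pow v (Nat.add (Nat.sub (Nat.add A0 L) m0) j))
    (Nat.mul s vj))) ℓ) fun g =>
  strict (Nat.mod (Nat.add cA (Nat.mul (Nat.sub ℓ (nat_lit 1)) c1)) ℓ) fun e4 =>
  strict (Nat.mod (Nat.mul (Nat.sub ℓ s) (Nat.pow v (Nat.sub (Nat.add j L) m0))) ℓ) fun h =>
  strict (Nat.mod (Nat.add cA (Nat.mul (Nat.sub ℓ (nat_lit 1)) (isz j))) ℓ) fun e3 =>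
  strict (Nat.mod (Nat.mul sl vj) ℓ) fun k1 =>
  strict (Nat.mod (Nat.mul l (Nat.pow v (Nat.sub (Nat.add (Nat.add m0 j) L) A0))) ℓ) fun k2 =>
  strict (Nat.add (nat_lit 1) (Nat.add cA (Nat.mul (Nat.sub ℓ (nat_lit 1))
    (cnt L (Nat.sub (Nat.add A0 L) m0) j)))) fun ed =>
  mk6 (pk (Nat.mod (Nat.mul (nat_lit 3) c1) ℓ) (nat_lit 0) (nat_lit 3))
    (pk (Nat.mod (Nat.add (Nat.mul g (cnt L m0 j)) (Nat.mul (ise j m0)
      (Nat.mul (Nat.sub ℓ l) N))) ℓ) (nat_lit 0) g)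
    (pk (Nat.mod (Nat.mul (nat_lit 3) e4) ℓ) (nat_lit 3) (Nat.sub ℓ (nat_lit 3)))
    (pk (Nat.mod (Nat.mul h e4) ℓ) h (Nat.sub ℓ h))
    (pk (Nat.mod (Nat.mul (nat_lit 3) e3) ℓ) (nat_lit 3) (nat_lit 0))
    (pk (Nat.mod (Nat.add (Nat.mul k1 e3) (Nat.mul k2 ed)) ℓ) k1 k2) k

/-- list of weights -/
def wl {β : Type} (ℓ L σ τ A0 m0 v : ℕ) (k : List W6 → β) : β :=
  base ℓ σ τ A0 m0 v fun _ _ s l sl N =>
  bld (fun j k => wj ℓ L A0 m0 v s l sl N j k) L [] k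

/-! ### rows, offsets, evaluation -/

/-- splitting of lanes -/
def spl {β : Type} (e : ℕ) (k : E3 → β) : β :=
  strict (Nat.mod e (nat_lit 16777216)) fun e0 =>
  strict (Nat.mod (Nat.shiftRight e (nat_lit 24)) (nat_lit 16777216)) fun e1 =>
  strict (Nat.shiftRight e (nat_lit 48)) fun e2 => k ⟨e0, e1, e2⟩

/-- offsets, one list -/
def of1 {β : Type} (K : ℕ) (C : List ℕ) : (List E3 → β) → β :=
  @List.rec ℕ (fun _ => (List E3 → β) → β) (fun k => k [])
    (fun c _ ih k => spl (Nat.mul K c) fun e => ih fun E => k (e :: E)) C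

/-- offsets, two lists -/
def of2 {β : Type} (K1 K2 : ℕ) (C : List ℕ) : List ℕ → (List E3 → β) → β :=
  @List.rec ℕ (fun _ => List ℕ → (List E3 → β) → β) (fun _ k => k [])
    (fun c _ ih D k => @List.rec ℕ (fun _ => β) (k []) (fun d D' _ =>
      spl (Nat.add (Nat.mul K1 c) (Nat.mul K2 d)) fun e => ih D' fun E => k (e :: E)) D) C

/-- rows of a code -/
def rw1 {β : Type} (K mk BX BY : ℕ) (c : ℕ) (k : W6 → β) : β :=
  spl (Nat.mul K c) fun e =>
  mk6 (Nat.land (Nat.shiftRight BX e.a) mk) (Nat.land (Nat.shiftRight BY e.a) mk)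
    (Nat.land (Nat.shiftRight BX e.b) mk) (Nat.land (Nat.shiftRight BY e.b) mk)
    (Nat.land (Nat.shiftRight BX e.c) mk) (Nat.land (Nat.shiftRight BY e.c) mk) k

/-- rows of a list of codes -/
def rwl {β : Type} (K mk BX BY : ℕ) (C : List ℕ) : (List W6 → β) → β :=
  @List.rec ℕ (fun _ => (List W6 → β) → β) (fun k => k [])
    (fun c _ ih k => rw1 K mk BX BY c fun r => ih fun R => k (r :: R)) C

/-- digit at an offset -/
def dg8 (A e : ℕ) : ℕ := Nat.mod (Nat.shiftRight A e) (nat_lit 256)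

/-- step -/
def stp (w r : W6) (e : E3) (T : ℕ) : ℕ :=
  Nat.add (Nat.mul w.a (dg8 r.a e.a)) (Nat.add (Nat.mul w.b (dg8 r.b e.a))
  (Nat.add (Nat.mul w.c (dg8 r.c e.b)) (Nat.add (Nat.mul w.d (dg8 r.d e.b))
  (Nat.add (Nat.mul w.e (dg8 r.e e.c)) (Nat.add (Nat.mul w.f (dg8 r.f e.c)) T)))))

/-- evaluation: weights, rows, offsets -/
def ev (c : ℕ) (W : List W6) : List W6 → List E3 → ℕ :=
  @List.rec W6 (fun _ => List W6 → List E3 → ℕ) (fun _ _ => nat_lit 0)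
    (fun w _ ih R E => @List.rec W6 (fun _ => ℕ) (nat_lit 0)
      (fun r R' _ => @List.rec E3 (fun _ => ℕ) (nat_lit 0)
      (fun e E' _ => stp w r e (Nat.mul c (ih R' E'))) E) R) W

/-- character of a class -/
def chr (t1 q1 t2 q2 t3 q3 ℓ : ℕ) : ℕ :=
  Nat.mod (Nat.mul (dig t1 q1) (Nat.mul (dig t2 q2) (dig t3 q3))) ℓ

/-! ### tests -/

/-- state of a modulus: a line and a point (homogeneous coordinates) -/
structure St where
  /-- line -/
  a0 : ℕ
  /-- line -/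
  a1 : ℕ
  /-- line -/
  a2 : ℕ
  /-- point -/
  v0 : ℕ
  /-- point -/
  v1 : ℕ
  /-- point -/
  v2 : ℕ

/-- no information -/
def S0 : St := ⟨nat_lit 0, nat_lit 0, nat_lit 0, nat_lit 0, nat_lit 0, nat_lit 0⟩

/-- case distinction -/
def ifz {β : Type} (n : ℕ) (a b : β) : β := @Nat.rec (fun _ => β) a (fun _ _ => b) n

/-- scalar product -/
def dot (ℓ a b c x y z : ℕ) : ℕ :=
  Nat.mod (Nat.add (Nat.mul a x) (Nat.add (Nat.mul b y) (Nat.mul c z))) ℓ

/-- minor -/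
def mn (ℓ a b x y : ℕ) : ℕ :=
  Nat.mod (Nat.add (Nat.mul a y) (Nat.mul (Nat.sub ℓ b) x)) ℓ

/-- test of a line -/
def tl {β : Type} (ℓ : ℕ) (S : St) (c0 c1 c2 : ℕ) (dead : β) (k : St → β) : β :=
  ifz (Nat.add c1 c2) (ifz c0 (k S) dead)
    (ifz S.v0 (strict (mn ℓ S.a1 S.a2 c1 c2) fun v0 =>
      strict (mn ℓ S.a2 S.a0 c2 c0) fun v1 => strict (mn ℓ S.a0 S.a1 c0 c1) fun v2 =>
      ifz v0 (ifz (Nat.add v1 v2) (k ⟨c0, c1, c2, nat_lit 0, nat_lit 0, nat_lit 0⟩) dead)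
        (k ⟨S.a0, S.a1, S.a2, v0, v1, v2⟩))
      (ifz (dot ℓ S.v0 S.v1 S.v2 c0 c1 c2) (k S) dead))

/-- test of a value -/
def tst {β : Type} (ℓ r a b : ℕ) (S : St) (V : ℕ) (dead : β) (k : St → β) : β :=
  strict (Nat.mod (Nat.mod V BB) ℓ) fun c0 =>
  strict (Nat.mod (Nat.mod (Nat.shiftRight V (nat_lit 256)) BB) ℓ) fun cA =>
  strict (Nat.mod (Nat.shiftRight V (nat_lit 512)) ℓ) fun cm =>
  strict (Nat.mod (Nat.add (Nat.mul r c0) (Nat.add (Nat.mul (Nat.sub ℓ a) cA)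
    (Nat.mul (Nat.sub ℓ b) cm))) ℓ) fun d0 => tl ℓ S d0 cA cm dead k

/-! ### tables -/

/-- packed rows -/
structure Tb where
  /-- table -/
  X : ℕ
  /-- table -/
  Y : ℕ

/-- packed rows of a relation -/
def tb {β : Type} (w : ℕ) (rows : List (ℕ × ℕ)) (k : Tb → β) : β :=
  strict (packL (Nat.pow (nat_lit 2) w) (fun x => x.1) rows) fun X =>
  strict (packL (Nat.pow (nat_lit 2) w) (fun x => x.2) rows) fun Y => k ⟨X, Y⟩

/-- mask -/
def mk (w : ℕ) : ℕ := Nat.sub (Nat.pow (nat_lit 2) w) (nat_lit 1)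

end Pool.Agent.OEG.E2
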