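import Pool.Agent.OEG.E2S

/-!
Project OEG, EL2: `Stmt_MU` (multiplicative characters, bounded rows) and `Stmt_PER` (periods).
-/

set_option autoImplicit false

namespace Pool.Agent.OEG.E2

open Pool.Agent.LibH4 Pool.Agent.LibH4.Ker
open Pool.Agent.Lib_helper5 Pool.Agent.Lib_helper5.LK Pool.Agent.Lib_helper5.TB
open Pool.Agent.LibH4.S7 (Rl)
open Pool.Agent.PSX.K Pool.Agent.PSX.EL

/-- test of a character -/
def muB (n t l : ℕ) : Bool :=
  Nat.ble 1 n && (List.range n).all (fun a => (List.range n).all fun b =>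
    Nat.beq (dig t (a * b % n) % l) ((dig t a * dig t b) % l)) && Nat.beq (dig t (1 % n) % l) (1 % l)

theorem mu_of {n t l : ℕ} (h : muB n t l = true) : Mu n t l := by
  unfold muB at h
  rw [Bool.and_eq_true, Bool.and_eq_true] at h
  obtain ⟨⟨h0, h1⟩, h2⟩ := h
  have hn : 1 ≤ n := Nat.le_of_ble_eq_true h0
  have : NeZero n := ⟨by omega⟩
  rw [List.all_eq_true] at h1
  refine ⟨fun x y => ?_, ?_⟩
  · have h3 := h1 x.val (List.mem_range.2 (ZMod.val_lt x))
    rw [List.all_eq_true] at h3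
    have h4 := Nat.eq_of_beq_eq_true (h3 y.val (List.mem_range.2 (ZMod.val_lt y)))
    rw [ZMod.val_mul, ← Nat.cast_mul, ZMod.natCast_eq_natCast_iff']
    exact h4
  · have h4 := Nat.eq_of_beq_eq_true h2
    rw [ZMod.val_one_eq_one_mod, ← Nat.cast_one (R := ZMod l), ZMod.natCast_eq_natCast_iff']
    exact h4

/-- test of a relation -/
def gdB (r : Rl) (w : ℕ) : Bool :=
  muB r.n1 r.t1 r.l && (muB r.n2 r.t2 r.l && (muB r.n3 r.t3 r.l &&
    r.rows.all (fun x => Nat.blt x.1 (2 ^ w) && Nat.blt x.2 (2 ^ w))))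

theorem gd_of {r : Rl} {w : ℕ} (h : gdB r w = true) : Gd r w := by
  unfold gdB at h
  rw [Bool.and_eq_true, Bool.and_eq_true, Bool.and_eq_true] at h
  obtain ⟨h1, h2, h3, h4⟩ := h
  refine ⟨mu_of h1, mu_of h2, mu_of h3, fun x hx => ?_⟩
  rw [List.all_eq_true] at h4
  have h5 := h4 x hx
  rw [Bool.and_eq_true] at h5
  exact ⟨Nat.le_of_ble_eq_true h5.1, Nat.le_of_ble_eq_true h5.2⟩

theorem t_MU : Stmt_MU :=
  ⟨gd_of (by decide +kernel), gd_of (by decide +kernel), gd_of (by decide +kernel),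
    gd_of (by decide +kernel), gd_of (by decide +kernel), gd_of (by decide +kernel),
    gd_of (by decide +kernel), gd_of (by decide +kernel), gd_of (by decide +kernel),
    gd_of (by decide +kernel), gd_of (by decide +kernel), gd_of (by decide +kernel),
    gd_of (by decide +kernel), gd_of (by decide +kernel), gd_of (by decide +kernel),
    gd_of (by decide +kernel), gd_of (by decide +kernel)⟩

theorem per_of {n k : ℕ} (h : ∀ u : (ZMod n)ˣ, u ^ (k + 1) = 1) (u : (ZMod n)ˣ) :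
    u ^ (k + 1) = 1 ∧ u * u ^ k = 1 :=
  ⟨h u, by rw [← pow_succ']; exact h u⟩

theorem pos1 (P R S : ℕ) : pos 1 0 PT1 P R S = 0 := by
  have hd : ∀ i : ℕ, dig PT1 i = 0 := by
    intro i
    unfold dig PT1
    change (0 >>> (8 * i)) % 256 = 0
    rw [Nat.zero_shiftRight]
  unfold pos
  rw [strict_eq]
  exact hd _

theorem t_PER : Stmt_PER := by
  have : Fact (Nat.Prime 13) := ⟨by norm_num⟩
  have : Fact (Nat.Prime 7) := ⟨by norm_num⟩
  have : Fact (Nat.Prime 5) := ⟨by norm_num⟩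
  have : Fact (Nat.Prime 3) := ⟨by norm_num⟩
  have : Fact (Nat.Prime 19) := ⟨by norm_num⟩
  have : Fact (Nat.Prime 17) := ⟨by norm_num⟩
  refine ⟨per_of (k := 11) fun u => ZMod.units_pow_card_sub_one_eq_one 13 u,
    per_of (k := 5) fun u => ZMod.units_pow_card_sub_one_eq_one 7 u,
    per_of (k := 3) fun u => ZMod.units_pow_card_sub_one_eq_one 5 u,
    per_of (k := 1) fun u => ZMod.units_pow_card_sub_one_eq_one 3 u,
    per_of (k := 17) fun u => ZMod.units_pow_card_sub_one_eq_one 19 u,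
    per_of (k := 15) fun u => ZMod.units_pow_card_sub_one_eq_one 17 u,
    per_of (k := 1) (by decide), per_of (k := 1) (by decide), ?_⟩
  intro s l u A m j
  exact ⟨pos1 _ _ _, pos1 _ _ _, pos1 _ _ _⟩

end Pool.Agent.OEG.E2
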