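import Pool.Agent.OEG.E2T

/-!
Project OEG, EL2: the computation for one residue class of the larger exponent modulo `12`.
-/

set_option autoImplicit false

namespace Pool.Agent.OEG.E2

open Pool.Agent.LibH4 Pool.Agent.LibH4.Ker
open Pool.Agent.Lib_helper5 Pool.Agent.Lib_helper5.LK Pool.Agent.Lib_helper5.TB
open Pool.Agent.PSX.K Pool.Agent.PSX.EL

/-- the residues of the smaller exponent modulo `12` -/
def L12 : List ℕ :=
  [nat_lit 0, nat_lit 1, nat_lit 2, nat_lit 3, nat_lit 4, nat_lit 5, nat_lit 6, nat_lit 7,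
    nat_lit 8, nat_lit 9, nat_lit 10, nat_lit 11]

/-- the computation for `A0` -/
def run (σ τ A0 : ℕ) : Bool :=
  tbs fun T => allL (tree T σ τ A0) L12

end Pool.Agent.OEG.E2
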