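import Pool.Agent.OEG.Defs

/-!
# Project OEG: statements of the relation part (A) and of the elimination part (B)

Each `Stmt_XXX` is proved in its own module as `theorem t_XXX : Stmt_XXX` (with the statements it uses
as hypotheses or imported). The doc-string of a statement is its proof.
-/

set_option autoImplicit false

namespace Pool.Agent.OEG

open Finset (range)
open Pool.Agent.P4G (Fam QN FN FZ)
open Pool.Agent.Lib_helper5.LK (Fm)
open Pool.Agent.Lib_helper5 (XZ YX)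

/-- unique factorisation in all the rings `ℤ[x] / (x² - B x - m)` of discriminant `d`
(`ufm_order` in `RQM/C16.lean` gives it for squarefree `d` from the ring of integers) -/
def UF (d : ℕ) : Prop := ∀ m B : ℤ, (d : ℤ) = B ^ 2 + 4 * m →
  ∃ _ : IsDomain (QuadraticAlgebra ℤ m B), UniqueFactorizationMonoid (QuadraticAlgebra ℤ m B)

/-- a positive edge: form `(P, R, S)` and letter -/
structure Pe where
  /-- coefficient -/
  P : ℤ
  /-- coefficient -/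
  R : ℤ
  /-- coefficient -/
  S : ℤ
  /-- letter -/
  c : ℕ

/-- `e'` is the edge after `e` -/
def nx (e e' : Pe) : Prop := e'.P = e.S ∧ e'.R = 2 * e.c * e.S - e.R ∧
  e'.S = e.P + e.R * e.c - e.S * (e.c : ℤ) ^ 2

/-- the terms of a list of positive edges -/
def tms (L : List Pe) : List Fm := L.map (fun e => ⟨e.P, e.R, -e.S, 3, -(e.c : ℤ)⟩)

/-- **CYL** (helper58), the cone identity of a closed list of positive edges. `L = [e_0, …, e_{K-1}]`,
`e_0 = (m, B, 1; …)`. Put `P k = (L.get (k % K)).P` etc. (for even `K`: `CG.CycM m B K P R S c`; for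
odd `K = 2I+1`: `OddCyc m B I P R S c`). Even: `even_int` (RQM/C10). It needs
`hcl : rho K = rho (K+1) * om`. Proof of `hcl` in general: by `norm_pt` at `K` (`P K = m`, `R K = B`,
`S K = 1`, `K` even) `N(x ρ_K - y ρ_{K+1}) = -(m x² + B x y - y²)` for all integers `x, y`, so
`N(ρ_{K+1}) = 1`, `N(ρ_K) = -m` and `τ = ρ_K * star ρ_{K+1}` has trace `B` and norm `-m`; an element of
the order with trace `B` and norm `-m` is `ω` or `B - ω` (`D` is not a square: `d % 8 = 5`), and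
`s1 τ > 0` (`s1_rho`, `s2_rho`: `s1 τ = s1 ρ_K * s2 ρ_{K+1} > 0`) while `s1 (B - ω) = α' < 0`. So
`ρ_K = τ ρ_{K+1} = ω ρ_{K+1}`. Odd: `OddCyc.count` with `cyc_int` in place of `even_int` (the same three
lines). -/
def Stmt_CYL : Prop := ∀ (d : ℕ) (L : List Pe), UF d → d % 8 = 5 → (h0 : 0 < L.length) →
    (∀ e ∈ L, 0 < e.P ∧ 0 < e.S ∧ 0 < e.c ∧ (d : ℤ) = e.R ^ 2 + 4 * e.P * e.S) →
    (∀ (i : ℕ) (hi : i < L.length),
      nx L[i] (L[(i + 1) % L.length]'(Nat.mod_lt _ h0))) →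
    L[0].S = 1 → (∀ (i : ℕ) (hi : i < L.length), i ≠ 0 → (L[i]).S ≠ 1) → CI d (tms L)

/-- **BDN** (helper58), blow-down: a term with negative third coefficient (`-S'`, `S' > 0`; letter `-c'`)
is the sum of two positive terms if the letter before is reduced by one. For `f` odd and periodic:
`3 X(P,R,-S') + c' Y(P,R,-S') = [3 X(P,R-2P,S1) - Y(P,R-2P,S1)] +
[3 X(S1,R-2S',S') - (c'-1) Y(S1,R-2S',S')] + Y(P0,R0,P)`, `S1 = R - P - S'`, where `(P0,R0,P)` is the form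
before (its next form for some letter `c0` is `(P, R, ·)`). With `φ(x,y) = P x² + R x y + S' y²`:
`X(P,R,-S') = Σ f(φ) β(x)β(y)`, `Y(P,R,-S') = Σ f(φ) γ(x)`; the other terms, after the substitutions
`(x,y) → (x-y, y)`, `φ2(x,y) = -φ(-x, x+y)`, `φ0(x,y) = -φ(y - c0 x, x)` (`f` odd, `β` odd, `γ` even), are
`X(φ1) = Σ f(φ) β(x+y)β(y)`, `Y(φ1) = Σ f(φ) γ(x+y)`, `X(φ2) = Σ f(φ) β(x)β(x+y)`,
`Y(φ2) = -Σ f(φ) γ(x)`, `Y(φ0) = -Σ f(φ) γ(y)`. The difference of the two sides is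
`Σ f(φ) [3β(x)β(y) + γ(x) + γ(y) + γ(x+y) - 3β(x+y)(β(x)+β(y))]`, and the bracket is `0` for
`(x,y) ≠ (0,0)` by `RDF.three_term`, and `f 0 = 0`. -/
def Stmt_BDN : Prop := ∀ (q : ℕ) (f : ℤ → ℤ), 0 < q → (∀ x, f (x + q) = f x) →
    (∀ x, f (-x) = - f x) → ∀ P R S P0 R0 c c0 : ℤ, R = 2 * c0 * P - R0 →
    -S = P0 + R0 * c0 - P * c0 ^ 2 →
    3 * XZ q f P R (-S) + c * YX q f P R (-S)
      = (3 * XZ q f P (R - 2 * P) (R - P - S) - YX q f P (R - 2 * P) (R - P - S))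
        + (3 * XZ q f (R - P - S) (R - 2 * S) S - (c - 1) * YX q f (R - P - S) (R - 2 * S) S)
        + YX q f P0 R0 P

/-- **CI1** (helper58), the cone identity of the first family. Formal edges in the order of the cycle
(starting with `N_m`, whose end is `1`): `N_m, N_0, N'_m, N_1, N'_{m-1}, …, N_{m-1}, N'_1`. `N_j` is
negative iff `l = -1`, `N'_j` iff `u = -1`. Positive word: a positive edge keeps its form, its letter is
reduced by one if the next edge is negative; a negative edge `(P,R,-S';-c')` is replaced by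
`(P,R-2P,S1;1)`, `(S1,R-2S',S';c'-1)` (`S1 = R-P-S'`), and the second letter is `c'-2` if the next edge is
negative too. So `K = 2m+1 + (number of negative edges)`. All letters are positive since `q ≥ 2` and
`p ≥ 100000`, except for `l = u = -1`, `q = 2`: there the letter after `N_0` (and after `N'_1`) is
`q - 2 = 0`, and `(…;1), (…;0), (…;1)` is replaced by one edge with letter `2` (in general
`T(e0;x) + T(e1;0) + T(e2;y) = T(e0;x+y)`: `X` of the two forms `e1, e2` cancel and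
`Y(e2) = Y(e0)`). `S ≠ 1` for the other edges: the `S` are `p^j` (`j ≥ 1`) or `S1`. The sum of the terms is
the same by BDN; then CYL. (Suggestion: a lemma on lists: from a closed list of formal edges with
signs to the closed list of positive edges, `flatMap`, used for both families.) -/
def Stmt_CI1 : Prop := ∀ (d : ℕ) (l u p q b : ℤ) (m : ℕ), UF d → d % 8 = 5 → Q1 d l u p q b m →
    CI d (J1 l u p q b m)

/-- **CI2** (helper4), the cone identity of the second family: the same with the order of the cycle in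
`Defs.lean` (`e_i = - i m` mod `A`, a permutation of `0..A-1` since `gcd(A,m) = 1`); signs of the edges:
`N`: `l`, `N4`: `s`, `N3`: `- l s`. No letter is small: `N_j`: `≥ p^(A-m) - 1`, `N4`: `≥ p`,
`N3`: `≥ p^j - p^(j-1)`. -/
def Stmt_CI2 : Prop := ∀ (d : ℕ) (s l p : ℤ) (A m : ℕ), UF d → d % 8 = 5 → Q2 d s l p A m →
    CI d (J2 s l p A m)

/-- **OSY** (helper58 or helper4), the relations of the tables from the cone identity: `osys_of`
(PSX/OdSys) with the proof of `cyc_T5N` (RQM/C44) from `hint` on. -/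
def Stmt_OSY : Prop := ∀ (d : ℕ) (J : List Fm), d % 8 = 5 → CI d J →
    (∀ j ∈ J, j.κ = 3 ∧ j.R ^ 2 - 4 * j.P * j.S = d) → ∀ Q : ℕ,
    (∀ p : ℕ, p.Prime → p ≠ 2 → p ∣ Q → jacobiSym d p = -1) → PSX.Ev.OSys Q d J

/-- **RL1**, the relations of the families, first family. As `t_REL` (PSX/M_REL) with, in place of BFS,
the bounded form of the list: for `f : ZMod Q → ℤ` odd, `Q` odd, by DBL and NUS (PSX/StG; see BFD) each edge
has `3 XA(sm f) - c YA(sm f) = 3Q²(Es f - c Z0 f S) + 3Q (V(P,R,S) - V(S, 2cS-R, P+Rc-Sc²))`,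
`V(P,R,S) = Σ f(P x²+Rxy-Sy²) β(x) sg(y)`, `V(-P,R,-S) = V(P,R,S)`, and the successor map of the edges
(`N_j → N'_{m-j}` for `j < m`, `N_m → N_0`, `N'_j → N_{m+1-j}`) is a bijection, so the `V` cancel. -/
def Stmt_RL1 : Prop := ∀ (d : ℕ) (l u p q b : ℤ) (m : ℕ), OEX.Sg l → OEX.Sg u →
    q * b = u * p - l → (d : ℤ) = (q * p ^ m + b) ^ 2 + 4 * l * p ^ m → 1 ≤ m →
    d % 8 = 5 → CI d (J1 l u p q b m) → ∀ Q0 : ℕ, Nat.Coprime (Q0 * 13) d →
    RelJ Q0 (J1 l u p q b m)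

/-- **RL2**, the same for the second family. -/
def Stmt_RL2 : Prop := ∀ (d : ℕ) (s l p : ℤ) (A m : ℕ), OEX.Sg s → OEX.Sg l → 1 ≤ m → m + 1 ≤ A →
    (d : ℤ) = (p ^ A + s * p ^ m - l * s) ^ 2 + 4 * l * p ^ m →
    d % 8 = 5 → CI d (J2 s l p A m) → ∀ Q0 : ℕ, Nat.Coprime (Q0 * 13) d →
    RelJ Q0 (J2 s l p A m)

/-! ### The ghosts -/

/-- ghost 1: `p ≡ u l`, `b ≡ 0` modulo `1365` (`q` free), and modulo `17` (`19`) in the classes of the
fields `293 = 17² + 4` and `437 = 21² - 4` -/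
structure G1 (l u p q b : ℤ) : Prop where
  p0 : (1365 : ℤ) ∣ p - u * l
  b0 : (1365 : ℤ) ∣ b
  x17 : (1365 : ℤ) ∣ q - 17 ∨ (1365 : ℤ) ∣ q + 17 → (17 : ℤ) ∣ p - u * l ∧ (17 : ℤ) ∣ b
  x19 : (1365 : ℤ) ∣ q - 21 ∨ (1365 : ℤ) ∣ q + 21 → (19 : ℤ) ∣ p - u * l ∧ (19 : ℤ) ∣ b

/-- ghost 2 (`u = -1`) -/
def G2 (u p q : ℤ) (m : ℕ) : Prop := u = -1 ∧ (∃ ε : ℤ, OEX.Sg ε ∧ (1365 : ℤ) ∣ q - ε) ∧
  (1365 : ℤ) ∣ p ^ (m - 1) - 1

/-- ghost 3 (`l = -1`) -/
def G3 (l p q : ℤ) (m : ℕ) : Prop := l = -1 ∧ (∃ ε : ℤ, OEX.Sg ε ∧ (1365 : ℤ) ∣ q - ε * p) ∧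
  (1365 : ℤ) ∣ p ^ (m + 2) - 1

/-- ghost 4 (second family, `s = -1`) -/
def G4 (s p : ℤ) (A m : ℕ) : Prop := s = -1 ∧ (1365 : ℤ) ∣ p ^ (A - m) - 1

/-- **EL1** (helper78, helper5), elimination for the first family. `Q = 2·3·5·7·11·13·17·19` (primes may be
added). -/
def Stmt_EL1 : Prop := ∀ (D l u p q b : ℤ) (m : ℕ), OEX.Sg l → OEX.Sg u → 1 ≤ m →
    q * b = u * p - l → D = (q * p ^ m + b) ^ 2 + 4 * l * p ^ m →
    (∀ r : ℕ, r ∣ 9699690 → r ≠ 1 → ¬ (r : ℤ) ∣ p) →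
    PSX.Ev.OSys 9699690 D (J1 l u p q b m) → G1 l u p q b ∨ G2 u p q m ∨ G3 l p q m

/-- **EL2** (helper84, helper1), elimination for the second family. -/
def Stmt_EL2 : Prop := ∀ (D s l p : ℤ) (A m : ℕ), OEX.Sg s → OEX.Sg l → 1 ≤ m → m + 2 ≤ A →
    D = (p ^ A + s * p ^ m - l * s) ^ 2 + 4 * l * p ^ m →
    (∀ r : ℕ, r ∣ 9699690 → r ≠ 1 → ¬ (r : ℤ) ∣ p) →
    PSX.Ev.OSys 9699690 D (J2 s l p A m) → G4 s p A m

/-- nonresidue modulo `3, 5, 7, 13, 17, 19` -/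
structure Nr (D : ℤ) : Prop where
  nr : PSX.Nr D
  h17 : (D : ZMod 17) ^ 8 = -1
  h19 : (D : ZMod 19) ^ 9 = -1

/-- the conductor of all families used -/
def Q0 : ℕ := 105 * 17 * 19

/-- **GH1** (helper94 and free seats), the first ghost is impossible -/
def Stmt_GH1 : Prop := ∀ (D l u p q b : ℤ) (m : ℕ), Q1 D l u p q b m → Nr D →
    RelJ Q0 (J1 l u p q b m) → ¬ G1 l u p q b

/-- **GH2**, the second ghost is impossible -/
def Stmt_GH2 : Prop := ∀ (D l u p q b : ℤ) (m : ℕ), Q1 D l u p q b m → Nr D →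
    RelJ Q0 (J1 l u p q b m) → ¬ G2 u p q m

/-- **GH3**, the third ghost is impossible -/
def Stmt_GH3 : Prop := ∀ (D l u p q b : ℤ) (m : ℕ), Q1 D l u p q b m → Nr D →
    RelJ Q0 (J1 l u p q b m) → ¬ G3 l p q m

/-- **GH4**, the fourth ghost is impossible -/
def Stmt_GH4 : Prop := ∀ (D s l p : ℤ) (A m : ℕ), Q2 D s l p A m → Nr D →
    RelJ Q0 (J2 s l p A m) → ¬ G4 s p A m

/-- **NO1**, no field in the first family -/
def Stmt_NO1 : Prop := ∀ (d : ℕ) (l u p q b : ℤ) (m : ℕ), UF d → d % 8 = 5 →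
    (∀ r : ℕ, r.Prime → r ≠ 2 → r < 100 → jacobiSym d r = -1) →
    (∀ r : ℕ, r.Prime → r < 100 → ¬ (r : ℤ) ∣ p) → ¬ Q1 d l u p q b m

/-- **NO2**, no field in the second family -/
def Stmt_NO2 : Prop := ∀ (d : ℕ) (s l p : ℤ) (A m : ℕ), UF d → d % 8 = 5 →
    (∀ r : ℕ, r.Prime → r ≠ 2 → r < 100 → jacobiSym d r = -1) →
    (∀ r : ℕ, r.Prime → r < 100 → ¬ (r : ℤ) ∣ p) → ¬ Q2 d s l p A m

/-- **RDX** (helper29), reduction of `OEX.F1`, `OEX.F2` for a prime `p ≥ 100000` to `Q1`, `Q2`.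
`F1` with `q ≥ 2`: `Q1`. `F1` with `q = 1`, `m ≥ 3`: `D = (p^m + u p + l)² - 4 l u p` is `Q2` with
`A = m`, `m' = 1`, `s = u`, `l' = - l u`. `F1` with `q = 1`, `m = 2`: `Q1` with `m' = 1`, `q' = p + u`,
`l' = - l u`, `u' = l` (`b' = l`). `F1` with `q = 1`, `m = 1`: `u = -1` gives `D = 1 + 4 l p < 4p²` or
`D` negative; `u = 1` gives `D = 4p² + 1`. `F2` with `g = gcd(A,m)`, `P = p^g`: `A = gA'`, `m = gm'`,
`A' - m' ≥ 1`; if `A' ≥ m' + 2`: `Q2` with `P`; if `A' = m' + 1`: `Q1` with `p = P`, `m'`, `q = P + s`,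
`b = - l s`, `u = - l s`. (The primes below `100` do not divide `p^g`.) -/
def Stmt_RDX : Prop := ∀ (D : ℤ) (p : ℕ), p.Prime → 100000 ≤ p → 4 * (p : ℤ) ^ 2 < D →
    OEX.F1 D p ∨ OEX.F2 D p → D = 4 * (p : ℤ) ^ 2 + 1 ∨
    (∃ (P l u q b : ℤ) (m g : ℕ), P = (p : ℤ) ^ g ∧ Q1 D l u P q b m) ∨
    (∃ (P s l : ℤ) (A m g : ℕ), P = (p : ℤ) ^ g ∧ Q2 D s l P A m)

end Pool.Agent.OEG
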