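import Pool.Agent.OEG.E2Z
import Pool.Agent.OEG.E2R
import Pool.Agent.OEG.StA

/-!
Project OEG, EL2: from the computation to the statement.
-/

set_option autoImplicit false

namespace Pool.Agent.OEG.E2

open Pool.Agent.LibH4 Pool.Agent.LibH4.Ker
open Pool.Agent.Lib_helper5 Pool.Agent.Lib_helper5.LK Pool.Agent.Lib_helper5.TB
open Pool.Agent.LibH4.S7 (Rl)
open Pool.Agent.PSX.K Pool.Agent.PSX.EL
open Pool.Agent.PSX.Ev (OSys)

/-- units from coprimality -/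
lemma ex_unit {n : ℕ} {p : ℤ} (h : IsCoprime (n : ℤ) p) : ∃ u : (ZMod n)ˣ, (p : ZMod n) = u := by
  obtain ⟨u, hu⟩ := (ZMod.coe_int_isUnit_iff_isCoprime p n).2 h
  exact ⟨u, hu.symm⟩

lemma cop_prime {p : ℤ} (h : ∀ r : ℕ, r ∣ 9699690 → r ≠ 1 → ¬ (r : ℤ) ∣ p) (r : ℕ) (hr : r.Prime)
    (hd : r ∣ 9699690) : IsCoprime (r : ℤ) p :=
  (Nat.prime_iff_prime_int.1 hr).irreducible.coprime_iff_not_dvd.2 (h r hd hr.ne_one)

/-- the classes of `p` -/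
lemma ex_un {p : ℤ} (h : ∀ r : ℕ, r ∣ 9699690 → r ≠ 1 → ¬ (r : ℤ) ∣ p) : Nonempty (Un p) := by
  have c2 := cop_prime h 2 (by norm_num) (by norm_num)
  have c4 : IsCoprime ((4 : ℕ) : ℤ) p := by
    have := c2.pow_left (m := 2)
    exact_mod_cast this
  have c8 : IsCoprime ((8 : ℕ) : ℤ) p := by
    have := c2.pow_left (m := 3)
    exact_mod_cast this
  obtain ⟨u3, h3⟩ := ex_unit (cop_prime h 3 (by norm_num) (by norm_num))
  obtain ⟨u4, h4⟩ := ex_unit c4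
  obtain ⟨u5, h5⟩ := ex_unit (cop_prime h 5 (by norm_num) (by norm_num))
  obtain ⟨u7, h7⟩ := ex_unit (cop_prime h 7 (by norm_num) (by norm_num))
  obtain ⟨u8, h8⟩ := ex_unit c8
  obtain ⟨u13, h13⟩ := ex_unit (cop_prime h 13 (by norm_num) (by norm_num))
  obtain ⟨u17, h17⟩ := ex_unit (cop_prime h 17 (by norm_num) (by norm_num))
  obtain ⟨u19, h19⟩ := ex_unit (cop_prime h 19 (by norm_num) (by norm_num))
  exact ⟨⟨1, u3, u4, u5, u7, u8, u13, u17, u19, Subsingleton.elim _ _, h3, h4, h5, h7, h8, h13, h17,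
    h19⟩⟩

lemma ex_sg {s : ℤ} (h : OEX.Sg s) : ∃ σ : ℕ, σ < 2 ∧ s = (-1) ^ σ := by
  rcases h with rfl | rfl
  · exact ⟨0, by norm_num, by norm_num⟩
  · exact ⟨1, by norm_num, by norm_num⟩

lemma run_spec {σ τ A0 m0 : ℕ} (hm : m0 < 12) (h : run σ τ A0 = true) :
    tree TT0 σ τ A0 m0 = true := by
  unfold run at h
  rw [tbs_eq] at h
  refine allL_spec h m0 ?_
  interval_cases m0
  all_goals simp [L12]

lemma gh_spec {n A0 m0 : ℕ} [NeZero n] {p : ℤ} (h : gh n A0 m0 (rs n p) = true) :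
    (p : ZMod n) ^ (A0 + 12 - m0) = 1 := by
  have h1 : (rs n p) ^ (A0 + 12 - m0) % n = 1 := Nat.eq_of_beq_eq_true h
  have h2 : (((rs n p) ^ (A0 + 12 - m0) % n : ℕ) : ZMod n) = ((1 : ℕ) : ZMod n) := by rw [h1]
  rw [ZMod.natCast_mod, Nat.cast_pow, rs_cast, Nat.cast_one] at h2
  exact h2

lemma an_spec {a b : Bool} (h : an a b = true) : a = true ∧ b = true := by
  cases a
  · exact Bool.noConfusion h
  · exact ⟨rfl, h⟩

lemma ghs_zero (a b c d e f : ℕ) : ghs 0 a b c d e f = false := rfl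

lemma ghs_one (a b c d e f : ℕ) : ghs 1 a b c d e f = an (gh 13 a b c) (an (gh 7 a b d)
    (an (gh 5 a b e) (gh 3 a b f))) := rfl

lemma dvd1365 {x : ℤ} (h1 : (13 : ℤ) ∣ x) (h2 : (7 : ℤ) ∣ x) (h3 : (5 : ℤ) ∣ x) (h4 : (3 : ℤ) ∣ x) :
    (1365 : ℤ) ∣ x := by
  have e1 : (13 * 7 : ℤ) ∣ x := IsCoprime.mul_dvd (by norm_num) h1 h2
  have e2 : (5 * 3 : ℤ) ∣ x := IsCoprime.mul_dvd (by norm_num) h3 h4
  have e3 : (13 * 7 * (5 * 3) : ℤ) ∣ x := IsCoprime.mul_dvd (by norm_num) e1 e2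
  norm_num at e3
  exact e3

lemma pw_dvd {n : ℕ} {p : ℤ} {A m : ℕ} (hm : m ≤ A) {u : (ZMod n)ˣ} (hu : (p : ZMod n) = u)
    (o : u ^ 12 = 1) (h : (p : ZMod n) ^ (A % 12 + 12 - m % 12) = 1) :
    (n : ℤ) ∣ p ^ (A - m) - 1 := by
  have h1 : u ^ (A % 12 + 12 - m % 12) = 1 := by
    apply Units.ext
    rw [Units.val_pow_eq_pow_val, ← hu, h, Units.val_one]
  have e : A % 12 + 12 - m % 12 + 12 * (A / 12) = A - m + 12 * (m / 12 + 1) := by omega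
  have h2 : u ^ (A - m) = 1 := by
    have h3 : u ^ (A % 12 + 12 - m % 12 + 12 * (A / 12)) = 1 := by
      rw [pow_add, h1, pow_mul, o, one_pow, one_mul]
    rw [e, pow_add, pow_mul, o, one_pow, mul_one] at h3
    exact h3
  rw [← ZMod.intCast_zmod_eq_zero_iff_dvd]
  push_cast
  rw [hu, ← Units.val_pow_eq_pow_val, h2, Units.val_one, sub_self]

theorem fin (Y : Sts) (hrun : ∀ σ τ A0 : ℕ, σ < 2 → τ < 2 → A0 < 12 → run σ τ A0 = true) :
    Stmt_EL2 := by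
  intro D s l p A m hs hl h1 h2 hD hp hS
  obtain ⟨σ, hσ, rfl⟩ := ex_sg hs
  obtain ⟨τ, hτ, rfl⟩ := ex_sg hl
  obtain ⟨U⟩ := ex_un hp
  have X : Cx σ τ p A m := ⟨h2, by
    have : DD ((-1) ^ σ) ((-1) ^ τ) p A m = D := hD.symm
    rw [this]
    exact hS⟩
  have h3 := run_spec (Nat.mod_lt m (by norm_num)) (hrun σ τ (A % 12) hσ hτ (Nat.mod_lt _ (by norm_num)))
  have h4 := tree_spec Y X U h3
  interval_cases σ
  · rw [ghs_zero] at h4
    exact absurd h4 (by decide)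
  · rw [ghs_one] at h4
    obtain ⟨g13, h5⟩ := an_spec h4
    obtain ⟨g7, h5⟩ := an_spec h5
    obtain ⟨g5, g3⟩ := an_spec h5
    have hm : m ≤ A := by omega
    have d13 := pw_dvd hm U.h13 (pow_dvd1 (Y.per.1 _).1 (by norm_num)) (gh_spec g13)
    have d7 := pw_dvd hm U.h7 (pow_dvd1 (Y.per.2.1 _).1 (by norm_num)) (gh_spec g7)
    have d5 := pw_dvd hm U.h5 (pow_dvd1 (Y.per.2.2.1 _).1 (by norm_num)) (gh_spec g5)
    have d3 := pw_dvd hm U.h3 (pow_dvd1 (Y.per.2.2.2.1 _).1 (by norm_num)) (gh_spec g3)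
    refine ⟨by norm_num, ?_⟩
    exact dvd1365 (by exact_mod_cast d13) (by exact_mod_cast d7) (by exact_mod_cast d5)
      (by exact_mod_cast d3)

end Pool.Agent.OEG.E2
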