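import Pool.Agent.OEG.E2S

/-!
Project OEG, EL2: the lists of offsets and rows (`Stmt_RO`) and the digits of the packed rows
(`Stmt_DG`).
-/

set_option autoImplicit false

namespace Pool.Agent.OEG.E2

open Pool.Agent.LibH4 Pool.Agent.LibH4.Ker
open Pool.Agent.Lib_helper5 Pool.Agent.Lib_helper5.LK Pool.Agent.Lib_helper5.TB

lemma spl_eq {β : Type} (e : ℕ) (k : E3 → β) : spl e k = k (ofe e) := by
  unfold spl ofe
  rw [strict_eq, strict_eq, strict_eq]
  have h1 : Nat.shiftRight e 24 = e / 16777216 := by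
    show e >>> 24 = _
    rw [Nat.shiftRight_eq_div_pow]
  have h2 : Nat.shiftRight e 48 = e / 281474976710656 := by
    show e >>> 48 = _
    rw [Nat.shiftRight_eq_div_pow]
  show k ⟨Nat.mod e 16777216, Nat.mod (Nat.shiftRight e 24) 16777216, Nat.shiftRight e 48⟩ = _
  rw [h1, h2]
  rfl

lemma mk6_eqR {β : Type} (a b c d e f : ℕ) (k : W6 → β) : mk6 a b c d e f k = k ⟨a, b, c, d, e, f⟩ := by
  unfold mk6
  rw [strict_eq, strict_eq, strict_eq, strict_eq, strict_eq, strict_eq]

lemma rw1_eq {β : Type} (K M X Y c : ℕ) (k : W6 → β) : rw1 K M X Y c k = k (rwf K M X Y c) := by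
  unfold rw1
  rw [spl_eq, mk6_eqR]
  rfl

theorem t_RO : Stmt_RO := by
  refine ⟨?_, ?_, ?_, ?_, ?_⟩
  · intro γ K C
    induction C with
    | nil => intro k; rfl
    | cons c C ih =>
      intro k
      have : of1 K (c :: C) k = spl (Nat.mul K c) fun e => of1 K C fun E => k (e :: E) := rfl
      rw [this, spl_eq, ih]
      rfl
  · intro γ α K1 K2 f g C
    induction C with
    | nil => intro k; rfl
    | cons c C ih =>
      intro k
      have : of2 K1 K2 ((c :: C).map f) ((c :: C).map g) k =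
        spl (Nat.add (Nat.mul K1 (f c)) (Nat.mul K2 (g c))) fun e =>
          of2 K1 K2 (C.map f) (C.map g) fun E => k (e :: E) := rfl
      rw [this, spl_eq, ih]
      rfl
  · intro γ K M X Y C
    induction C with
    | nil => intro k; rfl
    | cons c C ih =>
      intro k
      have : rwl K M X Y (c :: C) k = rw1 K M X Y c fun r => rwl K M X Y C fun R => k (r :: R) := rfl
      rw [this, rw1_eq, ih]
      rfl
  · intro γ α X Y
    induction X with
    | nil => intro k; rfl
    | cons x X ih =>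
      intro k
      have : apK (x :: X) Y k = apK X Y fun Z => k (x :: Z) := rfl
      rw [this, ih]
      rfl
  · intro γ α g f n
    induction n with
    | zero => intro acc k _; rfl
    | succ n ih =>
      intro acc k h
      have : bld g (n + 1) acc k = g n fun x => bld g n (x :: acc) k := rfl
      rw [this, h n (Nat.lt_succ_self n), ih (f n :: acc) k (fun i hi => h i (Nat.lt_succ_of_lt hi)),
        List.range_succ, List.map_append, List.append_assoc]
      rfl

lemma ofe_lanes {a b c : ℕ} (ha : a < 16777216) (hb : b < 16777216) :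
    ofe (a + 16777216 * (b + 16777216 * c)) = ⟨a, b, c⟩ := by
  have h0 : (a + 16777216 * (b + 16777216 * c)) % 16777216 = a := by omega
  have h1 : (a + 16777216 * (b + 16777216 * c)) / 16777216 % 16777216 = b := by omega
  have h2 : (a + 16777216 * (b + 16777216 * c)) / 281474976710656 = c := by omega
  unfold ofe
  rw [h0, h1, h2]

/-- a row of the packed table -/
lemma row_eq {rows : List (ℕ × ℕ)} {w : ℕ} (g : ℕ × ℕ → ℕ) (h0 : g (0, 0) = 0)
    (h : ∀ x ∈ rows, g x < 2 ^ w) (p : ℕ) :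
    (packL (2 ^ w) g rows >>> (w * p)) &&& (mk w) = g (rows.getD p (0, 0)) := by
  have hmk : mk w = 2 ^ w - 1 := rfl
  rw [hmk, Nat.and_two_pow_sub_one_eq_mod, Nat.shiftRight_eq_div_pow, pow_mul]
  by_cases hp : p < rows.length
  · rw [packL_digit h p hp, List.getD_eq_getElem _ _ hp]
  · have hlt := packL_lt h
    have : packL (2 ^ w) g rows < (2 ^ w) ^ p :=
      lt_of_lt_of_le hlt (Nat.pow_le_pow_right (by positivity) (by omega))
    rw [Nat.div_eq_of_lt this, Nat.zero_mod, List.getD_eq_default _ _ (by omega), h0]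

lemma dg8_eq (A i : ℕ) : dg8 A (8 * i) = dig A i := rfl

theorem t_DG : Stmt_DG := by
  intro rows w len3 p0 p1 p2 q0 q1 q2 s0 s1 s2 hrows hw hlen hp0 hp1 hp2 hq0 hq1 hq2 hs0 hs1 hs2
    R hR E hE
  have hX := fun p => row_eq (rows := rows) (w := w) (fun x => x.1) rfl (fun x hx => (hrows x hx).1) p
  have hY := fun p => row_eq (rows := rows) (w := w) (fun x => x.2) rfl (fun x hx => (hrows x hx).2) p
  have b0 : w * p0 < 16777216 := by
    calc w * p0 ≤ 3000 * 255 := Nat.mul_le_mul hw (by omega)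
      _ < 16777216 := by norm_num
  have b1 : w * p1 < 16777216 := by
    calc w * p1 ≤ 3000 * 255 := Nat.mul_le_mul hw (by omega)
      _ < 16777216 := by norm_num
  have hO : ofe (w * (p0 + 16777216 * (p1 + 16777216 * p2))) = ⟨w * p0, w * p1, w * p2⟩ := by
    rw [show w * (p0 + 16777216 * (p1 + 16777216 * p2))
      = w * p0 + 16777216 * (w * p1 + 16777216 * (w * p2)) by ring]
    exact ofe_lanes b0 b1
  have hE' : E = ⟨8 * (q0 * len3 + s0), 8 * (q1 * len3 + s1), 8 * (q2 * len3 + s2)⟩ := by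
    have c0 : q0 * len3 ≤ 255 * 16 := Nat.mul_le_mul (by omega) hlen
    have c1 : q1 * len3 ≤ 255 * 16 := Nat.mul_le_mul (by omega) hlen
    rw [hE, show 8 * len3 * (q0 + 16777216 * (q1 + 16777216 * q2)) +
      8 * (s0 + 16777216 * (s1 + 16777216 * s2)) = 8 * (q0 * len3 + s0) +
      16777216 * (8 * (q1 * len3 + s1) + 16777216 * (8 * (q2 * len3 + s2))) by ring]
    exact ofe_lanes (by omega) (by omega)
  unfold rwf at hR
  rw [hO] at hR
  subst hR
  rw [hE']
  unfold tX tY
  refine ⟨?_, ?_, ?_, ?_, ?_, ?_⟩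
  · show dg8 ((packL (2 ^ w) (fun x => x.1) rows >>> (w * p0)) &&& mk w) (8 * (q0 * len3 + s0)) = _
    rw [dg8_eq, hX]
  · show dg8 ((packL (2 ^ w) (fun x => x.2) rows >>> (w * p0)) &&& mk w) (8 * (q0 * len3 + s0)) = _
    rw [dg8_eq, hY]
  · show dg8 ((packL (2 ^ w) (fun x => x.1) rows >>> (w * p1)) &&& mk w) (8 * (q1 * len3 + s1)) = _
    rw [dg8_eq, hX]
  · show dg8 ((packL (2 ^ w) (fun x => x.2) rows >>> (w * p1)) &&& mk w) (8 * (q1 * len3 + s1)) = _
    rw [dg8_eq, hY]
  · show dg8 ((packL (2 ^ w) (fun x => x.1) rows >>> (w * p2)) &&& mk w) (8 * (q2 * len3 + s2)) = _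
    rw [dg8_eq, hX]
  · show dg8 ((packL (2 ^ w) (fun x => x.2) rows >>> (w * p2)) &&& mk w) (8 * (q2 * len3 + s2)) = _
    rw [dg8_eq, hY]

end Pool.Agent.OEG.E2
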