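import Pool.Agent.OEG.E2D

/-!
Project OEG, EL2: statements on the kernel functions `ev`, `tst`, `of1`, `of2`, `rwl`, and on the
components (`Stmt_EV`, `Stmt_TST`, `Stmt_RO`, `Stmt_DG`, `Stmt_PER`, `Stmt_MU`).
-/

set_option autoImplicit false

namespace Pool.Agent.OEG.E2

open Pool.Agent.LibH4 Pool.Agent.LibH4.Ker
open Pool.Agent.Lib_helper5 Pool.Agent.Lib_helper5.LK Pool.Agent.Lib_helper5.TB
open Pool.Agent.LibH4.S7 (Rl)
open Pool.Agent.PSX.K Pool.Agent.PSX.EL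

/-- **EV**, the evaluation in lanes. Induction on the lists (all three lists are maps of the same
list); `pk` is additive and `n * pk c a b = pk (n c) (n a) (n b)`; bound of a lane: every digit is
`< 256`, every weight lane `≤ 19`, so a lane is at most
`6 * 19 * 255 * (1 + 18 + … + 18 ^ 47) < BB = 2 ^ 256`. -/
def Stmt_EV : Prop := ∀ (ℓ L c α β : ℕ) (w r : ℕ → W6) (e : ℕ → E3)
    (x1 x2 x3 x4 x5 x6 : ℕ → ZMod ℓ), ℓ ≤ 19 → L ≤ 48 → c ≤ 18 →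
    (∀ j < L, IsW ℓ α β (w j).a (x1 j) ∧ IsW ℓ α β (w j).b (x2 j) ∧ IsW ℓ α β (w j).c (x3 j) ∧
      IsW ℓ α β (w j).d (x4 j) ∧ IsW ℓ α β (w j).e (x5 j) ∧ IsW ℓ α β (w j).f (x6 j)) →
    ∃ V0 VA Vm : ℕ, V0 < BB ∧ VA < BB ∧
      ev c ((List.range L).map w) ((List.range L).map r) ((List.range L).map e) = pk V0 VA Vm ∧
      (V0 : ZMod ℓ) + VA * α + Vm * β = ∑ j ∈ Finset.range L, (c : ZMod ℓ) ^ j *
        (x1 j * (dg8 (r j).a (e j).a : ℕ) + (x2 j * (dg8 (r j).b (e j).a : ℕ) +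
        (x3 j * (dg8 (r j).c (e j).b : ℕ) + (x4 j * (dg8 (r j).d (e j).b : ℕ) +
        (x5 j * (dg8 (r j).e (e j).c : ℕ) + x6 j * (dg8 (r j).f (e j).c : ℕ))))))

/-- the state is correct for the point `(x, y)` -/
structure Ok (ℓ : ℕ) (S : St) (x y : ZMod ℓ) : Prop where
  line : (S.a0 : ZMod ℓ) + S.a1 * x + S.a2 * y = 0
  p1 : (S.v1 : ZMod ℓ) = S.v0 * x
  p2 : (S.v2 : ZMod ℓ) = S.v0 * y
  b0 : S.a0 ≤ ℓ
  b1 : S.a1 ≤ ℓ
  b2 : S.a2 ≤ ℓ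

/-- **TST**, the test of a value. The line of the value is
`(r V0 - a VA - b Vm, VA, Vm)`, it contains `(1, x, y)`. In `tl`: if the line is constant, its constant
is zero; if `v0 ≠ 0`, the scalar product is `v0 * 0`; otherwise the cross product `v` of the two
lines satisfies `v1 = v0 x`, `v2 = v0 y` (so `v1 = v2 = 0` if `v0 = 0`). So no dead branch is reached.
`V = pk V0 VA Vm` with `V0, VA < BB`. -/
def Stmt_TST : Prop := ∀ (ℓ r a b α β V0 VA Vm : ℕ) (S : St), 0 < ℓ → a ≤ ℓ → b ≤ ℓ → V0 < BB →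
    VA < BB → (V0 : ZMod ℓ) + VA * α + Vm * β = 0 →
    Ok ℓ S ((a + r * α : ℕ) : ZMod ℓ) ((b + r * β : ℕ) : ZMod ℓ) →
    ∃ S' : St, Ok ℓ S' ((a + r * α : ℕ) : ZMod ℓ) ((b + r * β : ℕ) : ZMod ℓ) ∧
      ∀ (γ : Type) (dead : γ) (k : St → γ), tst ℓ r a b S (pk V0 VA Vm) dead k = k S'

/-- splitting of lanes -/
def ofe (e : ℕ) : E3 := ⟨e % 16777216, e / 16777216 % 16777216, e / 281474976710656⟩

/-- rows of a code -/
def rwf (K M X Y c : ℕ) : W6 :=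
  ⟨(X >>> (ofe (K * c)).a) &&& M, (Y >>> (ofe (K * c)).a) &&& M,
    (X >>> (ofe (K * c)).b) &&& M, (Y >>> (ofe (K * c)).b) &&& M,
    (X >>> (ofe (K * c)).c) &&& M, (Y >>> (ofe (K * c)).c) &&& M⟩

/-- **RO**, the lists of offsets and rows -/
def Stmt_RO : Prop :=
    (∀ (γ : Type) (K : ℕ) (C : List ℕ) (k : List E3 → γ),
      of1 K C k = k (C.map fun c => ofe (K * c))) ∧
    (∀ (γ α : Type) (K1 K2 : ℕ) (f g : α → ℕ) (C : List α) (k : List E3 → γ),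
      of2 K1 K2 (C.map f) (C.map g) k = k (C.map fun j => ofe (K1 * f j + K2 * g j))) ∧
    (∀ (γ : Type) (K M X Y : ℕ) (C : List ℕ) (k : List W6 → γ),
      rwl K M X Y C k = k (C.map (rwf K M X Y))) ∧
    (∀ (γ α : Type) (X Y : List α) (k : List α → γ), apK X Y k = k (X ++ Y)) ∧
    (∀ (γ α : Type) (g : ℕ → (α → γ) → γ) (f : ℕ → α) (n : ℕ) (acc : List α) (k : List α → γ),
      (∀ i < n, ∀ k : α → γ, g i k = k (f i)) → bld g n acc k = k ((List.range n).map f ++ acc))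

/-- **DG**, the digits of the packed rows are the entries of the table. `X = packL (2^w) (·.1) rows`,
all rows `< 2^w`; a code is `p0 + 2^24 (p1 + 2^24 p2)` with `p < 256`; here `c` is the code of the first
component, `e` the combined code `K1 * c2 + K2 * c3` of the other two (`K1 = 8 len3`, `K2 = 8`);
`rows.getD p (0,0)` is `(0, 0)` beyond the end, and `packL` has the digit `0` there. -/
def Stmt_DG : Prop := ∀ (rows : List (ℕ × ℕ)) (w len3 p0 p1 p2 q0 q1 q2 s0 s1 s2 : ℕ),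
    (∀ x ∈ rows, x.1 < 2 ^ w ∧ x.2 < 2 ^ w) → w ≤ 3000 → len3 ≤ 16 → p0 < 256 → p1 < 256 → p2 < 256 →
    q0 < 256 → q1 < 256 → q2 < 256 → s0 < 256 → s1 < 256 → s2 < 256 →
    ∀ R : W6, R = rwf w (mk w) (packL (2 ^ w) (fun x => x.1) rows)
      (packL (2 ^ w) (fun x => x.2) rows) (p0 + 16777216 * (p1 + 16777216 * p2)) →
    ∀ E : E3, E = ofe (8 * len3 * (q0 + 16777216 * (q1 + 16777216 * q2)) +
      8 * (s0 + 16777216 * (s1 + 16777216 * s2))) →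
    dg8 R.a E.a = tX rows len3 p0 q0 s0 ∧ dg8 R.b E.a = tY rows len3 p0 q0 s0 ∧
    dg8 R.c E.b = tX rows len3 p1 q1 s1 ∧ dg8 R.d E.b = tY rows len3 p1 q1 s1 ∧
    dg8 R.e E.c = tX rows len3 p2 q2 s2 ∧ dg8 R.f E.c = tY rows len3 p2 q2 s2

/-- **PER**, the periods of the units and the exponents of the inverse -/
def Stmt_PER : Prop :=
    (∀ u : (ZMod 13)ˣ, u ^ 12 = 1 ∧ u * u ^ 11 = 1) ∧ (∀ u : (ZMod 7)ˣ, u ^ 6 = 1 ∧ u * u ^ 5 = 1) ∧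
    (∀ u : (ZMod 5)ˣ, u ^ 4 = 1 ∧ u * u ^ 3 = 1) ∧ (∀ u : (ZMod 3)ˣ, u ^ 2 = 1 ∧ u * u ^ 1 = 1) ∧
    (∀ u : (ZMod 19)ˣ, u ^ 18 = 1 ∧ u * u ^ 17 = 1) ∧
    (∀ u : (ZMod 17)ˣ, u ^ 16 = 1 ∧ u * u ^ 15 = 1) ∧
    (∀ u : (ZMod 8)ˣ, u ^ 2 = 1 ∧ u * u ^ 1 = 1) ∧ (∀ u : (ZMod 4)ˣ, u ^ 2 = 1 ∧ u * u ^ 1 = 1) ∧
    (∀ (s l : ℤ) (u : (ZMod 1)ˣ) (A m j : ℕ), qN 1 s l u A m 0 PT1 j = 0 ∧
      q4 1 s l u A m 0 PT1 j = 0 ∧ q3 1 s l u A m 0 PT1 j = 0)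

/-- the characters of a relation are multiplicative and the rows are bounded -/
def Gd (r : Rl) (w : ℕ) : Prop :=
  Mu r.n1 r.t1 r.l ∧ Mu r.n2 r.t2 r.l ∧ Mu r.n3 r.t3 r.l ∧
  ∀ x ∈ r.rows, x.1 < 2 ^ w ∧ x.2 < 2 ^ w

/-- **MU**, for the relations used (`decide +kernel` on a Boolean function, e.g. with `allR`, and a
lemma from the Boolean function to `Mu`) -/
def Stmt_MU : Prop :=
    Gd R91F13 168 ∧ Gd R455F13b 1680 ∧ Gd R455F13c 1680 ∧ Gd R455F13a 1680 ∧ Gd R455F13d 1680 ∧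
    Gd R105N13 240 ∧ Gd R273F13 504 ∧ Gd R133N13 168 ∧ Gd R95N13 80 ∧ Gd R95F19 80 ∧
    Gd R312F13 384 ∧ Gd R260F13 320 ∧ Gd R152F19a 128 ∧ Gd R152F19b 128 ∧ Gd R119N13 168 ∧
    Gd R119N5 168 ∧ Gd R51N5 24

end Pool.Agent.OEG.E2
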