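import Pool.Agent.OEG.E2K

/-!
Project OEG, EL2: the tree of the classes (kernel functions). Order of the moduli: `13, 7, 5, 3` (length
`12`), `19` (length `36`), `8`, `17` (length `48`).
-/

set_option autoImplicit false

namespace Pool.Agent.OEG.E2

open Pool.Agent.LibH4 Pool.Agent.LibH4.Ker
open Pool.Agent.Lib_helper5 Pool.Agent.Lib_helper5.LK Pool.Agent.Lib_helper5.TB
open Pool.Agent.PSX.K Pool.Agent.PSX.EL

/-- data of a class modulo `3` -/
structure D3 where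
  /-- residue -/
  q : ℕ
  /-- codes -/
  C : List ℕ

/-- data of a class modulo `5` (with a class modulo `7`) -/
structure D5 where
  /-- residue -/
  q : ℕ
  /-- codes -/
  C : List ℕ
  /-- offsets -/
  E : List E3

/-- data of a class modulo `7` -/
structure D7 where
  /-- residue -/
  q : ℕ
  /-- codes -/
  C : List ℕ
  /-- offsets -/
  E : List E3
  /-- classes modulo `5` -/
  L : List D5

/-- data of a class modulo `13` -/
structure D13 where
  /-- residue -/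
  q : ℕ
  /-- codes -/
  C : List ℕ
  /-- weights -/
  W : List W6
  /-- rows -/
  R1 : List W6
  /-- rows -/
  R2 : List W6
  /-- rows -/
  R3 : List W6

/-- list of the data of the classes with good discriminant -/
def clL {α β : Type} (n ex PT L σ τ A0 m0 : ℕ) (f : ℕ → List ℕ → (α → β) → β) (Q : List ℕ) :
    (List α → β) → β :=
  @List.rec ℕ (fun _ => (List α → β) → β) (fun k => k [])
    (fun q _ ih k => cl n ex PT L σ τ A0 m0 q (ih k) fun C => f q C fun d => ih fun Y => k (d :: Y)) Q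

/-- classes -/
def Q3 : List ℕ := [nat_lit 1, nat_lit 2]
/-- classes -/
def Q5 : List ℕ := [nat_lit 1, nat_lit 2, nat_lit 3, nat_lit 4]
/-- classes -/
def Q7 : List ℕ := [nat_lit 1, nat_lit 2, nat_lit 3, nat_lit 4, nat_lit 5, nat_lit 6]
/-- classes -/
def Q13 : List ℕ := [nat_lit 1, nat_lit 2, nat_lit 3, nat_lit 4, nat_lit 5, nat_lit 6, nat_lit 7,
  nat_lit 8, nat_lit 9, nat_lit 10, nat_lit 11, nat_lit 12]
/-- classes -/
def Q19 : List ℕ := [nat_lit 1, nat_lit 2, nat_lit 3, nat_lit 4, nat_lit 5, nat_lit 6, nat_lit 7,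
  nat_lit 8, nat_lit 9, nat_lit 10, nat_lit 11, nat_lit 12, nat_lit 13, nat_lit 14, nat_lit 15,
  nat_lit 16, nat_lit 17, nat_lit 18]
/-- classes -/
def Q17 : List ℕ := [nat_lit 1, nat_lit 2, nat_lit 3, nat_lit 4, nat_lit 5, nat_lit 6, nat_lit 7,
  nat_lit 8, nat_lit 9, nat_lit 10, nat_lit 11, nat_lit 12, nat_lit 13, nat_lit 14, nat_lit 15,
  nat_lit 16]
/-- classes -/
def Q8 : List ℕ := [nat_lit 1, nat_lit 3, nat_lit 5, nat_lit 7]
/-- lifts -/
def L012 : List ℕ := [nat_lit 0, nat_lit 1, nat_lit 2]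
/-- lifts -/
def L0123 : List ℕ := [nat_lit 0, nat_lit 1, nat_lit 2, nat_lit 3]

/-- three times a list -/
def tri3 {α β : Type} (X : List α) (k : List α → β) : β := apK X X fun Y => apK Y X k
/-- four times a list -/
def qua {α β : Type} (X : List α) (k : List α → β) : β := apK X X fun Y => apK Y Y k
/-- six times a list -/
def six {α β : Type} (X : List α) (k : List α → β) : β := apK X X fun Y => tri3 Y k

/-- data modulo `3`, length `12` -/
def f3 {β : Type} (q : ℕ) (C : List ℕ) (k : D3 → β) : β := six C fun C => k ⟨q, C⟩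

/-- data modulo `5`, length `12` -/
def f5 {β : Type} (C7 : List ℕ) (q : ℕ) (C : List ℕ) (k : D5 → β) : β :=
  tri3 C fun C => of2 (nat_lit 80) (nat_lit 8) C7 C fun E => k ⟨q, C, E⟩

/-- data modulo `7`, length `12` -/
def f7 {β : Type} (σ τ A0 m0 q : ℕ) (C : List ℕ) (k : D7 → β) : β :=
  apK C C fun C => of1 (nat_lit 8) C fun E =>
  clL (nat_lit 5) (nat_lit 3) PT5 (nat_lit 4) σ τ A0 m0 (f5 C) Q5 fun L => k ⟨q, C, E, L⟩

/-- rows of a list of codes for a table -/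
def rws {β : Type} (w : ℕ) (T : Tb) (C : List ℕ) (k : List W6 → β) : β :=
  rwl w (mk w) T.X T.Y C k

/-- data modulo `13`, length `12` -/
def f13 {β : Type} (T1 T2 T3 : Tb) (σ τ A0 m0 q : ℕ) (C : List ℕ) (k : D13 → β) : β :=
  wl (nat_lit 13) (nat_lit 12) σ τ A0 m0 q fun W =>
  rws (nat_lit 168) T1 C fun R1 => rws (nat_lit 1680) T2 C fun R2 =>
  rws (nat_lit 1680) T3 C fun R3 => k ⟨q, C, W, R1, R2, R3⟩

/-- the packed tables -/
structure TT where
  /-- table -/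
  t91 : Tb
  /-- table -/
  t455b : Tb
  /-- table -/
  t455c : Tb
  /-- table -/
  t455a : Tb
  /-- table -/
  t455d : Tb
  /-- table -/
  t105 : Tb
  /-- table -/
  t273 : Tb
  /-- table -/
  t133 : Tb
  /-- table -/
  t95N : Tb
  /-- table -/
  t95F : Tb
  /-- table -/
  t312 : Tb
  /-- table -/
  t260 : Tb
  /-- table -/
  t152a : Tb
  /-- table -/
  t152b : Tb
  /-- table -/
  t119N : Tb
  /-- table -/
  t119F : Tb
  /-- table -/
  t51 : Tb

/-- all tables -/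
def tbs {β : Type} (k : TT → β) : β :=
  tb (nat_lit 168) rows_91F13 fun t91 => tb (nat_lit 1680) rows_455F13b fun t455b =>
  tb (nat_lit 1680) rows_455F13c fun t455c => tb (nat_lit 1680) rows_455F13a fun t455a =>
  tb (nat_lit 1680) rows_455F13d fun t455d => tb (nat_lit 240) rows_105N13 fun t105 =>
  tb (nat_lit 504) rows_273F13 fun t273 => tb (nat_lit 168) rows_133N13 fun t133 =>
  tb (nat_lit 80) rows_95N13 fun t95N => tb (nat_lit 80) rows_95F19 fun t95F =>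
  tb (nat_lit 384) rows_312F13 fun t312 => tb (nat_lit 320) rows_260F13 fun t260 =>
  tb (nat_lit 128) rows_152F19a fun t152a => tb (nat_lit 128) rows_152F19b fun t152b =>
  tb (nat_lit 168) rows_119N13 fun t119N => tb (nat_lit 168) rows_119N5 fun t119F =>
  tb (nat_lit 24) rows_51N5 fun t51 =>
  k ⟨t91, t455b, t455c, t455a, t455d, t105, t273, t133, t95N, t95F, t312, t260, t152a, t152b,
    t119N, t119F, t51⟩

/-- a state after the stages `13, 7, 5, 3` -/
structure S4 where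
  /-- residue modulo `13` -/
  q13 : ℕ
  /-- residue modulo `7` -/
  q7 : ℕ
  /-- residue modulo `5` -/
  q5 : ℕ
  /-- residue modulo `3` -/
  q3 : ℕ
  /-- codes -/
  C13 : List ℕ
  /-- codes -/
  C7 : List ℕ
  /-- codes -/
  C5 : List ℕ
  /-- codes -/
  C3 : List ℕ
  /-- weights -/
  W : List W6
  /-- state modulo `13` -/
  S : St

/-- the condition of the ghosts for one modulus -/
def gh (n A0 m0 q : ℕ) : Bool :=
  Nat.beq (Nat.mod (Nat.pow q (Nat.sub (Nat.add A0 (nat_lit 12)) m0)) n) (nat_lit 1)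

/-- conjunction -/
def an (a b : Bool) : Bool := @Bool.rec (fun _ => Bool) false b a

/-- the condition of the ghosts -/
def ghs (σ A0 m0 q13 q7 q5 q3 : ℕ) : Bool :=
  @Nat.rec (fun _ => Bool) false (fun _ _ => an (gh (nat_lit 13) A0 m0 q13)
    (an (gh (nat_lit 7) A0 m0 q7) (an (gh (nat_lit 5) A0 m0 q5) (gh (nat_lit 3) A0 m0 q3)))) σ

/-- test without lift -/
def ts {β : Type} (ℓ : ℕ) (S : St) (V : ℕ) (dead : β) (k : St → β) : β :=
  tst ℓ (nat_lit 1) (nat_lit 0) (nat_lit 0) S V dead k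

/-- stage `3`, second part -/
def a3b (T : TT) (x : D13) (y : D7) (z : D5) (K : S4 → Bool) (w : D3) (S : St) : Bool :=
  rws (nat_lit 504) T.t273 x.C fun R => of2 (nat_lit 24) (nat_lit 8) y.C w.C fun E =>
  ts (nat_lit 13) S (ev (chr t1_273F13 x.q t2_273F13 y.q t3_273F13 w.q (nat_lit 13)) x.W R E) true
    fun S => K ⟨x.q, y.q, z.q, w.q, x.C, y.C, z.C, w.C, x.W, S⟩

/-- stage `3` -/
def a3 (T : TT) (σ A0 m0 : ℕ) (x : D13) (y : D7) (z : D5) (S : St) (K : S4 → Bool) (w : D3) :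
    Bool :=
  @Bool.rec (fun _ => Bool)
    (rws (nat_lit 240) T.t105 y.C fun R => of2 (nat_lit 24) (nat_lit 8) z.C w.C fun E =>
    ts (nat_lit 13) S (ev (chr t1_105N13 y.q t2_105N13 z.q t3_105N13 w.q (nat_lit 13)) x.W R E) true
      (a3b T x y z K w))
    true (ghs σ A0 m0 x.q y.q z.q w.q)

/-- stage `5`, fourth relation -/
def a5d (T : TT) (σ A0 m0 : ℕ) (L3 : List D3) (x : D13) (y : D7) (z : D5) (K : S4 → Bool) (S : St) :
    Bool :=
  rws (nat_lit 1680) T.t455d x.C fun R =>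
  ts (nat_lit 13) S (ev (chr t1_455F13d x.q t2_455F13d y.q t3_455F13d z.q (nat_lit 13)) x.W R z.E)
    true fun S => allL (a3 T σ A0 m0 x y z S K) L3

/-- stage `5`, third relation -/
def a5c (T : TT) (σ A0 m0 : ℕ) (L3 : List D3) (x : D13) (y : D7) (z : D5) (K : S4 → Bool) (S : St) :
    Bool :=
  rws (nat_lit 1680) T.t455a x.C fun R =>
  ts (nat_lit 13) S (ev (chr t1_455F13a x.q t2_455F13a y.q t3_455F13a z.q (nat_lit 13)) x.W R z.E)
    true (a5d T σ A0 m0 L3 x y z K)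

/-- stage `5`, second relation -/
def a5b (T : TT) (σ A0 m0 : ℕ) (L3 : List D3) (x : D13) (y : D7) (z : D5) (K : S4 → Bool) (S : St) :
    Bool :=
  ts (nat_lit 13) S (ev (chr t1_455F13c x.q t2_455F13c y.q t3_455F13c z.q (nat_lit 13)) x.W x.R3
    z.E) true (a5c T σ A0 m0 L3 x y z K)

/-- stage `5` -/
def a5 (T : TT) (σ A0 m0 : ℕ) (L3 : List D3) (x : D13) (y : D7) (K : S4 → Bool) (S : St) (z : D5) :
    Bool :=
  ts (nat_lit 13) S (ev (chr t1_455F13b x.q t2_455F13b y.q t3_455F13b z.q (nat_lit 13)) x.W x.R2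
    z.E) true (a5b T σ A0 m0 L3 x y z K)

/-- stage `7` -/
def a7 (T : TT) (σ A0 m0 : ℕ) (L3 : List D3) (x : D13) (K : S4 → Bool) (y : D7) : Bool :=
  ts (nat_lit 13) S0 (ev (chr t1_91F13 x.q t2_91F13 y.q t3_91F13 (nat_lit 0) (nat_lit 13)) x.W x.R1
    y.E) true fun S => allL (a5 T σ A0 m0 L3 x y K S) y.L

/-- stage `13` -/
def a13 (T : TT) (σ A0 m0 : ℕ) (L3 : List D3) (L7 : List D7) (K : S4 → Bool) (x : D13) : Bool :=
  allL (a7 T σ A0 m0 L3 x K) L7

/-- stages `13, 7, 5, 3` -/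
def stA (T : TT) (σ τ A0 m0 : ℕ) (K : S4 → Bool) : Bool :=
  clL (nat_lit 3) (nat_lit 1) PT3 (nat_lit 2) σ τ A0 m0 f3 Q3 fun L3 =>
  clL (nat_lit 7) (nat_lit 5) PT7 (nat_lit 6) σ τ A0 m0 (f7 σ τ A0 m0) Q7 fun L7 =>
  clL (nat_lit 13) (nat_lit 11) PT13 (nat_lit 12) σ τ A0 m0 (f13 T.t91 T.t455b T.t455c σ τ A0 m0)
    Q13 fun L13 => allL (a13 T σ A0 m0 L3 L7 K) L13

/-! ### stage 19 -/

/-- a state after stage `19` -/
structure S5 where
  /-- lift -/
  a : ℕ
  /-- lift -/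
  b : ℕ
  /-- exponent modulo `36` -/
  A : ℕ
  /-- exponent modulo `36` -/
  m : ℕ
  /-- residue -/
  q : ℕ
  /-- codes, length `36` -/
  C : List ℕ
  /-- state modulo `13` -/
  S : St
  /-- state modulo `19` -/
  Z : St
  /-- weights modulo `19` -/
  W : List W6

/-- stage `19`, third relation -/
def b19c (T : TT) (σ τ A m a b : ℕ) (x : S4) (E5 : List E3) (K : S5 → Bool) (q : ℕ)
    (C : List ℕ) (S : St) : Bool :=
  rws (nat_lit 80) T.t95F C fun R => wl (nat_lit 19) (nat_lit 36) σ τ A m q fun W =>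
  tst (nat_lit 19) (nat_lit 3) a b S0
    (ev (chr t1_95F19 q t2_95F19 x.q5 t3_95F19 (nat_lit 0) (nat_lit 19)) W R E5) true fun Z =>
  K ⟨a, b, A, m, q, C, S, Z, W⟩

/-- stage `19`, second relation -/
def b19b (T : TT) (σ τ A m a b : ℕ) (x : S4) (W : List W6) (E5 : List E3) (K : S5 → Bool) (q : ℕ)
    (C : List ℕ) (S : St) : Bool :=
  apK C C fun C => rws (nat_lit 80) T.t95N C fun R =>
  tst (nat_lit 13) (nat_lit 3) a b S
    (ev (chr t1_95N13 q t2_95N13 x.q5 t3_95N13 (nat_lit 0) (nat_lit 13)) W R E5) true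
    (b19c T σ τ A m a b x E5 K q C)

/-- stage `19` -/
def b19 (T : TT) (σ τ A m a b : ℕ) (x : S4) (W : List W6) (E7 E5 : List E3) (K : S5 → Bool) (q : ℕ) :
    Bool :=
  cl (nat_lit 19) (nat_lit 17) PT19 (nat_lit 18) σ τ A m q true fun C =>
  rws (nat_lit 168) T.t133 C fun R => apK R R fun R =>
  tst (nat_lit 13) (nat_lit 3) a b x.S
    (ev (chr t1_133N13 q t2_133N13 x.q7 t3_133N13 (nat_lit 0) (nat_lit 13)) W R E7) true
    (b19b T σ τ A m a b x W E5 K q C)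

/-- one lift -/
def b1 (T : TT) (σ τ A0 m0 : ℕ) (x : S4) (E7 E5 : List E3) (K : S5 → Bool) (a b : ℕ) : Bool :=
  strict (Nat.add A0 (Nat.mul (nat_lit 12) a)) fun A =>
  strict (Nat.add m0 (Nat.mul (nat_lit 12) b)) fun m =>
  wl (nat_lit 13) (nat_lit 36) σ τ A m x.q13 fun W =>
  allL (b19 T σ τ A m a b x W E7 E5 K) Q19

/-- stage `19` -/
def stB (T : TT) (σ τ A0 m0 : ℕ) (K : S4 → S5 → Bool) (x : S4) : Bool :=
  of1 (nat_lit 8) x.C7 fun E7 => tri3 E7 fun E7 => of1 (nat_lit 8) x.C5 fun E5 => tri3 E5 fun E5 =>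
  allL (fun a => allL (b1 T σ τ A0 m0 x E7 E5 (K x) a) L012) L012

/-! ### stage 8 -/

/-- stage `8`, third part -/
def c8c (T : TT) (y : S5) (K : St → Bool) (q : ℕ) (C : List ℕ) (S : St) : Bool :=
  tri3 C fun C => of1 (nat_lit 8) C fun E => rws (nat_lit 128) T.t152a y.C fun R =>
  tst (nat_lit 19) (nat_lit 3) y.a y.b y.Z
    (ev (chr t1_152F19a y.q t2_152F19a q t3_152F19a (nat_lit 0) (nat_lit 19)) y.W R E) true fun Z =>
  rws (nat_lit 128) T.t152b y.C fun R =>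
  tst (nat_lit 19) (nat_lit 3) y.a y.b Z
    (ev (chr t1_152F19b y.q t2_152F19b q t3_152F19b (nat_lit 0) (nat_lit 19)) y.W R E) true fun _ =>
  K S

/-- stage `8`, second part -/
def c8b (T : TT) (σ τ A0 m0 : ℕ) (x : S4) (y : S5) (K : St → Bool) (q : ℕ) (C : List ℕ) (S : St) :
    Bool :=
  cl4 (nat_lit 1) PT4 (nat_lit 2) σ τ A0 m0 (Nat.mod q (nat_lit 4)) fun D => six D fun D =>
  rws (nat_lit 320) T.t260 x.C13 fun R => of2 (nat_lit 32) (nat_lit 8) x.C5 D fun E =>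
  ts (nat_lit 13) S (ev (chr t1_260F13 x.q13 t2_260F13 x.q5 t3_260F13 (Nat.mod q (nat_lit 4))
    (nat_lit 13)) x.W R E) true (c8c T y K q C)

/-- stage `8` -/
def c8 (T : TT) (σ τ A0 m0 : ℕ) (x : S4) (y : S5) (K : St → Bool) (q : ℕ) : Bool :=
  cl8 (nat_lit 1) PT8 (nat_lit 2) σ τ A0 m0 q true fun C => six C fun C =>
  rws (nat_lit 384) T.t312 x.C13 fun R => of2 (nat_lit 24) (nat_lit 8) C x.C3 fun E =>
  ts (nat_lit 13) y.S (ev (chr t1_312F13 x.q13 t2_312F13 q t3_312F13 x.q3 (nat_lit 13)) x.W R E) true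
    (c8b T σ τ A0 m0 x y K q C)

/-- stage `8` -/
def stC (T : TT) (σ τ A0 m0 : ℕ) (K : S4 → St → Bool) (x : S4) (y : S5) : Bool :=
  allL (c8 T σ τ A0 m0 x y (K x)) Q8

/-! ### stage 17 -/

/-- stage `17`, second part -/
def d17b (T : TT) (σ τ A m a b : ℕ) (x : S4) (E7 E3 : List E3) (q : ℕ) (C : List ℕ) (_ : St) :
    Bool :=
  tri3 C fun C => wl (nat_lit 5) (nat_lit 48) σ τ A m x.q5 fun W =>
  rws (nat_lit 168) T.t119F C fun R =>
  tst (nat_lit 5) (nat_lit 4) a b S0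
    (ev (chr t1_119N5 q t2_119N5 x.q7 t3_119N5 (nat_lit 0) (nat_lit 5)) W R E7) true fun Z =>
  rws (nat_lit 24) T.t51 C fun R =>
  tst (nat_lit 5) (nat_lit 4) a b Z
    (ev (chr t1_51N5 q t2_51N5 x.q3 t3_51N5 (nat_lit 0) (nat_lit 5)) W R E3) true fun _ => false

/-- stage `17` -/
def d17 (T : TT) (σ τ A m a b : ℕ) (x : S4) (S : St) (W : List W6) (E7 E3 : List E3) (q : ℕ) :
    Bool :=
  cl (nat_lit 17) (nat_lit 15) PT17 (nat_lit 16) σ τ A m q true fun C =>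
  rws (nat_lit 168) T.t119N C fun R => tri3 R fun R =>
  tst (nat_lit 13) (nat_lit 4) a b S
    (ev (chr t1_119N13 q t2_119N13 x.q7 t3_119N13 (nat_lit 0) (nat_lit 13)) W R E7) true
    (d17b T σ τ A m a b x E7 E3 q C)

/-- one lift -/
def d1 (T : TT) (σ τ A0 m0 : ℕ) (x : S4) (S : St) (E7 E3 : List E3) (a b : ℕ) : Bool :=
  strict (Nat.add A0 (Nat.mul (nat_lit 12) a)) fun A =>
  strict (Nat.add m0 (Nat.mul (nat_lit 12) b)) fun m =>
  wl (nat_lit 13) (nat_lit 48) σ τ A m x.q13 fun W =>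
  allL (d17 T σ τ A m a b x S W E7 E3) Q17

/-- stage `17` -/
def stD (T : TT) (σ τ A0 m0 : ℕ) (x : S4) (S : St) : Bool :=
  of1 (nat_lit 8) x.C7 fun E7 => qua E7 fun E7 => of1 (nat_lit 8) x.C3 fun E3 => qua E3 fun E3 =>
  allL (fun a => allL (d1 T σ τ A0 m0 x S E7 E3 a) L0123) L0123

/-- the tree of a pair of exponents -/
def tree (T : TT) (σ τ A0 m0 : ℕ) : Bool :=
  stA T σ τ A0 m0 (stB T σ τ A0 m0 (stC T σ τ A0 m0 (stD T σ τ A0 m0)))

end Pool.Agent.OEG.E2
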