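import Pool.Agent.OEG.E2S

/-!
Project OEG, EL2: the test of a value (`Stmt_TST`, helper43)
-/

set_option autoImplicit false

namespace Pool.Agent.OEG.E2

open Pool.Agent.LibH4 Pool.Agent.LibH4.Ker
open Pool.Agent.Lib_helper5 Pool.Agent.Lib_helper5.LK Pool.Agent.Lib_helper5.TB

namespace Tst

lemma ifz_zero {β : Type} (n : ℕ) (a b : β) (h : n = 0) : ifz n a b = a := by
  subst h
  rfl

lemma ifz_ne {β : Type} (n : ℕ) (a b : β) (h : n ≠ 0) : ifz n a b = b := by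
  obtain ⟨k, rfl⟩ := Nat.exists_eq_succ_of_ne_zero h
  rfl

lemma mn_cast (ℓ a b x y : ℕ) (hb : b ≤ ℓ) :
    ((mn ℓ a b x y : ℕ) : ZMod ℓ) = (a : ZMod ℓ) * y - b * x := by
  show (((a * y + (ℓ - b) * x) % ℓ : ℕ) : ZMod ℓ) = _
  rw [ZMod.natCast_mod]
  push_cast [Nat.cast_sub hb]
  rw [ZMod.natCast_self]
  ring

lemma dot_cast (ℓ a b c x y z : ℕ) :
    ((dot ℓ a b c x y z : ℕ) : ZMod ℓ) = (a : ZMod ℓ) * x + b * y + c * z := by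
  show (((a * x + (b * y + c * z)) % ℓ : ℕ) : ZMod ℓ) = _
  rw [ZMod.natCast_mod]
  push_cast
  ring

lemma mn_lt {ℓ : ℕ} (hℓ : 0 < ℓ) (a b x y : ℕ) : mn ℓ a b x y < ℓ := Nat.mod_lt _ hℓ

lemma dot_lt {ℓ : ℕ} (hℓ : 0 < ℓ) (a b c x y z : ℕ) : dot ℓ a b c x y z < ℓ := Nat.mod_lt _ hℓ

lemma zero_of_cast {ℓ n : ℕ} (hn : n < ℓ) (h : (n : ZMod ℓ) = 0) : n = 0 :=
  Nat.eq_zero_of_dvd_of_lt ((ZMod.natCast_eq_zero_iff n ℓ).1 h) hn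

lemma tl_ok {ℓ : ℕ} (hℓ : 0 < ℓ) {S : St} {x y : ZMod ℓ} (hS : Ok ℓ S x y) {c0 c1 c2 : ℕ}
    (h0 : c0 < ℓ) (h1 : c1 < ℓ) (h2 : c2 < ℓ) (h : (c0 : ZMod ℓ) + c1 * x + c2 * y = 0) :
    ∃ S' : St, Ok ℓ S' x y ∧
      ∀ (γ : Type) (dead : γ) (k : St → γ), tl ℓ S c0 c1 c2 dead k = k S' := by
  by_cases hc : Nat.add c1 c2 = 0
  · have hc' : c1 + c2 = 0 := hc
    obtain rfl : c1 = 0 := by omega
    obtain rfl : c2 = 0 := by omega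
    obtain rfl : c0 = 0 := zero_of_cast h0 (by simpa using h)
    exact ⟨S, hS, fun γ dead k => rfl⟩
  · have hl := hS.line
    have e0 := mn_cast ℓ S.a1 S.a2 c1 c2 hS.b2
    have e1 := mn_cast ℓ S.a2 S.a0 c2 c0 hS.b0
    have e2 := mn_cast ℓ S.a0 S.a1 c0 c1 hS.b1
    have f1 : ((mn ℓ S.a2 S.a0 c2 c0 : ℕ) : ZMod ℓ) = (mn ℓ S.a1 S.a2 c1 c2 : ℕ) * x := by
      rw [e0, e1]
      linear_combination (S.a2 : ZMod ℓ) * h - (c2 : ZMod ℓ) * hl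
    have f2 : ((mn ℓ S.a0 S.a1 c0 c1 : ℕ) : ZMod ℓ) = (mn ℓ S.a1 S.a2 c1 c2 : ℕ) * y := by
      rw [e0, e2]
      linear_combination (c1 : ZMod ℓ) * hl - (S.a1 : ZMod ℓ) * h
    by_cases hv : S.v0 = 0
    · by_cases hw : mn ℓ S.a1 S.a2 c1 c2 = 0
      · have g1 : mn ℓ S.a2 S.a0 c2 c0 = 0 := by
          apply zero_of_cast (mn_lt hℓ _ _ _ _)
          rw [f1, hw, Nat.cast_zero, zero_mul]
        have g2 : mn ℓ S.a0 S.a1 c0 c1 = 0 := by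
          apply zero_of_cast (mn_lt hℓ _ _ _ _)
          rw [f2, hw, Nat.cast_zero, zero_mul]
        refine ⟨⟨c0, c1, c2, 0, 0, 0⟩, ⟨h, ?_, ?_, h0.le, h1.le, h2.le⟩, fun γ dead k => ?_⟩
        · simp
        · simp
        · unfold tl
          rw [ifz_ne _ _ _ hc, ifz_zero _ _ _ hv, strict_eq, strict_eq, strict_eq,
            ifz_zero _ _ _ hw, ifz_zero _ _ _ (by rw [g1, g2])]
      · refine ⟨⟨S.a0, S.a1, S.a2, mn ℓ S.a1 S.a2 c1 c2, mn ℓ S.a2 S.a0 c2 c0,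
          mn ℓ S.a0 S.a1 c0 c1⟩, ⟨hl, f1, f2, hS.b0, hS.b1, hS.b2⟩, fun γ dead k => ?_⟩
        unfold tl
        rw [ifz_ne _ _ _ hc, ifz_zero _ _ _ hv, strict_eq, strict_eq, strict_eq,
          ifz_ne _ _ _ hw]
    · have g : dot ℓ S.v0 S.v1 S.v2 c0 c1 c2 = 0 := by
        apply zero_of_cast (dot_lt hℓ _ _ _ _ _ _)
        rw [dot_cast, hS.p1, hS.p2]
        linear_combination (S.v0 : ZMod ℓ) * h
      refine ⟨S, hS, fun γ dead k => ?_⟩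
      unfold tl
      rw [ifz_ne _ _ _ hc, ifz_ne _ _ _ hv, ifz_zero _ _ _ g]

lemma BB_eq : BB = 2 ^ 256 := by
  show 115792089237316195423570985008687907853269984665640564039457584007913129639936 = 2 ^ 256
  norm_num

lemma BB_pos : 0 < BB := by
  rw [BB_eq]
  positivity

lemma l0 {V0 VA Vm : ℕ} (h0 : V0 < BB) : Nat.mod (pk V0 VA Vm) BB = V0 := by
  show (V0 + BB * (VA + BB * Vm)) % BB = V0
  rw [Nat.add_mul_mod_self_left, Nat.mod_eq_of_lt h0]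

lemma d1 {V0 VA Vm : ℕ} (h0 : V0 < BB) : pk V0 VA Vm / BB = VA + BB * Vm := by
  show (V0 + BB * (VA + BB * Vm)) / BB = _
  rw [Nat.add_mul_div_left _ _ BB_pos, Nat.div_eq_of_lt h0, zero_add]

lemma l1 {V0 VA Vm : ℕ} (h0 : V0 < BB) (hA : VA < BB) :
    Nat.mod (Nat.shiftRight (pk V0 VA Vm) 256) BB = VA := by
  show (pk V0 VA Vm >>> 256) % BB = VA
  rw [Nat.shiftRight_eq_div_pow, ← BB_eq, d1 h0, Nat.add_mul_mod_self_left, Nat.mod_eq_of_lt hA]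

lemma l2 {V0 VA Vm : ℕ} (h0 : V0 < BB) (hA : VA < BB) :
    Nat.shiftRight (pk V0 VA Vm) 512 = Vm := by
  show pk V0 VA Vm >>> 512 = Vm
  rw [Nat.shiftRight_eq_div_pow, show (2 : ℕ) ^ 512 = BB * BB by
      rw [BB_eq, ← pow_add],
    ← Nat.div_div_eq_div_mul, d1 h0, Nat.add_mul_div_left _ _ BB_pos, Nat.div_eq_of_lt hA,
    zero_add]

lemma tst_eq {γ : Type} (ℓ r a b : ℕ) (S : St) {V0 VA Vm : ℕ} (h0 : V0 < BB) (hA : VA < BB)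
    (dead : γ) (k : St → γ) :
    tst ℓ r a b S (pk V0 VA Vm) dead k =
      tl ℓ S ((r * (V0 % ℓ) + ((ℓ - a) * (VA % ℓ) + (ℓ - b) * (Vm % ℓ))) % ℓ)
        (VA % ℓ) (Vm % ℓ) dead k := by
  unfold tst
  rw [strict_eq, strict_eq, strict_eq, strict_eq, l0 h0, l1 h0 hA, l2 h0 hA]
  rfl

end Tst

open Tst in
/-- **TST** -/
theorem t_TST : Stmt_TST := by
  intro ℓ r a b α β V0 VA Vm S hℓ ha hb h0 hA hV hS
  obtain ⟨S', hS', hk⟩ := tl_ok hℓ hS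
    (c0 := (r * (V0 % ℓ) + ((ℓ - a) * (VA % ℓ) + (ℓ - b) * (Vm % ℓ))) % ℓ)
    (c1 := VA % ℓ) (c2 := Vm % ℓ) (Nat.mod_lt _ hℓ) (Nat.mod_lt _ hℓ) (Nat.mod_lt _ hℓ) (by
      rw [ZMod.natCast_mod]
      push_cast [Nat.cast_sub ha, Nat.cast_sub hb]
      rw [ZMod.natCast_mod, ZMod.natCast_mod, ZMod.natCast_mod, ZMod.natCast_self]
      linear_combination (r : ZMod ℓ) * hV)
  exact ⟨S', hS', fun γ dead k => by rw [tst_eq ℓ r a b S h0 hA, hk]⟩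

end Pool.Agent.OEG.E2
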