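import Pool.Agent.OEG.E2S
import Pool.Agent.OEG.E2T

/-!
Project OEG, EL2: one relation in one state (`relT`).
-/

set_option autoImplicit false

namespace Pool.Agent.OEG.E2

open Pool.Agent.LibH4 Pool.Agent.LibH4.Ker
open Pool.Agent.Lib_helper5 Pool.Agent.Lib_helper5.LK Pool.Agent.Lib_helper5.TB
open Pool.Agent.LibH4.S7 (Rl)
open Pool.Agent.PSX.K Pool.Agent.PSX.EL
open Pool.Agent.PSX.Ev (OSys)

/-- the context -/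
structure Cx (σ τ : ℕ) (p : ℤ) (A m : ℕ) : Prop where
  A2 : m + 2 ≤ A
  Sy : OSys 9699690 (DD ((-1) ^ σ) ((-1) ^ τ) p A m) (J2 ((-1) ^ σ) ((-1) ^ τ) p A m)

/-- the classes of `p` -/
structure Un (p : ℤ) where
  /-- class -/
  u1 : (ZMod 1)ˣ
  /-- class -/
  u3 : (ZMod 3)ˣ
  /-- class -/
  u4 : (ZMod 4)ˣ
  /-- class -/
  u5 : (ZMod 5)ˣ
  /-- class -/
  u7 : (ZMod 7)ˣ
  /-- class -/
  u8 : (ZMod 8)ˣ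
  /-- class -/
  u13 : (ZMod 13)ˣ
  /-- class -/
  u17 : (ZMod 17)ˣ
  /-- class -/
  u19 : (ZMod 19)ˣ
  h1 : (p : ZMod 1) = u1
  h3 : (p : ZMod 3) = u3
  h4 : (p : ZMod 4) = u4
  h5 : (p : ZMod 5) = u5
  h7 : (p : ZMod 7) = u7
  h8 : (p : ZMod 8) = u8
  h13 : (p : ZMod 13) = u13
  h17 : (p : ZMod 17) = u17
  h19 : (p : ZMod 19) = u19

/-- the weights are correct -/
def WOk (ℓ : ℕ) (σ τ : ℕ) (v : (ZMod ℓ)ˣ) (A m A0 m0 L α β : ℕ) (W : ℕ → W6) : Prop :=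
  ∀ j < L, IsW ℓ α β (W j).a (wUN ℓ m0 L β j) ∧
    IsW ℓ α β (W j).b (wVN ℓ ((-1) ^ σ) ((-1) ^ τ) v A m A0 m0 L β j) ∧
    IsW ℓ α β (W j).c (wU4 ℓ A0 m0 L α β j) ∧
    IsW ℓ α β (W j).d (wV4 ℓ ((-1) ^ σ) v A0 m0 L α β j) ∧
    IsW ℓ α β (W j).e (wU3 ℓ A0 L α j) ∧
    IsW ℓ α β (W j).f (wV3 ℓ ((-1) ^ σ) ((-1) ^ τ) v A0 m0 L α β j)

/-- the packed rows of a list -/
def Tb0 (w : ℕ) (rows : List (ℕ × ℕ)) : Tb :=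
  ⟨packL (2 ^ w) (fun x => x.1) rows, packL (2 ^ w) (fun x => x.2) rows⟩

/-- rows of a code -/
def rwt (w : ℕ) (T : Tb) (c : ℕ) : W6 := rwf w (mk w) T.X T.Y c

lemma dig_lt' (A i : ℕ) : dig A i < 256 := Nat.mod_lt _ (by norm_num)

lemma pos_lt' (n ex PT P R S : ℕ) : pos n ex PT P R S < 256 := by
  unfold pos
  rw [strict_eq]
  exact dig_lt' _ _

/-- the combination of the statements: one relation in one state -/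
theorem relT (hAFF : Stmt_AFF) (hEV : Stmt_EV) (hTST : Stmt_TST) (hDG : Stmt_DG)
    {σ τ : ℕ} {p : ℤ} {A m : ℕ} (X : Cx σ τ p A m) (r : Rl) (n1 n2 n3 ℓ t1 t2 t3 len3 w : ℕ)
    (rows : List (ℕ × ℕ)) [NeZero n1] [NeZero n2] [NeZero n3] [NeZero ℓ] (ex1 ex2 ex3 PT1 PT2 PT3 : ℕ)
    (er : r = ⟨n1, n2, n3, ℓ, ex1, ex2, ex3, PT1, PT2, PT3, t1, t2, t3, rows, len3⟩)
    (hj : Hj r (J2 ((-1) ^ σ) ((-1) ^ τ) p A m)) (g : Gd r w) (hw : w ≤ 3000) (h3 : len3 ≤ 16)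
    (hl : ℓ ≤ 19) (u1 : (ZMod n1)ˣ) (u2 : (ZMod n2)ˣ) (u3 : (ZMod n3)ˣ) (v : (ZMod ℓ)ˣ)
    (k1 : (p : ZMod n1) = u1) (k2 : (p : ZMod n2) = u2) (k3 : (p : ZMod n3) = u3)
    (k4 : (p : ZMod ℓ) = v) (L A0 m0 α β a b rr : ℕ) (hL : L ≤ 48) (hA0 : A0 < L) (hm0 : m0 < L)
    (eA : A = A0 + L * α) (em : m = m0 + L * β) (ea : a + rr * α = A / 12) (eb : b + rr * β = m / 12)
    (ha : a ≤ ℓ) (hb : b ≤ ℓ) (o1 : u1 ^ L = 1) (o2 : u2 ^ L = 1) (o3 : u3 ^ L = 1) (ov : v ^ L = 1)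
    (W : ℕ → W6) (hW : WOk ℓ σ τ v A m A0 m0 L α β W) (S : St)
    (hS : Ok ℓ S ((A / 12 : ℕ) : ZMod ℓ) ((m / 12 : ℕ) : ZMod ℓ)) (T : Tb) (hT : T = Tb0 w rows)
    (R : ℕ → W6) (hR : ∀ j < L, R j = rwt w T (cdn n1 ((-1) ^ σ) ((-1) ^ τ) u1 A m ex1 PT1 j))
    (E : ℕ → E3) (hE : ∀ j < L, E j = ofe (8 * len3 * cdn n2 ((-1) ^ σ) ((-1) ^ τ) u2 A m ex2 PT2 j +
      8 * cdn n3 ((-1) ^ σ) ((-1) ^ τ) u3 A m ex3 PT3 j)) :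
    ∃ S' : St, Ok ℓ S' ((A / 12 : ℕ) : ZMod ℓ) ((m / 12 : ℕ) : ZMod ℓ) ∧
      ∀ (dead : Bool) (k : St → Bool), tst ℓ rr a b S (ev (chr t1 (rs n1 p) t2 (rs n2 p) t3 (rs n3 p) ℓ)
        ((List.range L).map W) ((List.range L).map R) ((List.range L).map E)) dead k = k S' := by
  subst er
  have hl0 : 0 < ℓ := Nat.pos_of_ne_zero (NeZero.ne ℓ)
  set c := chr t1 (rs n1 p) t2 (rs n2 p) t3 (rs n3 p) ℓ with hc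
  have hc1 : c = (dig t1 (rs n1 p) * (dig t2 (rs n2 p) * dig t3 (rs n3 p))) % ℓ := rfl
  have hc2 : c ≤ 18 := by
    have : c < ℓ := hc1 ▸ Nat.mod_lt _ hl0
    omega
  have hrs : ∀ (n : ℕ) [NeZero n] (u : (ZMod n)ˣ), (p : ZMod n) = u → rs n p = (u : ZMod n).val := by
    intro n _ u h
    unfold rs
    rw [h]
  have hcc : ((c : ℕ) : ZMod ℓ) =
      cc ⟨n1, n2, n3, ℓ, ex1, ex2, ex3, PT1, PT2, PT3, t1, t2, t3, rows, len3⟩ u1 u2 u3 := by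
    rw [hc1, ZMod.natCast_mod, hrs n1 u1 k1, hrs n2 u2 k2, hrs n3 u3 k3]
    unfold cc
    push_cast
    rfl
  obtain ⟨V0, VA, Vm, b0, bA, eV, hV⟩ := hEV ℓ L c α β W R E _ _ _ _ _ _ hl hL hc2 hW
  obtain ⟨g1, g2, g3, g4⟩ := g
  have key := hAFF ⟨n1, n2, n3, ℓ, ex1, ex2, ex3, PT1, PT2, PT3, t1, t2, t3, rows, len3⟩
    ((-1) ^ σ) ((-1) ^ τ) p A m A0 m0 L α β u1 u2 u3 v hj X.A2 hA0 hm0 eA em k1 k2 k3 k4 o1 o2 o3 ov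
    g1 g2 g3
  have hV0 : (V0 : ZMod ℓ) + VA * α + Vm * β = 0 := by
    rw [hV, ← key]
    apply Finset.sum_congr rfl
    intro j hj'
    have hjL := Finset.mem_range.1 hj'
    rw [← hcc]
    congr 1
    have d := hDG rows w len3 (qN n1 ((-1) ^ σ) ((-1) ^ τ) u1 A m ex1 PT1 j)
      (q4 n1 ((-1) ^ σ) ((-1) ^ τ) u1 A m ex1 PT1 j) (q3 n1 ((-1) ^ σ) ((-1) ^ τ) u1 A m ex1 PT1 j)
      (qN n2 ((-1) ^ σ) ((-1) ^ τ) u2 A m ex2 PT2 j)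
      (q4 n2 ((-1) ^ σ) ((-1) ^ τ) u2 A m ex2 PT2 j) (q3 n2 ((-1) ^ σ) ((-1) ^ τ) u2 A m ex2 PT2 j)
      (qN n3 ((-1) ^ σ) ((-1) ^ τ) u3 A m ex3 PT3 j)
      (q4 n3 ((-1) ^ σ) ((-1) ^ τ) u3 A m ex3 PT3 j) (q3 n3 ((-1) ^ σ) ((-1) ^ τ) u3 A m ex3 PT3 j)
      g4 hw h3 (pos_lt' _ _ _ _ _ _) (pos_lt' _ _ _ _ _ _) (pos_lt' _ _ _ _ _ _)
      (pos_lt' _ _ _ _ _ _) (pos_lt' _ _ _ _ _ _) (pos_lt' _ _ _ _ _ _)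
      (pos_lt' _ _ _ _ _ _) (pos_lt' _ _ _ _ _ _) (pos_lt' _ _ _ _ _ _) (R j)
      (by rw [hR j hjL, hT]; rfl) (E j) (by rw [hE j hjL]; rfl)
    obtain ⟨d1, d2, d3, d4, d5, d6⟩ := d
    rw [d1, d2, d3, d4, d5, d6]
    rfl
  obtain ⟨S', y1, y2⟩ := hTST ℓ rr a b α β V0 VA Vm S hl0 ha hb b0 bA hV0 (by rw [ea, eb]; exact hS)
  rw [ea, eb] at y1
  exact ⟨S', y1, fun dead k => by rw [eV]; exact y2 Bool dead k⟩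

end Pool.Agent.OEG.E2
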