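import Pool.Agent.OEG.E2U

/-!
Project OEG, EL2: the relations used, one by one (generated).
-/

set_option autoImplicit false

namespace Pool.Agent.OEG.E2

open Pool.Agent.LibH4 Pool.Agent.LibH4.Ker
open Pool.Agent.Lib_helper5 Pool.Agent.Lib_helper5.LK Pool.Agent.Lib_helper5.TB
open Pool.Agent.LibH4.S7 (Rl)
open Pool.Agent.PSX.K Pool.Agent.PSX.EL
open Pool.Agent.PSX.Ev (OSys)

/-- the statements used -/
structure Sts : Prop where
  aff : Stmt_AFF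
  cl : Stmt_CL
  wt : Stmt_WT
  ev : Stmt_EV
  tst : Stmt_TST
  ro : Stmt_RO
  dg : Stmt_DG
  per : Stmt_PER
  mu : Stmt_MU

/-- a lift -/
structure Lf (A m L A0 m0 α β a b rr : ℕ) : Prop where
  hA : A0 < L
  hm : m0 < L
  eA : A = A0 + L * α
  em : m = m0 + L * β
  ea : a + rr * α = A / 12
  eb : b + rr * β = m / 12
  ha : a ≤ 4
  hb : b ≤ 4

section Codes

variable (σ τ : ℕ) {p : ℤ} (A m : ℕ) (U : Un p)
/-- codes modulo `1` -/
def cd1 (j : ℕ) : ℕ := cdn 1 ((-1) ^ σ) ((-1) ^ τ) U.u1 A m 0 PT1 j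
/-- codes modulo `3` -/
def cd3 (j : ℕ) : ℕ := cdn 3 ((-1) ^ σ) ((-1) ^ τ) U.u3 A m 1 PT3 j
/-- codes modulo `4` -/
def cd4 (j : ℕ) : ℕ := cdn 4 ((-1) ^ σ) ((-1) ^ τ) U.u4 A m 1 PT4 j
/-- codes modulo `5` -/
def cd5 (j : ℕ) : ℕ := cdn 5 ((-1) ^ σ) ((-1) ^ τ) U.u5 A m 3 PT5 j
/-- codes modulo `7` -/
def cd7 (j : ℕ) : ℕ := cdn 7 ((-1) ^ σ) ((-1) ^ τ) U.u7 A m 5 PT7 j
/-- codes modulo `8` -/
def cd8 (j : ℕ) : ℕ := cdn 8 ((-1) ^ σ) ((-1) ^ τ) U.u8 A m 1 PT8 j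
/-- codes modulo `13` -/
def cd13 (j : ℕ) : ℕ := cdn 13 ((-1) ^ σ) ((-1) ^ τ) U.u13 A m 11 PT13 j
/-- codes modulo `17` -/
def cd17 (j : ℕ) : ℕ := cdn 17 ((-1) ^ σ) ((-1) ^ τ) U.u17 A m 15 PT17 j
/-- codes modulo `19` -/
def cd19 (j : ℕ) : ℕ := cdn 19 ((-1) ^ σ) ((-1) ^ τ) U.u19 A m 17 PT19 j

end Codes

lemma pow_dvd1 {G : Type*} [Monoid G] {u : G} {o L : ℕ} (h : u ^ o = 1) (hd : o ∣ L) : u ^ L = 1 := by
  obtain ⟨t, rfl⟩ := hd
  rw [pow_mul, h, one_pow]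

lemma cd1_eq (Y : Sts) (σ τ : ℕ) {p : ℤ} (A m : ℕ) (U : Un p) (j : ℕ) : cd1 σ τ A m U j = 0 := by
  obtain ⟨h1, h2, h3⟩ := Y.per.2.2.2.2.2.2.2.2 ((-1) ^ σ) ((-1) ^ τ) U.u1 A m j
  unfold cd1 cdn
  rw [h1, h2, h3]

lemma rs1 (x : ℤ) : rs 1 x = 0 := by
  have := rs_lt (p := 1) x
  omega

variable {σ τ : ℕ} {p : ℤ} {A m : ℕ}

/-- relation `91F13` -/
theorem rel_91F13 (Y : Sts) (X : Cx σ τ p A m) (U : Un p) {A0 m0 α β a b rr : ℕ}
    (F : Lf A m 12 A0 m0 α β a b rr) {W : ℕ → W6} (hW : WOk 13 σ τ U.u13 A m A0 m0 12 α β W)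
    {S : St} (hS : Ok 13 S ((A / 12 : ℕ) : ZMod 13) ((m / 12 : ℕ) : ZMod 13)) :
    ∃ S' : St, Ok 13 S' ((A / 12 : ℕ) : ZMod 13) ((m / 12 : ℕ) : ZMod 13) ∧
      ∀ (dead : Bool) (k : St → Bool), tst (nat_lit 13) rr a b S
        (ev (chr t1_91F13 (rs 13 p) t2_91F13 (rs 7 p) t3_91F13 (nat_lit 0) (nat_lit 13))
        ((List.range 12).map W)
        ((List.range 12).map fun j => rwt (nat_lit 168) (Tb0 168 rows_91F13) (cd13 σ τ A m U j))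
        ((List.range 12).map fun j => ofe ((nat_lit 8) * cd7 σ τ A m U j))) dead k = k S' := by
  have h := relT Y.aff Y.ev Y.tst Y.dg X R91F13 13 7 1 13 t1_91F13 t2_91F13 t3_91F13 1 168
    rows_91F13 11 5 0 PT13 PT7 PT1 rfl (e91F13 X.Sy) Y.mu.1 (by norm_num)
    (by norm_num) (by norm_num) U.u13 U.u7 U.u1 U.u13 U.h13 U.h7 U.h1 U.h13 12 A0 m0 α β
    a b rr (by norm_num) F.hA F.hm F.eA F.em F.ea F.eb (F.ha.trans (by norm_num))
    (F.hb.trans (by norm_num)) (pow_dvd1 (Y.per.1 _).1 (by norm_num)) (pow_dvd1 (Y.per.2.1 _).1 (by norm_num))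
    (Subsingleton.elim _ _) (pow_dvd1 (Y.per.1 _).1 (by norm_num)) W hW S hS _ rfl
    (fun j => rwt (nat_lit 168) (Tb0 168 rows_91F13) (cd13 σ τ A m U j)) (fun j _ => rfl)
    (fun j => ofe ((nat_lit 8) * cd7 σ τ A m U j)) (fun j _ => by
      have h := cd1_eq Y σ τ A m U j
      unfold cd1 at h
      rw [h]; rfl)
  rw [rs1] at h
  exact h

/-- relation `455F13b` -/
theorem rel_455F13b (Y : Sts) (X : Cx σ τ p A m) (U : Un p) {A0 m0 α β a b rr : ℕ}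
    (F : Lf A m 12 A0 m0 α β a b rr) {W : ℕ → W6} (hW : WOk 13 σ τ U.u13 A m A0 m0 12 α β W)
    {S : St} (hS : Ok 13 S ((A / 12 : ℕ) : ZMod 13) ((m / 12 : ℕ) : ZMod 13)) :
    ∃ S' : St, Ok 13 S' ((A / 12 : ℕ) : ZMod 13) ((m / 12 : ℕ) : ZMod 13) ∧
      ∀ (dead : Bool) (k : St → Bool), tst (nat_lit 13) rr a b S
        (ev (chr t1_455F13b (rs 13 p) t2_455F13b (rs 7 p) t3_455F13b (rs 5 p) (nat_lit 13))
        ((List.range 12).map W)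
        ((List.range 12).map fun j => rwt (nat_lit 1680) (Tb0 1680 rows_455F13b) (cd13 σ τ A m U j))
        ((List.range 12).map fun j => ofe ((nat_lit 80) * cd7 σ τ A m U j + (nat_lit 8) * cd5 σ τ A m U j))) dead k = k S' := by
  have h := relT Y.aff Y.ev Y.tst Y.dg X R455F13b 13 7 5 13 t1_455F13b t2_455F13b t3_455F13b 10 1680
    rows_455F13b 11 5 3 PT13 PT7 PT5 rfl (e455F13b X.Sy) Y.mu.2.1 (by norm_num)
    (by norm_num) (by norm_num) U.u13 U.u7 U.u5 U.u13 U.h13 U.h7 U.h5 U.h13 12 A0 m0 α β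
    a b rr (by norm_num) F.hA F.hm F.eA F.em F.ea F.eb (F.ha.trans (by norm_num))
    (F.hb.trans (by norm_num)) (pow_dvd1 (Y.per.1 _).1 (by norm_num)) (pow_dvd1 (Y.per.2.1 _).1 (by norm_num))
    (pow_dvd1 (Y.per.2.2.1 _).1 (by norm_num)) (pow_dvd1 (Y.per.1 _).1 (by norm_num)) W hW S hS _ rfl
    (fun j => rwt (nat_lit 1680) (Tb0 1680 rows_455F13b) (cd13 σ τ A m U j)) (fun j _ => rfl)
    (fun j => ofe ((nat_lit 80) * cd7 σ τ A m U j + (nat_lit 8) * cd5 σ τ A m U j)) (fun j _ => rfl)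
  exact h

/-- relation `455F13c` -/
theorem rel_455F13c (Y : Sts) (X : Cx σ τ p A m) (U : Un p) {A0 m0 α β a b rr : ℕ}
    (F : Lf A m 12 A0 m0 α β a b rr) {W : ℕ → W6} (hW : WOk 13 σ τ U.u13 A m A0 m0 12 α β W)
    {S : St} (hS : Ok 13 S ((A / 12 : ℕ) : ZMod 13) ((m / 12 : ℕ) : ZMod 13)) :
    ∃ S' : St, Ok 13 S' ((A / 12 : ℕ) : ZMod 13) ((m / 12 : ℕ) : ZMod 13) ∧
      ∀ (dead : Bool) (k : St → Bool), tst (nat_lit 13) rr a b S
        (ev (chr t1_455F13c (rs 13 p) t2_455F13c (rs 7 p) t3_455F13c (rs 5 p) (nat_lit 13))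
        ((List.range 12).map W)
        ((List.range 12).map fun j => rwt (nat_lit 1680) (Tb0 1680 rows_455F13c) (cd13 σ τ A m U j))
        ((List.range 12).map fun j => ofe ((nat_lit 80) * cd7 σ τ A m U j + (nat_lit 8) * cd5 σ τ A m U j))) dead k = k S' := by
  have h := relT Y.aff Y.ev Y.tst Y.dg X R455F13c 13 7 5 13 t1_455F13c t2_455F13c t3_455F13c 10 1680
    rows_455F13c 11 5 3 PT13 PT7 PT5 rfl (e455F13c X.Sy) Y.mu.2.2.1 (by norm_num)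
    (by norm_num) (by norm_num) U.u13 U.u7 U.u5 U.u13 U.h13 U.h7 U.h5 U.h13 12 A0 m0 α β
    a b rr (by norm_num) F.hA F.hm F.eA F.em F.ea F.eb (F.ha.trans (by norm_num))
    (F.hb.trans (by norm_num)) (pow_dvd1 (Y.per.1 _).1 (by norm_num)) (pow_dvd1 (Y.per.2.1 _).1 (by norm_num))
    (pow_dvd1 (Y.per.2.2.1 _).1 (by norm_num)) (pow_dvd1 (Y.per.1 _).1 (by norm_num)) W hW S hS _ rfl
    (fun j => rwt (nat_lit 1680) (Tb0 1680 rows_455F13c) (cd13 σ τ A m U j)) (fun j _ => rfl)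
    (fun j => ofe ((nat_lit 80) * cd7 σ τ A m U j + (nat_lit 8) * cd5 σ τ A m U j)) (fun j _ => rfl)
  exact h

/-- relation `455F13a` -/
theorem rel_455F13a (Y : Sts) (X : Cx σ τ p A m) (U : Un p) {A0 m0 α β a b rr : ℕ}
    (F : Lf A m 12 A0 m0 α β a b rr) {W : ℕ → W6} (hW : WOk 13 σ τ U.u13 A m A0 m0 12 α β W)
    {S : St} (hS : Ok 13 S ((A / 12 : ℕ) : ZMod 13) ((m / 12 : ℕ) : ZMod 13)) :
    ∃ S' : St, Ok 13 S' ((A / 12 : ℕ) : ZMod 13) ((m / 12 : ℕ) : ZMod 13) ∧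
      ∀ (dead : Bool) (k : St → Bool), tst (nat_lit 13) rr a b S
        (ev (chr t1_455F13a (rs 13 p) t2_455F13a (rs 7 p) t3_455F13a (rs 5 p) (nat_lit 13))
        ((List.range 12).map W)
        ((List.range 12).map fun j => rwt (nat_lit 1680) (Tb0 1680 rows_455F13a) (cd13 σ τ A m U j))
        ((List.range 12).map fun j => ofe ((nat_lit 80) * cd7 σ τ A m U j + (nat_lit 8) * cd5 σ τ A m U j))) dead k = k S' := by
  have h := relT Y.aff Y.ev Y.tst Y.dg X R455F13a 13 7 5 13 t1_455F13a t2_455F13a t3_455F13a 10 1680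
    rows_455F13a 11 5 3 PT13 PT7 PT5 rfl (e455F13a X.Sy) Y.mu.2.2.2.1 (by norm_num)
    (by norm_num) (by norm_num) U.u13 U.u7 U.u5 U.u13 U.h13 U.h7 U.h5 U.h13 12 A0 m0 α β
    a b rr (by norm_num) F.hA F.hm F.eA F.em F.ea F.eb (F.ha.trans (by norm_num))
    (F.hb.trans (by norm_num)) (pow_dvd1 (Y.per.1 _).1 (by norm_num)) (pow_dvd1 (Y.per.2.1 _).1 (by norm_num))
    (pow_dvd1 (Y.per.2.2.1 _).1 (by norm_num)) (pow_dvd1 (Y.per.1 _).1 (by norm_num)) W hW S hS _ rfl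
    (fun j => rwt (nat_lit 1680) (Tb0 1680 rows_455F13a) (cd13 σ τ A m U j)) (fun j _ => rfl)
    (fun j => ofe ((nat_lit 80) * cd7 σ τ A m U j + (nat_lit 8) * cd5 σ τ A m U j)) (fun j _ => rfl)
  exact h

/-- relation `455F13d` -/
theorem rel_455F13d (Y : Sts) (X : Cx σ τ p A m) (U : Un p) {A0 m0 α β a b rr : ℕ}
    (F : Lf A m 12 A0 m0 α β a b rr) {W : ℕ → W6} (hW : WOk 13 σ τ U.u13 A m A0 m0 12 α β W)
    {S : St} (hS : Ok 13 S ((A / 12 : ℕ) : ZMod 13) ((m / 12 : ℕ) : ZMod 13)) :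
    ∃ S' : St, Ok 13 S' ((A / 12 : ℕ) : ZMod 13) ((m / 12 : ℕ) : ZMod 13) ∧
      ∀ (dead : Bool) (k : St → Bool), tst (nat_lit 13) rr a b S
        (ev (chr t1_455F13d (rs 13 p) t2_455F13d (rs 7 p) t3_455F13d (rs 5 p) (nat_lit 13))
        ((List.range 12).map W)
        ((List.range 12).map fun j => rwt (nat_lit 1680) (Tb0 1680 rows_455F13d) (cd13 σ τ A m U j))
        ((List.range 12).map fun j => ofe ((nat_lit 80) * cd7 σ τ A m U j + (nat_lit 8) * cd5 σ τ A m U j))) dead k = k S' := by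
  have h := relT Y.aff Y.ev Y.tst Y.dg X R455F13d 13 7 5 13 t1_455F13d t2_455F13d t3_455F13d 10 1680
    rows_455F13d 11 5 3 PT13 PT7 PT5 rfl (e455F13d X.Sy) Y.mu.2.2.2.2.1 (by norm_num)
    (by norm_num) (by norm_num) U.u13 U.u7 U.u5 U.u13 U.h13 U.h7 U.h5 U.h13 12 A0 m0 α β
    a b rr (by norm_num) F.hA F.hm F.eA F.em F.ea F.eb (F.ha.trans (by norm_num))
    (F.hb.trans (by norm_num)) (pow_dvd1 (Y.per.1 _).1 (by norm_num)) (pow_dvd1 (Y.per.2.1 _).1 (by norm_num))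
    (pow_dvd1 (Y.per.2.2.1 _).1 (by norm_num)) (pow_dvd1 (Y.per.1 _).1 (by norm_num)) W hW S hS _ rfl
    (fun j => rwt (nat_lit 1680) (Tb0 1680 rows_455F13d) (cd13 σ τ A m U j)) (fun j _ => rfl)
    (fun j => ofe ((nat_lit 80) * cd7 σ τ A m U j + (nat_lit 8) * cd5 σ τ A m U j)) (fun j _ => rfl)
  exact h

/-- relation `105N13` -/
theorem rel_105N13 (Y : Sts) (X : Cx σ τ p A m) (U : Un p) {A0 m0 α β a b rr : ℕ}
    (F : Lf A m 12 A0 m0 α β a b rr) {W : ℕ → W6} (hW : WOk 13 σ τ U.u13 A m A0 m0 12 α β W)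
    {S : St} (hS : Ok 13 S ((A / 12 : ℕ) : ZMod 13) ((m / 12 : ℕ) : ZMod 13)) :
    ∃ S' : St, Ok 13 S' ((A / 12 : ℕ) : ZMod 13) ((m / 12 : ℕ) : ZMod 13) ∧
      ∀ (dead : Bool) (k : St → Bool), tst (nat_lit 13) rr a b S
        (ev (chr t1_105N13 (rs 7 p) t2_105N13 (rs 5 p) t3_105N13 (rs 3 p) (nat_lit 13))
        ((List.range 12).map W)
        ((List.range 12).map fun j => rwt (nat_lit 240) (Tb0 240 rows_105N13) (cd7 σ τ A m U j))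
        ((List.range 12).map fun j => ofe ((nat_lit 24) * cd5 σ τ A m U j + (nat_lit 8) * cd3 σ τ A m U j))) dead k = k S' := by
  have h := relT Y.aff Y.ev Y.tst Y.dg X R105N13 7 5 3 13 t1_105N13 t2_105N13 t3_105N13 3 240
    rows_105N13 5 3 1 PT7 PT5 PT3 rfl (e105N13 X.Sy) Y.mu.2.2.2.2.2.1 (by norm_num)
    (by norm_num) (by norm_num) U.u7 U.u5 U.u3 U.u13 U.h7 U.h5 U.h3 U.h13 12 A0 m0 α β
    a b rr (by norm_num) F.hA F.hm F.eA F.em F.ea F.eb (F.ha.trans (by norm_num))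
    (F.hb.trans (by norm_num)) (pow_dvd1 (Y.per.2.1 _).1 (by norm_num)) (pow_dvd1 (Y.per.2.2.1 _).1 (by norm_num))
    (pow_dvd1 (Y.per.2.2.2.1 _).1 (by norm_num)) (pow_dvd1 (Y.per.1 _).1 (by norm_num)) W hW S hS _ rfl
    (fun j => rwt (nat_lit 240) (Tb0 240 rows_105N13) (cd7 σ τ A m U j)) (fun j _ => rfl)
    (fun j => ofe ((nat_lit 24) * cd5 σ τ A m U j + (nat_lit 8) * cd3 σ τ A m U j)) (fun j _ => rfl)
  exact h

/-- relation `273F13` -/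
theorem rel_273F13 (Y : Sts) (X : Cx σ τ p A m) (U : Un p) {A0 m0 α β a b rr : ℕ}
    (F : Lf A m 12 A0 m0 α β a b rr) {W : ℕ → W6} (hW : WOk 13 σ τ U.u13 A m A0 m0 12 α β W)
    {S : St} (hS : Ok 13 S ((A / 12 : ℕ) : ZMod 13) ((m / 12 : ℕ) : ZMod 13)) :
    ∃ S' : St, Ok 13 S' ((A / 12 : ℕ) : ZMod 13) ((m / 12 : ℕ) : ZMod 13) ∧
      ∀ (dead : Bool) (k : St → Bool), tst (nat_lit 13) rr a b S
        (ev (chr t1_273F13 (rs 13 p) t2_273F13 (rs 7 p) t3_273F13 (rs 3 p) (nat_lit 13))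
        ((List.range 12).map W)
        ((List.range 12).map fun j => rwt (nat_lit 504) (Tb0 504 rows_273F13) (cd13 σ τ A m U j))
        ((List.range 12).map fun j => ofe ((nat_lit 24) * cd7 σ τ A m U j + (nat_lit 8) * cd3 σ τ A m U j))) dead k = k S' := by
  have h := relT Y.aff Y.ev Y.tst Y.dg X R273F13 13 7 3 13 t1_273F13 t2_273F13 t3_273F13 3 504
    rows_273F13 11 5 1 PT13 PT7 PT3 rfl (e273F13 X.Sy) Y.mu.2.2.2.2.2.2.1 (by norm_num)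
    (by norm_num) (by norm_num) U.u13 U.u7 U.u3 U.u13 U.h13 U.h7 U.h3 U.h13 12 A0 m0 α β
    a b rr (by norm_num) F.hA F.hm F.eA F.em F.ea F.eb (F.ha.trans (by norm_num))
    (F.hb.trans (by norm_num)) (pow_dvd1 (Y.per.1 _).1 (by norm_num)) (pow_dvd1 (Y.per.2.1 _).1 (by norm_num))
    (pow_dvd1 (Y.per.2.2.2.1 _).1 (by norm_num)) (pow_dvd1 (Y.per.1 _).1 (by norm_num)) W hW S hS _ rfl
    (fun j => rwt (nat_lit 504) (Tb0 504 rows_273F13) (cd13 σ τ A m U j)) (fun j _ => rfl)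
    (fun j => ofe ((nat_lit 24) * cd7 σ τ A m U j + (nat_lit 8) * cd3 σ τ A m U j)) (fun j _ => rfl)
  exact h

/-- relation `133N13` -/
theorem rel_133N13 (Y : Sts) (X : Cx σ τ p A m) (U : Un p) {A0 m0 α β a b rr : ℕ}
    (F : Lf A m 36 A0 m0 α β a b rr) {W : ℕ → W6} (hW : WOk 13 σ τ U.u13 A m A0 m0 36 α β W)
    {S : St} (hS : Ok 13 S ((A / 12 : ℕ) : ZMod 13) ((m / 12 : ℕ) : ZMod 13)) :
    ∃ S' : St, Ok 13 S' ((A / 12 : ℕ) : ZMod 13) ((m / 12 : ℕ) : ZMod 13) ∧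
      ∀ (dead : Bool) (k : St → Bool), tst (nat_lit 13) rr a b S
        (ev (chr t1_133N13 (rs 19 p) t2_133N13 (rs 7 p) t3_133N13 (nat_lit 0) (nat_lit 13))
        ((List.range 36).map W)
        ((List.range 36).map fun j => rwt (nat_lit 168) (Tb0 168 rows_133N13) (cd19 σ τ A m U j))
        ((List.range 36).map fun j => ofe ((nat_lit 8) * cd7 σ τ A m U j))) dead k = k S' := by
  have h := relT Y.aff Y.ev Y.tst Y.dg X R133N13 19 7 1 13 t1_133N13 t2_133N13 t3_133N13 1 168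
    rows_133N13 17 5 0 PT19 PT7 PT1 rfl (e133N13 X.Sy) Y.mu.2.2.2.2.2.2.2.1 (by norm_num)
    (by norm_num) (by norm_num) U.u19 U.u7 U.u1 U.u13 U.h19 U.h7 U.h1 U.h13 36 A0 m0 α β
    a b rr (by norm_num) F.hA F.hm F.eA F.em F.ea F.eb (F.ha.trans (by norm_num))
    (F.hb.trans (by norm_num)) (pow_dvd1 (Y.per.2.2.2.2.1 _).1 (by norm_num)) (pow_dvd1 (Y.per.2.1 _).1 (by norm_num))
    (Subsingleton.elim _ _) (pow_dvd1 (Y.per.1 _).1 (by norm_num)) W hW S hS _ rfl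
    (fun j => rwt (nat_lit 168) (Tb0 168 rows_133N13) (cd19 σ τ A m U j)) (fun j _ => rfl)
    (fun j => ofe ((nat_lit 8) * cd7 σ τ A m U j)) (fun j _ => by
      have h := cd1_eq Y σ τ A m U j
      unfold cd1 at h
      rw [h]; rfl)
  rw [rs1] at h
  exact h

/-- relation `95N13` -/
theorem rel_95N13 (Y : Sts) (X : Cx σ τ p A m) (U : Un p) {A0 m0 α β a b rr : ℕ}
    (F : Lf A m 36 A0 m0 α β a b rr) {W : ℕ → W6} (hW : WOk 13 σ τ U.u13 A m A0 m0 36 α β W)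
    {S : St} (hS : Ok 13 S ((A / 12 : ℕ) : ZMod 13) ((m / 12 : ℕ) : ZMod 13)) :
    ∃ S' : St, Ok 13 S' ((A / 12 : ℕ) : ZMod 13) ((m / 12 : ℕ) : ZMod 13) ∧
      ∀ (dead : Bool) (k : St → Bool), tst (nat_lit 13) rr a b S
        (ev (chr t1_95N13 (rs 19 p) t2_95N13 (rs 5 p) t3_95N13 (nat_lit 0) (nat_lit 13))
        ((List.range 36).map W)
        ((List.range 36).map fun j => rwt (nat_lit 80) (Tb0 80 rows_95N13) (cd19 σ τ A m U j))
        ((List.range 36).map fun j => ofe ((nat_lit 8) * cd5 σ τ A m U j))) dead k = k S' := by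
  have h := relT Y.aff Y.ev Y.tst Y.dg X R95N13 19 5 1 13 t1_95N13 t2_95N13 t3_95N13 1 80
    rows_95N13 17 3 0 PT19 PT5 PT1 rfl (e95N13 X.Sy) Y.mu.2.2.2.2.2.2.2.2.1 (by norm_num)
    (by norm_num) (by norm_num) U.u19 U.u5 U.u1 U.u13 U.h19 U.h5 U.h1 U.h13 36 A0 m0 α β
    a b rr (by norm_num) F.hA F.hm F.eA F.em F.ea F.eb (F.ha.trans (by norm_num))
    (F.hb.trans (by norm_num)) (pow_dvd1 (Y.per.2.2.2.2.1 _).1 (by norm_num)) (pow_dvd1 (Y.per.2.2.1 _).1 (by norm_num))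
    (Subsingleton.elim _ _) (pow_dvd1 (Y.per.1 _).1 (by norm_num)) W hW S hS _ rfl
    (fun j => rwt (nat_lit 80) (Tb0 80 rows_95N13) (cd19 σ τ A m U j)) (fun j _ => rfl)
    (fun j => ofe ((nat_lit 8) * cd5 σ τ A m U j)) (fun j _ => by
      have h := cd1_eq Y σ τ A m U j
      unfold cd1 at h
      rw [h]; rfl)
  rw [rs1] at h
  exact h

/-- relation `95F19` -/
theorem rel_95F19 (Y : Sts) (X : Cx σ τ p A m) (U : Un p) {A0 m0 α β a b rr : ℕ}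
    (F : Lf A m 36 A0 m0 α β a b rr) {W : ℕ → W6} (hW : WOk 19 σ τ U.u19 A m A0 m0 36 α β W)
    {S : St} (hS : Ok 19 S ((A / 12 : ℕ) : ZMod 19) ((m / 12 : ℕ) : ZMod 19)) :
    ∃ S' : St, Ok 19 S' ((A / 12 : ℕ) : ZMod 19) ((m / 12 : ℕ) : ZMod 19) ∧
      ∀ (dead : Bool) (k : St → Bool), tst (nat_lit 19) rr a b S
        (ev (chr t1_95F19 (rs 19 p) t2_95F19 (rs 5 p) t3_95F19 (nat_lit 0) (nat_lit 19))
        ((List.range 36).map W)
        ((List.range 36).map fun j => rwt (nat_lit 80) (Tb0 80 rows_95F19) (cd19 σ τ A m U j))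
        ((List.range 36).map fun j => ofe ((nat_lit 8) * cd5 σ τ A m U j))) dead k = k S' := by
  have h := relT Y.aff Y.ev Y.tst Y.dg X R95F19 19 5 1 19 t1_95F19 t2_95F19 t3_95F19 1 80
    rows_95F19 17 3 0 PT19 PT5 PT1 rfl (e95F19 X.Sy) Y.mu.2.2.2.2.2.2.2.2.2.1 (by norm_num)
    (by norm_num) (by norm_num) U.u19 U.u5 U.u1 U.u19 U.h19 U.h5 U.h1 U.h19 36 A0 m0 α β
    a b rr (by norm_num) F.hA F.hm F.eA F.em F.ea F.eb (F.ha.trans (by norm_num))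
    (F.hb.trans (by norm_num)) (pow_dvd1 (Y.per.2.2.2.2.1 _).1 (by norm_num)) (pow_dvd1 (Y.per.2.2.1 _).1 (by norm_num))
    (Subsingleton.elim _ _) (pow_dvd1 (Y.per.2.2.2.2.1 _).1 (by norm_num)) W hW S hS _ rfl
    (fun j => rwt (nat_lit 80) (Tb0 80 rows_95F19) (cd19 σ τ A m U j)) (fun j _ => rfl)
    (fun j => ofe ((nat_lit 8) * cd5 σ τ A m U j)) (fun j _ => by
      have h := cd1_eq Y σ τ A m U j
      unfold cd1 at h
      rw [h]; rfl)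
  rw [rs1] at h
  exact h

/-- relation `312F13` -/
theorem rel_312F13 (Y : Sts) (X : Cx σ τ p A m) (U : Un p) {A0 m0 α β a b rr : ℕ}
    (F : Lf A m 12 A0 m0 α β a b rr) {W : ℕ → W6} (hW : WOk 13 σ τ U.u13 A m A0 m0 12 α β W)
    {S : St} (hS : Ok 13 S ((A / 12 : ℕ) : ZMod 13) ((m / 12 : ℕ) : ZMod 13)) :
    ∃ S' : St, Ok 13 S' ((A / 12 : ℕ) : ZMod 13) ((m / 12 : ℕ) : ZMod 13) ∧
      ∀ (dead : Bool) (k : St → Bool), tst (nat_lit 13) rr a b S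
        (ev (chr t1_312F13 (rs 13 p) t2_312F13 (rs 8 p) t3_312F13 (rs 3 p) (nat_lit 13))
        ((List.range 12).map W)
        ((List.range 12).map fun j => rwt (nat_lit 384) (Tb0 384 rows_312F13) (cd13 σ τ A m U j))
        ((List.range 12).map fun j => ofe ((nat_lit 24) * cd8 σ τ A m U j + (nat_lit 8) * cd3 σ τ A m U j))) dead k = k S' := by
  have h := relT Y.aff Y.ev Y.tst Y.dg X R312F13 13 8 3 13 t1_312F13 t2_312F13 t3_312F13 3 384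
    rows_312F13 11 1 1 PT13 PT8 PT3 rfl (e312F13 X.Sy) Y.mu.2.2.2.2.2.2.2.2.2.2.1 (by norm_num)
    (by norm_num) (by norm_num) U.u13 U.u8 U.u3 U.u13 U.h13 U.h8 U.h3 U.h13 12 A0 m0 α β
    a b rr (by norm_num) F.hA F.hm F.eA F.em F.ea F.eb (F.ha.trans (by norm_num))
    (F.hb.trans (by norm_num)) (pow_dvd1 (Y.per.1 _).1 (by norm_num)) (pow_dvd1 (Y.per.2.2.2.2.2.2.1 _).1 (by norm_num))
    (pow_dvd1 (Y.per.2.2.2.1 _).1 (by norm_num)) (pow_dvd1 (Y.per.1 _).1 (by norm_num)) W hW S hS _ rfl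
    (fun j => rwt (nat_lit 384) (Tb0 384 rows_312F13) (cd13 σ τ A m U j)) (fun j _ => rfl)
    (fun j => ofe ((nat_lit 24) * cd8 σ τ A m U j + (nat_lit 8) * cd3 σ τ A m U j)) (fun j _ => rfl)
  exact h

/-- relation `260F13` -/
theorem rel_260F13 (Y : Sts) (X : Cx σ τ p A m) (U : Un p) {A0 m0 α β a b rr : ℕ}
    (F : Lf A m 12 A0 m0 α β a b rr) {W : ℕ → W6} (hW : WOk 13 σ τ U.u13 A m A0 m0 12 α β W)
    {S : St} (hS : Ok 13 S ((A / 12 : ℕ) : ZMod 13) ((m / 12 : ℕ) : ZMod 13)) :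
    ∃ S' : St, Ok 13 S' ((A / 12 : ℕ) : ZMod 13) ((m / 12 : ℕ) : ZMod 13) ∧
      ∀ (dead : Bool) (k : St → Bool), tst (nat_lit 13) rr a b S
        (ev (chr t1_260F13 (rs 13 p) t2_260F13 (rs 5 p) t3_260F13 (rs 4 p) (nat_lit 13))
        ((List.range 12).map W)
        ((List.range 12).map fun j => rwt (nat_lit 320) (Tb0 320 rows_260F13) (cd13 σ τ A m U j))
        ((List.range 12).map fun j => ofe ((nat_lit 32) * cd5 σ τ A m U j + (nat_lit 8) * cd4 σ τ A m U j))) dead k = k S' := by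
  have h := relT Y.aff Y.ev Y.tst Y.dg X R260F13 13 5 4 13 t1_260F13 t2_260F13 t3_260F13 4 320
    rows_260F13 11 3 1 PT13 PT5 PT4 rfl (e260F13 X.Sy) Y.mu.2.2.2.2.2.2.2.2.2.2.2.1 (by norm_num)
    (by norm_num) (by norm_num) U.u13 U.u5 U.u4 U.u13 U.h13 U.h5 U.h4 U.h13 12 A0 m0 α β
    a b rr (by norm_num) F.hA F.hm F.eA F.em F.ea F.eb (F.ha.trans (by norm_num))
    (F.hb.trans (by norm_num)) (pow_dvd1 (Y.per.1 _).1 (by norm_num)) (pow_dvd1 (Y.per.2.2.1 _).1 (by norm_num))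
    (pow_dvd1 (Y.per.2.2.2.2.2.2.2.1 _).1 (by norm_num)) (pow_dvd1 (Y.per.1 _).1 (by norm_num)) W hW S hS _ rfl
    (fun j => rwt (nat_lit 320) (Tb0 320 rows_260F13) (cd13 σ τ A m U j)) (fun j _ => rfl)
    (fun j => ofe ((nat_lit 32) * cd5 σ τ A m U j + (nat_lit 8) * cd4 σ τ A m U j)) (fun j _ => rfl)
  exact h

/-- relation `152F19a` -/
theorem rel_152F19a (Y : Sts) (X : Cx σ τ p A m) (U : Un p) {A0 m0 α β a b rr : ℕ}
    (F : Lf A m 36 A0 m0 α β a b rr) {W : ℕ → W6} (hW : WOk 19 σ τ U.u19 A m A0 m0 36 α β W)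
    {S : St} (hS : Ok 19 S ((A / 12 : ℕ) : ZMod 19) ((m / 12 : ℕ) : ZMod 19)) :
    ∃ S' : St, Ok 19 S' ((A / 12 : ℕ) : ZMod 19) ((m / 12 : ℕ) : ZMod 19) ∧
      ∀ (dead : Bool) (k : St → Bool), tst (nat_lit 19) rr a b S
        (ev (chr t1_152F19a (rs 19 p) t2_152F19a (rs 8 p) t3_152F19a (nat_lit 0) (nat_lit 19))
        ((List.range 36).map W)
        ((List.range 36).map fun j => rwt (nat_lit 128) (Tb0 128 rows_152F19a) (cd19 σ τ A m U j))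
        ((List.range 36).map fun j => ofe ((nat_lit 8) * cd8 σ τ A m U j))) dead k = k S' := by
  have h := relT Y.aff Y.ev Y.tst Y.dg X R152F19a 19 8 1 19 t1_152F19a t2_152F19a t3_152F19a 1 128
    rows_152F19a 17 1 0 PT19 PT8 PT1 rfl (e152F19a X.Sy) Y.mu.2.2.2.2.2.2.2.2.2.2.2.2.1 (by norm_num)
    (by norm_num) (by norm_num) U.u19 U.u8 U.u1 U.u19 U.h19 U.h8 U.h1 U.h19 36 A0 m0 α β
    a b rr (by norm_num) F.hA F.hm F.eA F.em F.ea F.eb (F.ha.trans (by norm_num))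
    (F.hb.trans (by norm_num)) (pow_dvd1 (Y.per.2.2.2.2.1 _).1 (by norm_num)) (pow_dvd1 (Y.per.2.2.2.2.2.2.1 _).1 (by norm_num))
    (Subsingleton.elim _ _) (pow_dvd1 (Y.per.2.2.2.2.1 _).1 (by norm_num)) W hW S hS _ rfl
    (fun j => rwt (nat_lit 128) (Tb0 128 rows_152F19a) (cd19 σ τ A m U j)) (fun j _ => rfl)
    (fun j => ofe ((nat_lit 8) * cd8 σ τ A m U j)) (fun j _ => by
      have h := cd1_eq Y σ τ A m U j
      unfold cd1 at h
      rw [h]; rfl)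
  rw [rs1] at h
  exact h

/-- relation `152F19b` -/
theorem rel_152F19b (Y : Sts) (X : Cx σ τ p A m) (U : Un p) {A0 m0 α β a b rr : ℕ}
    (F : Lf A m 36 A0 m0 α β a b rr) {W : ℕ → W6} (hW : WOk 19 σ τ U.u19 A m A0 m0 36 α β W)
    {S : St} (hS : Ok 19 S ((A / 12 : ℕ) : ZMod 19) ((m / 12 : ℕ) : ZMod 19)) :
    ∃ S' : St, Ok 19 S' ((A / 12 : ℕ) : ZMod 19) ((m / 12 : ℕ) : ZMod 19) ∧
      ∀ (dead : Bool) (k : St → Bool), tst (nat_lit 19) rr a b S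
        (ev (chr t1_152F19b (rs 19 p) t2_152F19b (rs 8 p) t3_152F19b (nat_lit 0) (nat_lit 19))
        ((List.range 36).map W)
        ((List.range 36).map fun j => rwt (nat_lit 128) (Tb0 128 rows_152F19b) (cd19 σ τ A m U j))
        ((List.range 36).map fun j => ofe ((nat_lit 8) * cd8 σ τ A m U j))) dead k = k S' := by
  have h := relT Y.aff Y.ev Y.tst Y.dg X R152F19b 19 8 1 19 t1_152F19b t2_152F19b t3_152F19b 1 128
    rows_152F19b 17 1 0 PT19 PT8 PT1 rfl (e152F19b X.Sy) Y.mu.2.2.2.2.2.2.2.2.2.2.2.2.2.1 (by norm_num)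
    (by norm_num) (by norm_num) U.u19 U.u8 U.u1 U.u19 U.h19 U.h8 U.h1 U.h19 36 A0 m0 α β
    a b rr (by norm_num) F.hA F.hm F.eA F.em F.ea F.eb (F.ha.trans (by norm_num))
    (F.hb.trans (by norm_num)) (pow_dvd1 (Y.per.2.2.2.2.1 _).1 (by norm_num)) (pow_dvd1 (Y.per.2.2.2.2.2.2.1 _).1 (by norm_num))
    (Subsingleton.elim _ _) (pow_dvd1 (Y.per.2.2.2.2.1 _).1 (by norm_num)) W hW S hS _ rfl
    (fun j => rwt (nat_lit 128) (Tb0 128 rows_152F19b) (cd19 σ τ A m U j)) (fun j _ => rfl)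
    (fun j => ofe ((nat_lit 8) * cd8 σ τ A m U j)) (fun j _ => by
      have h := cd1_eq Y σ τ A m U j
      unfold cd1 at h
      rw [h]; rfl)
  rw [rs1] at h
  exact h

/-- relation `119N13` -/
theorem rel_119N13 (Y : Sts) (X : Cx σ τ p A m) (U : Un p) {A0 m0 α β a b rr : ℕ}
    (F : Lf A m 48 A0 m0 α β a b rr) {W : ℕ → W6} (hW : WOk 13 σ τ U.u13 A m A0 m0 48 α β W)
    {S : St} (hS : Ok 13 S ((A / 12 : ℕ) : ZMod 13) ((m / 12 : ℕ) : ZMod 13)) :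
    ∃ S' : St, Ok 13 S' ((A / 12 : ℕ) : ZMod 13) ((m / 12 : ℕ) : ZMod 13) ∧
      ∀ (dead : Bool) (k : St → Bool), tst (nat_lit 13) rr a b S
        (ev (chr t1_119N13 (rs 17 p) t2_119N13 (rs 7 p) t3_119N13 (nat_lit 0) (nat_lit 13))
        ((List.range 48).map W)
        ((List.range 48).map fun j => rwt (nat_lit 168) (Tb0 168 rows_119N13) (cd17 σ τ A m U j))
        ((List.range 48).map fun j => ofe ((nat_lit 8) * cd7 σ τ A m U j))) dead k = k S' := by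
  have h := relT Y.aff Y.ev Y.tst Y.dg X R119N13 17 7 1 13 t1_119N13 t2_119N13 t3_119N13 1 168
    rows_119N13 15 5 0 PT17 PT7 PT1 rfl (e119N13 X.Sy) Y.mu.2.2.2.2.2.2.2.2.2.2.2.2.2.2.1 (by norm_num)
    (by norm_num) (by norm_num) U.u17 U.u7 U.u1 U.u13 U.h17 U.h7 U.h1 U.h13 48 A0 m0 α β
    a b rr (by norm_num) F.hA F.hm F.eA F.em F.ea F.eb (F.ha.trans (by norm_num))
    (F.hb.trans (by norm_num)) (pow_dvd1 (Y.per.2.2.2.2.2.1 _).1 (by norm_num)) (pow_dvd1 (Y.per.2.1 _).1 (by norm_num))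
    (Subsingleton.elim _ _) (pow_dvd1 (Y.per.1 _).1 (by norm_num)) W hW S hS _ rfl
    (fun j => rwt (nat_lit 168) (Tb0 168 rows_119N13) (cd17 σ τ A m U j)) (fun j _ => rfl)
    (fun j => ofe ((nat_lit 8) * cd7 σ τ A m U j)) (fun j _ => by
      have h := cd1_eq Y σ τ A m U j
      unfold cd1 at h
      rw [h]; rfl)
  rw [rs1] at h
  exact h

/-- relation `119N5` -/
theorem rel_119N5 (Y : Sts) (X : Cx σ τ p A m) (U : Un p) {A0 m0 α β a b rr : ℕ}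
    (F : Lf A m 48 A0 m0 α β a b rr) {W : ℕ → W6} (hW : WOk 5 σ τ U.u5 A m A0 m0 48 α β W)
    {S : St} (hS : Ok 5 S ((A / 12 : ℕ) : ZMod 5) ((m / 12 : ℕ) : ZMod 5)) :
    ∃ S' : St, Ok 5 S' ((A / 12 : ℕ) : ZMod 5) ((m / 12 : ℕ) : ZMod 5) ∧
      ∀ (dead : Bool) (k : St → Bool), tst (nat_lit 5) rr a b S
        (ev (chr t1_119N5 (rs 17 p) t2_119N5 (rs 7 p) t3_119N5 (nat_lit 0) (nat_lit 5))
        ((List.range 48).map W)
        ((List.range 48).map fun j => rwt (nat_lit 168) (Tb0 168 rows_119N5) (cd17 σ τ A m U j))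
        ((List.range 48).map fun j => ofe ((nat_lit 8) * cd7 σ τ A m U j))) dead k = k S' := by
  have h := relT Y.aff Y.ev Y.tst Y.dg X R119N5 17 7 1 5 t1_119N5 t2_119N5 t3_119N5 1 168
    rows_119N5 15 5 0 PT17 PT7 PT1 rfl (e119N5 X.Sy) Y.mu.2.2.2.2.2.2.2.2.2.2.2.2.2.2.2.1 (by norm_num)
    (by norm_num) (by norm_num) U.u17 U.u7 U.u1 U.u5 U.h17 U.h7 U.h1 U.h5 48 A0 m0 α β
    a b rr (by norm_num) F.hA F.hm F.eA F.em F.ea F.eb (F.ha.trans (by norm_num))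
    (F.hb.trans (by norm_num)) (pow_dvd1 (Y.per.2.2.2.2.2.1 _).1 (by norm_num)) (pow_dvd1 (Y.per.2.1 _).1 (by norm_num))
    (Subsingleton.elim _ _) (pow_dvd1 (Y.per.2.2.1 _).1 (by norm_num)) W hW S hS _ rfl
    (fun j => rwt (nat_lit 168) (Tb0 168 rows_119N5) (cd17 σ τ A m U j)) (fun j _ => rfl)
    (fun j => ofe ((nat_lit 8) * cd7 σ τ A m U j)) (fun j _ => by
      have h := cd1_eq Y σ τ A m U j
      unfold cd1 at h
      rw [h]; rfl)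
  rw [rs1] at h
  exact h

/-- relation `51N5` -/
theorem rel_51N5 (Y : Sts) (X : Cx σ τ p A m) (U : Un p) {A0 m0 α β a b rr : ℕ}
    (F : Lf A m 48 A0 m0 α β a b rr) {W : ℕ → W6} (hW : WOk 5 σ τ U.u5 A m A0 m0 48 α β W)
    {S : St} (hS : Ok 5 S ((A / 12 : ℕ) : ZMod 5) ((m / 12 : ℕ) : ZMod 5)) :
    ∃ S' : St, Ok 5 S' ((A / 12 : ℕ) : ZMod 5) ((m / 12 : ℕ) : ZMod 5) ∧
      ∀ (dead : Bool) (k : St → Bool), tst (nat_lit 5) rr a b S
        (ev (chr t1_51N5 (rs 17 p) t2_51N5 (rs 3 p) t3_51N5 (nat_lit 0) (nat_lit 5))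
        ((List.range 48).map W)
        ((List.range 48).map fun j => rwt (nat_lit 24) (Tb0 24 rows_51N5) (cd17 σ τ A m U j))
        ((List.range 48).map fun j => ofe ((nat_lit 8) * cd3 σ τ A m U j))) dead k = k S' := by
  have h := relT Y.aff Y.ev Y.tst Y.dg X R51N5 17 3 1 5 t1_51N5 t2_51N5 t3_51N5 1 24
    rows_51N5 15 1 0 PT17 PT3 PT1 rfl (e51N5 X.Sy) Y.mu.2.2.2.2.2.2.2.2.2.2.2.2.2.2.2.2 (by norm_num)
    (by norm_num) (by norm_num) U.u17 U.u3 U.u1 U.u5 U.h17 U.h3 U.h1 U.h5 48 A0 m0 α β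
    a b rr (by norm_num) F.hA F.hm F.eA F.em F.ea F.eb (F.ha.trans (by norm_num))
    (F.hb.trans (by norm_num)) (pow_dvd1 (Y.per.2.2.2.2.2.1 _).1 (by norm_num)) (pow_dvd1 (Y.per.2.2.2.1 _).1 (by norm_num))
    (Subsingleton.elim _ _) (pow_dvd1 (Y.per.2.2.1 _).1 (by norm_num)) W hW S hS _ rfl
    (fun j => rwt (nat_lit 24) (Tb0 24 rows_51N5) (cd17 σ τ A m U j)) (fun j _ => rfl)
    (fun j => ofe ((nat_lit 8) * cd3 σ τ A m U j)) (fun j _ => by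
      have h := cd1_eq Y σ τ A m U j
      unfold cd1 at h
      rw [h]; rfl)
  rw [rs1] at h
  exact h

end Pool.Agent.OEG.E2
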