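import Pool.Agent.OEG.E2V
import Pool.Agent.OEG.E2Cl

/-!
Project OEG, EL2: the specification of the tree, first part (lists, classes, stages `13, 7, 5, 3`).
-/

set_option autoImplicit false

namespace Pool.Agent.OEG.E2

open Pool.Agent.LibH4 Pool.Agent.LibH4.Ker
open Pool.Agent.Lib_helper5 Pool.Agent.Lib_helper5.LK Pool.Agent.Lib_helper5.TB
open Pool.Agent.LibH4.S7 (Rl)
open Pool.Agent.PSX.K Pool.Agent.PSX.EL
open Pool.Agent.PSX.Ev (OSys)

/-! ### lists -/

lemma wl_ex (ℓ L σ τ A0 m0 q : ℕ) : ∃ W, ∀ k : List W6 → Bool, wl ℓ L σ τ A0 m0 q k = k W := by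
  refine ⟨wl ℓ L σ τ A0 m0 q id, fun k => ?_⟩
  unfold wl
  rw [base_eq, base_eq]
  have h : ∀ (v s l sl N j : ℕ) (γ : Type) (k : W6 → γ), wj ℓ L A0 m0 v s l sl N j k =
      k (wj ℓ L A0 m0 v s l sl N j id) := by
    intro v s l sl N j γ k
    unfold wj mk6
    simp only [strict_eq, id_eq]
  rw [bld_eq (fun i k => h _ _ _ _ _ i _ k), bld_eq (fun i k => h _ _ _ _ _ i _ k)]
  rfl

lemma of2_ex (K1 K2 : ℕ) (C : List ℕ) : ∀ D : List ℕ,
    ∃ E, ∀ k : List E3 → Bool, of2 K1 K2 C D k = k E := by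
  induction C with
  | nil => exact fun D => ⟨[], fun k => rfl⟩
  | cons c C ih =>
    intro D
    cases D with
    | nil => exact ⟨[], fun k => rfl⟩
    | cons d D =>
      obtain ⟨E, hE⟩ := ih D
      refine ⟨⟨Nat.mod (K1 * c + K2 * d) 16777216,
        Nat.mod (Nat.shiftRight (K1 * c + K2 * d) 24) 16777216,
        Nat.shiftRight (K1 * c + K2 * d) 48⟩ :: E, fun k => ?_⟩
      have e : of2 K1 K2 (c :: C) (d :: D) k = spl (Nat.add (Nat.mul K1 c) (Nat.mul K2 d))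
        fun e => of2 K1 K2 C D fun E => k (e :: E) := rfl
      rw [e]
      unfold spl
      simp only [strict_eq]
      rw [hE]
      rfl

lemma of1_ex (Y : Sts) (K : ℕ) (C : List ℕ) : ∃ E, ∀ k : List E3 → Bool, of1 K C k = k E :=
  ⟨_, fun k => Y.ro.1 Bool K C k⟩

lemma rws_eq (Y : Sts) (w : ℕ) (T : Tb) (C : List ℕ) (k : List W6 → Bool) :
    rws w T C k = k (C.map (rwt w T)) := Y.ro.2.2.1 Bool w (mk w) T.X T.Y C k

lemma apK_eq (Y : Sts) {α : Type} (X Z : List α) (k : List α → Bool) : apK X Z k = k (X ++ Z) :=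
  Y.ro.2.2.2.1 Bool α X Z k

lemma tri3_eq (Y : Sts) {α : Type} (X : List α) (k : List α → Bool) :
    tri3 X k = k (X ++ X ++ X) := by
  unfold tri3
  rw [apK_eq Y, apK_eq Y]

lemma qua_eq (Y : Sts) {α : Type} (X : List α) (k : List α → Bool) :
    qua X k = k (X ++ X ++ (X ++ X)) := by
  unfold qua
  rw [apK_eq Y, apK_eq Y]

lemma six_eq (Y : Sts) {α : Type} (X : List α) (k : List α → Bool) :
    six X k = k (X ++ X ++ (X ++ X) ++ (X ++ X)) := by
  unfold six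
  rw [apK_eq Y, tri3_eq Y]

lemma map_rep {α : Type} {f : ℕ → α} {a : ℕ} (b : ℕ) (h : ∀ j, f (j + a) = f j) :
    (List.range a).map f ++ (List.range b).map f = (List.range (a + b)).map f := by
  rw [List.range_add, List.map_append, List.map_map]
  congr 1
  apply List.map_congr_left
  intro j _
  simp only [Function.comp]
  rw [add_comm a j, h]

lemma per_mul {α : Type} {f : ℕ → α} {a : ℕ} (h : ∀ j, f (j + a) = f j) (t : ℕ) :
    ∀ j, f (j + a * t) = f j := by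
  induction t with
  | zero => intro j; rfl
  | succ t ih => intro j; rw [Nat.mul_succ, ← add_assoc, h, ih]

lemma dup_per {α : Type} {f : ℕ → α} {a : ℕ} (h : ∀ j, f (j + a) = f j) (k : List α → Bool)
    (Y : Sts) : apK ((List.range a).map f) ((List.range a).map f) k =
      k ((List.range (a + a)).map f) := by
  rw [apK_eq Y, map_rep a h]

lemma tri3_per {α : Type} {f : ℕ → α} {a : ℕ} (h : ∀ j, f (j + a) = f j) (k : List α → Bool)
    (Y : Sts) : tri3 ((List.range a).map f) k = k ((List.range (a + a + a)).map f) := by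
  rw [tri3_eq Y, map_rep a h, map_rep a (fun j => by rw [← add_assoc, h, h])]

lemma qua_per {α : Type} {f : ℕ → α} {a : ℕ} (h : ∀ j, f (j + a) = f j) (k : List α → Bool)
    (Y : Sts) : qua ((List.range a).map f) k = k ((List.range (a + a + (a + a))).map f) := by
  rw [qua_eq Y, map_rep a h, map_rep (a + a) (fun j => by rw [← add_assoc, h, h])]

lemma six_per {α : Type} {f : ℕ → α} {a : ℕ} (h : ∀ j, f (j + a) = f j) (k : List α → Bool)
    (Y : Sts) : six ((List.range a).map f) k =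
      k ((List.range (a + a + (a + a) + (a + a))).map f) := by
  have h2 : ∀ j, f (j + (a + a)) = f j := fun j => by rw [← add_assoc, h, h]
  have h4 : ∀ j, f (j + (a + a + (a + a))) = f j := fun j => by rw [← add_assoc, h2, h2]
  rw [six_eq Y, map_rep a h, map_rep (a + a) h2, map_rep (a + a) h4]

/-! ### the list of the classes -/

lemma cl_any (n ex PT L σ τ A0 m0 q : ℕ) :
    (∀ (no : Bool) (k : List ℕ → Bool), cl n ex PT L σ τ A0 m0 q no k = no) ∨
    ∃ C, ∀ (no : Bool) (k : List ℕ → Bool), cl n ex PT L σ τ A0 m0 q no k = k C := by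
  unfold cl
  simp only [base_eq, clst_eq]
  cases dok n (dsc n (q ^ m0 % n) (sg n τ)
    ((q ^ A0 % n + (sg n σ * (q ^ m0 % n) + (n - sg n σ * sg n τ % n))) % n)) with
  | false => exact Or.inl fun no k => rfl
  | true => exact Or.inr ⟨_, fun no k => rfl⟩

open Classical in
lemma eq_of_k {α : Type} {x y : α} (h : ∀ k : α → Bool, k x = k y) : x = y := by
  have h1 := h fun z => decide (z = y)
  simpa using h1

lemma clL_eq {α : Type} {n ex PT L σ τ A0 m0 : ℕ} {f : ℕ → List ℕ → (α → Bool) → Bool}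
    (hf : ∀ q C, ∃ d, ∀ k, f q C k = k d) (Q : List ℕ) :
    ∃ Z : List α, (∀ k, clL n ex PT L σ τ A0 m0 f Q k = k Z) ∧
      ∀ q ∈ Q, ∀ C d, (∀ (no : Bool) k, cl n ex PT L σ τ A0 m0 q no k = k C) →
        (∀ k, f q C k = k d) → d ∈ Z := by
  induction Q with
  | nil => exact ⟨[], fun k => rfl, fun q hq => by simp at hq⟩
  | cons q0 Q ih =>
    obtain ⟨Z, hZ, hm⟩ := ih
    have e : ∀ k, clL n ex PT L σ τ A0 m0 f (q0 :: Q) k =
      cl n ex PT L σ τ A0 m0 q0 (clL n ex PT L σ τ A0 m0 f Q k) fun C => f q0 C fun d =>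
        clL n ex PT L σ τ A0 m0 f Q fun Y => k (d :: Y) := fun k => rfl
    rcases cl_any n ex PT L σ τ A0 m0 q0 with h | ⟨C0, h⟩
    · refine ⟨Z, fun k => by rw [e, h, hZ], ?_⟩
      intro q hq C d h1 h2
      rcases List.mem_cons.1 hq with rfl | hq
      · have h3 := h1 true fun _ => false
        rw [h] at h3
        exact absurd h3 (by simp)
      · exact hm q hq C d h1 h2
    · obtain ⟨d0, hd0⟩ := hf q0 C0
      refine ⟨d0 :: Z, fun k => by rw [e, h, hd0, hZ], ?_⟩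
      intro q hq C d h1 h2
      rcases List.mem_cons.1 hq with rfl | hq
      · have h3 : C0 = C := eq_of_k fun k => by rw [← h true k, h1 true k]
        subst h3
        have h4 : d = d0 := eq_of_k fun k => by rw [← h2 k, hd0]
        rw [h4]
        exact List.mem_cons_self
      · exact List.mem_cons_of_mem _ (hm q hq C d h1 h2)

lemma f3_ex (Y : Sts) (q : ℕ) (C : List ℕ) : ∃ d, ∀ k : D3 → Bool, f3 q C k = k d :=
  ⟨_, fun k => by unfold f3; rw [six_eq Y]⟩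

lemma f5_ex (Y : Sts) (C7 : List ℕ) (q : ℕ) (C : List ℕ) :
    ∃ d, ∀ k : D5 → Bool, f5 C7 q C k = k d := by
  obtain ⟨E, hE⟩ := of2_ex (nat_lit 80) (nat_lit 8) C7 (C ++ C ++ C)
  exact ⟨⟨q, C ++ C ++ C, E⟩, fun k => by unfold f5; rw [tri3_eq Y, hE]⟩

lemma f7_ex (Y : Sts) (σ τ A0 m0 q : ℕ) (C : List ℕ) :
    ∃ d, ∀ k : D7 → Bool, f7 σ τ A0 m0 q C k = k d := by
  obtain ⟨E, hE⟩ := of1_ex Y (nat_lit 8) (C ++ C)
  obtain ⟨Z, hZ, -⟩ := clL_eq (n := nat_lit 5) (ex := nat_lit 3) (PT := PT5) (L := nat_lit 4)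
    (σ := σ) (τ := τ) (A0 := A0) (m0 := m0) (f5_ex Y (C ++ C)) Q5
  exact ⟨⟨q, C ++ C, E, Z⟩, fun k => by unfold f7; rw [apK_eq Y, hE, hZ]⟩

lemma f13_ex (Y : Sts) (T1 T2 T3 : Tb) (σ τ A0 m0 q : ℕ) (C : List ℕ) :
    ∃ d, ∀ k : D13 → Bool, f13 T1 T2 T3 σ τ A0 m0 q C k = k d := by
  obtain ⟨W, hW⟩ := wl_ex (nat_lit 13) (nat_lit 12) σ τ A0 m0 q
  exact ⟨_, fun k => by unfold f13; rw [hW, rws_eq Y, rws_eq Y, rws_eq Y]⟩

/-! ### periods of the codes -/

lemma up_per {n o : ℕ} {u : (ZMod n)ˣ} (h : u ^ o = 1) (e : ℤ) : up n u (e + o) = up n u e := by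
  unfold up
  rw [zpow_add, zpow_natCast, h, mul_one]

lemma cdn_per {n o : ℕ} {u : (ZMod n)ˣ} (h : u ^ o = 1) (s l : ℤ) (A m ex PT j : ℕ) :
    cdn n s l u A m ex PT (j + o) = cdn n s l u A m ex PT j := by
  have h1 : ∀ x : ℤ, up n u (x - ((j + o : ℕ) : ℤ)) = up n u (x - j) := by
    intro x
    have e : x - (j : ℤ) = (x - ((j + o : ℕ) : ℤ)) + o := by push_cast; ring
    rw [e, up_per h]
  have h2 : up n u ((j + o : ℕ) : ℤ) = up n u (j : ℤ) := by
    have e : ((j + o : ℕ) : ℤ) = (j : ℤ) + o := by push_cast; ring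
    rw [e, up_per h]
  unfold cdn qN q4 q3
  rw [h1, h1, h1, h2]

lemma rs_mem {p : ℤ} {n : ℕ} [NeZero n] (hn : 1 < n) {u : (ZMod n)ˣ} (h : (p : ZMod n) = u) :
    rs n p ≠ 0 := by
  intro h0
  have h1 : ((rs n p : ℕ) : ZMod n) = u := by rw [rs_cast, h]
  rw [h0, Nat.cast_zero] at h1
  have : Fact (1 < n) := ⟨hn⟩
  exact u.ne_zero h1.symm

end Pool.Agent.OEG.E2
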