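import Pool.Agent.OEG.E2Cl

/-!
Project OEG, EL2: the weights of the relations (`t_WT : Stmt_WT`).
-/

set_option autoImplicit false

namespace Pool.Agent.OEG.E2

open Pool.Agent.LibH4 Pool.Agent.LibH4.Ker
open Pool.Agent.Lib_helper5 Pool.Agent.Lib_helper5.LK Pool.Agent.Lib_helper5.TB

theorem isz_eq (j : ℕ) : isz j = if j = 0 then 1 else 0 := by
  cases j with
  | zero => rfl
  | succ j => rfl

theorem ise_eq (j m : ℕ) : ise j m = if j = m then 1 else 0 := by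
  unfold ise
  by_cases h : j = m
  · subst h
    rw [Nat.beq_refl, if_pos rfl]
  · have : Nat.beq j m = false := by
      rw [Bool.eq_false_iff]
      intro h'
      exact h (Nat.eq_of_beq_eq_true h')
    rw [this, if_neg h]

/-- weights in plain words -/
def wjf (ℓ L A0 m0 v s l sl N j : ℕ) : W6 :=
  let vj := v ^ j % ℓ
  let cA := cnt L A0 j
  let c1 := cnt L (m0 + 1) j
  let g := (ℓ - l) * (v ^ (A0 + L - m0 + j) + s * vj) % ℓ
  let e4 := (cA + (ℓ - 1) * c1) % ℓ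
  let h := (ℓ - s) * v ^ (j + L - m0) % ℓ
  let e3 := (cA + (ℓ - 1) * isz j) % ℓ
  let k1 := sl * vj % ℓ
  let k2 := l * v ^ (m0 + j + L - A0) % ℓ
  let ed := 1 + (cA + (ℓ - 1) * cnt L (A0 + L - m0) j)
  ⟨pk (3 * c1 % ℓ) 0 3,
    pk ((g * cnt L m0 j + ise j m0 * ((ℓ - l) * N)) % ℓ) 0 g,
    pk (3 * e4 % ℓ) 3 (ℓ - 3),
    pk (h * e4 % ℓ) h (ℓ - h),
    pk (3 * e3 % ℓ) 3 0,
    pk ((k1 * e3 + k2 * ed) % ℓ) k1 k2⟩

theorem mk6_eq {β : Type} (a b c d e f : ℕ) (k : W6 → β) :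
    mk6 a b c d e f k = k ⟨a, b, c, d, e, f⟩ := by
  unfold mk6
  simp only [strict_eq]

theorem wj_eq {β : Type} (ℓ L A0 m0 v s l sl N j : ℕ) (k : W6 → β) :
    wj ℓ L A0 m0 v s l sl N j k = k (wjf ℓ L A0 m0 v s l sl N j) := by
  unfold wj
  simp only [strict_eq, mk6_eq]
  rfl

theorem t_WT : Stmt_WT := by
  intro ℓ L σ τ A0 m0 A m α β _ p v hl hA0 hm0 hA hm hp hv
  set q := rs ℓ p with hqd
  have hq : ((q : ℕ) : ZMod ℓ) = v := by rw [hqd, rs_cast, hp]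
  have hL : (v : ZMod ℓ) ^ L = 1 := by
    have := congrArg (fun x : (ZMod ℓ)ˣ => (x : ZMod ℓ)) hv
    simpa only [Units.val_pow_eq_pow_val, Units.val_one] using this
  have hA' : (v : ZMod ℓ) ^ A0 = (v : ZMod ℓ) ^ A := by
    rw [hA, pow_add, pow_mul, hL, one_pow, mul_one]
  have hm' : (v : ZMod ℓ) ^ m0 = (v : ZMod ℓ) ^ m := by
    rw [hm, pow_add, pow_mul, hL, one_pow, mul_one]
  have hn0 : 0 < ℓ := by omega
  set s : ℤ := (-1) ^ σ with hs
  set l : ℤ := (-1) ^ τ with hl'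
  set s0 := sg ℓ σ with hs0
  set l0 := sg ℓ τ with hl0
  set sl := s0 * l0 % ℓ with hsl
  set N := (q ^ A0 % ℓ + (s0 * (q ^ m0 % ℓ) + (ℓ - sl))) % ℓ with hNd
  have cs : (s0 : ZMod ℓ) = (s : ZMod ℓ) := cast_sg σ
  have cl : (l0 : ZMod ℓ) = (l : ZMod ℓ) := cast_sg τ
  have csl : (sl : ZMod ℓ) = (s : ZMod ℓ) * l := by
    rw [hsl, ZMod.natCast_mod, Nat.cast_mul, cs, cl]
  have slt : sl ≤ ℓ := (Nat.mod_lt _ hn0).le
  have s0t : s0 ≤ ℓ := (sg_lt σ).le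
  have l0t : l0 ≤ ℓ := (sg_lt τ).le
  have cN : (N : ZMod ℓ) = zN ℓ s l v A m := by
    rw [hNd, ZMod.natCast_mod, Nat.cast_add, Nat.cast_add, Nat.cast_mul, cast_nsub slt,
      ZMod.natCast_mod, ZMod.natCast_mod, Nat.cast_pow, Nat.cast_pow, hq, cs, csl, hA', hm']
    unfold zN
    ring
  refine ⟨fun j => wjf ℓ L A0 m0 q s0 l0 sl N j, ?_, ?_⟩
  · intro γ k
    unfold wl
    rw [base_eq]
    refine (bld_eq (f := fun j => wjf ℓ L A0 m0 q s0 l0 sl N j) (fun i k => ?_) L [] k).trans ?_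
    · rw [wj_eq]
    · rw [List.append_nil]
  · intro j hj
    have c1' : ((ℓ - 1 : ℕ) : ZMod ℓ) = -1 := by
      rw [cast_nsub (by omega)]; norm_num
    have c3' : ((ℓ - 3 : ℕ) : ZMod ℓ) = -3 := by
      rw [cast_nsub (by omega)]; norm_num
    have ciz : ((isz j : ℕ) : ZMod ℓ) = if j = 0 then 1 else 0 := by
      rw [isz_eq]; split_ifs <;> simp
    have cie : ((ise j m0 : ℕ) : ZMod ℓ) = if j = m0 then 1 else 0 := by
      rw [ise_eq]; split_ifs <;> simp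
    have md : ∀ x : ℕ, x % ℓ ≤ ℓ := fun x => (Nat.mod_lt x hn0).le
    have hh := md ((ℓ - s0) * q ^ (j + L - m0))
    refine ⟨⟨_, _, _, md _, Nat.zero_le _, hl.le, rfl, ?_⟩, ⟨_, _, _, md _, Nat.zero_le _, md _, rfl, ?_⟩,
      ⟨_, _, _, md _, hl.le, Nat.sub_le _ _, rfl, ?_⟩, ⟨_, _, _, md _, md _, Nat.sub_le _ _, rfl, ?_⟩,
      ⟨_, _, _, md _, hl.le, Nat.zero_le _, rfl, ?_⟩, ⟨_, _, _, md _, md _, md _, rfl, ?_⟩⟩
    · unfold wUN
      rw [ZMod.natCast_mod]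
      push_cast
      ring
    · unfold wVN
      simp only [ZMod.natCast_mod, Nat.cast_add, Nat.cast_mul, Nat.cast_pow, cie, cast_nsub l0t, cl,
        hq, cs, cN, Nat.cast_zero]
      split_ifs <;> ring
    · unfold wU4
      simp only [ZMod.natCast_mod, Nat.cast_add, Nat.cast_mul, c1', c3',
        Nat.cast_ofNat]
      ring
    · unfold wV4
      simp only [ZMod.natCast_mod, Nat.cast_add, Nat.cast_mul, Nat.cast_pow, c1', cast_nsub hh,
        cast_nsub s0t, cs, hq]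
      ring
    · unfold wU3
      simp only [ZMod.natCast_mod, Nat.cast_add, Nat.cast_mul, Nat.cast_pow, c1', ciz,
        Nat.cast_ofNat, Nat.cast_zero]
      ring
    · unfold wV3
      simp only [ZMod.natCast_mod, Nat.cast_add, Nat.cast_mul, Nat.cast_pow, c1', ciz,
        Nat.cast_ofNat, Nat.cast_one, csl, hq, cl]
      ring

end Pool.Agent.OEG.E2
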