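import Pool.Agent.OEG.E2W

/-!
Project OEG, EL2: the specification of the tree, stages `13, 7, 5, 3`.
-/

set_option autoImplicit false

namespace Pool.Agent.OEG.E2

open Pool.Agent.LibH4 Pool.Agent.LibH4.Ker
open Pool.Agent.Lib_helper5 Pool.Agent.Lib_helper5.LK Pool.Agent.Lib_helper5.TB
open Pool.Agent.LibH4.S7 (Rl)
open Pool.Agent.PSX.K Pool.Agent.PSX.EL
open Pool.Agent.PSX.Ev (OSys)

/-- the packed tables -/
def TT0 : TT :=
  ⟨Tb0 168 rows_91F13, Tb0 1680 rows_455F13b, Tb0 1680 rows_455F13c, Tb0 1680 rows_455F13a,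
    Tb0 1680 rows_455F13d, Tb0 240 rows_105N13, Tb0 504 rows_273F13, Tb0 168 rows_133N13,
    Tb0 80 rows_95N13, Tb0 80 rows_95F19, Tb0 384 rows_312F13, Tb0 320 rows_260F13,
    Tb0 128 rows_152F19a, Tb0 128 rows_152F19b, Tb0 168 rows_119N13, Tb0 168 rows_119N5,
    Tb0 24 rows_51N5⟩

lemma TT0_t91 : TT0.t91 = Tb0 168 rows_91F13 := rfl
lemma TT0_t455b : TT0.t455b = Tb0 1680 rows_455F13b := rfl
lemma TT0_t455c : TT0.t455c = Tb0 1680 rows_455F13c := rfl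
lemma TT0_t455a : TT0.t455a = Tb0 1680 rows_455F13a := rfl
lemma TT0_t455d : TT0.t455d = Tb0 1680 rows_455F13d := rfl
lemma TT0_t105 : TT0.t105 = Tb0 240 rows_105N13 := rfl
lemma TT0_t273 : TT0.t273 = Tb0 504 rows_273F13 := rfl
lemma TT0_t133 : TT0.t133 = Tb0 168 rows_133N13 := rfl
lemma TT0_t95N : TT0.t95N = Tb0 80 rows_95N13 := rfl
lemma TT0_t95F : TT0.t95F = Tb0 80 rows_95F19 := rfl
lemma TT0_t312 : TT0.t312 = Tb0 384 rows_312F13 := rfl
lemma TT0_t260 : TT0.t260 = Tb0 320 rows_260F13 := rfl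
lemma TT0_t152a : TT0.t152a = Tb0 128 rows_152F19a := rfl
lemma TT0_t152b : TT0.t152b = Tb0 128 rows_152F19b := rfl
lemma TT0_t119N : TT0.t119N = Tb0 168 rows_119N13 := rfl
lemma TT0_t119F : TT0.t119F = Tb0 168 rows_119N5 := rfl
lemma TT0_t51 : TT0.t51 = Tb0 24 rows_51N5 := rfl

lemma tb_eq {β : Type} (w : ℕ) (rows : List (ℕ × ℕ)) (k : Tb → β) :
    tb w rows k = k (Tb0 w rows) := by
  unfold tb
  simp only [strict_eq]
  rfl

lemma tbs_eq {β : Type} (k : TT → β) : tbs k = k TT0 := by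
  unfold tbs
  simp only [tb_eq]
  rfl

variable {σ τ : ℕ} {p : ℤ} {A m : ℕ}

/-- the trivial lift -/
lemma lf12 (A m : ℕ) : Lf A m 12 (A % 12) (m % 12) (A / 12) (m / 12) (nat_lit 0) (nat_lit 0)
    (nat_lit 1) where
  hA := Nat.mod_lt _ (by norm_num)
  hm := Nat.mod_lt _ (by norm_num)
  eA := (Nat.mod_add_div A 12).symm
  em := (Nat.mod_add_div m 12).symm
  ea := by
    have h1 : (nat_lit 0) = 0 := rfl
    have h2 : (nat_lit 1) = 1 := rfl
    rw [h1, h2]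
    omega
  eb := by
    have h1 : (nat_lit 0) = 0 := rfl
    have h2 : (nat_lit 1) = 1 := rfl
    rw [h1, h2]
    omega
  ha := Nat.zero_le _
  hb := Nat.zero_le _

section Recs

variable (σ τ A m : ℕ) {p : ℤ} (U : Un p)

/-- the class modulo `3` -/
def r3 : D3 := ⟨rs 3 p, (List.range 12).map (cd3 σ τ A m U)⟩

/-- the class modulo `5` -/
def r5 : D5 := ⟨rs 5 p, (List.range 12).map (cd5 σ τ A m U),
  (List.range 12).map fun j => ofe ((nat_lit 80) * cd7 σ τ A m U j + (nat_lit 8) * cd5 σ τ A m U j)⟩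

/-- the class modulo `7` -/
def r7 (Z : List D5) : D7 := ⟨rs 7 p, (List.range 12).map (cd7 σ τ A m U),
  (List.range 12).map fun j => ofe ((nat_lit 8) * cd7 σ τ A m U j), Z⟩

/-- the class modulo `13` -/
def r13 (W : ℕ → W6) : D13 := ⟨rs 13 p, (List.range 12).map (cd13 σ τ A m U),
  (List.range 12).map W,
  (List.range 12).map fun j => rwt (nat_lit 168) (Tb0 168 rows_91F13) (cd13 σ τ A m U j),
  (List.range 12).map fun j => rwt (nat_lit 1680) (Tb0 1680 rows_455F13b) (cd13 σ τ A m U j),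
  (List.range 12).map fun j => rwt (nat_lit 1680) (Tb0 1680 rows_455F13c) (cd13 σ τ A m U j)⟩

/-- the state -/
def r4 (W : ℕ → W6) (S : St) : S4 := ⟨rs 13 p, rs 7 p, rs 5 p, rs 3 p,
  (List.range 12).map (cd13 σ τ A m U), (List.range 12).map (cd7 σ τ A m U),
  (List.range 12).map (cd5 σ τ A m U), (List.range 12).map (cd3 σ τ A m U),
  (List.range 12).map W, S⟩

variable (Z : List D5) (W : ℕ → W6) (S : St)

lemma r3_q : (r3 σ τ A m U).q = rs 3 p := rfl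
lemma r3_C : (r3 σ τ A m U).C = (List.range 12).map (cd3 σ τ A m U) := rfl
lemma r5_q : (r5 σ τ A m U).q = rs 5 p := rfl
lemma r5_C : (r5 σ τ A m U).C = (List.range 12).map (cd5 σ τ A m U) := rfl
lemma r5_E : (r5 σ τ A m U).E = (List.range 12).map fun j =>
  ofe ((nat_lit 80) * cd7 σ τ A m U j + (nat_lit 8) * cd5 σ τ A m U j) := rfl
lemma r7_q : (r7 σ τ A m U Z).q = rs 7 p := rfl
lemma r7_C : (r7 σ τ A m U Z).C = (List.range 12).map (cd7 σ τ A m U) := rfl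
lemma r7_E : (r7 σ τ A m U Z).E = (List.range 12).map fun j =>
  ofe ((nat_lit 8) * cd7 σ τ A m U j) := rfl
lemma r7_L : (r7 σ τ A m U Z).L = Z := rfl
lemma r13_q : (r13 σ τ A m U W).q = rs 13 p := rfl
lemma r13_C : (r13 σ τ A m U W).C = (List.range 12).map (cd13 σ τ A m U) := rfl
lemma r13_W : (r13 σ τ A m U W).W = (List.range 12).map W := rfl
lemma r13_R1 : (r13 σ τ A m U W).R1 = (List.range 12).map fun j =>
  rwt (nat_lit 168) (Tb0 168 rows_91F13) (cd13 σ τ A m U j) := rfl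
lemma r13_R2 : (r13 σ τ A m U W).R2 = (List.range 12).map fun j =>
  rwt (nat_lit 1680) (Tb0 1680 rows_455F13b) (cd13 σ τ A m U j) := rfl
lemma r13_R3 : (r13 σ τ A m U W).R3 = (List.range 12).map fun j =>
  rwt (nat_lit 1680) (Tb0 1680 rows_455F13c) (cd13 σ τ A m U j) := rfl
lemma r4_q13 : (r4 σ τ A m U W S).q13 = rs 13 p := rfl
lemma r4_q7 : (r4 σ τ A m U W S).q7 = rs 7 p := rfl
lemma r4_q5 : (r4 σ τ A m U W S).q5 = rs 5 p := rfl
lemma r4_q3 : (r4 σ τ A m U W S).q3 = rs 3 p := rfl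
lemma r4_C13 : (r4 σ τ A m U W S).C13 = (List.range 12).map (cd13 σ τ A m U) := rfl
lemma r4_C7 : (r4 σ τ A m U W S).C7 = (List.range 12).map (cd7 σ τ A m U) := rfl
lemma r4_C5 : (r4 σ τ A m U W S).C5 = (List.range 12).map (cd5 σ τ A m U) := rfl
lemma r4_C3 : (r4 σ τ A m U W S).C3 = (List.range 12).map (cd3 σ τ A m U) := rfl
lemma r4_W : (r4 σ τ A m U W S).W = (List.range 12).map W := rfl
lemma r4_S : (r4 σ τ A m U W S).S = S := rfl

end Recs

/-- correct states, abbreviation -/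
abbrev Oc (ℓ A m : ℕ) (S : St) : Prop := Ok ℓ S ((A / 12 : ℕ) : ZMod ℓ) ((m / 12 : ℕ) : ZMod ℓ)

/-- correct weights of length `12` -/
abbrev W12 (σ τ A m : ℕ) {p : ℤ} (U : Un p) (W : ℕ → W6) : Prop :=
  WOk 13 σ τ U.u13 A m (A % 12) (m % 12) 12 (A / 12) (m / 12) W

lemma oc0 (ℓ A m : ℕ) : Oc ℓ A m S0 := by
  refine ⟨?_, ?_, ?_, Nat.zero_le _, Nat.zero_le _, Nat.zero_le _⟩ <;> simp [S0]

lemma rws_map (Y : Sts) (w : ℕ) (T : Tb) (L : ℕ) (f : ℕ → ℕ) (k : List W6 → Bool) :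
    rws w T ((List.range L).map f) k = k ((List.range L).map fun j => rwt w T (f j)) := by
  rw [rws_eq Y, List.map_map]
  rfl

lemma of1_map (Y : Sts) (K L : ℕ) (f : ℕ → ℕ) (k : List E3 → Bool) :
    of1 K ((List.range L).map f) k = k ((List.range L).map fun j => ofe (K * f j)) := by
  rw [Y.ro.1 Bool, List.map_map]
  rfl

lemma of2_map (Y : Sts) (K1 K2 L : ℕ) (f g : ℕ → ℕ) (k : List E3 → Bool) :
    of2 K1 K2 ((List.range L).map f) ((List.range L).map g) k =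
      k ((List.range L).map fun j => ofe (K1 * f j + K2 * g j)) :=
  Y.ro.2.1 Bool ℕ K1 K2 f g (List.range L) k

section StepsA

variable (Y : Sts) (X : Cx σ τ p A m) (U : Un p) {W : ℕ → W6} (hW : W12 σ τ A m U W)
include Y X hW

lemma a7_spec {L3 : List D3} {Z : List D5} {K : S4 → Bool}
    (h : a7 TT0 σ (A % 12) (m % 12) L3 (r13 σ τ A m U W) K (r7 σ τ A m U Z) = true) :
    ∃ S, Oc 13 A m S ∧ ∀ z ∈ Z, a5 TT0 σ (A % 12) (m % 12) L3 (r13 σ τ A m U W)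
      (r7 σ τ A m U Z) K S z = true := by
  obtain ⟨S, hS, e⟩ := rel_91F13 Y X U (lf12 A m) hW (oc0 13 A m)
  unfold a7 ts at h
  simp only [r13_q, r13_W, r13_R1, r7_q, r7_E, r7_L] at h
  rw [e] at h
  exact ⟨S, hS, allL_spec h⟩

lemma a5_spec {L3 : List D3} {Z : List D5} {K : S4 → Bool} {S : St} (hS : Oc 13 A m S)
    (h : a5 TT0 σ (A % 12) (m % 12) L3 (r13 σ τ A m U W) (r7 σ τ A m U Z) K S
      (r5 σ τ A m U) = true) :
    ∃ S, Oc 13 A m S ∧ a5b TT0 σ (A % 12) (m % 12) L3 (r13 σ τ A m U W)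
      (r7 σ τ A m U Z) (r5 σ τ A m U) K S = true := by
  obtain ⟨S, hS, e⟩ := rel_455F13b Y X U (lf12 A m) hW hS
  unfold a5 ts at h
  simp only [r13_q, r13_W, r13_R2, r7_q, r5_q, r5_E] at h
  rw [e] at h
  exact ⟨S, hS, h⟩

lemma a5b_spec {L3 : List D3} {Z : List D5} {K : S4 → Bool} {S : St} (hS : Oc 13 A m S)
    (h : a5b TT0 σ (A % 12) (m % 12) L3 (r13 σ τ A m U W) (r7 σ τ A m U Z)
      (r5 σ τ A m U) K S = true) :
    ∃ S, Oc 13 A m S ∧ a5c TT0 σ (A % 12) (m % 12) L3 (r13 σ τ A m U W)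
      (r7 σ τ A m U Z) (r5 σ τ A m U) K S = true := by
  obtain ⟨S, hS, e⟩ := rel_455F13c Y X U (lf12 A m) hW hS
  unfold a5b ts at h
  simp only [r13_q, r13_W, r13_R3, r7_q, r5_q, r5_E] at h
  rw [e] at h
  exact ⟨S, hS, h⟩

lemma a5c_spec {L3 : List D3} {Z : List D5} {K : S4 → Bool} {S : St} (hS : Oc 13 A m S)
    (h : a5c TT0 σ (A % 12) (m % 12) L3 (r13 σ τ A m U W) (r7 σ τ A m U Z)
      (r5 σ τ A m U) K S = true) :
    ∃ S, Oc 13 A m S ∧ a5d TT0 σ (A % 12) (m % 12) L3 (r13 σ τ A m U W)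
      (r7 σ τ A m U Z) (r5 σ τ A m U) K S = true := by
  obtain ⟨S, hS, e⟩ := rel_455F13a Y X U (lf12 A m) hW hS
  unfold a5c ts at h
  rw [r13_C, rws_map Y] at h
  simp only [r13_q, r13_W, r7_q, r5_q, r5_E, TT0_t455a] at h
  rw [e] at h
  exact ⟨S, hS, h⟩

lemma a5d_spec {L3 : List D3} {Z : List D5} {K : S4 → Bool} {S : St} (hS : Oc 13 A m S)
    (h : a5d TT0 σ (A % 12) (m % 12) L3 (r13 σ τ A m U W) (r7 σ τ A m U Z)
      (r5 σ τ A m U) K S = true) :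
    ∃ S, Oc 13 A m S ∧ ∀ w ∈ L3, a3 TT0 σ (A % 12) (m % 12) (r13 σ τ A m U W)
      (r7 σ τ A m U Z) (r5 σ τ A m U) S K w = true := by
  obtain ⟨S, hS, e⟩ := rel_455F13d Y X U (lf12 A m) hW hS
  unfold a5d ts at h
  rw [r13_C, rws_map Y] at h
  simp only [r13_q, r13_W, r7_q, r5_q, r5_E, TT0_t455d] at h
  rw [e] at h
  exact ⟨S, hS, allL_spec h⟩

end StepsA

end Pool.Agent.OEG.E2
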