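import Pool.Agent.OEG.E2X

/-!
Project OEG, EL2: the specification of the tree, stages `13, 7, 5, 3`, second part.
-/

set_option autoImplicit false

namespace Pool.Agent.OEG.E2

open Pool.Agent.LibH4 Pool.Agent.LibH4.Ker
open Pool.Agent.Lib_helper5 Pool.Agent.Lib_helper5.LK Pool.Agent.Lib_helper5.TB
open Pool.Agent.LibH4.S7 (Rl)
open Pool.Agent.PSX.K Pool.Agent.PSX.EL
open Pool.Agent.PSX.Ev (OSys)

variable {σ τ : ℕ} {p : ℤ} {A m : ℕ}

section StepsA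

variable (Y : Sts) (X : Cx σ τ p A m) (U : Un p) {W : ℕ → W6} (hW : W12 σ τ A m U W)
include Y X hW

lemma a3_spec {Z : List D5} {K : S4 → Bool} {S : St} (hS : Oc 13 A m S)
    (h : a3 TT0 σ (A % 12) (m % 12) (r13 σ τ A m U W) (r7 σ τ A m U Z) (r5 σ τ A m U) S K
      (r3 σ τ A m U) = true) :
    ghs σ (A % 12) (m % 12) (rs 13 p) (rs 7 p) (rs 5 p) (rs 3 p) = true ∨
    ∃ S, Oc 13 A m S ∧ a3b TT0 (r13 σ τ A m U W) (r7 σ τ A m U Z) (r5 σ τ A m U) K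
      (r3 σ τ A m U) S = true := by
  unfold a3 ts at h
  cases hg : ghs σ (A % 12) (m % 12) (rs 13 p) (rs 7 p) (rs 5 p) (rs 3 p) with
  | true => exact Or.inl rfl
  | false =>
    right
    rw [r13_q, r7_q, r5_q, r3_q, hg] at h
    obtain ⟨S, hS, e⟩ := rel_105N13 Y X U (lf12 A m) hW hS
    simp only [r7_C, r5_C, r3_C] at h
    rw [rws_map Y, of2_map Y] at h
    simp only [r13_W, TT0_t105] at h
    rw [e] at h
    exact ⟨S, hS, h⟩

lemma a3b_spec {Z : List D5} {K : S4 → Bool} {S : St} (hS : Oc 13 A m S)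
    (h : a3b TT0 (r13 σ τ A m U W) (r7 σ τ A m U Z) (r5 σ τ A m U) K
      (r3 σ τ A m U) S = true) :
    ∃ S, Oc 13 A m S ∧ K (r4 σ τ A m U W S) = true := by
  unfold a3b ts at h
  obtain ⟨S, hS, e⟩ := rel_273F13 Y X U (lf12 A m) hW hS
  simp only [r13_C, r7_C, r5_C, r3_C, r13_q, r7_q, r5_q, r3_q, r13_W] at h
  rw [rws_map Y, of2_map Y] at h
  simp only [TT0_t273] at h
  rw [e] at h
  exact ⟨S, hS, h⟩

end StepsA

lemma pow_mod_of {n o : ℕ} {u : (ZMod n)ˣ} (L : ℕ) (h : u ^ o = 1) (hd : o ∣ L) (A : ℕ) :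
    u ^ (A % L) = u ^ A := by
  conv_rhs => rw [← Nat.mod_add_div A L]
  rw [pow_add, pow_mul, pow_dvd1 h hd, one_pow, mul_one]

section Cls

variable (Y : Sts) (X : Cx σ τ p A m) (U : Un p)
include Y X

/-- codes of the class modulo `13` -/
lemma cl13_eq (L : ℕ) (hL : 12 ∣ L) (no : Bool) (k : List ℕ → Bool) :
    cl (nat_lit 13) (nat_lit 11) PT13 (nat_lit 12) σ τ (A % L) (m % L) (rs 13 p) no k =
      k ((List.range 12).map (cd13 σ τ A m U)) :=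
  cl_eq (n := 13) (ex := 11) (L := 12) (by norm_num) U.h13 (Y.per.1 U.u13).2
    (pow_mod_of L (Y.per.1 U.u13).1 hL A) (pow_mod_of L (Y.per.1 U.u13).1 hL m)
    (X.Sy.inr 13 (by norm_num) (by norm_num) (by norm_num)) no k

/-- the codes are periodic -/
lemma cd13_per (j : ℕ) : cd13 σ τ A m U (j + 12) = cd13 σ τ A m U j :=
  cdn_per (Y.per.1 U.u13).1 _ _ _ _ _ _ _

/-- codes of the class modulo `7` -/
lemma cl7_eq (L : ℕ) (hL : 6 ∣ L) (no : Bool) (k : List ℕ → Bool) :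
    cl (nat_lit 7) (nat_lit 5) PT7 (nat_lit 6) σ τ (A % L) (m % L) (rs 7 p) no k =
      k ((List.range 6).map (cd7 σ τ A m U)) :=
  cl_eq (n := 7) (ex := 5) (L := 6) (by norm_num) U.h7 (Y.per.2.1 U.u7).2
    (pow_mod_of L (Y.per.2.1 U.u7).1 hL A) (pow_mod_of L (Y.per.2.1 U.u7).1 hL m)
    (X.Sy.inr 7 (by norm_num) (by norm_num) (by norm_num)) no k

/-- the codes are periodic -/
lemma cd7_per (j : ℕ) : cd7 σ τ A m U (j + 6) = cd7 σ τ A m U j :=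
  cdn_per (Y.per.2.1 U.u7).1 _ _ _ _ _ _ _

/-- codes of the class modulo `5` -/
lemma cl5_eq (L : ℕ) (hL : 4 ∣ L) (no : Bool) (k : List ℕ → Bool) :
    cl (nat_lit 5) (nat_lit 3) PT5 (nat_lit 4) σ τ (A % L) (m % L) (rs 5 p) no k =
      k ((List.range 4).map (cd5 σ τ A m U)) :=
  cl_eq (n := 5) (ex := 3) (L := 4) (by norm_num) U.h5 (Y.per.2.2.1 U.u5).2
    (pow_mod_of L (Y.per.2.2.1 U.u5).1 hL A) (pow_mod_of L (Y.per.2.2.1 U.u5).1 hL m)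
    (X.Sy.inr 5 (by norm_num) (by norm_num) (by norm_num)) no k

/-- the codes are periodic -/
lemma cd5_per (j : ℕ) : cd5 σ τ A m U (j + 4) = cd5 σ τ A m U j :=
  cdn_per (Y.per.2.2.1 U.u5).1 _ _ _ _ _ _ _

/-- codes of the class modulo `3` -/
lemma cl3_eq (L : ℕ) (hL : 2 ∣ L) (no : Bool) (k : List ℕ → Bool) :
    cl (nat_lit 3) (nat_lit 1) PT3 (nat_lit 2) σ τ (A % L) (m % L) (rs 3 p) no k =
      k ((List.range 2).map (cd3 σ τ A m U)) :=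
  cl_eq (n := 3) (ex := 1) (L := 2) (by norm_num) U.h3 (Y.per.2.2.2.1 U.u3).2
    (pow_mod_of L (Y.per.2.2.2.1 U.u3).1 hL A) (pow_mod_of L (Y.per.2.2.2.1 U.u3).1 hL m)
    (X.Sy.inr 3 (by norm_num) (by norm_num) (by norm_num)) no k

/-- the codes are periodic -/
lemma cd3_per (j : ℕ) : cd3 σ τ A m U (j + 2) = cd3 σ τ A m U j :=
  cdn_per (Y.per.2.2.2.1 U.u3).1 _ _ _ _ _ _ _

/-- codes of the class modulo `19` -/
lemma cl19_eq (L : ℕ) (hL : 18 ∣ L) (no : Bool) (k : List ℕ → Bool) :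
    cl (nat_lit 19) (nat_lit 17) PT19 (nat_lit 18) σ τ (A % L) (m % L) (rs 19 p) no k =
      k ((List.range 18).map (cd19 σ τ A m U)) :=
  cl_eq (n := 19) (ex := 17) (L := 18) (by norm_num) U.h19 (Y.per.2.2.2.2.1 U.u19).2
    (pow_mod_of L (Y.per.2.2.2.2.1 U.u19).1 hL A) (pow_mod_of L (Y.per.2.2.2.2.1 U.u19).1 hL m)
    (X.Sy.inr 19 (by norm_num) (by norm_num) (by norm_num)) no k

/-- the codes are periodic -/
lemma cd19_per (j : ℕ) : cd19 σ τ A m U (j + 18) = cd19 σ τ A m U j :=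
  cdn_per (Y.per.2.2.2.2.1 U.u19).1 _ _ _ _ _ _ _

/-- codes of the class modulo `17` -/
lemma cl17_eq (L : ℕ) (hL : 16 ∣ L) (no : Bool) (k : List ℕ → Bool) :
    cl (nat_lit 17) (nat_lit 15) PT17 (nat_lit 16) σ τ (A % L) (m % L) (rs 17 p) no k =
      k ((List.range 16).map (cd17 σ τ A m U)) :=
  cl_eq (n := 17) (ex := 15) (L := 16) (by norm_num) U.h17 (Y.per.2.2.2.2.2.1 U.u17).2
    (pow_mod_of L (Y.per.2.2.2.2.2.1 U.u17).1 hL A) (pow_mod_of L (Y.per.2.2.2.2.2.1 U.u17).1 hL m)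
    (X.Sy.inr 17 (by norm_num) (by norm_num) (by norm_num)) no k

/-- the codes are periodic -/
lemma cd17_per (j : ℕ) : cd17 σ τ A m U (j + 16) = cd17 σ τ A m U j :=
  cdn_per (Y.per.2.2.2.2.2.1 U.u17).1 _ _ _ _ _ _ _


/-- codes of the class modulo `8` -/
lemma cl8'_eq (no : Bool) (k : List ℕ → Bool) :
    cl8 (nat_lit 1) PT8 (nat_lit 2) σ τ (A % 12) (m % 12) (rs 8 p) no k =
      k ((List.range 2).map (cd8 σ τ A m U)) :=
  cl8_eq (ex := 1) (L := 2) U.h8 (Y.per.2.2.2.2.2.2.1 U.u8).2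
    (pow_mod_of 12 (Y.per.2.2.2.2.2.2.1 U.u8).1 (by norm_num) A)
    (pow_mod_of 12 (Y.per.2.2.2.2.2.2.1 U.u8).1 (by norm_num) m) X.Sy.D8 no k

/-- the codes are periodic -/
lemma cd8_per (j : ℕ) : cd8 σ τ A m U (j + 2) = cd8 σ τ A m U j :=
  cdn_per (Y.per.2.2.2.2.2.2.1 U.u8).1 _ _ _ _ _ _ _

/-- codes of the class modulo `4` -/
lemma cl4'_eq (k : List ℕ → Bool) :
    cl4 (nat_lit 1) PT4 (nat_lit 2) σ τ (A % 12) (m % 12) (rs 4 p) k =
      k ((List.range 2).map (cd4 σ τ A m U)) :=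
  cl4_eq (ex := 1) (L := 2) U.h4 (Y.per.2.2.2.2.2.2.2.1 U.u4).2
    (pow_mod_of 12 (Y.per.2.2.2.2.2.2.2.1 U.u4).1 (by norm_num) A)
    (pow_mod_of 12 (Y.per.2.2.2.2.2.2.2.1 U.u4).1 (by norm_num) m) k

/-- the codes are periodic -/
lemma cd4_per (j : ℕ) : cd4 σ τ A m U (j + 2) = cd4 σ τ A m U j :=
  cdn_per (Y.per.2.2.2.2.2.2.2.1 U.u4).1 _ _ _ _ _ _ _

lemma f3_eq (k : D3 → Bool) :
    f3 (rs 3 p) ((List.range 2).map (cd3 σ τ A m U)) k = k (r3 σ τ A m U) := by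
  unfold f3
  rw [six_per (cd3_per Y X U) _ Y]
  rfl

lemma f5_eq (k : D5 → Bool) :
    f5 ((List.range 12).map (cd7 σ τ A m U)) (rs 5 p) ((List.range 4).map (cd5 σ τ A m U)) k =
      k (r5 σ τ A m U) := by
  unfold f5
  rw [tri3_per (cd5_per Y X U) _ Y]
  have e : (List.range (4 + 4 + 4)).map (cd5 σ τ A m U) = (List.range 12).map (cd5 σ τ A m U) := rfl
  rw [e, of2_map Y]
  rfl

lemma f7_eq : ∃ Z, r5 σ τ A m U ∈ Z ∧ ∀ k : D7 → Bool,
    f7 σ τ (A % 12) (m % 12) (rs 7 p) ((List.range 6).map (cd7 σ τ A m U)) k =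
      k (r7 σ τ A m U Z) := by
  obtain ⟨Z, hZ, hm⟩ := clL_eq (n := nat_lit 5) (ex := nat_lit 3) (PT := PT5) (L := nat_lit 4)
    (σ := σ) (τ := τ) (A0 := A % 12) (m0 := m % 12)
    (f5_ex Y ((List.range 12).map (cd7 σ τ A m U))) Q5
  refine ⟨Z, hm (rs 5 p) ?_ _ _ (cl5_eq Y X U 12 (by norm_num)) (f5_eq Y X U), ?_⟩
  · have h1 := rs_lt (p := 5) p
    have h2 := rs_mem (by norm_num) U.h5
    interval_cases h : rs 5 p
    · exact absurd rfl h2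
    all_goals simp [Q5]
  · intro k
    unfold f7
    rw [dup_per (cd7_per Y X U) _ Y]
    have e : (List.range (6 + 6)).map (cd7 σ τ A m U) = (List.range 12).map (cd7 σ τ A m U) := rfl
    rw [e, of1_map Y, hZ]
    rfl

lemma f13_eq {W : ℕ → W6} (hW : ∀ k : List W6 → Bool, wl (nat_lit 13) (nat_lit 12) σ τ (A % 12)
    (m % 12) (rs 13 p) k = k ((List.range 12).map W)) (k : D13 → Bool) :
    f13 TT0.t91 TT0.t455b TT0.t455c σ τ (A % 12) (m % 12) (rs 13 p)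
      ((List.range 12).map (cd13 σ τ A m U)) k = k (r13 σ τ A m U W) := by
  unfold f13
  rw [hW, rws_map Y, rws_map Y, rws_map Y]
  rfl

/-- **stages `13, 7, 5, 3`** -/
theorem stA_spec {K : S4 → Bool} (h : stA TT0 σ τ (A % 12) (m % 12) K = true) :
    ghs σ (A % 12) (m % 12) (rs 13 p) (rs 7 p) (rs 5 p) (rs 3 p) = true ∨
    ∃ W S, W12 σ τ A m U W ∧ Oc 13 A m S ∧ K (r4 σ τ A m U W S) = true := by
  obtain ⟨W, w1, hW⟩ := Y.wt 13 12 σ τ (A % 12) (m % 12) A m (A / 12) (m / 12) p U.u13 (by norm_num)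
    (Nat.mod_lt _ (by norm_num)) (Nat.mod_lt _ (by norm_num)) (Nat.mod_add_div A 12).symm
    (Nat.mod_add_div m 12).symm U.h13 (Y.per.1 U.u13).1
  unfold stA at h
  obtain ⟨Z3, e3, m3⟩ := clL_eq (n := nat_lit 3) (ex := nat_lit 1) (PT := PT3) (L := nat_lit 2)
    (σ := σ) (τ := τ) (A0 := A % 12) (m0 := m % 12) (f3_ex Y) Q3
  obtain ⟨Z7, e7, m7⟩ := clL_eq (n := nat_lit 7) (ex := nat_lit 5) (PT := PT7) (L := nat_lit 6)
    (σ := σ) (τ := τ) (A0 := A % 12) (m0 := m % 12) (f7_ex Y σ τ (A % 12) (m % 12)) Q7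
  obtain ⟨Z13, e13, m13⟩ := clL_eq (n := nat_lit 13) (ex := nat_lit 11) (PT := PT13)
    (L := nat_lit 12) (σ := σ) (τ := τ) (A0 := A % 12) (m0 := m % 12)
    (f13_ex Y TT0.t91 TT0.t455b TT0.t455c σ τ (A % 12) (m % 12)) Q13
  rw [e3, e7, e13] at h
  have i3 : r3 σ τ A m U ∈ Z3 := by
    refine m3 (rs 3 p) ?_ _ _ (cl3_eq Y X U 12 (by norm_num)) (f3_eq Y X U)
    have h1 := rs_lt (p := 3) p
    have h2 := rs_mem (by norm_num) U.h3
    interval_cases h : rs 3 p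
    · exact absurd rfl h2
    all_goals simp [Q3]
  obtain ⟨Z, hZ, f7e⟩ := f7_eq Y X U
  have i7 : r7 σ τ A m U Z ∈ Z7 := by
    refine m7 (rs 7 p) ?_ _ _ (cl7_eq Y X U 12 (by norm_num)) f7e
    have h1 := rs_lt (p := 7) p
    have h2 := rs_mem (by norm_num) U.h7
    interval_cases h : rs 7 p
    · exact absurd rfl h2
    all_goals simp [Q7]
  have i13 : r13 σ τ A m U W ∈ Z13 := by
    refine m13 (rs 13 p) ?_ _ _ (cl13_eq Y X U 12 (by norm_num)) (f13_eq Y X U (w1 Bool))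
    have h1 := rs_lt (p := 13) p
    have h2 := rs_mem (by norm_num) U.h13
    interval_cases h : rs 13 p
    · exact absurd rfl h2
    all_goals simp [Q13]
  have h1 := allL_spec h _ i13
  unfold a13 at h1
  have h2 := allL_spec h1 _ i7
  obtain ⟨S, hS, h3⟩ := a7_spec Y X U hW h2
  obtain ⟨S, hS, h4⟩ := a5_spec Y X U hW hS (h3 _ hZ)
  obtain ⟨S, hS, h5⟩ := a5b_spec Y X U hW hS h4
  obtain ⟨S, hS, h6⟩ := a5c_spec Y X U hW hS h5
  obtain ⟨S, hS, h7⟩ := a5d_spec Y X U hW hS h6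
  rcases a3_spec Y X U hW hS (h7 _ i3) with h8 | ⟨S, hS, h8⟩
  · exact Or.inl h8
  · obtain ⟨S, hS, h9⟩ := a3b_spec Y X U hW hS h8
    exact Or.inr ⟨W, S, hW, hS, h9⟩

end Cls

end Pool.Agent.OEG.E2
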