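import Pool.Agent.OEG.E2Y

/-!
Project OEG, EL2: the specification of the tree, stages `19, 8, 17`, and the tree.
-/

set_option autoImplicit false

namespace Pool.Agent.OEG.E2

open Pool.Agent.LibH4 Pool.Agent.LibH4.Ker
open Pool.Agent.Lib_helper5 Pool.Agent.Lib_helper5.LK Pool.Agent.Lib_helper5.TB
open Pool.Agent.LibH4.S7 (Rl)
open Pool.Agent.PSX.K Pool.Agent.PSX.EL
open Pool.Agent.PSX.Ev (OSys)

variable {σ τ : ℕ} {p : ℤ} {A m : ℕ}

/-- lift to `36` -/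
lemma lf36 (A m : ℕ) : Lf A m 36 (A % 36) (m % 36) (A / 36) (m / 36) (A / 12 % 3) (m / 12 % 3)
    (nat_lit 3) where
  hA := Nat.mod_lt _ (by norm_num)
  hm := Nat.mod_lt _ (by norm_num)
  eA := (Nat.mod_add_div A 36).symm
  em := (Nat.mod_add_div m 36).symm
  ea := by
    change A / 12 % 3 + 3 * (A / 36) = A / 12
    omega
  eb := by
    change m / 12 % 3 + 3 * (m / 36) = m / 12
    omega
  ha := by omega
  hb := by omega

/-- lift to `48` -/
lemma lf48 (A m : ℕ) : Lf A m 48 (A % 48) (m % 48) (A / 48) (m / 48) (A / 12 % 4) (m / 12 % 4)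
    (nat_lit 4) where
  hA := Nat.mod_lt _ (by norm_num)
  hm := Nat.mod_lt _ (by norm_num)
  eA := (Nat.mod_add_div A 48).symm
  em := (Nat.mod_add_div m 48).symm
  ea := by
    change A / 12 % 4 + 4 * (A / 48) = A / 12
    omega
  eb := by
    change m / 12 % 4 + 4 * (m / 48) = m / 12
    omega
  ha := by omega
  hb := by omega

lemma ad36 (A : ℕ) : Nat.add (A % 12) (Nat.mul (nat_lit 12) (A / 12 % 3)) = A % 36 := by
  change A % 12 + 12 * (A / 12 % 3) = A % 36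
  omega

lemma ad48 (A : ℕ) : Nat.add (A % 12) (Nat.mul (nat_lit 12) (A / 12 % 4)) = A % 48 := by
  change A % 12 + 12 * (A / 12 % 4) = A % 48
  omega

section StageB

variable (Y : Sts) (X : Cx σ τ p A m) (U : Un p)
include Y X

/-- the state after stage `19` -/
def s5 (σ τ A m : ℕ) {p : ℤ} (U : Un p) (S Z : St) (W : ℕ → W6) : S5 :=
  ⟨A / 12 % 3, m / 12 % 3, A % 36, m % 36, rs 19 p, (List.range 36).map (cd19 σ τ A m U), S, Z,
    (List.range 36).map W⟩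

lemma b19c_spec {x : S4} (hx : x.q5 = rs 5 p) {K : S5 → Bool} {S : St}
    (h : b19c TT0 σ τ (A % 36) (m % 36) (A / 12 % 3) (m / 12 % 3) x
      ((List.range 36).map fun j => ofe ((nat_lit 8) * cd5 σ τ A m U j)) K (rs 19 p)
      ((List.range 36).map (cd19 σ τ A m U)) S = true) :
    ∃ Z W, Oc 19 A m Z ∧ WOk 19 σ τ U.u19 A m (A % 36) (m % 36) 36 (A / 36) (m / 36) W ∧
      K (s5 σ τ A m U S Z W) = true := by
  obtain ⟨W, w1, hW⟩ := Y.wt 19 36 σ τ (A % 36) (m % 36) A m (A / 36) (m / 36) p U.u19 (by norm_num)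
    (Nat.mod_lt _ (by norm_num)) (Nat.mod_lt _ (by norm_num)) (Nat.mod_add_div A 36).symm
    (Nat.mod_add_div m 36).symm U.h19 (pow_dvd1 (Y.per.2.2.2.2.1 U.u19).1 (by norm_num))
  obtain ⟨Z, hZ, e⟩ := rel_95F19 Y X U (lf36 A m) hW (oc0 19 A m)
  unfold b19c at h
  rw [rws_map Y, w1 Bool, hx] at h
  simp only [TT0_t95F] at h
  rw [e] at h
  exact ⟨Z, W, hZ, hW, h⟩

lemma b19b_spec {x : S4} (hx : x.q5 = rs 5 p) {K : S5 → Bool} {S : St} (hS : Oc 13 A m S)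
    {W : ℕ → W6} (hW : WOk 13 σ τ U.u13 A m (A % 36) (m % 36) 36 (A / 36) (m / 36) W)
    (h : b19b TT0 σ τ (A % 36) (m % 36) (A / 12 % 3) (m / 12 % 3) x ((List.range 36).map W)
      ((List.range 36).map fun j => ofe ((nat_lit 8) * cd5 σ τ A m U j)) K (rs 19 p)
      ((List.range 18).map (cd19 σ τ A m U)) S = true) :
    ∃ S, Oc 13 A m S ∧ b19c TT0 σ τ (A % 36) (m % 36) (A / 12 % 3) (m / 12 % 3) x
      ((List.range 36).map fun j => ofe ((nat_lit 8) * cd5 σ τ A m U j)) K (rs 19 p)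
      ((List.range 36).map (cd19 σ τ A m U)) S = true := by
  obtain ⟨S, hS, e⟩ := rel_95N13 Y X U (lf36 A m) hW hS
  unfold b19b at h
  rw [dup_per (cd19_per Y X U) _ Y] at h
  have e2 : (List.range (18 + 18)).map (cd19 σ τ A m U) =
    (List.range 36).map (cd19 σ τ A m U) := rfl
  rw [e2, rws_map Y, hx] at h
  simp only [TT0_t95N] at h
  rw [e] at h
  exact ⟨S, hS, h⟩

lemma b19_spec {x : S4} (hx : x.q5 = rs 5 p) (hx7 : x.q7 = rs 7 p) (hS : Oc 13 A m x.S)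
    {K : S5 → Bool} {W : ℕ → W6}
    (hW : WOk 13 σ τ U.u13 A m (A % 36) (m % 36) 36 (A / 36) (m / 36) W)
    (h : b19 TT0 σ τ (A % 36) (m % 36) (A / 12 % 3) (m / 12 % 3) x ((List.range 36).map W)
      ((List.range 36).map fun j => ofe ((nat_lit 8) * cd7 σ τ A m U j))
      ((List.range 36).map fun j => ofe ((nat_lit 8) * cd5 σ τ A m U j)) K (rs 19 p) = true) :
    ∃ S, Oc 13 A m S ∧ b19b TT0 σ τ (A % 36) (m % 36) (A / 12 % 3) (m / 12 % 3) x
      ((List.range 36).map W)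
      ((List.range 36).map fun j => ofe ((nat_lit 8) * cd5 σ τ A m U j)) K (rs 19 p)
      ((List.range 18).map (cd19 σ τ A m U)) S = true := by
  obtain ⟨S, hS, e⟩ := rel_133N13 Y X U (lf36 A m) hW hS
  unfold b19 at h
  rw [cl19_eq Y X U 36 (by norm_num), rws_map Y, dup_per (fun j => by
    rw [cd19_per Y X U]) _ Y] at h
  have e2 : (List.range (18 + 18)).map (fun j => rwt (nat_lit 168) TT0.t133
    (cd19 σ τ A m U j)) = (List.range 36).map fun j => rwt (nat_lit 168) TT0.t133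
    (cd19 σ τ A m U j) := rfl
  rw [e2, hx7] at h
  simp only [TT0_t133] at h
  rw [e] at h
  exact ⟨S, hS, h⟩

lemma b1_spec {x : S4} (hx : x.q5 = rs 5 p) (hx7 : x.q7 = rs 7 p) (hx13 : x.q13 = rs 13 p)
    (hS : Oc 13 A m x.S) {K : S5 → Bool}
    (h : b1 TT0 σ τ (A % 12) (m % 12) x
      ((List.range 36).map fun j => ofe ((nat_lit 8) * cd7 σ τ A m U j))
      ((List.range 36).map fun j => ofe ((nat_lit 8) * cd5 σ τ A m U j)) K
      (A / 12 % 3) (m / 12 % 3) = true) :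
    ∃ S Z W, Oc 13 A m S ∧ Oc 19 A m Z ∧
      WOk 19 σ τ U.u19 A m (A % 36) (m % 36) 36 (A / 36) (m / 36) W ∧
      K (s5 σ τ A m U S Z W) = true := by
  obtain ⟨W, w1, hW⟩ := Y.wt 13 36 σ τ (A % 36) (m % 36) A m (A / 36) (m / 36) p U.u13 (by norm_num)
    (Nat.mod_lt _ (by norm_num)) (Nat.mod_lt _ (by norm_num)) (Nat.mod_add_div A 36).symm
    (Nat.mod_add_div m 36).symm U.h13 (pow_dvd1 (Y.per.1 U.u13).1 (by norm_num))
  unfold b1 at h
  rw [strict_eq, strict_eq, ad36, ad36, hx13, w1 Bool] at h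
  have h1 := allL_spec h (rs 19 p) (by
    have h1 := rs_lt (p := 19) p
    have h2 := rs_mem (by norm_num) U.h19
    interval_cases h : rs 19 p
    · exact absurd rfl h2
    all_goals simp [Q19])
  obtain ⟨S, hS, h2⟩ := b19_spec Y X U hx hx7 hS hW h1
  obtain ⟨S, hS, h3⟩ := b19b_spec Y X U hx hS hW h2
  obtain ⟨Z, W, hZ, hW, h4⟩ := b19c_spec Y X U hx h3
  exact ⟨S, Z, W, hS, hZ, hW, h4⟩

/-- **stage `19`** -/
theorem stB_spec {W0 : ℕ → W6} {S : St} (hS : Oc 13 A m S) {K : S4 → S5 → Bool}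
    (h : stB TT0 σ τ (A % 12) (m % 12) K (r4 σ τ A m U W0 S) = true) :
    ∃ S1 Z W, Oc 13 A m S1 ∧ Oc 19 A m Z ∧
      WOk 19 σ τ U.u19 A m (A % 36) (m % 36) 36 (A / 36) (m / 36) W ∧
      K (r4 σ τ A m U W0 S) (s5 σ τ A m U S1 Z W) = true := by
  unfold stB at h
  have e7 : ∀ j, cd7 σ τ A m U (j + 12) = cd7 σ τ A m U j := fun j => by
    have := per_mul (cd7_per Y X U) 2 j
    exact this
  have e5 : ∀ j, cd5 σ τ A m U (j + 12) = cd5 σ τ A m U j := fun j => by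
    have := per_mul (cd5_per Y X U) 3 j
    exact this
  rw [r4_C7, of1_map Y, tri3_per (fun j => by rw [e7]) _ Y, r4_C5, of1_map Y,
    tri3_per (fun j => by rw [e5]) _ Y] at h
  have h1 := allL_spec (allL_spec h (A / 12 % 3) (by
    have h1 := Nat.mod_lt (A / 12) (show 0 < 3 by norm_num)
    interval_cases h : A / 12 % 3
    all_goals simp [L012])) (m / 12 % 3) (by
    have h1 := Nat.mod_lt (m / 12) (show 0 < 3 by norm_num)
    interval_cases h : m / 12 % 3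
    all_goals simp [L012])
  exact b1_spec Y X U (x := r4 σ τ A m U W0 S) rfl rfl rfl hS h1

end StageB

section StageC

variable (Y : Sts) (X : Cx σ τ p A m) (U : Un p)
include Y X

lemma c8c_spec {S Z : St} {W : ℕ → W6} (hZ : Oc 19 A m Z)
    (hW : WOk 19 σ τ U.u19 A m (A % 36) (m % 36) 36 (A / 36) (m / 36) W)
    {K : St → Bool} {S1 : St}
    (h : c8c TT0 (s5 σ τ A m U S Z W) K (rs 8 p) ((List.range 12).map (cd8 σ τ A m U)) S1 = true) :
    K S1 = true := by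
  obtain ⟨Z1, hZ1, e1⟩ := rel_152F19a Y X U (lf36 A m) hW hZ
  obtain ⟨Z2, hZ2, e2⟩ := rel_152F19b Y X U (lf36 A m) hW hZ1
  have e8 : ∀ j, cd8 σ τ A m U (j + 12) = cd8 σ τ A m U j := fun j => by
    have := per_mul (cd8_per Y X U) 6 j
    exact this
  unfold c8c at h
  rw [tri3_per e8 _ Y] at h
  have e3 : (List.range (12 + 12 + 12)).map (cd8 σ τ A m U) =
    (List.range 36).map (cd8 σ τ A m U) := rfl
  have f1 : (s5 σ τ A m U S Z W).C = (List.range 36).map (cd19 σ τ A m U) := rfl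
  have f2 : (s5 σ τ A m U S Z W).a = A / 12 % 3 := rfl
  have f3 : (s5 σ τ A m U S Z W).b = m / 12 % 3 := rfl
  have f4 : (s5 σ τ A m U S Z W).Z = Z := rfl
  have f5 : (s5 σ τ A m U S Z W).W = (List.range 36).map W := rfl
  have f6 : (s5 σ τ A m U S Z W).q = rs 19 p := rfl
  rw [e3, of1_map Y] at h
  simp only [f1, f2, f3, f4, f5, f6, TT0_t152a, TT0_t152b] at h
  rw [rws_map Y, e1, rws_map Y, e2] at h
  exact h

lemma c8b_spec {W0 : ℕ → W6} (hW0 : W12 σ τ A m U W0) {S0 S Z S1 : St} {W : ℕ → W6}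
    (hS1 : Oc 13 A m S1) {K : St → Bool}
    (h : c8b TT0 σ τ (A % 12) (m % 12) (r4 σ τ A m U W0 S0) (s5 σ τ A m U S Z W) K (rs 8 p)
      ((List.range 12).map (cd8 σ τ A m U)) S1 = true) :
    ∃ S2, Oc 13 A m S2 ∧ c8c TT0 (s5 σ τ A m U S Z W) K (rs 8 p)
      ((List.range 12).map (cd8 σ τ A m U)) S2 = true := by
  obtain ⟨S2, hS2, e⟩ := rel_260F13 Y X U (lf12 A m) hW0 hS1
  have e4 : Nat.mod (rs 8 p) (nat_lit 4) = rs 4 p := S7.rs_mod (n := 4) (N := 8) (by norm_num) p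
  unfold c8b ts at h
  rw [e4, cl4'_eq Y X U, six_per (cd4_per Y X U) _ Y] at h
  have e3 : (List.range (2 + 2 + (2 + 2) + (2 + 2))).map (cd4 σ τ A m U) =
    (List.range 12).map (cd4 σ τ A m U) := rfl
  rw [e3] at h
  simp only [r4_C13, r4_C5, r4_q13, r4_q5, r4_W, TT0_t260] at h
  rw [rws_map Y, of2_map Y, e] at h
  exact ⟨S2, hS2, h⟩

lemma c8_spec {W0 : ℕ → W6} (hW0 : W12 σ τ A m U W0) {S0 S Z : St} {W : ℕ → W6}
    (hS : Oc 13 A m S) {K : St → Bool}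
    (h : c8 TT0 σ τ (A % 12) (m % 12) (r4 σ τ A m U W0 S0) (s5 σ τ A m U S Z W) K (rs 8 p) = true) :
    ∃ S1, Oc 13 A m S1 ∧ c8b TT0 σ τ (A % 12) (m % 12) (r4 σ τ A m U W0 S0) (s5 σ τ A m U S Z W) K
      (rs 8 p) ((List.range 12).map (cd8 σ τ A m U)) S1 = true := by
  obtain ⟨S1, hS1, e⟩ := rel_312F13 Y X U (lf12 A m) hW0 hS
  unfold c8 ts at h
  rw [cl8'_eq Y X U, six_per (cd8_per Y X U) _ Y] at h
  have e3 : (List.range (2 + 2 + (2 + 2) + (2 + 2))).map (cd8 σ τ A m U) =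
    (List.range 12).map (cd8 σ τ A m U) := rfl
  have f1 : (s5 σ τ A m U S Z W).S = S := rfl
  rw [e3] at h
  simp only [r4_C13, r4_C3, r4_q13, r4_q3, r4_W, TT0_t312, f1] at h
  rw [rws_map Y, of2_map Y, e] at h
  exact ⟨S1, hS1, h⟩

/-- **stage `8`** -/
theorem stC_spec {W0 : ℕ → W6} (hW0 : W12 σ τ A m U W0) {S0 S Z : St} {W : ℕ → W6}
    (hS : Oc 13 A m S) (hZ : Oc 19 A m Z)
    (hW : WOk 19 σ τ U.u19 A m (A % 36) (m % 36) 36 (A / 36) (m / 36) W) {K : S4 → St → Bool}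
    (h : stC TT0 σ τ (A % 12) (m % 12) K (r4 σ τ A m U W0 S0) (s5 σ τ A m U S Z W) = true) :
    ∃ S1, Oc 13 A m S1 ∧ K (r4 σ τ A m U W0 S0) S1 = true := by
  unfold stC at h
  have h1 := allL_spec h (rs 8 p) (by
    have h1 := rs_lt (p := 8) p
    have h2 : ((rs 8 p : ℕ) : ZMod 8) = U.u8 := by rw [rs_cast, U.h8]
    have h3 : IsUnit ((rs 8 p : ℕ) : ZMod 8) := h2 ▸ U.u8.isUnit
    have h4 := (ZMod.isUnit_iff_coprime _ _).1 h3
    interval_cases h : rs 8 p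
    all_goals first
      | exact absurd h4 (by decide)
      | simp [Q8])
  obtain ⟨S1, hS1, h2⟩ := c8_spec Y X U hW0 hS h1
  obtain ⟨S2, hS2, h3⟩ := c8b_spec Y X U hW0 hS1 h2
  exact ⟨S2, hS2, c8c_spec Y X U hZ hW h3⟩

end StageC

section StageD

variable (Y : Sts) (X : Cx σ τ p A m) (U : Un p)
include Y X

lemma d17b_spec {x : S4} (hx3 : x.q3 = rs 3 p) (hx5 : x.q5 = rs 5 p) (hx7 : x.q7 = rs 7 p) {S : St}
    (h : d17b TT0 σ τ (A % 48) (m % 48) (A / 12 % 4) (m / 12 % 4) x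
      ((List.range 48).map fun j => ofe ((nat_lit 8) * cd7 σ τ A m U j))
      ((List.range 48).map fun j => ofe ((nat_lit 8) * cd3 σ τ A m U j)) (rs 17 p)
      ((List.range 16).map (cd17 σ τ A m U)) S = true) : False := by
  obtain ⟨W, w1, hW⟩ := Y.wt 5 48 σ τ (A % 48) (m % 48) A m (A / 48) (m / 48) p U.u5 (by norm_num)
    (Nat.mod_lt _ (by norm_num)) (Nat.mod_lt _ (by norm_num)) (Nat.mod_add_div A 48).symm
    (Nat.mod_add_div m 48).symm U.h5 (pow_dvd1 (Y.per.2.2.1 U.u5).1 (by norm_num))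
  obtain ⟨Z1, hZ1, e1⟩ := rel_119N5 Y X U (lf48 A m) hW (oc0 5 A m)
  obtain ⟨Z2, hZ2, e2⟩ := rel_51N5 Y X U (lf48 A m) hW hZ1
  unfold d17b at h
  rw [tri3_per (cd17_per Y X U) _ Y] at h
  have e3 : (List.range (16 + 16 + 16)).map (cd17 σ τ A m U) =
    (List.range 48).map (cd17 σ τ A m U) := rfl
  rw [e3, hx5, w1 Bool, hx7, hx3] at h
  simp only [TT0_t119F, TT0_t51] at h
  rw [rws_map Y, e1, rws_map Y, e2] at h
  exact absurd h (by decide)

lemma d17_spec {x : S4} (hx3 : x.q3 = rs 3 p) (hx5 : x.q5 = rs 5 p) (hx7 : x.q7 = rs 7 p) {S : St}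
    (hS : Oc 13 A m S) {W : ℕ → W6}
    (hW : WOk 13 σ τ U.u13 A m (A % 48) (m % 48) 48 (A / 48) (m / 48) W)
    (h : d17 TT0 σ τ (A % 48) (m % 48) (A / 12 % 4) (m / 12 % 4) x S ((List.range 48).map W)
      ((List.range 48).map fun j => ofe ((nat_lit 8) * cd7 σ τ A m U j))
      ((List.range 48).map fun j => ofe ((nat_lit 8) * cd3 σ τ A m U j)) (rs 17 p) = true) :
    False := by
  obtain ⟨S, hS, e⟩ := rel_119N13 Y X U (lf48 A m) hW hS
  unfold d17 at h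
  rw [cl17_eq Y X U 48 (by norm_num), rws_map Y, tri3_per (fun j => by
    rw [cd17_per Y X U]) _ Y] at h
  have e2 : (List.range (16 + 16 + 16)).map (fun j => rwt (nat_lit 168) TT0.t119N
    (cd17 σ τ A m U j)) = (List.range 48).map fun j => rwt (nat_lit 168) TT0.t119N
    (cd17 σ τ A m U j) := rfl
  rw [e2, hx7] at h
  simp only [TT0_t119N] at h
  rw [e] at h
  exact d17b_spec Y X U hx3 hx5 hx7 h

/-- **stage `17`** -/
theorem stD_spec {W0 : ℕ → W6} {S0 S : St} (hS : Oc 13 A m S)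
    (h : stD TT0 σ τ (A % 12) (m % 12) (r4 σ τ A m U W0 S0) S = true) : False := by
  unfold stD at h
  have e7 : ∀ j, cd7 σ τ A m U (j + 12) = cd7 σ τ A m U j := fun j => by
    have := per_mul (cd7_per Y X U) 2 j
    exact this
  have e3 : ∀ j, cd3 σ τ A m U (j + 12) = cd3 σ τ A m U j := fun j => by
    have := per_mul (cd3_per Y X U) 6 j
    exact this
  rw [r4_C7, of1_map Y, qua_per (fun j => by rw [e7]) _ Y, r4_C3, of1_map Y,
    qua_per (fun j => by rw [e3]) _ Y] at h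
  have h1 := allL_spec (allL_spec h (A / 12 % 4) (by
    have h1 := Nat.mod_lt (A / 12) (show 0 < 4 by norm_num)
    interval_cases h : A / 12 % 4
    all_goals simp [L0123])) (m / 12 % 4) (by
    have h1 := Nat.mod_lt (m / 12) (show 0 < 4 by norm_num)
    interval_cases h : m / 12 % 4
    all_goals simp [L0123])
  obtain ⟨W, w1, hW⟩ := Y.wt 13 48 σ τ (A % 48) (m % 48) A m (A / 48) (m / 48) p U.u13 (by norm_num)
    (Nat.mod_lt _ (by norm_num)) (Nat.mod_lt _ (by norm_num)) (Nat.mod_add_div A 48).symm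
    (Nat.mod_add_div m 48).symm U.h13 (pow_dvd1 (Y.per.1 U.u13).1 (by norm_num))
  unfold d1 at h1
  rw [strict_eq, strict_eq, ad48, ad48, r4_q13, w1 Bool] at h1
  have h2 := allL_spec h1 (rs 17 p) (by
    have h1 := rs_lt (p := 17) p
    have h2 := rs_mem (by norm_num) U.h17
    interval_cases h : rs 17 p
    · exact absurd rfl h2
    all_goals simp [Q17])
  exact d17_spec Y X U (x := r4 σ τ A m U W0 S0) rfl rfl rfl hS hW h2

include U in
/-- **the tree** -/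
theorem tree_spec (h : tree TT0 σ τ (A % 12) (m % 12) = true) :
    ghs σ (A % 12) (m % 12) (rs 13 p) (rs 7 p) (rs 5 p) (rs 3 p) = true := by
  unfold tree at h
  rcases stA_spec Y X U h with h1 | ⟨W, S, hW, hS, h1⟩
  · exact h1
  · obtain ⟨S1, Z, W1, hS1, hZ, hW1, h2⟩ := stB_spec Y X U hS h1
    obtain ⟨S2, hS2, h3⟩ := stC_spec Y X U hW hS1 hZ hW1 h2
    exact (stD_spec Y X U hS2 h3).elim

end StageD

end Pool.Agent.OEG.E2
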