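import Pool.Agent.OEG.ERel
import Pool.Agent.OEG.X665N13a
import Pool.Agent.OEG.X665N13b

/-!
Project OEG: the reduced relations of level `665 = 19 · 7 · 5` modulo `13` for lists of forms
(helper43).
-/

set_option autoImplicit false

namespace Pool.Agent.OEG

open Pool.Agent.LibH4 Pool.Agent.LibH4.Ker
open Pool.Agent.Lib_helper5 Pool.Agent.Lib_helper5.LK Pool.Agent.Lib_helper5.TB
open Pool.Agent.LibH4.S7 (Rl)
open Pool.Agent.PSX.K Pool.Agent.PSX.EL
open Pool.Agent.PSX.Ev (OSys adP_JO adO_JO adT_J CompG.of tok_665N13a tab1_665N13a tab2_665N13a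
  tab3_665N13a rok_665N13a red1_665N13a red2_665N13a red3_665N13a t1_665N13a t2_665N13a t3_665N13a
  rows_665N13a tok_665N13b tab1_665N13b tab2_665N13b
  tab3_665N13b rok_665N13b red1_665N13b red2_665N13b red3_665N13b t1_665N13b t2_665N13b t3_665N13b
  rows_665N13b)

/-- relation -/
def R665N13a : Rl :=
  ⟨(nat_lit 19), (nat_lit 7), (nat_lit 5), (nat_lit 13), (nat_lit 17), (nat_lit 5), (nat_lit 3), PT19, PT7, PT5, t1_665N13a, t2_665N13a, t3_665N13a, rows_665N13a, (nat_lit 10)⟩

/-- relation -/
def R665N13b : Rl :=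
  ⟨(nat_lit 19), (nat_lit 7), (nat_lit 5), (nat_lit 13), (nat_lit 17), (nat_lit 5), (nat_lit 3), PT19, PT7, PT5, t1_665N13b, t2_665N13b, t3_665N13b, rows_665N13b, (nat_lit 10)⟩

variable {D : ℤ} {J : List Fm}

theorem e665N13a (S : OSys 9699690 D J) : Hj R665N13a J := by
  have hF : F5.length = 10 := by decide
  have key := S.use (h := 1) (l := 13) tok_665N13a tab1_665N13a tab2_665N13a tab3_665N13a rok_665N13a
    red1_665N13a red2_665N13a red3_665N13a (CompG.of comp19) (CompG.of comp7)
    (CompG.of comp5) (by norm_num) (by norm_num) (by norm_num) (by norm_num)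
    (adP_JO S (by norm_num) (by norm_num) (by norm_num))
    (adP_JO S (by norm_num) (by norm_num) (by norm_num))
    (adP_JO S (by norm_num) (by norm_num) (by norm_num)) (by norm_num)
  rw [hF] at key
  exact key

theorem e665N13b (S : OSys 9699690 D J) : Hj R665N13b J := by
  have hF : F5.length = 10 := by decide
  have key := S.use (h := 1) (l := 13) tok_665N13b tab1_665N13b tab2_665N13b tab3_665N13b rok_665N13b
    red1_665N13b red2_665N13b red3_665N13b (CompG.of comp19) (CompG.of comp7)
    (CompG.of comp5) (by norm_num) (by norm_num) (by norm_num) (by norm_num)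
    (adP_JO S (by norm_num) (by norm_num) (by norm_num))
    (adP_JO S (by norm_num) (by norm_num) (by norm_num))
    (adP_JO S (by norm_num) (by norm_num) (by norm_num)) (by norm_num)
  rw [hF] at key
  exact key

end Pool.Agent.OEG
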