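import Pool.Agent.OEG.Oth2

/-!
Project OEG, elimination for the first family, the other states (helper1): kernel check a.
-/

set_option autoImplicit false

namespace Pool.Agent.OEG.Ot

theorem k_pp0 : ckL true true (OLpp.take 13) = true := by decide +kernel

theorem k_pp1 : ckL true true ((OLpp.drop 13).take 12) = true := by decide +kernel

end Pool.Agent.OEG.Ot
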