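import Pool.Agent.OEG.Oth2
import Pool.Agent.OEG.OthKa

/-!
Project OEG, elimination for the first family, the other states (helper1): kernel check b.
-/

set_option autoImplicit false

namespace Pool.Agent.OEG.Ot

theorem k_pp2 : ckL true true (((OLpp.drop 13).drop 12).take 12) = true := by decide +kernel

theorem k_pp3 : ckL true true (((OLpp.drop 13).drop 12).drop 12) = true := by decide +kernel

end Pool.Agent.OEG.Ot
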