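import Pool.Agent.OEG.Oth3
import Pool.Agent.OEG.OthKa
import Pool.Agent.OEG.OthKb
import Pool.Agent.OEG.OthKc
import Pool.Agent.OEG.OthKd
import Pool.Agent.OEG.OthKe
import Pool.Agent.OEG.OthKf
import Pool.Agent.OEG.OthKg
import Pool.Agent.OEG.OthKh

/-!
Project OEG, elimination for the first family (helper1): the other states are impossible.
-/

set_option autoImplicit false

namespace Pool.Agent.OEG.Ot

open Pool.Agent.OEG.W

variable {D p q b : ℤ} {m : ℕ} {bl bu : Bool}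

lemma two {L : List (List ℕ)} (n : ℕ) (h1 : ¬ cdM p q b m ∈ L.take n)
    (h2 : ¬ cdM p q b m ∈ L.drop n) : ¬ cdM p q b m ∈ L := by
  intro h
  rw [← List.take_append_drop n L] at h
  rcases List.mem_append.1 h with h | h
  · exact h1 h
  · exact h2 h

theorem no_pp (H : Sit D true true p q b m) : ¬ cdM p q b m ∈ OLpp :=
  two 13 (ckL_no H k_pp0) (two 12 (ckL_no H k_pp1) (two 12 (ckL_no H k_pp2) (ckL_no H k_pp3)))

theorem no_pm (H : Sit D true false p q b m) : ¬ cdM p q b m ∈ OLpm :=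
  two 17 (ckL_no H k_pm0) (ckL_no H k_pm1)

theorem no_mp (H : Sit D false true p q b m) : ¬ cdM p q b m ∈ OLmp :=
  two 17 (ckL_no H k_mp0) (ckL_no H k_mp1)

theorem no_mm (H : Sit D false false p q b m) : ¬ cdM p q b m ∈ OLmm :=
  two 8 (ckL_no H k_mm0) (ckL_no H k_mm1)

end Pool.Agent.OEG.Ot

namespace Pool.Agent.OEG

open Pool.Agent.OEG.Ot in
/-- **OTH** -/
theorem t_OTH : Stmt_OTH := by
  intro D l u p q b m hl hu _ hqb hD hp S
  unfold OL
  rcases hl with rfl | rfl <;> rcases hu with rfl | rfl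
  · rw [if_pos rfl, if_pos rfl]
    exact no_pp (D := D) ⟨hqb, hD, hp, S⟩
  · rw [if_pos rfl, if_neg (by norm_num)]
    exact no_pm (D := D) ⟨hqb, hD, hp, S⟩
  · rw [if_neg (by norm_num), if_pos rfl]
    exact no_mp (D := D) ⟨hqb, hD, hp, S⟩
  · rw [if_neg (by norm_num), if_neg (by norm_num)]
    exact no_mm (D := D) ⟨hqb, hD, hp, S⟩

end Pool.Agent.OEG
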