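import Pool.Agent.OEG.StM

/-!
# Project OEG, SGN: the sign of `(q, b)` (helper29 for helper5)
-/

set_option autoImplicit false

namespace Pool.Agent.OEG

open Pool.Agent.Lib_helper5 Pool.Agent.Lib_helper5.LK Pool.Agent.LibH4
open Pool.Agent.LibH4.T6

namespace SN

variable {q l : ℕ} [NeZero q]

lemma bz_neg (y : ZMod q) : bz q l (-y) = - bz q l y := by
  unfold bz bI
  by_cases hy : y = 0
  · subst hy; simp
  · have : NeZero y := ⟨hy⟩
    have hv : (-y).val = q - y.val := ZMod.val_neg_of_ne_zero y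
    have hlt := ZMod.val_lt y
    have hpos : 0 < y.val := by
      rw [Nat.pos_iff_ne_zero, Ne, ZMod.val_eq_zero]
      exact hy
    rw [hv, if_neg (by omega), if_neg (by omega), Nat.cast_sub hlt.le]
    ring

lemma gz_neg (y : ZMod q) : gz q l (-y) = gz q l y := by
  unfold gz b2I
  by_cases hy : y = 0
  · subst hy; simp
  · have : NeZero y := ⟨hy⟩
    have hv : (-y).val = q - y.val := ZMod.val_neg_of_ne_zero y
    have hlt := ZMod.val_lt y
    rw [hv, Nat.cast_sub hlt.le]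
    ring

omit [NeZero q] in
lemma fz_neg (P R S : ℤ) (x y : ZMod q) : KF.fz q P (-R) S (-x) y = KF.fz q P R S x y := by
  unfold KF.fz
  push_cast
  ring

lemma XX_neg (chi : ZMod q → ZMod l) (P R S : ℤ) : KF.XX chi P (-R) S = - KF.XX chi P R S := by
  unfold KF.XX
  rw [← Equiv.sum_comp (Equiv.neg (ZMod q)), ← Finset.sum_neg_distrib]
  apply Finset.sum_congr rfl
  intro x _
  rw [← Finset.sum_neg_distrib]
  apply Finset.sum_congr rfl
  intro y _
  rw [Equiv.neg_apply, fz_neg, bz_neg]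
  ring

lemma YX_neg (chi : ZMod q → ZMod l) (P R S : ℤ) : KF.YX chi P (-R) S = KF.YX chi P R S := by
  unfold KF.YX
  rw [← Equiv.sum_comp (Equiv.neg (ZMod q))]
  apply Finset.sum_congr rfl
  intro x _
  apply Finset.sum_congr rfl
  intro y _
  rw [Equiv.neg_apply, fz_neg, gz_neg]

/-- the term with the other sign -/
def ng (j : Fm) : Fm := ⟨j.P, -j.R, j.S, j.κ, -j.α⟩

lemma rel_neg (chi : ZMod q → ZMod l) (J : List Fm) (h : LK.Rel l chi J) :
    LK.Rel l chi (J.map ng) := by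
  unfold LK.Rel at h ⊢
  rw [List.map_map]
  have e : ((fun j : Fm => (j.κ : ZMod l) * KF.XX chi j.P j.R j.S + (j.α : ZMod l) * KF.YX chi j.P j.R j.S)
      ∘ ng) = fun j => -((j.κ : ZMod l) * KF.XX chi j.P j.R j.S + (j.α : ZMod l) * KF.YX chi j.P j.R j.S) := by
    funext j
    show (j.κ : ZMod l) * KF.XX chi j.P (-j.R) j.S + ((-j.α : ℤ) : ZMod l) * KF.YX chi j.P (-j.R) j.S = _
    rw [XX_neg, YX_neg]
    push_cast
    ring
  rw [e]
  have key : ∀ (L : List Fm) (g : Fm → ZMod l), (L.map fun j => - g j).sum = - (L.map g).sum := by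
    intro L g
    induction L with
    | nil => simp
    | cons a L ih => rw [List.map_cons, List.sum_cons, List.map_cons, List.sum_cons, ih]; ring
  rw [key, h, neg_zero]

lemma J1_neg (l u p q b : ℤ) (m : ℕ) : J1 l u p (-q) (-b) m = (J1 l u p q b m).map ng := by
  unfold J1
  rw [List.map_append, List.map_map, List.map_map]
  congr 1
  · apply List.map_congr_left
    intro j _
    show (⟨p ^ j, -q * p ^ m + -b, -(l * p ^ (m - j)), 3, -(c1 l p (-q) (-b) m j)⟩ : Fm) =
      ⟨p ^ j, -(q * p ^ m + b), -(l * p ^ (m - j)), 3, - -(c1 l p q b m j)⟩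
    have e1 : -q * p ^ m + -b = -(q * p ^ m + b) := by ring
    have e2 : c1 l p (-q) (-b) m j = -(c1 l p q b m j) := by
      unfold c1
      split_ifs <;> ring
    rw [e1, e2]
  · apply List.map_congr_left
    intro j _
    show (⟨p ^ (j + 1), -q * p ^ m - -b, -(u * p ^ (m - j)), 3, -(u * -q * p ^ j)⟩ : Fm) =
      ⟨p ^ (j + 1), -(q * p ^ m - b), -(u * p ^ (m - j)), 3, - -(u * q * p ^ j)⟩
    have e1 : -q * p ^ m - -b = -(q * p ^ m - b) := by ring
    have e2 : -(u * -q * p ^ j) = - -(u * q * p ^ j) := by ring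
    rw [e1, e2]

end SN

theorem osys_neg {Q : ℕ} {D : ℤ} {l u p q b : ℤ} {m : ℕ}
    (S : PSX.Ev.OSys Q D (J1 l u p q b m)) : PSX.Ev.OSys Q D (J1 l u p (-q) (-b) m) := by
  rw [SN.J1_neg]
  refine ⟨?_, S.D8, S.inr, ?_⟩
  · intro j hj
    rw [List.mem_map] at hj
    obtain ⟨i, hi, rfl⟩ := hj
    have := S.disc i hi
    show (-i.R) ^ 2 - 4 * i.P * i.S = D
    rw [neg_sq]; exact this
  · intro n1 n2 n3 N T1 T2 T3 _ _ _ _ _ h1 h2 h3 h4 h5 h6
    exact SN.rel_neg _ _ (S.rel n1 n2 n3 N T1 T2 T3 h1 h2 h3 h4 h5 h6)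

theorem t_SGN : Stmt_SGN := fun _ _ _ _ _ _ _ _ S => osys_neg S

end Pool.Agent.OEG
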