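import Pool.Agent.OEG.StA

/-!
Project OEG, elimination of the first family (helper78): the MAIN tree, levels 13, 7, 5, 3, and the
statements which give `Stmt_EL1`.
-/

set_option autoImplicit false

namespace Pool.Agent.OEG

open Pool.Agent.Lib_helper5.LK (rs)

/-- the residues of a state -/
def cdM (p q b : ℤ) (m : ℕ) : List ℕ :=
  [m % 12, m % 13, rs 13 p, rs 13 q, rs 13 b, rs 7 p, rs 7 q, rs 7 b, rs 5 p, rs 5 q, rs 5 b,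
    rs 3 p, rs 3 q, rs 3 b]

/-- the other states, `l = 1, u = 1` -/
def OLpp : List (List ℕ) := [
  [0, 11, 12, 2, 12, 6, 2, 6, 1, 3, 0, 2, 2, 2],
  [1, 10, 1, 0, 1, 1, 0, 1, 2, 1, 1, 1, 0, 1],
  [1, 10, 1, 0, 2, 1, 0, 3, 2, 4, 4, 1, 0, 1],
  [1, 10, 1, 0, 4, 1, 0, 4, 2, 4, 4, 1, 0, 1],
  [1, 1, 8, 2, 10, 3, 5, 6, 3, 1, 2, 2, 1, 1],
  [1, 1, 11, 2, 5, 4, 2, 5, 1, 2, 0, 2, 2, 2],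
  [1, 1, 12, 2, 12, 6, 2, 6, 1, 2, 0, 2, 2, 2],
  [1, 1, 12, 2, 12, 6, 2, 6, 2, 2, 3, 2, 2, 2],
  [2, 2, 1, 0, 1, 1, 0, 1, 3, 2, 1, 1, 0, 1],
  [2, 2, 1, 0, 2, 1, 0, 3, 3, 3, 4, 1, 0, 1],
  [2, 2, 1, 0, 4, 1, 0, 4, 3, 3, 4, 1, 0, 1],
  [2, 11, 12, 2, 12, 6, 2, 6, 1, 3, 0, 2, 2, 2],
  [2, 11, 12, 2, 12, 6, 2, 6, 3, 4, 3, 2, 2, 2],
  [3, 3, 11, 3, 12, 5, 3, 6, 3, 3, 4, 1, 0, 2],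
  [3, 1, 12, 2, 12, 6, 2, 6, 1, 2, 0, 2, 2, 2],
  [4, 4, 2, 1, 1, 2, 1, 1, 2, 1, 1, 2, 1, 1],
  [4, 4, 11, 3, 12, 5, 3, 6, 3, 3, 4, 1, 0, 2],
  [4, 11, 12, 2, 12, 6, 2, 6, 1, 3, 0, 2, 2, 2],
  [5, 10, 1, 0, 1, 1, 0, 1, 2, 1, 1, 1, 0, 1],
  [5, 10, 1, 0, 2, 1, 0, 3, 2, 4, 4, 1, 0, 1],
  [5, 10, 1, 0, 4, 1, 0, 4, 2, 4, 4, 1, 0, 1],
  [5, 5, 2, 1, 1, 2, 1, 1, 2, 1, 1, 2, 1, 1],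
  [5, 5, 11, 1, 10, 5, 1, 4, 3, 1, 2, 1, 1, 0],
  [5, 1, 12, 2, 12, 6, 2, 6, 1, 2, 0, 2, 2, 2],
  [5, 1, 12, 2, 12, 6, 2, 6, 2, 2, 3, 2, 2, 2],
  [6, 2, 1, 0, 1, 1, 0, 1, 3, 2, 1, 1, 0, 1],
  [6, 2, 1, 0, 2, 1, 0, 3, 3, 3, 4, 1, 0, 1],
  [6, 2, 1, 0, 4, 1, 0, 4, 3, 3, 4, 1, 0, 1],
  [6, 7, 6, 6, 3, 3, 3, 3, 2, 2, 3, 1, 1, 0],
  [6, 7, 7, 6, 1, 4, 3, 1, 3, 2, 1, 2, 1, 1],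
  [6, 11, 12, 2, 12, 6, 2, 6, 1, 3, 0, 2, 2, 2],
  [6, 11, 12, 2, 12, 6, 2, 6, 3, 4, 3, 2, 2, 2],
  [7, 8, 6, 5, 1, 3, 2, 1, 2, 1, 1, 1, 0, 1],
  [7, 8, 7, 6, 1, 4, 3, 1, 3, 2, 1, 2, 1, 1],
  [7, 1, 12, 2, 12, 6, 2, 6, 1, 2, 0, 2, 2, 2],
  [8, 9, 6, 5, 1, 3, 2, 1, 2, 1, 1, 1, 0, 1],
  [8, 11, 12, 2, 12, 6, 2, 6, 1, 3, 0, 2, 2, 2],
  [9, 10, 1, 0, 1, 1, 0, 1, 2, 1, 1, 1, 0, 1],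
  [9, 10, 1, 0, 2, 1, 0, 3, 2, 4, 4, 1, 0, 1],
  [9, 10, 1, 0, 4, 1, 0, 4, 2, 4, 4, 1, 0, 1],
  [9, 1, 12, 2, 12, 6, 2, 6, 1, 2, 0, 2, 2, 2],
  [9, 1, 12, 2, 12, 6, 2, 6, 2, 2, 3, 2, 2, 2],
  [10, 2, 1, 0, 1, 1, 0, 1, 3, 2, 1, 1, 0, 1],
  [10, 2, 1, 0, 2, 1, 0, 3, 3, 3, 4, 1, 0, 1],
  [10, 2, 1, 0, 4, 1, 0, 4, 3, 3, 4, 1, 0, 1],
  [10, 11, 5, 3, 10, 5, 3, 6, 2, 3, 2, 2, 1, 1],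
  [10, 11, 6, 1, 5, 2, 3, 5, 1, 3, 0, 2, 2, 2],
  [10, 11, 12, 2, 12, 6, 2, 6, 1, 3, 0, 2, 2, 2],
  [10, 11, 12, 2, 12, 6, 2, 6, 3, 4, 3, 2, 2, 2],
  [11, 1, 12, 2, 12, 6, 2, 6, 1, 2, 0, 2, 2, 2]]

/-- the other states, `l = 1, u = -1` -/
def OLpm : List (List ℕ) := [
  [0, 11, 1, 2, 12, 1, 2, 6, 4, 3, 0, 1, 2, 2],
  [1, 1, 3, 2, 11, 5, 2, 4, 2, 2, 1, 1, 2, 2],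
  [1, 1, 7, 4, 11, 6, 0, 0, 2, 3, 4, 2, 0, 0],
  [1, 1, 9, 4, 4, 3, 6, 4, 3, 3, 2, 1, 2, 2],
  [1, 1, 11, 6, 11, 3, 1, 3, 4, 0, 4, 1, 1, 1],
  [1, 10, 12, 0, 3, 6, 0, 3, 3, 2, 3, 2, 0, 0],
  [2, 11, 1, 2, 12, 1, 2, 6, 2, 4, 3, 1, 2, 2],
  [2, 11, 1, 2, 12, 1, 2, 6, 4, 3, 0, 1, 2, 2],
  [2, 2, 12, 0, 1, 6, 0, 1, 2, 2, 1, 2, 0, 1],
  [2, 2, 12, 0, 2, 6, 0, 3, 2, 3, 4, 2, 0, 1],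
  [2, 2, 12, 0, 4, 6, 0, 4, 2, 3, 4, 2, 0, 1],
  [4, 11, 1, 2, 12, 1, 2, 6, 4, 3, 0, 1, 2, 2],
  [4, 4, 2, 3, 12, 2, 3, 6, 2, 3, 4, 2, 0, 2],
  [4, 4, 11, 1, 1, 5, 1, 1, 3, 1, 1, 1, 1, 1],
  [5, 6, 6, 6, 1, 3, 3, 1, 2, 2, 1, 1, 1, 1],
  [5, 10, 12, 0, 3, 6, 0, 3, 3, 2, 3, 2, 0, 0],
  [6, 11, 1, 2, 12, 1, 2, 6, 2, 4, 3, 1, 2, 2],
  [6, 11, 1, 2, 12, 1, 2, 6, 4, 3, 0, 1, 2, 2],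
  [6, 7, 6, 6, 1, 3, 3, 1, 2, 2, 1, 1, 1, 1],
  [6, 7, 7, 6, 3, 4, 3, 3, 3, 2, 3, 2, 1, 0],
  [6, 2, 12, 0, 1, 6, 0, 1, 2, 2, 1, 2, 0, 1],
  [6, 2, 12, 0, 2, 6, 0, 3, 2, 3, 4, 2, 0, 1],
  [6, 2, 12, 0, 4, 6, 0, 4, 2, 3, 4, 2, 0, 1],
  [8, 11, 1, 2, 12, 1, 2, 6, 4, 3, 0, 1, 2, 2],
  [8, 9, 7, 5, 1, 4, 2, 1, 3, 1, 1, 2, 0, 1],
  [9, 10, 12, 0, 3, 6, 0, 3, 3, 2, 3, 2, 0, 0],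
  [10, 11, 1, 2, 12, 1, 2, 6, 2, 4, 3, 1, 2, 2],
  [10, 11, 1, 2, 12, 1, 2, 6, 4, 3, 0, 1, 2, 2],
  [10, 11, 7, 1, 5, 5, 3, 5, 4, 3, 0, 1, 2, 2],
  [10, 11, 8, 3, 10, 2, 3, 6, 3, 3, 2, 1, 1, 1],
  [10, 2, 12, 0, 1, 6, 0, 1, 2, 2, 1, 2, 0, 1],
  [10, 2, 12, 0, 2, 6, 0, 3, 2, 3, 4, 2, 0, 1],
  [10, 2, 12, 0, 4, 6, 0, 4, 2, 3, 4, 2, 0, 1]]

/-- the other states, `l = -1, u = 1` -/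
def OLmp : List (List ℕ) := [
  [1, 1, 1, 2, 1, 1, 2, 1, 3, 2, 2, 1, 2, 1],
  [1, 1, 1, 2, 1, 1, 2, 1, 4, 2, 0, 1, 2, 1],
  [1, 1, 2, 2, 8, 3, 2, 2, 4, 2, 0, 1, 2, 1],
  [1, 1, 5, 2, 3, 4, 5, 1, 2, 1, 3, 1, 1, 2],
  [1, 10, 12, 0, 1, 6, 0, 1, 3, 4, 1, 2, 0, 1],
  [1, 10, 12, 0, 2, 6, 0, 3, 3, 1, 4, 2, 0, 1],
  [1, 10, 12, 0, 4, 6, 0, 4, 3, 1, 4, 2, 0, 1],
  [2, 2, 12, 0, 3, 6, 0, 3, 2, 1, 3, 2, 0, 0],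
  [3, 1, 1, 2, 1, 1, 2, 1, 4, 2, 0, 1, 2, 1],
  [3, 3, 2, 3, 1, 2, 3, 1, 2, 3, 1, 2, 0, 1],
  [5, 1, 1, 2, 1, 1, 2, 1, 3, 2, 2, 1, 2, 1],
  [5, 1, 1, 2, 1, 1, 2, 1, 4, 2, 0, 1, 2, 1],
  [5, 5, 2, 1, 3, 2, 1, 3, 2, 1, 3, 2, 1, 0],
  [5, 5, 11, 1, 12, 5, 1, 6, 3, 1, 4, 1, 1, 2],
  [5, 10, 12, 0, 1, 6, 0, 1, 3, 4, 1, 2, 0, 1],
  [5, 10, 12, 0, 2, 6, 0, 3, 3, 1, 4, 2, 0, 1],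
  [5, 10, 12, 0, 4, 6, 0, 4, 3, 1, 4, 2, 0, 1],
  [6, 6, 11, 1, 12, 5, 1, 6, 3, 1, 4, 1, 1, 2],
  [6, 2, 12, 0, 3, 6, 0, 3, 2, 1, 3, 2, 0, 0],
  [7, 1, 1, 2, 1, 1, 2, 1, 4, 2, 0, 1, 2, 1],
  [7, 8, 6, 6, 12, 3, 3, 6, 2, 2, 4, 1, 1, 2],
  [7, 8, 7, 5, 12, 4, 2, 6, 3, 1, 4, 2, 0, 2],
  [9, 1, 1, 2, 1, 1, 2, 1, 3, 2, 2, 1, 2, 1],
  [9, 1, 1, 2, 1, 1, 2, 1, 4, 2, 0, 1, 2, 1],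
  [9, 10, 12, 0, 1, 6, 0, 1, 3, 4, 1, 2, 0, 1],
  [9, 10, 12, 0, 2, 6, 0, 3, 3, 1, 4, 2, 0, 1],
  [9, 10, 12, 0, 4, 6, 0, 4, 3, 1, 4, 2, 0, 1],
  [10, 11, 2, 5, 11, 6, 0, 0, 3, 1, 4, 2, 0, 0],
  [10, 11, 3, 1, 4, 5, 5, 4, 2, 4, 2, 1, 1, 2],
  [10, 11, 6, 3, 11, 5, 2, 3, 4, 0, 4, 1, 2, 1],
  [10, 11, 9, 5, 2, 3, 6, 3, 3, 1, 4, 1, 2, 1],
  [10, 2, 12, 0, 3, 6, 0, 3, 2, 1, 3, 2, 0, 0],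
  [11, 1, 1, 2, 1, 1, 2, 1, 4, 2, 0, 1, 2, 1]]

/-- the other states, `l = u = -1` -/
def OLmm : List (List ℕ) := [
  [1, 10, 1, 0, 3, 1, 0, 3, 2, 3, 3, 1, 0, 0],
  [1, 1, 2, 6, 2, 4, 1, 4, 1, 0, 1, 2, 1, 2],
  [1, 1, 4, 4, 9, 4, 6, 3, 2, 3, 3, 2, 2, 1],
  [1, 1, 6, 4, 2, 1, 0, 0, 3, 3, 1, 1, 0, 0],
  [1, 1, 10, 2, 2, 2, 2, 3, 3, 2, 4, 2, 2, 1],
  [2, 2, 1, 0, 3, 1, 0, 3, 3, 1, 3, 1, 0, 0],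
  [5, 10, 1, 0, 3, 1, 0, 3, 2, 3, 3, 1, 0, 0],
  [5, 6, 7, 6, 12, 4, 3, 6, 3, 2, 4, 2, 1, 2],
  [6, 2, 1, 0, 3, 1, 0, 3, 3, 1, 3, 1, 0, 0],
  [6, 6, 2, 1, 12, 2, 1, 6, 2, 1, 4, 2, 1, 2],
  [9, 10, 1, 0, 3, 1, 0, 3, 2, 3, 3, 1, 0, 0],
  [10, 2, 1, 0, 3, 1, 0, 3, 3, 1, 3, 1, 0, 0],
  [10, 11, 4, 5, 2, 4, 6, 3, 2, 1, 4, 2, 2, 1],
  [10, 11, 7, 3, 11, 2, 2, 3, 1, 0, 4, 2, 2, 1],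
  [10, 11, 10, 1, 4, 2, 5, 4, 3, 4, 2, 2, 1, 2],
  [10, 11, 11, 5, 11, 1, 0, 0, 2, 1, 4, 1, 0, 0]]

/-- the other states -/
def OL (l u : ℤ) : List (List ℕ) :=
  if l = 1 then (if u = 1 then OLpp else OLpm) else (if u = 1 then OLmp else OLmm)

/-- canonical sign of `(q, b)` modulo `13` -/
def Cn (q b : ℤ) : Prop := rs 13 q < 7 ∧ (rs 13 q = 0 → rs 13 b < 7)

/-- **MAIN** (helper78): levels 13, 7, 5, 3; the classes `D = 293` and `D = 437` modulo `455` are left to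
W17 and W19. -/
def Stmt_MAIN : Prop := ∀ (D l u p q b : ℤ) (m : ℕ), OEX.Sg l → OEX.Sg u → 1 ≤ m →
    q * b = u * p - l → D = (q * p ^ m + b) ^ 2 + 4 * l * p ^ m →
    (∀ r : ℕ, r ∣ 9699690 → r ≠ 1 → ¬ (r : ℤ) ∣ p) →
    PSX.Ev.OSys 9699690 D (J1 l u p q b m) → Cn q b →
    ((1365 : ℤ) ∣ p - u * l ∧ (1365 : ℤ) ∣ b) ∨ G2 u p q m ∨ G3 l p q m ∨
      D % 455 = 293 ∨ D % 455 = 437 ∨ cdM p q b m ∈ OL l u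

/-- **OTH** (free seat): the other states are impossible. Order of the primes and relations (explorer):
4: 364F13a, 364F13b, 140N13, 260F13; 8: 728N5, 520F5, 520N7, 728F7; 11 (period 60, `m mod 60` from
`m mod 12` and `m mod 5`): 143N7, 308F7, 715N7, 616N13; 19 (period 36, for the last 0, 2, 2, 4 states):
133N13, 95N13, 95F19, 399F7. About 400 + 100 + 1300 + 2000 classes. -/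
def Stmt_OTH : Prop := ∀ (D l u p q b : ℤ) (m : ℕ), OEX.Sg l → OEX.Sg u → 1 ≤ m →
    q * b = u * p - l → D = (q * p ^ m + b) ^ 2 + 4 * l * p ^ m →
    (∀ r : ℕ, r ∣ 9699690 → r ≠ 1 → ¬ (r : ℤ) ∣ p) →
    PSX.Ev.OSys 9699690 D (J1 l u p q b m) → ¬ cdM p q b m ∈ OL l u

/-- **W17** (helper5) -/
def Stmt_W17 : Prop := ∀ (D l u p q b : ℤ) (m : ℕ), OEX.Sg l → OEX.Sg u → 1 ≤ m →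
    q * b = u * p - l → D = (q * p ^ m + b) ^ 2 + 4 * l * p ^ m →
    (∀ r : ℕ, r ∣ 9699690 → r ≠ 1 → ¬ (r : ℤ) ∣ p) →
    PSX.Ev.OSys 9699690 D (J1 l u p q b m) → D % 455 = 293 →
    G1 l u p q b ∨ G2 u p q m ∨ G3 l p q m

/-- **W19** (helper5) -/
def Stmt_W19 : Prop := ∀ (D l u p q b : ℤ) (m : ℕ), OEX.Sg l → OEX.Sg u → 1 ≤ m →
    q * b = u * p - l → D = (q * p ^ m + b) ^ 2 + 4 * l * p ^ m →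
    (∀ r : ℕ, r ∣ 9699690 → r ≠ 1 → ¬ (r : ℤ) ∣ p) →
    PSX.Ev.OSys 9699690 D (J1 l u p q b m) → D % 455 = 437 →
    G1 l u p q b ∨ G2 u p q m ∨ G3 l p q m

/-- **SGN** (helper5): the sign of `(q, b)` -/
def Stmt_SGN : Prop := ∀ (Q : ℕ) (D l u p q b : ℤ) (m : ℕ),
    PSX.Ev.OSys Q D (J1 l u p q b m) → PSX.Ev.OSys Q D (J1 l u p (-q) (-b) m)

/-- **ASM** (free seat): `Stmt_EL1` from the five statements. If `Cn q b` fails it holds for `(-q, -b)`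
(`D` and the conclusions are symmetric). In the first case of MAIN the clauses `x17`, `x19` of `G1`: if
`D % 455` is not `293`, `437`: `q = ± 17` mod `1365` gives `D = 289 + 4 l (u l)^m = 293` or `285` modulo
`455`, and `285 = 0` mod `5` contradicts `OSys.inr` at `5`; `q = ± 21` gives `437` or `445 = 0` mod `5`. If
`D % 455` is `293` or `437` use W17, W19. -/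
def Stmt_ASM : Prop := Stmt_MAIN → Stmt_OTH → Stmt_W17 → Stmt_W19 → Stmt_SGN → Stmt_EL1

end Pool.Agent.OEG
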