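import Pool.Agent.OEG.TrC
import Pool.Agent.OEG.StM
import Pool.Agent.OEG.TrKmm2

/-!
Project OEG, the tree of the first family: kernel check (generated).
-/

namespace Pool.Agent.OEG.En

theorem k_mm3 : top false false C3mm C5mm C7mm C13mm OLmm [nat_lit 6, nat_lit 7] = true := by
  decide +kernel

end Pool.Agent.OEG.En
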