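import Pool.Agent.OEG.TrC
import Pool.Agent.OEG.StM
import Pool.Agent.OEG.TrKmp0

/-!
Project OEG, the tree of the first family: kernel check (generated).
-/

namespace Pool.Agent.OEG.En

theorem k_mp1 : top false true C3mp C5mp C7mp C13mp OLmp [nat_lit 2, nat_lit 3] = true := by
  decide +kernel

end Pool.Agent.OEG.En
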