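import Pool.Agent.OEG.TrT

/-!
Project OEG, the tree of the first family: the conclusions.
-/

set_option linter.unusedSectionVars false

namespace Pool.Agent.OEG.En

open Finset
open Pool.Agent.LibH4.S7 (Rl)
open Pool.Agent.LibH4.Ker
open Pool.Agent.Lib_helper5 Pool.Agent.Lib_helper5.LK Pool.Agent.Lib_helper5.TB
open Pool.Agent.PSX.Ev (OSys)

lemma rs_int {n : ℕ} [NeZero n] (x : ℤ) : (rs n x : ℤ) = x % n := ZMod.val_intCast x

lemma eqL_spec {L M : List ℕ} (h : eqL L M = true) : L = M := by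
  induction L generalizing M with
  | nil =>
    cases M with
    | nil => rfl
    | cons y T => exact absurd h (by simp [eqL])
  | cons x L ih =>
    cases M with
    | nil => exact absurd h (by simp [eqL])
    | cons y T =>
      have h' : @Bool.rec (fun _ => Bool) false (eqL L T) (Nat.beq x y) = true := h
      rcases h1 : Nat.beq x y with _ | _
      · rw [h1] at h'
        exact absurd h' (by simp)
      · rw [h1] at h'
        rw [Nat.eq_of_beq_eq_true h1, ih h']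

lemma memC_spec {c : List ℕ} {O : List (List ℕ)} (h : memC c O = true) : c ∈ O := by
  induction O with
  | nil => exact absurd h (by simp [memC])
  | cons x O ih =>
    have h' : @Bool.rec (fun _ => Bool) (memC c O) true (eqL c x) = true := h
    rcases h1 : eqL c x with _ | _
    · rw [h1] at h'
      exact List.mem_cons_of_mem _ (ih h')
    · rw [eqL_spec h1]
      exact List.mem_cons_self ..

lemma stp_spec {D : ℤ} (h : stp (rs 13 D) (rs 7 D) (rs 5 D) = true) :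
    D % 455 = 293 ∨ D % 455 = 437 := by
  have a13 := rs_int (n := 13) D
  have a7 := rs_int (n := 7) D
  have a5 := rs_int (n := 5) D
  push_cast at a13 a7 a5
  rcases orr_spec h with h | h
  · obtain ⟨h1, h⟩ := an_spec h
    obtain ⟨h2, h3⟩ := an_spec h
    have e1 : rs 13 D = 7 := Nat.eq_of_beq_eq_true h1
    have e2 : rs 7 D = 6 := Nat.eq_of_beq_eq_true h2
    have e3 : rs 5 D = 3 := Nat.eq_of_beq_eq_true h3
    rw [e1] at a13
    rw [e2] at a7
    rw [e3] at a5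
    left
    push_cast at a13 a7 a5
    omega
  · obtain ⟨h1, h⟩ := an_spec h
    obtain ⟨h2, h3⟩ := an_spec h
    have e1 : rs 13 D = 8 := Nat.eq_of_beq_eq_true h1
    have e2 : rs 7 D = 3 := Nat.eq_of_beq_eq_true h2
    have e3 : rs 5 D = 2 := Nat.eq_of_beq_eq_true h3
    rw [e1] at a13
    rw [e2] at a7
    rw [e3] at a5
    right
    push_cast at a13 a7 a5
    omega

lemma dv_of {n : ℕ} {x y : ℤ} (h : (x : ZMod n) = (y : ZMod n)) : (n : ℤ) ∣ x - y :=
  ((ZMod.intCast_eq_intCast_iff_dvd_sub y x n).1 h.symm)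

lemma dv_rs {n : ℕ} [NeZero n] {x y : ℤ} (h : rs n x = rs n y) : (n : ℤ) ∣ x - y := by
  apply dv_of
  rw [← rs_cast x, ← rs_cast y, h]

lemma dv1365 {x : ℤ} (h3 : (3 : ℤ) ∣ x) (h5 : (5 : ℤ) ∣ x) (h7 : (7 : ℤ) ∣ x)
    (h13 : (13 : ℤ) ∣ x) : (1365 : ℤ) ∣ x := by omega

section

variable {n : ℕ} [NeZero n] {sl su : Bool} {p q b : ℤ} {m : ℕ}

lemma g1n_spec (hn : 1 < n) (h : g1n sl su n (rs n p) (rs n b) = true) :
    (n : ℤ) ∣ sgz su * p - sgz sl ∧ (n : ℤ) ∣ b := by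
  obtain ⟨h1, h2⟩ := an_spec h
  have e1 : rs n b = 0 := Nat.eq_of_beq_eq_true h1
  have e2 : Nat.mod (Nat.mul (psf su n) (rs n p)) n = psf sl n := Nat.eq_of_beq_eq_true h2
  rw [psf_eq hn, psf_eq hn, rs_mul] at e2
  refine ⟨dv_rs e2, ?_⟩
  have h3 : (b : ZMod n) = ((0 : ℤ) : ZMod n) := by
    rw [← rs_cast b, e1]
    push_cast
    rfl
  have := dv_of h3
  rwa [sub_zero] at this

lemma pw1_spec {k : ℕ} (h : pw1 n (rs n p) k = true) : (p : ZMod n) ^ k = 1 := by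
  have e : (rs n p) ^ k % n = 1 := Nat.eq_of_beq_eq_true h
  have h1 : (((rs n p) ^ k % n : ℕ) : ZMod n) = ((1 : ℕ) : ZMod n) := by rw [e]
  rw [ZMod.natCast_mod] at h1
  push_cast at h1
  rwa [rs_cast] at h1

lemma q1_spec (h : Nat.beq (rs n q) (nat_lit 1) = true) : (n : ℤ) ∣ q - 1 := by
  have e : rs n q = 1 := Nat.eq_of_beq_eq_true h
  apply dv_of
  rw [← rs_cast q, e]
  push_cast
  rfl

lemma qp_spec (h : Nat.beq (rs n q) (rs n p) = true) : (n : ℤ) ∣ q - 1 * p := by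
  rw [one_mul]
  exact dv_rs (Nat.eq_of_beq_eq_true h)

lemma qm_spec (h : Nat.beq (rs n q) (Nat.sub n (rs n p)) = true) : (n : ℤ) ∣ q - (-1) * p := by
  have e : rs n q = n - rs n p := Nat.eq_of_beq_eq_true h
  apply dv_of
  rw [← rs_cast q, e, Nat.cast_sub (rs_lt p).le, rs_cast, ZMod.natCast_self]
  push_cast
  ring

lemma pwd {x : ℤ} {k : ℕ} (h : (x : ZMod n) ^ k = 1) : (n : ℤ) ∣ x ^ k - 1 := by
  apply dv_of
  push_cast
  exact h

/-- the exponent of ghost 2 -/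
lemma pe2 (hm : 1 ≤ m) (h12 : (p : ZMod n) ^ 12 = 1) (h : (p : ZMod n) ^ (m % 12 + 11) = 1) :
    (p : ZMod n) ^ (m - 1) = 1 := by
  rw [pow_add, pw_m h12, ← pow_add, show m + 11 = (m - 1) + 12 by omega, pow_add, h12,
    mul_one] at h
  exact h

/-- the exponent of ghost 3 -/
lemma pe3 (h12 : (p : ZMod n) ^ 12 = 1) (h : (p : ZMod n) ^ (m % 12 + 2) = 1) :
    (p : ZMod n) ^ (m + 2) = 1 := by
  rw [pow_add, pw_m h12, ← pow_add] at h
  exact h

end

section Fin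

variable {sl su : Bool} {D p q b p' : ℤ} {m : ℕ} (C : Cx sl su D p q b p' m)

include C

lemma g2_spec (hm : 1 ≤ m) (h : g2t su (m % 12) (rs 13 p) (rs 13 q) (rs 7 p) (rs 7 q) (rs 5 p)
    (rs 5 q) (rs 3 p) (rs 3 q) = true) : G2 (sgz su) p q m := by
  cases su with
  | true => exact absurd h (by simp [g2t])
  | false =>
    obtain ⟨a13, h⟩ := an_spec h
    obtain ⟨a7, h⟩ := an_spec h
    obtain ⟨a5, h⟩ := an_spec h
    obtain ⟨a3, h⟩ := an_spec h
    have h := st h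
    obtain ⟨b13, h⟩ := an_spec h
    obtain ⟨b7, h⟩ := an_spec h
    obtain ⟨b5, b3⟩ := an_spec h
    refine ⟨rfl, ⟨1, Or.inl rfl, ?_⟩, ?_⟩
    · exact dv1365 (q1_spec (n := 3) a3) (q1_spec (n := 5) a5) (q1_spec (n := 7) a7)
        (q1_spec (n := 13) a13)
    · exact dv1365 (pwd (n := 3) (pe2 hm C.u3.per (pw1_spec b3)))
        (pwd (n := 5) (pe2 hm C.u5.per (pw1_spec b5))) (pwd (n := 7) (pe2 hm C.u7.per (pw1_spec b7)))
        (pwd (n := 13) (pe2 hm C.u13.per (pw1_spec b13)))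

lemma g3_spec (h : g3t sl (m % 12) (rs 13 p) (rs 13 q) (rs 7 p) (rs 7 q) (rs 5 p)
    (rs 5 q) (rs 3 p) (rs 3 q) = true) : G3 (sgz sl) p q m := by
  cases sl with
  | true => exact absurd h (by simp [g3t])
  | false =>
    obtain ⟨h0, h⟩ := an_spec h
    have h := st h
    obtain ⟨b13, h⟩ := an_spec h
    obtain ⟨b7, h⟩ := an_spec h
    obtain ⟨b5, b3⟩ := an_spec h
    refine ⟨rfl, ?_, ?_⟩
    · rcases orr_spec h0 with h0 | h0
      · obtain ⟨a13, h⟩ := an_spec h0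
        obtain ⟨a7, h⟩ := an_spec h
        obtain ⟨a5, a3⟩ := an_spec h
        exact ⟨1, Or.inl rfl, dv1365 (qp_spec (n := 3) a3) (qp_spec (n := 5) a5)
          (qp_spec (n := 7) a7) (qp_spec (n := 13) a13)⟩
      · obtain ⟨a13, h⟩ := an_spec h0
        obtain ⟨a7, h⟩ := an_spec h
        obtain ⟨a5, a3⟩ := an_spec h
        exact ⟨-1, Or.inr rfl, dv1365 (qm_spec (n := 3) a3) (qm_spec (n := 5) a5)
          (qm_spec (n := 7) a7) (qm_spec (n := 13) a13)⟩
    · exact dv1365 (pwd (n := 3) (pe3 C.u3.per (pw1_spec b3)))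
        (pwd (n := 5) (pe3 C.u5.per (pw1_spec b5))) (pwd (n := 7) (pe3 C.u7.per (pw1_spec b7)))
        (pwd (n := 13) (pe3 C.u13.per (pw1_spec b13)))

lemma g1_spec (h3 : g1n sl su 3 (rs 3 p) (rs 3 b) = true)
    (h5 : g1n sl su 5 (rs 5 p) (rs 5 b) = true) (h7 : g1n sl su 7 (rs 7 p) (rs 7 b) = true)
    (h13 : g1n sl su 13 (rs 13 p) (rs 13 b) = true) :
    (1365 : ℤ) ∣ p - sgz su * sgz sl ∧ (1365 : ℤ) ∣ b := by
  obtain ⟨x3, y3⟩ := g1n_spec (n := 3) (by norm_num) h3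
  obtain ⟨x5, y5⟩ := g1n_spec (n := 5) (by norm_num) h5
  obtain ⟨x7, y7⟩ := g1n_spec (n := 7) (by norm_num) h7
  obtain ⟨x13, y13⟩ := g1n_spec (n := 13) (by norm_num) h13
  refine ⟨?_, dv1365 y3 y5 y7 y13⟩
  have h := dv1365 x3 x5 x7 x13
  have hu : sgz su * sgz su = 1 := by cases su <;> rfl
  obtain ⟨k, hk⟩ := h
  exact ⟨sgz su * k, by linear_combination sgz su * hk - p * hu⟩

lemma fin_spec (hm : 1 ≤ m) {O : List (List ℕ)}
    (h : fin sl su O (m % 12) ((m / 12) % 13) (rs 13 p) (rs 13 q) (rs 13 b) (rs 7 p) (rs 7 q)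
      (rs 7 b) (rs 5 p) (rs 5 q) (rs 5 b) (rs 3 p) (rs 3 q) (rs 3 b) = true) :
    G2 (sgz su) p q m ∨ G3 (sgz sl) p q m ∨ cdM p q b m ∈ O := by
  rcases orr_spec h with h | h
  · exact Or.inl (g2_spec C hm h)
  rcases orr_spec h with h | h
  · exact Or.inr (Or.inl (g3_spec C h))
  · refine Or.inr (Or.inr ?_)
    have h1 := memC_spec h
    have e : Nat.mod (Nat.add (m % 12) (Nat.mul (nat_lit 12) ((m / 12) % 13))) (nat_lit 13) =
        m % 13 := by
      change (m % 12 + 12 * ((m / 12) % 13)) % 13 = m % 13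
      omega
    rw [e] at h1
    exact h1

end Fin

end Pool.Agent.OEG.En
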