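import Pool.Agent.OEG.TrU
import Pool.Agent.OEG.TrV
import Pool.Agent.OEG.TrKpp0
import Pool.Agent.OEG.TrKpp1
import Pool.Agent.OEG.TrKpp2
import Pool.Agent.OEG.TrKpp3
import Pool.Agent.OEG.TrKpp4
import Pool.Agent.OEG.TrKpp5
import Pool.Agent.OEG.TrKpm0
import Pool.Agent.OEG.TrKpm1
import Pool.Agent.OEG.TrKpm2
import Pool.Agent.OEG.TrKpm3
import Pool.Agent.OEG.TrKpm4
import Pool.Agent.OEG.TrKpm5
import Pool.Agent.OEG.TrKmp0
import Pool.Agent.OEG.TrKmp1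
import Pool.Agent.OEG.TrKmp2
import Pool.Agent.OEG.TrKmp3
import Pool.Agent.OEG.TrKmp4
import Pool.Agent.OEG.TrKmp5
import Pool.Agent.OEG.TrKmm0
import Pool.Agent.OEG.TrKmm1
import Pool.Agent.OEG.TrKmm2
import Pool.Agent.OEG.TrKmm3
import Pool.Agent.OEG.TrKmm4
import Pool.Agent.OEG.TrKmm5

/-!
Project OEG: MAIN.
-/

namespace Pool.Agent.OEG

open Pool.Agent.OEG.En Pool.Agent.Lib_helper5.LK

/-- the parts of a check -/
lemma top4 {sl su : Bool} {D p q b p' : ℤ} {m : ℕ} (C : Cx sl su D p q b p' m) (hC : Cn q b)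
    {L3 L5 L7 L13 : List (ℕ × ℕ × ℕ)} {O : List (List ℕ)}
    (k3 : cplK 3 sl su fil0 L3 = true) (k5 : cplK 5 sl su fil0 L5 = true)
    (k7 : cplK 7 sl su fil0 L7 = true) (k13 : cplK 13 sl su fil13 L13 = true)
    (h0 : top sl su L3 L5 L7 L13 O [0, 1] = true)
    (h1 : top sl su L3 L5 L7 L13 O [2, 3] = true)
    (h2 : top sl su L3 L5 L7 L13 O [4, 5] = true)
    (h3 : top sl su L3 L5 L7 L13 O [6, 7] = true)
    (h4 : top sl su L3 L5 L7 L13 O [8, 9] = true)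
    (h5 : top sl su L3 L5 L7 L13 O [10, 11] = true) :
    stp (rs 13 D) (rs 7 D) (rs 5 D) = true ∨ Fn sl su O p q b m := by
  have hm : m % 12 ∈ [0, 1] ∨ m % 12 ∈ [2, 3] ∨ m % 12 ∈ [4, 5] ∨ m % 12 ∈ [6, 7] ∨
      m % 12 ∈ [8, 9] ∨ m % 12 ∈ [10, 11] := by
    simp only [List.mem_cons, List.not_mem_nil, or_false]
    omega
  rcases hm with hm | hm | hm | hm | hm | hm
  · obtain ⟨T, hT, h⟩ := top_spec h0 hm
    exact tree_spec C hT hC k3 k5 k7 k13 h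
  · obtain ⟨T, hT, h⟩ := top_spec h1 hm
    exact tree_spec C hT hC k3 k5 k7 k13 h
  · obtain ⟨T, hT, h⟩ := top_spec h2 hm
    exact tree_spec C hT hC k3 k5 k7 k13 h
  · obtain ⟨T, hT, h⟩ := top_spec h3 hm
    exact tree_spec C hT hC k3 k5 k7 k13 h
  · obtain ⟨T, hT, h⟩ := top_spec h4 hm
    exact tree_spec C hT hC k3 k5 k7 k13 h
  · obtain ⟨T, hT, h⟩ := top_spec h5 hm
    exact tree_spec C hT hC k3 k5 k7 k13 h

theorem t_MAIN : Stmt_MAIN := by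
  intro D l u p q b m hl hu hm hqb hD hp S hC
  obtain ⟨sl, rfl⟩ := sg_cases hl
  obtain ⟨su, rfl⟩ := sg_cases hu
  obtain ⟨p', i13, i7, i5, i3⟩ := exists_inv hp
  have C : Cx sl su D p q b p' m := ⟨hqb, hD, i13, i7, i5, i3, S⟩
  have key : ∃ O, O = OL (sgz sl) (sgz su) ∧
      (stp (rs 13 D) (rs 7 D) (rs 5 D) = true ∨ Fn sl su O p q b m) := by
    cases sl <;> cases su
    · exact ⟨OLmm, rfl, top4 C hC c3mm c5mm c7mm c13mm
        k_mm0 k_mm1 k_mm2 k_mm3 k_mm4 k_mm5⟩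
    · exact ⟨OLmp, rfl, top4 C hC c3mp c5mp c7mp c13mp
        k_mp0 k_mp1 k_mp2 k_mp3 k_mp4 k_mp5⟩
    · exact ⟨OLpm, rfl, top4 C hC c3pm c5pm c7pm c13pm
        k_pm0 k_pm1 k_pm2 k_pm3 k_pm4 k_pm5⟩
    · exact ⟨OLpp, rfl, top4 C hC c3pp c5pp c7pp c13pp
        k_pp0 k_pp1 k_pp2 k_pp3 k_pp4 k_pp5⟩
  obtain ⟨O, rfl, h⟩ := key
  rcases h with h | h
  · rcases stp_spec h with h | h
    · exact Or.inr (Or.inr (Or.inr (Or.inl h)))
    · exact Or.inr (Or.inr (Or.inr (Or.inr (Or.inl h))))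
  rcases h with ⟨h3, h5, h7, h13⟩ | h
  · exact Or.inl (g1_spec C h3 h5 h7 h13)
  · rcases fin_spec C hm h with h | h | h
    · exact Or.inr (Or.inl h)
    · exact Or.inr (Or.inr (Or.inl h))
    · exact Or.inr (Or.inr (Or.inr (Or.inr (Or.inr h))))

end Pool.Agent.OEG
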