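import Pool.Agent.OEG.WR17A1
import Pool.Agent.OEG.WR17A2
import Pool.Agent.OEG.WR17A3
import Pool.Agent.OEG.WR17A4
import Pool.Agent.OEG.WR17B1
import Pool.Agent.OEG.WR17B2
import Pool.Agent.OEG.WR17C1
import Pool.Agent.OEG.WR17C2
import Pool.Agent.OEG.WR17D1
import Pool.Agent.OEG.Sgn

/-!
Project OEG, elimination for the first family: the theorem `W17`.
-/

set_option autoImplicit false

namespace Pool.Agent.OEG.W.T17

open Pool.Agent.LibH4 Pool.Agent.LibH4.Ker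
open Pool.Agent.Lib_helper5 Pool.Agent.Lib_helper5.LK Pool.Agent.Lib_helper5.TB
open Pool.Agent.PSX.Ev (OSys)

/-- all the checks -/
theorem rAll (bl bu : Bool) (a : ℕ) (ha : a < 12) (g : ℕ) (hg : g < 3) : wK bl bu a g = true := by
  cases bl <;> cases bu
  · exact rD1 a (Nat.zero_le _) ha g hg
  · have hc : (0 ≤ a ∧ a < 6) ∨ (6 ≤ a ∧ a < 12) := by omega
    rcases hc with h | h
    · exact rC1 a h.1 h.2 g hg
    · exact rC2 a h.1 h.2 g hg
  · have hc : (0 ≤ a ∧ a < 6) ∨ (6 ≤ a ∧ a < 12) := by omega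
    rcases hc with h | h
    · exact rB1 a h.1 h.2 g hg
    · exact rB2 a h.1 h.2 g hg
  · have hc : (0 ≤ a ∧ a < 3) ∨ (3 ≤ a ∧ a < 6) ∨ (6 ≤ a ∧ a < 9) ∨ (9 ≤ a ∧ a < 12) := by omega
    rcases hc with h | h | h | h
    · exact rA1 a h.1 h.2 g hg
    · exact rA2 a h.1 h.2 g hg
    · exact rA3 a h.1 h.2 g hg
    · exact rA4 a h.1 h.2 g hg

theorem core {D : ℤ} {bl bu : Bool} {p q b : ℤ} {m : ℕ} (hm : 1 ≤ m)
    (eq : q * b = sz bu * p - sz bl) (hD : D = (q * p ^ m + b) ^ 2 + 4 * sz bl * p ^ m)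
    (np : ∀ r : ℕ, r ∣ 9699690 → r ≠ 1 → ¬ (r : ℤ) ∣ p)
    (S : OSys 9699690 D (J1 (sz bl) (sz bu) p q b m)) (h455 : D % 455 = 293) (hq : rs 13 q < 7) :
    G1 (sz bl) (sz bu) p q b ∨ G2 (sz bu) p q m ∨ G3 (sz bl) p q m := by
  have H : Hy 293 bl bu D p q b m := ⟨eq, hD, np, S, hq, h455⟩
  have hl : rs 13 p < 13 := rs_lt p
  have h := wK_spec H rfl rfl (rAll bl bu (m % 12) (Nat.mod_lt _ (by norm_num))
    ((rs 13 p - 1) / 4) (by omega))
  refine fin17 _ _ p q b m (sg_sz bl) (sg_sz bu) hm ?_ (by rw [← hD]; exact h455) h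
  intro n hn
  simp only [List.mem_cons, List.not_mem_nil, or_false] at hn
  rcases hn with rfl | rfl | rfl | rfl <;> exact np _ (by norm_num) (by norm_num)

lemma G1_neg {l u p q b : ℤ} (h : G1 l u p (-q) (-b)) : G1 l u p q b where
  p0 := h.p0
  b0 := (dvd_neg).1 h.b0
  x17 hq := by
    have h2 := h.x17 (by
      rcases hq with hq | hq
      · right
        have e : -q + 17 = -(q - 17) := by ring
        rw [e]; exact hq.neg_right
      · left
        have e : -q - 17 = -(q + 17) := by ring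
        rw [e]; exact hq.neg_right)
    exact ⟨h2.1, (dvd_neg).1 h2.2⟩
  x19 hq := by
    have h2 := h.x19 (by
      rcases hq with hq | hq
      · right
        have e : -q + 21 = -(q - 21) := by ring
        rw [e]; exact hq.neg_right
      · left
        have e : -q - 21 = -(q + 21) := by ring
        rw [e]; exact hq.neg_right)
    exact ⟨h2.1, (dvd_neg).1 h2.2⟩

lemma sg_neg {e : ℤ} (h : OEX.Sg e) : OEX.Sg (-e) := by
  rcases h with rfl | rfl
  · right; rfl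
  · left; norm_num

lemma G2_neg {u p q : ℤ} {m : ℕ} (h : G2 u p (-q) m) : G2 u p q m := by
  obtain ⟨h1, ⟨e, he, h2⟩, h3⟩ := h
  refine ⟨h1, ⟨-e, sg_neg he, ?_⟩, h3⟩
  have e1 : q - -e = -(-q - e) := by ring
  rw [e1]; exact h2.neg_right

lemma G3_neg {l p q : ℤ} {m : ℕ} (h : G3 l p (-q) m) : G3 l p q m := by
  obtain ⟨h1, ⟨e, he, h2⟩, h3⟩ := h
  refine ⟨h1, ⟨-e, sg_neg he, ?_⟩, h3⟩
  have e1 : q - -e * p = -(-q - e * p) := by ring
  rw [e1]; exact h2.neg_right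

theorem core2 {D : ℤ} {bl bu : Bool} {p q b : ℤ} {m : ℕ} (hm : 1 ≤ m)
    (eq : q * b = sz bu * p - sz bl) (hD : D = (q * p ^ m + b) ^ 2 + 4 * sz bl * p ^ m)
    (np : ∀ r : ℕ, r ∣ 9699690 → r ≠ 1 → ¬ (r : ℤ) ∣ p)
    (S : OSys 9699690 D (J1 (sz bl) (sz bu) p q b m)) (h455 : D % 455 = 293) :
    G1 (sz bl) (sz bu) p q b ∨ G2 (sz bu) p q m ∨ G3 (sz bl) p q m := by
  rcases Nat.lt_or_ge (rs 13 q) 7 with hq | hq
  · exact core hm eq hD np S h455 hq
  · have hl : rs 13 q < 13 := rs_lt q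
    have hr : rs 13 (-q) < 7 := by
      have h1 := rs_of (p := 13) (n := 13 - rs 13 q) (x := -q) (by
        rw [Nat.cast_sub hl.le, rs_cast]
        push_cast
        have h13 : (13 : ZMod 13) = 0 := by decide
        rw [h13, zero_sub])
      omega
    have h := core (q := -q) (b := -b) hm (by rw [neg_mul_neg]; exact eq)
      (by rw [hD]; ring) np (osys_neg S) h455 hr
    rcases h with h | h | h
    · exact Or.inl (G1_neg h)
    · exact Or.inr (Or.inl (G2_neg h))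
    · exact Or.inr (Or.inr (G3_neg h))

end Pool.Agent.OEG.W.T17

namespace Pool.Agent.OEG

theorem t_W17 : Stmt_W17 := by
  intro D l u p q b m hl hu hm eq hD np S h455
  have hl' : ∃ bl, l = W.sz bl := by
    rcases hl with rfl | rfl
    · exact ⟨true, rfl⟩
    · exact ⟨false, rfl⟩
  have hu' : ∃ bu, u = W.sz bu := by
    rcases hu with rfl | rfl
    · exact ⟨true, rfl⟩
    · exact ⟨false, rfl⟩
  obtain ⟨bl, rfl⟩ := hl'
  obtain ⟨bu, rfl⟩ := hu'
  exact W.T17.core2 hm eq hD np S h455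

end Pool.Agent.OEG
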