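import Pool.Agent.OEG.ASM
import Pool.Agent.OEG.TMain
import Pool.Agent.OEG.Oth
import Pool.Agent.OEG.W17
import Pool.Agent.OEG.W19
import Pool.Agent.OEG.Sgn

/-! Elimination for the first family. -/

namespace Pool.Agent.OEG

theorem t_EL1 : Stmt_EL1 := t_ASM t_MAIN t_OTH t_W17 t_W19 t_SGN

end Pool.Agent.OEG
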