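import Pool.Agent.OEG.E2F00a
import Pool.Agent.OEG.E2F00b
import Pool.Agent.OEG.E2F00c
import Pool.Agent.OEG.E2F01a
import Pool.Agent.OEG.E2F01b
import Pool.Agent.OEG.E2F01c
import Pool.Agent.OEG.E2F10a
import Pool.Agent.OEG.E2F10b
import Pool.Agent.OEG.E2F10c
import Pool.Agent.OEG.E2F11a
import Pool.Agent.OEG.E2F11b
import Pool.Agent.OEG.E2F11c
import Pool.Agent.OEG.E2N
import Pool.Agent.OEG.E2Aff
import Pool.Agent.OEG.E2Cl
import Pool.Agent.OEG.E2Wt
import Pool.Agent.OEG.E2Ev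
import Pool.Agent.OEG.E2Tst
import Pool.Agent.OEG.E2Ro
import Pool.Agent.OEG.E2Mu

/-!
Project OEG: the elimination for the second family.
-/

set_option autoImplicit false

namespace Pool.Agent.OEG.E2

/-- the whole computation -/
theorem hrun : ∀ σ τ A0 : ℕ, σ < 2 → τ < 2 → A0 < 12 → run σ τ A0 = true := by
  intro σ τ A0 h1 h2 h3
  interval_cases σ
  · interval_cases τ
    · interval_cases A0
      exacts [run_0_0_0, run_0_0_1, run_0_0_2, run_0_0_3, run_0_0_4, run_0_0_5,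
        run_0_0_6, run_0_0_7, run_0_0_8, run_0_0_9, run_0_0_10, run_0_0_11]
    · interval_cases A0
      exacts [run_0_1_0, run_0_1_1, run_0_1_2, run_0_1_3, run_0_1_4, run_0_1_5,
        run_0_1_6, run_0_1_7, run_0_1_8, run_0_1_9, run_0_1_10, run_0_1_11]
  · interval_cases τ
    · interval_cases A0
      exacts [run_1_0_0, run_1_0_1, run_1_0_2, run_1_0_3, run_1_0_4, run_1_0_5,
        run_1_0_6, run_1_0_7, run_1_0_8, run_1_0_9, run_1_0_10, run_1_0_11]
    · interval_cases A0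
      exacts [run_1_1_0, run_1_1_1, run_1_1_2, run_1_1_3, run_1_1_4, run_1_1_5,
        run_1_1_6, run_1_1_7, run_1_1_8, run_1_1_9, run_1_1_10, run_1_1_11]

end Pool.Agent.OEG.E2

namespace Pool.Agent.OEG

/-- **the elimination for the second family** -/
theorem t_EL2 : Stmt_EL2 :=
  E2.fin ⟨E2.t_AFF, E2.t_CL, E2.t_WT, E2.t_EV, E2.t_TST, E2.t_RO, E2.t_DG, E2.t_PER, E2.t_MU⟩ E2.hrun

end Pool.Agent.OEG
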