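import Pool.Agent.OEG.Defs
import Pool.Agent.PSX.KRel
import Pool.Agent.PSX.KRel3

/-!
Project OEG: the reduced relations of the tables for lists of forms (generated).
-/

set_option autoImplicit false

namespace Pool.Agent.OEG

open Pool.Agent.LibH4 Pool.Agent.LibH4.Ker
open Pool.Agent.Lib_helper5 Pool.Agent.Lib_helper5.LK Pool.Agent.Lib_helper5.TB
open Pool.Agent.LibH4.S7 (Rl)
open Pool.Agent.PSX.K Pool.Agent.PSX.EL
open Pool.Agent.PSX.Ev (OSys adP_JO adO_JO adT_J CompG.of)

/-- a reduced relation holds for a list of forms -/
def Hj (r : Rl) (J : List Fm) : Prop := (J.map r.val).sum % r.l = 0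

variable {D : ℤ} {J : List Fm}


theorem e119N13 (S : OSys 9699690 D J) : Hj R119N13 J := by
  have hF : F1.length = 1 := by decide
  have key := S.use (h := 1) (l := 13) tok_119N13 tab1_119N13 tab2_119N13 tab3_119N13 rok_119N13
    red1_119N13 red2_119N13 red3_119N13 (CompG.of comp17) (CompG.of comp7)
    (CompG.of comp1) (by norm_num) (by norm_num) (by norm_num) (by norm_num)
    (adP_JO S (by norm_num) (by norm_num) (by norm_num))
    (adP_JO S (by norm_num) (by norm_num) (by norm_num))
    (adT_J 1 J) (by norm_num)
  rw [hF] at key
  exact key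

theorem e119N5 (S : OSys 9699690 D J) : Hj R119N5 J := by
  have hF : F1.length = 1 := by decide
  have key := S.use (h := 1) (l := 5) tok_119N5 tab1_119N5 tab2_119N5 tab3_119N5 rok_119N5
    red1_119N5 red2_119N5 red3_119N5 (CompG.of comp17) (CompG.of comp7)
    (CompG.of comp1) (by norm_num) (by norm_num) (by norm_num) (by norm_num)
    (adP_JO S (by norm_num) (by norm_num) (by norm_num))
    (adP_JO S (by norm_num) (by norm_num) (by norm_num))
    (adT_J 1 J) (by norm_num)
  rw [hF] at key
  exact key

theorem e133N13 (S : OSys 9699690 D J) : Hj R133N13 J := by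
  have hF : F1.length = 1 := by decide
  have key := S.use (h := 1) (l := 13) tok_133N13 tab1_133N13 tab2_133N13 tab3_133N13 rok_133N13
    red1_133N13 red2_133N13 red3_133N13 (CompG.of comp19) (CompG.of comp7)
    (CompG.of comp1) (by norm_num) (by norm_num) (by norm_num) (by norm_num)
    (adP_JO S (by norm_num) (by norm_num) (by norm_num))
    (adP_JO S (by norm_num) (by norm_num) (by norm_num))
    (adT_J 1 J) (by norm_num)
  rw [hF] at key
  exact key

theorem e140N13 (S : OSys 9699690 D J) : Hj R140N13 J := by
  have hF : F4.length = 4 := by decide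
  have key := S.use (h := 1) (l := 13) tok_140N13 tab1_140N13 tab2_140N13 tab3_140N13 rok_140N13
    red1_140N13 red2_140N13 red3_140N13 (CompG.of comp7) (CompG.of comp5)
    (CompG.of comp4) (by norm_num) (by norm_num) (by norm_num) (by norm_num)
    (adP_JO S (by norm_num) (by norm_num) (by norm_num))
    (adP_JO S (by norm_num) (by norm_num) (by norm_num))
    (adO_JO S (by norm_num)) (by norm_num)
  rw [hF] at key
  exact key

theorem e143N5 (S : OSys 9699690 D J) : Hj R143N5 J := by
  have hF : F1.length = 1 := by decide
  have key := S.use (h := 1) (l := 5) tok_143N5 tab1_143N5 tab2_143N5 tab3_143N5 rok_143N5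
    red1_143N5 red2_143N5 red3_143N5 (CompG.of comp11) (CompG.of comp13)
    (CompG.of comp1) (by norm_num) (by norm_num) (by norm_num) (by norm_num)
    (adP_JO S (by norm_num) (by norm_num) (by norm_num))
    (adP_JO S (by norm_num) (by norm_num) (by norm_num))
    (adT_J 1 J) (by norm_num)
  rw [hF] at key
  exact key

theorem e143N7 (S : OSys 9699690 D J) : Hj R143N7 J := by
  have hF : F1.length = 1 := by decide
  have key := S.use (h := 1) (l := 7) tok_143N7 tab1_143N7 tab2_143N7 tab3_143N7 rok_143N7
    red1_143N7 red2_143N7 red3_143N7 (CompG.of comp11) (CompG.of comp13)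
    (CompG.of comp1) (by norm_num) (by norm_num) (by norm_num) (by norm_num)
    (adP_JO S (by norm_num) (by norm_num) (by norm_num))
    (adP_JO S (by norm_num) (by norm_num) (by norm_num))
    (adT_J 1 J) (by norm_num)
  rw [hF] at key
  exact key

theorem e152F19a (S : OSys 9699690 D J) : Hj R152F19a J := by
  have hF : F1.length = 1 := by decide
  have key := S.use (h := 361) (l := 19) tok_152F19a tab1_152F19a tab2_152F19a tab3_152F19a rok_152F19a
    red1_152F19a red2_152F19a red3_152F19a (CompG.of comp19) (CompG.of comp8)
    (CompG.of comp1) (by norm_num) (by norm_num) (by norm_num) (by norm_num)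
    (adP_JO S (by norm_num) (by norm_num) (by norm_num))
    (adO_JO S (by norm_num))
    (adT_J 1 J) (by norm_num)
  rw [hF] at key
  exact key

theorem e152F19b (S : OSys 9699690 D J) : Hj R152F19b J := by
  have hF : F1.length = 1 := by decide
  have key := S.use (h := 361) (l := 19) tok_152F19b tab1_152F19b tab2_152F19b tab3_152F19b rok_152F19b
    red1_152F19b red2_152F19b red3_152F19b (CompG.of comp19) (CompG.of comp8)
    (CompG.of comp1) (by norm_num) (by norm_num) (by norm_num) (by norm_num)
    (adP_JO S (by norm_num) (by norm_num) (by norm_num))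
    (adO_JO S (by norm_num))
    (adT_J 1 J) (by norm_num)
  rw [hF] at key
  exact key

theorem e187F17a (S : OSys 9699690 D J) : Hj R187F17a J := by
  have hF : F1.length = 1 := by decide
  have key := S.use (h := 289) (l := 17) tok_187F17a tab1_187F17a tab2_187F17a tab3_187F17a rok_187F17a
    red1_187F17a red2_187F17a red3_187F17a (CompG.of comp17) (CompG.of comp11)
    (CompG.of comp1) (by norm_num) (by norm_num) (by norm_num) (by norm_num)
    (adP_JO S (by norm_num) (by norm_num) (by norm_num))
    (adP_JO S (by norm_num) (by norm_num) (by norm_num))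
    (adT_J 1 J) (by norm_num)
  rw [hF] at key
  exact key

theorem e187F17b (S : OSys 9699690 D J) : Hj R187F17b J := by
  have hF : F1.length = 1 := by decide
  have key := S.use (h := 289) (l := 17) tok_187F17b tab1_187F17b tab2_187F17b tab3_187F17b rok_187F17b
    red1_187F17b red2_187F17b red3_187F17b (CompG.of comp17) (CompG.of comp11)
    (CompG.of comp1) (by norm_num) (by norm_num) (by norm_num) (by norm_num)
    (adP_JO S (by norm_num) (by norm_num) (by norm_num))
    (adP_JO S (by norm_num) (by norm_num) (by norm_num))
    (adT_J 1 J) (by norm_num)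
  rw [hF] at key
  exact key

theorem e221N5 (S : OSys 9699690 D J) : Hj R221N5 J := by
  have hF : F1.length = 1 := by decide
  have key := S.use (h := 1) (l := 5) tok_221N5 tab1_221N5 tab2_221N5 tab3_221N5 rok_221N5
    red1_221N5 red2_221N5 red3_221N5 (CompG.of comp17) (CompG.of comp13)
    (CompG.of comp1) (by norm_num) (by norm_num) (by norm_num) (by norm_num)
    (adP_JO S (by norm_num) (by norm_num) (by norm_num))
    (adP_JO S (by norm_num) (by norm_num) (by norm_num))
    (adT_J 1 J) (by norm_num)
  rw [hF] at key
  exact key

theorem e247F19a (S : OSys 9699690 D J) : Hj R247F19a J := by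
  have hF : F1.length = 1 := by decide
  have key := S.use (h := 361) (l := 19) tok_247F19a tab1_247F19a tab2_247F19a tab3_247F19a rok_247F19a
    red1_247F19a red2_247F19a red3_247F19a (CompG.of comp19) (CompG.of comp13)
    (CompG.of comp1) (by norm_num) (by norm_num) (by norm_num) (by norm_num)
    (adP_JO S (by norm_num) (by norm_num) (by norm_num))
    (adP_JO S (by norm_num) (by norm_num) (by norm_num))
    (adT_J 1 J) (by norm_num)
  rw [hF] at key
  exact key

theorem e260F13 (S : OSys 9699690 D J) : Hj R260F13 J := by
  have hF : F4.length = 4 := by decide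
  have key := S.use (h := 169) (l := 13) tok_260F13 tab1_260F13 tab2_260F13 tab3_260F13 rok_260F13
    red1_260F13 red2_260F13 red3_260F13 (CompG.of comp13) (CompG.of comp5)
    (CompG.of comp4) (by norm_num) (by norm_num) (by norm_num) (by norm_num)
    (adP_JO S (by norm_num) (by norm_num) (by norm_num))
    (adP_JO S (by norm_num) (by norm_num) (by norm_num))
    (adO_JO S (by norm_num)) (by norm_num)
  rw [hF] at key
  exact key

theorem e280F7 (S : OSys 9699690 D J) : Hj R280F7 J := by
  have hF : F8.length = 16 := by decide
  have key := S.use (h := 49) (l := 7) tok_280F7 tab1_280F7 tab2_280F7 tab3_280F7 rok_280F7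
    red1_280F7 red2_280F7 red3_280F7 (CompG.of comp7) (CompG.of comp5)
    (CompG.of comp8) (by norm_num) (by norm_num) (by norm_num) (by norm_num)
    (adP_JO S (by norm_num) (by norm_num) (by norm_num))
    (adP_JO S (by norm_num) (by norm_num) (by norm_num))
    (adO_JO S (by norm_num)) (by norm_num)
  rw [hF] at key
  exact key

theorem e308F7 (S : OSys 9699690 D J) : Hj R308F7 J := by
  have hF : F4.length = 4 := by decide
  have key := S.use (h := 49) (l := 7) tok_308F7 tab1_308F7 tab2_308F7 tab3_308F7 rok_308F7
    red1_308F7 red2_308F7 red3_308F7 (CompG.of comp11) (CompG.of comp7)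
    (CompG.of comp4) (by norm_num) (by norm_num) (by norm_num) (by norm_num)
    (adP_JO S (by norm_num) (by norm_num) (by norm_num))
    (adP_JO S (by norm_num) (by norm_num) (by norm_num))
    (adO_JO S (by norm_num)) (by norm_num)
  rw [hF] at key
  exact key

theorem e364F13a (S : OSys 9699690 D J) : Hj R364F13a J := by
  have hF : F4.length = 4 := by decide
  have key := S.use (h := 169) (l := 13) tok_364F13a tab1_364F13a tab2_364F13a tab3_364F13a rok_364F13a
    red1_364F13a red2_364F13a red3_364F13a (CompG.of comp13) (CompG.of comp7)
    (CompG.of comp4) (by norm_num) (by norm_num) (by norm_num) (by norm_num)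
    (adP_JO S (by norm_num) (by norm_num) (by norm_num))
    (adP_JO S (by norm_num) (by norm_num) (by norm_num))
    (adO_JO S (by norm_num)) (by norm_num)
  rw [hF] at key
  exact key

theorem e364F13b (S : OSys 9699690 D J) : Hj R364F13b J := by
  have hF : F4.length = 4 := by decide
  have key := S.use (h := 169) (l := 13) tok_364F13b tab1_364F13b tab2_364F13b tab3_364F13b rok_364F13b
    red1_364F13b red2_364F13b red3_364F13b (CompG.of comp13) (CompG.of comp7)
    (CompG.of comp4) (by norm_num) (by norm_num) (by norm_num) (by norm_num)
    (adP_JO S (by norm_num) (by norm_num) (by norm_num))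
    (adP_JO S (by norm_num) (by norm_num) (by norm_num))
    (adO_JO S (by norm_num)) (by norm_num)
  rw [hF] at key
  exact key

theorem e399F7 (S : OSys 9699690 D J) : Hj R399F7 J := by
  have hF : F3.length = 3 := by decide
  have key := S.use (h := 49) (l := 7) tok_399F7 tab1_399F7 tab2_399F7 tab3_399F7 rok_399F7
    red1_399F7 red2_399F7 red3_399F7 (CompG.of comp19) (CompG.of comp7)
    (CompG.of comp3) (by norm_num) (by norm_num) (by norm_num) (by norm_num)
    (adP_JO S (by norm_num) (by norm_num) (by norm_num))
    (adP_JO S (by norm_num) (by norm_num) (by norm_num))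
    (adP_JO S (by norm_num) (by norm_num) (by norm_num)) (by norm_num)
  rw [hF] at key
  exact key

theorem e455F13a (S : OSys 9699690 D J) : Hj R455F13a J := by
  have hF : F5.length = 10 := by decide
  have key := S.use (h := 169) (l := 13) tok_455F13a tab1_455F13a tab2_455F13a tab3_455F13a rok_455F13a
    red1_455F13a red2_455F13a red3_455F13a (CompG.of comp13) (CompG.of comp7)
    (CompG.of comp5) (by norm_num) (by norm_num) (by norm_num) (by norm_num)
    (adP_JO S (by norm_num) (by norm_num) (by norm_num))
    (adP_JO S (by norm_num) (by norm_num) (by norm_num))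
    (adP_JO S (by norm_num) (by norm_num) (by norm_num)) (by norm_num)
  rw [hF] at key
  exact key

theorem e455F13b (S : OSys 9699690 D J) : Hj R455F13b J := by
  have hF : F5.length = 10 := by decide
  have key := S.use (h := 169) (l := 13) tok_455F13b tab1_455F13b tab2_455F13b tab3_455F13b rok_455F13b
    red1_455F13b red2_455F13b red3_455F13b (CompG.of comp13) (CompG.of comp7)
    (CompG.of comp5) (by norm_num) (by norm_num) (by norm_num) (by norm_num)
    (adP_JO S (by norm_num) (by norm_num) (by norm_num))
    (adP_JO S (by norm_num) (by norm_num) (by norm_num))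
    (adP_JO S (by norm_num) (by norm_num) (by norm_num)) (by norm_num)
  rw [hF] at key
  exact key

theorem e455F13c (S : OSys 9699690 D J) : Hj R455F13c J := by
  have hF : F5.length = 10 := by decide
  have key := S.use (h := 169) (l := 13) tok_455F13c tab1_455F13c tab2_455F13c tab3_455F13c rok_455F13c
    red1_455F13c red2_455F13c red3_455F13c (CompG.of comp13) (CompG.of comp7)
    (CompG.of comp5) (by norm_num) (by norm_num) (by norm_num) (by norm_num)
    (adP_JO S (by norm_num) (by norm_num) (by norm_num))
    (adP_JO S (by norm_num) (by norm_num) (by norm_num))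
    (adP_JO S (by norm_num) (by norm_num) (by norm_num)) (by norm_num)
  rw [hF] at key
  exact key

theorem e455F13d (S : OSys 9699690 D J) : Hj R455F13d J := by
  have hF : F5.length = 10 := by decide
  have key := S.use (h := 169) (l := 13) tok_455F13d tab1_455F13d tab2_455F13d tab3_455F13d rok_455F13d
    red1_455F13d red2_455F13d red3_455F13d (CompG.of comp13) (CompG.of comp7)
    (CompG.of comp5) (by norm_num) (by norm_num) (by norm_num) (by norm_num)
    (adP_JO S (by norm_num) (by norm_num) (by norm_num))
    (adP_JO S (by norm_num) (by norm_num) (by norm_num))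
    (adP_JO S (by norm_num) (by norm_num) (by norm_num)) (by norm_num)
  rw [hF] at key
  exact key

theorem e455F13e (S : OSys 9699690 D J) : Hj R455F13e J := by
  have hF : F5.length = 10 := by decide
  have key := S.use (h := 169) (l := 13) tok_455F13e tab1_455F13e tab2_455F13e tab3_455F13e rok_455F13e
    red1_455F13e red2_455F13e red3_455F13e (CompG.of comp13) (CompG.of comp7)
    (CompG.of comp5) (by norm_num) (by norm_num) (by norm_num) (by norm_num)
    (adP_JO S (by norm_num) (by norm_num) (by norm_num))
    (adP_JO S (by norm_num) (by norm_num) (by norm_num))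
    (adP_JO S (by norm_num) (by norm_num) (by norm_num)) (by norm_num)
  rw [hF] at key
  exact key

theorem e455F5 (S : OSys 9699690 D J) : Hj R455F5 J := by
  have hF : F5.length = 10 := by decide
  have key := S.use (h := 25) (l := 5) tok_455F5 tab1_455F5 tab2_455F5 tab3_455F5 rok_455F5
    red1_455F5 red2_455F5 red3_455F5 (CompG.of comp13) (CompG.of comp7)
    (CompG.of comp5) (by norm_num) (by norm_num) (by norm_num) (by norm_num)
    (adP_JO S (by norm_num) (by norm_num) (by norm_num))
    (adP_JO S (by norm_num) (by norm_num) (by norm_num))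
    (adP_JO S (by norm_num) (by norm_num) (by norm_num)) (by norm_num)
  rw [hF] at key
  exact key

theorem e520F5 (S : OSys 9699690 D J) : Hj R520F5 J := by
  have hF : F8.length = 16 := by decide
  have key := S.use (h := 25) (l := 5) tok_520F5 tab1_520F5 tab2_520F5 tab3_520F5 rok_520F5
    red1_520F5 red2_520F5 red3_520F5 (CompG.of comp13) (CompG.of comp5)
    (CompG.of comp8) (by norm_num) (by norm_num) (by norm_num) (by norm_num)
    (adP_JO S (by norm_num) (by norm_num) (by norm_num))
    (adP_JO S (by norm_num) (by norm_num) (by norm_num))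
    (adO_JO S (by norm_num)) (by norm_num)
  rw [hF] at key
  exact key

theorem e520N17 (S : OSys 9699690 D J) : Hj R520N17 J := by
  have hF : F8.length = 16 := by decide
  have key := S.use (h := 1) (l := 17) tok_520N17 tab1_520N17 tab2_520N17 tab3_520N17 rok_520N17
    red1_520N17 red2_520N17 red3_520N17 (CompG.of comp13) (CompG.of comp5)
    (CompG.of comp8) (by norm_num) (by norm_num) (by norm_num) (by norm_num)
    (adP_JO S (by norm_num) (by norm_num) (by norm_num))
    (adP_JO S (by norm_num) (by norm_num) (by norm_num))
    (adO_JO S (by norm_num)) (by norm_num)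
  rw [hF] at key
  exact key

theorem e520N7 (S : OSys 9699690 D J) : Hj R520N7 J := by
  have hF : F8.length = 16 := by decide
  have key := S.use (h := 1) (l := 7) tok_520N7 tab1_520N7 tab2_520N7 tab3_520N7 rok_520N7
    red1_520N7 red2_520N7 red3_520N7 (CompG.of comp13) (CompG.of comp5)
    (CompG.of comp8) (by norm_num) (by norm_num) (by norm_num) (by norm_num)
    (adP_JO S (by norm_num) (by norm_num) (by norm_num))
    (adP_JO S (by norm_num) (by norm_num) (by norm_num))
    (adO_JO S (by norm_num)) (by norm_num)
  rw [hF] at key
  exact key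

theorem e572N5 (S : OSys 9699690 D J) : Hj R572N5 J := by
  have hF : F4.length = 4 := by decide
  have key := S.use (h := 1) (l := 5) tok_572N5 tab1_572N5 tab2_572N5 tab3_572N5 rok_572N5
    red1_572N5 red2_572N5 red3_572N5 (CompG.of comp11) (CompG.of comp13)
    (CompG.of comp4) (by norm_num) (by norm_num) (by norm_num) (by norm_num)
    (adP_JO S (by norm_num) (by norm_num) (by norm_num))
    (adP_JO S (by norm_num) (by norm_num) (by norm_num))
    (adO_JO S (by norm_num)) (by norm_num)
  rw [hF] at key
  exact key

theorem e595N13a (S : OSys 9699690 D J) : Hj R595N13a J := by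
  have hF : F5.length = 10 := by decide
  have key := S.use (h := 1) (l := 13) tok_595N13a tab1_595N13a tab2_595N13a tab3_595N13a rok_595N13a
    red1_595N13a red2_595N13a red3_595N13a (CompG.of comp17) (CompG.of comp7)
    (CompG.of comp5) (by norm_num) (by norm_num) (by norm_num) (by norm_num)
    (adP_JO S (by norm_num) (by norm_num) (by norm_num))
    (adP_JO S (by norm_num) (by norm_num) (by norm_num))
    (adP_JO S (by norm_num) (by norm_num) (by norm_num)) (by norm_num)
  rw [hF] at key
  exact key

theorem e595N13b (S : OSys 9699690 D J) : Hj R595N13b J := by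
  have hF : F5.length = 10 := by decide
  have key := S.use (h := 1) (l := 13) tok_595N13b tab1_595N13b tab2_595N13b tab3_595N13b rok_595N13b
    red1_595N13b red2_595N13b red3_595N13b (CompG.of comp17) (CompG.of comp7)
    (CompG.of comp5) (by norm_num) (by norm_num) (by norm_num) (by norm_num)
    (adP_JO S (by norm_num) (by norm_num) (by norm_num))
    (adP_JO S (by norm_num) (by norm_num) (by norm_num))
    (adP_JO S (by norm_num) (by norm_num) (by norm_num)) (by norm_num)
  rw [hF] at key
  exact key

theorem e616F11 (S : OSys 9699690 D J) : Hj R616F11 J := by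
  have hF : F8.length = 16 := by decide
  have key := S.use (h := 121) (l := 11) tok_616F11 tab1_616F11 tab2_616F11 tab3_616F11 rok_616F11
    red1_616F11 red2_616F11 red3_616F11 (CompG.of comp11) (CompG.of comp7)
    (CompG.of comp8) (by norm_num) (by norm_num) (by norm_num) (by norm_num)
    (adP_JO S (by norm_num) (by norm_num) (by norm_num))
    (adP_JO S (by norm_num) (by norm_num) (by norm_num))
    (adO_JO S (by norm_num)) (by norm_num)
  rw [hF] at key
  exact key

theorem e616N13 (S : OSys 9699690 D J) : Hj R616N13 J := by
  have hF : F8.length = 16 := by decide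
  have key := S.use (h := 1) (l := 13) tok_616N13 tab1_616N13 tab2_616N13 tab3_616N13 rok_616N13
    red1_616N13 red2_616N13 red3_616N13 (CompG.of comp11) (CompG.of comp7)
    (CompG.of comp8) (by norm_num) (by norm_num) (by norm_num) (by norm_num)
    (adP_JO S (by norm_num) (by norm_num) (by norm_num))
    (adP_JO S (by norm_num) (by norm_num) (by norm_num))
    (adO_JO S (by norm_num)) (by norm_num)
  rw [hF] at key
  exact key

theorem e680F17a (S : OSys 9699690 D J) : Hj R680F17a J := by
  have hF : F8.length = 16 := by decide
  have key := S.use (h := 289) (l := 17) tok_680F17a tab1_680F17a tab2_680F17a tab3_680F17a rok_680F17a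
    red1_680F17a red2_680F17a red3_680F17a (CompG.of comp17) (CompG.of comp5)
    (CompG.of comp8) (by norm_num) (by norm_num) (by norm_num) (by norm_num)
    (adP_JO S (by norm_num) (by norm_num) (by norm_num))
    (adP_JO S (by norm_num) (by norm_num) (by norm_num))
    (adO_JO S (by norm_num)) (by norm_num)
  rw [hF] at key
  exact key

theorem e680F17b (S : OSys 9699690 D J) : Hj R680F17b J := by
  have hF : F8.length = 16 := by decide
  have key := S.use (h := 289) (l := 17) tok_680F17b tab1_680F17b tab2_680F17b tab3_680F17b rok_680F17b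
    red1_680F17b red2_680F17b red3_680F17b (CompG.of comp17) (CompG.of comp5)
    (CompG.of comp8) (by norm_num) (by norm_num) (by norm_num) (by norm_num)
    (adP_JO S (by norm_num) (by norm_num) (by norm_num))
    (adP_JO S (by norm_num) (by norm_num) (by norm_num))
    (adO_JO S (by norm_num)) (by norm_num)
  rw [hF] at key
  exact key

theorem e680N13 (S : OSys 9699690 D J) : Hj R680N13 J := by
  have hF : F8.length = 16 := by decide
  have key := S.use (h := 1) (l := 13) tok_680N13 tab1_680N13 tab2_680N13 tab3_680N13 rok_680N13
    red1_680N13 red2_680N13 red3_680N13 (CompG.of comp17) (CompG.of comp5)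
    (CompG.of comp8) (by norm_num) (by norm_num) (by norm_num) (by norm_num)
    (adP_JO S (by norm_num) (by norm_num) (by norm_num))
    (adP_JO S (by norm_num) (by norm_num) (by norm_num))
    (adO_JO S (by norm_num)) (by norm_num)
  rw [hF] at key
  exact key

theorem e715N7 (S : OSys 9699690 D J) : Hj R715N7 J := by
  have hF : F5.length = 10 := by decide
  have key := S.use (h := 1) (l := 7) tok_715N7 tab1_715N7 tab2_715N7 tab3_715N7 rok_715N7
    red1_715N7 red2_715N7 red3_715N7 (CompG.of comp11) (CompG.of comp13)
    (CompG.of comp5) (by norm_num) (by norm_num) (by norm_num) (by norm_num)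
    (adP_JO S (by norm_num) (by norm_num) (by norm_num))
    (adP_JO S (by norm_num) (by norm_num) (by norm_num))
    (adP_JO S (by norm_num) (by norm_num) (by norm_num)) (by norm_num)
  rw [hF] at key
  exact key

theorem e728F13 (S : OSys 9699690 D J) : Hj R728F13 J := by
  have hF : F8.length = 16 := by decide
  have key := S.use (h := 169) (l := 13) tok_728F13 tab1_728F13 tab2_728F13 tab3_728F13 rok_728F13
    red1_728F13 red2_728F13 red3_728F13 (CompG.of comp13) (CompG.of comp7)
    (CompG.of comp8) (by norm_num) (by norm_num) (by norm_num) (by norm_num)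
    (adP_JO S (by norm_num) (by norm_num) (by norm_num))
    (adP_JO S (by norm_num) (by norm_num) (by norm_num))
    (adO_JO S (by norm_num)) (by norm_num)
  rw [hF] at key
  exact key

theorem e728F7 (S : OSys 9699690 D J) : Hj R728F7 J := by
  have hF : F8.length = 16 := by decide
  have key := S.use (h := 49) (l := 7) tok_728F7 tab1_728F7 tab2_728F7 tab3_728F7 rok_728F7
    red1_728F7 red2_728F7 red3_728F7 (CompG.of comp13) (CompG.of comp7)
    (CompG.of comp8) (by norm_num) (by norm_num) (by norm_num) (by norm_num)
    (adP_JO S (by norm_num) (by norm_num) (by norm_num))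
    (adP_JO S (by norm_num) (by norm_num) (by norm_num))
    (adO_JO S (by norm_num)) (by norm_num)
  rw [hF] at key
  exact key

theorem e728N19 (S : OSys 9699690 D J) : Hj R728N19 J := by
  have hF : F8.length = 16 := by decide
  have key := S.use (h := 1) (l := 19) tok_728N19 tab1_728N19 tab2_728N19 tab3_728N19 rok_728N19
    red1_728N19 red2_728N19 red3_728N19 (CompG.of comp13) (CompG.of comp7)
    (CompG.of comp8) (by norm_num) (by norm_num) (by norm_num) (by norm_num)
    (adP_JO S (by norm_num) (by norm_num) (by norm_num))
    (adP_JO S (by norm_num) (by norm_num) (by norm_num))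
    (adO_JO S (by norm_num)) (by norm_num)
  rw [hF] at key
  exact key

theorem e728N5 (S : OSys 9699690 D J) : Hj R728N5 J := by
  have hF : F8.length = 16 := by decide
  have key := S.use (h := 1) (l := 5) tok_728N5 tab1_728N5 tab2_728N5 tab3_728N5 rok_728N5
    red1_728N5 red2_728N5 red3_728N5 (CompG.of comp13) (CompG.of comp7)
    (CompG.of comp8) (by norm_num) (by norm_num) (by norm_num) (by norm_num)
    (adP_JO S (by norm_num) (by norm_num) (by norm_num))
    (adP_JO S (by norm_num) (by norm_num) (by norm_num))
    (adO_JO S (by norm_num)) (by norm_num)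
  rw [hF] at key
  exact key

theorem e88F11 (S : OSys 9699690 D J) : Hj R88F11 J := by
  have hF : F1.length = 1 := by decide
  have key := S.use (h := 121) (l := 11) tok_88F11 tab1_88F11 tab2_88F11 tab3_88F11 rok_88F11
    red1_88F11 red2_88F11 red3_88F11 (CompG.of comp11) (CompG.of comp8)
    (CompG.of comp1) (by norm_num) (by norm_num) (by norm_num) (by norm_num)
    (adP_JO S (by norm_num) (by norm_num) (by norm_num))
    (adO_JO S (by norm_num))
    (adT_J 1 J) (by norm_num)
  rw [hF] at key
  exact key

theorem e91F13 (S : OSys 9699690 D J) : Hj R91F13 J := by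
  have hF : F1.length = 1 := by decide
  have key := S.use (h := 169) (l := 13) tok_91F13 tab1_91F13 tab2_91F13 tab3_91F13 rok_91F13
    red1_91F13 red2_91F13 red3_91F13 (CompG.of comp13) (CompG.of comp7)
    (CompG.of comp1) (by norm_num) (by norm_num) (by norm_num) (by norm_num)
    (adP_JO S (by norm_num) (by norm_num) (by norm_num))
    (adP_JO S (by norm_num) (by norm_num) (by norm_num))
    (adT_J 1 J) (by norm_num)
  rw [hF] at key
  exact key

theorem e935N7 (S : OSys 9699690 D J) : Hj R935N7 J := by
  have hF : F5.length = 10 := by decide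
  have key := S.use (h := 1) (l := 7) tok_935N7 tab1_935N7 tab2_935N7 tab3_935N7 rok_935N7
    red1_935N7 red2_935N7 red3_935N7 (CompG.of comp17) (CompG.of comp11)
    (CompG.of comp5) (by norm_num) (by norm_num) (by norm_num) (by norm_num)
    (adP_JO S (by norm_num) (by norm_num) (by norm_num))
    (adP_JO S (by norm_num) (by norm_num) (by norm_num))
    (adP_JO S (by norm_num) (by norm_num) (by norm_num)) (by norm_num)
  rw [hF] at key
  exact key

theorem e95F19 (S : OSys 9699690 D J) : Hj R95F19 J := by
  have hF : F1.length = 1 := by decide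
  have key := S.use (h := 361) (l := 19) tok_95F19 tab1_95F19 tab2_95F19 tab3_95F19 rok_95F19
    red1_95F19 red2_95F19 red3_95F19 (CompG.of comp19) (CompG.of comp5)
    (CompG.of comp1) (by norm_num) (by norm_num) (by norm_num) (by norm_num)
    (adP_JO S (by norm_num) (by norm_num) (by norm_num))
    (adP_JO S (by norm_num) (by norm_num) (by norm_num))
    (adT_J 1 J) (by norm_num)
  rw [hF] at key
  exact key

theorem e95N13 (S : OSys 9699690 D J) : Hj R95N13 J := by
  have hF : F1.length = 1 := by decide
  have key := S.use (h := 1) (l := 13) tok_95N13 tab1_95N13 tab2_95N13 tab3_95N13 rok_95N13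
    red1_95N13 red2_95N13 red3_95N13 (CompG.of comp19) (CompG.of comp5)
    (CompG.of comp1) (by norm_num) (by norm_num) (by norm_num) (by norm_num)
    (adP_JO S (by norm_num) (by norm_num) (by norm_num))
    (adP_JO S (by norm_num) (by norm_num) (by norm_num))
    (adT_J 1 J) (by norm_num)
  rw [hF] at key
  exact key

theorem e105N13 (S : OSys 9699690 D J) : Hj R105N13 J := by
  have hF : F3.length = 3 := by decide
  have key := S.use (h := 1) (l := 13) tok_105N13 tab1_105N13 tab2_105N13 tab3_105N13 rok_105N13
    red1_105N13 red2_105N13 red3_105N13 (CompG.of comp7) (CompG.of comp5)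
    (CompG.of comp3) (by norm_num) (by norm_num) (by norm_num) (by norm_num)
    (adP_JO S (by norm_num) (by norm_num) (by norm_num))
    (adP_JO S (by norm_num) (by norm_num) (by norm_num))
    (adP_JO S (by norm_num) (by norm_num) (by norm_num)) (by norm_num)
  rw [hF] at key
  exact key

theorem e51N5 (S : OSys 9699690 D J) : Hj R51N5 J := by
  have hF : F1.length = 1 := by decide
  have key := S.use (h := 1) (l := 5) tok_51N5 tab1_51N5 tab2_51N5 tab3_51N5 rok_51N5
    red1_51N5 red2_51N5 red3_51N5 (CompG.of comp17) (CompG.of comp3)
    (CompG.of comp1) (by norm_num) (by norm_num) (by norm_num) (by norm_num)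
    (adP_JO S (by norm_num) (by norm_num) (by norm_num))
    (adP_JO S (by norm_num) (by norm_num) (by norm_num))
    (adT_J 1 J) (by norm_num)
  rw [hF] at key
  exact key

theorem e195F13 (S : OSys 9699690 D J) : Hj R195F13 J := by
  have hF : F3.length = 3 := by decide
  have key := S.use (h := 169) (l := 13) tok_195F13 tab1_195F13 tab2_195F13 tab3_195F13 rok_195F13
    red1_195F13 red2_195F13 red3_195F13 (CompG.of comp13) (CompG.of comp5)
    (CompG.of comp3) (by norm_num) (by norm_num) (by norm_num) (by norm_num)
    (adP_JO S (by norm_num) (by norm_num) (by norm_num))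
    (adP_JO S (by norm_num) (by norm_num) (by norm_num))
    (adP_JO S (by norm_num) (by norm_num) (by norm_num)) (by norm_num)
  rw [hF] at key
  exact key

theorem e273F13 (S : OSys 9699690 D J) : Hj R273F13 J := by
  have hF : F3.length = 3 := by decide
  have key := S.use (h := 169) (l := 13) tok_273F13 tab1_273F13 tab2_273F13 tab3_273F13 rok_273F13
    red1_273F13 red2_273F13 red3_273F13 (CompG.of comp13) (CompG.of comp7)
    (CompG.of comp3) (by norm_num) (by norm_num) (by norm_num) (by norm_num)
    (adP_JO S (by norm_num) (by norm_num) (by norm_num))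
    (adP_JO S (by norm_num) (by norm_num) (by norm_num))
    (adP_JO S (by norm_num) (by norm_num) (by norm_num)) (by norm_num)
  rw [hF] at key
  exact key

theorem e312F13 (S : OSys 9699690 D J) : Hj R312F13 J := by
  have hF : F3.length = 3 := by decide
  have key := S.use (h := 169) (l := 13) tok_312F13 tab1_312F13 tab2_312F13 tab3_312F13 rok_312F13
    red1_312F13 red2_312F13 red3_312F13 (CompG.of comp13) (CompG.of comp8)
    (CompG.of comp3) (by norm_num) (by norm_num) (by norm_num) (by norm_num)
    (adP_JO S (by norm_num) (by norm_num) (by norm_num))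
    (adO_JO S (by norm_num))
    (adP_JO S (by norm_num) (by norm_num) (by norm_num)) (by norm_num)
  rw [hF] at key
  exact key

theorem e168F7 (S : OSys 9699690 D J) : Hj R168F7 J := by
  have hF : F3.length = 3 := by decide
  have key := S.use (h := 49) (l := 7) tok_168F7 tab1_168F7 tab2_168F7 tab3_168F7 rok_168F7
    red1_168F7 red2_168F7 red3_168F7 (CompG.of comp7) (CompG.of comp8)
    (CompG.of comp3) (by norm_num) (by norm_num) (by norm_num) (by norm_num)
    (adP_JO S (by norm_num) (by norm_num) (by norm_num))
    (adO_JO S (by norm_num))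
    (adP_JO S (by norm_num) (by norm_num) (by norm_num)) (by norm_num)
  rw [hF] at key
  exact key

theorem e663N7 (S : OSys 9699690 D J) : Hj R663N7 J := by
  have hF : F3.length = 3 := by decide
  have key := S.use (h := 1) (l := 7) tok_663N7 tab1_663N7 tab2_663N7 tab3_663N7 rok_663N7
    red1_663N7 red2_663N7 red3_663N7 (CompG.of comp17) (CompG.of comp13)
    (CompG.of comp3) (by norm_num) (by norm_num) (by norm_num) (by norm_num)
    (adP_JO S (by norm_num) (by norm_num) (by norm_num))
    (adP_JO S (by norm_num) (by norm_num) (by norm_num))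
    (adP_JO S (by norm_num) (by norm_num) (by norm_num)) (by norm_num)
  rw [hF] at key
  exact key

theorem e663F13 (S : OSys 9699690 D J) : Hj R663F13 J := by
  have hF : F3.length = 3 := by decide
  have key := S.use (h := 169) (l := 13) tok_663F13 tab1_663F13 tab2_663F13 tab3_663F13 rok_663F13
    red1_663F13 red2_663F13 red3_663F13 (CompG.of comp17) (CompG.of comp13)
    (CompG.of comp3) (by norm_num) (by norm_num) (by norm_num) (by norm_num)
    (adP_JO S (by norm_num) (by norm_num) (by norm_num))
    (adP_JO S (by norm_num) (by norm_num) (by norm_num))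
    (adP_JO S (by norm_num) (by norm_num) (by norm_num)) (by norm_num)
  rw [hF] at key
  exact key

theorem e357N13 (S : OSys 9699690 D J) : Hj R357N13 J := by
  have hF : F3.length = 3 := by decide
  have key := S.use (h := 1) (l := 13) tok_357N13 tab1_357N13 tab2_357N13 tab3_357N13 rok_357N13
    red1_357N13 red2_357N13 red3_357N13 (CompG.of comp17) (CompG.of comp7)
    (CompG.of comp3) (by norm_num) (by norm_num) (by norm_num) (by norm_num)
    (adP_JO S (by norm_num) (by norm_num) (by norm_num))
    (adP_JO S (by norm_num) (by norm_num) (by norm_num))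
    (adP_JO S (by norm_num) (by norm_num) (by norm_num)) (by norm_num)
  rw [hF] at key
  exact key

end Pool.Agent.OEG
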