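import Pool.Agent.OEG.H12

/-!
# Module EX3 (helper4): the extended form of the first family
-/

set_option autoImplicit false

namespace Pool.Agent.OEG.G

open Finset (range)
open Pool.Agent.PSX (Es)
open Pool.Agent.P4G (Fam QN FN FZ CR)
open Pool.Agent.Lib_helper5.LK (Fm)

namespace EX3M

lemma inv_pow {R : Type*} [CommRing R] {x y z : R} (hxy : x * y = 1) {a b : ℕ}
    (h : x ^ a * x ^ b = z) : x ^ a = z * y ^ b := by
  rw [← h, mul_assoc, ← mul_pow, hxy, one_pow, mul_one]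

end EX3M

theorem t_EX3 (hSYE : Stmt_SYE) (hSHF : Stmt_SHF) : Stmt_EX3 := by
  intro q0 n e e0 ψ _ hFm u p q b pb c0 m hu hqb hpb
  have huu := H1M.sq_one hu
  have hxy : (p : ZMod (QN 13 q0 n)) * pb = 1 := by
    have h1 := (ZMod.intCast_eq_intCast_iff_dvd_sub 1 (p * pb) (QN 13 q0 n)).2 hpb
    push_cast at h1
    exact h1.symm
  have huQ : (u : ZMod (QN 13 q0 n)) * u = 1 := by
    have := congrArg (Int.cast : ℤ → ZMod (QN 13 q0 n)) huu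
    push_cast at this
    exact this
  -- the shift
  have key : Es (FZ 13 q0 n e ψ) ((p ^ m : ℤ) : ZMod (QN 13 q0 n))
        ((q * p ^ m + b : ℤ) : ZMod (QN 13 q0 n)) ((-1 : ℤ) : ZMod (QN 13 q0 n)) (-(q * p ^ m + b))
      - Es (FZ 13 q0 n e ψ) ((p ^ m : ℤ) : ZMod (QN 13 q0 n))
        ((q * p ^ m + b : ℤ) : ZMod (QN 13 q0 n)) ((-1 : ℤ) : ZMod (QN 13 q0 n)) (-(q * p ^ m))
      = Es (FZ 13 q0 n e ψ) ((p ^ (m + 1) : ℤ) : ZMod (QN 13 q0 n))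
        ((q * p ^ m - b : ℤ) : ZMod (QN 13 q0 n)) ((u : ℤ) : ZMod (QN 13 q0 n)) (u * q * p ^ m)
      - Es (FZ 13 q0 n e ψ) ((p ^ (m + 1) : ℤ) : ZMod (QN 13 q0 n))
        ((q * p ^ m - b : ℤ) : ZMod (QN 13 q0 n)) ((u : ℤ) : ZMod (QN 13 q0 n))
        (u * (q * p ^ m - b)) := by
    have s1 := H1M.Es_sign hSYE hFm (σ := -1) (Or.inr rfl) (-(p ^ m)) (q * p ^ m + b) 1
      (q * p ^ m + b)
    have s2 := H1M.Es_sign hSYE hFm (σ := -1) (Or.inr rfl) (-(p ^ m)) (q * p ^ m + b) 1 (q * p ^ m)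
    have s3 := H1M.Es_sign hSYE hFm hu (p ^ (m + 1)) (q * p ^ m - b) u (u * q * p ^ m)
    have s4 := H1M.Es_sign hSYE hFm hu (p ^ (m + 1)) (q * p ^ m - b) u (u * (q * p ^ m - b))
    have h1 := hSHF (QN 13 q0 n) (ZMod (13 ^ (n + 1))) (FZ 13 q0 n e ψ)
      ((-(p ^ m) : ℤ) : ZMod (QN 13 q0 n)) ((q * p ^ m + b : ℤ) : ZMod (QN 13 q0 n))
      ((1 : ℤ) : ZMod (QN 13 q0 n)) (q * p ^ m + b) (q * p ^ m) b
    have e1 : ((-(p ^ m) : ℤ) : ZMod (QN 13 q0 n)) + ((q * p ^ m + b : ℤ) : ZMod (QN 13 q0 n)) * b -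
        ((1 : ℤ) : ZMod (QN 13 q0 n)) * b ^ 2 = ((u * p ^ (m + 1) : ℤ) : ZMod (QN 13 q0 n)) := by
      have := congrArg (Int.cast : ℤ → ZMod (QN 13 q0 n)) hqb
      push_cast at this ⊢
      linear_combination ((p : ZMod (QN 13 q0 n)) ^ m) * this
    have e2 : ((q * p ^ m + b : ℤ) : ZMod (QN 13 q0 n)) - 2 * ((1 : ℤ) : ZMod (QN 13 q0 n)) * b =
        ((q * p ^ m - b : ℤ) : ZMod (QN 13 q0 n)) := by
      push_cast; ring
    rw [e1, e2] at h1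
    have e3 : -1 * -(p ^ m) = p ^ m := by ring
    have e4 : (-1 : ℤ) * 1 = -1 := by ring
    have e5 : -1 * (q * p ^ m + b) = -(q * p ^ m + b) := by ring
    have e6 : -1 * (q * p ^ m) = -(q * p ^ m) := by ring
    rw [e3, e4, e5] at s1
    rw [e3, e4, e6] at s2
    have e7 : u * (u * q * p ^ m) = q * p ^ m + b - b := by linear_combination (q * p ^ m) * huu
    have e8 : u * (u * (q * p ^ m - b)) = q * p ^ m - b := by
      linear_combination (q * p ^ m - b) * huu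
    rw [huu, e7] at s3
    rw [huu, e8] at s4
    rw [s1, s2, ← s3, ← s4]
    exact h1
  -- the list
  unfold EJ J1
  rw [List.map_append, List.sum_append, List.map_map, List.map_map, H1M.lsum, H1M.lsum,
    Finset.sum_range_succ]
  have a1 : ∀ j ∈ range m, ((fun j : Fm => Es (FZ 13 q0 n e ψ)
      (j.P : ZMod (QN 13 q0 n)) (j.R : ZMod (QN 13 q0 n)) ((-j.S : ℤ) : ZMod (QN 13 q0 n)) (-j.α)) ∘
      fun j => (⟨p ^ j, q * p ^ m + b, -(-1 * p ^ (m - j)), 3, -(c1 (-1) p q b m j)⟩ : Fm)) j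
      = Es (FZ 13 q0 n e ψ) ((p ^ j : ℤ) : ZMod (QN 13 q0 n))
        ((q * p ^ m + b : ℤ) : ZMod (QN 13 q0 n)) ((-(p ^ m * pb ^ j) : ℤ) : ZMod (QN 13 q0 n))
        (-(q * p ^ j)) := by
    intro j hj
    have hj' := Finset.mem_range.1 hj
    show Es (FZ 13 q0 n e ψ) ((p ^ j : ℤ) : ZMod (QN 13 q0 n))
      ((q * p ^ m + b : ℤ) : ZMod (QN 13 q0 n)) ((-(-(-1 * p ^ (m - j))) : ℤ) : ZMod (QN 13 q0 n))
      (-(-(c1 (-1) p q b m j))) = _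
    have h1 : ((-(-(-1 * p ^ (m - j))) : ℤ) : ZMod (QN 13 q0 n)) =
        ((-(p ^ m * pb ^ j) : ℤ) : ZMod (QN 13 q0 n)) := by
      push_cast
      rw [EX3M.inv_pow hxy (a := m - j) (b := j) (z := (p : ZMod (QN 13 q0 n)) ^ m)
        (by rw [← pow_add]; congr 1; omega)]
      ring
    have h2 : -(-(c1 (-1) p q b m j)) = -(q * p ^ j) := by
      unfold c1
      rw [if_neg (by omega)]
      ring
    rw [h1, h2]
  have a2 : ((fun j : Fm => Es (FZ 13 q0 n e ψ)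
      (j.P : ZMod (QN 13 q0 n)) (j.R : ZMod (QN 13 q0 n)) ((-j.S : ℤ) : ZMod (QN 13 q0 n)) (-j.α)) ∘
      fun j => (⟨p ^ j, q * p ^ m + b, -(-1 * p ^ (m - j)), 3, -(c1 (-1) p q b m j)⟩ : Fm)) m
      = Es (FZ 13 q0 n e ψ) ((p ^ m : ℤ) : ZMod (QN 13 q0 n))
        ((q * p ^ m + b : ℤ) : ZMod (QN 13 q0 n)) ((-1 : ℤ) : ZMod (QN 13 q0 n))
        (-(q * p ^ m + b)) := by
    show Es (FZ 13 q0 n e ψ) ((p ^ m : ℤ) : ZMod (QN 13 q0 n))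
      ((q * p ^ m + b : ℤ) : ZMod (QN 13 q0 n)) ((-(-(-1 * p ^ (m - m))) : ℤ) : ZMod (QN 13 q0 n))
      (-(-(c1 (-1) p q b m m))) = _
    have h1 : (-(-(-1 * p ^ (m - m))) : ℤ) = -1 := by
      rw [Nat.sub_self, pow_zero]; ring
    have h2 : -(-(c1 (-1) p q b m m)) = -(q * p ^ m + b) := by
      unfold c1
      rw [if_pos rfl]
      ring
    rw [h1, h2]
  have a3 : ∀ j ∈ range m, ((fun j : Fm => Es (FZ 13 q0 n e ψ)
      (j.P : ZMod (QN 13 q0 n)) (j.R : ZMod (QN 13 q0 n)) ((-j.S : ℤ) : ZMod (QN 13 q0 n)) (-j.α)) ∘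
      fun j => (⟨p ^ (j + 1), q * p ^ m - b, -(u * p ^ (m - j)), 3, -(u * q * p ^ j)⟩ : Fm)) j
      = Es (FZ 13 q0 n e ψ) ((p ^ (j + 1) : ℤ) : ZMod (QN 13 q0 n))
        ((q * p ^ m - b : ℤ) : ZMod (QN 13 q0 n))
        ((u * (p ^ (m + 1) * pb ^ (j + 1)) : ℤ) : ZMod (QN 13 q0 n)) (u * q * p ^ j) := by
    intro j hj
    have hj' := Finset.mem_range.1 hj
    show Es (FZ 13 q0 n e ψ) ((p ^ (j + 1) : ℤ) : ZMod (QN 13 q0 n))
      ((q * p ^ m - b : ℤ) : ZMod (QN 13 q0 n)) ((-(-(u * p ^ (m - j))) : ℤ) : ZMod (QN 13 q0 n))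
      (-(-(u * q * p ^ j))) = _
    have h1 : ((-(-(u * p ^ (m - j))) : ℤ) : ZMod (QN 13 q0 n)) =
        ((u * (p ^ (m + 1) * pb ^ (j + 1)) : ℤ) : ZMod (QN 13 q0 n)) := by
      push_cast
      rw [EX3M.inv_pow hxy (a := m - j) (b := j + 1) (z := (p : ZMod (QN 13 q0 n)) ^ (m + 1))
        (by rw [← pow_add]; congr 1; omega)]
      ring
    rw [h1, neg_neg]
  rw [Finset.sum_congr rfl a1, a2, Finset.sum_congr rfl a3]
  have b1 : Es (FZ 13 q0 n e ψ) ((p ^ m : ℤ) : ZMod (QN 13 q0 n))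
        ((q * p ^ m + b : ℤ) : ZMod (QN 13 q0 n)) ((-(p ^ m * pb ^ m) : ℤ) : ZMod (QN 13 q0 n))
        (-(q * p ^ m)) = Es (FZ 13 q0 n e ψ) ((p ^ m : ℤ) : ZMod (QN 13 q0 n))
        ((q * p ^ m + b : ℤ) : ZMod (QN 13 q0 n)) ((-1 : ℤ) : ZMod (QN 13 q0 n)) (-(q * p ^ m)) := by
    have h1 : ((-(p ^ m * pb ^ m) : ℤ) : ZMod (QN 13 q0 n)) = ((-1 : ℤ) : ZMod (QN 13 q0 n)) := by
      push_cast
      rw [← mul_pow, hxy, one_pow]
    rw [h1]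
  have b2 : Es (FZ 13 q0 n e ψ) ((p ^ (m + 1) : ℤ) : ZMod (QN 13 q0 n))
        ((q * p ^ m + b : ℤ) : ZMod (QN 13 q0 n)) ((-(p ^ m * pb ^ (m + 1)) : ℤ) : ZMod (QN 13 q0 n))
        (-(q * p ^ (m + 1))) = Es (FZ 13 q0 n e ψ) ((p ^ (m + 1) : ℤ) : ZMod (QN 13 q0 n))
        ((q * p ^ m + b : ℤ) : ZMod (QN 13 q0 n)) ((-pb : ℤ) : ZMod (QN 13 q0 n))
        (-(q * p ^ (m + 1))) := by
    have h1 : ((-(p ^ m * pb ^ (m + 1)) : ℤ) : ZMod (QN 13 q0 n)) = ((-pb : ℤ) : ZMod (QN 13 q0 n)) := by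
      push_cast
      have h2 : (p : ZMod (QN 13 q0 n)) ^ m * (pb : ZMod (QN 13 q0 n)) ^ m = 1 := by
        rw [← mul_pow, hxy, one_pow]
      rw [pow_succ]
      linear_combination (-(pb : ZMod (QN 13 q0 n))) * h2
    rw [h1]
  have b3 : Es (FZ 13 q0 n e ψ) ((p ^ (m + 1) : ℤ) : ZMod (QN 13 q0 n))
        ((q * p ^ m - b : ℤ) : ZMod (QN 13 q0 n))
        ((u * (p ^ (m + 1) * pb ^ (m + 1)) : ℤ) : ZMod (QN 13 q0 n)) (u * q * p ^ m) =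
      Es (FZ 13 q0 n e ψ) ((p ^ (m + 1) : ℤ) : ZMod (QN 13 q0 n))
        ((q * p ^ m - b : ℤ) : ZMod (QN 13 q0 n)) ((u : ℤ) : ZMod (QN 13 q0 n)) (u * q * p ^ m) := by
    have h1 : ((u * (p ^ (m + 1) * pb ^ (m + 1)) : ℤ) : ZMod (QN 13 q0 n)) =
        ((u : ℤ) : ZMod (QN 13 q0 n)) := by
      push_cast
      rw [← mul_pow, hxy, one_pow, mul_one]
    rw [h1]
  rw [show range (m + 2) = range (m + 1 + 1) from rfl, Finset.sum_range_succ _ (m + 1),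
    Finset.sum_range_succ _ m, Finset.sum_range_succ _ m, b1, b2, b3]
  linear_combination key

end Pool.Agent.OEG.G
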