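import Pool.Agent.OEG.Defs
import Pool.Agent.RQM.C120

/-!
Project OEG, engine 1: the value of a relation on the list `J1` is a sum over one period.
-/

namespace Pool.Agent.OEG.En

open Finset
open Pool.Agent.LibH4.S7 (Rl)
open Pool.Agent.Lib_helper5 Pool.Agent.Lib_helper5.LK Pool.Agent.Lib_helper5.TB

/-- the relation on a list of forms -/
def HdJ (r : Rl) (J : List Fm) : Prop := (J.map r.val).sum % r.l = 0

/-- model form of the first type -/
def eA (l q p p' X b : ℤ) (j : ℕ) : Fm :=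
  ⟨p ^ j, q * X + b, -(l * X * p' ^ j), 3, -(l * q * p ^ j)⟩

/-- model form of the second type -/
def eB (u q p p' X b : ℤ) (j : ℕ) : Fm :=
  ⟨p ^ (j + 1), q * X - b, -(u * X * p' ^ j), 3, -(u * q * p ^ j)⟩

/-- model form of the last edge -/
def eL (l q p p' X b : ℤ) (j : ℕ) : Fm :=
  ⟨p ^ j, q * X + b, -(l * X * p' ^ j), 3, -(l * q * p ^ j + l * b)⟩

/-- inverse and period modulo `n` -/
structure Un (n : ℕ) (p p' : ℤ) (L : ℕ) : Prop where
  inv : (p : ZMod n) * (p' : ZMod n) = 1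
  per : (p : ZMod n) ^ L = 1

lemma Un.per' {n : ℕ} {p p' : ℤ} {L : ℕ} (h : Un n p p' L) : (p' : ZMod n) ^ L = 1 := by
  have h1 : ((p : ZMod n) * (p' : ZMod n)) ^ L = 1 := by rw [h.inv, one_pow]
  rw [mul_pow, h.per, one_mul] at h1
  exact h1

lemma Un.sub {n : ℕ} {p p' : ℤ} {L : ℕ} (h : Un n p p' L) {m j : ℕ} (hj : j ≤ m) :
    (p : ZMod n) ^ (m - j) = (p : ZMod n) ^ m * (p' : ZMod n) ^ j := by
  obtain ⟨k, rfl⟩ := Nat.exists_eq_add_of_le hj
  have h1 : ((p : ZMod n) * (p' : ZMod n)) ^ j = 1 := by rw [h.inv, one_pow]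
  rw [mul_pow] at h1
  rw [Nat.add_sub_cancel_left, pow_add]
  calc (p : ZMod n) ^ k = (p : ZMod n) ^ k * ((p : ZMod n) ^ j * (p' : ZMod n) ^ j) := by
        rw [h1, mul_one]
    _ = _ := by ring

/-- congruence of forms for a relation -/
structure CE (r : Rl) (i j : Fm) : Prop where
  P : ∀ n, (n = r.n1 ∨ n = r.n2 ∨ n = r.n3) → (i.P : ZMod n) = (j.P : ZMod n)
  R : ∀ n, (n = r.n1 ∨ n = r.n2 ∨ n = r.n3) → (i.R : ZMod n) = (j.R : ZMod n)
  S : ∀ n, (n = r.n1 ∨ n = r.n2 ∨ n = r.n3) → (i.S : ZMod n) = (j.S : ZMod n)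
  α : (i.α : ZMod r.l) = (j.α : ZMod r.l)
  κ : i.κ = j.κ

lemma rs_congr {n : ℕ} {x y : ℤ} (h : (x : ZMod n) = (y : ZMod n)) : rs n x = rs n y := by
  unfold rs
  rw [h]

/-- character value -/
def sv (r : Rl) (f : Fm) : ℕ :=
  dig r.t1 (rs r.n1 f.P) * dig r.t2 (rs r.n2 f.P) * dig r.t3 (rs r.n3 f.P)

/-- first table value -/
def xv (r : Rl) (f : Fm) : ℕ :=
  tX r.rows r.len3 (pos r.n1 r.ex1 r.PT1 (rs r.n1 f.P) (rs r.n1 f.R) (rs r.n1 f.S))
    (pos r.n2 r.ex2 r.PT2 (rs r.n2 f.P) (rs r.n2 f.R) (rs r.n2 f.S))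
    (pos r.n3 r.ex3 r.PT3 (rs r.n3 f.P) (rs r.n3 f.R) (rs r.n3 f.S))

/-- second table value -/
def yv (r : Rl) (f : Fm) : ℕ :=
  tY r.rows r.len3 (pos r.n1 r.ex1 r.PT1 (rs r.n1 f.P) (rs r.n1 f.R) (rs r.n1 f.S))
    (pos r.n2 r.ex2 r.PT2 (rs r.n2 f.P) (rs r.n2 f.R) (rs r.n2 f.S))
    (pos r.n3 r.ex3 r.PT3 (rs r.n3 f.P) (rs r.n3 f.R) (rs r.n3 f.S))

lemma val_eq (r : Rl) (f : Fm) :
    r.val f = sv r f * (f.κ * xv r f + rs r.l f.α * yv r f) := rfl

lemma CE.sv {r : Rl} {i j : Fm} (h : CE r i j) : sv r i = sv r j := by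
  unfold En.sv
  rw [rs_congr (h.P _ (Or.inl rfl)), rs_congr (h.P _ (Or.inr (Or.inl rfl))),
    rs_congr (h.P _ (Or.inr (Or.inr rfl)))]

lemma CE.xv {r : Rl} {i j : Fm} (h : CE r i j) : xv r i = xv r j := by
  unfold En.xv
  rw [rs_congr (h.P _ (Or.inl rfl)), rs_congr (h.P _ (Or.inr (Or.inl rfl))),
    rs_congr (h.P _ (Or.inr (Or.inr rfl))), rs_congr (h.R _ (Or.inl rfl)),
    rs_congr (h.R _ (Or.inr (Or.inl rfl))), rs_congr (h.R _ (Or.inr (Or.inr rfl))),
    rs_congr (h.S _ (Or.inl rfl)), rs_congr (h.S _ (Or.inr (Or.inl rfl))),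
    rs_congr (h.S _ (Or.inr (Or.inr rfl)))]

lemma CE.yv {r : Rl} {i j : Fm} (h : CE r i j) : yv r i = yv r j := by
  unfold En.yv
  rw [rs_congr (h.P _ (Or.inl rfl)), rs_congr (h.P _ (Or.inr (Or.inl rfl))),
    rs_congr (h.P _ (Or.inr (Or.inr rfl))), rs_congr (h.R _ (Or.inl rfl)),
    rs_congr (h.R _ (Or.inr (Or.inl rfl))), rs_congr (h.R _ (Or.inr (Or.inr rfl))),
    rs_congr (h.S _ (Or.inl rfl)), rs_congr (h.S _ (Or.inr (Or.inl rfl))),
    rs_congr (h.S _ (Or.inr (Or.inr rfl)))]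

lemma CE.val {r : Rl} {i j : Fm} (h : CE r i j) : r.val i = r.val j := by
  rw [val_eq, val_eq, h.sv, h.xv, h.yv, h.κ, rs_congr h.α]

/-- inverse and period for all moduli of a relation -/
structure UR (r : Rl) (p p' : ℤ) (L : ℕ) : Prop where
  u1 : Un r.n1 p p' L
  u2 : Un r.n2 p p' L
  u3 : Un r.n3 p p' L
  ul : Un r.l p p' L

lemma UR.un {r : Rl} {p p' : ℤ} {L : ℕ} (h : UR r p p' L) (n : ℕ)
    (hn : n = r.n1 ∨ n = r.n2 ∨ n = r.n3) : Un n p p' L := by
  rcases hn with rfl | rfl | rfl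
  exacts [h.u1, h.u2, h.u3]

section Sum

variable {r : Rl} {l u p q b p' : ℤ} {m L : ℕ}

lemma ce_A (U : UR r p p' L) {j : ℕ} (hj : j < m) :
    CE r ⟨p ^ j, q * p ^ m + b, -(l * p ^ (m - j)), 3, -(c1 l p q b m j)⟩
      (eA l q p p' (p ^ m) b j) := by
  refine ⟨fun n _ => rfl, fun n _ => rfl, fun n hn => ?_, ?_, rfl⟩
  · unfold eA
    push_cast
    rw [(U.un n hn).sub hj.le]
    ring
  · unfold eA c1
    rw [if_neg hj.ne]
    push_cast
    ring

lemma ce_L (U : UR r p p' L) :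
    CE r ⟨p ^ m, q * p ^ m + b, -(l * p ^ (m - m)), 3, -(c1 l p q b m m)⟩
      (eL l q p p' (p ^ m) b m) := by
  refine ⟨fun n _ => rfl, fun n _ => rfl, fun n hn => ?_, ?_, rfl⟩
  · unfold eL
    push_cast
    rw [(U.un n hn).sub le_rfl]
    ring
  · unfold eL c1
    rw [if_pos rfl]

lemma ce_B (U : UR r p p' L) {j : ℕ} (hj : j < m) :
    CE r ⟨p ^ (j + 1), q * p ^ m - b, -(u * p ^ (m - j)), 3, -(u * q * p ^ j)⟩
      (eB u q p p' (p ^ m) b j) := by
  refine ⟨fun n _ => rfl, fun n _ => rfl, fun n hn => ?_, rfl, rfl⟩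
  unfold eB
  push_cast
  rw [(U.un n hn).sub hj.le]
  ring

lemma lsum_range (f : ℕ → ℕ) (n : ℕ) :
    ((List.range n).map f).sum = ∑ j ∈ range n, f j := by
  induction n with
  | zero => rfl
  | succ n ih => rw [List.range_succ, List.map_append, List.sum_append, ih, sum_range_succ]; simp

lemma sum_J1 (U : UR r p p' L) : ((J1 l u p q b m).map r.val).sum =
    ∑ j ∈ range m, (r.val (eA l q p p' (p ^ m) b j) + r.val (eB u q p p' (p ^ m) b j)) +
      r.val (eL l q p p' (p ^ m) b m) := by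
  unfold J1
  rw [List.map_append, List.sum_append, List.map_map, List.map_map, lsum_range, lsum_range,
    sum_range_succ, sum_add_distrib]
  simp only [Function.comp]
  rw [(ce_L U).val, sum_congr rfl fun j hj => (ce_A (l := l) (q := q) (b := b) U
    (mem_range.1 hj)).val, sum_congr rfl fun j hj => (ce_B (u := u) (q := q) (b := b) U
    (mem_range.1 hj)).val]
  ring

lemma pw_per {n : ℕ} {x : ZMod n} (h : x ^ L = 1) (j k : ℕ) : x ^ (j + L * k) = x ^ j := by
  rw [pow_add, pow_mul, h, one_pow, mul_one]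

lemma ceA_per (U : UR r p p' L) (X : ℤ) (j k : ℕ) :
    CE r (eA l q p p' X b (j + L * k)) (eA l q p p' X b j) := by
  refine ⟨fun n hn => ?_, fun n _ => rfl, fun n hn => ?_, ?_, rfl⟩ <;> unfold eA <;> push_cast
  · rw [pw_per (U.un n hn).per]
  · rw [pw_per (U.un n hn).per']
  · rw [pw_per U.ul.per]

lemma ceB_per (U : UR r p p' L) (X : ℤ) (j k : ℕ) :
    CE r (eB u q p p' X b (j + L * k)) (eB u q p p' X b j) := by
  refine ⟨fun n hn => ?_, fun n _ => rfl, fun n hn => ?_, ?_, rfl⟩ <;> unfold eB <;> push_cast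
  · rw [show j + L * k + 1 = (j + 1) + L * k by ring, pw_per (U.un n hn).per]
  · rw [pw_per (U.un n hn).per']
  · rw [pw_per U.ul.per]

lemma ceL_per (U : UR r p p' L) (X : ℤ) (j k : ℕ) :
    CE r (eL l q p p' X b (j + L * k)) (eL l q p p' X b j) := by
  refine ⟨fun n hn => ?_, fun n _ => rfl, fun n hn => ?_, ?_, rfl⟩ <;> unfold eL <;> push_cast
  · rw [pw_per (U.un n hn).per]
  · rw [pw_per (U.un n hn).per']
  · rw [pw_per U.ul.per]

lemma sum_per {g : ℕ → ℕ} (hg : ∀ j k, g (j + L * k) = g j) (m0 t : ℕ) :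
    ∑ j ∈ range (m0 + L * t), g j = ∑ j ∈ range m0, g j + t * ∑ j ∈ range L, g j := by
  induction t with
  | zero => simp
  | succ t ih =>
    rw [show m0 + L * (t + 1) = (m0 + L * t) + L by ring, sum_range_add, ih]
    have : ∑ x ∈ range L, g (m0 + L * t + x) = ∑ j ∈ range L, g j := by
      have h1 : ∀ x, g (m0 + L * t + x) = g (m0 + x) := fun x => by
        rw [show m0 + L * t + x = (m0 + x) + L * t by ring, hg]
      rw [sum_congr rfl fun x _ => h1 x]
      -- a rotation of the period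
      have h2 : ∀ s, ∑ x ∈ range L, g (s + x) = ∑ j ∈ range L, g j := by
        intro s
        induction s with
        | zero => simp
        | succ s ihs =>
          have e1 := sum_range_succ (fun x => g (s + x)) L
          have e2 := sum_range_succ' (fun x => g (s + x)) L
          rw [e1, ihs] at e2
          have e3 : g (s + L) = g s := by simpa using hg s 1
          simp only [add_zero] at e2
          rw [e3] at e2
          have e4 := Nat.add_right_cancel e2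
          rw [e4]
          exact sum_congr rfl fun x _ => by rw [show s + (x + 1) = s + 1 + x by ring]
      exact h2 m0
    rw [this]
    ring

/-- **the value over one period** -/
theorem val_per (U : UR r p p' L) (h : HdJ r (J1 l u p q b m)) :
    (∑ j ∈ range (m % L), (r.val (eA l q p p' (p ^ m) b j) + r.val (eB u q p p' (p ^ m) b j)) +
      (m / L) * ∑ j ∈ range L, (r.val (eA l q p p' (p ^ m) b j) +
        r.val (eB u q p p' (p ^ m) b j)) +
      r.val (eL l q p p' (p ^ m) b (m % L))) % r.l = 0 := by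
  unfold HdJ at h
  rw [sum_J1 U] at h
  have e : m = m % L + L * (m / L) := (Nat.mod_add_div m L).symm
  have h1 := sum_per (L := L) (g := fun j => r.val (eA l q p p' (p ^ m) b j) +
    r.val (eB u q p p' (p ^ m) b j)) (fun j k => by
      rw [(ceA_per U _ j k).val, (ceB_per U _ j k).val]) (m % L) (m / L)
  rw [← e] at h1
  have h2 : r.val (eL l q p p' (p ^ m) b m) = r.val (eL l q p p' (p ^ m) b (m % L)) := by
    have := (ceL_per (l := l) (q := q) (b := b) U (p ^ m) (m % L) (m / L)).val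
    rw [← e] at this
    exact this
  rw [h1, h2] at h
  exact h

end Sum

end Pool.Agent.OEG.En
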