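import Pool.Agent.RQM.C41

/-!
Project OEG, engine 2: numbers as vectors of lanes of 48 bits.
-/

namespace Pool.Agent.OEG.En

open Finset
open Pool.Agent.Lib_helper5.TB (dig)

/-- lane `i` of a number -/
def ln (v i : ℕ) : ℕ := v / 2 ^ (48 * i) % 2 ^ 48

/-- the lanes of `v` are `f`, all at most `B` -/
structure Lan (v : ℕ) (f : ℕ → ℕ) (B : ℕ) : Prop where
  eq : ∀ i, ln v i = f i
  le : ∀ i, f i ≤ B

lemma ln_zero (v : ℕ) : ln v 0 = v % 2 ^ 48 := by
  unfold ln
  simp

lemma ln_succ (v i : ℕ) : ln v (i + 1) = ln (v / 2 ^ 48) i := by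
  unfold ln
  rw [show 48 * (i + 1) = 48 + 48 * i by ring, pow_add, Nat.div_div_eq_div_mul]

lemma ln_of_zero (i : ℕ) : ln 0 i = 0 := by
  unfold ln
  simp

lemma ln_add {v w B C : ℕ} (hv : ∀ i, ln v i ≤ B) (hw : ∀ i, ln w i ≤ C) (h : B + C < 2 ^ 48)
    (i : ℕ) : ln (v + w) i = ln v i + ln w i := by
  induction i generalizing v w with
  | zero =>
    have h1 := hv 0
    have h2 := hw 0
    rw [ln_zero] at h1 h2
    rw [ln_zero, ln_zero, ln_zero, Nat.add_mod, Nat.mod_eq_of_lt (a := v % 2 ^ 48 + w % 2 ^ 48)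
      (by omega)]
  | succ i ih =>
    have h1 := hv 0
    have h2 := hw 0
    rw [ln_zero] at h1 h2
    have e : (v + w) / 2 ^ 48 = v / 2 ^ 48 + w / 2 ^ 48 := by omega
    rw [ln_succ, ln_succ, ln_succ, e]
    exact ih (fun j => by have := hv (j + 1); rwa [ln_succ] at this)
      (fun j => by have := hw (j + 1); rwa [ln_succ] at this)

lemma ln_mul {a v A B : ℕ} (ha : a ≤ A) (hv : ∀ i, ln v i ≤ B) (h : A * B < 2 ^ 48)
    (i : ℕ) : ln (a * v) i = a * ln v i := by
  induction i generalizing v with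
  | zero =>
    have h1 := hv 0
    rw [ln_zero] at h1
    rw [ln_zero, ln_zero, Nat.mul_mod]
    have h2 : a * (v % 2 ^ 48) < 2 ^ 48 := lt_of_le_of_lt (Nat.mul_le_mul ha h1) h
    rw [← Nat.mul_mod, ← Nat.mod_add_div v (2 ^ 48)]
    rw [show a * (v % 2 ^ 48 + 2 ^ 48 * (v / 2 ^ 48)) = a * (v % 2 ^ 48) +
      2 ^ 48 * (a * (v / 2 ^ 48)) by ring, Nat.add_mul_mod_self_left, Nat.mod_eq_of_lt h2]
    congr 1
    omega
  | succ i ih =>
    have h1 := hv 0
    rw [ln_zero] at h1
    have h2 : a * (v % 2 ^ 48) < 2 ^ 48 := lt_of_le_of_lt (Nat.mul_le_mul ha h1) h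
    have e : (a * v) / 2 ^ 48 = a * (v / 2 ^ 48) := by
      conv_lhs => rw [← Nat.mod_add_div v (2 ^ 48)]
      rw [show a * (v % 2 ^ 48 + 2 ^ 48 * (v / 2 ^ 48)) = a * (v % 2 ^ 48) +
        2 ^ 48 * (a * (v / 2 ^ 48)) by ring, Nat.add_mul_div_left _ _ (by norm_num),
        Nat.div_eq_of_lt h2, zero_add]
    rw [ln_succ, ln_succ, e]
    exact ih (fun j => by have := hv (j + 1); rwa [ln_succ] at this)

lemma Lan.zero (B : ℕ) : Lan 0 (fun _ => 0) B := ⟨ln_of_zero, fun _ => Nat.zero_le _⟩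

lemma Lan.lnle {v : ℕ} {f : ℕ → ℕ} {B : ℕ} (h : Lan v f B) (i : ℕ) : ln v i ≤ B := by
  rw [h.eq]
  exact h.le i

lemma Lan.add {v w : ℕ} {f g : ℕ → ℕ} {B C : ℕ} (h : Lan v f B) (k : Lan w g C)
    (hB : B + C < 2 ^ 48) : Lan (v + w) (fun i => f i + g i) (B + C) :=
  ⟨fun i => by rw [ln_add h.lnle k.lnle hB, h.eq, k.eq], fun i => Nat.add_le_add (h.le i) (k.le i)⟩

lemma Lan.mul {a v : ℕ} {f : ℕ → ℕ} {A B : ℕ} (h : Lan v f B) (ha : a ≤ A)
    (hB : A * B < 2 ^ 48) : Lan (a * v) (fun i => a * f i) (A * B) :=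
  ⟨fun i => by rw [ln_mul ha h.lnle hB, h.eq], fun i => Nat.mul_le_mul ha (h.le i)⟩

lemma Lan.mono {v : ℕ} {f : ℕ → ℕ} {B C : ℕ} (h : Lan v f B) (hC : B ≤ C) : Lan v f C :=
  ⟨h.eq, fun i => (h.le i).trans hC⟩

lemma Lan.congr {v : ℕ} {f g : ℕ → ℕ} {B : ℕ} (h : Lan v f B) (hg : ∀ i, f i = g i) :
    Lan v g B :=
  ⟨fun i => by rw [h.eq, hg], fun i => by rw [← hg]; exact h.le i⟩

lemma ln_shift (v k i : ℕ) : ln (v / 2 ^ (48 * k)) i = ln v (k + i) := by
  unfold ln
  rw [Nat.div_div_eq_div_mul, ← pow_add, mul_add]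

lemma ln_mod {v n i : ℕ} : ln (v % 2 ^ (48 * n)) i = if i < n then ln v i else 0 := by
  unfold ln
  split_ifs with h
  · obtain ⟨k, rfl⟩ := Nat.exists_eq_add_of_lt h
    rw [show 48 * (i + k + 1) = 48 * i + (48 + 48 * k) by ring, pow_add,
      Nat.mod_mul_right_div_self, pow_add, Nat.mod_mul_right_mod]
  · rw [Nat.div_eq_of_lt, Nat.zero_mod]
    exact lt_of_lt_of_le (Nat.mod_lt _ (by positivity)) (Nat.pow_le_pow_right (by norm_num)
      (by omega))

lemma land_mask (v n : ℕ) : v &&& (2 ^ n - 1) = v % 2 ^ n := Nat.and_two_pow_sub_one_eq_mod v n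

/-- the first lanes -/
lemma Lan.low {v : ℕ} {f : ℕ → ℕ} {B : ℕ} (h : Lan v f B) (n : ℕ) :
    Lan (v &&& (2 ^ (48 * n) - 1)) (fun i => if i < n then f i else 0) B := by
  rw [land_mask]
  refine ⟨fun i => ?_, fun i => ?_⟩
  · rw [ln_mod, h.eq]
  · split_ifs
    · exact h.le _
    · exact Nat.zero_le _

/-- shift to the right -/
lemma Lan.shr {v : ℕ} {f : ℕ → ℕ} {B : ℕ} (h : Lan v f B) (k : ℕ) :
    Lan (v >>> (48 * k)) (fun i => f (k + i)) B := by
  rw [Nat.shiftRight_eq_div_pow]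
  exact ⟨fun i => by rw [ln_shift, h.eq], fun i => h.le _⟩

/-- extraction of a chunk -/
lemma Lan.chunk {v : ℕ} {f : ℕ → ℕ} {B : ℕ} (h : Lan v f B) (k n : ℕ) :
    Lan ((v >>> (48 * k)) &&& (2 ^ (48 * n) - 1)) (fun i => if i < n then f (k + i) else 0) B :=
  (h.shr k).low n

/-- shift to the left -/
lemma Lan.shl {v : ℕ} {f : ℕ → ℕ} {B : ℕ} (h : Lan v f B) (k : ℕ) :
    Lan (2 ^ (48 * k) * v) (fun i => if k ≤ i then f (i - k) else 0) B := by
  refine ⟨fun i => ?_, fun i => ?_⟩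
  · split_ifs with hi
    · obtain ⟨j, rfl⟩ := Nat.exists_eq_add_of_le hi
      rw [← ln_shift, Nat.mul_div_cancel_left _ (by positivity), Nat.add_sub_cancel_left, h.eq]
    · unfold ln
      obtain ⟨j, hj⟩ := Nat.exists_eq_add_of_lt (not_le.1 hi)
      rw [hj, show 48 * (i + j + 1) = 48 * i + (48 + 48 * j) by ring, pow_add, pow_add,
        show 2 ^ (48 * i) * (2 ^ 48 * 2 ^ (48 * j)) * v = 2 ^ (48 * i) * (2 ^ 48 * (2 ^ (48 * j) * v))
        by ring, Nat.mul_div_cancel_left _ (by positivity), Nat.mul_mod_right]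
  · split_ifs
    · exact h.le _
    · exact Nat.zero_le _

/-- a finite sum of vectors -/
lemma Lan.sum {v : ℕ → ℕ} {f : ℕ → ℕ → ℕ} {B : ℕ} (c : ℕ) (h : ∀ r < c, Lan (v r) (f r) B)
    (hB : c * B < 2 ^ 48) :
    Lan (∑ r ∈ range c, v r) (fun i => ∑ r ∈ range c, f r i) (c * B) := by
  induction c with
  | zero => simpa using Lan.zero 0
  | succ c ih =>
    have h1 := ih (fun r hr => h r (by omega)) (lt_of_le_of_lt (Nat.mul_le_mul_right _ (by omega)) hB)
    have h2 := h1.add (h c (by omega)) (by rw [← Nat.succ_mul]; exact hB)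
    rw [sum_range_succ]
    refine (h2.mono (by rw [← Nat.succ_mul])).congr fun i => ?_
    rw [sum_range_succ]

/-- a concatenation of vectors -/
lemma Lan.cat {v : ℕ → ℕ} {f : ℕ → ℕ → ℕ} {B LEN : ℕ} (c : ℕ) (h : ∀ g < c, Lan (v g) (f g) B)
    (h0 : ∀ g < c, ∀ d, LEN ≤ d → f g d = 0) (hL : 0 < LEN) :
    Lan (∑ g ∈ range c, 2 ^ (48 * (LEN * g)) * v g)
      (fun i => if i < LEN * c then f (i / LEN) (i % LEN) else 0) B := by
  induction c with
  | zero => simpa using Lan.zero B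
  | succ c ih =>
    have h1 := ih (fun g hg => h g (by omega)) (fun g hg => h0 g (by omega))
    have h2 := (h c (by omega)).shl (LEN * c)
    rw [sum_range_succ]
    have hB1 : ∀ i, ln (∑ g ∈ range c, 2 ^ (48 * (LEN * g)) * v g) i +
        ln (2 ^ (48 * (LEN * c)) * v c) i = if i < LEN * (c + 1) then f (i / LEN) (i % LEN) else 0 := by
      intro i
      rw [h1.eq, h2.eq]
      rcases lt_or_ge i (LEN * c) with hi | hi
      · rw [if_pos hi, if_neg (by omega), if_pos (by nlinarith), add_zero]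
      · rw [if_neg (by omega), if_pos hi, zero_add]
        obtain ⟨d, rfl⟩ := Nat.exists_eq_add_of_le hi
        rw [Nat.add_sub_cancel_left]
        rcases lt_or_ge d LEN with hd | hd
        · rw [if_pos (by rw [mul_add, mul_one]; omega), Nat.mul_add_div hL, Nat.div_eq_of_lt hd,
            add_zero, Nat.mul_add_mod, Nat.mod_eq_of_lt hd]
        · rw [if_neg (by rw [mul_add, mul_one]; omega), h0 c (by omega) d hd]
    -- no carries: the two numbers have disjoint lanes
    have h3 : ∑ g ∈ range c, 2 ^ (48 * (LEN * g)) * v g < 2 ^ (48 * (LEN * c)) := by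
      clear hB1 h1 h2 ih
      have key : ∀ c' ≤ c, ∑ g ∈ range c', 2 ^ (48 * (LEN * g)) * v g < 2 ^ (48 * (LEN * c')) := by
        intro c'
        induction c' with
        | zero => intro _; simp
        | succ c' ih =>
          intro hc'
          have i1 := ih (by omega)
          have i2 : v c' < 2 ^ (48 * LEN) := by
            by_contra hcon
            have i3 := h c' (by omega)
            have i4 : v c' / 2 ^ (48 * LEN) ≠ 0 := by
              have := Nat.div_pos (not_lt.1 hcon) (by positivity)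
              omega
            apply i4
            -- all lanes of the quotient vanish
            have i5 : ∀ i, ln (v c' / 2 ^ (48 * LEN)) i = 0 := by
              intro i
              rw [ln_shift, i3.eq, h0 c' (by omega) _ (by omega)]
            have i6 : ∀ x, (∀ i, ln x i = 0) → x = 0 := by
              intro x
              induction x using Nat.strong_induction_on with
              | _ x ihx =>
                intro hx
                by_contra hne
                have j1 := hx 0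
                rw [ln_zero] at j1
                have j2 : x / 2 ^ 48 < x := Nat.div_lt_self (Nat.pos_of_ne_zero hne) (by norm_num)
                have j3 := ihx _ j2 fun i => by rw [← ln_succ]; exact hx _
                omega
            exact i6 _ i5
          rw [sum_range_succ, show 48 * (LEN * (c' + 1)) = 48 * (LEN * c') + 48 * LEN by ring,
            pow_add]
          calc _ < 2 ^ (48 * (LEN * c')) + 2 ^ (48 * (LEN * c')) * v c' := by omega
            _ = 2 ^ (48 * (LEN * c')) * (v c' + 1) := by ring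
            _ ≤ _ := Nat.mul_le_mul_left _ i2
      exact key c le_rfl
    refine ⟨fun i => ?_, fun i => ?_⟩
    · rw [← hB1 i]
      rcases lt_or_ge i (LEN * c) with hi | hi
      · -- the second number does not matter
        have e2 : ln (2 ^ (48 * (LEN * c)) * v c) i = 0 := by rw [h2.eq, if_neg (by omega)]
        rw [e2, add_zero]
        obtain ⟨j, hj⟩ := Nat.exists_eq_add_of_lt hi
        unfold ln
        rw [hj, show 48 * (i + j + 1) = 48 * i + (48 + 48 * j) by ring, pow_add, pow_add,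
          show 2 ^ (48 * i) * (2 ^ 48 * 2 ^ (48 * j)) * v c =
            2 ^ (48 * i) * (2 ^ 48 * (2 ^ (48 * j) * v c)) by ring,
          Nat.add_mul_div_left _ _ (by positivity), Nat.add_mul_mod_self_left]
      · have e1 : ln (∑ g ∈ range c, 2 ^ (48 * (LEN * g)) * v g) i = 0 := by
          rw [h1.eq, if_neg (by omega)]
        rw [e1, zero_add]
        obtain ⟨d, rfl⟩ := Nat.exists_eq_add_of_le hi
        rw [← ln_shift, ← ln_shift]
        rw [Nat.add_mul_div_left _ _ (by positivity), Nat.div_eq_of_lt h3, zero_add,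
          Nat.mul_div_cancel_left _ (by positivity)]
    · split_ifs with hi
      · exact (h _ (Nat.div_lt_of_lt_mul hi)).le _
      · exact Nat.zero_le _

lemma dig_lt (A i : ℕ) : dig A i < 256 := Nat.mod_lt _ (by norm_num)

/-- a number with given lanes -/
def spr (f : ℕ → ℕ) (n : ℕ) : ℕ := ∑ d ∈ range n, 2 ^ (48 * d) * f d

lemma Lan.spr {f : ℕ → ℕ} {B : ℕ} (hf : ∀ i, f i ≤ B) (hB : B < 2 ^ 48) (n : ℕ) :
    Lan (spr f n) (fun i => if i < n then f i else 0) B := by
  have h := Lan.cat (v := f) (f := fun g d => if d = 0 then f g else 0) (B := B) (LEN := 1) n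
    (fun g _ => ⟨fun i => by
      rcases Nat.eq_zero_or_pos i with rfl | hi
      · rw [ln_zero, if_pos rfl, Nat.mod_eq_of_lt (lt_of_le_of_lt (hf g) hB)]
      · obtain ⟨j, rfl⟩ := Nat.exists_eq_succ_of_ne_zero hi.ne'
        rw [Nat.succ_eq_add_one, ln_succ, Nat.div_eq_of_lt (lt_of_le_of_lt (hf g) hB), ln_of_zero,
          if_neg (by omega)], fun i => by
      split_ifs
      · exact hf g
      · exact Nat.zero_le _⟩)
    (fun g _ d hd => if_neg (by omega)) (by norm_num)
  unfold En.spr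
  have e : ∑ g ∈ range n, 2 ^ (48 * (1 * g)) * f g = ∑ d ∈ range n, 2 ^ (48 * d) * f d :=
    sum_congr rfl fun d _ => by rw [one_mul]
  rw [e] at h
  refine h.congr fun i => ?_
  simp only [one_mul, Nat.div_one, Nat.mod_one, if_true]

/-- the value at selected lanes is a lane of a product -/
theorem Lan.sel {H : ℕ} {f : ℕ → ℕ} {B A T R : ℕ} (h : Lan H f B) {s x : ℕ → ℕ}
    (hs : ∀ ρ < R, s ρ ≤ A) (hx : ∀ ρ < R, x ρ ≤ T) (hB : R * (A * B) < 2 ^ 48)
    (hAB : A * B < 2 ^ 48) :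
    ln (H * ∑ ρ ∈ range R, s ρ * 2 ^ (48 * (T - x ρ))) T = ∑ ρ ∈ range R, s ρ * f (x ρ) := by
  have e : H * ∑ ρ ∈ range R, s ρ * 2 ^ (48 * (T - x ρ)) =
      ∑ ρ ∈ range R, 2 ^ (48 * (T - x ρ)) * (s ρ * H) := by
    rw [mul_sum]
    exact sum_congr rfl fun ρ _ => by ring
  rw [e]
  have h1 := Lan.sum (v := fun ρ => 2 ^ (48 * (T - x ρ)) * (s ρ * H))
    (f := fun ρ i => if T - x ρ ≤ i then s ρ * f (i - (T - x ρ)) else 0) (B := A * B) R
    (fun ρ hρ => (h.mul (hs ρ hρ) hAB).shl (T - x ρ)) hB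
  rw [h1.eq]
  refine sum_congr rfl fun ρ hρ => ?_
  have := hx ρ (mem_range.1 hρ)
  rw [if_pos (by omega)]
  congr 2
  omega

end Pool.Agent.OEG.En
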