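import Pool.Agent.OEG.En1
import Pool.Agent.OEG.En2

/-!
Project OEG, engine 3: lists of numbers and the operations of the kernel.
-/

namespace Pool.Agent.OEG.En

open Finset
open Pool.Agent.LibH4.S7 (Rl)
open Pool.Agent.LibH4.Ker
open Pool.Agent.Lib_helper5 Pool.Agent.Lib_helper5.LK Pool.Agent.Lib_helper5.TB

/-- lists of numbers -/
inductive Q1 : Type
  | e : Q1
  | c (a : ℕ) (t : Q1) : Q1

/-- lists of pairs -/
inductive Q2 : Type
  | e : Q2
  | c (a b : ℕ) (t : Q2) : Q2

/-- values of a function on an interval -/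
def mk1 (a : ℕ → ℕ) : ℕ → ℕ → Q1
  | _, 0 => Q1.e
  | s, n + 1 => Q1.c (a s) (mk1 a (s + 1) n)

/-- values of two functions on an interval -/
def mk2 (a b : ℕ → ℕ) : ℕ → ℕ → Q2
  | _, 0 => Q2.e
  | s, n + 1 => Q2.c (a s) (b s) (mk2 a b (s + 1) n)

/-- the form with index `g` -/
def ef (l u q p p' X b : ℤ) (g : ℕ) : Fm :=
  if g % 2 = 0 then eA l q p p' X b (g / 2) else eB u q p p' X b (g / 2)

lemma ef_even {l u q p p' X b : ℤ} (j : ℕ) : ef l u q p p' X b (2 * j) = eA l q p p' X b j := by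
  unfold ef
  rw [if_pos (by omega), show 2 * j / 2 = j by omega]

lemma ef_odd {l u q p p' X b : ℤ} (j : ℕ) : ef l u q p p' X b (2 * j + 1) = eB u q p p' X b j := by
  unfold ef
  rw [if_neg (by omega), show (2 * j + 1) / 2 = j by omega]

/-- position of a form -/
def pf (n ex PT : ℕ) (f : Fm) : ℕ := pos n ex PT (rs n f.P) (rs n f.R) (rs n f.S)

/-! ### records -/

/-- record of a component: first coefficients and positions of the forms -/
noncomputable def recG {β : Type} (n ex PT p N N1 nl nu pi : ℕ) (steps : ℕ) :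
    ℕ → ℕ → (Q2 → β) → β :=
  @Nat.rec (fun _ => ℕ → ℕ → (Q2 → β) → β) (fun _ _ k => k Q2.e)
    (fun _ ih P Z k =>
      strict (pos n ex PT P N (Nat.mod (Nat.mul nl Z) n)) fun hA =>
      strict (Nat.mod (Nat.mul P p) n) fun P1 =>
      strict (pos n ex PT P1 N1 (Nat.mod (Nat.mul nu Z) n)) fun hB =>
      strict (Nat.mod (Nat.mul Z pi) n) fun Z1 =>
        ih P1 Z1 (fun R => k (Q2.c P hA (Q2.c P1 hB R)))) steps

section Rec

variable {n : ℕ} [NeZero n] {l u q p p' X b : ℤ}

lemma rs_mul (x y : ℤ) : Nat.mod (Nat.mul (rs n x) (rs n y)) n = rs n (x * y) := by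
  change (rs n x * rs n y) % n = _
  apply rs_of
  push_cast
  rw [rs_cast, rs_cast]

lemma recG_eq {β : Type} (ex PT : ℕ) (s steps : ℕ) (k : Q2 → β) :
    recG n ex PT (rs n p) (rs n (q * X + b)) (rs n (q * X - b)) (rs n (-l)) (rs n (-u))
      (rs n p') steps (rs n (p ^ s)) (rs n (X * p' ^ s)) k =
      k (mk2 (fun g => rs n (ef l u q p p' X b g).P) (fun g => pf n ex PT (ef l u q p p' X b g))
        (2 * s) (2 * steps)) := by
  induction steps generalizing s k with
  | zero => rfl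
  | succ steps ih =>
    change strict (pos n ex PT (rs n (p ^ s)) (rs n (q * X + b))
        (Nat.mod (Nat.mul (rs n (-l)) (rs n (X * p' ^ s))) n)) (fun hA =>
      strict (Nat.mod (Nat.mul (rs n (p ^ s)) (rs n p)) n) fun P1 =>
      strict (pos n ex PT P1 (rs n (q * X - b))
        (Nat.mod (Nat.mul (rs n (-u)) (rs n (X * p' ^ s))) n)) fun hB =>
      strict (Nat.mod (Nat.mul (rs n (X * p' ^ s)) (rs n p')) n) fun Z1 =>
        recG n ex PT (rs n p) (rs n (q * X + b)) (rs n (q * X - b)) (rs n (-l)) (rs n (-u))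
          (rs n p') steps P1 Z1 (fun R => k (Q2.c (rs n (p ^ s)) hA (Q2.c P1 hB R)))) = _
    simp only [strict_eq, rs_mul]
    rw [show p ^ s * p = p ^ (s + 1) by ring, show X * p' ^ s * p' = X * p' ^ (s + 1) by ring, ih]
    have e1 : -l * (X * p' ^ s) = -(l * X * p' ^ s) := by ring
    have e2 : -u * (X * p' ^ s) = -(u * X * p' ^ s) := by ring
    rw [e1, e2, show 2 * (steps + 1) = 2 * steps + 1 + 1 by ring,
      show 2 * (s + 1) = 2 * s + 1 + 1 by ring]
    change k _ = k (Q2.c (rs n (ef l u q p p' X b (2 * s)).P)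
      (pf n ex PT (ef l u q p p' X b (2 * s)))
      (Q2.c (rs n (ef l u q p p' X b (2 * s + 1)).P) (pf n ex PT (ef l u q p p' X b (2 * s + 1)))
        (mk2 _ _ (2 * s + 1 + 1) (2 * steps))))
    rw [ef_even, ef_odd]
    rfl

/-- the letters -/
noncomputable def letK {β : Type} (l nl nu p : ℕ) (steps : ℕ) : ℕ → (Q1 → β) → β :=
  @Nat.rec (fun _ => ℕ → (Q1 → β) → β) (fun _ k => k Q1.e)
    (fun _ ih Q k =>
      strict (Nat.mod (Nat.mul nl Q) l) fun x =>
      strict (Nat.mod (Nat.mul nu Q) l) fun y =>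
      strict (Nat.mod (Nat.mul Q p) l) fun Qn => ih Qn (fun R => k (Q1.c x (Q1.c y R)))) steps

lemma letK_eq {β : Type} (s steps : ℕ) (k : Q1 → β) :
    letK n (rs n (-l)) (rs n (-u)) (rs n p) steps (rs n (q * p ^ s)) k =
      k (mk1 (fun g => rs n (ef l u q p p' X b g).α) (2 * s) (2 * steps)) := by
  induction steps generalizing s k with
  | zero => rfl
  | succ steps ih =>
    change strict (Nat.mod (Nat.mul (rs n (-l)) (rs n (q * p ^ s))) n) (fun x =>
      strict (Nat.mod (Nat.mul (rs n (-u)) (rs n (q * p ^ s))) n) fun y =>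
      strict (Nat.mod (Nat.mul (rs n (q * p ^ s)) (rs n p)) n) fun Qn =>
        letK n (rs n (-l)) (rs n (-u)) (rs n p) steps Qn (fun R => k (Q1.c x (Q1.c y R)))) = _
    simp only [strict_eq, rs_mul]
    rw [show q * p ^ s * p = q * p ^ (s + 1) by ring, ih]
    rw [show 2 * (steps + 1) = 2 * steps + 1 + 1 by ring, show 2 * (s + 1) = 2 * s + 1 + 1 by ring]
    change k _ = k (Q1.c (rs n (ef l u q p p' X b (2 * s)).α)
      (Q1.c (rs n (ef l u q p p' X b (2 * s + 1)).α) (mk1 _ (2 * s + 1 + 1) (2 * steps))))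
    rw [ef_even, ef_odd]
    have e1 : -l * (q * p ^ s) = (eA l q p p' X b s).α := by unfold eA; ring
    have e2 : -u * (q * p ^ s) = (eB u q p p' X b s).α := by unfold eB; ring
    rw [e1, e2]

end Rec

/-! ### tables -/

/-- a number with given lanes -/
def sprn (row : ℕ) (LEN : ℕ) : ℕ :=
  @Nat.rec (fun _ => ℕ) (nat_lit 0) (fun m ih =>
    Nat.add ih (Nat.mul (Nat.pow (nat_lit 2) (Nat.mul (nat_lit 48) m)) (dig row m))) LEN

lemma sprn_eq (row LEN : ℕ) : sprn row LEN = spr (dig row) LEN := by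
  induction LEN with
  | zero => rfl
  | succ n ih =>
    change sprn row n + 2 ^ (48 * n) * dig row n = _
    rw [ih]
    unfold spr
    rw [sum_range_succ]

/-- first entries of a table -/
def tabX (S LEN : ℕ) (rows : List (ℕ × ℕ)) : ℕ :=
  @List.rec (ℕ × ℕ) (fun _ => ℕ) (nat_lit 0)
    (fun x _ ih => Nat.add (sprn x.1 LEN) (Nat.mul S ih)) rows

/-- second entries of a table -/
def tabY (S LEN : ℕ) (rows : List (ℕ × ℕ)) : ℕ :=
  @List.rec (ℕ × ℕ) (fun _ => ℕ) (nat_lit 0)
    (fun x _ ih => Nat.add (sprn x.2 LEN) (Nat.mul S ih)) rows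

lemma tabX_eq (LEN : ℕ) (rows : List (ℕ × ℕ)) : tabX (2 ^ (48 * LEN)) LEN rows =
    ∑ i ∈ range rows.length, 2 ^ (48 * (LEN * i)) * spr (dig (rows.getD i (0, 0)).1) LEN := by
  induction rows with
  | nil => rfl
  | cons x rows ih =>
    change sprn x.1 LEN + 2 ^ (48 * LEN) * tabX (2 ^ (48 * LEN)) LEN rows = _
    rw [List.length_cons, sum_range_succ', ih, sprn_eq, mul_sum, add_comm]
    congr 1
    · refine sum_congr rfl fun i _ => ?_
      rw [show 48 * (LEN * (i + 1)) = 48 * LEN + 48 * (LEN * i) by ring, pow_add]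
      simp only [List.getD_cons_succ]
      ring
    · simp

lemma tabY_eq (LEN : ℕ) (rows : List (ℕ × ℕ)) : tabY (2 ^ (48 * LEN)) LEN rows =
    ∑ i ∈ range rows.length, 2 ^ (48 * (LEN * i)) * spr (dig (rows.getD i (0, 0)).2) LEN := by
  induction rows with
  | nil => rfl
  | cons x rows ih =>
    change sprn x.2 LEN + 2 ^ (48 * LEN) * tabY (2 ^ (48 * LEN)) LEN rows = _
    rw [List.length_cons, sum_range_succ', ih, sprn_eq, mul_sum, add_comm]
    congr 1
    · refine sum_congr rfl fun i _ => ?_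
      rw [show 48 * (LEN * (i + 1)) = 48 * LEN + 48 * (LEN * i) by ring, pow_add]
      simp only [List.getD_cons_succ]
      ring
    · simp

lemma dig_zero (i : ℕ) : dig 0 i = 0 := by
  change (0 >>> (8 * i)) % 256 = 0
  simp

lemma fetch {g : ℕ → ℕ} {LEN c : ℕ} (hL : 0 < LEN) (hc : ∀ i, c ≤ i → g i = 0) (i : ℕ) :
    Lan (((∑ i ∈ range c, 2 ^ (48 * (LEN * i)) * spr (dig (g i)) LEN) >>> (48 * (LEN * i))) &&&
      (2 ^ (48 * LEN) - 1)) (fun d => if d < LEN then dig (g i) d else 0) 255 := by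
  have h1 := Lan.cat (v := fun i => spr (dig (g i)) LEN)
    (f := fun i d => if d < LEN then dig (g i) d else 0) (B := 255) (LEN := LEN) c
    (fun i _ => Lan.spr (fun d => Nat.le_of_lt_succ (dig_lt (g i) d)) (by norm_num) LEN)
    (fun i _ d hd => if_neg (by omega)) hL
  refine ((h1.chunk (LEN * i) LEN).congr fun d => ?_)
  by_cases hd : d < LEN
  · rw [if_pos hd, if_pos hd]
    have e1 : (LEN * i + d) / LEN = i := by rw [Nat.mul_add_div hL, Nat.div_eq_of_lt hd, add_zero]
    have e2 : (LEN * i + d) % LEN = d := by rw [Nat.mul_add_mod, Nat.mod_eq_of_lt hd]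
    rcases lt_or_ge i c with hi | hi
    · have : LEN * i + d < LEN * c := by
        calc LEN * i + d < LEN * i + LEN := by omega
          _ = LEN * (i + 1) := by ring
          _ ≤ LEN * c := Nat.mul_le_mul_left _ hi
      rw [if_pos this, e1, e2, if_pos hd]
    · have : ¬ LEN * i + d < LEN * c := by
        have := Nat.mul_le_mul_left LEN hi
        omega
      rw [if_neg this, hc i hi, dig_zero]
  · rw [if_neg hd, if_neg hd]

lemma fetchX {LEN : ℕ} (hL : 0 < LEN) (rows : List (ℕ × ℕ)) (i : ℕ) :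
    Lan ((tabX (2 ^ (48 * LEN)) LEN rows >>> (48 * (LEN * i))) &&& (2 ^ (48 * LEN) - 1))
      (fun d => if d < LEN then dig (rows.getD i (0, 0)).1 d else 0) 255 := by
  rw [tabX_eq]
  exact fetch hL (fun i hi => by rw [List.getD_eq_default _ _ hi]) i

lemma fetchY {LEN : ℕ} (hL : 0 < LEN) (rows : List (ℕ × ℕ)) (i : ℕ) :
    Lan ((tabY (2 ^ (48 * LEN)) LEN rows >>> (48 * (LEN * i))) &&& (2 ^ (48 * LEN) - 1))
      (fun d => if d < LEN then dig (rows.getD i (0, 0)).2 d else 0) 255 := by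
  rw [tabY_eq]
  exact fetch hL (fun i hi => by rw [List.getD_eq_default _ _ hi]) i

/-! ### first level -/

/-- concatenation of the vectors of the forms -/
noncomputable def BK (TX TY S W1 mk t : ℕ) (G : Q2) : Q1 → ℕ :=
  @Q2.rec (fun _ => Q1 → ℕ) (fun _ => nat_lit 0)
    (fun P h _ ih ML => @Q1.rec (fun _ => ℕ) (nat_lit 0) (fun w mt _ =>
      Nat.add (Nat.mul (dig t P) (Nat.add
        (Nat.mul (nat_lit 3) (Nat.land (Nat.shiftRight TX (Nat.mul W1 h)) mk))
        (Nat.mul w (Nat.land (Nat.shiftRight TY (Nat.mul W1 h)) mk)))) (Nat.mul S (ih mt))) ML) G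

lemma BK_eq (TX TY S W1 mk t : ℕ) (P h w : ℕ → ℕ) (s n : ℕ) :
    BK TX TY S W1 mk t (mk2 P h s n) (mk1 w s n) =
      ∑ g ∈ range n, S ^ g * (dig t (P (s + g)) * (3 * ((TX >>> (W1 * h (s + g))) &&& mk) +
        w (s + g) * ((TY >>> (W1 * h (s + g))) &&& mk))) := by
  induction n generalizing s with
  | zero => rfl
  | succ n ih =>
    change dig t (P s) * (3 * ((TX >>> (W1 * h s)) &&& mk) + w s * ((TY >>> (W1 * h s)) &&& mk)) +
      S * BK TX TY S W1 mk t (mk2 P h (s + 1) n) (mk1 w (s + 1) n) = _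
    rw [ih, sum_range_succ', mul_sum, add_comm]
    congr 1
    · refine sum_congr rfl fun i _ => ?_
      rw [show s + 1 + i = s + (i + 1) by ring]
      ring
    · simp

/-- element of a list of pairs -/
noncomputable def nthQ (R : Q2) : ℕ → (ℕ → ℕ → ℕ) → ℕ :=
  @Q2.rec (fun _ => ℕ → (ℕ → ℕ → ℕ) → ℕ) (fun _ _ => nat_lit 0)
    (fun a b _ ih i k => @Nat.rec (fun _ => ℕ) (k a b) (fun j _ => ih j k) i) R

lemma nthQ_eq (a b : ℕ → ℕ) (s n i : ℕ) (hi : i < n) (k : ℕ → ℕ → ℕ) :
    nthQ (mk2 a b s n) i k = k (a (s + i)) (b (s + i)) := by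
  induction n generalizing s i with
  | zero => omega
  | succ n ih =>
    cases i with
    | zero => rfl
    | succ i =>
      change nthQ (mk2 a b (s + 1) n) i k = _
      rw [ih _ _ (by omega), show s + 1 + i = s + (i + 1) by ring]

/-- the part of the last edge -/
noncomputable def EK (TY W1 mk t e m2 : ℕ) (G : Q2) : ℕ :=
  nthQ G m2 fun P h => Nat.mul (Nat.pow (nat_lit 2) (Nat.mul W1 m2))
    (Nat.mul (Nat.mul e (dig t P)) (Nat.land (Nat.shiftRight TY (Nat.mul W1 h)) mk))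

/-- the vectors without the multiples of the period -/
noncomputable def B0K (BW TY W1 mk t e m2 : ℕ) (G : Q2) : ℕ :=
  Nat.add (Nat.land BW (Nat.sub (Nat.pow (nat_lit 2) (Nat.mul W1 (Nat.succ m2))) (nat_lit 1)))
    (EK TY W1 mk t e m2 G)

/-! ### second level -/

/-- record for the second component -/
noncomputable def yrK {β : Type} (t W1 W3 K2 : ℕ) (G : Q2) : ℕ → ℕ → (Q2 → β) → β :=
  @Q2.rec (fun _ => ℕ → ℕ → (Q2 → β) → β) (fun _ _ k => k Q2.e)
    (fun P h _ ih hb r k =>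
      strict (Nat.mul (Nat.pow (nat_lit 2) (Nat.mul W3 r)) (dig t P)) fun c =>
      strict (Nat.add hb (Nat.mul W3 h)) fun hh =>
      strict (Nat.mod (Nat.succ r) K2) fun r1 =>
      strict (Nat.add hb W1) fun hb1 => ih hb1 r1 (fun R => k (Q2.c c hh R))) G

lemma yrK_eq {β : Type} (t W1 W3 K2 : ℕ) (P h : ℕ → ℕ) (s n : ℕ) (k : Q2 → β) :
    yrK t W1 W3 K2 (mk2 P h s n) (W1 * s) (s % K2) k =
      k (mk2 (fun g => 2 ^ (W3 * (g % K2)) * dig t (P g)) (fun g => W1 * g + W3 * h g) s n) := by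
  induction n generalizing s k with
  | zero => rfl
  | succ n ih =>
    change strict (2 ^ (W3 * (s % K2)) * dig t (P s)) (fun c =>
      strict (W1 * s + W3 * h s) fun hh =>
      strict ((s % K2 + 1) % K2) fun r1 =>
      strict (W1 * s + W1) fun hb1 => yrK t W1 W3 K2 (mk2 P h (s + 1) n) hb1 r1
        (fun R => k (Q2.c c hh R))) = _
    simp only [strict_eq]
    rw [show W1 * s + W1 = W1 * (s + 1) by ring, Nat.mod_add_mod, ih]
    rfl

/-- sum of the chunks -/
noncomputable def yK (B mk : ℕ) (Y : Q2) : ℕ :=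
  @Q2.rec (fun _ => ℕ) (nat_lit 0)
    (fun c h _ ih => Nat.add (Nat.mul c (Nat.land (Nat.shiftRight B h) mk)) ih) Y

lemma yK_eq (B mk : ℕ) (c h : ℕ → ℕ) (s n : ℕ) :
    yK B mk (mk2 c h s n) = ∑ g ∈ range n, c (s + g) * ((B >>> h (s + g)) &&& mk) := by
  induction n generalizing s with
  | zero => rfl
  | succ n ih =>
    change c s * ((B >>> h s) &&& mk) + yK B mk (mk2 c h (s + 1) n) = _
    rw [ih, sum_range_succ', add_comm]
    congr 1
    exact sum_congr rfl fun i _ => by rw [show s + 1 + i = s + (i + 1) by ring]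

/-- sum of blocks -/
def fdK (B WK mk : ℕ) (c : ℕ) : ℕ :=
  @Nat.rec (fun _ => ℕ) (nat_lit 0)
    (fun c ih => Nat.add ih (Nat.land (Nat.shiftRight B (Nat.mul WK c)) mk)) c

lemma fdK_eq (B WK mk c : ℕ) :
    fdK B WK mk c = ∑ r ∈ range c, ((B >>> (WK * r)) &&& mk) := by
  induction c with
  | zero => rfl
  | succ c ih =>
    change fdK B WK mk c + ((B >>> (WK * c)) &&& mk) = _
    rw [ih, sum_range_succ]

/-! ### last level -/

/-- number which selects the positions of the last component -/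
noncomputable def frK (t W3 : ℕ) (G : Q2) : ℕ → ℕ :=
  @Q2.rec (fun _ => ℕ → ℕ) (fun _ => nat_lit 0)
    (fun P h _ ih T => Nat.add (Nat.mul (dig t P)
      (Nat.pow (nat_lit 2) (Nat.sub T (Nat.mul (nat_lit 48) h)))) (ih (Nat.sub T W3))) G

lemma frK_eq (t W3 : ℕ) (P h : ℕ → ℕ) (T s n : ℕ) :
    frK t W3 (mk2 P h s n) T =
      ∑ g ∈ range n, dig t (P (s + g)) * 2 ^ (T - (W3 * g + 48 * h (s + g))) := by
  induction n generalizing s T with
  | zero => rfl
  | succ n ih =>
    change dig t (P s) * 2 ^ (T - 48 * h s) + frK t W3 (mk2 P h (s + 1) n) (T - W3) = _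
    rw [ih, sum_range_succ', add_comm]
    congr 1
    · refine sum_congr rfl fun i _ => ?_
      rw [show s + 1 + i = s + (i + 1) by ring, show T - W3 - (W3 * i + 48 * h (s + (i + 1))) =
        T - (W3 * (i + 1) + 48 * h (s + (i + 1))) by
          rw [Nat.sub_sub]; congr 1; ring]
    · simp

/-- the value -/
def zK (H F T l : ℕ) : ℕ :=
  Nat.mod (Nat.land (Nat.shiftRight (Nat.mul H F) T) (nat_lit 281474976710655)) l

lemma zK_eq (H F T l : ℕ) : zK H F (48 * T) l = ln (H * F) T % l := by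
  change (((H * F) >>> (48 * T)) &&& 281474976710655) % l = _
  rw [show (281474976710655 : ℕ) = 2 ^ 48 - 1 by norm_num, land_mask, Nat.shiftRight_eq_div_pow]
  rfl

end Pool.Agent.OEG.En
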