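import Pool.Agent.OEG.En3

/-!
Project OEG, engine 4: the lanes of the numbers of the engine.
-/

namespace Pool.Agent.OEG.En

open Finset
open Pool.Agent.LibH4.S7 (Rl)
open Pool.Agent.LibH4.Ker
open Pool.Agent.Lib_helper5 Pool.Agent.Lib_helper5.LK Pool.Agent.Lib_helper5.TB

/-- the digits of the first table in the row of a form -/
def dX (r : Rl) (f : Fm) (d : ℕ) : ℕ := dig (r.rows.getD (pf r.n1 r.ex1 r.PT1 f) (0, 0)).1 d
/-- the digits of the second table in the row of a form -/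
def dY (r : Rl) (f : Fm) (d : ℕ) : ℕ := dig (r.rows.getD (pf r.n1 r.ex1 r.PT1 f) (0, 0)).2 d
/-- characters -/
def s1 (r : Rl) (f : Fm) : ℕ := dig r.t1 (rs r.n1 f.P)
/-- characters -/
def s2 (r : Rl) (f : Fm) : ℕ := dig r.t2 (rs r.n2 f.P)
/-- characters -/
def s3 (r : Rl) (f : Fm) : ℕ := dig r.t3 (rs r.n3 f.P)

/-- the values of a form in a row -/
def ug (r : Rl) (f : Fm) (d : ℕ) : ℕ := s1 r f * (3 * dX r f d + rs r.l f.α * dY r f d)

/-- lanes of a concatenation -/
def ctl (LEN n : ℕ) (C : ℕ → ℕ → ℕ) (i : ℕ) : ℕ := if i < LEN * n then C (i / LEN) (i % LEN) else 0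

section First

variable {r : Rl} {LEN n : ℕ} {f : ℕ → Fm}

/-- the first number of the engine -/
noncomputable def BWn (r : Rl) (LEN : ℕ) (f : ℕ → Fm) (n : ℕ) : ℕ :=
  BK (tabX (2 ^ (48 * LEN)) LEN r.rows) (tabY (2 ^ (48 * LEN)) LEN r.rows) (2 ^ (48 * LEN))
    (48 * LEN) (2 ^ (48 * LEN) - 1) r.t1
    (mk2 (fun g => rs r.n1 (f g).P) (fun g => pf r.n1 r.ex1 r.PT1 (f g)) 0 n)
    (mk1 (fun g => rs r.l (f g).α) 0 n)

theorem BW_lan [NeZero r.l] (hL : 0 < LEN) (hs : ∀ g, s1 r (f g) ≤ 18) (hl : r.l ≤ 19) :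
    Lan (BWn r LEN f n) (ctl LEN n fun g d => ug r (f g) d) 96390 := by
  unfold BWn
  rw [BK_eq]
  have e : ∑ g ∈ range n, (2 ^ (48 * LEN)) ^ g * (dig r.t1 (rs r.n1 (f (0 + g)).P) *
      (3 * ((tabX (2 ^ (48 * LEN)) LEN r.rows >>> (48 * LEN * pf r.n1 r.ex1 r.PT1 (f (0 + g)))) &&&
        (2 ^ (48 * LEN) - 1)) + rs r.l (f (0 + g)).α * ((tabY (2 ^ (48 * LEN)) LEN r.rows >>>
        (48 * LEN * pf r.n1 r.ex1 r.PT1 (f (0 + g)))) &&& (2 ^ (48 * LEN) - 1)))) =
      ∑ g ∈ range n, 2 ^ (48 * (LEN * g)) * (s1 r (f g) *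
      (3 * ((tabX (2 ^ (48 * LEN)) LEN r.rows >>> (48 * (LEN * pf r.n1 r.ex1 r.PT1 (f g)))) &&&
        (2 ^ (48 * LEN) - 1)) + rs r.l (f g).α * ((tabY (2 ^ (48 * LEN)) LEN r.rows >>>
        (48 * (LEN * pf r.n1 r.ex1 r.PT1 (f g)))) &&& (2 ^ (48 * LEN) - 1)))) := by
    refine sum_congr rfl fun g _ => ?_
    rw [zero_add, ← pow_mul, mul_assoc 48 LEN g, mul_assoc 48 LEN]
    rfl
  rw [e]
  have h := Lan.cat (v := fun g => s1 r (f g) *
      (3 * ((tabX (2 ^ (48 * LEN)) LEN r.rows >>> (48 * (LEN * pf r.n1 r.ex1 r.PT1 (f g)))) &&&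
        (2 ^ (48 * LEN) - 1)) + rs r.l (f g).α * ((tabY (2 ^ (48 * LEN)) LEN r.rows >>>
        (48 * (LEN * pf r.n1 r.ex1 r.PT1 (f g)))) &&& (2 ^ (48 * LEN) - 1))))
    (f := fun g d => if d < LEN then ug r (f g) d else 0) (B := 96390) (LEN := LEN) n (fun g _ => by
      have a1 := (fetchX hL r.rows (pf r.n1 r.ex1 r.PT1 (f g))).mul (a := 3) (A := 3) le_rfl
        (by norm_num)
      have hw : rs r.l (f g).α ≤ 18 := by
        have := rs_lt (p := r.l) (f g).α
        omega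
      have a2 := (fetchY hL r.rows (pf r.n1 r.ex1 r.PT1 (f g))).mul (a := rs r.l (f g).α) (A := 18)
        hw (by norm_num)
      have a3 := (a1.add a2 (by norm_num)).mul (a := s1 r (f g)) (A := 18) (hs g) (by norm_num)
      refine (a3.mono (by norm_num)).congr fun d => ?_
      unfold ug dX dY
      by_cases hd : d < LEN
      · simp only [if_pos hd]
      · simp only [if_neg hd, mul_zero, add_zero]) (fun g _ d hd => if_neg (by omega)) hL
  refine h.congr fun i => ?_
  unfold ctl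
  by_cases hi : i < LEN * n
  · rw [if_pos hi, if_pos hi, if_pos (Nat.mod_lt _ hL)]
  · rw [if_neg hi, if_neg hi]

/-- the part of the last edge -/
noncomputable def En' (r : Rl) (LEN : ℕ) (f : ℕ → Fm) (n e m2 : ℕ) : ℕ :=
  EK (tabY (2 ^ (48 * LEN)) LEN r.rows) (48 * LEN) (2 ^ (48 * LEN) - 1) r.t1 e m2
    (mk2 (fun g => rs r.n1 (f g).P) (fun g => pf r.n1 r.ex1 r.PT1 (f g)) 0 n)

/-- the second number of the engine -/
noncomputable def B0n (r : Rl) (LEN : ℕ) (f : ℕ → Fm) (n e m2 : ℕ) : ℕ :=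
  B0K (BWn r LEN f n) (tabY (2 ^ (48 * LEN)) LEN r.rows) (48 * LEN) (2 ^ (48 * LEN) - 1) r.t1 e m2
    (mk2 (fun g => rs r.n1 (f g).P) (fun g => pf r.n1 r.ex1 r.PT1 (f g)) 0 n)

theorem B0_lan [NeZero r.l] (hL : 0 < LEN) (hs : ∀ g, s1 r (f g) ≤ 18) (hl : r.l ≤ 19)
    {e m2 : ℕ} (he : e ≤ 18) (hm : m2 < n) :
    Lan (B0n r LEN f n e m2) (ctl LEN n fun g d => (if g ≤ m2 then ug r (f g) d else 0) +
      if g = m2 then e * s1 r (f g) * dY r (f g) d else 0) 179010 := by
  have h1 := (BW_lan (n := n) hL hs hl).low (LEN * (m2 + 1))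
  have h2 := (fetchY hL r.rows (pf r.n1 r.ex1 r.PT1 (f m2))).mul (a := e * s1 r (f m2)) (A := 324)
    (by calc e * s1 r (f m2) ≤ 18 * 18 := Nat.mul_le_mul he (hs m2)
        _ = 324 := by norm_num) (by norm_num)
  have h3 := h2.shl (LEN * m2)
  have h4 := h1.add h3 (by norm_num)
  have e1 : B0n r LEN f n e m2 = (BWn r LEN f n &&& (2 ^ (48 * (LEN * (m2 + 1))) - 1)) +
      2 ^ (48 * (LEN * m2)) * (e * s1 r (f m2) * ((tabY (2 ^ (48 * LEN)) LEN r.rows >>>
        (48 * (LEN * pf r.n1 r.ex1 r.PT1 (f m2)))) &&& (2 ^ (48 * LEN) - 1))) := by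
    change (BWn r LEN f n &&& (2 ^ (48 * LEN * (m2 + 1)) - 1)) + En' r LEN f n e m2 = _
    congr 1
    · rw [mul_assoc]
    · unfold En' EK
      rw [nthQ_eq _ _ _ _ _ hm, zero_add]
      change 2 ^ (48 * LEN * m2) * ((e * dig r.t1 (rs r.n1 (f m2).P)) *
        ((tabY (2 ^ (48 * LEN)) LEN r.rows >>> (48 * LEN * pf r.n1 r.ex1 r.PT1 (f m2))) &&&
          (2 ^ (48 * LEN) - 1))) = _
      rw [mul_assoc 48 LEN m2, mul_assoc 48 LEN]
      rfl
  rw [e1]
  refine (h4.mono (by norm_num)).congr fun i => ?_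
  unfold ctl
  have hdiv : ∀ k, i < LEN * k ↔ i / LEN < k := fun k => by
    rw [Nat.div_lt_iff_lt_mul hL, mul_comm]
  have hml := Nat.mod_lt i hL
  have hid := Nat.div_add_mod i LEN
  simp only [hdiv]
  by_cases c1 : i / LEN < n
  · rw [if_pos c1]
    simp only [if_pos c1]
    congr 1
    · by_cases c2 : i / LEN < m2 + 1
      · rw [if_pos c2, if_pos (by omega)]
      · rw [if_neg c2, if_neg (by omega)]
    · by_cases c3 : i / LEN = m2
      · rw [if_pos c3, if_pos (by rw [← c3]; omega)]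
        have : i - LEN * m2 = i % LEN := by rw [← c3]; omega
        rw [this, if_pos hml, c3]
        rfl
      · rw [if_neg c3]
        by_cases c4 : LEN * m2 ≤ i
        · rw [if_pos c4, if_neg, mul_zero]
          have : m2 + 1 ≤ i / LEN := by
            have : m2 ≤ i / LEN := (Nat.le_div_iff_mul_le hL).2 (by rw [mul_comm]; exact c4)
            omega
          have := Nat.mul_le_mul_left LEN this
          rw [mul_add, mul_one] at this
          omega
        · rw [if_neg c4]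
  · rw [if_neg c1]
    simp only [if_neg c1]
    have c2 : n ≤ i / LEN := not_lt.1 c1
    have c4 : LEN * m2 ≤ i := by
      have := Nat.mul_le_mul_left LEN c2
      have := Nat.mul_le_mul_left LEN hm.le
      omega
    have c5 : ¬ i - LEN * m2 < LEN := by
      have := Nat.mul_le_mul_left LEN (show m2 + 1 ≤ i / LEN by omega)
      rw [mul_add, mul_one] at this
      omega
    rw [if_pos c4, if_neg c5, mul_zero]
    simp

/-- the sum with a multiple of the period -/
theorem Bt_lan [NeZero r.l] (hL : 0 < LEN) (hs : ∀ g, s1 r (f g) ≤ 18) (hl : r.l ≤ 19)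
    {e m2 τ : ℕ} (he : e ≤ 18) (hm : m2 < n) (hτ : τ ≤ 18) :
    Lan (B0n r LEN f n e m2 + τ * BWn r LEN f n)
      (ctl LEN n fun g d => (if g ≤ m2 then ug r (f g) d else 0) +
      (if g = m2 then e * s1 r (f g) * dY r (f g) d else 0) + τ * ug r (f g) d) 2097152 := by
  have h1 := B0_lan (n := n) hL hs hl he hm
  have h2 := (BW_lan (n := n) hL hs hl).mul hτ (by norm_num)
  refine ((h1.add h2 (by norm_num)).mono (by norm_num)).congr fun i => ?_
  unfold ctl
  split_ifs <;> ring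

end First

/-! ### two components -/

section Two

variable {B LEN K c T : ℕ} {C : ℕ → ℕ → ℕ}

theorem fd_lan (hB : Lan B (ctl LEN (K * c) C) 2097152) (hc : c * 2097152 < 2 ^ 48) :
    Lan (fdK B (48 * LEN * K) (2 ^ (48 * (LEN * K)) - 1) c)
      (fun i => ∑ ρ ∈ range c, if i < LEN * K then ctl LEN (K * c) C (LEN * K * ρ + i) else 0)
      (c * 2097152) := by
  rw [fdK_eq]
  have e : ∑ ρ ∈ range c, ((B >>> (48 * LEN * K * ρ)) &&& (2 ^ (48 * (LEN * K)) - 1)) =
      ∑ ρ ∈ range c, ((B >>> (48 * (LEN * K * ρ))) &&& (2 ^ (48 * (LEN * K)) - 1)) :=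
    sum_congr rfl fun ρ _ => by rw [show 48 * LEN * K * ρ = 48 * (LEN * K * ρ) by ring]
  rw [e]
  exact Lan.sum c (fun ρ _ => hB.chunk (LEN * K * ρ) (LEN * K)) hc

theorem val2 (hL : 0 < LEN) (hK : 0 < K) (hB : Lan B (ctl LEN (K * c) C) 2097152) (hc : c ≤ 48)
    (hK' : K ≤ 96) {t : ℕ} {P h : ℕ → ℕ} (hP : ∀ g, dig t (P g) ≤ 18) (hh : ∀ g, h g < LEN)
    (hPp : ∀ i k, P (i + K * k) = P i) (hhp : ∀ i k, h (i + K * k) = h i) (hT : T + 1 = K * LEN) :
    ln (fdK B (48 * LEN * K) (2 ^ (48 * (LEN * K)) - 1) c *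
      frK t (48 * LEN) (mk2 P h 0 K) (48 * T)) T =
      ∑ g ∈ range (K * c), dig t (P g) * C g (h g) := by
  have h1 := fd_lan hB (by omega)
  rw [frK_eq]
  have hx : ∀ ρ < K, LEN * ρ + h ρ ≤ T := by
    intro ρ hρ
    have := hh ρ
    have h2 : LEN * (ρ + 1) ≤ LEN * K := Nat.mul_le_mul_left _ hρ
    have h3 : K * LEN = LEN * K := mul_comm _ _
    rw [mul_add, mul_one] at h2
    omega
  have e : ∑ g ∈ range K, dig t (P (0 + g)) * 2 ^ (48 * T - (48 * LEN * g + 48 * h (0 + g))) =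
      ∑ g ∈ range K, dig t (P g) * 2 ^ (48 * (T - (LEN * g + h g))) := by
    refine sum_congr rfl fun g _ => ?_
    rw [zero_add, show 48 * LEN * g + 48 * h g = 48 * (LEN * g + h g) by ring, ← Nat.mul_sub]
  rw [e, h1.sel (s := fun g => dig t (P g)) (x := fun g => LEN * g + h g) (A := 18)
    (fun ρ _ => hP ρ) hx ?_ ?_]
  · -- the sum
    have hb : ∑ g ∈ range (K * c), dig t (P g) * C g (h g) =
        ∑ i ∈ range K, ∑ k ∈ range c, dig t (P (i + K * k)) * C (i + K * k) (h (i + K * k)) := by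
      clear h1 e hx hB hc
      induction c with
      | zero => simp
      | succ c ih =>
        rw [show K * (c + 1) = K * c + K by ring, sum_range_add, ih]
        simp_rw [sum_range_succ]
        rw [sum_add_distrib]
        congr 1
        exact sum_congr rfl fun i _ => by rw [show K * c + i = i + K * c by ring]
    rw [hb]
    refine sum_congr rfl fun ρ hρ => ?_
    rw [mul_sum]
    refine sum_congr rfl fun k hk => ?_
    have hρ' := mem_range.1 hρ
    have hk' := mem_range.1 hk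
    have h2 : LEN * ρ + h ρ < LEN * K := by
      have := hx ρ hρ'
      have h3 : K * LEN = LEN * K := mul_comm _ _
      omega
    rw [if_pos h2, hPp, hhp]
    congr 1
    unfold ctl
    have e2 : LEN * K * k + (LEN * ρ + h ρ) = LEN * (ρ + K * k) + h ρ := by ring
    rw [e2, Nat.mul_add_div hL, Nat.div_eq_of_lt (hh ρ), add_zero, Nat.mul_add_mod,
      Nat.mod_eq_of_lt (hh ρ), if_pos]
    calc LEN * (ρ + K * k) + h ρ < LEN * (ρ + K * k) + LEN := by have := hh ρ; omega
      _ = LEN * (ρ + K * k + 1) := by ring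
      _ ≤ LEN * (K * c) := by
        apply Nat.mul_le_mul_left
        calc ρ + K * k + 1 ≤ K + K * k := by omega
          _ = K * (k + 1) := by ring
          _ ≤ K * c := Nat.mul_le_mul_left _ hk'
  · calc K * (18 * (c * 2097152)) ≤ 96 * (18 * (48 * 2097152)) := by gcongr
      _ < 2 ^ 48 := by norm_num
  · calc 18 * (c * 2097152) ≤ 18 * (48 * 2097152) := by gcongr
      _ < 2 ^ 48 := by norm_num

end Two

/-! ### three components -/

section Three

variable {B LEN len2 len3 n K T : ℕ} {C : ℕ → ℕ → ℕ}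

theorem val3 (hL : LEN = len2 * len3) (h3 : 0 < len3) (hK : 0 < K) (hB : Lan B (ctl LEN n C) 2097152)
    (hn : n ≤ 96) (hK' : K ≤ 96) {t t' : ℕ} {P h P' h' : ℕ → ℕ}
    (hP : ∀ g, dig t (P g) ≤ 18) (hh : ∀ g, h g < len2)
    (hP' : ∀ g, dig t' (P' g) ≤ 18) (hh' : ∀ g, h' g < len3)
    (hPp : ∀ g, P' (g % K) = P' g) (hhp : ∀ g, h' (g % K) = h' g) (hT : T + 1 = K * len3) :
    ln (yK B (2 ^ (48 * len3) - 1) (mk2 (fun g => 2 ^ (48 * len3 * (g % K)) * dig t (P g))
      (fun g => 48 * LEN * g + 48 * len3 * h g) 0 n) *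
      frK t' (48 * len3) (mk2 P' h' 0 K) (48 * T)) T =
      ∑ g ∈ range n, dig t (P g) * dig t' (P' g) * C g (len3 * h g + h' g) := by
  rw [yK_eq]
  have e0 : ∑ g ∈ range n, 2 ^ (48 * len3 * ((0 + g) % K)) * dig t (P (0 + g)) *
      ((B >>> (48 * LEN * (0 + g) + 48 * len3 * h (0 + g))) &&& (2 ^ (48 * len3) - 1)) =
      ∑ g ∈ range n, 2 ^ (48 * (len3 * (g % K))) * (dig t (P g) *
      ((B >>> (48 * (LEN * g + len3 * h g))) &&& (2 ^ (48 * len3) - 1))) := by
    refine sum_congr rfl fun g _ => ?_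
    rw [zero_add, show 48 * LEN * g + 48 * len3 * h g = 48 * (LEN * g + len3 * h g) by ring,
      show 48 * len3 * (g % K) = 48 * (len3 * (g % K)) by ring]
    ring
  rw [e0]
  have h1 := Lan.sum (v := fun g => 2 ^ (48 * (len3 * (g % K))) * (dig t (P g) *
      ((B >>> (48 * (LEN * g + len3 * h g))) &&& (2 ^ (48 * len3) - 1))))
    (f := fun g i => if len3 * (g % K) ≤ i then dig t (P g) *
      (if i - len3 * (g % K) < len3 then
        ctl LEN n C (LEN * g + len3 * h g + (i - len3 * (g % K))) else 0) else 0)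
    (B := 18 * 2097152) n
    (fun g _ => ((hB.chunk (LEN * g + len3 * h g) len3).mul (hP g) (by norm_num)).shl _)
    (by omega)
  rw [frK_eq]
  have hx : ∀ ρ < K, len3 * ρ + h' ρ ≤ T := by
    intro ρ hρ
    have := hh' ρ
    have h2 : len3 * (ρ + 1) ≤ len3 * K := Nat.mul_le_mul_left _ hρ
    have h4 : K * len3 = len3 * K := mul_comm _ _
    rw [mul_add, mul_one] at h2
    omega
  have e : ∑ g ∈ range K, dig t' (P' (0 + g)) * 2 ^ (48 * T - (48 * len3 * g + 48 * h' (0 + g))) =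
      ∑ g ∈ range K, dig t' (P' g) * 2 ^ (48 * (T - (len3 * g + h' g))) := by
    refine sum_congr rfl fun g _ => ?_
    rw [zero_add, show 48 * len3 * g + 48 * h' g = 48 * (len3 * g + h' g) by ring, ← Nat.mul_sub]
  rw [e, h1.sel (s := fun g => dig t' (P' g)) (x := fun g => len3 * g + h' g) (A := 18)
    (fun ρ _ => hP' ρ) hx ?_ ?_]
  · -- the sum
    simp_rw [mul_sum]
    rw [sum_comm]
    refine sum_congr rfl fun g hg => ?_
    have hg' := mem_range.1 hg
    rw [sum_eq_single (g % K)]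
    · have hz := hh' g
      rw [hhp, hPp, if_pos (by omega), show len3 * (g % K) + h' g - len3 * (g % K) = h' g by omega,
        if_pos hz]
      have hd : len3 * h g + h' g < LEN := by
        calc len3 * h g + h' g < len3 * h g + len3 := by omega
          _ = len3 * (h g + 1) := by ring
          _ ≤ len3 * len2 := Nat.mul_le_mul_left _ (hh g)
          _ = LEN := by rw [hL, mul_comm]
      have hL0 : 0 < LEN := by omega
      unfold ctl
      rw [add_assoc, Nat.mul_add_div hL0, Nat.div_eq_of_lt hd, add_zero, Nat.mul_add_mod,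
        Nat.mod_eq_of_lt hd, if_pos]
      · ring
      · calc LEN * g + (len3 * h g + h' g) < LEN * g + LEN := by omega
          _ = LEN * (g + 1) := by ring
          _ ≤ LEN * n := Nat.mul_le_mul_left _ hg'
    · intro ρ hρ hne
      have hz := hh' ρ
      rcases lt_or_gt_of_ne hne with hlt | hgt
      · rw [if_neg, mul_zero]
        have : len3 * (ρ + 1) ≤ len3 * (g % K) := Nat.mul_le_mul_left _ hlt
        rw [mul_add, mul_one] at this
        omega
      · have : len3 * (g % K + 1) ≤ len3 * ρ := Nat.mul_le_mul_left _ hgt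
        rw [mul_add, mul_one] at this
        rw [if_pos (by omega), if_neg (by omega)]
        simp
    · intro hcon
      exact absurd (mem_range.2 (Nat.mod_lt _ hK)) hcon
  · calc K * (18 * (n * (18 * 2097152))) ≤ 96 * (18 * (96 * (18 * 2097152))) := by gcongr
      _ < 2 ^ 48 := by norm_num
  · calc 18 * (n * (18 * 2097152)) ≤ 18 * (96 * (18 * 2097152)) := by gcongr
      _ < 2 ^ 48 := by norm_num

end Three

end Pool.Agent.OEG.En
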