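import Pool.Agent.OEG.En4
import Pool.Agent.PSX.OdSys

/-!
Project OEG, engine 5: the relations in terms of the engine.
-/

namespace Pool.Agent.OEG.En

open Finset
open Pool.Agent.LibH4.S7 (Rl)
open Pool.Agent.LibH4.Ker
open Pool.Agent.Lib_helper5 Pool.Agent.Lib_helper5.LK Pool.Agent.Lib_helper5.TB

/-- position in a row -/
def dg (r : Rl) (f : Fm) : ℕ := r.len3 * pf r.n2 r.ex2 r.PT2 f + pf r.n3 r.ex3 r.PT3 f

lemma dX_dg (r : Rl) (f : Fm) : dX r f (dg r f) = xv r f := by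
  unfold dX dg xv tX
  rw [mul_comm]
  rfl

lemma dY_dg (r : Rl) (f : Fm) : dY r f (dg r f) = yv r f := by
  unfold dY dg yv tY
  rw [mul_comm]
  rfl

lemma val_ug (r : Rl) (f : Fm) (hκ : f.κ = 3) :
    s2 r f * s3 r f * ug r f (dg r f) = r.val f := by
  unfold ug
  rw [dX_dg, dY_dg, val_eq, hκ]
  unfold s1 s2 s3 sv
  ring

/-- total value with multiple `τ` of the period -/
def tot (r : Rl) (f : ℕ → Fm) (n e m2 τ : ℕ) : ℕ :=
  ∑ g ∈ range n, s2 r (f g) * s3 r (f g) * ((if g ≤ m2 then ug r (f g) (dg r (f g)) else 0) +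
    (if g = m2 then e * s1 r (f g) * dY r (f g) (dg r (f g)) else 0) +
    τ * ug r (f g) (dg r (f g)))

/-- value of a period -/
def totW (r : Rl) (f : ℕ → Fm) (n : ℕ) : ℕ :=
  ∑ g ∈ range n, s2 r (f g) * s3 r (f g) * ug r (f g) (dg r (f g))

lemma tot_split (r : Rl) (f : ℕ → Fm) (n e m2 τ : ℕ) :
    tot r f n e m2 τ = tot r f n e m2 0 + τ * totW r f n := by
  unfold tot totW
  rw [mul_sum, ← sum_add_distrib]
  exact sum_congr rfl fun g _ => by ring

lemma sum_pairs (F : ℕ → ℕ) (n : ℕ) :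
    ∑ g ∈ range (2 * n), F g = ∑ j ∈ range n, (F (2 * j) + F (2 * j + 1)) := by
  induction n with
  | zero => rfl
  | succ n ih =>
    rw [show 2 * (n + 1) = 2 * n + 1 + 1 by ring, sum_range_succ, sum_range_succ, ih,
      sum_range_succ]
    ring

/-- **the relation in terms of the total** -/
theorem tot_rel {r : Rl} [NeZero r.l] {l u p q b p' : ℤ} {m L τ : ℕ} (U : UR r p p' L)
    (h : HdJ r (J1 l u p q b m)) (hL : 0 < L) (hτ : (τ : ZMod r.l) = ((m / L : ℕ) : ZMod r.l)) :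
    tot r (ef l u q p p' (p ^ m) b) (2 * L) (rs r.l (-(l * b))) (2 * (m % L)) τ % r.l = 0 := by
  have h1 := val_per U h
  set f := ef l u q p p' (p ^ m) b with hf
  set m0 := m % L with hm0
  have hm0L : m0 < L := Nat.mod_lt _ hL
  have hκ : ∀ g, (f g).κ = 3 := by
    intro g
    rw [hf]
    unfold ef eA eB
    split_ifs <;> rfl
  have vA : ∀ j, f (2 * j) = eA l q p p' (p ^ m) b j := fun j => ef_even j
  have vB : ∀ j, f (2 * j + 1) = eB u q p p' (p ^ m) b j := fun j => ef_odd j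
  -- the value of the last edge
  have hlast : ((r.val (eL l q p p' (p ^ m) b m0) : ℕ) : ZMod r.l) =
      (r.val (f (2 * m0)) : ℕ) + ((s2 r (f (2 * m0)) * s3 r (f (2 * m0)) *
        (rs r.l (-(l * b)) * s1 r (f (2 * m0)) * dY r (f (2 * m0)) (dg r (f (2 * m0)))) : ℕ) :
        ZMod r.l) := by
    have e1 : sv r (eL l q p p' (p ^ m) b m0) = s1 r (f (2 * m0)) * s2 r (f (2 * m0)) *
        s3 r (f (2 * m0)) := by rw [vA]; rfl
    have e2 : xv r (eL l q p p' (p ^ m) b m0) = xv r (f (2 * m0)) := by rw [vA]; rfl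
    have e3 : yv r (eL l q p p' (p ^ m) b m0) = yv r (f (2 * m0)) := by rw [vA]; rfl
    have e4 : sv r (f (2 * m0)) = s1 r (f (2 * m0)) * s2 r (f (2 * m0)) * s3 r (f (2 * m0)) := rfl
    rw [val_eq, val_eq, e1, e2, e3, e4, dY_dg, hκ]
    have e5 : (eL l q p p' (p ^ m) b m0).κ = 3 := rfl
    rw [e5]
    push_cast
    rw [rs_cast, rs_cast, rs_cast]
    have e6 : ((eL l q p p' (p ^ m) b m0).α : ZMod r.l) = ((f (2 * m0)).α : ZMod r.l) +
        ((-(l * b) : ℤ) : ZMod r.l) := by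
      rw [vA]
      unfold eL eA
      push_cast
      ring
    rw [e6]
    push_cast
    ring
  -- the total
  have ht : ((tot r f (2 * L) (rs r.l (-(l * b))) (2 * m0) τ : ℕ) : ZMod r.l) =
      ((∑ j ∈ range m0, (r.val (f (2 * j)) + r.val (f (2 * j + 1))) +
      (m / L) * ∑ j ∈ range L, (r.val (f (2 * j)) + r.val (f (2 * j + 1))) +
      r.val (eL l q p p' (p ^ m) b m0) : ℕ) : ZMod r.l) := by
    have e1 : tot r f (2 * L) (rs r.l (-(l * b))) (2 * m0) τ =
        ∑ g ∈ range (2 * L), (if g ≤ 2 * m0 then r.val (f g) else 0) +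
        s2 r (f (2 * m0)) * s3 r (f (2 * m0)) *
        (rs r.l (-(l * b)) * s1 r (f (2 * m0)) * dY r (f (2 * m0)) (dg r (f (2 * m0)))) +
        τ * ∑ g ∈ range (2 * L), r.val (f g) := by
      unfold tot
      rw [mul_sum, show s2 r (f (2 * m0)) * s3 r (f (2 * m0)) *
        (rs r.l (-(l * b)) * s1 r (f (2 * m0)) * dY r (f (2 * m0)) (dg r (f (2 * m0)))) =
        ∑ g ∈ range (2 * L), (if g = 2 * m0 then s2 r (f g) * s3 r (f g) *
        (rs r.l (-(l * b)) * s1 r (f g) * dY r (f g) (dg r (f g))) else 0) by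
          rw [sum_ite_eq' (range (2 * L)) (2 * m0), if_pos (mem_range.2 (by omega))],
        ← sum_add_distrib, ← sum_add_distrib]
      refine sum_congr rfl fun g _ => ?_
      rw [← val_ug r (f g) (hκ g)]
      split_ifs <;> ring
    have e2 : ∑ g ∈ range (2 * L), (if g ≤ 2 * m0 then r.val (f g) else 0) =
        ∑ j ∈ range m0, (r.val (f (2 * j)) + r.val (f (2 * j + 1))) + r.val (f (2 * m0)) := by
      rw [← sum_pairs (fun g => r.val (f g)), ← sum_range_succ, ← sum_filter]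
      refine sum_congr ?_ fun _ _ => rfl
      ext g
      simp only [mem_filter, mem_range]
      omega
    rw [e1, e2, sum_pairs (fun g => r.val (f g))]
    push_cast
    rw [hlast, hτ]
    push_cast
    ring
  simp only [vA, vB] at ht
  have h2 : ((tot r f (2 * L) (rs r.l (-(l * b))) (2 * m0) τ : ℕ) : ZMod r.l) = 0 := by
    rw [ht, ZMod.natCast_eq_zero_iff]
    exact Nat.dvd_of_mod_eq_zero h1
  exact Nat.mod_eq_zero_of_dvd ((ZMod.natCast_eq_zero_iff _ _).1 h2)

/-! ### checks of the characters and positions -/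

/-- all values of a character are small -/
def ck18 (n t : ℕ) : Bool := allR (fun x => Nat.ble (dig t x) (nat_lit 18)) n

lemma ck18_spec {n t : ℕ} [NeZero n] (h : ck18 n t = true) (x : ℤ) : dig t (rs n x) ≤ 18 :=
  Nat.le_of_ble_eq_true (allR_spec h (rs n x) (rs_lt x))

/-- the discriminant of the model forms -/
lemma ef_disc {n : ℕ} {l u p q b p' X : ℤ} (hinv : (p : ZMod n) * (p' : ZMod n) = 1)
    (hqb : q * b = u * p - l) (g : ℕ) :
    ((ef l u q p p' X b g).R : ZMod n) ^ 2 - 4 * ((ef l u q p p' X b g).P : ZMod n) *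
      ((ef l u q p p' X b g).S : ZMod n) = (((q * X + b) ^ 2 + 4 * l * X : ℤ) : ZMod n) := by
  have hpow : ∀ j : ℕ, (p : ZMod n) ^ j * (p' : ZMod n) ^ j = 1 := fun j => by
    rw [← mul_pow, hinv, one_pow]
  have hqb' : (q : ZMod n) * (b : ZMod n) = u * p - l := by exact_mod_cast congrArg (Int.cast) hqb
  unfold ef eA eB
  split_ifs
  · push_cast
    linear_combination (4 * (l : ZMod n) * X) * hpow (g / 2)
  · push_cast
    linear_combination (4 * (u : ZMod n) * X * p) * hpow (g / 2) - (4 * (X : ZMod n)) * hqb'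

lemma adP_of {n : ℕ} [NeZero n] {P R S D : ℤ}
    (hd : (R : ZMod n) ^ 2 - 4 * (P : ZMod n) * (S : ZMod n) = (D : ZMod n)) (h1 : K5.In n D) :
    adP n (rs n P) (rs n R) (rs n S) = true := by
  unfold K5.In at h1
  have e : (rs n R * rs n R + 4 * rs n P * (n - rs n S)) % n = rs n D := by
    apply rs_of
    rw [← hd]
    rw [Nat.cast_add, Nat.cast_mul, Nat.cast_mul, Nat.cast_mul, Nat.cast_sub (rs_lt S).le,
      rs_cast, rs_cast, rs_cast, ZMod.natCast_self]
    push_cast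
    ring
  have e' : adP n (rs n P) (rs n R) (rs n S) =
    Nat.beq (Nat.mod (Nat.pow ((rs n R * rs n R + 4 * rs n P * (n - rs n S)) % n)
      (n / 2)) n) (n - 1) := rfl
  rw [e', e]
  exact h1

/-- the positions are bounded -/
lemma pf_lt {n ex PT : ℕ} [NeZero n] {F : List (ℕ × ℕ)} {A : ℕ → ℕ → ℕ → Bool}
    (C : CompOK n ex PT F A) {f : Fm} (hA : A (rs n f.P) (rs n f.R) (rs n f.S) = true) :
    pf n ex PT f < F.length := by
  obtain ⟨-, h⟩ := C.ok _ _ _ (rs_lt f.P) (rs_lt f.R) (rs_lt f.S) hA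
  unfold pf
  by_contra hcon
  rw [List.getElem?_eq_none (by omega)] at h
  exact absurd h (by simp)

/-- periodicity of a component -/
lemma ef_per {n : ℕ} {l u p q b p' X : ℤ} {k : ℕ} (U : Un n p p' k) (g : ℕ) :
    ((ef l u q p p' X b (g % (2 * k))).P : ZMod n) = ((ef l u q p p' X b g).P : ZMod n) ∧
    ((ef l u q p p' X b (g % (2 * k))).R : ZMod n) = ((ef l u q p p' X b g).R : ZMod n) ∧
    ((ef l u q p p' X b (g % (2 * k))).S : ZMod n) = ((ef l u q p p' X b g).S : ZMod n) := by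
  have e1 : g % (2 * k) % 2 = g % 2 := Nat.mod_mod_of_dvd g (Dvd.intro _ rfl)
  have e2 : g % (2 * k) / 2 = (g / 2) % k := by
    rw [Nat.mod_mul_right_div_self]
  have e3 : ∀ {x : ZMod n}, x ^ k = 1 → x ^ ((g / 2) % k) = x ^ (g / 2) := by
    intro x hx
    conv_rhs => rw [← Nat.mod_add_div (g / 2) k, pow_add, pow_mul, hx, one_pow, mul_one]
  unfold ef
  rw [e1, e2]
  split_ifs
  · unfold eA
    push_cast
    rw [e3 U.per, e3 U.per']
    exact ⟨rfl, rfl, rfl⟩
  · unfold eB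
    push_cast
    rw [pow_succ, pow_succ, e3 U.per, e3 U.per']
    exact ⟨rfl, rfl, rfl⟩

lemma rsP_per {n : ℕ} {l u p q b p' X : ℤ} {k : ℕ} (U : Un n p p' k) (g : ℕ) :
    rs n (ef l u q p p' X b (g % (2 * k))).P = rs n (ef l u q p p' X b g).P :=
  rs_congr (ef_per U g).1

lemma pf_per {n ex PT : ℕ} {l u p q b p' X : ℤ} {k : ℕ} (U : Un n p p' k) (g : ℕ) :
    pf n ex PT (ef l u q p p' X b (g % (2 * k))) = pf n ex PT (ef l u q p p' X b g) := by
  obtain ⟨h1, h2, h3⟩ := ef_per (l := l) (u := u) (q := q) (b := b) (X := X) U g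
  unfold pf
  rw [rs_congr h1, rs_congr h2, rs_congr h3]

end Pool.Agent.OEG.En
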