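import Pool.Agent.OEG.En5
import Pool.Agent.OEG.StM

/-!
Project OEG, engine 6: classes, lists of classes, loops.
-/

namespace Pool.Agent.OEG.En

open Finset
open Pool.Agent.LibH4.S7 (Rl)
open Pool.Agent.LibH4.Ker
open Pool.Agent.Lib_helper5 Pool.Agent.Lib_helper5.LK Pool.Agent.Lib_helper5.TB

/-! ### signs -/

/-- sign as an integer -/
def sgz (s : Bool) : ℤ := if s = true then 1 else -1

/-- minus sign -/
def ngf (s : Bool) (n : ℕ) : ℕ := @Bool.rec (fun _ => ℕ) (nat_lit 1) (Nat.sub n (nat_lit 1)) s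
/-- sign -/
def psf (s : Bool) (n : ℕ) : ℕ := @Bool.rec (fun _ => ℕ) (Nat.sub n (nat_lit 1)) (nat_lit 1) s

lemma sg_cases {l : ℤ} (h : OEX.Sg l) : ∃ s : Bool, l = sgz s := by
  rcases h with rfl | rfl
  · exact ⟨true, rfl⟩
  · exact ⟨false, rfl⟩

lemma ngf_eq {n : ℕ} [NeZero n] (hn : 1 < n) (s : Bool) : ngf s n = rs n (-sgz s) := by
  have e1 : n - 1 = rs n (-1) := K5.rs_neg_one
  have e2 : 1 = rs n 1 := K5.rs_one hn
  cases s
  · change 1 = rs n (-(-1))
    rw [neg_neg, ← e2]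
  · exact e1

lemma psf_eq {n : ℕ} [NeZero n] (hn : 1 < n) (s : Bool) : psf s n = rs n (sgz s) := by
  have e1 : n - 1 = rs n (-1) := K5.rs_neg_one
  have e2 : 1 = rs n 1 := K5.rs_one hn
  cases s
  · exact e1
  · exact e2

/-! ### data of a class -/

/-- class data: `N N1 pinv X D` -/
def clsK {β : Type} (n ex : ℕ) (sl : Bool) (m0 p q b : ℕ) (k : ℕ → ℕ → ℕ → ℕ → ℕ → β) : β :=
  strict (Nat.mod (Nat.pow p m0) n) fun X =>
  strict (Nat.mod (Nat.add (Nat.mul q X) b) n) fun N =>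
  strict (Nat.mod (Nat.add (Nat.mul q X) (Nat.mul (Nat.sub n (nat_lit 1)) b)) n) fun N1 =>
  strict (Nat.mod (Nat.pow p ex) n) fun pi =>
  strict (Nat.mod (Nat.add (Nat.mul N N) (Nat.mul (nat_lit 4) (Nat.mul (psf sl n) X))) n) fun D =>
  k N N1 pi X D

/-- non residue -/
def nrD (n D : ℕ) : Bool :=
  Nat.beq (Nat.mod (Nat.pow D (Nat.div n (nat_lit 2))) n) (Nat.sub n (nat_lit 1))

section Cls

variable {n : ℕ} [NeZero n] {p q b p' : ℤ} {m m0 ex : ℕ} {sl : Bool}

lemma clsK_eq {β : Type} (hn : 1 < n) (hm : (p : ZMod n) ^ m0 = (p : ZMod n) ^ m)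
    (hex : (p : ZMod n) ^ ex = (p' : ZMod n)) (k : ℕ → ℕ → ℕ → ℕ → ℕ → β) :
    clsK n ex sl m0 (rs n p) (rs n q) (rs n b) k =
      k (rs n (q * p ^ m + b)) (rs n (q * p ^ m - b)) (rs n p') (rs n (p ^ m))
        (rs n ((q * p ^ m + b) ^ 2 + 4 * sgz sl * p ^ m)) := by
  have e1 : Nat.mod (Nat.pow (rs n p) m0) n = rs n (p ^ m) := by
    change (rs n p ^ m0) % n = _
    apply rs_of
    push_cast
    rw [rs_cast, hm]
  have e2 : Nat.mod (Nat.add (Nat.mul (rs n q) (rs n (p ^ m))) (rs n b)) n =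
      rs n (q * p ^ m + b) := by
    change (rs n q * rs n (p ^ m) + rs n b) % n = _
    apply rs_of
    push_cast
    simp only [rs_cast]
    push_cast
    ring
  have e3 : Nat.mod (Nat.add (Nat.mul (rs n q) (rs n (p ^ m)))
      (Nat.mul (Nat.sub n (nat_lit 1)) (rs n b))) n = rs n (q * p ^ m - b) := by
    have e0 : Nat.sub n (nat_lit 1) = rs n (-1) := K5.rs_neg_one
    rw [e0]
    change (rs n q * rs n (p ^ m) + rs n (-1) * rs n b) % n = _
    apply rs_of
    push_cast
    simp only [rs_cast]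
    push_cast
    ring
  have e4 : Nat.mod (Nat.pow (rs n p) ex) n = rs n p' := by
    change (rs n p ^ ex) % n = _
    apply rs_of
    push_cast
    rw [rs_cast, hex]
  have e5 : Nat.mod (Nat.add (Nat.mul (rs n (q * p ^ m + b)) (rs n (q * p ^ m + b)))
      (Nat.mul (nat_lit 4) (Nat.mul (psf sl n) (rs n (p ^ m))))) n =
      rs n ((q * p ^ m + b) ^ 2 + 4 * sgz sl * p ^ m) := by
    rw [psf_eq hn]
    change (rs n (q * p ^ m + b) * rs n (q * p ^ m + b) + 4 * (rs n (sgz sl) * rs n (p ^ m))) % n =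
      _
    apply rs_of
    push_cast
    simp only [rs_cast]
    push_cast
    ring
  unfold clsK
  simp only [strict_eq]
  rw [e1, e2, e3, e4, e5]

end Cls

/-! ### loops -/

/-- if `b` then `x` else true -/
def imp (b : Bool) (x : Bool) : Bool := @Bool.rec (fun _ => Bool) true x b

lemma imp_spec {b x : Bool} (h : imp b x = true) (hb : b = true) : x = true := by
  subst hb
  exact h

/-- all elements -/
def allL {α : Type} (f : α → Bool) (L : List α) : Bool :=
  @List.rec α (fun _ => Bool) true (fun x _ ih => @Bool.rec (fun _ => Bool) false ih (f x)) L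

lemma allL_spec {α : Type} {f : α → Bool} {L : List α} (h : allL f L = true) :
    ∀ x ∈ L, f x = true := by
  induction L with
  | nil => intro x hx; exact absurd hx (by simp)
  | cons y L ih =>
    have h' : @Bool.rec (fun _ => Bool) false (allL f L) (f y) = true := h
    obtain ⟨h1, h2⟩ : allL f L = true ∧ f y = true := by
      cases hy : f y
      · rw [hy] at h'; exact absurd h' (by simp)
      · rw [hy] at h'; exact ⟨h', rfl⟩
    intro x hx
    rcases List.mem_cons.1 hx with rfl | hx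
    · exact h2
    · exact ih h1 x hx

/-- list of the classes with non residue -/
noncomputable def bld {α : Type} (n ex : ℕ) (sl : Bool) (m0 : ℕ)
    (ent : ℕ → ℕ → ℕ → ℕ → ℕ → ℕ → ℕ → ℕ → (α → Bool) → Bool)
    (L : List (ℕ × ℕ × ℕ)) : (List α → Bool) → Bool :=
  @List.rec _ (fun _ => (List α → Bool) → Bool) (fun k => k [])
    (fun x _ ih k => clsK n ex sl m0 x.1 x.2.1 x.2.2 fun N N1 pi X D =>
      @Bool.rec (fun _ => Bool) (ih k) (ent x.1 x.2.1 x.2.2 N N1 pi X D fun E =>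
        ih (fun R => k (E :: R))) (nrD n D)) L

lemma bld_spec {α : Type} {n ex : ℕ} {sl : Bool} {m0 : ℕ}
    {ent : ℕ → ℕ → ℕ → ℕ → ℕ → ℕ → ℕ → ℕ → (α → Bool) → Bool}
    {L : List (ℕ × ℕ × ℕ)} {k : List α → Bool} (h : bld n ex sl m0 ent L k = true)
    (hent : ∀ x y z N N1 pi X D, ∃ E, ∀ k', ent x y z N N1 pi X D k' = k' E)
    {x : ℕ × ℕ × ℕ} (hx : x ∈ L) {N N1 pi X D : ℕ}
    (hc : ∀ k' : ℕ → ℕ → ℕ → ℕ → ℕ → Bool, clsK n ex sl m0 x.1 x.2.1 x.2.2 k' = k' N N1 pi X D)
    (hD : nrD n D = true) {E : α} (hE : ∀ k', ent x.1 x.2.1 x.2.2 N N1 pi X D k' = k' E) :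
    ∃ R, k R = true ∧ E ∈ R := by
  have gen : ∀ (L : List (ℕ × ℕ × ℕ)) (k : List α → Bool), bld n ex sl m0 ent L k = true →
      ∃ R, k R = true ∧ (x ∈ L → E ∈ R) := by
    intro L
    induction L with
    | nil => intro k h; exact ⟨[], h, fun hx => absurd hx (by simp)⟩
    | cons y L ih =>
      intro k h
      have h' : clsK n ex sl m0 y.1 y.2.1 y.2.2 (fun N N1 pi X D =>
        @Bool.rec (fun _ => Bool) (bld n ex sl m0 ent L k) (ent y.1 y.2.1 y.2.2 N N1 pi X D fun E =>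
          bld n ex sl m0 ent L (fun R => k (E :: R))) (nrD n D)) = true := h
      by_cases hy : x = y
      · subst hy
        rw [hc, hD] at h'
        change ent x.1 x.2.1 x.2.2 N N1 pi X D (fun E =>
          bld n ex sl m0 ent L (fun R => k (E :: R))) = true at h'
        rw [hE] at h'
        obtain ⟨R, h1, -⟩ := ih _ h'
        exact ⟨E :: R, h1, fun _ => by simp⟩
      · unfold clsK at h'
        simp only [strict_eq] at h'
        rcases hb : nrD n (Nat.mod (Nat.add (Nat.mul (Nat.mod (Nat.add (Nat.mul y.2.1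
          (Nat.mod (Nat.pow y.1 m0) n)) y.2.2) n) (Nat.mod (Nat.add (Nat.mul y.2.1
          (Nat.mod (Nat.pow y.1 m0) n)) y.2.2) n)) (Nat.mul (nat_lit 4) (Nat.mul (psf sl n)
          (Nat.mod (Nat.pow y.1 m0) n)))) n) with _ | _
        · rw [hb] at h'
          obtain ⟨R, h1, h2⟩ := ih k h'
          exact ⟨R, h1, fun hx => h2 (by
            rcases List.mem_cons.1 hx with h3 | h3
            · exact absurd h3 hy
            · exact h3)⟩
        · rw [hb] at h'
          obtain ⟨E', hE'⟩ := hent y.1 y.2.1 y.2.2 (Nat.mod (Nat.add (Nat.mul y.2.1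
            (Nat.mod (Nat.pow y.1 m0) n)) y.2.2) n) (Nat.mod (Nat.add (Nat.mul y.2.1
            (Nat.mod (Nat.pow y.1 m0) n)) (Nat.mul (Nat.sub n (nat_lit 1)) y.2.2)) n)
            (Nat.mod (Nat.pow y.1 ex) n) (Nat.mod (Nat.pow y.1 m0) n)
            (Nat.mod (Nat.add (Nat.mul (Nat.mod (Nat.add (Nat.mul y.2.1
            (Nat.mod (Nat.pow y.1 m0) n)) y.2.2) n) (Nat.mod (Nat.add (Nat.mul y.2.1
            (Nat.mod (Nat.pow y.1 m0) n)) y.2.2) n)) (Nat.mul (nat_lit 4) (Nat.mul (psf sl n)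
            (Nat.mod (Nat.pow y.1 m0) n)))) n)
          have h'' := (hE' _).symm.trans h'
          obtain ⟨R, h1, h2⟩ := ih _ h''
          exact ⟨E' :: R, h1, fun hx => by
            rcases List.mem_cons.1 hx with h3 | h3
            · exact absurd h3 hy
            · exact List.mem_cons_of_mem _ (h2 h3)⟩
  obtain ⟨R, h1, h2⟩ := gen L k h
  exact ⟨R, h1, h2 hx⟩

/-! ### lists of classes -/

/-- membership of a class -/
def memT (p q b : ℕ) (L : List (ℕ × ℕ × ℕ)) : Bool :=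
  @List.rec _ (fun _ => Bool) false (fun x _ ih => @Bool.rec (fun _ => Bool) ih
    (@Bool.rec (fun _ => Bool) ih (@Bool.rec (fun _ => Bool) ih true (Nat.beq x.2.2 b))
      (Nat.beq x.2.1 q)) (Nat.beq x.1 p)) L

lemma memT_spec {p q b : ℕ} {L : List (ℕ × ℕ × ℕ)} (h : memT p q b L = true) : (p, q, b) ∈ L := by
  induction L with
  | nil => exact absurd h (by simp [memT])
  | cons x L ih =>
    have h' : @Bool.rec (fun _ => Bool) (memT p q b L) (@Bool.rec (fun _ => Bool) (memT p q b L)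
      (@Bool.rec (fun _ => Bool) (memT p q b L) true (Nat.beq x.2.2 b)) (Nat.beq x.2.1 q))
      (Nat.beq x.1 p) = true := h
    rcases h1 : Nat.beq x.1 p with _ | _
    · rw [h1] at h'; exact List.mem_cons_of_mem _ (ih h')
    rcases h2 : Nat.beq x.2.1 q with _ | _
    · rw [h1, h2] at h'; exact List.mem_cons_of_mem _ (ih h')
    rcases h3 : Nat.beq x.2.2 b with _ | _
    · rw [h1, h2, h3] at h'; exact List.mem_cons_of_mem _ (ih h')
    have e1 := Nat.eq_of_beq_eq_true h1
    have e2 := Nat.eq_of_beq_eq_true h2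
    have e3 := Nat.eq_of_beq_eq_true h3
    rw [← e1, ← e2, ← e3]
    exact List.mem_cons_self ..

/-- completeness of a list of classes -/
def cplK (n : ℕ) (sl su : Bool) (fil : ℕ → ℕ → Bool) (L : List (ℕ × ℕ × ℕ)) : Bool :=
  allR (fun p => allR (fun q => allR (fun b =>
    imp (Nat.beq (Nat.mod (Nat.add (Nat.mul q b) (psf sl n)) n) (Nat.mod (Nat.mul (psf su n) p) n))
      (imp (Nat.ble (nat_lit 1) p) (imp (fil q b) (memT p q b L)))) n) n) n

lemma cplK_spec {n : ℕ} [NeZero n] {sl su : Bool} {fil : ℕ → ℕ → Bool} {L : List (ℕ × ℕ × ℕ)}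
    (hn : 1 < n) (h : cplK n sl su fil L = true) {p q b : ℤ} (hqb : q * b = sgz su * p - sgz sl)
    (hp : (p : ZMod n) ≠ 0) (hf : fil (rs n q) (rs n b) = true) :
    (rs n p, rs n q, rs n b) ∈ L := by
  have h1 := allR_spec (allR_spec (allR_spec h (rs n p) (rs_lt p)) (rs n q) (rs_lt q)) (rs n b)
    (rs_lt b)
  have e1 : Nat.beq (Nat.mod (Nat.add (Nat.mul (rs n q) (rs n b)) (psf sl n)) n)
      (Nat.mod (Nat.mul (psf su n) (rs n p)) n) = true := by
    rw [psf_eq hn, psf_eq hn]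
    have a1 : Nat.mod (Nat.add (Nat.mul (rs n q) (rs n b)) (rs n (sgz sl))) n =
        rs n (q * b + sgz sl) := by
      change (rs n q * rs n b + rs n (sgz sl)) % n = _
      apply rs_of
      push_cast
      simp only [rs_cast]
    have a2 : Nat.mod (Nat.mul (rs n (sgz su)) (rs n p)) n = rs n (sgz su * p) := by
      change (rs n (sgz su) * rs n p) % n = _
      apply rs_of
      push_cast
      simp only [rs_cast]
    rw [a1, a2, hqb, sub_add_cancel]
    exact Nat.beq_refl _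
  have e2 : Nat.ble (nat_lit 1) (rs n p) = true := by
    apply Nat.ble_eq_true_of_le
    rcases Nat.eq_zero_or_pos (rs n p) with h0 | h0
    · exact absurd (by rw [← rs_cast, h0]; simp) hp
    · exact h0
  exact memT_spec (imp_spec (imp_spec (imp_spec h1 e1) e2) hf)

/-! ### tables with their constants -/

/-- constants of a relation -/
structure RT where
  /-- shift of a row -/
  W1 : ℕ
  /-- power of two -/
  S : ℕ
  /-- mask -/
  mka : ℕ
  /-- shift of a block -/
  W3 : ℕ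
  /-- mask -/
  mk3 : ℕ
  /-- shift of the value -/
  T : ℕ
  /-- table -/
  TX : ℕ
  /-- table -/
  TY : ℕ

/-- constants of a relation -/
def rtOf (r : Rl) (LEN len3 K : ℕ) : RT :=
  ⟨48 * LEN, 2 ^ (48 * LEN), 2 ^ (48 * LEN) - 1, 48 * len3, 2 ^ (48 * len3) - 1,
    48 * (K * len3 - 1), tabX (2 ^ (48 * LEN)) LEN r.rows, tabY (2 ^ (48 * LEN)) LEN r.rows⟩

/-- constants of a relation, evaluated -/
def rtK (r : Rl) (LEN len3 K : ℕ) (k : RT → Bool) : Bool :=
  strict (Nat.mul (nat_lit 48) LEN) fun W1 => strict (Nat.pow (nat_lit 2) W1) fun S =>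
  strict (Nat.sub S (nat_lit 1)) fun mk => strict (Nat.mul (nat_lit 48) len3) fun W3 =>
  strict (Nat.sub (Nat.pow (nat_lit 2) W3) (nat_lit 1)) fun mk3 =>
  strict (Nat.mul (nat_lit 48) (Nat.sub (Nat.mul K len3) (nat_lit 1))) fun T =>
  strict (tabX S LEN r.rows) fun TX => strict (tabY S LEN r.rows) fun TY =>
  k ⟨W1, S, mk, W3, mk3, T, TX, TY⟩

lemma rtK_eq (r : Rl) (LEN len3 K : ℕ) (k : RT → Bool) :
    rtK r LEN len3 K k = k (rtOf r LEN len3 K) := by
  unfold rtK
  simp only [strict_eq]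
  rfl

end Pool.Agent.OEG.En
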