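import Pool.Agent.OEG.En6
import Pool.Agent.OEG.ERel

/-!
Project OEG, engine 7: the tests of the kernel vanish at the state.
-/

namespace Pool.Agent.OEG.En

open Finset
open Pool.Agent.LibH4.S7 (Rl)
open Pool.Agent.LibH4.Ker
open Pool.Agent.Lib_helper5 Pool.Agent.Lib_helper5.LK Pool.Agent.Lib_helper5.TB
open Pool.Agent.PSX.Ev (OSys)

/-! ### units -/

lemma un_of {n : ℕ} {p p' : ℤ} {L : ℕ} (h : (p : ZMod n) * (p' : ZMod n) = 1)
    (h2 : ∀ x y : ZMod n, x * y = 1 → x ^ L = 1) : Un n p p' L := ⟨h, h2 _ _ h⟩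

lemma uz13 : ∀ x y : ZMod 13, x * y = 1 → x ^ 12 = 1 := by decide +kernel
lemma uz7 : ∀ x y : ZMod 7, x * y = 1 → x ^ 12 = 1 := by decide +kernel
lemma uz5 : ∀ x y : ZMod 5, x * y = 1 → x ^ 12 = 1 := by decide +kernel
lemma uz3 : ∀ x y : ZMod 3, x * y = 1 → x ^ 12 = 1 := by decide +kernel
lemma uz1 : ∀ x y : ZMod 1, x * y = 1 → x ^ 12 = 1 := by decide +kernel
lemma uy7 : ∀ x y : ZMod 7, x * y = 1 → x ^ 6 = 1 := by decide +kernel
lemma uy5 : ∀ x y : ZMod 5, x * y = 1 → x ^ 4 = 1 := by decide +kernel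
lemma uy3 : ∀ x y : ZMod 3, x * y = 1 → x ^ 2 = 1 := by decide +kernel
lemma ux13 : ∀ x y : ZMod 13, x * y = 1 → x ^ 11 = y := by decide +kernel
lemma ux7 : ∀ x y : ZMod 7, x * y = 1 → x ^ 5 = y := by decide +kernel
lemma ux5 : ∀ x y : ZMod 5, x * y = 1 → x ^ 3 = y := by decide +kernel
lemma ux3 : ∀ x y : ZMod 3, x * y = 1 → x ^ 1 = y := by decide +kernel

/-- the context -/
structure Cx (sl su : Bool) (D p q b p' : ℤ) (m : ℕ) : Prop where
  qb : q * b = sgz su * p - sgz sl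
  hD : D = (q * p ^ m + b) ^ 2 + 4 * sgz sl * p ^ m
  i13 : (p : ZMod 13) * (p' : ZMod 13) = 1
  i7 : (p : ZMod 7) * (p' : ZMod 7) = 1
  i5 : (p : ZMod 5) * (p' : ZMod 5) = 1
  i3 : (p : ZMod 3) * (p' : ZMod 3) = 1
  S : OSys 9699690 D (J1 (sgz sl) (sgz su) p q b m)

lemma exists_inv {p : ℤ} (h : ∀ r : ℕ, r ∣ 9699690 → r ≠ 1 → ¬ (r : ℤ) ∣ p) :
    ∃ p' : ℤ, (p : ZMod 13) * (p' : ZMod 13) = 1 ∧ (p : ZMod 7) * (p' : ZMod 7) = 1 ∧
      (p : ZMod 5) * (p' : ZMod 5) = 1 ∧ (p : ZMod 3) * (p' : ZMod 3) = 1 := by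
  have h1 : Int.gcd p 1365 = 1 := by
    by_contra hc
    have h2 : Int.gcd p 1365 ∣ 1365 := by
      have := Int.gcd_dvd_natAbs_right p 1365
      simpa using this
    exact h _ (h2.trans (by norm_num)) hc (Int.gcd_dvd_left ..)
  have h2 := Int.gcd_eq_gcd_ab p 1365
  rw [h1] at h2
  refine ⟨Int.gcdA p 1365, ?_⟩
  have key : ∀ n : ℕ, n ∣ 1365 → (p : ZMod n) * (Int.gcdA p 1365 : ZMod n) = 1 := by
    intro n hn
    have h3 : ((1 : ℤ) : ZMod n) = ((p * Int.gcdA p 1365 + 1365 * Int.gcdB p 1365 : ℤ) : ZMod n) := by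
      rw [← h2]
      norm_num
    have h4 : ((1365 : ℕ) : ZMod n) = 0 := by rwa [ZMod.natCast_eq_zero_iff]
    push_cast at h3
    push_cast at h4
    rw [h4, zero_mul, add_zero] at h3
    exact h3.symm
  exact ⟨key 13 (by norm_num), key 7 (by norm_num), key 5 (by norm_num), key 3 (by norm_num)⟩

namespace Cx

variable {sl su : Bool} {D p q b p' : ℤ} {m : ℕ}

lemma in' (C : Cx sl su D p q b p' m) (n : ℕ) (hp : n.Prime) (h2 : n ≠ 2) (h : n ∣ 9699690) :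
    K5.In n D := C.S.inr n hp h2 h

lemma d13 (C : Cx sl su D p q b p' m) : K5.In 13 D := C.in' 13 (by norm_num) (by norm_num) (by norm_num)
lemma d7 (C : Cx sl su D p q b p' m) : K5.In 7 D := C.in' 7 (by norm_num) (by norm_num) (by norm_num)
lemma d5 (C : Cx sl su D p q b p' m) : K5.In 5 D := C.in' 5 (by norm_num) (by norm_num) (by norm_num)
lemma d3 (C : Cx sl su D p q b p' m) : K5.In 3 D := C.in' 3 (by norm_num) (by norm_num) (by norm_num)

lemma u13 (C : Cx sl su D p q b p' m) : Un 13 p p' 12 := un_of C.i13 uz13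
lemma u7 (C : Cx sl su D p q b p' m) : Un 7 p p' 12 := un_of C.i7 uz7
lemma u5 (C : Cx sl su D p q b p' m) : Un 5 p p' 12 := un_of C.i5 uz5
lemma u3 (C : Cx sl su D p q b p' m) : Un 3 p p' 12 := un_of C.i3 uz3
lemma u1 (_ : Cx sl su D p q b p' m) : Un 1 p p' 12 := un_of (Subsingleton.elim _ _) uz1
lemma v7 (C : Cx sl su D p q b p' m) : Un 7 p p' 6 := un_of C.i7 uy7
lemma v5 (C : Cx sl su D p q b p' m) : Un 5 p p' 4 := un_of C.i5 uy5
lemma v3 (C : Cx sl su D p q b p' m) : Un 3 p p' 2 := un_of C.i3 uy3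

end Cx

lemma pw_m {n : ℕ} {x : ZMod n} (h : x ^ 12 = 1) (m : ℕ) : x ^ (m % 12) = x ^ m := by
  conv_rhs => rw [← Nat.mod_add_div m 12, pow_add, pow_mul, h, one_pow, mul_one]

/-- bound of the positions -/
lemma pf_ef {n ex PT : ℕ} [NeZero n] {F : List (ℕ × ℕ)} (C : CompOK n ex PT F (adP n))
    {l u p q b p' D : ℤ} {m : ℕ} (hinv : (p : ZMod n) * (p' : ZMod n) = 1)
    (hqb : q * b = u * p - l) (hD : D = (q * p ^ m + b) ^ 2 + 4 * l * p ^ m) (h1 : K5.In n D)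
    (g : ℕ) : pf n ex PT (ef l u q p p' (p ^ m) b g) < F.length := by
  apply pf_lt C
  apply adP_of (D := D) _ h1
  rw [ef_disc hinv hqb, hD]

set_option linter.unusedSectionVars false

section Z

variable {r : Rl} [NeZero r.n1] [NeZero r.n2] [NeZero r.n3] [NeZero r.l]
  {l u p q b p' : ℤ} {m : ℕ}

lemma ck_s1 (h : ck18 r.n1 r.t1 = true) (f : Fm) : s1 r f ≤ 18 := ck18_spec h f.P

/-- three components -/
theorem z3 (U : UR r p p' 12) (hJ : HdJ r (J1 l u p q b m)) {len2 LEN k K T τ : ℕ}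
    (hl : r.l ≤ 19) (c1 : ck18 r.n1 r.t1 = true) (c2 : ck18 r.n2 r.t2 = true)
    (c3 : ck18 r.n3 r.t3 = true)
    (h2 : ∀ g, pf r.n2 r.ex2 r.PT2 (ef l u q p p' (p ^ m) b g) < len2)
    (h3 : ∀ g, pf r.n3 r.ex3 r.PT3 (ef l u q p p' (p ^ m) b g) < r.len3)
    (U3 : Un r.n3 p p' k) (hK : K = 2 * k) (hk : 0 < k) (hk' : k ≤ 48)
    (hLEN : LEN = len2 * r.len3)
    (hT : T + 1 = K * r.len3) (hτ : τ ≤ 18)
    (hτm : (τ : ZMod r.l) = ((m / 12 : ℕ) : ZMod r.l)) :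
    zK (yK (B0n r LEN (ef l u q p p' (p ^ m) b) 24 (rs r.l (-(l * b))) (2 * (m % 12)) +
        τ * BWn r LEN (ef l u q p p' (p ^ m) b) 24) (2 ^ (48 * r.len3) - 1)
      (mk2 (fun g => 2 ^ (48 * r.len3 * (g % K)) *
          dig r.t2 (rs r.n2 (ef l u q p p' (p ^ m) b g).P))
        (fun g => 48 * LEN * g + 48 * r.len3 * pf r.n2 r.ex2 r.PT2 (ef l u q p p' (p ^ m) b g))
        0 24))
      (frK r.t3 (48 * r.len3) (mk2 (fun g => rs r.n3 (ef l u q p p' (p ^ m) b g).P)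
        (fun g => pf r.n3 r.ex3 r.PT3 (ef l u q p p' (p ^ m) b g)) 0 K) (48 * T))
      (48 * T) r.l = 0 := by
  have p2 : 0 < len2 := lt_of_le_of_lt (Nat.zero_le _) (h2 0)
  have p3 : 0 < r.len3 := lt_of_le_of_lt (Nat.zero_le _) (h3 0)
  have pL : 0 < LEN := by rw [hLEN]; positivity
  have hm12 : m % 12 < 12 := Nat.mod_lt _ (by norm_num)
  have he : rs r.l (-(l * b)) ≤ 18 := by
    have := rs_lt (p := r.l) (-(l * b))
    omega
  have hB := Bt_lan (n := 24) (f := ef l u q p p' (p ^ m) b) pL (fun g => ck_s1 c1 _) hl he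
    (show 2 * (m % 12) < 24 by omega) hτ
  have a := val3 (t := r.t2) (t' := r.t3)
    (P := fun g => rs r.n2 (ef l u q p p' (p ^ m) b g).P)
    (h := fun g => pf r.n2 r.ex2 r.PT2 (ef l u q p p' (p ^ m) b g))
    (P' := fun g => rs r.n3 (ef l u q p p' (p ^ m) b g).P)
    (h' := fun g => pf r.n3 r.ex3 r.PT3 (ef l u q p p' (p ^ m) b g))
    hLEN p3 (show 0 < K by omega) hB (by norm_num) (show K ≤ 96 by omega)
    (fun g => ck18_spec c2 _) h2 (fun g => ck18_spec c3 _) h3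
    (fun g => by rw [hK]; exact rsP_per U3 g) (fun g => by rw [hK]; exact pf_per U3 g) hT
  rw [zK_eq, a]
  have h := tot_rel U hJ (by norm_num) hτm
  have e : tot r (ef l u q p p' (p ^ m) b) (2 * 12) (rs r.l (-(l * b))) (2 * (m % 12)) τ =
      ∑ g ∈ range 24, dig r.t2 (rs r.n2 (ef l u q p p' (p ^ m) b g).P) *
        dig r.t3 (rs r.n3 (ef l u q p p' (p ^ m) b g).P) *
        ((if g ≤ 2 * (m % 12) then ug r (ef l u q p p' (p ^ m) b g)
          (r.len3 * pf r.n2 r.ex2 r.PT2 (ef l u q p p' (p ^ m) b g) +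
            pf r.n3 r.ex3 r.PT3 (ef l u q p p' (p ^ m) b g)) else 0) +
        (if g = 2 * (m % 12) then rs r.l (-(l * b)) * s1 r (ef l u q p p' (p ^ m) b g) *
          dY r (ef l u q p p' (p ^ m) b g)
          (r.len3 * pf r.n2 r.ex2 r.PT2 (ef l u q p p' (p ^ m) b g) +
            pf r.n3 r.ex3 r.PT3 (ef l u q p p' (p ^ m) b g)) else 0) +
        τ * ug r (ef l u q p p' (p ^ m) b g)
          (r.len3 * pf r.n2 r.ex2 r.PT2 (ef l u q p p' (p ^ m) b g) +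
            pf r.n3 r.ex3 r.PT3 (ef l u q p p' (p ^ m) b g))) := by
    unfold tot dg s2 s3
    rfl
  rw [← e]
  exact h

/-- two components, sum of the values -/
theorem z2 (U : UR r p p' 12) (hJ : HdJ r (J1 l u p q b m)) {LEN k K c T τ : ℕ}
    (hl : r.l ≤ 19) (c1 : ck18 r.n1 r.t1 = true) (c2 : ck18 r.n2 r.t2 = true)
    (h2 : ∀ g, pf r.n2 r.ex2 r.PT2 (ef l u q p p' (p ^ m) b g) < LEN)
    (e3 : ∀ f : Fm, s3 r f = 1) (p3 : ∀ f : Fm, pf r.n3 r.ex3 r.PT3 f = 0) (hl3 : r.len3 = 1)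
    (U2 : Un r.n2 p p' k) (hK : K = 2 * k) (hk : 0 < k) (hk' : k ≤ 48)
    (hn : K * c = 24) (hc : c ≤ 48)
    (hT : T + 1 = K * LEN)
    (hτm : (τ : ZMod r.l) = ((m / 12 : ℕ) : ZMod r.l)) :
    (zK (fdK (B0n r LEN (ef l u q p p' (p ^ m) b) 24 (rs r.l (-(l * b))) (2 * (m % 12)))
        (48 * LEN * K) (2 ^ (48 * (LEN * K)) - 1) c)
      (frK r.t2 (48 * LEN) (mk2 (fun g => rs r.n2 (ef l u q p p' (p ^ m) b g).P)
        (fun g => pf r.n2 r.ex2 r.PT2 (ef l u q p p' (p ^ m) b g)) 0 K) (48 * T))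
      (48 * T) r.l +
    τ * zK (fdK (BWn r LEN (ef l u q p p' (p ^ m) b) 24) (48 * LEN * K)
        (2 ^ (48 * (LEN * K)) - 1) c)
      (frK r.t2 (48 * LEN) (mk2 (fun g => rs r.n2 (ef l u q p p' (p ^ m) b g).P)
        (fun g => pf r.n2 r.ex2 r.PT2 (ef l u q p p' (p ^ m) b g)) 0 K) (48 * T))
      (48 * T) r.l) % r.l = 0 := by
  have pL : 0 < LEN := lt_of_le_of_lt (Nat.zero_le _) (h2 0)
  have hm12 : m % 12 < 12 := Nat.mod_lt _ (by norm_num)
  have he : rs r.l (-(l * b)) ≤ 18 := by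
    have := rs_lt (p := r.l) (-(l * b))
    omega
  have pP : ∀ i j : ℕ, rs r.n2 (ef l u q p p' (p ^ m) b (i + K * j)).P =
      rs r.n2 (ef l u q p p' (p ^ m) b i).P := by
    intro i j
    rw [hK, ← rsP_per U2 (i + 2 * k * j), Nat.add_mul_mod_self_left, rsP_per U2]
  have ph : ∀ i j : ℕ, pf r.n2 r.ex2 r.PT2 (ef l u q p p' (p ^ m) b (i + K * j)) =
      pf r.n2 r.ex2 r.PT2 (ef l u q p p' (p ^ m) b i) := by
    intro i j
    rw [hK, ← pf_per U2 (i + 2 * k * j), Nat.add_mul_mod_self_left, pf_per U2]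
  have hB0 := (B0_lan (n := 24) (f := ef l u q p p' (p ^ m) b) pL (fun g => ck_s1 c1 _) hl he
    (show 2 * (m % 12) < 24 by omega)).mono (show 179010 ≤ 2097152 by norm_num)
  have hBW := (BW_lan (n := 24) (f := ef l u q p p' (p ^ m) b) pL (fun g => ck_s1 c1 _) hl).mono
    (show 96390 ≤ 2097152 by norm_num)
  rw [← hn] at hB0 hBW
  have a0 := val2 pL (show 0 < K by omega) hB0 hc (by omega) (t := r.t2)
    (fun g => ck18_spec c2 (ef l u q p p' (p ^ m) b g).P) h2 pP ph hT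
  have aW := val2 pL (show 0 < K by omega) hBW hc (by omega) (t := r.t2)
    (fun g => ck18_spec c2 (ef l u q p p' (p ^ m) b g).P) h2 pP ph hT
  rw [hn] at a0 aW
  rw [zK_eq, zK_eq, a0, aW]
  have h := tot_rel U hJ (by norm_num) hτm
  rw [tot_split] at h
  have hdg : ∀ f : Fm, dg r f = pf r.n2 r.ex2 r.PT2 f := by
    intro f
    unfold dg
    rw [hl3, p3, one_mul, add_zero]
  have e0 : ∑ g ∈ range 24, dig r.t2 (rs r.n2 (ef l u q p p' (p ^ m) b g).P) *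
      ((if g ≤ 2 * (m % 12) then ug r (ef l u q p p' (p ^ m) b g)
        (pf r.n2 r.ex2 r.PT2 (ef l u q p p' (p ^ m) b g)) else 0) +
      if g = 2 * (m % 12) then rs r.l (-(l * b)) * s1 r (ef l u q p p' (p ^ m) b g) *
        dY r (ef l u q p p' (p ^ m) b g) (pf r.n2 r.ex2 r.PT2 (ef l u q p p' (p ^ m) b g)) else 0) =
      tot r (ef l u q p p' (p ^ m) b) (2 * 12) (rs r.l (-(l * b))) (2 * (m % 12)) 0 := by
    unfold tot
    refine sum_congr rfl fun g _ => ?_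
    rw [e3, hdg, zero_mul, add_zero, mul_one]
    rfl
  have eW : ∑ g ∈ range 24, dig r.t2 (rs r.n2 (ef l u q p p' (p ^ m) b g).P) *
      ug r (ef l u q p p' (p ^ m) b g) (pf r.n2 r.ex2 r.PT2 (ef l u q p p' (p ^ m) b g)) =
      totW r (ef l u q p p' (p ^ m) b) (2 * 12) := by
    unfold totW
    refine sum_congr rfl fun g _ => ?_
    rw [e3, hdg, mul_one]
    rfl
  rw [e0, eW]
  exact Eq.trans (Nat.ModEq.add (Nat.mod_modEq _ _) ((Nat.mod_modEq _ _).mul_left τ) :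
    Nat.ModEq r.l _ _) h

end Z

end Pool.Agent.OEG.En
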