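import Mathlib

/-!
The formal signed cycle of the family `D = (q p ^ m + b) ^ 2 + 4 l p ^ m`, `q b = u p - l`.
-/

namespace Pool.Agent.OEG.F1

open Finset

/-- parameters -/
structure Par (p q b l u : ℤ) : Prop where
  hl : l ^ 2 = 1
  hu : u ^ 2 = 1
  hqb : q * b = u * p - l

section

variable (p q b l u : ℤ) (m : ℕ)

/-- first coefficient -/
def P (k : ℕ) : ℤ :=
  if k = 0 then l * p ^ m
  else if k % 2 = 1 then (l * u) ^ (k / 2) * p ^ (k / 2)
  else (l * u) ^ (k / 2 - 1) * l * p ^ (m + 1 - k / 2)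

/-- middle coefficient -/
def R (k : ℕ) : ℤ :=
  if k = 0 then q * p ^ m + b
  else if k % 2 = 1 then q * p ^ m + b
  else q * p ^ m - b

/-- last coefficient -/
def S (k : ℕ) : ℤ :=
  if k = 0 then 1
  else if k % 2 = 1 then (l * u) ^ (k / 2) * l * p ^ (m - k / 2)
  else (l * u) ^ (k / 2) * p ^ (k / 2)

/-- letters -/
def c (k : ℕ) : ℤ :=
  if k = 0 then q * p ^ m + b
  else if k % 2 = 1 then (l * u) ^ (k / 2) * l * q * p ^ (k / 2)
  else (l * u) ^ (k / 2) * q * p ^ (m - k / 2)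

end

variable {p q b l u : ℤ} {m : ℕ}

lemma P_zero : P p l u m 0 = l * p ^ m := by simp [P]
lemma R_zero : R p q b m 0 = q * p ^ m + b := by simp [R]
lemma S_zero : S p l u m 0 = 1 := by simp [S]
lemma c_zero : c p q b l u m 0 = q * p ^ m + b := by simp [c]

lemma P_odd (t : ℕ) : P p l u m (2 * t + 1) = (l * u) ^ t * p ^ t := by
  have h1 : (2 * t + 1) % 2 = 1 := by omega
  have h2 : (2 * t + 1) / 2 = t := by omega
  simp [P, h1, h2]
lemma R_odd (t : ℕ) : R p q b m (2 * t + 1) = q * p ^ m + b := by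
  have h1 : (2 * t + 1) % 2 = 1 := by omega
  simp [R, h1]
lemma S_odd (t : ℕ) : S p l u m (2 * t + 1) = (l * u) ^ t * l * p ^ (m - t) := by
  have h1 : (2 * t + 1) % 2 = 1 := by omega
  have h2 : (2 * t + 1) / 2 = t := by omega
  simp [S, h1, h2]
lemma c_odd (t : ℕ) : c p q b l u m (2 * t + 1) = (l * u) ^ t * l * q * p ^ t := by
  have h1 : (2 * t + 1) % 2 = 1 := by omega
  have h2 : (2 * t + 1) / 2 = t := by omega
  simp [c, h1, h2]

lemma P_even (t : ℕ) : P p l u m (2 * t + 2) = (l * u) ^ t * l * p ^ (m - t) := by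
  have h1 : (2 * t + 2) % 2 = 0 := by omega
  have h2 : (2 * t + 2) / 2 = t + 1 := by omega
  simp [P, h1, h2]
lemma R_even (t : ℕ) : R p q b m (2 * t + 2) = q * p ^ m - b := by
  have h1 : (2 * t + 2) % 2 = 0 := by omega
  simp [R, h1]
lemma S_even (t : ℕ) : S p l u m (2 * t + 2) = (l * u) ^ (t + 1) * p ^ (t + 1) := by
  have h1 : (2 * t + 2) % 2 = 0 := by omega
  have h2 : (2 * t + 2) / 2 = t + 1 := by omega
  simp [S, h1, h2]
lemma c_even (t : ℕ) : c p q b l u m (2 * t + 2) = (l * u) ^ (t + 1) * q * p ^ (m - (t + 1)) := by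
  have h1 : (2 * t + 2) % 2 = 0 := by omega
  have h2 : (2 * t + 2) / 2 = t + 1 := by omega
  simp [c, h1, h2]

lemma Par.sq (h : Par p q b l u) (t : ℕ) : ((l * u) ^ t) ^ 2 = 1 := by
  rw [← pow_mul, mul_comm t 2, pow_mul, mul_pow, h.hl, h.hu, one_mul, one_pow]

lemma Par.ne (h : Par p q b l u) (t : ℕ) : (l * u) ^ t ≠ 0 := by
  intro h0
  have := h.sq t
  rw [h0] at this
  norm_num at this

lemma Par.lne (h : Par p q b l u) : l ≠ 0 := by
  intro h0
  have := h.hl
  rw [h0] at this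
  norm_num at this

/-- cases of a step -/
lemma cases_lt {k : ℕ} (hk : k < 2 * m + 1) :
    k = 0 ∨ (∃ t < m, k = 2 * t + 1) ∨ ∃ t < m, k = 2 * t + 2 := by
  rcases Nat.even_or_odd' k with ⟨t, rfl | rfl⟩
  · by_cases h0 : t = 0
    · left; omega
    · right; right; exact ⟨t - 1, by omega, by omega⟩
  · right; left; exact ⟨t, by omega, rfl⟩

theorem hP {k : ℕ} (hk : k < 2 * m + 1) : P p l u m (k + 1) = S p l u m k := by
  rcases cases_lt hk with rfl | ⟨t, ht, rfl⟩ | ⟨t, ht, rfl⟩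
  · rw [S_zero]; simp [P]
  · rw [S_odd, P_even]
  · rw [S_even, show 2 * t + 2 + 1 = 2 * (t + 1) + 1 by ring, P_odd]

/-- product of letter and last coefficient -/
lemma cS_odd (h : Par p q b l u) {t : ℕ} (ht : t < m) :
    c p q b l u m (2 * t + 1) * S p l u m (2 * t + 1) = q * p ^ m := by
  rw [c_odd, S_odd]
  have e := h.sq t
  have e2 : p ^ t * p ^ (m - t) = p ^ m := by rw [← pow_add]; congr 1; omega
  linear_combination (l ^ 2 * q * (p ^ t * p ^ (m - t))) * e + (l ^ 2 * q) * e2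
    + (q * p ^ m) * h.hl

lemma cS_even (h : Par p q b l u) {t : ℕ} (ht : t < m) :
    c p q b l u m (2 * t + 2) * S p l u m (2 * t + 2) = q * p ^ m := by
  rw [c_even, S_even]
  have e := h.sq (t + 1)
  have e2 : p ^ (t + 1) * p ^ (m - (t + 1)) = p ^ m := by rw [← pow_add]; congr 1; omega
  linear_combination (q * (p ^ (t + 1) * p ^ (m - (t + 1)))) * e + q * e2

theorem hR (h : Par p q b l u) {k : ℕ} (hk : k < 2 * m + 1) :
    R p q b m (k + 1) = 2 * c p q b l u m k * S p l u m k - R p q b m k := by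
  rcases cases_lt hk with rfl | ⟨t, ht, rfl⟩ | ⟨t, ht, rfl⟩
  · rw [S_zero, c_zero, R_zero, show 0 + 1 = 2 * 0 + 1 by ring, R_odd]
    ring
  · have := cS_odd h ht
    rw [R_odd, show 2 * t + 1 + 1 = 2 * t + 2 by ring, R_even]
    linear_combination (-2 : ℤ) * this
  · have := cS_even h ht
    rw [R_even, show 2 * t + 2 + 1 = 2 * (t + 1) + 1 by ring, R_odd]
    linear_combination (-2 : ℤ) * this

theorem hS (h : Par p q b l u) {k : ℕ} (hk : k < 2 * m + 1) :
    S p l u m (k + 1) = P p l u m k + R p q b m k * c p q b l u m k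
      - S p l u m k * c p q b l u m k ^ 2 := by
  rcases cases_lt hk with rfl | ⟨t, ht, rfl⟩ | ⟨t, ht, rfl⟩
  · rw [S_zero, c_zero, R_zero, P_zero, show 0 + 1 = 2 * 0 + 1 by ring, S_odd]
    simp
    ring
  · have e1 := cS_odd h ht
    have e : R p q b m (2 * t + 1) * c p q b l u m (2 * t + 1)
        - S p l u m (2 * t + 1) * c p q b l u m (2 * t + 1) ^ 2 =
        c p q b l u m (2 * t + 1) * (R p q b m (2 * t + 1)
          - c p q b l u m (2 * t + 1) * S p l u m (2 * t + 1)) := by ring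
    rw [add_sub_assoc, e, e1, show 2 * t + 1 + 1 = 2 * t + 2 by ring, S_even, R_odd, c_odd, P_odd,
      pow_succ, pow_succ]
    linear_combination ((l * u) ^ t * p ^ t * (-l)) * h.hqb + ((l * u) ^ t * p ^ t) * h.hl
  · have e1 := cS_even h ht
    have e : R p q b m (2 * t + 2) * c p q b l u m (2 * t + 2)
        - S p l u m (2 * t + 2) * c p q b l u m (2 * t + 2) ^ 2 =
        c p q b l u m (2 * t + 2) * (R p q b m (2 * t + 2)
          - c p q b l u m (2 * t + 2) * S p l u m (2 * t + 2)) := by ring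
    rw [add_sub_assoc, e, e1, show 2 * t + 2 + 1 = 2 * (t + 1) + 1 by ring, S_odd, R_even, c_even,
      P_even]
    have e2 : p ^ (m - t) = p ^ (m - (t + 1)) * p := by rw [← pow_succ]; congr 1; omega
    rw [e2, pow_succ]
    linear_combination ((l * u) ^ t * (l * u) * p ^ (m - (t + 1))) * h.hqb
      + ((l * u) ^ t * l * p ^ (m - (t + 1)) * p) * h.hu

/-- sign of the end -/
lemma Par.sgn (h : Par p q b l u) (m : ℕ) : (l * u) ^ m * l = 1 ∨ (l * u) ^ m * l = -1 := by
  have e : ((l * u) ^ m * l) ^ 2 = 1 := by rw [mul_pow, h.sq, h.hl, one_mul]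
  exact sq_eq_one_iff.1 e

/-- the end of the cycle -/
theorem P_end (h : Par p q b l u) :
    P p l u m (2 * m + 1) = ((l * u) ^ m * l) * P p l u m 0 := by
  rw [P_odd, P_zero]
  linear_combination (-(l * u) ^ m * p ^ m) * h.hl

theorem R_end : R p q b m (2 * m + 1) = R p q b m 0 := by rw [R_odd, R_zero]

theorem S_end : S p l u m (2 * m + 1) = ((l * u) ^ m * l) * S p l u m 0 := by
  rw [S_odd, S_zero]; simp

theorem P_ne (h : Par p q b l u) (hp : p ≠ 0) (k : ℕ) : P p l u m k ≠ 0 := by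
  have h1 : ∀ n, p ^ n ≠ 0 := fun n => pow_ne_zero n hp
  unfold P
  split_ifs
  · exact mul_ne_zero h.lne (h1 _)
  · exact mul_ne_zero (h.ne _) (h1 _)
  · exact mul_ne_zero (mul_ne_zero (h.ne _) h.lne) (h1 _)

/-- the sum over the cycle is the sum over the levels -/
theorem sum_eq (h : Par p q b l u) {M : Type*} [AddCommMonoid M] (T : ℤ → ℤ → ℤ → ℤ → M)
    (hT : ∀ P R S c, T (-P) R (-S) (-c) = T P R S c) :
    ∑ k ∈ range (2 * m + 1), T (P p l u m k) (R p q b m k) (S p l u m k) (c p q b l u m k) =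
      ∑ j ∈ range m, T (p ^ j) (q * p ^ m + b) (l * p ^ (m - j)) (l * q * p ^ j)
        + T (p ^ m) (q * p ^ m + b) l (l * (q * p ^ m + b))
        + ∑ j ∈ range m, T (p ^ (j + 1)) (q * p ^ m - b) (u * p ^ (m - j)) (u * q * p ^ j) := by
  have hs : ∀ e : ℤ, e ^ 2 = 1 → ∀ P R S c, T (e * P) R (e * S) (e * c) = T P R S c := by
    intro e he P R S c
    rcases sq_eq_one_iff.1 he with rfl | rfl
    · simp
    · rw [neg_one_mul, neg_one_mul, neg_one_mul, hT]
  have split : ∀ (f : ℕ → M) (n : ℕ), ∑ k ∈ range (2 * n + 1), f k =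
      ∑ t ∈ range n, f (2 * t + 1) + f 0 + ∑ t ∈ range n, f (2 * t + 2) := by
    intro f n
    induction n with
    | zero => simp
    | succ n ih =>
      rw [show 2 * (n + 1) + 1 = 2 * n + 1 + 1 + 1 by ring, Finset.sum_range_succ,
        Finset.sum_range_succ, ih, Finset.sum_range_succ, Finset.sum_range_succ]
      abel
  rw [split]
  congr 1
  · congr 1
    · apply Finset.sum_congr rfl
      intro t _
      rw [P_odd, R_odd, S_odd, c_odd]
      have := hs _ (h.sq t) (p ^ t) (q * p ^ m + b) (l * p ^ (m - t)) (l * q * p ^ t)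
      rw [← this]
      congr 1 <;> ring
    · rw [P_zero, R_zero, S_zero, c_zero]
      have := hs _ h.hl (p ^ m) (q * p ^ m + b) l (l * (q * p ^ m + b))
      rw [← this]
      congr 1
      · linear_combination (-1 : ℤ) * h.hl
      · linear_combination (-(q * p ^ m + b)) * h.hl
  · rw [← Finset.sum_range_reflect]
    apply Finset.sum_congr rfl
    intro j hj
    have hj := Finset.mem_range.1 hj
    rw [P_even, R_even, S_even, c_even]
    have e1 : m - (m - 1 - j) = j + 1 := by omega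
    have e2 : m - 1 - j + 1 = m - j := by omega
    have e3 : m - (m - j) = j := by omega
    rw [e1, e2, e3]
    have hsg : ((l * u) ^ (m - 1 - j) * l) ^ 2 = 1 := by rw [mul_pow, h.sq, h.hl, one_mul]
    have := hs _ hsg (p ^ (j + 1)) (q * p ^ m - b) (u * p ^ (m - j)) (u * q * p ^ j)
    rw [← this]
    have e4 : (l * u) ^ (m - j) = (l * u) ^ (m - 1 - j) * (l * u) := by
      rw [← pow_succ, e2]
    rw [e4]
    congr 1 <;> ring

end Pool.Agent.OEG.F1
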