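import Pool.Agent.OEG.Sg2

/-!
Signed chains of forms: the sum over a closed chain is a value of the potential.
-/

namespace Pool.Agent.OEG.SG

open Finset Pool.Agent.RDF Pool.Agent.Lib_helper5

/-- a closed signed chain of forms `P x² + R x y - S y²` with letters `c` -/
structure SCyc (K : ℕ) (P R S c : ℕ → ℤ) : Prop where
  hP : ∀ k < K, P (k + 1) = S k
  hR : ∀ k < K, R (k + 1) = 2 * c k * S k - R k
  hS : ∀ k < K, S (k + 1) = P k + R k * c k - S k * c k ^ 2
  S0 : S 0 = 1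
  cl : (P K = P 0 ∧ R K = R 0 ∧ S K = S 0) ∨ (P K = -P 0 ∧ R K = R 0 ∧ S K = -S 0)

/-- the cone sum of a signed chain -/
def LS (K : ℕ) (P R S c : ℕ → ℤ) (q : ℕ) (f : ℤ → ℤ) : ℤ :=
  ∑ k ∈ range K, (3 * XZ q f (P k) (R k) (S k) - c k * YX q f (P k) (R k) (S k))

/-- the vectors of the chain -/
def vv (t : ℤ) (c : ℕ → ℤ) : ℕ → ℤ × ℤ
  | 0 => (t, 1)
  | 1 => (1, 0)
  | (k + 2) => ((vv t c k).1 - c k * (vv t c (k + 1)).1, (vv t c k).2 - c k * (vv t c (k + 1)).2)

lemma vv_zero (t : ℤ) (c : ℕ → ℤ) : vv t c 0 = (t, 1) := by rw [vv]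
lemma vv_one (t : ℤ) (c : ℕ → ℤ) : vv t c 1 = (1, 0) := by rw [vv]
lemma vv_add (t : ℤ) (c : ℕ → ℤ) (k : ℕ) : vv t c (k + 2) =
    ((vv t c k).1 - c k * (vv t c (k + 1)).1, (vv t c k).2 - c k * (vv t c (k + 1)).2) := by rw [vv]

section

variable {m B t : ℤ} {K : ℕ} {P R S c : ℕ → ℤ}

/-- the forms of the vectors -/
lemma chain_inv (h : SCyc K P R S c) (hP0 : P 0 = m - B * t - t ^ 2) (hR0 : R 0 = B + 2 * t)
    (k : ℕ) (hk : k ≤ K) :
    nm m B (vv t c k) = - ((-1) ^ k * P k) ∧ tr m B (vv t c k) (vv t c (k + 1)) = (-1) ^ k * R k ∧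
      nm m B (vv t c (k + 1)) = (-1) ^ k * S k ∧ dt (vv t c k) (vv t c (k + 1)) = - (-1) ^ k := by
  induction k with
  | zero =>
    rw [vv_zero, zero_add, vv_one, hP0, hR0, h.S0]
    unfold nm tr dt
    refine ⟨?_, ?_, ?_, ?_⟩ <;> ring
  | succ k ih =>
    obtain ⟨i1, i2, i3, i4⟩ := ih (by omega)
    rw [h.hP k (by omega), h.hR k (by omega), h.hS k (by omega), show k + 1 + 1 = k + 2 by ring,
      vv_add]
    set a := vv t c k
    set b := vv t c (k + 1)
    unfold nm tr dt at *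
    simp only at *
    rw [pow_succ]
    refine ⟨?_, ?_, ?_, ?_⟩
    · linear_combination i3
    · linear_combination i2 - 2 * c k * i3
    · linear_combination i1 - c k * i2 + c k ^ 2 * i3
    · linear_combination -i4

lemma sgn_cases (k : ℕ) : ((-1 : ℤ)) ^ k = 1 ∨ ((-1 : ℤ)) ^ k = -1 := neg_one_pow_eq_or ℤ k

/-- the value at a vertex -/
def yk (P R S : ℕ → ℤ) (q : ℕ) [NeZero q] (f : ℤ → ℤ) (k : ℕ) : ℚ :=
  (G q f (S k) (R k) (-P k) : ℚ) / ((-P k : ℤ) : ℚ)

section

variable {q : ℕ} [NeZero q] {f : ℤ → ℤ} (hper : ∀ x, f (x + q) = f x)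
  (hodd : ∀ x, f (-x) = - f x)

include hper in
lemma XZ_W (P R S : ℤ) : XZ q f P R S = W q f P R (-S) := by
  rw [XZ_zmod hper]
  unfold W
  apply Finset.sum_congr rfl
  intro x _
  apply Finset.sum_congr rfl
  intro y _
  push_cast
  congr 2
  ring

include hper in
lemma YX_G (P R S : ℤ) : YX q f P R S = G q f P R (-S) := by
  rw [YX_zmod hper]
  unfold G
  apply Finset.sum_congr rfl
  intro x _
  apply Finset.sum_congr rfl
  intro y _
  push_cast
  congr 2
  ring

include hper hodd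

lemma W_flip (P R S : ℤ) : W q f (-P) R S = XZ q f P R S := by
  rw [XZ_W hper]
  have h1 := W_minus hper hodd P (-R) (-S)
  rw [neg_neg, neg_neg, W_neg] at h1
  rw [h1, neg_neg]

lemma G_flip (P R S : ℤ) : G q f (-P) R S = - YX q f P R S := by
  rw [YX_G hper]
  have h1 := G_minus hper hodd P (-R) (-S)
  rw [neg_neg, neg_neg, G_neg] at h1
  exact h1

lemma tele (h : SCyc K P R S c) (hne : ∀ k < K, S k ≠ 0) (k : ℕ) (hk : k ≤ K) :
    ∑ i ∈ range k, Ps q f (-P i) (R i) (S i) =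
      ((∑ i ∈ range k, (3 * XZ q f (P i) (R i) (S i) - c i * YX q f (P i) (R i) (S i)) : ℤ) : ℚ) +
        1 / 2 * (R 0 : ℚ) * yk P R S q f 0 - 1 / 2 * (R k : ℚ) * yk P R S q f k := by
  induction k with
  | zero => simp
  | succ k ih =>
    rw [Finset.sum_range_succ, ih (by omega), Finset.sum_range_succ]
    have hS0 : ((S k : ℤ) : ℚ) ≠ 0 := by exact_mod_cast hne k (by omega)
    have y1 : yk P R S q f (k + 1) = - (YX q f (P k) (R k) (S k) : ℚ) / (S k : ℚ) := by
      unfold yk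
      rw [h.hP k (by omega), h.hR k (by omega), h.hS k (by omega)]
      have g := G_shift q f (P k) (-R k) (-S k) (-c k)
      rw [G_neg, ← YX_G hper (P k) (R k) (S k)] at g
      have e1 : P k + -c k * -R k + (-c k) ^ 2 * -S k = P k + R k * c k - S k * c k ^ 2 := by ring
      have e2 : -R k + 2 * -c k * -S k = 2 * c k * S k - R k := by ring
      rw [e1, e2] at g
      rw [g]
      push_cast
      rw [div_neg, neg_div]
    have hy : (S k : ℚ) * yk P R S q f (k + 1) = - (YX q f (P k) (R k) (S k) : ℚ) := by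
      rw [y1]; field_simp
    have hR : ((R (k + 1) : ℤ) : ℚ) = 2 * c k * S k - R k := by
      rw [h.hR k (by omega)]; push_cast; ring
    have hPs : Ps q f (-P k) (R k) (S k) = 3 * (XZ q f (P k) (R k) (S k) : ℚ) +
        1 / 2 * (R k : ℚ) * (yk P R S q f k + yk P R S q f (k + 1)) := by
      rw [y1]
      unfold Ps yk
      rw [W_flip hper hodd, G_flip hper hodd]
      push_cast
      ring
    rw [hPs, hR]
    push_cast
    linear_combination (c k : ℚ) * hy

lemma Ps_sgn {s : ℤ} (hs : s = 1 ∨ s = -1) (P R S : ℤ) :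
    Ps q f (-(s * P)) (s * R) (s * S) = s * Ps q f (-P) R S := by
  rcases hs with rfl | rfl
  · simp
  · have := Ps_minus hper hodd (-P) R S
    rw [neg_one_mul, neg_one_mul, neg_one_mul, this]
    push_cast
    ring

/-- **the sum over a closed signed chain** -/
theorem LS_eq (hns : ∀ α : ℤ × ℤ, α ≠ 0 → nm m B α ≠ 0) (h : SCyc K P R S c)
    (hP0 : P 0 = m - B * t - t ^ 2) (hR0 : R 0 = B + 2 * t) {U : ℤ × ℤ → ℚ}
    (hU : ∀ α β, Adj α β → U β - U α = Ph m B q f α β) :
    (LS K P R S c q f : ℚ) = U (vv t c 0) - U (vv t c K) := by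
  have adj : ∀ k ≤ K, Adj (vv t c k) (vv t c (k + 1)) := by
    intro k hk
    have h1 := (chain_inv h hP0 hR0 k hk).2.2.2
    unfold Adj
    rw [h1]
    rcases sgn_cases k with e | e <;> rw [e] <;> simp
  have hne : ∀ k < K, S k ≠ 0 := by
    intro k hk h0
    obtain ⟨-, -, h3, -⟩ := chain_inv h hP0 hR0 k hk.le
    rw [h0, mul_zero] at h3
    exact hns _ (adj k hk.le).ne_zero.2 h3
  have hsum : ∀ k ≤ K, U (vv t c k) - U (vv t c 0) =
      - ∑ i ∈ range k, Ps q f (-P i) (R i) (S i) := by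
    intro k
    induction k with
    | zero => intro _; simp
    | succ k ih =>
      intro hk
      rw [Finset.sum_range_succ, neg_add, ← ih (by omega)]
      have h1 := hU _ _ (adj k (by omega))
      obtain ⟨a1, a2, a3, a4⟩ := chain_inv h hP0 hR0 k (by omega)
      unfold Ph at h1
      rw [a1, a2, a3, a4, Ps_sgn hper hodd (sgn_cases k)] at h1
      have h2 : (((-1 : ℤ) ^ k : ℤ) : ℚ) * (((-1 : ℤ) ^ k : ℤ) : ℚ) = 1 := by
        rcases sgn_cases k with e | e <;> rw [e] <;> norm_num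
      push_cast at h1 h2
      linear_combination h1 - (Ps q f (-P k) (R k) (S k)) * h2
  have h1 := hsum K le_rfl
  have h2 := tele hper hodd h hne K le_rfl
  have h3 : (R 0 : ℚ) * yk P R S q f 0 = (R K : ℚ) * yk P R S q f K := by
    rcases h.cl with ⟨b1, b2, b3⟩ | ⟨b1, b2, b3⟩
    · unfold yk
      rw [b1, b2, b3]
    · unfold yk
      rw [b1, b2, b3, neg_neg]
      have g := G_minus hper hodd (S 0) (-R 0) (-P 0)
      rw [neg_neg, neg_neg, G_neg] at g
      rw [g]
      push_cast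
      rw [div_neg, neg_div]
  unfold LS
  rw [h2] at h1
  linear_combination h1 - 1 / 2 * h3

end

/-- the end of a closed chain -/
lemma chain_end (h : SCyc K P R S c) (hP0 : P 0 = m - B * t - t ^ 2) (hR0 : R 0 = B + 2 * t) :
    (nm m B (vv t c (K + 1)) = 1 ∨ nm m B (vv t c (K + 1)) = -1) ∧
    (vv t c K = mu m B (vv t c (K + 1)) (t, 1) ∨ vv t c K = - mu m B (vv t c (K + 1)) (t, 1)) := by
  obtain ⟨a1, a2, a3, a4⟩ := chain_inv h hP0 hR0 K le_rfl
  obtain ⟨σ, hσ, hRK, hSK⟩ : ∃ σ : ℤ, (σ = 1 ∨ σ = -1) ∧ R K = R 0 ∧ S K = σ := by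
    rcases h.cl with ⟨b1, b2, b3⟩ | ⟨b1, b2, b3⟩
    · exact ⟨1, Or.inl rfl, b2, by rw [b3, h.S0]⟩
    · exact ⟨-1, Or.inr rfl, b2, by rw [b3, h.S0]⟩
  rw [hRK, hR0] at a2
  rw [hSK] at a3
  have hσ2 : σ ^ 2 = 1 := by rcases hσ with rfl | rfl <;> norm_num
  have hs := sgn_cases K
  generalize ((-1 : ℤ)) ^ K = s at *
  have hs2 : s ^ 2 = 1 := by rcases hs with rfl | rfl <;> norm_num
  constructor
  · rw [a3]
    rcases hs with rfl | rfl <;> rcases hσ with rfl | rfl <;> norm_num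
  · have key : vv t c K = (σ * (mu m B (vv t c (K + 1)) (t, 1)).1,
        σ * (mu m B (vv t c (K + 1)) (t, 1)).2) := by
      set a := vv t c K
      set e := vv t c (K + 1)
      unfold nm at a3
      unfold tr at a2
      unfold dt at a4
      have e1 : a.1 * e.1 + B * a.1 * e.2 - m * a.2 * e.2 = s * t := by
        have : 2 * (a.1 * e.1 + B * a.1 * e.2 - m * a.2 * e.2) = 2 * (s * t) := by
          linear_combination a2 + B * a4
        linarith
      have f2 : s * σ * a.2 = s * (e.1 + t * e.2 + B * e.2) := by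
        linear_combination (-a.2) * a3 + e.2 * e1 - (e.1 + B * e.2) * a4
      have f1 : s * σ * a.1 = s * (e.1 * t + m * e.2) := by
        linear_combination (-a.1) * a3 + e.1 * e1 - m * e.2 * a4
      unfold mu
      ext
      · simp only
        have : s * σ * (s * σ * a.1) = s * σ * (s * (e.1 * t + m * e.2)) := by rw [f1]
        linear_combination this - a.1 * σ ^ 2 * hs2 - a.1 * hσ2 +
          (σ * (e.1 * t + m * e.2)) * hs2
      · simp only
        have : s * σ * (s * σ * a.2) = s * σ * (s * (e.1 + t * e.2 + B * e.2)) := by rw [f2]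
        linear_combination this - a.2 * σ ^ 2 * hs2 - a.2 * hσ2 +
          (σ * (e.1 + t * e.2 + B * e.2)) * hs2
    rcases hσ with rfl | rfl
    · left
      rw [key]
      ext <;> simp
    · right
      rw [key]
      ext <;> simp

/-- the value of a closed chain: a difference between two units -/
theorem LS_unit (hns : ∀ α : ℤ × ℤ, α ≠ 0 → nm m B α ≠ 0) (h : SCyc K P R S c)
    (hP0 : P 0 = m - B * t - t ^ 2) (hR0 : R 0 = B + 2 * t) {q : ℕ} [NeZero q] {f : ℤ → ℤ}
    (hper : ∀ x, f (x + q) = f x) (hodd : ∀ x, f (-x) = - f x) {U : ℤ × ℤ → ℚ}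
    (hUn : ∀ v, U (-v) = U v) (hU : ∀ α β, Adj α β → U β - U α = Ph m B q f α β) :
    (LS K P R S c q f : ℚ) = U (1, 0) - U (vv t c (K + 1)) := by
  rw [LS_eq hper hodd hns h hP0 hR0 hU]
  obtain ⟨hn, hv⟩ := chain_end h hP0 hR0
  have e1 : U (vv t c K) = U (mu m B (vv t c (K + 1)) (t, 1)) := by
    rcases hv with hv | hv
    · rw [← hv]
    · rw [hv, hUn]
  have e2 : mu m B (vv t c (K + 1)) (1, 0) = vv t c (K + 1) := by
    unfold mu; ext <;> simp
  have ha : Adj (t, (1 : ℤ)) (1, 0) := by unfold Adj dt; norm_num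
  have ha' : Adj (mu m B (vv t c (K + 1)) (t, 1)) (mu m B (vv t c (K + 1)) (1, 0)) := by
    unfold Adj
    rw [dt_mu]
    have : dt (t, (1 : ℤ)) (1, 0) = -1 := by unfold dt; simp
    rw [this]
    rcases hn with hn | hn <;> rw [hn] <;> norm_num
  have h1 := hU _ _ ha
  have h2 := hU _ _ ha'
  rw [Ph_mu hn hper hodd, e2] at h2
  rw [e1, vv_zero]
  linear_combination h2 - h1

end

end Pool.Agent.OEG.SG
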