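import Pool.Agent.OEG.F1Cyc
import Pool.Agent.OEG.StA
import Pool.Agent.OEG.Sg3

/-!
The formal cycle of the first family is a closed signed chain; its sum is the sum of the list `J1`.
-/

set_option autoImplicit false

namespace Pool.Agent.OEG.F1

open Finset Pool.Agent.Lib_helper5

variable {p q b l u : ℤ} {m : ℕ}

theorem scyc (h : Par p q b l u) :
    SG.SCyc (2 * m + 1) (P p l u m) (R p q b m) (S p l u m) (c p q b l u m) where
  hP := fun _ hk => hP hk
  hR := fun _ hk => hR h hk
  hS := fun _ hk => hS h hk
  S0 := S_zero
  cl := by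
    rw [P_end h, R_end, S_end]
    rcases h.sgn m with e | e <;> rw [e]
    · left; simp
    · right; simp

/-- sums over mapped ranges -/
lemma sum_map_range {M : Type*} [AddCommMonoid M] (n : ℕ) (g : ℕ → M) :
    ((List.range n).map g).sum = ∑ j ∈ range n, g j := by
  induction n with
  | zero => simp
  | succ n ih => rw [List.range_succ, List.map_append, List.sum_append, ih, Finset.sum_range_succ]; simp

theorem LS_LJ (h : Par p q b l u) {Q : ℕ} [NeZero Q] {f : ℤ → ℤ} (hper : ∀ x, f (x + Q) = f x)
    (hodd : ∀ x, f (-x) = - f x) :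
    SG.LS (2 * m + 1) (P p l u m) (R p q b m) (S p l u m) (c p q b l u m) Q f =
      LJ Q f (J1 l u p q b m) := by
  unfold SG.LS
  rw [sum_eq h (fun P R S c => 3 * XZ Q f P R S - c * YX Q f P R S) (by
    intro P R S c
    have e1 : XZ Q f (-P) R (-S) = XZ Q f P R S := by
      rw [SG.XZ_W hper (-P) R (-S), neg_neg, SG.W_flip hper hodd]
    have e2 : YX Q f (-P) R (-S) = - YX Q f P R S := by
      rw [SG.YX_G hper (-P) R (-S), neg_neg, SG.G_flip hper hodd]
    rw [e1, e2]
    ring)]
  unfold LJ J1
  rw [List.map_append, List.map_map, List.map_map, List.sum_append, sum_map_range, sum_map_range,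
    Finset.sum_range_succ]
  congr 1
  · congr 1
    · apply Finset.sum_congr rfl
      intro j hj
      have hj := Finset.mem_range.1 hj
      simp only [Function.comp, c1, if_neg hj.ne, neg_neg]
      push_cast
      ring
    · simp only [Function.comp, c1, if_true, neg_neg]
      push_cast
      simp only [Nat.sub_self, pow_zero, mul_one]
      ring
  · apply Finset.sum_congr rfl
    intro j hj
    simp only [Function.comp, neg_neg]
    push_cast
    ring

end Pool.Agent.OEG.F1
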