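import Mathlib

/-!
The formal signed cycle of the family `D = (p ^ A + s p ^ m - l s) ^ 2 + 4 l p ^ m`.
-/

namespace Pool.Agent.OEG.F2

open Finset

/-- parameters -/
structure Par (s l : ℤ) (A m : ℕ) : Prop where
  hs : s ^ 2 = 1
  hl : l ^ 2 = 1
  hm : 1 ≤ m
  hA : m < A
  cop : Nat.Coprime A m

/-- levels -/
def a (A m : ℕ) : ℕ → ℕ
  | 0 => 0
  | t + 1 => if a A m t < m then a A m t + A - m else a A m t - m

/-- signs -/
def e (s l : ℤ) (A m : ℕ) : ℕ → ℤ
  | 0 => 1
  | t + 1 => if a A m t < m then -s * e s l A m t else -l * e s l A m t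

section

variable (s l p : ℤ) (A m : ℕ)

/-- first middle coefficient -/
def N1 : ℤ := p ^ A + s * p ^ m - l * s
/-- second middle coefficient -/
def N4 : ℤ := p ^ A - s * p ^ m - l * s
/-- third middle coefficient -/
def N3 : ℤ := p ^ A + s * p ^ m + l * s

/-- first coefficient -/
def P (k : ℕ) : ℤ :=
  if k = 0 then l * p ^ m
  else if k % 2 = 1 then e s l A m (k / 2) * p ^ a A m (k / 2)
  else -(l * s) * e s l A m (k / 2) * p ^ (A - a A m (k / 2))

/-- middle coefficient -/
def R (k : ℕ) : ℤ :=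
  if k = 0 then N1 s l p A m
  else if k % 2 = 1 then (if a A m (k / 2) ≤ m then N1 s l p A m else N4 s l p A m)
  else N3 s l p A m

/-- last coefficient -/
def S (k : ℕ) : ℤ :=
  if k = 0 then 1
  else if k % 2 = 1 then (if a A m (k / 2) ≤ m then e s l A m (k / 2) * l * p ^ (m - a A m (k / 2))
    else e s l A m (k / 2) * s * p ^ (A + m - a A m (k / 2)))
  else e s l A m (k / 2) * p ^ a A m (k / 2)

/-- letters -/
def c (k : ℕ) : ℤ :=
  if k = 0 then N1 s l p A m
  else if k % 2 = 1 then (if a A m (k / 2) ≤ m then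
      e s l A m (k / 2) * l * (p ^ (A - m + a A m (k / 2)) + s * p ^ a A m (k / 2))
    else e s l A m (k / 2) * s * p ^ (a A m (k / 2) - m))
  else e s l A m (k / 2) * (p ^ (A - a A m (k / 2)) +
    if a A m (k / 2) ≤ m then s * p ^ (m - a A m (k / 2)) else 0)

end

variable {s l p : ℤ} {A m : ℕ}

lemma P_zero : P s l p A m 0 = l * p ^ m := by simp [P]
lemma R_zero : R s l p A m 0 = N1 s l p A m := by simp [R]
lemma S_zero : S s l p A m 0 = 1 := by simp [S]
lemma c_zero : c s l p A m 0 = N1 s l p A m := by simp [c]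

lemma P_odd (t : ℕ) : P s l p A m (2 * t + 1) = e s l A m t * p ^ a A m t := by
  have h1 : (2 * t + 1) % 2 = 1 := by omega
  have h2 : (2 * t + 1) / 2 = t := by omega
  simp [P, h1, h2]
lemma R_odd (t : ℕ) : R s l p A m (2 * t + 1) =
    if a A m t ≤ m then N1 s l p A m else N4 s l p A m := by
  have h1 : (2 * t + 1) % 2 = 1 := by omega
  have h2 : (2 * t + 1) / 2 = t := by omega
  simp [R, h1, h2]
lemma S_odd (t : ℕ) : S s l p A m (2 * t + 1) =
    if a A m t ≤ m then e s l A m t * l * p ^ (m - a A m t)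
    else e s l A m t * s * p ^ (A + m - a A m t) := by
  have h1 : (2 * t + 1) % 2 = 1 := by omega
  have h2 : (2 * t + 1) / 2 = t := by omega
  simp [S, h1, h2]
lemma c_odd (t : ℕ) : c s l p A m (2 * t + 1) =
    if a A m t ≤ m then
      e s l A m t * l * (p ^ (A - m + a A m t) + s * p ^ a A m t)
    else e s l A m t * s * p ^ (a A m t - m) := by
  have h1 : (2 * t + 1) % 2 = 1 := by omega
  have h2 : (2 * t + 1) / 2 = t := by omega
  simp [c, h1, h2]

lemma P_even (t : ℕ) : P s l p A m (2 * t + 2) =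
    -(l * s) * e s l A m (t + 1) * p ^ (A - a A m (t + 1)) := by
  have h1 : (2 * t + 2) % 2 = 0 := by omega
  have h2 : (2 * t + 2) / 2 = t + 1 := by omega
  simp [P, h1, h2]
lemma R_even (t : ℕ) : R s l p A m (2 * t + 2) = N3 s l p A m := by
  have h1 : (2 * t + 2) % 2 = 0 := by omega
  simp [R, h1]
lemma S_even (t : ℕ) : S s l p A m (2 * t + 2) = e s l A m (t + 1) * p ^ a A m (t + 1) := by
  have h1 : (2 * t + 2) % 2 = 0 := by omega
  have h2 : (2 * t + 2) / 2 = t + 1 := by omega
  simp [S, h1, h2]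
lemma c_even (t : ℕ) : c s l p A m (2 * t + 2) = e s l A m (t + 1) * (p ^ (A - a A m (t + 1)) +
    if a A m (t + 1) ≤ m then s * p ^ (m - a A m (t + 1)) else 0) := by
  have h1 : (2 * t + 2) % 2 = 0 := by omega
  have h2 : (2 * t + 2) / 2 = t + 1 := by omega
  simp [c, h1, h2]

lemma a_lt (h : Par s l A m) (t : ℕ) : a A m t < A := by
  have h1 := h.hm
  have h2 := h.hA
  induction t with
  | zero => simp only [a]; omega
  | succ t ih => simp only [a]; split_ifs <;> omega

/-- levels as residues -/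
lemma a_mod (h : Par s l A m) (t : ℕ) : a A m t = (t * (A - m)) % A := by
  have h1 := h.hm
  have h2 := h.hA
  induction t with
  | zero => simp [a]
  | succ t ih =>
    have h3 := a_lt h t
    rw [add_mul, one_mul, Nat.add_mod, ← ih, Nat.mod_eq_of_lt (show A - m < A by omega)]
    simp only [a]
    split_ifs with h4
    · rw [Nat.mod_eq_of_lt (by omega)]; omega
    · rw [Nat.mod_eq_sub_mod (by omega), Nat.mod_eq_of_lt (by omega)]; omega

lemma cop' (h : Par s l A m) : Nat.Coprime A (A - m) := by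
  have h2 := h.hA
  have h4 : Nat.Coprime (A - m) A := by
    have := (Nat.coprime_add_self_right (m := A - m) (n := m)).2 (by
      exact (Nat.coprime_sub_self_left h2.le).2 h.cop)
    rwa [show m + (A - m) = A by omega] at this
  exact h4.symm

lemma a_inj (h : Par s l A m) {t t' : ℕ} (ht : t < A) (ht' : t' < A)
    (he : a A m t = a A m t') : t = t' := by
  rw [a_mod h, a_mod h] at he
  have h1 : t ≡ t' [MOD A] := Nat.ModEq.cancel_right_of_coprime (cop' h) he
  exact Nat.ModEq.eq_of_lt_of_lt h1 ht ht'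

lemma a_last (h : Par s l A m) : a A m (A - 1) = m := by
  have h1 := h.hm
  have h2 := h.hA
  have h3 : a A m (A - 1 + 1) = 0 := by
    rw [a_mod h, show A - 1 + 1 = A by omega, Nat.mul_mod_right]
  have h4 := a_lt h (A - 1)
  simp only [a] at h3
  split_ifs at h3 with h5 <;> omega

lemma a_ne_m (h : Par s l A m) {t : ℕ} (ht : t < A - 1) : a A m t ≠ m := by
  intro he
  have := a_inj h (t := t) (t' := A - 1) (by omega) (by omega) (by rw [he, a_last h])
  omega

lemma a_pos (h : Par s l A m) {t : ℕ} (ht : t < A) (h0 : t ≠ 0) : a A m t ≠ 0 := by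
  intro he
  exact h0 (a_inj h ht (by omega) (by rw [he]; rfl))

lemma e_sq (h : Par s l A m) (t : ℕ) : e s l A m t ^ 2 = 1 := by
  induction t with
  | zero => simp [e]
  | succ t ih =>
    simp only [e]
    split_ifs
    · rw [mul_pow, ih, neg_sq, h.hs, one_mul]
    · rw [mul_pow, ih, neg_sq, h.hl, one_mul]

/-- cases of a step -/
lemma cases_lt (h : Par s l A m) {k : ℕ} (hk : k < 2 * A - 1) :
    k = 0 ∨ (∃ t < A - 1, k = 2 * t + 1) ∨ ∃ t < A - 1, k = 2 * t + 2 := by
  have h1 := h.hm
  have h2 := h.hA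
  rcases Nat.even_or_odd' k with ⟨t, rfl | rfl⟩
  · by_cases h0 : t = 0
    · left; omega
    · right; right; exact ⟨t - 1, by omega, by omega⟩
  · right; left; exact ⟨t, by omega, rfl⟩

theorem hP (h : Par s l A m) {k : ℕ} (hk : k < 2 * A - 1) :
    P s l p A m (k + 1) = S s l p A m k := by
  have h1 := h.hm
  have h2 := h.hA
  rcases cases_lt h hk with rfl | ⟨t, ht, rfl⟩ | ⟨t, ht, rfl⟩
  · rw [S_zero, show 0 + 1 = 2 * 0 + 1 by ring, P_odd]; simp [a, e]
  · rw [S_odd, show 2 * t + 1 + 1 = 2 * t + 2 by ring, P_even]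
    have h3 := a_lt h t
    have h4 := a_ne_m h ht
    simp only [a, e]
    by_cases h5 : a A m t < m
    · rw [if_pos h5, if_pos h5, if_pos h5.le, show A - (a A m t + A - m) = m - a A m t by omega]
      linear_combination (l * e s l A m t * p ^ (m - a A m t)) * h.hs
    · rw [if_neg h5, if_neg h5, if_neg (by omega), show A - (a A m t - m) = A + m - a A m t by omega]
      linear_combination (s * e s l A m t * p ^ (A + m - a A m t)) * h.hl
  · rw [S_even, show 2 * t + 2 + 1 = 2 * (t + 1) + 1 by ring, P_odd]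

/-- product of letter and last coefficient -/
lemma cS_odd (h : Par s l A m) {t : ℕ} (_ht : t < A - 1) :
    2 * c s l p A m (2 * t + 1) * S s l p A m (2 * t + 1) =
      R s l p A m (2 * t + 1) + N3 s l p A m := by
  have h1 := h.hm
  have h2 := h.hA
  have h3 := a_lt h t
  rw [c_odd, S_odd, R_odd]
  have ee := e_sq h t
  by_cases h5 : a A m t ≤ m
  · rw [if_pos h5, if_pos h5, if_pos h5]
    have e2 : p ^ (A - m + a A m t) * p ^ (m - a A m t) = p ^ A := by
      rw [← pow_add]; congr 1; omega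
    have e3 : p ^ (a A m t) * p ^ (m - a A m t) = p ^ m := by rw [← pow_add]; congr 1; omega
    have e4 : 2 * (e s l A m t * l * (p ^ (A - m + a A m t) + s * p ^ a A m t)) *
        (e s l A m t * l * p ^ (m - a A m t)) = 2 * (e s l A m t ^ 2) * l ^ 2 *
          (p ^ (A - m + a A m t) * p ^ (m - a A m t) + s * (p ^ a A m t * p ^ (m - a A m t))) := by
      ring
    rw [e4, e2, e3, ee, h.hl]
    unfold N1 N3
    ring
  · rw [if_neg h5, if_neg h5, if_neg h5]
    have e2 : p ^ (a A m t - m) * p ^ (A + m - a A m t) = p ^ A := by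
      rw [← pow_add]; congr 1; omega
    have e4 : 2 * (e s l A m t * s * p ^ (a A m t - m)) * (e s l A m t * s *
        p ^ (A + m - a A m t)) = 2 * (e s l A m t ^ 2) * s ^ 2 *
          (p ^ (a A m t - m) * p ^ (A + m - a A m t)) := by ring
    rw [e4, e2, ee, h.hs]
    unfold N4 N3
    ring

lemma cS_even (h : Par s l A m) (t : ℕ) :
    2 * c s l p A m (2 * t + 2) * S s l p A m (2 * t + 2) =
      N3 s l p A m + R s l p A m (2 * (t + 1) + 1) := by
  have h1 := h.hm
  have h2 := h.hA
  have h3 := a_lt h (t + 1)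
  rw [c_even, S_even, R_odd]
  have ee := e_sq h (t + 1)
  have e2 : p ^ (A - a A m (t + 1)) * p ^ a A m (t + 1) = p ^ A := by
    rw [← pow_add]; congr 1; omega
  by_cases h5 : a A m (t + 1) ≤ m
  · rw [if_pos h5, if_pos h5]
    have e3 : p ^ (m - a A m (t + 1)) * p ^ a A m (t + 1) = p ^ m := by
      rw [← pow_add]; congr 1; omega
    have e4 : 2 * (e s l A m (t + 1) * (p ^ (A - a A m (t + 1)) + s * p ^ (m - a A m (t + 1)))) *
        (e s l A m (t + 1) * p ^ a A m (t + 1)) = 2 * (e s l A m (t + 1) ^ 2) *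
          (p ^ (A - a A m (t + 1)) * p ^ a A m (t + 1) +
            s * (p ^ (m - a A m (t + 1)) * p ^ a A m (t + 1))) := by ring
    rw [e4, e2, e3, ee]
    unfold N1 N3
    ring
  · rw [if_neg h5, if_neg h5]
    have e4 : 2 * (e s l A m (t + 1) * (p ^ (A - a A m (t + 1)) + 0)) *
        (e s l A m (t + 1) * p ^ a A m (t + 1)) = 2 * (e s l A m (t + 1) ^ 2) *
          (p ^ (A - a A m (t + 1)) * p ^ a A m (t + 1)) := by ring
    rw [e4, e2, ee]
    unfold N4 N3
    ring

theorem hR (h : Par s l A m) {k : ℕ} (hk : k < 2 * A - 1) :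
    R s l p A m (k + 1) = 2 * c s l p A m k * S s l p A m k - R s l p A m k := by
  rcases cases_lt h hk with rfl | ⟨t, ht, rfl⟩ | ⟨t, ht, rfl⟩
  · rw [S_zero, c_zero, R_zero, show 0 + 1 = 2 * 0 + 1 by ring, R_odd]
    simp [a]
    ring
  · rw [cS_odd h ht, show 2 * t + 1 + 1 = 2 * t + 2 by ring, R_even]
    ring
  · rw [cS_even h, R_even, show 2 * t + 2 + 1 = 2 * (t + 1) + 1 by ring]
    ring

/-- discriminant -/
def dd (s l p : ℤ) (A m : ℕ) : ℤ := N1 s l p A m ^ 2 + 4 * l * p ^ m

lemma dis (h : Par s l A m) {k : ℕ} (hk : k < 2 * A) :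
    R s l p A m k ^ 2 + 4 * P s l p A m k * S s l p A m k = dd s l p A m := by
  have h1 := h.hm
  have h2 := h.hA
  rcases Nat.even_or_odd' k with ⟨t, rfl | rfl⟩
  · rcases t with _ | t
    · rw [mul_zero, R_zero, P_zero, S_zero]
      unfold dd
      ring
    · rw [show 2 * (t + 1) = 2 * t + 2 by ring, R_even, P_even, S_even]
      have h3 := a_lt h (t + 1)
      have ee := e_sq h (t + 1)
      have e2 : p ^ (A - a A m (t + 1)) * p ^ a A m (t + 1) = p ^ A := by
        rw [← pow_add]; congr 1; omega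
      have e4 : 4 * (-(l * s) * e s l A m (t + 1) * p ^ (A - a A m (t + 1))) *
          (e s l A m (t + 1) * p ^ a A m (t + 1)) = -4 * (l * s) * e s l A m (t + 1) ^ 2 *
          (p ^ (A - a A m (t + 1)) * p ^ a A m (t + 1)) := by ring
      rw [e4, e2, ee]
      unfold dd N3 N1
      linear_combination (4 * l * p ^ m) * h.hs
  · rw [R_odd, P_odd, S_odd]
    have h3 := a_lt h t
    have ee := e_sq h t
    by_cases h5 : a A m t ≤ m
    · rw [if_pos h5, if_pos h5]
      have e3 : p ^ (a A m t) * p ^ (m - a A m t) = p ^ m := by rw [← pow_add]; congr 1; omega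
      have e4 : 4 * (e s l A m t * p ^ a A m t) * (e s l A m t * l * p ^ (m - a A m t)) =
          4 * l * e s l A m t ^ 2 * (p ^ (a A m t) * p ^ (m - a A m t)) := by ring
      rw [e4, e3, ee]
      unfold dd
      ring
    · rw [if_neg h5, if_neg h5]
      have e3 : p ^ (a A m t) * p ^ (A + m - a A m t) = p ^ A * p ^ m := by
        rw [← pow_add, ← pow_add]; congr 1; omega
      have e4 : 4 * (e s l A m t * p ^ a A m t) * (e s l A m t * s * p ^ (A + m - a A m t)) =
          4 * s * e s l A m t ^ 2 * (p ^ (a A m t) * p ^ (A + m - a A m t)) := by ring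
      rw [e4, e3, ee]
      unfold dd N4 N1
      linear_combination (4 * l * p ^ m) * h.hs

lemma e_ne (h : Par s l A m) (t : ℕ) : e s l A m t ≠ 0 := by
  intro h0
  have := e_sq h t
  rw [h0] at this
  norm_num at this

lemma ne_of_sq {x : ℤ} (h : x ^ 2 = 1) : x ≠ 0 := by
  intro h0
  rw [h0] at h
  norm_num at h

lemma S_ne (h : Par s l A m) (hp : p ≠ 0) (k : ℕ) : S s l p A m k ≠ 0 := by
  have h1 : ∀ n, p ^ n ≠ 0 := fun n => pow_ne_zero n hp
  unfold S
  split_ifs
  · norm_num
  · exact mul_ne_zero (mul_ne_zero (e_ne h _) (ne_of_sq h.hl)) (h1 _)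
  · exact mul_ne_zero (mul_ne_zero (e_ne h _) (ne_of_sq h.hs)) (h1 _)
  · exact mul_ne_zero (e_ne h _) (h1 _)

theorem hS (h : Par s l A m) (hp : p ≠ 0) {k : ℕ} (hk : k < 2 * A - 1) :
    S s l p A m (k + 1) = P s l p A m k + R s l p A m k * c s l p A m k
      - S s l p A m k * c s l p A m k ^ 2 := by
  have h1 := dis (p := p) h (show k < 2 * A by omega)
  have h2 := dis (p := p) h (show k + 1 < 2 * A by omega)
  rw [hR h hk, hP h hk] at h2
  have h3 := S_ne h hp k
  have h4 : 4 * S s l p A m k * S s l p A m (k + 1) = 4 * S s l p A m k * (P s l p A m k +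
      R s l p A m k * c s l p A m k - S s l p A m k * c s l p A m k ^ 2) := by
    linear_combination h2 - h1
  exact mul_left_cancel₀ (mul_ne_zero (by norm_num) h3) h4

lemma last_eq (h : Par s l A m) : 2 * A - 1 = 2 * (A - 1) + 1 := by
  have h1 := h.hm
  have h2 := h.hA
  omega

/-- the end of the cycle -/
theorem P_end (h : Par s l A m) :
    P s l p A m (2 * A - 1) = (e s l A m (A - 1) * l) * P s l p A m 0 := by
  rw [last_eq h, P_odd, P_zero, a_last h]
  linear_combination (-(e s l A m (A - 1)) * p ^ m) * h.hl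

theorem R_end (h : Par s l A m) : R s l p A m (2 * A - 1) = R s l p A m 0 := by
  rw [last_eq h, R_odd, R_zero, a_last h, if_pos le_rfl]

theorem S_end (h : Par s l A m) :
    S s l p A m (2 * A - 1) = (e s l A m (A - 1) * l) * S s l p A m 0 := by
  rw [last_eq h, S_odd, S_zero, a_last h, if_pos le_rfl]
  simp

lemma sgn (h : Par s l A m) (t : ℕ) : e s l A m t * l = 1 ∨ e s l A m t * l = -1 := by
  have e0 : (e s l A m t * l) ^ 2 = 1 := by rw [mul_pow, e_sq h, h.hl, one_mul]
  exact sq_eq_one_iff.1 e0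

/-- reordering -/
lemma sum_perm {M : Type*} [AddCommMonoid M] (n : ℕ) (g : ℕ → ℕ) (hg : ∀ t < n, g t < n)
    (hi : ∀ t < n, ∀ t' < n, g t = g t' → t = t') (F : ℕ → M) :
    ∑ t ∈ range n, F (g t) = ∑ j ∈ range n, F j := by
  have h1 : Set.InjOn g (range n) := fun t ht t' ht' he =>
    hi t (by simpa using ht) t' (by simpa using ht') he
  have h2 : (range n).image g = range n := by
    apply Finset.eq_of_subset_of_card_le
    · intro x hx
      obtain ⟨t, ht, rfl⟩ := Finset.mem_image.1 hx
      exact Finset.mem_range.2 (hg t (Finset.mem_range.1 ht))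
    · rw [Finset.card_image_of_injOn h1]
  conv_rhs => rw [← h2]
  rw [Finset.sum_image h1]

lemma sum_split {M : Type*} [AddCommMonoid M] (f : ℕ → M) (n : ℕ) :
    ∑ k ∈ range (2 * n + 1), f k =
      ∑ t ∈ range n, f (2 * t + 1) + f 0 + ∑ t ∈ range n, f (2 * t + 2) := by
  induction n with
  | zero => simp
  | succ n ih =>
    rw [show 2 * (n + 1) + 1 = 2 * n + 1 + 1 + 1 by ring, Finset.sum_range_succ,
      Finset.sum_range_succ, ih, Finset.sum_range_succ, Finset.sum_range_succ]
    abel

/-- the letter at `N` -/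
def d2 (s l p : ℤ) (A m j : ℕ) : ℤ :=
  if j = m then l * N1 s l p A m else l * (p ^ (A - m + j) + s * p ^ j)

/-- the letter at `N3` -/
def d3 (s l p : ℤ) (A m j : ℕ) : ℤ :=
  -(l * s * p ^ j) - if A ≤ m + j then l * p ^ (m + j - A) else 0

/-- the sum over the cycle is the sum over the levels -/
theorem sum_eq (h : Par s l A m) {M : Type*} [AddCommMonoid M] (T : ℤ → ℤ → ℤ → ℤ → M)
    (hT : ∀ P R S c, T (-P) R (-S) (-c) = T P R S c) :
    ∑ k ∈ range (2 * A - 1), T (P s l p A m k) (R s l p A m k) (S s l p A m k)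
        (c s l p A m k) =
      ∑ j ∈ range (m + 1), T (p ^ j) (N1 s l p A m) (l * p ^ (m - j)) (d2 s l p A m j)
        + ∑ i ∈ range (A - 1 - m), T (p ^ (m + 1 + i)) (N4 s l p A m) (s * p ^ (A - 1 - i))
            (s * p ^ (i + 1))
        + ∑ i ∈ range (A - 1), T (p ^ (i + 1)) (N3 s l p A m) (-(l * s * p ^ (A - 1 - i)))
            (d3 s l p A m (i + 1)) := by
  have h1 := h.hm
  have h2 := h.hA
  have hs : ∀ e : ℤ, e ^ 2 = 1 → ∀ P R S c, T (e * P) R (e * S) (e * c) = T P R S c := by
    intro e he P R S c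
    rcases sq_eq_one_iff.1 he with rfl | rfl
    · simp
    · rw [neg_one_mul, neg_one_mul, neg_one_mul, hT]
  set F : ℕ → M := fun j => if j ≤ m then
      T (p ^ j) (N1 s l p A m) (l * p ^ (m - j)) (d2 s l p A m j)
    else T (p ^ j) (N4 s l p A m) (s * p ^ (A + m - j)) (s * p ^ (j - m)) with hF
  set G : ℕ → M := fun j => T (p ^ (j + 1)) (N3 s l p A m) (-(l * s * p ^ (A - 1 - j)))
            (d3 s l p A m (j + 1)) with hG
  have e1 : ∀ t < A - 1, T (P s l p A m (2 * t + 1)) (R s l p A m (2 * t + 1))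
      (S s l p A m (2 * t + 1)) (c s l p A m (2 * t + 1)) = F (a A m t) := by
    intro t ht
    have hne := a_ne_m h ht
    rw [P_odd, R_odd, S_odd, c_odd, hF]
    simp only
    by_cases h5 : a A m t ≤ m
    · rw [if_pos h5, if_pos h5, if_pos h5, if_pos h5]
      have := hs _ (e_sq h t) (p ^ a A m t) (N1 s l p A m) (l * p ^ (m - a A m t))
        (d2 s l p A m (a A m t))
      rw [← this]
      unfold d2
      rw [if_neg hne]
      congr 1 <;> ring
    · rw [if_neg h5, if_neg h5, if_neg h5, if_neg h5]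
      have := hs _ (e_sq h t) (p ^ a A m t) (N4 s l p A m) (s * p ^ (A + m - a A m t))
        (s * p ^ (a A m t - m))
      rw [← this]
      congr 1 <;> ring
  have e0 : T (P s l p A m 0) (R s l p A m 0) (S s l p A m 0) (c s l p A m 0) =
      F (a A m (A - 1)) := by
    rw [P_zero, R_zero, S_zero, c_zero, a_last h, hF]
    simp only
    rw [if_pos le_rfl]
    have := hs _ h.hl (p ^ m) (N1 s l p A m) (l * p ^ (m - m)) (d2 s l p A m m)
    rw [← this]
    unfold d2
    rw [if_pos rfl, Nat.sub_self, pow_zero]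
    congr 1
    · linear_combination (-1 : ℤ) * h.hl
    · linear_combination (-(N1 s l p A m)) * h.hl
  have e2 : ∀ t < A - 1, T (P s l p A m (2 * t + 2)) (R s l p A m (2 * t + 2))
      (S s l p A m (2 * t + 2)) (c s l p A m (2 * t + 2)) = G (A - a A m (t + 1) - 1) := by
    intro t ht
    have hne := a_pos h (t := t + 1) (by omega) (by omega)
    have hlt := a_lt h (t + 1)
    rw [P_even, R_even, S_even, c_even, hG]
    simp only
    rw [show A - a A m (t + 1) - 1 + 1 = A - a A m (t + 1) by omega,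
      show A - 1 - (A - a A m (t + 1) - 1) = a A m (t + 1) by omega]
    have hsg : (-(l * s) * e s l A m (t + 1)) ^ 2 = 1 := by
      rw [mul_pow, e_sq h, neg_sq, mul_pow, h.hl, h.hs]; norm_num
    have := hs _ hsg (p ^ (A - a A m (t + 1))) (N3 s l p A m) (-(l * s * p ^ a A m (t + 1)))
      (d3 s l p A m (A - a A m (t + 1)))
    rw [← this]
    congr 1
    · linear_combination (-(e s l A m (t + 1)) * p ^ a A m (t + 1)) * (l ^ 2 * h.hs + h.hl)
    · unfold d3
      by_cases h5 : a A m (t + 1) ≤ m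
      · rw [if_pos h5, if_pos (by omega),
          show m + (A - a A m (t + 1)) - A = m - a A m (t + 1) by omega]
        linear_combination (-(e s l A m (t + 1)) * p ^ (A - a A m (t + 1))) * (l ^ 2 * h.hs + h.hl)
          - (e s l A m (t + 1) * s * p ^ (m - a A m (t + 1))) * h.hl
      · rw [if_neg h5, if_neg (by omega)]
        linear_combination (-(e s l A m (t + 1)) * p ^ (A - a A m (t + 1))) * (l ^ 2 * h.hs + h.hl)
  rw [last_eq h, sum_split]
  congr 1
  · rw [e0, Finset.sum_congr rfl (fun t ht => e1 t (Finset.mem_range.1 ht)),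
      ← Finset.sum_range_succ (fun t => F (a A m t)), show A - 1 + 1 = A by omega,
      sum_perm A (a A m) (fun t _ => a_lt h t) (fun t ht t' ht' he => a_inj h ht ht' he) F]
    conv_lhs => rw [show A = m + 1 + (A - 1 - m) by omega]
    rw [Finset.sum_range_add]
    congr 1
    · apply Finset.sum_congr rfl
      intro j hj
      have hj := Finset.mem_range.1 hj
      rw [hF]
      simp only
      rw [if_pos (by omega)]
    · apply Finset.sum_congr rfl
      intro i hi
      have hi := Finset.mem_range.1 hi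
      rw [hF]
      simp only
      rw [if_neg (by omega),
        show A + m - (m + 1 + i) = A - 1 - i by omega, show m + 1 + i - m = i + 1 by omega]
  · rw [Finset.sum_congr rfl (fun t ht => e2 t (Finset.mem_range.1 ht))]
    apply sum_perm (A - 1) (fun t => A - a A m (t + 1) - 1)
    · intro t ht
      have hne := a_pos h (t := t + 1) (by omega) (by omega)
      have hlt := a_lt h (t + 1)
      omega
    · intro t ht t' ht' he
      have hne := a_pos h (t := t + 1) (by omega) (by omega)
      have hlt := a_lt h (t + 1)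
      have hne' := a_pos h (t := t' + 1) (by omega) (by omega)
      have hlt' := a_lt h (t' + 1)
      have := a_inj h (t := t + 1) (t' := t' + 1) (by omega) (by omega) (by omega)
      omega

end Pool.Agent.OEG.F2
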