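import Pool.Agent.OEG.F2Cyc
import Pool.Agent.OEG.F1Fin

/-!
The formal cycle of the second family is a closed signed chain; its sum is the sum of the list `J2`.
-/

set_option autoImplicit false

namespace Pool.Agent.OEG.F2

open Finset Pool.Agent.Lib_helper5

variable {s l p : ℤ} {A m : ℕ}

theorem scyc (h : Par s l A m) (hp : p ≠ 0) :
    SG.SCyc (2 * A - 1) (P s l p A m) (R s l p A m) (S s l p A m) (c s l p A m) where
  hP := fun _ hk => hP h hk
  hR := fun _ hk => hR h hk
  hS := fun _ hk => hS h hp hk
  S0 := S_zero
  cl := by
    rw [P_end h, R_end h, S_end h]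
    rcases sgn h (A - 1) with e | e <;> rw [e]
    · left; simp
    · right; simp

theorem LS_LJ (h : Par s l A m) {Q : ℕ} [NeZero Q] {f : ℤ → ℤ} (hper : ∀ x, f (x + Q) = f x)
    (hodd : ∀ x, f (-x) = - f x) :
    SG.LS (2 * A - 1) (P s l p A m) (R s l p A m) (S s l p A m) (c s l p A m) Q f =
      LJ Q f (J2 s l p A m) := by
  unfold SG.LS
  rw [sum_eq h (fun P R S c => 3 * XZ Q f P R S - c * YX Q f P R S) (by
    intro P R S c
    have e1 : XZ Q f (-P) R (-S) = XZ Q f P R S := by
      rw [SG.XZ_W hper (-P) R (-S), neg_neg, SG.W_flip hper hodd]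
    have e2 : YX Q f (-P) R (-S) = - YX Q f P R S := by
      rw [SG.YX_G hper (-P) R (-S), neg_neg, SG.G_flip hper hodd]
    rw [e1, e2]
    ring)]
  unfold LJ J2
  rw [List.map_append, List.map_append, List.map_map, List.map_map, List.map_map,
    List.sum_append, List.sum_append, F1.sum_map_range, F1.sum_map_range, F1.sum_map_range]
  congr 1
  · congr 1
    · apply Finset.sum_congr rfl
      intro j _
      simp only [Function.comp, neg_neg]
      have : d2 s l p A m j = c2 s l p A m j := rfl
      rw [this]
      unfold N1
      push_cast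
      ring
    · apply Finset.sum_congr rfl
      intro j _
      simp only [Function.comp, neg_neg]
      unfold N4
      push_cast
      ring
  · apply Finset.sum_congr rfl
    intro j _
    simp only [Function.comp]
    have : d3 s l p A m (j + 1) = c3 s l p A m (j + 1) := rfl
    rw [this]
    unfold N3
    push_cast
    ring

end Pool.Agent.OEG.F2
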