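import Pool.Agent.OEG.StG
import Pool.Agent.PSX.FamB

/-!
# Project OEG, module FAI: the families of type one
-/

set_option autoImplicit false

namespace Pool.Agent.OEG.G.FAIM

open Finset (range)
open Pool.Agent.P4G
open Pool.Agent.RDF (T7 T7_mul T7_neg)
open Pool.Agent.PSX.F26 (T3 A5 B5 C5 T3_mul T3_neg C5_mul C5_neg C5_mod C7_modN exists_i exists_w9
  mkFam)
open Pool.Agent.PSX (fb v3 v5 v7)

/-! ### characters -/

/-- the real part of a character of order four modulo seventeen -/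
def A17 (x : ZMod 17) : ℤ := (![0, 1, -1, 0, 1, 0, 0, 0, -1, -1, 0, 0, 0, 1, 0, -1, 1] : Fin 17 → ℤ) x
/-- the other part -/
def B17 (x : ZMod 17) : ℤ := (![0, 0, 0, 1, 0, 1, -1, -1, 0, 0, -1, -1, 1, 0, 1, 0, 0] : Fin 17 → ℤ) x
/-- a character of order four modulo seventeen -/
def C17 (i : ℤ) (x : ZMod 17) : ℤ := A17 x + i * B17 x
/-- the first part of a cubic character modulo nineteen -/
def A19 (x : ZMod 19) : ℤ :=
  (![0, 1, 0, 0, -1, 0, -1, 1, 1, -1, -1, 1, 1, -1, 0, -1, 0, 0, 1] : Fin 19 → ℤ) x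
/-- the other part -/
def B19 (x : ZMod 19) : ℤ :=
  (![0, 0, 1, 1, -1, 1, -1, 0, 0, -1, -1, 0, 0, -1, 1, -1, 1, 1, 0] : Fin 19 → ℤ) x
/-- a cubic character modulo nineteen -/
def C19 (w : ℤ) (x : ZMod 19) : ℤ := A19 x + w * B19 x

lemma A17_mul : ∀ x y : ZMod 17, A17 (x * y) = A17 x * A17 y - B17 x * B17 y := by decide +kernel
lemma B17_mul : ∀ x y : ZMod 17, B17 (x * y) = A17 x * B17 y + B17 x * A17 y := by decide +kernel
lemma A17_neg : ∀ x : ZMod 17, A17 (-x) = A17 x := by decide +kernel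
lemma B17_neg : ∀ x : ZMod 17, B17 (-x) = B17 x := by decide +kernel
lemma A19_mul : ∀ x y : ZMod 19, A19 (x * y) = A19 x * A19 y - B19 x * B19 y := by decide +kernel
lemma B19_mul : ∀ x y : ZMod 19, B19 (x * y) = A19 x * B19 y + B19 x * A19 y - B19 x * B19 y := by
  decide +kernel
lemma A19_neg : ∀ x : ZMod 19, A19 (-x) = A19 x := by decide +kernel
lemma B19_neg : ∀ x : ZMod 19, B19 (-x) = B19 x := by decide +kernel

lemma C17_mul {M : ℕ} {i : ℤ} (hi : ((i : ℤ) : ZMod M) ^ 2 + 1 = 0) (x y : ZMod 17) :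
    ((C17 i (x * y) : ℤ) : ZMod M) = (C17 i x : ℤ) * (C17 i y : ℤ) := by
  unfold C17
  rw [A17_mul, B17_mul]
  push_cast
  linear_combination -((B17 x : ℤ) : ZMod M) * ((B17 y : ℤ) : ZMod M) * hi

lemma C19_mul {M : ℕ} {w : ℤ} (hw : ((w : ℤ) : ZMod M) ^ 2 + w + 1 = 0) (x y : ZMod 19) :
    ((C19 w (x * y) : ℤ) : ZMod M) = (C19 w x : ℤ) * (C19 w y : ℤ) := by
  unfold C19
  rw [A19_mul, B19_mul]
  push_cast
  linear_combination -((B19 x : ℤ) : ZMod M) * ((B19 y : ℤ) : ZMod M) * hw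

lemma C17_neg (i : ℤ) (x : ZMod 17) : C17 i (-x) = C17 i x := by
  unfold C17
  rw [A17_neg, B17_neg]

lemma C19_neg (i : ℤ) (x : ZMod 19) : C19 i (-x) = C19 i x := by
  unfold C19
  rw [A19_neg, B19_neg]

lemma C17_mod {N : ℕ} {i j : ℤ} (h : ((i : ℤ) : ZMod N) = (j : ℤ)) (x : ZMod 17) :
    ((C17 i x : ℤ) : ZMod N) = (C17 j x : ℤ) := by
  unfold C17
  push_cast
  rw [h]

lemma C19_mod {N : ℕ} {i j : ℤ} (h : ((i : ℤ) : ZMod N) = (j : ℤ)) (x : ZMod 19) :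
    ((C19 i x : ℤ) : ZMod N) = (C19 j x : ℤ) := by
  unfold C19
  push_cast
  rw [h]

/-- first family -/
def pa (w u : ℤ) : ℤ := T5 (u : ZMod 5) * C7 w (u : ZMod 7)
/-- second family -/
def pb (i w u : ℤ) : ℤ := C5 i (u : ZMod 5) * (T7 (u : ZMod 7) * C7 w (u : ZMod 7))
/-- third family -/
def pc (i u : ℤ) : ℤ := T3 (u : ZMod 3) * C5 i (u : ZMod 5)
/-- fourth family -/
def pd (i u : ℤ) : ℤ := T3 (u : ZMod 3) * C17 i (u : ZMod 17)
/-- fifth family -/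
def pe (i w u : ℤ) : ℤ := C5 i (u : ZMod 5) * C19 w (u : ZMod 19)

lemma cc (n k : ℕ) (u : ℤ) (h : n ∣ k) : (((u + (k : ℕ) : ℤ)) : ZMod n) = (u : ZMod n) := by
  push_cast
  rw [(ZMod.natCast_eq_zero_iff k n).2 h, add_zero]

lemma pa_per (w u : ℤ) : pa w (u + (35 : ℕ)) = pa w u := by
  unfold pa; rw [cc 5 35 u (by norm_num), cc 7 35 u (by norm_num)]
lemma pb_per (i w u : ℤ) : pb i w (u + (35 : ℕ)) = pb i w u := by
  unfold pb; rw [cc 5 35 u (by norm_num), cc 7 35 u (by norm_num)]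
lemma pc_per (i u : ℤ) : pc i (u + (15 : ℕ)) = pc i u := by
  unfold pc; rw [cc 5 15 u (by norm_num), cc 3 15 u (by norm_num)]
lemma pd_per (i u : ℤ) : pd i (u + (51 : ℕ)) = pd i u := by
  unfold pd; rw [cc 3 51 u (by norm_num), cc 17 51 u (by norm_num)]
lemma pe_per (i w u : ℤ) : pe i w (u + (95 : ℕ)) = pe i w u := by
  unfold pe; rw [cc 5 95 u (by norm_num), cc 19 95 u (by norm_num)]

lemma pa_neg (w u : ℤ) : pa w (-u) = pa w u := by
  unfold pa; push_cast; rw [T5_neg, C7_neg]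
lemma pb_neg (i w u : ℤ) : pb i w (-u) = pb i w u := by
  unfold pb; push_cast; rw [C5_neg, T7_neg, C7_neg]; ring
lemma pc_neg (i u : ℤ) : pc i (-u) = pc i u := by
  unfold pc; push_cast; rw [T3_neg, C5_neg]; ring
lemma pd_neg (i u : ℤ) : pd i (-u) = - pd i u := by
  unfold pd; push_cast; rw [T3_neg, C17_neg]; ring
lemma pe_neg (i w u : ℤ) : pe i w (-u) = - pe i w u := by
  unfold pe; push_cast; rw [C5_neg, C19_neg]; ring

section

variable {M : ℕ} {i w : ℤ}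

lemma pa_mul (hw : ((w : ℤ) : ZMod M) ^ 2 + w + 1 = 0) (u v : ℤ) :
    ((pa w (u * v) : ℤ) : ZMod M) = (pa w u : ℤ) * (pa w v : ℤ) := by
  unfold pa
  rw [Int.cast_mul u v, Int.cast_mul u v, T5_mul]
  simp only [Int.cast_mul]
  rw [C7_mul hw]
  ring
lemma pb_mul (hi : ((i : ℤ) : ZMod M) ^ 2 + 1 = 0) (hw : ((w : ℤ) : ZMod M) ^ 2 + w + 1 = 0)
    (u v : ℤ) : ((pb i w (u * v) : ℤ) : ZMod M) = (pb i w u : ℤ) * (pb i w v : ℤ) := by
  unfold pb
  rw [Int.cast_mul u v, Int.cast_mul u v, T7_mul]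
  simp only [Int.cast_mul]
  rw [C5_mul hi, C7_mul hw]
  ring
lemma pc_mul (hi : ((i : ℤ) : ZMod M) ^ 2 + 1 = 0) (u v : ℤ) :
    ((pc i (u * v) : ℤ) : ZMod M) = (pc i u : ℤ) * (pc i v : ℤ) := by
  unfold pc
  rw [Int.cast_mul u v, Int.cast_mul u v, T3_mul]
  simp only [Int.cast_mul]
  rw [C5_mul hi]
  ring
lemma pd_mul (hi : ((i : ℤ) : ZMod M) ^ 2 + 1 = 0) (u v : ℤ) :
    ((pd i (u * v) : ℤ) : ZMod M) = (pd i u : ℤ) * (pd i v : ℤ) := by
  unfold pd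
  rw [Int.cast_mul u v, Int.cast_mul u v, T3_mul]
  simp only [Int.cast_mul]
  rw [C17_mul hi]
  ring
lemma pe_mul (hi : ((i : ℤ) : ZMod M) ^ 2 + 1 = 0) (hw : ((w : ℤ) : ZMod M) ^ 2 + w + 1 = 0)
    (u v : ℤ) : ((pe i w (u * v) : ℤ) : ZMod M) = (pe i w u : ℤ) * (pe i w v : ℤ) := by
  unfold pe
  rw [Int.cast_mul u v, Int.cast_mul u v]
  simp only [Int.cast_mul]
  rw [C5_mul hi, C19_mul hw]
  ring

end

section

variable {N : ℕ} {i j w z : ℤ} (h : ((i : ℤ) : ZMod N) = (j : ℤ)) (h' : ((w : ℤ) : ZMod N) = (z : ℤ))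

include h' in
lemma pa_mod (u : ℤ) : ((pa w u : ℤ) : ZMod N) = (pa z u : ℤ) := by
  unfold pa; simp only [Int.cast_mul]; rw [C7_modN h']
include h h' in
lemma pb_mod (u : ℤ) : ((pb i w u : ℤ) : ZMod N) = (pb j z u : ℤ) := by
  unfold pb; simp only [Int.cast_mul]; rw [C5_mod h, C7_modN h']
include h in
lemma pc_mod (u : ℤ) : ((pc i u : ℤ) : ZMod N) = (pc j u : ℤ) := by
  unfold pc; simp only [Int.cast_mul]; rw [C5_mod h]
include h in
lemma pd_mod (u : ℤ) : ((pd i u : ℤ) : ZMod N) = (pd j u : ℤ) := by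
  unfold pd; simp only [Int.cast_mul]; rw [C17_mod h]
include h h' in
lemma pe_mod (u : ℤ) : ((pe i w u : ℤ) : ZMod N) = (pe j z u : ℤ) := by
  unfold pe; simp only [Int.cast_mul]; rw [C5_mod h, C19_mod h']

end

lemma C5_one (i : ℤ) : C5 i 1 = 1 := by
  unfold C5
  rw [show A5 1 = 1 by decide, show B5 1 = 0 by decide]
  ring
lemma C17_one (i : ℤ) : C17 i 1 = 1 := by
  unfold C17
  rw [show A17 1 = 1 by decide, show B17 1 = 0 by decide]
  ring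
lemma C19_one (i : ℤ) : C19 i 1 = 1 := by
  unfold C19
  rw [show A19 1 = 1 by decide, show B19 1 = 0 by decide]
  ring
lemma C7_one (w : ℤ) : C7 w 1 = 1 := by
  unfold C7
  rw [if_neg (by decide), show lg7 1 = 0 by decide, pow_zero]

lemma pa_one (w : ℤ) : pa w 1 = 1 := by
  unfold pa
  rw [Int.cast_one, Int.cast_one, show T5 1 = 1 by decide, C7_one, one_mul]
lemma pb_one (i w : ℤ) : pb i w 1 = 1 := by
  unfold pb
  rw [Int.cast_one, Int.cast_one, C5_one, show T7 1 = 1 by decide, C7_one, one_mul, one_mul]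
lemma pc_one (i : ℤ) : pc i 1 = 1 := by
  unfold pc
  rw [Int.cast_one, Int.cast_one, C5_one, show T3 1 = 1 by decide, one_mul]
lemma pd_one (i : ℤ) : pd i 1 = 1 := by
  unfold pd
  rw [Int.cast_one, Int.cast_one, C17_one, show T3 1 = 1 by decide, one_mul]
lemma pe_one (i w : ℤ) : pe i w 1 = 1 := by
  unfold pe
  rw [Int.cast_one, Int.cast_one, C5_one, C19_one, one_mul]

/-! ### tables modulo thirteen -/

lemma tb3 : ∀ x : ZMod 3, ((T3 x : ℤ) : ZMod 13) = v3 x := by decide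
lemma tb5 : ∀ x : ZMod 5, ((T5 x : ℤ) : ZMod 13) = v5 x ^ 2 := by decide
lemma tb5a : ∀ x : ZMod 5, ((C5 5 x : ℤ) : ZMod 13) = v5 x ^ 3 := by decide
lemma tb5b : ∀ x : ZMod 5, ((C5 8 x : ℤ) : ZMod 13) = v5 x := by decide
lemma tb7a : ∀ x : ZMod 7, ((T7 x * C7 3 x : ℤ) : ZMod 13) = v7 x ^ 5 := by decide
lemma tb7d : ∀ x : ZMod 7, ((C7 9 x : ℤ) : ZMod 13) = v7 x ^ 4 := by decide
lemma tb17 : ∀ x : ZMod 17, ((C17 5 x : ℤ) : ZMod 13) = v17 x := by decide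
lemma tb19 : ∀ x : ZMod 19, ((C19 9 x : ℤ) : ZMod 13) = v19 x := by decide

/-! ### kernel computations -/

lemma DD_two (q0 a b : ℕ) (hab : (q0 * 13 ^ 2 + 1) / 2 = a * b) (χ : ℤ → ℤ) (m : ℕ) :
    DD 13 q0 χ 2 m = ∑ i ∈ range a, ∑ j ∈ range b,
      χ ((b * i + j : ℕ) : ℤ) * (((b * i + j : ℕ) : ℤ) ^ m * fq 13 ((b * i + j : ℕ) : ℤ)) := by
  have e : ∀ (a b : ℕ) (f : ℕ → ℤ),
      ∑ r ∈ range (a * b), f r = ∑ i ∈ range a, ∑ j ∈ range b, f (b * i + j) := by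
    intro a b f
    induction a with
    | zero => simp
    | succ a ih =>
      rw [Nat.succ_mul, Finset.sum_range_add, ih, Finset.sum_range_succ]
      congr 1
      apply Finset.sum_congr rfl
      intro j _
      rw [mul_comm b a]
  unfold DD
  rw [hab]
  exact e a b (fun r => χ (r : ℤ) * ((r : ℤ) ^ m * fq 13 (r : ℤ)))

lemma base_a : (Hs 13 35 (pa 9) 1 5) % 13 = 0 := by decide +kernel
lemma base_b : (Hs 13 35 (pb 5 3) 1 5) % 13 = 0 := by decide +kernel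
lemma base_c : (Hs 13 15 (pc 8) 1 3) % 13 = 0 := by decide +kernel
lemma base_d : (Hs 13 51 (pd 5) 1 4) % 13 = 0 := by decide +kernel
lemma base_e : (Hs 13 95 (pe 5 9) 1 2) % 13 = 0 := by decide +kernel
lemma der_a : (DD 13 35 (pa 9) 2 5) % 13 ≠ 0 := by decide +kernel
lemma der_b : (DD 13 35 (pb 5 3) 2 5) % 13 ≠ 0 := by decide +kernel
lemma der_c : (DD 13 15 (pc 8) 2 3) % 13 ≠ 0 := by decide +kernel
lemma der_d : (DD 13 51 (pd 5) 2 4) % 13 ≠ 0 := by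
  rw [DD_two 51 10 431 (by norm_num)]; decide +kernel
lemma der_e : (DD 13 95 (pe 5 9) 2 2) % 13 ≠ 0 := by
  rw [DD_two 95 12 669 (by norm_num)]; decide +kernel

/-! ### the families -/

lemma root_cast {n : ℕ} {i : ℤ} (h : (13 : ℤ) ^ (n + 1) ∣ i ^ 2 + 1) :
    ((i : ℤ) : ZMod (13 ^ (n + 1))) ^ 2 + 1 = 0 := by
  have h1 : ((i ^ 2 + 1 : ℤ) : ZMod (13 ^ (n + 1))) = 0 := by
    rw [ZMod.intCast_zmod_eq_zero_iff_dvd]
    push_cast
    exact h
  push_cast at h1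
  exact h1

lemma root_cast' {n : ℕ} {i : ℤ} (h : (13 : ℤ) ^ (n + 1) ∣ i ^ 2 + i + 1) :
    ((i : ℤ) : ZMod (13 ^ (n + 1))) ^ 2 + i + 1 = 0 := by
  have h1 : ((i ^ 2 + i + 1 : ℤ) : ZMod (13 ^ (n + 1))) = 0 := by
    rw [ZMod.intCast_zmod_eq_zero_iff_dvd]
    push_cast
    exact h
  push_cast at h1
  exact h1

lemma ico {i j : ℤ} (h : i % 13 = j) : ((i : ℤ) : ZMod 13) = (j : ℤ) := by
  rw [ZMod.intCast_eq_intCast_iff, Int.ModEq]
  push_cast
  omega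

lemma famI {q0 e0 : ℕ} {χ : ℤ → ZMod 13} (h2 : 2 ≤ e0) (hnd : 2 * e0 < 12)
    (H : ∀ n, ∃ (e : ℕ) (ψ : ℤ → ℤ), e % 12 = e0 ∧ n + 2 ≤ e ∧ Fam 13 q0 n e ψ ∧ ψ 1 = 1 ∧
      ∀ u : ℤ, ((ψ u : ℤ) : ZMod 13) * (u : ZMod 13) ^ e0 = χ u) : FamI q0 e0 χ := by
  intro n
  obtain ⟨e, ψ, he, hen, hF, h1, hu⟩ := H n
  refine ⟨e, ψ, ⟨hF, h1, he, h2, ?_⟩, ?_⟩
  · intro hd
    have e1 : 2 * e = 12 * (2 * (e / 12)) + 2 * e0 := by omega
    have e2 : 13 - 1 = 12 := by norm_num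
    rw [e2] at hd
    omega
  · intro u
    unfold fb
    push_cast
    rw [← hu]
    congr 1
    exact pow_expo prime13 (m := e) (m0 := e0) (by norm_num; omega) (by omega) (by omega) _

theorem fa : FamI 35 5 χa := by
  refine famI (by norm_num) (by norm_num) fun n => ?_
  obtain ⟨w, hw, hwn⟩ := exists_w9 n
  have hm : ∀ u, ((pa w u : ℤ) : ZMod 13) = (pa 9 u : ℤ) := pa_mod (ico hw)
  obtain ⟨e, he, hen, hF⟩ := mkFam (ψ := pa w) (e0 := 5) (n := n) (by norm_num) (by norm_num)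
    (pa_per w) (by norm_num) (by norm_num) (by intro x; rw [pa_neg]; norm_num)
    (pa_mul (root_cast' hwn)) hm base_a der_a
  refine ⟨e, pa w, he, hen, hF, pa_one w, fun u => ?_⟩
  rw [hm]
  unfold χa pa
  rw [Int.cast_mul, tb5, tb7d]
  ring

theorem fb' : FamI 35 5 χb := by
  refine famI (by norm_num) (by norm_num) fun n => ?_
  obtain ⟨i, hi, hin⟩ := exists_i (i0 := 5) (Or.inl rfl) n
  obtain ⟨w, hw, hwn⟩ := exists_w n
  have hm : ∀ u, ((pb i w u : ℤ) : ZMod 13) = (pb 5 3 u : ℤ) := pb_mod (ico hi) (ico hw)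
  obtain ⟨e, he, hen, hF⟩ := mkFam (ψ := pb i w) (e0 := 5) (n := n) (by norm_num) (by norm_num)
    (pb_per i w) (by norm_num) (by norm_num) (by intro x; rw [pb_neg]; norm_num)
    (pb_mul (root_cast hin) (root_cast' hwn)) hm base_b der_b
  refine ⟨e, pb i w, he, hen, hF, pb_one i w, fun u => ?_⟩
  rw [hm]
  unfold χb pb
  rw [Int.cast_mul, tb5a, tb7a]
  ring

theorem fc : FamI 15 3 χc := by
  refine famI (by norm_num) (by norm_num) fun n => ?_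
  obtain ⟨i, hi, hin⟩ := exists_i (i0 := 8) (Or.inr rfl) n
  have hm : ∀ u, ((pc i u : ℤ) : ZMod 13) = (pc 8 u : ℤ) := pc_mod (ico hi)
  obtain ⟨e, he, hen, hF⟩ := mkFam (ψ := pc i) (e0 := 3) (n := n) (by norm_num) (by norm_num)
    (pc_per i) (by norm_num) (by norm_num) (by intro x; rw [pc_neg]; norm_num)
    (pc_mul (root_cast hin)) hm base_c der_c
  refine ⟨e, pc i, he, hen, hF, pc_one i, fun u => ?_⟩
  rw [hm]
  unfold χc pc
  rw [Int.cast_mul, tb3, tb5b]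
  ring

theorem fd : FamI 51 4 χd := by
  refine famI (by norm_num) (by norm_num) fun n => ?_
  obtain ⟨i, hi, hin⟩ := exists_i (i0 := 5) (Or.inl rfl) n
  have hm : ∀ u, ((pd i u : ℤ) : ZMod 13) = (pd 5 u : ℤ) := pd_mod (ico hi)
  obtain ⟨e, he, hen, hF⟩ := mkFam (ψ := pd i) (e0 := 4) (n := n) (by norm_num) (by norm_num)
    (pd_per i) (by norm_num) (by norm_num) (by intro x; rw [pd_neg]; norm_num)
    (pd_mul (root_cast hin)) hm base_d der_d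
  refine ⟨e, pd i, he, hen, hF, pd_one i, fun u => ?_⟩
  rw [hm]
  unfold χd pd
  rw [Int.cast_mul, tb3, tb17]

theorem fe : FamI 95 2 χe := by
  refine famI (by norm_num) (by norm_num) fun n => ?_
  obtain ⟨i, hi, hin⟩ := exists_i (i0 := 5) (Or.inl rfl) n
  obtain ⟨w, hw, hwn⟩ := exists_w9 n
  have hm : ∀ u, ((pe i w u : ℤ) : ZMod 13) = (pe 5 9 u : ℤ) := pe_mod (ico hi) (ico hw)
  obtain ⟨e, he, hen, hF⟩ := mkFam (ψ := pe i w) (e0 := 2) (n := n) (by norm_num) (by norm_num)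
    (pe_per i w) (by norm_num) (by norm_num) (by intro x; rw [pe_neg]; norm_num)
    (pe_mul (root_cast hin) (root_cast' hwn)) hm base_e der_e
  refine ⟨e, pe i w, he, hen, hF, pe_one i w, fun u => ?_⟩
  rw [hm]
  unfold χe pe
  rw [Int.cast_mul, tb5a, tb19]

end Pool.Agent.OEG.G.FAIM

namespace Pool.Agent.OEG.G

theorem t_FAI : Stmt_FAI := ⟨FAIM.fa, FAIM.fb', FAIM.fc, FAIM.fd, FAIM.fe⟩

end Pool.Agent.OEG.G
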