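import Pool.Agent.OEG.StG

/-!
# Module GG1 (helper4): the first ghost is impossible
-/

set_option autoImplicit false

namespace Pool.Agent.OEG.G

theorem t_GG1 : Stmt_GG1 := by
  intro h1 h2 D l u p q b m hQ hNr hRel hG
  have hP : P1 D l u p q b m := ⟨hQ.l1, hQ.u1, hQ.m1, hQ.qb, hQ.D1⟩
  obtain ⟨n, hn1, hn2⟩ : ∃ n : ℕ, 13 ^ n ∣ 2 * m + 1 ∧ ¬ 13 ^ (n + 1) ∣ 2 * m + 1 := by
    have hfin : FiniteMultiplicity 13 (2 * m + 1) :=
      Nat.finiteMultiplicity_iff.2 ⟨by norm_num, by omega⟩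
    exact ⟨multiplicity 13 (2 * m + 1), pow_multiplicity_dvd _ _,
      hfin.not_pow_dvd_of_multiplicity_lt (Nat.lt_succ_self _)⟩
  have key : ∀ i ≤ n, (105 * 13 ^ (i + 1) : ℤ) ∣ p - u * l ∧ (105 * 13 ^ (i + 1) : ℤ) ∣ b := by
    intro i
    induction i with
    | zero =>
      intro _
      have e : (105 * 13 ^ (0 + 1) : ℤ) = 1365 := by norm_num
      rw [e]
      exact ⟨hG.p0, hG.b0⟩
    | succ i ih =>
      intro hi
      obtain ⟨a1, a2⟩ := ih (by omega)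
      exact h2 D l u p q b m i hP hNr hRel a1 a2 ((pow_dvd_pow 13 hi).trans hn1)
  obtain ⟨a1, a2⟩ := key n le_rfl
  exact hn2 (h1 D l u p q b m n hP hNr hRel hG a1 a2)

end Pool.Agent.OEG.G
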