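import Pool.Agent.OEG.GG3

/-!
# Project OEG, module GG2 (helper26): the second ghost is impossible
-/

set_option autoImplicit false

namespace Pool.Agent.OEG.G

open Pool.Agent.P4G (Fam QN FN FZ)
open Pool.Agent.Lib_helper5.LK (Fm)

namespace G2M

lemma coprime_of_nr {D l u p q b : ℤ} {m : ℕ} (hP : P1 D l u p q b m) (hN : PSX.Nr D) :
    IsCoprime p 1365 := by
  have hm := hP.m1
  have key : ∀ r : ℕ, r.Prime → (¬ (r : ℤ) ∣ p) → IsCoprime p (r : ℤ) := by
    intro r hr h
    exact ((Nat.prime_iff_prime_int.1 hr).coprime_iff_not_dvd.2 h).symm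
  have hz : ∀ r : ℕ, (r : ℤ) ∣ p → [NeZero r] → (D : ZMod r) = (b : ZMod r) ^ 2 := by
    intro r h _
    have h0 : (p : ZMod r) = 0 := (ZMod.intCast_zmod_eq_zero_iff_dvd _ r).2 h
    rw [hP.D1]
    push_cast
    rw [h0, zero_pow (by omega)]
    ring
  have h3 : IsCoprime p ((3 : ℕ) : ℤ) := key 3 (by norm_num) (by
    intro h
    have h1 := hN.h3
    have : NeZero 3 := ⟨by norm_num⟩
    rw [hz 3 h] at h1
    generalize (b : ZMod 3) = x at h1
    revert x
    decide)
  have h5 : IsCoprime p ((5 : ℕ) : ℤ) := key 5 (by norm_num) (by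
    intro h
    have h1 := hN.h5
    rw [hz 5 h] at h1
    generalize (b : ZMod 5) = x at h1
    revert x
    decide)
  have h7 : IsCoprime p ((7 : ℕ) : ℤ) := key 7 (by norm_num) (by
    intro h
    have h1 := hN.h7
    rw [hz 7 h] at h1
    generalize (b : ZMod 7) = x at h1
    revert x
    decide)
  have h13 : IsCoprime p ((13 : ℕ) : ℤ) := key 13 (by norm_num) (by
    intro h
    have h1 := hN.h13
    rw [hz 13 h] at h1
    generalize (b : ZMod 13) = x at h1
    revert x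
    decide)
  have e : (1365 : ℤ) = ((3 : ℕ) : ℤ) * ((5 : ℕ) : ℤ) * ((7 : ℕ) : ℤ) * ((13 : ℕ) : ℤ) := by
    norm_num
  rw [e]
  exact ((h3.mul_right h5).mul_right h7).mul_right h13

lemma zero_of_dvd {x : ℤ} (h : ∀ i : ℕ, (105 * 13 ^ (i + 1) : ℤ) ∣ x) : x = 0 := by
  refine Int.eq_zero_of_abs_lt_dvd (h x.natAbs) ?_
  rw [Int.abs_eq_natAbs]
  have h1 : x.natAbs < 13 ^ (x.natAbs + 1) :=
    (Nat.lt_succ_self _).trans (Nat.lt_pow_self (by norm_num))
  have h2 : (x.natAbs : ℤ) < 13 ^ (x.natAbs + 1) := by exact_mod_cast h1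
  have h3 : (0 : ℤ) < 13 ^ (x.natAbs + 1) := by positivity
  linarith

end G2M

theorem t_GG2 : Stmt_GG2 := by
  intro hNGQ h1 h2 D l u p q b m hQ hNr hRel hG
  obtain ⟨hu, ⟨ε, hε, hq⟩, hpm⟩ := hG
  subst hu
  have hP : P1 D l (-1) p q b m := ⟨hQ.l1, hQ.u1, hQ.m1, hQ.qb, hQ.D1⟩
  have hcop : IsCoprime p 1365 := G2M.coprime_of_nr hP hNr.nr
  have hq2 := hQ.q2
  have hm1 := hQ.m1
  -- for both signs
  have key : ∀ q b : ℤ, P1 D l (-1) p q b m → RelJ Q0 (J1 l (-1) p q b m) →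
      (1365 : ℤ) ∣ q - 1 → q ≠ 1 → False := by
    intro q b hP hRel hq hne
    have ind : ∀ i : ℕ, (∀ k ≤ i, 13 ^ k ∣ m - 1) → (105 * 13 ^ (i + 1) : ℤ) ∣ q - 1 := by
      intro i
      induction i with
      | zero =>
        intro _
        have e : (105 * 13 ^ (0 + 1) : ℤ) = 1365 := by norm_num
        rw [e]; exact hq
      | succ i ih =>
        intro hi
        exact h2 D l p q b m i hP hNr hRel hcop hpm (ih fun k hk => hi k (by omega))
          (hi (i + 1) le_rfl)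
    rcases Nat.eq_zero_or_pos (m - 1) with hm | hm
    · apply hne
      have h3 := G2M.zero_of_dvd (x := q - 1) (fun i => ind i fun k _ => by
        rw [hm]; exact dvd_zero _)
      omega
    · obtain ⟨n, hn1, hn2⟩ := G4M.exists_val (T := m - 1) (by omega)
      exact hn2 (h1 D l p q b m n hP hNr hRel hcop hpm
        (ind n fun k hk => (pow_dvd_pow 13 hk).trans hn1) hn1)
  rcases hε with rfl | rfl
  · exact key q b hP hRel hq (by omega)
  · refine key (-q) (-b) (G3M.P1_neg hP) (G3M.relJ_neg hNGQ hRel) ?_ (by omega)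
    have e : -q - 1 = -(q - -1) := by ring
    rw [e]; exact (dvd_neg).2 hq

end Pool.Agent.OEG.G
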