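import Pool.Agent.OEG.GG4

/-!
# Project OEG, module GG3: the third ghost is impossible
-/

set_option autoImplicit false

namespace Pool.Agent.OEG.G

open Pool.Agent.P4G (Fam QN FN FZ)
open Pool.Agent.Lib_helper5.LK (Fm)

namespace G3M

lemma relJ_neg (hNGQ : Stmt_NGQ) {Q1 : ℕ} {l u p q b : ℤ} {m : ℕ}
    (h : RelJ Q1 (J1 l u p q b m)) : RelJ Q1 (J1 l u p (-q) (-b) m) := by
  intro q0 n e e0 ψ _ hq hF
  rw [hNGQ (QN 13 q0 n) hF.fam.Qodd (ZMod (13 ^ (n + 1))) (FZ 13 q0 n e ψ) hF.fam.FZ_neg,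
    h q0 n e e0 ψ hq hF, neg_zero]

lemma P1_neg {D l u p q b : ℤ} {m : ℕ} (h : P1 D l u p q b m) : P1 D l u p (-q) (-b) m := by
  refine ⟨h.l1, h.u1, h.m1, ?_, ?_⟩
  · rw [← h.qb]; ring
  · rw [h.D1]; ring

end G3M

theorem t_GG3 : Stmt_GG3 := by
  intro hNGQ h1 h2 D l u p q b m hQ hNr hRel hG
  obtain ⟨hl, ⟨ε, hε, hq⟩, hpm⟩ := hG
  subst hl
  have hP : P1 D (-1) u p q b m := ⟨hQ.l1, hQ.u1, hQ.m1, hQ.qb, hQ.D1⟩
  have hcop : IsCoprime p 1365 := G4M.cop_of (by omega) hpm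
  -- for both signs
  have key : ∀ q b : ℤ, P1 D (-1) u p q b m → RelJ Q0 (J1 (-1) u p q b m) →
      (1365 : ℤ) ∣ q - p → False := by
    intro q b hP hRel hq
    obtain ⟨n, hn1, hn2⟩ := G4M.exists_val (T := m + 2) (by omega)
    have ind : ∀ i ≤ n, (105 * 13 ^ (i + 1) : ℤ) ∣ q - p := by
      intro i
      induction i with
      | zero =>
        intro _
        have e : (105 * 13 ^ (0 + 1) : ℤ) = 1365 := by norm_num
        rw [e]; exact hq
      | succ i ih =>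
        intro hi
        exact h2 D u p q b m i hP hNr hRel hcop hpm (ih (by omega)) ((pow_dvd_pow 13 hi).trans hn1)
    exact hn2 (h1 D u p q b m n hP hNr hRel hcop hpm (ind n le_rfl) hn1)
  rcases hε with rfl | rfl
  · exact key q b hP hRel (by rwa [one_mul] at hq)
  · refine key (-q) (-b) (G3M.P1_neg hP) (G3M.relJ_neg hNGQ hRel) ?_
    have e : -q - p = -(q - -1 * p) := by ring
    rw [e]; exact (dvd_neg).2 hq

end Pool.Agent.OEG.G
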