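import Pool.Agent.OEG.StG

/-!
# Project OEG, module GG4: the fourth ghost is impossible
-/

set_option autoImplicit false

namespace Pool.Agent.OEG.G

open Finset (range)
open Pool.Agent.PSX (Es)
open Pool.Agent.P4G (Fam QN FN FZ)
open Pool.Agent.Lib_helper5.LK (Fm)

namespace G4M

lemma pow12 {p : ℤ} (h : IsCoprime p 1365) : (1365 : ℤ) ∣ p ^ 12 - 1 := by
  have key : ∀ r : ℕ, r.Prime → r ∣ 1365 → (r - 1) ∣ 12 → (r : ℤ) ∣ p ^ 12 - 1 := by
    intro r hr h1 h2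
    have : Fact r.Prime := ⟨hr⟩
    have hp : (p : ZMod r) ≠ 0 := by
      intro h0
      rw [ZMod.intCast_zmod_eq_zero_iff_dvd] at h0
      have h3 : (r : ℤ) ∣ 1365 := by exact_mod_cast h1
      have := h.isUnit_of_dvd' h0 h3
      rw [Int.isUnit_iff] at this
      have := hr.two_le
      omega
    obtain ⟨k, hk⟩ := h2
    have h4 := ZMod.pow_card_sub_one_eq_one hp
    rw [← ZMod.intCast_zmod_eq_zero_iff_dvd]
    push_cast
    rw [hk, pow_mul, h4, one_pow, sub_self]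
  have k3 := key 3 (by norm_num) (by norm_num) (by norm_num)
  have k5 := key 5 (by norm_num) (by norm_num) (by norm_num)
  have k7 := key 7 (by norm_num) (by norm_num) (by norm_num)
  have k13 := key 13 (by norm_num) (by norm_num) (by norm_num)
  push_cast at k3 k5 k7 k13
  omega

lemma cop_of {p : ℤ} {T : ℕ} (hT : 1 ≤ T) (h : (1365 : ℤ) ∣ p ^ T - 1) : IsCoprime p 1365 := by
  obtain ⟨k, hk⟩ := h
  refine ⟨p ^ (T - 1), -k, ?_⟩
  have e : p ^ (T - 1) * p = p ^ T := by rw [← pow_succ]; congr 1; omega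
  rw [e]
  linarith

lemma nr_congr {D E : ℤ} (h : (1365 : ℤ) ∣ D - E) (hD : PSX.Nr D) : PSX.Nr E := by
  have hc : ∀ r : ℕ, (r : ℤ) ∣ 1365 → ((D : ℤ) : ZMod r) = ((E : ℤ) : ZMod r) := by
    intro r hr
    exact ((ZMod.intCast_eq_intCast_iff_dvd_sub E D r).2 (hr.trans h)).symm
  refine ⟨?_, ?_, ?_, ?_⟩
  · rw [← hc 3 (by norm_num)]; exact hD.h3
  · rw [← hc 5 (by norm_num)]; exact hD.h5
  · rw [← hc 7 (by norm_num)]; exact hD.h7
  · rw [← hc 13 (by norm_num)]; exact hD.h13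

lemma exists_val {T : ℕ} (hT : T ≠ 0) : ∃ n : ℕ, 13 ^ n ∣ T ∧ ¬ 13 ^ (n + 1) ∣ T := by
  have hfin : FiniteMultiplicity 13 T :=
    Nat.finiteMultiplicity_iff.2 ⟨by norm_num, Nat.pos_of_ne_zero hT⟩
  exact ⟨multiplicity 13 T, pow_multiplicity_dvd _ _,
    hfin.not_pow_dvd_of_multiplicity_lt (Nat.lt_succ_self _)⟩

end G4M

theorem t_GG4 : Stmt_GG4 := by
  intro hLTE hCR hH D s l p A m hQ hNr hRel hG
  obtain ⟨hs, hpT⟩ := hG
  subst hs
  have hA := hQ.A2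
  have hm := hQ.m1
  obtain ⟨T, hT⟩ : ∃ T, T = A - m := ⟨_, rfl⟩
  have hAT : A = m + T := by omega
  rw [← hT] at hpT
  obtain ⟨n, hn1, hn2⟩ := G4M.exists_val (T := T) (by omega)
  have hL : ((105 * 13 ^ (n + 1) : ℕ) : ℤ) ∣ p ^ T - 1 :=
    hLTE 105 p n T (by norm_num) hn1 (by exact_mod_cast hpT)
  have hL' : (105 * 13 ^ (n + 1) : ℤ) ∣ p ^ T - 1 := by exact_mod_cast hL
  have hcop := G4M.cop_of (by omega) hpT
  have hinv : (105 * 13 ^ (n + 1) : ℤ) ∣ p * p ^ (T - 1) - 1 := by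
    have e : p * p ^ (T - 1) = p ^ T := by rw [← pow_succ']; congr 1; omega
    rw [e]; exact hL'
  have hN : PSX.Nr (1 + 4 * l * p ^ m) := by
    refine G4M.nr_congr (D := D) ?_ hNr.nr
    have hl2 : l * l = 1 := by rcases hQ.l1 with h | h <;> rw [h] <;> norm_num
    rw [hQ.D1, hAT, pow_add]
    have e : (p ^ m * p ^ T + -1 * p ^ m - l * -1) ^ 2 + 4 * l * p ^ m - (1 + 4 * l * p ^ m)
      = (p ^ T - 1) * (p ^ m * (p ^ m * (p ^ T - 1) + 2 * l)) := by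
      linear_combination hl2
    rw [e]
    exact hpT.mul_right _
  obtain ⟨q0, e, e0, ψ, ine, hq, hF, he, hne⟩ := hCR n T 1 1 p (p ^ (T - 1)) (p ^ m) l m hQ.l1
    hn1 hn2 (G4M.pow12 hcop) hpT hinv (by rw [sub_self]; exact dvd_zero _) hN
  apply hne
  have hQN : ((QN 13 q0 n : ℕ) : ℤ) ∣ (105 * 13 ^ (n + 1) : ℤ) := by
    unfold QN
    push_cast
    exact mul_dvd_mul_right (by exact_mod_cast hq) _
  have h1 := hH q0 n e e0 ψ hF he l p (p ^ (T - 1)) A m hQ.l1 hm (by omega) (hQN.trans hinv)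
    (by rw [← hT]; exact hQN.trans hL')
  rw [← hT] at h1
  rw [← h1]
  exact hRel q0 n e e0 ψ (hq.trans (by unfold Q0; norm_num)) hF

end Pool.Agent.OEG.G
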