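import Pool.Agent.OEG.StG

/-!
# Project OEG: geometric progressions, type I
-/

set_option autoImplicit false

namespace Pool.Agent.OEG.G

open Finset (range)
open Pool.Agent.PSX (Es W sg nu ev Z0 EZ SX I0 I1 TT ED fb evZ v3 v5 v7)
open Pool.Agent.P4G (Fam QN FN FZ CR)

namespace GPM

/-- a sum over `range (w * K)`, by residues modulo `w` -/
theorem sum_mul {M : Type*} [AddCommMonoid M] (f : ℕ → M) (w : ℕ) : ∀ K : ℕ,
    ∑ x ∈ range (w * K), f x = ∑ i ∈ range K, ∑ j ∈ range w, f (w * i + j) := by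
  intro K
  induction K with
  | zero => simp
  | succ K ih => rw [Nat.mul_succ, Finset.sum_range_add, ih, Finset.sum_range_succ]

/-- a sum over a period does not depend on the starting point -/
theorem sum_shift {M : Type*} [AddCommGroup M] (f : ℕ → M) (w : ℕ) (hf : ∀ j, f (j + w) = f j) :
    ∀ s : ℕ, ∑ j ∈ range w, f (s + j) = ∑ j ∈ range w, f j := by
  intro s
  induction s with
  | zero => simp
  | succ s ih =>
    rw [← ih]
    have h1 := Finset.sum_range_succ (fun j => f (s + j)) w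
    have h2 := Finset.sum_range_succ' (fun j => f (s + j)) w
    rw [h1] at h2
    have h3 : f (s + w) = f (s + 0) := hf s
    rw [h3] at h2
    have h4 := add_right_cancel h2
    rw [h4]
    refine Finset.sum_congr rfl fun j _ => ?_
    congr 1
    ring

theorem per_mul {M : Type*} (f : ℕ → M) (w : ℕ) (hf : ∀ j, f (j + w) = f j) :
    ∀ i j : ℕ, f (w * i + j) = f j := by
  intro i j
  induction i with
  | zero => simp
  | succ i ih =>
    have : w * (i + 1) + j = (w * i + j) + w := by ring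
    rw [this, hf, ih]

/-- a multiple of `13^n` kills the elements that vanish modulo `13` -/
theorem kill (n : ℕ) (z : ZMod (13 ^ (n + 1)))
    (hz : ZMod.castHom (pow_dvd_pow 13 (Nat.succ_le_succ (Nat.zero_le n))) (ZMod (13 ^ (0 + 1))) z = 0) :
    ((13 ^ n : ℕ) : ZMod (13 ^ (n + 1))) * z = 0 := by
  obtain ⟨a, rfl⟩ := ZMod.intCast_surjective z
  rw [map_intCast, ZMod.intCast_zmod_eq_zero_iff_dvd] at hz
  obtain ⟨b, rfl⟩ := hz
  have h1 : (((13 ^ n : ℕ) : ZMod (13 ^ (n + 1))) * (((((13 ^ (0 + 1) : ℕ) : ℤ) * b : ℤ)) :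
      ZMod (13 ^ (n + 1)))) = (((13 ^ (n + 1) : ℕ) : ℤ) : ZMod (13 ^ (n + 1))) * (b : ZMod (13 ^ (n + 1))) := by
    push_cast
    ring
  rw [h1, Int.cast_natCast, ZMod.natCast_self, zero_mul]

end GPM

open GPM in
theorem t_GP1 (hBLI : Stmt_BLI) (hLVL : Stmt_LVL) (hTLQ : Stmt_TLQ) : Stmt_GP1 := by
  intro q0 n e e0 ψ hQ hF he α R β lam p pb s T hpb h12 hT hnT
  have hq0 : q0 ≠ 0 := by
    rintro rfl
    exact hQ.out (by simp [QN])
  rcases Nat.eq_zero_or_pos T with rfl | hTpos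
  · simp
  obtain ⟨hF0, hlv⟩ := hLVL 13 q0 n 0 e e0 ψ (Nat.zero_le n) hF
  have hN0 : NeZero (QN 13 q0 0) := ⟨by unfold QN; positivity⟩
  -- the period
  set w : ℕ := Nat.gcd 12 T with hw
  have hwpos : 0 < w := Nat.gcd_pos_of_pos_left _ (by norm_num)
  obtain ⟨m, hm⟩ : w ∣ 12 := Nat.gcd_dvd_left _ _
  obtain ⟨K, hK⟩ : w ∣ T := Nat.gcd_dvd_right _ _
  have hcop : Nat.Coprime (13 ^ n) w :=
    Nat.Coprime.pow_left _ (Nat.Coprime.coprime_dvd_right ⟨m, hm⟩ (by norm_num))
  obtain ⟨k, hk⟩ : 13 ^ n ∣ K := by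
    rw [hK] at hnT
    exact hcop.dvd_of_dvd_mul_left hnT
  have hpw : ((q0 * 13 : ℕ) : ℤ) ∣ p ^ w - 1 := by
    have h1 : ∀ a : ℕ, (((q0 * 13 : ℕ) : ℤ) ∣ p ^ a - 1 ↔ (p : ZMod (q0 * 13)) ^ a = 1) := by
      intro a
      rw [← ZMod.intCast_zmod_eq_zero_iff_dvd]
      push_cast
      exact sub_eq_zero
    rw [h1] at h12 hT ⊢
    rw [← orderOf_dvd_iff_pow_eq_one] at h12 hT ⊢
    exact Nat.dvd_gcd h12 hT
  have hQw : ((q0 * 13 : ℕ) : ℤ) ∣ ((QN 13 q0 n : ℕ) : ℤ) := by
    unfold QN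
    exact_mod_cast mul_dvd_mul_left q0 (dvd_pow_self 13 (Nat.succ_ne_zero n))
  have hQ0 : QN 13 q0 0 = q0 * 13 := by unfold QN; norm_num
  have hpbw : ((q0 * 13 : ℕ) : ℤ) ∣ pb ^ w - 1 := by
    have h1 : ((q0 * 13 : ℕ) : ℤ) ∣ (p * pb) ^ w - 1 := by
      refine (hQw.trans hpb).trans ?_
      have := sub_dvd_pow_sub_pow (p * pb) 1 w
      rwa [one_pow] at this
    have h2 : pb ^ w - 1 = ((p * pb) ^ w - 1) - (p ^ w - 1) * pb ^ w := by
      rw [mul_pow]
      ring
    rw [h2]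
    exact dvd_sub h1 (Dvd.dvd.mul_right hpw _)
  -- blocks
  have hblk : ∀ j, ∑ i ∈ range K, Ge q0 n e ψ α R β lam p pb (s + (w * i + j)) =
      (K : ZMod (13 ^ (n + 1))) * Ge q0 n e ψ α R β lam p pb (s + j) := by
    intro j
    have h1 := hBLI 13 q0 n e e0 ψ hF (by omega) (p ^ w) R
      (fun i => α * p ^ (s + (w * i + j))) (fun i => β * pb ^ (s + (w * i + j)))
      (fun i => lam * p ^ (s + (w * i + j))) hpw
      (fun i => by
        have : α * p ^ (s + (w * (i + 1) + j)) - p ^ w * (α * p ^ (s + (w * i + j))) = 0 := by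
          rw [show s + (w * (i + 1) + j) = w + (s + (w * i + j)) by ring, pow_add]
          ring
        simp only [this, dvd_zero])
      (fun i => by
        have h2 : p ^ w * (β * pb ^ (s + (w * (i + 1) + j))) - β * pb ^ (s + (w * i + j)) =
            ((p * pb) ^ w - 1) * (β * pb ^ (s + (w * i + j))) := by
          rw [show s + (w * (i + 1) + j) = w + (s + (w * i + j)) by ring, pow_add, mul_pow]
          ring
        show _ ∣ p ^ w * (β * pb ^ (s + (w * (i + 1) + j))) - β * pb ^ (s + (w * i + j))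
        rw [h2]
        refine Dvd.dvd.mul_right (hpb.trans ?_) _
        have := sub_dvd_pow_sub_pow (p * pb) 1 w
        rwa [one_pow] at this)
      (fun i => by
        have : lam * p ^ (s + (w * (i + 1) + j)) - p ^ w * (lam * p ^ (s + (w * i + j))) = 0 := by
          rw [show s + (w * (i + 1) + j) = w + (s + (w * i + j)) by ring, pow_add]
          ring
        simp only [this, dvd_zero]) k
    rw [← hk] at h1
    have h3 : s + (w * 0 + j) = s + j := by ring
    simp only [h3] at h1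
    exact h1
  -- the sum over the progression
  have hsum : ∑ j ∈ range T, Ge q0 n e ψ α R β lam p pb (s + j) =
      (K : ZMod (13 ^ (n + 1))) * ∑ j ∈ range w, Ge q0 n e ψ α R β lam p pb (s + j) := by
    rw [hK, sum_mul (fun j => Ge q0 n e ψ α R β lam p pb (s + j)) w K, Finset.sum_comm,
      Finset.mul_sum]
    exact Finset.sum_congr rfl fun j _ => hblk j
  -- periodicity modulo thirteen
  set π := ZMod.castHom (pow_dvd_pow 13 (Nat.succ_le_succ (Nat.zero_le n))) (ZMod (13 ^ (0 + 1)))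
    with hπ
  have hper : ∀ j, π (Ge q0 n e ψ α R β lam p pb (j + w)) = π (Ge q0 n e ψ α R β lam p pb j) := by
    intro j
    unfold Ge
    rw [hlv, hlv]
    have e1 : ((α * p ^ (j + w) : ℤ) : ZMod (QN 13 q0 0)) = ((α * p ^ j : ℤ) : ZMod (QN 13 q0 0)) := by
      rw [← sub_eq_zero, ← Int.cast_sub, ZMod.intCast_zmod_eq_zero_iff_dvd, hQ0]
      have : α * p ^ (j + w) - α * p ^ j = (p ^ w - 1) * (α * p ^ j) := by
        rw [pow_add]; ring
      rw [this]
      exact Dvd.dvd.mul_right hpw _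
    have e2 : ((β * pb ^ (j + w) : ℤ) : ZMod (QN 13 q0 0)) =
        ((β * pb ^ j : ℤ) : ZMod (QN 13 q0 0)) := by
      rw [← sub_eq_zero, ← Int.cast_sub, ZMod.intCast_zmod_eq_zero_iff_dvd, hQ0]
      have : β * pb ^ (j + w) - β * pb ^ j = (pb ^ w - 1) * (β * pb ^ j) := by
        rw [pow_add]; ring
      rw [this]
      exact Dvd.dvd.mul_right hpbw _
    rw [e1, e2]
    refine hTLQ 13 q0 0 e e0 ψ hF0 (by omega) _ _ _ _ _ ?_
    rw [hQ0]
    have : lam * p ^ (j + w) - lam * p ^ j = (p ^ w - 1) * (lam * p ^ j) := by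
      rw [pow_add]; ring
    rw [this]
    exact Dvd.dvd.mul_right hpw _
  -- the two sums agree modulo thirteen
  have hz : π (12 * ∑ j ∈ range w, Ge q0 n e ψ α R β lam p pb (s + j) -
      (w : ZMod (13 ^ (n + 1))) * ∑ j ∈ range 12, Ge q0 n e ψ α R β lam p pb j) = 0 := by
    have h1 : ∑ j ∈ range w, π (Ge q0 n e ψ α R β lam p pb (s + j)) =
        ∑ j ∈ range w, π (Ge q0 n e ψ α R β lam p pb j) :=
      sum_shift (fun j => π (Ge q0 n e ψ α R β lam p pb j)) w hper s
    have h2 : ∑ j ∈ range 12, π (Ge q0 n e ψ α R β lam p pb j) =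
        (m : ZMod (13 ^ (0 + 1))) * ∑ j ∈ range w, π (Ge q0 n e ψ α R β lam p pb j) := by
      conv_lhs => rw [hm]
      rw [sum_mul (fun j => π (Ge q0 n e ψ α R β lam p pb j)) w m]
      simp only [per_mul (fun j => π (Ge q0 n e ψ α R β lam p pb j)) w hper]
      rw [Finset.sum_const, Finset.card_range, nsmul_eq_mul]
    have h3 : ((12 : ℕ) : ZMod (13 ^ (0 + 1))) = (w : ZMod (13 ^ (0 + 1))) * m := by
      rw [hm]; push_cast; ring
    rw [map_sub, map_mul, map_mul, map_sum, map_sum, h1, h2, map_natCast, map_ofNat]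
    have h4 : (12 : ZMod (13 ^ (0 + 1))) = (w : ZMod (13 ^ (0 + 1))) * m := by
      rw [← h3]; norm_num
    rw [h4]
    ring
  have hkill := kill n _ hz
  rw [hsum]
  have h5 : (T : ZMod (13 ^ (n + 1))) = (w : ZMod (13 ^ (n + 1))) * K := by
    conv_lhs => rw [hK]
    push_cast
    ring
  have h6 : (K : ZMod (13 ^ (n + 1))) = ((13 ^ n : ℕ) : ZMod (13 ^ (n + 1))) * k := by
    rw [hk]; push_cast; ring
  rw [h5, h6]
  rw [← sub_eq_zero]
  have h7 : 12 * (((13 ^ n : ℕ) : ZMod (13 ^ (n + 1))) * k *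
        ∑ j ∈ range w, Ge q0 n e ψ α R β lam p pb (s + j)) -
      (w : ZMod (13 ^ (n + 1))) * (((13 ^ n : ℕ) : ZMod (13 ^ (n + 1))) * k) *
        ∑ j ∈ range 12, Ge q0 n e ψ α R β lam p pb j =
      k * (((13 ^ n : ℕ) : ZMod (13 ^ (n + 1))) *
        (12 * ∑ j ∈ range w, Ge q0 n e ψ α R β lam p pb (s + j) -
        (w : ZMod (13 ^ (n + 1))) * ∑ j ∈ range 12, Ge q0 n e ψ α R β lam p pb j)) := by
    ring
  rw [h7, hkill, mul_zero]

end Pool.Agent.OEG.G
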