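import Pool.Agent.OEG.StG

/-!
# Geometric progressions, any family (module GP2 of project OEG)
-/

set_option autoImplicit false

namespace Pool.Agent.OEG.G

open Finset (range)
open Pool.Agent.PSX (Es W sg nu ev Z0 EZ SX I0 I1 TT ED fb evZ v3 v5 v7)
open Pool.Agent.P4G (Fam QN FN FZ CR)
open Pool.Agent.Lib_helper5.LK (Fm)

namespace GP2aux

theorem sum_split {M : Type*} [AddCommMonoid M] (f : ℕ → M) (w K : ℕ) :
    ∑ j ∈ range (w * K), f j = ∑ j ∈ range w, ∑ i ∈ range K, f (j + w * i) := by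
  induction K with
  | zero => simp
  | succ K ih =>
    rw [Nat.mul_succ, Finset.sum_range_add, ih]
    rw [← Finset.sum_add_distrib]
    refine Finset.sum_congr rfl fun j _ => ?_
    rw [Finset.sum_range_succ, Nat.add_comm (w * K) j]

theorem dvd_gcd_pow {m : ℕ} {p : ℤ} {a b : ℕ} (ha : ((m : ℕ) : ℤ) ∣ p ^ a - 1)
    (hb : ((m : ℕ) : ℤ) ∣ p ^ b - 1) : ((m : ℕ) : ℤ) ∣ p ^ (a.gcd b) - 1 := by
  have key : ∀ c : ℕ, ((m : ℕ) : ℤ) ∣ p ^ c - 1 ↔ ((p : ZMod m)) ^ c = 1 := by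
    intro c
    rw [← ZMod.intCast_zmod_eq_zero_iff_dvd]
    push_cast
    rw [sub_eq_zero]
  rw [key] at ha hb ⊢
  rw [← orderOf_dvd_iff_pow_eq_one] at ha hb ⊢
  exact Nat.dvd_gcd ha hb

end GP2aux

open GP2aux in
theorem t_GP2 (hB : Stmt_BL2) : Stmt_GP2 := by
  intro q0 n e e0 ψ _ hF α R β lam p pb s T hpp h12 hT hdvd
  set w := Nat.gcd 12 T with hw
  obtain ⟨K, hK⟩ : w ∣ T := Nat.gcd_dvd_right 12 T
  have hcop : Nat.Coprime (13 ^ (n + 1)) w := by
    refine Nat.Coprime.pow_left _ ?_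
    exact Nat.Coprime.coprime_dvd_right (Nat.gcd_dvd_left 12 T) (by norm_num)
  obtain ⟨k, hk⟩ : 13 ^ (n + 1) ∣ K := by
    rw [hK] at hdvd
    exact hcop.dvd_of_dvd_mul_left hdvd
  have hg : ((q0 * 13 : ℕ) : ℤ) ∣ p ^ w - 1 := dvd_gcd_pow h12 hT
  rw [hK, sum_split]
  refine Finset.sum_eq_zero fun j0 _ => ?_
  have h := hB 13 q0 n e e0 ψ hF (p ^ w) R (fun i => α * p ^ (s + (j0 + w * i)))
    (fun i => β * pb ^ (s + (j0 + w * i))) (fun i => lam * p ^ (s + (j0 + w * i))) hg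
    (fun i => by
      show ((QN 13 q0 n : ℕ) : ℤ) ∣ α * p ^ (s + (j0 + w * (i + 1))) -
        p ^ w * (α * p ^ (s + (j0 + w * i)))
      rw [show s + (j0 + w * (i + 1)) = w + (s + (j0 + w * i)) by ring, pow_add]
      ring_nf
      exact dvd_zero _)
    (fun i => by
      show ((QN 13 q0 n : ℕ) : ℤ) ∣ p ^ w * (β * pb ^ (s + (j0 + w * (i + 1)))) -
        β * pb ^ (s + (j0 + w * i))
      have e1 : p ^ w * (β * pb ^ (s + (j0 + w * (i + 1)))) - β * pb ^ (s + (j0 + w * i)) =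
          ((p * pb) ^ w - 1) * (β * pb ^ (s + (j0 + w * i))) := by
        rw [show s + (j0 + w * (i + 1)) = w + (s + (j0 + w * i)) by ring, pow_add, mul_pow]
        ring
      rw [e1]
      exact Dvd.dvd.mul_right (hpp.trans (sub_one_dvd_pow_sub_one (p * pb) w)) _)
    (fun i => by
      show ((QN 13 q0 n * 13 : ℕ) : ℤ) ∣ lam * p ^ (s + (j0 + w * (i + 1))) -
        p ^ w * (lam * p ^ (s + (j0 + w * i)))
      rw [show s + (j0 + w * (i + 1)) = w + (s + (j0 + w * i)) by ring, pow_add]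
      ring_nf
      exact dvd_zero _) k
  rw [← hk] at h
  exact h

end Pool.Agent.OEG.G
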