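import Pool.Agent.OEG.H1I

/-!
# Module H12 (helper4): the first ghost, second order step
-/

set_option autoImplicit false

namespace Pool.Agent.OEG.G

open Finset (range)
open Pool.Agent.PSX (Es W sg nu ev Z0 EZ SX I0 I1 TT ED fb evZ)
open Pool.Agent.P4G (Fam QN FN FZ CR)
open Pool.Agent.Lib_helper5.LK (Fm)

namespace H1M

lemma lsum {M : Type*} [AddCommMonoid M] (f : ℕ → M) (k : ℕ) :
    ((List.range k).map f).sum = ∑ j ∈ range k, f j := by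
  induction k with
  | zero => simp
  | succ k ih =>
    rw [List.range_succ, List.map_append, List.sum_append, ih, Finset.sum_range_succ]
    simp

lemma one_add_pow (a : ℤ) (n : ℕ) : ∃ t : ℤ, (1 + a) ^ n = 1 + n * a + a ^ 2 * t := by
  induction n with
  | zero => exact ⟨0, by simp⟩
  | succ n ih =>
    obtain ⟨t, ht⟩ := ih
    refine ⟨t + n + a * t, ?_⟩
    rw [pow_succ, ht]
    push_cast
    ring

/-- an edge whose letter is known modulo `l Q` -/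
lemma Es_second (hSYE : Stmt_SYE) (hLQL : Stmt_LQL) {l q0 n e e0 : ℕ} {ψ : ℤ → ℤ}
    [NeZero (QN l q0 n)] (hFm : PSX.Fm l q0 n e e0 ψ) {σ : ℤ} (hσ : σ = 1 ∨ σ = -1)
    {P R S c t P' R' S' c' : ℤ}
    (hP : ((QN l q0 n : ℕ) : ℤ) ∣ P' - σ * P) (hR : ((QN l q0 n : ℕ) : ℤ) ∣ R' - R)
    (hS : ((QN l q0 n : ℕ) : ℤ) ∣ S' - σ * S)
    (hc : ((QN l q0 n * l : ℕ) : ℤ) ∣ c' - σ * (c + (QN l q0 n : ℕ) * t)) :
    Es (FZ l q0 n e ψ) (P' : ZMod (QN l q0 n)) (R' : ZMod (QN l q0 n)) (S' : ZMod (QN l q0 n)) c'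
      = Es (FZ l q0 n e ψ) (P : ZMod (QN l q0 n)) (R : ZMod (QN l q0 n)) (S : ZMod (QN l q0 n)) c
        + 2 * (t : ZMod (l ^ (n + 1))) * SX (QN l q0 n) (I0 l q0 n e ψ P R S) := by
  rw [cast_eq hP, cast_eq hR, cast_eq hS]
  rw [(hLQL l q0 n e e0 ψ hFm (σ * P) R (σ * S) (σ * (c + (QN l q0 n : ℕ) * t))).1 c' hc,
    Es_sign hSYE hFm hσ, (hLQL l q0 n e e0 ψ hFm P R S c).2.1 t]

lemma sum_sq (m : ℕ) : ∑ j ∈ range (m + 1), (j : ℤ) + ∑ j ∈ range m, (j : ℤ) = (m : ℤ) ^ 2 := by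
  induction m with
  | zero => simp
  | succ m ih =>
    rw [Finset.sum_range_succ _ (m + 1), Finset.sum_range_succ _ m]
    rw [Finset.sum_range_succ _ m] at ih
    push_cast
    linarith

/-- the sum of all edges to second order -/
lemma EJ_second (hSYE : Stmt_SYE) (hLQL : Stmt_LQL) {q0 n e e0 : ℕ} {ψ : ℤ → ℤ}
    [NeZero (QN 13 q0 n)] (hFm : PSX.Fm 13 q0 n e e0 ψ) {l u p q b π β : ℤ}
    (hl : OEX.Sg l) (hu : OEX.Sg u) (m : ℕ) (hp : p = u * l + (QN 13 q0 n : ℕ) * π)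
    (hb : b = (QN 13 q0 n : ℕ) * β) :
    EJ (FZ 13 q0 n e ψ) (J1 l u p q b m) = ((2 * m + 1 : ℕ) : ZMod (13 ^ (n + 1))) *
      Es (FZ 13 q0 n e ψ) ((1 : ℤ) : ZMod (QN 13 q0 n))
        ((q * (u * l) ^ m : ℤ) : ZMod (QN 13 q0 n)) ((l * (u * l) ^ m : ℤ) : ZMod (QN 13 q0 n))
        (l * (u * l) ^ m * (q * (u * l) ^ m)) +
      2 * SX (QN 13 q0 n) (I0 13 q0 n e ψ 1 (q * (u * l) ^ m) (l * (u * l) ^ m)) *
        ((u * q * π * (m : ℤ) ^ 2 + l * (u * l) ^ m * β : ℤ) : ZMod (13 ^ (n + 1))) := by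
  obtain ⟨ε, hε⟩ : ∃ ε : ℤ, ε = u * l := ⟨_, rfl⟩
  have hε1 : ε = 1 ∨ ε = -1 := by rw [hε]; exact sg_mul hu hl
  have hll : l * l = 1 := sq_one hl
  have hee : ε * ε = 1 := sq_one hε1
  have hu' : u = ε * l := by rw [hε]; linear_combination (-u) * hll
  rw [← hε] at hp ⊢
  obtain ⟨Q, hQ⟩ : ∃ Q : ℤ, Q = ((QN 13 q0 n : ℕ) : ℤ) := ⟨_, rfl⟩
  have hQ13 : ((QN 13 q0 n * 13 : ℕ) : ℤ) ∣ Q ^ 2 := by
    rw [hQ]
    refine ⟨((q0 * 13 ^ n : ℕ) : ℤ), ?_⟩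
    unfold QN
    push_cast
    ring
  have hpd : ((QN 13 q0 n : ℕ) : ℤ) ∣ p - ε := ⟨π, by rw [hp]; ring⟩
  have hbd : ((QN 13 q0 n : ℕ) : ℤ) ∣ b := ⟨β, hb⟩
  rw [← hQ] at hp hb
  set E := Es (FZ 13 q0 n e ψ) ((1 : ℤ) : ZMod (QN 13 q0 n))
        ((q * ε ^ m : ℤ) : ZMod (QN 13 q0 n)) ((l * ε ^ m : ℤ) : ZMod (QN 13 q0 n))
        (l * ε ^ m * (q * ε ^ m)) with hE
  set T := SX (QN 13 q0 n) (I0 13 q0 n e ψ 1 (q * ε ^ m) (l * ε ^ m)) with hT
  have e2 : ∀ k : ℕ, ε ^ k * ε ^ k = 1 := by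
    intro k; rw [← mul_pow, hee, one_pow]
  have hpow : ∀ j : ℕ, ∃ t : ℤ, p ^ j = ε ^ j * (1 + j * (ε * Q * π) + Q ^ 2 * t) := by
    intro j
    obtain ⟨t, ht⟩ := one_add_pow (ε * Q * π) j
    refine ⟨ε ^ 2 * π ^ 2 * t, ?_⟩
    have e1 : p = ε * (1 + ε * Q * π) := by
      rw [hp]; linear_combination (-(Q * π)) * hee
    rw [e1, mul_pow, ht]
    ring
  have h1 : ∀ j < m + 1, Es (FZ 13 q0 n e ψ) ((p ^ j : ℤ) : ZMod (QN 13 q0 n))
      ((q * p ^ m + b : ℤ) : ZMod (QN 13 q0 n)) ((-(-(l * p ^ (m - j))) : ℤ) : ZMod (QN 13 q0 n))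
      (- -(c1 l p q b m j)) = E + 2 *
        ((u * q * π * (j : ℤ) + (if j = m then l * ε ^ m * β else 0) : ℤ) : ZMod (13 ^ (n + 1))) *
        T := by
    intro j hj
    have hpj := pow_congr hpd j
    have hpm := pow_congr hpd m
    have hpmj := pow_congr hpd (m - j)
    have e3 : ε ^ (m - j) = ε ^ m * ε ^ j := by
      have h4 : ε ^ (m - j) * ε ^ j = ε ^ m := by rw [← pow_add]; congr 1; omega
      linear_combination (ε ^ j) * h4 - (ε ^ (m - j)) * e2 j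
    apply Es_second hSYE hLQL hFm (sg_pow hε1 j)
    · rw [mul_one]; exact hpj
    · have h5 := dvd_add (hpm.mul_left q) hbd
      have e4 : q * (p ^ m - ε ^ m) + b = q * p ^ m + b - q * ε ^ m := by ring
      rwa [e4] at h5
    · have h5 := hpmj.mul_left l
      have e4 : l * (p ^ (m - j) - ε ^ (m - j)) = - -(l * p ^ (m - j)) - ε ^ j * (l * ε ^ m) := by
        rw [e3]; ring
      rwa [e4] at h5
    · obtain ⟨t, ht⟩ := hpow j
      rw [← hQ]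
      unfold c1
      have h6 := hQ13.mul_right (l * q * ε ^ j * t)
      split_ifs with hjm
      · subst hjm
        have e4 : Q ^ 2 * (l * q * ε ^ j * t) = - -(l * q * p ^ j + l * b) -
            ε ^ j * (l * ε ^ j * (q * ε ^ j) + Q * (u * q * π * (j : ℤ) + l * ε ^ j * β)) := by
          rw [ht, hb, hu']
          linear_combination (l * q * ε ^ j + l * Q * β) * e2 j
        rwa [e4] at h6
      · have e4 : Q ^ 2 * (l * q * ε ^ j * t) = - -(l * q * p ^ j + 0) -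
            ε ^ j * (l * ε ^ m * (q * ε ^ m) + Q * (u * q * π * (j : ℤ) + 0)) := by
          rw [ht, hu']
          linear_combination (l * q * ε ^ j) * e2 m
        rwa [e4] at h6
  have h2 : ∀ j < m, Es (FZ 13 q0 n e ψ) ((p ^ (j + 1) : ℤ) : ZMod (QN 13 q0 n))
      ((q * p ^ m - b : ℤ) : ZMod (QN 13 q0 n)) ((-(-(u * p ^ (m - j))) : ℤ) : ZMod (QN 13 q0 n))
      (- -(u * q * p ^ j)) = E + 2 * ((u * q * π * (j : ℤ) : ℤ) : ZMod (13 ^ (n + 1))) * T := by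
    intro j hj
    have hpj := pow_congr hpd j
    have hpj1 := pow_congr hpd (j + 1)
    have hpm := pow_congr hpd m
    have hpmj := pow_congr hpd (m - j)
    have e3 : ε ^ (m - j) = ε ^ m * ε ^ j := by
      have h4 : ε ^ (m - j) * ε ^ j = ε ^ m := by rw [← pow_add]; congr 1; omega
      linear_combination (ε ^ j) * h4 - (ε ^ (m - j)) * e2 j
    apply Es_second hSYE hLQL hFm (sg_pow hε1 (j + 1))
    · rw [mul_one]; exact hpj1
    · have h5 := dvd_sub (hpm.mul_left q) hbd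
      have e4 : q * (p ^ m - ε ^ m) - b = q * p ^ m - b - q * ε ^ m := by ring
      rwa [e4] at h5
    · have h5 := hpmj.mul_left u
      have e4 : u * (p ^ (m - j) - ε ^ (m - j)) =
          - -(u * p ^ (m - j)) - ε ^ (j + 1) * (l * ε ^ m) := by
        rw [e3, hu']; ring
      rwa [e4] at h5
    · obtain ⟨t, ht⟩ := hpow j
      rw [← hQ]
      have h6 := hQ13.mul_right (u * q * ε ^ j * t)
      have e4 : Q ^ 2 * (u * q * ε ^ j * t) = - -(u * q * p ^ j) -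
          ε ^ (j + 1) * (l * ε ^ m * (q * ε ^ m) + Q * (u * q * π * (j : ℤ))) := by
        rw [ht, hu']
        linear_combination (l * q * ε ^ (j + 1)) * e2 m
      rwa [e4] at h6
  unfold EJ J1
  rw [List.map_append, List.sum_append, List.map_map, List.map_map, lsum, lsum]
  have s1 : ∑ j ∈ range (m + 1), ((fun j : Fm => Es (FZ 13 q0 n e ψ)
      (j.P : ZMod (QN 13 q0 n)) (j.R : ZMod (QN 13 q0 n)) ((-j.S : ℤ) : ZMod (QN 13 q0 n)) (-j.α)) ∘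
      fun j => (⟨p ^ j, q * p ^ m + b, -(l * p ^ (m - j)), 3, -(c1 l p q b m j)⟩ : Fm)) j =
      ∑ j ∈ range (m + 1), (E + 2 * ((u * q * π * (j : ℤ) + (if j = m then l * ε ^ m * β else 0) : ℤ) :
        ZMod (13 ^ (n + 1))) * T) :=
    Finset.sum_congr rfl fun j hj => h1 j (Finset.mem_range.1 hj)
  have s2 : ∑ j ∈ range m, ((fun j : Fm => Es (FZ 13 q0 n e ψ)
      (j.P : ZMod (QN 13 q0 n)) (j.R : ZMod (QN 13 q0 n)) ((-j.S : ℤ) : ZMod (QN 13 q0 n)) (-j.α)) ∘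
      fun j => (⟨p ^ (j + 1), q * p ^ m - b, -(u * p ^ (m - j)), 3, -(u * q * p ^ j)⟩ : Fm)) j =
      ∑ j ∈ range m, (E + 2 * ((u * q * π * (j : ℤ) : ℤ) : ZMod (13 ^ (n + 1))) * T) :=
    Finset.sum_congr rfl fun j hj => h2 j (Finset.mem_range.1 hj)
  rw [s1, s2, Finset.sum_add_distrib, Finset.sum_add_distrib, Finset.sum_const, Finset.sum_const,
    Finset.card_range, Finset.card_range, nsmul_eq_mul, nsmul_eq_mul]
  rw [← Finset.sum_mul, ← Finset.sum_mul, ← Finset.mul_sum, ← Finset.mul_sum, ← Int.cast_sum,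
    ← Int.cast_sum, Finset.sum_add_distrib, ← Finset.mul_sum, ← Finset.mul_sum,
    Finset.sum_ite_eq' (range (m + 1)) m, if_pos (Finset.self_mem_range_succ m)]
  have e5 := congrArg (Int.cast : ℤ → ZMod (13 ^ (n + 1))) (sum_sq m)
  push_cast at e5 ⊢
  linear_combination (2 * (u : ZMod (13 ^ (n + 1))) * q * π * T) * e5

lemma two_dvd {x : ℤ} (h : (13 : ℤ) ∣ 4 * x) : (13 : ℤ) ∣ x := by omega

/-- the conclusion for the quotients -/
lemma step_arith {l u q π β D' : ℤ} {m : ℕ} (hl : OEX.Sg l) (hu : OEX.Sg u)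
    (hqβ : q * β = u * π) (hm : (13 : ℤ) ∣ 2 * (m : ℤ) + 1)
    (hX : (13 : ℤ) ∣ u * q * π * (m : ℤ) ^ 2 + l * (u * l) ^ m * β)
    (hD' : D' = (q * (u * l) ^ m) ^ 2 + 4 * (l * (u * l) ^ m)) (hN : ((D' : ℤ) : ZMod 13) ^ 6 = -1) :
    (13 : ℤ) ∣ π ∧ (13 : ℤ) ∣ β := by
  have hp13 : Prime (13 : ℤ) := Int.prime_iff_natAbs_prime.2 (by norm_num)
  have hε1 : (u * l) ^ m = 1 ∨ (u * l) ^ m = -1 := sg_pow (sg_mul hu hl) m
  generalize (u * l) ^ m = η at *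
  have hη : η * η = 1 := sq_one hε1
  have hl2 : l * l = 1 := sq_one hl
  have hu2 : u * u = 1 := sq_one hu
  have hND : ¬ (13 : ℤ) ∣ D' := by
    intro h
    have h0 : ((D' : ℤ) : ZMod 13) = 0 := (ZMod.intCast_zmod_eq_zero_iff_dvd D' 13).2 (by exact_mod_cast h)
    rw [h0] at hN
    revert hN
    decide
  -- `4 q X = u π (4 m² q² + 4 s)`
  have h1 : (13 : ℤ) ∣ π * D' := by
    have h2 : (13 : ℤ) ∣ u * π * (4 * (m : ℤ) ^ 2 * q ^ 2 + 4 * (l * η)) := by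
      have h3 := hX.mul_left (4 * q)
      have e : 4 * q * (u * q * π * (m : ℤ) ^ 2 + l * η * β) =
          u * π * (4 * (m : ℤ) ^ 2 * q ^ 2 + 4 * (l * η)) := by
        linear_combination (4 * l * η) * hqβ
      rwa [e] at h3
    have h4 : (13 : ℤ) ∣ u * π * (q ^ 2 * (4 * (m : ℤ) ^ 2 - 1)) := by
      have e : 4 * (m : ℤ) ^ 2 - 1 = (2 * m + 1) * (2 * m - 1) := by ring
      rw [e]
      exact ((hm.mul_right _).mul_left _).mul_left _
    have h5 := (dvd_sub h2 h4).mul_left u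
    have e : u * (u * π * (4 * (m : ℤ) ^ 2 * q ^ 2 + 4 * (l * η)) -
        u * π * (q ^ 2 * (4 * (m : ℤ) ^ 2 - 1))) = π * D' := by
      rw [hD']
      linear_combination (π * (q ^ 2 + 4 * (l * η))) * hu2 - π * q ^ 2 * hη
    rwa [e] at h5
  have hπ : (13 : ℤ) ∣ π := (hp13.dvd_or_dvd h1).resolve_right hND
  refine ⟨hπ, ?_⟩
  have h6 : (13 : ℤ) ∣ q * β := by rw [hqβ]; exact hπ.mul_left u
  refine (hp13.dvd_or_dvd h6).resolve_left ?_
  intro hq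
  have h7 : ((D' : ℤ) : ZMod 13) = ((4 * (l * η) : ℤ) : ZMod 13) := by
    apply cast_eq
    have h8 := hq.mul_right (q * η ^ 2)
    have e : q * (q * η ^ 2) = D' - 4 * (l * η) := by rw [hD']; ring
    rw [e] at h8
    exact_mod_cast h8
  rw [h7] at hN
  have h9 : l * η = 1 ∨ l * η = -1 := sg_mul hl hε1
  rcases h9 with h9 | h9 <;> rw [h9] at hN <;> revert hN <;> decide

end H1M

theorem t_H12 (hSYE : Stmt_SYE) (hLQL : Stmt_LQL) (hVAN : PSX.Stmt_VAN) (hFAM : PSX.Stmt_FAM) :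
    Stmt_H12 := by
  intro D l u p q b m n hP hNr hRel hp hb hm
  obtain ⟨e, ψ, hFm, -, -, hCR⟩ := hFAM.1 n
  have hne : NeZero (QN 13 15 n) := hFm.fam.ne
  have h1 := hRel 15 n e 11 ψ (by unfold Q0; norm_num) hFm
  obtain ⟨π, hπ⟩ := H1M.sub_dvd (a := 15) _ n hp (by norm_num)
  obtain ⟨β, hβ⟩ := H1M.sub_dvd (a := 15) _ n hb (by norm_num)
  have hQN : ((QN 13 15 n : ℕ) : ℤ) = ((15 * 13 ^ (n + 1) : ℕ) : ℤ) := rfl
  rw [← hQN] at hπ hβ
  have hll := H1M.sq_one hP.l1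
  have huu := H1M.sq_one hP.u1
  have hpe : p = u * l + (QN 13 15 n : ℕ) * π := by linarith
  rw [H1M.EJ_second hSYE hLQL hFm hP.l1 hP.u1 m hpe hβ] at h1
  have h2 : ((2 * m + 1 : ℕ) : ZMod (13 ^ (n + 1))) = 0 := (ZMod.natCast_eq_zero_iff _ _).2 hm
  rw [h2, zero_mul, zero_add] at h1
  have hQ0 : ((QN 13 15 n : ℕ) : ℤ) ≠ 0 := by
    exact_mod_cast NeZero.ne (QN 13 15 n)
  have hqβ : q * β = u * π := by
    apply mul_left_cancel₀ hQ0
    have := hP.qb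
    linear_combination this - q * hβ + u * hπ + l * huu
  have hεm := H1M.sg_pow (H1M.sg_mul hP.u1 hP.l1) m
  have hs : OEX.Sg (l * (u * l) ^ m) := H1M.sg_mul hP.l1 hεm
  -- the discriminant
  have h105 : (1365 : ℤ) ∣ (105 * 13 ^ (n + 1) : ℤ) := ⟨13 ^ n, by rw [pow_succ]; ring⟩
  have hD0 := H1M.disc_congr hP.l1 hP.u1 hP.D1 (h105.trans hp) (h105.trans hb)
  have hNr' : PSX.Nr ((q * (u * l) ^ m) ^ 2 + 4 * (l * (u * l) ^ m)) := by
    have hc : ∀ r : ℕ, (r : ℤ) ∣ 1365 → ((D : ℤ) : ZMod r) =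
        (((q * (u * l) ^ m) ^ 2 + 4 * (l * (u * l) ^ m) : ℤ) : ZMod r) :=
      fun r hr => H1M.cast_eq (hr.trans hD0)
    have := hNr.nr
    refine ⟨?_, ?_, ?_, ?_⟩
    · rw [← hc 3 (by norm_num)]; exact this.h3
    · rw [← hc 5 (by norm_num)]; exact this.h5
    · rw [← hc 7 (by norm_num)]; exact this.h7
    · rw [← hc 13 (by norm_num)]; exact this.h13
  have hX : (13 : ℤ) ∣ u * q * π * (m : ℤ) ^ 2 + l * (u * l) ^ m * β := by
    apply hVAN 13 15 n e ψ hFm.fam 1 (q * (u * l) ^ m) (l * (u * l) ^ m) _ ?_ ?_ h1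
    · rcases hs with h | h <;> rw [h]
      · exact isCoprime_one_left
      · exact isCoprime_one_left.neg_left
    · have e1 : (q * (u * l) ^ m) ^ 2 + 4 * 1 * (l * (u * l) ^ m) =
          (q * (u * l) ^ m) ^ 2 + 4 * (l * (u * l) ^ m) := by ring
      rw [e1]
      exact hCR _ hNr'
  have h13m : (13 : ℤ) ∣ 2 * (m : ℤ) + 1 := by
    have : (13 : ℕ) ∣ 2 * m + 1 := (dvd_pow_self 13 (Nat.succ_ne_zero n)).trans hm
    exact_mod_cast this
  obtain ⟨c1, c2⟩ := H1M.step_arith hP.l1 hP.u1 hqβ h13m hX rfl hNr'.h13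
  have fin : ∀ x y : ℤ, (105 * 13 ^ (n + 1) : ℤ) ∣ x → x = ((QN 13 15 n : ℕ) : ℤ) * y →
      (13 : ℤ) ∣ y → (105 * 13 ^ (n + 2) : ℤ) ∣ x := by
    intro x y hx hxy hy
    obtain ⟨z, rfl⟩ := hy
    have a1 : (((13 ^ (n + 2) * 15 : ℕ)) : ℤ) ∣ x := by
      refine ⟨z, ?_⟩
      rw [hxy]
      unfold QN
      push_cast
      ring
    have a2 : ((7 : ℕ) : ℤ) ∣ x := by
      refine dvd_trans ⟨15 * 13 ^ (n + 1), ?_⟩ hx
      push_cast
      ring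
    have hc : Nat.Coprime 7 (13 ^ (n + 2) * 15) :=
      Nat.Coprime.mul_right (Nat.Coprime.pow_right _ (by norm_num)) (by norm_num)
    have a3 := (Nat.isCoprime_iff_coprime.2 hc).mul_dvd a2 a1
    refine dvd_trans (dvd_of_eq ?_) a3
    push_cast
    ring
  exact ⟨fin _ π hp hπ c1, fin _ β hb hβ c2⟩

end Pool.Agent.OEG.G
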