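import Pool.Agent.OEG.StG

/-!
# Module H1I (helper4): the first ghost, type I
-/

set_option autoImplicit false

namespace Pool.Agent.OEG.G

open Finset (range)
open Pool.Agent.PSX (Es W sg nu ev Z0 EZ SX I0 I1 TT ED fb evZ)
open Pool.Agent.P4G (Fam QN FN FZ CR)
open Pool.Agent.Lib_helper5.LK (Fm)

namespace H1M

/-- equal residues -/
lemma cast_eq {Q : ℕ} {x y : ℤ} (h : (Q : ℤ) ∣ x - y) : ((x : ℤ) : ZMod Q) = ((y : ℤ) : ZMod Q) :=
  ((ZMod.intCast_eq_intCast_iff_dvd_sub y x Q).2 h).symm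

/-- an edge sum of type I depends on everything modulo `Q` -/
lemma Es_congr (hTLQ : Stmt_TLQ) {l q0 n e e0 : ℕ} {ψ : ℤ → ℤ} [NeZero (QN l q0 n)]
    (hFm : PSX.Fm l q0 n e e0 ψ) (he : 2 * e0 < l - 1) {P R S c P' R' S' c' : ℤ}
    (hP : ((QN l q0 n : ℕ) : ℤ) ∣ P' - P) (hR : ((QN l q0 n : ℕ) : ℤ) ∣ R' - R)
    (hS : ((QN l q0 n : ℕ) : ℤ) ∣ S' - S) (hc : ((QN l q0 n : ℕ) : ℤ) ∣ c' - c) :
    Es (FZ l q0 n e ψ) (P' : ZMod (QN l q0 n)) (R' : ZMod (QN l q0 n)) (S' : ZMod (QN l q0 n)) c'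
      = Es (FZ l q0 n e ψ) (P : ZMod (QN l q0 n)) (R : ZMod (QN l q0 n)) (S : ZMod (QN l q0 n)) c := by
  rw [cast_eq hP, cast_eq hR, cast_eq hS, hTLQ l q0 n e e0 ψ hFm he P R S c c' hc]

/-- the sign symmetry -/
lemma Es_sign (hSYE : Stmt_SYE) {l q0 n e e0 : ℕ} {ψ : ℤ → ℤ} [NeZero (QN l q0 n)]
    (hFm : PSX.Fm l q0 n e e0 ψ) {σ : ℤ} (hσ : σ = 1 ∨ σ = -1) (P R S c : ℤ) :
    Es (FZ l q0 n e ψ) ((σ * P : ℤ) : ZMod (QN l q0 n)) (R : ZMod (QN l q0 n))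
        ((σ * S : ℤ) : ZMod (QN l q0 n)) (σ * c)
      = Es (FZ l q0 n e ψ) (P : ZMod (QN l q0 n)) (R : ZMod (QN l q0 n)) (S : ZMod (QN l q0 n)) c := by
  rcases hσ with rfl | rfl
  · rw [one_mul, one_mul, one_mul]
  · have h := (hSYE (QN l q0 n) hFm.fam.Qodd (ZMod (l ^ (n + 1))) (FZ l q0 n e ψ)
      hFm.fam.FZ_neg (P : ZMod (QN l q0 n)) (R : ZMod (QN l q0 n)) (S : ZMod (QN l q0 n)) c).1
    rw [neg_one_mul, neg_one_mul, neg_one_mul]
    push_cast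
    exact h

lemma sg_pow {ε : ℤ} (h : ε = 1 ∨ ε = -1) (j : ℕ) : ε ^ j = 1 ∨ ε ^ j = -1 := by
  rcases h with rfl | rfl
  · left; exact one_pow j
  · exact neg_one_pow_eq_or ℤ j

lemma sq_one {ε : ℤ} (h : ε = 1 ∨ ε = -1) : ε * ε = 1 := by
  rcases h with rfl | rfl <;> norm_num

lemma pow_congr {Q p ε : ℤ} (h : Q ∣ p - ε) (j : ℕ) : Q ∣ p ^ j - ε ^ j :=
  h.trans (sub_dvd_pow_sub_pow p ε j)

lemma sg_mul {x y : ℤ} (hx : OEX.Sg x) (hy : OEX.Sg y) : OEX.Sg (x * y) := by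
  rcases hx with rfl | rfl <;> rcases hy with rfl | rfl <;> unfold OEX.Sg <;> norm_num

/-- all edges of the list have the same value -/
lemma EJ_const (hSYE : Stmt_SYE) (hTLQ : Stmt_TLQ) {q0 n e e0 : ℕ} {ψ : ℤ → ℤ}
    [NeZero (QN 13 q0 n)] (hFm : PSX.Fm 13 q0 n e e0 ψ) (he : 2 * e0 < 12) {l u p q b : ℤ}
    (hl : OEX.Sg l) (hu : OEX.Sg u) (m : ℕ) (hp : ((QN 13 q0 n : ℕ) : ℤ) ∣ p - u * l)
    (hb : ((QN 13 q0 n : ℕ) : ℤ) ∣ b) :
    EJ (FZ 13 q0 n e ψ) (J1 l u p q b m) = ((2 * m + 1 : ℕ) : ZMod (13 ^ (n + 1))) *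
      Es (FZ 13 q0 n e ψ) ((1 : ℤ) : ZMod (QN 13 q0 n))
        ((q * (u * l) ^ m : ℤ) : ZMod (QN 13 q0 n)) ((l * (u * l) ^ m : ℤ) : ZMod (QN 13 q0 n))
        (l * (u * l) ^ m * (q * (u * l) ^ m)) := by
  obtain ⟨ε, hε⟩ : ∃ ε : ℤ, ε = u * l := ⟨_, rfl⟩
  have hε1 : ε = 1 ∨ ε = -1 := by rw [hε]; exact sg_mul hu hl
  have hll : l * l = 1 := sq_one hl
  have hee : ε * ε = 1 := sq_one hε1
  have hu' : u = ε * l := by rw [hε]; linear_combination (-u) * hll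
  rw [← hε] at hp ⊢
  set E := Es (FZ 13 q0 n e ψ) ((1 : ℤ) : ZMod (QN 13 q0 n))
        ((q * ε ^ m : ℤ) : ZMod (QN 13 q0 n)) ((l * ε ^ m : ℤ) : ZMod (QN 13 q0 n))
        (l * ε ^ m * (q * ε ^ m)) with hE
  have e2 : ∀ k : ℕ, ε ^ k * ε ^ k = 1 := by
    intro k; rw [← mul_pow, hee, one_pow]
  have h1 : ∀ j < m + 1, Es (FZ 13 q0 n e ψ) ((p ^ j : ℤ) : ZMod (QN 13 q0 n))
      ((q * p ^ m + b : ℤ) : ZMod (QN 13 q0 n)) ((-(-(l * p ^ (m - j))) : ℤ) : ZMod (QN 13 q0 n))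
      (- -(c1 l p q b m j)) = E := by
    intro j hj
    rw [hE, ← Es_sign hSYE hFm (sg_pow hε1 j) 1 (q * ε ^ m) (l * ε ^ m) (l * ε ^ m * (q * ε ^ m))]
    have hpj := pow_congr hp j
    have hpm := pow_congr hp m
    have hpmj := pow_congr hp (m - j)
    have e3 : ε ^ (m - j) = ε ^ m * ε ^ j := by
      have h4 : ε ^ (m - j) * ε ^ j = ε ^ m := by rw [← pow_add]; congr 1; omega
      linear_combination (ε ^ j) * h4 - (ε ^ (m - j)) * e2 j
    apply Es_congr hTLQ hFm (by omega)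
    · rw [mul_one]; exact hpj
    · have h5 := dvd_add (hpm.mul_left q) hb
      have e4 : q * (p ^ m - ε ^ m) + b = q * p ^ m + b - q * ε ^ m := by ring
      rwa [e4] at h5
    · have h5 := hpmj.mul_left l
      have e4 : l * (p ^ (m - j) - ε ^ (m - j)) = - -(l * p ^ (m - j)) - ε ^ j * (l * ε ^ m) := by
        rw [e3]; ring
      rwa [e4] at h5
    · unfold c1
      have h5 := hpj.mul_left (l * q)
      have e5 : ε ^ j * (l * ε ^ m * (q * ε ^ m)) = l * q * ε ^ j := by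
        linear_combination (l * q * ε ^ j) * e2 m
      rw [e5]
      split_ifs with hjm
      · have h6 := dvd_add h5 (hb.mul_left l)
        have e4 : l * q * (p ^ j - ε ^ j) + l * b = - -(l * q * p ^ j + l * b) - l * q * ε ^ j := by
          ring
        rwa [e4] at h6
      · have e4 : l * q * (p ^ j - ε ^ j) = - -(l * q * p ^ j + 0) - l * q * ε ^ j := by ring
        rwa [e4] at h5
  have h2 : ∀ j < m, Es (FZ 13 q0 n e ψ) ((p ^ (j + 1) : ℤ) : ZMod (QN 13 q0 n))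
      ((q * p ^ m - b : ℤ) : ZMod (QN 13 q0 n)) ((-(-(u * p ^ (m - j))) : ℤ) : ZMod (QN 13 q0 n))
      (- -(u * q * p ^ j)) = E := by
    intro j hj
    rw [hE, ← Es_sign hSYE hFm (sg_pow hε1 (j + 1)) 1 (q * ε ^ m) (l * ε ^ m)
      (l * ε ^ m * (q * ε ^ m))]
    have hpj := pow_congr hp j
    have hpj1 := pow_congr hp (j + 1)
    have hpm := pow_congr hp m
    have hpmj := pow_congr hp (m - j)
    have e3 : ε ^ (m - j) = ε ^ m * ε ^ j := by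
      have h4 : ε ^ (m - j) * ε ^ j = ε ^ m := by rw [← pow_add]; congr 1; omega
      linear_combination (ε ^ j) * h4 - (ε ^ (m - j)) * e2 j
    apply Es_congr hTLQ hFm (by omega)
    · rw [mul_one]; exact hpj1
    · have h5 := dvd_sub (hpm.mul_left q) hb
      have e4 : q * (p ^ m - ε ^ m) - b = q * p ^ m - b - q * ε ^ m := by ring
      rwa [e4] at h5
    · have h5 := hpmj.mul_left u
      have e4 : u * (p ^ (m - j) - ε ^ (m - j)) =
          - -(u * p ^ (m - j)) - ε ^ (j + 1) * (l * ε ^ m) := by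
        rw [e3, hu']; ring
      rwa [e4] at h5
    · have h5 := hpj.mul_left (u * q)
      have e5 : ε ^ (j + 1) * (l * ε ^ m * (q * ε ^ m)) = u * q * ε ^ j := by
        rw [hu']
        linear_combination (l * q * ε ^ (j + 1)) * e2 m
      rw [e5]
      have e4 : u * q * (p ^ j - ε ^ j) = - -(u * q * p ^ j) - u * q * ε ^ j := by ring
      rwa [e4] at h5
  unfold EJ J1
  rw [List.map_append, List.sum_append, List.map_map, List.map_map]
  have s1 : ((List.range (m + 1)).map ((fun j : Fm => Es (FZ 13 q0 n e ψ)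
      (j.P : ZMod (QN 13 q0 n)) (j.R : ZMod (QN 13 q0 n)) ((-j.S : ℤ) : ZMod (QN 13 q0 n)) (-j.α)) ∘
      fun j => (⟨p ^ j, q * p ^ m + b, -(l * p ^ (m - j)), 3, -(c1 l p q b m j)⟩ : Fm))).sum =
      ((m + 1 : ℕ) : ZMod (13 ^ (n + 1))) * E := by
    rw [List.map_congr_left (g := fun _ => E)]
    · rw [List.map_const', List.sum_replicate, List.length_range, nsmul_eq_mul]
    · intro j hj
      exact h1 j (List.mem_range.1 hj)
  have s2 : ((List.range m).map ((fun j : Fm => Es (FZ 13 q0 n e ψ)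
      (j.P : ZMod (QN 13 q0 n)) (j.R : ZMod (QN 13 q0 n)) ((-j.S : ℤ) : ZMod (QN 13 q0 n)) (-j.α)) ∘
      fun j => (⟨p ^ (j + 1), q * p ^ m - b, -(u * p ^ (m - j)), 3, -(u * q * p ^ j)⟩ : Fm))).sum =
      ((m : ℕ) : ZMod (13 ^ (n + 1))) * E := by
    rw [List.map_congr_left (g := fun _ => E)]
    · rw [List.map_const', List.sum_replicate, List.length_range, nsmul_eq_mul]
    · intro j hj
      exact h2 j (List.mem_range.1 hj)
  rw [s1, s2]
  push_cast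
  ring

/-- the core: a family with nonzero value at level zero -/
lemma core (hSYE : Stmt_SYE) (hTLQ : Stmt_TLQ) (hLV0 : Stmt_LV0) {q0 n e0 : ℕ} {χ : ℤ → ZMod 13}
    [NeZero (q0 * 13)] (hfam : FamI q0 e0 χ) (he : 2 * e0 < 12) (hq0 : q0 ∣ Q0) {l u p q b : ℤ}
    (hl : OEX.Sg l) (hu : OEX.Sg u) (m : ℕ) (hp : ((q0 * 13 ^ (n + 1) : ℕ) : ℤ) ∣ p - u * l)
    (hb : ((q0 * 13 ^ (n + 1) : ℕ) : ℤ) ∣ b) (hRel : RelJ Q0 (J1 l u p q b m))
    (hE : E0 q0 χ 1 (q * (u * l) ^ m) (l * (u * l) ^ m)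
      (l * (u * l) ^ m * (q * (u * l) ^ m)) ≠ 0) : 13 ^ (n + 1) ∣ 2 * m + 1 := by
  obtain ⟨e, ψ, hFm, hfb⟩ := hfam n
  have hne : NeZero (QN 13 q0 n) := hFm.fam.ne
  have h1 := hRel q0 n e e0 ψ hq0 hFm
  rw [EJ_const hSYE hTLQ hFm he hl hu m hp hb] at h1
  have h2 := hLV0 q0 n e e0 ψ χ hFm hfb 1 (q * (u * l) ^ m) (l * (u * l) ^ m)
    (l * (u * l) ^ m * (q * (u * l) ^ m))
  set E := Es (FZ 13 q0 n e ψ) ((1 : ℤ) : ZMod (QN 13 q0 n))
        ((q * (u * l) ^ m : ℤ) : ZMod (QN 13 q0 n)) ((l * (u * l) ^ m : ℤ) : ZMod (QN 13 q0 n))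
        (l * (u * l) ^ m * (q * (u * l) ^ m)) with hEd
  have h3 : ZMod.castHom (dvd_pow_self 13 (Nat.succ_ne_zero n)) (ZMod 13) E ≠ 0 := by
    rw [h2]; exact hE
  have : NeZero (13 ^ (n + 1)) := ⟨(pow_pos (by norm_num) _).ne'⟩
  have hunit : IsUnit E := by
    rw [← ZMod.natCast_zmod_val E, ZMod.isUnit_iff_coprime]
    apply Nat.Coprime.pow_right
    rw [Nat.coprime_comm, Nat.Prime.coprime_iff_not_dvd (by norm_num)]
    intro hd
    apply h3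
    rw [← ZMod.natCast_zmod_val E, map_natCast, ZMod.natCast_eq_zero_iff]
    exact hd
  have h4 := (hunit.mul_left_eq_zero).1 h1
  exact (ZMod.natCast_eq_zero_iff _ _).1 h4

/-- reduction of the discriminant -/
lemma disc_congr {N D l u p q b : ℤ} {m : ℕ} (hl : OEX.Sg l) (hu : OEX.Sg u)
    (hD : D = (q * p ^ m + b) ^ 2 + 4 * l * p ^ m) (hp : N ∣ p - u * l) (hb : N ∣ b) :
    N ∣ D - ((q * (u * l) ^ m) ^ 2 + 4 * (l * (u * l) ^ m)) := by
  have h1 := (pow_congr hp m).mul_right (q ^ 2 * (p ^ m + (u * l) ^ m) + 4 * l)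
  have h2 := hb.mul_right (2 * q * p ^ m + b)
  have h3 := dvd_add h1 h2
  rw [hD]
  have e : (p ^ m - (u * l) ^ m) * (q ^ 2 * (p ^ m + (u * l) ^ m) + 4 * l) +
      b * (2 * q * p ^ m + b) = (q * p ^ m + b) ^ 2 + 4 * l * p ^ m -
      ((q * (u * l) ^ m) ^ 2 + 4 * (l * (u * l) ^ m)) := by ring
  rwa [e] at h3

/-- change of sign of a special class -/
lemma special {ε q a : ℤ} (hε : ε = 1 ∨ ε = -1) (N : ℤ) (h : N ∣ q * ε - a ∨ N ∣ q * ε + a) :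
    N ∣ q - a ∨ N ∣ q + a := by
  rcases hε with rfl | rfl
  · rw [mul_one] at h; exact h
  · rcases h with h | h
    · right
      have := (dvd_neg).2 h
      have e : -(q * -1 - a) = q + a := by ring
      rwa [e] at this
    · left
      have := (dvd_neg).2 h
      have e : -(q * -1 + a) = q - a := by ring
      rwa [e] at this

lemma big_dvd {a c r : ℕ} (x : ℤ) (n : ℕ) (h : (105 * 13 ^ (n + 1) : ℤ) ∣ x) (hc : (c : ℤ) ∣ x)
    (ha : a ∣ 105) (hcop : Nat.Coprime c (a * 13)) (hr : r = c * a) :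
    ((r * 13 ^ (n + 1) : ℕ) : ℤ) ∣ x := by
  have h1 : ((a * 13 ^ (n + 1) : ℕ) : ℤ) ∣ x := by
    refine dvd_trans ?_ h
    push_cast
    exact mul_dvd_mul_right (by exact_mod_cast ha) _
  have h2 : Nat.Coprime c (a * 13 ^ (n + 1)) :=
    Nat.Coprime.mul_right (Nat.Coprime.coprime_mul_right_right hcop)
      (Nat.Coprime.pow_right _ (Nat.Coprime.coprime_mul_left_right hcop))
  have h3 := (Nat.isCoprime_iff_coprime.2 h2).mul_dvd hc h1
  rw [hr]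
  have e : ((c * a * 13 ^ (n + 1) : ℕ) : ℤ) = (c : ℤ) * ((a * 13 ^ (n + 1) : ℕ) : ℤ) := by
    push_cast; ring
  rw [e]
  exact h3

lemma sub_dvd {a : ℕ} (x : ℤ) (n : ℕ) (h : (105 * 13 ^ (n + 1) : ℤ) ∣ x) (ha : a ∣ 105) :
    ((a * 13 ^ (n + 1) : ℕ) : ℤ) ∣ x := by
  refine dvd_trans ?_ h
  push_cast
  exact mul_dvd_mul_right (by exact_mod_cast ha) _

end H1M

theorem t_H1I (hSYE : Stmt_SYE) (hTLQ : Stmt_TLQ) (hLV0 : Stmt_LV0) (hFAI : Stmt_FAI)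
    (hNV1 : Stmt_NV1) (hNV2 : Stmt_NV2) : Stmt_H1I := by
  intro D l u p q b m n hP hNr hRel hG hp hb
  obtain ⟨fa, fb', fc, fd, fe⟩ := hFAI
  have : NeZero (35 * 13) := ⟨by norm_num⟩
  have : NeZero (15 * 13) := ⟨by norm_num⟩
  have : NeZero (51 * 13) := ⟨by norm_num⟩
  have : NeZero (95 * 13) := ⟨by norm_num⟩
  have hs : OEX.Sg (l * (u * l) ^ m) := H1M.sg_mul hP.l1 (H1M.sg_pow (H1M.sg_mul hP.u1 hP.l1) m)
  have hεm := H1M.sg_pow (H1M.sg_mul hP.u1 hP.l1) m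
  have hD0 := H1M.disc_congr hP.l1 hP.u1 hP.D1 hG.p0 hG.b0
  have hNr' : PSX.Nr ((q * (u * l) ^ m) ^ 2 + 4 * (l * (u * l) ^ m)) := by
    have hc : ∀ r : ℕ, (r : ℤ) ∣ 1365 → ((D : ℤ) : ZMod r) =
        (((q * (u * l) ^ m) ^ 2 + 4 * (l * (u * l) ^ m) : ℤ) : ZMod r) :=
      fun r hr => H1M.cast_eq (hr.trans hD0)
    have := hNr.nr
    refine ⟨?_, ?_, ?_, ?_⟩
    · rw [← hc 3 (by norm_num)]; exact this.h3
    · rw [← hc 5 (by norm_num)]; exact this.h5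
    · rw [← hc 7 (by norm_num)]; exact this.h7
    · rw [← hc 13 (by norm_num)]; exact this.h13
  by_cases hsp : ((1365 : ℤ) ∣ q * (u * l) ^ m - 17 ∨ (1365 : ℤ) ∣ q * (u * l) ^ m + 17 ∨
      (1365 : ℤ) ∣ q * (u * l) ^ m - 21 ∨ (1365 : ℤ) ∣ q * (u * l) ^ m + 21)
  · have h17 : (1365 : ℤ) ∣ q * (u * l) ^ m - 17 ∨ (1365 : ℤ) ∣ q * (u * l) ^ m + 17 →
        13 ^ (n + 1) ∣ 2 * m + 1 := by
      intro h
      obtain ⟨g1, g2⟩ := hG.x17 (H1M.special hεm 1365 h)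
      have hD17 := H1M.disc_congr hP.l1 hP.u1 hP.D1 g1 g2
      have e17 := H1M.cast_eq (Q := 17) (by exact_mod_cast hD17)
      have k := (hNV2 (q * (u * l) ^ m) (l * (u * l) ^ m) hs hNr').1 h (by
        rw [← e17]; exact hNr.h17)
      exact H1M.core hSYE hTLQ hLV0 fd (by norm_num) (by unfold Q0; norm_num) hP.l1 hP.u1 m
        (H1M.big_dvd (a := 3) (c := 17) _ n hp (by exact_mod_cast g1) (by norm_num) (by norm_num)
          (by norm_num))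
        (H1M.big_dvd (a := 3) (c := 17) _ n hb (by exact_mod_cast g2) (by norm_num) (by norm_num)
          (by norm_num)) hRel k
    have h19 : (1365 : ℤ) ∣ q * (u * l) ^ m - 21 ∨ (1365 : ℤ) ∣ q * (u * l) ^ m + 21 →
        13 ^ (n + 1) ∣ 2 * m + 1 := by
      intro h
      obtain ⟨g1, g2⟩ := hG.x19 (H1M.special hεm 1365 h)
      have hD19 := H1M.disc_congr hP.l1 hP.u1 hP.D1 g1 g2
      have e19 := H1M.cast_eq (Q := 19) (by exact_mod_cast hD19)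
      have k := (hNV2 (q * (u * l) ^ m) (l * (u * l) ^ m) hs hNr').2 h (by
        rw [← e19]; exact hNr.h19)
      exact H1M.core hSYE hTLQ hLV0 fe (by norm_num) (by unfold Q0; norm_num) hP.l1 hP.u1 m
        (H1M.big_dvd (a := 5) (c := 19) _ n hp (by exact_mod_cast g1) (by norm_num) (by norm_num)
          (by norm_num))
        (H1M.big_dvd (a := 5) (c := 19) _ n hb (by exact_mod_cast g2) (by norm_num) (by norm_num)
          (by norm_num)) hRel k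
    rcases hsp with h | h | h | h
    · exact h17 (Or.inl h)
    · exact h17 (Or.inr h)
    · exact h19 (Or.inl h)
    · exact h19 (Or.inr h)
  · rcases hNV1 (q * (u * l) ^ m) (l * (u * l) ^ m) hs hNr' hsp with k | k | k
    · exact H1M.core hSYE hTLQ hLV0 fa (by norm_num) (by unfold Q0; norm_num) hP.l1 hP.u1 m
        (H1M.sub_dvd _ n hp (by norm_num)) (H1M.sub_dvd _ n hb (by norm_num)) hRel k
    · exact H1M.core hSYE hTLQ hLV0 fb' (by norm_num) (by unfold Q0; norm_num) hP.l1 hP.u1 m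
        (H1M.sub_dvd _ n hp (by norm_num)) (H1M.sub_dvd _ n hb (by norm_num)) hRel k
    · exact H1M.core hSYE hTLQ hLV0 fc (by norm_num) (by unfold Q0; norm_num) hP.l1 hP.u1 m
        (H1M.sub_dvd _ n hp (by norm_num)) (H1M.sub_dvd _ n hb (by norm_num)) hRel k

end Pool.Agent.OEG.G
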