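import Pool.Agent.OEG.H2I

/-!
# Module H22 (helper26): the second ghost, second order step
-/

set_option autoImplicit false

namespace Pool.Agent.OEG.G

open Finset (range)
open Pool.Agent.PSX (Es W sg nu ev Z0 EZ SX I0 I1 TT ED fb evZ)
open Pool.Agent.P4G (Fam QN FN FZ CR)
open Pool.Agent.Lib_helper5.LK (Fm)

namespace H2M

/-- the second order condition in one family -/
theorem step2 (hGP2 : Stmt_GP2) (hKAP : Stmt_KAP) {q0 n e e0 : ℕ} {ψ : ℤ → ℤ}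
    [NeZero (QN 13 q0 n)] (hF : PSX.Fm 13 q0 n e e0 ψ) (hq0 : q0 ∣ 105) {l p q b : ℤ} {T : ℕ}
    (hl : OEX.Sg l) (hqb : q * b = -1 * p - l) (hcop : IsCoprime p 1365)
    (hR : EJ (FZ 13 q0 n e ψ) (J1 l (-1) p q b (T + 1)) = 0) (hT : 13 ^ (n + 1) ∣ T)
    (hpT : (105 * 13 ^ (n + 2) : ℤ) ∣ p ^ T - 1) {κ : ℤ}
    (hκ : q - 1 = ((QN 13 q0 n : ℕ) : ℤ) * κ)
    (hCR : ¬ (13 : ℤ) ∣ CR 13 q0 e ψ (1 + 4 * l * p)) :
    (κ : ZMod 13) * (2 + (2 * p + l) * fb e ψ p) = 0 := by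
  obtain ⟨pb, hpb⟩ := exists_pb hcop (n + 1)
  have hq0z : (q0 : ℤ) ∣ 105 := by exact_mod_cast hq0
  have hQd : ∀ x : ℤ, (105 * 13 ^ (n + 1) : ℤ) ∣ x → ((QN 13 q0 n : ℕ) : ℤ) ∣ x := by
    intro x hx
    refine dvd_trans ?_ hx
    unfold QN
    push_cast
    exact mul_dvd_mul_right hq0z _
  have hQd2 : ∀ x : ℤ, (105 * 13 ^ (n + 2) : ℤ) ∣ x → ((QN 13 q0 n * 13 : ℕ) : ℤ) ∣ x := by
    intro x hx
    refine dvd_trans ?_ hx
    unfold QN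
    have e : (((q0 * 13 ^ (n + 1) * 13 : ℕ)) : ℤ) = (q0 : ℤ) * 13 ^ (n + 2) := by
      push_cast
      ring
    rw [e]
    exact mul_dvd_mul_right hq0z _
  have h1365 : ((q0 * 13 : ℕ) : ℤ) ∣ 1365 := by
    push_cast
    have e : (1365 : ℤ) = 105 * 13 := by norm_num
    rw [e]
    exact mul_dvd_mul_right hq0z _
  have h105 : (1365 : ℤ) ∣ (105 * 13 ^ (n + 2) : ℤ) := ⟨13 ^ (n + 1), by rw [pow_succ]; ring⟩
  have h105' : (105 * 13 ^ (n + 1) : ℤ) ∣ (105 * 13 ^ (n + 2) : ℤ) := ⟨13, by rw [pow_succ]; ring⟩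
  have hqQ : ((QN 13 q0 n : ℕ) : ℤ) ∣ q - 1 := ⟨κ, hκ⟩
  obtain ⟨hq1, hb1⟩ := data hqb hqQ
  have hT1 : (p : ZMod (QN 13 q0 n)) ^ T = 1 := by
    have := cast_one (hQd _ (h105'.trans hpT))
    push_cast at this
    exact this
  have hpb1 : (p : ZMod (QN 13 q0 n)) * pb = 1 := by
    have := cast_one (hQd _ hpb)
    push_cast at this
    exact this
  rw [EJ_g2 hl hq1 hT1 hb1 hpb1] at hR
  have g := fun α R β lam s => hGP2 q0 n e e0 ψ hF α R β lam p pb s T (hQd _ hpb)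
    (h1365.trans (pow12 hcop)) (h1365.trans (h105.trans hpT)) hT
  rw [g, g, add_zero, add_zero] at hR
  obtain ⟨w, hw⟩ := hQd2 _ hpT
  have hll := H1M.sq_one hl
  refine hKAP q0 n e e0 ψ hF p l κ (l * q) (l * q * p ^ (T + 1) + l * b) (-(q * p ^ T)) hl ?_ hCR
    ?_ ?_ ?_ hR
  · exact hcop.of_isCoprime_of_dvd_right h1365
  · refine ⟨0, ?_⟩
    linear_combination l * hκ
  · refine ⟨l * q * p * w + ((q0 * 13 ^ n : ℕ) : ℤ) * (l * κ ^ 2 * b), ?_⟩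
    have hQ2 : ((QN 13 q0 n : ℕ) : ℤ) ^ 2
        = ((QN 13 q0 n * 13 : ℕ) : ℤ) * ((q0 * 13 ^ n : ℕ) : ℤ) := by
      unfold QN
      push_cast
      ring
    have hq : q = 1 + ((QN 13 q0 n : ℕ) : ℤ) * κ := by linear_combination hκ
    have hb2 : b = -(p + l) + ((QN 13 q0 n : ℕ) : ℤ) * κ * (p + l)
        + ((QN 13 q0 n : ℕ) : ℤ) ^ 2 * κ ^ 2 * b := by
      have h1 : b * (1 + ((QN 13 q0 n : ℕ) : ℤ) * κ) = -(p + l) := by
        rw [← hq]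
        linear_combination hqb
      linear_combination (1 - ((QN 13 q0 n : ℕ) : ℤ) * κ) * h1
    have hpT2 : p ^ (T + 1) = p * (1 + ((QN 13 q0 n * 13 : ℕ) : ℤ) * w) := by
      rw [pow_succ]
      linear_combination p * hw
    rw [hpT2]
    generalize ((QN 13 q0 n * 13 : ℕ) : ℤ) = N at *
    generalize ((QN 13 q0 n : ℕ) : ℤ) = Q at *
    generalize ((q0 * 13 ^ n : ℕ) : ℤ) = z at *
    linear_combination (l * p) * hκ + l * hb2 - hll + l * κ ^ 2 * b * hQ2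
  · refine ⟨-(q * w), ?_⟩
    linear_combination (-q) * hw - hκ

end H2M

open H2M in
/-- **H22** -/
theorem t_H22 (hLTE : Stmt_LTE) (hGP2 : Stmt_GP2) (hKAP : Stmt_KAP) (hRKG : Stmt_RKG)
    (hFAM : PSX.Stmt_FAM) : Stmt_H22 := by
  intro D l p q b m n hP hN hR hcop hpT hq hn
  obtain ⟨T, rfl⟩ : ∃ T, m = T + 1 := ⟨m - 1, by have := hP.m1; omega⟩
  rw [Nat.add_sub_cancel] at hpT hn
  have h1365 : (1365 : ℤ) ∣ (105 * 13 ^ (n + 1) : ℤ) := ⟨13 ^ n, by rw [pow_succ]; ring⟩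
  have hpT' : (105 * 13 ^ (n + 2) : ℤ) ∣ p ^ T - 1 := by
    have := hLTE 105 p (n + 1) T (by norm_num) hn (by exact_mod_cast hpT)
    exact_mod_cast this
  have hNr := nr hP.l1 hP.qb hP.D1 (h1365.trans hq) hpT hN.nr
  obtain ⟨κ0, hκ0⟩ := hq
  have hQ0 : ∀ q0 : ℕ, q0 ∣ 105 → q0 ∣ Q0 := fun q0 h => h.trans (by unfold Q0; norm_num)
  obtain ⟨e, ψ, hF, -, hχ, hCR⟩ := hFAM.1 n
  obtain ⟨e', ψ', hF', -, hχ', hCR'⟩ := hFAM.2.1 n
  have i1 : NeZero (QN 13 15 n) := hF.fam.ne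
  have i2 : NeZero (QN 13 35 n) := hF'.fam.ne
  have a1 := step2 hGP2 hKAP hF (by norm_num) hP.l1 hP.qb hcop
    (hR 15 n e 11 ψ (hQ0 15 (by norm_num)) hF) hn hpT' (κ := 7 * κ0) (by
      rw [hκ0]
      unfold QN
      push_cast
      ring) (hCR _ hNr)
  have a2 := step2 hGP2 hKAP hF' (by norm_num) hP.l1 hP.qb hcop
    (hR 35 n e' 8 ψ' (hQ0 35 (by norm_num)) hF') hn hpT' (κ := 3 * κ0) (by
      rw [hκ0]
      unfold QN
      push_cast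
      ring) (hCR' _ hNr)
  rw [hχ] at a1
  rw [hχ'] at a2
  have h26 : (2 : ZMod 13) * 7 = 1 := by decide
  have h39 : (9 : ZMod 13) * 3 = 1 := by decide
  have b1 : (κ0 : ZMod 13) * (2 + (2 * p + l) * PSX.χ0 p) = 0 := by
    push_cast at a1
    linear_combination 2 * a1 - (κ0 : ZMod 13) * (2 + (2 * p + l) * PSX.χ0 p) * h26
  have b2 : (κ0 : ZMod 13) * (2 + (2 * p + l) * PSX.χ3 p) = 0 := by
    push_cast at a2
    linear_combination 9 * a2 - (κ0 : ZMod 13) * (2 + (2 * p + l) * PSX.χ3 p) * h39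
  obtain ⟨z, hz⟩ := hRKG p l κ0 hP.l1 hNr b1 b2
  refine ⟨z, ?_⟩
  rw [hκ0, hz]
  ring

end Pool.Agent.OEG.G
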