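import Pool.Agent.OEG.H12

/-!
# Module H2I (helper26): the second ghost, type I
-/

set_option autoImplicit false

namespace Pool.Agent.OEG.G

open Finset (range)
open Pool.Agent.PSX (Es W sg nu ev Z0 EZ SX I0 I1 TT ED fb evZ)
open Pool.Agent.P4G (Fam QN FN FZ CR)
open Pool.Agent.Lib_helper5.LK (Fm)

namespace H2M

/-- powers with complementary exponents -/
theorem pow_compl {R : Type*} [CommRing R] {P B : R} {T j : ℕ} (hPB : P * B = 1) (hT : P ^ T = 1)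
    (hj : j ≤ T + 1) : P ^ (T + 1 - j) = P * B ^ j := by
  calc P ^ (T + 1 - j) = P ^ (T + 1 - j) * (P * B) ^ j := by rw [hPB, one_pow, mul_one]
    _ = (P ^ (T + 1 - j) * P ^ j) * B ^ j := by rw [mul_pow]; ring
    _ = P ^ (T + 1) * B ^ j := by
      rw [← pow_add]
      congr 2
      omega
    _ = P * B ^ j := by rw [pow_succ, hT, one_mul]

theorem cast_zero {Q : ℕ} [NeZero Q] {x y : ℤ} (h : (Q : ℤ) ∣ x - y) : (x : ZMod Q) = y :=
  H1M.cast_eq h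

theorem dvd_of_cast {Q : ℕ} [NeZero Q] {x y : ℤ} (h : (x : ZMod Q) = y) : (Q : ℤ) ∣ x - y := by
  rw [← ZMod.intCast_zmod_eq_zero_iff_dvd]
  push_cast
  rw [h, sub_self]

/-- the list of the second ghost, forms modulo `Q`, exact letters -/
theorem EJ_g2 {q0 n e : ℕ} {ψ : ℤ → ℤ} [NeZero (QN 13 q0 n)] {l p q b pb : ℤ} {T : ℕ}
    (hl : OEX.Sg l) (hq : (q : ZMod (QN 13 q0 n)) = 1) (hT : (p : ZMod (QN 13 q0 n)) ^ T = 1)
    (hb : (b : ZMod (QN 13 q0 n)) = -(p + l)) (hpb : (p : ZMod (QN 13 q0 n)) * pb = 1) :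
    EJ (FZ 13 q0 n e ψ) (J1 l (-1) p q b (T + 1))
      = (Es (FZ 13 q0 n e ψ) ((1 : ℤ) : ZMod (QN 13 q0 n)) ((-l : ℤ) : ZMod (QN 13 q0 n))
          ((l * p : ℤ) : ZMod (QN 13 q0 n)) (l * q)
        + Es (FZ 13 q0 n e ψ) ((p : ℤ) : ZMod (QN 13 q0 n)) ((-l : ℤ) : ZMod (QN 13 q0 n))
          ((l : ℤ) : ZMod (QN 13 q0 n)) (l * q * p ^ (T + 1) + l * b)
        + Es (FZ 13 q0 n e ψ) ((p : ℤ) : ZMod (QN 13 q0 n)) ((2 * p + l : ℤ) : ZMod (QN 13 q0 n))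
          ((-p : ℤ) : ZMod (QN 13 q0 n)) (-(q * p ^ T)))
        + ∑ j ∈ range T, Ge q0 n e ψ 1 (-l) (l * p) (l * q) p pb (1 + j)
        + ∑ j ∈ range T, Ge q0 n e ψ p (2 * p + l) (-p) (-q) p pb (0 + j) := by
  have hll : (l : ZMod (QN 13 q0 n)) * l = 1 := by
    have := congrArg (fun x : ℤ => (x : ZMod (QN 13 q0 n))) (H1M.sq_one hl)
    push_cast at this
    exact this
  have hT1 : (p : ZMod (QN 13 q0 n)) ^ (T + 1) = p := by rw [pow_succ, hT, one_mul]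
  have hN : ((q * p ^ (T + 1) + b : ℤ) : ZMod (QN 13 q0 n)) = ((-l : ℤ) : ZMod (QN 13 q0 n)) := by
    push_cast
    rw [hq, hT1, hb]
    ring
  have hN' : ((q * p ^ (T + 1) - b : ℤ) : ZMod (QN 13 q0 n))
      = ((2 * p + l : ℤ) : ZMod (QN 13 q0 n)) := by
    push_cast
    rw [hq, hT1, hb]
    ring
  unfold EJ J1
  rw [List.map_append, List.sum_append, List.map_map, List.map_map, H1M.lsum, H1M.lsum,
    Finset.sum_range_succ, Finset.sum_range_succ', Finset.sum_range_succ]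
  have a0 : ((fun j : Fm => Es (FZ 13 q0 n e ψ)
      (j.P : ZMod (QN 13 q0 n)) (j.R : ZMod (QN 13 q0 n)) ((-j.S : ℤ) : ZMod (QN 13 q0 n)) (-j.α)) ∘
      fun j => (⟨p ^ j, q * p ^ (T + 1) + b, -(l * p ^ (T + 1 - j)), 3,
        -(c1 l p q b (T + 1) j)⟩ : Fm)) 0
      = Es (FZ 13 q0 n e ψ) ((1 : ℤ) : ZMod (QN 13 q0 n)) ((-l : ℤ) : ZMod (QN 13 q0 n))
          ((l * p : ℤ) : ZMod (QN 13 q0 n)) (l * q) := by
    show Es (FZ 13 q0 n e ψ) ((p ^ 0 : ℤ) : ZMod (QN 13 q0 n))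
      ((q * p ^ (T + 1) + b : ℤ) : ZMod (QN 13 q0 n))
      ((-(-(l * p ^ (T + 1 - 0))) : ℤ) : ZMod (QN 13 q0 n)) (-(-(c1 l p q b (T + 1) 0))) = _
    have h1 : ((-(-(l * p ^ (T + 1 - 0))) : ℤ) : ZMod (QN 13 q0 n))
        = ((l * p : ℤ) : ZMod (QN 13 q0 n)) := by
      push_cast
      rw [hT1, neg_neg]
    have h2 : -(-(c1 l p q b (T + 1) 0)) = l * q := by
      unfold c1
      rw [if_neg (by omega)]
      ring
    rw [hN, h1, h2, pow_zero]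
  have a1 : ((fun j : Fm => Es (FZ 13 q0 n e ψ)
      (j.P : ZMod (QN 13 q0 n)) (j.R : ZMod (QN 13 q0 n)) ((-j.S : ℤ) : ZMod (QN 13 q0 n)) (-j.α)) ∘
      fun j => (⟨p ^ j, q * p ^ (T + 1) + b, -(l * p ^ (T + 1 - j)), 3,
        -(c1 l p q b (T + 1) j)⟩ : Fm)) (T + 1)
      = Es (FZ 13 q0 n e ψ) ((p : ℤ) : ZMod (QN 13 q0 n)) ((-l : ℤ) : ZMod (QN 13 q0 n))
          ((l : ℤ) : ZMod (QN 13 q0 n)) (l * q * p ^ (T + 1) + l * b) := by
    show Es (FZ 13 q0 n e ψ) ((p ^ (T + 1) : ℤ) : ZMod (QN 13 q0 n))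
      ((q * p ^ (T + 1) + b : ℤ) : ZMod (QN 13 q0 n))
      ((-(-(l * p ^ (T + 1 - (T + 1)))) : ℤ) : ZMod (QN 13 q0 n))
      (-(-(c1 l p q b (T + 1) (T + 1)))) = _
    have h0 : ((p ^ (T + 1) : ℤ) : ZMod (QN 13 q0 n)) = ((p : ℤ) : ZMod (QN 13 q0 n)) := by
      push_cast
      exact hT1
    have h1 : ((-(-(l * p ^ (T + 1 - (T + 1)))) : ℤ) : ZMod (QN 13 q0 n))
        = ((l : ℤ) : ZMod (QN 13 q0 n)) := by
      rw [Nat.sub_self, pow_zero, mul_one, neg_neg]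
    have h2 : -(-(c1 l p q b (T + 1) (T + 1))) = l * q * p ^ (T + 1) + l * b := by
      unfold c1
      rw [if_pos rfl]
      ring
    rw [hN, h0, h1, h2]
  have a2 : ((fun j : Fm => Es (FZ 13 q0 n e ψ)
      (j.P : ZMod (QN 13 q0 n)) (j.R : ZMod (QN 13 q0 n)) ((-j.S : ℤ) : ZMod (QN 13 q0 n)) (-j.α)) ∘
      fun j => (⟨p ^ (j + 1), q * p ^ (T + 1) - b, -(-1 * p ^ (T + 1 - j)), 3,
        -(-1 * q * p ^ j)⟩ : Fm)) T
      = Es (FZ 13 q0 n e ψ) ((p : ℤ) : ZMod (QN 13 q0 n)) ((2 * p + l : ℤ) : ZMod (QN 13 q0 n))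
          ((-p : ℤ) : ZMod (QN 13 q0 n)) (-(q * p ^ T)) := by
    show Es (FZ 13 q0 n e ψ) ((p ^ (T + 1) : ℤ) : ZMod (QN 13 q0 n))
      ((q * p ^ (T + 1) - b : ℤ) : ZMod (QN 13 q0 n))
      ((-(-(-1 * p ^ (T + 1 - T))) : ℤ) : ZMod (QN 13 q0 n))
      (-(-(-1 * q * p ^ T))) = _
    have h0 : ((p ^ (T + 1) : ℤ) : ZMod (QN 13 q0 n)) = ((p : ℤ) : ZMod (QN 13 q0 n)) := by
      push_cast
      exact hT1
    have h1 : ((-(-(-1 * p ^ (T + 1 - T))) : ℤ) : ZMod (QN 13 q0 n))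
        = ((-p : ℤ) : ZMod (QN 13 q0 n)) := by
      rw [Nat.add_sub_cancel_left, pow_one, neg_neg, neg_one_mul]
    have h2 : -(-(-1 * q * p ^ T)) = -(q * p ^ T) := by ring
    rw [hN', h0, h1, h2]
  have a3 : ∀ j ∈ range T, ((fun j : Fm => Es (FZ 13 q0 n e ψ)
      (j.P : ZMod (QN 13 q0 n)) (j.R : ZMod (QN 13 q0 n)) ((-j.S : ℤ) : ZMod (QN 13 q0 n)) (-j.α)) ∘
      fun j => (⟨p ^ j, q * p ^ (T + 1) + b, -(l * p ^ (T + 1 - j)), 3,
        -(c1 l p q b (T + 1) j)⟩ : Fm)) (j + 1)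
      = Ge q0 n e ψ 1 (-l) (l * p) (l * q) p pb (1 + j) := by
    intro j hj
    have hj' := Finset.mem_range.1 hj
    unfold Ge
    show Es (FZ 13 q0 n e ψ) ((p ^ (j + 1) : ℤ) : ZMod (QN 13 q0 n))
      ((q * p ^ (T + 1) + b : ℤ) : ZMod (QN 13 q0 n))
      ((-(-(l * p ^ (T + 1 - (j + 1)))) : ℤ) : ZMod (QN 13 q0 n))
      (-(-(c1 l p q b (T + 1) (j + 1)))) = _
    have h0 : ((p ^ (j + 1) : ℤ) : ZMod (QN 13 q0 n))
        = ((1 * p ^ (1 + j) : ℤ) : ZMod (QN 13 q0 n)) := by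
      rw [one_mul, add_comm 1 j]
    have h1 : ((-(-(l * p ^ (T + 1 - (j + 1)))) : ℤ) : ZMod (QN 13 q0 n))
        = ((l * p * pb ^ (1 + j) : ℤ) : ZMod (QN 13 q0 n)) := by
      have h3 := pow_compl hpb hT (j := j + 1) (by omega)
      rw [Nat.add_sub_add_right] at h3
      push_cast
      rw [neg_neg, h3, add_comm 1 j]
      ring
    have h2 : -(-(c1 l p q b (T + 1) (j + 1))) = l * q * p ^ (1 + j) := by
      unfold c1
      rw [if_neg (by omega), add_comm 1 j]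
      ring
    rw [hN, h0, h1, h2]
  have a4 : ∀ j ∈ range T, ((fun j : Fm => Es (FZ 13 q0 n e ψ)
      (j.P : ZMod (QN 13 q0 n)) (j.R : ZMod (QN 13 q0 n)) ((-j.S : ℤ) : ZMod (QN 13 q0 n)) (-j.α)) ∘
      fun j => (⟨p ^ (j + 1), q * p ^ (T + 1) - b, -(-1 * p ^ (T + 1 - j)), 3,
        -(-1 * q * p ^ j)⟩ : Fm)) j
      = Ge q0 n e ψ p (2 * p + l) (-p) (-q) p pb (0 + j) := by
    intro j hj
    have hj' := Finset.mem_range.1 hj
    unfold Ge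
    rw [zero_add]
    show Es (FZ 13 q0 n e ψ) ((p ^ (j + 1) : ℤ) : ZMod (QN 13 q0 n))
      ((q * p ^ (T + 1) - b : ℤ) : ZMod (QN 13 q0 n))
      ((-(-(-1 * p ^ (T + 1 - j))) : ℤ) : ZMod (QN 13 q0 n))
      (-(-(-1 * q * p ^ j))) = _
    have h0 : ((p ^ (j + 1) : ℤ) : ZMod (QN 13 q0 n))
        = ((p * p ^ j : ℤ) : ZMod (QN 13 q0 n)) := by
      rw [pow_succ, mul_comm]
    have h1 : ((-(-(-1 * p ^ (T + 1 - j))) : ℤ) : ZMod (QN 13 q0 n))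
        = ((-p * pb ^ j : ℤ) : ZMod (QN 13 q0 n)) := by
      have h3 := pow_compl hpb hT (j := j) (by omega)
      push_cast
      rw [neg_neg, h3]
      ring
    have h2 : -(-(-1 * q * p ^ j)) = -q * p ^ j := by ring
    rw [hN', h0, h1, h2]
  rw [Finset.sum_congr rfl a3, Finset.sum_congr rfl a4, a0, a1, a2]
  ring

/-- change of the letter factor modulo `Q`, type I -/
theorem Ge_lam (hTLQ : Stmt_TLQ) {q0 n e e0 : ℕ} {ψ : ℤ → ℤ} [NeZero (QN 13 q0 n)]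
    (hF : PSX.Fm 13 q0 n e e0 ψ) (he : 2 * e0 < 13 - 1) {α R β lam lam' p pb : ℤ}
    (h : (lam' : ZMod (QN 13 q0 n)) = lam) (j : ℕ) :
    Ge q0 n e ψ α R β lam' p pb j = Ge q0 n e ψ α R β lam p pb j := by
  unfold Ge
  apply hTLQ 13 q0 n e e0 ψ hF he
  apply dvd_of_cast
  push_cast
  rw [h]

/-- `x¹² ≡ 1` -/
theorem pow12 {p : ℤ} (h : IsCoprime p 1365) : (1365 : ℤ) ∣ p ^ 12 - 1 := by
  have key : ∀ r : ℕ, r.Prime → (r : ℤ) ∣ 1365 → (∀ x : ZMod r, x ≠ 0 → x ^ 12 = 1) →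
      (r : ℤ) ∣ p ^ 12 - 1 := by
    intro r hr hd hx
    have : NeZero r := ⟨hr.ne_zero⟩
    have h1 : ((p : ℤ) : ZMod r) ≠ 0 := by
      intro h0
      rw [ZMod.intCast_zmod_eq_zero_iff_dvd] at h0
      have h2 := h.isUnit_of_dvd' h0 hd
      rw [Int.isUnit_iff] at h2
      have := hr.one_lt
      omega
    rw [← ZMod.intCast_zmod_eq_zero_iff_dvd]
    push_cast
    rw [hx _ h1, sub_self]
  have h3 := key 3 (by norm_num) (by norm_num) (by decide)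
  have h5 := key 5 (by norm_num) (by norm_num) (by decide)
  have h7 := key 7 (by norm_num) (by norm_num) (by decide)
  have h13 := key 13 (by norm_num) (by norm_num) (by decide)
  generalize p ^ 12 - 1 = x at h3 h5 h7 h13
  omega

theorem exists_pb {p : ℤ} (h : IsCoprime p 1365) (k : ℕ) :
    ∃ pb : ℤ, (105 * 13 ^ k : ℤ) ∣ p * pb - 1 := by
  have h1 : IsCoprime p (105 * 13 ^ k) := by
    have e : (1365 : ℤ) = 105 * 13 := by norm_num
    rw [e] at h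
    exact IsCoprime.mul_right h.of_mul_right_left (h.of_mul_right_right.pow_right)
  obtain ⟨a, b, hab⟩ := h1
  exact ⟨a, -b, by linear_combination hab⟩

/-- casts of the data of the second ghost -/
theorem data {Q : ℕ} [NeZero Q] {l p q b : ℤ} (hqb : q * b = -1 * p - l)
    (hq : (Q : ℤ) ∣ q - 1) : (q : ZMod Q) = 1 ∧ (b : ZMod Q) = -(p + l) := by
  have h1 : (q : ZMod Q) = 1 := by
    have := (ZMod.intCast_zmod_eq_zero_iff_dvd _ Q).2 hq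
    push_cast at this
    exact sub_eq_zero.1 this
  refine ⟨h1, ?_⟩
  have h2 := congrArg (fun x : ℤ => (x : ZMod Q)) hqb
  push_cast at h2
  rw [h1, one_mul] at h2
  rw [h2]
  ring

theorem cast_one {Q : ℕ} [NeZero Q] {x : ℤ} (h : (Q : ℤ) ∣ x - 1) : (x : ZMod Q) = 1 := by
  have := (ZMod.intCast_zmod_eq_zero_iff_dvd _ Q).2 h
  push_cast at this
  exact sub_eq_zero.1 this

/-- the discriminant modulo `1365` -/
theorem disc {D l p q b : ℤ} {T : ℕ} (hl : OEX.Sg l) (hqb : q * b = -1 * p - l)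
    (hD : D = (q * p ^ (T + 1) + b) ^ 2 + 4 * l * p ^ (T + 1)) (hq : (1365 : ℤ) ∣ q - 1)
    (hT : (1365 : ℤ) ∣ p ^ T - 1) (r : ℕ) [NeZero r] (hr : (r : ℤ) ∣ 1365) :
    (D : ZMod r) = ((1 + 4 * l * p : ℤ) : ZMod r) := by
  obtain ⟨h1, h2⟩ := data hqb (hr.trans hq)
  have h3 := cast_one (hr.trans hT)
  push_cast at h3
  have hll : (l : ZMod r) * l = 1 := by
    have := congrArg (fun x : ℤ => (x : ZMod r)) (H1M.sq_one hl)
    push_cast at this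
    exact this
  have h4 : (p : ZMod r) ^ (T + 1) = p := by rw [pow_succ, h3, one_mul]
  rw [hD]
  push_cast
  rw [h1, h2, h4]
  linear_combination hll

theorem nr {D l p q b : ℤ} {T : ℕ} (hl : OEX.Sg l) (hqb : q * b = -1 * p - l)
    (hD : D = (q * p ^ (T + 1) + b) ^ 2 + 4 * l * p ^ (T + 1)) (hq : (1365 : ℤ) ∣ q - 1)
    (hT : (1365 : ℤ) ∣ p ^ T - 1) (hN : PSX.Nr D) : PSX.Nr (1 + 4 * l * p) := by
  refine ⟨?_, ?_, ?_, ?_⟩
  · have : NeZero 3 := ⟨by norm_num⟩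
    rw [← disc hl hqb hD hq hT 3 (by norm_num)]
    exact hN.h3
  · rw [← disc hl hqb hD hq hT 5 (by norm_num)]
    exact hN.h5
  · rw [← disc hl hqb hD hq hT 7 (by norm_num)]
    exact hN.h7
  · rw [← disc hl hqb hD hq hT 13 (by norm_num)]
    exact hN.h13

end H2M

open H2M in
/-- **H2I** -/
theorem t_H2I (hLTE : Stmt_LTE) (hTLQ : Stmt_TLQ) (hTCY : Stmt_TCY) (hCR1 : Stmt_CR1) :
    Stmt_H2I := by
  intro D l p q b m n hP hN hR hcop hpT hq hn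
  by_contra hn1
  obtain ⟨T, rfl⟩ : ∃ T, m = T + 1 := ⟨m - 1, by have := hP.m1; omega⟩
  rw [Nat.add_sub_cancel] at hpT hn hn1
  have h1365 : (1365 : ℤ) ∣ (105 * 13 ^ (n + 1) : ℤ) := ⟨13 ^ n, by rw [pow_succ]; ring⟩
  have hpT' : (105 * 13 ^ (n + 1) : ℤ) ∣ p ^ T - 1 := by
    have := hLTE 105 p n T (by norm_num) hn (by exact_mod_cast hpT)
    exact_mod_cast this
  obtain ⟨pb, hpb⟩ := exists_pb hcop (n + 1)
  have hNr := nr hP.l1 hP.qb hP.D1 (h1365.trans hq) hpT hN.nr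
  obtain ⟨q0, e, e0, ψ, _, hq0, hF, he, hne⟩ := hCR1 n T 1 0 p pb p l 1 hP.l1 hn hn1 (pow12 hcop)
    hpT hpb (by rw [pow_one, sub_self]; exact dvd_zero _) hNr
  apply hne
  have hQd : ∀ x : ℤ, (105 * 13 ^ (n + 1) : ℤ) ∣ x → ((QN 13 q0 n : ℕ) : ℤ) ∣ x := by
    intro x hx
    refine dvd_trans ?_ hx
    unfold QN
    push_cast
    have : (q0 : ℤ) ∣ 105 := by exact_mod_cast hq0
    exact mul_dvd_mul_right this _
  obtain ⟨hq1, hb1⟩ := data hP.qb (hQd _ hq)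
  have hT1 : (p : ZMod (QN 13 q0 n)) ^ T = 1 := by
    have := cast_one (hQd _ hpT')
    push_cast at this
    exact this
  have hpb1 : (p : ZMod (QN 13 q0 n)) * pb = 1 := by
    have := cast_one (hQd _ hpb)
    push_cast at this
    exact this
  have hll : (l : ZMod (QN 13 q0 n)) * l = 1 := by
    have := congrArg (fun x : ℤ => (x : ZMod (QN 13 q0 n))) (H1M.sq_one hP.l1)
    push_cast at this
    exact this
  have h0 : q0 ∣ Q0 := hq0.trans (by unfold Q0; norm_num)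
  have h1 := hR q0 n e e0 ψ h0 hF
  rw [EJ_g2 hP.l1 hq1 hT1 hb1 hpb1] at h1
  have g1 : ∀ j ∈ range T, Ge q0 n e ψ 1 (-l) (l * p) (l * q) p pb (1 + j)
      = Ge q0 n e ψ 1 (-l) (l * p) l p pb (1 + j) := fun j _ =>
    Ge_lam hTLQ hF he (by push_cast; rw [hq1, mul_one]) _
  have g2 : ∀ j ∈ range T, Ge q0 n e ψ p (2 * p + l) (-p) (-q) p pb (0 + j)
      = Ge q0 n e ψ p (2 * p + l) (-p) (-1) p pb (0 + j) := fun j _ =>
    Ge_lam hTLQ hF he (by push_cast; rw [hq1]) _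
  rw [Finset.sum_congr rfl g1, Finset.sum_congr rfl g2] at h1
  have hc := hTCY 13 q0 n e e0 ψ hF l p hP.l1
  have b1 := hTLQ 13 q0 n e e0 ψ hF he 1 (-l) (l * p) l (l * q) (dvd_of_cast (by
    push_cast
    rw [hq1, mul_one]))
  have b2 := hTLQ 13 q0 n e e0 ψ hF he p (-l) l (-1) (l * q * p ^ (T + 1) + l * b)
    (dvd_of_cast (by
      push_cast
      rw [hq1, hb1, pow_succ, hT1]
      linear_combination -hll))
  have b3 := hTLQ 13 q0 n e e0 ψ hF he p (2 * p + l) (-p) (-1) (-(q * p ^ T))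
    (dvd_of_cast (by
      push_cast
      rw [hq1, hT1]
      ring))
  rw [b1, b2, b3] at h1
  rw [hc, zero_add] at h1
  exact h1

end Pool.Agent.OEG.G
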