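import Pool.Agent.OEG.GG4

/-!
# Project OEG, module H3I: the third ghost, type I
-/

set_option autoImplicit false

namespace Pool.Agent.OEG.G

open Finset (range)
open Pool.Agent.PSX (Es)
open Pool.Agent.P4G (Fam QN FN FZ)
open Pool.Agent.Lib_helper5.LK (Fm)

namespace H3M

lemma cast_of {Q : ℕ} {x y : ℤ} (h : (Q : ℤ) ∣ x - y) : ((x : ℤ) : ZMod Q) = ((y : ℤ) : ZMod Q) :=
  ((ZMod.intCast_eq_intCast_iff_dvd_sub y x Q).2 h).symm

/-- the residues of the data of the third ghost -/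
lemma res {R : Type*} [CommRing R] {p pb q b u : R} {m : ℕ} (hq : q = p)
    (hqb : q * b = u * p + 1) (hpb : p * pb = 1) (hT : p ^ (m + 2) = 1) :
    b = u + pb ∧ p ^ (m + 1) = pb ∧ p ^ m = pb * pb ∧ q * p ^ m + b = 2 * pb + u ∧
      q * p ^ m - b = -u := by
  subst hq
  have h1 : b = u + pb := by
    linear_combination pb * hqb + (u - b) * hpb
  have h2 : q ^ (m + 1) = pb := by
    have e : q ^ (m + 2) = q ^ (m + 1) * q := by rw [← pow_succ]
    rw [e] at hT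
    linear_combination (-q ^ (m + 1)) * hpb + pb * hT
  have h3 : q ^ m = pb * pb := by
    have e : q ^ (m + 1) = q ^ m * q := by rw [← pow_succ]
    rw [e] at h2
    linear_combination (-q ^ m) * hpb + pb * h2
  refine ⟨h1, h2, h3, ?_, ?_⟩
  · rw [h3, h1]
    linear_combination pb * hpb
  · rw [h3, h1]
    linear_combination pb * hpb

/-- the list of the third ghost, with the letters modulo `Q` -/
lemma EJ_g3 (hEX3 : Stmt_EX3) (hTLQ : Stmt_TLQ) (hTCY : Stmt_TCY) {q0 n e e0 : ℕ} {ψ : ℤ → ℤ}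
    [NeZero (QN 13 q0 n)] (hF : PSX.Fm 13 q0 n e e0 ψ) (he : 2 * e0 < 12) {u p q b pb : ℤ} {m : ℕ}
    (hu : OEX.Sg u) (hqb : q * b = u * p + 1) (hq : ((q : ℤ) : ZMod (QN 13 q0 n)) = (p : ℤ))
    (hpb : ((QN 13 q0 n : ℕ) : ℤ) ∣ p * pb - 1)
    (hT : ((p : ℤ) : ZMod (QN 13 q0 n)) ^ (m + 2) = 1) :
    EJ (FZ 13 q0 n e ψ) (J1 (-1) u p q b m)
      = ∑ j ∈ range (m + 2), Ge q0 n e ψ 1 (-u) (u * pb) u p pb (0 + j)
        + ∑ j ∈ range (m + 2), Ge q0 n e ψ pb (2 * pb + u) (-pb) (-1) p pb (1 + j) := by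
  have hpb' : ((p : ℤ) : ZMod (QN 13 q0 n)) * (pb : ℤ) = 1 := by
    have := cast_of hpb
    push_cast at this
    exact this
  have hqb' : ((q : ℤ) : ZMod (QN 13 q0 n)) * (b : ℤ) = (u : ℤ) * (p : ℤ) + 1 := by
    have := congrArg (fun x : ℤ => (x : ZMod (QN 13 q0 n))) hqb
    push_cast at this
    exact this
  obtain ⟨r1, r2, r3, r4, r5⟩ := res hq hqb' hpb' hT
  have huu : ((u : ℤ) : ZMod (QN 13 q0 n)) * (u : ℤ) = 1 := by
    rcases hu with rfl | rfl <;> norm_num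
  -- the edge sum depends on the residues only
  have hc : ∀ P R S c P' R' S' c' : ℤ, ((P' : ℤ) : ZMod (QN 13 q0 n)) = (P : ZMod (QN 13 q0 n)) →
      ((R' : ℤ) : ZMod (QN 13 q0 n)) = (R : ZMod (QN 13 q0 n)) →
      ((S' : ℤ) : ZMod (QN 13 q0 n)) = (S : ZMod (QN 13 q0 n)) →
      ((c' : ℤ) : ZMod (QN 13 q0 n)) = (c : ZMod (QN 13 q0 n)) →
      Es (FZ 13 q0 n e ψ) (P' : ZMod (QN 13 q0 n)) (R' : ZMod (QN 13 q0 n))
        (S' : ZMod (QN 13 q0 n)) c' = Es (FZ 13 q0 n e ψ) (P : ZMod (QN 13 q0 n))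
        (R : ZMod (QN 13 q0 n)) (S : ZMod (QN 13 q0 n)) c := by
    intro P R S c P' R' S' c' h1 h2 h3 h4
    rw [h1, h2, h3]
    exact hTLQ 13 q0 n e e0 ψ hF he P R S c c'
      ((ZMod.intCast_eq_intCast_iff_dvd_sub c c' _).1 h4.symm)
  rw [hEX3 q0 n e e0 ψ hF u p q b pb (u * q * pb) m hu hqb hpb]
  -- the first sum
  have s1 : ∀ j ∈ range (m + 2), Es (FZ 13 q0 n e ψ) ((p ^ j : ℤ) : ZMod (QN 13 q0 n))
            ((q * p ^ m + b : ℤ) : ZMod (QN 13 q0 n))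
            ((-(p ^ m * pb ^ j) : ℤ) : ZMod (QN 13 q0 n)) (-(q * p ^ j))
      = Ge q0 n e ψ pb (2 * pb + u) (-pb) (-1) p pb (1 + j) := by
    intro j _
    unfold Ge
    apply hc
    · push_cast
      rw [pow_add, pow_one]
      linear_combination (-((p : ℤ) : ZMod (QN 13 q0 n)) ^ j) * hpb'
    · push_cast; exact r4
    · push_cast; rw [r3]; ring
    · push_cast; rw [hq]; ring
  -- the second sum
  have s2 : ∀ j ∈ range (m + 1), Es (FZ 13 q0 n e ψ) ((p ^ (j + 1) : ℤ) : ZMod (QN 13 q0 n))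
            ((q * p ^ m - b : ℤ) : ZMod (QN 13 q0 n))
            ((u * (p ^ (m + 1) * pb ^ (j + 1)) : ℤ) : ZMod (QN 13 q0 n)) (u * q * p ^ j)
      = Ge q0 n e ψ 1 (-u) (u * pb) u p pb (0 + (j + 1)) := by
    intro j _
    unfold Ge
    rw [zero_add]
    apply hc
    · rw [one_mul]
    · push_cast; exact r5
    · push_cast; rw [r2]; ring
    · push_cast; rw [hq]; ring
  have s3 : Es (FZ 13 q0 n e ψ) ((1 : ℤ) : ZMod (QN 13 q0 n))
            ((q * p ^ m - b : ℤ) : ZMod (QN 13 q0 n)) ((u * p ^ (m + 1) : ℤ) : ZMod (QN 13 q0 n))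
            (u * q * pb)
      = Ge q0 n e ψ 1 (-u) (u * pb) u p pb (0 + 0) := by
    unfold Ge
    apply hc
    · rw [add_zero, pow_zero, one_mul]
    · push_cast; exact r5
    · push_cast; rw [r2, pow_zero, mul_one]
    · push_cast; rw [hq, pow_zero]
      linear_combination ((u : ℤ) : ZMod (QN 13 q0 n)) * hpb'
  -- the bracket
  have t1 : Es (FZ 13 q0 n e ψ) ((p ^ (m + 1) : ℤ) : ZMod (QN 13 q0 n))
            ((q * p ^ m + b : ℤ) : ZMod (QN 13 q0 n)) ((-pb : ℤ) : ZMod (QN 13 q0 n))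
            (-(q * p ^ (m + 1)))
      = Es (FZ 13 q0 n e ψ) ((pb : ℤ) : ZMod (QN 13 q0 n))
          ((2 * pb + u : ℤ) : ZMod (QN 13 q0 n)) ((-pb : ℤ) : ZMod (QN 13 q0 n)) (-1) := by
    apply hc
    · push_cast; exact r2
    · push_cast; exact r4
    · rfl
    · push_cast; rw [hq, r2, hpb']
  have t2 : Es (FZ 13 q0 n e ψ) ((1 : ℤ) : ZMod (QN 13 q0 n))
            ((q * p ^ m - b : ℤ) : ZMod (QN 13 q0 n)) ((u * p ^ (m + 1) : ℤ) : ZMod (QN 13 q0 n))
            (u * q * pb)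
      = Es (FZ 13 q0 n e ψ) ((1 : ℤ) : ZMod (QN 13 q0 n)) ((-u : ℤ) : ZMod (QN 13 q0 n))
          ((u * pb : ℤ) : ZMod (QN 13 q0 n)) u := by
    apply hc
    · rfl
    · push_cast; exact r5
    · push_cast; rw [r2]
    · push_cast; rw [hq]
      linear_combination ((u : ℤ) : ZMod (QN 13 q0 n)) * hpb'
  have t3 : Es (FZ 13 q0 n e ψ) ((p ^ (m + 1) : ℤ) : ZMod (QN 13 q0 n))
            ((q * p ^ m - b : ℤ) : ZMod (QN 13 q0 n)) ((u : ℤ) : ZMod (QN 13 q0 n))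
            (u * (q * p ^ m - b))
      = Es (FZ 13 q0 n e ψ) ((pb : ℤ) : ZMod (QN 13 q0 n)) ((-u : ℤ) : ZMod (QN 13 q0 n))
          ((u : ℤ) : ZMod (QN 13 q0 n)) (-1) := by
    apply hc
    · push_cast; exact r2
    · push_cast; exact r5
    · rfl
    · push_cast; rw [r5]
      linear_combination -huu
  have hTC := hTCY 13 q0 n e e0 ψ hF u pb hu
  rw [Finset.sum_congr rfl s1, Finset.sum_congr rfl s2, t1, t3]
  nth_rewrite 1 [s3]
  rw [t2]
  rw [Finset.sum_range_succ' (fun j => Ge q0 n e ψ 1 (-u) (u * pb) u p pb (0 + j)) (m + 1)]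
  have key : ∀ a b c x y z : ZMod (13 ^ (n + 1)), y + z + x = 0 →
      a + (b + c) - (x + y + z) = b + c + a := by
    intro a b c x y z h
    linear_combination -h
  exact key _ _ _ _ _ _ hTC

end H3M

theorem t_H3I (hEX3 : Stmt_EX3) (hLTE : Stmt_LTE) (hTLQ : Stmt_TLQ) (hTCY : Stmt_TCY)
    (hCR1 : Stmt_CR1) : Stmt_H3I := by
  intro D u p q b m n hP hNr hRel hcop hT hq hn
  by_contra hn'
  have hqb : q * b = u * p + 1 := by rw [hP.qb]; ring
  have hL : ((105 * 13 ^ (n + 1) : ℕ) : ℤ) ∣ p ^ (m + 2) - 1 :=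
    hLTE 105 p n (m + 2) (by norm_num) hn (by exact_mod_cast hT)
  have hL' : (105 * 13 ^ (n + 1) : ℤ) ∣ p ^ (m + 2) - 1 := by exact_mod_cast hL
  have hinv : (105 * 13 ^ (n + 1) : ℤ) ∣ p * p ^ (m + 1) - 1 := by
    rw [← pow_succ']; exact hL'
  have h1365 : (1365 : ℤ) ∣ 105 * 13 ^ (n + 1) := by
    rw [pow_succ']
    exact ⟨13 ^ n, by ring⟩
  -- the discriminant
  have hN' : (1365 : ℤ) ∣ q * p ^ m - b + u := by
    have h1 : (1365 : ℤ) ∣ p * (q * p ^ m - b + u) := by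
      have e : p * (q * p ^ m - b + u) = (q - p) * (p ^ (m + 1) + b) + (p ^ (m + 2) - 1) := by
        rw [pow_succ, pow_succ, pow_succ]
        linear_combination -hqb
      rw [e]
      exact dvd_add ((h1365.trans hq).mul_right _) hT
    exact (hcop.symm).dvd_of_dvd_mul_left h1
  have hN : PSX.Nr (1 + 4 * u * p ^ (m + 1)) := by
    refine G4M.nr_congr (D := D) ?_ hNr.nr
    have huu : u * u = 1 := by rcases hP.u1 with h | h <;> rw [h] <;> norm_num
    have e : D - (1 + 4 * u * p ^ (m + 1)) = (q * p ^ m - b + u) * (q * p ^ m - b - u) := by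
      rw [hP.D1, pow_succ]
      linear_combination huu + 4 * p ^ m * hqb
    rw [e]
    exact hN'.mul_right _
  obtain ⟨q0, e, e0, ψ, ine, hq0, hF, he, hne⟩ := hCR1 n (m + 2) 0 1 p (p ^ (m + 1))
    (p ^ (m + 1)) u (m + 1) hP.u1 hn hn' (G4M.pow12 hcop) hT hinv
    (by rw [sub_self]; exact dvd_zero _) hN
  apply hne
  have hQN : ((QN 13 q0 n : ℕ) : ℤ) ∣ (105 * 13 ^ (n + 1) : ℤ) := by
    unfold QN
    push_cast
    exact mul_dvd_mul_right (by exact_mod_cast hq0) _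
  have hT' : ((p : ℤ) : ZMod (QN 13 q0 n)) ^ (m + 2) = 1 := by
    have := H3M.cast_of (hQN.trans hL')
    push_cast at this
    exact this
  rw [← H3M.EJ_g3 hEX3 hTLQ hTCY hF he hP.u1 hqb (H3M.cast_of (hQN.trans hq)) (hQN.trans hinv) hT']
  exact hRel q0 n e e0 ψ (hq0.trans (by unfold Q0; norm_num)) hF

end Pool.Agent.OEG.G
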