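import Pool.Agent.OEG.StG

/-!
# Project OEG, module H4R: the fourth ghost, reduction of the list
-/

set_option autoImplicit false

namespace Pool.Agent.OEG.G

open Finset (range)
open Pool.Agent.PSX (Es)
open Pool.Agent.P4G (Fam QN FN FZ)
open Pool.Agent.Lib_helper5.LK (Fm)

namespace H4M

lemma lsum {M : Type*} [AddCommMonoid M] (f : ℕ → M) (k : ℕ) :
    ((List.range k).map f).sum = ∑ j ∈ range k, f j := by
  induction k with
  | zero => simp
  | succ k ih =>
    rw [List.range_succ, List.map_append, List.sum_append, ih, Finset.sum_range_succ]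
    simp

/-- the reduction, in the abstract: `E` depends on the residues only and has the symmetries -/
theorem main {Q : ℕ} {M' : Type*} [AddCommGroup M'] (E : ℤ → ℤ → ℤ → ℤ → M')
    (hc : ∀ P R S c P' R' S' c' : ℤ, ((P' : ℤ) : ZMod Q) = (P : ZMod Q) →
      ((R' : ℤ) : ZMod Q) = (R : ZMod Q) → ((S' : ℤ) : ZMod Q) = (S : ZMod Q) →
      ((c' : ℤ) : ZMod Q) = (c : ZMod Q) → E P' R' S' c' = E P R S c)
    (l : ℤ) (hl : l * l = 1) (hs : ∀ P R S c : ℤ, E (l * P) R (l * S) (l * c) = E P R S c)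
    (h2 : ∀ P R S c : ℤ, E P (-R) S (-c) = - E P R S c)
    (h3 : ∀ P R S : ℤ, E S (-R) P 0 = - E P R S 0)
    (p pb : ℤ) (M K : ℕ)
    (hT : E 1 (-l) (l * p ^ (M + 1)) l + E (p ^ (M + 1)) (-l) l (-1)
      + E (p ^ (M + 1)) (2 * p ^ (M + 1) + l) (-p ^ (M + 1)) (-1) = 0)
    (hpb : (p : ZMod Q) * (pb : ZMod Q) = 1) (hK : (p : ZMod Q) ^ (K + 1) = 1) :
    (∑ j ∈ range (M + 1 + 1), E (p ^ j) (p ^ (M + 1 + (K + 1)) - p ^ (M + 1) + l)
        (l * p ^ (M + 1 - j)) (if j = M + 1 then l * (p ^ (M + 1 + (K + 1)) - p ^ (M + 1) + l)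
          else l * (p ^ (K + 1 + j) - p ^ j)))
      + (∑ i ∈ range K, E (p ^ (M + 1 + 1 + i)) (p ^ (M + 1 + (K + 1)) + p ^ (M + 1) + l)
          (-p ^ (M + 1 + K - i)) (-p ^ (i + 1)))
      + (∑ i ∈ range (K + 1 + M), E (p ^ (i + 1)) (p ^ (M + 1 + (K + 1)) - p ^ (M + 1) - l)
          (l * p ^ (M + 1 + K - i))
          (l * p ^ (i + 1) - if K + 1 ≤ i + 1 then l * p ^ (i - K) else 0))
      = ∑ j ∈ range (K + 1), E (1 * p ^ (1 + j)) (-l) (l * p ^ (M + 1) * pb ^ (1 + j))
          (l * p ^ (1 + j))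
        + ∑ j ∈ range (K + 1), E (p ^ (M + 1) * p ^ (1 + j)) (2 * p ^ (M + 1) + l)
          (-(p ^ (M + 1)) * pb ^ (1 + j)) (-1 * p ^ (1 + j)) := by
  have hA : (p : ZMod Q) ^ (M + 1 + (K + 1)) = (p : ZMod Q) ^ (M + 1) := by
    rw [pow_add, hK, mul_one]
  -- the key congruence
  have hinv : ∀ a k : ℕ, a + k = M + 1 + (K + 1) →
      (p : ZMod Q) ^ a = (p : ZMod Q) ^ (M + 1) * (pb : ZMod Q) ^ k := by
    intro a k hak
    have e1 : (p : ZMod Q) ^ k * (pb : ZMod Q) ^ k = 1 := by rw [← mul_pow, hpb, one_pow]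
    calc (p : ZMod Q) ^ a = (p : ZMod Q) ^ a * ((p : ZMod Q) ^ k * (pb : ZMod Q) ^ k) := by
          rw [e1, mul_one]
      _ = (p : ZMod Q) ^ (M + 1) * (pb : ZMod Q) ^ k := by
          rw [← mul_assoc, ← pow_add, hak, hA]
  -- the first sum
  rw [Finset.sum_range_succ _ (M + 1), Finset.sum_range_succ' _ M]
  -- the third sum
  rw [Finset.sum_range_add _ (K + 1) M, Finset.sum_range_succ _ K]
  -- the right hand side
  rw [Finset.sum_range_succ (fun j => E (1 * p ^ (1 + j)) (-l) (l * p ^ (M + 1) * pb ^ (1 + j))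
    (l * p ^ (1 + j))) K, Finset.sum_range_succ (fun j => E (p ^ (M + 1) * p ^ (1 + j))
    (2 * p ^ (M + 1) + l) (-(p ^ (M + 1)) * pb ^ (1 + j)) (-1 * p ^ (1 + j))) K]
  -- the pairs
  have hpair : (∑ k ∈ range M, E (p ^ (k + 1)) (p ^ (M + 1 + (K + 1)) - p ^ (M + 1) + l)
        (l * p ^ (M + 1 - (k + 1))) (if k + 1 = M + 1 then
          l * (p ^ (M + 1 + (K + 1)) - p ^ (M + 1) + l) else l * (p ^ (K + 1 + (k + 1)) - p ^ (k + 1))))
      + (∑ x ∈ range M, E (p ^ (K + 1 + x + 1)) (p ^ (M + 1 + (K + 1)) - p ^ (M + 1) - l)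
          (l * p ^ (M + 1 + K - (K + 1 + x)))
          (l * p ^ (K + 1 + x + 1) - if K + 1 ≤ K + 1 + x + 1 then l * p ^ (K + 1 + x - K) else 0))
      = 0 := by
    rw [← Finset.sum_range_reflect, ← Finset.sum_add_distrib]
    apply Finset.sum_eq_zero
    intro k hk
    rw [Finset.mem_range] at hk
    have e1 : M - 1 - k + 1 = M - k := by omega
    rw [e1, if_neg (by omega), if_pos (by omega)]
    have a1 : E (p ^ (M - k)) (p ^ (M + 1 + (K + 1)) - p ^ (M + 1) + l) (l * p ^ (M + 1 - (M - k)))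
        (l * (p ^ (K + 1 + (M - k)) - p ^ (M - k))) = E (p ^ (M - k)) l (l * p ^ (k + 1)) 0 := by
      apply hc
      · rfl
      · push_cast; rw [hA]; ring
      · rw [show M + 1 - (M - k) = k + 1 by omega]
      · push_cast; rw [pow_add, hK]; ring
    have a2 : E (p ^ (K + 1 + k + 1)) (p ^ (M + 1 + (K + 1)) - p ^ (M + 1) - l)
          (l * p ^ (M + 1 + K - (K + 1 + k)))
          (l * p ^ (K + 1 + k + 1) - l * p ^ (K + 1 + k - K))
        = E (l * p ^ (k + 1)) (-l) (p ^ (M - k)) 0 := by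
      rw [← hs (p ^ (K + 1 + k + 1))]
      apply hc
      · push_cast
        rw [show K + 1 + k + 1 = K + 1 + (k + 1) by omega, pow_add, hK, one_mul]
      · push_cast; rw [hA]; ring
      · rw [show M + 1 + K - (K + 1 + k) = M - k by omega, ← mul_assoc, hl, one_mul]
      · rw [show K + 1 + k + 1 = K + 1 + (k + 1) by omega, show K + 1 + k - K = k + 1 by omega]
        push_cast
        rw [pow_add, hK]; ring
    rw [a1, a2, h3, add_neg_cancel]
  -- the two terms which cancel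
  have h00 : E (p ^ 0) (p ^ (M + 1 + (K + 1)) - p ^ (M + 1) + l)
        (l * p ^ (M + 1 - 0)) (if 0 = M + 1 then
          l * (p ^ (M + 1 + (K + 1)) - p ^ (M + 1) + l) else l * (p ^ (K + 1 + 0) - p ^ 0))
      + E (p ^ (K + 1)) (p ^ (M + 1 + (K + 1)) - p ^ (M + 1) - l)
          (l * p ^ (M + 1 + K - K))
          (l * p ^ (K + 1) - if K + 1 ≤ K + 1 then l * p ^ (K - K) else 0) = 0 := by
    rw [if_neg (by omega), if_pos (le_refl _)]
    have a1 : E (p ^ 0) (p ^ (M + 1 + (K + 1)) - p ^ (M + 1) + l) (l * p ^ (M + 1 - 0))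
        (l * (p ^ (K + 1 + 0) - p ^ 0)) = E 1 l (l * p ^ (M + 1)) 0 := by
      apply hc
      · push_cast; rw [pow_zero]
      · push_cast; rw [hA]; ring
      · rw [Nat.sub_zero]
      · push_cast; rw [add_zero, hK]; ring
    have a2 : E (p ^ (K + 1)) (p ^ (M + 1 + (K + 1)) - p ^ (M + 1) - l) (l * p ^ (M + 1 + K - K))
        (l * p ^ (K + 1) - l * p ^ (K - K)) = E 1 (-l) (l * p ^ (M + 1)) (-0) := by
      apply hc
      · push_cast; exact hK
      · push_cast; rw [hA]; ring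
      · rw [Nat.add_sub_cancel]
      · push_cast; rw [hK, Nat.sub_self]; ring
    rw [a1, a2, h2, add_neg_cancel]
  -- the edge `N_m`
  have hm : E (p ^ (M + 1)) (p ^ (M + 1 + (K + 1)) - p ^ (M + 1) + l)
        (l * p ^ (M + 1 - (M + 1))) (if M + 1 = M + 1 then
          l * (p ^ (M + 1 + (K + 1)) - p ^ (M + 1) + l) else
          l * (p ^ (K + 1 + (M + 1)) - p ^ (M + 1)))
      = E 1 (-l) (l * p ^ (M + 1)) l
        + E (p ^ (M + 1)) (2 * p ^ (M + 1) + l) (-p ^ (M + 1)) (-1) := by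
    rw [if_pos rfl]
    have a1 : E (p ^ (M + 1)) (p ^ (M + 1 + (K + 1)) - p ^ (M + 1) + l)
        (l * p ^ (M + 1 - (M + 1))) (l * (p ^ (M + 1 + (K + 1)) - p ^ (M + 1) + l))
        = E (p ^ (M + 1)) (-(-l)) l (-(-1)) := by
      apply hc
      · rfl
      · push_cast; rw [hA]; ring
      · rw [Nat.sub_self, pow_zero, mul_one]
      · push_cast; rw [hA]
        have : (l : ZMod Q) * (l : ZMod Q) = 1 := by exact_mod_cast congrArg (fun x : ℤ => (x : ZMod Q)) hl
        linear_combination this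
    rw [a1, h2]
    rw [neg_eq_iff_eq_neg, eq_comm, neg_eq_iff_add_eq_zero, ← hT]
    abel
  -- the last terms on the right
  have hpbK : (pb : ZMod Q) ^ (K + 1) = 1 := by
    have : ((p : ZMod Q) * (pb : ZMod Q)) ^ (K + 1) = 1 := by rw [hpb, one_pow]
    rw [mul_pow, hK, one_mul] at this
    exact this
  have r1 : E (1 * p ^ (1 + K)) (-l) (l * p ^ (M + 1) * pb ^ (1 + K)) (l * p ^ (1 + K))
      = E 1 (-l) (l * p ^ (M + 1)) l := by
    rw [add_comm 1 K]
    apply hc
    · push_cast; rw [hK, one_mul]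
    · rfl
    · push_cast; rw [hpbK, mul_one]
    · push_cast; rw [hK, mul_one]
  have r2 : E (p ^ (M + 1) * p ^ (1 + K)) (2 * p ^ (M + 1) + l) (-(p ^ (M + 1)) * pb ^ (1 + K))
        (-1 * p ^ (1 + K))
      = E (p ^ (M + 1)) (2 * p ^ (M + 1) + l) (-p ^ (M + 1)) (-1) := by
    rw [add_comm 1 K]
    apply hc
    · push_cast; rw [hK, mul_one]
    · rfl
    · push_cast; rw [hpbK, mul_one]
    · push_cast; rw [hK, mul_one]
  -- the terms one by one
  have s1 : ∑ i ∈ range K, E (p ^ (M + 1 + 1 + i)) (p ^ (M + 1 + (K + 1)) + p ^ (M + 1) + l)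
          (-p ^ (M + 1 + K - i)) (-p ^ (i + 1))
      = ∑ j ∈ range K, E (p ^ (M + 1) * p ^ (1 + j)) (2 * p ^ (M + 1) + l)
          (-(p ^ (M + 1)) * pb ^ (1 + j)) (-1 * p ^ (1 + j)) := by
    apply Finset.sum_congr rfl
    intro i hi
    rw [Finset.mem_range] at hi
    apply hc
    · rw [← pow_add, add_assoc (M + 1)]
    · push_cast; rw [hA]; ring
    · push_cast
      rw [hinv (M + 1 + K - i) (1 + i) (by omega)]; ring
    · push_cast; rw [add_comm i 1]; ring
  have s2 : ∑ i ∈ range K, E (p ^ (i + 1)) (p ^ (M + 1 + (K + 1)) - p ^ (M + 1) - l)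
          (l * p ^ (M + 1 + K - i))
          (l * p ^ (i + 1) - if K + 1 ≤ i + 1 then l * p ^ (i - K) else 0)
      = ∑ j ∈ range K, E (1 * p ^ (1 + j)) (-l) (l * p ^ (M + 1) * pb ^ (1 + j))
          (l * p ^ (1 + j)) := by
    apply Finset.sum_congr rfl
    intro i hi
    rw [Finset.mem_range] at hi
    rw [if_neg (by omega)]
    apply hc
    · rw [one_mul, add_comm i 1]
    · push_cast; rw [hA]; ring
    · push_cast
      rw [hinv (M + 1 + K - i) (1 + i) (by omega)]; ring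
    · push_cast; rw [add_comm i 1]; ring
  rw [s1, s2, hm, r1, r2]
  have key : ∀ a b c d e f x y : M', a + e = 0 → b + c = 0 →
      a + b + (x + y) + d + (f + c + e) = f + x + (d + y) := by
    intro a b c d e f x y h1 h2
    have e1 : a + b + (x + y) + d + (f + c + e) = (a + e) + (b + c) + (f + x + (d + y)) := by abel
    rw [e1, h1, h2]; abel
  exact key _ _ _ _ _ _ _ _ hpair h00

end H4M

theorem t_H4R (hSYE : Stmt_SYE) (hTLQ : Stmt_TLQ) (hTCY : Stmt_TCY) : Stmt_H4R := by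
  intro q0 n e e0 ψ _ hFm he l p pb A m hl hm hA hpb hpA
  obtain ⟨M, rfl⟩ : ∃ M, m = M + 1 := ⟨m - 1, by omega⟩
  obtain ⟨K, rfl⟩ : ∃ K, A = M + 1 + (K + 1) := ⟨A - (M + 1) - 1, by omega⟩
  have hAm : M + 1 + (K + 1) - (M + 1) = K + 1 := by omega
  rw [hAm] at hpA ⊢
  have hll : l * l = 1 := by rcases hl with rfl | rfl <;> norm_num
  have hsy := hSYE (QN 13 q0 n) hFm.fam.Qodd (ZMod (13 ^ (n + 1))) (FZ 13 q0 n e ψ)
    hFm.fam.FZ_neg
  have key := H4M.main (Q := QN 13 q0 n)
    (fun P R S c => Es (FZ 13 q0 n e ψ) (P : ZMod (QN 13 q0 n)) (R : ZMod (QN 13 q0 n))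
      (S : ZMod (QN 13 q0 n)) c)
    (by
      intro P R S c P' R' S' c' h1 h2 h3 h4
      show Es (FZ 13 q0 n e ψ) (P' : ZMod (QN 13 q0 n)) (R' : ZMod (QN 13 q0 n))
        (S' : ZMod (QN 13 q0 n)) c' = Es (FZ 13 q0 n e ψ) (P : ZMod (QN 13 q0 n))
        (R : ZMod (QN 13 q0 n)) (S : ZMod (QN 13 q0 n)) c
      rw [h1, h2, h3]
      exact hTLQ 13 q0 n e e0 ψ hFm he P R S c c'
        ((ZMod.intCast_eq_intCast_iff_dvd_sub c c' _).1 h4.symm))
    l hll
    (by
      intro P R S c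
      rcases hl with rfl | rfl
      · simp only [one_mul]
      · have h := (hsy (P : ZMod (QN 13 q0 n)) (R : ZMod (QN 13 q0 n))
          (S : ZMod (QN 13 q0 n)) c).1
        simp only [neg_one_mul, Int.cast_neg]
        exact h)
    (by
      intro P R S c
      have h := (hsy (P : ZMod (QN 13 q0 n)) (R : ZMod (QN 13 q0 n))
          (S : ZMod (QN 13 q0 n)) c).2.1
      simp only [Int.cast_neg]
      exact h)
    (by
      intro P R S
      have h := (hsy (P : ZMod (QN 13 q0 n)) (R : ZMod (QN 13 q0 n))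
          (S : ZMod (QN 13 q0 n)) 0).2.2
      simp only [Int.cast_neg]
      exact h)
    p pb M K
    (hTCY 13 q0 n e e0 ψ hFm l (p ^ (M + 1)) hl)
    (by
      have := (ZMod.intCast_eq_intCast_iff_dvd_sub 1 (p * pb) (QN 13 q0 n)).2 hpb
      push_cast at this
      exact this.symm)
    (by
      have := (ZMod.intCast_eq_intCast_iff_dvd_sub 1 (p ^ (K + 1)) (QN 13 q0 n)).2 hpA
      push_cast at this
      exact this.symm)
  unfold Ge
  rw [← key]
  unfold EJ J2
  rw [List.map_append, List.map_append, List.sum_append, List.sum_append, List.map_map,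
    List.map_map, List.map_map, H4M.lsum, H4M.lsum, H4M.lsum]
  congr 1
  · congr 1
    · apply Finset.sum_congr rfl
      intro j _
      show Es _ ((p ^ j : ℤ) : ZMod (QN 13 q0 n)) _ _ _ = _
      dsimp only [Function.comp]
      congr 1
      · push_cast; ring
      · push_cast; ring
      · unfold c2
        split_ifs with hj
        · ring
        · rw [hAm]; ring
    · rw [show M + 1 + (K + 1) - 1 - (M + 1) = K by omega]
      apply Finset.sum_congr rfl
      intro i _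
      dsimp only [Function.comp]
      congr 1
      · push_cast; ring
      · rw [show M + 1 + (K + 1) - 1 - i = M + 1 + K - i by omega]
        push_cast; ring
      · ring
  · rw [show M + 1 + (K + 1) - 1 = K + 1 + M by omega]
    apply Finset.sum_congr rfl
    intro i _
    dsimp only [Function.comp]
    congr 1
    · push_cast; ring
    · rw [show K + 1 + M - i = M + 1 + K - i by omega]
      push_cast; ring
    · unfold c3
      by_cases h : K + 1 ≤ i + 1
      · rw [if_pos h, if_pos (by omega), show M + 1 + (i + 1) - (M + 1 + (K + 1)) = i - K by omega]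
        ring
      · rw [if_neg h, if_neg (by omega)]
        ring

end Pool.Agent.OEG.G
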