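import Pool.Agent.OEG.StG

/-!
# Second order step of the ghosts 2 and 3 in one family (project OEG, module KAP)
-/

set_option autoImplicit false

namespace Pool.Agent.OEG.G

open Finset (range)
open Pool.Agent.PSX (Es W sg nu ev Z0 EZ SX I0 I1 TT ED fb evZ v3 v5 v7)
open Pool.Agent.P4G (Fam QN FN FZ CR)
open Pool.Agent.Lib_helper5.LK (Fm)

theorem t_KAP (hLQL : Stmt_LQL) (hTCY : Stmt_TCY) (hCQ3 : Stmt_CQ3) (hVAN : PSX.Stmt_VAN) :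
    Stmt_KAP := by
  intro q0 n e e0 ψ _ hF X σ κ c1 c2 c3 hσ hX hC h1 h2 h3 hsum
  obtain ⟨a1, -, -⟩ := hLQL 13 q0 n e e0 ψ hF 1 (-σ) (σ * X) (σ + (QN 13 q0 n : ℕ) * (σ * κ))
  obtain ⟨-, a2, -⟩ := hLQL 13 q0 n e e0 ψ hF 1 (-σ) (σ * X) σ
  obtain ⟨b1, -, -⟩ := hLQL 13 q0 n e e0 ψ hF X (-σ) σ
    (-1 + (QN 13 q0 n : ℕ) * (σ * κ * (2 * X + σ)))
  obtain ⟨-, b2, -⟩ := hLQL 13 q0 n e e0 ψ hF X (-σ) σ (-1)
  obtain ⟨d1, -, -⟩ := hLQL 13 q0 n e e0 ψ hF X (2 * X + σ) (-X)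
    (-1 - (QN 13 q0 n : ℕ) * κ)
  obtain ⟨-, d2, -⟩ := hLQL 13 q0 n e e0 ψ hF X (2 * X + σ) (-X) (-1)
  have k1 := a1 c1 h1
  have k2 := b1 c2 h2
  have k3 := d1 c3 h3
  rw [a2 (σ * κ)] at k1
  rw [b2 (σ * κ * (2 * X + σ))] at k2
  have h4 : -1 - (QN 13 q0 n : ℤ) * κ = -1 + (QN 13 q0 n : ℕ) * (-κ) := by ring
  rw [h4, d2 (-κ)] at k3
  have hT := hTCY 13 q0 n e e0 ψ hF σ X hσ
  have hQ := hCQ3 13 q0 n e e0 ψ hF X σ hσ hX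
  rw [k1, k2, k3] at hsum
  have hS : IsCoprime σ ((q0 * 13 : ℕ) : ℤ) := by
    rcases hσ with rfl | rfl
    · exact isCoprime_one_left
    · exact isCoprime_one_left.neg_left
  have hσ2 : σ ^ 2 = 1 := by
    rcases hσ with rfl | rfl <;> norm_num
  have hD : (-σ) ^ 2 + 4 * X * σ = 1 + 4 * σ * X := by
    rw [neg_sq, hσ2]; ring
  have hV := hVAN 13 q0 n e ψ hF.fam X (-σ) σ (κ * σ * (2 + (2 * X + σ) * (ψ X * X ^ e))) hS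
    (by rw [hD]; exact hC) (by
      have hFN : FN 13 n e ψ X = ((ψ X : ℤ) : ZMod (13 ^ (n + 1)))
        * ((X : ℤ) : ZMod (13 ^ (n + 1))) ^ e := rfl
      rw [hFN] at hQ
      push_cast at hsum hT hQ ⊢
      linear_combination (((ψ X : ℤ) : ZMod (13 ^ (n + 1)))
        * ((X : ℤ) : ZMod (13 ^ (n + 1))) ^ e) * (hsum - hT) -
        2 * ((κ : ℤ) : ZMod (13 ^ (n + 1))) * hQ)
  have h13 : ((κ * σ * (2 + (2 * X + σ) * (ψ X * X ^ e)) : ℤ) : ZMod 13) = 0 :=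
    (ZMod.intCast_zmod_eq_zero_iff_dvd _ 13).2 (by exact_mod_cast hV)
  have hσ3 : ((σ : ℤ) : ZMod 13) * (σ : ZMod 13) = 1 := by
    rcases hσ with rfl | rfl <;> decide
  unfold fb
  push_cast at h13 ⊢
  linear_combination ((σ : ℤ) : ZMod 13) * h13 -
    (κ : ZMod 13) * (2 + (2 * (X : ZMod 13) + σ) * ((ψ X : ZMod 13) * (X : ZMod 13) ^ e)) * hσ3

end Pool.Agent.OEG.G
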