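import Pool.Agent.OEG.StA
import Pool.Agent.PSX.M_BFD
import Pool.Agent.PSX.M_REL
import Pool.Agent.PSX.M_NUS
import Pool.Agent.PSX.M_DBL
import Pool.Agent.PSX.M_ZSQ

/-!
# Project OEG, module RL2: the relations of the second family
-/

set_option autoImplicit false

namespace Pool.Agent.OEG

open Finset (range)
open Pool.Agent.PSX (Es XA YA sm Z0 sg ev)
open Pool.Agent.P4G (Fam QN FN FZ)
open Pool.Agent.Lib_helper5.LK (Fm)
open Pool.Agent.Lib_helper5 (XZ YX RZ)
open Pool.Agent.RDF (β γ δ)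

namespace RL2M

variable {Q : ℕ} [NeZero Q]

/-- the telescoping sum of an integral form -/
def Vi (f : ZMod Q → ℤ) (P R S : ℤ) : ℤ :=
  PSX.M_BFD.V f (P : ZMod Q) (R : ZMod Q) (S : ZMod Q)

lemma Vi_neg (hQ : Q % 2 = 1) {f : ZMod Q → ℤ} (hf : ∀ z, f (-z) = - f z) (P R S : ℤ) :
    Vi f (-P) R (-S) = Vi f P R S := by
  unfold Vi PSX.M_BFD.V PSX.M_BFD.D2
  refine Finset.sum_congr rfl fun x _ => ?_
  rw [← Equiv.sum_comp (Equiv.neg (ZMod Q))]
  refine Finset.sum_congr rfl fun y _ => ?_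
  have h1 : ev (((-P : ℤ)) : ZMod Q) (R : ZMod Q) ((-S : ℤ) : ZMod Q) x ((Equiv.neg (ZMod Q)) y)
      = - ev (P : ZMod Q) (R : ZMod Q) (S : ZMod Q) x y := by
    unfold ev
    rw [Equiv.neg_apply]
    push_cast
    ring
  have h2 : sg (-y) = - sg y := (PSX.t_NUS Q).2.1 hQ y
  rw [h1, hf, Equiv.neg_apply]
  show -f (ev (P : ZMod Q) (R : ZMod Q) (S : ZMod Q) x y) * (β x * sg (-y))
    = f (ev (P : ZMod Q) (R : ZMod Q) (S : ZMod Q) x y) * (β x * sg y)
  rw [h2]
  ring

lemma Vi_sg (hQ : Q % 2 = 1) {f : ZMod Q → ℤ} (hf : ∀ z, f (-z) = - f z) {l : ℤ} (hl : OEX.Sg l)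
    (P R S : ℤ) : Vi f (l * P) R (l * S) = Vi f P R S := by
  rcases hl with h | h
  · rw [h, one_mul, one_mul]
  · rw [h]
    have := Vi_neg hQ hf P R S
    rw [← this]
    congr 1 <;> ring

/-- the telescoping sum of the next form -/
def Vn (f : ZMod Q → ℤ) (P R S c : ℤ) : ℤ :=
  Vi f S (2 * c * S - R) (P + R * c - S * c ^ 2)

lemma term_eq (hQ : Q % 2 = 1) {f : ZMod Q → ℤ} (hf : ∀ z, f (-z) = - f z) (P R S c : ℤ) :
    3 * XA (sm f) (P : ZMod Q) (R : ZMod Q) (S : ZMod Q)
      - c * YA (sm f) (P : ZMod Q) (R : ZMod Q) (S : ZMod Q)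
      = 3 * (Q : ℤ) * (Vi f P R S - Vn f P R S c)
        + 3 * (Q : ℤ) ^ 2 * (Es f (P : ZMod Q) (R : ZMod Q) (S : ZMod Q) c
          - c * Z0 f (S : ZMod Q)) := by
  have h1 := PSX.M_BFD.term_eq PSX.t_NUS PSX.t_DBL hQ f (P : ZMod Q) (R : ZMod Q) (S : ZMod Q) c
  rw [h1, PSX.M_BFD.U_eq f hf]
  have h2 : Vn f P R S c = PSX.M_BFD.V f (S : ZMod Q) (2 * (c : ZMod Q) * S - R)
      (P + R * (c : ZMod Q) - S * (c : ZMod Q) ^ 2) := by
    unfold Vn Vi
    push_cast
    rfl
  rw [h2]
  unfold Vi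
  ring

lemma XZ_sm {f : ℤ → ℤ} (hper : ∀ x, f (x + Q) = f x) (P R S : ℤ) :
    XZ Q (fun x => 4 * f (4 * x) - f x) P R S
      = XA (sm (RDF.fz Q f)) (P : ZMod Q) (R : ZMod Q) (S : ZMod Q) := by
  have hg : ∀ x : ℤ, (fun x => 4 * f (4 * x) - f x) (x + Q) = (fun x => 4 * f (4 * x) - f x) x := by
    intro x
    have h1 : f (4 * (x + Q)) = f (4 * x) := by
      rw [mul_add]
      exact RDF.per_mulZ hper (4 * x) 4
    simp only
    rw [h1, hper]
  have hsm : ∀ z : ZMod Q, RDF.fz Q (fun x => 4 * f (4 * x) - f x) z = sm (RDF.fz Q f) z :=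
    fun z => RDF.fz_smooth hper z
  rw [RDF.XZ_zmod hg]
  simp only [hsm]
  rfl

lemma YX_sm {f : ℤ → ℤ} (hper : ∀ x, f (x + Q) = f x) (P R S : ℤ) :
    YX Q (fun x => 4 * f (4 * x) - f x) P R S
      = YA (sm (RDF.fz Q f)) (P : ZMod Q) (R : ZMod Q) (S : ZMod Q) := by
  have hg : ∀ x : ℤ, (fun x => 4 * f (4 * x) - f x) (x + Q) = (fun x => 4 * f (4 * x) - f x) x := by
    intro x
    have h1 : f (4 * (x + Q)) = f (4 * x) := by
      rw [mul_add]
      exact RDF.per_mulZ hper (4 * x) 4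
    simp only
    rw [h1, hper]
  have hsm : ∀ z : ZMod Q, RDF.fz Q (fun x => 4 * f (4 * x) - f x) z = sm (RDF.fz Q f) z :=
    fun z => RDF.fz_smooth hper z
  rw [RDF.YX_zmod hg]
  simp only [hsm]
  rfl

/-- the bounded form of a list -/
lemma LJ_eq (hQ : Q % 2 = 1) {f : ℤ → ℤ} (hper : ∀ x, f (x + Q) = f x)
    (hodd : ∀ x, f (-x) = - f x) (J : List Fm) (hJ : ∀ j ∈ J, j.κ = 3) :
    LJ Q (fun x => 4 * f (4 * x) - f x) J
      = 3 * (Q : ℤ) * ((J.map (fun j => Vi (RDF.fz Q f) j.P j.R (-j.S))).sum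
          - (J.map (fun j => Vn (RDF.fz Q f) j.P j.R (-j.S) (-j.α))).sum)
        + 3 * (Q : ℤ) ^ 2 * (EJ (RDF.fz Q f) J
          - (J.map (fun j => (-j.α) * Z0 (RDF.fz Q f) ((-j.S : ℤ) : ZMod Q))).sum) := by
  induction J with
  | nil => simp [LJ, EJ]
  | cons a J ih =>
    have ih' := ih (fun j hj => hJ j (List.mem_cons_of_mem a hj))
    have ha : a.κ = 3 := hJ a List.mem_cons_self
    have h1 := term_eq hQ (RDF.fz_neg hper hodd) a.P a.R (-a.S) (-a.α)
    rw [← XZ_sm hper, ← YX_sm hper] at h1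
    unfold LJ EJ at ih' ⊢
    simp only [List.map_cons, List.sum_cons]
    rw [ih', ha]
    push_cast at h1 ⊢
    linear_combination h1

lemma cast_lsum {T : Type} {N : ℕ} (L : List T) (g : T → ℤ) :
    (((L.map g).sum : ℤ) : ZMod N) = (L.map (fun a => ((g a : ℤ) : ZMod N))).sum := by
  induction L with
  | nil => simp
  | cons a L ih => simp only [List.map_cons, List.sum_cons]; rw [Int.cast_add, ih]

/-- the relations of a list of terms whose telescoping sums cancel -/
lemma rel_of_bal {d : ℕ} (h8 : d % 8 = 5) {J : List Fm} (hJ : ∀ j ∈ J, j.κ = 3) (hCI : CI d J)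
    (hbal : ∀ (Q : ℕ) [NeZero Q], Q % 2 = 1 → ∀ f : ZMod Q → ℤ, (∀ z, f (-z) = - f z) →
      (J.map (fun j => Vi f j.P j.R (-j.S))).sum
        = (J.map (fun j => Vn f j.P j.R (-j.S) (-j.α))).sum)
    {Q0 : ℕ} (hcop : Nat.Coprime (Q0 * 13) d) : RelJ Q0 J := by
  intro q0 n e e0 ψ _ hq0 hFm
  have h := hFm.fam
  obtain ⟨f, hper, hodd, hf⟩ := P4G.exists_lift h.Modd (FN 13 n e ψ) h.FN_per h.FN_neg
  have hQo := h.Qodd
  have hc13 : Nat.Coprime 13 d := Nat.Coprime.coprime_dvd_left (Dvd.intro_left Q0 rfl) hcop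
  have hcq : Nat.Coprime q0 d :=
    Nat.Coprime.coprime_dvd_left (hq0.trans (Dvd.intro 13 rfl)) hcop
  have hcQ : Nat.Coprime (QN 13 q0 n) d := by
    unfold QN
    exact Nat.Coprime.mul_left hcq (Nat.Coprime.pow_left _ hc13)
  have hg : ∀ x : ℤ, (fun x => 4 * f (4 * x) - f x) (x + (QN 13 q0 n : ℕ))
      = (fun x => 4 * f (4 * x) - f x) x := by
    intro x
    have h1 : f (4 * (x + (QN 13 q0 n : ℕ))) = f (4 * x) := by
      rw [mul_add]
      exact RDF.per_mulZ hper (4 * x) 4
    simp only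
    rw [h1, hper]
  have hgo : ∀ x : ℤ, (fun x => 4 * f (4 * x) - f x) (-x) = - (fun x => 4 * f (4 * x) - f x) x := by
    intro x
    simp only
    rw [mul_neg, hodd, hodd]
    ring
  have h1 := hCI (QN 13 q0 n) (Nat.pos_of_ne_zero (NeZero.ne _)) hcQ
    (fun x => 4 * f (4 * x) - f x) hg hgo
  rw [RDF.RZ_smooth f hQo h8 hper hodd, LJ_eq hQo hper hodd J hJ,
    hbal _ hQo _ (RDF.fz_neg hper hodd), sub_self, mul_zero, zero_add] at h1
  have hd0 : (d : ℤ) ≠ 0 := by
    have : 0 < d := by omega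
    exact_mod_cast this.ne'
  have hQ : (6 * (d : ℤ) * (QN 13 q0 n : ℤ) ^ 2) ≠ 0 := by
    have : (QN 13 q0 n : ℤ) ≠ 0 := by exact_mod_cast (NeZero.ne (QN 13 q0 n))
    positivity
  have h2 : EJ (RDF.fz (QN 13 q0 n) f) J
      - (J.map (fun j => (-j.α) * Z0 (RDF.fz (QN 13 q0 n) f) ((-j.S : ℤ) : ZMod (QN 13 q0 n)))).sum
      = 2 * RDF.HH (QN 13 q0 n) d (fun x => f (4 * x)) := by
    refine mul_left_cancel₀ hQ ?_
    linear_combination h1
  have h3 := congrArg (Int.cast : ℤ → ZMod (13 ^ (n + 1))) h2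
  have hz : ((((J.map (fun j => (-j.α) * Z0 (RDF.fz (QN 13 q0 n) f)
      ((-j.S : ℤ) : ZMod (QN 13 q0 n)))).sum : ℤ)) : ZMod (13 ^ (n + 1))) = 0 := by
    rw [cast_lsum]
    refine List.sum_eq_zero ?_
    intro x hx
    rw [List.mem_map] at hx
    obtain ⟨j, _, rfl⟩ := hx
    rw [Int.cast_mul, PSX.M_REL.Z0_cast hf, PSX.t_ZSQ 13 q0 n e e0 ψ hFm, mul_zero]
  have hE : ((EJ (RDF.fz (QN 13 q0 n) f) J : ℤ) : ZMod (13 ^ (n + 1))) = EJ (FZ 13 q0 n e ψ) J := by
    unfold EJ
    rw [cast_lsum]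
    congr 1
    refine List.map_congr_left fun j _ => ?_
    rw [PSX.M_REL.Es_cast hf]
  rw [Int.cast_sub, hz, sub_zero, Int.cast_mul, PSX.M_REL.HH_zero h d hf, mul_zero, hE] at h3
  exact h3

/-- the telescoping sum of the edges `N_j` -/
def VN (f : ZMod Q → ℤ) (s l p : ℤ) (A m j : ℕ) : ℤ :=
  Vi f (p ^ j) (p ^ A + s * p ^ m - l * s) (l * p ^ (m - j))

/-- the telescoping sum of the edges `N4_j` -/
def V4 (f : ZMod Q → ℤ) (s l p : ℤ) (A m j : ℕ) : ℤ :=
  Vi f (p ^ j) (p ^ A - s * p ^ m - l * s) (s * p ^ (A + m - j))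

/-- the telescoping sum of the edges `N3_j` -/
def V3 (f : ZMod Q → ℤ) (s l p : ℤ) (A m j : ℕ) : ℤ :=
  Vi f (p ^ j) (p ^ A + s * p ^ m + l * s) (-(l * s * p ^ (A - j)))

lemma sgsq {l : ℤ} (hl : OEX.Sg l) : l * l = 1 := by
  rcases hl with h | h <;> rw [h] <;> norm_num

lemma sgmul {l s : ℤ} (hl : OEX.Sg l) (hs : OEX.Sg s) : OEX.Sg (-(l * s)) := by
  rcases hl with h | h <;> rcases hs with h' | h' <;> rw [h, h'] <;> unfold OEX.Sg <;> norm_num

variable (hQ : Q % 2 = 1) {f : ZMod Q → ℤ} (hf : ∀ z, f (-z) = - f z) {s l p : ℤ} {A m : ℕ}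
  (hs : OEX.Sg s) (hl : OEX.Sg l)

include hQ hf hs hl

/-- the form after `N_j`, `j < m` -/
lemma next_N (hmA : m + 1 ≤ A) {j : ℕ} (hj : j < m) :
    Vn f (p ^ j) (p ^ A + s * p ^ m - l * s) (l * p ^ (m - j)) (c2 s l p A m j)
      = V3 f s l p A m (m - j) := by
  have hl2 := sgsq hl
  have hs2 := sgsq hs
  obtain ⟨i, rfl⟩ : ∃ i, m = j + i := ⟨m - j, by omega⟩
  obtain ⟨k, rfl⟩ : ∃ k, A = j + i + k := ⟨A - (j + i), by omega⟩
  have e1 : j + i - j = i := by omega
  have e2 : j + i + k - (j + i) + j = k + j := by omega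
  have e3 : j + i + k - i = j + k := by omega
  unfold Vn V3 c2
  rw [if_neg (by omega), e1, e2, e3, ← Vi_sg hQ hf hl]
  simp only [pow_add]
  generalize p ^ j = a
  generalize p ^ i = b
  generalize p ^ k = c
  congr 1
  · linear_combination b * hl2
  · linear_combination (2 * a * b * c + 2 * s * a * b) * hl2
  · linear_combination ((b * (c * a + s * a) - l * s) * (c * a + s * a)
      - (l ^ 2 + 1) * b * (c * a + s * a) ^ 2) * hl2 - l * a * hs2

/-- the form after `N_m` -/
lemma next_Nm :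
    Vn f (p ^ m) (p ^ A + s * p ^ m - l * s) (l * p ^ (m - m)) (c2 s l p A m m)
      = VN f s l p A m 0 := by
  have hl2 := sgsq hl
  unfold Vn VN c2
  rw [if_pos rfl, Nat.sub_self, Nat.sub_zero, pow_zero, mul_one, ← Vi_sg hQ hf hl]
  generalize p ^ A + s * p ^ m - l * s = N
  congr 1
  · linear_combination (2 * N) * hl2
  · linear_combination (N ^ 2 - (l ^ 2 + 1) * N ^ 2) * hl2

/-- the form after `N4_j` -/
lemma next_4 {i r : ℕ} :
    Vn f (p ^ (m + 1 + i)) (p ^ (m + 1 + i + r) - s * p ^ m - l * s) (s * p ^ (m + r))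
      (s * p ^ (i + 1)) = V3 f s l p (m + 1 + i + r) m (m + r) := by
  have hs2 := sgsq hs
  have e1 : m + 1 + i + r - (m + r) = i + 1 := by omega
  have e2 : p ^ (m + 1 + i) = p ^ m * p ^ (i + 1) := by rw [← pow_add]; congr 1; omega
  have e3 : p ^ (m + 1 + i + r) = p ^ m * p ^ (i + 1) * p ^ r := by
    rw [← pow_add, ← pow_add]; congr 1; omega
  unfold Vn V3
  rw [e1, e2, e3, pow_add p m r, ← Vi_sg hQ hf hs]
  generalize p ^ m = a
  generalize p ^ (i + 1) = b
  generalize p ^ r = e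
  congr 1
  · linear_combination a * e * hs2
  · linear_combination 2 * a * b * e * hs2
  · linear_combination (b * (a * b * e - s * a - l * s) - (s ^ 2 + 1) * a * e * b ^ 2) * hs2

/-- the form after `N3_j`, first case -/
lemma next_3a {j : ℕ} (hjA : j ≤ A) (h : ¬ A ≤ m + j) :
    Vn f (p ^ j) (p ^ A + s * p ^ m + l * s) (-(l * s * p ^ (A - j))) (c3 s l p A m j)
      = V4 f s l p A m (A - j) := by
  have hl2 := sgsq hl
  have hs2 := sgsq hs
  have he : (-(l * s)) * (-(l * s)) = 1 := by linear_combination s * s * hl2 + hs2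
  obtain ⟨k, rfl⟩ : ∃ k, A = j + k := ⟨A - j, by omega⟩
  have e1 : j + k - j = k := by omega
  have e2 : j + k + m - k = j + m := by omega
  unfold Vn V4 c3
  rw [if_neg h, sub_zero, e1, e2, ← Vi_sg hQ hf (sgmul hl hs)]
  simp only [pow_add]
  generalize p ^ j = a
  generalize p ^ k = b
  generalize p ^ m = g
  congr 1
  · linear_combination b * he
  · linear_combination 2 * a * b * he
  · linear_combination (a * (a * b + s * g + l * s) - (l ^ 2 * s ^ 2 + 1) * a ^ 2 * b) * he

/-- the form after `N3_j`, second case -/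
lemma next_3b {j : ℕ} (hjA : j ≤ A) (h : A ≤ m + j) :
    Vn f (p ^ j) (p ^ A + s * p ^ m + l * s) (-(l * s * p ^ (A - j))) (c3 s l p A m j)
      = VN f s l p A m (A - j) := by
  have hl2 := sgsq hl
  have hs2 := sgsq hs
  have he : (-(l * s)) * (-(l * s)) = 1 := by linear_combination s * s * hl2 + hs2
  obtain ⟨k, rfl⟩ : ∃ k, A = j + k := ⟨A - j, by omega⟩
  obtain ⟨t, rfl⟩ : ∃ t, m = k + t := ⟨m - k, by omega⟩
  have e1 : j + k - j = k := by omega
  have e2 : k + t + j - (j + k) = t := by omega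
  have e3 : k + t - k = t := by omega
  unfold Vn VN c3
  rw [if_pos h, e1, e2, e3, ← Vi_sg hQ hf (sgmul hl hs)]
  simp only [pow_add]
  generalize p ^ j = a
  generalize p ^ k = b
  generalize p ^ t = g
  have hc : -(l * s * a) - l * g = -(l * s) * (a + s * g) := by linear_combination (l * g) * hs2
  rw [hc]
  congr 1
  · linear_combination b * he
  · linear_combination 2 * b * (a + s * g) * he
  · linear_combination ((a + s * g) * (a * b + s * (b * g) + l * s)
      - (l ^ 2 * s ^ 2 + 1) * b * (a + s * g) ^ 2) * he + l * g * hs2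

omit hQ hf hs hl [NeZero Q] in
lemma lsum (n : ℕ) (g : ℕ → ℤ) : ((List.range n).map g).sum = ∑ i ∈ range n, g i := by
  induction n with
  | zero => simp
  | succ n ih => rw [List.range_succ, List.map_append, List.sum_append, ih, Finset.sum_range_succ]; simp

omit hQ hf hs hl [NeZero Q] in
lemma sum_add (n k : ℕ) (g : ℕ → ℤ) :
    ∑ i ∈ range (n + k), g i = ∑ i ∈ range n, g i + ∑ i ∈ range k, g (n + i) := by
  induction k with
  | zero => simp
  | succ k ih => rw [← add_assoc, Finset.sum_range_succ, ih, Finset.sum_range_succ]; ring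

/-- the telescoping sums of the second family cancel -/
lemma bal (r : ℕ) (hA : A = m + 1 + r) :
    ((J2 s l p A m).map (fun j => Vi f j.P j.R (-j.S))).sum
      = ((J2 s l p A m).map (fun j => Vn f j.P j.R (-j.S) (-j.α))).sum := by
  have hr2 : A - 1 = m + r := by omega
  have hL : ((J2 s l p A m).map (fun j => Vi f j.P j.R (-j.S))).sum
      = ∑ j ∈ range (m + 1), VN f s l p A m j + ∑ i ∈ range r, V4 f s l p A m (m + 1 + i)
        + ∑ i ∈ range (m + r), V3 f s l p A m (i + 1) := by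
    unfold J2
    simp only [List.map_append, List.sum_append, List.map_map, hr2, Nat.add_sub_cancel_left]
    rw [lsum, lsum, lsum]
    congr 1
    · congr 1
      · refine Finset.sum_congr rfl fun j _ => ?_
        simp only [Function.comp_apply, neg_neg]
        rfl
      · refine Finset.sum_congr rfl fun i hi => ?_
        have := Finset.mem_range.1 hi
        have e1 : m + r - i = A + m - (m + 1 + i) := by omega
        simp only [Function.comp_apply, neg_neg]
        rw [e1]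
        rfl
    · refine Finset.sum_congr rfl fun i hi => ?_
      have := Finset.mem_range.1 hi
      have e1 : m + r - i = A - (i + 1) := by omega
      simp only [Function.comp_apply]
      rw [e1]
      rfl
  have hR : ((J2 s l p A m).map (fun j => Vn f j.P j.R (-j.S) (-j.α))).sum
      = (∑ j ∈ range m, V3 f s l p A m (m - j) + VN f s l p A m 0)
        + ∑ i ∈ range r, V3 f s l p A m (m + r - i)
        + ∑ i ∈ range (m + r), (if A ≤ m + (i + 1) then VN f s l p A m (A - (i + 1))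
          else V4 f s l p A m (A - (i + 1))) := by
    unfold J2
    simp only [List.map_append, List.sum_append, List.map_map, hr2, Nat.add_sub_cancel_left]
    rw [lsum, lsum, lsum, Finset.sum_range_succ]
    congr 1
    · congr 1
      · congr 1
        · refine Finset.sum_congr rfl fun j hj => ?_
          have := Finset.mem_range.1 hj
          simp only [Function.comp_apply, neg_neg]
          exact next_N hQ hf hs hl (by omega) this
        · simp only [Function.comp_apply, neg_neg]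
          exact next_Nm hQ hf hs hl
      · refine Finset.sum_congr rfl fun i hi => ?_
        have := Finset.mem_range.1 hi
        obtain ⟨t, ht⟩ : ∃ t, r = i + t := ⟨r - i, by omega⟩
        have h4 := next_4 (p := p) (m := m) (i := i) (r := t) hQ hf hs hl
        have e1 : m + 1 + i + t = A := by omega
        have e2 : m + r - i = m + t := by omega
        rw [e1] at h4
        simp only [Function.comp_apply, neg_neg]
        rw [e2]
        exact h4
    · refine Finset.sum_congr rfl fun i hi => ?_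
      have := Finset.mem_range.1 hi
      have e1 : m + r - i = A - (i + 1) := by omega
      simp only [Function.comp_apply, neg_neg]
      rw [e1]
      split
      · next h => exact next_3b hQ hf hs hl (by omega) h
      · next h => exact next_3a hQ hf hs hl (by omega) h
  rw [hL, hR]
  have h1 : ∑ j ∈ range m, V3 f s l p A m (m - j) = ∑ j ∈ range m, V3 f s l p A m (j + 1) := by
    rw [← Finset.sum_range_reflect (fun j => V3 f s l p A m (j + 1)) m]
    refine Finset.sum_congr rfl fun j hj => ?_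
    have := Finset.mem_range.1 hj
    have e : m - 1 - j + 1 = m - j := by omega
    simp only [e]
  have h2 : ∑ i ∈ range r, V3 f s l p A m (m + r - i)
      = ∑ i ∈ range r, V3 f s l p A m (m + i + 1) := by
    rw [← Finset.sum_range_reflect (fun j => V3 f s l p A m (m + j + 1)) r]
    refine Finset.sum_congr rfl fun j hj => ?_
    have := Finset.mem_range.1 hj
    have e : m + (r - 1 - j) + 1 = m + r - j := by omega
    simp only [e]
  have h3 : ∑ i ∈ range (m + r), (if A ≤ m + (i + 1) then VN f s l p A m (A - (i + 1))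
          else V4 f s l p A m (A - (i + 1)))
      = ∑ k ∈ range (m + r), (if k + 1 ≤ m then VN f s l p A m (k + 1)
          else V4 f s l p A m (k + 1)) := by
    rw [← Finset.sum_range_reflect (fun k => (if k + 1 ≤ m then VN f s l p A m (k + 1)
          else V4 f s l p A m (k + 1))) (m + r)]
    refine Finset.sum_congr rfl fun j hj => ?_
    have := Finset.mem_range.1 hj
    have e : m + r - 1 - j + 1 = A - (j + 1) := by omega
    simp only [e]
    by_cases hc : A ≤ m + (j + 1)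
    · rw [if_pos hc, if_pos (by omega)]
    · rw [if_neg hc, if_neg (by omega)]
  have h4 : ∑ k ∈ range (m + r), (if k + 1 ≤ m then VN f s l p A m (k + 1)
          else V4 f s l p A m (k + 1))
      = ∑ k ∈ range m, VN f s l p A m (k + 1) + ∑ i ∈ range r, V4 f s l p A m (m + 1 + i) := by
    rw [sum_add]
    congr 1
    · refine Finset.sum_congr rfl fun j hj => ?_
      have := Finset.mem_range.1 hj
      rw [if_pos (by omega)]
    · refine Finset.sum_congr rfl fun j hj => ?_
      rw [if_neg (by omega)]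
      congr 1
      omega
  rw [h1, h2, h3, h4, sum_add m r (fun i => V3 f s l p A m (i + 1)), Finset.sum_range_succ']
  ring

end RL2M

theorem t_RL2 : Stmt_RL2 := by
  intro d s l p A m hs hl _ hmA _ h8 hCI Q0 hcop
  refine RL2M.rel_of_bal h8 ?_ hCI ?_ hcop
  · intro j hj
    unfold J2 at hj
    simp only [List.mem_append, List.mem_map] at hj
    rcases hj with (⟨_, _, rfl⟩ | ⟨_, _, rfl⟩) | ⟨_, _, rfl⟩ <;> rfl
  · intro Q _ hQ f hf
    exact RL2M.bal hQ hf hs hl (A - (m + 1)) (by omega)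

end Pool.Agent.OEG
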