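import Pool.Agent.OEG.StG
import Pool.Agent.OEG.RL2
import Pool.Agent.RQM.C44

/-!
# Project OEG, module LNK: from edge sums of level zero to the relation of a table
-/

set_option autoImplicit false

namespace Pool.Agent.OEG.G

open Finset (range)
open Pool.Agent.PSX (Es W sg nu ev Z0 EZ SX I0 I1 TT ED fb evZ v3 v5 v7)
open Pool.Agent.P4G (Fam QN FN FZ CR)
open Pool.Agent.Lib_helper5.LK (Fm)

namespace LNKaux

open Pool.Agent.LibH4 Pool.Agent.LibH4.KF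
open Pool.Agent.Lib_helper5

variable {Q : ℕ} [NeZero Q]

/-- the second sums of a list cancel -/
lemma bal (hQ : Q % 2 = 1) {f : ZMod Q → ℤ} (hf : ∀ z, f (-z) = - f z) (J : List Fm)
    (hbal : ∀ V : ZMod Q → ZMod Q → ZMod Q → ℤ, (∀ P R S, V (-P) R (-S) = V P R S) →
      (J.map (fun j => V (j.P : ZMod Q) (j.R : ZMod Q) ((-j.S : ℤ) : ZMod Q))).sum
        = (J.map (fun j => V ((-j.S : ℤ) : ZMod Q)
            ((2 * (-j.α) * (-j.S) - j.R : ℤ) : ZMod Q)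
            ((j.P + j.R * (-j.α) - (-j.S) * (-j.α) ^ 2 : ℤ) : ZMod Q))).sum) :
    (J.map (fun j => RL2M.Vi f j.P j.R (-j.S))).sum
      = (J.map (fun j => RL2M.Vn f j.P j.R (-j.S) (-j.α))).sum := by
  refine hbal (fun P R S => PSX.M_BFD.V f P R S) ?_
  intro P R S
  obtain ⟨a, rfl⟩ := ZMod.intCast_surjective P
  obtain ⟨b, rfl⟩ := ZMod.intCast_surjective R
  obtain ⟨c, rfl⟩ := ZMod.intCast_surjective S
  have h := RL2M.Vi_neg hQ hf a b c
  unfold RL2M.Vi at h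
  rw [Int.cast_neg, Int.cast_neg] at h
  exact h

/-- the cone sum of the list modulo `N` -/
lemma LJ_cast {N : ℕ} (χ : ZMod Q → ZMod N) (g : ℤ → ℤ)
    (hg : ∀ x : ℤ, ((g x : ℤ) : ZMod N) = χ (x : ZMod Q)) (J : List Fm)
    (hκ : ∀ j ∈ J, j.κ = 3) :
    ((LJ Q g J : ℤ) : ZMod N)
      = (J.map fun j => (j.κ : ZMod N) * KF.XX χ j.P j.R j.S
          + (j.α : ZMod N) * KF.YX χ j.P j.R j.S).sum := by
  unfold LJ
  rw [RL2M.cast_lsum]
  congr 1
  apply List.map_congr_left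
  intro j hj
  have e := range_term χ j.P j.R (-j.S) (-(j.α : ZMod N))
  rw [neg_neg] at e
  rw [hκ j hj]
  have e2 : (((3 : ℕ) : ZMod N) * KF.XX χ j.P j.R j.S + (j.α : ZMod N) * KF.YX χ j.P j.R j.S) =
      3 * KF.XX χ j.P j.R j.S - -(j.α : ZMod N) * KF.YX χ j.P j.R j.S := by push_cast; ring
  rw [e2, ← e]
  unfold XZ Pool.Agent.Lib_helper5.YX
  push_cast
  simp only [Finset.mul_sum]
  rw [← Finset.sum_add_distrib]
  apply Finset.sum_congr rfl
  intro r _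
  rw [← Finset.sum_add_distrib]
  apply Finset.sum_congr rfl
  intro s _
  rw [hg]
  push_cast
  ring

lemma XX_smul {N : ℕ} (χ : ZMod Q → ZMod N) (u : ZMod N) (P R S : ℤ) :
    KF.XX (fun z => u * χ z) P R S = u * KF.XX χ P R S := by
  unfold KF.XX
  rw [Finset.mul_sum]
  refine Finset.sum_congr rfl fun x _ => ?_
  rw [Finset.mul_sum]
  refine Finset.sum_congr rfl fun y _ => ?_
  ring

lemma YX_smul {N : ℕ} (χ : ZMod Q → ZMod N) (u : ZMod N) (P R S : ℤ) :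
    KF.YX (fun z => u * χ z) P R S = u * KF.YX χ P R S := by
  unfold KF.YX
  rw [Finset.mul_sum]
  refine Finset.sum_congr rfl fun x _ => ?_
  rw [Finset.mul_sum]
  refine Finset.sum_congr rfl fun y _ => ?_
  ring

/-- casts of the edge sums -/
lemma Es_cast0 {N : ℕ} {f : ZMod Q → ℤ} {F : ZMod Q → ZMod N}
    (hf : ∀ z, ((f z : ℤ) : ZMod N) = F z) (P R S : ZMod Q) (c : ℤ) :
    ((Es f P R S c : ℤ) : ZMod N) = Es F P R S c := by
  unfold Es
  rw [Int.cast_sum]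
  refine Finset.sum_congr rfl fun x _ => ?_
  rw [Int.cast_sum]
  refine Finset.sum_congr rfl fun y _ => ?_
  rw [Int.cast_mul, hf]
  rfl

lemma Z0_cast0 {N : ℕ} {f : ZMod Q → ℤ} {F : ZMod Q → ZMod N}
    (hf : ∀ z, ((f z : ℤ) : ZMod N) = F z) (S : ZMod Q) :
    ((Z0 f S : ℤ) : ZMod N) = Z0 F S := by
  unfold Z0
  rw [Int.cast_sum]
  exact Finset.sum_congr rfl fun y _ => hf _

end LNKaux

open LNKaux in
theorem t_LNK : Stmt_LNK := by
  intro q0 _ χ χt J hq hodd hmul hred hunit hZ hκ hbal hE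
  have hN2 : (2197 : ℕ) % 2 = 1 := by norm_num
  have hQ : (q0 * 13) % 2 = 1 := by omega
  have hper : ∀ x : ℤ, Lib_helper5.NN.lift χt (x + (q0 * 13 : ℕ)) = Lib_helper5.NN.lift χt x :=
    fun x => Lib_helper5.NN.lift_per χt x
  have hfo : ∀ x : ℤ, Lib_helper5.NN.lift χt (-x) = - Lib_helper5.NN.lift χt x :=
    fun x => Lib_helper5.NN.lift_odd χt hN2 hodd x
  set f : ℤ → ℤ := Lib_helper5.NN.lift χt with hfdef
  have hfc : ∀ x : ℤ, ((f x : ℤ) : ZMod 2197) = χt (x : ZMod (q0 * 13)) :=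
    fun x => Lib_helper5.NN.lift_cast χt x
  have hfz : ∀ z : ZMod (q0 * 13), RDF.fz (q0 * 13) f (-z) = - RDF.fz (q0 * 13) f z :=
    RDF.fz_neg hper hfo
  have h1 := RL2M.LJ_eq hQ hper hfo J hκ
  rw [LNKaux.bal hQ hfz J hbal, sub_self, mul_zero, zero_add] at h1
  -- reduction modulo 13
  have hf13 : ∀ z : ZMod (q0 * 13), ((RDF.fz (q0 * 13) f z : ℤ) : ZMod 13) = χ (z.val : ℤ) := by
    intro z
    rw [← hred z]
    have e1 : ((RDF.fz (q0 * 13) f z : ℤ) : ZMod 2197) = χt z := by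
      unfold RDF.fz
      rw [hfc]
      congr 1
      rw [Int.cast_natCast, ZMod.natCast_zmod_val]
    rw [← e1, map_intCast]
  have hW : ((13 : ℕ) : ℤ) ∣ (EJ (RDF.fz (q0 * 13) f) J
      - (J.map (fun j => (-j.α) * Z0 (RDF.fz (q0 * 13) f) ((-j.S : ℤ) : ZMod (q0 * 13)))).sum) := by
    rw [← ZMod.intCast_zmod_eq_zero_iff_dvd, Int.cast_sub]
    have e1 : (((J.map (fun j => (-j.α) * Z0 (RDF.fz (q0 * 13) f)
        ((-j.S : ℤ) : ZMod (q0 * 13)))).sum : ℤ) : ZMod 13) = 0 := by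
      rw [RL2M.cast_lsum]
      refine List.sum_eq_zero ?_
      intro x hx
      rw [List.mem_map] at hx
      obtain ⟨j, _, rfl⟩ := hx
      rw [Int.cast_mul, Z0_cast0 hf13, hZ, mul_zero]
    have e2 : ((EJ (RDF.fz (q0 * 13) f) J : ℤ) : ZMod 13) = 0 := by
      rw [← hE]
      unfold EJ EL0 E0
      rw [RL2M.cast_lsum]
      congr 1
      refine List.map_congr_left fun j _ => ?_
      rw [Es_cast0 hf13]
    rw [e1, e2, sub_zero]
  obtain ⟨w, hw⟩ := hW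
  rw [hw] at h1
  have h2 : ((LJ (q0 * 13) (fun x => 4 * f (4 * x) - f x) J : ℤ) : ZMod 2197) = 0 := by
    rw [h1]
    have e : 3 * (((q0 * 13 : ℕ) : ℤ)) ^ 2 * (((13 : ℕ) : ℤ) * w)
        = ((2197 : ℕ) : ℤ) * (3 * (q0 : ℤ) ^ 2 * w) := by
      push_cast
      ring
    rw [e, Int.cast_mul, Int.cast_natCast, ZMod.natCast_self, zero_mul]
  have hg : ∀ x : ℤ, (((4 * f (4 * x) - f x : ℤ)) : ZMod 2197)
      = (4 * χt 4 - 1) * χt (x : ZMod (q0 * 13)) := by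
    intro x
    rw [Int.cast_sub, Int.cast_mul, hfc, hfc, Int.cast_mul, hmul]
    push_cast
    ring
  have h3 := LJ_cast (fun z => (4 * χt 4 - 1) * χt z) (fun x => 4 * f (4 * x) - f x) hg J hκ
  rw [h2] at h3
  have h4 : (J.map fun j => (j.κ : ZMod 2197) * LibH4.KF.XX (fun z => (4 * χt 4 - 1) * χt z) j.P j.R j.S
          + (j.α : ZMod 2197) * LibH4.KF.YX (fun z => (4 * χt 4 - 1) * χt z) j.P j.R j.S).sum
      = (4 * χt 4 - 1) * (J.map fun j => (j.κ : ZMod 2197) * LibH4.KF.XX χt j.P j.R j.S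
          + (j.α : ZMod 2197) * LibH4.KF.YX χt j.P j.R j.S).sum := by
    rw [← List.sum_map_mul_left]
    congr 1
    refine List.map_congr_left fun j _ => ?_
    rw [XX_smul, YX_smul]
    ring
  rw [h4] at h3
  unfold Lib_helper5.LK.Rel
  exact (hunit.mul_right_eq_zero).1 h3.symm

end Pool.Agent.OEG.G
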