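import Pool.Agent.OEG.StG
import Pool.Agent.PSX.RDC
import Pool.Agent.PSX.M_EFZ
import Pool.Agent.PSX.M_LCQ
import Pool.Agent.PSX.M_LCH
import Pool.Agent.PSX.M_NUS
import Pool.Agent.PSX.M_RED
import Pool.Agent.PSX.M_RSM
import Pool.Agent.PSX.M_BLK

set_option autoImplicit false

/-!
# LQL: the letter only matters modulo `Q l`
-/

namespace Pool.Agent.OEG.G

open Finset (range)
open Pool.Agent.PSX (Es W sg nu ev Z0 EZ SX I0 I1 TT ED fb evZ v3 v5 v7)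
open Pool.Agent.P4G (Fam QN FN FZ CR)
open Pool.Agent.Lib_helper5.LK (Fm)

theorem t_LQL : Stmt_LQL := by
  intro l q0 n e e0 ψ _ hF P R S c
  have h := hF.fam
  have hLCQ := PSX.t_LCQ (PSX.t_LCH PSX.t_NUS)
  have hRED := PSX.t_RED (PSX.t_RSM PSX.t_BLK)
  have h2 : ∀ t : ℤ, Es (FZ l q0 n e ψ) (P : ZMod (QN l q0 n)) (R : ZMod (QN l q0 n))
      (S : ZMod (QN l q0 n)) (c + (QN l q0 n : ℕ) * t)
      = Es (FZ l q0 n e ψ) (P : ZMod (QN l q0 n)) (R : ZMod (QN l q0 n))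
          (S : ZMod (QN l q0 n)) c
        + 2 * (t : ZMod (l ^ (n + 1))) * SX (QN l q0 n) (I0 l q0 n e ψ P R S) := fun t =>
    PSX.RDCm.Es_shift PSX.t_EFZ hLCQ h P R S c t
  have h3 : (l : ZMod (l ^ (n + 1))) * SX (QN l q0 n) (I0 l q0 n e ψ P R S) = 0 := by
    unfold SX
    rw [Finset.mul_sum]
    refine Finset.sum_eq_zero fun x _ => ?_
    have h4 : (l : ZMod (l ^ (n + 1))) * I0 l q0 n e ψ P R S (x : ℤ) = 0 :=
      (hRED l q0 n e ψ h P R S P R S (x : ℤ) (by simp) (by simp) (by simp)).2.1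
    rw [mul_left_comm, h4, mul_zero]
  refine ⟨?_, h2, h3⟩
  intro c' hc'
  obtain ⟨t, ht⟩ := hc'
  have e1 : c' = c + (QN l q0 n : ℕ) * ((l : ℤ) * t) := by
    push_cast at ht
    linear_combination ht
  rw [e1, h2]
  have e2 : 2 * (((l : ℤ) * t : ℤ) : ZMod (l ^ (n + 1))) *
      SX (QN l q0 n) (I0 l q0 n e ψ P R S) = 2 * (t : ZMod (l ^ (n + 1))) *
      ((l : ZMod (l ^ (n + 1))) * SX (QN l q0 n) (I0 l q0 n e ψ P R S)) := by
    push_cast
    ring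
  rw [e2, h3, mul_zero, add_zero]

end Pool.Agent.OEG.G
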