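import Pool.Agent.OEG.StG

/-!
# OEG, module LTE: lifting of `p^T = 1`
-/

set_option autoImplicit false

namespace Pool.Agent.OEG.G

theorem t_LTE : Stmt_LTE := by
  intro r p k T hr hT h
  obtain ⟨T', rfl⟩ := hT
  haveI : Fact (Nat.Prime 13) := ⟨by norm_num⟩
  have h13 : ((13 : ℕ) : ℤ) ∣ p ^ (13 ^ k * T') - 1 :=
    dvd_trans ⟨(r : ℤ), by push_cast; ring⟩ h
  have hrr : (r : ℤ) ∣ p ^ (13 ^ k * T') - 1 :=
    dvd_trans ⟨13, by push_cast; ring⟩ h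
  have h1 : ((13 : ℕ) : ℤ) ∣ p ^ T' - 1 := by
    rw [← ZMod.intCast_zmod_eq_zero_iff_dvd] at h13 ⊢
    push_cast at h13 ⊢
    rw [mul_comm, pow_mul, ZMod.pow_card_pow] at h13
    exact h13
  have h2 := dvd_sub_pow_of_dvd_sub (R := ℤ) h1 k
  rw [one_pow, ← pow_mul, mul_comm T'] at h2
  have hc : IsCoprime (r : ℤ) ((13 : ℤ) ^ (k + 1)) := by
    apply IsCoprime.pow_right
    have h3 : Nat.Coprime r 13 := Nat.Coprime.coprime_dvd_left hr (by norm_num)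
    exact_mod_cast Nat.isCoprime_iff_coprime.2 h3
  have h4 := hc.mul_dvd hrr (by exact_mod_cast h2)
  rw [Nat.cast_mul, Nat.cast_pow]
  exact_mod_cast h4

end Pool.Agent.OEG.G
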