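import Pool.Agent.OEG.StG
import Pool.Agent.PSX.M_ZSQ

/-!
# LV0: reduction of an edge sum to level zero
-/

set_option autoImplicit false

namespace Pool.Agent.OEG.G

open Finset (range)
open Pool.Agent.PSX (Es W sg nu ev Z0 EZ SX I0 I1 TT ED fb evZ v3 v5 v7)
open Pool.Agent.P4G (Fam QN FN FZ CR)

namespace LV0x

/-- the boundary sum of level zero vanishes -/
lemma Z0_zero (q0 e e0 : ℕ) (ψ : ℤ → ℤ) (N m : ℕ) [NeZero N] (hN : N = QN 13 q0 0)
    (hm : m = 13 ^ (0 + 1)) (h : PSX.Fm 13 q0 0 e e0 ψ) (F' : ZMod N → ZMod m)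
    (hF' : ∀ z, F' z = ((ψ (z.val : ℤ) * (z.val : ℤ) ^ e : ℤ) : ZMod m)) (S : ZMod N) :
    Z0 F' S = 0 := by
  subst hN
  subst hm
  have h1 : F' = FZ 13 q0 0 e ψ := by
    funext z
    rw [hF' z]
    unfold FZ FN
    push_cast
    rfl
  rw [h1]
  exact PSX.t_ZSQ 13 q0 0 e e0 ψ h S

/-- values modulo thirteen are periodic -/
lemma fb_per {l q0 n e : ℕ} {ψ : ℤ → ℤ} (h : Fam l q0 n e ψ) (u : ℤ) (t : ℤ) :
    fb e ψ (u + t * ((q0 : ℤ) * 13)) = fb e ψ u := by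
  unfold fb
  have h1 : ψ (u + t * ((q0 : ℤ) * 13)) = ψ u := by
    rw [show u + t * ((q0 : ℤ) * 13) = u + (t * 13) * q0 by ring, h.ψper]
  have h13 : (13 : ZMod 13) = 0 := by decide
  rw [h1]
  push_cast
  rw [h13, mul_zero, mul_zero, add_zero]

end LV0x

/-- **LV0** -/
theorem t_LV0 (hDSG : Stmt_DSG) (hLVL : Stmt_LVL) : Stmt_LV0 := by
  intro q0 n e e0 ψ χ _ _ hF hχ P R S c
  have hF0 : PSX.Fm 13 q0 0 e e0 ψ := (hLVL 13 q0 n 0 e e0 ψ (Nat.zero_le n) hF).1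
  have hdvd : q0 * 13 ∣ QN 13 q0 n := by
    unfold QN
    exact Nat.mul_dvd_mul_left q0 (dvd_pow_self 13 (Nat.succ_ne_zero n))
  set F' : ZMod (q0 * 13) → ZMod 13 := fun z => χ (z.val : ℤ) with hF'
  have hcomp : ∀ z : ZMod (QN 13 q0 n),
      ZMod.castHom (dvd_pow_self 13 (Nat.succ_ne_zero n)) (ZMod 13) (FZ 13 q0 n e ψ z)
        = F' (ZMod.castHom hdvd (ZMod (q0 * 13)) z) := by
    intro z
    have h1 : ZMod.castHom hdvd (ZMod (q0 * 13)) z = ((z.val : ℕ) : ZMod (q0 * 13)) := by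
      conv_lhs => rw [← ZMod.natCast_zmod_val z]
      rw [map_natCast]
    rw [h1, hF']
    show _ = χ ((((z.val : ℕ) : ZMod (q0 * 13)).val : ℕ) : ℤ)
    rw [ZMod.val_natCast, ← hχ]
    have h2 : fb e ψ (z.val : ℤ) = fb e ψ ((z.val % (q0 * 13) : ℕ) : ℤ) := by
      have h3 : (z.val : ℤ) = ((z.val % (q0 * 13) : ℕ) : ℤ)
          + ((z.val / (q0 * 13) : ℕ) : ℤ) * ((q0 : ℤ) * 13) := by
        have := Nat.mod_add_div z.val (q0 * 13)
        have h4 : (z.val : ℤ) = ((z.val % (q0 * 13) + q0 * 13 * (z.val / (q0 * 13)) : ℕ) : ℤ) := by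
          rw [this]
        rw [h4]
        push_cast
        ring
      conv_lhs => rw [h3]
      exact LV0x.fb_per hF.fam _ _
    rw [← h2]
    unfold FZ FN fb
    rw [map_mul, map_pow, map_intCast, map_intCast]
    push_cast
    rfl
  have h := hDSG (q0 * 13) (QN 13 q0 n) hdvd hF.fam.Qodd (ZMod (13 ^ (n + 1))) (ZMod 13)
    (ZMod.castHom (dvd_pow_self 13 (Nat.succ_ne_zero n)) (ZMod 13)) (FZ 13 q0 n e ψ) F' hcomp
    (P : ZMod (QN 13 q0 n)) (R : ZMod (QN 13 q0 n)) (S : ZMod (QN 13 q0 n)) c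
  rw [h, map_intCast, map_intCast, map_intCast,
    LV0x.Z0_zero q0 e e0 ψ (q0 * 13) 13 (by unfold QN; norm_num) (by norm_num) hF0 F'
      (fun z => by rw [hF']; exact (hχ _).symm), mul_zero, add_zero]
  rfl

end Pool.Agent.OEG.G
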