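import Pool.Agent.OEG.StG
import Pool.Agent.PSX.M_ZSQ

/-!
# LVL: level lowering for families
-/

set_option autoImplicit false

namespace Pool.Agent.OEG.G

open Finset (range)
open Pool.Agent.PSX (Es W sg nu ev Z0 EZ SX I0 I1 TT ED fb evZ v3 v5 v7)
open Pool.Agent.P4G (Fam QN FN FZ CR)

namespace LVLaux

/-- The values of level `n` reduce to those of level `n'`. -/
theorem map_FN {l n n' e : ℕ} {ψ : ℤ → ℤ} (hd : l ^ (n' + 1) ∣ l ^ (n + 1)) (u : ℤ) :
    ZMod.castHom hd (ZMod (l ^ (n' + 1))) (FN l n e ψ u) = FN l n' e ψ u := by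
  unfold FN
  rw [map_mul, map_pow, map_intCast, map_intCast]

/-- Periodicity. -/
theorem per {l q0 n' e : ℕ} {ψ : ℤ → ℤ} (hper : ∀ x, ψ (x + q0) = ψ x) (u : ℤ) :
    FN l n' e ψ (u + QN l q0 n') = FN l n' e ψ u := by
  have hψ : ∀ (x : ℤ) (t : ℕ), ψ (x + t * q0) = ψ x := by
    intro x t
    induction t with
    | zero => simp
    | succ i ih =>
      rw [show x + ((i + 1 : ℕ) : ℤ) * q0 = (x + i * q0) + q0 by push_cast; ring, hper, ih]
  unfold FN QN
  have e1 : ψ (u + ((q0 * l ^ (n' + 1) : ℕ) : ℤ)) = ψ u := by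
    have := hψ u (l ^ (n' + 1))
    rw [← this]
    congr 1
    push_cast
    ring
  rw [e1]
  congr 2
  push_cast
  have h0 : ((l : ZMod (l ^ (n' + 1))) ^ (n' + 1)) = 0 := by
    have := ZMod.natCast_self (l ^ (n' + 1))
    push_cast at this
    exact this
  rw [h0, mul_zero, add_zero]

/-- Multiplication by two is injective modulo an odd number. -/
theorem two_cancel {L : ℕ} (hL : L % 2 = 1) (s : ZMod L) (h : s = -s) : s = 0 := by
  have h2 : (2 : ZMod L) * s = 0 := by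
    linear_combination h
  have h3 : (((L + 1) / 2 : ℕ) : ZMod L) * 2 = 1 := by
    have e : (((L + 1) / 2 * 2 : ℕ) : ZMod L) = ((L + 1 : ℕ) : ZMod L) := by
      congr 1
      omega
    push_cast at e
    rw [e, ZMod.natCast_self, zero_add]
  calc s = (((L + 1) / 2 : ℕ) : ZMod L) * 2 * s := by rw [h3, one_mul]
    _ = (((L + 1) / 2 : ℕ) : ZMod L) * (2 * s) := by ring
    _ = 0 := by rw [h2, mul_zero]

/-- The sum of an odd periodic function over a period vanishes. -/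
theorem period_sum {L : ℕ} (hL : L % 2 = 1) (N : ℕ) (G : ℤ → ZMod L)
    (hp : ∀ u, G (u + N) = G u) (ho : ∀ u, G (-u) = - G u) :
    ∑ r ∈ range N, G (r : ℤ) = 0 := by
  apply two_cancel hL
  have h1 : ∑ r ∈ range N, G ((r : ℤ) + 1) = ∑ r ∈ range N, G (r : ℤ) := by
    have h2 := Finset.sum_range_succ (fun r : ℕ => G (r : ℤ)) N
    have h3 := Finset.sum_range_succ' (fun r : ℕ => G (r : ℤ)) N
    have h4 : G ((N : ℕ) : ℤ) = G ((0 : ℕ) : ℤ) := by
      have := hp 0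
      rw [zero_add] at this
      simpa using this
    rw [h3, h4] at h2
    have h5 := add_right_cancel h2
    rw [← h5]
    apply Finset.sum_congr rfl
    intro r _
    push_cast
    rfl
  have h6 : ∑ r ∈ range N, G (r : ℤ) = ∑ r ∈ range N, G (-((r : ℤ) + 1)) := by
    rw [← Finset.sum_range_reflect (fun r : ℕ => G (r : ℤ)) N]
    apply Finset.sum_congr rfl
    intro r hr
    have hr' : r < N := Finset.mem_range.mp hr
    rw [← hp (-((r : ℤ) + 1))]
    congr 1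
    have : ((N - 1 - r : ℕ) : ℤ) = (N : ℤ) - 1 - r := by omega
    rw [this]
    ring
  rw [← h1]
  nth_rewrite 1 [h1]
  rw [h6, ← Finset.sum_neg_distrib]
  apply Finset.sum_congr rfl
  intro r _
  exact ho _

/-- Several full periods. -/
theorem periods_sum {L : ℕ} (hL : L % 2 = 1) (N : ℕ) (G : ℤ → ZMod L)
    (hp : ∀ u, G (u + N) = G u) (ho : ∀ u, G (-u) = - G u) :
    ∀ k M : ℕ, ∑ r ∈ range (N * k + M), G (r : ℤ) = ∑ r ∈ range M, G (r : ℤ) := by
  intro k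
  induction k with
  | zero => intro M; simp
  | succ k ih =>
    intro M
    have e : N * (k + 1) + M = N * k + (N + M) := by ring
    rw [e, ih (N + M), Finset.sum_range_add, period_sum hL N G hp ho, zero_add]
    apply Finset.sum_congr rfl
    intro r _
    rw [← hp (r : ℤ)]
    congr 1
    push_cast
    ring

/-- The family at the lower level. -/
theorem lower {l q0 n n' e : ℕ} {ψ : ℤ → ℤ} (h : n' ≤ n) (hF : Fam l q0 n e ψ) :
    Fam l q0 n' e ψ := by
  have hd : l ^ (n' + 1) ∣ l ^ (n + 1) := pow_dvd_pow l (Nat.succ_le_succ h)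
  have hmul : ∀ x y, ((ψ (x * y) : ℤ) : ZMod (l ^ (n' + 1))) = (ψ x : ℤ) * (ψ y : ℤ) := by
    intro x y
    have := congrArg (ZMod.castHom hd (ZMod (l ^ (n' + 1)))) (hF.mul x y)
    rw [map_mul, map_intCast, map_intCast, map_intCast] at this
    exact this
  refine ⟨hF.hl, hF.l2, hF.hq, hF.cop, hF.per, hF.odd, hmul, ?_⟩
  have hcast : ∀ v : ℕ, ((P4G.Hs l q0 ψ v e : ℤ) : ZMod (l ^ (n' + 1))) =
      ∑ r ∈ range ((q0 * l ^ v + 1) / 2), FN l n' e ψ (r : ℤ) := by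
    intro v
    unfold P4G.Hs FN
    push_cast
    rfl
  have hlow : l ^ (n' + 1) % 2 = 1 := Nat.odd_iff.1 (Odd.pow (Nat.odd_iff.2 hF.lo))
  have hp : ∀ u, FN l n' e ψ (u + (QN l q0 n' : ℕ)) = FN l n' e ψ u := per hF.per
  have ho : ∀ u, FN l n' e ψ (-u) = - FN l n' e ψ u := by
    intro u
    have := congrArg (ZMod.castHom hd (ZMod (l ^ (n' + 1)))) (hF.FN_neg u)
    rwa [map_neg, map_FN hd, map_FN hd] at this
  have hK : l ^ (n - n') % 2 = 1 := Nat.odd_iff.1 (Odd.pow (Nat.odd_iff.2 hF.lo))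
  have hN' : QN l q0 n' % 2 = 1 := Nat.odd_iff.1 (Odd.mul (Nat.odd_iff.2 hF.hq)
    (Nat.odd_iff.2 hlow))
  have hNN : q0 * l ^ (n + 1) = QN l q0 n' * l ^ (n - n') := by
    unfold QN
    rw [mul_assoc, ← pow_add]
    congr 2
    omega
  have hhalf : (q0 * l ^ (n + 1) + 1) / 2 =
      QN l q0 n' * (l ^ (n - n') / 2) + (QN l q0 n' + 1) / 2 := by
    rw [hNN]
    set K := l ^ (n - n') with hKdef
    set N := QN l q0 n' with hNdef
    obtain ⟨k, hk⟩ : ∃ k, K = 2 * k + 1 := ⟨K / 2, by omega⟩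
    obtain ⟨m, hm⟩ : ∃ m, N = 2 * m + 1 := ⟨N / 2, by omega⟩
    have h1 : K / 2 = k := by omega
    have h2 : (N + 1) / 2 = m + 1 := by omega
    rw [h1, h2, hk, hm]
    have h3 : (2 * m + 1) * (2 * k + 1) + 1 = 2 * ((2 * m + 1) * k + (m + 1)) := by ring
    rw [h3]
    omega
  have h0 : ((P4G.Hs l q0 ψ (n + 1) e : ℤ) : ZMod (l ^ (n' + 1))) = 0 := by
    rw [ZMod.intCast_zmod_eq_zero_iff_dvd]
    refine dvd_trans ?_ hF.zero
    exact_mod_cast hd
  rw [hcast, hhalf, periods_sum hlow (QN l q0 n') (FN l n' e ψ) hp ho] at h0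
  have h1 := hcast (n' + 1)
  change _ = ∑ r ∈ range ((QN l q0 n' + 1) / 2), FN l n' e ψ (r : ℤ) at h1
  rw [h0, ZMod.intCast_zmod_eq_zero_iff_dvd] at h1
  exact_mod_cast h1

end LVLaux

open LVLaux in
theorem t_LVL (hDSG : Stmt_DSG) : Stmt_LVL := by
  intro l q0 n n' e e0 ψ h hF
  have hfam : Fam l q0 n' e ψ := lower h hF.fam
  have hF' : PSX.Fm l q0 n' e e0 ψ := ⟨hfam, hF.one, hF.red, hF.two, hF.nd⟩
  refine ⟨hF', ?_⟩
  intro _ _ P R S c
  have hQ : QN l q0 n' ∣ QN l q0 n := Nat.mul_dvd_mul_left q0 (pow_dvd_pow l (Nat.succ_le_succ h))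
  have hd : l ^ (n' + 1) ∣ l ^ (n + 1) := pow_dvd_pow l (Nat.succ_le_succ h)
  have hcomp : ∀ z : ZMod (QN l q0 n), ZMod.castHom hd (ZMod (l ^ (n' + 1))) (FZ l q0 n e ψ z) =
      FZ l q0 n' e ψ (ZMod.castHom hQ (ZMod (QN l q0 n')) z) := by
    intro z
    obtain ⟨u, rfl⟩ := ZMod.intCast_surjective z
    rw [hF.fam.FZ_cast, map_FN hd, map_intCast, hfam.FZ_cast]
  have key := hDSG (QN l q0 n') (QN l q0 n) hQ hF.fam.Qodd (ZMod (l ^ (n + 1)))
    (ZMod (l ^ (n' + 1))) (ZMod.castHom hd (ZMod (l ^ (n' + 1)))) (FZ l q0 n e ψ)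
    (FZ l q0 n' e ψ) hcomp (P : ZMod (QN l q0 n)) (R : ZMod (QN l q0 n)) (S : ZMod (QN l q0 n)) c
  rw [PSX.t_ZSQ l q0 n' e e0 ψ hF', mul_zero, add_zero, map_intCast, map_intCast,
    map_intCast] at key
  exact key

end Pool.Agent.OEG.G
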