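import Pool.Agent.OEG.StG

set_option autoImplicit false

namespace Pool.Agent.OEG.G

open Pool.Agent.PSX (Es)
open Pool.Agent.Lib_helper5.LK (Fm)

theorem ngq_sum {M : Type} [CommRing M] (f g : ℕ → M) (h : ∀ j, f j = - g j) (L : List ℕ) :
    (L.map f).sum = - (L.map g).sum := by
  induction L with
  | nil => simp
  | cons a L ih =>
    rw [List.map_cons, List.map_cons, List.sum_cons, List.sum_cons, ih, h a, neg_add]

theorem t_NGQ (hS : Stmt_SYE) : Stmt_NGQ := by
  intro Q _ hQ M _ F hF l u p q b m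
  have key : ∀ (P R S c : ℤ), Es F (P : ZMod Q) ((-R : ℤ) : ZMod Q) ((-S : ℤ) : ZMod Q) (-(-c))
      = - Es F (P : ZMod Q) (R : ZMod Q) ((-S : ℤ) : ZMod Q) (-c) := by
    intro P R S c
    have h1 := (hS Q hQ M F hF (P : ZMod Q) (R : ZMod Q) ((-S : ℤ) : ZMod Q) (-c)).2.1
    rw [← h1]
    push_cast
    rfl
  unfold EJ J1
  rw [List.map_append, List.map_append, List.sum_append, List.sum_append, List.map_map,
    List.map_map, List.map_map, List.map_map]
  rw [ngq_sum _ ((fun j : Fm => Es F (j.P : ZMod Q) (j.R : ZMod Q) ((-j.S : ℤ) : ZMod Q) (-j.α)) ∘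
      (fun j => (⟨p ^ j, q * p ^ m + b, -(l * p ^ (m - j)), 3, -(c1 l p q b m j)⟩ : Fm))) ?_
      (List.range (m + 1)),
    ngq_sum _ ((fun j : Fm => Es F (j.P : ZMod Q) (j.R : ZMod Q) ((-j.S : ℤ) : ZMod Q) (-j.α)) ∘
      (fun j => (⟨p ^ (j + 1), q * p ^ m - b, -(u * p ^ (m - j)), 3, -(u * q * p ^ j)⟩ : Fm))) ?_
      (List.range m), neg_add]
  · intro j
    simp only [Function.comp]
    have h1 : -q * p ^ m - -b = -(q * p ^ m - b) := by ring
    have h2 : -(-(u * -q * p ^ j)) = -(-(-(u * q * p ^ j))) := by ring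
    rw [h1, h2]
    have h3 := key (p ^ (j + 1)) (q * p ^ m - b) (-(u * p ^ (m - j))) (-(u * q * p ^ j))
    exact h3
  · intro j
    simp only [Function.comp]
    have h1 : -q * p ^ m + -b = -(q * p ^ m + b) := by ring
    have h2 : -(-(c1 l p (-q) (-b) m j)) = -(-(-(c1 l p q b m j))) := by
      unfold c1
      split_ifs <;> ring
    rw [h1, h2]
    have h3 := key (p ^ j) (q * p ^ m + b) (-(l * p ^ (m - j))) (-(c1 l p q b m j))
    exact h3

end Pool.Agent.OEG.G
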