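import Pool.Agent.OEG.StG
import Pool.Agent.PSX.EvTab
import Pool.Agent.PSX.EvKer
import Pool.Agent.PSX.T_195F13
import Pool.Agent.RQM.C56
import Pool.Agent.RQM.C62

/-!
# Project OEG: NV1, the first ghost at level zero

By contradiction: LNK turns the three vanishing edge sums into relations of the tables `455F13b`,
`455F13e`, `195F13`; `relG` gives the values of the tables, and a kernel check over the residues of `q`
finishes.
-/

set_option autoImplicit false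

namespace Pool.Agent.OEG.G

open Finset (range)
open Pool.Agent.PSX (Es Z0 v3 v5 v7)
open Pool.Agent.PSX.Ev (CompG relG fvalG)
open Pool.Agent.Lib_helper5 Pool.Agent.Lib_helper5.LK Pool.Agent.Lib_helper5.TB
open Pool.Agent.LibH4 Pool.Agent.LibH4.Ker

/-- the condition of a component -/
lemma adP_ofNr {p : ℕ} [NeZero p] (hp : 1 < p) (P R S : ℤ)
    (h : ((R ^ 2 - 4 * P * S : ℤ) : ZMod p) ^ (p / 2) = -1) :
    adP p (rs p P) (rs p R) (rs p S) = true := by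
  have e : (rs p R * rs p R + 4 * rs p P * (p - rs p S)) % p = rs p (R ^ 2 - 4 * P * S) := by
    apply rs_of
    rw [Nat.cast_add, Nat.cast_mul, Nat.cast_mul, Nat.cast_mul, Nat.cast_sub (rs_lt S).le,
      rs_cast, rs_cast, rs_cast, ZMod.natCast_self]
    push_cast
    ring
  have e' : adP p (rs p P) (rs p R) (rs p S) =
    Nat.beq (Nat.mod (Nat.pow ((rs p R * rs p R + 4 * rs p P * (p - rs p S)) % p)
      (p / 2)) p) (p - 1) := rfl
  rw [e', e]
  have h5 : (((rs p (R ^ 2 - 4 * P * S)) ^ (p / 2) : ℕ) : ZMod p) = ((p - 1 : ℕ) : ZMod p) := by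
    rw [Nat.cast_pow, rs_cast, h, Nat.cast_sub hp.le, ZMod.natCast_self]
    push_cast
    ring
  have h6 := (ZMod.natCast_eq_natCast_iff' _ _ p).1 h5
  rw [Nat.mod_eq_of_lt (show p - 1 < p by omega)] at h6
  have h7 : Nat.mod (Nat.pow (rs p (R ^ 2 - 4 * P * S)) (p / 2)) p = p - 1 := h6
  rw [h7]
  exact Nat.beq_refl _

/-- the sum `Z0` vanishes if the square of the character is not trivial -/
lemma Z0_zero {Q : ℕ} [NeZero Q] (F : ZMod Q → ZMod 13) (hm : ∀ x y, F (x * y) = F x * F y)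
    (a : ℕ) (ha : a.Coprime Q) (hF : F (a : ZMod Q) ^ 2 ≠ 1) (S : ZMod Q) : Z0 F S = 0 := by
  have : Fact (Nat.Prime 13) := ⟨by norm_num⟩
  have h1 : ∑ y : ZMod Q, F y ^ 2 = 0 := by
    have h2 : ∑ y : ZMod Q, F y ^ 2 = ∑ y : ZMod Q, F ((a : ZMod Q) * y) ^ 2 := by
      symm
      refine Fintype.sum_equiv (Units.mulLeft (ZMod.unitOfCoprime a ha)) _ _ fun x => ?_
      rw [Units.mulLeft_apply, ZMod.coe_unitOfCoprime]
    have h3 : ∑ y : ZMod Q, F ((a : ZMod Q) * y) ^ 2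
        = F (a : ZMod Q) ^ 2 * ∑ y : ZMod Q, F y ^ 2 := by
      rw [Finset.mul_sum]
      refine Finset.sum_congr rfl fun y _ => ?_
      rw [hm, mul_pow]
    rw [h3] at h2
    have h4 : (F (a : ZMod Q) ^ 2 - 1) * ∑ y : ZMod Q, F y ^ 2 = 0 := by
      linear_combination -h2
    rcases mul_eq_zero.1 h4 with h5 | h5
    · exact absurd (sub_eq_zero.1 h5) hF
    · exact h5
  have e : ∀ y : ZMod Q, F (-(S * y ^ 2)) = F (-S) * F y ^ 2 := by
    intro y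
    have : -(S * y ^ 2) = (-S) * (y * y) := by ring
    rw [this, hm, hm]
    ring
  unfold Z0
  rw [Finset.sum_congr rfl fun y _ => e y, ← Finset.mul_sum, h1, mul_zero]

/-- the relation of a table from a vanishing edge sum of the first ghost -/
lemma rel_L1 (LNK : Stmt_LNK) (q0 : ℕ) [NeZero (q0 * 13)] (χ : ℤ → ZMod 13)
    (χt : ZMod (q0 * 13) → ZMod 2197) (h2 : q0 % 2 = 1) (ho : ∀ z, χt (-z) = - χt z)
    (hm : ∀ x y, χt (x * y) = χt x * χt y)
    (hr : ∀ z : ZMod (q0 * 13),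
      ZMod.castHom (by norm_num : 13 ∣ 2197) (ZMod 13) (χt z) = χ (z.val : ℤ))
    (hu : IsUnit (4 * χt 4 - 1)) (a : ℕ) (ha : a.Coprime (q0 * 13)) (hal : a < q0 * 13)
    (hχ : χ (a : ℤ) ^ 2 ≠ 1) (q s : ℤ) (hs : OEX.Sg s) (h0 : E0 q0 χ 1 q s (s * q) = 0) :
    LK.Rel 2197 χt (L1 q s) := by
  have hs2 : s * s = 1 := by
    rcases hs with rfl | rfl <;> norm_num
  refine LNK q0 χ χt (L1 q s) h2 ho hm hr hu ?_ ?_ ?_ ?_
  · intro S
    refine Z0_zero (fun z : ZMod (q0 * 13) => χ (z.val : ℤ)) ?_ a ha ?_ S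
    · intro x y
      rw [← hr, ← hr, ← hr, hm, map_mul]
    · rw [ZMod.val_natCast, Nat.mod_eq_of_lt hal]
      exact hχ
  · intro j hj
    unfold L1 at hj
    rw [List.mem_singleton] at hj
    rw [hj]
  · intro V hV
    unfold L1
    simp only [List.map_cons, List.map_nil, List.sum_cons, List.sum_nil, add_zero, neg_neg]
    have e1 : (2 * (s * q) * s - q : ℤ) = q := by linear_combination (2 * q) * hs2
    have e2 : (1 + q * (s * q) - s * (s * q) ^ 2 : ℤ) = 1 := by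
      linear_combination (-(s * q ^ 2)) * hs2
    rw [e1, e2]
    rcases hs with rfl | rfl
    · rfl
    · have := hV ((1 : ℤ) : ZMod (q0 * 13)) (q : ZMod (q0 * 13)) (((-1 : ℤ)) : ZMod (q0 * 13))
      rw [← this]
      push_cast
      rw [neg_neg]
  · unfold EL0 L1
    simp only [List.map_cons, List.map_nil, List.sum_cons, List.sum_nil, add_zero, neg_neg]
    exact h0

/-- reduction of the product of three tables -/
lemma red_tri {n1 n2 n3 T1 T2 T3 : ℕ} [NeZero n1] [NeZero n2] [NeZero n3] [NeZero (n1 * n2 * n3)]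
    (w1 : ZMod n1 → ZMod 13) (w2 : ZMod n2 → ZMod 13) (w3 : ZMod n3 → ZMod 13)
    (h1 : ∀ x : ZMod n1, ((chw T1 x.val : ℕ) : ZMod 13) = w1 x)
    (h2 : ∀ x : ZMod n2, ((chw T2 x.val : ℕ) : ZMod 13) = w2 x)
    (h3 : ∀ x : ZMod n3, ((chw T3 x.val : ℕ) : ZMod 13) = w3 x) (z : ZMod (n1 * n2 * n3)) :
    ZMod.castHom (by norm_num : 13 ∣ 2197) (ZMod 13)
        (tri (tabc n1 2197 T1) (tabc n2 2197 T2) (tabc n3 2197 T3) z)
      = w1 (z.val : ZMod n1) * w2 (z.val : ZMod n2) * w3 (z.val : ZMod n3) := by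
  conv_lhs => rw [← ZMod.natCast_zmod_val z]
  rw [tri_natCast, map_mul, map_mul]
  unfold tabc
  rw [map_natCast, map_natCast, map_natCast, h1, h2, h3]

lemma ra1 : ∀ x : ZMod 13, ((chw T1_455F13b x.val : ℕ) : ZMod 13) = x ^ 5 := by decide +kernel
lemma ra2 : ∀ x : ZMod 7, ((chw T2_455F13b x.val : ℕ) : ZMod 13) = v7 x ^ 4 := by decide +kernel
lemma ra3 : ∀ x : ZMod 5, ((chw T3_455F13b x.val : ℕ) : ZMod 13) = v5 x ^ 2 := by decide +kernel
lemma rb1 : ∀ x : ZMod 13, ((chw T1_455F13e x.val : ℕ) : ZMod 13) = x ^ 5 := by decide +kernel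
lemma rb2 : ∀ x : ZMod 7, ((chw T2_455F13e x.val : ℕ) : ZMod 13) = v7 x ^ 5 := by decide +kernel
lemma rb3 : ∀ x : ZMod 5, ((chw T3_455F13e x.val : ℕ) : ZMod 13) = v5 x ^ 3 := by decide +kernel
lemma rc1 : ∀ x : ZMod 13, ((chw PSX.EL.T1_195F13 x.val : ℕ) : ZMod 13) = x ^ 3 := by
  decide +kernel
lemma rc2 : ∀ x : ZMod 5, ((chw PSX.EL.T2_195F13 x.val : ℕ) : ZMod 13) = v5 x := by
  decide +kernel
lemma rc3 : ∀ x : ZMod 3, ((chw PSX.EL.T3_195F13 x.val : ℕ) : ZMod 13) = v3 x := by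
  decide +kernel

lemma a_ne : χa ((2 : ℕ) : ℤ) ^ 2 ≠ 1 := by decide +kernel
lemma b_ne : χb ((2 : ℕ) : ℤ) ^ 2 ≠ 1 := by decide +kernel
lemma c_ne : χc ((11 : ℕ) : ℤ) ^ 2 ≠ 1 := by decide +kernel

lemma nr_7 {D : ℤ} (h : PSX.Nr D) : (D : ZMod 7) ^ (7 / 2) = -1 := h.h7
lemma nr_5 {D : ℤ} (h : PSX.Nr D) : (D : ZMod 5) ^ (5 / 2) = -1 := h.h5
lemma nr_3 {D : ℤ} (h : PSX.Nr D) : (D : ZMod 3) ^ (3 / 2) = -1 := by
  rw [show 3 / 2 = 1 from rfl, pow_one]
  exact h.h3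

/-- the value of the table `455F13b` -/
lemma val_a (LNK : Stmt_LNK) [NeZero (35 * 13)] (q s : ℤ) (hs : OEX.Sg s)
    (hD : PSX.Nr (q ^ 2 + 4 * s)) (h0 : E0 35 χa 1 q s (s * q) = 0) :
    fvalG 13 7 5 13 (pos 13 11 PT13) (pos 7 5 PT7) (pos 5 3 PT5)
      t1_455F13b t2_455F13b t3_455F13b rows_455F13b 10 ⟨1, q, -s, 3, -(s * q)⟩ % 13 = 0 := by
  have hc := tri_char (n1 := 13) (n2 := 7) (n3 := 5) (tabCk_char tab1_455F13b)
    (tabCk_char tab2_455F13b) (tabCk_char tab3_455F13b)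
  have ho := (K4.relOk_spec (by norm_num) rok_455F13b tab1_455F13b tab2_455F13b
    tab3_455F13b).1
  have hr : ∀ z : ZMod (13 * 7 * 5), ZMod.castHom (by norm_num : 13 ∣ 2197) (ZMod 13)
      (tri (tabc 13 2197 T1_455F13b) (tabc 7 2197 T2_455F13b) (tabc 5 2197 T3_455F13b) z)
      = χa (z.val : ℤ) := by
    intro z
    rw [red_tri (fun x => x ^ 5) (fun x => v7 x ^ 4) (fun x => v5 x ^ 2) ra1 ra2 ra3 z]
    unfold χa
    rw [Int.cast_natCast, Int.cast_natCast, Int.cast_natCast]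
    ring
  have hc4 : chi3 13 7 5 2197 T1_455F13b T2_455F13b T3_455F13b 4 = 2196 := by decide +kernel
  have hu : IsUnit (4 * tri (tabc 13 2197 T1_455F13b) (tabc 7 2197 T2_455F13b)
      (tabc 5 2197 T3_455F13b) ((4 : ℕ) : ZMod (13 * 7 * 5)) - 1) := by
    rw [← chi3_cast, hc4]
    exact IsUnit.of_mul_eq_one 1318 (by decide +kernel)
  have hrel : LK.Rel 2197 (q := 13 * 7 * 5) (tri (tabc 13 2197 T1_455F13b)
      (tabc 7 2197 T2_455F13b) (tabc 5 2197 T3_455F13b)) (L1 q s) :=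
    rel_L1 LNK 35 χa (tri (tabc 13 2197 T1_455F13b) (tabc 7 2197 T2_455F13b)
      (tabc 5 2197 T3_455F13b) : ZMod (13 * 7 * 5) → ZMod 2197) (by norm_num) ho hc.mul hr
      hu 2 (by norm_num) (by norm_num) a_ne q s hs h0
  have hF : F5.length = 10 := by decide
  have hN : ∀ j ∈ L1 q s, j = ⟨1, q, -s, 3, -(s * q)⟩ := fun j hj => List.mem_singleton.1 hj
  have eD : (q ^ 2 - 4 * 1 * (-s) : ℤ) = q ^ 2 + 4 * s := by ring
  have key := relG tok_455F13b (by norm_num) (by norm_num) (by norm_num) tab1_455F13b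
    tab2_455F13b tab3_455F13b (CompG.of comp13) (CompG.of comp7) (CompG.of comp5)
    red1_455F13b red2_455F13b red3_455F13b
    (fun j hj => by rw [hN j hj]; exact adP_ofNr (by norm_num) _ _ _ (by rw [eD]; exact hD.h13))
    (fun j hj => by rw [hN j hj]; exact adP_ofNr (by norm_num) _ _ _ (by rw [eD]; exact nr_7 hD))
    (fun j hj => by rw [hN j hj]; exact adP_ofNr (by norm_num) _ _ _ (by rw [eD]; exact nr_5 hD))
    hrel
  rw [hF] at key
  unfold L1 at key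
  rw [List.map_cons, List.map_nil, List.sum_cons, List.sum_nil, Nat.add_zero] at key
  exact key

/-- the value of the table `455F13e` -/
lemma val_b (LNK : Stmt_LNK) [NeZero (35 * 13)] (q s : ℤ) (hs : OEX.Sg s)
    (hD : PSX.Nr (q ^ 2 + 4 * s)) (h0 : E0 35 χb 1 q s (s * q) = 0) :
    fvalG 13 7 5 13 (pos 13 11 PT13) (pos 7 5 PT7) (pos 5 3 PT5)
      t1_455F13e t2_455F13e t3_455F13e rows_455F13e 10 ⟨1, q, -s, 3, -(s * q)⟩ % 13 = 0 := by
  have hc := tri_char (n1 := 13) (n2 := 7) (n3 := 5) (tabCk_char tab1_455F13e)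
    (tabCk_char tab2_455F13e) (tabCk_char tab3_455F13e)
  have ho := (K4.relOk_spec (by norm_num) rok_455F13e tab1_455F13e tab2_455F13e
    tab3_455F13e).1
  have hr : ∀ z : ZMod (13 * 7 * 5), ZMod.castHom (by norm_num : 13 ∣ 2197) (ZMod 13)
      (tri (tabc 13 2197 T1_455F13e) (tabc 7 2197 T2_455F13e) (tabc 5 2197 T3_455F13e) z)
      = χb (z.val : ℤ) := by
    intro z
    rw [red_tri (fun x => x ^ 5) (fun x => v7 x ^ 5) (fun x => v5 x ^ 3) rb1 rb2 rb3 z]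
    unfold χb
    rw [Int.cast_natCast, Int.cast_natCast, Int.cast_natCast]
    ring
  have hc4 : chi3 13 7 5 2197 T1_455F13e T2_455F13e T3_455F13e 4 = 1036 := by decide +kernel
  have hu : IsUnit (4 * tri (tabc 13 2197 T1_455F13e) (tabc 7 2197 T2_455F13e)
      (tabc 5 2197 T3_455F13e) ((4 : ℕ) : ZMod (13 * 7 * 5)) - 1) := by
    rw [← chi3_cast, hc4]
    exact IsUnit.of_mul_eq_one 744 (by decide +kernel)
  have hrel : LK.Rel 2197 (q := 13 * 7 * 5) (tri (tabc 13 2197 T1_455F13e)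
      (tabc 7 2197 T2_455F13e) (tabc 5 2197 T3_455F13e)) (L1 q s) :=
    rel_L1 LNK 35 χb (tri (tabc 13 2197 T1_455F13e) (tabc 7 2197 T2_455F13e)
      (tabc 5 2197 T3_455F13e) : ZMod (13 * 7 * 5) → ZMod 2197) (by norm_num) ho hc.mul hr
      hu 2 (by norm_num) (by norm_num) b_ne q s hs h0
  have hF : F5.length = 10 := by decide
  have hN : ∀ j ∈ L1 q s, j = ⟨1, q, -s, 3, -(s * q)⟩ := fun j hj => List.mem_singleton.1 hj
  have eD : (q ^ 2 - 4 * 1 * (-s) : ℤ) = q ^ 2 + 4 * s := by ring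
  have key := relG tok_455F13e (by norm_num) (by norm_num) (by norm_num) tab1_455F13e
    tab2_455F13e tab3_455F13e (CompG.of comp13) (CompG.of comp7) (CompG.of comp5)
    red1_455F13e red2_455F13e red3_455F13e
    (fun j hj => by rw [hN j hj]; exact adP_ofNr (by norm_num) _ _ _ (by rw [eD]; exact hD.h13))
    (fun j hj => by rw [hN j hj]; exact adP_ofNr (by norm_num) _ _ _ (by rw [eD]; exact nr_7 hD))
    (fun j hj => by rw [hN j hj]; exact adP_ofNr (by norm_num) _ _ _ (by rw [eD]; exact nr_5 hD))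
    hrel
  rw [hF] at key
  unfold L1 at key
  rw [List.map_cons, List.map_nil, List.sum_cons, List.sum_nil, Nat.add_zero] at key
  exact key

/-- the value of the table `195F13` -/
lemma val_c (LNK : Stmt_LNK) [NeZero (15 * 13)] (q s : ℤ) (hs : OEX.Sg s)
    (hD : PSX.Nr (q ^ 2 + 4 * s)) (h0 : E0 15 χc 1 q s (s * q) = 0) :
    fvalG 13 5 3 13 (pos 13 11 PT13) (pos 5 3 PT5) (pos 3 1 PT3)
      PSX.EL.t1_195F13 PSX.EL.t2_195F13 PSX.EL.t3_195F13 PSX.EL.rows_195F13 3 ⟨1, q, -s, 3, -(s * q)⟩ % 13 = 0 := by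
  have hc := tri_char (n1 := 13) (n2 := 5) (n3 := 3) (tabCk_char PSX.EL.tab1_195F13)
    (tabCk_char PSX.EL.tab2_195F13) (tabCk_char PSX.EL.tab3_195F13)
  have ho := (K4.relOk_spec (by norm_num) PSX.EL.rok_195F13 PSX.EL.tab1_195F13 PSX.EL.tab2_195F13
    PSX.EL.tab3_195F13).1
  have hr : ∀ z : ZMod (13 * 5 * 3), ZMod.castHom (by norm_num : 13 ∣ 2197) (ZMod 13)
      (tri (tabc 13 2197 PSX.EL.T1_195F13) (tabc 5 2197 PSX.EL.T2_195F13) (tabc 3 2197 PSX.EL.T3_195F13) z)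
      = χc (z.val : ℤ) := by
    intro z
    rw [red_tri (fun x => x ^ 3) (fun x => v5 x) (fun x => v3 x) rc1 rc2 rc3 z]
    unfold χc
    rw [Int.cast_natCast, Int.cast_natCast, Int.cast_natCast]
    ring
  have hc4 : chi3 13 5 3 2197 PSX.EL.T1_195F13 PSX.EL.T2_195F13 PSX.EL.T3_195F13 4 = 1 := by decide +kernel
  have hu : IsUnit (4 * tri (tabc 13 2197 PSX.EL.T1_195F13) (tabc 5 2197 PSX.EL.T2_195F13)
      (tabc 3 2197 PSX.EL.T3_195F13) ((4 : ℕ) : ZMod (13 * 5 * 3)) - 1) := by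
    rw [← chi3_cast, hc4]
    exact IsUnit.of_mul_eq_one 1465 (by decide +kernel)
  have hrel : LK.Rel 2197 (q := 13 * 5 * 3) (tri (tabc 13 2197 PSX.EL.T1_195F13)
      (tabc 5 2197 PSX.EL.T2_195F13) (tabc 3 2197 PSX.EL.T3_195F13)) (L1 q s) :=
    rel_L1 LNK 15 χc (tri (tabc 13 2197 PSX.EL.T1_195F13) (tabc 5 2197 PSX.EL.T2_195F13)
      (tabc 3 2197 PSX.EL.T3_195F13) : ZMod (13 * 5 * 3) → ZMod 2197) (by norm_num) ho hc.mul hr
      hu 11 (by norm_num) (by norm_num) c_ne q s hs h0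
  have hF : F3.length = 3 := by decide
  have hN : ∀ j ∈ L1 q s, j = ⟨1, q, -s, 3, -(s * q)⟩ := fun j hj => List.mem_singleton.1 hj
  have eD : (q ^ 2 - 4 * 1 * (-s) : ℤ) = q ^ 2 + 4 * s := by ring
  have key := relG PSX.EL.tok_195F13 (by norm_num) (by norm_num) (by norm_num) PSX.EL.tab1_195F13
    PSX.EL.tab2_195F13 PSX.EL.tab3_195F13 (CompG.of comp13) (CompG.of comp5) (CompG.of comp3)
    PSX.EL.red1_195F13 PSX.EL.red2_195F13 PSX.EL.red3_195F13
    (fun j hj => by rw [hN j hj]; exact adP_ofNr (by norm_num) _ _ _ (by rw [eD]; exact hD.h13))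
    (fun j hj => by rw [hN j hj]; exact adP_ofNr (by norm_num) _ _ _ (by rw [eD]; exact nr_5 hD))
    (fun j hj => by rw [hN j hj]; exact adP_ofNr (by norm_num) _ _ _ (by rw [eD]; exact nr_3 hD))
    hrel
  rw [hF] at key
  unfold L1 at key
  rw [List.map_cons, List.map_nil, List.sum_cons, List.sum_nil, Nat.add_zero] at key
  exact key

lemma rs_one13 : rs 13 1 = 1 := by
  have : Fact (1 < 13) := ⟨by norm_num⟩
  unfold rs
  rw [Int.cast_one, ZMod.val_one]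

lemma rs_one7 : rs 7 1 = 1 := by
  have : Fact (1 < 7) := ⟨by norm_num⟩
  unfold rs
  rw [Int.cast_one, ZMod.val_one]

lemma rs_one5 : rs 5 1 = 1 := by
  have : Fact (1 < 5) := ⟨by norm_num⟩
  unfold rs
  rw [Int.cast_one, ZMod.val_one]

lemma rs_one3 : rs 3 1 = 1 := by
  have : Fact (1 < 3) := ⟨by norm_num⟩
  unfold rs
  rw [Int.cast_one, ZMod.val_one]

/-- the value of a single form in a table: kernel version -/
lemma fvalG_trm (n2 n3 : ℕ) (ps1 ps2 ps3 : ℕ → ℕ → ℕ → ℕ) (t1 t2 t3 : ℕ) (rows : List (ℕ × ℕ))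
    (len3 : ℕ) (h2 : rs n2 1 = 1) (h3 : rs n3 1 = 1) (R S α : ℤ) :
    fvalG 13 n2 n3 13 ps1 ps2 ps3 t1 t2 t3 rows len3 ⟨1, R, S, 3, α⟩
      = PSX.Ev.trm t1 t2 t3 rows len3 (1, ps1 1 (rs 13 R) (rs 13 S))
          (1, ps2 1 (rs n2 R) (rs n2 S)) (1, ps3 1 (rs n3 R) (rs n3 S)) (rs 13 α) := by
  unfold fvalG PSX.Ev.trm tX tY
  simp only [rs_one13, h2, h3, strict_eq, PSX.Ev.nthR_eq]
  rfl

/-- the exceptional class -/
def exc (e : ℕ × ℕ × ℕ × ℕ) (x13 x7 x5 x3 : ℕ) : Bool :=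
  andB (Nat.beq x13 e.1) (andB (Nat.beq x7 e.2.1) (andB (Nat.beq x5 e.2.2.1)
    (Nat.beq x3 e.2.2.2)))

/-- disjunction, kernel friendly -/
def orB (a b : Bool) : Bool := @Bool.rec (fun _ => Bool) b true a

/-- the kernel check of one class: `(x13, x7, x5, x3)` residues of `q`, `i13, i7, i5, i3` positions,
`al` the residue of `- s q`; `e1, e2` the exceptional classes -/
def ckN (e1 e2 : ℕ × ℕ × ℕ × ℕ) (al i13 i7 i5 i3 x13 x7 x5 x3 : ℕ) : Bool :=
  impB (Nat.beq (Nat.mod (PSX.Ev.trm t1_455F13b t2_455F13b t3_455F13b rows_455F13b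
    (nat_lit 10) (nat_lit 1, i13) (nat_lit 1, i7) (nat_lit 1, i5) al) (nat_lit 13)) (nat_lit 0))
  (impB (Nat.beq (Nat.mod (PSX.Ev.trm t1_455F13e t2_455F13e t3_455F13e rows_455F13e
    (nat_lit 10) (nat_lit 1, i13) (nat_lit 1, i7) (nat_lit 1, i5) al) (nat_lit 13)) (nat_lit 0))
  (impB (Nat.beq (Nat.mod (PSX.Ev.trm PSX.EL.t1_195F13 PSX.EL.t2_195F13 PSX.EL.t3_195F13
    PSX.EL.rows_195F13 (nat_lit 3) (nat_lit 1, i13) (nat_lit 1, i5) (nat_lit 1, i3) al)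
    (nat_lit 13)) (nat_lit 0))
  (orB (exc e1 x13 x7 x5 x3) (exc e2 x13 x7 x5 x3))))

/-- all classes, `y` the residue of `-s` -/
def ckA (y13 y7 y5 y3 : ℕ) (e1 e2 : ℕ × ℕ × ℕ × ℕ) (f : ℕ → ℕ) : Bool :=
  allR (fun x13 => impB (adP (nat_lit 13) (nat_lit 1) x13 y13)
    (strict (pos (nat_lit 13) (nat_lit 11) PT13 (nat_lit 1) x13 y13) fun i13 => strict (f x13) fun al =>
  allR (fun x7 => impB (adP (nat_lit 7) (nat_lit 1) x7 y7)
    (strict (pos (nat_lit 7) (nat_lit 5) PT7 (nat_lit 1) x7 y7) fun i7 =>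
  allR (fun x5 => impB (adP (nat_lit 5) (nat_lit 1) x5 y5)
    (strict (pos (nat_lit 5) (nat_lit 3) PT5 (nat_lit 1) x5 y5) fun i5 =>
  allR (fun x3 => impB (adP (nat_lit 3) (nat_lit 1) x3 y3)
    (strict (pos (nat_lit 3) (nat_lit 1) PT3 (nat_lit 1) x3 y3) fun i3 =>
    ckN e1 e2 al i13 i7 i5 i3 x13 x7 x5 x3)) (nat_lit 3))) (nat_lit 5))) (nat_lit 7))) (nat_lit 13)

/-- `s = 1` -/
lemma ck_pos : ckA (nat_lit 12) (nat_lit 6) (nat_lit 4) (nat_lit 2) (4, 3, 2, 2) (9, 4, 3, 1)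
    (fun x => Nat.mod (Nat.sub (nat_lit 13) x) (nat_lit 13)) = true := by
  decide +kernel
/-- `s = -1` -/
lemma ck_neg : ckA (nat_lit 1) (nat_lit 1) (nat_lit 1) (nat_lit 1) (8, 0, 1, 0) (5, 0, 4, 0)
    (fun x => x) = true := by
  decide +kernel

/-- use of the check -/
lemma ckA_use {y13 y7 y5 y3 : ℕ} {e1 e2 : ℕ × ℕ × ℕ × ℕ} {f : ℕ → ℕ}
    (h : ckA y13 y7 y5 y3 e1 e2 f = true) {x13 x7 x5 x3 : ℕ} (l13 : x13 < 13) (l7 : x7 < 7)
    (l5 : x5 < 5) (l3 : x3 < 3) (a13 : adP 13 1 x13 y13 = true) (a7 : adP 7 1 x7 y7 = true)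
    (a5 : adP 5 1 x5 y5 = true) (a3 : adP 3 1 x3 y3 = true)
    (va : PSX.Ev.trm t1_455F13b t2_455F13b t3_455F13b rows_455F13b 10
      (1, pos 13 11 PT13 1 x13 y13) (1, pos 7 5 PT7 1 x7 y7) (1, pos 5 3 PT5 1 x5 y5) (f x13)
        % 13 = 0)
    (vb : PSX.Ev.trm t1_455F13e t2_455F13e t3_455F13e rows_455F13e 10
      (1, pos 13 11 PT13 1 x13 y13) (1, pos 7 5 PT7 1 x7 y7) (1, pos 5 3 PT5 1 x5 y5) (f x13)
        % 13 = 0)
    (vc : PSX.Ev.trm PSX.EL.t1_195F13 PSX.EL.t2_195F13 PSX.EL.t3_195F13 PSX.EL.rows_195F13 3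
      (1, pos 13 11 PT13 1 x13 y13) (1, pos 5 3 PT5 1 x5 y5) (1, pos 3 1 PT3 1 x3 y3) (f x13)
        % 13 = 0) :
    exc e1 x13 x7 x5 x3 = true ∨ exc e2 x13 x7 x5 x3 = true := by
  have h1 := impB_spec (allR_spec h x13 l13) a13
  rw [strict_eq, strict_eq] at h1
  have h2 := impB_spec (allR_spec h1 x7 l7) a7
  rw [strict_eq] at h2
  have h3 := impB_spec (allR_spec h2 x5 l5) a5
  rw [strict_eq] at h3
  have h4 := impB_spec (allR_spec h3 x3 l3) a3
  rw [strict_eq] at h4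
  have hb : ∀ x : ℕ, x = 0 → Nat.beq x 0 = true := by
    intro x hx
    rw [hx]
    rfl
  have h5 := impB_spec h4 (hb _ va)
  have h6 := impB_spec h5 (hb _ vb)
  have h7 := impB_spec h6 (hb _ vc)
  unfold orB at h7
  cases h8 : exc e1 x13 x7 x5 x3 with
  | true => exact Or.inl rfl
  | false =>
    rw [h8] at h7
    exact Or.inr h7

lemma exc_spec {e : ℕ × ℕ × ℕ × ℕ} {x13 x7 x5 x3 : ℕ} (h : exc e x13 x7 x5 x3 = true) :
    x13 = e.1 ∧ x7 = e.2.1 ∧ x5 = e.2.2.1 ∧ x3 = e.2.2.2 := by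
  unfold exc at h
  obtain ⟨h1, h⟩ := andB_spec h
  obtain ⟨h2, h⟩ := andB_spec h
  obtain ⟨h3, h4⟩ := andB_spec h
  exact ⟨Nat.eq_of_beq_eq_true h1, Nat.eq_of_beq_eq_true h2, Nat.eq_of_beq_eq_true h3,
    Nat.eq_of_beq_eq_true h4⟩

lemma rs_emod (p : ℕ) [NeZero p] (x : ℤ) : ((rs p x : ℕ) : ℤ) = x % (p : ℤ) := by
  unfold rs
  rw [ZMod.val_intCast]

lemma rs_negq (q : ℤ) : Nat.mod (Nat.sub 13 (rs 13 q)) 13 = rs 13 (-(1 * q)) := by
  have h : (13 - rs 13 q) % 13 = rs 13 (-(1 * q)) := by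
    apply rs_of
    rw [Nat.cast_sub (rs_lt q).le, rs_cast, ZMod.natCast_self]
    push_cast
    ring
  exact h

lemma rs_m1 {p m : ℕ} [NeZero p] (hm : m < p) (h : ((m : ℕ) : ZMod p) = -1) : rs p (-1) = m := by
  have h1 : m % p = rs p (-1) := by
    apply rs_of
    rw [h]
    push_cast
    rfl
  rw [← h1, Nat.mod_eq_of_lt hm]

lemma dvd_1365 {x : ℤ} (h13 : (13 : ℤ) ∣ x) (h7 : (7 : ℤ) ∣ x) (h5 : (5 : ℤ) ∣ x)
    (h3 : (3 : ℤ) ∣ x) : (1365 : ℤ) ∣ x := by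
  have c1 : IsCoprime (13 : ℤ) 7 := ⟨-1, 2, by norm_num⟩
  have c2 : IsCoprime (91 : ℤ) 5 := ⟨1, -18, by norm_num⟩
  have c3 : IsCoprime (455 : ℤ) 3 := ⟨-1, 152, by norm_num⟩
  have d1 : (91 : ℤ) ∣ x := c1.mul_dvd h13 h7
  have d2 : (455 : ℤ) ∣ x := c2.mul_dvd d1 h5
  exact c3.mul_dvd d2 h3

/-- divisibility from a residue -/
lemma dvd_rs {p : ℕ} [NeZero p] {q c : ℤ} {r : ℕ} (h : rs p q = r) (hc : (p : ℤ) ∣ (r : ℤ) - c) :
    (p : ℤ) ∣ q - c := by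
  have h1 : ((rs p q : ℕ) : ℤ) = q % (p : ℤ) := rs_emod p q
  rw [h] at h1
  have h2 : (p : ℤ) ∣ q - (r : ℤ) := by
    rw [h1]
    exact Int.dvd_self_sub_emod
  have h3 := dvd_add h2 hc
  have e : q - (r : ℤ) + ((r : ℤ) - c) = q - c := by ring
  rw [e] at h3
  exact h3

/-- **NV1** -/
theorem t_NV1 (LNK : Stmt_LNK) : Stmt_NV1 := by
  intro _ _ q s hs hD hex
  by_contra hcon
  have h1 : E0 35 χa 1 q s (s * q) = 0 := by
    by_contra h
    exact hcon (Or.inl h)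
  have h2 : E0 35 χb 1 q s (s * q) = 0 := by
    by_contra h
    exact hcon (Or.inr (Or.inl h))
  have h3 : E0 15 χc 1 q s (s * q) = 0 := by
    by_contra h
    exact hcon (Or.inr (Or.inr h))
  have va := val_a LNK q s hs hD h1
  have vb := val_b LNK q s hs hD h2
  have vc := val_c LNK q s hs hD h3
  rw [fvalG_trm 7 5 _ _ _ _ _ _ _ _ rs_one7 rs_one5] at va vb
  rw [fvalG_trm 5 3 _ _ _ _ _ _ _ _ rs_one5 rs_one3] at vc
  have eD : (q ^ 2 - 4 * 1 * (-s) : ℤ) = q ^ 2 + 4 * s := by ring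
  have a13 := adP_ofNr (p := 13) (by norm_num) 1 q (-s) (by rw [eD]; exact hD.h13)
  have a7 := adP_ofNr (p := 7) (by norm_num) 1 q (-s) (by rw [eD]; exact nr_7 hD)
  have a5 := adP_ofNr (p := 5) (by norm_num) 1 q (-s) (by rw [eD]; exact nr_5 hD)
  have a3 := adP_ofNr (p := 3) (by norm_num) 1 q (-s) (by rw [eD]; exact nr_3 hD)
  rw [rs_one13] at a13
  rw [rs_one7] at a7
  rw [rs_one5] at a5
  rw [rs_one3] at a3
  rcases hs with rfl | rfl
  · rw [rs_m1 (p := 13) (m := 12) (by norm_num) (by decide)] at a13 va vb vc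
    rw [rs_m1 (p := 7) (m := 6) (by norm_num) (by decide)] at a7 va vb
    rw [rs_m1 (p := 5) (m := 4) (by norm_num) (by decide)] at a5 va vb vc
    rw [rs_m1 (p := 3) (m := 2) (by norm_num) (by decide)] at a3 vc
    rw [← rs_negq] at va vb vc
    rcases ckA_use ck_pos (rs_lt q) (rs_lt q) (rs_lt q) (rs_lt q) a13 a7 a5 a3 va vb vc
      with h | h
    · obtain ⟨c1, c2, c3, c4⟩ := exc_spec h
      apply hex
      left
      exact dvd_1365 (dvd_rs (p := 13) c1 (by norm_num)) (dvd_rs (p := 7) c2 (by norm_num))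
        (dvd_rs (p := 5) c3 (by norm_num)) (dvd_rs (p := 3) c4 (by norm_num))
    · obtain ⟨c1, c2, c3, c4⟩ := exc_spec h
      apply hex
      right
      left
      rw [← sub_neg_eq_add]
      exact dvd_1365 (dvd_rs (p := 13) c1 (by norm_num)) (dvd_rs (p := 7) c2 (by norm_num))
        (dvd_rs (p := 5) c3 (by norm_num)) (dvd_rs (p := 3) c4 (by norm_num))
  · rw [neg_neg] at a13 a7 a5 a3 va vb vc
    rw [rs_one13] at a13 va vb vc
    rw [rs_one7] at a7 va vb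
    rw [rs_one5] at a5 va vb vc
    rw [rs_one3] at a3 vc
    rw [neg_one_mul, neg_neg] at va vb vc
    rcases ckA_use ck_neg (rs_lt q) (rs_lt q) (rs_lt q) (rs_lt q) a13 a7 a5 a3 va vb vc
      with h | h
    · obtain ⟨c1, c2, c3, c4⟩ := exc_spec h
      apply hex
      right
      right
      left
      exact dvd_1365 (dvd_rs (p := 13) c1 (by norm_num)) (dvd_rs (p := 7) c2 (by norm_num))
        (dvd_rs (p := 5) c3 (by norm_num)) (dvd_rs (p := 3) c4 (by norm_num))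
    · obtain ⟨c1, c2, c3, c4⟩ := exc_spec h
      apply hex
      right
      right
      right
      rw [← sub_neg_eq_add]
      exact dvd_1365 (dvd_rs (p := 13) c1 (by norm_num)) (dvd_rs (p := 7) c2 (by norm_num))
        (dvd_rs (p := 5) c3 (by norm_num)) (dvd_rs (p := 3) c4 (by norm_num))

end Pool.Agent.OEG.G
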