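import Pool.Agent.OEG.StG
import Pool.Agent.PSX.EvTab
import Pool.Agent.PSX.T_663F13
import Pool.Agent.OEG.T_1235F13d

/-!
# Project OEG, module NV2: kernel check of the first ghost, the classes `q ≡ ± 17`, `q ≡ ± 21` modulo `1365`

The table `663F13` (classes modulo `17`) and the table `1235F13d` (classes modulo `19`).
-/

set_option autoImplicit false

namespace Pool.Agent.OEG.G

namespace NV2aux

open Pool.Agent.PSX (ev Z0 fb v3 v5 v7)
open Pool.Agent.LibH4.Ker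
open Pool.Agent.Lib_helper5
open Pool.Agent.Lib_helper5.LK
open Pool.Agent.Lib_helper5.TB
open Pool.Agent.PSX.Ev (fvalG relG CompG)
open Pool.Agent.PSX.EL Pool.Agent.OEG.NV2t

lemma cast_dv {n : ℕ} {x y : ℤ} (h : (n : ℤ) ∣ x - y) : ((x : ℤ) : ZMod n) = (y : ZMod n) := by
  have := (ZMod.intCast_zmod_eq_zero_iff_dvd _ n).2 h
  rw [Int.cast_sub] at this
  exact sub_eq_zero.1 this

lemma adP_of {n : ℕ} [NeZero n] {j : Fm} {D : ℤ} (hD : ((D : ℤ) : ZMod n) ^ (n / 2) = -1)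
    (e : j.R ^ 2 - 4 * j.P * j.S = D) :
    adP n (rs n j.P) (rs n j.R) (rs n j.S) = true := by
  have hn : 0 < n := Nat.pos_of_ne_zero (NeZero.ne n)
  have e' : adP n (rs n j.P) (rs n j.R) (rs n j.S) =
    Nat.beq (Nat.mod (Nat.pow ((rs n j.R * rs n j.R + 4 * rs n j.P * (n - rs n j.S)) % n)
      (n / 2)) n) (n - 1) := rfl
  rw [e', Nat.beq_eq]
  have h1 : ((((rs n j.R * rs n j.R + 4 * rs n j.P * (n - rs n j.S)) % n) ^ (n / 2) : ℕ) : ZMod n)
      = ((n - 1 : ℕ) : ZMod n) := by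
    rw [Nat.cast_pow, ZMod.natCast_mod, Nat.cast_add, Nat.cast_mul, Nat.cast_mul, Nat.cast_mul,
      Nat.cast_sub (rs_lt j.S).le, rs_cast, rs_cast, rs_cast, ZMod.natCast_self,
      Nat.cast_sub (by omega : 1 ≤ n), ZMod.natCast_self]
    have e2 : ((j.R : ℤ) : ZMod n) * (j.R : ZMod n) + ((4 : ℕ) : ZMod n) * (j.P : ZMod n) *
        (0 - (j.S : ZMod n)) = (D : ZMod n) := by
      rw [← e]
      push_cast
      ring
    rw [e2, hD]
    push_cast
    ring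
  have h2 := (ZMod.natCast_eq_natCast_iff' _ _ n).1 h1
  rw [Nat.mod_eq_of_lt (by omega : n - 1 < n)] at h2
  exact h2

lemma Z0_zero {Q : ℕ} [NeZero Q] (hQ : Nat.Coprime 2 Q) (F : ZMod Q → ZMod 13)
    (hF : ∀ x y, F (x * y) = F x * F y) (h4 : F 4 ≠ 1) (S : ZMod Q) : Z0 F S = 0 := by
  have h1 : Z0 F S = F 4 * Z0 F S := by
    unfold Z0
    rw [Finset.mul_sum]
    conv_lhs => rw [← Equiv.sum_comp (Units.mulLeft (ZMod.unitOfCoprime 2 hQ))]
    apply Finset.sum_congr rfl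
    intro y _
    rw [← hF]
    congr 1
    simp only [Units.mulLeft_apply, ZMod.coe_unitOfCoprime]
    push_cast
    ring
  have h2 : (F 4 - 1) * Z0 F S = 0 := by linear_combination -h1
  have : Fact (Nat.Prime 13) := ⟨by norm_num⟩
  rcases mul_eq_zero.1 h2 with h | h
  · exact absurd (sub_eq_zero.1 h) h4
  · exact h

/-- the list of the first ghost is balanced -/
lemma bal {Q : ℕ} {q s : ℤ} (hs : OEX.Sg s) (V : ZMod Q → ZMod Q → ZMod Q → ℤ)
    (hV : ∀ P R S, V (-P) R (-S) = V P R S) :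
    ((L1 q s).map (fun j => V (j.P : ZMod Q) (j.R : ZMod Q) ((-j.S : ℤ) : ZMod Q))).sum
      = ((L1 q s).map (fun j => V ((-j.S : ℤ) : ZMod Q)
          ((2 * (-j.α) * (-j.S) - j.R : ℤ) : ZMod Q)
          ((j.P + j.R * (-j.α) - (-j.S) * (-j.α) ^ 2 : ℤ) : ZMod Q))).sum := by
  have e1 : (2 * (-(-(s * q))) * (-(-s)) - q : ℤ) = q := by
    rcases hs with h | h <;> rw [h] <;> ring
  have e2 : (1 + q * (-(-(s * q))) - (-(-s)) * (-(-(s * q))) ^ 2 : ℤ) = 1 := by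
    rcases hs with h | h <;> rw [h] <;> ring
  unfold L1
  simp only [List.map_cons, List.map_nil, List.sum_cons, List.sum_nil, add_zero]
  rw [e1, e2, neg_neg]
  rcases hs with h | h
  · rw [h]
  · rw [h]
    have := hV ((1 : ℤ) : ZMod Q) (q : ZMod Q) ((-1 : ℤ) : ZMod Q)
    rw [← this]
    congr 1
    · push_cast; ring
    · push_cast; ring


lemma chi_663F13 : ∀ n : ℕ, ((chw T1_663F13 (n % 17) : ℕ) : ZMod 13) *
    ((chw T2_663F13 (n % 13) : ℕ) : ZMod 13) *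
      ((chw T3_663F13 (n % 3) : ℕ) : ZMod 13) = χd (n : ℤ) := by
  intro n
  have a1 : ∀ i < 17, ((chw T1_663F13 i : ℕ) : ZMod 13) = v17 ((i : ℕ) : ZMod 17) := by
    decide +kernel
  have a2 : ∀ i < 13, ((chw T2_663F13 i : ℕ) : ZMod 13) = ((i : ℕ) : ZMod 13) ^ 4 := by
    decide +kernel
  have a3 : ∀ i < 3, ((chw T3_663F13 i : ℕ) : ZMod 13) = v3 ((i : ℕ) : ZMod 3) := by
    decide +kernel
  rw [a1 _ (Nat.mod_lt _ (by norm_num)), a2 _ (Nat.mod_lt _ (by norm_num)),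
    a3 _ (Nat.mod_lt _ (by norm_num)), ZMod.natCast_mod, ZMod.natCast_mod, ZMod.natCast_mod]
  unfold χd
  push_cast
  ring

/-- from the level zero sum to the table -/
theorem relT_663F13 (hL : Stmt_LNK) {T1 T2 T3 t1 t2 t3 : ℕ} {rows : List (ℕ × ℕ)}
    {χ : ℤ → ZMod 13}
    (H : TabOK 17 13 3 2197 169 T1 T2 T3 F17 F13 F3 rows)
    (ht1 : tabCk 17 2197 T1 = true) (ht2 : tabCk 13 2197 T2 = true)
    (ht3 : tabCk 3 2197 T3 = true)
    (rok : relOk 17 13 3 2197 T1 T2 T3 = true)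
    (r1 : redCk 17 T1 t1 13 = true) (r2 : redCk 13 T2 t2 13 = true)
    (r3 : redCk 3 T3 t3 13 = true)
    (hχ : ∀ n : ℕ, ((chw T1 (n % 17) : ℕ) : ZMod 13) * ((chw T2 (n % 13) : ℕ) : ZMod 13) *
      ((chw T3 (n % 3) : ℕ) : ZMod 13) = χ (n : ℤ)) (h4 : χ 4 ≠ 1)
    (hu : Nat.Coprime (4 * (chw T1 (4 % 17) * chw T2 (4 % 13) * chw T3 (4 % 3)) - 1) 2197)
    (hu1 : 1 ≤ 4 * (chw T1 (4 % 17) * chw T2 (4 % 13) * chw T3 (4 % 3)))
    [NeZero (51 * 13)] {q s : ℤ} (hs : OEX.Sg s)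
    (h1 : ((q ^ 2 + 4 * s : ℤ) : ZMod 17) ^ 8 = -1)
    (h2 : ((q ^ 2 + 4 * s : ℤ) : ZMod 13) ^ 6 = -1)
    (h3 : ((q ^ 2 + 4 * s : ℤ) : ZMod 3) ^ 1 = -1)
    (hE : E0 51 χ 1 q s (s * q) = 0) :
    fvalG 17 13 3 13 (pos 17 15 PT17) (pos 13 11 PT13) (pos 3 1 PT3)
      t1 t2 t3 rows 3 ⟨1, q, -s, 3, -(s * q)⟩ % 13 = 0 := by
  have : NeZero (17 * 13 * 3) := ⟨by norm_num⟩
  have : NeZero (17 * 13) := ⟨by norm_num⟩
  have hc := tri_char (n1 := 17) (n2 := 13) (n3 := 3) (tabCk_char ht1)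
    (tabCk_char ht2) (tabCk_char ht3)
  obtain ⟨hodd, -⟩ := Pool.Agent.Lib_helper5.K4.relOk_spec (by norm_num : 0 < 2197) rok ht1 ht2 ht3
  set χt : ZMod (17 * 13 * 3) → ZMod 2197 := tri (tabc 17 2197 T1)
    (tabc 13 2197 T2) (tabc 3 2197 T3) with hχt
  have hval : ∀ n : ℕ, χt (n : ZMod (17 * 13 * 3)) =
      ((chw T1 (n % 17) * chw T2 (n % 13) * chw T3 (n % 3) : ℕ) : ZMod 2197) := by
    intro n
    rw [hχt, tri_natCast, tabc_natCast, tabc_natCast, tabc_natCast]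
    push_cast
    rfl
  have hred : ∀ z : ZMod (17 * 13 * 3),
      ZMod.castHom (by norm_num : 13 ∣ 2197) (ZMod 13) (χt z) = χ (z.val : ℤ) := by
    intro z
    conv_lhs => rw [← ZMod.natCast_zmod_val z, hval]
    rw [map_natCast, ← hχ z.val]
    push_cast
    rfl
  have hunit : IsUnit (4 * χt 4 - 1) := by
    have e : 4 * χt 4 - 1 = ((4 * (chw T1 (4 % 17) * chw T2 (4 % 13) *
        chw T3 (4 % 3)) - 1 : ℕ) : ZMod 2197) := by
      have := hval 4
      rw [show ((4 : ℕ) : ZMod (17 * 13 * 3)) = 4 by rfl] at this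
      rw [this, Nat.cast_sub hu1]
      push_cast
      rfl
    rw [e]
    exact (ZMod.isUnit_iff_coprime _ _).2 hu
  have hmul13 : ∀ x y : ZMod (17 * 13 * 3),
      χ ((x * y).val : ℤ) = χ (x.val : ℤ) * χ (y.val : ℤ) := by
    intro x y
    rw [← hred, ← hred, ← hred, hc.mul, map_mul]
  have hZ : ∀ S : ZMod (17 * 13 * 3),
      Z0 (fun z : ZMod (17 * 13 * 3) => χ (z.val : ℤ)) S = 0 := by
    intro S
    apply Z0_zero (by norm_num) _ hmul13
    have : ((4 : ZMod (17 * 13 * 3)).val : ℤ) = 4 := by rfl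
    rw [this]
    exact h4
  have hk : ∀ j ∈ L1 q s, j.κ = 3 := by
    intro j hj
    rw [L1, List.mem_singleton] at hj
    rw [hj]
  have hE' : EL0 51 χ (L1 q s) = 0 := by
    unfold EL0 L1
    rw [List.map_cons, List.map_nil, List.sum_cons, List.sum_nil, add_zero]
    show E0 51 χ 1 q (-(-s)) (-(-(s * q))) = 0
    rw [neg_neg, neg_neg]
    exact hE
  have hRel : LK.Rel 2197 χt (L1 q s) :=
    hL 51 χ χt (L1 q s) (by norm_num) hodd hc.mul hred hunit hZ hk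
      (fun V hV => bal hs V hV) hE'
  have hdisc : ∀ j ∈ L1 q s, j.R ^ 2 - 4 * j.P * j.S = q ^ 2 + 4 * s := by
    intro j hj
    rw [L1, List.mem_singleton] at hj
    rw [hj]
    ring
  have hF : F3.length = 3 := by decide
  have hfin := relG H (by norm_num : 2197 = 169 * 13) (by norm_num) (by norm_num)
    ht1 ht2 ht3
    (CompG.of comp17) (CompG.of comp13) (CompG.of comp3) r1 r2 r3
    (fun j hj => adP_of (n := 17) h1 (hdisc j hj))
    (fun j hj => adP_of (n := 13) h2 (hdisc j hj))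
    (fun j hj => adP_of (n := 3) h3 (hdisc j hj)) hRel
  rw [hF] at hfin
  rw [L1, List.map_cons, List.map_nil, List.sum_cons, List.sum_nil, add_zero] at hfin
  exact hfin

/-- the value of a form -/
def V_663F13 (a b c al : ℕ) : ℕ :=
  dig t1_663F13 (1 % 17) * dig t2_663F13 (1 % 13) * dig t3_663F13 (1 % 3) *
    (3 * tX rows_663F13 3 (pos 17 15 PT17 (1 % 17) a (17 - 1))
      (pos 13 11 PT13 (1 % 13) b (13 - 1))
      (pos 3 1 PT3 (1 % 3) c (3 - 1)) +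
    al * tY rows_663F13 3 (pos 17 15 PT17 (1 % 17) a (17 - 1))
      (pos 13 11 PT13 (1 % 13) b (13 - 1))
      (pos 3 1 PT3 (1 % 3) c (3 - 1)))

lemma ck_663F13 : ∀ a < 17, (a ^ 2 + 4) ^ 8 % 17 = 16 →
    V_663F13 a 4 2 9 % 13 ≠ 0 ∧ V_663F13 a 9 1 4 % 13 ≠ 0 := by
  decide +kernel

lemma chi_1235F13d : ∀ n : ℕ, ((chw T1_1235F13d (n % 19) : ℕ) : ZMod 13) *
    ((chw T2_1235F13d (n % 13) : ℕ) : ZMod 13) *
      ((chw T3_1235F13d (n % 5) : ℕ) : ZMod 13) = χe (n : ℤ) := by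
  intro n
  have a1 : ∀ i < 19, ((chw T1_1235F13d i : ℕ) : ZMod 13) = v19 ((i : ℕ) : ZMod 19) := by
    decide +kernel
  have a2 : ∀ i < 13, ((chw T2_1235F13d i : ℕ) : ZMod 13) = ((i : ℕ) : ZMod 13) ^ 2 := by
    decide +kernel
  have a3 : ∀ i < 5, ((chw T3_1235F13d i : ℕ) : ZMod 13) = v5 ((i : ℕ) : ZMod 5) ^ 3 := by
    decide +kernel
  rw [a1 _ (Nat.mod_lt _ (by norm_num)), a2 _ (Nat.mod_lt _ (by norm_num)),
    a3 _ (Nat.mod_lt _ (by norm_num)), ZMod.natCast_mod, ZMod.natCast_mod, ZMod.natCast_mod]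
  unfold χe
  push_cast
  ring

/-- from the level zero sum to the table -/
theorem relT_1235F13d (hL : Stmt_LNK) {T1 T2 T3 t1 t2 t3 : ℕ} {rows : List (ℕ × ℕ)}
    {χ : ℤ → ZMod 13}
    (H : TabOK 19 13 5 2197 169 T1 T2 T3 F19 F13 F5 rows)
    (ht1 : tabCk 19 2197 T1 = true) (ht2 : tabCk 13 2197 T2 = true)
    (ht3 : tabCk 5 2197 T3 = true)
    (rok : relOk 19 13 5 2197 T1 T2 T3 = true)
    (r1 : redCk 19 T1 t1 13 = true) (r2 : redCk 13 T2 t2 13 = true)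
    (r3 : redCk 5 T3 t3 13 = true)
    (hχ : ∀ n : ℕ, ((chw T1 (n % 19) : ℕ) : ZMod 13) * ((chw T2 (n % 13) : ℕ) : ZMod 13) *
      ((chw T3 (n % 5) : ℕ) : ZMod 13) = χ (n : ℤ)) (h4 : χ 4 ≠ 1)
    (hu : Nat.Coprime (4 * (chw T1 (4 % 19) * chw T2 (4 % 13) * chw T3 (4 % 5)) - 1) 2197)
    (hu1 : 1 ≤ 4 * (chw T1 (4 % 19) * chw T2 (4 % 13) * chw T3 (4 % 5)))
    [NeZero (95 * 13)] {q s : ℤ} (hs : OEX.Sg s)
    (h1 : ((q ^ 2 + 4 * s : ℤ) : ZMod 19) ^ 9 = -1)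
    (h2 : ((q ^ 2 + 4 * s : ℤ) : ZMod 13) ^ 6 = -1)
    (h3 : ((q ^ 2 + 4 * s : ℤ) : ZMod 5) ^ 2 = -1)
    (hE : E0 95 χ 1 q s (s * q) = 0) :
    fvalG 19 13 5 13 (pos 19 17 PT19) (pos 13 11 PT13) (pos 5 3 PT5)
      t1 t2 t3 rows 10 ⟨1, q, -s, 3, -(s * q)⟩ % 13 = 0 := by
  have : NeZero (19 * 13 * 5) := ⟨by norm_num⟩
  have : NeZero (19 * 13) := ⟨by norm_num⟩
  have hc := tri_char (n1 := 19) (n2 := 13) (n3 := 5) (tabCk_char ht1)
    (tabCk_char ht2) (tabCk_char ht3)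
  obtain ⟨hodd, -⟩ := Pool.Agent.Lib_helper5.K4.relOk_spec (by norm_num : 0 < 2197) rok ht1 ht2 ht3
  set χt : ZMod (19 * 13 * 5) → ZMod 2197 := tri (tabc 19 2197 T1)
    (tabc 13 2197 T2) (tabc 5 2197 T3) with hχt
  have hval : ∀ n : ℕ, χt (n : ZMod (19 * 13 * 5)) =
      ((chw T1 (n % 19) * chw T2 (n % 13) * chw T3 (n % 5) : ℕ) : ZMod 2197) := by
    intro n
    rw [hχt, tri_natCast, tabc_natCast, tabc_natCast, tabc_natCast]
    push_cast
    rfl
  have hred : ∀ z : ZMod (19 * 13 * 5),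
      ZMod.castHom (by norm_num : 13 ∣ 2197) (ZMod 13) (χt z) = χ (z.val : ℤ) := by
    intro z
    conv_lhs => rw [← ZMod.natCast_zmod_val z, hval]
    rw [map_natCast, ← hχ z.val]
    push_cast
    rfl
  have hunit : IsUnit (4 * χt 4 - 1) := by
    have e : 4 * χt 4 - 1 = ((4 * (chw T1 (4 % 19) * chw T2 (4 % 13) *
        chw T3 (4 % 5)) - 1 : ℕ) : ZMod 2197) := by
      have := hval 4
      rw [show ((4 : ℕ) : ZMod (19 * 13 * 5)) = 4 by rfl] at this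
      rw [this, Nat.cast_sub hu1]
      push_cast
      rfl
    rw [e]
    exact (ZMod.isUnit_iff_coprime _ _).2 hu
  have hmul13 : ∀ x y : ZMod (19 * 13 * 5),
      χ ((x * y).val : ℤ) = χ (x.val : ℤ) * χ (y.val : ℤ) := by
    intro x y
    rw [← hred, ← hred, ← hred, hc.mul, map_mul]
  have hZ : ∀ S : ZMod (19 * 13 * 5),
      Z0 (fun z : ZMod (19 * 13 * 5) => χ (z.val : ℤ)) S = 0 := by
    intro S
    apply Z0_zero (by norm_num) _ hmul13
    have : ((4 : ZMod (19 * 13 * 5)).val : ℤ) = 4 := by rfl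
    rw [this]
    exact h4
  have hk : ∀ j ∈ L1 q s, j.κ = 3 := by
    intro j hj
    rw [L1, List.mem_singleton] at hj
    rw [hj]
  have hE' : EL0 95 χ (L1 q s) = 0 := by
    unfold EL0 L1
    rw [List.map_cons, List.map_nil, List.sum_cons, List.sum_nil, add_zero]
    show E0 95 χ 1 q (-(-s)) (-(-(s * q))) = 0
    rw [neg_neg, neg_neg]
    exact hE
  have hRel : LK.Rel 2197 χt (L1 q s) :=
    hL 95 χ χt (L1 q s) (by norm_num) hodd hc.mul hred hunit hZ hk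
      (fun V hV => bal hs V hV) hE'
  have hdisc : ∀ j ∈ L1 q s, j.R ^ 2 - 4 * j.P * j.S = q ^ 2 + 4 * s := by
    intro j hj
    rw [L1, List.mem_singleton] at hj
    rw [hj]
    ring
  have hF : F5.length = 10 := by decide
  have hfin := relG H (by norm_num : 2197 = 169 * 13) (by norm_num) (by norm_num)
    ht1 ht2 ht3
    (CompG.of comp19) (CompG.of comp13) (CompG.of comp5) r1 r2 r3
    (fun j hj => adP_of (n := 19) h1 (hdisc j hj))
    (fun j hj => adP_of (n := 13) h2 (hdisc j hj))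
    (fun j hj => adP_of (n := 5) h3 (hdisc j hj)) hRel
  rw [hF] at hfin
  rw [L1, List.map_cons, List.map_nil, List.sum_cons, List.sum_nil, add_zero] at hfin
  exact hfin

/-- the value of a form -/
def V_1235F13d (a b c al : ℕ) : ℕ :=
  dig t1_1235F13d (1 % 19) * dig t2_1235F13d (1 % 13) * dig t3_1235F13d (1 % 5) *
    (3 * tX rows_1235F13d 10 (pos 19 17 PT19 (1 % 19) a (2 - 1))
      (pos 13 11 PT13 (1 % 13) b (2 - 1))
      (pos 5 3 PT5 (1 % 5) c (2 - 1)) +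
    al * tY rows_1235F13d 10 (pos 19 17 PT19 (1 % 19) a (2 - 1))
      (pos 13 11 PT13 (1 % 13) b (2 - 1))
      (pos 5 3 PT5 (1 % 5) c (2 - 1)))

lemma ck_1235F13d : ∀ a < 19, (a ^ 2 + 15) ^ 9 % 19 = 18 →
    V_1235F13d a 8 1 8 % 13 ≠ 0 ∧ V_1235F13d a 5 4 5 % 13 ≠ 0 := by
  decide +kernel

theorem fin_663F13 (hL : Stmt_LNK) [NeZero (51 * 13)] {q : ℤ} (hN : PSX.Nr (q ^ 2 + 4 * (1)))
    (hq : (1365 : ℤ) ∣ q - 17 ∨ (1365 : ℤ) ∣ q + 17)
    (h1 : ((q ^ 2 + 4 * (1) : ℤ) : ZMod 17) ^ 8 = -1) :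
    E0 51 χd 1 q (1) ((1) * q) ≠ 0 := by
  intro hE
  have key := relT_663F13 hL tok_663F13 tab1_663F13 tab2_663F13 tab3_663F13 rok_663F13 red1_663F13
    red2_663F13 red3_663F13 chi_663F13 (by decide) (by decide +kernel) (by decide +kernel) (s := 1) (Or.inl rfl) h1 hN.h13 (by rw [pow_one]; exact hN.h3) hE
  have alt : rs 17 q < 17 := rs_lt q
  have ca : ((rs 17 q : ℕ) : ZMod 17) = (q : ZMod 17) := rs_cast q
  have hD : (rs 17 q ^ 2 + 4) ^ 8 % 17 = 16 := by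
    have e : (((rs 17 q ^ 2 + 4) ^ 8 : ℕ) : ZMod 17) = ((16 : ℕ) : ZMod 17) := by
      have e1 : ((16 : ℕ) : ZMod 17) = -1 := by decide
      rw [e1, ← h1]
      push_cast
      rw [ca]
    exact (ZMod.natCast_eq_natCast_iff' _ _ 17).1 e
  obtain ⟨k1, k2⟩ := ck_663F13 _ alt hD
  have r0 : ∀ n : ℕ, (n : ℤ) ∣ 1365 → ∀ c : ℤ, (1365 : ℤ) ∣ q - c → rs n q = rs n c := by
    intro n hn c hc
    unfold rs
    rw [cast_dv (hn.trans hc)]
  have r1 : ∀ c : ℤ, (1365 : ℤ) ∣ q - c → rs 13 (-((1) * q)) = rs 13 (-((1) * c)) := by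
    intro c hc
    unfold rs
    have := cast_dv (n := 13) (((by norm_num : ((13 : ℕ) : ℤ) ∣ 1365)).trans hc)
    push_cast
    rw [this]
  unfold fvalG at key
  simp only at key
  rcases hq with hq | hq
  · rw [r0 13 (by norm_num) _ hq, r0 3 (by norm_num) _ hq, r1 _ hq] at key
    exact k1 key
  · have hq' : (1365 : ℤ) ∣ q - (-17) := by rw [sub_neg_eq_add]; exact hq
    rw [r0 13 (by norm_num) _ hq', r0 3 (by norm_num) _ hq', r1 _ hq'] at key
    exact k2 key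

theorem fin_1235F13d (hL : Stmt_LNK) [NeZero (95 * 13)] {q : ℤ} (hN : PSX.Nr (q ^ 2 + 4 * (-1)))
    (hq : (1365 : ℤ) ∣ q - 21 ∨ (1365 : ℤ) ∣ q + 21)
    (h1 : ((q ^ 2 + 4 * (-1) : ℤ) : ZMod 19) ^ 9 = -1) :
    E0 95 χe 1 q (-1) ((-1) * q) ≠ 0 := by
  intro hE
  have key := relT_1235F13d hL tok_1235F13d tab1_1235F13d tab2_1235F13d tab3_1235F13d rok_1235F13d red1_1235F13d
    red2_1235F13d red3_1235F13d chi_1235F13d (by decide) (by decide +kernel) (by decide +kernel) (s := -1) (Or.inr rfl) h1 hN.h13 (hN.h5) hE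
  have alt : rs 19 q < 19 := rs_lt q
  have ca : ((rs 19 q : ℕ) : ZMod 19) = (q : ZMod 19) := rs_cast q
  have hD : (rs 19 q ^ 2 + 15) ^ 9 % 19 = 18 := by
    have e : (((rs 19 q ^ 2 + 15) ^ 9 : ℕ) : ZMod 19) = ((18 : ℕ) : ZMod 19) := by
      have e1 : ((18 : ℕ) : ZMod 19) = -1 := by decide
      rw [e1, ← h1]
      push_cast
      rw [ca]
      congr 1
    exact (ZMod.natCast_eq_natCast_iff' _ _ 19).1 e
  obtain ⟨k1, k2⟩ := ck_1235F13d _ alt hD
  have r0 : ∀ n : ℕ, (n : ℤ) ∣ 1365 → ∀ c : ℤ, (1365 : ℤ) ∣ q - c → rs n q = rs n c := by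
    intro n hn c hc
    unfold rs
    rw [cast_dv (hn.trans hc)]
  have r1 : ∀ c : ℤ, (1365 : ℤ) ∣ q - c → rs 13 (-((-1) * q)) = rs 13 (-((-1) * c)) := by
    intro c hc
    unfold rs
    have := cast_dv (n := 13) (((by norm_num : ((13 : ℕ) : ℤ) ∣ 1365)).trans hc)
    push_cast
    rw [this]
  unfold fvalG at key
  simp only at key
  rcases hq with hq | hq
  · rw [r0 13 (by norm_num) _ hq, r0 5 (by norm_num) _ hq, r1 _ hq] at key
    exact k1 key
  · have hq' : (1365 : ℤ) ∣ q - (-21) := by rw [sub_neg_eq_add]; exact hq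
    rw [r0 13 (by norm_num) _ hq', r0 5 (by norm_num) _ hq', r1 _ hq'] at key
    exact k2 key

end NV2aux

theorem t_NV2 (hL : Stmt_LNK) : Stmt_NV2 := by
  intro _ _ q s hs hN
  refine ⟨fun hq h1 => ?_, fun hq h1 => ?_⟩
  · rcases hs with h | h
    · subst h
      exact NV2aux.fin_663F13 hL hN hq h1
    · exfalso
      have h3 := hN.h3
      have e : ((q : ℤ) : ZMod 3) ^ 2 = 1 := by
        rcases hq with h' | h'
        · have := NV2aux.cast_dv (n := 3) ((by norm_num : ((3 : ℕ) : ℤ) ∣ 1365).trans h')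
          rw [this]; decide
        · have := NV2aux.cast_dv (n := 3) (x := q) (y := -17) (by
            rw [sub_neg_eq_add]
            exact (by norm_num : ((3 : ℕ) : ℤ) ∣ 1365).trans h')
          rw [this]; decide
      rw [h] at h3
      push_cast at h3
      rw [e] at h3
      revert h3
      decide
  · rcases hs with h | h
    · exfalso
      have h3 := hN.h3
      have e : ((q : ℤ) : ZMod 3) ^ 2 = 0 := by
        rcases hq with h' | h'
        · have := NV2aux.cast_dv (n := 3) ((by norm_num : ((3 : ℕ) : ℤ) ∣ 1365).trans h')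
          rw [this]; decide
        · have := NV2aux.cast_dv (n := 3) (x := q) (y := -21) (by
            rw [sub_neg_eq_add]
            exact (by norm_num : ((3 : ℕ) : ℤ) ∣ 1365).trans h')
          rw [this]; decide
      rw [h] at h3
      push_cast at h3
      rw [e] at h3
      revert h3
      decide
    · subst h
      exact NV2aux.fin_1235F13d hL hN hq h1

end Pool.Agent.OEG.G
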