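import Pool.Agent.OEG.StG
import Pool.Agent.PSX.EvTab
import Pool.Agent.RQM.C56
import Pool.Agent.RQM.C62

/-!
# Project OEG, module NV4: kernel check of the ghosts 2, 3, 4 at level zero

The two tables `455F13b`, `455F13e` are enough, modulo `455`.
-/

set_option autoImplicit false

namespace Pool.Agent.OEG.G

open Finset (range)

namespace NV4aux

open Pool.Agent.PSX (ev Z0 fb v3 v5 v7)
open Pool.Agent.LibH4.Ker
open Pool.Agent.Lib_helper5
open Pool.Agent.Lib_helper5.LK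
open Pool.Agent.Lib_helper5.TB
open Pool.Agent.PSX.Ev (fvalG relG CompG)

/-! ### Kernel functions -/

/-- value of a form given by natural representatives -/
def fN (t1 t2 t3 : ℕ) (rows : List (ℕ × ℕ)) (P R S a : ℕ) : ℕ :=
  strict (Nat.mod P (nat_lit 13)) fun P1 => strict (Nat.mod P (nat_lit 7)) fun P2 =>
  strict (Nat.mod P (nat_lit 5)) fun P3 =>
  strict (pos (nat_lit 13) (nat_lit 11) PT13 P1 (Nat.mod R (nat_lit 13)) (Nat.mod S (nat_lit 13)))
    fun i1 =>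
  strict (pos (nat_lit 7) (nat_lit 5) PT7 P2 (Nat.mod R (nat_lit 7)) (Nat.mod S (nat_lit 7)))
    fun i2 =>
  strict (pos (nat_lit 5) (nat_lit 3) PT5 P3 (Nat.mod R (nat_lit 5)) (Nat.mod S (nat_lit 5)))
    fun i3 =>
  Nat.mul (Nat.mul (Nat.mul (dig t1 P1) (dig t2 P2)) (dig t3 P3))
    (Nat.add (Nat.mul (nat_lit 3) (tX rows (nat_lit 10) i1 i2 i3))
      (Nat.mul (Nat.mod a (nat_lit 13)) (tY rows (nat_lit 10) i1 i2 i3)))

/-- sum over `0, …, n-1` -/
def sR (f : ℕ → ℕ) (n : ℕ) : ℕ := @Nat.rec (fun _ => ℕ) (nat_lit 0) (fun m ih => Nat.add ih (f m)) n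

lemma sR_eq (f : ℕ → ℕ) (n : ℕ) : sR f n = ((List.range n).map f).sum := by
  induction n with
  | zero => rfl
  | succ n ih =>
    rw [List.range_succ, List.map_append, List.sum_append, ← ih]
    simp [sR]

/-- the total of a table -/
def tot (t1 t2 t3 : ℕ) (rows : List (ℕ × ℕ)) (w a X : ℕ) : ℕ :=
  Nat.add
    (sR (fun j => fN t1 t2 t3 rows (Nat.pow a j) (Nat.sub (nat_lit 455) w)
      (Nat.mul (Nat.sub (nat_lit 455) w) (Nat.mul X (Nat.pow a (Nat.sub (nat_lit 12) j))))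
      (Nat.mul (Nat.sub (nat_lit 455) w) (Nat.pow a j))) (nat_lit 12))
    (sR (fun j => fN t1 t2 t3 rows (Nat.mul X (Nat.pow a j)) (Nat.add (Nat.mul (nat_lit 2) X) w)
      (Nat.mul X (Nat.pow a (Nat.sub (nat_lit 12) j))) (Nat.pow a j)) (nat_lit 12))

/-- the condition on the discriminant -/
def cnd (w X : ℕ) : Bool :=
  strict (Nat.add (nat_lit 1) (Nat.mul (Nat.mul (nat_lit 4) w) X)) fun D =>
  @Bool.rec (fun _ => Bool) false
    (@Bool.rec (fun _ => Bool) false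
      (Nat.beq (Nat.mod (Nat.pow D (nat_lit 6)) (nat_lit 13)) (nat_lit 12))
      (Nat.beq (Nat.mod (Nat.pow D (nat_lit 3)) (nat_lit 7)) (nat_lit 6)))
    (Nat.beq (Nat.mod (Nat.pow D (nat_lit 2)) (nat_lit 5)) (nat_lit 4))

/-- one class -/
def ck (w a k : ℕ) : Bool :=
  strict (Nat.mod (Nat.pow a k) (nat_lit 455)) fun X =>
  impB (Nat.beq (Nat.mod (Nat.pow a (nat_lit 12)) (nat_lit 455)) (nat_lit 1))
   (impB (cnd w X)
    (impB (Nat.beq (Nat.mod (tot t1_455F13b t2_455F13b t3_455F13b rows_455F13b w a X)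
        (nat_lit 13)) (nat_lit 0))
      (@Bool.rec (fun _ => Bool) true false
        (Nat.beq (Nat.mod (tot t1_455F13e t2_455F13e t3_455F13e rows_455F13e w a X)
          (nat_lit 13)) (nat_lit 0)))))

set_option maxRecDepth 100000 in
lemma ck_all1 : allR (fun a => allR (fun k => ck (nat_lit 1) a k) (nat_lit 12)) (nat_lit 455)
    = true := by
  decide +kernel

set_option maxRecDepth 100000 in
lemma ck_all2 : allR (fun a => allR (fun k => ck (nat_lit 454) a k) (nat_lit 12)) (nat_lit 455)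
    = true := by
  decide +kernel


/-! ### Soundness of the kernel functions -/

lemma dv_cast {n : ℕ} (hn : n ∣ 455) {a : ℕ} {x : ℤ} (h : (455 : ℤ) ∣ x - a) :
    ((a : ℕ) : ZMod n) = (x : ZMod n) := by
  have h1 : (n : ℤ) ∣ x - a := (Int.natCast_dvd_natCast.2 hn).trans h
  have h2 := (ZMod.intCast_zmod_eq_zero_iff_dvd (x - a) n).2 h1
  push_cast at h2
  exact (sub_eq_zero.1 h2).symm

lemma rs_dv {n : ℕ} (hn : n ∣ 455) {a : ℕ} {x : ℤ} (h : (455 : ℤ) ∣ x - a) :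
    rs n x = a % n := (rs_of (dv_cast hn h)).symm

lemma fval_fN (t1 t2 t3 : ℕ) (rows : List (ℕ × ℕ)) {j : Fm} {P R S a : ℕ} (hk : j.κ = 3)
    (hP : (455 : ℤ) ∣ j.P - P) (hR : (455 : ℤ) ∣ j.R - R) (hS : (455 : ℤ) ∣ j.S - S)
    (ha : (455 : ℤ) ∣ j.α - a) :
    fvalG 13 7 5 13 (pos 13 11 PT13) (pos 7 5 PT7) (pos 5 3 PT5) t1 t2 t3 rows 10 j =
      fN t1 t2 t3 rows P R S a := by
  unfold fvalG fN
  simp only [strict_eq]
  rw [rs_dv (by norm_num : 13 ∣ 455) hP, rs_dv (by norm_num : 7 ∣ 455) hP,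
    rs_dv (by norm_num : 5 ∣ 455) hP, rs_dv (by norm_num : 13 ∣ 455) hR,
    rs_dv (by norm_num : 7 ∣ 455) hR, rs_dv (by norm_num : 5 ∣ 455) hR,
    rs_dv (by norm_num : 13 ∣ 455) hS, rs_dv (by norm_num : 7 ∣ 455) hS,
    rs_dv (by norm_num : 5 ∣ 455) hS, rs_dv (by norm_num : 13 ∣ 455) ha, hk]
  rfl

lemma tot_eq (t1 t2 t3 : ℕ) (rows : List (ℕ × ℕ)) (w a x : ℕ) :
    tot t1 t2 t3 rows w a x =
      ((List.range 12).map (fun j => fN t1 t2 t3 rows (a ^ j) (455 - w)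
        ((455 - w) * (x * a ^ (12 - j))) ((455 - w) * a ^ j))).sum +
      ((List.range 12).map (fun j => fN t1 t2 t3 rows (x * a ^ j) (2 * x + w)
        (x * a ^ (12 - j)) (a ^ j))).sum := by
  rw [← sR_eq, ← sR_eq]
  rfl

lemma sum_tot (t1 t2 t3 : ℕ) (rows : List (ℕ × ℕ)) {p X σ : ℤ} {a x w : ℕ}
    (hp : (455 : ℤ) ∣ p - a) (hX : (455 : ℤ) ∣ X - x) (hw : w ≤ 455) (hσ : (455 : ℤ) ∣ σ - w) :
    ((L4 p X σ).map (fvalG 13 7 5 13 (pos 13 11 PT13) (pos 7 5 PT7) (pos 5 3 PT5)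
      t1 t2 t3 rows 10)).sum = tot t1 t2 t3 rows w a x := by
  have cast_pow : ∀ n : ℕ, ((p ^ n : ℤ) : ZMod 455) = ((a ^ n : ℕ) : ZMod 455) := by
    intro n
    push_cast
    rw [← dv_cast (dvd_refl 455) hp]
  have cX : ((X : ℤ) : ZMod 455) = ((x : ℕ) : ZMod 455) := (dv_cast (dvd_refl 455) hX).symm
  have cσ : ((σ : ℤ) : ZMod 455) = ((w : ℕ) : ZMod 455) := (dv_cast (dvd_refl 455) hσ).symm
  have cw : (((455 - w : ℕ) : ℕ) : ZMod 455) = -((w : ℕ) : ZMod 455) := by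
    rw [Nat.cast_sub hw]
    simp
    rfl
  have key : ∀ (y : ℤ) (b : ℕ), (y : ZMod 455) = (b : ZMod 455) → (455 : ℤ) ∣ y - b := by
    intro y b h
    have : ((y - b : ℤ) : ZMod 455) = 0 := by push_cast; rw [h]; ring
    exact (ZMod.intCast_zmod_eq_zero_iff_dvd _ 455).1 this
  rw [tot_eq]
  unfold L4
  rw [List.map_append, List.sum_append, List.map_map, List.map_map]
  refine congrArg₂ (· + ·) (congrArg List.sum (List.map_congr_left fun j _ => ?_))
    (congrArg List.sum (List.map_congr_left fun j _ => ?_))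
  · have c1 := cast_pow j
    have c2 := cast_pow (12 - j)
    have k1 : (455 : ℤ) ∣ p ^ j - ((a ^ j : ℕ) : ℤ) := key _ _ c1
    have k2 : (455 : ℤ) ∣ (-σ) - ((455 - w : ℕ) : ℤ) := by
      apply key
      rw [cw, Int.cast_neg, cσ]
    have k3 : (455 : ℤ) ∣ (-(σ * (X * p ^ (12 - j)))) -
        (((455 - w) * (x * a ^ (12 - j)) : ℕ) : ℤ) := by
      apply key
      rw [Nat.cast_mul, cw, Nat.cast_mul, ← c2, ← cX, ← cσ]
      push_cast
      ring
    have k4 : (455 : ℤ) ∣ (-(σ * p ^ j)) - (((455 - w) * a ^ j : ℕ) : ℤ) := by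
      apply key
      rw [Nat.cast_mul, cw, ← c1, ← cσ]
      push_cast
      ring
    exact fval_fN (j := ⟨p ^ j, -σ, -(σ * (X * p ^ (12 - j))), 3, -(σ * p ^ j)⟩) t1 t2 t3 rows
      rfl k1 k2 k3 k4
  · have c1 := cast_pow j
    have c2 := cast_pow (12 - j)
    have k1 : (455 : ℤ) ∣ (X * p ^ j) - ((x * a ^ j : ℕ) : ℤ) := by
      apply key
      rw [Nat.cast_mul, ← c1, ← cX]
      push_cast
      ring
    have k2 : (455 : ℤ) ∣ (2 * X + σ) - ((2 * x + w : ℕ) : ℤ) := by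
      apply key
      rw [Nat.cast_add, Nat.cast_mul, ← cX, ← cσ]
      push_cast
      ring
    have k3 : (455 : ℤ) ∣ (X * p ^ (12 - j)) - ((x * a ^ (12 - j) : ℕ) : ℤ) := by
      apply key
      rw [Nat.cast_mul, ← c2, ← cX]
      push_cast
      ring
    have k4 : (455 : ℤ) ∣ p ^ j - ((a ^ j : ℕ) : ℤ) := key _ _ c1
    exact fval_fN (j := ⟨X * p ^ j, 2 * X + σ, X * p ^ (12 - j), 3, p ^ j⟩) t1 t2 t3 rows
      rfl k1 k2 k3 k4

lemma adP_of {n : ℕ} [NeZero n] {j : Fm} {D : ℤ} (hD : ((D : ℤ) : ZMod n) ^ (n / 2) = -1)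
    (h : (n : ℤ) ∣ (j.R ^ 2 - 4 * j.P * j.S) - D) :
    adP n (rs n j.P) (rs n j.R) (rs n j.S) = true := by
  have hn : 0 < n := Nat.pos_of_ne_zero (NeZero.ne n)
  have e : ((j.R ^ 2 - 4 * j.P * j.S : ℤ) : ZMod n) = (D : ZMod n) := by
    have := (ZMod.intCast_zmod_eq_zero_iff_dvd _ n).2 h
    rw [Int.cast_sub] at this
    exact sub_eq_zero.1 this
  have e' : adP n (rs n j.P) (rs n j.R) (rs n j.S) =
    Nat.beq (Nat.mod (Nat.pow ((rs n j.R * rs n j.R + 4 * rs n j.P * (n - rs n j.S)) % n)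
      (n / 2)) n) (n - 1) := rfl
  rw [e', Nat.beq_eq]
  have h1 : ((((rs n j.R * rs n j.R + 4 * rs n j.P * (n - rs n j.S)) % n) ^ (n / 2) : ℕ) : ZMod n)
      = ((n - 1 : ℕ) : ZMod n) := by
    rw [Nat.cast_pow, ZMod.natCast_mod, Nat.cast_add, Nat.cast_mul, Nat.cast_mul, Nat.cast_mul,
      Nat.cast_sub (rs_lt j.S).le, rs_cast, rs_cast, rs_cast, ZMod.natCast_self,
      Nat.cast_sub (by omega : 1 ≤ n), ZMod.natCast_self]
    have e2 : ((j.R : ℤ) : ZMod n) * (j.R : ZMod n) + ((4 : ℕ) : ZMod n) * (j.P : ZMod n) *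
        (0 - (j.S : ZMod n)) = (D : ZMod n) := by
      rw [← e]
      push_cast
      ring
    rw [e2, hD]
    push_cast
    ring
  have h2 := (ZMod.natCast_eq_natCast_iff' _ _ n).1 h1
  rw [Nat.mod_eq_of_lt (by omega : n - 1 < n)] at h2
  exact h2

/-! ### The list is balanced -/

section bal

variable {Q : ℕ} [NeZero Q]

omit [NeZero Q] in
lemma pw {u : ZMod Q} (hu : u ^ 12 = 1) (n : ℕ) : u ^ ((n : ZMod 12)).val = u ^ n := by
  rw [ZMod.val_natCast]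
  conv_rhs => rw [← Nat.div_add_mod n 12, pow_add, pow_mul, hu, one_pow, one_mul]

omit [NeZero Q] in
lemma pw_add {u : ZMod Q} (hu : u ^ 12 = 1) (y z : ZMod 12) :
    u ^ (y + z).val = u ^ y.val * u ^ z.val := by
  rw [← pow_add, ← pw hu (y.val + z.val), Nat.cast_add, ZMod.natCast_zmod_val,
    ZMod.natCast_zmod_val]

omit [NeZero Q] in
lemma pw_neg {u : ZMod Q} (hu : u ^ 12 = 1) (z : ZMod 12) : u ^ (-z).val * u ^ z.val = 1 := by
  rw [← pw_add hu, neg_add_cancel]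
  simp

/-- the two kinds of edges as functions on `ZMod 12` -/
lemma sum12 (h : ℕ → ℤ) (H : ZMod 12 → ℤ) (e : ∀ j < 12, h j = H (j : ZMod 12)) :
    ((List.range 12).map h).sum = ∑ z : ZMod 12, H z := by
  rw [lrange_sum, sum_zmod_range]
  apply Finset.sum_congr rfl
  intro j hj
  exact e j (Finset.mem_range.1 hj)

lemma c12 {j : ℕ} (hj : j < 12) : (((12 - j : ℕ) : ℕ) : ZMod 12) = -(j : ZMod 12) := by
  rw [Nat.cast_sub hj.le]
  simp
  rfl


/-- first edges -/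
def H1 (V : ZMod Q → ZMod Q → ZMod Q → ℤ) (u x s : ZMod Q) (z : ZMod 12) : ℤ :=
  V (u ^ z.val) (-s) (s * (x * u ^ (-z).val))

/-- second edges -/
def H2 (V : ZMod Q → ZMod Q → ZMod Q → ℤ) (u x s : ZMod Q) (z : ZMod 12) : ℤ :=
  V (x * u ^ z.val) (2 * x + s) (-(x * u ^ (-z).val))

omit [NeZero Q] in
theorem bal {p X σ : ℤ} {m' : ℕ} (hσ : OEX.Sg σ) (hp : ((p : ℤ) : ZMod Q) ^ 12 = 1)
    (hX : ((X : ℤ) : ZMod Q) = (p : ZMod Q) ^ m') (V : ZMod Q → ZMod Q → ZMod Q → ℤ)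
    (hV : ∀ P R S, V (-P) R (-S) = V P R S) :
    ((L4 p X σ).map (fun j => V (j.P : ZMod Q) (j.R : ZMod Q) ((-j.S : ℤ) : ZMod Q))).sum
      = ((L4 p X σ).map (fun j => V ((-j.S : ℤ) : ZMod Q)
          ((2 * (-j.α) * (-j.S) - j.R : ℤ) : ZMod Q)
          ((j.P + j.R * (-j.α) - (-j.S) * (-j.α) ^ 2 : ℤ) : ZMod Q))).sum := by
  set u : ZMod Q := (p : ZMod Q) with hu
  set x : ZMod Q := (X : ZMod Q) with hx
  set s : ZMod Q := (σ : ZMod Q) with hs
  have hss : s * s = 1 := by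
    rcases hσ with h | h <;> rw [hs, h] <;> simp
  have g1 : ∀ j : ℕ, j < 12 → u ^ (12 - j) = u ^ (-(j : ZMod 12)).val := by
    intro j hj
    rw [← c12 hj, pw hp]
  have g0 : ∀ j : ℕ, u ^ ((j : ZMod 12)).val = u ^ j := fun j => pw hp j
  have gi : ∀ z : ZMod 12, u ^ (-z).val * u ^ z.val = 1 := pw_neg hp
  have xm : u ^ ((m' : ZMod 12)).val = x := by rw [g0]; exact hX.symm
  unfold L4
  simp only [List.map_append, List.sum_append, List.map_map]
  have L1 : ((List.range 12).map ((fun j : Fm => V (j.P : ZMod Q) (j.R : ZMod Q)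
      ((-j.S : ℤ) : ZMod Q)) ∘ (fun j =>
      (⟨p ^ j, -σ, -(σ * (X * p ^ (12 - j))), 3, -(σ * p ^ j)⟩ : Fm)))).sum
      = ∑ z, H1 V u x s z := by
    apply sum12
    intro j hj
    simp only [Function.comp, H1]
    rw [g0, ← g1 j hj]
    congr 1
    · push_cast; rfl
    · push_cast; rfl
    · push_cast
      rw [neg_neg]
  have L2 : ((List.range 12).map ((fun j : Fm => V (j.P : ZMod Q) (j.R : ZMod Q)
      ((-j.S : ℤ) : ZMod Q)) ∘ (fun j =>
      (⟨X * p ^ j, 2 * X + σ, X * p ^ (12 - j), 3, p ^ j⟩ : Fm)))).sum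
      = ∑ z, H2 V u x s z := by
    apply sum12
    intro j hj
    simp only [Function.comp, H2]
    rw [g0, ← g1 j hj]
    congr 1
    · push_cast; rfl
    · push_cast; rfl
    · push_cast; rfl
  have L3 : ((List.range 12).map ((fun j : Fm => V ((-j.S : ℤ) : ZMod Q)
      ((2 * (-j.α) * (-j.S) - j.R : ℤ) : ZMod Q)
      ((j.P + j.R * (-j.α) - (-j.S) * (-j.α) ^ 2 : ℤ) : ZMod Q)) ∘ (fun j =>
      (⟨p ^ j, -σ, -(σ * (X * p ^ (12 - j))), 3, -(σ * p ^ j)⟩ : Fm)))).sum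
      = ∑ z, H2 V u x s (-z) := by
    apply sum12
    intro j hj
    simp only [Function.comp, H2]
    have gj := gi (j : ZMod 12)
    rw [g0] at gj
    have e7 : (-(-(j : ZMod 12))) = (j : ZMod 12) := neg_neg _
    rw [e7, g0]
    have e1 : u ^ (12 - j) = u ^ (-(j : ZMod 12)).val := g1 j hj
    set w : ZMod Q := u ^ (-(j : ZMod 12)).val with hw
    set v : ZMod Q := u ^ j with hv
    have e2 : ((-(-(σ * (X * p ^ (12 - j)))) : ℤ) : ZMod Q) = s * (x * w) := by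
      push_cast
      rw [← e1, neg_neg]
    have e3 : ((2 * (-(-(σ * p ^ j))) * (-(-(σ * (X * p ^ (12 - j))))) - (-σ) : ℤ) : ZMod Q)
        = 2 * x + s := by
      push_cast
      rw [← hu, ← hx, ← hs, ← hv, e1]
      linear_combination (2 * x * s * s) * gj + (2 * x) * hss
    have e4 : ((p ^ j + (-σ) * (-(-(σ * p ^ j))) -
        (-(-(σ * (X * p ^ (12 - j))))) * (-(-(σ * p ^ j))) ^ 2 : ℤ) : ZMod Q)
        = -(s * (x * v)) := by
      push_cast
      rw [← hu, ← hx, ← hs, ← hv, e1]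
      linear_combination (-(x * s * s * s * v)) * gj + (-v - s * x * v) * hss
    change V _ _ _ = _
    rw [e2, e3, e4]
    rcases hσ with h | h
    · have : s = 1 := by rw [hs, h]; simp
      rw [this, one_mul, one_mul]
    · have : s = -1 := by rw [hs, h]; simp
      rw [this, neg_one_mul, neg_one_mul]
      exact hV _ _ _
  have L4' : ((List.range 12).map ((fun j : Fm => V ((-j.S : ℤ) : ZMod Q)
      ((2 * (-j.α) * (-j.S) - j.R : ℤ) : ZMod Q)
      ((j.P + j.R * (-j.α) - (-j.S) * (-j.α) ^ 2 : ℤ) : ZMod Q)) ∘ (fun j =>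
      (⟨X * p ^ j, 2 * X + σ, X * p ^ (12 - j), 3, p ^ j⟩ : Fm)))).sum
      = ∑ z, H1 V u x s ((m' : ZMod 12) - z) := by
    apply sum12
    intro j hj
    simp only [Function.comp, H1]
    have gj := gi (j : ZMod 12)
    rw [g0] at gj
    have e1 : u ^ (12 - j) = u ^ (-(j : ZMod 12)).val := g1 j hj
    have e5 : u ^ ((m' : ZMod 12) - (j : ZMod 12)).val = x * u ^ (-(j : ZMod 12)).val := by
      rw [sub_eq_add_neg, pw_add hp, xm]
    have e6 : x * u ^ (-((m' : ZMod 12) - (j : ZMod 12))).val = u ^ j := by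
      have a1 := gi ((m' : ZMod 12) - (j : ZMod 12))
      rw [e5] at a1
      calc x * u ^ (-((m' : ZMod 12) - (j : ZMod 12))).val
          = (u ^ (-((m' : ZMod 12) - (j : ZMod 12))).val * (x * u ^ (-(j : ZMod 12)).val)) *
              u ^ j := by linear_combination (-(x * u ^ (-((m' : ZMod 12) - (j : ZMod 12))).val)) * gj
        _ = u ^ j := by rw [a1, one_mul]
    rw [e5, e6]
    set w : ZMod Q := u ^ (-(j : ZMod 12)).val with hw
    set v : ZMod Q := u ^ j with hv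
    have e2 : ((-(X * p ^ (12 - j)) : ℤ) : ZMod Q) = -(x * w) := by
      push_cast
      rw [← e1]
    have e3 : ((2 * (-(p ^ j)) * (-(X * p ^ (12 - j))) - (2 * X + σ) : ℤ) : ZMod Q)
        = -s := by
      push_cast
      rw [← hu, ← hx, ← hs, ← hv, e1]
      linear_combination (2 * x) * gj
    have e4 : ((X * p ^ j + (2 * X + σ) * (-(p ^ j)) -
        (-(X * p ^ (12 - j))) * (-(p ^ j)) ^ 2 : ℤ) : ZMod Q)
        = -(s * v) := by
      push_cast
      rw [← hu, ← hx, ← hs, ← hv, e1]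
      linear_combination (x * v) * gj
    change V _ _ _ = _
    rw [e2, e3, e4]
    exact hV _ _ _
  rw [L1, L2, L3, L4']
  have r1 : ∑ z, H2 V u x s (-z) = ∑ z, H2 V u x s z :=
    Equiv.sum_comp (Equiv.neg (ZMod 12)) (H2 V u x s)
  have r2 : ∑ z, H1 V u x s ((m' : ZMod 12) - z) = ∑ z, H1 V u x s z :=
    Equiv.sum_comp (Equiv.subLeft (m' : ZMod 12)) (H1 V u x s)
  rw [r1, r2, add_comm]

end bal

/-! ### The boundary sum -/

lemma Z0_zero {Q : ℕ} [NeZero Q] (hQ : Nat.Coprime 2 Q) (F : ZMod Q → ZMod 13)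
    (hF : ∀ x y, F (x * y) = F x * F y) (h4 : F 4 ≠ 1) (S : ZMod Q) : Z0 F S = 0 := by
  have h1 : Z0 F S = F 4 * Z0 F S := by
    unfold Z0
    rw [Finset.mul_sum]
    conv_lhs => rw [← Equiv.sum_comp (Units.mulLeft (ZMod.unitOfCoprime 2 hQ))]
    apply Finset.sum_congr rfl
    intro y _
    rw [← hF]
    congr 1
    simp only [Units.mulLeft_apply, ZMod.coe_unitOfCoprime]
    push_cast
    ring
  have h2 : (F 4 - 1) * Z0 F S = 0 := by linear_combination -h1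
  have : Fact (Nat.Prime 13) := ⟨by norm_num⟩
  rcases mul_eq_zero.1 h2 with h | h
  · exact absurd (sub_eq_zero.1 h) h4
  · exact h


/-! ### From the level zero sum to the table -/

lemma cast_dv {n : ℕ} {x y : ℤ} (h : (n : ℤ) ∣ x - y) : ((x : ℤ) : ZMod n) = (y : ZMod n) := by
  have := (ZMod.intCast_zmod_eq_zero_iff_dvd _ n).2 h
  rw [Int.cast_sub] at this
  exact sub_eq_zero.1 this

theorem relT (hL : Stmt_LNK) {T1 T2 T3 t1 t2 t3 : ℕ} {rows : List (ℕ × ℕ)} {χ : ℤ → ZMod 13}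
    (H : TabOK 13 7 5 2197 169 T1 T2 T3 F13 F7 F5 rows)
    (ht1 : tabCk 13 2197 T1 = true) (ht2 : tabCk 7 2197 T2 = true) (ht3 : tabCk 5 2197 T3 = true)
    (rok : relOk 13 7 5 2197 T1 T2 T3 = true)
    (r1 : redCk 13 T1 t1 13 = true) (r2 : redCk 7 T2 t2 13 = true) (r3 : redCk 5 T3 t3 13 = true)
    (hχ : ∀ n : ℕ, ((chw T1 (n % 13) : ℕ) : ZMod 13) * ((chw T2 (n % 7) : ℕ) : ZMod 13) *
      ((chw T3 (n % 5) : ℕ) : ZMod 13) = χ (n : ℤ)) (h4 : χ 4 ≠ 1)
    (hu : Nat.Coprime (4 * (chw T1 4 * chw T2 4 * chw T3 4) - 1) 2197)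
    (hu1 : 1 ≤ 4 * (chw T1 4 * chw T2 4 * chw T3 4)) [NeZero (35 * 13)]
    {p X σ : ℤ} {m' : ℕ} (hσ : OEX.Sg σ) (hp : (455 : ℤ) ∣ p ^ 12 - 1)
    (hX : (455 : ℤ) ∣ X - p ^ m')
    (n5 : ((1 + 4 * σ * X : ℤ) : ZMod 5) ^ 2 = -1) (n7 : ((1 + 4 * σ * X : ℤ) : ZMod 7) ^ 3 = -1)
    (n13 : ((1 + 4 * σ * X : ℤ) : ZMod 13) ^ 6 = -1) (hE : EL0 35 χ (L4 p X σ) = 0) :
    ((L4 p X σ).map (fvalG 13 7 5 13 (pos 13 11 PT13) (pos 7 5 PT7) (pos 5 3 PT5)
      t1 t2 t3 rows 10)).sum % 13 = 0 := by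
  have : NeZero (13 * 7 * 5) := ⟨by norm_num⟩
  have : NeZero (13 * 7) := ⟨by norm_num⟩
  have hc := tri_char (n1 := 13) (n2 := 7) (n3 := 5) (tabCk_char ht1) (tabCk_char ht2)
    (tabCk_char ht3)
  obtain ⟨hodd, -⟩ := Pool.Agent.Lib_helper5.K4.relOk_spec (by norm_num : 0 < 2197) rok ht1 ht2 ht3
  set χt : ZMod (13 * 7 * 5) → ZMod 2197 := tri (tabc 13 2197 T1) (tabc 7 2197 T2) (tabc 5 2197 T3)
    with hχt
  have hval : ∀ n : ℕ, χt (n : ZMod (13 * 7 * 5)) =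
      ((chw T1 (n % 13) * chw T2 (n % 7) * chw T3 (n % 5) : ℕ) : ZMod 2197) := by
    intro n
    rw [hχt, tri_natCast, tabc_natCast, tabc_natCast, tabc_natCast]
    push_cast
    rfl
  have hred : ∀ z : ZMod (13 * 7 * 5), ZMod.castHom (by norm_num : 13 ∣ 2197) (ZMod 13) (χt z)
      = χ (z.val : ℤ) := by
    intro z
    conv_lhs => rw [← ZMod.natCast_zmod_val z, hval]
    rw [map_natCast, ← hχ z.val]
    push_cast
    rfl
  have hunit : IsUnit (4 * χt 4 - 1) := by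
    have e : 4 * χt 4 - 1 = ((4 * (chw T1 4 * chw T2 4 * chw T3 4) - 1 : ℕ) : ZMod 2197) := by
      have := hval 4
      rw [show ((4 : ℕ) : ZMod (13 * 7 * 5)) = 4 by rfl] at this
      rw [this, Nat.cast_sub hu1]
      push_cast
      rfl
    rw [e]
    exact (ZMod.isUnit_iff_coprime _ _).2 hu
  have hmul13 : ∀ x y : ZMod (13 * 7 * 5), χ ((x * y).val : ℤ) = χ (x.val : ℤ) * χ (y.val : ℤ) := by
    intro x y
    rw [← hred, ← hred, ← hred, hc.mul, map_mul]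
  have hZ : ∀ S : ZMod (13 * 7 * 5), Z0 (fun z : ZMod (13 * 7 * 5) => χ (z.val : ℤ)) S = 0 := by
    intro S
    apply Z0_zero (by norm_num) _ hmul13
    have : ((4 : ZMod (13 * 7 * 5)).val : ℤ) = 4 := by rfl
    rw [this]
    exact h4
  have hp' : ((p : ℤ) : ZMod (13 * 7 * 5)) ^ 12 = 1 := by
    have := cast_dv (n := 13 * 7 * 5) (x := p ^ 12) (y := 1) (by push_cast; exact hp)
    push_cast at this
    exact this
  have hX' : ((X : ℤ) : ZMod (13 * 7 * 5)) = (p : ZMod (13 * 7 * 5)) ^ m' := by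
    have := cast_dv (n := 13 * 7 * 5) (x := X) (y := p ^ m') (by push_cast; exact hX)
    push_cast at this
    exact this
  have hk : ∀ j ∈ L4 p X σ, j.κ = 3 := by
    intro j hj
    unfold L4 at hj
    simp only [List.mem_append, List.mem_map, List.mem_range] at hj
    rcases hj with ⟨i, -, rfl⟩ | ⟨i, -, rfl⟩ <;> rfl
  have hRel : LK.Rel 2197 χt (L4 p X σ) :=
    hL 35 χ χt (L4 p X σ) (by norm_num) hodd hc.mul hred hunit hZ hk
      (fun V hV => bal hσ hp' hX' V hV) hE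
  have hdisc : ∀ j ∈ L4 p X σ, (455 : ℤ) ∣ (j.R ^ 2 - 4 * j.P * j.S) - (1 + 4 * σ * X) := by
    intro j hj
    obtain ⟨c, hc⟩ := hp
    have hss : σ * σ = 1 := by rcases hσ with h | h <;> rw [h] <;> norm_num
    unfold L4 at hj
    simp only [List.mem_append, List.mem_map, List.mem_range] at hj
    rcases hj with ⟨i, hi, rfl⟩ | ⟨i, hi, rfl⟩
    · have e : p ^ i * p ^ (12 - i) = p ^ 12 := by rw [← pow_add]; congr 1; omega
      refine ⟨4 * σ * X * c, ?_⟩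
      simp only
      linear_combination hss + 4 * σ * X * e + 4 * σ * X * hc
    · have e : p ^ i * p ^ (12 - i) = p ^ 12 := by rw [← pow_add]; congr 1; omega
      refine ⟨-4 * X ^ 2 * c, ?_⟩
      simp only
      linear_combination hss - 4 * X ^ 2 * e - 4 * X ^ 2 * hc
  have hF : F5.length = 10 := by decide
  have hfin := relG H (by norm_num : 2197 = 169 * 13) (by norm_num) (by norm_num) ht1 ht2 ht3
    (CompG.of comp13) (CompG.of comp7) (CompG.of comp5) r1 r2 r3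
    (fun j hj => adP_of (n := 13) n13 ((by norm_num : (13 : ℤ) ∣ 455).trans (hdisc j hj)))
    (fun j hj => adP_of (n := 7) n7 ((by norm_num : (7 : ℤ) ∣ 455).trans (hdisc j hj)))
    (fun j hj => adP_of (n := 5) n5 ((by norm_num : (5 : ℤ) ∣ 455).trans (hdisc j hj))) hRel
  rw [hF] at hfin
  exact hfin

/-! ### Meaning of the check -/

lemma cnd_of {w x : ℕ} (h5 : (1 + 4 * w * x) ^ 2 % 5 = 4) (h7 : (1 + 4 * w * x) ^ 3 % 7 = 6)
    (h13 : (1 + 4 * w * x) ^ 6 % 13 = 12) : cnd w x = true := by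
  have e5 : Nat.beq (Nat.mod (Nat.pow (Nat.add 1 (Nat.mul (Nat.mul 4 w) x)) 2) 5) 4 = true := by
    rw [Nat.beq_eq]; exact h5
  have e7 : Nat.beq (Nat.mod (Nat.pow (Nat.add 1 (Nat.mul (Nat.mul 4 w) x)) 3) 7) 6 = true := by
    rw [Nat.beq_eq]; exact h7
  have e13 : Nat.beq (Nat.mod (Nat.pow (Nat.add 1 (Nat.mul (Nat.mul 4 w) x)) 6) 13) 12
      = true := by
    rw [Nat.beq_eq]; exact h13
  unfold cnd
  rw [strict_eq]
  change @Bool.rec (fun _ => Bool) false (@Bool.rec (fun _ => Bool) false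
    (Nat.beq (Nat.mod (Nat.pow (Nat.add 1 (Nat.mul (Nat.mul 4 w) x)) 6) 13) 12)
    (Nat.beq (Nat.mod (Nat.pow (Nat.add 1 (Nat.mul (Nat.mul 4 w) x)) 3) 7) 6))
    (Nat.beq (Nat.mod (Nat.pow (Nat.add 1 (Nat.mul (Nat.mul 4 w) x)) 2) 5) 4) = true
  rw [e5, e7, e13]

lemma ck_use {w a k x : ℕ} (h : ck w a k = true) (hx : x = a ^ k % 455)
    (ha : a ^ 12 % 455 = 1) (hc : cnd w x = true)
    (h1 : tot t1_455F13b t2_455F13b t3_455F13b rows_455F13b w a x % 13 = 0)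
    (h2 : tot t1_455F13e t2_455F13e t3_455F13e rows_455F13e w a x % 13 = 0) : False := by
  unfold ck at h
  rw [strict_eq] at h
  have ex : Nat.mod (Nat.pow a k) (nat_lit 455) = x := hx.symm
  rw [ex] at h
  have e1 : Nat.beq (Nat.mod (Nat.pow a (nat_lit 12)) (nat_lit 455)) (nat_lit 1) = true := by
    rw [Nat.beq_eq]; exact ha
  have e2 : Nat.beq (Nat.mod (tot t1_455F13b t2_455F13b t3_455F13b rows_455F13b w a x)
      (nat_lit 13)) (nat_lit 0) = true := by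
    rw [Nat.beq_eq]; exact h1
  have e3 : Nat.beq (Nat.mod (tot t1_455F13e t2_455F13e t3_455F13e rows_455F13e w a x)
      (nat_lit 13)) (nat_lit 0) = true := by
    rw [Nat.beq_eq]; exact h2
  have k1 := impB_spec (impB_spec (impB_spec h e1) hc) e2
  rw [e3] at k1
  exact Bool.noConfusion k1

lemma mod_of {n : ℕ} {D : ℤ} {d e r : ℕ} (h : (d : ZMod n) = (D : ZMod n))
    (hD : ((D : ℤ) : ZMod n) ^ e = -1) (hr : r < n) (hr1 : ((r : ℕ) : ZMod n) = -1) :
    d ^ e % n = r := by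
  have h1 : ((d ^ e : ℕ) : ZMod n) = ((r : ℕ) : ZMod n) := by
    rw [Nat.cast_pow, h, hD, hr1]
  have h2 := (ZMod.natCast_eq_natCast_iff' _ _ n).1 h1
  rwa [Nat.mod_eq_of_lt hr] at h2

lemma chi_b : ∀ n : ℕ, ((chw T1_455F13b (n % 13) : ℕ) : ZMod 13) *
    ((chw T2_455F13b (n % 7) : ℕ) : ZMod 13) *
      ((chw T3_455F13b (n % 5) : ℕ) : ZMod 13) = χa (n : ℤ) := by
  intro n
  have a1 : ∀ i < 13, ((chw T1_455F13b i : ℕ) : ZMod 13) = ((i : ℕ) : ZMod 13) ^ 5 := by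
    decide +kernel
  have a2 : ∀ i < 7, ((chw T2_455F13b i : ℕ) : ZMod 13) = v7 ((i : ℕ) : ZMod 7) ^ 4 := by
    decide +kernel
  have a3 : ∀ i < 5, ((chw T3_455F13b i : ℕ) : ZMod 13) = v5 ((i : ℕ) : ZMod 5) ^ 2 := by
    decide +kernel
  rw [a1 _ (Nat.mod_lt _ (by norm_num)), a2 _ (Nat.mod_lt _ (by norm_num)),
    a3 _ (Nat.mod_lt _ (by norm_num)), ZMod.natCast_mod, ZMod.natCast_mod, ZMod.natCast_mod]
  unfold χa
  push_cast
  ring

lemma chi_e : ∀ n : ℕ, ((chw T1_455F13e (n % 13) : ℕ) : ZMod 13) *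
    ((chw T2_455F13e (n % 7) : ℕ) : ZMod 13) *
      ((chw T3_455F13e (n % 5) : ℕ) : ZMod 13) = χb (n : ℤ) := by
  intro n
  have a1 : ∀ i < 13, ((chw T1_455F13e i : ℕ) : ZMod 13) = ((i : ℕ) : ZMod 13) ^ 5 := by
    decide +kernel
  have a2 : ∀ i < 7, ((chw T2_455F13e i : ℕ) : ZMod 13) = v7 ((i : ℕ) : ZMod 7) ^ 5 := by
    decide +kernel
  have a3 : ∀ i < 5, ((chw T3_455F13e i : ℕ) : ZMod 13) = v5 ((i : ℕ) : ZMod 5) ^ 3 := by
    decide +kernel
  rw [a1 _ (Nat.mod_lt _ (by norm_num)), a2 _ (Nat.mod_lt _ (by norm_num)),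
    a3 _ (Nat.mod_lt _ (by norm_num)), ZMod.natCast_mod, ZMod.natCast_mod, ZMod.natCast_mod]
  unfold χb
  push_cast
  ring

/-- modulo `455`, two tables -/
theorem main (hL : Stmt_LNK) [NeZero (35 * 13)] {p X σ : ℤ} {m' : ℕ} (hσ : OEX.Sg σ)
    (hp : (455 : ℤ) ∣ p ^ 12 - 1) (hX : (455 : ℤ) ∣ X - p ^ m')
    (n5 : ((1 + 4 * σ * X : ℤ) : ZMod 5) ^ 2 = -1) (n7 : ((1 + 4 * σ * X : ℤ) : ZMod 7) ^ 3 = -1)
    (n13 : ((1 + 4 * σ * X : ℤ) : ZMod 13) ^ 6 = -1) (ha : EL0 35 χa (L4 p X σ) = 0)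
    (hb : EL0 35 χb (L4 p X σ) = 0) : False := by
  have s1 := relT hL tok_455F13b tab1_455F13b tab2_455F13b tab3_455F13b rok_455F13b red1_455F13b
    red2_455F13b red3_455F13b chi_b (by decide) (by decide +kernel) (by decide +kernel)
    hσ hp hX n5 n7 n13 ha
  have s2 := relT hL tok_455F13e tab1_455F13e tab2_455F13e tab3_455F13e rok_455F13e red1_455F13e
    red2_455F13e red3_455F13e chi_e (by decide) (by decide +kernel) (by decide +kernel)
    hσ hp hX n5 n7 n13 hb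
  set a : ℕ := rs 455 p with hadef
  set k : ℕ := m' % 12 with hkdef
  set x : ℕ := a ^ k % 455 with hxdef
  have alt : a < 455 := rs_lt p
  have klt : k < 12 := Nat.mod_lt _ (by norm_num)
  have ca : ((a : ℕ) : ZMod 455) = (p : ZMod 455) := rs_cast p
  have pa : (455 : ℤ) ∣ p - a := by
    apply (ZMod.intCast_zmod_eq_zero_iff_dvd _ 455).1
    push_cast
    rw [ca]
    ring
  have hp1 : ((p : ℤ) : ZMod 455) ^ 12 = 1 := by
    have := cast_dv (n := 455) (x := p ^ 12) (y := 1) hp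
    push_cast at this
    exact this
  have hX1 : ((X : ℤ) : ZMod 455) = (p : ZMod 455) ^ m' := by
    have := cast_dv (n := 455) (x := X) (y := p ^ m') hX
    push_cast at this
    exact this
  have cx : ((x : ℕ) : ZMod 455) = (X : ZMod 455) := by
    rw [hxdef, ZMod.natCast_mod, Nat.cast_pow, ca, hX1]
    conv_rhs => rw [← Nat.div_add_mod m' 12, pow_add, pow_mul, hp1, one_pow, one_mul]
  have px : (455 : ℤ) ∣ X - x := by
    apply (ZMod.intCast_zmod_eq_zero_iff_dvd _ 455).1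
    push_cast
    rw [cx]
    ring
  have ha12 : a ^ 12 % 455 = 1 := by
    have h1 : ((a ^ 12 : ℕ) : ZMod 455) = ((1 : ℕ) : ZMod 455) := by
      rw [Nat.cast_pow, ca, hp1, Nat.cast_one]
    exact (ZMod.natCast_eq_natCast_iff' _ _ 455).1 h1
  have fin : ∀ w : ℕ, w ≤ 455 → (455 : ℤ) ∣ σ - w → ck w a k = true → False := by
    intro w hw hσw hck
    rw [sum_tot _ _ _ _ pa px hw hσw] at s1 s2
    have cD : ∀ n : ℕ, n ∣ 455 → ((1 + 4 * w * x : ℕ) : ZMod n) =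
        ((1 + 4 * σ * X : ℤ) : ZMod n) := by
      intro n hn
      have b1 := dv_cast hn hσw
      have b2 := dv_cast hn px
      push_cast
      rw [b1, b2]
    refine ck_use hck rfl ha12 (cnd_of ?_ ?_ ?_) s1 s2
    · exact mod_of (cD 5 (by norm_num)) n5 (by norm_num) (by decide)
    · exact mod_of (cD 7 (by norm_num)) n7 (by norm_num) (by decide)
    · exact mod_of (cD 13 (by norm_num)) n13 (by norm_num) (by decide)
  rcases hσ with h | h
  · refine fin 1 (by norm_num) (by rw [h]; norm_num) ?_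
    exact allR_spec (allR_spec ck_all1 a alt) k klt
  · refine fin 454 (by norm_num) (by rw [h]; norm_num) ?_
    exact allR_spec (allR_spec ck_all2 a alt) k klt

end NV4aux

theorem t_NV4 (hL : Stmt_LNK) : Stmt_NV4 := by
  intro _ _ p X σ m' hσ hp hX hN
  by_contra hcon
  push Not at hcon
  exact NV4aux.main hL hσ ((by norm_num : (455 : ℤ) ∣ 1365).trans hp)
    ((by norm_num : (455 : ℤ) ∣ 1365).trans hX) hN.h5 hN.h7 hN.h13 hcon.1 hcon.2.1

end Pool.Agent.OEG.G
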