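import Pool.Agent.OEG.StG

/-!
Second order condition of the ghosts of type two and three: finite check (module RKG of OEG).
-/

set_option autoImplicit false

namespace Pool.Agent.OEG.G

namespace RKG71

open Pool.Agent.PSX (v3 v5 v7)

/-- the two factors -/
def fa (s : ZMod 13) (m3 : ZMod 3) (m5 : ZMod 5) (m : ZMod 13) : ZMod 13 :=
  2 + (2 * m + s) * (v3 m3 * v5 m5 ^ 3 * m ^ 11)

/-- the second factor -/
def fc (s : ZMod 13) (m5 : ZMod 5) (m7 : ZMod 7) (m : ZMod 13) : ZMod 13 :=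
  2 + (2 * m + s) * (v5 m5 ^ 2 * v7 m7 ^ 5 * m ^ 8)

lemma pos_ne : ∀ (m : ZMod 13), (1 + 4 * m) ^ 6 = -1 → ∀ (m7 : ZMod 7), (1 + 4 * m7) ^ 3 = -1 →
    ∀ m5 : ZMod 5, (1 + 4 * m5) ^ 2 = -1 → ∀ m3 : ZMod 3, 1 + 4 * m3 = -1 →
    fa 1 m3 m5 m = 0 → fc 1 m5 m7 m ≠ 0 := by decide +kernel

lemma neg_ne : ∀ (m : ZMod 13), (1 - 4 * m) ^ 6 = -1 → ∀ (m7 : ZMod 7), (1 - 4 * m7) ^ 3 = -1 →
    ∀ m5 : ZMod 5, (1 - 4 * m5) ^ 2 = -1 → ∀ m3 : ZMod 3, 1 - 4 * m3 = -1 →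
    fa (-1) m3 m5 m = 0 → fc (-1) m5 m7 m ≠ 0 := by decide +kernel

lemma p13 : Nat.Prime 13 := by norm_num

lemma to_dvd {x : ℤ} (h : (x : ZMod 13) = 0) : (13 : ℤ) ∣ x := by
  exact_mod_cast (ZMod.intCast_zmod_eq_zero_iff_dvd x 13).1 h

lemma fin {k a b : ZMod 13} (hab : a = 0 → b ≠ 0) (ha : k * a = 0) (hb : k * b = 0) : k = 0 := by
  have : Fact (Nat.Prime 13) := ⟨p13⟩
  rcases mul_eq_zero.1 ha with h | h
  · exact h
  · exact (mul_eq_zero.1 hb).resolve_right (hab h)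

end RKG71

open RKG71 in
theorem t_RKG : Stmt_RKG := by
  intro X σ κ hσ hD h0 h3
  obtain ⟨g3, g5, g7, g13⟩ := hD
  have c0 : PSX.χ0 X = PSX.v3 X * PSX.v5 X ^ 3 * (X : ZMod 13) ^ 11 := rfl
  have c3 : PSX.χ3 X = PSX.v5 X ^ 2 * PSX.v7 X ^ 5 * (X : ZMod 13) ^ 8 := rfl
  rw [c0] at h0
  rw [c3] at h3
  rcases hσ with rfl | rfl
  · push_cast at g3 g5 g7 g13 h0 h3
    have k3 : 1 + 4 * (X : ZMod 3) = -1 := by linear_combination g3
    have k5 : (1 + 4 * (X : ZMod 5)) ^ 2 = -1 := by linear_combination g5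
    have k7 : (1 + 4 * (X : ZMod 7)) ^ 3 = -1 := by linear_combination g7
    have k13 : (1 + 4 * (X : ZMod 13)) ^ 6 = -1 := by linear_combination g13
    exact to_dvd (fin (pos_ne X k13 X k7 X k5 X k3) h0 h3)
  · push_cast at g3 g5 g7 g13 h0 h3
    have k3 : 1 - 4 * (X : ZMod 3) = -1 := by linear_combination g3
    have k5 : (1 - 4 * (X : ZMod 5)) ^ 2 = -1 := by linear_combination g5
    have k7 : (1 - 4 * (X : ZMod 7)) ^ 3 = -1 := by linear_combination g7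
    have k13 : (1 - 4 * (X : ZMod 13)) ^ 6 = -1 := by linear_combination g13
    exact to_dvd (fin (neg_ne X k13 X k7 X k5 X k3) h0 h3)

end Pool.Agent.OEG.G
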