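import Pool.Agent.OEG.StG
import Pool.Agent.PSX.M_NUS

/-!
# OEG, module SYE: symmetries of the edge sums
-/

set_option autoImplicit false

namespace Pool.Agent.OEG.G

open Finset (range)
open Pool.Agent.PSX (Es W sg nu ev)

namespace M_SYE

theorem nu_neg_left {Q : ℕ} [NeZero Q] (c : ℤ) (x y : ZMod Q) : nu (-c) (-x) y = nu c x y := by
  have hQ0 : (Q : ℤ) ≠ 0 := by exact_mod_cast NeZero.ne Q
  obtain ⟨hn, -, -⟩ := Pool.Agent.PSX.t_NUS Q
  have h1 := hn (-c) (-x) y
  have h2 := hn c x y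
  have e1 : y - ((-c : ℤ) : ZMod Q) * -x = y - (c : ZMod Q) * x := by
    push_cast
    ring
  rw [e1, Pool.Agent.RDF.β_neg] at h1
  refine mul_left_cancel₀ hQ0 ?_
  rw [h1, h2]
  ring

theorem W_neg_left {Q : ℕ} [NeZero Q] (hQ : Q % 2 = 1) (c : ℤ) (x y : ZMod Q) :
    W (-c) (-x) y = - W c x y := by
  obtain ⟨-, hs, -⟩ := Pool.Agent.PSX.t_NUS Q
  unfold W
  rw [nu_neg_left, hs hQ]
  ring

theorem W_zero {Q : ℕ} [NeZero Q] (x y : ZMod Q) : W 0 x y = sg x * sg y := by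
  have hQ0 : (Q : ℤ) ≠ 0 := by exact_mod_cast NeZero.ne Q
  obtain ⟨hn, -, -⟩ := Pool.Agent.PSX.t_NUS Q
  have h1 := hn 0 x y
  have e1 : y - ((0 : ℤ) : ZMod Q) * x = y := by
    push_cast
    ring
  rw [e1] at h1
  have h2 : nu 0 x y = 0 := by
    refine mul_left_cancel₀ hQ0 ?_
    rw [h1]
    ring
  unfold W
  rw [h2, zero_add]

end M_SYE

open M_SYE in
/-- **SYE.** -/
theorem t_SYE : Stmt_SYE := by
  intro Q _ hQ M _ F hF P R S c
  refine ⟨?_, ?_, ?_⟩
  · unfold Es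
    rw [← Equiv.sum_comp (Equiv.neg (ZMod Q))]
    refine Finset.sum_congr rfl fun x _ => Finset.sum_congr rfl fun y _ => ?_
    rw [Equiv.neg_apply]
    have e1 : ev (-P) R (-S) (-x) y = - ev P R S x y := by
      unfold ev
      ring
    rw [e1, hF, W_neg_left hQ, Int.cast_neg, neg_mul_neg]
  · unfold Es
    rw [← Finset.sum_neg_distrib]
    refine Finset.sum_congr rfl fun x _ => ?_
    rw [← Finset.sum_neg_distrib, ← Equiv.sum_comp (Equiv.neg (ZMod Q))]
    refine Finset.sum_congr rfl fun y _ => ?_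
    rw [Equiv.neg_apply]
    have e1 : ev P (-R) S x (-y) = ev P R S x y := by
      unfold ev
      ring
    rw [e1, (Pool.Agent.PSX.t_NUS Q).2.2 hQ, Int.cast_neg, mul_neg]
  · unfold Es
    rw [Finset.sum_comm, ← Finset.sum_neg_distrib]
    refine Finset.sum_congr rfl fun x _ => ?_
    rw [← Finset.sum_neg_distrib]
    refine Finset.sum_congr rfl fun y _ => ?_
    have e1 : ev S (-R) P y x = - ev P R S x y := by
      unfold ev
      ring
    rw [e1, hF, W_zero, W_zero, mul_comm (sg y) (sg x), neg_mul]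

end Pool.Agent.OEG.G
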