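import Pool.Agent.OEG.StG
import Pool.Agent.PSX.M_AFA
import Pool.Agent.PSX.M_GHF
import Pool.Agent.PSX.M_GHL
import Pool.Agent.PSX.M_ZSQ
import Pool.Agent.PSX.M_LFT
import Pool.Agent.PSX.M_BFS
import Pool.Agent.PSX.M_BFD
import Pool.Agent.PSX.M_NUS
import Pool.Agent.PSX.M_DBL
import Pool.Agent.PSX.M_BSY
import Pool.Agent.PSX.M_SYM
import Pool.Agent.PSX.M_UNI

/-!
# Project OEG, the ghosts: the cycle of length three
-/

set_option autoImplicit false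

namespace Pool.Agent.OEG.G

open Finset (range)
open Pool.Agent.PSX (Es A3)
open Pool.Agent.P4G (Fam QN FN FZ)

namespace TCYM

/-- the ghost identity of the halves -/
theorem afa : PSX.Stmt_AFA :=
  PSX.t_AFA (PSX.t_GHF (PSX.t_BFS (PSX.t_BFD PSX.t_NUS PSX.t_DBL)) PSX.t_GHL PSX.t_ZSQ PSX.t_LFT)
    (PSX.t_BSY (PSX.t_SYM PSX.t_NUS)) PSX.t_UNI

theorem odd_QN {l q0 n e : ℕ} {ψ : ℤ → ℤ} (h : Fam l q0 n e ψ) : QN l q0 n % 2 = 1 := by
  unfold QN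
  have h1 : Odd (q0 * l ^ (n + 1)) := by
    refine Odd.mul (Nat.odd_iff.2 h.hq) (Odd.pow ?_)
    rcases h.hl.eq_two_or_odd with h2 | h2
    · exact absurd h2 h.l2
    · exact Nat.odd_iff.2 h2
  exact Nat.odd_iff.1 h1

theorem neg_FZ {l q0 n e : ℕ} {ψ : ℤ → ℤ} [NeZero (QN l q0 n)] (h : Fam l q0 n e ψ)
    (z : ZMod (QN l q0 n)) : FZ l q0 n e ψ (-z) = - FZ l q0 n e ψ z := by
  obtain ⟨f, h1, h2⟩ := PSX.t_LFT l q0 n e ψ h
  rw [← h2, ← h2, h1]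
  push_cast
  ring

theorem plus {Q : ℕ} [NeZero Q] {M : Type*} [CommRing M] (F : ZMod Q → M) (Y : ℤ) :
    A3 F 0 0 Y = Es F 1 (-1) (Y : ZMod Q) 1 + Es F (Y : ZMod Q) (-1) 1 (-1)
      + Es F (Y : ZMod Q) (2 * Y + 1) (-Y) (-1) := by
  unfold A3
  have e1 : ((-1 + 0 : ℤ) : ZMod Q) = -1 := by push_cast; ring
  have e2 : ((2 * Y + 1 - 0 + 2 * Y * 0 : ℤ) : ZMod Q) = 2 * Y + 1 := by push_cast; ring
  have e3 : ((-Y + 0 - (1 + 2 * Y) * 0 : ℤ) : ZMod Q) = -Y := by push_cast; ring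
  have e4 : (-1 + 0 : ℤ) = -1 := by norm_num
  have e5 : (1 + 0 : ℤ) = 1 := by norm_num
  rw [e1, e2, e3, e4, e5]
  ring

end TCYM

theorem t_TCY (hSYE : Stmt_SYE) : Stmt_TCY := by
  intro l q0 n e e0 ψ _ hF σ X hσ
  have hA := fun μ => (TCYM.afa l q0 n e e0 ψ hF).2 μ
  rcases hσ with rfl | rfl
  · have h1 := hA X
    rw [TCYM.plus] at h1
    have e1 : ((1 : ℤ) : ZMod (QN l q0 n)) = 1 := by push_cast; ring
    have e2 : ((-1 : ℤ) : ZMod (QN l q0 n)) = -1 := by push_cast; ring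
    have e3 : ((1 * X : ℤ) : ZMod (QN l q0 n)) = X := by push_cast; ring
    have e4 : ((2 * X + 1 : ℤ) : ZMod (QN l q0 n)) = 2 * X + 1 := by push_cast; ring
    have e5 : ((-X : ℤ) : ZMod (QN l q0 n)) = -X := by push_cast; ring
    rw [e1, e2, e3, e4, e5]
    exact h1
  · have hS := hSYE (QN l q0 n) (TCYM.odd_QN hF.fam) (ZMod (l ^ (n + 1))) (FZ l q0 n e ψ)
      (TCYM.neg_FZ hF.fam)
    have h1 := hA (-X)
    rw [TCYM.plus] at h1
    have e1 : ((1 : ℤ) : ZMod (QN l q0 n)) = 1 := by push_cast; ring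
    have e2 : ((-(-1) : ℤ) : ZMod (QN l q0 n)) = 1 := by push_cast; ring
    have e3 : ((-1 * X : ℤ) : ZMod (QN l q0 n)) = -X := by push_cast; ring
    have e4 : ((2 * X + -1 : ℤ) : ZMod (QN l q0 n)) = 2 * X + -1 := by push_cast; ring
    have e5 : ((-X : ℤ) : ZMod (QN l q0 n)) = -X := by push_cast; ring
    have e6 : ((-1 : ℤ) : ZMod (QN l q0 n)) = -1 := by push_cast; ring
    rw [e5] at h1
    rw [e1, e2, e3, e4, e5, e6]
    -- the first term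
    have t1 : Es (FZ l q0 n e ψ) 1 1 (-(X : ZMod (QN l q0 n))) (-1)
        = - Es (FZ l q0 n e ψ) 1 (-1) (-(X : ZMod (QN l q0 n))) 1 := by
      have h2 := (hS 1 (-1) (-(X : ZMod (QN l q0 n))) 1).2.1
      rw [neg_neg] at h2
      exact h2
    -- the second term
    have t2 : Es (FZ l q0 n e ψ) (X : ZMod (QN l q0 n)) 1 (-1) (-1)
        = - Es (FZ l q0 n e ψ) (-(X : ZMod (QN l q0 n))) (-1) 1 (-1) := by
      have h2 := (hS (-(X : ZMod (QN l q0 n))) 1 1 1).1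
      rw [neg_neg] at h2
      have h3 := (hS (-(X : ZMod (QN l q0 n))) (-1) 1 (-1)).2.1
      rw [neg_neg, neg_neg] at h3
      rw [h2, h3]
    -- the third term
    have t3 : Es (FZ l q0 n e ψ) (X : ZMod (QN l q0 n)) (2 * X + -1) (-X) (-1)
        = - Es (FZ l q0 n e ψ) (-(X : ZMod (QN l q0 n))) (2 * -(X : ZMod (QN l q0 n)) + 1)
          (- -(X : ZMod (QN l q0 n))) (-1) := by
      have h2 := (hS (-(X : ZMod (QN l q0 n))) (2 * X + -1) X 1).1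
      rw [neg_neg] at h2
      have h3 := (hS (-(X : ZMod (QN l q0 n))) (2 * -(X : ZMod (QN l q0 n)) + 1) X (-1)).2.1
      have e7 : -(2 * -(X : ZMod (QN l q0 n)) + 1) = 2 * X + -1 := by ring
      rw [e7, neg_neg] at h3
      rw [h2, h3, neg_neg]
    rw [t1, t2, t3]
    linear_combination -h1

end Pool.Agent.OEG.G
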