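import Pool.Agent.OEG.StG
import Pool.Agent.PSX.M_RSM
import Pool.Agent.PSX.M_BLK

set_option autoImplicit false

/-!
# TI0: families of type I, the full sums vanish
-/

namespace Pool.Agent.OEG.G

open Finset (range)
open Pool.Agent.PSX (Es W sg nu ev Z0 EZ SX I0 I1 TT ED fb evZ F1)
open Pool.Agent.P4G (Fam QN FN FZ CR)

namespace TI0X

open Polynomial

/-- The sum of a polynomial of small degree over a prime field is zero. -/
theorem sum_small {l : ℕ} [Fact l.Prime] (p : Polynomial (ZMod l)) (hp : p.natDegree < l - 1) :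
    ∑ y : ZMod l, p.eval y = 0 := by
  have h1 : ∀ y : ZMod l, p.eval y = ∑ i ∈ range (p.natDegree + 1), p.coeff i * y ^ i :=
    fun y => Polynomial.eval_eq_sum_range y
  rw [Finset.sum_congr rfl fun y _ => h1 y, Finset.sum_comm]
  refine Finset.sum_eq_zero fun i hi => ?_
  rw [← Finset.mul_sum, FiniteField.sum_pow_lt_card_sub_one, mul_zero]
  rw [ZMod.card]
  have := Finset.mem_range.1 hi
  omega

/-- Powers over a prime field only depend on the exponent modulo `l - 1`. -/
theorem pow_red {l : ℕ} [Fact l.Prime] (a : ZMod l) {e e0 : ℕ} (h : e % (l - 1) = e0)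
    (h2 : 2 ≤ e0) : a ^ e = a ^ e0 ∧ a ^ (e - 1) = a ^ (e0 - 1) := by
  obtain ⟨k, hk⟩ : ∃ k, e = (l - 1) * k + e0 := ⟨e / (l - 1), by
    rw [← h]
    exact (Nat.div_add_mod e (l - 1)).symm⟩
  have h3 : e - 1 = (l - 1) * k + (e0 - 1) := by omega
  rw [h3, hk, pow_add, pow_add, pow_mul]
  rcases eq_or_ne a 0 with ha | ha
  · subst ha
    rw [zero_pow (by omega : e0 ≠ 0), zero_pow (by omega : e0 - 1 ≠ 0), mul_zero]
    exact ⟨rfl, rfl⟩
  · rw [ZMod.pow_card_sub_one_eq_one ha, one_pow, one_mul, one_mul]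
    exact ⟨rfl, rfl⟩

theorem ev_map {l : ℕ} (p : Polynomial ℤ) (j : ℕ) : ((p.eval (j : ℤ) : ℤ) : ZMod l) =
    (p.map (Int.castRingHom (ZMod l))).eval (j : ZMod l) := by
  have := Polynomial.eval_intCast_map (Int.castRingHom (ZMod l)) p (j : ℤ)
  push_cast at this
  rw [this]
  rfl

/-- The full sum vanishes if the polynomial is of small degree as a function modulo the prime. -/
theorem core (hRSM : PSX.Stmt_RSM) {l q0 n e : ℕ} {ψ : ℤ → ℤ} (h : Fam l q0 n e ψ)
    (A B : Polynomial ℤ) (p : Polynomial (ZMod l)) (hp : p.natDegree < l - 1)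
    (hB : ∀ y : ZMod l, (B.map (Int.castRingHom (ZMod l))).eval y = p.eval y) :
    ∑ j ∈ range (QN l q0 n), ((ψ (A.eval (j : ℤ)) : ℤ) : ZMod (l ^ (n + 1)))
        * ((B.eval (j : ℤ) : ℤ) : ZMod (l ^ (n + 1))) = 0 := by
  have hl : Fact l.Prime := ⟨h.hl⟩
  have hne : NeZero l := ⟨h.hl.ne_zero⟩
  rw [hRSM l q0 n e ψ h A B]
  have h3 : (l : ℤ) ∣ ∑ j ∈ range l, B.eval (j : ℤ) := by
    rw [← ZMod.intCast_zmod_eq_zero_iff_dvd]
    push_cast
    rw [← sum_small p hp, ← RDF.sum_range_zmod]
    refine Finset.sum_congr rfl fun j _ => ?_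
    rw [ev_map, hB]
  obtain ⟨k, hk⟩ := h3
  rw [hk, ZMod.intCast_zmod_eq_zero_iff_dvd]
  push_cast
  exact ⟨(∑ i ∈ range q0, ψ (A.eval (i : ℤ))) * k, by ring⟩

/-- The polynomial of a form along a line. -/
noncomputable def fp (P R S x : ℤ) : Polynomial ℤ :=
  Polynomial.C (P * x ^ 2) + Polynomial.C (R * x) * Polynomial.X - Polynomial.C S * Polynomial.X ^ 2

theorem fp_eval (P R S x j : ℤ) : (fp P R S x).eval j = evZ P R S x j := by
  rw [fp, evZ]
  simp only [Polynomial.eval_add, Polynomial.eval_sub, Polynomial.eval_mul, Polynomial.eval_C,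
    Polynomial.eval_X, Polynomial.eval_pow]

theorem fp_deg (l : ℕ) (P R S x : ℤ) :
    ((fp P R S x).map (Int.castRingHom (ZMod l))).natDegree ≤ 2 := by
  refine Polynomial.natDegree_map_le.trans ?_
  rw [fp]
  compute_degree

theorem main (hRSM : PSX.Stmt_RSM) : Stmt_TI0 := by
  intro l q0 n e e0 ψ h hlt P R S x
  have hl : Fact l.Prime := ⟨h.fam.hl⟩
  have h2 := h.two
  have hA := fp_deg l P R S x
  refine ⟨?_, ?_⟩
  · have h1 := core hRSM h.fam (fp P R S x) (fp P R S x ^ e)
      (((fp P R S x).map (Int.castRingHom (ZMod l))) ^ e0) (by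
        have := natDegree_pow_le_of_le e0 hA
        omega) (by
        intro y
        rw [Polynomial.map_pow, eval_pow, eval_pow]
        exact (pow_red _ h.red h2).1)
    rw [← h1, I0]
    refine Finset.sum_congr rfl fun j _ => ?_
    rw [eval_pow, fp_eval, FN]
    push_cast
    ring
  · intro P' R' S'
    have hC := fp_deg l P' R' S' x
    have h1 := core hRSM h.fam (fp P R S x) (C (e : ℤ) * fp P R S x ^ (e - 1) * fp P' R' S' x)
      (C (e : ZMod l) * ((fp P R S x).map (Int.castRingHom (ZMod l))) ^ (e0 - 1) *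
        (fp P' R' S' x).map (Int.castRingHom (ZMod l))) (by
        have h5 := natDegree_pow_le_of_le (e0 - 1) hA
        have h6 := natDegree_C_mul_le (e : ZMod l)
          (((fp P R S x).map (Int.castRingHom (ZMod l))) ^ (e0 - 1))
        have h7 := natDegree_mul_le (p := C (e : ZMod l) *
          ((fp P R S x).map (Int.castRingHom (ZMod l))) ^ (e0 - 1))
          (q := (fp P' R' S' x).map (Int.castRingHom (ZMod l)))
        omega) (by
        intro y
        rw [Polynomial.map_mul, Polynomial.map_mul, Polynomial.map_pow, eval_mul, eval_mul,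
          eval_mul, eval_mul, eval_pow, eval_pow, (pow_red _ h.red h2).2]
        simp)
    rw [← h1, I1]
    refine Finset.sum_congr rfl fun j _ => ?_
    rw [eval_mul, eval_mul, eval_pow, fp_eval, fp_eval, eval_C, F1]
    push_cast
    ring

end TI0X

theorem t_TI0 : Stmt_TI0 := TI0X.main (PSX.t_RSM PSX.t_BLK)

end Pool.Agent.OEG.G
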