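import Pool.Agent.OEG.StG
import Pool.Agent.PSX.RDC
import Pool.Agent.PSX.M_EFZ
import Pool.Agent.PSX.M_NUS
import Pool.Agent.PSX.M_LCH
import Pool.Agent.PSX.M_LCQ

/-!
# Project OEG, module TLQ: for a family of type I the letter only matters modulo `Q`
-/

set_option autoImplicit false

namespace Pool.Agent.OEG.G

open Finset (range)
open Pool.Agent.PSX (Es W sg nu ev Z0 EZ SX I0 I1 TT ED fb evZ)
open Pool.Agent.P4G (Fam QN FN FZ CR)

theorem t_TLQ (hTI0 : Stmt_TI0) : Stmt_TLQ := by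
  intro l q0 n e e0 ψ _ hF he P R S c c' hc
  obtain ⟨t, ht⟩ := hc
  have h1 := PSX.RDCm.Es_shift PSX.t_EFZ (PSX.t_LCQ (PSX.t_LCH PSX.t_NUS)) hF.fam P R S c t
  have h2 : c' = c + (QN l q0 n : ℕ) * t := by rw [← ht]; ring
  have h3 : SX (QN l q0 n) (I0 l q0 n e ψ P R S) = 0 := by
    unfold SX
    refine Finset.sum_eq_zero fun x _ => ?_
    rw [(hTI0 l q0 n e e0 ψ hF he P R S (x : ℤ)).1, mul_zero]
  rw [h2, h1, h3, mul_zero, add_zero]

end Pool.Agent.OEG.G
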