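import Pool.Agent.OEG.StG

/-!
# Project OEG, module TSM: the sum over `l` equidistant edges
-/

set_option autoImplicit false

namespace Pool.Agent.OEG.G

open Finset (range)
open Pool.Agent.PSX (Es W sg nu ev Z0 EZ SX I0 I1 TT ED fb evZ)
open Pool.Agent.P4G (Fam QN FN FZ CR)

/-- `ED` is linear in the direction. -/
theorem ED_smul (l q0 n e : ℕ) (ψ : ℤ → ℤ) [NeZero (QN l q0 n)] (P R S P' S' c t : ℤ) :
    ED l q0 n e ψ P R S (P' * t) 0 (S' * t) c
      = (t : ZMod (l ^ (n + 1))) * ED l q0 n e ψ P R S P' 0 S' c := by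
  unfold ED EZ
  rw [Finset.mul_sum]
  refine Finset.sum_congr rfl fun x _ => ?_
  rw [Finset.mul_sum]
  refine Finset.sum_congr rfl fun y _ => ?_
  have h1 : evZ (P' * t) 0 (S' * t) (x.val : ℤ) (y.val : ℤ)
      = t * evZ P' 0 S' (x.val : ℤ) (y.val : ℤ) := by
    unfold evZ; ring
  beta_reduce
  rw [h1]
  push_cast
  ring

theorem t_TSM (hLCN : PSX.Stmt_LCN) (hPHI : PSX.Stmt_PHI) (hTTV : Stmt_TTV) : Stmt_TSM := by
  intro l q0 n e e0 ψ _ hF h2 hn P R S P' S' c c'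
  have h := hF.fam
  -- one term
  have key : ∀ t : ℕ, Es (FZ l q0 n e ψ) ((P + (q0 * l ^ n : ℕ) * (P' * t) : ℤ) : ZMod (QN l q0 n))
        (R : ZMod (QN l q0 n)) ((S + (q0 * l ^ n : ℕ) * (S' * t) : ℤ) : ZMod (QN l q0 n))
        (c + (q0 * l ^ n : ℕ) * (c' * t))
      = Es (FZ l q0 n e ψ) (P : ZMod (QN l q0 n)) (R : ZMod (QN l q0 n)) (S : ZMod (QN l q0 n)) c
        + ((t : ℕ) : ZMod (l ^ (n + 1))) * (((q0 * l ^ n : ℕ) : ZMod (l ^ (n + 1)))
            * ED l q0 n e ψ P R S P' 0 S' c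
          + (c' : ZMod (l ^ (n + 1))) * SX (QN l q0 n) (TT l n e ψ (q0 * l ^ n) P R S c)) := by
    intro t
    have k1 := hLCN l q0 n e e0 ψ hF n hn (Nat.le_succ n) (by omega)
      (P + (q0 * l ^ n : ℕ) * (P' * t)) R (S + (q0 * l ^ n : ℕ) * (S' * t)) c (c' * t)
    have k2 := hPHI l q0 n e ψ h n (by omega) P R S (P' * t) 0 (S' * t) c
    have k3 : TT l n e ψ (q0 * l ^ n) (P + (q0 * l ^ n : ℕ) * (P' * t)) R
        (S + (q0 * l ^ n : ℕ) * (S' * t)) c = TT l n e ψ (q0 * l ^ n) P R S c := by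
      funext x
      have := (hTTV l q0 n e e0 ψ hF h2 hn P R S (P' * t) 0 (S' * t) c x).2
      rwa [mul_zero, add_zero] at this
    rw [mul_zero, add_zero] at k2
    rw [k1, k2, k3, ED_smul]
    push_cast
    ring
  rw [Finset.sum_congr rfl fun t _ => key t, Finset.sum_add_distrib, Finset.sum_const,
    Finset.card_range, nsmul_eq_mul, ← Finset.sum_mul]
  -- the sum of the `t` is a multiple of `l`
  obtain ⟨k, hk⟩ : ∃ k : ℕ, ∑ t ∈ range l, t = l * k := by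
    have hodd := h.lo
    obtain ⟨k, hk⟩ : ∃ k, l = 2 * k + 1 := ⟨l / 2, by omega⟩
    refine ⟨k, ?_⟩
    have h3 := Finset.sum_range_id_mul_two l
    have h4 : l - 1 = 2 * k := by omega
    rw [h4] at h3
    have h5 : l * (2 * k) = l * k * 2 := by ring
    rw [h5] at h3
    exact Nat.eq_of_mul_eq_mul_right (by norm_num) h3
  have hsum : (∑ t ∈ range l, ((t : ℕ) : ZMod (l ^ (n + 1)))) = (l : ZMod (l ^ (n + 1))) * k := by
    rw [← Nat.cast_sum, hk]
    push_cast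
    ring
  have hN : (l : ZMod (l ^ (n + 1))) * ((q0 * l ^ n : ℕ) : ZMod (l ^ (n + 1))) = 0 := by
    have h6 : (l : ZMod (l ^ (n + 1))) * ((q0 * l ^ n : ℕ) : ZMod (l ^ (n + 1)))
        = (q0 : ZMod (l ^ (n + 1))) * ((l ^ (n + 1) : ℕ) : ZMod (l ^ (n + 1))) := by
      push_cast
      ring
    rw [h6, ZMod.natCast_self, mul_zero]
  have hT : (l : ZMod (l ^ (n + 1))) * SX (QN l q0 n) (TT l n e ψ (q0 * l ^ n) P R S c) = 0 := by
    unfold SX
    rw [Finset.mul_sum]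
    refine Finset.sum_eq_zero fun x _ => ?_
    have h7 := (hTTV l q0 n e e0 ψ hF h2 hn P R S 0 0 0 c (x : ℤ)).1
    calc (l : ZMod (l ^ (n + 1))) * ((((-1) ^ x * (x : ℤ) : ℤ) : ZMod (l ^ (n + 1)))
          * TT l n e ψ (q0 * l ^ n) P R S c (x : ℤ))
        = (((-1) ^ x * (x : ℤ) : ℤ) : ZMod (l ^ (n + 1)))
          * ((l : ZMod (l ^ (n + 1))) * TT l n e ψ (q0 * l ^ n) P R S c (x : ℤ)) := by ring
      _ = 0 := by rw [h7, mul_zero]
  rw [hsum]
  have h8 : (l : ZMod (l ^ (n + 1))) * k * (((q0 * l ^ n : ℕ) : ZMod (l ^ (n + 1)))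
            * ED l q0 n e ψ P R S P' 0 S' c
          + (c' : ZMod (l ^ (n + 1))) * SX (QN l q0 n) (TT l n e ψ (q0 * l ^ n) P R S c))
      = k * ED l q0 n e ψ P R S P' 0 S' c
          * ((l : ZMod (l ^ (n + 1))) * ((q0 * l ^ n : ℕ) : ZMod (l ^ (n + 1))))
        + k * (c' : ZMod (l ^ (n + 1)))
          * ((l : ZMod (l ^ (n + 1))) * SX (QN l q0 n) (TT l n e ψ (q0 * l ^ n) P R S c)) := by
    ring
  rw [h8, hN, hT, mul_zero, mul_zero, add_zero, add_zero]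

end Pool.Agent.OEG.G
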