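import Pool.Agent.OEG.StG
import Pool.Agent.OEG.TI0
import Pool.Agent.PSX.M_PPO
import Pool.Agent.PSX.M_BLK

/-!
# Project OEG, module TTV: block sums of type I
-/

set_option autoImplicit false

namespace Pool.Agent.OEG.G

open Finset (range)
open Pool.Agent.PSX (Es W sg nu ev Z0 EZ SX I0 I1 TT ED fb evZ v3 v5 v7)
open Pool.Agent.P4G (Fam QN FN FZ CR)

namespace TTVX

theorem sq0 {l q0 n : ℕ} (hn : 1 ≤ n) : ((q0 * l ^ n : ℕ) : ZMod (l ^ (n + 1))) ^ 2 = 0 := by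
  rw [← Nat.cast_pow, ZMod.natCast_eq_zero_iff]
  obtain ⟨k, rfl⟩ : ∃ k, n = k + 1 := ⟨n - 1, by omega⟩
  exact ⟨q0 ^ 2 * l ^ k, by ring⟩

theorem l0 {l q0 n : ℕ} :
    (l : ZMod (l ^ (n + 1))) * ((q0 * l ^ n : ℕ) : ZMod (l ^ (n + 1))) = 0 := by
  rw [← Nat.cast_mul, ZMod.natCast_eq_zero_iff]
  exact ⟨q0, by ring⟩

theorem evZ_add (P R S P' R' S' x y N : ℤ) :
    evZ (P + N * P') (R + N * R') (S + N * S') x y = evZ P R S x y + N * evZ P' R' S' x y := by
  unfold evZ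
  ring

end TTVX

open TTVX in
theorem t_TTV : Stmt_TTV := by
  intro l q0 n e e0 ψ hF h2 hn P R S P' R' S' c x
  obtain ⟨hp1, hp2, _, hp4, hp5⟩ := PSX.t_PPO l q0 n e ψ hF.fam
  have hBLK := PSX.t_BLK l q0 n e ψ hF.fam
  have hN2 : ((q0 * l ^ n : ℕ) : ZMod (l ^ (n + 1))) ^ 2 = 0 := sq0 hn
  have hlN : (l : ZMod (l ^ (n + 1))) * ((q0 * l ^ n : ℕ) : ZMod (l ^ (n + 1))) = 0 := l0
  have hq : q0 ∣ q0 * l ^ n := Dvd.intro _ rfl
  have h1 : n + 1 - n = 1 := by omega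
  -- block sums of the function
  have hG0 : (l : ZMod (l ^ (n + 1)))
      * ∑ j ∈ range (q0 * l ^ n), FN l n e ψ (evZ P R S x (c * x + j)) = 0 := by
    have hpol : PSX.Pol l n ψ (fun y => FN l n e ψ (evZ P R S x y)) := by
      have := hp1 P R S x 0 1
      simpa using this
    have h := (hBLK _ hpol).1 n (c * x) hn (by omega)
    rw [h1, pow_one] at h
    rw [h]
    exact (t_TI0 l q0 n e e0 ψ hF h2 P R S x).1
  -- block sums of the derivative
  have hG1 : (l : ZMod (l ^ (n + 1)))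
      * ∑ j ∈ range (q0 * l ^ n), PSX.F1 l n e ψ (evZ P R S x (c * x + j))
        * ((evZ P' R' S' x (c * x + j) : ℤ) : ZMod (l ^ (n + 1))) = 0 := by
    have hpol : PSX.Pol l n ψ (fun y => PSX.F1 l n e ψ (evZ P R S x y)
        * ((evZ P' R' S' x y : ℤ) : ZMod (l ^ (n + 1)))) := by
      have := hp2 P R S x (Polynomial.C (P' * x ^ 2) + Polynomial.C (R' * x) * Polynomial.X
        - Polynomial.C S' * Polynomial.X ^ 2)
      have he : ∀ y : ℤ, (Polynomial.C (P' * x ^ 2) + Polynomial.C (R' * x) * Polynomial.X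
          - Polynomial.C S' * Polynomial.X ^ 2).eval y = evZ P' R' S' x y := by
        intro y
        simp only [Polynomial.eval_sub, Polynomial.eval_add, Polynomial.eval_mul,
          Polynomial.eval_C, Polynomial.eval_X, Polynomial.eval_pow, evZ]
      simp only [he] at this
      exact this
    have h := (hBLK _ hpol).1 n (c * x) hn (by omega)
    rw [h1, pow_one] at h
    rw [h]
    exact (t_TI0 l q0 n e e0 ψ hF h2 P R S x).2 P' R' S'
  have hG2 : ((q0 * l ^ n : ℕ) : ZMod (l ^ (n + 1)))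
      * ∑ j ∈ range (q0 * l ^ n), PSX.F1 l n e ψ (evZ P R S x (c * x + j))
        * ((evZ P' R' S' x (c * x + j) : ℤ) : ZMod (l ^ (n + 1))) = 0 := by
    have hN : ((q0 * l ^ n : ℕ) : ZMod (l ^ (n + 1)))
        = ((q0 * l ^ (n - 1) : ℕ) : ZMod (l ^ (n + 1))) * (l : ZMod (l ^ (n + 1))) := by
      rw [← Nat.cast_mul]
      congr 1
      have : l ^ n = l ^ (n - 1) * l := by
        rw [← pow_succ]
        congr 1
        omega
      rw [this]
      ring
    rw [hN, mul_assoc, hG1, mul_zero]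
  constructor
  · unfold TT
    rw [mul_add, mul_left_comm, hG0, mul_zero, zero_add, ← mul_assoc, hlN, zero_mul]
  · have hT : ∀ u w : ℤ, FN l n e ψ (u + (q0 * l ^ n : ℕ) * w)
        = FN l n e ψ u + ((q0 * l ^ n : ℕ) : ZMod (l ^ (n + 1)))
          * (PSX.F1 l n e ψ u * (w : ZMod (l ^ (n + 1)))) := by
      intro u w
      obtain ⟨t, ht⟩ := hp4 (q0 * l ^ n) hq u w
      rw [ht, hN2, zero_mul, add_zero, mul_comm (w : ZMod (l ^ (n + 1)))]
    have hT1 : ∀ u w : ℤ, ((q0 * l ^ n : ℕ) : ZMod (l ^ (n + 1)))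
          * PSX.F1 l n e ψ (u + (q0 * l ^ n : ℕ) * w)
        = ((q0 * l ^ n : ℕ) : ZMod (l ^ (n + 1))) * PSX.F1 l n e ψ u := by
      intro u w
      obtain ⟨t, ht⟩ := hp5 (q0 * l ^ n) hq u w
      rw [ht, mul_add, ← mul_assoc, ← pow_two, hN2, zero_mul, add_zero]
    unfold TT
    have hs : ∑ j ∈ range (q0 * l ^ n), FN l n e ψ (evZ (P + (q0 * l ^ n : ℕ) * P')
          (R + (q0 * l ^ n : ℕ) * R') (S + (q0 * l ^ n : ℕ) * S') x (c * x + j))
        = ∑ j ∈ range (q0 * l ^ n), FN l n e ψ (evZ P R S x (c * x + j)) := by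
      have : ∀ j ∈ range (q0 * l ^ n), FN l n e ψ (evZ (P + (q0 * l ^ n : ℕ) * P')
          (R + (q0 * l ^ n : ℕ) * R') (S + (q0 * l ^ n : ℕ) * S') x (c * x + j))
          = FN l n e ψ (evZ P R S x (c * x + j)) + ((q0 * l ^ n : ℕ) : ZMod (l ^ (n + 1)))
            * (PSX.F1 l n e ψ (evZ P R S x (c * x + j))
              * ((evZ P' R' S' x (c * x + j) : ℤ) : ZMod (l ^ (n + 1)))) := by
        intro j _
        rw [evZ_add, hT]
      rw [Finset.sum_congr rfl this, Finset.sum_add_distrib, ← Finset.mul_sum, hG2, add_zero]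
    rw [hs]
    congr 1
    rw [evZ_add, ← mul_assoc, hT1]
    set N : ZMod (l ^ (n + 1)) := ((q0 * l ^ n : ℕ) : ZMod (l ^ (n + 1))) with hNdef
    have hc : (((R + (q0 * l ^ n : ℕ) * R') * x - 2 * (S + (q0 * l ^ n : ℕ) * S') * (c * x) : ℤ) :
          ZMod (l ^ (n + 1)))
        = ((R * x - 2 * S * (c * x) : ℤ) : ZMod (l ^ (n + 1)))
          + N * ((R' * x - 2 * S' * (c * x) : ℤ) : ZMod (l ^ (n + 1))) := by
      rw [hNdef]
      push_cast
      ring
    rw [hc, mul_add]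
    have : N * PSX.F1 l n e ψ (evZ P R S x (c * x))
        * (N * ((R' * x - 2 * S' * (c * x) : ℤ) : ZMod (l ^ (n + 1)))) = 0 := by
      have : N * PSX.F1 l n e ψ (evZ P R S x (c * x))
          * (N * ((R' * x - 2 * S' * (c * x) : ℤ) : ZMod (l ^ (n + 1))))
          = N ^ 2 * (PSX.F1 l n e ψ (evZ P R S x (c * x))
            * ((R' * x - 2 * S' * (c * x) : ℤ) : ZMod (l ^ (n + 1)))) := by ring
      rw [this, hN2, zero_mul]
    rw [this, add_zero, mul_assoc]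

end Pool.Agent.OEG.G
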