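import Pool.Agent.PSX.Ghost
import Pool.Agent.OEG.BL2
import Pool.Agent.OEG.BLI
import Pool.Agent.OEG.CQ3
import Pool.Agent.OEG.CR1
import Pool.Agent.OEG.DSG
import Pool.Agent.OEG.DSW
import Pool.Agent.OEG.FAI
import Pool.Agent.OEG.GG1
import Pool.Agent.OEG.GG3
import Pool.Agent.OEG.GG4
import Pool.Agent.OEG.GP1
import Pool.Agent.OEG.GP2
import Pool.Agent.OEG.H12
import Pool.Agent.OEG.H1I
import Pool.Agent.OEG.H22
import Pool.Agent.OEG.H32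
import Pool.Agent.OEG.H3I
import Pool.Agent.OEG.GG2
import Pool.Agent.OEG.EX3
import Pool.Agent.OEG.H2I
import Pool.Agent.OEG.H4R
import Pool.Agent.OEG.KAP
import Pool.Agent.OEG.LNK
import Pool.Agent.OEG.LQL
import Pool.Agent.OEG.LTE
import Pool.Agent.OEG.LV0
import Pool.Agent.OEG.LVL
import Pool.Agent.OEG.NGQ
import Pool.Agent.OEG.NV1
import Pool.Agent.OEG.NV2
import Pool.Agent.OEG.NV4
import Pool.Agent.OEG.RKG
import Pool.Agent.OEG.SHF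
import Pool.Agent.OEG.SYE
import Pool.Agent.OEG.TCY
import Pool.Agent.OEG.TI0
import Pool.Agent.OEG.TLQ
import Pool.Agent.OEG.TSM
import Pool.Agent.OEG.TTV

/-!
# OEG: the four ghosts are impossible (assembly of the ghost modules)
-/

set_option autoImplicit false

namespace Pool.Agent.OEG.G

/-- the statements of PSX used -/
theorem psx_aux : PSX.Stmt_LCN ∧ PSX.Stmt_PHI ∧ PSX.Stmt_CQP ∧ PSX.Stmt_UNI ∧ PSX.Stmt_VAN ∧
    PSX.Stmt_FAM := by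
  have hPPO := PSX.t_PPO
  have hRSM := PSX.t_RSM PSX.t_BLK
  have hDRZ := PSX.t_DRZ hRSM PSX.t_DER
  have hLCH := PSX.t_LCH PSX.t_NUS
  have hLCN := PSX.t_LCN hLCH hPPO PSX.t_BLK hDRZ PSX.t_EFZ
  have hPHI := PSX.t_PHI hPPO PSX.t_EFZ
  have hRED := PSX.t_RED hRSM
  have hCQP := PSX.t_CQP hRED PSX.t_UNI
  have hCQC := PSX.t_CQC PSX.t_UNI
  exact ⟨hLCN, hPHI, hCQP, PSX.t_UNI, PSX.t_VAN hCQC, PSX.t_FAM⟩

/-- the four ghosts are impossible -/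
theorem ghosts : Stmt_GH1 ∧ Stmt_GH2 ∧ Stmt_GH3 ∧ Stmt_GH4 := by
  obtain ⟨hLCN, hPHI, hCQP, hUNI, hVAN, hFAM⟩ := psx_aux
  have hLQL := t_LQL
  have hSYE := t_SYE
  have hTCY := t_TCY hSYE
  have hDSG := t_DSG t_DSW
  have hLVL := t_LVL hDSG
  have hLV0 := t_LV0 hDSG hLVL
  have hTLQ := t_TLQ t_TI0
  have hTSM := t_TSM hLCN hPHI t_TTV
  have hBLI := t_BLI hTLQ hTSM hLVL
  have hBL2 := t_BL2 hLQL hLVL
  have hGP1 := t_GP1 hBLI hLVL hTLQ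
  have hGP2 := t_GP2 hBL2
  have hNV1 := t_NV1 t_LNK
  have hNV2 := t_NV2 t_LNK
  have hNV4 := t_NV4 t_LNK
  have hCR1 := t_CR1 hGP1 hLV0 t_FAI hNV4
  have hNGQ := t_NGQ hSYE
  have hCQ3 := t_CQ3 hCQP hUNI
  have hKAP := t_KAP hLQL hTCY hCQ3 hVAN
  have hH1I := t_H1I hSYE hTLQ hLV0 t_FAI hNV1 hNV2
  have hH12 := t_H12 hSYE hLQL hVAN hFAM
  have hH2I := t_H2I t_LTE hTLQ hTCY hCR1
  have hH4R := t_H4R hSYE hTLQ hTCY
  have hH22 := t_H22 t_LTE hGP2 hKAP t_RKG hFAM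
  have hEX3 := t_EX3 hSYE t_SHF
  have hH3I := t_H3I hEX3 t_LTE hTLQ hTCY hCR1
  have hH32 := t_H32 t_LTE hEX3 hGP2 hLQL hKAP t_RKG hFAM
  exact ⟨t_GG1 hH1I hH12, t_GG2 hNGQ hH2I hH22, t_GG3 hNGQ hH3I hH32, t_GG4 t_LTE hCR1 hH4R⟩

theorem t_GH1 : Stmt_GH1 := ghosts.1

theorem t_GH2 : Stmt_GH2 := ghosts.2.1

theorem t_GH3 : Stmt_GH3 := ghosts.2.2.1

theorem t_GH4 : Stmt_GH4 := ghosts.2.2.2

end Pool.Agent.OEG.G
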