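import Pool.Agent.OEG.NOA
import Pool.Agent.OEG.Gh
import Pool.Agent.OEG.EL1
import Pool.Agent.OEG.EL2

/-! No field belongs to one of the two families. -/

namespace Pool.Agent.OEG

theorem no1 : Stmt_NO1 := t_NO1 t_EL1 G.t_GH1 G.t_GH2 G.t_GH3

theorem no2 : Stmt_NO2 := t_NO2 t_EL2 G.t_GH4

end Pool.Agent.OEG
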