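import Pool.Agent.OEG.RDX
import Pool.Agent.OEX.FIN
import Pool.Agent.OEX.V
import Pool.Agent.OEX.N
import Pool.Agent.OEX.W
import Pool.Agent.OEX.S
import Pool.Agent.OEX.A0
import Pool.Agent.OEX.INERT
import Pool.Agent.OEX.STR
import Pool.Agent.OEX.RAM
import Pool.Agent.OEX.FD
import Pool.Agent.RQM.C16
import Pool.Agent.RQM.C38

/-!
# Project OEG: no exceptional prime above `100000` if the class number is one
-/

set_option autoImplicit false

namespace Pool.Agent.OEG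

open scoped NumberField

namespace FA

lemma d5 {D : ℤ} (hF : OEX.Fd D) (h : ¬ OEX.Sol D 2) : D % 8 = 5 := by
  by_contra hc
  apply h
  have h4 := hF.mod4
  have : D % 8 = 0 ∨ D % 8 = 4 ∨ D % 8 = 1 := by omega
  rcases this with h | h | h
  · exact ⟨0, by push_cast; omega⟩
  · exact ⟨2, by push_cast; omega⟩
  · exact ⟨1, by push_cast; omega⟩

/-- the residue symbol of an inert prime -/
lemma jac {d r : ℕ} (h8 : d % 8 = 5) (hr : r.Prime) (hr2 : r ≠ 2) (h : ¬ OEX.Sol (d : ℤ) r) :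
    jacobiSym d r = -1 := by
  have : Fact r.Prime := ⟨hr⟩
  have hodd : r % 2 = 1 := (hr.eq_two_or_odd).resolve_left hr2
  -- from a root modulo `r` to a root modulo `4 r`
  have key : ∀ x : ℤ, (r : ℤ) ∣ x ^ 2 - d → False := by
    intro x hx
    apply h
    have hx' : ∃ y : ℤ, y % 2 = 1 ∧ (r : ℤ) ∣ y ^ 2 - d := by
      rcases Int.emod_two_eq_zero_or_one x with h0 | h0
      · refine ⟨x + r, by omega, ?_⟩
        have e : (x + r) ^ 2 - (d : ℤ) = (x ^ 2 - d) + r * (2 * x + r) := by ring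
        rw [e]
        exact dvd_add hx (dvd_mul_right _ _)
      · exact ⟨x, h0, hx⟩
    obtain ⟨y, hy, hyr⟩ := hx'
    refine ⟨y, ?_⟩
    have h4 : (4 : ℤ) ∣ y ^ 2 - d := by
      obtain ⟨k, hk⟩ : ∃ k, y = 2 * k + 1 := ⟨y / 2, by omega⟩
      have e : y ^ 2 = 4 * (k * k + k) + 1 := by rw [hk]; ring
      omega
    have hc : IsCoprime (4 : ℤ) (r : ℤ) := by
      have : Nat.Coprime 4 r := by
        have h2 : Nat.Coprime 2 r := (Nat.coprime_primes Nat.prime_two hr).2 (Ne.symm hr2)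
        exact Nat.Coprime.pow_left 2 h2
      exact_mod_cast Nat.isCoprime_iff_coprime.2 this
    exact hc.mul_dvd h4 hyr
  rw [← jacobiSym.legendreSym.to_jacobiSym]
  rcases legendreSym.eq_one_or_neg_one r (a := (d : ℤ)) (by
    intro h0
    have h1 : (r : ℤ) ∣ d := by
      rw [← ZMod.intCast_zmod_eq_zero_iff_dvd]
      exact h0
    exact key 0 (by
      have e : (0 : ℤ) ^ 2 - d = -d := by ring
      rw [e]; exact (dvd_neg).2 h1)) with h1 | h1
  · exfalso
    have h0 : ((d : ℤ) : ZMod r) ≠ 0 := by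
      intro h0
      rw [(legendreSym.eq_zero_iff r (d : ℤ)).2 h0] at h1
      exact absurd h1 (by norm_num)
    obtain ⟨x, hx⟩ := (legendreSym.eq_one_iff r h0).1 h1
    obtain ⟨y, rfl⟩ := ZMod.intCast_surjective x
    apply key y
    rw [← ZMod.intCast_zmod_eq_zero_iff_dvd]
    push_cast
    rw [sub_eq_zero, sq]
    exact_mod_cast hx.symm
  · exact h1

lemma uf {d : ℕ} (hd1 : 1 < d) (hd : Squarefree d) (h8 : d % 8 = 5)
    (hU : UniqueFactorizationMonoid (𝓞 (IntermediateField.adjoin ℚ {Real.sqrt (d : ℝ)}))) :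
    UF d := by
  intro m B hmB
  have hB : B % 2 = 1 := by
    rcases Int.emod_two_eq_zero_or_one B with h0 | h0
    · exfalso
      obtain ⟨k, rfl⟩ : ∃ k, B = 2 * k := ⟨B / 2, by omega⟩
      have e : (2 * k) ^ 2 = 4 * (k * k) := by ring
      rw [e] at hmB
      omega
    · exact h0
  obtain ⟨i1, i2⟩ := Lib_helper5.ufm_order hd hd1 hmB hB hU
  exact ⟨i1, i2⟩

end FA

/-- the exceptional prime is below `100000` -/
theorem no_large (hN1 : Stmt_NO1) (hN2 : Stmt_NO2) (d p : ℕ) (hd1 : 1 < d) (hd : Squarefree d)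
    (hU : UniqueFactorizationMonoid (𝓞 (IntermediateField.adjoin ℚ {Real.sqrt (d : ℝ)})))
    (h5 : 100000 ≤ p) (hp : p.Prime) (h4 : 4 * (p : ℤ) ^ 2 < OEX.disc d)
    (hH : OEX.Hyp (OEX.disc d) p) : False := by
  have hp5 : (100000 : ℤ) ≤ p := by exact_mod_cast h5
  have hbig : (40000000000 : ℤ) < OEX.disc d := by nlinarith
  have hF := OEX.t_FD d hd1 hd
  -- the primes below `100000` are inert
  have hin : ∀ r : ℕ, r.Prime → r < 100000 → ¬ OEX.Sol (OEX.disc d) r := by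
    intro r hr hr5
    refine hH r hr ?_ (by omega)
    have : (r : ℤ) < 100000 := by exact_mod_cast hr5
    have h0 : (0 : ℤ) ≤ r := by positivity
    nlinarith
  have h8' : ((OEX.disc d : ℕ) : ℤ) % 8 = 5 := FA.d5 hF (hin 2 (by norm_num) (by norm_num))
  have hdd : OEX.disc d = d := by
    by_cases hm : d % 4 = 1
    · exact OEX.disc_one hm
    · rw [OEX.disc_ne hm] at h8'
      omega
  rw [hdd] at h8' hF hbig h4 hH hin
  have h8 : d % 8 = 5 := by omega
  have hj : ∀ r : ℕ, r.Prime → r ≠ 2 → r < 100 → jacobiSym d r = -1 :=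
    fun r hr hr2 hr1 => FA.jac h8 hr hr2 (hin r hr (by omega))
  have hUF := FA.uf hd1 hd h8 hU
  have hPp : ∀ (P : ℤ) (g : ℕ), P = (p : ℤ) ^ g → ∀ r : ℕ, r.Prime → r < 100 → ¬ (r : ℤ) ∣ P := by
    intro P g hP r hr hr1 hdv
    rw [hP] at hdv
    have h1 : (r : ℤ) ∣ p := (Nat.prime_iff_prime_int.1 hr).dvd_of_dvd_pow hdv
    have h2 : r ∣ p := Int.natCast_dvd_natCast.1 h1
    have h3 := (Nat.prime_dvd_prime_iff_eq hr hp).1 h2
    omega
  -- fields of Richaud–Degert type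
  have hRD : ∀ m r : ℤ, 0 < m → r ∣ 4 * m → (d : ℤ) = m ^ 2 + r → False := by
    intro m r hm hr hmr
    have hmem : d ∈ {d : ℕ | 1 < d ∧ Squarefree d ∧
        (∃ m r : ℤ, 0 < m ∧ r ∣ 4 * m ∧ (d : ℤ) = m ^ 2 + r) ∧
        UniqueFactorizationMonoid (𝓞 (Pool.Agent.LibH4.KQ d))} := ⟨hd1, hd, ⟨m, r, hm, hr, hmr⟩, hU⟩
    rw [Pool.Agent.RDF.rd_all] at hmem
    have hle : ∀ x ∈ Pool.Agent.RDF.list43, x ≤ 1757 := by decide +kernel
    have := hle d hmem
    omega
  have h100 : (100 : ℤ) < d := by omega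
  rcases OEX.t_STR OEX.t_V OEX.t_N OEX.t_W OEX.t_S OEX.t_A0 OEX.t_RAM d p hF h100 hH with
    h | ⟨_, _, h⟩
  · obtain ⟨⟨N, t, hN, htN, hD⟩, _⟩ := h
    exact hRD N (4 * t) (by omega) (mul_dvd_mul_left 4 htN) hD
  · have hF12 : OEX.F1 d p ∨ OEX.F2 d p → False := by
      intro h12
      rcases t_RDX d p hp h5 h4 h12 with h | ⟨P, l, u, q, b, m, g, hP, hQ⟩ |
        ⟨P, s, l, A, m, g, hP, hQ⟩
      · exact hRD (2 * p) 1 (by omega) (one_dvd _) (by rw [h]; ring)
      · exact hN1 d l u P q b m hUF h8 hj (hPp P g hP) hQ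
      · exact hN2 d s l P A m hUF h8 hj (hPp P g hP) hQ
    rcases h with h | h | ⟨e, he, h | h⟩
    · exact hF12 (Or.inl h)
    · exact hF12 (Or.inr h)
    · refine hRD ((p : ℤ) ^ e) 4 (pow_pos (by omega) _) ⟨(p : ℤ) ^ e, rfl⟩ h
    · refine hRD (2 * (p : ℤ) ^ e) 1 (mul_pos (by norm_num) (pow_pos (by omega) _)) (one_dvd _) ?_
      rw [h]; ring

/-- all primes below `√D / 2`, with at most one exception, are inert -/
def AtMost (d : ℕ) : Prop := ∃ e : ℕ, ∀ p : ℕ, p.Prime →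
  (p : ℝ) < Real.sqrt (OEX.disc d) / 2 → p ≠ e →
  Prime ((p : ℕ) : 𝓞 (IntermediateField.adjoin ℚ {Real.sqrt (d : ℝ)}))

/-- if the class number is one, the exception can be taken below `100000` -/
theorem cond_of (hN1 : Stmt_NO1) (hN2 : Stmt_NO2) (d : ℕ) (hd1 : 1 < d) (hd : Squarefree d)
    (hU : UniqueFactorizationMonoid (𝓞 (IntermediateField.adjoin ℚ {Real.sqrt (d : ℝ)})))
    (h : AtMost d) : OEX.Cond d := by
  obtain ⟨e, he⟩ := h
  by_cases hlt : e < 100000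
  · exact ⟨e, hlt, he⟩
  · push Not at hlt
    refine ⟨0, by norm_num, ?_⟩
    intro p hp hpD _
    by_cases hpe : p = e
    · exfalso
      subst hpe
      refine no_large hN1 hN2 d p hd1 hd hU hlt hp ((OEX.real_iff p _).1 hpD) ?_
      intro r hr h4 hre
      exact (OEX.t_INERT d hd1 hd r hr).1 (he r hr ((OEX.real_iff r _).2 h4) hre)
    · exact he p hp hpD hpe

end Pool.Agent.OEG
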