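import Pool.Agent.OEG.H2I

/-!
# Module H32 (helper4): the third ghost, second order step
-/

set_option autoImplicit false

namespace Pool.Agent.OEG.G

open Finset (range)
open Pool.Agent.PSX (Es W sg nu ev Z0 EZ SX I0 I1 TT ED fb evZ)
open Pool.Agent.P4G (Fam QN FN FZ CR)
open Pool.Agent.Lib_helper5.LK (Fm)

namespace H32M

open H2M

/-- powers of the data -/
lemma powers {R : Type*} [CommRing R] {x y : R} {m : ℕ} (hxy : x * y = 1) (hT : x ^ (m + 2) = 1) :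
    x ^ (m + 1) = y ∧ x ^ m = y ^ 2 := by
  constructor
  · calc x ^ (m + 1) = x ^ (m + 2) * y - x ^ (m + 1) * (x * y - 1) := by ring
      _ = y := by rw [hT, hxy]; ring
  · calc x ^ m = x ^ (m + 2) * y ^ 2 - x ^ m * (x * y - 1) * (x * y + 1) := by ring
      _ = y ^ 2 := by rw [hT, hxy]; ring

/-- the third letter -/
lemma letter {R : Type*} [CommRing R] {x y q b u κ Q : R} {m : ℕ} (hxy : x * y = 1)
    (hT : x ^ (m + 2) = 1) (hq : q = x + Q * κ) (hqb : q * b = u * x + 1) (hu : u * u = 1)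
    (hQ : Q * Q = 0) : u * (q * x ^ m - b) = -1 + Q * (u * (κ * y) * (2 * y + u)) := by
  have hxm := (powers hxy hT).2
  have hinv : q * (y * (1 - Q * κ * y)) = 1 := by
    rw [hq]
    linear_combination (1 - Q * κ * y) * hxy - (κ * y) ^ 2 * hQ
  have hb : b = (y * (1 - Q * κ * y)) * (u * x + 1) := by
    linear_combination (-b) * hinv + (y * (1 - Q * κ * y)) * hqb
  rw [hb, hq, hxm]
  linear_combination (u * y - u ^ 2 * (1 - Q * κ * y)) * hxy - hu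

/-- the step in one family -/
theorem fam_step (hEX3 : Stmt_EX3) (hGP2 : Stmt_GP2) (hLQL : Stmt_LQL) (hKAP : Stmt_KAP)
    {q0 n e e0 : ℕ} {ψ : ℤ → ℤ} [NeZero (QN 13 q0 n)] (hFm : PSX.Fm 13 q0 n e e0 ψ)
    {u p q b pb κ : ℤ} {m : ℕ} (hu : OEX.Sg u) (hqb : q * b = u * p + 1)
    (hCR : ¬ (13 : ℤ) ∣ CR 13 q0 e ψ (1 + 4 * u * pb))
    (hpb : ((QN 13 q0 n * 13 : ℕ) : ℤ) ∣ p * pb - 1) (hp12 : ((q0 * 13 : ℕ) : ℤ) ∣ p ^ 12 - 1)
    (hpT : ((QN 13 q0 n * 13 : ℕ) : ℤ) ∣ p ^ (m + 2) - 1) (hκ : q = p + (QN 13 q0 n : ℕ) * κ)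
    (hT : 13 ^ (n + 1) ∣ m + 2) (hcop : IsCoprime pb ((q0 * 13 : ℕ) : ℤ))
    (hrel : EJ (FZ 13 q0 n e ψ) (J1 (-1) u p q b m) = 0) :
    ((κ * pb : ℤ) : ZMod 13) * (2 + (2 * pb + u) * fb e ψ pb) = 0 := by
  have hQM : ((QN 13 q0 n : ℕ) : ℤ) ∣ ((QN 13 q0 n * 13 : ℕ) : ℤ) := by
    push_cast; exact dvd_mul_right _ _
  have hqQ : ((q0 * 13 : ℕ) : ℤ) ∣ ((QN 13 q0 n : ℕ) : ℤ) := by
    unfold QN
    refine ⟨((13 ^ n : ℕ) : ℤ), ?_⟩
    push_cast
    ring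
  have huu := H1M.sq_one hu
  -- residues modulo `Q`
  have hxy : (p : ZMod (QN 13 q0 n)) * pb = 1 := by
    have := cast_one (hQM.trans hpb)
    push_cast at this
    exact this
  have hxT : (p : ZMod (QN 13 q0 n)) ^ (m + 2) = 1 := by
    have := cast_one (hQM.trans hpT)
    push_cast at this
    exact this
  obtain ⟨hx1, hx0⟩ := powers hxy hxT
  have hqx : (q : ZMod (QN 13 q0 n)) = p := by
    rw [hκ]; push_cast; rw [ZMod.natCast_self]; ring
  have huQ : (u : ZMod (QN 13 q0 n)) * u = 1 := by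
    have := congrArg (Int.cast : ℤ → ZMod (QN 13 q0 n)) huu
    push_cast at this
    exact this
  have hbx : (b : ZMod (QN 13 q0 n)) = u + pb := by
    have := congrArg (Int.cast : ℤ → ZMod (QN 13 q0 n)) hqb
    push_cast at this
    rw [hqx] at this
    linear_combination (pb : ZMod (QN 13 q0 n)) * this - (b - u : ZMod (QN 13 q0 n)) * hxy
  have hN : ((q * p ^ m + b : ℤ) : ZMod (QN 13 q0 n)) = ((2 * pb + u : ℤ) : ZMod (QN 13 q0 n)) := by
    push_cast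
    rw [hqx, hbx]
    linear_combination hx1
  have hN' : ((q * p ^ m - b : ℤ) : ZMod (QN 13 q0 n)) = ((-u : ℤ) : ZMod (QN 13 q0 n)) := by
    push_cast
    rw [hqx, hbx]
    linear_combination hx1
  have lq := fun (P R S c c' : ℤ) (h : ((QN 13 q0 n * 13 : ℕ) : ℤ) ∣ c' - c) =>
    (hLQL 13 q0 n e e0 ψ hFm P R S c).1 c' h
  have h1 := hEX3 q0 n e e0 ψ hFm u p q b pb (u * q * pb) m hu hqb (hQM.trans hpb)
  rw [hrel, hN, hN'] at h1
  -- first sum
  have a1 : ∀ j ∈ range (m + 2), Es (FZ 13 q0 n e ψ) ((p ^ j : ℤ) : ZMod (QN 13 q0 n))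
      ((2 * pb + u : ℤ) : ZMod (QN 13 q0 n)) ((-(p ^ m * pb ^ j) : ℤ) : ZMod (QN 13 q0 n))
      (-(q * p ^ j)) = Ge q0 n e ψ pb (2 * pb + u) (-pb) (-(q * pb)) p pb (1 + j) := by
    intro j _
    unfold Ge
    have e1 : ((p ^ j : ℤ) : ZMod (QN 13 q0 n)) = ((pb * p ^ (1 + j) : ℤ) : ZMod (QN 13 q0 n)) := by
      push_cast
      rw [pow_add]
      linear_combination (-(p : ZMod (QN 13 q0 n)) ^ j) * hxy
    have e2 : ((-(p ^ m * pb ^ j) : ℤ) : ZMod (QN 13 q0 n)) =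
        ((-pb * pb ^ (1 + j) : ℤ) : ZMod (QN 13 q0 n)) := by
      push_cast
      rw [hx0]
      ring
    rw [e1, e2]
    apply lq
    refine (hpb.mul_left (q * p ^ j)).trans (dvd_of_eq ?_)
    rw [pow_add]
    ring
  have a2 : ∀ j ∈ range (m + 1), Es (FZ 13 q0 n e ψ) ((p ^ (j + 1) : ℤ) : ZMod (QN 13 q0 n))
      ((-u : ℤ) : ZMod (QN 13 q0 n)) ((u * (p ^ (m + 1) * pb ^ (j + 1)) : ℤ) : ZMod (QN 13 q0 n))
      (u * q * p ^ j) = Ge q0 n e ψ 1 (-u) (u * pb) (u * q * pb) p pb (0 + (j + 1)) := by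
    intro j _
    unfold Ge
    rw [Nat.zero_add]
    have e1 : ((p ^ (j + 1) : ℤ) : ZMod (QN 13 q0 n)) =
        ((1 * p ^ (j + 1) : ℤ) : ZMod (QN 13 q0 n)) := by rw [one_mul]
    have e2 : ((u * (p ^ (m + 1) * pb ^ (j + 1)) : ℤ) : ZMod (QN 13 q0 n)) =
        ((u * pb * pb ^ (j + 1) : ℤ) : ZMod (QN 13 q0 n)) := by
      push_cast
      rw [hx1]
      ring
    rw [e1, e2]
    apply lq
    refine (hpb.mul_left (-(u * q * p ^ j))).trans (dvd_of_eq ?_)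
    ring
  have e3 : ((u * p ^ (m + 1) : ℤ) : ZMod (QN 13 q0 n)) = ((u * pb : ℤ) : ZMod (QN 13 q0 n)) := by
    push_cast
    rw [hx1]
  have e4 : ((p ^ (m + 1) : ℤ) : ZMod (QN 13 q0 n)) = ((pb : ℤ) : ZMod (QN 13 q0 n)) := by
    push_cast
    exact hx1
  have a3 : Es (FZ 13 q0 n e ψ) ((1 : ℤ) : ZMod (QN 13 q0 n)) ((-u : ℤ) : ZMod (QN 13 q0 n))
      ((u * pb : ℤ) : ZMod (QN 13 q0 n)) (u * q * pb) =
      Ge q0 n e ψ 1 (-u) (u * pb) (u * q * pb) p pb (0 + 0) := by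
    show _ = Ge q0 n e ψ 1 (-u) (u * pb) (u * q * pb) p pb 0
    unfold Ge
    rw [pow_zero, pow_zero, mul_one, mul_one, mul_one]
  rw [Finset.sum_congr rfl a1, Finset.sum_congr rfl a2, e3, e4] at h1
  have s1 := hGP2 q0 n e e0 ψ hFm pb (2 * pb + u) (-pb) (-(q * pb)) p pb 1 (m + 2)
    (hQM.trans hpb) hp12 ((hqQ.trans hQM).trans hpT) hT
  have s2 := hGP2 q0 n e e0 ψ hFm 1 (-u) (u * pb) (u * q * pb) p pb 0 (m + 2)
    (hQM.trans hpb) hp12 ((hqQ.trans hQM).trans hpT) hT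
  rw [show m + 2 = (m + 1) + 1 from rfl, Finset.sum_range_succ', ← a3] at s2
  rw [s1] at h1
  have h2 : Es (FZ 13 q0 n e ψ) ((1 : ℤ) : ZMod (QN 13 q0 n)) ((-u : ℤ) : ZMod (QN 13 q0 n))
        ((u * pb : ℤ) : ZMod (QN 13 q0 n)) (u * q * pb)
      + Es (FZ 13 q0 n e ψ) ((pb : ℤ) : ZMod (QN 13 q0 n)) ((-u : ℤ) : ZMod (QN 13 q0 n))
        ((u : ℤ) : ZMod (QN 13 q0 n)) (u * (q * p ^ m - b))
      + Es (FZ 13 q0 n e ψ) ((pb : ℤ) : ZMod (QN 13 q0 n)) ((2 * pb + u : ℤ) : ZMod (QN 13 q0 n))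
        ((-pb : ℤ) : ZMod (QN 13 q0 n)) (-(q * p ^ (m + 1))) = 0 := by
    linear_combination h1 + s2
  refine hKAP q0 n e e0 ψ hFm pb u (κ * pb) _ _ _ hu hcop hCR ?_ ?_ ?_ h2
  · refine (hpb.mul_left u).trans (dvd_of_eq ?_)
    rw [hκ]
    ring
  · -- modulo `13 Q`
    have hne : NeZero (QN 13 q0 n * 13) := ⟨mul_ne_zero (NeZero.ne _) (by norm_num)⟩
    apply dvd_of_cast
    have hQe : (((QN 13 q0 n : ℕ) : ℤ) : ZMod (QN 13 q0 n * 13)) *
        (((QN 13 q0 n : ℕ) : ℤ) : ZMod (QN 13 q0 n * 13)) = 0 := by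
      rw [← Int.cast_mul, ZMod.intCast_zmod_eq_zero_iff_dvd]
      refine ⟨((q0 * 13 ^ n : ℕ) : ℤ), ?_⟩
      unfold QN
      push_cast
      ring
    have k1 : (p : ZMod (QN 13 q0 n * 13)) * pb = 1 := by
      have := cast_one hpb
      push_cast at this
      exact this
    have k2 : (p : ZMod (QN 13 q0 n * 13)) ^ (m + 2) = 1 := by
      have := cast_one hpT
      push_cast at this
      exact this
    have k3 := congrArg (Int.cast : ℤ → ZMod (QN 13 q0 n * 13)) hκ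
    have k4 := congrArg (Int.cast : ℤ → ZMod (QN 13 q0 n * 13)) hqb
    have k5 := congrArg (Int.cast : ℤ → ZMod (QN 13 q0 n * 13)) huu
    push_cast at k3 k4 k5 hQe ⊢
    exact letter k1 k2 k3 k4 k5 hQe
  · have h3 : ((QN 13 q0 n * 13 : ℕ) : ℤ) ∣ p ^ (m + 1) - pb := by
      have := dvd_sub (hpT.mul_left pb) (hpb.mul_left (p ^ (m + 1)))
      refine this.trans (dvd_of_eq ?_)
      ring
    have h4 := dvd_sub (hpT.mul_left (-1)) (h3.mul_left ((QN 13 q0 n : ℕ) * κ))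
    refine h4.trans (dvd_of_eq ?_)
    rw [hκ]
    ring

end H32M

open H2M in
/-- **H32** -/
theorem t_H32 (hLTE : Stmt_LTE) (hEX3 : Stmt_EX3) (hGP2 : Stmt_GP2) (hLQL : Stmt_LQL)
    (hKAP : Stmt_KAP) (hRKG : Stmt_RKG) (hFAM : PSX.Stmt_FAM) : Stmt_H32 := by
  intro D u p q b m n hP hN hR hcop hpT hq hT
  obtain ⟨pb, hpb⟩ := exists_pb hcop (n + 2)
  have hpT2 : (105 * 13 ^ (n + 2) : ℤ) ∣ p ^ (m + 2) - 1 := by
    have := hLTE 105 p (n + 1) (m + 2) (by norm_num) hT (by exact_mod_cast hpT)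
    exact_mod_cast this
  obtain ⟨κ0, hκ0⟩ := hq
  have hqb : q * b = u * p + 1 := by have := hP.qb; linarith
  have huu := H1M.sq_one hP.u1
  have hcpb : IsCoprime pb 1365 := by
    have h1365 : (1365 : ℤ) ∣ 105 * 13 ^ (n + 2) := ⟨13 ^ (n + 1), by rw [pow_succ]; ring⟩
    obtain ⟨k, hk⟩ := h1365.trans hpb
    exact ⟨p, -k, by linear_combination hk⟩
  -- the discriminant
  have hNr : PSX.Nr (1 + 4 * u * pb) := by
    have key : ∀ r : ℕ, [NeZero r] → (r : ℤ) ∣ 1365 → (D : ZMod r) =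
        ((1 + 4 * u * pb : ℤ) : ZMod r) := by
      intro r _ hr
      have hr1 : (r : ℤ) ∣ 105 * 13 ^ (n + 1) :=
        hr.trans ⟨13 ^ n, by rw [pow_succ]; ring⟩
      have hr2 : (r : ℤ) ∣ 105 * 13 ^ (n + 2) :=
        hr.trans ⟨13 ^ (n + 1), by rw [pow_succ]; ring⟩
      have k1 : (p : ZMod r) * pb = 1 := by
        have := cast_one (hr2.trans hpb)
        push_cast at this
        exact this
      have k2 : (p : ZMod r) ^ (m + 2) = 1 := by
        have := cast_one (hr2.trans hpT2)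
        push_cast at this
        exact this
      have k3 : (q : ZMod r) = p := by
        have h1 : (r : ℤ) ∣ q - p := hr1.trans ⟨κ0, hκ0⟩
        exact cast_zero h1
      have k4 := congrArg (Int.cast : ℤ → ZMod r) hqb
      have k5 := congrArg (Int.cast : ℤ → ZMod r) huu
      obtain ⟨x1, x0⟩ := H32M.powers k1 k2
      push_cast at k4 k5
      rw [k3] at k4
      have k6 : (b : ZMod r) = u + pb := by
        linear_combination (pb : ZMod r) * k4 - (b - u : ZMod r) * k1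
      rw [hP.D1]
      push_cast
      rw [k3, k6, x0]
      linear_combination ((pb : ZMod r) * (p * pb ^ 2 + 3 * pb + 2 * u)) * k1 + k5
    have h := hN.nr
    refine ⟨?_, ?_, ?_, ?_⟩
    · have : NeZero 3 := ⟨by norm_num⟩
      rw [← key 3 (by norm_num)]; exact h.h3
    · have : NeZero 5 := ⟨by norm_num⟩
      rw [← key 5 (by norm_num)]; exact h.h5
    · have : NeZero 7 := ⟨by norm_num⟩
      rw [← key 7 (by norm_num)]; exact h.h7
    · have : NeZero 13 := ⟨by norm_num⟩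
      rw [← key 13 (by norm_num)]; exact h.h13
  -- the two families
  obtain ⟨e1, ψ1, hF1, -, hfb1, hCR1⟩ := hFAM.1 n
  obtain ⟨e2, ψ2, hF2, -, hfb2, hCR2⟩ := hFAM.2.1 n
  have hn1 : NeZero (QN 13 15 n) := hF1.fam.ne
  have hn2 : NeZero (QN 13 35 n) := hF2.fam.ne
  have dv : ∀ (r s : ℕ) (x : ℤ), r * s = 105 → (105 * 13 ^ (n + 2) : ℤ) ∣ x →
      ((QN 13 r n * 13 : ℕ) : ℤ) ∣ x := by
    intro r s x hrs hx
    refine dvd_trans ⟨(s : ℤ), ?_⟩ hx
    have : (105 : ℤ) = r * s := by exact_mod_cast hrs.symm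
    unfold QN
    push_cast
    rw [this]
    ring
  have h12 := pow12 hcop
  have r1 := H32M.fam_step hEX3 hGP2 hLQL hKAP hF1 hP.u1 hqb (hCR1 _ hNr) (dv 15 7 _ (by norm_num) hpb)
    (dvd_trans (by norm_num) h12) (dv 15 7 _ (by norm_num) hpT2) (κ := 7 * κ0)
    (by
      unfold QN
      push_cast
      linear_combination hκ0) hT
    (hcpb.of_isCoprime_of_dvd_right (by norm_num)) (hR 15 n e1 11 ψ1 (by unfold Q0; norm_num) hF1)
  have r2 := H32M.fam_step hEX3 hGP2 hLQL hKAP hF2 hP.u1 hqb (hCR2 _ hNr) (dv 35 3 _ (by norm_num) hpb)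
    (dvd_trans (by norm_num) h12) (dv 35 3 _ (by norm_num) hpT2) (κ := 3 * κ0)
    (by
      unfold QN
      push_cast
      linear_combination hκ0) hT
    (hcpb.of_isCoprime_of_dvd_right (by norm_num)) (hR 35 n e2 8 ψ2 (by unfold Q0; norm_num) hF2)
  rw [hfb1] at r1
  rw [hfb2] at r2
  have c1 : ((κ0 * pb : ℤ) : ZMod 13) * (2 + (2 * pb + u) * PSX.χ0 pb) = 0 := by
    have h0 : (2 : ZMod 13) * 7 = 1 := by decide
    push_cast at r1 ⊢
    linear_combination 2 * r1 - (κ0 * pb * (2 + (2 * pb + u) * PSX.χ0 pb) : ZMod 13) * h0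
  have c2 : ((κ0 * pb : ℤ) : ZMod 13) * (2 + (2 * pb + u) * PSX.χ3 pb) = 0 := by
    have h0 : (9 : ZMod 13) * 3 = 1 := by decide
    push_cast at r2 ⊢
    linear_combination 9 * r2 - (κ0 * pb * (2 + (2 * pb + u) * PSX.χ3 pb) : ZMod 13) * h0
  have h13 := hRKG pb u (κ0 * pb) hP.u1 hNr c1 c2
  have hp13 : Prime (13 : ℤ) := Int.prime_iff_natAbs_prime.2 (by norm_num)
  have hnd : ¬ (13 : ℤ) ∣ pb := by
    intro h
    have := (hcpb.isUnit_of_dvd' h (by norm_num : (13 : ℤ) ∣ 1365))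
    rw [Int.isUnit_iff] at this
    omega
  obtain ⟨κ1, hκ1⟩ := (hp13.dvd_or_dvd h13).resolve_right hnd
  exact ⟨κ1, by rw [hκ0, hκ1]; ring⟩

end Pool.Agent.OEG.G
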