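import Pool.Agent.OEG.Defs
import Pool.Agent.PSX.OdSys
import Pool.Agent.RQM.C44

/-!
Module OSY: the relations of the tables from the cone identity (with an unknown integer `j`).
-/

set_option autoImplicit false

namespace Pool.Agent.OEG.OSY

open Finset Pool.Agent.LibH4 Pool.Agent.LibH4.Ker Pool.Agent.LibH4.T6 Pool.Agent.LibH4.KF
open Pool.Agent.Lib_helper5 Pool.Agent.Lib_helper5.LK Pool.Agent.Lib_helper5.TB
open Pool.Agent.Lib_helper5.K5 (In)

lemma cast_map_sum {α : Type} {N : ℕ} (f : α → ℤ) (L : List α) :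
    (((L.map f).sum : ℤ) : ZMod N) = (L.map fun x => ((f x : ℤ) : ZMod N)).sum := by
  rw [Int.cast_list_sum, List.map_map]
  rfl

/-- the relation modulo `N` -/
theorem rel_of {d : ℕ} (h8 : d % 8 = 5) {J : List Fm} (hκ : ∀ j ∈ J, j.κ = 3) {z : ℤ}
    (q N : ℕ) (hq : 0 < q) (hcop : Nat.Coprime q d) (hN2 : N % 2 = 1) (hNd : Nat.Coprime d N)
    [NeZero q]
    (hid : ∀ f : ℤ → ℤ, (∀ x, f (x + q) = f x) → (∀ x, f (-x) = - f x) →
      (d : ℤ) * (4 * LJ q f J) = 3 * z * RZ q d f)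
    (χ : ZMod q → ZMod N)
    (hodd : ∀ x, χ (-x) = - χ x) (hmul : ∀ x y, χ (x * y) = χ x * χ y)
    (hsum : ∀ z : ZMod N,
      3 * ((∑ u ∈ range q, (u : ZMod N) * χ (u : ZMod q)) * ((q : ZMod N) * z)) = 0) :
    LK.Rel N χ J := by
  have hint := hid (NN.lift χ) (fun x => by simp only [NN.lift_per χ])
    (fun x => by simp only [NN.lift_odd χ hN2 hodd])
  have hzmod := congrArg (Int.cast : ℤ → ZMod N) hint
  have hR : 3 * (RZ q d (NN.lift χ) : ZMod N) = 0 := by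
    have e : (RZ q d (NN.lift χ) : ZMod N) = (∑ r ∈ range q, χ (r : ZMod q) * (bZ q r : ZMod N)) *
        (∑ s ∈ range (q * d), χ (s : ZMod q) * (jacobiSym s d : ZMod N) * (bZ (q * d) s : ZMod N)) := by
      unfold RZ
      push_cast
      rw [Finset.sum_mul_sum]
      apply Finset.sum_congr rfl
      intro r _
      apply Finset.sum_congr rfl
      intro s _
      rw [NN.lift_cast]
      push_cast
      rw [hmul]
      ring
    obtain ⟨z, hz⟩ := NN.sum_two χ hq h8 hcop hN2 hodd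
    rw [e, NN.sum_chi_bZ χ hq hN2 hodd, hz]
    have := hsum z
    linear_combination (-2) * this
  have hzero : (d : ZMod N) * (2 * (2 * ((LJ q (NN.lift χ) J : ℤ) : ZMod N))) = 0 := by
    push_cast at hzmod
    linear_combination hzmod + (z : ZMod N) * hR
  have hdu : IsUnit (d : ZMod N) := by
    have := (ZMod.unitOfCoprime d hNd).isUnit
    simpa using this
  have h1 := NN.two_cancel hN2 (NN.two_cancel hN2 ((hdu.mul_right_eq_zero).1 hzero))
  unfold LK.Rel
  rw [← h1]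
  unfold LJ
  rw [cast_map_sum]
  congr 1
  apply List.map_congr_left
  intro j hj
  have e := range_term χ j.P j.R (-j.S) (-(j.α : ZMod N))
  rw [neg_neg] at e
  rw [hκ j hj]
  have e2 : (((3 : ℕ) : ZMod N) * KF.XX χ j.P j.R j.S + (j.α : ZMod N) * KF.YX χ j.P j.R j.S) =
      3 * KF.XX χ j.P j.R j.S - -(j.α : ZMod N) * KF.YX χ j.P j.R j.S := by push_cast; ring
  rw [e2, ← e]
  unfold XZ Pool.Agent.Lib_helper5.YX
  push_cast
  simp only [Finset.mul_sum]
  rw [← Finset.sum_add_distrib]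
  apply Finset.sum_congr rfl
  intro r _
  rw [← Finset.sum_add_distrib]
  apply Finset.sum_congr rfl
  intro s _
  rw [NN.lift_cast]
  push_cast
  ring

/-- **OSY**, with the multiple `z` -/
theorem osys (d : ℕ) (J : List Fm) (h8 : d % 8 = 5) {z : ℤ}
    (hid : ∀ q : ℕ, 0 < q → Nat.Coprime q d → ∀ f : ℤ → ℤ, (∀ x, f (x + q) = f x) →
      (∀ x, f (-x) = - f x) → (d : ℤ) * (4 * LJ q f J) = 3 * z * RZ q d f)
    (hJ : ∀ j ∈ J, j.κ = 3 ∧ j.R ^ 2 - 4 * j.P * j.S = d) (Q : ℕ)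
    (hin : ∀ p : ℕ, p.Prime → p ≠ 2 → p ∣ Q → jacobiSym d p = -1) : PSX.Ev.OSys Q d J := by
  have cop : ∀ p : ℕ, p.Prime → p ∣ Q → ¬ p ∣ d := by
    intro p hp hpQ hdvd
    rcases eq_or_ne p 2 with rfl | hp2
    · omega
    have h1 := hin p hp hp2 hpQ
    have h2 : jacobiSym (d : ℤ) p ≠ 0 := by rw [h1]; norm_num
    apply h2
    have : Fact p.Prime := ⟨hp⟩
    rw [← jacobiSym.legendreSym.to_jacobiSym, legendreSym.eq_zero_iff]
    have : ((d : ℕ) : ZMod p) = 0 := by rw [ZMod.natCast_eq_zero_iff]; exact hdvd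
    exact_mod_cast this
  have hcopP : Nat.Coprime d (Q ^ 6) := by
    apply Nat.Coprime.pow_right
    by_contra hc
    obtain ⟨p, hp, h1, h2⟩ := Nat.Prime.not_coprime_iff_dvd.1 hc
    exact cop p hp h2 h1
  refine ⟨fun j hj => (hJ j hj).2, by omega, ?_, ?_⟩
  · intro p hp hp2 hpQ
    have h1 := hin p hp hp2 hpQ
    have : Fact p.Prime := ⟨hp⟩
    have h2 : ((jacobiSym d p : ℤ) : ZMod p) = (d : ZMod p) ^ (p / 2) := by
      rw [← jacobiSym.legendreSym.to_jacobiSym, legendreSym.eq_pow]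
      push_cast
      rfl
    have h3 : ((rs p (d : ℤ) : ℕ) : ZMod p) = (d : ZMod p) := by
      rw [rs_cast]
      push_cast
      rfl
    have h5 : (((rs p (d : ℤ)) ^ (p / 2) : ℕ) : ZMod p) = ((p - 1 : ℕ) : ZMod p) := by
      rw [Nat.cast_pow, h3, ← h2, h1, K5.cast_pred]
      push_cast
      rfl
    have h6 := (ZMod.natCast_eq_natCast_iff' _ _ p).1 h5
    have hp1 := hp.two_le
    rw [Nat.mod_eq_of_lt (show p - 1 < p by omega)] at h6
    have h7 : Nat.mod (Nat.pow (rs p (d : ℤ)) (p / 2)) p = p - 1 := h6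
    unfold K5.In
    rw [h7]
    exact Nat.beq_refl _
  · intro n1 n2 n3 N T1 T2 T3 _ _ _ _ _ h1 h2 h3 h4 hN2 h5
    have hNQ : N ∣ Q ^ 6 := (Dvd.intro_left _ rfl).trans h5
    have hqQ : n1 * n2 * n3 ∣ Q ^ 6 := (Dvd.intro _ rfl).trans h5
    have hN : 0 < N := by omega
    obtain ⟨ho, hs⟩ := K4.relOk_spec hN h1 h2 h3 h4
    have hdq : Nat.Coprime (n1 * n2 * n3) d := (Nat.Coprime.coprime_dvd_right hqQ hcopP).symm
    have hdN : Nat.Coprime d N := Nat.Coprime.coprime_dvd_right hNQ hcopP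
    have hc := tri_char (n1 := n1) (n2 := n2) (n3 := n3) (tabCk_char h2) (tabCk_char h3)
      (tabCk_char h4)
    have hq0 : 0 < n1 * n2 * n3 := Nat.pos_of_ne_zero (NeZero.ne _)
    exact rel_of h8 (fun j hj => (hJ j hj).1) (n1 * n2 * n3) N hq0 hdq hN2 hdN
      (hid _ hq0 hdq) _ ho hc.mul (by
        intro z
        linear_combination (3 * z) * hs)

end Pool.Agent.OEG.OSY
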