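import Pool.Agent.OEG.CI12
import Pool.Agent.OEG.RL2

/-!
The relations of the families from the cone identities with an unknown integer factor.
-/

set_option autoImplicit false

namespace Pool.Agent.OEG

open Finset (range)
open Pool.Agent.PSX (Es XA YA sm Z0 sg ev)
open Pool.Agent.P4G (Fam QN FN FZ)
open Pool.Agent.Lib_helper5.LK (Fm)
open Pool.Agent.Lib_helper5 (XZ YX RZ)
open Pool.Agent.RDF (β γ δ)

namespace RL2M

/-- the relations of a list of terms whose telescoping sums cancel -/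
lemma rel_of_bal_j {d : ℕ} (h8 : d % 8 = 5) {J : List Fm} (hJ : ∀ j ∈ J, j.κ = 3) (hCI : CIj d J)
    (hbal : ∀ (Q : ℕ) [NeZero Q], Q % 2 = 1 → ∀ f : ZMod Q → ℤ, (∀ z, f (-z) = - f z) →
      (J.map (fun j => Vi f j.P j.R (-j.S))).sum
        = (J.map (fun j => Vn f j.P j.R (-j.S) (-j.α))).sum)
    {Q0 : ℕ} (hcop : Nat.Coprime (Q0 * 13) d) : RelJ Q0 J := by
  obtain ⟨k, hk⟩ := hCI
  intro q0 n e e0 ψ _ hq0 hFm
  have h := hFm.fam
  obtain ⟨f, hper, hodd, hf⟩ := P4G.exists_lift h.Modd (FN 13 n e ψ) h.FN_per h.FN_neg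
  have hQo := h.Qodd
  have hc13 : Nat.Coprime 13 d := Nat.Coprime.coprime_dvd_left (Dvd.intro_left Q0 rfl) hcop
  have hcq : Nat.Coprime q0 d :=
    Nat.Coprime.coprime_dvd_left (hq0.trans (Dvd.intro 13 rfl)) hcop
  have hcQ : Nat.Coprime (QN 13 q0 n) d := by
    unfold QN
    exact Nat.Coprime.mul_left hcq (Nat.Coprime.pow_left _ hc13)
  have hg : ∀ x : ℤ, (fun x => 4 * f (4 * x) - f x) (x + (QN 13 q0 n : ℕ))
      = (fun x => 4 * f (4 * x) - f x) x := by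
    intro x
    have h1 : f (4 * (x + (QN 13 q0 n : ℕ))) = f (4 * x) := by
      rw [mul_add]
      exact RDF.per_mulZ hper (4 * x) 4
    simp only
    rw [h1, hper]
  have hgo : ∀ x : ℤ, (fun x => 4 * f (4 * x) - f x) (-x) = - (fun x => 4 * f (4 * x) - f x) x := by
    intro x
    simp only
    rw [mul_neg, hodd, hodd]
    ring
  have h1 := hk (QN 13 q0 n) (Nat.pos_of_ne_zero (NeZero.ne _)) hcQ
    (fun x => 4 * f (4 * x) - f x) hg hgo
  rw [RDF.RZ_smooth f hQo h8 hper hodd, LJ_eq hQo hper hodd J hJ,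
    hbal _ hQo _ (RDF.fz_neg hper hodd), sub_self, mul_zero, zero_add] at h1
  have hd0 : (d : ℤ) ≠ 0 := by
    have : 0 < d := by omega
    exact_mod_cast this.ne'
  have hQ : (12 * (d : ℤ) * (QN 13 q0 n : ℤ) ^ 2) ≠ 0 := by
    have : (QN 13 q0 n : ℤ) ≠ 0 := by exact_mod_cast (NeZero.ne (QN 13 q0 n))
    positivity
  have h2 : EJ (RDF.fz (QN 13 q0 n) f) J
      - (J.map (fun j => (-j.α) * Z0 (RDF.fz (QN 13 q0 n) f) ((-j.S : ℤ) : ZMod (QN 13 q0 n)))).sum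
      = k * RDF.HH (QN 13 q0 n) d (fun x => f (4 * x)) := by
    refine mul_left_cancel₀ hQ ?_
    linear_combination h1
  have h3 := congrArg (Int.cast : ℤ → ZMod (13 ^ (n + 1))) h2
  have hz : ((((J.map (fun j => (-j.α) * Z0 (RDF.fz (QN 13 q0 n) f)
      ((-j.S : ℤ) : ZMod (QN 13 q0 n)))).sum : ℤ)) : ZMod (13 ^ (n + 1))) = 0 := by
    rw [cast_lsum]
    refine List.sum_eq_zero ?_
    intro x hx
    rw [List.mem_map] at hx
    obtain ⟨j, _, rfl⟩ := hx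
    rw [Int.cast_mul, PSX.M_REL.Z0_cast hf, PSX.t_ZSQ 13 q0 n e e0 ψ hFm, mul_zero]
  have hE : ((EJ (RDF.fz (QN 13 q0 n) f) J : ℤ) : ZMod (13 ^ (n + 1))) = EJ (FZ 13 q0 n e ψ) J := by
    unfold EJ
    rw [cast_lsum]
    congr 1
    refine List.map_congr_left fun j _ => ?_
    rw [PSX.M_REL.Es_cast hf]
  rw [Int.cast_sub, hz, sub_zero, Int.cast_mul, PSX.M_REL.HH_zero h d hf, mul_zero, hE] at h3
  exact h3

end RL2M

/-- **the relations of the families, second family** -/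
theorem rl2 {d : ℕ} {s l p : ℤ} {A m : ℕ} (hs : OEX.Sg s) (hl : OEX.Sg l) (hmA : m + 1 ≤ A)
    (h8 : d % 8 = 5) (hCI : CIj d (J2 s l p A m)) {Q0 : ℕ} (hcop : Nat.Coprime (Q0 * 13) d) :
    RelJ Q0 (J2 s l p A m) := by
  refine RL2M.rel_of_bal_j h8 ?_ hCI ?_ hcop
  · intro j hj
    unfold J2 at hj
    simp only [List.mem_append, List.mem_map] at hj
    rcases hj with (⟨_, _, rfl⟩ | ⟨_, _, rfl⟩) | ⟨_, _, rfl⟩ <;> rfl
  · intro Q _ hQ f hf
    exact RL2M.bal hQ hf hs hl (A - (m + 1)) (by omega)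

namespace RL2M

variable {Q : ℕ} [NeZero Q]

/-- the telescoping sums of a closed signed chain cancel -/
lemma tele_zero (hQ : Q % 2 = 1) {f : ZMod Q → ℤ} (hf : ∀ z, f (-z) = - f z) {K : ℕ}
    {P R S c : ℕ → ℤ} (h : SG.SCyc K P R S c) :
    ∑ k ∈ range K, (Vi f (P k) (R k) (S k) - Vn f (P k) (R k) (S k) (c k)) = 0 := by
  have h1 : ∀ k ∈ range K, Vi f (P k) (R k) (S k) - Vn f (P k) (R k) (S k) (c k) =
      Vi f (P k) (R k) (S k) - Vi f (P (k + 1)) (R (k + 1)) (S (k + 1)) := by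
    intro k hk
    have hk := Finset.mem_range.1 hk
    rw [h.hP k hk, h.hR k hk, h.hS k hk]
    rfl
  rw [Finset.sum_congr rfl h1, Finset.sum_range_sub' (fun k => Vi f (P k) (R k) (S k))]
  rcases h.cl with ⟨a1, a2, a3⟩ | ⟨a1, a2, a3⟩
  · rw [a1, a2, a3, sub_self]
  · rw [a1, a2, a3, Vi_neg hQ hf, sub_self]

lemma star_inv (hQ : Q % 2 = 1) {f : ZMod Q → ℤ} (hf : ∀ z, f (-z) = - f z) (P R S c : ℤ) :
    Vi f (-P) R (-S) - Vn f (-P) R (-S) (-c) = Vi f P R S - Vn f P R S c := by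
  rw [Vi_neg hQ hf]
  unfold Vn
  have e1 : 2 * -c * -S - R = 2 * c * S - R := by ring
  have e2 : -P + R * -c - -S * (-c) ^ 2 = -(P + R * c - S * c ^ 2) := by ring
  rw [e1, e2, Vi_neg hQ hf]

/-- the telescoping sums of the first family cancel -/
lemma bal1 (hQ : Q % 2 = 1) {f : ZMod Q → ℤ} (hf : ∀ z, f (-z) = - f z) {l u p q b : ℤ} {m : ℕ}
    (hP : F1.Par p q b l u) :
    ((J1 l u p q b m).map (fun j => Vi f j.P j.R (-j.S))).sum
      = ((J1 l u p q b m).map (fun j => Vn f j.P j.R (-j.S) (-j.α))).sum := by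
  have h1 := tele_zero hQ hf (F1.scyc (m := m) hP)
  rw [F1.sum_eq hP (fun P R S c => Vi f P R S - Vn f P R S c) (star_inv hQ hf)] at h1
  rw [← sub_eq_zero]
  unfold J1
  simp only [List.map_append, List.sum_append, List.map_map]
  rw [F1.sum_map_range, F1.sum_map_range, F1.sum_map_range, F1.sum_map_range]
  rw [← h1]
  rw [Finset.sum_range_succ, Finset.sum_range_succ]
  simp only [Function.comp_apply, neg_neg]
  rw [Finset.sum_sub_distrib, Finset.sum_sub_distrib]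
  have e1 : ∀ j ∈ range m, Vn f (p ^ j) (q * p ^ m + b) (l * p ^ (m - j)) (c1 l p q b m j) =
      Vn f (p ^ j) (q * p ^ m + b) (l * p ^ (m - j)) (l * q * p ^ j) := by
    intro j hj
    have hj := Finset.mem_range.1 hj
    unfold c1
    rw [if_neg hj.ne, add_zero]
  have e2 : c1 l p q b m m = l * (q * p ^ m + b) := by
    unfold c1
    rw [if_pos rfl]
    ring
  rw [Finset.sum_congr rfl e1, e2, Nat.sub_self, pow_zero, mul_one]
  ring

end RL2M

/-- **the relations of the families, first family** -/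
theorem rl1 {d : ℕ} {l u p q b : ℤ} {m : ℕ} (hl : OEX.Sg l) (hu : OEX.Sg u)
    (hqb : q * b = u * p - l) (h8 : d % 8 = 5) (hCI : CIj d (J1 l u p q b m)) {Q0 : ℕ}
    (hcop : Nat.Coprime (Q0 * 13) d) : RelJ Q0 (J1 l u p q b m) := by
  refine RL2M.rel_of_bal_j h8 ?_ hCI ?_ hcop
  · intro j hj
    unfold J1 at hj
    simp only [List.mem_append, List.mem_map] at hj
    rcases hj with ⟨_, _, rfl⟩ | ⟨_, _, rfl⟩ <;> rfl
  · intro Q _ hQ f hf
    exact RL2M.bal1 hQ hf ⟨sg_sq hl, sg_sq hu, hqb⟩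

theorem t_RLj1 : Stmt_RLj1 := fun _ _ _ _ _ _ _ hl hu hqb _ _ h8 hCI _ hcop =>
  rl1 hl hu hqb h8 hCI hcop

theorem t_RLj2 : Stmt_RLj2 := fun _ _ _ _ _ _ hs hl _ hmA _ h8 hCI _ hcop =>
  rl2 hs hl hmA h8 hCI hcop

end Pool.Agent.OEG
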