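import Pool.Agent.OEG.CI12
import Pool.Agent.OEG.RL12
import Pool.Agent.OEG.OSY

/-!
# Project OEG: no field in the two families, from the elimination and the ghosts
-/

set_option autoImplicit false

namespace Pool.Agent.OEG

open Pool.Agent.Lib_helper5.LK (Fm)

namespace NOA

/-- the residue symbol as a power -/
lemma pow_of {d r : ℕ} (hr : r.Prime) (h : jacobiSym d r = -1) :
    (((d : ℕ) : ℤ) : ZMod r) ^ (r / 2) = -1 := by
  have : Fact r.Prime := ⟨hr⟩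
  rw [← legendreSym.eq_pow, jacobiSym.legendreSym.to_jacobiSym, h]
  push_cast
  rfl

lemma nr {d : ℕ} (hj : ∀ r : ℕ, r.Prime → r ≠ 2 → r < 100 → jacobiSym d r = -1) : Nr (d : ℤ) := by
  refine ⟨⟨?_, ?_, ?_, ?_⟩, ?_, ?_⟩
  · have := pow_of (by norm_num) (hj 3 (by norm_num) (by norm_num) (by norm_num))
    simpa using this
  · exact pow_of (by norm_num) (hj 5 (by norm_num) (by norm_num) (by norm_num))
  · exact pow_of (by norm_num) (hj 7 (by norm_num) (by norm_num) (by norm_num))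
  · exact pow_of (by norm_num) (hj 13 (by norm_num) (by norm_num) (by norm_num))
  · exact pow_of (by norm_num) (hj 17 (by norm_num) (by norm_num) (by norm_num))
  · exact pow_of (by norm_num) (hj 19 (by norm_num) (by norm_num) (by norm_num))

lemma small {r : ℕ} (hr : r.Prime) (h : r ∣ 9699690) : r < 100 := by
  have e : 9699690 = 2 * 3 * 5 * 7 * 11 * 13 * 17 * 19 := by norm_num
  rw [e] at h
  simp only [hr.dvd_mul] at h
  rcases h with ((((((h | h) | h) | h) | h) | h) | h) | h <;>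
    exact lt_of_le_of_lt (Nat.le_of_dvd (by norm_num) h) (by norm_num)

lemma cop {d : ℕ} (hj : ∀ r : ℕ, r.Prime → r ≠ 2 → r < 100 → jacobiSym d r = -1) :
    Nat.Coprime (Q0 * 13) d := by
  by_contra hc
  obtain ⟨r, hr, h1, h2⟩ := Nat.Prime.not_coprime_iff_dvd.1 hc
  have h3 : r ∣ 9699690 := h1.trans (by unfold Q0; norm_num)
  have h4 : r ≠ 2 := by
    rintro rfl
    unfold Q0 at h1
    omega
  have h5 := hj r hr h4 (small hr h3)
  have : Fact r.Prime := ⟨hr⟩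
  have h6 : jacobiSym (d : ℤ) r ≠ 0 := by rw [h5]; norm_num
  apply h6
  rw [← jacobiSym.legendreSym.to_jacobiSym, legendreSym.eq_zero_iff]
  have : ((d : ℕ) : ZMod r) = 0 := by rw [ZMod.natCast_eq_zero_iff]; exact h2
  exact_mod_cast this

lemma ndvd {p : ℤ} (hp : ∀ r : ℕ, r.Prime → r < 100 → ¬ (r : ℤ) ∣ p) (r : ℕ) (h : r ∣ 9699690)
    (h1 : r ≠ 1) : ¬ (r : ℤ) ∣ p := by
  intro hd
  have hr := Nat.minFac_prime h1
  have h2 : r.minFac ∣ r := Nat.minFac_dvd r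
  exact hp _ hr (small hr (h2.trans h)) ((Int.natCast_dvd_natCast.2 h2).trans hd)

lemma pw {p : ℤ} {a b c : ℕ} (h : a + b = c) : p ^ a * p ^ b = p ^ c := by
  rw [← pow_add, h]

lemma disc1 {D l u p q b : ℤ} {m : ℕ} (hqb : q * b = u * p - l)
    (hD : D = (q * p ^ m + b) ^ 2 + 4 * l * p ^ m) :
    ∀ j ∈ J1 l u p q b m, j.κ = 3 ∧ j.R ^ 2 - 4 * j.P * j.S = D := by
  intro j hj
  unfold J1 at hj
  rw [List.mem_append, List.mem_map, List.mem_map] at hj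
  rcases hj with ⟨i, hi, rfl⟩ | ⟨i, hi, rfl⟩
  · refine ⟨rfl, ?_⟩
    rw [List.mem_range] at hi
    have e : p ^ i * p ^ (m - i) = p ^ m := pw (by omega)
    show (q * p ^ m + b) ^ 2 - 4 * p ^ i * -(l * p ^ (m - i)) = D
    rw [hD, ← e]; ring
  · refine ⟨rfl, ?_⟩
    rw [List.mem_range] at hi
    have e : p ^ (i + 1) * p ^ (m - i) = p ^ (m + 1) := pw (by omega)
    show (q * p ^ m - b) ^ 2 - 4 * p ^ (i + 1) * -(u * p ^ (m - i)) = D
    have e2 : (q * p ^ m - b) ^ 2 - 4 * p ^ (i + 1) * -(u * p ^ (m - i))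
      = (q * p ^ m - b) ^ 2 + 4 * u * (p ^ (i + 1) * p ^ (m - i)) := by ring
    rw [e2, e, hD, pow_succ]
    linear_combination (-4 * p ^ m) * hqb

lemma disc2 {D s l p : ℤ} {A m : ℕ} (hs : OEX.Sg s) (hm : m + 2 ≤ A)
    (hD : D = (p ^ A + s * p ^ m - l * s) ^ 2 + 4 * l * p ^ m) :
    ∀ j ∈ J2 s l p A m, j.κ = 3 ∧ j.R ^ 2 - 4 * j.P * j.S = D := by
  have hs2 : s ^ 2 = 1 := sg_sq hs
  intro j hj
  unfold J2 at hj
  rw [List.mem_append, List.mem_append, List.mem_map, List.mem_map, List.mem_map] at hj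
  rcases hj with (⟨i, hi, rfl⟩ | ⟨i, hi, rfl⟩) | ⟨i, hi, rfl⟩
  · refine ⟨rfl, ?_⟩
    rw [List.mem_range] at hi
    have e : p ^ i * p ^ (m - i) = p ^ m := pw (by omega)
    show (p ^ A + s * p ^ m - l * s) ^ 2 - 4 * p ^ i * -(l * p ^ (m - i)) = D
    rw [hD, ← e]; ring
  · refine ⟨rfl, ?_⟩
    rw [List.mem_range] at hi
    have e : p ^ (m + 1 + i) * p ^ (A - 1 - i) = p ^ A * p ^ m := by
      rw [pw (c := A + m) (by omega), pw (c := A + m) (by omega)]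
    show (p ^ A - s * p ^ m - l * s) ^ 2 - 4 * p ^ (m + 1 + i) * -(s * p ^ (A - 1 - i)) = D
    have e2 : (p ^ A - s * p ^ m - l * s) ^ 2 - 4 * p ^ (m + 1 + i) * -(s * p ^ (A - 1 - i))
      = (p ^ A - s * p ^ m - l * s) ^ 2 + 4 * s * (p ^ (m + 1 + i) * p ^ (A - 1 - i)) := by ring
    rw [e2, e, hD]
    linear_combination (4 * l * p ^ m) * hs2
  · refine ⟨rfl, ?_⟩
    rw [List.mem_range] at hi
    have e : p ^ (i + 1) * p ^ (A - 1 - i) = p ^ A := pw (by omega)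
    show (p ^ A + s * p ^ m + l * s) ^ 2 - 4 * p ^ (i + 1) * (l * s * p ^ (A - 1 - i)) = D
    have e2 : (p ^ A + s * p ^ m + l * s) ^ 2 - 4 * p ^ (i + 1) * (l * s * p ^ (A - 1 - i))
      = (p ^ A + s * p ^ m + l * s) ^ 2 - 4 * l * s * (p ^ (i + 1) * p ^ (A - 1 - i)) := by ring
    rw [e2, e, hD]
    linear_combination (4 * l * p ^ m) * hs2

end NOA

/-- **NO1** from the elimination and the ghosts of the first family -/
theorem t_NO1 (hE : Stmt_EL1) (h1 : Stmt_GH1) (h2 : Stmt_GH2) (h3 : Stmt_GH3) : Stmt_NO1 := by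
  intro d l u p q b m hUF h8 hj hp hQ
  have hCI := t_CIj1 d l u p q b m hUF h8 hQ
  have hR : RelJ Q0 (J1 l u p q b m) :=
    t_RLj1 d l u p q b m hQ.l1 hQ.u1 hQ.qb hQ.D1 hQ.m1 h8 hCI Q0 (NOA.cop hj)
  have hN := NOA.nr hj
  obtain ⟨z, hz⟩ := hCI
  have hS : PSX.Ev.OSys 9699690 d (J1 l u p q b m) :=
    OSY.osys d _ h8 hz (NOA.disc1 hQ.qb hQ.D1) 9699690
      (fun r hr hr2 hrd => hj r hr hr2 (NOA.small hr hrd))
  rcases hE d l u p q b m hQ.l1 hQ.u1 hQ.m1 hQ.qb hQ.D1 (NOA.ndvd hp) hS with h | h | h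
  · exact h1 d l u p q b m hQ hN hR h
  · exact h2 d l u p q b m hQ hN hR h
  · exact h3 d l u p q b m hQ hN hR h

/-- **NO2** from the elimination and the ghost of the second family -/
theorem t_NO2 (hE : Stmt_EL2) (h4 : Stmt_GH4) : Stmt_NO2 := by
  intro d s l p A m hUF h8 hj hp hQ
  have hCI := t_CIj2 d s l p A m hUF h8 hQ
  have hR : RelJ Q0 (J2 s l p A m) :=
    t_RLj2 d s l p A m hQ.s1 hQ.l1 hQ.m1 (by have := hQ.A2; omega) hQ.D1 h8 hCI Q0 (NOA.cop hj)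
  have hN := NOA.nr hj
  obtain ⟨z, hz⟩ := hCI
  have hS : PSX.Ev.OSys 9699690 d (J2 s l p A m) :=
    OSY.osys d _ h8 hz (NOA.disc2 hQ.s1 hQ.A2 hQ.D1) 9699690
      (fun r hr hr2 hrd => hj r hr hr2 (NOA.small hr hrd))
  exact h4 d s l p A m hQ hN hR (hE d s l p A m hQ.s1 hQ.l1 hQ.m1 hQ.A2 hQ.D1 (NOA.ndvd hp) hS)

end Pool.Agent.OEG
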