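import Pool.Agent.RQM.C41

/-!
Copy of the verification of the tables of `Pool/Agent/RQM/C40.lean` and `C41.lean` (helper5) for moduli up to
`1500` (there: up to `1000`).
-/

set_option autoImplicit false

namespace Pool.Agent.OEG.NV2t

open Finset Pool.Agent.LibH4 Pool.Agent.LibH4.Ker Pool.Agent.LibH4.T6 Pool.Agent.LibH4.KF
open Pool.Agent.Lib_helper5.LK Pool.Agent.Lib_helper5.TB

/-- numerical conditions on `q` and `N` -/
structure QNb (q N : ℕ) : Prop where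
  q2 : 2 ≤ q
  q1500 : q ≤ 1500
  N3 : 3 ≤ N
  N8 : N ≤ 8192
  qN : 2 * (q * q) * (N * N) < 2 ^ 64

section DV

variable {q N : ℕ} (H : QNb q N) (CT : ℕ)

include H

lemma lane_ltb (X Y : ℕ) : lane q N CT X Y < 2 ^ 64 := by
  have hN : 0 < N := by have := H.N3; omega
  have hq : 0 < q := by have := H.q2; omega
  have h1 : ∑ u ∈ range q, Pool.Agent.Lib_helper5.LK.co q N CT X u ≤ q * N := by
    have : ∑ u ∈ range q, Pool.Agent.Lib_helper5.LK.co q N CT X u ≤ ∑ _u ∈ range q, N :=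
      Finset.sum_le_sum fun u _ => (Pool.Agent.Lib_helper5.LK.co_lt CT hN X u).le
    simpa using this
  have h2 : ∑ u ∈ range q, Pool.Agent.Lib_helper5.LK.co q N CT X u * (u * Y % q) ≤ q * (N * q) := by
    have : ∑ u ∈ range q, Pool.Agent.Lib_helper5.LK.co q N CT X u * (u * Y % q) ≤ ∑ _u ∈ range q, N * q :=
      Finset.sum_le_sum fun u _ => Nat.mul_le_mul (Pool.Agent.Lib_helper5.LK.co_lt CT hN X u).le (Nat.mod_lt _ hq).le
    simpa using this
  refine lt_of_le_of_lt ?_ H.qN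
  unfold lane
  calc _ ≤ q * (q * N) + N * (q * (N * q)) :=
        Nat.add_le_add (Nat.mul_le_mul_left _ h1) (Nat.mul_le_mul (by omega) h2)
    _ ≤ q * (q * (N * N)) + N * (q * (N * q)) := by
        apply Nat.add_le_add_right
        apply Nat.mul_le_mul_left
        apply Nat.mul_le_mul_left
        exact Nat.le_mul_of_pos_left N hN
    _ = _ := by ring

lemma dv_eqb (X : ℕ) : dv q N (Nat.succ (2 ^ 40 / q)) CT
      (packL (2 ^ 64) (fun i => q - 1 - i) (List.range q))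
      (packL (2 ^ 64) (fun _ => 1) (List.range q))
      (16777215 * packL (2 ^ 64) (fun _ => 1) (List.range q)) X =
    packL (2 ^ 64) (fun i => lane q N CT X (q - 1 - i)) (List.range q) := by
  have hq : 0 < q := by have := H.q2; omega
  have hq1 := H.q1500
  set Yv := packL (2 ^ 64) (fun i => q - 1 - i) (List.range q) with hY
  set On := packL (2 ^ 64) (fun _ : ℕ => 1) (List.range q) with hO
  set cc := Nat.succ (2 ^ 40 / q) with hcc
  have hc1 : 2 ^ 40 ≤ cc * q := by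
    have := Nat.lt_div_mul_add (a := 2 ^ 40) hq
    rw [hcc, Nat.succ_eq_add_one, add_mul, one_mul]
    omega
  have hc2 : cc * q ≤ 2 ^ 40 + q := by
    have := Nat.div_mul_le_self (2 ^ 40) q
    rw [hcc, Nat.succ_eq_add_one, add_mul, one_mul]
    omega
  have hqq : q * q ≤ 1500 * 1500 := Nat.mul_le_mul hq1 hq1
  have hc3 : q * q < cc := by
    by_contra hcon
    have h1 : cc ≤ q * q := Nat.not_lt.1 hcon
    have h2 : cc * q ≤ (1500 * 1500) * 1500 := Nat.mul_le_mul (h1.trans hqq) hq1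
    have : (2 : ℕ) ^ 40 ≤ (1500 * 1500) * 1500 := hc1.trans h2
    norm_num at this
  have hfl : ∀ u, u < q → Nat.land (Nat.shiftRight (u * cc * Yv) 40) (16777215 * On) =
      packL (2 ^ 64) (fun i => u * (q - 1 - i) / q) (List.range q) := by
    intro u hu
    have e1 : u * cc * Yv = packL (2 ^ 64) (fun i => u * cc * (q - 1 - i)) (List.range q) := by
      rw [hY, packL_mul]
    have e2 : 16777215 * On = packL (2 ^ 64) (fun _ => 2 ^ (64 - 40) - 1) (List.range q) := by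
      rw [hO, ← packL_mul]
      norm_num
    have e3 : Nat.shiftRight (u * cc * Yv) 40 = (u * cc * Yv) / 2 ^ 40 := by
      change (u * cc * Yv) >>> 40 = _
      rw [Nat.shiftRight_eq_div_pow]
    rw [e3, e1, e2, land_floor (by norm_num)]
    · apply packL_congr
      intro i hi
      have hi' := List.mem_range.1 hi
      have h4 : u * (q - 1 - i) < q * q := by
        calc u * (q - 1 - i) ≤ u * q := Nat.mul_le_mul_left _ (by omega)
          _ < q * q := Nat.mul_lt_mul_of_pos_right hu hq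
      rw [← floor_exact hq hc1 hc2 hc3 h4]
      congr 1
      ring
    · intro i _
      have h5 : cc ≤ 2 ^ 40 := by
        have h2 := H.q2
        have : 2 ^ 40 / q ≤ 2 ^ 40 / 2 := Nat.div_le_div_left h2 (by norm_num)
        have h6 : (2 : ℕ) ^ 40 / 2 + 1 ≤ 2 ^ 40 := by norm_num
        omega
      calc u * cc * (q - 1 - i) ≤ 1500 * 2 ^ 40 * 1500 := by
            apply Nat.mul_le_mul
            · exact Nat.mul_le_mul (by omega) h5
            · omega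
        _ < 2 ^ 64 := by norm_num
  -- unfold
  have e : dv q N cc CT Yv On (16777215 * On) X =
      dvl q N cc CT Yv (16777215 * On) X (fun fl s0 s1 => (q * s0) * On +
        (N - 2) * (s1 * Yv - q * fl)) q 0 0 0 := rfl
  rw [e, dvl_eq]
  simp only [zero_add]
  have s1 : ∑ u ∈ range q, Pool.Agent.Lib_helper5.LK.co q N CT X u * Nat.land (Nat.shiftRight (u * cc * Yv) 40)
      (16777215 * On) = packL (2 ^ 64) (fun i => ∑ u ∈ range q, Pool.Agent.Lib_helper5.LK.co q N CT X u *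
        (u * (q - 1 - i) / q)) (List.range q) := by
    have h : ∀ n, n ≤ q → ∑ u ∈ range n, Pool.Agent.Lib_helper5.LK.co q N CT X u *
        Nat.land (Nat.shiftRight (u * cc * Yv) 40) (16777215 * On) =
        packL (2 ^ 64) (fun i => ∑ u ∈ range n, Pool.Agent.Lib_helper5.LK.co q N CT X u *
        (u * (q - 1 - i) / q)) (List.range q) := by
      intro n
      induction n with
      | zero => intro _; simp [packL_zero]
      | succ n ih =>
        intro hn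
        rw [sum_range_succ, ih (by omega), hfl n (by omega), ← packL_mul, ← packL_add]
        apply packL_congr
        intro i _
        rw [sum_range_succ]
    exact h q le_rfl
  rw [s1]
  have e3 : (∑ u ∈ range q, Pool.Agent.Lib_helper5.LK.co q N CT X u * u) * Yv = packL (2 ^ 64)
      (fun i => (∑ u ∈ range q, Pool.Agent.Lib_helper5.LK.co q N CT X u * u) * (q - 1 - i)) (List.range q) := by
    rw [hY, packL_mul]
  have e4 : (∑ u ∈ range q, Pool.Agent.Lib_helper5.LK.co q N CT X u * u) * Yv - q * packL (2 ^ 64)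
      (fun i => ∑ u ∈ range q, Pool.Agent.Lib_helper5.LK.co q N CT X u * (u * (q - 1 - i) / q)) (List.range q) =
      packL (2 ^ 64) (fun i => ∑ u ∈ range q, Pool.Agent.Lib_helper5.LK.co q N CT X u * (u * (q - 1 - i) % q))
        (List.range q) := by
    rw [e3, ← packL_mul]
    have : packL (2 ^ 64) (fun i => (∑ u ∈ range q, Pool.Agent.Lib_helper5.LK.co q N CT X u * u) * (q - 1 - i))
        (List.range q) = packL (2 ^ 64) (fun i => ∑ u ∈ range q, Pool.Agent.Lib_helper5.LK.co q N CT X u *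
          (u * (q - 1 - i) % q)) (List.range q) + packL (2 ^ 64) (fun i => q *
          ∑ u ∈ range q, Pool.Agent.Lib_helper5.LK.co q N CT X u * (u * (q - 1 - i) / q)) (List.range q) := by
      rw [← packL_add]
      apply packL_congr
      intro i _
      rw [Finset.sum_mul, Finset.mul_sum, ← Finset.sum_add_distrib]
      apply Finset.sum_congr rfl
      intro u _
      have := Nat.mod_add_div (u * (q - 1 - i)) q
      calc Pool.Agent.Lib_helper5.LK.co q N CT X u * u * (q - 1 - i) = Pool.Agent.Lib_helper5.LK.co q N CT X u * (u * (q - 1 - i)) := by ring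
        _ = Pool.Agent.Lib_helper5.LK.co q N CT X u * (u * (q - 1 - i) % q + q * (u * (q - 1 - i) / q)) := by rw [this]
        _ = _ := by ring
    rw [this, Nat.add_sub_cancel]
  rw [e4, hO, ← packL_mul, ← packL_mul, ← packL_add]
  apply packL_congr
  intro i _
  unfold lane
  ring

end DV

lemma wdG_eqb {q N CT e1 e2 e3 : ℕ} (H : QNb q N) {d : ℕ → ℕ → ℕ → ℕ} {P Q R : ℕ × ℕ}
    (hd : d P.1 Q.1 R.1 =
      packL (2 ^ 64) (fun i => lane q N CT (pat e1 e2 e3 q P.1 Q.1 R.1) (q - 1 - i)) (List.range q)) :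
    wd q N e1 e2 e3 d P Q R = wv q N CT e1 e2 e3 P Q R := by
  have hq : 0 < q := by have := H.q2; omega
  unfold wd wv
  rw [strict_eq]
  change @Nat.rec (fun _ => ℕ) 0 (fun _ _ => _) ((P.2 * e1 + (Q.2 * e2 + R.2 * e3)) % q) = _
  have hlt : (P.2 * e1 + (Q.2 * e2 + R.2 * e3)) % q < q := Nat.mod_lt _ hq
  generalize hY : (P.2 * e1 + (Q.2 * e2 + R.2 * e3)) % q = Y at hlt ⊢
  have hY' : Nat.mod (Nat.add (Nat.mul P.2 e1) (Nat.add (Nat.mul Q.2 e2) (Nat.mul R.2 e3))) q = Y := hY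
  cases Y with
  | zero => simp
  | succ y =>
    rw [if_neg (Nat.succ_ne_zero y)]
    change (Nat.shiftRight (d P.1 Q.1 R.1) (64 * (q - 1 -
      Nat.mod (Nat.add (Nat.mul P.2 e1) (Nat.add (Nat.mul Q.2 e2) (Nat.mul R.2 e3))) q))) %
      18446744073709551616 % N = _
    rw [hY', hd]
    congr 1
    change (packL _ _ _) >>> (64 * (q - 1 - (y + 1))) % _ = _
    rw [Nat.shiftRight_eq_div_pow, pow_mul]
    have h64 : (18446744073709551616 : ℕ) = 2 ^ 64 := by norm_num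
    rw [h64]
    have hdig := packL_digit (V := 2 ^ 64) (f := fun i => lane q N CT (pat e1 e2 e3 q P.1 Q.1 R.1)
      (q - 1 - i)) (L := List.range q) (fun i _ => lane_ltb H CT _ _) (q - 1 - (y + 1))
      (by rw [List.length_range]; omega)
    rw [hdig, List.getElem_range]
    congr 1
    omega


theorem wchkG_specb {n1 n2 n3 e1 e2 e3 N l fr T1 T2 T3 : ℕ} {XS : List ℕ} {L1 L2 L3 : List (ℕ × ℕ)}
    {w3 w W Y1 Y0 : ℕ} (H : QNb (n1 * n2 * n3) N)
    (bb : ∀ P ∈ L1, ∀ Q ∈ L2, ∀ R ∈ L3, pat e1 e2 e3 (n1 * n2 * n3) P.1 Q.1 R.1 ∈ XS)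
    (b1 : ∀ Q ∈ L2, ∀ R ∈ L3, pat e1 e2 e3 (n1 * n2 * n3) 1 Q.1 R.1 ∈ XS)
    (b0 : ∀ Q ∈ L2, ∀ R ∈ L3, pat e1 e2 e3 (n1 * n2 * n3) 0 Q.1 R.1 ∈ XS)
    (h : wchkG n1 n2 n3 e1 e2 e3 N l fr T1 T2 T3 XS L1 L2 L3 w3 w W Y1 Y0 = true) :
    WSpec n1 n2 n3 e1 e2 e3 N l fr T1 T2 T3 L1 L2 L3 w3 w W Y1 Y0 := by
  unfold wchkG at h
  simp only [strict_eq] at h
  set q := n1 * n2 * n3 with hq
  have hq' : Nat.mul (Nat.mul n1 n2) n3 = q := rfl
  rw [hq'] at h
  have hct : csq n1 n2 n3 q N T1 T2 T3 = csqT n1 n2 n3 N T1 T2 T3 := rfl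
  rw [hct] at h
  obtain ⟨d, hd, hd'⟩ := withT_spec (β := Bool) (dv q N (Nat.succ (Nat.div (nat_lit 1099511627776) q))
    (csqT n1 n2 n3 N T1 T2 T3)
    (packR (nat_lit 64) (fun y => Nat.sub (Nat.sub q (nat_lit 1)) y) q)
    (packR (nat_lit 64) (fun _ => nat_lit 1) q)
    (Nat.mul (nat_lit 16777215) (packR (nat_lit 64) (fun _ => nat_lit 1) q))) e1 e2 e3 q XS
    (fun d => withT (ev q N (csqT n1 n2 n3 N T1 T2 T3)) e1 e2 e3 q XS fun e =>
      @Bool.rec (fun _ => Bool) false (@Bool.rec (fun _ => Bool) false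
      (@Bool.rec (fun _ => Bool) false
        (allL (fun Q => allL (fun R =>
          @Bool.rec (fun _ => Bool) false
            (Nat.beq (Nat.mod (Nat.mul fr (e (nat_lit 0) Q.1 R.1)) (Nat.mul l l)) (nat_lit 0))
            (Nat.beq (Nat.mod (Nat.mul fr (e (nat_lit 1) Q.1 R.1)) l) (nat_lit 0))) L3) L2)
        (Nat.beq (wyrev e (nat_lit 0) L2 L3 (nat_lit 1208925819614629174706176)
          (Nat.pow (nat_lit 2) w3)) Y0))
        (Nat.beq (wyrev e (nat_lit 1) L2 L3 (nat_lit 1208925819614629174706176)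
          (Nat.pow (nat_lit 2) w3)) Y1))
        (Nat.beq (wrev q N e1 e2 e3 d L1 L2 L3 (nat_lit 1208925819614629174706176)
          (Nat.pow (nat_lit 2) w3) (Nat.pow (nat_lit 2) w)) W))
  rw [hd] at h
  obtain ⟨e, he, he'⟩ := withT_spec (β := Bool) (ev q N (csqT n1 n2 n3 N T1 T2 T3)) e1 e2 e3 q XS
    (fun e => @Bool.rec (fun _ => Bool) false (@Bool.rec (fun _ => Bool) false
      (@Bool.rec (fun _ => Bool) false
        (allL (fun Q => allL (fun R =>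
          @Bool.rec (fun _ => Bool) false
            (Nat.beq (Nat.mod (Nat.mul fr (e (nat_lit 0) Q.1 R.1)) (Nat.mul l l)) (nat_lit 0))
            (Nat.beq (Nat.mod (Nat.mul fr (e (nat_lit 1) Q.1 R.1)) l) (nat_lit 0))) L3) L2)
        (Nat.beq (wyrev e (nat_lit 0) L2 L3 (nat_lit 1208925819614629174706176)
          (Nat.pow (nat_lit 2) w3)) Y0))
        (Nat.beq (wyrev e (nat_lit 1) L2 L3 (nat_lit 1208925819614629174706176)
          (Nat.pow (nat_lit 2) w3)) Y1))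
        (Nat.beq (wrev q N e1 e2 e3 d L1 L2 L3 (nat_lit 1208925819614629174706176)
          (Nat.pow (nat_lit 2) w3) (Nat.pow (nat_lit 2) w)) W))
  rw [he] at h
  obtain ⟨h1, h⟩ := boolrec_spec h
  obtain ⟨h2, h⟩ := boolrec_spec h
  obtain ⟨h3, h⟩ := boolrec_spec h
  have g1 := Nat.eq_of_beq_eq_true h1
  have g2 := Nat.eq_of_beq_eq_true h2
  have g3 := Nat.eq_of_beq_eq_true h3
  have h80 : ∀ (f : ℕ × ℕ → ℕ) (L : List (ℕ × ℕ)),
      rp (nat_lit 1208925819614629174706176) f L = rp (2 ^ 80) f L := by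
    intro f L
    have h80' : (1208925819614629174706176 : ℕ) = 2 ^ 80 := by norm_num
    have : rp (1208925819614629174706176 : ℕ) f L = rp (2 ^ 80) f L := by rw [h80']
    exact this
  have hdv : ∀ a b c, pat e1 e2 e3 q a b c ∈ XS → d a b c =
      packL (2 ^ 64) (fun i => lane q N (csqT n1 n2 n3 N T1 T2 T3) (pat e1 e2 e3 q a b c)
        (q - 1 - i)) (List.range q) := by
    intro a b c hh
    rw [hd' a b c hh, ← dv_eqb H]
    have e1' : packR (nat_lit 64) (fun y => Nat.sub (Nat.sub q (nat_lit 1)) y) q =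
        packL (2 ^ 64) (fun i => q - 1 - i) (List.range q) := packR_eq _ _ _
    have e2' : packR (nat_lit 64) (fun _ => nat_lit 1) q =
        packL (2 ^ 64) (fun _ => 1) (List.range q) := packR_eq _ _ _
    rw [e1', e2']
    have e3' : Nat.succ (Nat.div (nat_lit 1099511627776) q) = Nat.succ (2 ^ 40 / q) := by
      norm_num
      rfl
    rw [e3']
    rfl
  refine ⟨?_, ?_, ?_, ?_, ?_⟩
  · rw [← g1]
    unfold wrev
    rw [rpk_eq0]
    apply rp_congr
    intro P hP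
    rw [rpk_eq0]
    apply rp_congr
    intro Q hQ
    rw [rpk_eq0, h80]
    apply rp_congr
    intro R hR
    exact wdG_eqb H (hdv _ _ _ (bb P hP Q hQ R hR))
  · rw [← g2]
    unfold wyrev
    rw [rpk_eq0]
    apply rp_congr
    intro Q hQ
    rw [rpk_eq0, h80]
    apply rp_congr
    intro R hR
    exact he' _ _ _ (b1 Q hQ R hR)
  · rw [← g3]
    unfold wyrev
    rw [rpk_eq0]
    apply rp_congr
    intro Q hQ
    rw [rpk_eq0, h80]
    apply rp_congr
    intro R hR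
    exact he' _ _ _ (b0 Q hQ R hR)
  · intro Q hQ R hR
    have h4 := boolrec_spec (allL_spec (allL_spec h Q hQ) R hR)
    have h5 : fr * e 1 Q.1 R.1 % l = 0 := Nat.eq_of_beq_eq_true h4.1
    rw [he' 1 _ _ (b1 Q hQ R hR)] at h5
    exact h5
  · intro Q hQ R hR
    have h4 := boolrec_spec (allL_spec (allL_spec h Q hQ) R hR)
    have h5 : fr * e 0 Q.1 R.1 % (l * l) = 0 := Nat.eq_of_beq_eq_true h4.2
    rw [he' 0 _ _ (b0 Q hQ R hR)] at h5
    exact h5


/-- the verified data of the weights of a character -/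
structure GoodTb (n1 n2 n3 e1 e2 e3 N T1 T2 T3 : ℕ) (L2 L3 : List (ℕ × ℕ))
    (w3 w W Y1 Y0 : ℕ) [NeZero n1] [NeZero n2] [NeZero n3] [NeZero (n1 * n2)]
    [NeZero (n1 * n2 * n3)] : Prop where
  hp : n1.Prime
  idem : Idem n1 n2 n3 e1 e2 e3
  p2 : IsP1 n2 L2
  p3 : IsP1 n3 L3
  ne2 : L2 ≠ []
  ne3 : L3 ≠ []
  qn : QNb (n1 * n2 * n3) N
  t1 : tabCk n1 N T1 = true
  t2 : tabCk n2 N T2 = true
  t3 : tabCk n3 N T3 = true
  ws : WSpec n1 n2 n3 e1 e2 e3 N 1 0 T1 T2 T3 (PL n1) L2 L3 w3 w W Y1 Y0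
  hw3 : w3 = 80 * L3.length
  hw : w = w3 * L2.length
  hB : L3.length * (L2.length * (BA n1 N 1 * N) * N) < 2 ^ 80


section Val

variable {n1 n2 n3 e1 e2 e3 N T1 T2 T3 : ℕ} {L2 L3 : List (ℕ × ℕ)} {w3 w W Y1 Y0 : ℕ}
  [NeZero n1] [NeZero n2] [NeZero n3] [NeZero (n1 * n2)] [NeZero (n1 * n2 * n3)]

/-- the value of a single form -/
theorem GoodTb.val (G : GoodTb n1 n2 n3 e1 e2 e3 N T1 T2 T3 L2 L3 w3 w W Y1 Y0)
    (j : Fm) {κ α : ℕ} (hκ : κ ≤ 1) (hα : α ≤ 1) {d : ℕ}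
    (hd : (d : ZMod n1) = j.R ^ 2 - 4 * j.P * j.S)
    (hi : 2 * rs n1 j.S * ii n1 (rs n1 j.S) % n1 = 1) {sh sh2 : ℕ}
    (hsh : sh = 80 * (L3.length - 1)) (hsh2 : sh2 = w3 * (L2.length - 1)) :
    ((ip N sh (mid w3 sh2 (rowX n1 T1 w W Y1 Y0 d ((rs n1 j.R, rs n1 j.S), (κ, α)))
      (pv n2 T2 (2 ^ w3) L2 (fkI n2 j))) (pv n3 T3 (2 ^ 80) L3 (fkI n3 j)) : ℕ) : ZMod N) =
      κ * KF.XX (tri (tabc n1 N T1) (tabc n2 N T2) (tabc n3 N T3)) j.P j.R j.S +
      α * KF.YX (tri (tabc n1 N T1) (tabc n2 N T2) (tabc n3 N T3)) j.P j.R j.S := by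
  have hN : 2 ≤ N := by have := G.qn.N3; omega
  have hN0 : 0 < N := by omega
  have hN16 : N ≤ 2 ^ 16 := by have := G.qn.N8; omega
  have hn1 : 0 < n1 := G.hp.pos
  have h1 := tabCk_char G.t1
  have h2 := tabCk_char G.t2
  have h3 := tabCk_char G.t3
  have ht1 := tabCk_lt G.t1
  have hl2 := List.length_pos_of_ne_nil G.ne2
  have hl3 := List.length_pos_of_ne_nil G.ne3
  have hb1 : L2.length * (BA n1 N 1 * N) < 2 ^ 80 := by
    refine lt_of_le_of_lt ?_ G.hB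
    calc L2.length * (BA n1 N 1 * N) ≤ L2.length * (BA n1 N 1 * N) * N :=
          Nat.le_mul_of_pos_right _ hN0
      _ ≤ _ := Nat.le_mul_of_pos_left _ hl3
  have hb0 : (n1 + 1) * (N * (N * N)) < 2 ^ 80 := by
    refine lt_of_le_of_lt ?_ hb1
    have : (n1 + 1) * (N * (N * N)) ≤ BA n1 N 1 := Nat.le_mul_of_pos_left _ (by omega)
    calc (n1 + 1) * (N * (N * N)) ≤ BA n1 N 1 := this
      _ ≤ BA n1 N 1 * N := Nat.le_mul_of_pos_right _ hN0
      _ ≤ _ := Nat.le_mul_of_pos_left _ hl2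
  set x : (ℕ × ℕ) × (ℕ × ℕ) := ((rs n1 j.R, rs n1 j.S), (κ, α)) with hx
  have hκ6 : x.2.1 ≤ 6 := by rw [hx]; simp only; omega
  have hα1 : x.2.2 ≤ 1 := by rw [hx]; exact hα
  have hSx : x.1.2 < n1 := by rw [hx]; exact rs_lt j.S
  have hw3' : (2 : ℕ) ^ w3 = (2 ^ 80) ^ L3.length := by rw [G.hw3, ← pow_mul]
  have eR := rowX_eq (l := 1) (x := x) (d := d) G.ws G.hw3 G.hw hN0 hn1 ht1 hb0 hSx
  have eM : mid w3 sh2 (rowX n1 T1 w W Y1 Y0 d x) (pv n2 T2 (2 ^ w3) L2 (fkI n2 j)) =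
      rp (2 ^ 80) (brow n1 n2 n3 e1 e2 e3 N T1 T2 T3 d L2 x
        (fun Q => chw T2 (nf n2 (rs n2 j.P) (rs n2 j.R) (rs n2 j.S) Q.1 Q.2))) L3 := by
    have e0 : mid w3 sh2 (rowX n1 T1 w W Y1 Y0 d x) (pv n2 T2 (2 ^ w3) L2 (fkI n2 j)) =
      (rowX n1 T1 w W Y1 Y0 d x * pv n2 T2 (2 ^ w3) L2 (fkI n2 j)) >>> sh2 % 2 ^ w3 := rfl
    have e1 : rp (2 ^ 80) (arow n1 n2 n3 e1 e2 e3 N T1 T2 T3 d x) (L2 ×ˢ L3) =
        rp ((2 ^ 80) ^ L3.length) (fun Q => rp (2 ^ 80) (fun R =>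
          arow n1 n2 n3 e1 e2 e3 N T1 T2 T3 d x (Q, R)) L3) L2 := by
      rw [rp_flat]
    rw [e0, eR, e1, hsh2, Nat.shiftRight_eq_div_pow, pow_mul, hw3']
    exact blk (V := 2 ^ 80) (C := BA n1 N 1) (D := N) (L := L2) (M := L3) G.ne2
      (fun Q _ R _ => arow_le hN0 hn1 ht1 hκ6 hα1 hSx _) (fun Q _ => pv_le (tabCk_lt G.t2) _ _ _ Q)
      hb1
  rw [eM]
  have eF := ip_fin (N := N) (L3 := L3) (w3 := w3) (J := [j])
    (b := fun _ => brow n1 n2 n3 e1 e2 e3 N T1 T2 T3 d L2 x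
        (fun Q => chw T2 (nf n2 (rs n2 j.P) (rs n2 j.R) (rs n2 j.S) Q.1 Q.2)))
    (u := fun _ Q => chw T3 (nf n3 (rs n3 j.P) (rs n3 j.R) (rs n3 j.S) Q.1 Q.2))
    (C := L2.length * (BA n1 N 1 * N)) (D := N) (by simp) G.ne3
    (fun j' _ R _ => brow_le hN0 hn1 ht1 hκ6 hα1 hSx (fun Q _ => pv_le (tabCk_lt G.t2) _ _ _ Q) R)
    (fun j' _ R _ => pv_le (tabCk_lt G.t3) _ _ _ R)
    (by simpa using G.hB) G.hw3 (sh := sh) (by simpa using hsh)
  have eu : packL (2 ^ w3) (fun _ : Fm => packL (2 ^ 80) (fun Q : ℕ × ℕ =>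
      chw T3 (nf n3 (rs n3 j.P) (rs n3 j.R) (rs n3 j.S) Q.1 Q.2)) L3) [j] =
      pv n3 T3 (2 ^ 80) L3 (fkI n3 j) := by
    rw [packL_cons, packL_nil]
    simp only [mul_zero, add_zero]
    rfl
  have eb : rp (2 ^ w3) (fun _ : Fm => rp (2 ^ 80) (brow n1 n2 n3 e1 e2 e3 N T1 T2 T3 d L2 x
        (fun Q => chw T2 (nf n2 (rs n2 j.P) (rs n2 j.R) (rs n2 j.S) Q.1 Q.2))) L3) [j] =
      rp (2 ^ 80) (brow n1 n2 n3 e1 e2 e3 N T1 T2 T3 d L2 x
        (fun Q => chw T2 (nf n2 (rs n2 j.P) (rs n2 j.R) (rs n2 j.S) Q.1 Q.2))) L3 := by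
    rw [rp_cons]
    simp [rp]
  rw [eu, eb] at eF
  rw [eF, ZMod.natCast_mod, List.map_singleton, List.sum_singleton]
  exact val_cast
    G.idem G.hp G.p2 G.p3 hN hN16 h1 h2 h3 (j := j) (x := x) (d := d)
    (rs_cast j.R) (rs_cast j.S) (rs_lt j.S) hd hi (fun Q _ => pv_cast j Q) (fun Q _ => pv_cast j Q)

end Val

section Spec

variable {n1 n2 n3 e1 e2 e3 N h T1 T2 T3 : ℕ} {L2 L3 F1 F2 F3 : List (ℕ × ℕ)}
  {w3 w W Y1 Y0 : ℕ}
  [NeZero n1] [NeZero n2] [NeZero n3] [NeZero (n1 * n2)] [NeZero (n1 * n2 * n3)]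


theorem tabCkAll_specb (G : GoodTb n1 n2 n3 e1 e2 e3 N T1 T2 T3 L2 L3 w3 w W Y1 Y0)
    (hw16 : 16 ≤ w) {ds : List ℕ} {sh2 sh len3 : ℕ} {rows : List (ℕ × ℕ)}
    (hsh : sh = 80 * (L3.length - 1)) (hsh2 : sh2 = w3 * (L2.length - 1))
    (hl3 : len3 = F3.length)
    (hc : tabCkAll n1 n2 n3 N h T1 T2 T3 ds L2 L3 F1 F2 F3 w3 w sh2 sh W Y1 Y0 len3 rows = true) :
    TabOK n1 n2 n3 N h T1 T2 T3 F1 F2 F3 rows := by
  unfold tabCkAll at hc
  rw [ggl_eq, strict_eq, mapS_eq, mapS_eq] at hc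
  obtain ⟨hlen, hz⟩ := allZ_spec hc
  refine ⟨hlen, ?_⟩
  intro i1 i2 i3 f1 f2 f3 row h1 h2 h3 hr R S r1 s1 r2 s2 r3 s3 _
  have hf := hz i1 f1 row h1 hr
  unfold formCk at hf
  rw [strict_eq] at hf
  obtain ⟨hi, hk⟩ := fvec_spec hw16 G.hp.pos hf
  rw [strict_eq, strict_eq] at hk
  obtain ⟨kX, kY⟩ := boolrec_spec hk
  set d : ℕ := Nat.mod (Nat.add (Nat.mul f1.1 f1.1)
    (Nat.mul (nat_lit 4) (Nat.sub n1 f1.2))) n1 with hd0
  have hS1 : f1.2 ≤ n1 := by rw [← s1]; exact (rs_lt S).le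
  have hd : (d : ZMod n1) = ((R : ℤ) : ZMod n1) ^ 2 - 4 * (1 : ℤ) * (S : ℤ) := by
    have e : d = (f1.1 * f1.1 + 4 * (n1 - f1.2)) % n1 := rfl
    rw [e, ZMod.natCast_mod, Nat.cast_add, Nat.cast_mul, Nat.cast_mul, Nat.cast_sub hS1, ← r1,
      ← s1, rs_cast, rs_cast, ZMod.natCast_self]
    push_cast
    ring
  have v3eq : Nat.pow (nat_lit 2) w3 = 2 ^ w3 := rfl
  have h80 : (nat_lit 1208925819614629174706176 : ℕ) = 2 ^ 80 := by norm_num
  have g2 : (List.map (fun f : ℕ × ℕ => pv n2 T2 (Nat.pow (nat_lit 2) w3) L2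
      (Nat.mod (nat_lit 1) n2, f.1, f.2)) F2)[i2]? =
      some (pv n2 T2 (2 ^ w3) L2 (fkI n2 ⟨1, R, S, 1, 0⟩)) := by
    rw [List.getElem?_map, h2, Option.map_some, v3eq, rs_one']
    unfold fkI
    simp only
    rw [r2, s2]
  have g3 : (List.map (fun f : ℕ × ℕ => pv n3 T3 (nat_lit 1208925819614629174706176) L3
      (Nat.mod (nat_lit 1) n3, f.1, f.2)) F3)[i3]? =
      some (pv n3 T3 (2 ^ 80) L3 (fkI n3 ⟨1, R, S, 1, 0⟩)) := by
    rw [List.getElem?_map, h3, Option.map_some, rs_one', h80]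
    unfold fkI
    simp only
    rw [r3, s3]
  have hi' : 2 * rs n1 S * ii n1 (rs n1 S) % n1 = 1 := by rw [s1]; exact hi
  constructor
  · have a := rowCk_spec kX g2 g3
    have b := G.val ⟨1, R, S, 1, 0⟩ (κ := 1) (α := 0) le_rfl (by omega) (d := d) hd hi' hsh hsh2
    rw [Nat.cast_one, Nat.cast_zero, one_mul, zero_mul, add_zero] at b
    rw [← b, ← hl3, ← a]
    congr 3
    unfold rowX
    simp only [r1, s1]
    change _ = (W * packL (2 ^ w) (vf n1 T1 d f1.1 f1.2) (PL n1)) >>> (w * n1) % 2 ^ w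
    rw [Nat.shiftRight_eq_div_pow, one_mul, zero_mul, add_zero]
  · have a := rowCk_spec kY g2 g3
    have b := G.val ⟨1, R, S, 1, 0⟩ (κ := 0) (α := 1) (by omega) le_rfl (d := d) hd hi' hsh hsh2
    rw [Nat.cast_one, Nat.cast_zero, one_mul, zero_mul, zero_add] at b
    rw [← b, ← hl3, ← a]
    congr 3
    unfold rowX
    simp only [s1]
    rw [one_mul, zero_mul, zero_add]
    rfl

end Spec

end Pool.Agent.OEG.NV2t
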