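import Pool.Agent.OEG.WC
import Pool.Agent.OEG.StM

/-!
Project OEG, elimination for the first family, the other states (helper1): the steps of the check.
-/

set_option autoImplicit false

namespace Pool.Agent.OEG.Ot

open Pool.Agent.LibH4 Pool.Agent.LibH4.Ker
open Pool.Agent.Lib_helper5 Pool.Agent.Lib_helper5.LK Pool.Agent.Lib_helper5.TB
open Pool.Agent.LibH4.S7 (Rl)
open Pool.Agent.PSX.Ev (cp uncP uncN OSys cp_one)
open Pool.Agent.OEG.W
open Finset (range)

/-! ### records with a general order -/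

section

variable {n : ℕ} {p : ℤ} {o : ℕ} (hpo : (p : ZMod n) ^ o = 1)

include hpo

lemma pg_mod (a : ℕ) : (p : ZMod n) ^ (a % o) = (p : ZMod n) ^ a := by
  conv_rhs => rw [← Nat.div_add_mod a o, pow_add, pow_mul, hpo, one_pow, one_mul]

lemma pg_congr {a b : ℕ} (h : a % o = b % o) : (p : ZMod n) ^ a = (p : ZMod n) ^ b := by
  rw [← pg_mod hpo a, h, pg_mod hpo]

end

lemma recG_hit {n o : ℕ} (h1n : 1 < n) (ho : 0 < o) {ps : ℕ → ℕ → ℕ → ℕ} {bl bu : Bool}
    {p q b : ℤ} {m : ℕ} (hpc : (p : ZMod n) ^ o = 1) {ck : ℕ → Bool}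
    (hck : ck (rs n ((q * p ^ m + b) ^ 2 + 4 * sz bl * p ^ m)) = true) {e : Bool}
    {k : Rc → Bool}
    (h : recK n o ps bl bu (m % o) (rs n p) (rs n q) (rs n b) ck e k = true) :
    ∃ r, RcOK n ps (sz bl) (sz bu) p q b m r ∧ RcL o r ∧ k r = true := by
  have : NeZero n := ⟨by omega⟩
  have sl : sr bl n = rs n (sz bl) := sr_eq h1n bl
  have snl : sr (!bl) n = rs n (-sz bl) := by rw [sr_eq h1n, sz_not]
  have snu : sr (!bu) n = rs n (-sz bu) := by rw [sr_eq h1n, sz_not]
  have eX : Nat.mod (Nat.pow (rs n p) (m % o)) n = rs n (p ^ m) := by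
    change (rs n p ^ (m % o)) % n = _
    apply rs_of
    push_cast
    rw [rs_cast, pg_mod hpc]
  have eN' : Nat.mod (Nat.add (Nat.mul (rs n q) (rs n (p ^ m))) (rs n b)) n =
      rs n (q * p ^ m + b) := by
    change (rs n q * rs n (p ^ m) + rs n b) % n = _
    apply rs_of; push_cast; simp only [rs_cast]; push_cast; ring
  have eD : Nat.mod (Nat.add (Nat.mul (rs n (q * p ^ m + b)) (rs n (q * p ^ m + b)))
      (Nat.mul (nat_lit 4) (Nat.mul (sr bl n) (rs n (p ^ m))))) n =
      rs n ((q * p ^ m + b) ^ 2 + 4 * sz bl * p ^ m) := by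
    rw [sl]
    change (rs n _ * rs n _ + 4 * (rs n _ * rs n _)) % n = _
    apply rs_of; push_cast; simp only [rs_cast]; push_cast; ring
  have eN1 : Nat.mod (Nat.add (Nat.mul (rs n q) (rs n (p ^ m))) (Nat.sub n (rs n b))) n =
      rs n (q * p ^ m - b) := by
    change (rs n q * rs n (p ^ m) + (n - rs n b)) % n = _
    apply rs_of
    rw [Nat.cast_add, Nat.cast_sub (rs_lt b).le, Nat.cast_mul]
    simp only [rs_cast, ZMod.natCast_self]; push_cast; ring
  have eip : Nat.mod (Nat.pow (rs n p) (Nat.sub o (nat_lit 1))) n = rs n (p ^ (o - 1)) := by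
    change (rs n p ^ (o - 1)) % n = _
    apply rs_of; push_cast; rw [rs_cast]
  have eS : ∀ s : ℤ, Nat.mod (Nat.mul (rs n s) (Nat.mul (rs n (p ^ m)) (rs n p))) n =
      rs n (s * p ^ (m + 1)) := by
    intro s
    change (rs n s * (rs n (p ^ m) * rs n p)) % n = _
    apply rs_of; push_cast; simp only [rs_cast]; push_cast; ring
  have ev : ∀ s : ℤ, Nat.mod (Nat.mul (rs n s) (Nat.mul (rs n q) (rs n (p ^ (o - 1))))) n =
      rs n (s * q * p ^ (o - 1)) := by
    intro s
    change (rs n s * (rs n q * rs n _)) % n = _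
    apply rs_of; push_cast; simp only [rs_cast]; push_cast; ring
  have eb : Nat.mod (Nat.mul (sr (!bl) n) (rs n b)) n = rs n (-(sz bl * b)) := by
    rw [snl]
    change (rs n _ * rs n b) % n = _
    apply rs_of; push_cast; simp only [rs_cast]; push_cast; ring
  have hpp : (p : ZMod n) * (p : ZMod n) ^ (o - 1) = 1 := by
    rw [← pow_succ', show o - 1 + 1 = o by omega, hpc]
  unfold recK at h
  simp only [strict_eq] at h
  rw [eX, eN', eD, hck] at h
  replace h : _ = true := h
  simp only [] at h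
  rw [eN1, eip, snl, snu, eS, eS, ev, ev] at h
  rw [orb_eq (gP := fun j => rs n (p ^ j))
    (gS := fun j => rs n (-sz bl * p ^ (m + (o - j)))) (o := o)
    (by
      intro j hj
      apply rs_of
      push_cast
      simp only [rs_cast]
      push_cast
      rw [pow_succ, mul_assoc, hpp, mul_one])
    (by
      intro j hj
      apply rs_of
      push_cast
      simp only [rs_cast]
      push_cast
      rw [show m + (o - j) = m + (o - (j + 1)) + 1 by omega, pow_succ]
      ring) o le_rfl _ _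
    (by
      intro _
      refine ⟨rfl, ?_⟩
      rw [show o - (o - 1) = 1 by omega])] at h
  rw [orb_eq (gP := fun j => rs n (p ^ (j + 1)))
    (gS := fun j => rs n (-sz bu * p ^ (m + (o - j)))) (o := o)
    (by
      intro j hj
      apply rs_of
      push_cast
      simp only [rs_cast]
      push_cast
      rw [pow_succ _ (j + 1), mul_assoc, hpp, mul_one])
    (by
      intro j hj
      apply rs_of
      push_cast
      simp only [rs_cast]
      push_cast
      rw [show m + (o - j) = m + (o - (j + 1)) + 1 by omega, pow_succ]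
      ring) o le_rfl _ _
    (by
      intro _
      constructor
      · rw [show o - 1 + 1 = o by omega]
        have : (1 : ℕ) % n = rs n (p ^ o) := by
          apply rs_of
          push_cast
          rw [hpc]
        rw [Nat.mod_eq_of_lt h1n] at this
        exact this
      · rw [show o - (o - 1) = 1 by omega])] at h
  rw [alO_eq (g := fun j => rs n (-(sz bl * q * p ^ j))) (o := o)
    (by
      intro j hj
      apply rs_of
      push_cast
      simp only [rs_cast]
      push_cast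
      linear_combination (-((sz bl : ℤ) : ZMod n) * q * (p : ZMod n) ^ j) * hpp)
    o le_rfl _ (by intro _; congr 1; ring)] at h
  rw [alO_eq (g := fun j => rs n (-(sz bu * q * p ^ j))) (o := o)
    (by
      intro j hj
      apply rs_of
      push_cast
      simp only [rs_cast]
      push_cast
      linear_combination (-((sz bu : ℤ) : ZMod n) * q * (p : ZMod n) ^ j) * hpp)
    o le_rfl _ (by intro _; congr 1; ring)] at h
  rw [← snl, eb] at h
  have rc : ∀ {x y : ℤ}, (x : ZMod n) = y → rs n x = rs n y := by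
    intro x y hxy
    unfold rs
    rw [hxy]
  refine ⟨_, ⟨rfl, rfl, rfl, ?_, ?_, ?_, ?_, rfl⟩, ⟨by simp, by simp, by simp, by simp⟩, h⟩
  · intro j hj
    simp only [List.append_nil]
    rw [cy_map_range _ ho]
    unfold cp eN
    simp only []
    have e1 : rs n (p ^ (j % o)) = rs n (p ^ j) := rc (by push_cast; exact pg_mod hpc j)
    have e2 : rs n (-sz bl * p ^ (m + (o - j % o))) = rs n (-(sz bl * p ^ (m - j))) := by
      apply rc
      push_cast
      rw [pg_congr hpc (a := m + (o - j % o)) (b := m - j)]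
      · ring
      · obtain ⟨i, hi⟩ : ∃ i, m = j + i := ⟨m - j, by omega⟩
        have hj1 : j % o < o := Nat.mod_lt _ ho
        have hdm := Nat.div_add_mod j o
        have e5 : m + (o - j % o) = i + o * (j / o + 1) := by
          rw [hi, mul_add, mul_one]
          omega
        rw [e5, Nat.add_mul_mod_self_left]
        congr 1
        omega
    rw [e1, e2]
  · intro j hj
    simp only [List.append_nil]
    rw [cy_map_range _ ho]
    unfold cp eM
    simp only []
    have e1 : rs n (p ^ (j % o + 1)) = rs n (p ^ (j + 1)) := by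
      apply rc
      push_cast
      rw [pow_succ, pow_succ, pg_mod hpc j]
    have e2 : rs n (-sz bu * p ^ (m + (o - j % o))) = rs n (-(sz bu * p ^ (m - j))) := by
      apply rc
      push_cast
      rw [pg_congr hpc (a := m + (o - j % o)) (b := m - j)]
      · ring
      · obtain ⟨i, hi⟩ : ∃ i, m = j + i := ⟨m - j, by omega⟩
        have hj1 : j % o < o := Nat.mod_lt _ ho
        have hdm := Nat.div_add_mod j o
        have e5 : m + (o - j % o) = i + o * (j / o + 1) := by
          rw [hi, mul_add, mul_one]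
          omega
        rw [e5, Nat.add_mul_mod_self_left]
        congr 1
        omega
    rw [e1, e2]
  · intro j
    simp only [List.append_nil]
    rw [cy_map_range _ ho]
    apply rc
    push_cast
    rw [pg_mod hpc]
  · intro j
    simp only [List.append_nil]
    rw [cy_map_range _ ho]
    apply rc
    push_cast
    rw [pg_mod hpc]


/-! ### packed tables -/

/-- the packed number of a list -/
def pkv (W : ℕ) : List ℕ → ℕ
  | [] => 0
  | x :: L => x + pkv W L * 2 ^ W

lemma pkv_get (W : ℕ) (L : List ℕ) (h : ∀ x ∈ L, x < 2 ^ W) (i : ℕ) :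
    (pkv W L >>> (W * i)) % 2 ^ W = L.getD i 0 := by
  induction L generalizing i with
  | nil => simp [pkv]
  | cons x L ih =>
    have hx := h x (by simp)
    cases i with
    | zero =>
      simp only [pkv, Nat.mul_zero, Nat.shiftRight_zero, List.getD_cons_zero]
      rw [Nat.add_mul_mod_self_right, Nat.mod_eq_of_lt hx]
    | succ i =>
      rw [List.getD_cons_succ, ← ih (fun y hy => h y (by simp [hy])) i]
      congr 1
      have e : W * (i + 1) = W + W * i := by ring
      rw [e, Nat.shiftRight_add]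
      congr 1
      rw [Nat.shiftRight_eq_div_pow]
      simp only [pkv]
      rw [Nat.add_mul_div_right _ _ (by positivity), Nat.div_eq_of_lt hx, Nat.zero_add]

/-- pack the rows of a table -/
def pkF (W : ℕ) (rows : List (ℕ × ℕ)) : ℕ → ℕ → ℕ → (ℕ → ℕ → Bool) → Bool :=
  @List.rec (ℕ × ℕ) (fun _ => ℕ → ℕ → ℕ → (ℕ → ℕ → Bool) → Bool) (fun _ aX aY k => k aX aY)
    (fun row _ ih sh aX aY k =>
      strict (Nat.add aX (Nat.shiftLeft row.1 sh)) fun aX =>
      strict (Nat.add aY (Nat.shiftLeft row.2 sh)) fun aY =>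
      strict (Nat.add sh W) fun sh => ih sh aX aY k) rows

lemma pkF_eq (W : ℕ) (rows : List (ℕ × ℕ)) (sh aX aY : ℕ) (k : ℕ → ℕ → Bool) :
    pkF W rows sh aX aY k = k (aX + pkv W (rows.map Prod.fst) * 2 ^ sh)
      (aY + pkv W (rows.map Prod.snd) * 2 ^ sh) := by
  induction rows generalizing sh aX aY with
  | nil => simp [pkF, pkv]
  | cons row rows ih =>
    have e : pkF W (row :: rows) sh aX aY k = strict (aX + row.1 <<< sh) fun aX =>
      strict (aY + row.2 <<< sh) fun aY => strict (sh + W) fun sh => pkF W rows sh aX aY k := rfl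
    rw [e, strict_eq, strict_eq, strict_eq, ih]
    simp only [List.map_cons, pkv, Nat.shiftLeft_eq]
    congr 1 <;> ring

/-- the rows are short -/
def okW (W : ℕ) (rows : List (ℕ × ℕ)) : Bool :=
  OEG.W.allL (fun r => @Bool.rec (fun _ => Bool) false (Nat.ble (Nat.succ r.2) (Nat.pow (nat_lit 2) W))
    (Nat.ble (Nat.succ r.1) (Nat.pow (nat_lit 2) W))) rows

lemma okW_spec {W : ℕ} {rows : List (ℕ × ℕ)} (h : okW W rows = true) :
    (∀ x ∈ rows.map Prod.fst, x < 2 ^ W) ∧ (∀ x ∈ rows.map Prod.snd, x < 2 ^ W) := by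
  constructor
  · intro x hx
    obtain ⟨r, hr, rfl⟩ := List.mem_map.1 hx
    obtain ⟨h1, h2⟩ := boolrec_spec (OEG.W.allL_spec h r hr)
    exact Nat.le_of_ble_eq_true h1
  · intro x hx
    obtain ⟨r, hr, rfl⟩ := List.mem_map.1 hx
    obtain ⟨h1, h2⟩ := boolrec_spec (OEG.W.allL_spec h r hr)
    exact Nat.le_of_ble_eq_true h2

/-- the term of a packed table -/
def tmP (t1 t2 t3 BX BY W PW len3 : ℕ) : Tm := fun x y z w =>
  strict (Nat.add (Nat.mul y.2 len3) z.2) fun i => strict (Nat.mul W x.2) fun s =>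
    Nat.mul (Nat.mul (Nat.mul (dig t1 x.1) (dig t2 y.1)) (dig t3 z.1))
      (Nat.add (Nat.mul (nat_lit 3) (dig (Nat.mod (Nat.shiftRight BX s) PW) i))
        (Nat.mul w (dig (Nat.mod (Nat.shiftRight BY s) PW) i)))

lemma getD_map {α β : Type} (f : α → β) (L : List α) (i : ℕ) (d : α) :
    (L.map f).getD i (f d) = f (L.getD i d) := by
  induction L generalizing i with
  | nil => rfl
  | cons x L ih =>
    cases i with
    | zero => rfl
    | succ i => rw [List.map_cons, List.getD_cons_succ, List.getD_cons_succ, ih]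

lemma tmP_eq {W : ℕ} {rows : List (ℕ × ℕ)} (h : okW W rows = true) (t1 t2 t3 len3 : ℕ)
    (x y z : ℕ × ℕ) (w : ℕ) :
    tmP t1 t2 t3 (pkv W (rows.map Prod.fst)) (pkv W (rows.map Prod.snd)) W (2 ^ W) len3 x y z w =
      OEG.W.vf t1 t2 t3 (tX rows len3) (tY rows len3) x y z w := by
  obtain ⟨h1, h2⟩ := okW_spec h
  have g1 := pkv_get W _ h1 x.2
  have g2 := pkv_get W _ h2 x.2
  have k1 := getD_map Prod.fst rows x.2 (0, 0)
  have k2 := getD_map Prod.snd rows x.2 (0, 0)
  unfold tmP OEG.W.vf tX tY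
  rw [strict_eq, strict_eq]
  simp only [] at k1 k2
  have e1 : Nat.mod (Nat.shiftRight (pkv W (rows.map Prod.fst)) (Nat.mul W x.2)) (2 ^ W) =
      (rows.getD x.2 (0, 0)).1 := by rw [← k1]; exact g1
  have e2 : Nat.mod (Nat.shiftRight (pkv W (rows.map Prod.snd)) (Nat.mul W x.2)) (2 ^ W) =
      (rows.getD x.2 (0, 0)).2 := by rw [← k2]; exact g2
  rw [e1, e2]
  rfl

/-! ### one relation -/

/-- packed data of a relation -/
structure Pk where
  /-- character -/
  t1 : ℕ
  /-- character -/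
  t2 : ℕ
  /-- character -/
  t3 : ℕ
  /-- table -/
  BX : ℕ
  /-- table -/
  BY : ℕ
  /-- width -/
  W : ℕ
  /-- a power of `2` -/
  PW : ℕ
  /-- length -/
  len3 : ℕ
  /-- modulus -/
  l : ℕ

/-- the packed data -/
def pkOf (r : Rl) (W : ℕ) : Pk := ⟨r.t1, r.t2, r.t3, pkv W (r.rows.map Prod.fst),
  pkv W (r.rows.map Prod.snd), W, 2 ^ W, r.len3, r.l⟩

/-- compute the packed data -/
def mkP (r : Rl) (W : ℕ) (k : Pk → Bool) : Bool :=
  strict r.t1 fun t1 => strict r.t2 fun t2 => strict r.t3 fun t3 => strict r.len3 fun len3 =>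
  strict r.l fun l => strict (Nat.pow (nat_lit 2) W) fun PW =>
  pkF W r.rows (nat_lit 0) (nat_lit 0) (nat_lit 0) fun BX BY => k ⟨t1, t2, t3, BX, BY, W, PW, len3, l⟩

lemma mkP_eq (r : Rl) (W : ℕ) (k : Pk → Bool) : mkP r W k = k (pkOf r W) := by
  unfold mkP
  simp only [strict_eq, pkF_eq]
  have hz : (nat_lit 0) = 0 := rfl
  rw [hz, Nat.zero_add, Nat.zero_add, Nat.pow_zero, Nat.mul_one, Nat.mul_one]
  rfl

/-- the relation for the records `A, B, C`, letters of `w` -/
def rl1 (K : Pk) (lam : ℕ) (A B C w : Rc) (mm M : ℕ) (k : ℕ → Bool) : Bool :=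
  strict (Nat.mod mm lam) fun ml => strict (Nat.sub lam (Nat.succ ml)) fun rr =>
  match K with
  | ⟨t1, t2, t3, BX, BY, W, PW, len3, l⟩ =>
  relM l lam (tmP t1 t2 t3 BX BY W PW len3) A.c0 B.c0 C.c0 w.a0 A.c1 B.c1 C.c1 w.a1 w.be ml rr M
    true k

/-- the position function of a component -/
abbrev ps1 (r : Rl) : ℕ → ℕ → ℕ → ℕ := pos r.n1 r.ex1 r.PT1
/-- the position function of a component -/
abbrev ps2 (r : Rl) : ℕ → ℕ → ℕ → ℕ := pos r.n2 r.ex2 r.PT2
/-- the position function of a component -/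
abbrev ps3 (r : Rl) : ℕ → ℕ → ℕ → ℕ := pos r.n3 r.ex3 r.PT3

lemma HV_of {r : Rl} {l u p q b : ℤ} {m : ℕ} (h : Hj r (J1 l u p q b m)) :
    HV r.n1 r.n2 r.n3 r.l (ps1 r) (ps2 r) (ps3 r) r.t1 r.t2 r.t3 (tX r.rows r.len3)
      (tY r.rows r.len3) (J1 l u p q b m) := by
  unfold HV
  unfold Hj at h
  rw [← h]
  congr 2
  apply List.map_congr_left
  intro e he
  have hk : e.κ = 3 := by
    unfold J1 at he
    rcases List.mem_append.1 he with he | he
    · obtain ⟨j, _, rfl⟩ := List.mem_map.1 he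
      rfl
    · obtain ⟨j, _, rfl⟩ := List.mem_map.1 he
      rfl
  unfold OEG.W.vf cp Rl.val fval
  rw [hk]

/-- lengths of a record divide the period -/
structure RcD (lam : ℕ) (r : Rc) : Prop where
  c0 : r.c0.length ∣ lam
  c1 : r.c1.length ∣ lam
  a0 : r.a0.length ∣ lam
  a1 : r.a1.length ∣ lam

lemma dvL {o lam : ℕ} {r : Rc} (h : RcL o r) (hd : o ∣ lam) : RcD lam r :=
  ⟨by rw [h.c0]; exact hd, by rw [h.c1]; exact hd, by rw [h.a0]; exact hd, by rw [h.a1]; exact hd⟩

lemma nil_of {α : Type} {L : List α} {lam : ℕ} (h : L.length ∣ lam) (h0 : 0 < lam) : L ≠ [] := by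
  rintro rfl
  rw [List.length_nil, Nat.zero_dvd] at h
  omega

theorem rl1_spec {r : Rl} {W : ℕ} (hW : okW W r.rows = true) {l u p q b : ℤ} {m : ℕ}
    (hj : Hj r (J1 l u p q b m)) (hL : r.l.Prime) {lam mm : ℕ} (h0 : 0 < lam)
    (hm : m % lam = mm % lam) {A B C w : Rc} {psw : ℕ → ℕ → ℕ → ℕ}
    (hA : RcOK r.n1 (ps1 r) l u p q b m A) (hB : RcOK r.n2 (ps2 r) l u p q b m B)
    (hC : RcOK r.n3 (ps3 r) l u p q b m C) (hw : RcOK r.l psw l u p q b m w)
    (dA : RcD lam A) (dB : RcD lam B) (dC : RcD lam C) (dw : RcD lam w)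
    {M : ℕ} (hM : M.testBit (m % r.l) = true) {k : ℕ → Bool}
    (hk : rl1 (pkOf r W) lam A B C w mm M k = true) :
    ∃ M', M'.testBit (m % r.l) = true ∧ k M' = true := by
  unfold rl1 at hk
  simp only [strict_eq] at hk
  have hml : mm % lam < lam := Nat.mod_lt _ h0
  refine relM_spec hL (HV_of hj) (lam := lam) (ml := mm % lam) (t := m / lam)
    (r := lam - (mm % lam + 1)) ?_ (by omega) (F := tmP r.t1 r.t2 r.t3
      (pkv W (r.rows.map Prod.fst)) (pkv W (r.rows.map Prod.snd)) W (2 ^ W) r.len3)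
    (fun x y z w => tmP_eq hW _ _ _ _ x y z w) hA.c0 hB.c0 hC.c0 hA.c1 hB.c1 hC.c1 hw.a0 hw.a1
    hw.be (nil_of dA.c0 h0) (nil_of dB.c0 h0) (nil_of dC.c0 h0) (nil_of dw.a0 h0)
    (nil_of dA.c1 h0) (nil_of dB.c1 h0) (nil_of dC.c1 h0) (nil_of dw.a1 h0)
    dA.c0 dB.c0 dC.c0 dA.c1 dB.c1 dC.c1 dw.a0 dw.a1 hM (e := true) hk
  rw [← hm, Nat.div_add_mod]

/-! ### the trivial component -/

/-- the record of the trivial component -/
def r1 : Rc := ⟨nat_lit 0, nat_lit 0, nat_lit 0, [(nat_lit 0, nat_lit 0)], [(nat_lit 0, nat_lit 0)],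
  [nat_lit 0], [nat_lit 0], nat_lit 0⟩

lemma rs_one0 (x : ℤ) : rs 1 x = 0 := by
  have := rs_lt (p := 1) x
  omega

lemma r1_ok (l u p q b : ℤ) (m : ℕ) : RcOK 1 (pos 1 0 PT1) l u p q b m r1 where
  P := (rs_one0 _).symm
  Q := (rs_one0 _).symm
  B := (rs_one0 _).symm
  c0 j _ := by
    rw [cp_one]
    unfold cy r1
    simp [Nat.mod_one]
  c1 j _ := by
    rw [cp_one]
    unfold cy r1
    simp [Nat.mod_one]
  a0 j := by
    rw [rs_one0]
    unfold cy r1
    simp [Nat.mod_one]
  a1 j := by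
    rw [rs_one0]
    unfold cy r1
    simp [Nat.mod_one]
  be := (rs_one0 _).symm

lemma r1_d (lam : ℕ) : RcD lam r1 :=
  ⟨one_dvd _, one_dvd _, one_dvd _, one_dvd _⟩

/-! ### classes -/

/-- the classes modulo `n` -/
def cls (n : ℕ) (bl bu : Bool) (k : ℕ → ℕ → ℕ → Bool) : Bool :=
  strict (sr bl n) fun s => strict (sr bu n) fun t =>
  allR (fun q => allR (fun b =>
    strict (Nat.mod (Nat.mul t (Nat.add (Nat.mul q b) s)) n) fun p =>
      impB (Nat.beq (Nat.gcd p n) (nat_lit 1)) (k p q b)) n) n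

lemma sz_sq (s : Bool) : sz s * sz s = 1 := by cases s <;> rfl

lemma rs_gcd {n : ℕ} [NeZero n] {p : ℤ} (hp : IsUnit (p : ZMod n)) : Nat.gcd (rs n p) n = 1 := by
  rw [← rs_cast p, ZMod.isUnit_iff_coprime] at hp
  exact hp

lemma cls_spec {n : ℕ} (hn : 1 < n) {bl bu : Bool} {p q b : ℤ} (hp : IsUnit (p : ZMod n))
    (hqb : q * b = sz bu * p - sz bl) {k : ℕ → ℕ → ℕ → Bool} (h : cls n bl bu k = true) :
    k (rs n p) (rs n q) (rs n b) = true := by
  have : NeZero n := ⟨by omega⟩
  unfold cls at h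
  simp only [strict_eq] at h
  have h1 := allR_spec (allR_spec h _ (rs_lt q)) _ (rs_lt b)
  have e : Nat.mod (Nat.mul (sr bu n) (Nat.add (Nat.mul (rs n q) (rs n b)) (sr bl n))) n =
      rs n p := by
    rw [sr_eq hn, sr_eq hn]
    change (rs n _ * (rs n q * rs n b + rs n _)) % n = _
    apply rs_of
    push_cast
    simp only [rs_cast]
    have h2 : sz bu * (q * b + sz bl) = p := by
      rw [hqb]
      linear_combination p * sz_sq bu
    rw [← h2]
    push_cast
    ring
  rw [e] at h1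
  exact impB_spec h1 (by rw [rs_gcd hp]; rfl)

/-- the classes modulo `8` above a class modulo `4` -/
def cls8 (bl bu : Bool) (q b : ℕ) (k : ℕ → ℕ → ℕ → Bool) : Bool :=
  strict (sr bl (nat_lit 8)) fun s => strict (sr bu (nat_lit 8)) fun t =>
  allR (fun i => allR (fun j =>
    strict (Nat.add q (Nat.mul (nat_lit 4) i)) fun q => strict (Nat.add b (Nat.mul (nat_lit 4) j))
      fun b => strict (Nat.mod (Nat.mul t (Nat.add (Nat.mul q b) s)) (nat_lit 8)) fun p =>
      k p q b) (nat_lit 2)) (nat_lit 2)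

lemma rs84 (x : ℤ) : rs 4 x + 4 * (rs 8 x / 4) = rs 8 x := by
  have h1 : rs 8 x % 4 = rs 4 x := by
    apply rs_of
    have h2 : ((rs 8 x : ℕ) : ZMod 8) = (x : ZMod 8) := rs_cast x
    have h3 := congrArg (ZMod.castHom (show 4 ∣ 8 by norm_num) (ZMod 4)) h2
    simpa using h3
  omega

lemma cls8_spec {bl bu : Bool} {p q b : ℤ}
    (hqb : q * b = sz bu * p - sz bl) {k : ℕ → ℕ → ℕ → Bool}
    (h : cls8 bl bu (rs 4 q) (rs 4 b) k = true) : k (rs 8 p) (rs 8 q) (rs 8 b) = true := by
  unfold cls8 at h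
  simp only [strict_eq] at h
  have l8 : ∀ x : ℤ, rs 8 x / 4 < 2 := fun x => by
    have := rs_lt (p := 8) x
    omega
  have h1 := allR_spec (allR_spec h _ (l8 q)) _ (l8 b)
  have e1 : Nat.add (rs 4 q) (Nat.mul (nat_lit 4) (rs 8 q / 4)) = rs 8 q := rs84 q
  have e2 : Nat.add (rs 4 b) (Nat.mul (nat_lit 4) (rs 8 b / 4)) = rs 8 b := rs84 b
  have e : Nat.mod (Nat.mul (sr bu 8) (Nat.add (Nat.mul (rs 8 q) (rs 8 b)) (sr bl 8))) 8 =
      rs 8 p := by
    rw [sr_eq (by norm_num), sr_eq (by norm_num)]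
    change (rs 8 _ * (rs 8 q * rs 8 b + rs 8 _)) % 8 = _
    apply rs_of
    push_cast
    simp only [rs_cast]
    have h2 : sz bu * (q * b + sz bl) = p := by
      rw [hqb]
      linear_combination p * sz_sq bu
    rw [← h2]
    push_cast
    ring
  rw [e1, e2] at h1
  have e' : Nat.mod (Nat.mul (sr bu (nat_lit 8)) (Nat.add (Nat.mul (rs 8 q) (rs 8 b))
    (sr bl (nat_lit 8)))) (nat_lit 8) = rs 8 p := e
  rw [e'] at h1
  exact h1

/-! ### discriminants -/

/-- non residue -/
def ckO (n D : ℕ) : Bool :=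
  Nat.beq (Nat.mod (Nat.pow D (Nat.div n (nat_lit 2))) n) (Nat.sub n (nat_lit 1))

lemma ckO_of {n : ℕ} {D : ℤ} (h : K5.In n D) : ckO n (rs n D) = true := h

lemma ck4_of {D : ℤ} (h : D % 8 = 5) : Nat.beq (rs 4 D) (nat_lit 1) = true := by
  have h1 : rs 4 D = 1 := by
    have : (1 : ℕ) % 4 = rs 4 D := by
      apply rs_of
      have e : (((1 : ℕ) : ℤ) : ZMod 4) = ((D : ℤ) : ZMod 4) := by
        rw [ZMod.intCast_eq_intCast_iff_dvd_sub]
        push_cast
        omega
      exact_mod_cast e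
    omega
  rw [h1]
  rfl

lemma ck8_of {D : ℤ} (h : D % 8 = 5) : Nat.beq (rs 8 D) (nat_lit 5) = true := by
  have h1 : rs 8 D = 5 := by
    have : (5 : ℕ) % 8 = rs 8 D := by
      apply rs_of
      have e : (((5 : ℕ) : ℤ) : ZMod 8) = ((D : ℤ) : ZMod 8) := by
        rw [ZMod.intCast_eq_intCast_iff_dvd_sub]
        push_cast
        omega
      exact_mod_cast e
    omega
  rw [h1]
  rfl

end Pool.Agent.OEG.Ot
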