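import Pool.Agent.OEG.Oth1

/-!
Project OEG, elimination for the first family, the other states (helper1): the check.
-/

set_option autoImplicit false

namespace Pool.Agent.OEG.Ot

open Pool.Agent.LibH4 Pool.Agent.LibH4.Ker
open Pool.Agent.Lib_helper5 Pool.Agent.Lib_helper5.LK Pool.Agent.Lib_helper5.TB
open Pool.Agent.LibH4.S7 (Rl)
open Pool.Agent.PSX.Ev (cp uncP uncN OSys cp_one)
open Pool.Agent.PSX.K
open Pool.Agent.OEG.W
open Finset (range)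

/-- positions -/
abbrev z3 : ℕ → ℕ → ℕ → ℕ := pos (nat_lit 3) (nat_lit 1) PT3
/-- positions -/
abbrev z4 : ℕ → ℕ → ℕ → ℕ := pos (nat_lit 4) (nat_lit 1) PT4
/-- positions -/
abbrev z5 : ℕ → ℕ → ℕ → ℕ := pos (nat_lit 5) (nat_lit 3) PT5
/-- positions -/
abbrev z7 : ℕ → ℕ → ℕ → ℕ := pos (nat_lit 7) (nat_lit 5) PT7
/-- positions -/
abbrev z8 : ℕ → ℕ → ℕ → ℕ := pos (nat_lit 8) (nat_lit 1) PT8
/-- positions -/
abbrev z11 : ℕ → ℕ → ℕ → ℕ := pos (nat_lit 11) (nat_lit 9) PT11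
/-- positions -/
abbrev z13 : ℕ → ℕ → ℕ → ℕ := pos (nat_lit 13) (nat_lit 11) PT13
/-- positions -/
abbrev z19 : ℕ → ℕ → ℕ → ℕ := pos (nat_lit 19) (nat_lit 17) PT19

/-- the packed relations -/
structure Ks where
  /-- relation -/
  k455F5 : Pk
  /-- relation -/
  k364F13a : Pk
  /-- relation -/
  k364F13b : Pk
  /-- relation -/
  k140N13 : Pk
  /-- relation -/
  k312F13 : Pk
  /-- relation -/
  k520F5 : Pk
  /-- relation -/
  k88F11 : Pk
  /-- relation -/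
  k616F11 : Pk
  /-- relation -/
  k308F7 : Pk
  /-- relation -/
  k143N5 : Pk
  /-- relation -/
  k143N7 : Pk
  /-- relation -/
  k616N13 : Pk
  /-- relation -/
  k152F19a : Pk
  /-- relation -/
  k152F19b : Pk
  /-- relation -/
  k133N13 : Pk
  /-- relation -/
  k95N13 : Pk

/-- the packed relations -/
def ks : Ks := ⟨pkOf R455F5 2048,
  pkOf R364F13a 1024,
  pkOf R364F13b 1024,
  pkOf R140N13 512,
  pkOf R312F13 512,
  pkOf R520F5 2048,
  pkOf R88F11 128,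
  pkOf R616F11 4096,
  pkOf R308F7 1024,
  pkOf R143N5 1024,
  pkOf R143N7 1024,
  pkOf R616N13 4096,
  pkOf R152F19a 128,
  pkOf R152F19b 128,
  pkOf R133N13 256,
  pkOf R95N13 128⟩

/-- compute the packed relations -/
def mkK (k : Ks → Bool) : Bool :=
  mkP R455F5 (nat_lit 2048) fun k455F5 =>
  mkP R364F13a (nat_lit 1024) fun k364F13a =>
  mkP R364F13b (nat_lit 1024) fun k364F13b =>
  mkP R140N13 (nat_lit 512) fun k140N13 =>
  mkP R312F13 (nat_lit 512) fun k312F13 =>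
  mkP R520F5 (nat_lit 2048) fun k520F5 =>
  mkP R88F11 (nat_lit 128) fun k88F11 =>
  mkP R616F11 (nat_lit 4096) fun k616F11 =>
  mkP R308F7 (nat_lit 1024) fun k308F7 =>
  mkP R143N5 (nat_lit 1024) fun k143N5 =>
  mkP R143N7 (nat_lit 1024) fun k143N7 =>
  mkP R616N13 (nat_lit 4096) fun k616N13 =>
  mkP R152F19a (nat_lit 128) fun k152F19a =>
  mkP R152F19b (nat_lit 128) fun k152F19b =>
  mkP R133N13 (nat_lit 256) fun k133N13 =>
  mkP R95N13 (nat_lit 128) fun k95N13 =>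
  k ⟨k455F5, k364F13a, k364F13b, k140N13, k312F13, k520F5, k88F11, k616F11, k308F7, k143N5, k143N7, k616N13, k152F19a, k152F19b, k133N13, k95N13⟩

lemma mkK_eq (k : Ks → Bool) : mkK k = k ks := by
  unfold mkK
  rw [mkP_eq, mkP_eq, mkP_eq, mkP_eq, mkP_eq, mkP_eq, mkP_eq, mkP_eq, mkP_eq, mkP_eq, mkP_eq, mkP_eq, mkP_eq, mkP_eq, mkP_eq, mkP_eq]
  rfl

/-- the check modulo `19` -/
def ck19 (K : Ks) (bl bu : Bool) (mm M13 : ℕ) (r13 r7 r5 r8 : Rc) : Bool :=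
  allR (fun i => strict (Nat.add mm (Nat.mul (nat_lit 12) i)) fun mm =>
    strict (Nat.mod mm (nat_lit 18)) fun m18 =>
    cls (nat_lit 19) bl bu fun p q b =>
    recK (nat_lit 19) (nat_lit 18) z19 bl bu m18 p q b (ckO (nat_lit 19)) true fun r19 =>
    rl1 K.k152F19a (nat_lit 18) r19 r8 r1 r19 mm (nat_lit 524287) fun M19 =>
    rl1 K.k152F19b (nat_lit 18) r19 r8 r1 r19 mm M19 fun _ =>
    rl1 K.k133N13 (nat_lit 36) r19 r7 r1 r13 mm M13 fun _ =>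
    rl1 K.k95N13 (nat_lit 36) r19 r5 r1 r13 mm M13 fun _ => false) (nat_lit 3)

/-- the check modulo `11` -/
def ck11 (K : Ks) (bl bu : Bool) (mm M13 M5 : ℕ) (r13 r7 r5 r4 r8 : Rc) : Bool :=
  allR (fun j => strict (Nat.add mm (Nat.mul (nat_lit 12) j)) fun mj =>
    strict (Nat.pow (nat_lit 2) (Nat.mod mj (nat_lit 5))) fun N5 =>
    strict (Nat.mod mj (nat_lit 10)) fun m10 =>
    @Bool.rec (fun _ => Bool)
    (cls (nat_lit 11) bl bu fun p q b =>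
    recK (nat_lit 11) (nat_lit 10) z11 bl bu m10 p q b (ckO (nat_lit 11)) true fun r11 =>
    rl1 K.k88F11 (nat_lit 10) r11 r8 r1 r11 mj (nat_lit 2047) fun M11 =>
    rl1 K.k616F11 (nat_lit 30) r11 r7 r8 r11 mj M11 fun _ =>
    rl1 K.k308F7 (nat_lit 30) r11 r7 r4 r7 mj (nat_lit 127) fun M7 =>
    rl1 K.k143N5 (nat_lit 60) r11 r13 r1 r5 mj N5 fun _ =>
    rl1 K.k143N7 (nat_lit 60) r11 r13 r1 r7 mj M7 fun _ =>
    rl1 K.k616N13 (nat_lit 60) r11 r7 r8 r13 mj M13 fun _ =>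
    ck19 K bl bu mm M13 r13 r7 r5 r8)
    true (Nat.beq (Nat.land M5 N5) (nat_lit 0))) (nat_lit 5)

/-- the check modulo `4` and `8` -/
def ck48 (K : Ks) (bl bu : Bool) (mm M13 M5 : ℕ) (r13 r7 r5 r3 : Rc) : Bool :=
  strict (Nat.mod mm (nat_lit 2)) fun m2 =>
  cls (nat_lit 4) bl bu fun p q b =>
  recK (nat_lit 4) (nat_lit 2) z4 bl bu m2 p q b (fun D => Nat.beq D (nat_lit 1)) true fun r4 =>
  rl1 K.k364F13a (nat_lit 12) r13 r7 r4 r13 mm M13 fun _ =>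
  rl1 K.k364F13b (nat_lit 12) r13 r7 r4 r13 mm M13 fun _ =>
  rl1 K.k140N13 (nat_lit 12) r7 r5 r4 r13 mm M13 fun _ =>
  cls8 bl bu q b fun p q b =>
  recK (nat_lit 8) (nat_lit 2) z8 bl bu m2 p q b (fun D => Nat.beq D (nat_lit 5)) true fun r8 =>
  rl1 K.k312F13 (nat_lit 12) r13 r8 r3 r13 mm M13 fun _ =>
  rl1 K.k520F5 (nat_lit 12) r13 r5 r8 r5 mm M5 fun M5 =>
  ck11 K bl bu mm M13 M5 r13 r7 r5 r4 r8

/-- the check of a state -/
def ckS (K : Ks) (bl bu : Bool) (s : List ℕ) : Bool :=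
  uncN s fun mm s => uncN s fun mt s => uncN s fun p13 s => uncN s fun q13 s => uncN s fun b13 s =>
  uncN s fun p7 s => uncN s fun q7 s => uncN s fun b7 s =>
  uncN s fun p5 s => uncN s fun q5 s => uncN s fun b5 s =>
  uncN s fun p3 s => uncN s fun q3 s => uncN s fun b3 _ =>
  strict (Nat.mod mm (nat_lit 6)) fun m6 => strict (Nat.mod mm (nat_lit 4)) fun m4 =>
  strict (Nat.mod mm (nat_lit 2)) fun m2 => strict (Nat.pow (nat_lit 2) mt) fun M13 =>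
  recK (nat_lit 13) (nat_lit 12) z13 bl bu mm p13 q13 b13 (ckO (nat_lit 13)) true fun r13 =>
  recK (nat_lit 7) (nat_lit 6) z7 bl bu m6 p7 q7 b7 (ckO (nat_lit 7)) true fun r7 =>
  recK (nat_lit 5) (nat_lit 4) z5 bl bu m4 p5 q5 b5 (ckO (nat_lit 5)) true fun r5 =>
  recK (nat_lit 3) (nat_lit 2) z3 bl bu m2 p3 q3 b3 (ckO (nat_lit 3)) true fun r3 =>
  rl1 K.k455F5 (nat_lit 12) r13 r7 r5 r5 mm (nat_lit 31) fun M5 =>
  ck48 K bl bu mm M13 M5 r13 r7 r5 r3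

/-- the check of a list of states -/
def ckL (bl bu : Bool) (L : List (List ℕ)) : Bool :=
  mkK fun K => OEG.W.allL (ckS K bl bu) L

end Pool.Agent.OEG.Ot
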