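import Pool.Agent.OEG.Oth2

/-!
Project OEG, elimination for the first family, the other states (helper1): soundness of the check.
-/

set_option autoImplicit false

namespace Pool.Agent.OEG.Ot

open Pool.Agent.LibH4 Pool.Agent.LibH4.Ker
open Pool.Agent.Lib_helper5 Pool.Agent.Lib_helper5.LK Pool.Agent.Lib_helper5.TB
open Pool.Agent.LibH4.S7 (Rl)
open Pool.Agent.PSX.Ev (cp uncP uncN OSys cp_one)
open Pool.Agent.PSX.K
open Pool.Agent.OEG.W
open Finset (range)

lemma uncN_cons {β : Type} (x : ℕ) (L : List ℕ) (k : ℕ → List ℕ → β) : uncN (x :: L) k = k x L :=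
  rfl

/-! ### the rows fit -/

lemma w455F5 : okW 2048 R455F5.rows = true := by decide +kernel
lemma w364F13a : okW 1024 R364F13a.rows = true := by decide +kernel
lemma w364F13b : okW 1024 R364F13b.rows = true := by decide +kernel
lemma w140N13 : okW 512 R140N13.rows = true := by decide +kernel
lemma w312F13 : okW 512 R312F13.rows = true := by decide +kernel
lemma w520F5 : okW 2048 R520F5.rows = true := by decide +kernel
lemma w88F11 : okW 128 R88F11.rows = true := by decide +kernel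
lemma w616F11 : okW 4096 R616F11.rows = true := by decide +kernel
lemma w308F7 : okW 1024 R308F7.rows = true := by decide +kernel
lemma w143N5 : okW 1024 R143N5.rows = true := by decide +kernel
lemma w143N7 : okW 1024 R143N7.rows = true := by decide +kernel
lemma w616N13 : okW 4096 R616N13.rows = true := by decide +kernel
lemma w152F19a : okW 128 R152F19a.rows = true := by decide +kernel
lemma w152F19b : okW 128 R152F19b.rows = true := by decide +kernel
lemma w133N13 : okW 256 R133N13.rows = true := by decide +kernel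
lemma w95N13 : okW 128 R95N13.rows = true := by decide +kernel

/-! ### masks -/

lemma full (l m : ℕ) (hl : 0 < l) : (2 ^ l - 1).testBit (m % l) = true := by
  rw [Nat.testBit_two_pow_sub_one]
  simp [Nat.mod_lt _ hl]

lemma f5 (m : ℕ) : (31 : ℕ).testBit (m % 5) = true := full 5 m (by norm_num)
lemma f7 (m : ℕ) : (127 : ℕ).testBit (m % 7) = true := full 7 m (by norm_num)
lemma f11 (m : ℕ) : (2047 : ℕ).testBit (m % 11) = true := full 11 m (by norm_num)
lemma f19 (m : ℕ) : (524287 : ℕ).testBit (m % 19) = true := full 19 m (by norm_num)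

/-- the situation -/
structure Sit (D : ℤ) (bl bu : Bool) (p q b : ℤ) (m : ℕ) : Prop where
  qb : q * b = sz bu * p - sz bl
  D1 : D = (q * p ^ m + b) ^ 2 + 4 * sz bl * p ^ m
  hp : ∀ r : ℕ, r ∣ 9699690 → r ≠ 1 → ¬ (r : ℤ) ∣ p
  S : OSys 9699690 D (J1 (sz bl) (sz bu) p q b m)

variable {D p q b : ℤ} {m : ℕ} {bl bu : Bool}

lemma Sit.pw (H : Sit D bl bu p q b m) {n o : ℕ} (hn : n.Prime) (hQ : n ∣ 9699690)
    (ho : o = n - 1) : (p : ZMod n) ^ o = 1 := by
  have : Fact n.Prime := ⟨hn⟩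
  rw [ho]
  apply ZMod.pow_card_sub_one_eq_one
  intro h
  exact H.hp n hQ hn.ne_one ((ZMod.intCast_zmod_eq_zero_iff_dvd p n).1 h)

lemma Sit.pw8 (H : Sit D bl bu p q b m) : (p : ZMod 8) ^ 2 = 1 := by
  have h2 := H.hp 2 (by norm_num) (by norm_num)
  push_cast at h2
  obtain ⟨k, hk⟩ : ∃ k : ℤ, p = 2 * k + 1 := ⟨p / 2, by omega⟩
  obtain ⟨j, hj⟩ : ∃ j : ℤ, k * (k + 1) = 2 * j := by
    obtain ⟨j, hj⟩ := Int.even_mul_succ_self k
    exact ⟨j, by omega⟩
  have e : p ^ 2 - 1 = 8 * j := by rw [hk]; linear_combination 4 * hj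
  have h0 : ((p ^ 2 - 1 : ℤ) : ZMod 8) = 0 := by
    rw [ZMod.intCast_zmod_eq_zero_iff_dvd]
    exact ⟨j, by push_cast; exact e⟩
  push_cast at h0
  linear_combination h0

lemma Sit.pw4 (H : Sit D bl bu p q b m) : (p : ZMod 4) ^ 2 = 1 := by
  have h2 := H.hp 2 (by norm_num) (by norm_num)
  push_cast at h2
  obtain ⟨k, hk⟩ : ∃ k : ℤ, p = 2 * k + 1 := ⟨p / 2, by omega⟩
  have e : p ^ 2 - 1 = 4 * (k * (k + 1)) := by rw [hk]; ring
  have h0 : ((p ^ 2 - 1 : ℤ) : ZMod 4) = 0 := by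
    rw [ZMod.intCast_zmod_eq_zero_iff_dvd]
    exact ⟨_, by push_cast; exact e⟩
  push_cast at h0
  linear_combination h0

lemma Sit.hitO (H : Sit D bl bu p q b m) {n o mo : ℕ} {ps : ℕ → ℕ → ℕ → ℕ} (hn : n.Prime)
    (h2 : n ≠ 2) (hQ : n ∣ 9699690) (ho : o = n - 1) (hmo : mo = m % o) {k : Rc → Bool}
    (h : recK n o ps bl bu mo (rs n p) (rs n q) (rs n b) (ckO n) true k = true) :
    ∃ r, RcOK n ps (sz bl) (sz bu) p q b m r ∧ RcL o r ∧ k r = true := by
  have h3 := hn.two_le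
  rw [hmo] at h
  refine recG_hit (by omega) (by omega) (H.pw hn hQ ho) ?_ h
  rw [← H.D1]
  exact H.S.inr n hn h2 hQ

lemma Sit.unit (H : Sit D bl bu p q b m) {n : ℕ} (hn : n.Prime) (hQ : n ∣ 9699690) :
    IsUnit (p : ZMod n) :=
  IsUnit.of_pow_eq_one (H.pw hn hQ rfl) (by have := hn.two_le; omega)

theorem ck19_no (H : Sit D bl bu p q b m) {r13 r7 r5 r8 : Rc}
    (h13 : RcOK 13 z13 (sz bl) (sz bu) p q b m r13) (l13 : RcL 12 r13)
    (h7 : RcOK 7 z7 (sz bl) (sz bu) p q b m r7) (l7 : RcL 6 r7)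
    (h5 : RcOK 5 z5 (sz bl) (sz bu) p q b m r5) (l5 : RcL 4 r5)
    (h8 : RcOK 8 z8 (sz bl) (sz bu) p q b m r8) (l8 : RcL 2 r8) {M13 : ℕ}
    (hM : M13.testBit (m % 13) = true)
    (h : ck19 ks bl bu (m % 12) M13 r13 r7 r5 r8 = true) : False := by
  unfold ck19 at h
  have h1 := allR_spec h ((m / 12) % 3) (Nat.mod_lt _ (by norm_num))
  simp only [strict_eq] at h1
  have e36 : Nat.add (m % 12) (Nat.mul (nat_lit 12) ((m / 12) % 3)) = m % 36 := by
    change m % 12 + 12 * ((m / 12) % 3) = m % 36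
    omega
  rw [e36] at h1
  have h2 := cls_spec (n := 19) (by norm_num) (H.unit (n := 19) (by norm_num) (by norm_num)) H.qb h1
  obtain ⟨r19, h19, l19, h3⟩ := H.hitO (n := 19) (o := 18) (by norm_num) (by norm_num)
    (by norm_num) (by norm_num) (by change (m % 36) % 18 = m % 18; omega) h2
  obtain ⟨M19, hM19, h4⟩ := rl1_spec (r := R152F19a) (W := 128) w152F19a (e152F19a H.S)
    (show Nat.Prime 19 by norm_num) (lam := 18) (by norm_num)
    (show m % 18 = m % 36 % 18 by omega) h19 h8 (r1_ok _ _ _ _ _ _) h19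
    (dvL l19 (by norm_num)) (dvL l8 (by norm_num)) (r1_d _) (dvL l19 (by norm_num)) (f19 m) h3
  obtain ⟨_, _, h5'⟩ := rl1_spec (r := R152F19b) (W := 128) w152F19b (e152F19b H.S)
    (show Nat.Prime 19 by norm_num) (lam := 18) (by norm_num)
    (show m % 18 = m % 36 % 18 by omega) h19 h8 (r1_ok _ _ _ _ _ _) h19
    (dvL l19 (by norm_num)) (dvL l8 (by norm_num)) (r1_d _) (dvL l19 (by norm_num)) hM19 h4
  obtain ⟨_, _, h6⟩ := rl1_spec (r := R133N13) (W := 256) w133N13 (e133N13 H.S)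
    (show Nat.Prime 13 by norm_num) (lam := 36) (by norm_num)
    (show m % 36 = m % 36 % 36 by omega) h19 h7 (r1_ok _ _ _ _ _ _) h13
    (dvL l19 (by norm_num)) (dvL l7 (by norm_num)) (r1_d _) (dvL l13 (by norm_num)) hM h5'
  obtain ⟨_, _, h7'⟩ := rl1_spec (r := R95N13) (W := 128) w95N13 (e95N13 H.S)
    (show Nat.Prime 13 by norm_num) (lam := 36) (by norm_num)
    (show m % 36 = m % 36 % 36 by omega) h19 h5 (r1_ok _ _ _ _ _ _) h13
    (dvL l19 (by norm_num)) (dvL l5 (by norm_num)) (r1_d _) (dvL l13 (by norm_num)) hM h6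
  cases h7'

theorem ck11_no (H : Sit D bl bu p q b m) {r13 r7 r5 r4 r8 : Rc}
    (h13 : RcOK 13 z13 (sz bl) (sz bu) p q b m r13) (l13 : RcL 12 r13)
    (h7 : RcOK 7 z7 (sz bl) (sz bu) p q b m r7) (l7 : RcL 6 r7)
    (h5 : RcOK 5 z5 (sz bl) (sz bu) p q b m r5) (l5 : RcL 4 r5)
    (h4 : RcOK 4 z4 (sz bl) (sz bu) p q b m r4) (l4 : RcL 2 r4)
    (h8 : RcOK 8 z8 (sz bl) (sz bu) p q b m r8) (l8 : RcL 2 r8) {M13 M5 : ℕ}
    (hM : M13.testBit (m % 13) = true) (hM5 : M5.testBit (m % 5) = true)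
    (h : ck11 ks bl bu (m % 12) M13 M5 r13 r7 r5 r4 r8 = true) : False := by
  unfold ck11 at h
  have h1 := allR_spec h ((m / 12) % 5) (Nat.mod_lt _ (by norm_num))
  simp only [strict_eq] at h1
  have e60 : Nat.add (m % 12) (Nat.mul (nat_lit 12) ((m / 12) % 5)) = m % 60 := by
    change m % 12 + 12 * ((m / 12) % 5) = m % 60
    omega
  have e5 : Nat.mod (m % 60) (nat_lit 5) = m % 5 := by
    change m % 60 % 5 = m % 5
    omega
  rw [e60, e5] at h1
  have hN : (Nat.pow (nat_lit 2) (m % 5)).testBit (m % 5) = true := Nat.testBit_two_pow_self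
  have hb : Nat.beq (Nat.land M5 (Nat.pow (nat_lit 2) (m % 5))) (nat_lit 0) = false := by
    rw [Bool.eq_false_iff]
    intro hc
    have hc' : Nat.land M5 (Nat.pow (nat_lit 2) (m % 5)) = 0 := Nat.eq_of_beq_eq_true hc
    have h3 : (Nat.land M5 (Nat.pow (nat_lit 2) (m % 5))).testBit (m % 5) = true := by
      change (M5 &&& Nat.pow 2 (m % 5)).testBit (m % 5) = true
      rw [Nat.testBit_land, hM5]
      exact hN
    rw [hc', Nat.zero_testBit] at h3
    cases h3
  rw [hb] at h1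
  have h2 := cls_spec (n := 11) (by norm_num) (H.unit (n := 11) (by norm_num) (by norm_num)) H.qb h1
  obtain ⟨r11, h11, l11, h3⟩ := H.hitO (n := 11) (o := 10) (by norm_num) (by norm_num)
    (by norm_num) (by norm_num) (by change (m % 60) % 10 = m % 10; omega) h2
  obtain ⟨M11, hM11, h3⟩ := rl1_spec (r := R88F11) (W := 128) w88F11 (e88F11 H.S)
    (show Nat.Prime 11 by norm_num) (lam := 10) (by norm_num)
    (show m % 10 = m % 60 % 10 by omega) h11 h8 (r1_ok _ _ _ _ _ _) h11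
    (dvL l11 (by norm_num)) (dvL l8 (by norm_num)) (r1_d _) (dvL l11 (by norm_num)) (f11 m) h3
  obtain ⟨_, _, h3⟩ := rl1_spec (r := R616F11) (W := 4096) w616F11 (e616F11 H.S)
    (show Nat.Prime 11 by norm_num) (lam := 30) (by norm_num)
    (show m % 30 = m % 60 % 30 by omega) h11 h7 h8 h11
    (dvL l11 (by norm_num)) (dvL l7 (by norm_num)) (dvL l8 (by norm_num)) (dvL l11 (by norm_num))
    hM11 h3
  obtain ⟨M7, hM7, h3⟩ := rl1_spec (r := R308F7) (W := 1024) w308F7 (e308F7 H.S)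
    (show Nat.Prime 7 by norm_num) (lam := 30) (by norm_num)
    (show m % 30 = m % 60 % 30 by omega) h11 h7 h4 h7
    (dvL l11 (by norm_num)) (dvL l7 (by norm_num)) (dvL l4 (by norm_num)) (dvL l7 (by norm_num))
    (f7 m) h3
  obtain ⟨_, _, h3⟩ := rl1_spec (r := R143N5) (W := 1024) w143N5 (e143N5 H.S)
    (show Nat.Prime 5 by norm_num) (lam := 60) (by norm_num)
    (show m % 60 = m % 60 % 60 by omega) h11 h13 (r1_ok _ _ _ _ _ _) h5
    (dvL l11 (by norm_num)) (dvL l13 (by norm_num)) (r1_d _) (dvL l5 (by norm_num)) hN h3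
  obtain ⟨_, _, h3⟩ := rl1_spec (r := R143N7) (W := 1024) w143N7 (e143N7 H.S)
    (show Nat.Prime 7 by norm_num) (lam := 60) (by norm_num)
    (show m % 60 = m % 60 % 60 by omega) h11 h13 (r1_ok _ _ _ _ _ _) h7
    (dvL l11 (by norm_num)) (dvL l13 (by norm_num)) (r1_d _) (dvL l7 (by norm_num)) hM7 h3
  obtain ⟨_, _, h3⟩ := rl1_spec (r := R616N13) (W := 4096) w616N13 (e616N13 H.S)
    (show Nat.Prime 13 by norm_num) (lam := 60) (by norm_num)
    (show m % 60 = m % 60 % 60 by omega) h11 h7 h8 h13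
    (dvL l11 (by norm_num)) (dvL l7 (by norm_num)) (dvL l8 (by norm_num)) (dvL l13 (by norm_num))
    hM h3
  exact ck19_no H h13 l13 h7 l7 h5 l5 h8 l8 hM h3

theorem ck48_no (H : Sit D bl bu p q b m) {r13 r7 r5 r3 : Rc}
    (h13 : RcOK 13 z13 (sz bl) (sz bu) p q b m r13) (l13 : RcL 12 r13)
    (h7 : RcOK 7 z7 (sz bl) (sz bu) p q b m r7) (l7 : RcL 6 r7)
    (h5 : RcOK 5 z5 (sz bl) (sz bu) p q b m r5) (l5 : RcL 4 r5)
    (h3 : RcOK 3 z3 (sz bl) (sz bu) p q b m r3) (l3 : RcL 2 r3) {M13 M5 : ℕ}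
    (hM : M13.testBit (m % 13) = true) (hM5 : M5.testBit (m % 5) = true)
    (h : ck48 ks bl bu (m % 12) M13 M5 r13 r7 r5 r3 = true) : False := by
  unfold ck48 at h
  simp only [strict_eq] at h
  have e2 : Nat.mod (m % 12) (nat_lit 2) = m % 2 := by
    change m % 12 % 2 = m % 2
    omega
  rw [e2] at h
  have u4 : IsUnit (p : ZMod 4) := IsUnit.of_pow_eq_one H.pw4 (by norm_num)
  have g := cls_spec (n := 4) (by norm_num) u4 H.qb h
  obtain ⟨r4, h4, l4, g⟩ := recG_hit (n := 4) (o := 2) (by norm_num) (by norm_num) H.pw4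
    (by rw [← H.D1]; exact ck4_of H.S.D8) g
  obtain ⟨_, _, g⟩ := rl1_spec (r := R364F13a) (W := 1024) w364F13a (e364F13a H.S)
    (show Nat.Prime 13 by norm_num) (lam := 12) (by norm_num)
    (show m % 12 = m % 12 % 12 by omega) h13 h7 h4 h13
    (dvL l13 (by norm_num)) (dvL l7 (by norm_num)) (dvL l4 (by norm_num)) (dvL l13 (by norm_num))
    hM g
  obtain ⟨_, _, g⟩ := rl1_spec (r := R364F13b) (W := 1024) w364F13b (e364F13b H.S)
    (show Nat.Prime 13 by norm_num) (lam := 12) (by norm_num)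
    (show m % 12 = m % 12 % 12 by omega) h13 h7 h4 h13
    (dvL l13 (by norm_num)) (dvL l7 (by norm_num)) (dvL l4 (by norm_num)) (dvL l13 (by norm_num))
    hM g
  obtain ⟨_, _, g⟩ := rl1_spec (r := R140N13) (W := 512) w140N13 (e140N13 H.S)
    (show Nat.Prime 13 by norm_num) (lam := 12) (by norm_num)
    (show m % 12 = m % 12 % 12 by omega) h7 h5 h4 h13
    (dvL l7 (by norm_num)) (dvL l5 (by norm_num)) (dvL l4 (by norm_num)) (dvL l13 (by norm_num))
    hM g
  have g := cls8_spec H.qb g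
  obtain ⟨r8, h8, l8, g⟩ := recG_hit (n := 8) (o := 2) (by norm_num) (by norm_num) H.pw8
    (by rw [← H.D1]; exact ck8_of H.S.D8) g
  obtain ⟨_, _, g⟩ := rl1_spec (r := R312F13) (W := 512) w312F13 (e312F13 H.S)
    (show Nat.Prime 13 by norm_num) (lam := 12) (by norm_num)
    (show m % 12 = m % 12 % 12 by omega) h13 h8 h3 h13
    (dvL l13 (by norm_num)) (dvL l8 (by norm_num)) (dvL l3 (by norm_num)) (dvL l13 (by norm_num))
    hM g
  obtain ⟨M5', hM5', g⟩ := rl1_spec (r := R520F5) (W := 2048) w520F5 (e520F5 H.S)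
    (show Nat.Prime 5 by norm_num) (lam := 12) (by norm_num)
    (show m % 12 = m % 12 % 12 by omega) h13 h5 h8 h5
    (dvL l13 (by norm_num)) (dvL l5 (by norm_num)) (dvL l8 (by norm_num)) (dvL l5 (by norm_num))
    hM5 g
  exact ck11_no H h13 l13 h7 l7 h5 l5 h4 l4 h8 l8 hM hM5' g

theorem ckS_no (H : Sit D bl bu p q b m) (h : ckS ks bl bu (cdM p q b m) = true) : False := by
  unfold ckS cdM at h
  simp only [uncN_cons, strict_eq] at h
  obtain ⟨r13, h13, l13, h⟩ := H.hitO (n := 13) (o := 12) (by norm_num) (by norm_num)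
    (by norm_num) (by norm_num) rfl h
  obtain ⟨r7, h7, l7, h⟩ := H.hitO (n := 7) (o := 6) (by norm_num) (by norm_num)
    (by norm_num) (by norm_num) (by change (m % 12) % 6 = m % 6; omega) h
  obtain ⟨r5, h5, l5, h⟩ := H.hitO (n := 5) (o := 4) (by norm_num) (by norm_num)
    (by norm_num) (by norm_num) (by change (m % 12) % 4 = m % 4; omega) h
  obtain ⟨r3, h3, l3, h⟩ := H.hitO (n := 3) (o := 2) (by norm_num) (by norm_num)
    (by norm_num) (by norm_num) (by change (m % 12) % 2 = m % 2; omega) h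
  obtain ⟨M5, hM5, h⟩ := rl1_spec (r := R455F5) (W := 2048) w455F5 (e455F5 H.S)
    (show Nat.Prime 5 by norm_num) (lam := 12) (by norm_num)
    (show m % 12 = m % 12 % 12 by omega) h13 h7 h5 h5
    (dvL l13 (by norm_num)) (dvL l7 (by norm_num)) (dvL l5 (by norm_num)) (dvL l5 (by norm_num))
    (f5 m) h
  exact ck48_no H h13 l13 h7 l7 h5 l5 h3 l3 Nat.testBit_two_pow_self hM5 h

theorem ckL_no (H : Sit D bl bu p q b m) {L : List (List ℕ)} (h : ckL bl bu L = true) :
    ¬ cdM p q b m ∈ L := by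
  intro hc
  unfold ckL at h
  rw [mkK_eq] at h
  exact ckS_no H (OEG.W.allL_spec h _ hc)

end Pool.Agent.OEG.Ot
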