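import Pool.Agent.OEG.StA

/-!
# Project OEG, module RDX: reduction of `OEX.F1`, `OEX.F2` to the families `Q1`, `Q2`
-/

set_option autoImplicit false

namespace Pool.Agent.OEG

namespace RX

lemma sg_sq {u : ℤ} (h : OEX.Sg u) : u * u = 1 := by
  rcases h with h | h <;> subst h <;> norm_num

lemma sg_neg_mul {u v : ℤ} (h : OEX.Sg u) (h' : OEX.Sg v) : OEX.Sg (-(u * v)) := by
  rcases h with h | h <;> rcases h' with h' | h' <;> subst h <;> subst h' <;>
    unfold OEX.Sg <;> norm_num

end RX

open RX in
/-- **RDX** -/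
theorem t_RDX : Stmt_RDX := by
  intro D p hp h5 hD h
  have hp5 : (100000 : ℤ) ≤ p := by exact_mod_cast h5
  rcases h with h | h
  · obtain ⟨q, b, l, u, m, hm, hq, hl, hu, hqb, hDe⟩ := h
    have hl2 := sg_sq hl
    have hu2 := sg_sq hu
    by_cases hq2 : 2 ≤ q
    · exact Or.inr (Or.inl ⟨p, l, u, q, b, m, 1, (pow_one _).symm, hl, hu, hp5, hq2, hm, hqb, hDe⟩)
    · have hq1 : q = 1 := by omega
      subst hq1
      have hb : b = u * p - l := by linarith
      subst hb
      by_cases hm3 : 3 ≤ m
      · refine Or.inr (Or.inr ⟨p, u, -(l * u), m, 1, 1, (pow_one _).symm, hu, sg_neg_mul hl hu, hp5,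
          le_refl 1, hm3, Nat.coprime_one_right m, ?_⟩)
        rw [hDe]
        have e : (p : ℤ) ^ m + u * (p : ℤ) ^ 1 - -(l * u) * u = (p : ℤ) ^ m + u * p + l := by
          have : l * u * u = l := by rw [mul_assoc, hu2, mul_one]
          rw [pow_one]; linarith
        rw [e]
        generalize (p : ℤ) ^ m = X
        have : ∀ P : ℤ, (1 * X + (u * P - l)) ^ 2 + 4 * l * X
          = (X + u * P + l) ^ 2 + 4 * -(l * u) * P ^ 1 := by intro P; ring
        exact this _
      · by_cases hm2 : m = 2
        · subst hm2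
          refine Or.inr (Or.inl ⟨p, -(l * u), l, p + u, l, 1, 1, (pow_one _).symm,
            sg_neg_mul hl hu, hl, hp5, ?_, le_refl 1, ?_, ?_⟩)
          · rcases hu with hu | hu <;> subst hu <;> omega
          · ring
          · rw [hDe]
            have : ∀ P : ℤ, (1 * P ^ 2 + (u * P - l)) ^ 2 + 4 * l * P ^ 2
              = ((P + u) * P ^ 1 + l) ^ 2 + 4 * -(l * u) * P ^ 1 := by intro P; ring
            exact this _
        · have hm1 : m = 1 := by omega
          subst hm1
          rcases hu with hu | hu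
          · subst hu
            left
            rw [hDe]
            have : ∀ P : ℤ, (1 * P ^ 1 + (1 * P - l)) ^ 2 + 4 * l * P ^ 1
              = 4 * P ^ 2 + l * l := by intro P; ring
            rw [this, hl2]
          · subst hu
            exfalso
            have e : D = 1 + 4 * l * p := by
              rw [hDe]
              have : ∀ P : ℤ, (1 * P ^ 1 + (-1 * P - l)) ^ 2 + 4 * l * P ^ 1
                = l * l + 4 * l * P := by intro P; ring
              rw [this, hl2]
            rcases hl with hl | hl <;> subst hl <;> nlinarith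
  · obtain ⟨s, l, m, A, hm, hA, hs, hl, hDe⟩ := h
    have hs2 := sg_sq hs
    have hg : 0 < Nat.gcd A m := Nat.gcd_pos_of_pos_right _ (by omega)
    obtain ⟨A', m', hcop, hA', hm'⟩ := Nat.exists_coprime A m
    rw [mul_comm] at hA' hm'
    set g := Nat.gcd A m with hgd
    have hpA : (p : ℤ) ^ A = ((p : ℤ) ^ g) ^ A' := by rw [hA', pow_mul]
    have hpm : (p : ℤ) ^ m = ((p : ℤ) ^ g) ^ m' := by rw [hm', pow_mul]
    have hP5 : (100000 : ℤ) ≤ (p : ℤ) ^ g :=
      le_trans hp5 (le_self_pow₀ (by omega) (by omega))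
    have hm1 : 1 ≤ m' := by
      rcases Nat.eq_zero_or_pos m' with h0 | h0
      · rw [h0, mul_zero] at hm'; omega
      · exact h0
    have hAm : m' + 1 ≤ A' := by
      by_contra hc
      have : A' ≤ m' := by omega
      have := Nat.mul_le_mul_left g this
      rw [← hA', ← hm'] at this
      omega
    rw [hpA, hpm] at hDe
    by_cases h2 : m' + 2 ≤ A'
    · exact Or.inr (Or.inr ⟨(p : ℤ) ^ g, s, l, A', m', g, rfl, hs, hl, hP5, hm1, h2, hcop, hDe⟩)
    · have hA1 : A' = m' + 1 := by omega
      subst hA1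
      refine Or.inr (Or.inl ⟨(p : ℤ) ^ g, l, -(l * s), (p : ℤ) ^ g + s, -(l * s), m', g, rfl,
        hl, sg_neg_mul hl hs, hP5, ?_, hm1, ?_, ?_⟩)
      · rcases hs with hs | hs <;> subst hs <;> omega
      · have : ∀ P : ℤ, (P + s) * -(l * s) = -(l * s) * P - l * (s * s) := by intro P; ring
        rw [this, hs2, mul_one]
      · rw [hDe]
        have : ∀ P : ℤ, (P ^ (m' + 1) + s * P ^ m' - l * s) ^ 2 + 4 * l * P ^ m'
          = ((P + s) * P ^ m' + -(l * s)) ^ 2 + 4 * l * P ^ m' := by
          intro P; rw [pow_succ]; ring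
        exact this _

end Pool.Agent.OEG
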