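import Pool.Agent.OEG.StA
import Pool.Agent.OEG.RL2

/-!
# Project OEG, module RL1: the relations of the first family
-/

set_option autoImplicit false

namespace Pool.Agent.OEG

open Finset (range)
open Pool.Agent.Lib_helper5.LK (Fm)
open RL2M (Vi Vn Vi_sg sgsq lsum)

namespace RL1M

variable {Q : ℕ} [NeZero Q]

/-- the telescoping sum of the edges `N_j` -/
def VN (f : ZMod Q → ℤ) (l p q b : ℤ) (m j : ℕ) : ℤ :=
  Vi f (p ^ j) (q * p ^ m + b) (l * p ^ (m - j))

/-- the telescoping sum of the edges `N'_{j+1}` -/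
def VP (f : ZMod Q → ℤ) (u p q b : ℤ) (m j : ℕ) : ℤ :=
  Vi f (p ^ (j + 1)) (q * p ^ m - b) (u * p ^ (m - j))

variable (hQ : Q % 2 = 1) {f : ZMod Q → ℤ} (hf : ∀ z, f (-z) = - f z) {l u p q b : ℤ} {m : ℕ}
  (hl : OEX.Sg l) (hu : OEX.Sg u) (hqb : q * b = u * p - l)

include hQ hf

/-- the form after `N_j`, `j < m` -/
lemma next_N (hl : OEX.Sg l) (hqb : q * b = u * p - l) {j i : ℕ} (hm : m = j + 1 + i) :
    Vn f (p ^ j) (q * p ^ m + b) (l * p ^ (m - j)) (c1 l p q b m j) = VP f u p q b m i := by
  have hl2 := sgsq hl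
  subst hm
  have e1 : j + 1 + i - j = i + 1 := by omega
  have e2 : j + 1 + i - i = j + 1 := by omega
  unfold Vn VP c1
  rw [if_neg (by omega), e1, e2, add_zero, ← Vi_sg hQ hf hl]
  simp only [pow_add, pow_one]
  generalize p ^ j = a
  generalize p ^ i = g
  congr 1
  · linear_combination (g * p) * hl2
  · linear_combination (2 * q * a * g * p) * hl2
  · linear_combination (a * hqb) + (q * (a * p * g) * q * a - (l ^ 2 + 1) * g * p * q ^ 2 * a ^ 2
      + q * a * b) * hl2

/-- the form after `N_m` -/
lemma next_Nm (hl : OEX.Sg l) :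
    Vn f (p ^ m) (q * p ^ m + b) (l * p ^ (m - m)) (c1 l p q b m m) = VN f l p q b m 0 := by
  have hl2 := sgsq hl
  unfold Vn VN c1
  rw [if_pos rfl, Nat.sub_self, Nat.sub_zero, pow_zero, mul_one, ← Vi_sg hQ hf hl]
  generalize p ^ m = a
  congr 1
  · linear_combination (2 * (q * a + b)) * hl2
  · linear_combination ((q * a + b) ^ 2 - (l ^ 2 + 1) * (q * a + b) ^ 2) * hl2

/-- the form after `N'_{j+1}` -/
lemma next_P (hu : OEX.Sg u) (hqb : q * b = u * p - l) {j i : ℕ} (hm : m = j + i) :
    Vn f (p ^ (j + 1)) (q * p ^ m - b) (u * p ^ (m - j)) (u * q * p ^ j) = VN f l p q b m i := by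
  have hu2 := sgsq hu
  subst hm
  have e1 : j + i - j = i := by omega
  have e2 : j + i - i = j := by omega
  unfold Vn VN
  rw [e1, e2, ← Vi_sg hQ hf hu]
  simp only [pow_add, pow_one]
  generalize p ^ j = a
  generalize p ^ i = g
  congr 1
  · linear_combination g * hu2
  · linear_combination (2 * q * a * g) * hu2
  · linear_combination (-(a) * hqb) + (a * q * (q * (a * g) - b) - (u ^ 2 + 1) * g * q ^ 2 * a ^ 2) * hu2

/-- the telescoping sums of the first family cancel -/
lemma bal (hl : OEX.Sg l) (hu : OEX.Sg u) (hqb : q * b = u * p - l) :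
    ((J1 l u p q b m).map (fun j => Vi f j.P j.R (-j.S))).sum
      = ((J1 l u p q b m).map (fun j => Vn f j.P j.R (-j.S) (-j.α))).sum := by
  have hL : ((J1 l u p q b m).map (fun j => Vi f j.P j.R (-j.S))).sum
      = ∑ j ∈ range (m + 1), VN f l p q b m j + ∑ i ∈ range m, VP f u p q b m i := by
    unfold J1
    simp only [List.map_append, List.sum_append, List.map_map]
    rw [lsum, lsum]
    congr 1
    · refine Finset.sum_congr rfl fun j _ => ?_
      simp only [Function.comp_apply, neg_neg]
      rfl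
    · refine Finset.sum_congr rfl fun j _ => ?_
      simp only [Function.comp_apply, neg_neg]
      rfl
  have hR : ((J1 l u p q b m).map (fun j => Vn f j.P j.R (-j.S) (-j.α))).sum
      = (∑ j ∈ range m, VP f u p q b m (m - 1 - j) + VN f l p q b m 0)
        + ∑ j ∈ range m, VN f l p q b m (m - 1 - j + 1) := by
    unfold J1
    simp only [List.map_append, List.sum_append, List.map_map]
    rw [lsum, lsum, Finset.sum_range_succ]
    congr 1
    · congr 1
      · refine Finset.sum_congr rfl fun j hj => ?_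
        have := Finset.mem_range.1 hj
        simp only [Function.comp_apply, neg_neg]
        exact next_N hQ hf hl hqb (by omega)
      · simp only [Function.comp_apply, neg_neg]
        exact next_Nm hQ hf hl
    · refine Finset.sum_congr rfl fun j hj => ?_
      have := Finset.mem_range.1 hj
      simp only [Function.comp_apply, neg_neg]
      exact next_P hQ hf hu hqb (by omega)
  rw [hL, hR, Finset.sum_range_reflect (fun j => VP f u p q b m j) m,
    Finset.sum_range_reflect (fun j => VN f l p q b m (j + 1)) m, Finset.sum_range_succ']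
  ring

end RL1M

theorem t_RL1 : Stmt_RL1 := by
  intro d l u p q b m hl hu hqb _ _ h8 hCI Q0 hcop
  refine RL2M.rel_of_bal h8 ?_ hCI ?_ hcop
  · intro j hj
    unfold J1 at hj
    simp only [List.mem_append, List.mem_map] at hj
    rcases hj with ⟨_, _, rfl⟩ | ⟨_, _, rfl⟩ <;> rfl
  · intro Q _ hQ f hf
    exact RL1M.bal hQ hf hl hu hqb

end Pool.Agent.OEG
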