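import Pool.Agent.OEG.StG
import Pool.Agent.PSX.M_NUS

/-!
# OEG, module SHF: the shift identity of edge sums
-/

set_option autoImplicit false

namespace Pool.Agent.OEG.G

open Finset (range)
open Pool.Agent.PSX (Es W sg nu ev)

namespace M_SHF

theorem nu_shift {Q : ℕ} [NeZero Q] (c c' h : ℤ) (x y : ZMod Q) :
    nu c x (y + (h : ZMod Q) * x) - nu c' x (y + (h : ZMod Q) * x) =
      nu (c - h) x y - nu (c' - h) x y := by
  have hQ0 : (Q : ℤ) ≠ 0 := by exact_mod_cast NeZero.ne Q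
  obtain ⟨hn, -, -⟩ := Pool.Agent.PSX.t_NUS Q
  have h1 := hn c x (y + (h : ZMod Q) * x)
  have h2 := hn c' x (y + (h : ZMod Q) * x)
  have h3 := hn (c - h) x y
  have h4 := hn (c' - h) x y
  have e1 : y + (h : ZMod Q) * x - (c : ZMod Q) * x = y - ((c - h : ℤ) : ZMod Q) * x := by
    push_cast
    ring
  have e2 : y + (h : ZMod Q) * x - (c' : ZMod Q) * x = y - ((c' - h : ℤ) : ZMod Q) * x := by
    push_cast
    ring
  rw [e1] at h1
  rw [e2] at h2
  refine mul_left_cancel₀ hQ0 ?_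
  rw [mul_sub, mul_sub, h1, h2, h3, h4]
  ring

theorem W_shift {Q : ℕ} [NeZero Q] (c c' h : ℤ) (x y : ZMod Q) :
    W c x (y + (h : ZMod Q) * x) - W c' x (y + (h : ZMod Q) * x) =
      W (c - h) x y - W (c' - h) x y := by
  unfold W
  have h1 := nu_shift c c' h x y
  have h2 : sg x * (nu c x (y + (h : ZMod Q) * x) - nu c' x (y + (h : ZMod Q) * x)) =
      sg x * (nu (c - h) x y - nu (c' - h) x y) := by rw [h1]
  linarith [h2]

end M_SHF

open M_SHF in
/-- **SHF.** -/
theorem t_SHF : Stmt_SHF := by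
  intro Q _ M _ F P R S c c' h
  unfold Es
  rw [← Finset.sum_sub_distrib, ← Finset.sum_sub_distrib]
  refine Finset.sum_congr rfl fun x _ => ?_
  rw [← Finset.sum_sub_distrib, ← Finset.sum_sub_distrib]
  rw [← Equiv.sum_comp (Equiv.addRight ((h : ZMod Q) * x))]
  refine Finset.sum_congr rfl fun y _ => ?_
  rw [Equiv.coe_addRight]
  have e1 : ev P R S x (y + (h : ZMod Q) * x) =
      ev (P + R * (h : ZMod Q) - S * (h : ZMod Q) ^ 2) (R - 2 * S * (h : ZMod Q)) S x y := by
    unfold ev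
    ring
  rw [e1, ← mul_sub, ← mul_sub, ← Int.cast_sub, ← Int.cast_sub, W_shift]

end Pool.Agent.OEG.G
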