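import Mathlib

/-!
A cocycle on the Farey complex is a coboundary.
-/

namespace Pool.Agent.OEG.SG

/-- determinant -/
def dt (α β : ℤ × ℤ) : ℤ := α.1 * β.2 - α.2 * β.1

/-- the square of the length -/
def nr (α : ℤ × ℤ) : ℤ := α.1 ^ 2 + α.2 ^ 2

/-- adjacent vectors -/
def Adj (α β : ℤ × ℤ) : Prop := dt α β = 1 ∨ dt α β = -1

/-- a cocycle -/
structure CoC {M : Type*} [AddCommGroup M] (Φ : ℤ × ℤ → ℤ × ℤ → M) : Prop where
  anti : ∀ α β, Adj α β → Φ β α = - Φ α β
  sgn : ∀ α β, Adj α β → Φ (-α) β = Φ α β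
  tri : ∀ α β, Adj α β → Φ α (α + β) + Φ (α + β) β = Φ α β

lemma dt_comm (α β : ℤ × ℤ) : dt β α = - dt α β := by unfold dt; ring
lemma dt_neg_left (α β : ℤ × ℤ) : dt (-α) β = - dt α β := by unfold dt; simp; ring
lemma dt_neg_right (α β : ℤ × ℤ) : dt α (-β) = - dt α β := by unfold dt; simp; ring
lemma dt_add_self (α β : ℤ × ℤ) : dt α (α + β) = dt α β := by unfold dt; simp; ring
lemma dt_add_self' (α β : ℤ × ℤ) : dt (α + β) β = dt α β := by unfold dt; simp; ring
lemma nr_neg (α : ℤ × ℤ) : nr (-α) = nr α := by unfold nr; simp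
lemma nr_nonneg (α : ℤ × ℤ) : 0 ≤ nr α := by unfold nr; positivity

lemma Adj.symm {α β : ℤ × ℤ} (h : Adj α β) : Adj β α := by
  unfold Adj at *
  rw [dt_comm]
  omega

lemma Adj.neg_left {α β : ℤ × ℤ} (h : Adj α β) : Adj (-α) β := by
  unfold Adj at *
  rw [dt_neg_left]
  omega

lemma Adj.neg_right {α β : ℤ × ℤ} (h : Adj α β) : Adj α (-β) := h.symm.neg_left.symm

section

variable {M : Type*} [AddCommGroup M] {Φ : ℤ × ℤ → ℤ × ℤ → M}

lemma CoC.sgn_right (h : CoC Φ) (α β : ℤ × ℤ) (ha : Adj α β) : Φ α (-β) = Φ α β := by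
  have h1 := h.anti (-β) α ha.symm.neg_left
  have h2 := h.sgn β α ha.symm
  have h3 := h.anti β α ha.symm
  rw [h1, h2, h3]

open Classical in
/-- the potentials on balls -/
noncomputable def UU (Φ : ℤ × ℤ → ℤ × ℤ → M) : ℕ → ℤ × ℤ → M
  | 0 => fun v => if v = (0, 1) ∨ v = (0, -1) then Φ (1, 0) (0, 1) else 0
  | n + 1 => fun v => if nr v ≤ n + 1 then UU Φ n v else
      if h : ∃ w, nr w ≤ n + 1 ∧ dt w v = 1 then UU Φ n h.choose + Φ h.choose v else 0

/-- the statement on the ball -/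
def PP (Φ : ℤ × ℤ → ℤ × ℤ → M) (n : ℕ) : Prop :=
  (∀ v, UU Φ n (-v) = UU Φ n v) ∧
  ∀ α β, Adj α β → nr α ≤ n + 1 → nr β ≤ n + 1 → UU Φ n β - UU Φ n α = Φ α β

lemma small (v : ℤ × ℤ) (hv : nr v ≤ 1) : v = 0 ∨ v = (1, 0) ∨ v = (-1, 0) ∨ v = (0, 1) ∨
    v = (0, -1) := by
  obtain ⟨a, b⟩ := v
  unfold nr at hv
  simp only at hv
  have ha : a ≤ 1 := by nlinarith [sq_nonneg b, sq_nonneg (a - 1)]
  have ha' : -1 ≤ a := by nlinarith [sq_nonneg b, sq_nonneg (a + 1)]
  have hb : b ≤ 1 := by nlinarith [sq_nonneg a, sq_nonneg (b - 1)]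
  have hb' : -1 ≤ b := by nlinarith [sq_nonneg a, sq_nonneg (b + 1)]
  interval_cases a <;> interval_cases b <;> simp_all

lemma base (h : CoC Φ) : PP Φ 0 := by
  have a0 : Adj (1, 0) (0, 1) := by unfold Adj dt; norm_num
  constructor
  · intro v
    unfold UU
    have e : (-v = (0, 1) ∨ -v = (0, -1)) ↔ (v = (0, 1) ∨ v = (0, -1)) := by
      obtain ⟨a, b⟩ := v
      simp only [Prod.neg_mk, Prod.mk.injEq]
      omega
    simp only [e]
  · intro α β ha h1 h2
    have s1 := h.sgn (1, 0) (0, 1) a0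
    have s2 := h.sgn_right (1, 0) (0, 1) a0
    have s3 := h.sgn_right (-(1, 0)) (0, 1) a0.neg_left
    have t0 := h.anti (1, 0) (0, 1) a0
    have t1 := h.anti (-(1, 0)) (0, 1) a0.neg_left
    have t2 := h.anti (1, 0) (-(0, 1)) a0.neg_right
    have t3 := h.anti (-(1, 0)) (-(0, 1)) a0.neg_left.neg_right
    simp only [Prod.neg_mk, neg_zero] at s1 s2 s3 t1 t2 t3
    rw [s1] at s3 t1
    rw [s2] at t2
    rw [s3] at t3
    norm_num at h1 h2
    rcases small α h1 with rfl | rfl | rfl | rfl | rfl <;>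
    rcases small β h2 with rfl | rfl | rfl | rfl | rfl <;>
    first
      | (exfalso; revert ha; unfold Adj dt; norm_num; done)
      | (unfold UU; simp [s1, s2, s3, t0, t1, t2, t3])

lemma wd (h : CoC Φ) {n : ℕ} (hP : PP Φ n) {w w' v : ℤ × ℤ} (h1 : nr w ≤ n + 1)
    (h2 : nr w' ≤ n + 1) (hv : (n : ℤ) + 1 < nr v) (d1 : dt w v = 1) (d2 : dt w' v = 1) :
    UU Φ n w' + Φ w' v = UU Φ n w + Φ w v := by
  obtain ⟨k, hk⟩ : ∃ k : ℤ, w' = (w.1 + k * v.1, w.2 + k * v.2) := by
    refine ⟨dt w w', ?_⟩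
    unfold dt at *
    ext
    · simp only
      linear_combination (-w'.1) * d1 + w.1 * d2
    · simp only
      linear_combination (-w'.2) * d1 + w.2 * d2
  have hk1 : k ^ 2 * nr v ≤ 2 * nr w + 2 * nr w' := by
    rw [hk]
    unfold nr
    simp only
    nlinarith [sq_nonneg (2 * w.1 + k * v.1), sq_nonneg (2 * w.2 + k * v.2)]
  have hv0 : 0 < nr v := by have := Int.natCast_nonneg n; omega
  have hk2 : k ^ 2 < 4 := by
    by_contra hc
    push Not at hc
    nlinarith
  have hk3 : k ≤ 1 := by nlinarith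
  have hk4 : -1 ≤ k := by nlinarith
  have hP2 := hP.2
  obtain rfl | rfl | rfl : k = -1 ∨ k = 0 ∨ k = 1 := by omega
  · have e : w = w' + v := by
      rw [hk]; ext <;> simp
    have ha : Adj w' v := Or.inl d2
    have t := h.tri w' v ha
    rw [← e] at t
    have p := hP2 w' w (by unfold Adj; rw [e, dt_add_self]; exact Or.inl d2) h2 h1
    rw [← t, ← p]
    abel
  · have e : w' = w := by rw [hk]; ext <;> simp
    rw [e]
  · have e : w' = w + v := by rw [hk]; ext <;> simp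
    have ha : Adj w v := Or.inl d1
    have t := h.tri w v ha
    rw [← e] at t
    have p := hP2 w w' (by unfold Adj; rw [e, dt_add_self]; exact Or.inl d1) h1 h2
    rw [← t, ← p]
    abel

lemma UU_old (Φ : ℤ × ℤ → ℤ × ℤ → M) (n : ℕ) {v : ℤ × ℤ} (hv : nr v ≤ n + 1) :
    UU Φ (n + 1) v = UU Φ n v := by
  rw [UU]
  simp only [if_pos hv]

lemma UU_new (h : CoC Φ) {n : ℕ} (hP : PP Φ n) {w v : ℤ × ℤ} (h1 : nr w ≤ n + 1)
    (hv : (n : ℤ) + 1 < nr v) (d1 : dt w v = 1) :
    UU Φ (n + 1) v = UU Φ n w + Φ w v := by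
  rw [UU]
  simp only [if_neg (not_le.2 hv)]
  have hex : ∃ w, nr w ≤ n + 1 ∧ dt w v = 1 := ⟨w, h1, d1⟩
  rw [dif_pos hex]
  exact wd h hP h1 hex.choose_spec.1 hv d1 hex.choose_spec.2

lemma step (h : CoC Φ) {n : ℕ} (hP : PP Φ n) : PP Φ (n + 1) := by
  obtain ⟨hS, hA⟩ := hP
  have hP : PP Φ n := ⟨hS, hA⟩
  constructor
  · intro v
    rcases le_or_gt (nr v) (n + 1) with hv | hv
    · rw [UU_old Φ n hv, UU_old Φ n (by rw [nr_neg]; exact hv), hS]
    · by_cases hex : ∃ w, nr w ≤ n + 1 ∧ dt w v = 1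
      · obtain ⟨w, h1, d1⟩ := hex
        have e1 := UU_new h hP h1 hv d1
        have e2 := UU_new h hP (w := -w) (v := -v) (by rw [nr_neg]; exact h1)
          (by rw [nr_neg]; exact hv) (by rw [dt_neg_left, dt_neg_right, neg_neg]; exact d1)
        have ha : Adj w v := Or.inl d1
        rw [e1, e2, hS, h.sgn_right _ _ ha.neg_left, h.sgn _ _ ha]
      · have hex' : ¬ ∃ w, nr w ≤ n + 1 ∧ dt w (-v) = 1 := by
          rintro ⟨w, h1, d1⟩
          exact hex ⟨-w, by rw [nr_neg]; exact h1, by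
            rw [dt_neg_right] at d1; rw [dt_neg_left]; exact d1⟩
        rw [UU]
        simp only [if_neg (not_le.2 hv), dif_neg hex,
          if_neg (not_le.2 (show (n : ℤ) + 1 < nr (-v) by rw [nr_neg]; exact hv)), dif_neg hex']
  · have key : ∀ α β, Adj α β → nr α ≤ n + 1 → (n : ℤ) + 1 < nr β →
        UU Φ (n + 1) β - UU Φ (n + 1) α = Φ α β := by
      intro α β ha h1 h2
      rw [UU_old Φ n h1]
      rcases ha with d | d
      · rw [UU_new h hP h1 h2 d]
        abel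
      · have d' : dt (-α) β = 1 := by rw [dt_neg_left, d, neg_neg]
        rw [UU_new h hP (by rw [nr_neg]; exact h1) h2 d', hS, h.sgn α β (Or.inr d)]
        abel
    intro α β ha h1 h2
    push_cast at h1 h2
    rcases le_or_gt (nr α) (n + 1) with ca | ca
    · rcases le_or_gt (nr β) (n + 1) with cb | cb
      · rw [UU_old Φ n ca, UU_old Φ n cb]
        exact hA α β ha ca cb
      · exact key α β ha ca cb
    · rcases le_or_gt (nr β) (n + 1) with cb | cb
      · have k1 := key β α ha.symm cb ca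
        have k2 := h.anti β α ha.symm
        rw [k2, ← k1]
        abel
      · exfalso
        have eα : nr α = n + 2 := by omega
        have eβ : nr β = n + 2 := by omega
        have hd : dt α β ^ 2 = 1 := by
          rcases ha with d | d <;> rw [d] <;> norm_num
        have hl : dt α β ^ 2 + (α.1 * β.1 + α.2 * β.2) ^ 2 = nr α * nr β := by
          unfold dt nr; ring
        rw [hd, eα, eβ] at hl
        have hn := Int.natCast_nonneg n
        set z := α.1 * β.1 + α.2 * β.2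
        have hz : |z| ^ 2 = z ^ 2 := sq_abs z
        have hz0 := abs_nonneg z
        have hz1 : |z| < n + 2 := by nlinarith
        nlinarith

lemma all_PP (h : CoC Φ) (n : ℕ) : PP Φ n := by
  induction n with
  | zero => exact base h
  | succ n ih => exact step h ih

lemma UU_ge (Φ : ℤ × ℤ → ℤ × ℤ → M) (v : ℤ × ℤ) (n k : ℕ) (hn : nr v ≤ n + 1) :
    UU Φ (n + k) v = UU Φ n v := by
  induction k with
  | zero => rfl
  | succ k ih =>
    rw [← add_assoc, UU_old Φ (n + k) (by push_cast; omega), ih]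

/-- **the potential** -/
theorem exists_potential (h : CoC Φ) :
    ∃ U : ℤ × ℤ → M, (∀ v, U (-v) = U v) ∧ ∀ α β, Adj α β → U β - U α = Φ α β := by
  refine ⟨fun v => UU Φ (nr v).toNat v, ?_, ?_⟩
  · intro v
    simp only [nr_neg]
    exact (all_PP h _).1 v
  · intro α β ha
    simp only
    have h1 := Int.toNat_of_nonneg (nr_nonneg α)
    have h2 := Int.toNat_of_nonneg (nr_nonneg β)
    have e1 : UU Φ ((nr α).toNat + (nr β).toNat) α = UU Φ (nr α).toNat α :=
      UU_ge Φ α _ _ (by omega)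
    have e2 : UU Φ ((nr α).toNat + (nr β).toNat) β = UU Φ (nr β).toNat β := by
      rw [add_comm]
      exact UU_ge Φ β _ _ (by omega)
    rw [← e1, ← e2]
    exact (all_PP h _).2 α β ha (by push_cast; omega) (by push_cast; omega)

end

end Pool.Agent.OEG.SG
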