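import Pool.Agent.OEG.Sg1
import Pool.Agent.RQM.C10

/-!
The weights of the edges: three term relation.
-/

namespace Pool.Agent.OEG.SG

open Finset Pool.Agent.RDF Pool.Agent.Lib_helper5

section

variable (q : ℕ) [NeZero q] (f : ℤ → ℤ)

/-- first weight -/
def W (A C E : ℤ) : ℤ := ∑ x : ZMod q, ∑ y : ZMod q,
  fz q f ((A : ZMod q) * x ^ 2 + C * x * y + E * y ^ 2) * (β x * β y)

/-- second weight -/
def G (A C E : ℤ) : ℤ := ∑ x : ZMod q, ∑ y : ZMod q,
  fz q f ((A : ZMod q) * x ^ 2 + C * x * y + E * y ^ 2) * γ x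

/-- change of variables -/
def e1 : ZMod q × ZMod q ≃ ZMod q × ZMod q where
  toFun z := (z.1 + z.2, z.2)
  invFun z := (z.1 - z.2, z.2)
  left_inv z := by ext <;> simp
  right_inv z := by ext <;> simp

/-- change of variables -/
def e2 : ZMod q × ZMod q ≃ ZMod q × ZMod q where
  toFun z := (z.1, z.1 + z.2)
  invFun z := (z.1, z.2 - z.1)
  left_inv z := by ext <;> simp
  right_inv z := by ext <;> simp

/-- change of variables -/
def e3 : ZMod q × ZMod q ≃ ZMod q × ZMod q where
  toFun z := (-z.1, z.1 + z.2)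
  invFun z := (-z.1, z.1 + z.2)
  left_inv z := by ext <;> simp
  right_inv z := by ext <;> simp

/-- change of variables -/
def e4 : ZMod q × ZMod q ≃ ZMod q × ZMod q where
  toFun z := (z.1, -z.2)
  invFun z := (z.1, -z.2)
  left_inv z := by ext <;> simp
  right_inv z := by ext <;> simp

/-- change of variables -/
def e5 (k : ℤ) : ZMod q × ZMod q ≃ ZMod q × ZMod q where
  toFun z := (z.1, z.2 + k * z.1)
  invFun z := (z.1, z.2 - k * z.1)
  left_inv z := by ext <;> simp
  right_inv z := by ext <;> simp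

lemma W_swap (A C E : ℤ) : W q f E C A = W q f A C E := by
  unfold W
  rw [Finset.sum_comm]
  apply Finset.sum_congr rfl
  intro x _
  apply Finset.sum_congr rfl
  intro y _
  rw [mul_comm (β y) (β x)]
  congr 2
  ring

lemma W_neg (A C E : ℤ) : W q f A (-C) E = - W q f A C E := by
  unfold W
  rw [sum2_equiv (e4 q), ← Finset.sum_neg_distrib]
  apply Finset.sum_congr rfl
  intro x _
  rw [← Finset.sum_neg_distrib]
  apply Finset.sum_congr rfl
  intro y _
  simp only [e4, Equiv.coe_fn_mk]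
  rw [β_neg]
  push_cast
  have e : (A : ZMod q) * x ^ 2 + -C * x * -y + E * (-y) ^ 2 = A * x ^ 2 + C * x * y + E * y ^ 2 := by
    ring
  rw [e]
  ring

lemma G_neg (A C E : ℤ) : G q f A (-C) E = G q f A C E := by
  unfold G
  rw [sum2_equiv (e4 q)]
  apply Finset.sum_congr rfl
  intro x _
  apply Finset.sum_congr rfl
  intro y _
  simp only [e4, Equiv.coe_fn_mk]
  push_cast
  have e : (A : ZMod q) * x ^ 2 + -C * x * -y + E * (-y) ^ 2 = A * x ^ 2 + C * x * y + E * y ^ 2 := by
    ring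
  rw [e]

lemma G_shift (A C E k : ℤ) : G q f (A + k * C + k ^ 2 * E) (C + 2 * k * E) E = G q f A C E := by
  unfold G
  rw [sum2_equiv (e5 q k) (fun x y => fz q f ((A : ZMod q) * x ^ 2 + C * x * y + E * y ^ 2) * γ x)]
  apply Finset.sum_congr rfl
  intro x _
  apply Finset.sum_congr rfl
  intro y _
  simp only [e5, Equiv.coe_fn_mk]
  push_cast
  congr 2
  ring

lemma G_alt (A C E : ℤ) : G q f E (C + 2 * E) (A + C + E) = G q f A (2 * A + C) (A + C + E) := by
  unfold G
  rw [sum2_equiv (e3 q) (fun x y =>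
    fz q f ((A : ZMod q) * x ^ 2 + (2 * A + C : ℤ) * x * y + (A + C + E : ℤ) * y ^ 2) * γ x)]
  apply Finset.sum_congr rfl
  intro x _
  apply Finset.sum_congr rfl
  intro y _
  simp only [e3, Equiv.coe_fn_mk]
  rw [γ_neg]
  push_cast
  congr 2
  ring

variable {q f} (hper : ∀ x, f (x + q) = f x) (hodd : ∀ x, f (-x) = - f x)

include hper hodd

lemma W_minus (A C E : ℤ) : W q f (-A) (-C) (-E) = - W q f A C E := by
  unfold W
  rw [← Finset.sum_neg_distrib]
  apply Finset.sum_congr rfl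
  intro x _
  rw [← Finset.sum_neg_distrib]
  apply Finset.sum_congr rfl
  intro y _
  push_cast
  have e : -(A : ZMod q) * x ^ 2 + -C * x * y + -E * y ^ 2 = -(A * x ^ 2 + C * x * y + E * y ^ 2) := by
    ring
  rw [e, fz_neg hper hodd]
  ring

lemma G_minus (A C E : ℤ) : G q f (-A) (-C) (-E) = - G q f A C E := by
  unfold G
  rw [← Finset.sum_neg_distrib]
  apply Finset.sum_congr rfl
  intro x _
  rw [← Finset.sum_neg_distrib]
  apply Finset.sum_congr rfl
  intro y _
  push_cast
  have e : -(A : ZMod q) * x ^ 2 + -C * x * y + -E * y ^ 2 = -(A * x ^ 2 + C * x * y + E * y ^ 2) := by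
    ring
  rw [e, fz_neg hper hodd]
  ring

/-- **three term relation** -/
lemma three (A C E : ℤ) :
    3 * (W q f A (2 * A + C) (A + C + E) + W q f (A + C + E) (C + 2 * E) E - W q f A C E) +
      (G q f E C A + G q f A C E + G q f A (2 * A + C) (A + C + E)) = 0 := by
  have h1 : W q f A (2 * A + C) (A + C + E) = ∑ x : ZMod q, ∑ y : ZMod q,
      fz q f ((A : ZMod q) * x ^ 2 + C * x * y + E * y ^ 2) * (β (x - y) * β y) := by
    rw [sum2_equiv (e1 q)]
    unfold W
    apply Finset.sum_congr rfl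
    intro x _
    apply Finset.sum_congr rfl
    intro y _
    simp only [e1, Equiv.coe_fn_mk]
    rw [add_sub_cancel_right]
    push_cast
    congr 2
    ring
  have h2 : W q f (A + C + E) (C + 2 * E) E = ∑ x : ZMod q, ∑ y : ZMod q,
      fz q f ((A : ZMod q) * x ^ 2 + C * x * y + E * y ^ 2) * (β x * β (y - x)) := by
    rw [sum2_equiv (e2 q)]
    unfold W
    apply Finset.sum_congr rfl
    intro x _
    apply Finset.sum_congr rfl
    intro y _
    simp only [e2, Equiv.coe_fn_mk]
    rw [add_sub_cancel_left]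
    push_cast
    congr 2
    ring
  have h3 : G q f A (2 * A + C) (A + C + E) = ∑ x : ZMod q, ∑ y : ZMod q,
      fz q f ((A : ZMod q) * x ^ 2 + C * x * y + E * y ^ 2) * γ (x - y) := by
    rw [sum2_equiv (e1 q)]
    unfold G
    apply Finset.sum_congr rfl
    intro x _
    apply Finset.sum_congr rfl
    intro y _
    simp only [e1, Equiv.coe_fn_mk]
    rw [add_sub_cancel_right]
    push_cast
    congr 2
    ring
  have h4 : G q f E C A = ∑ x : ZMod q, ∑ y : ZMod q,
      fz q f ((A : ZMod q) * x ^ 2 + C * x * y + E * y ^ 2) * γ y := by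
    unfold G
    rw [Finset.sum_comm]
    apply Finset.sum_congr rfl
    intro x _
    apply Finset.sum_congr rfl
    intro y _
    congr 2
    ring
  rw [h1, h2, h3, h4]
  unfold W G
  simp only [← Finset.sum_add_distrib, ← Finset.sum_sub_distrib, Finset.mul_sum]
  apply Finset.sum_eq_zero
  intro x _
  apply Finset.sum_eq_zero
  intro y _
  by_cases h : x - y = 0 ∧ y = 0
  · obtain ⟨hx, rfl⟩ := h
    rw [sub_zero] at hx
    subst hx
    have h0 : fz q f 0 = 0 := by
      have := fz_neg hper hodd (0 : ZMod q)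
      rw [neg_zero] at this
      linarith
    have e : (A : ZMod q) * 0 ^ 2 + C * 0 * 0 + E * 0 ^ 2 = 0 := by ring
    rw [e, h0]
    ring
  · have h5 := three_term h
    rw [sub_add_cancel] at h5
    have h6 : β (y - x) = - β (x - y) := by rw [← β_neg, neg_sub]
    rw [h6]
    linear_combination (fz q f ((A : ZMod q) * x ^ 2 + C * x * y + E * y ^ 2)) * h5

end

section

variable (q : ℕ) [NeZero q] (f : ℤ → ℤ)

/-- the weight of an edge -/
def Ps (A C E : ℤ) : ℚ := 3 * (W q f A C E : ℚ) +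
  1 / 2 * (C : ℚ) * ((G q f E C A : ℚ) / A + (G q f A C E : ℚ) / E)

lemma Ps_swap (A C E : ℤ) : Ps q f E C A = Ps q f A C E := by
  unfold Ps
  rw [W_swap]
  ring

lemma Ps_neg (A C E : ℤ) : Ps q f A (-C) E = - Ps q f A C E := by
  unfold Ps
  rw [W_neg, G_neg, G_neg]
  push_cast
  ring

variable {q f} (hper : ∀ x, f (x + q) = f x) (hodd : ∀ x, f (-x) = - f x)

include hper hodd

lemma Ps_minus (A C E : ℤ) : Ps q f (-A) (-C) (-E) = - Ps q f A C E := by
  unfold Ps
  rw [W_minus hper hodd, G_minus hper hodd, G_minus hper hodd]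
  push_cast
  rw [neg_div_neg_eq, neg_div_neg_eq]
  ring

lemma Ps_three {A C E : ℤ} (hA : A ≠ 0) (hE : E ≠ 0) (hS : A + C + E ≠ 0) :
    Ps q f A (2 * A + C) (A + C + E) + Ps q f (A + C + E) (C + 2 * E) E = Ps q f A C E := by
  have h := three hper hodd A C E
  have h' := congrArg (Int.cast : ℤ → ℚ) h
  push_cast at h'
  have g1 : G q f (A + C + E) (2 * A + C) A = G q f E C A := by
    have := G_shift q f E C A 1
    rw [← this]
    congr 1 <;> ring
  have g2 : G q f (A + C + E) (C + 2 * E) E = G q f A C E := by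
    have := G_shift q f A C E 1
    rw [← this]
    congr 1 <;> ring
  have g3 := G_alt q f A C E
  unfold Ps
  rw [g1, g2, g3]
  have hA' : (A : ℚ) ≠ 0 := by exact_mod_cast hA
  have hE' : (E : ℚ) ≠ 0 := by exact_mod_cast hE
  have hS' : ((A + C + E : ℤ) : ℚ) ≠ 0 := by exact_mod_cast hS
  have i1 : (A : ℚ) * ((G q f E C A : ℚ) / A) = G q f E C A := by field_simp
  have i2 : (E : ℚ) * ((G q f A C E : ℚ) / E) = G q f A C E := by field_simp
  have i3 : ((A + C + E : ℤ) : ℚ) * ((G q f A (2 * A + C) (A + C + E) : ℚ) /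
      ((A + C + E : ℤ) : ℚ)) = G q f A (2 * A + C) (A + C + E) := by field_simp
  set y1 := (G q f E C A : ℚ) / A
  set y2 := (G q f A C E : ℚ) / E
  set y3 := (G q f A (2 * A + C) (A + C + E) : ℚ) / ((A + C + E : ℤ) : ℚ)
  push_cast at i3 ⊢
  linear_combination h' + i1 + i2 + i3

end

/-! ### the lattice -/

section

variable (m B : ℤ)

/-- norm form -/
def nm (α : ℤ × ℤ) : ℤ := α.1 ^ 2 + B * α.1 * α.2 - m * α.2 ^ 2

/-- its polar form -/
def tr (α β : ℤ × ℤ) : ℤ := 2 * α.1 * β.1 + B * (α.1 * β.2 + α.2 * β.1) - 2 * m * α.2 * β.2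

/-- multiplication -/
def mu (α β : ℤ × ℤ) : ℤ × ℤ := (α.1 * β.1 + m * α.2 * β.2, α.1 * β.2 + α.2 * β.1 + B * α.2 * β.2)

/-- the cocycle -/
def Ph (q : ℕ) [NeZero q] (f : ℤ → ℤ) (α β : ℤ × ℤ) : ℚ :=
  (dt α β : ℚ) * Ps q f (nm m B α) (tr m B α β) (nm m B β)

lemma nm_mu (α β : ℤ × ℤ) : nm m B (mu m B α β) = nm m B α * nm m B β := by
  unfold nm mu; ring

lemma tr_mu (ε α β : ℤ × ℤ) : tr m B (mu m B ε α) (mu m B ε β) = nm m B ε * tr m B α β := by
  unfold nm mu tr; ring

lemma dt_mu (ε α β : ℤ × ℤ) : dt (mu m B ε α) (mu m B ε β) = nm m B ε * dt α β := by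
  unfold nm mu dt; ring

lemma Adj.ne_zero {α β : ℤ × ℤ} (h : Adj α β) : α ≠ 0 ∧ β ≠ 0 := by
  constructor
  · rintro rfl
    unfold Adj dt at h
    simp at h
  · rintro rfl
    unfold Adj dt at h
    simp at h

variable {m B}

theorem coc (hns : ∀ α : ℤ × ℤ, α ≠ 0 → nm m B α ≠ 0) {q : ℕ} [NeZero q] {f : ℤ → ℤ}
    (hper : ∀ x, f (x + q) = f x) (hodd : ∀ x, f (-x) = - f x) : CoC (Ph m B q f) where
  anti α β _ := by
    unfold Ph
    have e : tr m B β α = tr m B α β := by unfold tr; ring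
    rw [dt_comm, e, Ps_swap]
    push_cast
    ring
  sgn α β _ := by
    unfold Ph
    have e1 : tr m B (-α) β = - tr m B α β := by unfold tr; simp; ring
    have e2 : nm m B (-α) = nm m B α := by unfold nm; simp
    rw [dt_neg_left, e1, e2, Ps_neg]
    push_cast
    ring
  tri α β ha := by
    unfold Ph
    have h0 : Adj α (α + β) := by unfold Adj; rw [dt_add_self]; exact ha
    have n1 := hns α ha.ne_zero.1
    have n2 := hns β ha.ne_zero.2
    have n3 := hns (α + β) h0.ne_zero.2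
    have e0 : nm m B (α + β) = nm m B α + tr m B α β + nm m B β := by unfold nm tr; simp; ring
    have e1 : tr m B α (α + β) = 2 * nm m B α + tr m B α β := by unfold nm tr; simp; ring
    have e2 : tr m B (α + β) β = tr m B α β + 2 * nm m B β := by unfold nm tr; simp; ring
    rw [e0] at n3
    rw [dt_add_self, dt_add_self', e0, e1, e2, ← mul_add, Ps_three hper hodd n1 n2 n3]

lemma Ph_mu {ε : ℤ × ℤ} (hε : nm m B ε = 1 ∨ nm m B ε = -1) {q : ℕ} [NeZero q] {f : ℤ → ℤ}
    (hper : ∀ x, f (x + q) = f x) (hodd : ∀ x, f (-x) = - f x) (α β : ℤ × ℤ) :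
    Ph m B q f (mu m B ε α) (mu m B ε β) = Ph m B q f α β := by
  unfold Ph
  rw [dt_mu, nm_mu, nm_mu, tr_mu]
  rcases hε with h | h
  · rw [h, one_mul, one_mul, one_mul, one_mul]
  · rw [h, neg_one_mul, neg_one_mul, neg_one_mul, neg_one_mul, Ps_minus hper hodd]
    push_cast
    ring

end

end Pool.Agent.OEG.SG
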