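import Pool.Agent.OEG.Sg3
import Pool.Agent.RQM.C45

/-!
The principal cycle: the value of the potential at the units, and the exact relation for signed chains.
-/

namespace Pool.Agent.OEG.SG

open Finset Function Pool.Agent.RDF Pool.Agent.Lib_helper5 Pool.Agent.LibH4 Pool.Agent.LibH4.CFO
  Pool.Agent.LibH4.CW

section Cyc

variable {m B : ℤ} {s : ℝ} {x : ℕ → ℝ} {c : ℕ → ℕ}

/-- the continued fraction is periodic -/
lemma exists_period (h : Data m B s x c) : ∃ L, 0 < L ∧ gsh^[L] (x 1) = x 1 := by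
  have bd : ∀ k, (QR m B c (k + 1), QS m B c (k + 1)) ∈
      (Set.Icc (-(B ^ 2 + 4 * m)) (B ^ 2 + 4 * m)) ×ˢ (Set.Icc (0 : ℤ) (B ^ 2 + 4 * m)) := by
    intro k
    have i1 := inv_of h (k + 1)
    have i0 := inv_of h k
    have hP : 0 < QP m B c (k + 1) := i0.Spos
    have hS := i1.Spos
    have hd := i1.disc
    have h1 : 0 < QP m B c (k + 1) * QS m B c (k + 1) := mul_pos hP hS
    have h2 : QS m B c (k + 1) ≤ QP m B c (k + 1) * QS m B c (k + 1) := by nlinarith
    have h3 := sq_nonneg (QR m B c (k + 1))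
    refine ⟨⟨?_, ?_⟩, ⟨hS.le, ?_⟩⟩
    · simp only
      nlinarith [sq_nonneg (QR m B c (k + 1) + 1)]
    · simp only
      nlinarith [sq_nonneg (QR m B c (k + 1) - 1)]
    · simp only
      nlinarith
  obtain ⟨a, b, hab, he⟩ := Set.Finite.exists_lt_map_eq_of_forall_mem bd
    ((Set.finite_Icc _ _).prod (Set.finite_Icc _ _))
  rw [Prod.mk.injEq] at he
  have hx : x (a + 1) = x (b + 1) := x_eq_of_state h he.1 he.2
  have key : ∀ a L, x a = x (a + L) → x 0 = x L := by
    intro a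
    induction a with
    | zero => intro L h; rwa [zero_add] at h
    | succ a ih =>
      intro L hL
      rw [show a + 1 + L = (a + L) + 1 by ring] at hL
      exact ih L (back h hL)
  have h0 := key (a + 1) (b - a) (by rw [hx]; congr 1; omega)
  refine ⟨b - a, by omega, ?_⟩
  rw [iter h, add_comm, h.step, ← h0, ← h.step]

/-- the (doubled) principal cycle with its exact relation -/
theorem exists_cyc (h : Data m B s x c) (hm : 0 < m) (hm2 : m % 2 = 1) (hB2 : B % 2 = 1)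
    [IsDomain (QuadraticAlgebra ℤ m B)] [UniqueFactorizationMonoid (QuadraticAlgebra ℤ m B)]
    {d : ℕ} (hd : (d : ℤ) = B ^ 2 + 4 * m) (h8 : d % 8 = 5) :
    ∃ J : ℕ, 0 < J ∧ CG.CycM m B (2 * J) (QP m B c) (QR m B c) (QS m B c) c ∧
      (∀ i < J, i ≠ 0 → QP m B c (1 + 2 * i) ≠ 1) ∧ ∃ e : ℤ, (e = 1 ∨ e = 2) ∧
      ∀ (q : ℕ), 0 < q → Nat.Coprime q d → ∀ (f : ℤ → ℤ), (∀ x, f (x + q) = f x) →
        (∀ x, f (-x) = - f x) →
        (d : ℤ) * (e * LL (2 * J) (QP m B c) (QR m B c) (QS m B c) c q f) = 3 * RZ q d f := by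
  obtain ⟨L, hL0, hL⟩ := exists_period h
  have hpos : 0 < minimalPeriod gsh (x 1) := IsPeriodicPt.minimalPeriod_pos hL0 hL
  obtain ⟨M, hM⟩ : ∃ M, minimalPeriod gsh (x 1) = M := ⟨_, rfl⟩
  rw [hM] at hpos
  rcases Nat.even_or_odd' M with ⟨J, hJ | hJ⟩
  · -- even period
    rw [hJ] at hM
    have hJ0 : 0 < J := by omega
    have hC := evenCyc h hm hM
    have hfix : gsh^[2 * J] (x 1) = x 1 := by
      have := isPeriodicPt_minimalPeriod gsh (x 1)
      rw [hM] at this
      exact this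
    have hper := x_per h hfix
    have h20 : x (2 * J) = x 0 := by have := hper 0; rwa [zero_add] at this
    have hP1 : ∀ k < 2 * J, k ≠ 1 → QP m B c k ≠ 1 := by
      intro k hk hk1
      rcases k with _ | k
      · intro h1
        have h2 : QS m B c 1 = 1 := by rw [QS_one h]; exact h1
        exact S_ne_one h hM (by omega) (by omega) h2
      · intro h1
        rw [QP_succ] at h1
        exact S_ne_one h hM (by omega) (by omega) h1
    refine ⟨J, hJ0, hC, fun i hi hi0 => hP1 _ (by omega) (by omega), 2, Or.inr rfl, ?_⟩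
    intro q hq hcop f hp ho
    exact even_int m B hm hm2 hB2 hC J rfl hJ0 (closing h hm h20) hP1 hd h8 q hq hcop f hp ho
  · -- odd period
    rw [hJ] at hM
    have hC := oddCyc h hm hM
    refine ⟨2 * J + 1, by omega, hC.toCycM, hC.Pone, 1, Or.inl rfl, ?_⟩
    intro q hq hcop f hp ho
    have key := cyc_int hC.cyc d h8 (by
      intro n hn
      rw [← hC.count hm n hn]
      exact (ncard_SN hd h8 n hn).2) q hq hcop (by
      intro f hper hodd'
      rw [hC.Pm, hC.RB, hC.S1]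
      apply mean_even m B hm2 hB2 q hq _ f hper hodd'
      rw [← hd]
      exact Nat.isCoprime_iff_coprime.2 hcop) f hp ho
    have hdbl : LL (2 * (2 * J + 1)) (QP m B c) (QR m B c) (QS m B c) c q f =
        2 * LL (2 * J + 1) (QP m B c) (QR m B c) (QS m B c) c q f := by
      unfold LL
      rw [show 2 * (2 * J + 1) = (2 * J + 1) + (2 * J + 1) by ring, Finset.sum_range_add]
      have h2 : ∑ k ∈ range (2 * J + 1), (3 * XZ q f (QP m B c (2 * J + 1 + k))
          (QR m B c (2 * J + 1 + k)) (QS m B c (2 * J + 1 + k)) -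
          (c (2 * J + 1 + k) : ℤ) * YX q f (QP m B c (2 * J + 1 + k))
          (QR m B c (2 * J + 1 + k)) (QS m B c (2 * J + 1 + k))) =
          ∑ k ∈ range (2 * J + 1), (3 * XZ q f (QP m B c k) (QR m B c k) (QS m B c k) -
          (c k : ℤ) * YX q f (QP m B c k) (QR m B c k) (QS m B c k)) := by
        apply Finset.sum_congr rfl
        intro k hk
        have hk' := Finset.mem_range.1 hk
        rw [show 2 * J + 1 + k = k + (2 * J + 1) by ring, hC.perP k hk'.le, hC.perR k hk'.le,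
          hC.perS k hk'.le, hC.perc k hk']
      rw [h2]
      ring
    rw [one_mul, hdbl]
    exact key

end Cyc

section Units

variable {m B : ℤ} {K : ℕ} {P R S : ℕ → ℤ} {c : ℕ → ℕ}

open CG in
/-- totally positive units are powers of the unit of the cycle -/
lemma unit_pow (hm : 0 < m) (J : ℕ) (h : CycM m B (2 * J) P R S c) (hJ : 0 < J)
    (hPo : ∀ i < J, i ≠ 0 → P (1 + 2 * i) ≠ 1) (u β : (QuadraticAlgebra ℤ m B)ˣ)
    (hu : (u : QuadraticAlgebra ℤ m B) = rho m B c (2 * J + 1))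
    (h1 : 0 < s1 hm (β : QuadraticAlgebra ℤ m B)) (h2 : 0 < s2 hm (β : QuadraticAlgebra ℤ m B)) :
    ∃ j : ℤ, β = u ^ j := by
  have hu1 : 0 < s1 hm (u : QuadraticAlgebra ℤ m B) := by
    rw [hu]; exact s1_rho hm h (2 * J + 1) le_rfl
  have hsgK : CG.sg (2 * J + 1) = 1 := by
    rw [add_comm, sg_even, sg_one]
  have hu2 : 0 < s2 hm (u : QuadraticAlgebra ℤ m B) := by
    rw [hu]
    have := (s2_rho (B := B) hm c (2 * J)).2
    rwa [hsgK, one_mul] at this
  have hul : sl hm 1 (u : QuadraticAlgebra ℤ m B) < 1 := by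
    have a1 := sl_chain hm h 3 (J - 1) (by omega)
    have a2 := sl_step hm h 1 (by omega)
    rw [show 3 + 2 * (J - 1) = 2 * J + 1 by omega] at a1
    have h3 : CG.sg 3 = 1 := by unfold CG.sg; norm_num
    rw [h3] at a1
    rw [sg_one, rho_one] at a2
    have h4 : sl hm 1 (1 : QuadraticAlgebra ℤ m B) = 1 := by simp [sl]
    rw [hu]
    linarith
  have hl0 : 0 < sl hm 1 (u : QuadraticAlgebra ℤ m B) := by
    unfold sl; rw [one_mul]; exact div_pos hu1 hu2
  set l := sl hm 1 (u : QuadraticAlgebra ℤ m B) with hl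
  have hb0 : 0 < sl hm 1 (β : QuadraticAlgebra ℤ m B) := by
    unfold sl; rw [one_mul]; exact div_pos h1 h2
  have hy : 1 < l⁻¹ := (one_lt_inv₀ hl0).mpr hul
  obtain ⟨n, hn1, hn2⟩ := exists_mem_Ioc_zpow hb0 hy
  have f1 : s1 hm ((β * u ^ (n + 1) : (QuadraticAlgebra ℤ m B)ˣ) : QuadraticAlgebra ℤ m B) =
      s1 hm (β : QuadraticAlgebra ℤ m B) * (s1 hm (u : QuadraticAlgebra ℤ m B)) ^ (n + 1) := by
    rw [Units.val_mul, map_mul, s1_zpow]
  have f2 : s2 hm ((β * u ^ (n + 1) : (QuadraticAlgebra ℤ m B)ˣ) : QuadraticAlgebra ℤ m B) =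
      s2 hm (β : QuadraticAlgebra ℤ m B) * (s2 hm (u : QuadraticAlgebra ℤ m B)) ^ (n + 1) := by
    rw [Units.val_mul, map_mul, s2_zpow]
  have hu1' : 0 < (s1 hm (u : QuadraticAlgebra ℤ m B)) ^ (n + 1) := by positivity
  have hu2' : 0 < (s2 hm (u : QuadraticAlgebra ℤ m B)) ^ (n + 1) := by positivity
  have f3 : sl hm 1 ((β * u ^ (n + 1) : (QuadraticAlgebra ℤ m B)ˣ) : QuadraticAlgebra ℤ m B) =
      sl hm 1 (β : QuadraticAlgebra ℤ m B) * l ^ (n + 1) := by
    rw [hl]
    unfold sl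
    rw [f1, f2, one_mul, one_mul, one_mul, div_zpow, div_mul_div_comm]
  have hk : 0 < l ^ (n + 1) := by positivity
  have hone : sl hm 1 (1 : QuadraticAlgebra ℤ m B) = 1 := by simp [sl]
  have hmem : ((β * u ^ (n + 1) : (QuadraticAlgebra ℤ m B)ˣ) : QuadraticAlgebra ℤ m B) ∈
      cone hm 1 1 (rho m B c (2 * J + 1)) := by
    refine ⟨⟨?_, ?_⟩, ?_, ?_⟩
    · rw [f1]; exact mul_pos h1 hu1'
    · rw [f2, one_mul]; exact mul_pos h2 hu2'
    · rw [f3, ← hu]
      change l < _
      have := mul_lt_mul_of_pos_right hn1 hk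
      rw [inv_zpow, zpow_add₀ hl0.ne', zpow_one] at this
      have e : (l ^ n)⁻¹ * (l ^ n * l) = l := by field_simp
      rw [e] at this
      rwa [zpow_add₀ hl0.ne', zpow_one]
    · rw [f3, hone]
      have := mul_le_mul_of_nonneg_right hn2 hk.le
      rw [inv_zpow] at this
      have e : (l ^ (n + 1))⁻¹ * l ^ (n + 1) = 1 := by field_simp
      rw [e] at this
      exact this
  have h3 := pos_one' hm J h hJ hPo _ hmem (unit_norm _)
  have h4 : β * u ^ (n + 1) = 1 := Units.ext (by rw [h3]; rfl)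
  refine ⟨-(n + 1), ?_⟩
  rw [zpow_neg]
  exact eq_inv_of_mul_eq_one_left h4

end Units

section Main

variable {m B : ℤ}

/-- the element of a pair -/
def tq (m B : ℤ) (α : ℤ × ℤ) : QuadraticAlgebra ℤ m B := ⟨α.1, α.2⟩

lemma tq_mul (α β : ℤ × ℤ) : tq m B (mu m B α β) = tq m B α * tq m B β := by
  unfold tq mu
  ext
  · simp
  · simp

lemma tq_norm (α : ℤ × ℤ) : (tq m B α).norm = nm m B α := by
  unfold tq nm
  rw [QuadraticAlgebra.norm_def]
  ring

/-- the pair of an element -/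
def pr (z : QuadraticAlgebra ℤ m B) : ℤ × ℤ := (z.re, z.im)

lemma pr_tq (α : ℤ × ℤ) : pr (tq m B α) = α := rfl
lemma tq_pr (z : QuadraticAlgebra ℤ m B) : tq m B (pr z) = z := rfl
lemma pr_mul (z w : QuadraticAlgebra ℤ m B) : pr (z * w) = mu m B (pr z) (pr w) := by
  rw [← pr_tq (m := m) (B := B) (mu m B (pr z) (pr w)), tq_mul, tq_pr, tq_pr]

lemma vv_rho (c : ℕ → ℕ) (k : ℕ) :
    tq m B (vv 0 (fun k => (c k : ℤ)) k) = CG.rho m B c k ∧
      tq m B (vv 0 (fun k => (c k : ℤ)) (k + 1)) = CG.rho m B c (k + 1) := by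
  induction k with
  | zero =>
    rw [vv_zero, zero_add, vv_one, CG.rho_zero, CG.rho_one]
    exact ⟨rfl, rfl⟩
  | succ k ih =>
    refine ⟨ih.2, ?_⟩
    rw [show k + 1 + 1 = k + 2 by ring, vv_add, CG.rho_add, ← ih.1, ← ih.2]
    unfold tq
    ext <;> simp

end Main

end Pool.Agent.OEG.SG
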