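import Pool.Agent.OEG.CIj
import Pool.Agent.PSX.StG

/-!
# Project OEG: the ghosts, statements with proofs in the doc strings (helper94)

`l = 13` in the applications, `Q = QN l q0 n = q0 l^(n+1)`, `M = ZMod (l^(n+1))`, `F = FZ l q0 n e ψ`,
`Es F P R S c` the edge sum of the form `(P,R,S)` and the letter `c` (PSX/GDefs). A family is of
**type I** if `2 e0 < l - 1`: then all full sums `I0`, `I1` vanish, and the letters matter only modulo `Q`.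
The five families of `PSX.t_FAM` are used as type II. Checked numerically at level `n = 1`
(`/team-store/oeg_h94.tgz`).
-/

set_option autoImplicit false

namespace Pool.Agent.OEG.G

open Finset (range)
open Pool.Agent.PSX (Es W sg nu ev Z0 EZ SX I0 I1 TT ED fb evZ v3 v5 v7)
open Pool.Agent.P4G (Fam QN FN FZ CR)
open Pool.Agent.Lib_helper5.LK (Fm)

/-! ### Edge sums in general -/

/-- **SYE**, symmetries. (i) substitute `x ↦ -x`: `ev (-P) R (-S) (-x) y = - ev P R S x y`, and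
`W (-c) (-x) y = - W c x y` (`sg (-x) = - sg x`, the numerator of `nu (-c) (-x) y` is that of `nu c x y`
because `β (-x) = - β x`). (ii) substitute `y ↦ -y`: `ev P (-R) S x (-y) = ev P R S x y`,
`W (-c) x (-y) = - W c x y` (`PSX.t_NUS` (iii)). (iii) `nu 0 x y = 0`, so `W 0 x y = sg x * sg y`; exchange
`x` and `y`: `ev S (-R) P y x = - ev P R S x y`. -/
def Stmt_SYE : Prop := ∀ (Q : ℕ) [NeZero Q], Q % 2 = 1 → ∀ (M : Type) [CommRing M] (F : ZMod Q → M),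
    (∀ z, F (-z) = - F z) → ∀ (P R S : ZMod Q) (c : ℤ),
    Es F (-P) R (-S) (-c) = Es F P R S c ∧ Es F P (-R) S (-c) = - Es F P R S c ∧
    Es F S (-R) P 0 = - Es F P R S 0

/-- **SHF**, shift. `W c x y - W c' x y = sg x (nu c x y - nu c' x y)` and by `PSX.t_NUS` (i)
`Q (nu c x y - nu c' x y) = -(c-c') β x - β (y - c x) + β (y - c' x)`; for `y = y' + h x` this is the same
expression for `c - h`, `c' - h`, `y'`, so `W c x y - W c' x y = W (c-h) x y' - W (c'-h) x y'` (cancel `Q`).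
Substitute `y ↦ y + h x` in the left hand side: `ev P R S x (y + h x) = ev (P+Rh-Sh²) (R-2Sh) S x y`. -/
def Stmt_SHF : Prop := ∀ (Q : ℕ) [NeZero Q] (M : Type) [CommRing M] (F : ZMod Q → M)
    (P R S : ZMod Q) (c c' h : ℤ),
    Es F P R S c - Es F P R S c'
      = Es F (P + R * h - S * h ^ 2) (R - 2 * S * h) S (c - h)
        - Es F (P + R * h - S * h ^ 2) (R - 2 * S * h) S (c' - h)

/-- **TCY**, the ghost cycle of length three. `σ = 1`: this is `A3 F 0 0 X = 0`, the second part of AFA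
(PSX: `Stmt_AFA`, `A3` unfolded with `τ = γ = 0`). `σ = -1`: with `Y = -X` the three terms are, by SYE (i),
(ii): `Es 1 1 (-X) (-1) = Es 1 1 Y (-1) = - Es 1 (-1) Y 1`; `Es X 1 (-1) (-1) = Es (-Y) 1 (-1) (-1)
= Es Y 1 1 1 = - Es Y (-1) 1 (-1)`; `Es X (2X-1) (-X) (-1) = Es (-Y) (-(2Y+1)) Y (-1)
= Es Y (-(2Y+1)) (-Y) 1 = - Es Y (2Y+1) (-Y) (-1)`: the sum is `- A3 F 0 0 Y = 0`. -/
def Stmt_TCY : Prop := ∀ (l q0 n e e0 : ℕ) (ψ : ℤ → ℤ) [NeZero (QN l q0 n)],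
    PSX.Fm l q0 n e e0 ψ → ∀ σ X : ℤ, OEX.Sg σ →
    Es (FZ l q0 n e ψ) ((1 : ℤ) : ZMod (QN l q0 n)) ((-σ : ℤ) : ZMod (QN l q0 n))
        ((σ * X : ℤ) : ZMod (QN l q0 n)) σ
      + Es (FZ l q0 n e ψ) ((X : ℤ) : ZMod (QN l q0 n)) ((-σ : ℤ) : ZMod (QN l q0 n))
        ((σ : ℤ) : ZMod (QN l q0 n)) (-1)
      + Es (FZ l q0 n e ψ) ((X : ℤ) : ZMod (QN l q0 n)) ((2 * X + σ : ℤ) : ZMod (QN l q0 n))
        ((-X : ℤ) : ZMod (QN l q0 n)) (-1) = 0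

/-- **DSW**, distribution of the weights. `Q = Q' K`, both odd. Over the fibre of `x'` (`x = x'.val + Q' k`,
`k < K`, `K` odd): `Σ sg x = sg x'`; `Σ β x = K β x'`; `Σ sg x β x = sg x' β x'` if `x' ≠ 0` and
`= -Q'(K-1)` if `x' = 0` (alternating sums: `Σ_{k<K} (-1)^k = 1`, `Σ_{k<K} (-1)^k k = (K-1)/2`,
`β x = Q - 2 x` for `x ≠ 0`, `β 0 = 0`). For fixed `x` the fibre of `y'` is mapped by `y ↦ y - c x` onto the
fibre of `y' - c x'`. So `Q` times the sum of `sg x nu c x y` is (`Q nu = β y - c β x - β (y - c x)`)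
`K sg x' β y' - c K (Σ sg x β x) - K sg x' β (y' - c x')
= K Q' sg x' nu c x' y' + [x' = 0] c K Q' (K-1)`, divide by `Q = K Q'`; and `Σ sg x sg y = sg x' sg y'`. -/
def Stmt_DSW : Prop := ∀ (Q' Q : ℕ) [NeZero Q'] [NeZero Q] (h : Q' ∣ Q), Q % 2 = 1 →
    ∀ (c : ℤ) (x' y' : ZMod Q'),
    (∑ x : ZMod Q, ∑ y : ZMod Q,
      if ZMod.castHom h (ZMod Q') x = x' ∧ ZMod.castHom h (ZMod Q') y = y' then W c x y else 0)
      = W c x' y' + if x' = 0 then c * ((Q / Q' : ℕ) - 1) else 0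

/-- **DSG**, level change of an edge sum. `ev` commutes with the projection; group the double sum by the
fibres and use DSW; the terms with `x' = 0` have the value `F' (-(S' y'^2))`. -/
def Stmt_DSG : Prop := ∀ (Q' Q : ℕ) [NeZero Q'] [NeZero Q] (h : Q' ∣ Q), Q % 2 = 1 →
    ∀ (M M' : Type) [CommRing M] [CommRing M'] (π : M →+* M') (F : ZMod Q → M) (F' : ZMod Q' → M'),
    (∀ z, π (F z) = F' (ZMod.castHom h (ZMod Q') z)) → ∀ (P R S : ZMod Q) (c : ℤ),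
    π (Es F P R S c)
      = Es F' (ZMod.castHom h (ZMod Q') P) (ZMod.castHom h (ZMod Q') R)
          (ZMod.castHom h (ZMod Q') S) c
        + ((c * ((Q / Q' : ℕ) - 1) : ℤ) : M') * Z0 F' (ZMod.castHom h (ZMod Q') S)

/-- **LVL**, level lowering for families. First part: all fields are the same, except
`l^(n'+1) ∣ Hs l q0 ψ (n'+1) e`: modulo `l^(n'+1)` the function `ψ r r^e` has the period `q0 l^(n'+1)` and is
odd, so its sum over a full period vanishes, and the half sum `r < (q0 l^(n+1) + 1)/2` is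
`(l^(n-n') - 1)/2` full periods (starting at `0`) and the half sum of level `n'`. Second part: DSG with
`π = ZMod.castHom`, `F' = FZ l q0 n' e ψ`, and `Z0 F' = 0` (`PSX.t_ZSQ`). -/
def Stmt_LVL : Prop := ∀ (l q0 n n' e e0 : ℕ) (ψ : ℤ → ℤ) (h : n' ≤ n), PSX.Fm l q0 n e e0 ψ →
    PSX.Fm l q0 n' e e0 ψ ∧
    ∀ [NeZero (QN l q0 n)] [NeZero (QN l q0 n')] (P R S c : ℤ),
      ZMod.castHom (pow_dvd_pow l (Nat.succ_le_succ h)) (ZMod (l ^ (n' + 1)))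
          (Es (FZ l q0 n e ψ) (P : ZMod (QN l q0 n)) (R : ZMod (QN l q0 n))
            (S : ZMod (QN l q0 n)) c)
        = Es (FZ l q0 n' e ψ) (P : ZMod (QN l q0 n')) (R : ZMod (QN l q0 n'))
            (S : ZMod (QN l q0 n')) c

/-- the edge sum of level zero of a function with values modulo thirteen -/
noncomputable def E0 (q0 : ℕ) [NeZero (q0 * 13)] (χ : ℤ → ZMod 13) (P R S c : ℤ) : ZMod 13 :=
  Es (Q := q0 * 13) (fun z => χ (z.val : ℤ)) (P : ZMod (q0 * 13)) (R : ZMod (q0 * 13))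
    (S : ZMod (q0 * 13)) c

/-- **LV0**, reduction to level zero. DSG with `Q' = q0 13`, `π : ZMod (13^(n+1)) → ZMod 13`,
`F' z = χ z.val`: `π (FZ z) = ψ(z) z^e = fb e ψ z = χ z`, and `χ` has the period `q0 13` because `ψ` has the
period `q0`; `Z0 F' = 0`: `F'` is (up to the isomorphism `ZMod (13^1) = ZMod 13`) the function `FZ` of level
zero, LVL (first part) and `PSX.t_ZSQ`. -/
def Stmt_LV0 : Prop := ∀ (q0 n e e0 : ℕ) (ψ : ℤ → ℤ) (χ : ℤ → ZMod 13) [NeZero (QN 13 q0 n)]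
    [NeZero (q0 * 13)], PSX.Fm 13 q0 n e e0 ψ → (∀ u, fb e ψ u = χ u) → ∀ (P R S c : ℤ),
    ZMod.castHom (dvd_pow_self 13 (Nat.succ_ne_zero n)) (ZMod 13)
        (Es (FZ 13 q0 n e ψ) (P : ZMod (QN 13 q0 n)) (R : ZMod (QN 13 q0 n))
          (S : ZMod (QN 13 q0 n)) c) = E0 q0 χ P R S c

/-- **LQL**, any family: the letter only matters modulo `Q l` (`PSX.t_EFZ`, `PSX.t_LCQ`, and
`l I0 = 0`: `PSX.t_RED`); the second part is `PSX.t_LCQ` for edge sums: a change of the letter by `Q t`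
adds `2 t SX(I0)`. -/
def Stmt_LQL : Prop := ∀ (l q0 n e e0 : ℕ) (ψ : ℤ → ℤ) [NeZero (QN l q0 n)],
    PSX.Fm l q0 n e e0 ψ → ∀ P R S c : ℤ,
    (∀ c', ((QN l q0 n * l : ℕ) : ℤ) ∣ c' - c →
      Es (FZ l q0 n e ψ) (P : ZMod (QN l q0 n)) (R : ZMod (QN l q0 n)) (S : ZMod (QN l q0 n)) c'
        = Es (FZ l q0 n e ψ) (P : ZMod (QN l q0 n)) (R : ZMod (QN l q0 n))
            (S : ZMod (QN l q0 n)) c) ∧
    (∀ t : ℤ, Es (FZ l q0 n e ψ) (P : ZMod (QN l q0 n)) (R : ZMod (QN l q0 n))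
          (S : ZMod (QN l q0 n)) (c + (QN l q0 n : ℕ) * t)
        = Es (FZ l q0 n e ψ) (P : ZMod (QN l q0 n)) (R : ZMod (QN l q0 n))
            (S : ZMod (QN l q0 n)) c
          + 2 * (t : ZMod (l ^ (n + 1))) * SX (QN l q0 n) (I0 l q0 n e ψ P R S)) ∧
    (l : ZMod (l ^ (n + 1))) * SX (QN l q0 n) (I0 l q0 n e ψ P R S) = 0

/-! ### Type I -/

/-- **TI0**, type I: the full sums vanish. By `PSX.t_RSM` they are `l^n` times an integer times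
`Σ_{j<l} B(j)` with `B = A^e` (`A(j) = P x² + R x j - S j²`), resp. `B = e A^(e-1) C`
(`C(j) = P' x² + R' x j - S' j²`). In `ZMod l` (Fermat; `e ≡ e0` mod `l-1`, `2 ≤ e0 ≤ e`)
`A(j)^e = A(j)^e0`, `A(j)^(e-1) = A(j)^(e0-1)`, polynomials of degree `≤ 2 e0 < l - 1` in `j`, whose sum
over the field is zero (`FiniteField.sum_pow_lt_card_sub_one`). -/
def Stmt_TI0 : Prop := ∀ (l q0 n e e0 : ℕ) (ψ : ℤ → ℤ), PSX.Fm l q0 n e e0 ψ → 2 * e0 < l - 1 →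
    ∀ P R S x : ℤ, I0 l q0 n e ψ P R S x = 0 ∧
      ∀ P' R' S' : ℤ, I1 l q0 n e ψ P R S P' R' S' x = 0

/-- **TLQ**, type I: the letter only matters modulo `Q`. `PSX.t_EFZ`, `PSX.t_LCQ` with
`H x y = FN (evZ P R S x y)` (periodicity: PPO/BLK), and TI0. -/
def Stmt_TLQ : Prop := ∀ (l q0 n e e0 : ℕ) (ψ : ℤ → ℤ) [NeZero (QN l q0 n)],
    PSX.Fm l q0 n e e0 ψ → 2 * e0 < l - 1 → ∀ P R S c c' : ℤ, ((QN l q0 n : ℕ) : ℤ) ∣ c' - c →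
    Es (FZ l q0 n e ψ) (P : ZMod (QN l q0 n)) (R : ZMod (QN l q0 n)) (S : ZMod (QN l q0 n)) c'
      = Es (FZ l q0 n e ψ) (P : ZMod (QN l q0 n)) (R : ZMod (QN l q0 n)) (S : ZMod (QN l q0 n)) c

/-- **TTV**, type I, `n ≥ 1`, `N = q0 l^n` (`N² = 0`, `l N = 0` in `M`): block sums. (i) by BLK with
`k = n`: `l Σ_{j<N} F(φ(x, a+j))` is the full sum `I0 = 0`, and `l N = 0`. (ii) by PPO (iv), (v)
`F(φ + Nφ') = F(φ) + N F'(φ) φ'`, `N F'(φ + Nφ') = N F'(φ)`, and `N Σ_{j<N} F'(φ(x,a+j)) φ'(x,a+j) =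
q0 l^(n-1) (l Σ_{j<N} ..) = q0 l^(n-1) I1 = 0` (BLK with `k = n` for the `Pol` function `F'(φ)φ'`). -/
def Stmt_TTV : Prop := ∀ (l q0 n e e0 : ℕ) (ψ : ℤ → ℤ), PSX.Fm l q0 n e e0 ψ → 2 * e0 < l - 1 →
    1 ≤ n → ∀ P R S P' R' S' c x : ℤ,
    (l : ZMod (l ^ (n + 1))) * TT l n e ψ (q0 * l ^ n) P R S c x = 0 ∧
    TT l n e ψ (q0 * l ^ n) (P + (q0 * l ^ n : ℕ) * P') (R + (q0 * l ^ n : ℕ) * R')
      (S + (q0 * l ^ n : ℕ) * S') c x = TT l n e ψ (q0 * l ^ n) P R S c x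

/-- **TSM**, type I, `n ≥ 1`, `N = q0 l^n`: the sum over `l` equidistant edges. For `t < l`, by
`PSX.t_LCN` (`i = n`) at the changed form and TTV (ii):
`Es(φ + N t φ'; c + N t c') = Es(φ + N t φ'; c) + t c' SX(TT N φ c)`, and by `PSX.t_PHI` (`i = n`,
direction `t φ'`, `ED` is linear in the direction) `Es(φ + N t φ'; c) = Es(φ; c) + t N ED(φ; φ'; c)`.
Sum over `t < l`: `Σ t = l (l-1)/2` is a multiple of `l` (`l` odd), and `l N = 0`, `l SX(TT) = 0` (TTV (i)). -/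
def Stmt_TSM : Prop := ∀ (l q0 n e e0 : ℕ) (ψ : ℤ → ℤ) [NeZero (QN l q0 n)],
    PSX.Fm l q0 n e e0 ψ → 2 * e0 < l - 1 → 1 ≤ n → ∀ P R S P' S' c c' : ℤ,
    ∑ t ∈ range l, Es (FZ l q0 n e ψ) ((P + (q0 * l ^ n : ℕ) * (P' * t) : ℤ) : ZMod (QN l q0 n))
        (R : ZMod (QN l q0 n)) ((S + (q0 * l ^ n : ℕ) * (S' * t) : ℤ) : ZMod (QN l q0 n))
        (c + (q0 * l ^ n : ℕ) * (c' * t))
      = (l : ZMod (l ^ (n + 1))) * Es (FZ l q0 n e ψ) (P : ZMod (QN l q0 n))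
        (R : ZMod (QN l q0 n)) (S : ZMod (QN l q0 n)) c

/-- **BLI**, block theorem, type I. Induction on `n` (for the fixed `e`, `ψ`; LVL gives the family at the
lower level). `n = 0`: modulo `Q = q0 l` the forms and letters are constant, TLQ. `n ≥ 1`: by
`g ≡ 1` mod `q0 l`, `g^(l^(n-1)) = 1 + N τ` with `N = q0 l^n` (mod `q0` clear, mod `l^n` by induction), so
modulo `Q` (`N² ≡ 0`): `P(i + l^(n-1) t) ≡ P(i)(1 + N t τ)`, `S(i + l^(n-1) t) ≡ S(i)(1 - N t τ)`,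
`c(i + l^(n-1) t) ≡ c(i)(1 + N t τ)`. By TLQ and TSM, with period `l^n` (forms and letters modulo `Q`):
`Σ_{i < l^n k} = k Σ_{i<l^n} = k l Σ_{i<l^(n-1)} Es(i)`. By LVL (`n' = n-1`) and the induction hypothesis the
image of `Σ_{i<l^(n-1)} Es(i) - l^(n-1) Es(0)` in `ZMod (l^n)` is zero, so `l` times it is zero. -/
def Stmt_BLI : Prop := ∀ (l q0 n e e0 : ℕ) (ψ : ℤ → ℤ) [NeZero (QN l q0 n)],
    PSX.Fm l q0 n e e0 ψ → 2 * e0 < l - 1 → ∀ (g R : ℤ) (P S c : ℕ → ℤ),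
    ((q0 * l : ℕ) : ℤ) ∣ g - 1 → (∀ i, ((QN l q0 n : ℕ) : ℤ) ∣ P (i + 1) - g * P i) →
    (∀ i, ((QN l q0 n : ℕ) : ℤ) ∣ g * S (i + 1) - S i) →
    (∀ i, ((QN l q0 n : ℕ) : ℤ) ∣ c (i + 1) - g * c i) → ∀ k : ℕ,
    ∑ i ∈ range (l ^ n * k), Es (FZ l q0 n e ψ) (P i : ZMod (QN l q0 n)) (R : ZMod (QN l q0 n))
        (S i : ZMod (QN l q0 n)) (c i)
      = ((l ^ n * k : ℕ) : ZMod (l ^ (n + 1))) * Es (FZ l q0 n e ψ) (P 0 : ZMod (QN l q0 n))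
        (R : ZMod (QN l q0 n)) (S 0 : ZMod (QN l q0 n)) (c 0)

/-! ### All types -/

/-- **BL2**, block theorem, any family. Induction on `n`. Write `i = i0 + l^n t`, `i0 < l^n`, `t < l k`.
`g^(l^n) = 1 + Q w`, so the form at `i` is that at `i0` modulo `Q`, and
`c(i) ≡ c(i0) + Q t w c(i0)` modulo `Q l`. By `PSX.t_LCQ` (`l I0 = 0`: `PSX.t_RED`)
`Es(i) = Es(i0) + 2 t w c(i0) SX(I0)`, and `Σ_{t < lk} t = lk(lk-1)/2 ≡ 0` mod `l`. So the sum is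
`l k Σ_{i0<l^n} Es(i0)`. `n = 0`: `l = 0` in `M`. `n ≥ 1`: by LVL (`n' = n-1`) the image of
`Σ_{i0<l^n} Es(i0)` in `ZMod (l^n)` is the sum of level `n-1` with `k = 1`, zero by induction (the
hypotheses of level `n-1` hold: `Q_(n-1) l = Q_n`), so `l` times it is zero. -/
def Stmt_BL2 : Prop := ∀ (l q0 n e e0 : ℕ) (ψ : ℤ → ℤ) [NeZero (QN l q0 n)],
    PSX.Fm l q0 n e e0 ψ → ∀ (g R : ℤ) (P S c : ℕ → ℤ),
    ((q0 * l : ℕ) : ℤ) ∣ g - 1 → (∀ i, ((QN l q0 n : ℕ) : ℤ) ∣ P (i + 1) - g * P i) →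
    (∀ i, ((QN l q0 n : ℕ) : ℤ) ∣ g * S (i + 1) - S i) →
    (∀ i, ((QN l q0 n * l : ℕ) : ℤ) ∣ c (i + 1) - g * c i) → ∀ k : ℕ,
    ∑ i ∈ range (l ^ (n + 1) * k), Es (FZ l q0 n e ψ) (P i : ZMod (QN l q0 n))
        (R : ZMod (QN l q0 n)) (S i : ZMod (QN l q0 n)) (c i) = 0

/-- the edges of a geometric progression: form `(α p^j, R, β pb^j)`, letter `λ p^j` (`pb` inverse to `p`) -/
noncomputable def Ge (q0 n e : ℕ) (ψ : ℤ → ℤ) [NeZero (QN 13 q0 n)] (α R β lam p pb : ℤ) (j : ℕ) :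
    ZMod (13 ^ (n + 1)) :=
  Es (FZ 13 q0 n e ψ) ((α * p ^ j : ℤ) : ZMod (QN 13 q0 n)) ((R : ℤ) : ZMod (QN 13 q0 n))
    ((β * pb ^ j : ℤ) : ZMod (QN 13 q0 n)) (lam * p ^ j)

/-- **LTE**: `13^k ∣ T`, `p^T ≡ 1` modulo `r 13`, `r ∣ 105·17·19`. `T = 13^k T'`; modulo `13`,
`p^T = (p^T')^(13^k) = p^T'` (Fermat), so `p^T' ≡ 1` mod `13` and `(p^T')^(13^k) ≡ 1` modulo `13^(k+1)`
(`Int` version of `dvd_sub_pow_of_dvd_sub`, or `emultiplicity`); modulo `r` given; `r` and `13` are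
coprime. -/
def Stmt_LTE : Prop := ∀ (r : ℕ) (p : ℤ) (k T : ℕ), r ∣ 33915 → 13 ^ k ∣ T →
    ((r * 13 : ℕ) : ℤ) ∣ p ^ T - 1 → ((r * 13 ^ (k + 1) : ℕ) : ℤ) ∣ p ^ T - 1

/-- **GP1**, geometric progressions, type I. `ω = gcd(12,T)`, `T = ω K`, `13^n ∣ K` (13 is prime to 12),
`g = p^ω ≡ 1` modulo `q0 13` (both `p^12` and `p^T` are). BLI for each `j < ω` (`P i = α p^(s+j+ωi)` etc.):
`Σ_{j<T} Ge(s+j) = K Σ_{j<ω} Ge(s+j)` (`T = 0` trivial). `K` is a multiple of `13^n`, so only the images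
of `Ge` in `ZMod 13` matter, and those are `ω`-periodic in `j` (LVL with `n' = 0` and TLQ at level `0`: the
forms and letters modulo `q0 13` are periodic), so
`12 K Σ_{j<ω} Ge(s+j) = 12 K Σ_{j<ω} Ge(j) = ω K Σ_{j<12} Ge(j)`. -/
def Stmt_GP1 : Prop := ∀ (q0 n e e0 : ℕ) (ψ : ℤ → ℤ) [NeZero (QN 13 q0 n)],
    PSX.Fm 13 q0 n e e0 ψ → 2 * e0 < 12 → ∀ (α R β lam p pb : ℤ) (s T : ℕ),
    ((QN 13 q0 n : ℕ) : ℤ) ∣ p * pb - 1 → ((q0 * 13 : ℕ) : ℤ) ∣ p ^ 12 - 1 →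
    ((q0 * 13 : ℕ) : ℤ) ∣ p ^ T - 1 → 13 ^ n ∣ T →
    12 * ∑ j ∈ range T, Ge q0 n e ψ α R β lam p pb (s + j)
      = (T : ZMod (13 ^ (n + 1))) * ∑ j ∈ range 12, Ge q0 n e ψ α R β lam p pb j

/-- **GP2**, geometric progressions, any family: `13^(n+1) ∣ T`. As GP1 with BL2 for each `j < ω`. -/
def Stmt_GP2 : Prop := ∀ (q0 n e e0 : ℕ) (ψ : ℤ → ℤ) [NeZero (QN 13 q0 n)],
    PSX.Fm 13 q0 n e e0 ψ → ∀ (α R β lam p pb : ℤ) (s T : ℕ),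
    ((QN 13 q0 n : ℕ) : ℤ) ∣ p * pb - 1 → ((q0 * 13 : ℕ) : ℤ) ∣ p ^ 12 - 1 →
    ((q0 * 13 : ℕ) : ℤ) ∣ p ^ T - 1 → 13 ^ (n + 1) ∣ T →
    ∑ j ∈ range T, Ge q0 n e ψ α R β lam p pb (s + j) = 0

/-! ### Families of type I and kernel checks at level zero -/

/-- values of a character of order four modulo seventeen, `χ(3) = 5` -/
def v17 (x : ZMod 17) : ZMod 13 :=
  (![0, 1, 12, 5, 1, 5, 8, 8, 12, 12, 8, 8, 5, 1, 5, 12, 1] : Fin 17 → ZMod 13) x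
/-- values of a character of order three modulo nineteen, `χ(2) = 9` -/
def v19 (x : ZMod 19) : ZMod 13 :=
  (![0, 1, 9, 9, 3, 9, 3, 1, 1, 3, 3, 1, 1, 3, 9, 3, 9, 9, 1] : Fin 19 → ZMod 13) x

/-- family `455F13b` -/
def χa (u : ℤ) : ZMod 13 := v7 u ^ 4 * v5 u ^ 2 * (u : ZMod 13) ^ 5
/-- family `455F13e` -/
def χb (u : ℤ) : ZMod 13 := v7 u ^ 5 * v5 u ^ 3 * (u : ZMod 13) ^ 5
/-- family `195F13a` -/
def χc (u : ℤ) : ZMod 13 := v5 u * v3 u * (u : ZMod 13) ^ 3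
/-- family `663F13a` -/
def χd (u : ℤ) : ZMod 13 := v3 u * v17 u * (u : ZMod 13) ^ 4
/-- family `1235F13d` -/
def χe (u : ℤ) : ZMod 13 := v5 u ^ 3 * v19 u * (u : ZMod 13) ^ 2

/-- a family at all levels (without the condition on the central value) -/
def FamI (q0 e0 : ℕ) (χ : ℤ → ZMod 13) : Prop :=
  ∀ n : ℕ, ∃ (e : ℕ) (ψ : ℤ → ℤ), PSX.Fm 13 q0 n e e0 ψ ∧ ∀ u, fb e ψ u = χ u

/-- **FAI**, the families of type I exist at all levels (Hensel as for `PSX.t_FAM`; the slopes of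
`t ↦ Hs(e0 + 12 t)/13` modulo 13 are 9, 2, 4, 2, 3). -/
def Stmt_FAI : Prop := FamI 35 5 χa ∧ FamI 35 5 χb ∧ FamI 15 3 χc ∧ FamI 51 4 χd ∧ FamI 95 2 χe

/-- the list of the first ghost at level zero -/
def L1 (q s : ℤ) : List Fm := [⟨1, q, -s, 3, -(s * q)⟩]

/-- the list of the ghosts 2, 3, 4 at level zero -/
def L4 (p X σ : ℤ) : List Fm :=
  (List.range 12).map (fun j =>
    (⟨p ^ j, -σ, -(σ * (X * p ^ (12 - j))), 3, -(σ * p ^ j)⟩ : Fm)) ++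
  (List.range 12).map (fun j =>
    (⟨X * p ^ j, 2 * X + σ, X * p ^ (12 - j), 3, p ^ j⟩ : Fm))

/-- the level zero sum of a list -/
noncomputable def EL0 (q0 : ℕ) [NeZero (q0 * 13)] (χ : ℤ → ZMod 13) (J : List Fm) : ZMod 13 :=
  (J.map (fun j => E0 q0 χ j.P j.R (-j.S) (-j.α))).sum

/-- **LNK**, from edge sums of level zero to the relation of a table. `χt : ZMod Q → ZMod 2197`
(`Q = q0 13`) odd, multiplicative, with reduction `χ` modulo 13, and `4 χt(4) - 1` a unit. `f = NN.lift χt`,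
an odd periodic function of integers. `RL2M.LJ_eq` (OEG/RL2) and the balance of the list give
`LJ Q (4 f(4·) - f) J = 3 Q² (EJ (fz f) J - Σ (-α) Z0 (fz f))`. Modulo 13 the bracket is
`EL0 - Σ (-α) Z0 (χ)`, zero by hypothesis (`Z0 = 0`: `hZ`), and `13² ∣ Q²`, so the left hand side is `0`
modulo `13³ = 2197`; it is `(4 χt(4) - 1) Σ (3 XX χt + α YX χt)` there (`χt` multiplicative). -/
def Stmt_LNK : Prop := ∀ (q0 : ℕ) [NeZero (q0 * 13)] (χ : ℤ → ZMod 13)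
    (χt : ZMod (q0 * 13) → ZMod 2197) (J : List Fm), q0 % 2 = 1 →
    (∀ z, χt (-z) = - χt z) → (∀ x y, χt (x * y) = χt x * χt y) →
    (∀ z : ZMod (q0 * 13), ZMod.castHom (by norm_num : 13 ∣ 2197) (ZMod 13) (χt z) = χ (z.val : ℤ)) →
    IsUnit (4 * χt 4 - 1) → (∀ S : ZMod (q0 * 13), Z0 (fun z => χ (z.val : ℤ)) S = 0) →
    (∀ j ∈ J, j.κ = 3) →
    (∀ V : ZMod (q0 * 13) → ZMod (q0 * 13) → ZMod (q0 * 13) → ℤ,
      (∀ P R S, V (-P) R (-S) = V P R S) →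
      (J.map (fun j => V (j.P : ZMod (q0 * 13)) (j.R : ZMod (q0 * 13))
          ((-j.S : ℤ) : ZMod (q0 * 13)))).sum
        = (J.map (fun j => V ((-j.S : ℤ) : ZMod (q0 * 13))
            ((2 * (-j.α) * (-j.S) - j.R : ℤ) : ZMod (q0 * 13))
            ((j.P + j.R * (-j.α) - (-j.S) * (-j.α) ^ 2 : ℤ) : ZMod (q0 * 13)))).sum) →
    EL0 q0 χ J = 0 → Lib_helper5.LK.Rel 2197 χt J

/-- **NV1**, kernel check: the first ghost, level zero (by LNK, the table rows of `455F13b`, `455F13e`,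
`195F13`, `relG`; the list `L1` is balanced: its next form is `(s, q, 1) = s (1, q, s)`). 132 classes. -/
def Stmt_NV1 : Prop := ∀ [NeZero (35 * 13)] [NeZero (15 * 13)] (q s : ℤ), OEX.Sg s →
    PSX.Nr (q ^ 2 + 4 * s) →
    ¬ ((1365 : ℤ) ∣ q - 17 ∨ (1365 : ℤ) ∣ q + 17 ∨ (1365 : ℤ) ∣ q - 21 ∨ (1365 : ℤ) ∣ q + 21) →
    E0 35 χa 1 q s (s * q) ≠ 0 ∨ E0 35 χb 1 q s (s * q) ≠ 0 ∨ E0 15 χc 1 q s (s * q) ≠ 0

/-- **NV2**, kernel check: the classes `q ≡ ± 17` (table `663F13`), eight classes modulo 17, and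
`q ≡ ± 21` (table `1235F13d`, to be generated), nine classes modulo 19. -/
def Stmt_NV2 : Prop := ∀ [NeZero (51 * 13)] [NeZero (95 * 13)] (q s : ℤ), OEX.Sg s →
    PSX.Nr (q ^ 2 + 4 * s) →
    ((1365 : ℤ) ∣ q - 17 ∨ (1365 : ℤ) ∣ q + 17 → ((q ^ 2 + 4 * s : ℤ) : ZMod 17) ^ 8 = -1 →
      E0 51 χd 1 q s (s * q) ≠ 0) ∧
    ((1365 : ℤ) ∣ q - 21 ∨ (1365 : ℤ) ∣ q + 21 → ((q ^ 2 + 4 * s : ℤ) : ZMod 19) ^ 9 = -1 →
      E0 95 χe 1 q s (s * q) ≠ 0)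

/-- **NV4**, kernel check: ghosts 2, 3, 4, level zero (LNK, tables `455F13b`, `455F13e`, `195F13`, `relG`).
The list `L4` is balanced modulo `q0 13` (`p^12 ≡ 1`): first edges `a_j = (p^j, -σ, σXp^(-j); σp^j)`, second
edges `b_j = (Xp^j, 2X+σ, -Xp^(-j); -p^j)`. The next form of `a_j` is `(σXp^(-j), 2X+σ, -σXp^j)`, that
of `b_(-j)` if `σ = 1` and its image under `(P,R,S) → (-P,R,-S)` if `σ = -1`; the next form of `b_j` is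
`(-Xp^(-j), -σ, -σp^j)`, the image under `(P,R,S) → (-P,R,-S)` of `(Xp^(-j), -σ, σp^j)`, the form of `a_i`
with `p^i ≡ Xp^(-j)`, that is `i = m' - j` (`X ≡ p^m'`). Check the classes `p` mod 1365, `m'` mod 12
(710 pairs `(p,X)` for the two signs together). -/
def Stmt_NV4 : Prop := ∀ [NeZero (35 * 13)] [NeZero (15 * 13)] (p X σ : ℤ) (m' : ℕ), OEX.Sg σ →
    (1365 : ℤ) ∣ p ^ 12 - 1 → (1365 : ℤ) ∣ X - p ^ m' → PSX.Nr (1 + 4 * σ * X) →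
    EL0 35 χa (L4 p X σ) ≠ 0 ∨ EL0 35 χb (L4 p X σ) ≠ 0 ∨ EL0 15 χc (L4 p X σ) ≠ 0

/-- **RKG**, kernel check (72 classes): the second order condition of the ghosts 2 and 3. -/
def Stmt_RKG : Prop := ∀ X σ κ : ℤ, OEX.Sg σ → PSX.Nr (1 + 4 * σ * X) →
    (κ : ZMod 13) * (2 + (2 * X + σ) * PSX.χ0 X) = 0 →
    (κ : ZMod 13) * (2 + (2 * X + σ) * PSX.χ3 X) = 0 → (13 : ℤ) ∣ κ

/-! ### The ghosts -/

/-- **CR1**, core of the ghosts 2, 3, 4. `FAI` at level `n`, three families. If both sums with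
`q0 = 35` (`χa`, `χb`) and `q0 = 15` (`χc`) vanished then by GP1 (twice, `lam = σ`, `-1`)
`T Σ_{j<12} (Ge(..) + Ge(..)) = 0` in `ZMod (13^(n+1))`, `13^(n+1) ∤ T`, so the image of the sum in
`ZMod 13` is zero; by LV0 it is `EL0 q0 χ (L4 p X σ)` (`pb^j ≡ p^(12-j)` mod `q0 13`), against NV4. -/
def Stmt_CR1 : Prop := ∀ (n T s t : ℕ) (p pb X σ : ℤ) (m' : ℕ), OEX.Sg σ → 13 ^ n ∣ T →
    ¬ 13 ^ (n + 1) ∣ T → (1365 : ℤ) ∣ p ^ 12 - 1 → (1365 : ℤ) ∣ p ^ T - 1 →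
    (105 * 13 ^ (n + 1) : ℤ) ∣ p * pb - 1 → (1365 : ℤ) ∣ X - p ^ m' → PSX.Nr (1 + 4 * σ * X) →
    ∃ (q0 e e0 : ℕ) (ψ : ℤ → ℤ) (_ : NeZero (QN 13 q0 n)), q0 ∣ 105 ∧ PSX.Fm 13 q0 n e e0 ψ ∧
      2 * e0 < 12 ∧
      ∑ j ∈ range T, Ge q0 n e ψ 1 (-σ) (σ * X) σ p pb (s + j)
        + ∑ j ∈ range T, Ge q0 n e ψ X (2 * X + σ) (-X) (-1) p pb (t + j) ≠ 0

/-- **NGQ**, change of sign of `q`, `b`: every edge sum changes sign (SYE (ii)). -/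
def Stmt_NGQ : Prop := ∀ (Q : ℕ) [NeZero Q], Q % 2 = 1 → ∀ (M : Type) [CommRing M]
    (F : ZMod Q → M), (∀ z, F (-z) = - F z) → ∀ (l u p q b : ℤ) (m : ℕ),
    EJ F (J1 l u p (-q) (-b) m) = - EJ F (J1 l u p q b m)

/-- **CQ3**, the three central sums. Forms `(1,-σ,σX)`, `(X,-σ,σ)`, `(X,2X+σ,-X)` of discriminant
`1+4σX`; by `PSX.t_CQP`: `F(σX) T1 = F(σ) T2 = F(-X) T3`, `T = SX(I0 ..)`; `F(σ) = σ`, `F(-X) = -F(X)`,
`F(X)` is a unit (`PSX.t_UNI`). So `F(X)(σ T1 + σ(2X+σ) T2 - T3) = T2 σ (2 + (2X+σ) F(X))`. -/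
def Stmt_CQ3 : Prop := ∀ (l q0 n e e0 : ℕ) (ψ : ℤ → ℤ) [NeZero (QN l q0 n)],
    PSX.Fm l q0 n e e0 ψ → ∀ X σ : ℤ, OEX.Sg σ → IsCoprime X ((q0 * l : ℕ) : ℤ) →
    FN l n e ψ X * ((σ : ZMod (l ^ (n + 1))) * SX (QN l q0 n) (I0 l q0 n e ψ 1 (-σ) (σ * X))
        + (σ : ZMod (l ^ (n + 1))) * (2 * X + σ) * SX (QN l q0 n) (I0 l q0 n e ψ X (-σ) σ)
        - SX (QN l q0 n) (I0 l q0 n e ψ X (2 * X + σ) (-X)))
      = (σ : ZMod (l ^ (n + 1))) * SX (QN l q0 n) (I0 l q0 n e ψ X (-σ) σ)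
        * (2 + (2 * X + σ) * FN l n e ψ X)

/-- **KAP**, second order step of the ghosts 2 and 3 in one family: if the three letters
`σ + Qσκw`, `-1 + Qσκw(2X+σ)`, `-1 - Qκw` of the ghost cycle have the sum zero, then
`13 ∣ κ w (2 + (2X+σ) χ(X))`. By `PSX.t_LCQ` (letters modulo `13 Q`, `l I0 = 0`) and TCY the sum is
`2 κ w (σ T1 + σ(2X+σ) T2 - T3)`; times `F(X)`: CQ3, and `PSX.t_VAN` for the form `(X,-σ,σ)`. -/
def Stmt_KAP : Prop := ∀ (q0 n e e0 : ℕ) (ψ : ℤ → ℤ) [NeZero (QN 13 q0 n)],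
    PSX.Fm 13 q0 n e e0 ψ → ∀ X σ κ c1 c2 c3 : ℤ, OEX.Sg σ →
    IsCoprime X ((q0 * 13 : ℕ) : ℤ) → ¬ (13 : ℤ) ∣ CR 13 q0 e ψ (1 + 4 * σ * X) →
    ((QN 13 q0 n * 13 : ℕ) : ℤ) ∣ c1 - (σ + (QN 13 q0 n : ℕ) * (σ * κ)) →
    ((QN 13 q0 n * 13 : ℕ) : ℤ) ∣ c2 - (-1 + (QN 13 q0 n : ℕ) * (σ * κ * (2 * X + σ))) →
    ((QN 13 q0 n * 13 : ℕ) : ℤ) ∣ c3 - (-1 - (QN 13 q0 n : ℕ) * κ) →
    Es (FZ 13 q0 n e ψ) ((1 : ℤ) : ZMod (QN 13 q0 n)) ((-σ : ℤ) : ZMod (QN 13 q0 n))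
        ((σ * X : ℤ) : ZMod (QN 13 q0 n)) c1
      + Es (FZ 13 q0 n e ψ) ((X : ℤ) : ZMod (QN 13 q0 n)) ((-σ : ℤ) : ZMod (QN 13 q0 n))
        ((σ : ℤ) : ZMod (QN 13 q0 n)) c2
      + Es (FZ 13 q0 n e ψ) ((X : ℤ) : ZMod (QN 13 q0 n)) ((2 * X + σ : ℤ) : ZMod (QN 13 q0 n))
        ((-X : ℤ) : ZMod (QN 13 q0 n)) c3 = 0 →
    (κ : ZMod 13) * (2 + (2 * X + σ) * fb e ψ X) = 0

/-- parameters of the first family without any size condition -/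
structure P1 (D l u p q b : ℤ) (m : ℕ) : Prop where
  l1 : OEX.Sg l
  u1 : OEX.Sg u
  m1 : 1 ≤ m
  qb : q * b = u * p - l
  D1 : D = (q * p ^ m + b) ^ 2 + 4 * l * p ^ m

/-- **H1I**, first ghost, type I, level `n = v_13(2m+1)`. `ε = u l`. Let `q' = q ε^m`, `s = l ε^m` (so
`D ≡ q'^2 + 4s` modulo `1365`, and modulo `17` or `19` in the special classes). Take a family with
value `≠ 0` in NV1 or NV2 (`q' = ± q`); its conductor `q0` divides `105`, `51` or `95`, and `q0 13^(n+1)` divides `p - ε` and `b`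
(`G1.x17`, `x19` for `q0 = 51, 95`). Modulo `Q`: `N_j = (ε^j, q', ε^j s)` with the letter `ε^j s q'`
(`l q p^j ≡ l q ε^j`, `l q = s q'`; at `j = m` the extra `l b ≡ 0`), `N'_j` the same
(`u ε^(m+1-j) = s ε^j`, `u q ε^(j-1) = ε^j s q'` because `u ε = l`). By TLQ and SYE (i) all `2m+1` edges of
`J1` have the value `E = Es(1, q', s; s q')`, so `(2m+1) E = 0`. The image of `E` in `ZMod 13` is
`E0 ≠ 0` (LV0), so `13^(n+1) ∣ 2m+1`. -/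
def Stmt_H1I : Prop := ∀ (D l u p q b : ℤ) (m n : ℕ), P1 D l u p q b m → Nr D →
    RelJ Q0 (J1 l u p q b m) → G1 l u p q b → (105 * 13 ^ (n + 1) : ℤ) ∣ p - u * l →
    (105 * 13 ^ (n + 1) : ℤ) ∣ b → 13 ^ (n + 1) ∣ 2 * m + 1

/-- **H12**, first ghost, second order step. Family `χ0` (`q0 = 15`, `PSX.t_FAM`), `Q = 15·13^(n+1)`,
`p = ε + Qπ`, `b = Qβ`, `qβ = uπ`. As in H1I with the letters modulo `13 Q`: the edge `N_j` has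
`Es(1,q',s; s q' + Q(u q j π + [j=m] s β))`, `N'_j` has `Es(1,q',s; s q' + Q u q (j-1) π)`
(`p^j ≡ ε^j + j ε^(j-1) Q π` mod `13Q`; `l ε = u`, `ε^m l = s`). By `PSX.t_LCQ` and `13 I0 = 0`:
`0 = (2m+1) E + 2 SX(I0 1 q' s) X`, `X = u q π m² + s β` (`Σ j + Σ (j-1) = m²`), and `(2m+1) E = 0` because
`13^(n+1) ∣ 2m+1`. `PSX.t_VAN`: `13 ∣ X`. `4 q X = u π (4m²q² + 4s)`, `4m² ≡ 1` mod 13, so
`13 ∣ π (q² + 4s)`, and `q² + 4s ≡ D` is a nonresidue: `13 ∣ π`. `13 ∤ q` (else `D ≡ ± 4`, a square), and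
`qβ = uπ`: `13 ∣ β`. -/
def Stmt_H12 : Prop := ∀ (D l u p q b : ℤ) (m n : ℕ), P1 D l u p q b m → Nr D →
    RelJ Q0 (J1 l u p q b m) → (105 * 13 ^ (n + 1) : ℤ) ∣ p - u * l →
    (105 * 13 ^ (n + 1) : ℤ) ∣ b → 13 ^ (n + 1) ∣ 2 * m + 1 →
    (105 * 13 ^ (n + 2) : ℤ) ∣ p - u * l ∧ (105 * 13 ^ (n + 2) : ℤ) ∣ b

/-- **H2I**, second ghost (`u = -1`, `q ≡ 1`), type I, level `n = v_13(m-1)`. By LTE
`p^(m-1) ≡ 1` mod `105·13^(n+1)`. `b ≡ -(p+l)`, `X := p`, `p^m ≡ p`, `N ≡ -l`, `N' ≡ 2p+l`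
modulo `105·13^(n+1)`. With `T = m-1` the edges `N_j` (`1 ≤ j ≤ m-1`) are `Ge 1 (-l) (l p) l` at `j`
(letter `l q p^j ≡ l p^j`, TLQ), the edges `N'_j` (`1 ≤ j ≤ m-1`) are `Ge p (2p+l) (-p) (-1)` at `j-1`, and
`N_0`, `N_m`, `N'_m` have the sum zero by TCY (`σ = l`, `X = p`; letters `l`, `l N ≡ -1`,
`-q p^(m-1) ≡ -1`). So `Σ Ge + Σ Ge = 0` for all families with `q0 ∣ 105` of type I, against CR1
(`s = 1`, `t = 0`, `m' = 1`; `D ≡ 1 + 4 l p`; `p^12 ≡ 1` mod `1365` since `p` is prime to it: `Nr`). -/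
def Stmt_H2I : Prop := ∀ (D l p q b : ℤ) (m n : ℕ), P1 D l (-1) p q b m → Nr D →
    RelJ Q0 (J1 l (-1) p q b m) → IsCoprime p 1365 → (1365 : ℤ) ∣ p ^ (m - 1) - 1 →
    (105 * 13 ^ (n + 1) : ℤ) ∣ q - 1 → 13 ^ n ∣ m - 1 → 13 ^ (n + 1) ∣ m - 1

/-- **H22**, second ghost, second order step, `13^(n+1) ∣ m-1` (also `m = 1`). Families `χ0` (`q0 = 15`)
and `χ3` (`q0 = 35`), `Q = q0 13^(n+1)`, `q = 1 + Qκ`; `p^(m-1) ≡ 1` mod `13 Q` (LTE with `k = n+1`),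
`p^m ≡ p` mod `13Q`, `b ≡ -(p+l) + Qκ(p+l)`, `N ≡ -l + Qκ(2p+l)` mod `13Q`, `N' ≡ 2p+l` mod `Q`. The edges
`N_j` (`1 ≤ j ≤ m-1`) are `Ge 1 (-l) (l p) (l q)` at `j`, the edges `N'_j` (`1 ≤ j ≤ m-1`) are
`Ge p (2p+l) (-p) (-q)` at `j-1`: sums zero by GP2. The rest: `N_0` with the letter `l q = l + Q l κ`,
`N_m` with `l N ≡ -1 + Q l κ (2p+l)`, `N'_m` with `-q p^(m-1) ≡ -1 - Qκ`: KAP (`X = p`, `σ = l`). So
`κ (2 + (2p+l) χ(p)) ≡ 0` for `χ0` and `χ3` (`κ` and the number `κ0` of `q = 1 + 105·13^(n+1) κ0` differ by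
the unit `7` or `3`), RKG: `13 ∣ κ0`. -/
def Stmt_H22 : Prop := ∀ (D l p q b : ℤ) (m n : ℕ), P1 D l (-1) p q b m → Nr D →
    RelJ Q0 (J1 l (-1) p q b m) → IsCoprime p 1365 → (1365 : ℤ) ∣ p ^ (m - 1) - 1 →
    (105 * 13 ^ (n + 1) : ℤ) ∣ q - 1 → 13 ^ (n + 1) ∣ m - 1 → (105 * 13 ^ (n + 2) : ℤ) ∣ q - 1

/-- **EX3**, the extended form of the first family (for `l = -1`): with `l p^m + N b - b² = u p^(m+1)`
SHF (`h = b`) and SYE (i) give `Es(p^m, N, -1; -N) - Es(p^m, N, -1; -q p^m)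
= Es(p^(m+1), N', u; u q p^m) - Es(p^(m+1), N', u; u N')`. So for every family and all integers `pb` with
`Q ∣ p pb - 1`, adding and subtracting the edges `N_(m+1)`, `N'_0`. -/
def Stmt_EX3 : Prop := ∀ (q0 n e e0 : ℕ) (ψ : ℤ → ℤ) [NeZero (QN 13 q0 n)],
    PSX.Fm 13 q0 n e e0 ψ → ∀ (u p q b pb c0 : ℤ) (m : ℕ), OEX.Sg u → q * b = u * p + 1 →
    ((QN 13 q0 n : ℕ) : ℤ) ∣ p * pb - 1 →
    EJ (FZ 13 q0 n e ψ) (J1 (-1) u p q b m)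
      = ∑ j ∈ range (m + 2), Es (FZ 13 q0 n e ψ) ((p ^ j : ℤ) : ZMod (QN 13 q0 n))
            ((q * p ^ m + b : ℤ) : ZMod (QN 13 q0 n))
            ((-(p ^ m * pb ^ j) : ℤ) : ZMod (QN 13 q0 n)) (-(q * p ^ j))
        + (∑ j ∈ range (m + 1), Es (FZ 13 q0 n e ψ) ((p ^ (j + 1) : ℤ) : ZMod (QN 13 q0 n))
            ((q * p ^ m - b : ℤ) : ZMod (QN 13 q0 n))
            ((u * (p ^ (m + 1) * pb ^ (j + 1)) : ℤ) : ZMod (QN 13 q0 n)) (u * q * p ^ j)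
          + Es (FZ 13 q0 n e ψ) ((1 : ℤ) : ZMod (QN 13 q0 n))
            ((q * p ^ m - b : ℤ) : ZMod (QN 13 q0 n)) ((u * p ^ (m + 1) : ℤ) : ZMod (QN 13 q0 n)) c0)
        - (Es (FZ 13 q0 n e ψ) ((p ^ (m + 1) : ℤ) : ZMod (QN 13 q0 n))
            ((q * p ^ m + b : ℤ) : ZMod (QN 13 q0 n)) ((-pb : ℤ) : ZMod (QN 13 q0 n))
            (-(q * p ^ (m + 1)))
          + Es (FZ 13 q0 n e ψ) ((1 : ℤ) : ZMod (QN 13 q0 n))
            ((q * p ^ m - b : ℤ) : ZMod (QN 13 q0 n)) ((u * p ^ (m + 1) : ℤ) : ZMod (QN 13 q0 n)) c0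
          + Es (FZ 13 q0 n e ψ) ((p ^ (m + 1) : ℤ) : ZMod (QN 13 q0 n))
            ((q * p ^ m - b : ℤ) : ZMod (QN 13 q0 n)) ((u : ℤ) : ZMod (QN 13 q0 n))
            (u * (q * p ^ m - b)))

/-- **H3I**, third ghost (`l = -1`, `q ≡ p`), type I, level `n = v_13(m+2)`. `T = m+2`; by LTE
`p^T ≡ 1` mod `105·13^(n+1)`. `pb` an inverse of `p` modulo `105·13^(n+2)`, `X := pb`, `σ := u`.
`b ≡ u + pb`, `p^m ≡ pb²`, `N ≡ 2pb + u`, `N' ≡ -u`. In EX3 (`c0 = u q pb ≡ u`) the first sum is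
`Ge X (2X+u) (-X) (-1)` at `j+1` (`X p^(j+1) = p^j`, letter `-q p^j ≡ -p^(j+1)`), the second with the extra
edge is `Ge 1 (-u) (u X) u` at `0, …, m+1`, the bracket is TCY (letters `-q p^(m+1) ≡ -1`, `u`,
`u N' ≡ -1`): zero. CR1 (`s = 0`, `t = 1`, `m' = 11`; `D = N'^2 + 4 u p^(m+1) ≡ 1 + 4 u X`). -/
def Stmt_H3I : Prop := ∀ (D u p q b : ℤ) (m n : ℕ), P1 D (-1) u p q b m → Nr D →
    RelJ Q0 (J1 (-1) u p q b m) → IsCoprime p 1365 → (1365 : ℤ) ∣ p ^ (m + 2) - 1 →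
    (105 * 13 ^ (n + 1) : ℤ) ∣ q - p → 13 ^ n ∣ m + 2 → 13 ^ (n + 1) ∣ m + 2

/-- **H32**, third ghost, second order step, `13^(n+1) ∣ m+2`. Families `χ0`, `χ3`, `q = p + Qκ`,
`p^(m+2) ≡ 1`, `p^(m+1) ≡ pb`, `p^m ≡ pb²` mod `13Q`; `b ≡ (u + pb)(1 - Qκ pb)`,
`N' ≡ -u + Qκ pb (2pb+u)` mod `13Q`, `N ≡ u + 2pb` mod `Q`. In EX3 with `c0 = u q pb` the two sums are
`Ge` with `lam = -(q pb)` (at `j+1`; `q p^j ≡ (q pb) p^(j+1)` mod `13 Q`), resp. `lam = u q pb` at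
`0, …, m+1`: zero by GP2. The bracket has the letters `u q pb ≡ u + Q u κ'`,
`u N' ≡ -1 + Q u κ' (2X+u)`, `-q p^(m+1) ≡ -1 - Qκ'`, `κ' = κ pb`, `X = pb`, `σ = u`: KAP, RKG. -/
def Stmt_H32 : Prop := ∀ (D u p q b : ℤ) (m n : ℕ), P1 D (-1) u p q b m → Nr D →
    RelJ Q0 (J1 (-1) u p q b m) → IsCoprime p 1365 → (1365 : ℤ) ∣ p ^ (m + 2) - 1 →
    (105 * 13 ^ (n + 1) : ℤ) ∣ q - p → 13 ^ (n + 1) ∣ m + 2 → (105 * 13 ^ (n + 2) : ℤ) ∣ q - p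

/-- **H4R**, fourth ghost, reduction of the list (type I, `s = -1`, `δ = A - m ≥ 1`, `p^δ ≡ 1` mod `Q`,
`X = p^m`). `N ≡ l`, `N3 ≡ -l`, `N4 ≡ 2X + l`, `p^A ≡ X` mod `Q`. Letters modulo `Q` (TLQ): `N_j`, `j < m`:
`l(p^(δ+j) - p^j) ≡ 0`; `N_m`: `l N ≡ 1`; `N3_j`: `l p^j` for `j < δ`, `l(p^j - p^(j-δ)) ≡ 0` for `j ≥ δ`;
`N4_(m+i)`: `-p^i`. By SYE (iii), (i) `N_j` (letter 0, form `(p^j, l, lXp^(-j))`) cancels
`N3_(δ+m-j)` (form `(Xp^(-j), -l, lp^j)`, letter 0) for `1 ≤ j ≤ m-1`; left are `N_0 = (1,l,lX;0)`,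
`N3_δ = (1,-l,lX;0)`, which cancel by SYE (ii) (`m ≥ 1`), and `N_m = (X,l,l;1) = -Es(X,-l,l;-1)`, which is
`Es(1,-l,lX;l) + Es(X,2X+l,-X;-1)` by TCY: the terms `i = δ` of the two sums
`Σ_{1≤i≤δ} Es(p^i,-l,lXp^(-i);lp^i)`, `Σ_{1≤i≤δ} Es(Xp^i,2X+l,-Xp^(-i);-p^i)` (`N3_i`, `N4_(m+i)` for
`i < δ`). -/
def Stmt_H4R : Prop := ∀ (q0 n e e0 : ℕ) (ψ : ℤ → ℤ) [NeZero (QN 13 q0 n)],
    PSX.Fm 13 q0 n e e0 ψ → 2 * e0 < 12 → ∀ (l p pb : ℤ) (A m : ℕ), OEX.Sg l → 1 ≤ m → m + 1 ≤ A →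
    ((QN 13 q0 n : ℕ) : ℤ) ∣ p * pb - 1 → ((QN 13 q0 n : ℕ) : ℤ) ∣ p ^ (A - m) - 1 →
    EJ (FZ 13 q0 n e ψ) (J2 (-1) l p A m)
      = ∑ j ∈ range (A - m), Ge q0 n e ψ 1 (-l) (l * p ^ m) l p pb (1 + j)
        + ∑ j ∈ range (A - m), Ge q0 n e ψ (p ^ m) (2 * p ^ m + l) (-(p ^ m)) (-1) p pb (1 + j)

/-- **GG1**: `Stmt_GH1` from H1I and H12. Let `n = v_13(2m+1)`. By induction on `i ≤ n`:
`105·13^(i+1) ∣ p - ul, b` (start: `G1`; step `i < n`: H12 as `13^(i+1) ∣ 2m+1`). At `i = n` H1I gives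
`13^(n+1) ∣ 2m+1`, a contradiction. -/
def Stmt_GG1 : Prop := Stmt_H1I → Stmt_H12 → Stmt_GH1

/-- **GG2**: `Stmt_GH2` from H2I, H22, NGQ. `ε = -1`: replace `(q,b)` by `(-q,-b)` (NGQ: RelJ and `D` are
unchanged). For `m ≥ 2` let `n = v_13(m-1)`; by induction on `i ≤ n`: `105·13^(i+1) ∣ q - ε`; at `i = n`
H2I. For `m = 1` all powers of 13 divide `q - ε`, `q = ε`, against `q ≥ 2`. (`p` is prime to `1365`: if a
prime `r ∈ {3,5,7,13}` divides `p` then it does not divide `p^(m-1) - 1` unless `m = 1`; in general `D` is a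
square modulo `r` if `r ∣ p`, as `m ≥ 1`, against `Nr`.) -/
def Stmt_GG2 : Prop := Stmt_NGQ → Stmt_H2I → Stmt_H22 → Stmt_GH2

/-- **GG3**: `Stmt_GH3` from H3I, H32, NGQ; the same with `m+2`. -/
def Stmt_GG3 : Prop := Stmt_NGQ → Stmt_H3I → Stmt_H32 → Stmt_GH3

/-- **GG4**: `Stmt_GH4` from H4R, LTE, CR1. `n = v_13(A-m)`, `T = A - m ≥ 2`, LTE gives
`p^T ≡ 1` mod `105·13^(n+1)`, `X = p^m`, `σ = l`, `D ≡ 1 + 4 l X` modulo `1365`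
(`N ≡ l`), CR1 (`s = t = 1`, `m' = m`) gives a family with the right hand side of H4R `≠ 0`, against
RelJ. -/
def Stmt_GG4 : Prop := Stmt_LTE → Stmt_CR1 → Stmt_H4R → Stmt_GH4

end Pool.Agent.OEG.G
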