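import Pool.Agent.OEG.En6
import Pool.Agent.PSX.KRel
import Pool.Agent.PSX.KRel3

/-!
Project OEG, the tree of the first family: definitions.
-/

namespace Pool.Agent.OEG.En

open Pool.Agent.LibH4.S7 (Rl)
open Pool.Agent.LibH4.Ker
open Pool.Agent.Lib_helper5 Pool.Agent.Lib_helper5.LK Pool.Agent.Lib_helper5.TB
open Pool.Agent.PSX.K

/-- entry for a class modulo 7 -/
structure E7 where
  /-- discriminant -/
  D : ℕ
  /-- class -/
  p : ℕ
  /-- class -/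
  q : ℕ
  /-- class -/
  b : ℕ
  /-- record -/
  G : Q2
  /-- number of the relation 91 -/
  F91 : ℕ
  /-- second level -/
  ya : Q2
  /-- second level -/
  yb : Q2
  /-- second level -/
  yc : Q2
  /-- second level -/
  yd : Q2

/-- entry for a class modulo 5 -/
structure E5 where
  /-- discriminant -/
  D : ℕ
  /-- class -/
  p : ℕ
  /-- class -/
  q : ℕ
  /-- class -/
  b : ℕ
  /-- number of a relation -/
  Fa : ℕ
  /-- number of a relation -/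
  Fb : ℕ
  /-- number of a relation -/
  Fc : ℕ
  /-- second level -/
  ye : Q2
  /-- second level -/
  yf : Q2

/-- entry for a class modulo 3 -/
structure E3 where
  /-- class -/
  p : ℕ
  /-- class -/
  q : ℕ
  /-- class -/
  b : ℕ
  /-- number of a relation -/
  Fd : ℕ
  /-- number of a relation -/
  Fe : ℕ
  /-- number of a relation -/
  Ff : ℕ

/-- the seven relations: constants -/
structure T7 where
  /-- relation 91 -/
  o : RT
  /-- relation 455 -/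
  a : RT
  /-- relation 455 -/
  b : RT
  /-- relation 455 -/
  c : RT
  /-- relation 273 -/
  d : RT
  /-- relation 195 -/
  e : RT
  /-- relation 105 -/
  f : RT

/-- entries modulo 7 -/
noncomputable def ent7 (T : T7) (sl su : Bool) (p q b N N1 pi X D : ℕ) (k : E7 → Bool) : Bool :=
  recG (nat_lit 7) (nat_lit 5) PT7 p N N1 (ngf sl (nat_lit 7)) (ngf su (nat_lit 7)) pi (nat_lit 6)
    (nat_lit 1) X fun G6 =>
  strict (frK R91F13.t2 T.o.W1 G6 T.o.T) fun F91 =>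
  recG (nat_lit 7) (nat_lit 5) PT7 p N N1 (ngf sl (nat_lit 7)) (ngf su (nat_lit 7)) pi (nat_lit 12)
    (nat_lit 1) X fun G =>
  yrK R455F13a.t2 T.a.W1 T.a.W3 (nat_lit 8) G (nat_lit 0) (nat_lit 0) fun ya =>
  yrK R455F13b.t2 T.b.W1 T.b.W3 (nat_lit 8) G (nat_lit 0) (nat_lit 0) fun yb =>
  yrK R455F13c.t2 T.c.W1 T.c.W3 (nat_lit 8) G (nat_lit 0) (nat_lit 0) fun yc =>
  yrK R273F13.t2 T.d.W1 T.d.W3 (nat_lit 4) G (nat_lit 0) (nat_lit 0) fun yd =>
  k ⟨D, p, q, b, G, F91, ya, yb, yc, yd⟩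

/-- entries modulo 5 -/
noncomputable def ent5 (T : T7) (sl su : Bool) (p q b N N1 pi X D : ℕ) (k : E5 → Bool) : Bool :=
  recG (nat_lit 5) (nat_lit 3) PT5 p N N1 (ngf sl (nat_lit 5)) (ngf su (nat_lit 5)) pi (nat_lit 4)
    (nat_lit 1) X fun G4 =>
  strict (frK R455F13a.t3 T.a.W3 G4 T.a.T) fun Fa =>
  strict (frK R455F13b.t3 T.b.W3 G4 T.b.T) fun Fb =>
  strict (frK R455F13c.t3 T.c.W3 G4 T.c.T) fun Fc =>
  recG (nat_lit 5) (nat_lit 3) PT5 p N N1 (ngf sl (nat_lit 5)) (ngf su (nat_lit 5)) pi (nat_lit 12)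
    (nat_lit 1) X fun G =>
  yrK R195F13.t2 T.e.W1 T.e.W3 (nat_lit 4) G (nat_lit 0) (nat_lit 0) fun ye =>
  yrK R105N13.t2 T.f.W1 T.f.W3 (nat_lit 4) G (nat_lit 0) (nat_lit 0) fun yf =>
  k ⟨D, p, q, b, Fa, Fb, Fc, ye, yf⟩

/-- entries modulo 3 -/
noncomputable def ent3 (T : T7) (sl su : Bool) (p q b N N1 pi X _D : ℕ) (k : E3 → Bool) : Bool :=
  recG (nat_lit 3) (nat_lit 1) PT3 p N N1 (ngf sl (nat_lit 3)) (ngf su (nat_lit 3)) pi (nat_lit 2)
    (nat_lit 1) X fun G2 =>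
  strict (frK R273F13.t3 T.d.W3 G2 T.d.T) fun Fd =>
  strict (frK R195F13.t3 T.e.W3 G2 T.e.T) fun Fe =>
  strict (frK R105N13.t3 T.f.W3 G2 T.f.T) fun Ff =>
  k ⟨p, q, b, Fd, Fe, Ff⟩

/-- the values of tau -/
def sol13 (V W : ℕ) (f : ℕ → Bool) : Bool :=
  @Bool.rec (fun _ => Bool)
    (strict (Nat.mod (Nat.mul (Nat.sub (nat_lit 13) V) (Nat.pow W (nat_lit 11))) (nat_lit 13)) f)
    (imp (Nat.beq V (nat_lit 0)) (allR f (nat_lit 13))) (Nat.beq W (nat_lit 0))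

/-- and -/
def an (a b : Bool) : Bool := @Bool.rec (fun _ => Bool) false b a
/-- or -/
def orr (a b : Bool) : Bool := @Bool.rec (fun _ => Bool) b true a

/-- ghost 1, modulo `n` -/
def g1n (sl su : Bool) (n p b : ℕ) : Bool :=
  an (Nat.beq b (nat_lit 0)) (Nat.beq (Nat.mod (Nat.mul (psf su n) p) n) (psf sl n))

/-- power is one -/
def pw1 (n p k : ℕ) : Bool := Nat.beq (Nat.mod (Nat.pow p k) n) (nat_lit 1)

/-- ghost 2 -/
def g2t (su : Bool) (m0 p13 q13 p7 q7 p5 q5 p3 q3 : ℕ) : Bool :=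
  @Bool.rec (fun _ => Bool)
    (an (Nat.beq q13 (nat_lit 1)) (an (Nat.beq q7 (nat_lit 1)) (an (Nat.beq q5 (nat_lit 1))
      (an (Nat.beq q3 (nat_lit 1)) (strict (Nat.add m0 (nat_lit 11)) fun k =>
        an (pw1 (nat_lit 13) p13 k) (an (pw1 (nat_lit 7) p7 k) (an (pw1 (nat_lit 5) p5 k)
          (pw1 (nat_lit 3) p3 k)))))))) false su

/-- ghost 3 -/
def g3t (sl : Bool) (m0 p13 q13 p7 q7 p5 q5 p3 q3 : ℕ) : Bool :=
  @Bool.rec (fun _ => Bool)
    (an (orr (an (Nat.beq q13 p13) (an (Nat.beq q7 p7) (an (Nat.beq q5 p5) (Nat.beq q3 p3))))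
      (an (Nat.beq q13 (Nat.sub (nat_lit 13) p13)) (an (Nat.beq q7 (Nat.sub (nat_lit 7) p7))
        (an (Nat.beq q5 (Nat.sub (nat_lit 5) p5)) (Nat.beq q3 (Nat.sub (nat_lit 3) p3))))))
      (strict (Nat.add m0 (nat_lit 2)) fun k =>
        an (pw1 (nat_lit 13) p13 k) (an (pw1 (nat_lit 7) p7 k) (an (pw1 (nat_lit 5) p5 k)
          (pw1 (nat_lit 3) p3 k))))) false sl

/-- equality of lists -/
def eqL (L : List ℕ) : List ℕ → Bool :=
  @List.rec ℕ (fun _ => List ℕ → Bool)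
    (fun M => @List.rec ℕ (fun _ => Bool) true (fun _ _ _ => false) M)
    (fun x _ ih M => @List.rec ℕ (fun _ => Bool) false
      (fun y T _ => @Bool.rec (fun _ => Bool) false (ih T) (Nat.beq x y)) M) L

/-- membership -/
def memC (c : List ℕ) (O : List (List ℕ)) : Bool :=
  @List.rec (List ℕ) (fun _ => Bool) false
    (fun x _ ih => @Bool.rec (fun _ => Bool) ih true (eqL c x)) O

/-- the stop at the classes 293 and 437 -/
def stp (D13 D7 D5 : ℕ) : Bool :=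
  orr (an (Nat.beq D13 (nat_lit 7)) (an (Nat.beq D7 (nat_lit 6)) (Nat.beq D5 (nat_lit 3))))
    (an (Nat.beq D13 (nat_lit 8)) (an (Nat.beq D7 (nat_lit 3)) (Nat.beq D5 (nat_lit 2))))

/-- the last tests -/
def fin (sl su : Bool) (O : List (List ℕ)) (m0 τ p13 q13 b13 p7 q7 b7 p5 q5 b5 p3 q3 b3 : ℕ) :
    Bool :=
  orr (g2t su m0 p13 q13 p7 q7 p5 q5 p3 q3) (orr (g3t sl m0 p13 q13 p7 q7 p5 q5 p3 q3)
    (memC [m0, Nat.mod (Nat.add m0 (Nat.mul (nat_lit 12) τ)) (nat_lit 13), p13, q13, b13, p7, q7,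
      b7, p5, q5, b5, p3, q3, b3] O))

/-- the level 3 -/
noncomputable def lev3 (T : T7) (sl su : Bool) (O : List (List ℕ)) (m0 m2 : ℕ) (R3 : List E3)
    (x : ℕ × ℕ × ℕ) (ML : Q1) (e BWc B0c BWd B0d BWe B0e : ℕ) (y : E7) (w : E5) (τ : ℕ) : Bool :=
  strict (Nat.add B0c (Nat.mul τ BWc)) fun B =>
  strict (yK B T.c.mk3 y.yc) fun H =>
  imp (Nat.beq (zK H w.Fc T.c.T (nat_lit 13)) (nat_lit 0))
  (strict (Nat.add B0d (Nat.mul τ BWd)) fun B =>
  strict (yK B T.d.mk3 y.yd) fun Hd =>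
  strict (Nat.add B0e (Nat.mul τ BWe)) fun B =>
  strict (yK B T.e.mk3 w.ye) fun He =>
  allL (fun z : E3 =>
    orr (an (g1n sl su (nat_lit 3) z.p z.b) (an (g1n sl su (nat_lit 5) w.p w.b)
      (an (g1n sl su (nat_lit 7) y.p y.b) (g1n sl su (nat_lit 13) x.1 x.2.2))))
    (imp (Nat.beq (zK Hd z.Fd T.d.T (nat_lit 13)) (nat_lit 0))
    (imp (Nat.beq (zK He z.Fe T.e.T (nat_lit 13)) (nat_lit 0))
    (strict (BK T.f.TX T.f.TY T.f.S T.f.W1 T.f.mka R105N13.t1 y.G ML) fun BW =>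
     strict (B0K BW T.f.TY T.f.W1 T.f.mka R105N13.t1 e m2 y.G) fun B0 =>
     strict (Nat.add B0 (Nat.mul τ BW)) fun B =>
      strict (yK B T.f.mk3 w.yf) fun Hf =>
      imp (Nat.beq (zK Hf z.Ff T.f.T (nat_lit 13)) (nat_lit 0))
        (fin sl su O m0 τ x.1 x.2.1 x.2.2 y.p y.q y.b w.p w.q w.b z.p z.q z.b))))) R3)

/-- the levels 13, 7, 5 -/
noncomputable def tree (T : T7) (sl su : Bool) (mkf : ℕ) (L3 L5 L7 L13 : List (ℕ × ℕ × ℕ))
    (O : List (List ℕ)) (m0 : ℕ) : Bool :=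
  bld (nat_lit 3) (nat_lit 1) sl m0 (ent3 T sl su) L3 fun R3 =>
  bld (nat_lit 5) (nat_lit 3) sl m0 (ent5 T sl su) L5 fun R5 =>
  bld (nat_lit 7) (nat_lit 5) sl m0 (ent7 T sl su) L7 fun R7 =>
  strict (Nat.mul (nat_lit 2) m0) fun m2 =>
  allL (fun x => clsK (nat_lit 13) (nat_lit 11) sl m0 x.1 x.2.1 x.2.2 fun N N1 pi X D =>
    imp (nrD (nat_lit 13) D) (
    recG (nat_lit 13) (nat_lit 11) PT13 x.1 N N1 (ngf sl (nat_lit 13)) (ngf su (nat_lit 13)) pi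
      (nat_lit 12) (nat_lit 1) X fun G =>
    letK (nat_lit 13) (ngf sl (nat_lit 13)) (ngf su (nat_lit 13)) x.1 (nat_lit 12) x.2.1 fun ML =>
    strict (Nat.mod (Nat.mul (ngf sl (nat_lit 13)) x.2.2) (nat_lit 13)) fun e =>
    strict (BK T.o.TX T.o.TY T.o.S T.o.W1 T.o.mka R91F13.t1 G ML) fun BW91 =>
    strict (B0K BW91 T.o.TY T.o.W1 T.o.mka R91F13.t1 e m2 G) fun B091 =>
    strict (fdK BW91 (nat_lit 12096) mkf (nat_lit 2)) fun HW =>
    strict (fdK B091 (nat_lit 12096) mkf (nat_lit 2)) fun HV =>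
    strict (BK T.a.TX T.a.TY T.a.S T.a.W1 T.a.mka R455F13a.t1 G ML) fun BWa =>
    strict (B0K BWa T.a.TY T.a.W1 T.a.mka R455F13a.t1 e m2 G) fun B0a =>
    strict (BK T.b.TX T.b.TY T.b.S T.b.W1 T.b.mka R455F13b.t1 G ML) fun BWb =>
    strict (B0K BWb T.b.TY T.b.W1 T.b.mka R455F13b.t1 e m2 G) fun B0b =>
    strict (BK T.c.TX T.c.TY T.c.S T.c.W1 T.c.mka R455F13c.t1 G ML) fun BWc =>
    strict (B0K BWc T.c.TY T.c.W1 T.c.mka R455F13c.t1 e m2 G) fun B0c =>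
    strict (BK T.d.TX T.d.TY T.d.S T.d.W1 T.d.mka R273F13.t1 G ML) fun BWd =>
    strict (B0K BWd T.d.TY T.d.W1 T.d.mka R273F13.t1 e m2 G) fun B0d =>
    strict (BK T.e.TX T.e.TY T.e.S T.e.W1 T.e.mka R195F13.t1 G ML) fun BWe =>
    strict (B0K BWe T.e.TY T.e.W1 T.e.mka R195F13.t1 e m2 G) fun B0e =>
    allL (fun y : E7 =>
      strict (zK HV y.F91 T.o.T (nat_lit 13)) fun V =>
      strict (zK HW y.F91 T.o.T (nat_lit 13)) fun W =>
      sol13 V W (fun τ =>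
        strict (Nat.add B0a (Nat.mul τ BWa)) fun B =>
        strict (yK B T.a.mk3 y.ya) fun Ha =>
        allL (fun w : E5 =>
          imp (Nat.beq (zK Ha w.Fa T.a.T (nat_lit 13)) (nat_lit 0))
          (orr (stp D y.D w.D)
          (strict (Nat.add B0b (Nat.mul τ BWb)) fun B =>
           strict (yK B T.b.mk3 y.yb) fun Hb =>
            imp (Nat.beq (zK Hb w.Fb T.b.T (nat_lit 13)) (nat_lit 0))
            (lev3 T sl su O m0 m2 R3 x ML e BWc B0c BWd B0d BWe B0e y w τ)))) R5)) R7)) L13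

/-- the check of a list of residues of `m` -/
noncomputable def top (sl su : Bool) (L3 L5 L7 L13 : List (ℕ × ℕ × ℕ)) (O : List (List ℕ))
    (ms : List ℕ) : Bool :=
  rtK R91F13 (nat_lit 21) (nat_lit 21) (nat_lit 12) fun To =>
  rtK R455F13a (nat_lit 210) (nat_lit 10) (nat_lit 8) fun Ta =>
  rtK R455F13b (nat_lit 210) (nat_lit 10) (nat_lit 8) fun Tb =>
  rtK R455F13c (nat_lit 210) (nat_lit 10) (nat_lit 8) fun Tc =>
  rtK R273F13 (nat_lit 63) (nat_lit 3) (nat_lit 4) fun Td =>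
  rtK R195F13 (nat_lit 30) (nat_lit 3) (nat_lit 4) fun Te =>
  rtK R105N13 (nat_lit 30) (nat_lit 3) (nat_lit 4) fun Tf =>
  strict (Nat.sub (Nat.pow (nat_lit 2) (nat_lit 12096)) (nat_lit 1)) fun mkf =>
  allL (fun m0 => tree ⟨To, Ta, Tb, Tc, Td, Te, Tf⟩ sl su mkf L3 L5 L7 L13 O m0) ms

/-- filter of the canonical classes -/
def fil13 (q b : ℕ) : Bool :=
  @Bool.rec (fun _ => Bool) false (imp (Nat.beq q (nat_lit 0)) (Nat.ble b (nat_lit 6)))
    (Nat.ble q (nat_lit 6))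

/-- no filter -/
def fil0 (_q _b : ℕ) : Bool := true

end Pool.Agent.OEG.En
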