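import Pool.Agent.OEG.Tr

/-!
Project OEG, the tree of the first family: lists of classes (generated).
-/

namespace Pool.Agent.OEG.En

open Pool.Agent.LibH4.Ker

/-- classes modulo 3 -/
def C3pp : List (ℕ × ℕ × ℕ) := [
  (nat_lit 1, nat_lit 0, nat_lit 0), (nat_lit 1, nat_lit 0, nat_lit 1),
  (nat_lit 1, nat_lit 0, nat_lit 2), (nat_lit 1, nat_lit 1, nat_lit 0),
  (nat_lit 1, nat_lit 2, nat_lit 0), (nat_lit 2, nat_lit 1, nat_lit 1),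
  (nat_lit 2, nat_lit 2, nat_lit 2)]

/-- classes modulo 5 -/
def C5pp : List (ℕ × ℕ × ℕ) := [
  (nat_lit 1, nat_lit 0, nat_lit 0), (nat_lit 1, nat_lit 0, nat_lit 1),
  (nat_lit 1, nat_lit 0, nat_lit 2), (nat_lit 1, nat_lit 0, nat_lit 3),
  (nat_lit 1, nat_lit 0, nat_lit 4), (nat_lit 1, nat_lit 1, nat_lit 0),
  (nat_lit 1, nat_lit 2, nat_lit 0), (nat_lit 1, nat_lit 3, nat_lit 0),
  (nat_lit 1, nat_lit 4, nat_lit 0), (nat_lit 2, nat_lit 1, nat_lit 1),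
  (nat_lit 2, nat_lit 2, nat_lit 3), (nat_lit 2, nat_lit 3, nat_lit 2),
  (nat_lit 2, nat_lit 4, nat_lit 4), (nat_lit 3, nat_lit 1, nat_lit 2),
  (nat_lit 3, nat_lit 2, nat_lit 1), (nat_lit 3, nat_lit 3, nat_lit 4),
  (nat_lit 3, nat_lit 4, nat_lit 3), (nat_lit 4, nat_lit 1, nat_lit 3),
  (nat_lit 4, nat_lit 2, nat_lit 4), (nat_lit 4, nat_lit 3, nat_lit 1),
  (nat_lit 4, nat_lit 4, nat_lit 2)]

/-- classes modulo 7 -/
def C7pp : List (ℕ × ℕ × ℕ) := [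
  (nat_lit 1, nat_lit 0, nat_lit 0), (nat_lit 1, nat_lit 0, nat_lit 1),
  (nat_lit 1, nat_lit 0, nat_lit 2), (nat_lit 1, nat_lit 0, nat_lit 3),
  (nat_lit 1, nat_lit 0, nat_lit 4), (nat_lit 1, nat_lit 0, nat_lit 5),
  (nat_lit 1, nat_lit 0, nat_lit 6), (nat_lit 1, nat_lit 1, nat_lit 0),
  (nat_lit 1, nat_lit 2, nat_lit 0), (nat_lit 1, nat_lit 3, nat_lit 0),
  (nat_lit 1, nat_lit 4, nat_lit 0), (nat_lit 1, nat_lit 5, nat_lit 0),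
  (nat_lit 1, nat_lit 6, nat_lit 0), (nat_lit 2, nat_lit 1, nat_lit 1),
  (nat_lit 2, nat_lit 2, nat_lit 4), (nat_lit 2, nat_lit 3, nat_lit 5),
  (nat_lit 2, nat_lit 4, nat_lit 2), (nat_lit 2, nat_lit 5, nat_lit 3),
  (nat_lit 2, nat_lit 6, nat_lit 6), (nat_lit 3, nat_lit 1, nat_lit 2),
  (nat_lit 3, nat_lit 2, nat_lit 1), (nat_lit 3, nat_lit 3, nat_lit 3),
  (nat_lit 3, nat_lit 4, nat_lit 4), (nat_lit 3, nat_lit 5, nat_lit 6),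
  (nat_lit 3, nat_lit 6, nat_lit 5), (nat_lit 4, nat_lit 1, nat_lit 3),
  (nat_lit 4, nat_lit 2, nat_lit 5), (nat_lit 4, nat_lit 3, nat_lit 1),
  (nat_lit 4, nat_lit 4, nat_lit 6), (nat_lit 4, nat_lit 5, nat_lit 2),
  (nat_lit 4, nat_lit 6, nat_lit 4), (nat_lit 5, nat_lit 1, nat_lit 4),
  (nat_lit 5, nat_lit 2, nat_lit 2), (nat_lit 5, nat_lit 3, nat_lit 6),
  (nat_lit 5, nat_lit 4, nat_lit 1), (nat_lit 5, nat_lit 5, nat_lit 5),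
  (nat_lit 5, nat_lit 6, nat_lit 3), (nat_lit 6, nat_lit 1, nat_lit 5),
  (nat_lit 6, nat_lit 2, nat_lit 6), (nat_lit 6, nat_lit 3, nat_lit 4),
  (nat_lit 6, nat_lit 4, nat_lit 3), (nat_lit 6, nat_lit 5, nat_lit 1),
  (nat_lit 6, nat_lit 6, nat_lit 2)]

/-- classes modulo 13 -/
def C13pp : List (ℕ × ℕ × ℕ) := [
  (nat_lit 1, nat_lit 0, nat_lit 0), (nat_lit 1, nat_lit 0, nat_lit 1),
  (nat_lit 1, nat_lit 0, nat_lit 2), (nat_lit 1, nat_lit 0, nat_lit 3),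
  (nat_lit 1, nat_lit 0, nat_lit 4), (nat_lit 1, nat_lit 0, nat_lit 5),
  (nat_lit 1, nat_lit 0, nat_lit 6), (nat_lit 1, nat_lit 1, nat_lit 0),
  (nat_lit 1, nat_lit 2, nat_lit 0), (nat_lit 1, nat_lit 3, nat_lit 0),
  (nat_lit 1, nat_lit 4, nat_lit 0), (nat_lit 1, nat_lit 5, nat_lit 0),
  (nat_lit 1, nat_lit 6, nat_lit 0), (nat_lit 2, nat_lit 1, nat_lit 1),
  (nat_lit 2, nat_lit 2, nat_lit 7), (nat_lit 2, nat_lit 3, nat_lit 9),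
  (nat_lit 2, nat_lit 4, nat_lit 10), (nat_lit 2, nat_lit 5, nat_lit 8),
  (nat_lit 2, nat_lit 6, nat_lit 11), (nat_lit 3, nat_lit 1, nat_lit 2),
  (nat_lit 3, nat_lit 2, nat_lit 1), (nat_lit 3, nat_lit 3, nat_lit 5),
  (nat_lit 3, nat_lit 4, nat_lit 7), (nat_lit 3, nat_lit 5, nat_lit 3),
  (nat_lit 3, nat_lit 6, nat_lit 9), (nat_lit 4, nat_lit 1, nat_lit 3),
  (nat_lit 4, nat_lit 2, nat_lit 8), (nat_lit 4, nat_lit 3, nat_lit 1),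
  (nat_lit 4, nat_lit 4, nat_lit 4), (nat_lit 4, nat_lit 5, nat_lit 11),
  (nat_lit 4, nat_lit 6, nat_lit 7), (nat_lit 5, nat_lit 1, nat_lit 4),
  (nat_lit 5, nat_lit 2, nat_lit 2), (nat_lit 5, nat_lit 3, nat_lit 10),
  (nat_lit 5, nat_lit 4, nat_lit 1), (nat_lit 5, nat_lit 5, nat_lit 6),
  (nat_lit 5, nat_lit 6, nat_lit 5), (nat_lit 6, nat_lit 1, nat_lit 5),
  (nat_lit 6, nat_lit 2, nat_lit 9), (nat_lit 6, nat_lit 3, nat_lit 6),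
  (nat_lit 6, nat_lit 4, nat_lit 11), (nat_lit 6, nat_lit 5, nat_lit 1),
  (nat_lit 6, nat_lit 6, nat_lit 3), (nat_lit 7, nat_lit 1, nat_lit 6),
  (nat_lit 7, nat_lit 2, nat_lit 3), (nat_lit 7, nat_lit 3, nat_lit 2),
  (nat_lit 7, nat_lit 4, nat_lit 8), (nat_lit 7, nat_lit 5, nat_lit 9),
  (nat_lit 7, nat_lit 6, nat_lit 1), (nat_lit 8, nat_lit 1, nat_lit 7),
  (nat_lit 8, nat_lit 2, nat_lit 10), (nat_lit 8, nat_lit 3, nat_lit 11),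
  (nat_lit 8, nat_lit 4, nat_lit 5), (nat_lit 8, nat_lit 5, nat_lit 4),
  (nat_lit 8, nat_lit 6, nat_lit 12), (nat_lit 9, nat_lit 1, nat_lit 8),
  (nat_lit 9, nat_lit 2, nat_lit 4), (nat_lit 9, nat_lit 3, nat_lit 7),
  (nat_lit 9, nat_lit 4, nat_lit 2), (nat_lit 9, nat_lit 5, nat_lit 12),
  (nat_lit 9, nat_lit 6, nat_lit 10), (nat_lit 10, nat_lit 1, nat_lit 9),
  (nat_lit 10, nat_lit 2, nat_lit 11), (nat_lit 10, nat_lit 3, nat_lit 3),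
  (nat_lit 10, nat_lit 4, nat_lit 12), (nat_lit 10, nat_lit 5, nat_lit 7),
  (nat_lit 10, nat_lit 6, nat_lit 8), (nat_lit 11, nat_lit 1, nat_lit 10),
  (nat_lit 11, nat_lit 2, nat_lit 5), (nat_lit 11, nat_lit 3, nat_lit 12),
  (nat_lit 11, nat_lit 4, nat_lit 9), (nat_lit 11, nat_lit 5, nat_lit 2),
  (nat_lit 11, nat_lit 6, nat_lit 6), (nat_lit 12, nat_lit 1, nat_lit 11),
  (nat_lit 12, nat_lit 2, nat_lit 12), (nat_lit 12, nat_lit 3, nat_lit 8),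
  (nat_lit 12, nat_lit 4, nat_lit 6), (nat_lit 12, nat_lit 5, nat_lit 10),
  (nat_lit 12, nat_lit 6, nat_lit 4)]

/-- classes modulo 3 -/
def C3pm : List (ℕ × ℕ × ℕ) := [
  (nat_lit 1, nat_lit 1, nat_lit 1), (nat_lit 1, nat_lit 2, nat_lit 2),
  (nat_lit 2, nat_lit 0, nat_lit 0), (nat_lit 2, nat_lit 0, nat_lit 1),
  (nat_lit 2, nat_lit 0, nat_lit 2), (nat_lit 2, nat_lit 1, nat_lit 0),
  (nat_lit 2, nat_lit 2, nat_lit 0)]

/-- classes modulo 5 -/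
def C5pm : List (ℕ × ℕ × ℕ) := [
  (nat_lit 1, nat_lit 1, nat_lit 3), (nat_lit 1, nat_lit 2, nat_lit 4),
  (nat_lit 1, nat_lit 3, nat_lit 1), (nat_lit 1, nat_lit 4, nat_lit 2),
  (nat_lit 2, nat_lit 1, nat_lit 2), (nat_lit 2, nat_lit 2, nat_lit 1),
  (nat_lit 2, nat_lit 3, nat_lit 4), (nat_lit 2, nat_lit 4, nat_lit 3),
  (nat_lit 3, nat_lit 1, nat_lit 1), (nat_lit 3, nat_lit 2, nat_lit 3),
  (nat_lit 3, nat_lit 3, nat_lit 2), (nat_lit 3, nat_lit 4, nat_lit 4),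
  (nat_lit 4, nat_lit 0, nat_lit 0), (nat_lit 4, nat_lit 0, nat_lit 1),
  (nat_lit 4, nat_lit 0, nat_lit 2), (nat_lit 4, nat_lit 0, nat_lit 3),
  (nat_lit 4, nat_lit 0, nat_lit 4), (nat_lit 4, nat_lit 1, nat_lit 0),
  (nat_lit 4, nat_lit 2, nat_lit 0), (nat_lit 4, nat_lit 3, nat_lit 0),
  (nat_lit 4, nat_lit 4, nat_lit 0)]

/-- classes modulo 7 -/
def C7pm : List (ℕ × ℕ × ℕ) := [
  (nat_lit 1, nat_lit 1, nat_lit 5), (nat_lit 1, nat_lit 2, nat_lit 6),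
  (nat_lit 1, nat_lit 3, nat_lit 4), (nat_lit 1, nat_lit 4, nat_lit 3),
  (nat_lit 1, nat_lit 5, nat_lit 1), (nat_lit 1, nat_lit 6, nat_lit 2),
  (nat_lit 2, nat_lit 1, nat_lit 4), (nat_lit 2, nat_lit 2, nat_lit 2),
  (nat_lit 2, nat_lit 3, nat_lit 6), (nat_lit 2, nat_lit 4, nat_lit 1),
  (nat_lit 2, nat_lit 5, nat_lit 5), (nat_lit 2, nat_lit 6, nat_lit 3),
  (nat_lit 3, nat_lit 1, nat_lit 3), (nat_lit 3, nat_lit 2, nat_lit 5),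
  (nat_lit 3, nat_lit 3, nat_lit 1), (nat_lit 3, nat_lit 4, nat_lit 6),
  (nat_lit 3, nat_lit 5, nat_lit 2), (nat_lit 3, nat_lit 6, nat_lit 4),
  (nat_lit 4, nat_lit 1, nat_lit 2), (nat_lit 4, nat_lit 2, nat_lit 1),
  (nat_lit 4, nat_lit 3, nat_lit 3), (nat_lit 4, nat_lit 4, nat_lit 4),
  (nat_lit 4, nat_lit 5, nat_lit 6), (nat_lit 4, nat_lit 6, nat_lit 5),
  (nat_lit 5, nat_lit 1, nat_lit 1), (nat_lit 5, nat_lit 2, nat_lit 4),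
  (nat_lit 5, nat_lit 3, nat_lit 5), (nat_lit 5, nat_lit 4, nat_lit 2),
  (nat_lit 5, nat_lit 5, nat_lit 3), (nat_lit 5, nat_lit 6, nat_lit 6),
  (nat_lit 6, nat_lit 0, nat_lit 0), (nat_lit 6, nat_lit 0, nat_lit 1),
  (nat_lit 6, nat_lit 0, nat_lit 2), (nat_lit 6, nat_lit 0, nat_lit 3),
  (nat_lit 6, nat_lit 0, nat_lit 4), (nat_lit 6, nat_lit 0, nat_lit 5),
  (nat_lit 6, nat_lit 0, nat_lit 6), (nat_lit 6, nat_lit 1, nat_lit 0),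
  (nat_lit 6, nat_lit 2, nat_lit 0), (nat_lit 6, nat_lit 3, nat_lit 0),
  (nat_lit 6, nat_lit 4, nat_lit 0), (nat_lit 6, nat_lit 5, nat_lit 0),
  (nat_lit 6, nat_lit 6, nat_lit 0)]

/-- classes modulo 13 -/
def C13pm : List (ℕ × ℕ × ℕ) := [
  (nat_lit 1, nat_lit 1, nat_lit 11), (nat_lit 1, nat_lit 2, nat_lit 12),
  (nat_lit 1, nat_lit 3, nat_lit 8), (nat_lit 1, nat_lit 4, nat_lit 6),
  (nat_lit 1, nat_lit 5, nat_lit 10), (nat_lit 1, nat_lit 6, nat_lit 4),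
  (nat_lit 2, nat_lit 1, nat_lit 10), (nat_lit 2, nat_lit 2, nat_lit 5),
  (nat_lit 2, nat_lit 3, nat_lit 12), (nat_lit 2, nat_lit 4, nat_lit 9),
  (nat_lit 2, nat_lit 5, nat_lit 2), (nat_lit 2, nat_lit 6, nat_lit 6),
  (nat_lit 3, nat_lit 1, nat_lit 9), (nat_lit 3, nat_lit 2, nat_lit 11),
  (nat_lit 3, nat_lit 3, nat_lit 3), (nat_lit 3, nat_lit 4, nat_lit 12),
  (nat_lit 3, nat_lit 5, nat_lit 7), (nat_lit 3, nat_lit 6, nat_lit 8),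
  (nat_lit 4, nat_lit 1, nat_lit 8), (nat_lit 4, nat_lit 2, nat_lit 4),
  (nat_lit 4, nat_lit 3, nat_lit 7), (nat_lit 4, nat_lit 4, nat_lit 2),
  (nat_lit 4, nat_lit 5, nat_lit 12), (nat_lit 4, nat_lit 6, nat_lit 10),
  (nat_lit 5, nat_lit 1, nat_lit 7), (nat_lit 5, nat_lit 2, nat_lit 10),
  (nat_lit 5, nat_lit 3, nat_lit 11), (nat_lit 5, nat_lit 4, nat_lit 5),
  (nat_lit 5, nat_lit 5, nat_lit 4), (nat_lit 5, nat_lit 6, nat_lit 12),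
  (nat_lit 6, nat_lit 1, nat_lit 6), (nat_lit 6, nat_lit 2, nat_lit 3),
  (nat_lit 6, nat_lit 3, nat_lit 2), (nat_lit 6, nat_lit 4, nat_lit 8),
  (nat_lit 6, nat_lit 5, nat_lit 9), (nat_lit 6, nat_lit 6, nat_lit 1),
  (nat_lit 7, nat_lit 1, nat_lit 5), (nat_lit 7, nat_lit 2, nat_lit 9),
  (nat_lit 7, nat_lit 3, nat_lit 6), (nat_lit 7, nat_lit 4, nat_lit 11),
  (nat_lit 7, nat_lit 5, nat_lit 1), (nat_lit 7, nat_lit 6, nat_lit 3),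
  (nat_lit 8, nat_lit 1, nat_lit 4), (nat_lit 8, nat_lit 2, nat_lit 2),
  (nat_lit 8, nat_lit 3, nat_lit 10), (nat_lit 8, nat_lit 4, nat_lit 1),
  (nat_lit 8, nat_lit 5, nat_lit 6), (nat_lit 8, nat_lit 6, nat_lit 5),
  (nat_lit 9, nat_lit 1, nat_lit 3), (nat_lit 9, nat_lit 2, nat_lit 8),
  (nat_lit 9, nat_lit 3, nat_lit 1), (nat_lit 9, nat_lit 4, nat_lit 4),
  (nat_lit 9, nat_lit 5, nat_lit 11), (nat_lit 9, nat_lit 6, nat_lit 7),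
  (nat_lit 10, nat_lit 1, nat_lit 2), (nat_lit 10, nat_lit 2, nat_lit 1),
  (nat_lit 10, nat_lit 3, nat_lit 5), (nat_lit 10, nat_lit 4, nat_lit 7),
  (nat_lit 10, nat_lit 5, nat_lit 3), (nat_lit 10, nat_lit 6, nat_lit 9),
  (nat_lit 11, nat_lit 1, nat_lit 1), (nat_lit 11, nat_lit 2, nat_lit 7),
  (nat_lit 11, nat_lit 3, nat_lit 9), (nat_lit 11, nat_lit 4, nat_lit 10),
  (nat_lit 11, nat_lit 5, nat_lit 8), (nat_lit 11, nat_lit 6, nat_lit 11),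
  (nat_lit 12, nat_lit 0, nat_lit 0), (nat_lit 12, nat_lit 0, nat_lit 1),
  (nat_lit 12, nat_lit 0, nat_lit 2), (nat_lit 12, nat_lit 0, nat_lit 3),
  (nat_lit 12, nat_lit 0, nat_lit 4), (nat_lit 12, nat_lit 0, nat_lit 5),
  (nat_lit 12, nat_lit 0, nat_lit 6), (nat_lit 12, nat_lit 1, nat_lit 0),
  (nat_lit 12, nat_lit 2, nat_lit 0), (nat_lit 12, nat_lit 3, nat_lit 0),
  (nat_lit 12, nat_lit 4, nat_lit 0), (nat_lit 12, nat_lit 5, nat_lit 0),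
  (nat_lit 12, nat_lit 6, nat_lit 0)]

/-- classes modulo 3 -/
def C3mp : List (ℕ × ℕ × ℕ) := [
  (nat_lit 1, nat_lit 1, nat_lit 2), (nat_lit 1, nat_lit 2, nat_lit 1),
  (nat_lit 2, nat_lit 0, nat_lit 0), (nat_lit 2, nat_lit 0, nat_lit 1),
  (nat_lit 2, nat_lit 0, nat_lit 2), (nat_lit 2, nat_lit 1, nat_lit 0),
  (nat_lit 2, nat_lit 2, nat_lit 0)]

/-- classes modulo 5 -/
def C5mp : List (ℕ × ℕ × ℕ) := [
  (nat_lit 1, nat_lit 1, nat_lit 2), (nat_lit 1, nat_lit 2, nat_lit 1),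
  (nat_lit 1, nat_lit 3, nat_lit 4), (nat_lit 1, nat_lit 4, nat_lit 3),
  (nat_lit 2, nat_lit 1, nat_lit 3), (nat_lit 2, nat_lit 2, nat_lit 4),
  (nat_lit 2, nat_lit 3, nat_lit 1), (nat_lit 2, nat_lit 4, nat_lit 2),
  (nat_lit 3, nat_lit 1, nat_lit 4), (nat_lit 3, nat_lit 2, nat_lit 2),
  (nat_lit 3, nat_lit 3, nat_lit 3), (nat_lit 3, nat_lit 4, nat_lit 1),
  (nat_lit 4, nat_lit 0, nat_lit 0), (nat_lit 4, nat_lit 0, nat_lit 1),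
  (nat_lit 4, nat_lit 0, nat_lit 2), (nat_lit 4, nat_lit 0, nat_lit 3),
  (nat_lit 4, nat_lit 0, nat_lit 4), (nat_lit 4, nat_lit 1, nat_lit 0),
  (nat_lit 4, nat_lit 2, nat_lit 0), (nat_lit 4, nat_lit 3, nat_lit 0),
  (nat_lit 4, nat_lit 4, nat_lit 0)]

/-- classes modulo 7 -/
def C7mp : List (ℕ × ℕ × ℕ) := [
  (nat_lit 1, nat_lit 1, nat_lit 2), (nat_lit 1, nat_lit 2, nat_lit 1),
  (nat_lit 1, nat_lit 3, nat_lit 3), (nat_lit 1, nat_lit 4, nat_lit 4),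
  (nat_lit 1, nat_lit 5, nat_lit 6), (nat_lit 1, nat_lit 6, nat_lit 5),
  (nat_lit 2, nat_lit 1, nat_lit 3), (nat_lit 2, nat_lit 2, nat_lit 5),
  (nat_lit 2, nat_lit 3, nat_lit 1), (nat_lit 2, nat_lit 4, nat_lit 6),
  (nat_lit 2, nat_lit 5, nat_lit 2), (nat_lit 2, nat_lit 6, nat_lit 4),
  (nat_lit 3, nat_lit 1, nat_lit 4), (nat_lit 3, nat_lit 2, nat_lit 2),
  (nat_lit 3, nat_lit 3, nat_lit 6), (nat_lit 3, nat_lit 4, nat_lit 1),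
  (nat_lit 3, nat_lit 5, nat_lit 5), (nat_lit 3, nat_lit 6, nat_lit 3),
  (nat_lit 4, nat_lit 1, nat_lit 5), (nat_lit 4, nat_lit 2, nat_lit 6),
  (nat_lit 4, nat_lit 3, nat_lit 4), (nat_lit 4, nat_lit 4, nat_lit 3),
  (nat_lit 4, nat_lit 5, nat_lit 1), (nat_lit 4, nat_lit 6, nat_lit 2),
  (nat_lit 5, nat_lit 1, nat_lit 6), (nat_lit 5, nat_lit 2, nat_lit 3),
  (nat_lit 5, nat_lit 3, nat_lit 2), (nat_lit 5, nat_lit 4, nat_lit 5),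
  (nat_lit 5, nat_lit 5, nat_lit 4), (nat_lit 5, nat_lit 6, nat_lit 1),
  (nat_lit 6, nat_lit 0, nat_lit 0), (nat_lit 6, nat_lit 0, nat_lit 1),
  (nat_lit 6, nat_lit 0, nat_lit 2), (nat_lit 6, nat_lit 0, nat_lit 3),
  (nat_lit 6, nat_lit 0, nat_lit 4), (nat_lit 6, nat_lit 0, nat_lit 5),
  (nat_lit 6, nat_lit 0, nat_lit 6), (nat_lit 6, nat_lit 1, nat_lit 0),
  (nat_lit 6, nat_lit 2, nat_lit 0), (nat_lit 6, nat_lit 3, nat_lit 0),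
  (nat_lit 6, nat_lit 4, nat_lit 0), (nat_lit 6, nat_lit 5, nat_lit 0),
  (nat_lit 6, nat_lit 6, nat_lit 0)]

/-- classes modulo 13 -/
def C13mp : List (ℕ × ℕ × ℕ) := [
  (nat_lit 1, nat_lit 1, nat_lit 2), (nat_lit 1, nat_lit 2, nat_lit 1),
  (nat_lit 1, nat_lit 3, nat_lit 5), (nat_lit 1, nat_lit 4, nat_lit 7),
  (nat_lit 1, nat_lit 5, nat_lit 3), (nat_lit 1, nat_lit 6, nat_lit 9),
  (nat_lit 2, nat_lit 1, nat_lit 3), (nat_lit 2, nat_lit 2, nat_lit 8),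
  (nat_lit 2, nat_lit 3, nat_lit 1), (nat_lit 2, nat_lit 4, nat_lit 4),
  (nat_lit 2, nat_lit 5, nat_lit 11), (nat_lit 2, nat_lit 6, nat_lit 7),
  (nat_lit 3, nat_lit 1, nat_lit 4), (nat_lit 3, nat_lit 2, nat_lit 2),
  (nat_lit 3, nat_lit 3, nat_lit 10), (nat_lit 3, nat_lit 4, nat_lit 1),
  (nat_lit 3, nat_lit 5, nat_lit 6), (nat_lit 3, nat_lit 6, nat_lit 5),
  (nat_lit 4, nat_lit 1, nat_lit 5), (nat_lit 4, nat_lit 2, nat_lit 9),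
  (nat_lit 4, nat_lit 3, nat_lit 6), (nat_lit 4, nat_lit 4, nat_lit 11),
  (nat_lit 4, nat_lit 5, nat_lit 1), (nat_lit 4, nat_lit 6, nat_lit 3),
  (nat_lit 5, nat_lit 1, nat_lit 6), (nat_lit 5, nat_lit 2, nat_lit 3),
  (nat_lit 5, nat_lit 3, nat_lit 2), (nat_lit 5, nat_lit 4, nat_lit 8),
  (nat_lit 5, nat_lit 5, nat_lit 9), (nat_lit 5, nat_lit 6, nat_lit 1),
  (nat_lit 6, nat_lit 1, nat_lit 7), (nat_lit 6, nat_lit 2, nat_lit 10),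
  (nat_lit 6, nat_lit 3, nat_lit 11), (nat_lit 6, nat_lit 4, nat_lit 5),
  (nat_lit 6, nat_lit 5, nat_lit 4), (nat_lit 6, nat_lit 6, nat_lit 12),
  (nat_lit 7, nat_lit 1, nat_lit 8), (nat_lit 7, nat_lit 2, nat_lit 4),
  (nat_lit 7, nat_lit 3, nat_lit 7), (nat_lit 7, nat_lit 4, nat_lit 2),
  (nat_lit 7, nat_lit 5, nat_lit 12), (nat_lit 7, nat_lit 6, nat_lit 10),
  (nat_lit 8, nat_lit 1, nat_lit 9), (nat_lit 8, nat_lit 2, nat_lit 11),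
  (nat_lit 8, nat_lit 3, nat_lit 3), (nat_lit 8, nat_lit 4, nat_lit 12),
  (nat_lit 8, nat_lit 5, nat_lit 7), (nat_lit 8, nat_lit 6, nat_lit 8),
  (nat_lit 9, nat_lit 1, nat_lit 10), (nat_lit 9, nat_lit 2, nat_lit 5),
  (nat_lit 9, nat_lit 3, nat_lit 12), (nat_lit 9, nat_lit 4, nat_lit 9),
  (nat_lit 9, nat_lit 5, nat_lit 2), (nat_lit 9, nat_lit 6, nat_lit 6),
  (nat_lit 10, nat_lit 1, nat_lit 11), (nat_lit 10, nat_lit 2, nat_lit 12),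
  (nat_lit 10, nat_lit 3, nat_lit 8), (nat_lit 10, nat_lit 4, nat_lit 6),
  (nat_lit 10, nat_lit 5, nat_lit 10), (nat_lit 10, nat_lit 6, nat_lit 4),
  (nat_lit 11, nat_lit 1, nat_lit 12), (nat_lit 11, nat_lit 2, nat_lit 6),
  (nat_lit 11, nat_lit 3, nat_lit 4), (nat_lit 11, nat_lit 4, nat_lit 3),
  (nat_lit 11, nat_lit 5, nat_lit 5), (nat_lit 11, nat_lit 6, nat_lit 2),
  (nat_lit 12, nat_lit 0, nat_lit 0), (nat_lit 12, nat_lit 0, nat_lit 1),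
  (nat_lit 12, nat_lit 0, nat_lit 2), (nat_lit 12, nat_lit 0, nat_lit 3),
  (nat_lit 12, nat_lit 0, nat_lit 4), (nat_lit 12, nat_lit 0, nat_lit 5),
  (nat_lit 12, nat_lit 0, nat_lit 6), (nat_lit 12, nat_lit 1, nat_lit 0),
  (nat_lit 12, nat_lit 2, nat_lit 0), (nat_lit 12, nat_lit 3, nat_lit 0),
  (nat_lit 12, nat_lit 4, nat_lit 0), (nat_lit 12, nat_lit 5, nat_lit 0),
  (nat_lit 12, nat_lit 6, nat_lit 0)]

/-- classes modulo 3 -/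
def C3mm : List (ℕ × ℕ × ℕ) := [
  (nat_lit 1, nat_lit 0, nat_lit 0), (nat_lit 1, nat_lit 0, nat_lit 1),
  (nat_lit 1, nat_lit 0, nat_lit 2), (nat_lit 1, nat_lit 1, nat_lit 0),
  (nat_lit 1, nat_lit 2, nat_lit 0), (nat_lit 2, nat_lit 1, nat_lit 2),
  (nat_lit 2, nat_lit 2, nat_lit 1)]

/-- classes modulo 5 -/
def C5mm : List (ℕ × ℕ × ℕ) := [
  (nat_lit 1, nat_lit 0, nat_lit 0), (nat_lit 1, nat_lit 0, nat_lit 1),
  (nat_lit 1, nat_lit 0, nat_lit 2), (nat_lit 1, nat_lit 0, nat_lit 3),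
  (nat_lit 1, nat_lit 0, nat_lit 4), (nat_lit 1, nat_lit 1, nat_lit 0),
  (nat_lit 1, nat_lit 2, nat_lit 0), (nat_lit 1, nat_lit 3, nat_lit 0),
  (nat_lit 1, nat_lit 4, nat_lit 0), (nat_lit 2, nat_lit 1, nat_lit 4),
  (nat_lit 2, nat_lit 2, nat_lit 2), (nat_lit 2, nat_lit 3, nat_lit 3),
  (nat_lit 2, nat_lit 4, nat_lit 1), (nat_lit 3, nat_lit 1, nat_lit 3),
  (nat_lit 3, nat_lit 2, nat_lit 4), (nat_lit 3, nat_lit 3, nat_lit 1),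
  (nat_lit 3, nat_lit 4, nat_lit 2), (nat_lit 4, nat_lit 1, nat_lit 2),
  (nat_lit 4, nat_lit 2, nat_lit 1), (nat_lit 4, nat_lit 3, nat_lit 4),
  (nat_lit 4, nat_lit 4, nat_lit 3)]

/-- classes modulo 7 -/
def C7mm : List (ℕ × ℕ × ℕ) := [
  (nat_lit 1, nat_lit 0, nat_lit 0), (nat_lit 1, nat_lit 0, nat_lit 1),
  (nat_lit 1, nat_lit 0, nat_lit 2), (nat_lit 1, nat_lit 0, nat_lit 3),
  (nat_lit 1, nat_lit 0, nat_lit 4), (nat_lit 1, nat_lit 0, nat_lit 5),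
  (nat_lit 1, nat_lit 0, nat_lit 6), (nat_lit 1, nat_lit 1, nat_lit 0),
  (nat_lit 1, nat_lit 2, nat_lit 0), (nat_lit 1, nat_lit 3, nat_lit 0),
  (nat_lit 1, nat_lit 4, nat_lit 0), (nat_lit 1, nat_lit 5, nat_lit 0),
  (nat_lit 1, nat_lit 6, nat_lit 0), (nat_lit 2, nat_lit 1, nat_lit 6),
  (nat_lit 2, nat_lit 2, nat_lit 3), (nat_lit 2, nat_lit 3, nat_lit 2),
  (nat_lit 2, nat_lit 4, nat_lit 5), (nat_lit 2, nat_lit 5, nat_lit 4),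
  (nat_lit 2, nat_lit 6, nat_lit 1), (nat_lit 3, nat_lit 1, nat_lit 5),
  (nat_lit 3, nat_lit 2, nat_lit 6), (nat_lit 3, nat_lit 3, nat_lit 4),
  (nat_lit 3, nat_lit 4, nat_lit 3), (nat_lit 3, nat_lit 5, nat_lit 1),
  (nat_lit 3, nat_lit 6, nat_lit 2), (nat_lit 4, nat_lit 1, nat_lit 4),
  (nat_lit 4, nat_lit 2, nat_lit 2), (nat_lit 4, nat_lit 3, nat_lit 6),
  (nat_lit 4, nat_lit 4, nat_lit 1), (nat_lit 4, nat_lit 5, nat_lit 5),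
  (nat_lit 4, nat_lit 6, nat_lit 3), (nat_lit 5, nat_lit 1, nat_lit 3),
  (nat_lit 5, nat_lit 2, nat_lit 5), (nat_lit 5, nat_lit 3, nat_lit 1),
  (nat_lit 5, nat_lit 4, nat_lit 6), (nat_lit 5, nat_lit 5, nat_lit 2),
  (nat_lit 5, nat_lit 6, nat_lit 4), (nat_lit 6, nat_lit 1, nat_lit 2),
  (nat_lit 6, nat_lit 2, nat_lit 1), (nat_lit 6, nat_lit 3, nat_lit 3),
  (nat_lit 6, nat_lit 4, nat_lit 4), (nat_lit 6, nat_lit 5, nat_lit 6),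
  (nat_lit 6, nat_lit 6, nat_lit 5)]

/-- classes modulo 13 -/
def C13mm : List (ℕ × ℕ × ℕ) := [
  (nat_lit 1, nat_lit 0, nat_lit 0), (nat_lit 1, nat_lit 0, nat_lit 1),
  (nat_lit 1, nat_lit 0, nat_lit 2), (nat_lit 1, nat_lit 0, nat_lit 3),
  (nat_lit 1, nat_lit 0, nat_lit 4), (nat_lit 1, nat_lit 0, nat_lit 5),
  (nat_lit 1, nat_lit 0, nat_lit 6), (nat_lit 1, nat_lit 1, nat_lit 0),
  (nat_lit 1, nat_lit 2, nat_lit 0), (nat_lit 1, nat_lit 3, nat_lit 0),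
  (nat_lit 1, nat_lit 4, nat_lit 0), (nat_lit 1, nat_lit 5, nat_lit 0),
  (nat_lit 1, nat_lit 6, nat_lit 0), (nat_lit 2, nat_lit 1, nat_lit 12),
  (nat_lit 2, nat_lit 2, nat_lit 6), (nat_lit 2, nat_lit 3, nat_lit 4),
  (nat_lit 2, nat_lit 4, nat_lit 3), (nat_lit 2, nat_lit 5, nat_lit 5),
  (nat_lit 2, nat_lit 6, nat_lit 2), (nat_lit 3, nat_lit 1, nat_lit 11),
  (nat_lit 3, nat_lit 2, nat_lit 12), (nat_lit 3, nat_lit 3, nat_lit 8),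
  (nat_lit 3, nat_lit 4, nat_lit 6), (nat_lit 3, nat_lit 5, nat_lit 10),
  (nat_lit 3, nat_lit 6, nat_lit 4), (nat_lit 4, nat_lit 1, nat_lit 10),
  (nat_lit 4, nat_lit 2, nat_lit 5), (nat_lit 4, nat_lit 3, nat_lit 12),
  (nat_lit 4, nat_lit 4, nat_lit 9), (nat_lit 4, nat_lit 5, nat_lit 2),
  (nat_lit 4, nat_lit 6, nat_lit 6), (nat_lit 5, nat_lit 1, nat_lit 9),
  (nat_lit 5, nat_lit 2, nat_lit 11), (nat_lit 5, nat_lit 3, nat_lit 3),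
  (nat_lit 5, nat_lit 4, nat_lit 12), (nat_lit 5, nat_lit 5, nat_lit 7),
  (nat_lit 5, nat_lit 6, nat_lit 8), (nat_lit 6, nat_lit 1, nat_lit 8),
  (nat_lit 6, nat_lit 2, nat_lit 4), (nat_lit 6, nat_lit 3, nat_lit 7),
  (nat_lit 6, nat_lit 4, nat_lit 2), (nat_lit 6, nat_lit 5, nat_lit 12),
  (nat_lit 6, nat_lit 6, nat_lit 10), (nat_lit 7, nat_lit 1, nat_lit 7),
  (nat_lit 7, nat_lit 2, nat_lit 10), (nat_lit 7, nat_lit 3, nat_lit 11),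
  (nat_lit 7, nat_lit 4, nat_lit 5), (nat_lit 7, nat_lit 5, nat_lit 4),
  (nat_lit 7, nat_lit 6, nat_lit 12), (nat_lit 8, nat_lit 1, nat_lit 6),
  (nat_lit 8, nat_lit 2, nat_lit 3), (nat_lit 8, nat_lit 3, nat_lit 2),
  (nat_lit 8, nat_lit 4, nat_lit 8), (nat_lit 8, nat_lit 5, nat_lit 9),
  (nat_lit 8, nat_lit 6, nat_lit 1), (nat_lit 9, nat_lit 1, nat_lit 5),
  (nat_lit 9, nat_lit 2, nat_lit 9), (nat_lit 9, nat_lit 3, nat_lit 6),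
  (nat_lit 9, nat_lit 4, nat_lit 11), (nat_lit 9, nat_lit 5, nat_lit 1),
  (nat_lit 9, nat_lit 6, nat_lit 3), (nat_lit 10, nat_lit 1, nat_lit 4),
  (nat_lit 10, nat_lit 2, nat_lit 2), (nat_lit 10, nat_lit 3, nat_lit 10),
  (nat_lit 10, nat_lit 4, nat_lit 1), (nat_lit 10, nat_lit 5, nat_lit 6),
  (nat_lit 10, nat_lit 6, nat_lit 5), (nat_lit 11, nat_lit 1, nat_lit 3),
  (nat_lit 11, nat_lit 2, nat_lit 8), (nat_lit 11, nat_lit 3, nat_lit 1),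
  (nat_lit 11, nat_lit 4, nat_lit 4), (nat_lit 11, nat_lit 5, nat_lit 11),
  (nat_lit 11, nat_lit 6, nat_lit 7), (nat_lit 12, nat_lit 1, nat_lit 2),
  (nat_lit 12, nat_lit 2, nat_lit 1), (nat_lit 12, nat_lit 3, nat_lit 5),
  (nat_lit 12, nat_lit 4, nat_lit 7), (nat_lit 12, nat_lit 5, nat_lit 3),
  (nat_lit 12, nat_lit 6, nat_lit 9)]

lemma c3pp : cplK (nat_lit 3) true true fil0 C3pp = true := by decide +kernel

lemma c5pp : cplK (nat_lit 5) true true fil0 C5pp = true := by decide +kernel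

lemma c7pp : cplK (nat_lit 7) true true fil0 C7pp = true := by decide +kernel

lemma c13pp : cplK (nat_lit 13) true true fil13 C13pp = true := by decide +kernel

lemma c3pm : cplK (nat_lit 3) true false fil0 C3pm = true := by decide +kernel

lemma c5pm : cplK (nat_lit 5) true false fil0 C5pm = true := by decide +kernel

lemma c7pm : cplK (nat_lit 7) true false fil0 C7pm = true := by decide +kernel

lemma c13pm : cplK (nat_lit 13) true false fil13 C13pm = true := by decide +kernel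

lemma c3mp : cplK (nat_lit 3) false true fil0 C3mp = true := by decide +kernel

lemma c5mp : cplK (nat_lit 5) false true fil0 C5mp = true := by decide +kernel

lemma c7mp : cplK (nat_lit 7) false true fil0 C7mp = true := by decide +kernel

lemma c13mp : cplK (nat_lit 13) false true fil13 C13mp = true := by decide +kernel

lemma c3mm : cplK (nat_lit 3) false false fil0 C3mm = true := by decide +kernel

lemma c5mm : cplK (nat_lit 5) false false fil0 C5mm = true := by decide +kernel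

lemma c7mm : cplK (nat_lit 7) false false fil0 C7mm = true := by decide +kernel

lemma c13mm : cplK (nat_lit 13) false false fil13 C13mm = true := by decide +kernel

end Pool.Agent.OEG.En
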