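import Pool.Agent.OEG.En7
import Pool.Agent.OEG.TrC

/-!
Project OEG, the tree of the first family: meaning of the kernel check.
-/

set_option linter.unusedSectionVars false

namespace Pool.Agent.OEG.En

open Finset
open Pool.Agent.LibH4.S7 (Rl)
open Pool.Agent.LibH4.Ker
open Pool.Agent.Lib_helper5 Pool.Agent.Lib_helper5.LK Pool.Agent.Lib_helper5.TB
open Pool.Agent.PSX.Ev (OSys)
open Pool.Agent.PSX.K

/-! ### steps -/

lemma st {a : ℕ} {f : ℕ → Bool} (h : strict a f = true) : f a = true :=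
  (strict_eq a f).symm.trans h

lemma zt {x : ℕ} (h : x = 0) : Nat.beq x (nat_lit 0) = true := by subst h; rfl

lemma an_spec {a b : Bool} (h : an a b = true) : a = true ∧ b = true := by
  cases a
  · exact absurd h (by simp [an])
  · exact ⟨rfl, h⟩

lemma orr_spec {a b : Bool} (h : orr a b = true) : a = true ∨ b = true := by
  cases a
  · exact Or.inr h
  · exact Or.inl rfl

lemma recG_ex (n ex PT p N N1 nl nu pi steps : ℕ) (P Z : ℕ) :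
    ∃ G, ∀ k : Q2 → Bool, recG n ex PT p N N1 nl nu pi steps P Z k = k G := by
  induction steps generalizing P Z with
  | zero => exact ⟨Q2.e, fun k => rfl⟩
  | succ steps ih =>
    obtain ⟨G, hG⟩ := ih (Nat.mod (Nat.mul P p) n) (Nat.mod (Nat.mul Z pi) n)
    refine ⟨Q2.c P (pos n ex PT P N (Nat.mod (Nat.mul nl Z) n))
      (Q2.c (Nat.mod (Nat.mul P p) n) (pos n ex PT (Nat.mod (Nat.mul P p) n) N1
        (Nat.mod (Nat.mul nu Z) n)) G), fun k => ?_⟩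
    change strict (pos n ex PT P N (Nat.mod (Nat.mul nl Z) n)) (fun hA =>
      strict (Nat.mod (Nat.mul P p) n) fun P1 =>
      strict (pos n ex PT P1 N1 (Nat.mod (Nat.mul nu Z) n)) fun hB =>
      strict (Nat.mod (Nat.mul Z pi) n) fun Z1 =>
        recG n ex PT p N N1 nl nu pi steps P1 Z1
          (fun R => k (Q2.c P hA (Q2.c P1 hB R)))) = _
    simp only [strict_eq]
    rw [hG]

lemma yrK_ex (t W1 W3 K2 : ℕ) (G : Q2) (hb r : ℕ) :
    ∃ Y, ∀ k : Q2 → Bool, yrK t W1 W3 K2 G hb r k = k Y := by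
  induction G generalizing hb r with
  | e => exact ⟨Q2.e, fun k => rfl⟩
  | c P h G ih =>
    obtain ⟨Y, hY⟩ := ih (Nat.add hb W1) (Nat.mod (Nat.succ r) K2)
    refine ⟨Q2.c (Nat.mul (Nat.pow (nat_lit 2) (Nat.mul W3 r)) (dig t P))
      (Nat.add hb (Nat.mul W3 h)) Y, fun k => ?_⟩
    change strict (Nat.mul (Nat.pow (nat_lit 2) (Nat.mul W3 r)) (dig t P)) (fun c =>
      strict (Nat.add hb (Nat.mul W3 h)) fun hh =>
      strict (Nat.mod (Nat.succ r) K2) fun r1 =>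
      strict (Nat.add hb W1) fun hb1 => yrK t W1 W3 K2 G hb1 r1 (fun R => k (Q2.c c hh R))) = _
    simp only [strict_eq]
    rw [hY]

lemma ent3_ex (T : T7) (sl su : Bool) (x y z N N1 pi X D : ℕ) :
    ∃ E, ∀ k' : E3 → Bool, ent3 T sl su x y z N N1 pi X D k' = k' E := by
  obtain ⟨G2, h2⟩ := recG_ex (nat_lit 3) (nat_lit 1) PT3 x N N1 (ngf sl (nat_lit 3))
    (ngf su (nat_lit 3)) pi (nat_lit 2) (nat_lit 1) X
  refine ⟨⟨x, y, z, frK R273F13.t3 T.d.W3 G2 T.d.T, frK R195F13.t3 T.e.W3 G2 T.e.T,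
    frK R105N13.t3 T.f.W3 G2 T.f.T⟩, fun k' => ?_⟩
  unfold ent3
  simp only [strict_eq]
  rw [h2]

lemma ent5_ex (T : T7) (sl su : Bool) (x y z N N1 pi X D : ℕ) :
    ∃ E, ∀ k' : E5 → Bool, ent5 T sl su x y z N N1 pi X D k' = k' E := by
  obtain ⟨G4, h4⟩ := recG_ex (nat_lit 5) (nat_lit 3) PT5 x N N1 (ngf sl (nat_lit 5))
    (ngf su (nat_lit 5)) pi (nat_lit 4) (nat_lit 1) X
  obtain ⟨G, hG⟩ := recG_ex (nat_lit 5) (nat_lit 3) PT5 x N N1 (ngf sl (nat_lit 5))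
    (ngf su (nat_lit 5)) pi (nat_lit 12) (nat_lit 1) X
  obtain ⟨ye, he⟩ := yrK_ex R195F13.t2 T.e.W1 T.e.W3 (nat_lit 4) G (nat_lit 0) (nat_lit 0)
  obtain ⟨yf, hf⟩ := yrK_ex R105N13.t2 T.f.W1 T.f.W3 (nat_lit 4) G (nat_lit 0) (nat_lit 0)
  refine ⟨⟨D, x, y, z, frK R455F13a.t3 T.a.W3 G4 T.a.T, frK R455F13b.t3 T.b.W3 G4 T.b.T,
    frK R455F13c.t3 T.c.W3 G4 T.c.T, ye, yf⟩, fun k' => ?_⟩
  unfold ent5
  simp only [strict_eq]
  rw [h4, hG, he, hf]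

lemma ent7_ex (T : T7) (sl su : Bool) (x y z N N1 pi X D : ℕ) :
    ∃ E, ∀ k' : E7 → Bool, ent7 T sl su x y z N N1 pi X D k' = k' E := by
  obtain ⟨G6, h6⟩ := recG_ex (nat_lit 7) (nat_lit 5) PT7 x N N1 (ngf sl (nat_lit 7))
    (ngf su (nat_lit 7)) pi (nat_lit 6) (nat_lit 1) X
  obtain ⟨G, hG⟩ := recG_ex (nat_lit 7) (nat_lit 5) PT7 x N N1 (ngf sl (nat_lit 7))
    (ngf su (nat_lit 7)) pi (nat_lit 12) (nat_lit 1) X
  obtain ⟨ya, ha⟩ := yrK_ex R455F13a.t2 T.a.W1 T.a.W3 (nat_lit 8) G (nat_lit 0) (nat_lit 0)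
  obtain ⟨yb, hb⟩ := yrK_ex R455F13b.t2 T.b.W1 T.b.W3 (nat_lit 8) G (nat_lit 0) (nat_lit 0)
  obtain ⟨yc, hc⟩ := yrK_ex R455F13c.t2 T.c.W1 T.c.W3 (nat_lit 8) G (nat_lit 0) (nat_lit 0)
  obtain ⟨yd, hd⟩ := yrK_ex R273F13.t2 T.d.W1 T.d.W3 (nat_lit 4) G (nat_lit 0) (nat_lit 0)
  refine ⟨⟨D, x, y, z, G, frK R91F13.t2 T.o.W1 G6 T.o.T, ya, yb, yc, yd⟩, fun k' => ?_⟩
  unfold ent7
  simp only [strict_eq]
  rw [h6, hG, ha, hb, hc, hd]

/-! ### the values at the state -/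

section State

variable {sl su : Bool} {p q b p' : ℤ} {m : ℕ}

/-- record at the state -/
def Gx (n ex PT : ℕ) (sl su : Bool) (p q b p' : ℤ) (m s : ℕ) : Q2 :=
  mk2 (fun g => rs n (ef (sgz sl) (sgz su) q p p' (p ^ m) b g).P)
    (fun g => pf n ex PT (ef (sgz sl) (sgz su) q p p' (p ^ m) b g)) 0 s

/-- letters at the state -/
def Mx (n : ℕ) (sl su : Bool) (p q b p' : ℤ) (m s : ℕ) : Q1 :=
  mk1 (fun g => rs n (ef (sgz sl) (sgz su) q p p' (p ^ m) b g).α) 0 s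

/-- second level at the state -/
def Yx (r : Rl) (W1 W3 K : ℕ) (sl su : Bool) (p q b p' : ℤ) (m : ℕ) : Q2 :=
  mk2 (fun g => 2 ^ (W3 * (g % K)) * dig r.t2 (rs r.n2 (ef (sgz sl) (sgz su) q p p' (p ^ m) b g).P))
    (fun g => W1 * g + W3 * pf r.n2 r.ex2 r.PT2 (ef (sgz sl) (sgz su) q p p' (p ^ m) b g)) 0 24

lemma rec0 {n : ℕ} [NeZero n] (hn : 1 < n) (ex PT steps : ℕ) (k : Q2 → Bool) :
    recG n ex PT (rs n p) (rs n (q * p ^ m + b)) (rs n (q * p ^ m - b)) (ngf sl n) (ngf su n)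
      (rs n p') steps 1 (rs n (p ^ m)) k = k (Gx n ex PT sl su p q b p' m (2 * steps)) := by
  have h := recG_eq (n := n) (l := sgz sl) (u := sgz su) (q := q) (p := p) (p' := p') (X := p ^ m)
    (b := b) ex PT 0 steps k
  rw [pow_zero, pow_zero, mul_one, Nat.mul_zero, ← K5.rs_one hn, ← ngf_eq hn, ← ngf_eq hn] at h
  exact h

lemma let0 {n : ℕ} [NeZero n] (hn : 1 < n) (steps : ℕ) (k : Q1 → Bool) :
    letK n (ngf sl n) (ngf su n) (rs n p) steps (rs n q) k =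
      k (Mx n sl su p q b p' m (2 * steps)) := by
  have h := letK_eq (n := n) (l := sgz sl) (u := sgz su) (q := q) (p := p) (p' := p')
    (X := p ^ m) (b := b) 0 steps k
  rw [pow_zero, mul_one, Nat.mul_zero, ← ngf_eq hn, ← ngf_eq hn] at h
  exact h

lemma yr0 (t W1 W3 K2 : ℕ) (P h : ℕ → ℕ) (n : ℕ) (k : Q2 → Bool) :
    yrK t W1 W3 K2 (mk2 P h 0 n) 0 0 k =
      k (mk2 (fun g => 2 ^ (W3 * (g % K2)) * dig t (P g)) (fun g => W1 * g + W3 * h g) 0 n) := by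
  have h1 := yrK_eq t W1 W3 K2 P h 0 n k
  rw [Nat.mul_zero, Nat.zero_mod] at h1
  exact h1

lemma e_eq {n : ℕ} [NeZero n] (hn : 1 < n) :
    Nat.mod (Nat.mul (ngf sl n) (rs n b)) n = rs n (-(sgz sl * b)) := by
  rw [ngf_eq hn, rs_mul]
  congr 1
  ring

/-- entry at the state -/
noncomputable def x3 (T : T7) (sl su : Bool) (p q b p' : ℤ) (m : ℕ) : E3 :=
  ⟨rs 3 p, rs 3 q, rs 3 b, frK R273F13.t3 T.d.W3 (Gx 3 1 PT3 sl su p q b p' m 4) T.d.T,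
    frK R195F13.t3 T.e.W3 (Gx 3 1 PT3 sl su p q b p' m 4) T.e.T,
    frK R105N13.t3 T.f.W3 (Gx 3 1 PT3 sl su p q b p' m 4) T.f.T⟩

/-- entry at the state -/
noncomputable def x5 (T : T7) (sl su : Bool) (D p q b p' : ℤ) (m : ℕ) : E5 :=
  ⟨rs 5 D, rs 5 p, rs 5 q, rs 5 b, frK R455F13a.t3 T.a.W3 (Gx 5 3 PT5 sl su p q b p' m 8) T.a.T,
    frK R455F13b.t3 T.b.W3 (Gx 5 3 PT5 sl su p q b p' m 8) T.b.T,
    frK R455F13c.t3 T.c.W3 (Gx 5 3 PT5 sl su p q b p' m 8) T.c.T,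
    Yx R195F13 T.e.W1 T.e.W3 4 sl su p q b p' m, Yx R105N13 T.f.W1 T.f.W3 4 sl su p q b p' m⟩

/-- entry at the state -/
noncomputable def x7 (T : T7) (sl su : Bool) (D p q b p' : ℤ) (m : ℕ) : E7 :=
  ⟨rs 7 D, rs 7 p, rs 7 q, rs 7 b, Gx 7 5 PT7 sl su p q b p' m 24,
    frK R91F13.t2 T.o.W1 (Gx 7 5 PT7 sl su p q b p' m 12) T.o.T,
    Yx R455F13a T.a.W1 T.a.W3 8 sl su p q b p' m, Yx R455F13b T.b.W1 T.b.W3 8 sl su p q b p' m,
    Yx R455F13c T.c.W1 T.c.W3 8 sl su p q b p' m, Yx R273F13 T.d.W1 T.d.W3 4 sl su p q b p' m⟩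

lemma ent3_eq (T : T7) (D : ℕ) (k : E3 → Bool) :
    ent3 T sl su (rs 3 p) (rs 3 q) (rs 3 b) (rs 3 (q * p ^ m + b)) (rs 3 (q * p ^ m - b))
      (rs 3 p') (rs 3 (p ^ m)) D k = k (x3 T sl su p q b p' m) := by
  unfold ent3
  simp only [strict_eq]
  exact rec0 (n := 3) (by norm_num) 1 PT3 2 _

lemma ent5_eq (T : T7) (D : ℤ) (k : E5 → Bool) :
    ent5 T sl su (rs 5 p) (rs 5 q) (rs 5 b) (rs 5 (q * p ^ m + b)) (rs 5 (q * p ^ m - b))
      (rs 5 p') (rs 5 (p ^ m)) (rs 5 D) k = k (x5 T sl su D p q b p' m) := by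
  unfold ent5
  simp only [strict_eq]
  refine (rec0 (n := 5) (by norm_num) 3 PT5 4 _).trans ?_
  refine (rec0 (n := 5) (by norm_num) 3 PT5 12 _).trans ?_
  refine (yr0 _ _ _ _ _ _ _ _).trans ?_
  exact (yr0 _ _ _ _ _ _ _ _)

lemma ent7_eq (T : T7) (D : ℤ) (k : E7 → Bool) :
    ent7 T sl su (rs 7 p) (rs 7 q) (rs 7 b) (rs 7 (q * p ^ m + b)) (rs 7 (q * p ^ m - b))
      (rs 7 p') (rs 7 (p ^ m)) (rs 7 D) k = k (x7 T sl su D p q b p' m) := by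
  unfold ent7
  simp only [strict_eq]
  refine (rec0 (n := 7) (by norm_num) 5 PT7 6 _).trans ?_
  refine (rec0 (n := 7) (by norm_num) 5 PT7 12 _).trans ?_
  refine (yr0 _ _ _ _ _ _ _ _).trans ?_
  refine (yr0 _ _ _ _ _ _ _ _).trans ?_
  refine (yr0 _ _ _ _ _ _ _ _).trans ?_
  exact (yr0 _ _ _ _ _ _ _ _)

end State

/-! ### constants -/

/-- the constants of the relations -/
structure TK (T : T7) : Prop where
  o : T.o = rtOf R91F13 21 21 12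
  a : T.a = rtOf R455F13a 210 10 8
  b : T.b = rtOf R455F13b 210 10 8
  c : T.c = rtOf R455F13c 210 10 8
  d : T.d = rtOf R273F13 63 3 4
  e : T.e = rtOf R195F13 30 3 4
  f : T.f = rtOf R105N13 30 3 4

lemma mkf_eq {x y : ℕ} (h : x = y) :
    Nat.sub (Nat.pow (nat_lit 2) x) (nat_lit 1) = 2 ^ y - 1 := by
  subst h
  rfl

theorem top_spec {sl su : Bool} {L3 L5 L7 L13 : List (ℕ × ℕ × ℕ)} {O : List (List ℕ)}
    {ms : List ℕ} (h : top sl su L3 L5 L7 L13 O ms = true) {m0 : ℕ} (hm : m0 ∈ ms) :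
    ∃ T, TK T ∧ tree T sl su (2 ^ (48 * (21 * 12)) - 1) L3 L5 L7 L13 O m0 = true := by
  unfold top at h
  rw [rtK_eq, rtK_eq, rtK_eq, rtK_eq, rtK_eq, rtK_eq, rtK_eq] at h
  have h1 := st h
  rw [mkf_eq (x := nat_lit 12096) (y := 48 * (21 * 12)) (by norm_num)] at h1
  have h2 := allL_spec h1 m0 hm
  refine ⟨⟨rtOf R91F13 21 21 12, rtOf R455F13a 210 10 8, rtOf R455F13b 210 10 8,
    rtOf R455F13c 210 10 8, rtOf R273F13 63 3 4, rtOf R195F13 30 3 4, rtOf R105N13 30 3 4⟩,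
    ⟨rfl, rfl, rfl, rfl, rfl, rfl, rfl⟩, ?_⟩
  exact h2

lemma sol13_spec {V W t : ℕ} {f : ℕ → Bool} (h : sol13 V W f = true) (hV : V < 13) (hW : W < 13)
    (ht : t < 13) (hz : (V + t * W) % 13 = 0) : f t = true := by
  unfold sol13 at h
  rcases h0 : Nat.beq W (nat_lit 0) with _ | _
  · rw [h0] at h
    have h1 := st h
    have e : Nat.mod (Nat.mul (Nat.sub (nat_lit 13) V) (Nat.pow W (nat_lit 11))) (nat_lit 13) =
        t := by
      change ((13 - V) * W ^ 11) % 13 = t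
      have hW0 : W ≠ 0 := by
        rintro rfl
        exact absurd h0 (by simp)
      clear h h1 h0
      have key : ∀ v w s : Fin 13, ((v : ℕ) + s * w) % 13 = 0 → (w : ℕ) ≠ 0 →
          ((13 - (v : ℕ)) * (w : ℕ) ^ 11) % 13 = s := by decide +kernel
      exact key ⟨V, hV⟩ ⟨W, hW⟩ ⟨t, ht⟩ hz hW0
    rw [e] at h1
    exact h1
  · rw [h0] at h
    have e0 := Nat.eq_of_beq_eq_true h0
    have e1 : V = 0 := by
      rw [e0] at hz
      change (V + t * 0) % 13 = 0 at hz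
      omega
    exact allR_spec (imp_spec h (zt e1)) t ht

end Pool.Agent.OEG.En
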