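import Pool.Agent.OEG.TrS

/-!
Project OEG, the tree of the first family: soundness of the kernel check.
-/

set_option linter.unusedSectionVars false

namespace Pool.Agent.OEG.En

open Finset
open Pool.Agent.LibH4.S7 (Rl)
open Pool.Agent.LibH4.Ker
open Pool.Agent.Lib_helper5 Pool.Agent.Lib_helper5.LK Pool.Agent.Lib_helper5.TB
open Pool.Agent.PSX.Ev (OSys)
open Pool.Agent.PSX.K

section Z

variable {r : Rl} [NeZero r.n1] [NeZero r.n2] [NeZero r.n3] [NeZero r.l]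
  {sl su : Bool} {D p q b p' : ℤ} {m : ℕ}

/-- first number at the state -/
noncomputable def BWx (r : Rl) (T : RT) (sl su : Bool) (p q b p' : ℤ) (m : ℕ) : ℕ :=
  BK T.TX T.TY T.S T.W1 T.mka r.t1 (Gx r.n1 r.ex1 r.PT1 sl su p q b p' m 24)
    (Mx r.l sl su p q b p' m 24)

/-- second number at the state -/
noncomputable def B0x (r : Rl) (T : RT) (sl su : Bool) (p q b p' : ℤ) (m : ℕ) : ℕ :=
  B0K (BWx r T sl su p q b p' m) T.TY T.W1 T.mka r.t1 (rs r.l (-(sgz sl * b))) (2 * (m % 12))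
    (Gx r.n1 r.ex1 r.PT1 sl su p q b p' m 24)

/-- three components -/
theorem z3x {T : RT} {len2 len3 K LEN : ℕ} (hT : T = rtOf r LEN len3 K) (hl3 : r.len3 = len3)
    (U : UR r p p' 12) (hJ : HdJ r (J1 (sgz sl) (sgz su) p q b m)) {k τ : ℕ}
    (hl : r.l ≤ 19) (c1 : ck18 r.n1 r.t1 = true) (c2 : ck18 r.n2 r.t2 = true)
    (c3 : ck18 r.n3 r.t3 = true)
    (h2 : ∀ g, pf r.n2 r.ex2 r.PT2 (ef (sgz sl) (sgz su) q p p' (p ^ m) b g) < len2)
    (h3 : ∀ g, pf r.n3 r.ex3 r.PT3 (ef (sgz sl) (sgz su) q p p' (p ^ m) b g) < len3)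
    (U3 : Un r.n3 p p' k) (hK : K = 2 * k) (hk : 0 < k) (hk' : k ≤ 48)
    (hLEN : LEN = len2 * len3) (hτ : τ ≤ 18)
    (hτm : (τ : ZMod r.l) = ((m / 12 : ℕ) : ZMod r.l)) :
    zK (yK (Nat.add (B0x r T sl su p q b p' m) (Nat.mul τ (BWx r T sl su p q b p' m))) T.mk3
        (Yx r T.W1 T.W3 K sl su p q b p' m))
      (frK r.t3 T.W3 (Gx r.n3 r.ex3 r.PT3 sl su p q b p' m K) T.T) T.T r.l = 0 := by
  subst hT
  subst hl3
  have p3 : 0 < r.len3 := lt_of_le_of_lt (Nat.zero_le _) (h3 0)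
  exact z3 (T := K * r.len3 - 1) U hJ hl c1 c2 c3 h2 h3 U3 hK hk hk' hLEN (by
    have : 0 < K * r.len3 := Nat.mul_pos (by omega) p3
    omega) hτ hτm

/-- two components -/
theorem z2x {T : RT} {K LEN : ℕ} (hT : T = rtOf r LEN LEN K)
    (U : UR r p p' 12) (hJ : HdJ r (J1 (sgz sl) (sgz su) p q b m)) {k c τ : ℕ}
    (hl : r.l ≤ 19) (c1 : ck18 r.n1 r.t1 = true) (c2 : ck18 r.n2 r.t2 = true)
    (h2 : ∀ g, pf r.n2 r.ex2 r.PT2 (ef (sgz sl) (sgz su) q p p' (p ^ m) b g) < LEN)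
    (e3 : ∀ f : Fm, s3 r f = 1) (p3 : ∀ f : Fm, pf r.n3 r.ex3 r.PT3 f = 0) (hl3 : r.len3 = 1)
    (U2 : Un r.n2 p p' k) (hK : K = 2 * k) (hk : 0 < k) (hk' : k ≤ 48)
    (hn : K * c = 24) (hc : c ≤ 48)
    (hτm : (τ : ZMod r.l) = ((m / 12 : ℕ) : ZMod r.l)) {WK : ℕ} (hWK : WK = 48 * LEN * K) :
    (zK (fdK (B0x r T sl su p q b p' m) WK (2 ^ (48 * (LEN * K)) - 1) c)
      (frK r.t2 T.W1 (Gx r.n2 r.ex2 r.PT2 sl su p q b p' m K) T.T) T.T r.l +
    τ * zK (fdK (BWx r T sl su p q b p' m) WK (2 ^ (48 * (LEN * K)) - 1) c)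
      (frK r.t2 T.W1 (Gx r.n2 r.ex2 r.PT2 sl su p q b p' m K) T.T) T.T r.l) % r.l = 0 := by
  subst hT
  subst hWK
  have pL : 0 < LEN := lt_of_le_of_lt (Nat.zero_le _) (h2 0)
  exact z2 (T := K * LEN - 1) U hJ hl c1 c2 h2 e3 p3 hl3 U2 hK hk hk' hn hc (by
    have : 0 < K * LEN := Nat.mul_pos (by omega) pL
    omega) hτm

end Z

instance : NeZero R91F13.n1 := ⟨by decide⟩
instance : NeZero R91F13.n2 := ⟨by decide⟩
instance : NeZero R91F13.n3 := ⟨by decide⟩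
instance : NeZero R91F13.l := ⟨by decide⟩
instance : NeZero R455F13a.n1 := ⟨by decide⟩
instance : NeZero R455F13a.n2 := ⟨by decide⟩
instance : NeZero R455F13a.n3 := ⟨by decide⟩
instance : NeZero R455F13a.l := ⟨by decide⟩
instance : NeZero R455F13b.n1 := ⟨by decide⟩
instance : NeZero R455F13b.n2 := ⟨by decide⟩
instance : NeZero R455F13b.n3 := ⟨by decide⟩
instance : NeZero R455F13b.l := ⟨by decide⟩
instance : NeZero R455F13c.n1 := ⟨by decide⟩
instance : NeZero R455F13c.n2 := ⟨by decide⟩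
instance : NeZero R455F13c.n3 := ⟨by decide⟩
instance : NeZero R455F13c.l := ⟨by decide⟩
instance : NeZero R273F13.n1 := ⟨by decide⟩
instance : NeZero R273F13.n2 := ⟨by decide⟩
instance : NeZero R273F13.n3 := ⟨by decide⟩
instance : NeZero R273F13.l := ⟨by decide⟩
instance : NeZero R195F13.n1 := ⟨by decide⟩
instance : NeZero R195F13.n2 := ⟨by decide⟩
instance : NeZero R195F13.n3 := ⟨by decide⟩
instance : NeZero R195F13.l := ⟨by decide⟩
instance : NeZero R105N13.n1 := ⟨by decide⟩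
instance : NeZero R105N13.n2 := ⟨by decide⟩
instance : NeZero R105N13.n3 := ⟨by decide⟩
instance : NeZero R105N13.l := ⟨by decide⟩

section Rel

variable {sl su : Bool} {D p q b p' : ℤ} {m : ℕ} (C : Cx sl su D p q b p' m)

include C

lemma b7 (g : ℕ) : pf 7 5 PT7 (ef (sgz sl) (sgz su) q p p' (p ^ m) b g) < 21 :=
  lt_of_lt_of_eq (pf_ef comp7 C.i7 C.qb C.hD C.d7 g) (by decide)

lemma b5 (g : ℕ) : pf 5 3 PT5 (ef (sgz sl) (sgz su) q p p' (p ^ m) b g) < 10 :=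
  lt_of_lt_of_eq (pf_ef comp5 C.i5 C.qb C.hD C.d5 g) (by decide)

lemma b3 (g : ℕ) : pf 3 1 PT3 (ef (sgz sl) (sgz su) q p p' (p ^ m) b g) < 3 :=
  lt_of_lt_of_eq (pf_ef comp3 C.i3 C.qb C.hD C.d3 g) (by decide)

/-- the multiple of the period -/
lemma tm (m : ℕ) : ((((m / 12) % 13 : ℕ)) : ZMod 13) = ((m / 12 : ℕ) : ZMod 13) :=
  ZMod.natCast_mod _ _

lemma za {T : T7} (hT : TK T) :
    zK (yK (Nat.add (B0x R455F13a T.a sl su p q b p' m)
      (Nat.mul ((m / 12) % 13) (BWx R455F13a T.a sl su p q b p' m))) T.a.mk3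
        (Yx R455F13a T.a.W1 T.a.W3 8 sl su p q b p' m))
      (frK R455F13a.t3 T.a.W3 (Gx 5 3 PT5 sl su p q b p' m 8) T.a.T) T.a.T 13 = 0 :=
  z3x (r := R455F13a) (len2 := 21) (len3 := 10) (K := 8) (LEN := 210) (k := 4) hT.a rfl
    ⟨C.u13, C.u7, C.u5, C.u13⟩ (e455F13a C.S) (by decide) (by decide +kernel) (by decide +kernel)
    (by decide +kernel) (b7 C) (b5 C) C.v5 rfl (by norm_num) (by norm_num) (by norm_num)
    (by have := Nat.mod_lt (m / 12) (show 0 < 13 by norm_num); omega) (tm C m)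

lemma zb {T : T7} (hT : TK T) :
    zK (yK (Nat.add (B0x R455F13b T.b sl su p q b p' m)
      (Nat.mul ((m / 12) % 13) (BWx R455F13b T.b sl su p q b p' m))) T.b.mk3
        (Yx R455F13b T.b.W1 T.b.W3 8 sl su p q b p' m))
      (frK R455F13b.t3 T.b.W3 (Gx 5 3 PT5 sl su p q b p' m 8) T.b.T) T.b.T 13 = 0 :=
  z3x (r := R455F13b) (len2 := 21) (len3 := 10) (K := 8) (LEN := 210) (k := 4) hT.b rfl
    ⟨C.u13, C.u7, C.u5, C.u13⟩ (e455F13b C.S) (by decide) (by decide +kernel) (by decide +kernel)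
    (by decide +kernel) (b7 C) (b5 C) C.v5 rfl (by norm_num) (by norm_num) (by norm_num)
    (by have := Nat.mod_lt (m / 12) (show 0 < 13 by norm_num); omega) (tm C m)

lemma zc {T : T7} (hT : TK T) :
    zK (yK (Nat.add (B0x R455F13c T.c sl su p q b p' m)
      (Nat.mul ((m / 12) % 13) (BWx R455F13c T.c sl su p q b p' m))) T.c.mk3
        (Yx R455F13c T.c.W1 T.c.W3 8 sl su p q b p' m))
      (frK R455F13c.t3 T.c.W3 (Gx 5 3 PT5 sl su p q b p' m 8) T.c.T) T.c.T 13 = 0 :=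
  z3x (r := R455F13c) (len2 := 21) (len3 := 10) (K := 8) (LEN := 210) (k := 4) hT.c rfl
    ⟨C.u13, C.u7, C.u5, C.u13⟩ (e455F13c C.S) (by decide) (by decide +kernel) (by decide +kernel)
    (by decide +kernel) (b7 C) (b5 C) C.v5 rfl (by norm_num) (by norm_num) (by norm_num)
    (by have := Nat.mod_lt (m / 12) (show 0 < 13 by norm_num); omega) (tm C m)

lemma zd {T : T7} (hT : TK T) :
    zK (yK (Nat.add (B0x R273F13 T.d sl su p q b p' m)
      (Nat.mul ((m / 12) % 13) (BWx R273F13 T.d sl su p q b p' m))) T.d.mk3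
        (Yx R273F13 T.d.W1 T.d.W3 4 sl su p q b p' m))
      (frK R273F13.t3 T.d.W3 (Gx 3 1 PT3 sl su p q b p' m 4) T.d.T) T.d.T 13 = 0 :=
  z3x (r := R273F13) (len2 := 21) (len3 := 3) (K := 4) (LEN := 63) (k := 2) hT.d rfl
    ⟨C.u13, C.u7, C.u3, C.u13⟩ (e273F13 C.S) (by decide) (by decide +kernel) (by decide +kernel)
    (by decide +kernel) (b7 C) (b3 C) C.v3 rfl (by norm_num) (by norm_num) (by norm_num)
    (by have := Nat.mod_lt (m / 12) (show 0 < 13 by norm_num); omega) (tm C m)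

lemma ze {T : T7} (hT : TK T) :
    zK (yK (Nat.add (B0x R195F13 T.e sl su p q b p' m)
      (Nat.mul ((m / 12) % 13) (BWx R195F13 T.e sl su p q b p' m))) T.e.mk3
        (Yx R195F13 T.e.W1 T.e.W3 4 sl su p q b p' m))
      (frK R195F13.t3 T.e.W3 (Gx 3 1 PT3 sl su p q b p' m 4) T.e.T) T.e.T 13 = 0 :=
  z3x (r := R195F13) (len2 := 10) (len3 := 3) (K := 4) (LEN := 30) (k := 2) hT.e rfl
    ⟨C.u13, C.u5, C.u3, C.u13⟩ (e195F13 C.S) (by decide) (by decide +kernel) (by decide +kernel)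
    (by decide +kernel) (b5 C) (b3 C) C.v3 rfl (by norm_num) (by norm_num) (by norm_num)
    (by have := Nat.mod_lt (m / 12) (show 0 < 13 by norm_num); omega) (tm C m)

lemma zf {T : T7} (hT : TK T) :
    zK (yK (Nat.add (B0x R105N13 T.f sl su p q b p' m)
      (Nat.mul ((m / 12) % 13) (BWx R105N13 T.f sl su p q b p' m))) T.f.mk3
        (Yx R105N13 T.f.W1 T.f.W3 4 sl su p q b p' m))
      (frK R105N13.t3 T.f.W3 (Gx 3 1 PT3 sl su p q b p' m 4) T.f.T) T.f.T 13 = 0 :=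
  z3x (r := R105N13) (len2 := 10) (len3 := 3) (K := 4) (LEN := 30) (k := 2) hT.f rfl
    ⟨C.u7, C.u5, C.u3, C.u13⟩ (e105N13 C.S) (by decide) (by decide +kernel) (by decide +kernel)
    (by decide +kernel) (b5 C) (b3 C) C.v3 rfl (by norm_num) (by norm_num) (by norm_num)
    (by have := Nat.mod_lt (m / 12) (show 0 < 13 by norm_num); omega) (tm C m)

lemma zo {T : T7} (hT : TK T) :
    (zK (fdK (B0x R91F13 T.o sl su p q b p' m) 12096 (2 ^ (48 * (21 * 12)) - 1) 2)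
      (frK R91F13.t2 T.o.W1 (Gx 7 5 PT7 sl su p q b p' m 12) T.o.T) T.o.T 13 +
    ((m / 12) % 13) * zK (fdK (BWx R91F13 T.o sl su p q b p' m) 12096 (2 ^ (48 * (21 * 12)) - 1) 2)
      (frK R91F13.t2 T.o.W1 (Gx 7 5 PT7 sl su p q b p' m 12) T.o.T) T.o.T 13) % 13 = 0 :=
  z2x (r := R91F13) (LEN := 21) (K := 12) (k := 6) (c := 2) hT.o
    ⟨C.u13, C.u7, C.u1, C.u13⟩ (e91F13 C.S) (by decide) (by decide +kernel) (by decide +kernel)
    (b7 C) (fun f => by
      have h : rs 1 f.P = 0 := by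
        have := rs_lt (p := 1) f.P
        omega
      show dig t3_91F13 (rs 1 f.P) = 1
      rw [h]
      decide +kernel) (fun f => by
      show pos 1 0 PT1 (rs 1 f.P) (rs 1 f.R) (rs 1 f.S) = 0
      unfold pos
      rw [strict_eq]
      exact dig_zero _) rfl C.v7 rfl (by norm_num) (by norm_num) (by norm_num) (by norm_num)
    (tm C m) (by norm_num)

/-! ### the same with the entries of the lists -/

lemma za' {T : T7} (hT : TK T) :
    zK (yK (Nat.add (B0x R455F13a T.a sl su p q b p' m)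
      (Nat.mul ((m / 12) % 13) (BWx R455F13a T.a sl su p q b p' m))) T.a.mk3
        (x7 T sl su D p q b p' m).ya) (x5 T sl su D p q b p' m).Fa T.a.T 13 = 0 := by
  dsimp only [x7, x5]
  exact za C hT

lemma zb' {T : T7} (hT : TK T) :
    zK (yK (Nat.add (B0x R455F13b T.b sl su p q b p' m)
      (Nat.mul ((m / 12) % 13) (BWx R455F13b T.b sl su p q b p' m))) T.b.mk3
        (x7 T sl su D p q b p' m).yb) (x5 T sl su D p q b p' m).Fb T.b.T 13 = 0 := by
  dsimp only [x7, x5]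
  exact zb C hT

lemma zc' {T : T7} (hT : TK T) :
    zK (yK (Nat.add (B0x R455F13c T.c sl su p q b p' m)
      (Nat.mul ((m / 12) % 13) (BWx R455F13c T.c sl su p q b p' m))) T.c.mk3
        (x7 T sl su D p q b p' m).yc) (x5 T sl su D p q b p' m).Fc T.c.T 13 = 0 := by
  dsimp only [x7, x5]
  exact zc C hT

lemma zd' {T : T7} (hT : TK T) :
    zK (yK (Nat.add (B0x R273F13 T.d sl su p q b p' m)
      (Nat.mul ((m / 12) % 13) (BWx R273F13 T.d sl su p q b p' m))) T.d.mk3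
        (x7 T sl su D p q b p' m).yd) (x3 T sl su p q b p' m).Fd T.d.T 13 = 0 := by
  dsimp only [x7, x3]
  exact zd C hT

lemma ze' {T : T7} (hT : TK T) :
    zK (yK (Nat.add (B0x R195F13 T.e sl su p q b p' m)
      (Nat.mul ((m / 12) % 13) (BWx R195F13 T.e sl su p q b p' m))) T.e.mk3
        (x5 T sl su D p q b p' m).ye) (x3 T sl su p q b p' m).Fe T.e.T 13 = 0 := by
  dsimp only [x5, x3]
  exact ze C hT

lemma zf' {T : T7} (hT : TK T) :
    zK (yK (Nat.add (B0x R105N13 T.f sl su p q b p' m)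
      (Nat.mul ((m / 12) % 13) (BWx R105N13 T.f sl su p q b p' m))) T.f.mk3
        (x5 T sl su D p q b p' m).yf) (x3 T sl su p q b p' m).Ff T.f.T 13 = 0 := by
  dsimp only [x5, x3]
  exact zf C hT

lemma zo' {T : T7} (hT : TK T) :
    (zK (fdK (B0x R91F13 T.o sl su p q b p' m) 12096 (2 ^ (48 * (21 * 12)) - 1) 2)
      (x7 T sl su D p q b p' m).F91 T.o.T 13 +
    ((m / 12) % 13) * zK (fdK (BWx R91F13 T.o sl su p q b p' m) 12096
      (2 ^ (48 * (21 * 12)) - 1) 2) (x7 T sl su D p q b p' m).F91 T.o.T 13) % 13 = 0 := by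
  dsimp only [x7]
  exact zo C hT

/-- first number of the relation 105 with the record of the entry -/
lemma zg' (T : T7) : BK T.f.TX T.f.TY T.f.S T.f.W1 T.f.mka R105N13.t1
    (x7 T sl su D p q b p' m).G (Mx 13 sl su p q b p' m 24) = BWx R105N13 T.f sl su p q b p' m := by
  dsimp only [x7]
  rfl

/-- second number of the relation 105 with the record of the entry -/
lemma zh' (T : T7) : B0K (BWx R105N13 T.f sl su p q b p' m) T.f.TY T.f.W1 T.f.mka R105N13.t1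
    (rs 13 (-(sgz sl * b))) (2 * (m % 12)) (x7 T sl su D p q b p' m).G =
    B0x R105N13 T.f sl su p q b p' m := by
  dsimp only [x7]
  rfl

end Rel

end Pool.Agent.OEG.En
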