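import Pool.Agent.OEG.TrT

/-!
Project OEG, the tree of the first family: stepping through the check.
-/

set_option linter.unusedSectionVars false

namespace Pool.Agent.OEG.En

open Finset
open Pool.Agent.LibH4.S7 (Rl)
open Pool.Agent.LibH4.Ker
open Pool.Agent.Lib_helper5 Pool.Agent.Lib_helper5.LK Pool.Agent.Lib_helper5.TB
open Pool.Agent.PSX.Ev (OSys)
open Pool.Agent.PSX.K

section Tree

variable {sl su : Bool} {D p q b p' : ℤ} {m : ℕ} (C : Cx sl su D p q b p' m)

include C

/-- the result at the last level -/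
def Fn (sl su : Bool) (O : List (List ℕ)) (p q b : ℤ) (m : ℕ) : Prop :=
  (g1n sl su 3 (rs 3 p) (rs 3 b) = true ∧ g1n sl su 5 (rs 5 p) (rs 5 b) = true ∧
    g1n sl su 7 (rs 7 p) (rs 7 b) = true ∧ g1n sl su 13 (rs 13 p) (rs 13 b) = true) ∨
  fin sl su O (m % 12) ((m / 12) % 13) (rs 13 p) (rs 13 q) (rs 13 b) (rs 7 p) (rs 7 q) (rs 7 b)
    (rs 5 p) (rs 5 q) (rs 5 b) (rs 3 p) (rs 3 q) (rs 3 b) = true

theorem lev3_spec {T : T7} (hT : TK T) {O : List (List ℕ)} {R3 : List E3}
    (m3 : x3 T sl su p q b p' m ∈ R3)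
    (h : lev3 T sl su O (m % 12) (2 * (m % 12)) R3 (rs 13 p, rs 13 q, rs 13 b)
      (Mx 13 sl su p q b p' m 24) (rs 13 (-(sgz sl * b)))
      (BWx R455F13c T.c sl su p q b p' m) (B0x R455F13c T.c sl su p q b p' m)
      (BWx R273F13 T.d sl su p q b p' m) (B0x R273F13 T.d sl su p q b p' m)
      (BWx R195F13 T.e sl su p q b p' m) (B0x R195F13 T.e sl su p q b p' m)
      (x7 T sl su D p q b p' m) (x5 T sl su D p q b p' m)
      ((m / 12) % 13) = true) : Fn sl su O p q b m := by
  unfold lev3 at h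
  have h := st h
  have h := st h
  have h := imp_spec h (zt (zc' C hT))
  have h := st h
  have h := st h
  have h := st h
  have h := st h
  have h := allL_spec h _ m3
  rcases orr_spec h with h | h
  · obtain ⟨h1, h⟩ := an_spec h
    obtain ⟨h2, h⟩ := an_spec h
    obtain ⟨h3, h4⟩ := an_spec h
    exact Or.inl ⟨h1, h2, h3, h4⟩
  have h := imp_spec h (zt (zd' C hT))
  have h := imp_spec h (zt (ze' C hT))
  have h : strict (BK T.f.TX T.f.TY T.f.S T.f.W1 T.f.mka R105N13.t1
    (x7 T sl su D p q b p' m).G (Mx 13 sl su p q b p' m 24)) _ = true := h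
  rw [zg' C T] at h
  have h := st h
  have h : strict (B0K (BWx R105N13 T.f sl su p q b p' m) T.f.TY T.f.W1 T.f.mka R105N13.t1
    (rs 13 (-(sgz sl * b))) (2 * (m % 12)) (x7 T sl su D p q b p' m).G) _ = true := h
  rw [zh' C T] at h
  have h := st h
  have h := st h
  have h := st h
  have h := imp_spec h (zt (zf' C hT))
  exact Or.inr h

omit C in
lemma zo_lt (B F t : ℕ) :
    zK (fdK B 12096 (2 ^ (48 * (21 * 12)) - 1) 2) F t 13 < 13 :=
  Nat.mod_lt _ (by norm_num)

theorem tree_spec {T : T7} (hT : TK T) (hC : Cn q b) {O : List (List ℕ)}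
    {L3 L5 L7 L13 : List (ℕ × ℕ × ℕ)} (k3 : cplK 3 sl su fil0 L3 = true)
    (k5 : cplK 5 sl su fil0 L5 = true) (k7 : cplK 7 sl su fil0 L7 = true)
    (k13 : cplK 13 sl su fil13 L13 = true)
    (h : tree T sl su (2 ^ (48 * (21 * 12)) - 1) L3 L5 L7 L13 O (m % 12) = true) :
    stp (rs 13 D) (rs 7 D) (rs 5 D) = true ∨ Fn sl su O p q b m := by
  have nz13 : (p : ZMod 13) ≠ 0 := by
    intro h0
    have := C.i13
    rw [h0, zero_mul] at this
    exact absurd this (by decide)
  have nz7 : (p : ZMod 7) ≠ 0 := by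
    intro h0
    have := C.i7
    rw [h0, zero_mul] at this
    exact absurd this (by decide)
  have nz5 : (p : ZMod 5) ≠ 0 := by
    intro h0
    have := C.i5
    rw [h0, zero_mul] at this
    exact absurd this (by decide)
  have nz3 : (p : ZMod 3) ≠ 0 := by
    intro h0
    have := C.i3
    rw [h0, zero_mul] at this
    exact absurd this (by decide)
  have l3 := cplK_spec (n := 3) (by norm_num) k3 C.qb nz3 rfl
  have l5 := cplK_spec (n := 5) (by norm_num) k5 C.qb nz5 rfl
  have l7 := cplK_spec (n := 7) (by norm_num) k7 C.qb nz7 rfl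
  have hfil : fil13 (rs 13 q) (rs 13 b) = true := by
    obtain ⟨c1, c2⟩ := hC
    unfold fil13
    rw [show Nat.ble (rs 13 q) (nat_lit 6) = true from
      Nat.ble_eq_true_of_le (show rs 13 q ≤ 6 by omega)]
    change imp (Nat.beq (rs 13 q) (nat_lit 0)) (Nat.ble (rs 13 b) (nat_lit 6)) = true
    rcases h0 : Nat.beq (rs 13 q) (nat_lit 0) with _ | _
    · rfl
    · have := c2 (Nat.eq_of_beq_eq_true h0)
      exact Nat.ble_eq_true_of_le (show rs 13 b ≤ 6 by omega)
  have l13 := cplK_spec (n := 13) (by norm_num) k13 C.qb nz13 hfil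
  unfold tree at h
  have hD : ∀ n : ℕ, rs n ((q * p ^ m + b) ^ 2 + 4 * sgz sl * p ^ m) = rs n D := fun n => by
    rw [← C.hD]
  -- modulo 3
  obtain ⟨R3, h, m3⟩ := bld_spec h (ent3_ex T sl su) (x := (rs 3 p, rs 3 q, rs 3 b)) l3
    (N := rs 3 (q * p ^ m + b)) (N1 := rs 3 (q * p ^ m - b)) (pi := rs 3 p')
    (X := rs 3 (p ^ m)) (D := rs 3 D)
    (fun k' => (clsK_eq (n := 3) (by norm_num) (pw_m C.u3.per m) (ux3 _ _ C.i3) k').trans
      (by rw [hD])) C.d3
    (E := x3 T sl su p q b p' m) (fun k' => ent3_eq T _ k')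
  -- modulo 5
  obtain ⟨R5, h, m5⟩ := bld_spec h (ent5_ex T sl su) (x := (rs 5 p, rs 5 q, rs 5 b)) l5
    (N := rs 5 (q * p ^ m + b)) (N1 := rs 5 (q * p ^ m - b)) (pi := rs 5 p')
    (X := rs 5 (p ^ m)) (D := rs 5 D)
    (fun k' => (clsK_eq (n := 5) (by norm_num) (pw_m C.u5.per m) (ux5 _ _ C.i5) k').trans
      (by rw [hD])) C.d5
    (E := x5 T sl su D p q b p' m) (fun k' => ent5_eq T _ k')
  -- modulo 7
  obtain ⟨R7, h, m7⟩ := bld_spec h (ent7_ex T sl su) (x := (rs 7 p, rs 7 q, rs 7 b)) l7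
    (N := rs 7 (q * p ^ m + b)) (N1 := rs 7 (q * p ^ m - b)) (pi := rs 7 p')
    (X := rs 7 (p ^ m)) (D := rs 7 D)
    (fun k' => (clsK_eq (n := 7) (by norm_num) (pw_m C.u7.per m) (ux7 _ _ C.i7) k').trans
      (by rw [hD])) C.d7
    (E := x7 T sl su D p q b p' m) (fun k' => ent7_eq T _ k')
  have h := st h
  have h := allL_spec h _ l13
  have h := ((clsK_eq (n := 13) (by norm_num) (pw_m C.u13.per m) (ux13 _ _ C.i13) _).symm).trans h
  rw [hD] at h
  have h := imp_spec h C.d13
  have h := (rec0 (n := 13) (by norm_num) 11 PT13 12 _).symm.trans h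
  have h := (let0 (n := 13) (b := b) (p' := p') (m := m) (by norm_num) 12 _).symm.trans h
  have h := st h
  rw [e_eq (n := 13) (by norm_num)] at h
  have h : strict (BWx R91F13 T.o sl su p q b p' m) _ = true := h
  have h := st h
  have h : strict (B0x R91F13 T.o sl su p q b p' m) _ = true := h
  have h := st h
  have h := st h
  have h := st h
  have h : strict (BWx R455F13a T.a sl su p q b p' m) _ = true := h
  have h := st h
  have h : strict (B0x R455F13a T.a sl su p q b p' m) _ = true := h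
  have h := st h
  have h : strict (BWx R455F13b T.b sl su p q b p' m) _ = true := h
  have h := st h
  have h : strict (B0x R455F13b T.b sl su p q b p' m) _ = true := h
  have h := st h
  have h : strict (BWx R455F13c T.c sl su p q b p' m) _ = true := h
  have h := st h
  have h : strict (B0x R455F13c T.c sl su p q b p' m) _ = true := h
  have h := st h
  have h : strict (BWx R273F13 T.d sl su p q b p' m) _ = true := h
  have h := st h
  have h : strict (B0x R273F13 T.d sl su p q b p' m) _ = true := h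
  have h := st h
  have h : strict (BWx R195F13 T.e sl su p q b p' m) _ = true := h
  have h := st h
  have h : strict (B0x R195F13 T.e sl su p q b p' m) _ = true := h
  have h := st h
  have h := allL_spec h _ m7
  have h := st h
  have h := st h
  have hV := zo_lt (B0x R91F13 T.o sl su p q b p' m) (x7 T sl su D p q b p' m).F91 T.o.T
  have hW := zo_lt (BWx R91F13 T.o sl su p q b p' m) (x7 T sl su D p q b p' m).F91 T.o.T
  have hz := zo' C hT
  have ht : (m / 12) % 13 < 13 := Nat.mod_lt _ (by norm_num)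
  have h := sol13_spec h hV hW ht hz
  have h := st h
  have h := st h
  have h := allL_spec h _ m5
  have h := imp_spec h (zt (za' C hT))
  rcases orr_spec h with h | h
  · exact Or.inl h
  have h := st h
  have h := st h
  have h := imp_spec h (zt (zb' C hT))
  exact Or.inr (lev3_spec C hT m3 h)

end Tree

end Pool.Agent.OEG.En
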