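import Pool.Agent.OEG.ERel
import Pool.Agent.PSX.EvKer

/-!
Project OEG, elimination for the first family: evaluation of a relation on classes of parameters, by
sums over one period.
-/

set_option autoImplicit false

namespace Pool.Agent.OEG.W

open Pool.Agent.LibH4 Pool.Agent.LibH4.Ker
open Pool.Agent.Lib_helper5 Pool.Agent.Lib_helper5.LK Pool.Agent.Lib_helper5.TB
open Pool.Agent.LibH4.S7 (Rl)
open Pool.Agent.PSX.Ev (cp uncP uncN)
open Finset (range)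

/-! ### periodic sums -/

lemma sum_per (A : ℕ → ℕ) (L t k : ℕ) (hk : k ≤ L) :
    ∑ j ∈ range (L * t + k), A (j % L) = t * ∑ j ∈ range L, A j + ∑ j ∈ range k, A j := by
  induction t with
  | zero =>
    rw [Nat.mul_zero, Nat.zero_add, Nat.zero_mul, Nat.zero_add]
    apply Finset.sum_congr rfl
    intro j hj
    rw [Nat.mod_eq_of_lt (lt_of_lt_of_le (Finset.mem_range.1 hj) hk)]
  | succ t ih =>
    have e : L * (t + 1) + k = L + (L * t + k) := by ring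
    rw [e, Finset.sum_range_add]
    have e2 : ∀ x, (L + x) % L = x % L := fun x => Nat.add_mod_left L x
    simp only [e2]
    rw [ih, Nat.add_one_mul]
    have e3 : ∑ j ∈ range L, A (j % L) = ∑ j ∈ range L, A j := by
      apply Finset.sum_congr rfl
      intro j hj
      rw [Nat.mod_eq_of_lt (Finset.mem_range.1 hj)]
    rw [e3]
    ring

/-! ### the edges -/

/-- the edge `N_j` -/
def eN (l p q b : ℤ) (m j : ℕ) : Fm :=
  ⟨p ^ j, q * p ^ m + b, -(l * p ^ (m - j)), 3, -(c1 l p q b m j)⟩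

/-- the edge `N'_{j+1}` -/
def eM (u p q b : ℤ) (m j : ℕ) : Fm :=
  ⟨p ^ (j + 1), q * p ^ m - b, -(u * p ^ (m - j)), 3, -(u * q * p ^ j)⟩

lemma J1_eq (l u p q b : ℤ) (m : ℕ) :
    J1 l u p q b m = (List.range (m + 1)).map (eN l p q b m) ++ (List.range m).map (eM u p q b m) :=
  rfl

/-- the value of a form -/
def vf (t1 t2 t3 : ℕ) (X Y : ℕ → ℕ → ℕ → ℕ) (x y z : ℕ × ℕ) (w : ℕ) : ℕ :=
  dig t1 x.1 * dig t2 y.1 * dig t3 z.1 * (3 * X x.2 y.2 z.2 + w * Y x.2 y.2 z.2)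

/-- the relation -/
def HV (n1 n2 n3 l : ℕ) (ps1 ps2 ps3 : ℕ → ℕ → ℕ → ℕ) (t1 t2 t3 : ℕ) (X Y : ℕ → ℕ → ℕ → ℕ)
    (J : List Fm) : Prop :=
  (J.map fun e => vf t1 t2 t3 X Y (cp n1 ps1 e) (cp n2 ps2 e) (cp n3 ps3 e) (rs l e.α)).sum % l = 0

/-- cyclic access to a list -/
def cy {α : Type} [Inhabited α] (c : List α) (j : ℕ) : α := c.getD (j % c.length) default

lemma cy_mod {α : Type} [Inhabited α] {c : List α} {L : ℕ} (h : c.length ∣ L) (j : ℕ) :
    cy c (j % L) = cy c j := by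
  unfold cy
  rw [Nat.mod_mod_of_dvd _ h]

lemma list_sum_range (f : ℕ → ℕ) (n : ℕ) : ((List.range n).map f).sum = ∑ j ∈ range n, f j := by
  rw [Finset.sum_range]
  induction n with
  | zero => simp
  | succ n ih =>
    rw [List.range_succ, List.map_append, List.sum_append, ih, Fin.sum_univ_castSucc]
    simp

variable {n1 n2 n3 : ℕ} {ps1 ps2 ps3 : ℕ → ℕ → ℕ → ℕ}

/-- **the relation on classes** -/
theorem HV_per {L : ℕ} [NeZero L] {t1 t2 t3 : ℕ} {X Y : ℕ → ℕ → ℕ → ℕ} {l u p q b : ℤ} {m : ℕ}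
    (h : HV n1 n2 n3 L ps1 ps2 ps3 t1 t2 t3 X Y (J1 l u p q b m)) {lam ml t : ℕ}
    (hm : m = lam * t + ml) (hml : ml < lam) {x0 y0 z0 x1 y1 z1 : List (ℕ × ℕ)} {w0 w1 : List ℕ}
    {be : ℕ}
    (hx0 : ∀ j ≤ m, cy x0 j = cp n1 ps1 (eN l p q b m j))
    (hy0 : ∀ j ≤ m, cy y0 j = cp n2 ps2 (eN l p q b m j))
    (hz0 : ∀ j ≤ m, cy z0 j = cp n3 ps3 (eN l p q b m j))
    (hx1 : ∀ j < m, cy x1 j = cp n1 ps1 (eM u p q b m j))
    (hy1 : ∀ j < m, cy y1 j = cp n2 ps2 (eM u p q b m j))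
    (hz1 : ∀ j < m, cy z1 j = cp n3 ps3 (eM u p q b m j))
    (hw0 : ∀ j, cy w0 j = rs L (-(l * q * p ^ j))) (hw1 : ∀ j, cy w1 j = rs L (-(u * q * p ^ j)))
    (hbe : be = rs L (-(l * b)))
    (dx0 : x0.length ∣ lam) (dy0 : y0.length ∣ lam) (dz0 : z0.length ∣ lam)
    (dx1 : x1.length ∣ lam) (dy1 : y1.length ∣ lam) (dz1 : z1.length ∣ lam)
    (dw0 : w0.length ∣ lam) (dw1 : w1.length ∣ lam) :
    ((∑ j ∈ range ml, vf t1 t2 t3 X Y (cy x0 j) (cy y0 j) (cy z0 j) (cy w0 j) +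
      vf t1 t2 t3 X Y (cy x0 ml) (cy y0 ml) (cy z0 ml) (cy w0 ml + be) +
      ∑ j ∈ range ml, vf t1 t2 t3 X Y (cy x1 j) (cy y1 j) (cy z1 j) (cy w1 j)) +
      t * (∑ j ∈ range lam, vf t1 t2 t3 X Y (cy x0 j) (cy y0 j) (cy z0 j) (cy w0 j) +
      ∑ j ∈ range lam, vf t1 t2 t3 X Y (cy x1 j) (cy y1 j) (cy z1 j) (cy w1 j))) % L = 0 := by
  set F0 : ℕ → ℕ := fun j => vf t1 t2 t3 X Y (cy x0 j) (cy y0 j) (cy z0 j) (cy w0 j) with hF0
  set F1 : ℕ → ℕ := fun j => vf t1 t2 t3 X Y (cy x1 j) (cy y1 j) (cy z1 j) (cy w1 j) with hF1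
  have p0 : ∀ j, F0 (j % lam) = F0 j := by
    intro j
    simp only [hF0]
    rw [cy_mod dx0, cy_mod dy0, cy_mod dz0, cy_mod dw0]
  have p1 : ∀ j, F1 (j % lam) = F1 j := by
    intro j
    simp only [hF1]
    rw [cy_mod dx1, cy_mod dy1, cy_mod dz1, cy_mod dw1]
  have s0 : ∑ j ∈ range (m + 1), F0 j = t * ∑ j ∈ range lam, F0 j + ∑ j ∈ range (ml + 1), F0 j := by
    have := sum_per F0 lam t (ml + 1) (by omega)
    simp only [p0] at this
    rw [← this, hm]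
    rfl
  have s1 : ∑ j ∈ range m, F1 j = t * ∑ j ∈ range lam, F1 j + ∑ j ∈ range ml, F1 j := by
    have := sum_per F1 lam t ml (by omega)
    simp only [p1] at this
    rw [← this, hm]
  unfold HV at h
  rw [J1_eq, List.map_append, List.sum_append, List.map_map, List.map_map, list_sum_range,
    list_sum_range] at h
  have v1 : ∑ j ∈ range m, ((fun e => vf t1 t2 t3 X Y (cp n1 ps1 e) (cp n2 ps2 e) (cp n3 ps3 e)
      (rs L e.α)) ∘ eM u p q b m) j = ∑ j ∈ range m, F1 j := by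
    apply Finset.sum_congr rfl
    intro j hj
    have hj' := Finset.mem_range.1 hj
    simp only [hF1, Function.comp]
    rw [hx1 j hj', hy1 j hj', hz1 j hj', hw1 j]
    rfl
  have v0 : ∑ j ∈ range m, ((fun e => vf t1 t2 t3 X Y (cp n1 ps1 e) (cp n2 ps2 e) (cp n3 ps3 e)
      (rs L e.α)) ∘ eN l p q b m) j = ∑ j ∈ range m, F0 j := by
    apply Finset.sum_congr rfl
    intro j hj
    have hj' := Finset.mem_range.1 hj
    simp only [hF0, Function.comp]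
    rw [hx0 j hj'.le, hy0 j hj'.le, hz0 j hj'.le, hw0 j]
    have : c1 l p q b m j = l * q * p ^ j := by
      unfold c1
      rw [if_neg (by omega), add_zero]
    unfold eN
    rw [this]
  have vl : ((((fun e => vf t1 t2 t3 X Y (cp n1 ps1 e) (cp n2 ps2 e) (cp n3 ps3 e)
      (rs L e.α)) ∘ eN l p q b m) m : ℕ) : ZMod L) =
      ((vf t1 t2 t3 X Y (cy x0 m) (cy y0 m) (cy z0 m) (cy w0 m + be) : ℕ) : ZMod L) := by
    simp only [Function.comp]
    rw [hx0 m le_rfl, hy0 m le_rfl, hz0 m le_rfl, hw0 m, hbe]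
    have : c1 l p q b m m = l * q * p ^ m + l * b := by
      unfold c1
      rw [if_pos rfl]
    have e : (eN l p q b m m).α = -(l * q * p ^ m + l * b) := by
      unfold eN
      rw [this]
    unfold vf
    rw [e]
    push_cast
    rw [rs_cast, rs_cast, rs_cast]
    push_cast
    ring
  have e1 : vf t1 t2 t3 X Y (cy x0 m) (cy y0 m) (cy z0 m) (cy w0 m + be) =
      vf t1 t2 t3 X Y (cy x0 ml) (cy y0 ml) (cy z0 ml) (cy w0 ml + be) := by
    have hmm : m % lam = ml := by rw [hm, Nat.mul_add_mod, Nat.mod_eq_of_lt hml]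
    rw [← cy_mod dx0 m, ← cy_mod dy0 m, ← cy_mod dz0 m, ← cy_mod dw0 m, hmm]
  rw [Finset.sum_range_succ, v0, v1] at h
  have h' := (ZMod.natCast_eq_zero_iff _ _).2 (Nat.dvd_of_mod_eq_zero h)
  rw [← Nat.dvd_iff_mod_eq_zero, ← ZMod.natCast_eq_zero_iff]
  have s0' : ∑ j ∈ range m, F0 j + F0 m = t * ∑ j ∈ range lam, F0 j +
      (∑ j ∈ range ml, F0 j + F0 ml) := by
    rw [← Finset.sum_range_succ, s0, Finset.sum_range_succ]
  have hmm : m % lam = ml := by rw [hm, Nat.mul_add_mod, Nat.mod_eq_of_lt hml]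
  have f0m : F0 m = F0 ml := by rw [← p0 m, hmm]
  have s0'' : ∑ j ∈ range m, F0 j = t * ∑ j ∈ range lam, F0 j + ∑ j ∈ range ml, F0 j := by
    rw [f0m] at s0'
    omega
  push_cast at h' vl ⊢
  rw [← e1]
  rw [vl] at h'
  have c1' : ((∑ j ∈ range m, F0 j : ℕ) : ZMod L) = ((t * ∑ j ∈ range lam, F0 j +
    ∑ j ∈ range ml, F0 j : ℕ) : ZMod L) := by rw [s0'']
  have c2' : ((∑ j ∈ range m, F1 j : ℕ) : ZMod L) = ((t * ∑ j ∈ range lam, F1 j +
    ∑ j ∈ range ml, F1 j : ℕ) : ZMod L) := by rw [s1]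
  push_cast at c1' c2'
  rw [c1', c2'] at h'
  rw [← h']
  ring

end Pool.Agent.OEG.W
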