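import Pool.Agent.OEG.WA

/-!
Project OEG, elimination for the first family: evaluation of a relation in the kernel.
-/

set_option autoImplicit false

namespace Pool.Agent.OEG.W

open Pool.Agent.LibH4 Pool.Agent.LibH4.Ker
open Pool.Agent.Lib_helper5 Pool.Agent.Lib_helper5.LK Pool.Agent.Lib_helper5.TB
open Pool.Agent.LibH4.S7 (Rl)
open Pool.Agent.PSX.Ev (cp uncP uncN)
open Finset (range)

/-- next element, cyclically -/
def nxP {β : Type} (full cur : List (ℕ × ℕ)) (k : ℕ × ℕ → List (ℕ × ℕ) → β) : β :=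
  @List.rec (ℕ × ℕ) (fun _ => β) (uncP full k) (fun x L _ => k x L) cur

/-- next element, cyclically -/
def nxN {β : Type} (full cur : List ℕ) (k : ℕ → List ℕ → β) : β :=
  @List.rec ℕ (fun _ => β) (uncN full k) (fun x L _ => k x L) cur

/-- cursor -/
def Cu {α : Type} (f c : List α) (j : ℕ) : Prop :=
  c = f.drop (j % f.length) ∨ (j % f.length = 0 ∧ c = [])

lemma Cu_zero {α : Type} (f : List α) : Cu f f 0 := Or.inl (by simp)

lemma Cu_next {α : Type} {f : List α} (hf : f ≠ []) (j : ℕ) :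
    Cu f (f.drop (j % f.length + 1)) (j + 1) := by
  have hl : 0 < f.length := List.length_pos_of_ne_nil hf
  have h1 : j % f.length < f.length := Nat.mod_lt _ hl
  have e : (j + 1) % f.length = (j % f.length + 1) % f.length := (Nat.mod_add_mod j _ 1).symm
  by_cases h2 : j % f.length + 1 < f.length
  · left
    rw [e, Nat.mod_eq_of_lt h2]
  · right
    have h3 : j % f.length + 1 = f.length := by omega
    refine ⟨by rw [e, h3, Nat.mod_self], ?_⟩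
    rw [h3, List.drop_length]

lemma nxP_spec {β : Type} {f c : List (ℕ × ℕ)} (hf : f ≠ []) {j : ℕ} (h : Cu f c j) :
    ∃ c', Cu f c' (j + 1) ∧ ∀ k : ℕ × ℕ → List (ℕ × ℕ) → β, nxP f c k = k (cy f j) c' := by
  have hl : 0 < f.length := List.length_pos_of_ne_nil hf
  have h1 : j % f.length < f.length := Nat.mod_lt _ hl
  refine ⟨f.drop (j % f.length + 1), Cu_next hf j, ?_⟩
  intro k
  have hc : cy f j = f[j % f.length] := by
    unfold cy
    rw [List.getD_eq_getElem _ _ h1]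
  rcases h with h | ⟨h0, h⟩
  · rw [h, List.drop_eq_getElem_cons h1, hc]
    rfl
  · subst h
    obtain ⟨x, L, rfl⟩ := List.exists_cons_of_ne_nil hf
    rw [hc]
    simp only [h0]
    rfl

lemma nxN_spec {β : Type} {f c : List ℕ} (hf : f ≠ []) {j : ℕ} (h : Cu f c j) :
    ∃ c', Cu f c' (j + 1) ∧ ∀ k : ℕ → List ℕ → β, nxN f c k = k (cy f j) c' := by
  have hl : 0 < f.length := List.length_pos_of_ne_nil hf
  have h1 : j % f.length < f.length := Nat.mod_lt _ hl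
  refine ⟨f.drop (j % f.length + 1), Cu_next hf j, ?_⟩
  intro k
  have hc : cy f j = f[j % f.length] := by
    unfold cy
    rw [List.getD_eq_getElem _ _ h1]
  rcases h with h | ⟨h0, h⟩
  · rw [h, List.drop_eq_getElem_cons h1, hc]
    rfl
  · subst h
    obtain ⟨x, L, rfl⟩ := List.exists_cons_of_ne_nil hf
    rw [hc]
    simp only [h0]
    rfl

/-- the type of terms -/
abbrev Tm := ℕ × ℕ → ℕ × ℕ → ℕ × ℕ → ℕ → ℕ

/-- sum over a number of consecutive edges -/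
def runS (F : Tm) (f1 f2 f3 : List (ℕ × ℕ)) (fa : List ℕ) (n : ℕ) : ℕ → List (ℕ × ℕ) →
    List (ℕ × ℕ) → List (ℕ × ℕ) → List ℕ →
    (ℕ → List (ℕ × ℕ) → List (ℕ × ℕ) → List (ℕ × ℕ) → List ℕ → Bool) → Bool :=
  @Nat.rec (fun _ => ℕ → List (ℕ × ℕ) → List (ℕ × ℕ) → List (ℕ × ℕ) → List ℕ →
    (ℕ → List (ℕ × ℕ) → List (ℕ × ℕ) → List (ℕ × ℕ) → List ℕ → Bool) → Bool)
    (fun acc c1 c2 c3 ca k => k acc c1 c2 c3 ca)
    (fun _ ih acc c1 c2 c3 ca k => nxP f1 c1 fun x c1' => nxP f2 c2 fun y c2' =>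
      nxP f3 c3 fun z c3' => nxN fa ca fun a ca' =>
      strict (Nat.add acc (F x y z a)) fun acc' => ih acc' c1' c2' c3' ca' k) n

theorem runS_spec (F : Tm) {f1 f2 f3 : List (ℕ × ℕ)} {fa : List ℕ} (h1 : f1 ≠ []) (h2 : f2 ≠ [])
    (h3 : f3 ≠ []) (ha : fa ≠ []) (n : ℕ) : ∀ (j acc : ℕ) (c1 c2 c3 : List (ℕ × ℕ)) (ca : List ℕ),
    Cu f1 c1 j → Cu f2 c2 j → Cu f3 c3 j → Cu fa ca j → ∃ c1' c2' c3' ca', Cu f1 c1' (j + n) ∧
      Cu f2 c2' (j + n) ∧ Cu f3 c3' (j + n) ∧ Cu fa ca' (j + n) ∧ ∀ k,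
      runS F f1 f2 f3 fa n acc c1 c2 c3 ca k =
        k (acc + ∑ i ∈ range n, F (cy f1 (j + i)) (cy f2 (j + i)) (cy f3 (j + i)) (cy fa (j + i)))
          c1' c2' c3' ca' := by
  induction n with
  | zero =>
    intro j acc c1 c2 c3 ca g1 g2 g3 ga
    exact ⟨c1, c2, c3, ca, g1, g2, g3, ga, fun k => by simp [runS]⟩
  | succ n ih =>
    intro j acc c1 c2 c3 ca g1 g2 g3 ga
    obtain ⟨d1, e1, q1⟩ := nxP_spec (β := Bool) h1 g1
    obtain ⟨d2, e2, q2⟩ := nxP_spec (β := Bool) h2 g2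
    obtain ⟨d3, e3, q3⟩ := nxP_spec (β := Bool) h3 g3
    obtain ⟨da, ea, qa⟩ := nxN_spec (β := Bool) ha ga
    obtain ⟨c1', c2', c3', ca', r1, r2, r3, ra, hk⟩ := ih (j + 1)
      (acc + F (cy f1 j) (cy f2 j) (cy f3 j) (cy fa j)) d1 d2 d3 da e1 e2 e3 ea
    have ej : j + (n + 1) = j + 1 + n := by ring
    rw [ej]
    refine ⟨c1', c2', c3', ca', r1, r2, r3, ra, ?_⟩
    intro k
    have e : runS F f1 f2 f3 fa (n + 1) acc c1 c2 c3 ca k = nxP f1 c1 fun x c1' =>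
      nxP f2 c2 fun y c2' => nxP f3 c3 fun z c3' => nxN fa ca fun a ca' =>
      strict (Nat.add acc (F x y z a)) fun acc' => runS F f1 f2 f3 fa n acc' c1' c2' c3' ca' k := rfl
    rw [e, q1, q2, q3, qa, strict_eq]
    have e4 : Nat.add acc (F (cy f1 j) (cy f2 j) (cy f3 j) (cy fa j)) =
      acc + F (cy f1 j) (cy f2 j) (cy f3 j) (cy fa j) := rfl
    rw [e4, hk k, Finset.sum_range_succ', add_assoc]
    congr 1
    rw [add_comm (∑ _ ∈ _, _)]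
    congr 1
    congr 1
    apply Finset.sum_congr rfl
    intro i _
    rw [show j + 1 + i = j + (i + 1) by ring]

/-- the two sums of a relation -/
def vwS (F : Tm) (x0 y0 z0 : List (ℕ × ℕ)) (w0 : List ℕ) (x1 y1 z1 : List (ℕ × ℕ)) (w1 : List ℕ)
    (be ml r : ℕ) (k : ℕ → ℕ → Bool) : Bool :=
  runS F x0 y0 z0 w0 ml (nat_lit 0) x0 y0 z0 w0 fun s c1 c2 c3 ca =>
  nxP x0 c1 fun x c1 => nxP y0 c2 fun y c2 => nxP z0 c3 fun z c3 => nxN w0 ca fun a ca =>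
  strict (Nat.add s (F x y z a)) fun s1 => strict (Nat.add s (F x y z (Nat.add a be))) fun v1 =>
  runS F x0 y0 z0 w0 r s1 c1 c2 c3 ca fun w _ _ _ _ =>
  runS F x1 y1 z1 w1 ml (nat_lit 0) x1 y1 z1 w1 fun s2 d1 d2 d3 da =>
  runS F x1 y1 z1 w1 (Nat.succ r) s2 d1 d2 d3 da fun w' _ _ _ _ =>
  strict (Nat.add v1 s2) fun V => strict (Nat.add w w') fun W => k V W

theorem vwS_spec (F : Tm) {x0 y0 z0 x1 y1 z1 : List (ℕ × ℕ)} {w0 w1 : List ℕ} (be ml r : ℕ)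
    (hx0 : x0 ≠ []) (hy0 : y0 ≠ []) (hz0 : z0 ≠ []) (hw0 : w0 ≠ [])
    (hx1 : x1 ≠ []) (hy1 : y1 ≠ []) (hz1 : z1 ≠ []) (hw1 : w1 ≠ []) (k : ℕ → ℕ → Bool) :
    vwS F x0 y0 z0 w0 x1 y1 z1 w1 be ml r k =
    k (∑ j ∈ range ml, F (cy x0 j) (cy y0 j) (cy z0 j) (cy w0 j) +
      F (cy x0 ml) (cy y0 ml) (cy z0 ml) (cy w0 ml + be) +
      ∑ j ∈ range ml, F (cy x1 j) (cy y1 j) (cy z1 j) (cy w1 j))
      (∑ j ∈ range (ml + 1 + r), F (cy x0 j) (cy y0 j) (cy z0 j) (cy w0 j) +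
      ∑ j ∈ range (ml + 1 + r), F (cy x1 j) (cy y1 j) (cy z1 j) (cy w1 j)) := by
  obtain ⟨a1, a2, a3, a4, b1, b2, b3, b4, h⟩ := runS_spec F hx0 hy0 hz0 hw0 ml 0 0 x0 y0 z0 w0
    (Cu_zero _) (Cu_zero _) (Cu_zero _) (Cu_zero _)
  obtain ⟨a1', b1', h1'⟩ := nxP_spec (β := Bool) hx0 b1
  obtain ⟨a2', b2', h2'⟩ := nxP_spec (β := Bool) hy0 b2
  obtain ⟨a3', b3', h3'⟩ := nxP_spec (β := Bool) hz0 b3
  obtain ⟨a4', b4', h4'⟩ := nxN_spec (β := Bool) hw0 b4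
  obtain ⟨e1, e2, e3, e4, f1, f2, f3, f4, h2⟩ := runS_spec F hx0 hy0 hz0 hw0 r (0 + ml + 1)
    (0 + ∑ i ∈ range ml, F (cy x0 (0 + i)) (cy y0 (0 + i)) (cy z0 (0 + i)) (cy w0 (0 + i)) +
      F (cy x0 (0 + ml)) (cy y0 (0 + ml)) (cy z0 (0 + ml)) (cy w0 (0 + ml)))
    a1' a2' a3' a4' b1' b2' b3' b4'
  obtain ⟨c1, c2, c3, c4, d1, d2, d3, d4, h3⟩ := runS_spec F hx1 hy1 hz1 hw1 ml 0 0 x1 y1 z1 w1
    (Cu_zero _) (Cu_zero _) (Cu_zero _) (Cu_zero _)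
  obtain ⟨g1, g2, g3, g4, i1, i2, i3, i4, h4⟩ := runS_spec F hx1 hy1 hz1 hw1 (r + 1) (0 + ml)
    (0 + ∑ i ∈ range ml, F (cy x1 (0 + i)) (cy y1 (0 + i)) (cy z1 (0 + i)) (cy w1 (0 + i)))
    c1 c2 c3 c4 d1 d2 d3 d4
  unfold vwS
  have hz : (nat_lit 0) = 0 := rfl
  rw [hz, h, h1', h2', h3', h4', strict_eq, strict_eq]
  simp only [Nat.add_eq, Nat.succ_eq_add_one]
  rw [h2, h3, h4, strict_eq, strict_eq]
  simp only [Nat.zero_add]
  have s1 : ∑ j ∈ range (ml + 1 + r), F (cy x0 j) (cy y0 j) (cy z0 j) (cy w0 j) =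
      ∑ j ∈ range ml, F (cy x0 j) (cy y0 j) (cy z0 j) (cy w0 j) +
      F (cy x0 ml) (cy y0 ml) (cy z0 ml) (cy w0 ml) +
      ∑ i ∈ range r, F (cy x0 (ml + 1 + i)) (cy y0 (ml + 1 + i)) (cy z0 (ml + 1 + i))
        (cy w0 (ml + 1 + i)) := by
    rw [Finset.sum_range_add, Finset.sum_range_succ]
  have s2 : ∑ j ∈ range (ml + 1 + r), F (cy x1 j) (cy y1 j) (cy z1 j) (cy w1 j) =
      ∑ j ∈ range ml, F (cy x1 j) (cy y1 j) (cy z1 j) (cy w1 j) +
      ∑ i ∈ range (r + 1), F (cy x1 (ml + i)) (cy y1 (ml + i)) (cy z1 (ml + i))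
        (cy w1 (ml + i)) := by
    rw [show ml + 1 + r = ml + (r + 1) by ring, Finset.sum_range_add]
  rw [s1, s2]

/-- the residues of `m` allowed by a relation -/
def mkM (l lam ml V W : ℕ) : ℕ :=
  strict (Nat.mod V l) fun v => strict (Nat.mod W l) fun w =>
  @Bool.rec (fun _ => ℕ)
    (Nat.pow (nat_lit 2) (Nat.mod (Nat.add ml (Nat.mul lam (Nat.mul (Nat.sub l v)
      (Nat.pow w (Nat.sub l (nat_lit 2)))))) l))
    (@Bool.rec (fun _ => ℕ) (nat_lit 0) (Nat.sub (Nat.pow (nat_lit 2) l) (nat_lit 1))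
      (Nat.beq v (nat_lit 0)))
    (Nat.beq w (nat_lit 0))

lemma mkM_spec {l : ℕ} (hl : l.Prime) {lam ml t V W : ℕ} (h : (V + t * W) % l = 0) :
    (mkM l lam ml V W).testBit ((lam * t + ml) % l) = true := by
  have : Fact l.Prime := ⟨hl⟩
  unfold mkM
  rw [strict_eq, strict_eq]
  have h0 : ((V + t * W : ℕ) : ZMod l) = 0 := (ZMod.natCast_eq_zero_iff _ _).2
    (Nat.dvd_of_mod_eq_zero h)
  push_cast at h0
  have hv : ((V % l : ℕ) : ZMod l) = V := ZMod.natCast_mod _ _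
  have hw : ((W % l : ℕ) : ZMod l) = W := ZMod.natCast_mod _ _
  have e1 : Nat.mod V l = V % l := rfl
  have e2 : Nat.mod W l = W % l := rfl
  rw [e1, e2]
  by_cases hW : W % l = 0
  · rw [hW]
    have hW' : (W : ZMod l) = 0 := by rw [← hw, hW, Nat.cast_zero]
    have hV' : V % l = 0 := by
      rw [hW', mul_zero, add_zero] at h0
      exact Nat.mod_eq_zero_of_dvd ((ZMod.natCast_eq_zero_iff _ _).1 h0)
    rw [hV']
    change (2 ^ l - 1).testBit _ = true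
    rw [Nat.testBit_two_pow_sub_one]
    simp [Nat.mod_lt _ hl.pos]
  · have hb : Nat.beq (W % l) 0 = false := by
      rw [Bool.eq_false_iff]
      intro hc
      exact hW (Nat.eq_of_beq_eq_true hc)
    have hb' : Nat.beq (W % l) (nat_lit 0) = false := hb
    rw [hb']
    change (2 ^ ((ml + lam * ((l - V % l) * (W % l) ^ (l - 2))) % l)).testBit _ = true
    have hW' : (W : ZMod l) ≠ 0 := by
      rw [← hw]
      intro hc
      rw [ZMod.natCast_eq_zero_iff] at hc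
      exact hW (Nat.eq_zero_of_dvd_of_lt hc (Nat.mod_lt _ hl.pos))
    have key : (ml + lam * ((l - V % l) * (W % l) ^ (l - 2))) % l = (lam * t + ml) % l := by
      rw [← Nat.ModEq, ← ZMod.natCast_eq_natCast_iff]
      push_cast [Nat.cast_sub (Nat.mod_lt V hl.pos).le]
      rw [hv, hw, ZMod.natCast_self, zero_sub]
      have hinv : (W : ZMod l) ^ (l - 2) = (W : ZMod l)⁻¹ := by
        have h1 := ZMod.pow_card_sub_one_eq_one hW'
        have h2 : (W : ZMod l) ^ (l - 2) * W = 1 := by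
          rw [← pow_succ, show l - 2 + 1 = l - 1 by have := hl.two_le; omega, h1]
        exact eq_inv_of_mul_eq_one_left h2
      have ht : (t : ZMod l) = -V * (W : ZMod l)⁻¹ := by
        field_simp
        linear_combination h0
      rw [hinv, ht]
      ring
    rw [key, Nat.testBit_two_pow_self]

/-- the step of a relation -/
def relM (l lam : ℕ) (F : Tm) (x0 y0 z0 : List (ℕ × ℕ)) (w0 : List ℕ) (x1 y1 z1 : List (ℕ × ℕ))
    (w1 : List ℕ) (be ml r M : ℕ) (e : Bool) (k : ℕ → Bool) : Bool :=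
  vwS F x0 y0 z0 w0 x1 y1 z1 w1 be ml r fun V W =>
  strict (Nat.land M (mkM l lam ml V W)) fun M' =>
  @Bool.rec (fun _ => Bool) (k M') e (Nat.beq M' (nat_lit 0))

lemma boolrec_or {a e x : Bool} (h : @Bool.rec (fun _ => Bool) a e x = true) :
    e = true ∨ a = true := by
  cases x
  · exact Or.inr h
  · exact Or.inl h

lemma relM_keep (l lam : ℕ) (F : Tm) {x0 y0 z0 : List (ℕ × ℕ)} {w0 : List ℕ}
    {x1 y1 z1 : List (ℕ × ℕ)} {w1 : List ℕ} (be ml r M : ℕ) {e : Bool} {k : ℕ → Bool}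
    (nx0 : x0 ≠ []) (ny0 : y0 ≠ []) (nz0 : z0 ≠ []) (nw0 : w0 ≠ [])
    (nx1' : x1 ≠ []) (ny1 : y1 ≠ []) (nz1 : z1 ≠ []) (nw1 : w1 ≠ [])
    (h : relM l lam F x0 y0 z0 w0 x1 y1 z1 w1 be ml r M e k = true) :
    e = true ∨ ∃ M', k M' = true := by
  unfold relM at h
  rw [vwS_spec F be ml r nx0 ny0 nz0 nw0 nx1' ny1 nz1 nw1, strict_eq] at h
  rcases boolrec_or h with h | h
  · exact Or.inl h
  · exact Or.inr ⟨_, h⟩

/-- digit of a packed table -/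
def dgL (B i : ℕ) : ℕ := Nat.land (Nat.shiftRight B (Nat.mul (nat_lit 8) i)) (nat_lit 255)

lemma dgL_eq (B i : ℕ) : dgL B i = dig B i := by
  change (B >>> (8 * i)) &&& (2 ^ 8 - 1) = (B >>> (8 * i)) % 256
  rw [Nat.and_two_pow_sub_one_eq_mod]

/-- the term of a table -/
def tB (t1 t2 t3 BX BY len2 len3 : ℕ) : Tm := fun x y z w =>
  strict (Nat.add (Nat.mul (Nat.add (Nat.mul x.2 len2) y.2) len3) z.2) fun i =>
    Nat.mul (Nat.mul (Nat.mul (dig t1 x.1) (dig t2 y.1)) (dig t3 z.1))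
      (Nat.add (Nat.mul (nat_lit 3) (dgL BX i)) (Nat.mul w (dgL BY i)))

lemma tB_eq (t1 t2 t3 BX BY len2 len3 : ℕ) (x y z : ℕ × ℕ) (w : ℕ) :
    tB t1 t2 t3 BX BY len2 len3 x y z w = vf t1 t2 t3
      (fun a b c => dig BX ((a * len2 + b) * len3 + c))
      (fun a b c => dig BY ((a * len2 + b) * len3 + c)) x y z w := by
  unfold tB vf
  rw [strict_eq, dgL_eq, dgL_eq]
  rfl

lemma land_step {M N i : ℕ} (h1 : M.testBit i = true) (h2 : N.testBit i = true) {e : Bool}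
    {k : ℕ → Bool} (hk : @Bool.rec (fun _ => Bool) (k (Nat.land M N)) e
      (Nat.beq (Nat.land M N) (nat_lit 0)) = true) :
    ∃ M', M'.testBit i = true ∧ k M' = true := by
  have h3 : (Nat.land M N).testBit i = true := by
    change (M &&& N).testBit i = true
    rw [Nat.testBit_land, h1, h2]; rfl
  refine ⟨Nat.land M N, h3, ?_⟩
  have hb : Nat.beq (Nat.land M N) (nat_lit 0) = false := by
    rw [Bool.eq_false_iff]
    intro hc
    have hc' : Nat.land M N = 0 := Nat.eq_of_beq_eq_true hc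
    rw [hc', Nat.zero_testBit] at h3
    cases h3
  rw [hb] at hk
  exact hk

variable {n1 n2 n3 : ℕ} {ps1 ps2 ps3 : ℕ → ℕ → ℕ → ℕ}

/-- **one relation** -/
theorem relM_spec {L : ℕ} (hL : L.Prime) {t1 t2 t3 : ℕ} {X Y : ℕ → ℕ → ℕ → ℕ} {l u p q b : ℤ}
    {m : ℕ} (h : HV n1 n2 n3 L ps1 ps2 ps3 t1 t2 t3 X Y (J1 l u p q b m)) {lam ml t r : ℕ}
    (hm : m = lam * t + ml) (hml : lam = ml + 1 + r) {F : Tm}
    (hF : ∀ x y z w, F x y z w = vf t1 t2 t3 X Y x y z w)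
    {x0 y0 z0 x1 y1 z1 : List (ℕ × ℕ)} {w0 w1 : List ℕ} {be : ℕ}
    (hx0 : ∀ j ≤ m, cy x0 j = cp n1 ps1 (eN l p q b m j))
    (hy0 : ∀ j ≤ m, cy y0 j = cp n2 ps2 (eN l p q b m j))
    (hz0 : ∀ j ≤ m, cy z0 j = cp n3 ps3 (eN l p q b m j))
    (hx1 : ∀ j < m, cy x1 j = cp n1 ps1 (eM u p q b m j))
    (hy1 : ∀ j < m, cy y1 j = cp n2 ps2 (eM u p q b m j))
    (hz1 : ∀ j < m, cy z1 j = cp n3 ps3 (eM u p q b m j))
    (hw0 : ∀ j, cy w0 j = rs L (-(l * q * p ^ j))) (hw1 : ∀ j, cy w1 j = rs L (-(u * q * p ^ j)))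
    (hbe : be = rs L (-(l * b)))
    (nx0 : x0 ≠ []) (ny0 : y0 ≠ []) (nz0 : z0 ≠ []) (nw0 : w0 ≠ [])
    (nx1' : x1 ≠ []) (ny1 : y1 ≠ []) (nz1 : z1 ≠ []) (nw1 : w1 ≠ [])
    (dx0 : x0.length ∣ lam) (dy0 : y0.length ∣ lam) (dz0 : z0.length ∣ lam)
    (dx1 : x1.length ∣ lam) (dy1 : y1.length ∣ lam) (dz1 : z1.length ∣ lam)
    (dw0 : w0.length ∣ lam) (dw1 : w1.length ∣ lam) {M : ℕ} (hM : M.testBit (m % L) = true)
    {e : Bool} {k : ℕ → Bool}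
    (hk : relM L lam F x0 y0 z0 w0 x1 y1 z1 w1 be ml r M e k = true) :
    ∃ M', M'.testBit (m % L) = true ∧ k M' = true := by
  have : NeZero L := ⟨hL.ne_zero⟩
  have h1 := HV_per h hm (by omega) hx0 hy0 hz0 hx1 hy1 hz1 hw0 hw1 hbe dx0 dy0 dz0 dx1 dy1 dz1
    dw0 dw1
  unfold relM at hk
  rw [vwS_spec F be ml r nx0 ny0 nz0 nw0 nx1' ny1 nz1 nw1, strict_eq] at hk
  simp only [hF] at hk
  rw [← hml] at hk
  have h2 := mkM_spec hL (lam := lam) (ml := ml) h1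
  rw [← hm] at h2
  exact land_step hM h2 hk

end Pool.Agent.OEG.W
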