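import Pool.Agent.OEG.WB

/-!
Project OEG, elimination for the first family: the classes of the parameters modulo a prime.
-/

set_option autoImplicit false

namespace Pool.Agent.OEG.W

open Pool.Agent.LibH4 Pool.Agent.LibH4.Ker
open Pool.Agent.Lib_helper5 Pool.Agent.Lib_helper5.LK Pool.Agent.Lib_helper5.TB
open Pool.Agent.LibH4.S7 (Rl)
open Pool.Agent.PSX.Ev (cp uncP uncN)
open Finset (range)

/-! ### loops -/

/-- loop over the numbers below `n`, with an accumulator -/
def foldC {α : Type} (step : ℕ → α → (α → Bool) → Bool) (n : ℕ) : α → (α → Bool) → Bool :=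
  @Nat.rec (fun _ => α → (α → Bool) → Bool) (fun a k => k a)
    (fun f ih a k => step f a fun a' => ih a' k) n

/-- loop over a list, with an accumulator -/
def foldL {α β : Type} (step : β → α → (α → Bool) → Bool) (L : List β) : α → (α → Bool) → Bool :=
  @List.rec β (fun _ => α → (α → Bool) → Bool) (fun a k => k a)
    (fun x _ ih a k => step x a fun a' => ih a' k) L

/-- transition of a step -/
def Tr {α : Type} (s : α → (α → Bool) → Bool) (P Q : α → Prop) : Prop :=
  ∀ a k, P a → s a k = true → ∃ a', Q a' ∧ k a' = true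

lemma foldC_keep {α : Type} {step : ℕ → α → (α → Bool) → Bool} {P : α → Prop} (n : ℕ)
    (h : ∀ f, Tr (step f) P P) : Tr (foldC step n) P P := by
  induction n with
  | zero => intro a k ha hk; exact ⟨a, ha, hk⟩
  | succ n ih =>
    intro a k ha hk
    have e : foldC step (n + 1) a k = step n a fun a' => foldC step n a' k := rfl
    rw [e] at hk
    obtain ⟨a', h1, h2⟩ := h n a _ ha hk
    exact ih a' k h1 h2

lemma foldC_hit {α : Type} {step : ℕ → α → (α → Bool) → Bool} {P Q : α → Prop} {n f0 : ℕ}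
    (hf : f0 < n) (h1 : ∀ f, Tr (step f) P P) (h2 : ∀ f, Tr (step f) Q Q)
    (h3 : Tr (step f0) P Q) : Tr (foldC step n) P Q := by
  induction n with
  | zero => omega
  | succ n ih =>
    intro a k ha hk
    have e : foldC step (n + 1) a k = step n a fun a' => foldC step n a' k := rfl
    rw [e] at hk
    by_cases hn : f0 = n
    · subst hn
      obtain ⟨a', g1, g2⟩ := h3 a _ ha hk
      exact foldC_keep f0 h2 a' k g1 g2
    · obtain ⟨a', g1, g2⟩ := h1 n a _ ha hk
      exact ih (by omega) a' k g1 g2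

lemma foldL_keep {α β : Type} {step : β → α → (α → Bool) → Bool} {P : α → Prop} (L : List β)
    (h : ∀ x ∈ L, Tr (step x) P P) : Tr (foldL step L) P P := by
  induction L with
  | nil => intro a k ha hk; exact ⟨a, ha, hk⟩
  | cons x L ih =>
    intro a k ha hk
    have e : foldL step (x :: L) a k = step x a fun a' => foldL step L a' k := rfl
    rw [e] at hk
    obtain ⟨a', h1, h2⟩ := h x (by simp) a _ ha hk
    exact ih (fun y hy => h y (by simp [hy])) a' k h1 h2

lemma foldL_hit {α β : Type} {step : β → α → (α → Bool) → Bool} {P Q : α → Prop} {L : List β}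
    {x0 : β} (hx : x0 ∈ L) (h1 : ∀ x ∈ L, Tr (step x) P P) (h2 : ∀ x ∈ L, Tr (step x) Q Q)
    (h3 : Tr (step x0) P Q) : Tr (foldL step L) P Q := by
  induction L with
  | nil => cases hx
  | cons x L ih =>
    intro a k ha hk
    have e : foldL step (x :: L) a k = step x a fun a' => foldL step L a' k := rfl
    rw [e] at hk
    by_cases hn : x0 = x
    · subst hn
      obtain ⟨a', g1, g2⟩ := h3 a _ ha hk
      exact foldL_keep L (fun y hy => h2 y (by simp [hy])) a' k g1 g2
    · have hx' : x0 ∈ L := by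
        rcases List.mem_cons.1 hx with h | h
        · exact absurd h hn
        · exact h
      obtain ⟨a', g1, g2⟩ := h1 x (by simp) a _ ha hk
      exact ih hx' (fun y hy => h1 y (by simp [hy])) (fun y hy => h2 y (by simp [hy])) a' k g1 g2

/-- all elements -/
def allL {β : Type} (f : β → Bool) (L : List β) : Bool :=
  @List.rec β (fun _ => Bool) true (fun x _ ih => @Bool.rec (fun _ => Bool) false ih (f x)) L

lemma allL_spec {β : Type} {f : β → Bool} {L : List β} (h : allL f L = true) :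
    ∀ x ∈ L, f x = true := by
  induction L with
  | nil => intro x hx; cases hx
  | cons y L ih =>
    have e : allL f (y :: L) = @Bool.rec (fun _ => Bool) false (allL f L) (f y) := rfl
    rw [e] at h
    obtain ⟨h1, h2⟩ := boolrec_spec h
    intro x hx
    rcases List.mem_cons.1 hx with rfl | hx
    · exact h1
    · exact ih h2 x hx

/-! ### orbits -/

/-- positions of the forms of an orbit -/
def orb (n : ℕ) (ps : ℕ → ℕ → ℕ → ℕ) (R p ip f : ℕ) :
    ℕ → ℕ → List (ℕ × ℕ) → (List (ℕ × ℕ) → Bool) → Bool :=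
  @Nat.rec (fun _ => ℕ → ℕ → List (ℕ × ℕ) → (List (ℕ × ℕ) → Bool) → Bool)
    (fun _ _ acc k => k acc)
    (fun _ ih P S acc k => strict (ps P R S) fun t => strict (Nat.mod (Nat.mul P ip) n) fun P' =>
      strict (Nat.mod (Nat.mul S p) n) fun S' => ih P' S' ((P, t) :: acc) k) f

lemma orb_eq {n : ℕ} {ps : ℕ → ℕ → ℕ → ℕ} {R p ip : ℕ} {gP gS : ℕ → ℕ} {o : ℕ}
    (hP : ∀ j, j + 1 < o → gP (j + 1) * ip % n = gP j)
    (hS : ∀ j, j + 1 < o → gS (j + 1) * p % n = gS j) (f : ℕ) (hf : f ≤ o) (P S : ℕ)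
    (h : 0 < f → P = gP (f - 1) ∧ S = gS (f - 1)) (acc : List (ℕ × ℕ))
    (k : List (ℕ × ℕ) → Bool) : orb n ps R p ip f P S acc k =
      k ((List.range f).map (fun j => (gP j, ps (gP j) R (gS j))) ++ acc) := by
  induction f generalizing P S acc with
  | zero => rfl
  | succ f ih =>
    obtain ⟨h1, h2⟩ := h (by omega)
    rw [Nat.add_sub_cancel] at h1 h2
    have e : orb n ps R p ip (f + 1) P S acc k = strict (ps P R S) fun t =>
      strict (P * ip % n) fun P' => strict (S * p % n) fun S' =>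
      orb n ps R p ip f P' S' ((P, t) :: acc) k := rfl
    rw [e, strict_eq, strict_eq, strict_eq, ih (by omega)]
    · rw [List.range_succ, List.map_append, List.append_assoc, h1, h2]
      rfl
    · intro hf0
      obtain ⟨g, rfl⟩ : ∃ g, f = g + 1 := ⟨f - 1, by omega⟩
      rw [h1, h2, Nat.add_sub_cancel]
      exact ⟨hP g (by omega), hS g (by omega)⟩

/-- a list of multiplicities -/
def alO (n ip f : ℕ) : ℕ → List ℕ → (List ℕ → Bool) → Bool :=
  @Nat.rec (fun _ => ℕ → List ℕ → (List ℕ → Bool) → Bool) (fun _ acc k => k acc)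
    (fun _ ih V acc k => strict (Nat.mod (Nat.mul V ip) n) fun V' => ih V' (V :: acc) k) f

lemma alO_eq {n ip : ℕ} {g : ℕ → ℕ} {o : ℕ}
    (hg : ∀ j, j + 1 < o → g (j + 1) * ip % n = g j) (f : ℕ) (hf : f ≤ o) (V : ℕ)
    (h : 0 < f → V = g (f - 1)) (acc : List ℕ) (k : List ℕ → Bool) :
    alO n ip f V acc k = k ((List.range f).map g ++ acc) := by
  induction f generalizing V acc with
  | zero => rfl
  | succ f ih =>
    have h1 := h (by omega)
    rw [Nat.add_sub_cancel] at h1
    have e : alO n ip (f + 1) V acc k = strict (V * ip % n) fun V' =>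
      alO n ip f V' (V :: acc) k := rfl
    rw [e, strict_eq, ih (by omega)]
    · rw [List.range_succ, List.map_append, List.append_assoc, h1]
      rfl
    · intro hf0
      obtain ⟨g', rfl⟩ : ∃ g', f = g' + 1 := ⟨f - 1, by omega⟩
      rw [h1, Nat.add_sub_cancel]
      exact hg g' (by omega)

lemma boolrec_or' {e a x : Bool} (h : @Bool.rec (fun _ => Bool) e a x = true) :
    e = true ∨ a = true := by
  cases x
  · exact Or.inl h
  · exact Or.inr h

/-! ### records -/

/-- the data of a class -/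
structure Rc where
  /-- `p` -/
  P : ℕ
  /-- `q` -/
  Q : ℕ
  /-- `b` -/
  B : ℕ
  /-- edges `N` -/
  c0 : List (ℕ × ℕ)
  /-- edges `N'` -/
  c1 : List (ℕ × ℕ)
  /-- letters -/
  a0 : List ℕ
  /-- letters -/
  a1 : List ℕ
  /-- correction -/
  be : ℕ

/-- the record of the class of the parameters -/
structure RcOK (n : ℕ) (ps : ℕ → ℕ → ℕ → ℕ) (l u p q b : ℤ) (m : ℕ) (r : Rc) : Prop where
  P : r.P = rs n p
  Q : r.Q = rs n q
  B : r.B = rs n b
  c0 : ∀ j ≤ m, cy r.c0 j = cp n ps (eN l p q b m j)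
  c1 : ∀ j < m, cy r.c1 j = cp n ps (eM u p q b m j)
  a0 : ∀ j, cy r.a0 j = rs n (-(l * q * p ^ j))
  a1 : ∀ j, cy r.a1 j = rs n (-(u * q * p ^ j))
  be : r.be = rs n (-(l * b))

/-- lengths of a record -/
structure RcL (o : ℕ) (r : Rc) : Prop where
  c0 : r.c0.length = o
  c1 : r.c1.length = o
  a0 : r.a0.length = o
  a1 : r.a1.length = o

/-- sign as a residue -/
def sr (s : Bool) (n : ℕ) : ℕ := @Bool.rec (fun _ => ℕ) (Nat.sub n (nat_lit 1)) (nat_lit 1) s

/-- sign as an integer -/
def sz (s : Bool) : ℤ := cond s 1 (-1)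

lemma sr_eq {n : ℕ} [NeZero n] (hn : 1 < n) (s : Bool) : sr s n = rs n (sz s) := by
  cases s
  · change Nat.sub n (nat_lit 1) = rs n (-1)
    exact K5.rs_neg_one
  · change 1 = rs n 1
    exact K5.rs_one hn

lemma sz_not (s : Bool) : sz (!s) = -sz s := by cases s <;> rfl

/-- build a record -/
def recK (n o : ℕ) (ps : ℕ → ℕ → ℕ → ℕ) (bl bu : Bool) (mo P Q B : ℕ) (ck : ℕ → Bool) (e : Bool)
    (k : Rc → Bool) : Bool :=
  strict (Nat.mod (Nat.pow P mo) n) fun X =>
  strict (Nat.mod (Nat.add (Nat.mul Q X) B) n) fun N =>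
  strict (Nat.mod (Nat.add (Nat.mul N N) (Nat.mul (nat_lit 4) (Nat.mul (sr bl n) X))) n) fun D =>
  @Bool.rec (fun _ => Bool) e
    (strict (Nat.mod (Nat.add (Nat.mul Q X) (Nat.sub n B)) n) fun N1 =>
     strict (Nat.mod (Nat.pow P (Nat.sub o (nat_lit 1))) n) fun ip =>
     strict (Nat.mod (Nat.mul (sr (!bl) n) (Nat.mul X P)) n) fun S0 =>
     strict (Nat.mod (Nat.mul (sr (!bu) n) (Nat.mul X P)) n) fun S1 =>
     orb n ps N P ip o ip S0 [] fun c0 => orb n ps N1 P ip o (nat_lit 1) S1 [] fun c1 =>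
     strict (Nat.mod (Nat.mul (sr (!bl) n) (Nat.mul Q ip)) n) fun v0 =>
     strict (Nat.mod (Nat.mul (sr (!bu) n) (Nat.mul Q ip)) n) fun v1 =>
     alO n ip o v0 [] fun a0 => alO n ip o v1 [] fun a1 =>
     strict (Nat.mod (Nat.mul (sr (!bl) n) B) n) fun be =>
     k ⟨P, Q, B, c0, c1, a0, a1, be⟩)
    (ck D)

lemma orb_len (n : ℕ) (ps : ℕ → ℕ → ℕ → ℕ) (R p ip f : ℕ) : ∀ (P S : ℕ) (acc : List (ℕ × ℕ)),
    ∃ c, c.length = f + acc.length ∧ ∀ k, orb n ps R p ip f P S acc k = k c := by
  induction f with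
  | zero => intro P S acc; exact ⟨acc, by omega, fun k => rfl⟩
  | succ f ih =>
    intro P S acc
    obtain ⟨c, h1, h2⟩ := ih (P * ip % n) (S * p % n) ((P, ps P R S) :: acc)
    refine ⟨c, by rw [h1, List.length_cons]; omega, fun k => ?_⟩
    have e : orb n ps R p ip (f + 1) P S acc k = strict (ps P R S) fun t =>
      strict (P * ip % n) fun P' => strict (S * p % n) fun S' =>
      orb n ps R p ip f P' S' ((P, t) :: acc) k := rfl
    rw [e, strict_eq, strict_eq, strict_eq, h2]

lemma alO_len (n ip f : ℕ) : ∀ (V : ℕ) (acc : List ℕ),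
    ∃ c, c.length = f + acc.length ∧ ∀ k, alO n ip f V acc k = k c := by
  induction f with
  | zero => intro V acc; exact ⟨acc, by omega, fun k => rfl⟩
  | succ f ih =>
    intro V acc
    obtain ⟨c, h1, h2⟩ := ih (V * ip % n) (V :: acc)
    refine ⟨c, by rw [h1, List.length_cons]; omega, fun k => ?_⟩
    have e : alO n ip (f + 1) V acc k = strict (V * ip % n) fun V' =>
      alO n ip f V' (V :: acc) k := rfl
    rw [e, strict_eq, h2]

lemma recK_keep {n o : ℕ} {ps : ℕ → ℕ → ℕ → ℕ} {bl bu : Bool} {mo P Q B : ℕ} {ck : ℕ → Bool}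
    {e : Bool} {k : Rc → Bool} (h : recK n o ps bl bu mo P Q B ck e k = true) :
    e = true ∨ ∃ r, RcL o r ∧ k r = true := by
  unfold recK at h
  simp only [strict_eq] at h
  rcases boolrec_or' h with h | h
  · exact Or.inl h
  · right
    obtain ⟨c0, l0, h0⟩ := orb_len n ps (Nat.mod (Nat.add (Nat.mul Q (Nat.mod (Nat.pow P mo) n)) B) n)
      P (Nat.mod (Nat.pow P (Nat.sub o (nat_lit 1))) n) o
      (Nat.mod (Nat.pow P (Nat.sub o (nat_lit 1))) n)
      (Nat.mod (Nat.mul (sr (!bl) n) (Nat.mul (Nat.mod (Nat.pow P mo) n) P)) n) []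
    obtain ⟨c1, l1, h1⟩ := orb_len n ps (Nat.mod (Nat.add (Nat.mul Q (Nat.mod (Nat.pow P mo) n))
      (Nat.sub n B)) n) P (Nat.mod (Nat.pow P (Nat.sub o (nat_lit 1))) n) o (nat_lit 1)
      (Nat.mod (Nat.mul (sr (!bu) n) (Nat.mul (Nat.mod (Nat.pow P mo) n) P)) n) []
    obtain ⟨a0, l2, h2⟩ := alO_len n (Nat.mod (Nat.pow P (Nat.sub o (nat_lit 1))) n) o
      (Nat.mod (Nat.mul (sr (!bl) n) (Nat.mul Q (Nat.mod (Nat.pow P (Nat.sub o (nat_lit 1))) n))) n)
      []
    obtain ⟨a1, l3, h3⟩ := alO_len n (Nat.mod (Nat.pow P (Nat.sub o (nat_lit 1))) n) o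
      (Nat.mod (Nat.mul (sr (!bu) n) (Nat.mul Q (Nat.mod (Nat.pow P (Nat.sub o (nat_lit 1))) n))) n)
      []
    rw [h0, h1, h2, h3] at h
    exact ⟨_, ⟨l0, l1, l2, l3⟩, h⟩

lemma cy_map_range {α : Type} [Inhabited α] (o : ℕ) (ho : 0 < o) (f : ℕ → α) (j : ℕ) :
    cy ((List.range o).map f) j = f (j % o) := by
  unfold cy
  rw [List.length_map, List.length_range, List.getD_eq_getElem _ _ (by
    rw [List.length_map, List.length_range]; exact Nat.mod_lt _ ho), List.getElem_map,
    List.getElem_range]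

section Fermat

variable {n : ℕ} [Fact n.Prime] {p : ℤ} (hp : ¬(n : ℤ) ∣ p)

include hp

lemma pz_ne : (p : ZMod n) ≠ 0 := by
  intro h
  exact hp ((ZMod.intCast_zmod_eq_zero_iff_dvd p n).1 h)

lemma pw_mod (a : ℕ) : (p : ZMod n) ^ (a % (n - 1)) = (p : ZMod n) ^ a := by
  have h := ZMod.pow_card_sub_one_eq_one (pz_ne hp)
  conv_rhs => rw [← Nat.div_add_mod a (n - 1), pow_add, pow_mul, h, one_pow, one_mul]

lemma pw_congr {a b : ℕ} (h : a % (n - 1) = b % (n - 1)) : (p : ZMod n) ^ a = (p : ZMod n) ^ b := by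
  rw [← pw_mod hp a, h, pw_mod hp]

end Fermat

lemma recK_hit {n : ℕ} (hn : n.Prime) (hn2 : 2 < n) {ps : ℕ → ℕ → ℕ → ℕ} {bl bu : Bool}
    {p q b : ℤ} {m : ℕ} (hp : ¬(n : ℤ) ∣ p) {ck : ℕ → Bool}
    (hck : ck (rs n ((q * p ^ m + b) ^ 2 + 4 * sz bl * p ^ m)) = true) {e : Bool}
    {k : Rc → Bool}
    (h : recK n (n - 1) ps bl bu (m % (n - 1)) (rs n p) (rs n q) (rs n b) ck e k = true) :
    ∃ r, RcOK n ps (sz bl) (sz bu) p q b m r ∧ RcL (n - 1) r ∧ k r = true := by
  have : Fact n.Prime := ⟨hn⟩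
  have : NeZero n := ⟨hn.ne_zero⟩
  have h1n := hn.one_lt
  have ho : 0 < n - 1 := by omega
  have sl : sr bl n = rs n (sz bl) := sr_eq h1n bl
  have snl : sr (!bl) n = rs n (-sz bl) := by rw [sr_eq h1n, sz_not]
  have snu : sr (!bu) n = rs n (-sz bu) := by rw [sr_eq h1n, sz_not]
  have eX : Nat.mod (Nat.pow (rs n p) (m % (n - 1))) n = rs n (p ^ m) := by
    change (rs n p ^ (m % (n - 1))) % n = _
    apply rs_of
    push_cast
    rw [rs_cast, pw_mod hp]
  have eN' : Nat.mod (Nat.add (Nat.mul (rs n q) (rs n (p ^ m))) (rs n b)) n =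
      rs n (q * p ^ m + b) := by
    change (rs n q * rs n (p ^ m) + rs n b) % n = _
    apply rs_of; push_cast; simp only [rs_cast]; push_cast; ring
  have eD : Nat.mod (Nat.add (Nat.mul (rs n (q * p ^ m + b)) (rs n (q * p ^ m + b)))
      (Nat.mul (nat_lit 4) (Nat.mul (sr bl n) (rs n (p ^ m))))) n =
      rs n ((q * p ^ m + b) ^ 2 + 4 * sz bl * p ^ m) := by
    rw [sl]
    change (rs n _ * rs n _ + 4 * (rs n _ * rs n _)) % n = _
    apply rs_of; push_cast; simp only [rs_cast]; push_cast; ring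
  have eN1 : Nat.mod (Nat.add (Nat.mul (rs n q) (rs n (p ^ m))) (Nat.sub n (rs n b))) n =
      rs n (q * p ^ m - b) := by
    change (rs n q * rs n (p ^ m) + (n - rs n b)) % n = _
    apply rs_of
    rw [Nat.cast_add, Nat.cast_sub (rs_lt b).le, Nat.cast_mul]
    simp only [rs_cast, ZMod.natCast_self]; push_cast; ring
  have eip : Nat.mod (Nat.pow (rs n p) (Nat.sub (n - 1) (nat_lit 1))) n = rs n (p ^ (n - 1 - 1)) := by
    change (rs n p ^ (n - 1 - 1)) % n = _
    apply rs_of; push_cast; rw [rs_cast]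
  have eS : ∀ s : ℤ, Nat.mod (Nat.mul (rs n s) (Nat.mul (rs n (p ^ m)) (rs n p))) n =
      rs n (s * p ^ (m + 1)) := by
    intro s
    change (rs n s * (rs n (p ^ m) * rs n p)) % n = _
    apply rs_of; push_cast; simp only [rs_cast]; push_cast; ring
  have ev : ∀ s : ℤ, Nat.mod (Nat.mul (rs n s) (Nat.mul (rs n q) (rs n (p ^ (n - 1 - 1))))) n =
      rs n (s * q * p ^ (n - 1 - 1)) := by
    intro s
    change (rs n s * (rs n q * rs n _)) % n = _
    apply rs_of; push_cast; simp only [rs_cast]; push_cast; ring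
  have eb : Nat.mod (Nat.mul (sr (!bl) n) (rs n b)) n = rs n (-(sz bl * b)) := by
    rw [snl]
    change (rs n _ * rs n b) % n = _
    apply rs_of; push_cast; simp only [rs_cast]; push_cast; ring
  have hpc : (p : ZMod n) ^ (n - 1) = 1 := ZMod.pow_card_sub_one_eq_one (pz_ne hp)
  have hpp : (p : ZMod n) * (p : ZMod n) ^ (n - 1 - 1) = 1 := by
    rw [← pow_succ', show n - 1 - 1 + 1 = n - 1 by omega, hpc]
  unfold recK at h
  simp only [strict_eq] at h
  rw [eX, eN', eD, hck] at h
  replace h : _ = true := h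
  simp only [] at h
  rw [eN1, eip, snl, snu, eS, eS, ev, ev] at h
  rw [orb_eq (gP := fun j => rs n (p ^ j))
    (gS := fun j => rs n (-sz bl * p ^ (m + (n - 1 - j)))) (o := n - 1)
    (by
      intro j hj
      apply rs_of
      push_cast
      simp only [rs_cast]
      push_cast
      rw [pow_succ, mul_assoc, hpp, mul_one])
    (by
      intro j hj
      apply rs_of
      push_cast
      simp only [rs_cast]
      push_cast
      rw [show m + (n - 1 - j) = m + (n - 1 - (j + 1)) + 1 by omega, pow_succ]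
      ring) (n - 1) le_rfl _ _
    (by
      intro _
      refine ⟨rfl, ?_⟩
      skip
      rw [show n - 1 - (n - 1 - 1) = 1 by omega])] at h
  rw [orb_eq (gP := fun j => rs n (p ^ (j + 1)))
    (gS := fun j => rs n (-sz bu * p ^ (m + (n - 1 - j)))) (o := n - 1)
    (by
      intro j hj
      apply rs_of
      push_cast
      simp only [rs_cast]
      push_cast
      rw [pow_succ _ (j + 1), mul_assoc, hpp, mul_one])
    (by
      intro j hj
      apply rs_of
      push_cast
      simp only [rs_cast]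
      push_cast
      rw [show m + (n - 1 - j) = m + (n - 1 - (j + 1)) + 1 by omega, pow_succ]
      ring) (n - 1) le_rfl _ _
    (by
      intro _
      constructor
      · skip
        rw [show n - 1 - 1 + 1 = n - 1 by omega]
        have : (1 : ℕ) % n = rs n (p ^ (n - 1)) := by
          apply rs_of
          push_cast
          rw [hpc]
        rw [Nat.mod_eq_of_lt h1n] at this
        exact this
      · skip
        rw [show n - 1 - (n - 1 - 1) = 1 by omega])] at h
  rw [alO_eq (g := fun j => rs n (-(sz bl * q * p ^ j))) (o := n - 1)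
    (by
      intro j hj
      apply rs_of
      push_cast
      simp only [rs_cast]
      push_cast
      linear_combination (-((sz bl : ℤ) : ZMod n) * q * (p : ZMod n) ^ j) * hpp)
    (n - 1) le_rfl _ (by intro _; congr 1; ring)] at h
  rw [alO_eq (g := fun j => rs n (-(sz bu * q * p ^ j))) (o := n - 1)
    (by
      intro j hj
      apply rs_of
      push_cast
      simp only [rs_cast]
      push_cast
      linear_combination (-((sz bu : ℤ) : ZMod n) * q * (p : ZMod n) ^ j) * hpp)
    (n - 1) le_rfl _ (by intro _; congr 1; ring)] at h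
  rw [← snl, eb] at h
  have rc : ∀ {x y : ℤ}, (x : ZMod n) = y → rs n x = rs n y := by
    intro x y hxy
    unfold rs
    rw [hxy]
  refine ⟨_, ⟨rfl, rfl, rfl, ?_, ?_, ?_, ?_, rfl⟩, ⟨by simp, by simp, by simp, by simp⟩, h⟩
  · intro j hj
    simp only [List.append_nil]
    rw [cy_map_range _ ho]
    unfold cp eN
    simp only []
    have e1 : rs n (p ^ (j % (n - 1))) = rs n (p ^ j) := rc (by push_cast; exact pw_mod hp j)
    have e2 : rs n (-sz bl * p ^ (m + (n - 1 - j % (n - 1)))) = rs n (-(sz bl * p ^ (m - j))) := by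
      apply rc
      push_cast
      rw [pw_congr hp (a := m + (n - 1 - j % (n - 1))) (b := m - j)]
      · ring
      · obtain ⟨i, hi⟩ : ∃ i, m = j + i := ⟨m - j, by omega⟩
        have hj1 : j % (n - 1) < n - 1 := Nat.mod_lt _ ho
        have hdm := Nat.div_add_mod j (n - 1)
        have e5 : m + (n - 1 - j % (n - 1)) = i + (n - 1) * (j / (n - 1) + 1) := by
          rw [hi, mul_add, mul_one]
          omega
        rw [e5, Nat.add_mul_mod_self_left]
        congr 1
        omega
    rw [e1, e2]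
  · intro j hj
    simp only [List.append_nil]
    rw [cy_map_range _ ho]
    unfold cp eM
    simp only []
    have e1 : rs n (p ^ (j % (n - 1) + 1)) = rs n (p ^ (j + 1)) := by
      apply rc
      push_cast
      rw [pow_succ, pow_succ, pw_mod hp j]
    have e2 : rs n (-sz bu * p ^ (m + (n - 1 - j % (n - 1)))) = rs n (-(sz bu * p ^ (m - j))) := by
      apply rc
      push_cast
      rw [pw_congr hp (a := m + (n - 1 - j % (n - 1))) (b := m - j)]
      · ring
      · obtain ⟨i, hi⟩ : ∃ i, m = j + i := ⟨m - j, by omega⟩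
        have hj1 : j % (n - 1) < n - 1 := Nat.mod_lt _ ho
        have hdm := Nat.div_add_mod j (n - 1)
        have e5 : m + (n - 1 - j % (n - 1)) = i + (n - 1) * (j / (n - 1) + 1) := by
          rw [hi, mul_add, mul_one]
          omega
        rw [e5, Nat.add_mul_mod_self_left]
        congr 1
        omega
    rw [e1, e2]
  · intro j
    simp only [List.append_nil]
    rw [cy_map_range _ ho]
    apply rc
    push_cast
    rw [pw_mod hp]
  · intro j
    simp only [List.append_nil]
    rw [cy_map_range _ ho]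
    apply rc
    push_cast
    rw [pw_mod hp]

end Pool.Agent.OEG.W
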