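import Pool.Agent.OEG.WC

/-!
Project OEG, elimination for the first family: inner products by one multiplication.
-/

set_option autoImplicit false

namespace Pool.Agent.OEG.W

open Pool.Agent.LibH4 Pool.Agent.LibH4.Ker
open Pool.Agent.Lib_helper5 Pool.Agent.Lib_helper5.LK Pool.Agent.Lib_helper5.TB
open Pool.Agent.LibH4.S7 (Rl)
open Pool.Agent.PSX.Ev (cp uncP uncN)
open Finset (range)

lemma packL_congr' {α : Type} (V : ℕ) {f g : α → ℕ} {L : List α} (h : ∀ x ∈ L, f x = g x) :
    packL V f L = packL V g L := by
  induction L with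
  | nil => rfl
  | cons x xs ih =>
    rw [packL_cons, packL_cons, h x (by simp), ih (fun y hy => h y (by simp [hy]))]

/-- the digits of a number -/
lemma packL_digits (V : ℕ) (hV : 0 < V) (K : ℕ) : ∀ N : ℕ,
    packL V (fun k => N / V ^ k % V) (List.range K) = N % V ^ K := by
  induction K with
  | zero => intro N; simp [packL, Nat.mod_one]
  | succ K ih =>
    intro N
    rw [List.range_succ, packL_append, ih, List.length_range, packL_cons, packL_nil, mul_zero,
      add_zero, pow_succ, Nat.mod_mul]

lemma rp_digits (V : ℕ) (hV : 0 < V) (K : ℕ) : ∀ N : ℕ,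
    rp V (fun k => N / V ^ (K - 1 - k) % V) (List.range K) = N % V ^ K := by
  induction K with
  | zero => intro N; simp [rp, Nat.mod_one]
  | succ K ih =>
    intro N
    rw [List.range_succ, rp_append, rp_cons]
    have h1 : rp V (fun k => N / V ^ (K + 1 - 1 - k) % V) (List.range K) = (N / V) % V ^ K := by
      rw [← ih (N / V)]
      apply rp_congr
      intro k hk
      have hk' := List.mem_range.1 hk
      rw [Nat.div_div_eq_div_mul, show K + 1 - 1 - k = (K - 1 - k) + 1 by omega, pow_succ']
    rw [h1]
    simp only [List.length_cons, List.length_nil, Nat.zero_add, pow_one, Nat.add_sub_cancel,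
      Nat.sub_self, pow_zero, Nat.div_one, rp]
    rw [pow_succ', Nat.mod_mul]
    ring

/-! ### folding -/

lemma packL_blocks (Z R : ℕ) (h : ℕ → ℕ) (e : ℕ) : packL Z h (List.range (R * e)) =
    ∑ i ∈ range e, Z ^ (R * i) * packL Z (fun r => h (R * i + r)) (List.range R) := by
  induction e with
  | zero => simp [packL]
  | succ e ih =>
    rw [mul_add, mul_one, List.range_add, packL_append, ih, packL_map, List.length_range,
      Finset.sum_range_succ]

lemma packL_sumF (Z : ℕ) (f : ℕ → ℕ → ℕ) (e R : ℕ) :
    ∑ i ∈ range e, packL Z (f i) (List.range R) =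
      packL Z (fun r => ∑ i ∈ range e, f i r) (List.range R) := by
  induction e with
  | zero => simp [packL_zero]
  | succ e ih =>
    rw [Finset.sum_range_succ, ih, ← packL_add]
    apply packL_congr'
    intro r _
    rw [Finset.sum_range_succ]

lemma packL_le {Z B : ℕ} {f : ℕ → ℕ} (R : ℕ) (h : ∀ r < R, f r ≤ B) :
    packL Z f (List.range R) ≤ B * geo Z R := by
  induction R with
  | zero => simp [packL]
  | succ R ih =>
    rw [List.range_succ, packL_append, List.length_range, packL_cons, packL_nil, geo_succ']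
    have h1 := ih (fun r hr => h r (by omega))
    have h2 := h R (by omega)
    nlinarith [Nat.mul_le_mul_left (Z ^ R) h2]

lemma fold_mod {Z R e : ℕ} (hZ : 2 ≤ Z) (hR : 0 < R) (h : ℕ → ℕ)
    (hb : ∀ r < R, ∑ i ∈ range e, h (R * i + r) ≤ Z - 2) :
    packL Z h (List.range (R * e)) % (Z ^ R - 1) =
      packL Z (fun r => ∑ i ∈ range e, h (R * i + r)) (List.range R) := by
  have hZR : Z ≤ Z ^ R := Nat.le_self_pow (by omega) Z
  have h1 : packL Z h (List.range (R * e)) ≡
      packL Z (fun r => ∑ i ∈ range e, h (R * i + r)) (List.range R) [MOD (Z ^ R - 1)] := by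
    rw [packL_blocks, ← packL_sumF]
    have hz : Z ^ R ≡ 1 [MOD (Z ^ R - 1)] := by
      have : Z ^ R = 1 + (Z ^ R - 1) := by omega
      conv_lhs => rw [this]
      exact Nat.add_mod_right 1 _
    have : ∀ s : Finset ℕ, (∑ i ∈ s, Z ^ (R * i) * packL Z (fun r => h (R * i + r)) (List.range R)) ≡
        ∑ i ∈ s, packL Z (fun r => h (R * i + r)) (List.range R) [MOD (Z ^ R - 1)] := by
      intro s
      induction s using Finset.induction_on with
      | empty => simp; rfl
      | insert a s ha ih =>
        rw [Finset.sum_insert ha, Finset.sum_insert ha]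
        apply Nat.ModEq.add _ ih
        have h2 : Z ^ (R * a) ≡ 1 [MOD (Z ^ R - 1)] := by
          rw [pow_mul]
          have := hz.pow a
          rwa [one_pow] at this
        have := h2.mul_right (packL Z (fun r => h (R * a + r)) (List.range R))
        rwa [one_mul] at this
    exact this _
  have h2 : packL Z (fun r => ∑ i ∈ range e, h (R * i + r)) (List.range R) < Z ^ R - 1 := by
    have h3 := packL_le (Z := Z) R hb
    have h4 := geo_pow Z R (by omega)
    have h5 : 1 ≤ geo Z R := by
      obtain ⟨R', rfl⟩ : ∃ R', R = R' + 1 := ⟨R - 1, by omega⟩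
      rw [geo]; omega
    have h6 : (Z - 2) * geo Z R + geo Z R = (Z - 1) * geo Z R := by
      obtain ⟨z, rfl⟩ : ∃ z, Z = z + 2 := ⟨Z - 2, by omega⟩
      rw [show z + 2 - 2 = z by omega, show z + 2 - 1 = z + 1 by omega]
      ring
    omega
  rw [Nat.ModEq] at h1
  rw [h1, Nat.mod_eq_of_lt h2]

lemma sum_fold (R e : ℕ) (hR : 0 < R) (a h : ℕ → ℕ) :
    ∑ r ∈ range R, a r * ∑ i ∈ range e, h (R * i + r) = ∑ j ∈ range (R * e), a (j % R) * h j := by
  induction e with
  | zero => simp
  | succ e ih =>
    rw [mul_add, mul_one, Finset.sum_range_add, ← ih, ← Finset.sum_add_distrib]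
    apply Finset.sum_congr rfl
    intro r hr
    rw [Finset.sum_range_succ, Nat.mul_add_mod, Nat.mod_eq_of_lt (Finset.mem_range.1 hr)]
    ring

/-- **the product** -/
theorem prod_main {V K R e A Bd : ℕ} (hK : 0 < K) (hR : 0 < R) (a0 a1 h0 h1 : ℕ → ℕ → ℕ)
    (ha0 : ∀ r < R, ∀ k < K, a0 r k ≤ A) (ha1 : ∀ r < R, ∀ k < K, a1 r k ≤ A)
    (hh0 : ∀ r < R, ∀ k < K, ∑ i ∈ range e, h0 (R * i + r) k ≤ Bd)
    (hh1 : ∀ r < R, ∀ k < K, ∑ i ∈ range e, h1 (R * i + r) k ≤ Bd)
    (hA : 0 < A) (hV : 2 * R * K * (A * Bd) < V) (hV2 : Bd + 2 < V) {Z U G : ℕ} (hZ : Z = V ^ K)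
    (hU : U = rp Z (fun r => rp V (a0 r) (List.range K)) (List.range R) * Z ^ R +
      rp Z (fun r => rp V (a1 r) (List.range K)) (List.range R))
    (hG : G = (packL Z (fun j => packL V (h0 j) (List.range K)) (List.range (R * e))) % (Z ^ R - 1) +
      Z ^ R * ((packL Z (fun j => packL V (h1 j) (List.range K)) (List.range (R * e))) %
        (Z ^ R - 1))) :
    U * G / V ^ (2 * R * K - 1) % V =
      ∑ j ∈ range (R * e), ∑ k ∈ range K, a0 (j % R) k * h0 j k +
      ∑ j ∈ range (R * e), ∑ k ∈ range K, a1 (j % R) k * h1 j k := by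
  have hVK : V ≤ V ^ K := Nat.le_self_pow (by omega) V
  have key : ∀ h : ℕ → ℕ → ℕ, (∀ r < R, ∀ k < K, ∑ i ∈ range e, h (R * i + r) k ≤ Bd) →
      (packL Z (fun j => packL V (h j) (List.range K)) (List.range (R * e))) % (Z ^ R - 1) =
      packL Z (fun r => packL V (fun k => ∑ i ∈ range e, h (R * i + r) k) (List.range K))
        (List.range R) := by
    intro h hh
    rw [fold_mod (by omega) hR]
    · apply packL_congr'
      intro r _
      rw [packL_sumF]
    · intro r hr
      rw [packL_sumF]
      have h3 := packL_le (Z := V) K (hh r hr)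
      have h4 := geo_pow V K (by omega)
      have h5 : 1 ≤ geo V K := by
        obtain ⟨K', rfl⟩ : ∃ K', K = K' + 1 := ⟨K - 1, by omega⟩
        rw [geo]; omega
      have h6 : Bd * geo V K + 2 * geo V K ≤ (V - 1) * geo V K := by
        rw [← Nat.add_mul]
        exact Nat.mul_le_mul_right _ (by omega)
      rw [hZ]
      omega
  rw [key h0 hh0, key h1 hh1] at hG
  set L : List ℕ := List.range (2 * R) with hL
  set M : List ℕ := List.range K with hM
  have eL : L = List.range R ++ (List.range R).map (R + ·) := by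
    rw [hL, two_mul, List.range_add]
  set a : ℕ → ℕ → ℕ := fun r k => if r < R then a0 r k else a1 (r - R) k with ha
  set g : ℕ → ℕ → ℕ := fun r k => if r < R then ∑ i ∈ range e, h0 (R * i + r) k else
    ∑ i ∈ range e, h1 (R * i + (r - R)) k with hg
  have eU : U = rp V (fun y : ℕ × ℕ => a y.1 y.2) (L ×ˢ M) := by
    rw [← rp_flat, hM, List.length_range, eL, rp_append, rp_map, List.length_map,
      List.length_range, hU, hZ]
    congr 1
    · congr 1
      apply rp_congr
      intro r hr
      apply rp_congr
      intro k _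
      simp only [ha]
      rw [if_pos (List.mem_range.1 hr)]
    · apply rp_congr
      intro r _
      apply rp_congr
      intro k _
      simp only [ha]
      rw [if_neg (by omega), Nat.add_sub_cancel_left]
  have eG : G = packL V (fun y : ℕ × ℕ => g y.1 y.2) (L ×ˢ M) := by
    rw [← packL_flat, hM, List.length_range, eL, packL_append, packL_map,
      List.length_range, hG, hZ]
    congr 1
    · apply packL_congr'
      intro r hr
      apply packL_congr'
      intro k _
      simp only [hg]
      rw [if_pos (List.mem_range.1 hr)]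
    · congr 1
      apply packL_congr'
      intro r _
      apply packL_congr'
      intro k _
      simp only [hg]
      rw [if_neg (by omega), Nat.add_sub_cancel_left]
  have hlen : (L ×ˢ M).length = 2 * R * K := by
    rw [List.length_product, hL, hM, List.length_range, List.length_range]
  have hne : L ×ˢ M ≠ [] := by
    intro hc
    rw [hc, List.length_nil] at hlen
    have : 0 < 2 * R * K := by positivity
    omega
  have hmem : ∀ y ∈ L ×ˢ M, y.1 < 2 * R ∧ y.2 < K := by
    intro y hy
    have h3 := List.mem_product.1 (show (y.1, y.2) ∈ L ×ˢ M from hy)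
    exact ⟨List.mem_range.1 h3.1, List.mem_range.1 h3.2⟩
  have hip := ip_eq (V := V) (A := A) (B := Bd) (a := fun y : ℕ × ℕ => a y.1 y.2)
    (b := fun y : ℕ × ℕ => g y.1 y.2) hne
    (by
      intro y hy
      obtain ⟨h3, h4⟩ := hmem y hy
      simp only [ha]
      split_ifs with h5
      · exact ha0 _ h5 _ h4
      · exact ha1 _ (by omega) _ h4)
    (by
      intro y hy
      obtain ⟨h3, h4⟩ := hmem y hy
      simp only [hg]
      split_ifs with h5
      · exact hh0 _ h5 _ h4
      · exact hh1 _ (by omega) _ h4)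
    (by rw [hlen]; exact hV)
  rw [hlen, ← eU, ← eG] at hip
  rw [hip, sum_flat (f := fun r k => a r k * g r k), eL, List.map_append, List.sum_append,
    List.map_map]
  congr 1
  · have : ∀ k, ∑ r ∈ range R, a0 r k * ∑ i ∈ range e, h0 (R * i + r) k =
        ∑ j ∈ range (R * e), a0 (j % R) k * h0 j k := fun k =>
      sum_fold R e hR (fun r => a0 r k) (fun j => h0 j k)
    rw [Finset.sum_comm, ← Finset.sum_congr rfl (fun k _ => this k), Finset.sum_comm,
      list_sum_range]
    apply Finset.sum_congr rfl
    intro r hr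
    rw [hM, list_sum_range]
    apply Finset.sum_congr rfl
    intro k _
    simp only [ha, hg]
    rw [if_pos (Finset.mem_range.1 hr)]
    rw [if_pos (Finset.mem_range.1 hr)]
  · have : ∀ k, ∑ r ∈ range R, a1 r k * ∑ i ∈ range e, h1 (R * i + r) k =
        ∑ j ∈ range (R * e), a1 (j % R) k * h1 j k := fun k =>
      sum_fold R e hR (fun r => a1 r k) (fun j => h1 j k)
    rw [Finset.sum_comm, ← Finset.sum_congr rfl (fun k _ => this k), Finset.sum_comm,
      list_sum_range]
    apply Finset.sum_congr rfl
    intro r hr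
    simp only [Function.comp]
    rw [hM, list_sum_range]
    apply Finset.sum_congr rfl
    intro k _
    simp only [ha, hg]
    rw [if_neg (by omega), if_neg (by omega), Nat.add_sub_cancel_left]

end Pool.Agent.OEG.W
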