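import Pool.Agent.OEG.WD

/-!
Project OEG, elimination for the first family: the product engine.
-/

set_option autoImplicit false

namespace Pool.Agent.OEG.W

open Pool.Agent.LibH4 Pool.Agent.LibH4.Ker
open Pool.Agent.Lib_helper5 Pool.Agent.Lib_helper5.LK Pool.Agent.Lib_helper5.TB
open Pool.Agent.LibH4.S7 (Rl)
open Pool.Agent.PSX.Ev (cp uncP uncN)
open Finset (range)

/-- a row of a packed table -/
def rowU (B zw mk i : ℕ) : ℕ := Nat.land (Nat.shiftRight B (Nat.mul zw i)) mk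

lemma rowU_eq (B zw i : ℕ) : rowU B zw (2 ^ zw - 1) i = B / 2 ^ (zw * i) % 2 ^ zw := by
  change (B >>> (zw * i)) &&& (2 ^ zw - 1) = _
  rw [Nat.and_two_pow_sub_one_eq_mod, Nat.shiftRight_eq_div_pow]

/-- digits of a row -/
def wD (w K B o k : ℕ) : ℕ := (B / 2 ^ (w * K * o) % 2 ^ (w * K)) / (2 ^ w) ^ k % 2 ^ w

lemma rowU_pack (w K B o : ℕ) : rowU B (w * K) (2 ^ (w * K) - 1) o =
    packL (2 ^ w) (wD w K B o) (List.range K) := by
  rw [rowU_eq]
  unfold wD
  rw [packL_digits _ (by positivity), ← pow_mul, Nat.mod_mod]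

lemma rowU_rp (w K B o : ℕ) : rowU B (w * K) (2 ^ (w * K) - 1) o =
    rp (2 ^ w) (fun k => wD w K B o (K - 1 - k)) (List.range K) := by
  rw [rowU_eq]
  unfold wD
  rw [rp_digits _ (by positivity), ← pow_mul, Nat.mod_mod]

/-! ### check of a factorisation -/

/-- the digits are small -/
def ckD (w K B n : ℕ) : Bool :=
  allR (fun i => strict (rowU B (Nat.mul w K) (Nat.sub (Nat.pow (nat_lit 2) (Nat.mul w K))
    (nat_lit 1)) i) fun r =>
    allR (fun k => Nat.ble (Nat.mod (Nat.shiftRight r (Nat.mul w k)) (Nat.pow (nat_lit 2) w))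
      (nat_lit 12)) K) n

lemma ckD_spec {w K B n : ℕ} (h : ckD w K B n = true) : ∀ i < n, ∀ k < K, wD w K B i k ≤ 12 := by
  intro i hi k hk
  have h1 := allR_spec h i hi
  rw [strict_eq] at h1
  have h2 := Nat.le_of_ble_eq_true (allR_spec h1 k hk)
  have e : Nat.mod (Nat.shiftRight (rowU B (Nat.mul w K) (Nat.sub (Nat.pow (nat_lit 2)
    (Nat.mul w K)) (nat_lit 1)) i) (Nat.mul w k)) (Nat.pow (nat_lit 2) w) =
    ((rowU B (w * K) (2 ^ (w * K) - 1) i) >>> (w * k)) % 2 ^ w := rfl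
  rw [e, rowU_eq, Nat.shiftRight_eq_div_pow, pow_mul 2 w k] at h2
  exact h2

/-- factorised entry -/
def fT (w K BU BW i o : ℕ) : ℕ := ∑ k ∈ range K, wD w K BU i (K - 1 - k) * wD w K BW o k

/-- check of the rows -/
def ckR (w K l n2 BU BX BY : ℕ) (rows : List (ℕ × ℕ)) : ℕ → Bool :=
  @List.rec (ℕ × ℕ) (fun _ => ℕ → Bool) (fun _ => true)
    (fun row _ ih i => @Bool.rec (fun _ => Bool) false (ih (Nat.succ i))
      (strict (Nat.mul w K) fun zw => strict (Nat.sub (Nat.pow (nat_lit 2) zw) (nat_lit 1)) fun mk =>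
       strict (rowU BU zw mk i) fun r => strict (Nat.mul w (Nat.sub K (nat_lit 1))) fun sh =>
       strict (Nat.pow (nat_lit 2) w) fun v =>
       allR (fun o => @Bool.rec (fun _ => Bool) false
         (Nat.beq (Nat.mod (Nat.mod (Nat.shiftRight (Nat.mul r (rowU BY zw mk o)) sh) v) l)
           (dig row.2 o))
         (Nat.beq (Nat.mod (Nat.mod (Nat.shiftRight (Nat.mul r (rowU BX zw mk o)) sh) v) l)
           (dig row.1 o))) n2)) rows

lemma fT_prod {w K BU BW n1 n2 i o : ℕ} (hK : 0 < K) (hw : K * 144 < 2 ^ w)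
    (hU : ckD w K BU n1 = true) (hW : ckD w K BW n2 = true) (hi : i < n1) (ho : o < n2) :
    rowU BU (w * K) (2 ^ (w * K) - 1) i * rowU BW (w * K) (2 ^ (w * K) - 1) o /
      (2 ^ w) ^ (K - 1) % 2 ^ w = fT w K BU BW i o := by
  have hd := ckD_spec hU i hi
  have hd' := ckD_spec hW o ho
  have hne : List.range K ≠ [] := by
    intro hc
    have := congrArg List.length hc
    rw [List.length_range, List.length_nil] at this
    omega
  have := ip_eq (V := 2 ^ w) (A := 12) (B := 12) (a := fun k => wD w K BU i (K - 1 - k))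
    (b := fun k => wD w K BW o k) hne
    (by intro k hk; exact hd _ (by have := List.mem_range.1 hk; omega))
    (by intro k hk; exact hd' _ (List.mem_range.1 hk))
    (by rw [List.length_range]; exact hw)
  rw [List.length_range, list_sum_range] at this
  rw [rowU_rp, rowU_pack w K BW o]
  exact this

lemma ckR_spec {w K l n1 n2 BU BX BY : ℕ} (hK : 0 < K) (hw : K * 144 < 2 ^ w)
    (hU : ckD w K BU n1 = true) (hX : ckD w K BX n2 = true) (hY : ckD w K BY n2 = true)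
    {rows : List (ℕ × ℕ)} {i0 : ℕ} (hlen : i0 + rows.length ≤ n1)
    (h : ckR w K l n2 BU BX BY rows i0 = true) :
    ∀ i row, rows[i]? = some row → ∀ o < n2,
      fT w K BU BX (i0 + i) o % l = dig row.1 o ∧ fT w K BU BY (i0 + i) o % l = dig row.2 o := by
  induction rows generalizing i0 with
  | nil => intro i row hr; simp at hr
  | cons r0 rows ih =>
    rw [List.length_cons] at hlen
    have e : ckR w K l n2 BU BX BY (r0 :: rows) i0 =
      @Bool.rec (fun _ => Bool) false (ckR w K l n2 BU BX BY rows (Nat.succ i0))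
      (strict (Nat.mul w K) fun zw => strict (Nat.sub (Nat.pow (nat_lit 2) zw) (nat_lit 1)) fun mk =>
       strict (rowU BU zw mk i0) fun r => strict (Nat.mul w (Nat.sub K (nat_lit 1))) fun sh =>
       strict (Nat.pow (nat_lit 2) w) fun v =>
       allR (fun o => @Bool.rec (fun _ => Bool) false
         (Nat.beq (Nat.mod (Nat.mod (Nat.shiftRight (Nat.mul r (rowU BY zw mk o)) sh) v) l)
           (dig r0.2 o))
         (Nat.beq (Nat.mod (Nat.mod (Nat.shiftRight (Nat.mul r (rowU BX zw mk o)) sh) v) l)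
           (dig r0.1 o))) n2) := rfl
    rw [e] at h
    obtain ⟨h1, h2⟩ := boolrec_spec h
    intro i row hr o ho
    cases i with
    | zero =>
      rw [List.getElem?_cons_zero, Option.some.injEq] at hr
      subst hr
      simp only [strict_eq] at h1
      obtain ⟨h3, h4⟩ := boolrec_spec (allR_spec h1 o ho)
      have h5 := Nat.eq_of_beq_eq_true h3
      have h6 := Nat.eq_of_beq_eq_true h4
      have q : ∀ BW, Nat.mod (Nat.mod (Nat.shiftRight (Nat.mul
          (rowU BU (Nat.mul w K) (Nat.sub (Nat.pow (nat_lit 2) (Nat.mul w K)) (nat_lit 1)) i0)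
          (rowU BW (Nat.mul w K) (Nat.sub (Nat.pow (nat_lit 2) (Nat.mul w K)) (nat_lit 1)) o))
          (Nat.mul w (Nat.sub K (nat_lit 1)))) (Nat.pow (nat_lit 2) w)) l =
          (rowU BU (w * K) (2 ^ (w * K) - 1) i0 * rowU BW (w * K) (2 ^ (w * K) - 1) o /
            (2 ^ w) ^ (K - 1) % 2 ^ w) % l := by
        intro BW
        rw [← pow_mul, ← Nat.shiftRight_eq_div_pow]
        rfl
      rw [q] at h5 h6
      rw [fT_prod hK hw hU hX (by omega) ho] at h5
      rw [fT_prod hK hw hU hY (by omega) ho] at h6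
      rw [add_zero]
      exact ⟨h5, h6⟩
    | succ i =>
      rw [List.getElem?_cons_succ] at hr
      have := ih (i0 := Nat.succ i0) (by rw [Nat.succ_eq_add_one]; omega) h2 i row hr o ho
      rw [Nat.succ_eq_add_one] at this
      rw [show i0 + (i + 1) = i0 + 1 + i by ring]
      exact this

/-! ### class vectors -/

/-- packed vector of a list of edges -/
def hU (t1 BU zw mk : ℕ) (L : List (ℕ × ℕ)) : ℕ → (ℕ → Bool) → Bool :=
  @List.rec (ℕ × ℕ) (fun _ => ℕ → (ℕ → Bool) → Bool) (fun acc k => k acc)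
    (fun x _ ih acc k => strict (Nat.add (Nat.shiftLeft acc zw)
      (Nat.mul (dig t1 x.1) (rowU BU zw mk x.2))) fun a => ih a k) L

lemma hU_eq (t1 BU zw mk : ℕ) (L : List (ℕ × ℕ)) (acc : ℕ) (k : ℕ → Bool) :
    hU t1 BU zw mk L acc k = k (acc * (2 ^ zw) ^ L.length +
      rp (2 ^ zw) (fun x => dig t1 x.1 * rowU BU zw mk x.2) L) := by
  induction L generalizing acc with
  | nil => simp [hU, rp]
  | cons x L ih =>
    have e : hU t1 BU zw mk (x :: L) acc k = strict (Nat.add (Nat.shiftLeft acc zw)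
      (Nat.mul (dig t1 x.1) (rowU BU zw mk x.2))) fun a => hU t1 BU zw mk L a k := rfl
    rw [e, strict_eq, ih, rp_cons, List.length_cons]
    have e2 : Nat.add (Nat.shiftLeft acc zw) (Nat.mul (dig t1 x.1) (rowU BU zw mk x.2)) =
      acc * 2 ^ zw + dig t1 x.1 * rowU BU zw mk x.2 := by
      change (acc <<< zw) + _ = _
      rw [Nat.shiftLeft_eq]
      rfl
    rw [e2]
    congr 1
    rw [pow_succ']
    ring

/-- packed vector of a class -/
def clU (t1 BU zw mk : ℕ) (c0 c1 : List (ℕ × ℕ)) (k : ℕ → Bool) : Bool :=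
  hU t1 BU zw mk c0 (nat_lit 0) fun a => hU t1 BU zw mk c1 a k

lemma map_cy {α : Type} [Inhabited α] (L : List α) : (List.range L.length).map (cy L) = L := by
  apply List.ext_getElem
  · rw [List.length_map, List.length_range]
  · intro i h1 h2
    rw [List.getElem_map, List.getElem_range]
    unfold cy
    rw [Nat.mod_eq_of_lt h2, List.getD_eq_getElem _ _ h2]

lemma clU_eq (t1 BU zw mk : ℕ) {R : ℕ} {c0 c1 : List (ℕ × ℕ)} (h0 : c0.length = R)
    (h1 : c1.length = R) (k : ℕ → Bool) : clU t1 BU zw mk c0 c1 k =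
    k (rp (2 ^ zw) (fun r => dig t1 (cy c0 r).1 * rowU BU zw mk (cy c0 r).2) (List.range R) *
        (2 ^ zw) ^ R +
      rp (2 ^ zw) (fun r => dig t1 (cy c1 r).1 * rowU BU zw mk (cy c1 r).2) (List.range R)) := by
  unfold clU
  rw [hU_eq, hU_eq]
  have e0 : rp (2 ^ zw) (fun x : ℕ × ℕ => dig t1 x.1 * rowU BU zw mk x.2) c0 =
      rp (2 ^ zw) (fun r => dig t1 (cy c0 r).1 * rowU BU zw mk (cy c0 r).2) (List.range R) := by
    rw [← h0, ← rp_map (2 ^ zw) (fun x : ℕ × ℕ => dig t1 x.1 * rowU BU zw mk x.2) (cy c0), map_cy]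
  have e1 : rp (2 ^ zw) (fun x : ℕ × ℕ => dig t1 x.1 * rowU BU zw mk x.2) c1 =
      rp (2 ^ zw) (fun r => dig t1 (cy c1 r).1 * rowU BU zw mk (cy c1 r).2) (List.range R) := by
    rw [← h1, ← rp_map (2 ^ zw) (fun x : ℕ × ℕ => dig t1 x.1 * rowU BU zw mk x.2) (cy c1), map_cy]
  have hz : (nat_lit 0) = 0 := rfl
  rw [e0, e1, h1, hz, Nat.zero_mul, Nat.zero_add]

/-! ### node vectors -/

/-- the type of packed terms -/
abbrev Tg := ℕ × ℕ → ℕ × ℕ → ℕ → ℕ

/-- packed sum over consecutive edges -/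
def runG (T : Tg) (zw : ℕ) (f2 f3 : List (ℕ × ℕ)) (fa : List ℕ) (n : ℕ) : ℕ → ℕ →
    List (ℕ × ℕ) → List (ℕ × ℕ) → List ℕ →
    (ℕ → ℕ → List (ℕ × ℕ) → List (ℕ × ℕ) → List ℕ → Bool) → Bool :=
  @Nat.rec (fun _ => ℕ → ℕ → List (ℕ × ℕ) → List (ℕ × ℕ) → List ℕ →
    (ℕ → ℕ → List (ℕ × ℕ) → List (ℕ × ℕ) → List ℕ → Bool) → Bool)
    (fun acc sh c2 c3 ca k => k acc sh c2 c3 ca)
    (fun _ ih acc sh c2 c3 ca k => nxP f2 c2 fun y c2' => nxP f3 c3 fun z c3' =>
      nxN fa ca fun a ca' => strict (Nat.add acc (Nat.shiftLeft (T y z a) sh)) fun acc' =>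
      strict (Nat.add sh zw) fun sh' => ih acc' sh' c2' c3' ca' k) n

theorem runG_spec (T : Tg) (zw : ℕ) {f2 f3 : List (ℕ × ℕ)} {fa : List ℕ} (h2 : f2 ≠ [])
    (h3 : f3 ≠ []) (ha : fa ≠ []) (n : ℕ) : ∀ (j acc : ℕ) (c2 c3 : List (ℕ × ℕ)) (ca : List ℕ),
    Cu f2 c2 j → Cu f3 c3 j → Cu fa ca j → ∃ c2' c3' ca',
      Cu f2 c2' (j + n) ∧ Cu f3 c3' (j + n) ∧ Cu fa ca' (j + n) ∧ ∀ k,
      runG T zw f2 f3 fa n acc (zw * j) c2 c3 ca k =
        k (acc + (2 ^ zw) ^ j * packL (2 ^ zw) (fun i => T (cy f2 (j + i)) (cy f3 (j + i))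
          (cy fa (j + i))) (List.range n)) (zw * (j + n)) c2' c3' ca' := by
  induction n with
  | zero =>
    intro j acc c2 c3 ca g2 g3 ga
    exact ⟨c2, c3, ca, g2, g3, ga, fun k => by simp [runG, packL]⟩
  | succ n ih =>
    intro j acc c2 c3 ca g2 g3 ga
    obtain ⟨d2, e2, q2⟩ := nxP_spec (β := Bool) h2 g2
    obtain ⟨d3, e3, q3⟩ := nxP_spec (β := Bool) h3 g3
    obtain ⟨da, ea, qa⟩ := nxN_spec (β := Bool) ha ga
    obtain ⟨c2', c3', ca', r2, r3, ra, hk⟩ := ih (j + 1)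
      (acc + T (cy f2 j) (cy f3 j) (cy fa j) * 2 ^ (zw * j)) d2 d3 da e2 e3 ea
    have ej : j + (n + 1) = j + 1 + n := by ring
    rw [ej]
    refine ⟨c2', c3', ca', r2, r3, ra, ?_⟩
    intro k
    have e : runG T zw f2 f3 fa (n + 1) acc (zw * j) c2 c3 ca k = nxP f2 c2 fun y c2' =>
      nxP f3 c3 fun z c3' => nxN fa ca fun a ca' =>
      strict (Nat.add acc (Nat.shiftLeft (T y z a) (zw * j))) fun acc' =>
      strict (Nat.add (zw * j) zw) fun sh' => runG T zw f2 f3 fa n acc' sh' c2' c3' ca' k := rfl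
    rw [e, q2, q3, qa, strict_eq, strict_eq]
    have e4 : Nat.add acc (Nat.shiftLeft (T (cy f2 j) (cy f3 j) (cy fa j)) (zw * j)) =
      acc + T (cy f2 j) (cy f3 j) (cy fa j) * 2 ^ (zw * j) := by
      change acc + (_ <<< (zw * j)) = _
      rw [Nat.shiftLeft_eq]
    have e5 : Nat.add (zw * j) zw = zw * (j + 1) := by
      change zw * j + zw = _
      ring
    rw [e4, e5, hk k]
    congr 1
    have e6 : packL (2 ^ zw) (fun i => T (cy f2 (j + i)) (cy f3 (j + i)) (cy fa (j + i)))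
        (List.range (n + 1)) = T (cy f2 j) (cy f3 j) (cy fa j) + 2 ^ zw *
        packL (2 ^ zw) (fun i => T (cy f2 (j + 1 + i)) (cy f3 (j + 1 + i)) (cy fa (j + 1 + i)))
          (List.range n) := by
      rw [List.range_succ_eq_map, packL_cons, packL_map, add_zero]
      congr 2
      apply packL_congr'
      intro i _
      rw [Nat.succ_eq_add_one, show j + (i + 1) = j + 1 + i by ring]
    rw [e6, pow_mul 2 zw j, pow_succ (2 ^ zw) j]
    ring

/-- node vector -/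
def gvec (T : Tg) (Tc : Tg) (zw : ℕ) (y0 z0 : List (ℕ × ℕ)) (w0 : List ℕ) (y1 z1 : List (ℕ × ℕ))
    (w1 : List ℕ) (be ml r : ℕ) (k : ℕ → ℕ → ℕ → Bool) : Bool :=
  runG T zw y0 z0 w0 ml (nat_lit 0) (nat_lit 0) y0 z0 w0 fun acc sh c2 c3 ca =>
  nxP y0 c2 fun y _ => nxP z0 c3 fun z _ => strict (Tc y z be) fun cor =>
  runG T zw y0 z0 w0 (Nat.succ r) acc sh c2 c3 ca fun G0 _ _ _ _ =>
  runG T zw y1 z1 w1 (Nat.add ml (Nat.succ r)) (nat_lit 0) (nat_lit 0) y1 z1 w1 fun G1 _ _ _ _ =>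
  k G0 G1 cor

theorem gvec_spec (T Tc : Tg) (zw : ℕ) {y0 z0 y1 z1 : List (ℕ × ℕ)} {w0 w1 : List ℕ}
    (hy0 : y0 ≠ []) (hz0 : z0 ≠ []) (hw0 : w0 ≠ []) (hy1 : y1 ≠ []) (hz1 : z1 ≠ [])
    (hw1 : w1 ≠ []) (be ml r : ℕ) (k : ℕ → ℕ → ℕ → Bool) :
    gvec T Tc zw y0 z0 w0 y1 z1 w1 be ml r k =
    k (packL (2 ^ zw) (fun j => T (cy y0 j) (cy z0 j) (cy w0 j)) (List.range (ml + 1 + r)))
      (packL (2 ^ zw) (fun j => T (cy y1 j) (cy z1 j) (cy w1 j)) (List.range (ml + 1 + r)))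
      (Tc (cy y0 ml) (cy z0 ml) be) := by
  obtain ⟨a2, a3, a4, b2, b3, b4, h⟩ := runG_spec T zw hy0 hz0 hw0 ml 0 0 y0 z0 w0
    (Cu_zero _) (Cu_zero _) (Cu_zero _)
  obtain ⟨a2', b2', h2'⟩ := nxP_spec (β := Bool) hy0 b2
  obtain ⟨a3', b3', h3'⟩ := nxP_spec (β := Bool) hz0 b3
  obtain ⟨e2, e3, e4, f2, f3, f4, h2⟩ := runG_spec T zw hy0 hz0 hw0 (r + 1) (0 + ml)
    (0 + (2 ^ zw) ^ 0 * packL (2 ^ zw) (fun i => T (cy y0 (0 + i)) (cy z0 (0 + i))
          (cy w0 (0 + i))) (List.range ml)) a2 a3 a4 b2 b3 b4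
  obtain ⟨c2, c3, c4, d2, d3, d4, h3⟩ := runG_spec T zw hy1 hz1 hw1 (ml + (r + 1)) 0 0 y1 z1 w1
    (Cu_zero _) (Cu_zero _) (Cu_zero _)
  unfold gvec
  have hz : (nat_lit 0) = 0 := rfl
  rw [hz]
  rw [Nat.mul_zero] at h h3
  rw [h, h2', h3', strict_eq]
  simp only [Nat.add_eq, Nat.succ_eq_add_one]
  rw [h2, h3]
  simp only [Nat.zero_add, pow_zero, one_mul]
  have e : ∀ (f : ℕ → ℕ), packL (2 ^ zw) f (List.range (ml + 1 + r)) =
      packL (2 ^ zw) f (List.range ml) + (2 ^ zw) ^ ml *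
        packL (2 ^ zw) (fun i => f (ml + i)) (List.range (r + 1)) := by
    intro f
    rw [show ml + 1 + r = ml + (r + 1) by ring, List.range_add, packL_append, packL_map,
      List.length_range]
  rw [e (fun j => T (cy y0 j) (cy z0 j) (cy w0 j))]
  rw [show ml + (r + 1) = ml + 1 + r by ring]

end Pool.Agent.OEG.W
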