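import Pool.Agent.OEG.WE

/-!
Project OEG, elimination for the first family: the test by one multiplication.
-/

set_option autoImplicit false

namespace Pool.Agent.OEG.W

open Pool.Agent.LibH4 Pool.Agent.LibH4.Ker
open Pool.Agent.Lib_helper5 Pool.Agent.Lib_helper5.LK Pool.Agent.Lib_helper5.TB
open Pool.Agent.LibH4.S7 (Rl)
open Pool.Agent.PSX.Ev (cp uncP uncN)
open Finset (range)

/-- packed term -/
def tG (t2 t3 BX BY len3 zw mk l : ℕ) : Tg := fun y z a =>
  strict (Nat.add (Nat.mul y.2 len3) z.2) fun o =>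
  strict (Nat.mod (Nat.mul (dig t2 y.1) (dig t3 z.1)) l) fun d =>
  Nat.mul d (Nat.add (Nat.mul (nat_lit 3) (rowU BX zw mk o)) (Nat.mul a (rowU BY zw mk o)))

/-- packed correction -/
def tC (t2 t3 BY len3 zw mk l : ℕ) : Tg := fun y z be =>
  strict (Nat.add (Nat.mul y.2 len3) z.2) fun o =>
  strict (Nat.mod (Nat.mul (dig t2 y.1) (dig t3 z.1)) l) fun d =>
  Nat.mul d (Nat.mul be (rowU BY zw mk o))

/-- digits of the packed term -/
def gD (t2 t3 w K BX BY len3 l : ℕ) (y z : ℕ × ℕ) (a k : ℕ) : ℕ :=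
  (dig t2 y.1 * dig t3 z.1 % l) *
    (3 * wD w K BX (y.2 * len3 + z.2) k + a * wD w K BY (y.2 * len3 + z.2) k)

/-- digits of the packed correction -/
def gC (t2 t3 w K BY len3 l : ℕ) (y z : ℕ × ℕ) (be k : ℕ) : ℕ :=
  (dig t2 y.1 * dig t3 z.1 % l) * (be * wD w K BY (y.2 * len3 + z.2) k)

lemma tG_eq (t2 t3 w K BX BY len3 l : ℕ) (y z : ℕ × ℕ) (a : ℕ) :
    tG t2 t3 BX BY len3 (w * K) (2 ^ (w * K) - 1) l y z a =
      packL (2 ^ w) (gD t2 t3 w K BX BY len3 l y z a) (List.range K) := by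
  unfold tG
  rw [strict_eq, strict_eq]
  have e : ∀ o d : ℕ, Nat.mul d (Nat.add (Nat.mul (nat_lit 3) (rowU BX (w * K) (2 ^ (w * K) - 1) o))
      (Nat.mul a (rowU BY (w * K) (2 ^ (w * K) - 1) o))) =
      d * (3 * rowU BX (w * K) (2 ^ (w * K) - 1) o + a * rowU BY (w * K) (2 ^ (w * K) - 1) o) :=
    fun _ _ => rfl
  rw [e, rowU_pack, rowU_pack, ← packL_mul, ← packL_mul, ← packL_add, ← packL_mul]
  rfl

lemma tC_eq (t2 t3 w K BY len3 l : ℕ) (y z : ℕ × ℕ) (be : ℕ) :
    tC t2 t3 BY len3 (w * K) (2 ^ (w * K) - 1) l y z be =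
      packL (2 ^ w) (gC t2 t3 w K BY len3 l y z be) (List.range K) := by
  unfold tC
  rw [strict_eq, strict_eq]
  have e : ∀ o d : ℕ, Nat.mul d (Nat.mul be (rowU BY (w * K) (2 ^ (w * K) - 1) o)) =
      d * (be * rowU BY (w * K) (2 ^ (w * K) - 1) o) := fun _ _ => rfl
  rw [e, rowU_pack, ← packL_mul, ← packL_mul]
  rfl

/-- combination of the node vectors for one lift -/
def comb (rep zw shR zR1 G0 G1 cor ml t : ℕ) (k : ℕ → Bool) : Bool :=
  strict (Nat.mul G0 rep) fun X0 => strict (Nat.mul G1 rep) fun X1 =>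
  strict (Nat.mul zw ml) fun s =>
  strict (Nat.mod (Nat.add (Nat.add (Nat.land X0 (Nat.sub (Nat.pow (nat_lit 2) (Nat.add s zw))
    (nat_lit 1))) (Nat.mul t X0)) (Nat.shiftLeft cor s)) zR1) fun H0 =>
  strict (Nat.mod (Nat.add (Nat.land X1 (Nat.sub (Nat.pow (nat_lit 2) s) (nat_lit 1)))
    (Nat.mul t X1)) zR1) fun H1 =>
  strict (Nat.add H0 (Nat.shiftLeft H1 shR)) k

/-- the test -/
def tst (sh mkw l U G : ℕ) : Bool :=
  Nat.beq (Nat.mod (Nat.land (Nat.shiftRight (Nat.mul U G) sh) mkw) l) (nat_lit 0)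

lemma pack_rep {Z P e0 : ℕ} (f : ℕ → ℕ) :
    packL Z f (List.range P) * ∑ i ∈ range e0, Z ^ (P * i) =
      packL Z (fun j => f (j % P)) (List.range (P * e0)) := by
  rw [packL_blocks, Finset.mul_sum]
  apply Finset.sum_congr rfl
  intro i _
  rw [mul_comm]
  congr 1
  apply packL_congr'
  intro r hr
  rw [Nat.mul_add_mod, Nat.mod_eq_of_lt (List.mem_range.1 hr)]

lemma pack_pre {Z : ℕ} {f : ℕ → ℕ} (hf : ∀ j, f j < Z) {k n : ℕ} (hk : k ≤ n) :
    packL Z f (List.range n) % Z ^ k =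
      packL Z (fun j => if j < k then f j else 0) (List.range n) := by
  have h1 := packL_window (V := Z) hf 0 k n (by omega)
  rw [pow_zero, Nat.div_one] at h1
  rw [h1]
  simp only [Nat.zero_add]
  obtain ⟨d, rfl⟩ : ∃ d, n = k + d := ⟨n - k, by omega⟩
  rw [List.range_add, packL_append, packL_map]
  have h2 : packL Z (fun x => if k + x < k then f (k + x) else 0) (List.range d) = 0 := by
    refine (packL_congr' Z (g := fun _ => 0) ?_).trans (packL_zero Z _)
    intro x _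
    rw [if_neg (by omega)]
  rw [h2, mul_zero, add_zero]
  apply packL_congr'
  intro r hr
  rw [if_pos (List.mem_range.1 hr)]

lemma pack_single {Z c ml n : ℕ} (h : ml < n) :
    packL Z (fun j => if j = ml then c else 0) (List.range n) = c * Z ^ ml := by
  obtain ⟨d, rfl⟩ : ∃ d, n = ml + (d + 1) := ⟨n - ml - 1, by omega⟩
  rw [List.range_add, packL_append, packL_map, List.range_succ_eq_map, packL_cons, packL_map,
    List.length_range]
  have h1 : packL Z (fun j => if j = ml then c else 0) (List.range ml) = 0 := by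
    refine (packL_congr' Z (g := fun _ => 0) ?_).trans (packL_zero Z _)
    intro x hx
    have := List.mem_range.1 hx
    rw [if_neg (by omega)]
  have h2 : packL Z (fun x => if ml + x.succ = ml then c else 0) (List.range d) = 0 := by
    refine (packL_congr' Z (g := fun _ => 0) ?_).trans (packL_zero Z _)
    intro x _
    rw [if_neg (by omega)]
  rw [h1, h2, add_zero, if_pos rfl]
  ring

/-- the constants of a factorised table -/
structure FT (w K n1 n2 BU BX BY : ℕ) : Prop where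
  K0 : 0 < K
  U : ckD w K BU n1 = true
  X : ckD w K BX n2 = true
  Y : ckD w K BY n2 = true
  bU : BU < 2 ^ (w * K * n1)
  bX : BX < 2 ^ (w * K * n2)
  bY : BY < 2 ^ (w * K * n2)

lemma wD_le {w K B n : ℕ} (h : ckD w K B n = true) (hB : B < 2 ^ (w * K * n)) (i k : ℕ)
    (hk : k < K) : wD w K B i k ≤ 12 := by
  by_cases hi : i < n
  · exact ckD_spec h i hi k hk
  · unfold wD
    have : B / 2 ^ (w * K * i) = 0 := by
      apply Nat.div_eq_of_lt
      refine lt_of_lt_of_le hB ?_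
      exact Nat.pow_le_pow_right (by norm_num) (Nat.mul_le_mul_left _ (by omega))
    rw [this]
    simp

lemma dig_lt (t i : ℕ) : dig t i ≤ 255 := by
  have : dig t i < 256 := Nat.mod_lt _ (by norm_num)
  omega

/-- the packed digits of one lift -/
def hD (g : ℕ → ℕ → ℕ) (c : ℕ → ℕ) (ml1 ml t : ℕ) (j k : ℕ) : ℕ :=
  (if j < ml1 then g j k else 0) + t * g j k + (if j = ml then c k else 0)

lemma pack_hD {V K : ℕ} {Z : ℕ} (hZ : Z = V ^ K) (g : ℕ → ℕ → ℕ) (c : ℕ → ℕ)
    (hg : ∀ j, ∀ k < K, g j k < V) {P e0 lam ml1 ml t rep : ℕ} (hP : lam = P * e0)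
    (hper : ∀ j k, g (j % P) k = g j k) (hrep : rep = ∑ i ∈ range e0, Z ^ (P * i))
    (h1 : ml1 ≤ lam) (h2 : ml < lam) :
    packL Z (fun j => packL V (hD g c ml1 ml t j) (List.range K)) (List.range lam) =
      (packL Z (fun j => packL V (g j) (List.range K)) (List.range P) * rep) % Z ^ ml1 +
      t * (packL Z (fun j => packL V (g j) (List.range K)) (List.range P) * rep) +
      packL V c (List.range K) * Z ^ ml := by
  have hlt : ∀ j, packL V (g j) (List.range K) < Z := by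
    intro j
    have := packL_lt (V := V) (f := g j) (L := List.range K)
      (fun k hk => hg j k (List.mem_range.1 hk))
    rw [List.length_range] at this
    rw [hZ]
    exact this
  have e0' : packL Z (fun j => packL V (g j) (List.range K)) (List.range P) * rep =
      packL Z (fun j => packL V (g j) (List.range K)) (List.range lam) := by
    rw [hrep, pack_rep, ← hP]
    apply packL_congr'
    intro j _
    apply packL_congr'
    intro k _
    exact hper j k
  rw [e0', pack_pre hlt h1, ← packL_mul, ← pack_single (Z := Z) (c := packL V c (List.range K)) h2,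
    ← packL_add, ← packL_add]
  apply packL_congr'
  intro j _
  have a1 : (if j < ml1 then packL V (g j) (List.range K) else 0) =
      packL V (fun k => if j < ml1 then g j k else 0) (List.range K) := by
    split_ifs
    · rfl
    · rw [packL_zero]
  have a2 : (if j = ml then packL V c (List.range K) else 0) =
      packL V (fun k => if j = ml then c k else 0) (List.range K) := by
    split_ifs
    · rfl
    · rw [packL_zero]
  rw [a1, a2, ← packL_mul, ← packL_add, ← packL_add]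
  rfl

lemma sum_hD (a : ℕ → ℕ → ℕ) (g : ℕ → ℕ → ℕ) (c : ℕ → ℕ) {K lam ml1 ml : ℕ} (t : ℕ)
    (h1 : ml1 ≤ lam) (h2 : ml < lam) :
    ∑ j ∈ range lam, ∑ k ∈ range K, a j k * hD g c ml1 ml t j k =
      ∑ j ∈ range ml1, ∑ k ∈ range K, a j k * g j k +
      t * ∑ j ∈ range lam, ∑ k ∈ range K, a j k * g j k + ∑ k ∈ range K, a ml k * c k := by
  have e : ∀ j k, a j k * hD g c ml1 ml t j k = (if j < ml1 then a j k * g j k else 0) +
      t * (a j k * g j k) + (if j = ml then a j k * c k else 0) := by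
    intro j k
    unfold hD
    split_ifs <;> ring
  simp only [e, Finset.sum_add_distrib]
  congr 1
  · congr 1
    · obtain ⟨d, rfl⟩ : ∃ d, lam = ml1 + d := ⟨lam - ml1, by omega⟩
      rw [Finset.sum_range_add]
      have z : ∑ x ∈ range d, ∑ k ∈ range K, (if ml1 + x < ml1 then a (ml1 + x) k * g (ml1 + x) k
          else 0) = 0 := by
        apply Finset.sum_eq_zero
        intro x _
        apply Finset.sum_eq_zero
        intro k _
        rw [if_neg (by omega)]
      rw [z, add_zero]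
      apply Finset.sum_congr rfl
      intro j hj
      apply Finset.sum_congr rfl
      intro k _
      rw [if_pos (Finset.mem_range.1 hj)]
    · rw [Finset.mul_sum]
      apply Finset.sum_congr rfl
      intro j _
      rw [Finset.mul_sum]
  · rw [Finset.sum_eq_single_of_mem ml (Finset.mem_range.2 h2)]
    · apply Finset.sum_congr rfl
      intro k _
      rw [if_pos rfl]
    · intro j _ hj
      apply Finset.sum_eq_zero
      intro k _
      rw [if_neg hj]

variable {n1 n2 n3 : ℕ} {ps1 ps2 ps3 : ℕ → ℕ → ℕ → ℕ}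

/-- **the test holds on the class of the parameters** -/
theorem fast_spec {w K m1 m2 BU BX BY len3 t1 t2 t3 : ℕ} (FT0 : FT w K m1 m2 BU BX BY)
    {l u p q b : ℤ} {m : ℕ}
    (h : HV n1 n2 n3 13 ps1 ps2 ps3 t1 t2 t3 (fun x y z => fT w K BU BX x (y * len3 + z))
      (fun x y z => fT w K BU BY x (y * len3 + z)) (J1 l u p q b m))
    {lam ml tt t R e1 P e0 : ℕ} (hm : m = lam * tt + ml) (hml : ml < lam) (ht : t = tt % 13)
    (hR0 : 0 < R) (hR : lam = R * e1) (hP : lam = P * e0)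
    (hV : 2 * R * K * (3060 * (e1 * 29808)) < 2 ^ w) (hV2 : e1 * 29808 + 2 < 2 ^ w)
    {x0 y0 z0 x1 y1 z1 : List (ℕ × ℕ)} {w0 w1 : List ℕ} {be : ℕ}
    (hx0 : ∀ j ≤ m, cy x0 j = cp n1 ps1 (eN l p q b m j))
    (hy0 : ∀ j ≤ m, cy y0 j = cp n2 ps2 (eN l p q b m j))
    (hz0 : ∀ j ≤ m, cy z0 j = cp n3 ps3 (eN l p q b m j))
    (hx1 : ∀ j < m, cy x1 j = cp n1 ps1 (eM u p q b m j))
    (hy1 : ∀ j < m, cy y1 j = cp n2 ps2 (eM u p q b m j))
    (hz1 : ∀ j < m, cy z1 j = cp n3 ps3 (eM u p q b m j))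
    (hw0 : ∀ j, cy w0 j = rs 13 (-(l * q * p ^ j))) (hw1 : ∀ j, cy w1 j = rs 13 (-(u * q * p ^ j)))
    (hbe : be = rs 13 (-(l * b)))
    (lx0 : x0.length = R) (lx1 : x1.length = R)
    (dy0 : y0.length ∣ P) (dz0 : z0.length ∣ P) (dy1 : y1.length ∣ P) (dz1 : z1.length ∣ P)
    (dw0 : w0.length ∣ P) (dw1 : w1.length ∣ P) {rep U G0 G1 cor G : ℕ}
    (hrep : rep = ∑ i ∈ range e0, (2 ^ (w * K)) ^ (P * i))
    (hU : U = rp (2 ^ (w * K)) (fun r => dig t1 (cy x0 r).1 *
        rowU BU (w * K) (2 ^ (w * K) - 1) (cy x0 r).2) (List.range R) * (2 ^ (w * K)) ^ R +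
      rp (2 ^ (w * K)) (fun r => dig t1 (cy x1 r).1 *
        rowU BU (w * K) (2 ^ (w * K) - 1) (cy x1 r).2) (List.range R))
    (hG0 : G0 = packL (2 ^ (w * K)) (fun j => tG t2 t3 BX BY len3 (w * K) (2 ^ (w * K) - 1) 13
      (cy y0 j) (cy z0 j) (cy w0 j)) (List.range P))
    (hG1 : G1 = packL (2 ^ (w * K)) (fun j => tG t2 t3 BX BY len3 (w * K) (2 ^ (w * K) - 1) 13
      (cy y1 j) (cy z1 j) (cy w1 j)) (List.range P))
    (hcor : cor = tC t2 t3 BY len3 (w * K) (2 ^ (w * K) - 1) 13 (cy y0 ml) (cy z0 ml) be)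
    (hG : G = ((G0 * rep) % (2 ^ (w * K)) ^ (ml + 1) + t * (G0 * rep) +
        cor * (2 ^ (w * K)) ^ ml) % ((2 ^ (w * K)) ^ R - 1) +
      (2 ^ (w * K)) ^ R * (((G1 * rep) % (2 ^ (w * K)) ^ ml + t * (G1 * rep)) %
        ((2 ^ (w * K)) ^ R - 1))) :
    (U * G / (2 ^ w) ^ (2 * R * K - 1) % 2 ^ w) % 13 = 0 := by
  have n13 : NeZero 13 := ⟨by norm_num⟩
  have dP : P ∣ lam := ⟨e0, hP⟩
  have hK := FT0.K0
  have h13 := HV_per h hm hml hx0 hy0 hz0 hx1 hy1 hz1 hw0 hw1 hbe (lx0 ▸ ⟨e1, hR⟩)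
    (dy0.trans dP) (dz0.trans dP) (lx1 ▸ ⟨e1, hR⟩) (dy1.trans dP) (dz1.trans dP)
    (dw0.trans dP) (dw1.trans dP)
  -- digits
  set g0 : ℕ → ℕ → ℕ := fun j => gD t2 t3 w K BX BY len3 13 (cy y0 j) (cy z0 j) (cy w0 j) with hg0
  set g1 : ℕ → ℕ → ℕ := fun j => gD t2 t3 w K BX BY len3 13 (cy y1 j) (cy z1 j) (cy w1 j) with hg1
  set gc : ℕ → ℕ := gC t2 t3 w K BY len3 13 (cy y0 ml) (cy z0 ml) be with hgc
  set a0 : ℕ → ℕ → ℕ := fun r k => dig t1 (cy x0 r).1 * wD w K BU (cy x0 r).2 (K - 1 - k) with ha0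
  set a1 : ℕ → ℕ → ℕ := fun r k => dig t1 (cy x1 r).1 * wD w K BU (cy x1 r).2 (K - 1 - k) with ha1
  have wl0 : ∀ j, cy w0 j ≤ 12 := fun j => by
    rw [hw0]; have := rs_lt (p := 13) (-(l * q * p ^ j)); omega
  have wl1 : ∀ j, cy w1 j ≤ 12 := fun j => by
    rw [hw1]; have := rs_lt (p := 13) (-(u * q * p ^ j)); omega
  have bel : be ≤ 12 := by rw [hbe]; have := rs_lt (p := 13) (-(l * b)); omega
  have gDle : ∀ (y z : ℕ × ℕ) (a k : ℕ), a ≤ 12 → k < K →
      gD t2 t3 w K BX BY len3 13 y z a k ≤ 2160 := by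
    intro y z a k ha hk
    unfold gD
    have q1 : dig t2 y.1 * dig t3 z.1 % 13 ≤ 12 := by
      have := Nat.mod_lt (dig t2 y.1 * dig t3 z.1) (show 0 < 13 by norm_num); omega
    have q2 := wD_le FT0.X FT0.bX (y.2 * len3 + z.2) k hk
    have q3 := wD_le FT0.Y FT0.bY (y.2 * len3 + z.2) k hk
    calc _ ≤ 12 * (3 * 12 + 12 * 12) := by gcongr
      _ = 2160 := by norm_num
  have gCle : ∀ k < K, gc k ≤ 1728 := by
    intro k hk
    simp only [hgc]
    unfold gC
    have q1 : dig t2 (cy y0 ml).1 * dig t3 (cy z0 ml).1 % 13 ≤ 12 := by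
      have := Nat.mod_lt (dig t2 (cy y0 ml).1 * dig t3 (cy z0 ml).1) (show 0 < 13 by norm_num)
      omega
    have q3 := wD_le FT0.Y FT0.bY ((cy y0 ml).2 * len3 + (cy z0 ml).2) k hk
    calc _ ≤ 12 * (12 * 12) := by gcongr
      _ = 1728 := by norm_num
  have ale : ∀ (x : ℕ × ℕ) (k : ℕ), k < K → dig t1 x.1 * wD w K BU x.2 (K - 1 - k) ≤ 3060 := by
    intro x k hk
    have q1 := dig_lt t1 x.1
    have q2 := wD_le FT0.U FT0.bU x.2 (K - 1 - k) (by omega)
    calc _ ≤ 255 * 12 := by gcongr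
      _ = 3060 := by norm_num
  have ht12 : t ≤ 12 := by rw [ht]; have := Nat.mod_lt tt (show 0 < 13 by norm_num); omega
  have hDle : ∀ (g : ℕ → ℕ → ℕ) (c : ℕ → ℕ) (ml1 : ℕ), (∀ j, ∀ k < K, g j k ≤ 2160) →
      (∀ k < K, c k ≤ 1728) → ∀ r < R, ∀ k < K,
      ∑ i ∈ range e1, hD g c ml1 ml t (R * i + r) k ≤ e1 * 29808 := by
    intro g c ml1 hg hc r _ k hk
    calc ∑ i ∈ range e1, hD g c ml1 ml t (R * i + r) k ≤ ∑ _i ∈ range e1, 29808 := by
          apply Finset.sum_le_sum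
          intro i _
          unfold hD
          have q1 := hg (R * i + r) k hk
          have q2 := hc k hk
          have q3 : t * g (R * i + r) k ≤ 12 * 2160 := by gcongr
          split_ifs <;> omega
      _ = e1 * 29808 := by rw [Finset.sum_const, Finset.card_range, smul_eq_mul]
  have hg0le : ∀ j, ∀ k < K, g0 j k ≤ 2160 := fun j k hk => gDle _ _ _ _ (wl0 j) hk
  have hg1le : ∀ j, ∀ k < K, g1 j k ≤ 2160 := fun j k hk => gDle _ _ _ _ (wl1 j) hk
  have hVbig : 29808 < 2 ^ w := by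
    by_cases he : e1 = 0
    · subst he
      rw [Nat.mul_zero] at hR
      omega
    · have : 29808 ≤ e1 * 29808 := Nat.le_mul_of_pos_left _ (by omega)
      omega
  have hper0 : ∀ j k, g0 (j % P) k = g0 j k := by
    intro j k
    simp only [hg0]
    rw [cy_mod dy0, cy_mod dz0, cy_mod dw0]
  have hper1 : ∀ j k, g1 (j % P) k = g1 j k := by
    intro j k
    simp only [hg1]
    rw [cy_mod dy1, cy_mod dz1, cy_mod dw1]
  have hZ : (2 : ℕ) ^ (w * K) = (2 ^ w) ^ K := pow_mul 2 w K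
  have eG0 : G0 = packL (2 ^ (w * K)) (fun j => packL (2 ^ w) (g0 j) (List.range K))
      (List.range P) := by
    rw [hG0]
    apply packL_congr'
    intro j _
    exact tG_eq t2 t3 w K BX BY len3 13 _ _ _
  have eG1 : G1 = packL (2 ^ (w * K)) (fun j => packL (2 ^ w) (g1 j) (List.range K))
      (List.range P) := by
    rw [hG1]
    apply packL_congr'
    intro j _
    exact tG_eq t2 t3 w K BX BY len3 13 _ _ _
  have ecor : cor = packL (2 ^ w) gc (List.range K) := by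
    rw [hcor]
    exact tC_eq t2 t3 w K BY len3 13 _ _ _
  have p0 := pack_hD (t := t) hZ g0 gc (fun j k hk => lt_of_le_of_lt (hg0le j k hk) (by omega)) hP
    hper0 hrep (ml1 := ml + 1) (ml := ml) (by omega) hml
  have p1 := pack_hD (t := t) hZ g1 (fun _ => 0)
    (fun j k hk => lt_of_le_of_lt (hg1le j k hk) (by omega)) hP
    hper1 hrep (ml1 := ml) (ml := ml) (by omega) hml
  rw [packL_zero, zero_mul, add_zero] at p1
  rw [← eG0, ← ecor] at p0
  rw [← eG1] at p1
  have main := prod_main (V := 2 ^ w) (K := K) (R := R) (e := e1) (A := 3060)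
    (Bd := e1 * 29808) hK hR0 a0 a1 (hD g0 gc (ml + 1) ml t) (hD g1 (fun _ => 0) ml ml t)
    (fun r _ k hk => ale (cy x0 r) k hk) (fun r _ k hk => ale (cy x1 r) k hk)
    (hDle g0 gc (ml + 1) hg0le gCle) (hDle g1 (fun _ => 0) ml hg1le (fun _ _ => by norm_num))
    (by norm_num) hV hV2 (Z := 2 ^ (w * K)) (U := U) (G := G) hZ
    (by
      have er : ∀ x : ℕ → ℕ × ℕ, rp (2 ^ (w * K)) (fun r => dig t1 (x r).1 *
          rowU BU (w * K) (2 ^ (w * K) - 1) (x r).2) (List.range R) =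
          rp (2 ^ (w * K)) (fun r => rp (2 ^ w) (fun k => dig t1 (x r).1 *
            wD w K BU (x r).2 (K - 1 - k)) (List.range K)) (List.range R) := by
        intro x
        apply rp_congr
        intro r _
        rw [rowU_rp, rp_mul]
      rw [hU, er (cy x0), er (cy x1)])
    (by rw [hG, ← p0, ← p1, hR])
  rw [main, ← hR, sum_hD (fun j k => a0 (j % R) k) g0 gc t (by omega) hml,
    sum_hD (fun j k => a1 (j % R) k) g1 (fun _ => 0) t (by omega) hml]
  simp only [mul_zero, Finset.sum_const_zero, add_zero]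
  have c0 : ∀ j, cy x0 (j % R) = cy x0 j := fun j => cy_mod (lx0 ▸ dvd_refl _) j
  have c1 : ∀ j, cy x1 (j % R) = cy x1 j := fun j => cy_mod (lx1 ▸ dvd_refl _) j
  have ff : ∀ (x y z : ℕ × ℕ) (a : ℕ), ((∑ k ∈ range K, dig t1 x.1 * wD w K BU x.2 (K - 1 - k) *
      gD t2 t3 w K BX BY len3 13 y z a k : ℕ) : ZMod 13) =
      ((vf t1 t2 t3 (fun x y z => fT w K BU BX x (y * len3 + z))
        (fun x y z => fT w K BU BY x (y * len3 + z)) x y z a : ℕ) : ZMod 13) := by
    intro x y z a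
    unfold vf gD fT
    simp only []
    push_cast
    rw [Finset.mul_sum, Finset.mul_sum, ← Finset.sum_add_distrib, Finset.mul_sum]
    apply Finset.sum_congr rfl
    intro k _
    have e := ZMod.natCast_mod (dig t2 y.1 * dig t3 z.1) 13
    rw [e]
    push_cast
    ring
  have fc : ((∑ k ∈ range K, a0 (ml % R) k * gc k : ℕ) : ZMod 13) =
      ((vf t1 t2 t3 (fun x y z => fT w K BU BX x (y * len3 + z))
        (fun x y z => fT w K BU BY x (y * len3 + z)) (cy x0 ml) (cy y0 ml) (cy z0 ml)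
        (cy w0 ml + be) : ℕ) : ZMod 13) -
      ((vf t1 t2 t3 (fun x y z => fT w K BU BX x (y * len3 + z))
        (fun x y z => fT w K BU BY x (y * len3 + z)) (cy x0 ml) (cy y0 ml) (cy z0 ml)
        (cy w0 ml) : ℕ) : ZMod 13) := by
    simp only [ha0, hgc]
    rw [c0]
    unfold vf gC
    have e := ZMod.natCast_mod (dig t2 (cy y0 ml).1 * dig t3 (cy z0 ml).1) 13
    have e2 : ((∑ k ∈ range K, dig t1 (cy x0 ml).1 * wD w K BU (cy x0 ml).2 (K - 1 - k) *
        (dig t2 (cy y0 ml).1 * dig t3 (cy z0 ml).1 % 13 *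
        (be * wD w K BY ((cy y0 ml).2 * len3 + (cy z0 ml).2) k)) : ℕ) : ZMod 13) =
        (dig t1 (cy x0 ml).1 * dig t2 (cy y0 ml).1 * dig t3 (cy z0 ml).1 * be : ℕ) *
        ((fT w K BU BY (cy x0 ml).2 ((cy y0 ml).2 * len3 + (cy z0 ml).2) : ℕ) : ZMod 13) := by
      unfold fT
      push_cast
      rw [Finset.mul_sum]
      apply Finset.sum_congr rfl
      intro k _
      rw [e]
      push_cast
      ring
    rw [e2]
    push_cast
    ring
  have hmod : ∀ a : ℕ, (a : ZMod 13) = 0 → a % 13 = 0 := fun a ha =>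
    Nat.mod_eq_zero_of_dvd ((ZMod.natCast_eq_zero_iff _ _).1 ha)
  apply hmod
  have h13' := (ZMod.natCast_eq_zero_iff _ _).2 (Nat.dvd_of_mod_eq_zero h13)
  have htt : (t : ZMod 13) = tt := by rw [ht]; exact ZMod.natCast_mod _ _
  have s0 : ∀ n, ((∑ j ∈ range n, ∑ k ∈ range K, a0 (j % R) k * g0 j k : ℕ) : ZMod 13) =
      ((∑ j ∈ range n, vf t1 t2 t3 (fun x y z => fT w K BU BX x (y * len3 + z))
        (fun x y z => fT w K BU BY x (y * len3 + z)) (cy x0 j) (cy y0 j) (cy z0 j)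
        (cy w0 j) : ℕ) : ZMod 13) := by
    intro n
    rw [Nat.cast_sum, Nat.cast_sum]
    apply Finset.sum_congr rfl
    intro j _
    rw [← ff]
    simp only [ha0, hg0]
    rw [c0]
  have s1 : ∀ n, ((∑ j ∈ range n, ∑ k ∈ range K, a1 (j % R) k * g1 j k : ℕ) : ZMod 13) =
      ((∑ j ∈ range n, vf t1 t2 t3 (fun x y z => fT w K BU BX x (y * len3 + z))
        (fun x y z => fT w K BU BY x (y * len3 + z)) (cy x1 j) (cy y1 j) (cy z1 j)
        (cy w1 j) : ℕ) : ZMod 13) := by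
    intro n
    rw [Nat.cast_sum, Nat.cast_sum]
    apply Finset.sum_congr rfl
    intro j _
    rw [← ff]
    simp only [ha1, hg1]
    rw [c1]
  rw [Nat.cast_add, Nat.cast_add, Nat.cast_add, Nat.cast_mul, Nat.cast_add, Nat.cast_mul, s0, s0,
    s1, s1, fc, htt, Finset.sum_range_succ]
  rw [Nat.cast_add, Nat.cast_add, Nat.cast_add, Nat.cast_mul, Nat.cast_add] at h13'
  rw [Nat.cast_add, ← h13']
  ring

end Pool.Agent.OEG.W
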