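import Pool.Agent.OEG.StM

/-!
# Project OEG: the last step of W17 and W19 (helper29 for helper5)
-/

set_option autoImplicit false

namespace Pool.Agent.OEG.WF

lemma pw {l u : ℤ} (hl : OEX.Sg l) (hu : OEX.Sg u) (m : ℕ) :
    l * (u * l) ^ m = 1 ∨ l * (u * l) ^ m = -1 := by
  have h : (u * l) ^ m = 1 ∨ (u * l) ^ m = -1 := by
    have h0 : u * l = 1 ∨ u * l = -1 := by
      rcases hl with rfl | rfl <;> rcases hu with rfl | rfl <;> norm_num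
    rcases h0 with h0 | h0
    · left; rw [h0, one_pow]
    · rw [h0]; exact neg_one_pow_eq_or ℤ m
  rcases hl with rfl | rfl <;> rcases h with h | h <;> rw [h] <;> norm_num

/-- the discriminant modulo `1365` in the first case -/
lemma disc {D l u p q b : ℤ} {m : ℕ} (hl : OEX.Sg l) (hu : OEX.Sg u)
    (hD : D = (q * p ^ m + b) ^ 2 + 4 * l * p ^ m)
    (hp : (1365 : ℤ) ∣ p - u * l) (hb : (1365 : ℤ) ∣ b) :
    (1365 : ℤ) ∣ D - (q ^ 2 + 4 * (l * (u * l) ^ m)) := by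
  have hpm : (1365 : ℤ) ∣ p ^ m - (u * l) ^ m := hp.trans (sub_dvd_pow_sub_pow _ _ _)
  have h2 : ((u * l) ^ m) ^ 2 = 1 := by
    have h0 : (u * l) ^ 2 = 1 := by
      rcases hl with rfl | rfl <;> rcases hu with rfl | rfl <;> norm_num
    rw [← pow_mul, mul_comm m 2, pow_mul, h0, one_pow]
  obtain ⟨x, hx⟩ := hpm
  obtain ⟨y, hy⟩ := hb
  have e : p ^ m = (u * l) ^ m + 1365 * x := by linarith
  rw [hD, e, hy]
  refine ⟨q ^ 2 * (2 * (u * l) ^ m * x + 1365 * x ^ 2) +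
    2 * q * ((u * l) ^ m + 1365 * x) * y + 1365 * y ^ 2 + 4 * l * x, ?_⟩
  linear_combination q ^ 2 * h2

lemma all4 {x : ℤ} {L : List ℕ} (hL : ∀ n ∈ [3, 5, 7, 13], n ∈ L) (h : ∀ n : ℕ, n ∈ L → (n : ℤ) ∣ x) :
    (1365 : ℤ) ∣ x := by
  have h3 := h 3 (hL 3 (by simp))
  have h5 := h 5 (hL 5 (by simp))
  have h7 := h 7 (hL 7 (by simp))
  have h13 := h 13 (hL 13 (by simp))
  push_cast at h3 h5 h7 h13
  omega

lemma sq_dvd {N q a : ℤ} (h : N ∣ q - a ∨ N ∣ q + a) : N ∣ q ^ 2 - a ^ 2 := by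
  rcases h with h | h
  · have e : q ^ 2 - a ^ 2 = (q - a) * (q + a) := by ring
    rw [e]; exact h.mul_right _
  · have e : q ^ 2 - a ^ 2 = (q + a) * (q - a) := by ring
    rw [e]; exact h.mul_right _

lemma toG2 {u p q : ℤ} {m : ℕ} (hm : 1 ≤ m) (hp : ∀ n : ℕ, n ∈ [3, 5, 7, 13] → ¬ ((n : ℤ) ∣ p))
    (h : u = -1 ∧ ∃ e, OEX.Sg e ∧ ∀ n : ℕ, n ∈ [3, 5, 7, 13] → (n : ℤ) ∣ q - e ∧
      (n : ℤ) ∣ p ^ m - p) : G2 u p q m := by
  obtain ⟨hu, e, he, h⟩ := h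
  refine ⟨hu, ⟨e, he, all4 (fun n hn => hn) fun n hn => (h n hn).1⟩,
    all4 (fun n hn => hn) fun n hn => ?_⟩
  have hpr : n.Prime := by
    simp only [List.mem_cons, List.not_mem_nil, or_false] at hn
    rcases hn with rfl | rfl | rfl | rfl <;> norm_num
  have h1 := (h n hn).2
  have e1 : p ^ m - p = p * (p ^ (m - 1) - 1) := by
    have : p ^ m = p * p ^ (m - 1) := by rw [← pow_succ']; congr 1; omega
    rw [this]; ring
  rw [e1] at h1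
  exact ((Nat.prime_iff_prime_int.1 hpr).dvd_or_dvd h1).resolve_left (hp n hn)

lemma toG3 {l p q : ℤ} {m : ℕ}
    (h : l = -1 ∧ ∃ e, OEX.Sg e ∧ ∀ n : ℕ, n ∈ [3, 5, 7, 13] → (n : ℤ) ∣ q - e * p ∧
      (n : ℤ) ∣ p ^ (m + 2) - 1) : G3 l p q m := by
  obtain ⟨hl, e, he, h⟩ := h
  exact ⟨hl, ⟨e, he, all4 (fun n hn => hn) fun n hn => (h n hn).1⟩,
    all4 (fun n hn => hn) fun n hn => (h n hn).2⟩

end Pool.Agent.OEG.WF

namespace Pool.Agent.OEG.W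

open Pool.Agent.OEG.WF

theorem fin17 (l u p q b : ℤ) (m : ℕ) (hl : OEX.Sg l) (hu : OEX.Sg u) (hm : 1 ≤ m)
    (hp : ∀ n : ℕ, n ∈ [3, 5, 7, 13] → ¬ ((n : ℤ) ∣ p))
    (hD : ((q * p ^ m + b) ^ 2 + 4 * l * p ^ m) % 455 = 293)
    (h : (∀ n : ℕ, n ∈ [3, 5, 7, 13, 17] → (n : ℤ) ∣ p - u * l ∧ (n : ℤ) ∣ b) ∨
      (u = -1 ∧ ∃ e, OEX.Sg e ∧ ∀ n : ℕ, n ∈ [3, 5, 7, 13] → (n : ℤ) ∣ q - e ∧
        (n : ℤ) ∣ p ^ m - p) ∨
      (l = -1 ∧ ∃ e, OEX.Sg e ∧ ∀ n : ℕ, n ∈ [3, 5, 7, 13] → (n : ℤ) ∣ q - e * p ∧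
        (n : ℤ) ∣ p ^ (m + 2) - 1)) :
    G1 l u p q b ∨ G2 u p q m ∨ G3 l p q m := by
  rcases h with h | h | h
  · have hp1 : (1365 : ℤ) ∣ p - u * l := all4 (L := [3, 5, 7, 13, 17]) (by simp) fun n hn => (h n hn).1
    have hb1 : (1365 : ℤ) ∣ b := all4 (L := [3, 5, 7, 13, 17]) (by simp) fun n hn => (h n hn).2
    have h17 := h 17 (by simp)
    have hd := WF.disc (D := (q * p ^ m + b) ^ 2 + 4 * l * p ^ m) (q := q) (m := m) hl hu rfl hp1 hb1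
    have hw := WF.pw hl hu m
    refine Or.inl ⟨hp1, hb1, fun _ => by exact_mod_cast h17, fun hq => ?_⟩
    exfalso
    have hq2 := sq_dvd hq
    generalize (q * p ^ m + b) ^ 2 + 4 * l * p ^ m = D at hD hd
    generalize l * (u * l) ^ m = w at hd hw
    generalize q ^ 2 = r at hd hq2
    rcases hw with rfl | rfl <;> omega
  · exact Or.inr (Or.inl (toG2 hm hp h))
  · exact Or.inr (Or.inr (toG3 h))

theorem fin19 (l u p q b : ℤ) (m : ℕ) (hl : OEX.Sg l) (hu : OEX.Sg u) (hm : 1 ≤ m)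
    (hp : ∀ n : ℕ, n ∈ [3, 5, 7, 13] → ¬ ((n : ℤ) ∣ p))
    (hD : ((q * p ^ m + b) ^ 2 + 4 * l * p ^ m) % 455 = 437)
    (h : (∀ n : ℕ, n ∈ [3, 5, 7, 13, 19] → (n : ℤ) ∣ p - u * l ∧ (n : ℤ) ∣ b) ∨
      (u = -1 ∧ ∃ e, OEX.Sg e ∧ ∀ n : ℕ, n ∈ [3, 5, 7, 13] → (n : ℤ) ∣ q - e ∧
        (n : ℤ) ∣ p ^ m - p) ∨
      (l = -1 ∧ ∃ e, OEX.Sg e ∧ ∀ n : ℕ, n ∈ [3, 5, 7, 13] → (n : ℤ) ∣ q - e * p ∧
        (n : ℤ) ∣ p ^ (m + 2) - 1)) :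
    G1 l u p q b ∨ G2 u p q m ∨ G3 l p q m := by
  rcases h with h | h | h
  · have hp1 : (1365 : ℤ) ∣ p - u * l := all4 (L := [3, 5, 7, 13, 19]) (by simp) fun n hn => (h n hn).1
    have hb1 : (1365 : ℤ) ∣ b := all4 (L := [3, 5, 7, 13, 19]) (by simp) fun n hn => (h n hn).2
    have h19 := h 19 (by simp)
    have hd := WF.disc (D := (q * p ^ m + b) ^ 2 + 4 * l * p ^ m) (q := q) (m := m) hl hu rfl hp1 hb1
    have hw := WF.pw hl hu m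
    refine Or.inl ⟨hp1, hb1, fun hq => ?_, fun _ => by exact_mod_cast h19⟩
    exfalso
    have hq2 := sq_dvd hq
    generalize (q * p ^ m + b) ^ 2 + 4 * l * p ^ m = D at hD hd
    generalize l * (u * l) ^ m = w at hd hw
    generalize q ^ 2 = r at hd hq2
    rcases hw with rfl | rfl <;> omega
  · exact Or.inr (Or.inl (toG2 hm hp h))
  · exact Or.inr (Or.inr (toG3 h))

end Pool.Agent.OEG.W
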