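import Pool.Agent.OEG.WF

/-!
Project OEG, elimination for the first family: from the tables to the packed tables.
-/

set_option autoImplicit false

namespace Pool.Agent.OEG.W

open Pool.Agent.LibH4 Pool.Agent.LibH4.Ker
open Pool.Agent.Lib_helper5 Pool.Agent.Lib_helper5.LK Pool.Agent.Lib_helper5.TB
open Pool.Agent.LibH4.S7 (Rl)
open Pool.Agent.PSX.Ev (cp OSys adP_JO)
open Finset (range)

/-- check of a packed table -/
def ckS (LL BX BY : ℕ) (rows : List (ℕ × ℕ)) : ℕ → Bool :=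
  @List.rec (ℕ × ℕ) (fun _ => ℕ → Bool) (fun _ => true)
    (fun row _ ih i => @Bool.rec (fun _ => Bool) false
      (@Bool.rec (fun _ => Bool) false (ih (Nat.succ i))
        (Nat.beq (rowU BY (Nat.mul (nat_lit 8) LL)
          (Nat.sub (Nat.pow (nat_lit 2) (Nat.mul (nat_lit 8) LL)) (nat_lit 1)) i) row.2))
      (Nat.beq (rowU BX (Nat.mul (nat_lit 8) LL)
        (Nat.sub (Nat.pow (nat_lit 2) (Nat.mul (nat_lit 8) LL)) (nat_lit 1)) i) row.1)) rows

lemma dig_row {B LL i o : ℕ} (ho : o < LL) : dig (B / 2 ^ (8 * LL * i) % 2 ^ (8 * LL)) o =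
    dig B (i * LL + o) := by
  change ((B / 2 ^ (8 * LL * i) % 2 ^ (8 * LL)) >>> (8 * o)) % 256 =
    (B >>> (8 * (i * LL + o))) % 256
  rw [Nat.shiftRight_eq_div_pow, Nat.shiftRight_eq_div_pow]
  obtain ⟨d, hd⟩ : ∃ d, 8 * LL = 8 * o + (8 + d) := ⟨8 * LL - 8 * o - 8, by omega⟩
  have e1 : (2 : ℕ) ^ (8 * LL) = 2 ^ (8 * o) * 2 ^ (8 + d) := by rw [hd, pow_add]
  have h1 : B / 2 ^ (8 * LL * i) % 2 ^ (8 * LL) / 2 ^ (8 * o) =
      B / 2 ^ (8 * LL * i) / 2 ^ (8 * o) % 2 ^ (8 + d) := by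
    rw [e1, Nat.mod_mul_right_div_self]
  rw [h1, pow_add, show (256 : ℕ) = 2 ^ 8 by norm_num, Nat.mod_mul_right_mod, Nat.div_div_eq_div_mul,
    ← pow_add]
  congr 3
  ring

lemma ckS_spec {LL BX BY : ℕ} {rows : List (ℕ × ℕ)} {i0 : ℕ}
    (h : ckS LL BX BY rows i0 = true) : ∀ i row, rows[i]? = some row → ∀ o < LL,
      dig BX ((i0 + i) * LL + o) = dig row.1 o ∧ dig BY ((i0 + i) * LL + o) = dig row.2 o := by
  induction rows generalizing i0 with
  | nil => intro i row hr; simp at hr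
  | cons r0 rows ih =>
    have e : ckS LL BX BY (r0 :: rows) i0 = @Bool.rec (fun _ => Bool) false
      (@Bool.rec (fun _ => Bool) false (ckS LL BX BY rows (Nat.succ i0))
        (Nat.beq (rowU BY (8 * LL) (2 ^ (8 * LL) - 1) i0) r0.2))
      (Nat.beq (rowU BX (8 * LL) (2 ^ (8 * LL) - 1) i0) r0.1) := rfl
    rw [e] at h
    obtain ⟨h1, h2⟩ := boolrec_spec h
    obtain ⟨h3, h4⟩ := boolrec_spec h2
    intro i row hr o ho
    cases i with
    | zero =>
      rw [List.getElem?_cons_zero, Option.some.injEq] at hr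
      subst hr
      have h5 := Nat.eq_of_beq_eq_true h1
      have h6 := Nat.eq_of_beq_eq_true h3
      rw [rowU_eq] at h5 h6
      rw [← h5, ← h6, dig_row ho, dig_row ho, add_zero]
      exact ⟨rfl, rfl⟩
    | succ i =>
      rw [List.getElem?_cons_succ] at hr
      have := ih h4 i row hr o ho
      rw [Nat.succ_eq_add_one] at this
      rw [show i0 + (i + 1) = i0 + 1 + i by ring]
      exact this

/-- position of a form at a component -/
def ps (n ex PT : ℕ) : ℕ → ℕ → ℕ → ℕ := pos n ex PT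

lemma pos_lt {D : ℤ} {J : List Fm} {n ex PT Q : ℕ} {F : List (ℕ × ℕ)} [NeZero n]
    (C : CompOK n ex PT F (adP n)) (S : OSys Q D J) (hn : n.Prime) (h2 : n ≠ 2) (hQ : n ∣ Q) :
    ∀ e ∈ J, (cp n (pos n ex PT) e).2 < F.length := by
  intro e he
  obtain ⟨_, h3⟩ := C.ok _ _ _ (rs_lt e.P) (rs_lt e.R) (rs_lt e.S) (adP_JO S hn h2 hQ e he)
  unfold cp
  by_contra hc
  rw [List.getElem?_eq_none (not_lt.1 hc)] at h3
  cases h3

lemma pos1_lt {J : List Fm} : ∀ e ∈ J, (cp 1 (pos 1 0 PT1) e).2 < 1 := by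
  intro e _
  rw [Pool.Agent.PSX.Ev.cp_one]
  norm_num

/-- **the relation with other tables** -/
theorem HV_of {r : Rl} {J : List Fm} [NeZero r.l] (h : Hj r J) (hk : ∀ e ∈ J, e.κ = 3) {L2 : ℕ}
    {X Y : ℕ → ℕ → ℕ → ℕ}
    (p1 : ∀ e ∈ J, (cp r.n1 (pos r.n1 r.ex1 r.PT1) e).2 < r.rows.length)
    (p2 : ∀ e ∈ J, (cp r.n2 (pos r.n2 r.ex2 r.PT2) e).2 < L2)
    (p3 : ∀ e ∈ J, (cp r.n3 (pos r.n3 r.ex3 r.PT3) e).2 < r.len3)
    (hX : ∀ i row, r.rows[i]? = some row → ∀ b < L2, ∀ c < r.len3,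
      X i b c % r.l = dig row.1 (b * r.len3 + c) % r.l ∧
      Y i b c % r.l = dig row.2 (b * r.len3 + c) % r.l) :
    HV r.n1 r.n2 r.n3 r.l (pos r.n1 r.ex1 r.PT1) (pos r.n2 r.ex2 r.PT2) (pos r.n3 r.ex3 r.PT3)
      r.t1 r.t2 r.t3 X Y J := by
  unfold HV
  unfold Hj at h
  have key : ∀ L : List Fm, (∀ e ∈ L, e ∈ J) →
      (((L.map fun e => vf r.t1 r.t2 r.t3 X Y (cp r.n1 (pos r.n1 r.ex1 r.PT1) e)
        (cp r.n2 (pos r.n2 r.ex2 r.PT2) e) (cp r.n3 (pos r.n3 r.ex3 r.PT3) e)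
        (rs r.l e.α)).sum : ℕ) : ZMod r.l) = (((L.map r.val).sum : ℕ) : ZMod r.l) := by
    intro L
    induction L with
    | nil => intro _; rfl
    | cons e L ih =>
      intro hL
      rw [List.map_cons, List.map_cons, List.sum_cons, List.sum_cons, Nat.cast_add, Nat.cast_add,
        ih (fun x hx => hL x (by simp [hx]))]
      congr 1
      have he := hL e (by simp)
      have q1 := p1 e he
      obtain ⟨row, hrow⟩ : ∃ row, r.rows[(cp r.n1 (pos r.n1 r.ex1 r.PT1) e).2]? = some row :=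
        ⟨_, List.getElem?_eq_getElem q1⟩
      obtain ⟨x1, x2⟩ := hX _ row hrow _ (p2 e he) _ (p3 e he)
      have y1 := (ZMod.natCast_eq_natCast_iff _ _ _).2 x1
      have y2 := (ZMod.natCast_eq_natCast_iff _ _ _).2 x2
      have hd : r.rows.getD (cp r.n1 (pos r.n1 r.ex1 r.PT1) e).2 (0, 0) = row := by
        rw [List.getD_eq_getElem?_getD, hrow, Option.getD_some]
      have ev : r.val e = dig r.t1 (rs r.n1 e.P) * dig r.t2 (rs r.n2 e.P) * dig r.t3 (rs r.n3 e.P) *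
          (e.κ * dig (r.rows.getD (cp r.n1 (pos r.n1 r.ex1 r.PT1) e).2 (0, 0)).1
            ((cp r.n2 (pos r.n2 r.ex2 r.PT2) e).2 * r.len3 +
              (cp r.n3 (pos r.n3 r.ex3 r.PT3) e).2) +
          rs r.l e.α * dig (r.rows.getD (cp r.n1 (pos r.n1 r.ex1 r.PT1) e).2 (0, 0)).2
            ((cp r.n2 (pos r.n2 r.ex2 r.PT2) e).2 * r.len3 +
              (cp r.n3 (pos r.n3 r.ex3 r.PT3) e).2)) := rfl
      rw [ev, hd, hk e he]
      unfold vf
      push_cast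
      rw [y1, y2]
      rfl
  have h1 := key J (fun e he => he)
  have h2 := (ZMod.natCast_eq_zero_iff _ _).2 (Nat.dvd_of_mod_eq_zero h)
  rw [h2] at h1
  exact Nat.mod_eq_zero_of_dvd ((ZMod.natCast_eq_zero_iff _ _).1 h1)

lemma J1_kappa (l u p q b : ℤ) (m : ℕ) : ∀ e ∈ J1 l u p q b m, e.κ = 3 := by
  intro e he
  rw [J1_eq, List.mem_append, List.mem_map, List.mem_map] at he
  rcases he with ⟨j, _, rfl⟩ | ⟨j, _, rfl⟩ <;> rfl

end Pool.Agent.OEG.W
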