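import Pool.Agent.OEG.WG

/-!
Project OEG, elimination for the first family: enumeration of classes, records in relations.
-/

set_option autoImplicit false

namespace Pool.Agent.OEG.W

open Pool.Agent.LibH4 Pool.Agent.LibH4.Ker
open Pool.Agent.Lib_helper5 Pool.Agent.Lib_helper5.LK Pool.Agent.Lib_helper5.TB
open Pool.Agent.LibH4.S7 (Rl)
open Pool.Agent.PSX.Ev (cp OSys adP_JO)
open Finset (range)

/-! ### steps which only add elements -/

/-- a step which only adds elements -/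
def Kp {β : Type} (s : List β → (List β → Bool) → Bool) : Prop :=
  ∀ a k, s a k = true → ∃ a', (∀ y ∈ a, y ∈ a') ∧ k a' = true

/-- a step which adds an element with a property -/
def Ht {β : Type} (s : List β → (List β → Bool) → Bool) (φ : β → Prop) : Prop :=
  ∀ a k, s a k = true → ∃ a', (∃ y ∈ a', φ y) ∧ k a' = true

lemma foldC_kp {β : Type} {step : ℕ → List β → (List β → Bool) → Bool} (n : ℕ)
    (h : ∀ f < n, Kp (step f)) : Kp (foldC step n) := by
  induction n with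
  | zero => intro a k hk; exact ⟨a, fun y hy => hy, hk⟩
  | succ n ih =>
    intro a k hk
    have e : foldC step (n + 1) a k = step n a fun a' => foldC step n a' k := rfl
    rw [e] at hk
    obtain ⟨a', h1, h2⟩ := h n (by omega) a _ hk
    obtain ⟨a'', h3, h4⟩ := ih (fun f hf => h f (by omega)) a' k h2
    exact ⟨a'', fun y hy => h3 y (h1 y hy), h4⟩

lemma foldC_ht {β : Type} {step : ℕ → List β → (List β → Bool) → Bool} {φ : β → Prop} {n f0 : ℕ}
    (hf : f0 < n) (h : ∀ f < n, Kp (step f)) (h0 : Ht (step f0) φ) : Ht (foldC step n) φ := by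
  induction n with
  | zero => omega
  | succ n ih =>
    intro a k hk
    have e : foldC step (n + 1) a k = step n a fun a' => foldC step n a' k := rfl
    rw [e] at hk
    by_cases hn : f0 = n
    · subst hn
      obtain ⟨a', ⟨y, g1, g2⟩, g3⟩ := h0 a _ hk
      obtain ⟨a'', h3, h4⟩ := foldC_kp f0 (fun f hf => h f (by omega)) a' k g3
      exact ⟨a'', ⟨y, h3 y g1, g2⟩, h4⟩
    · obtain ⟨a', h1, h2⟩ := h n (by omega) a _ hk
      exact ih (by omega) (fun f hf => h f (by omega)) a' k h2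

lemma foldL_kp {α β : Type} {step : α → List β → (List β → Bool) → Bool} {L : List α}
    (h : ∀ x ∈ L, Kp (step x)) : Kp (foldL step L) := by
  induction L with
  | nil => intro a k hk; exact ⟨a, fun y hy => hy, hk⟩
  | cons x L ih =>
    intro a k hk
    have e : foldL step (x :: L) a k = step x a fun a' => foldL step L a' k := rfl
    rw [e] at hk
    obtain ⟨a', h1, h2⟩ := h x (by simp) a _ hk
    obtain ⟨a'', h3, h4⟩ := ih (fun y hy => h y (by simp [hy])) a' k h2
    exact ⟨a'', fun y hy => h3 y (h1 y hy), h4⟩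

lemma foldL_ht {α β : Type} {step : α → List β → (List β → Bool) → Bool} {φ : β → Prop}
    {L : List α} {x0 : α} (hx : x0 ∈ L) (h : ∀ x ∈ L, Kp (step x)) (h0 : Ht (step x0) φ) :
    Ht (foldL step L) φ := by
  induction L with
  | nil => cases hx
  | cons x L ih =>
    intro a k hk
    have e : foldL step (x :: L) a k = step x a fun a' => foldL step L a' k := rfl
    rw [e] at hk
    by_cases hn : x0 = x
    · subst hn
      obtain ⟨a', ⟨y, g1, g2⟩, g3⟩ := h0 a _ hk
      obtain ⟨a'', h3, h4⟩ := foldL_kp (fun z hz => h z (by simp [hz])) a' k g3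
      exact ⟨a'', ⟨y, h3 y g1, g2⟩, h4⟩
    · have hx' : x0 ∈ L := by
        rcases List.mem_cons.1 hx with h | h
        · exact absurd h hn
        · exact h
      obtain ⟨a', h1, h2⟩ := h x (by simp) a _ hk
      exact ih hx' (fun y hy => h y (by simp [hy])) a' k h2

/-- all the elements have a property, and are kept -/
def Kq {β : Type} (s : List β → (List β → Bool) → Bool) (ψ : β → Prop) : Prop :=
  ∀ a k, (∀ y ∈ a, ψ y) → s a k = true → ∃ a', (∀ y ∈ a', ψ y) ∧ (∀ y ∈ a, y ∈ a') ∧ k a' = true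

/-- adds an element with a property, all the elements having another one -/
def Hq {β : Type} (s : List β → (List β → Bool) → Bool) (ψ φ : β → Prop) : Prop :=
  ∀ a k, (∀ y ∈ a, ψ y) → s a k = true →
    ∃ a', (∀ y ∈ a', ψ y) ∧ (∃ y ∈ a', φ y) ∧ k a' = true

lemma foldC_kq {β : Type} {step : ℕ → List β → (List β → Bool) → Bool} {ψ : β → Prop} (n : ℕ)
    (h : ∀ f < n, Kq (step f) ψ) : Kq (foldC step n) ψ := by
  induction n with
  | zero => intro a k ha hk; exact ⟨a, ha, fun y hy => hy, hk⟩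
  | succ n ih =>
    intro a k ha hk
    have e : foldC step (n + 1) a k = step n a fun a' => foldC step n a' k := rfl
    rw [e] at hk
    obtain ⟨a', h0, h1, h2⟩ := h n (by omega) a _ ha hk
    obtain ⟨a'', h5, h3, h4⟩ := ih (fun f hf => h f (by omega)) a' k h0 h2
    exact ⟨a'', h5, fun y hy => h3 y (h1 y hy), h4⟩

lemma foldC_hq {β : Type} {step : ℕ → List β → (List β → Bool) → Bool} {ψ φ : β → Prop}
    {n f0 : ℕ} (hf : f0 < n) (h : ∀ f < n, Kq (step f) ψ) (h0 : Hq (step f0) ψ φ) :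
    Hq (foldC step n) ψ φ := by
  induction n with
  | zero => omega
  | succ n ih =>
    intro a k ha hk
    have e : foldC step (n + 1) a k = step n a fun a' => foldC step n a' k := rfl
    rw [e] at hk
    by_cases hn : f0 = n
    · subst hn
      obtain ⟨a', g0, ⟨y, g1, g2⟩, g3⟩ := h0 a _ ha hk
      obtain ⟨a'', h5, h3, h4⟩ := foldC_kq f0 (fun f hf => h f (by omega)) a' k g0 g3
      exact ⟨a'', h5, ⟨y, h3 y g1, g2⟩, h4⟩
    · obtain ⟨a', h1, _, h2⟩ := h n (by omega) a _ ha hk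
      exact ih (by omega) (fun f hf => h f (by omega)) a' k h1 h2

/-! ### enumeration -/

/-- the records of the classes with a given `P` -/
def enP (n o : ℕ) (ps : ℕ → ℕ → ℕ → ℕ) (bl bu : Bool) (mo qm : ℕ) (ck : ℕ → Bool) (P : ℕ)
    (a0 : List Rc) (k0 : List Rc → Bool) : Bool :=
  strict (Nat.mod (Nat.add (Nat.mul (sr bu n) P) (sr (!bl) n)) n) fun r =>
    foldC (fun Q acc k => @Nat.rec (fun _ => Bool)
        (@Bool.rec (fun _ => Bool) (k acc)
          (foldC (fun B acc k => recK n o ps bl bu mo P Q B ck (k acc) fun rc => k (rc :: acc)) n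
            acc k)
          (Nat.beq r (nat_lit 0)))
        (fun _ _ => strict (Nat.mod (Nat.mul r (Nat.pow Q (Nat.sub n (nat_lit 2)))) n) fun B =>
          recK n o ps bl bu mo P Q B ck (k acc) fun rc => k (rc :: acc)) Q) qm a0 k0

/-- the records of the classes modulo `n` with `f0 < P ≤ f0 + c` -/
def enR (n o : ℕ) (ps : ℕ → ℕ → ℕ → ℕ) (bl bu : Bool) (mo qm : ℕ) (ck : ℕ → Bool) (f0 c : ℕ) :
    List Rc → (List Rc → Bool) → Bool :=
  foldC (fun f a0 k0 => strict (Nat.succ (Nat.add f0 f)) fun P =>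
    enP n o ps bl bu mo qm ck P a0 k0) c

/-- nonempty lists -/
structure Ne (r : Rc) : Prop where
  c0 : r.c0 ≠ []
  c1 : r.c1 ≠ []
  a0 : r.a0 ≠ []
  a1 : r.a1 ≠ []

lemma RcL.ne {o : ℕ} {r : Rc} (h : RcL o r) (ho : 0 < o) : Ne r := by
  have q : ∀ {α : Type} {l : List α}, l.length = o → l ≠ [] := by
    intro α l hl hc
    rw [hc, List.length_nil] at hl
    omega
  exact ⟨q h.c0, q h.c1, q h.a0, q h.a1⟩

lemma rec_kq (n o : ℕ) (ps : ℕ → ℕ → ℕ → ℕ) (bl bu : Bool) (mo : ℕ) (ck : ℕ → Bool)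
    (P Q B : ℕ) : Kq (fun (acc : List Rc) (k : List Rc → Bool) =>
      recK n o ps bl bu mo P Q B ck (k acc) fun rc => k (rc :: acc)) (RcL o) := by
  intro a k ha h
  rcases recK_keep h with h | ⟨rc, h1, h2⟩
  · exact ⟨a, ha, fun y hy => hy, h⟩
  · refine ⟨rc :: a, ?_, fun y hy => List.mem_cons_of_mem _ hy, h2⟩
    intro y hy
    rcases List.mem_cons.1 hy with rfl | hy
    · exact h1
    · exact ha y hy

lemma enQ_kq (n o : ℕ) (ps : ℕ → ℕ → ℕ → ℕ) (bl bu : Bool) (mo : ℕ) (ck : ℕ → Bool)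
    (P r Q : ℕ) : Kq (fun (acc : List Rc) (k : List Rc → Bool) => @Nat.rec (fun _ => Bool)
        (@Bool.rec (fun _ => Bool) (k acc)
          (foldC (fun B acc k => recK n o ps bl bu mo P Q B ck (k acc) fun rc => k (rc :: acc)) n
            acc k)
          (Nat.beq r (nat_lit 0)))
        (fun _ _ => strict (Nat.mod (Nat.mul r (Nat.pow Q (Nat.sub n (nat_lit 2)))) n) fun B =>
          recK n o ps bl bu mo P Q B ck (k acc) fun rc => k (rc :: acc)) Q) (RcL o) := by
  intro a k ha hk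
  cases Q with
  | zero =>
    rcases boolrec_or' hk with h | h
    · exact ⟨a, ha, fun y hy => hy, h⟩
    · exact foldC_kq _ (fun B _ => rec_kq n o ps bl bu mo ck P _ B) a k ha h
  | succ Q =>
    replace hk : (strict (Nat.mod (Nat.mul r (Nat.pow (Q + 1) (Nat.sub n (nat_lit 2)))) n) fun B =>
      recK n o ps bl bu mo P (Q + 1) B ck (k a) fun rc => k (rc :: a)) = true := hk
    rw [strict_eq] at hk
    exact rec_kq n o ps bl bu mo ck P (Q + 1) _ a k ha hk

lemma enP_kq (n o : ℕ) (ps : ℕ → ℕ → ℕ → ℕ) (bl bu : Bool) (mo qm : ℕ) (ck : ℕ → Bool) (P : ℕ) :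
    Kq (enP n o ps bl bu mo qm ck P) (RcL o) := by
  intro a k ha hk
  unfold enP at hk
  rw [strict_eq] at hk
  exact foldC_kq _ (fun Q _ => enQ_kq n o ps bl bu mo ck P _ Q) a k ha hk

lemma enR_kq (n o : ℕ) (ps : ℕ → ℕ → ℕ → ℕ) (bl bu : Bool) (mo qm : ℕ) (ck : ℕ → Bool)
    (f0 c : ℕ) : Kq (enR n o ps bl bu mo qm ck f0 c) (RcL o) := by
  apply foldC_kq
  intro f _ a k ha hk
  simp only [strict_eq] at hk
  exact enP_kq n o ps bl bu mo qm ck _ a k ha hk

theorem enR_hq {n : ℕ} (hn : n.Prime) (hn2 : 2 < n) {ps : ℕ → ℕ → ℕ → ℕ} {bl bu : Bool}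
    {p q b : ℤ} {m qm : ℕ} (hp : ¬(n : ℤ) ∣ p) (hq : rs n q < qm) (hb : q * b = sz bu * p - sz bl)
    {f0 c : ℕ} (hf1 : f0 < rs n p) (hf2 : rs n p ≤ f0 + c)
    {ck : ℕ → Bool} (hck : ck (rs n ((q * p ^ m + b) ^ 2 + 4 * sz bl * p ^ m)) = true) :
    Hq (enR n (n - 1) ps bl bu (m % (n - 1)) qm ck f0 c) (RcL (n - 1))
      (fun r => RcOK n ps (sz bl) (sz bu) p q b m r ∧ RcL (n - 1) r) := by
  have : NeZero n := ⟨hn.ne_zero⟩
  have : Fact n.Prime := ⟨hn⟩
  have h1n := hn.one_lt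
  refine foldC_hq (f0 := rs n p - 1 - f0) (by omega) ?_ ?_
  · intro f _ a k ha hk
    simp only [strict_eq] at hk
    exact enP_kq n _ ps bl bu _ _ ck _ a k ha hk
  · intro a k ha hk
    simp only [strict_eq] at hk
    have hs : Nat.succ (Nat.add f0 (rs n p - 1 - f0)) = rs n p := by
      change f0 + (rs n p - 1 - f0) + 1 = rs n p
      omega
    rw [hs] at hk
    unfold enP at hk
    rw [strict_eq] at hk
    have e2 : Nat.mod (Nat.add (Nat.mul (sr bu n) (rs n p)) (sr (!bl) n)) n =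
        rs n (sz bu * p - sz bl) := by
      rw [sr_eq h1n, sr_eq h1n, sz_not]
      change (rs n _ * rs n p + rs n _) % n = _
      apply rs_of; push_cast; simp only [rs_cast]; push_cast; ring
    rw [e2, ← hb] at hk
    refine foldC_hq (f0 := rs n q) hq (fun Q _ => enQ_kq n _ ps bl bu _ ck _ _ Q) ?_ a k ha hk
    intro a k ha hk
    have fin : ∀ {a : List Rc} {k : List Rc → Bool}, (∀ y ∈ a, RcL (n - 1) y) →
        recK n (n - 1) ps bl bu (m % (n - 1)) (rs n p) (rs n q) (rs n b) ck (k a)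
          (fun rc => k (rc :: a)) = true → ∃ a', (∀ y ∈ a', RcL (n - 1) y) ∧
          (∃ y ∈ a', RcOK n ps (sz bl) (sz bu) p q b m y ∧ RcL (n - 1) y) ∧ k a' = true := by
      intro a k ha hk
      obtain ⟨r, h1, h2, h3⟩ := recK_hit hn hn2 hp hck hk
      refine ⟨r :: a, ?_, ⟨r, by simp, h1, h2⟩, h3⟩
      intro y hy
      rcases List.mem_cons.1 hy with rfl | hy
      · exact h2
      · exact ha y hy
    rcases Nat.eq_zero_or_pos (rs n q) with hq0 | hq0
    · rw [hq0] at hk fin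
      have hz : Nat.beq (rs n (q * b)) (nat_lit 0) = true := by
        have h0 : rs n (q * b) = 0 := by
          have e : 0 % n = rs n (q * b) := by
            apply rs_of
            have : ((rs n q : ℕ) : ZMod n) = (q : ZMod n) := rs_cast q
            rw [hq0] at this
            push_cast at this ⊢
            rw [← this, zero_mul]
          rw [← e, Nat.zero_mod]
        rw [h0]
        rfl
      replace hk : (@Bool.rec (fun _ => Bool) (k a)
          (foldC (fun B acc k => recK n (n - 1) ps bl bu (m % (n - 1)) (rs n p) 0 B ck (k acc)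
            fun rc => k (rc :: acc)) n a k)
          (Nat.beq (rs n (q * b)) (nat_lit 0))) = true := hk
      rw [hz] at hk
      exact foldC_hq (f0 := rs n b) (rs_lt b) (fun B _ => rec_kq n _ ps bl bu _ ck _ _ B)
        (fun a k ha hk => fin ha hk) a k ha hk
    · obtain ⟨Q, hQ⟩ : ∃ Q, rs n q = Q + 1 := ⟨rs n q - 1, by omega⟩
      have eB : Nat.mod (Nat.mul (rs n (q * b)) (Nat.pow (rs n q) (Nat.sub n (nat_lit 2)))) n =
          rs n b := by
        change (rs n (q * b) * rs n q ^ (n - 2)) % n = _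
        apply rs_of
        push_cast
        simp only [rs_cast]
        push_cast
        have hqz : (q : ZMod n) ≠ 0 := by
          intro h
          have h2 := rs_of (p := n) (n := 0) (x := q) (by push_cast; exact h.symm)
          rw [Nat.zero_mod] at h2
          omega
        have h1 := ZMod.pow_card_sub_one_eq_one hqz
        have h2 : (q : ZMod n) * (q : ZMod n) ^ (n - 2) = 1 := by
          rw [← pow_succ', show n - 2 + 1 = n - 1 by omega, h1]
        linear_combination (b : ZMod n) * h2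
      rw [← eB, hQ] at fin
      rw [hQ] at hk
      replace hk : (strict (Nat.mod (Nat.mul (rs n (q * b)) (Nat.pow (Q + 1)
        (Nat.sub n (nat_lit 2)))) n) fun B => recK n (n - 1) ps bl bu (m % (n - 1)) (rs n p) (Q + 1)
        B ck (k a) fun rc => k (rc :: a)) = true := hk
      rw [strict_eq] at hk
      exact fin ha hk

/-! ### records in relations -/

/-- the trivial component -/
def one : Rc := ⟨nat_lit 0, nat_lit 0, nat_lit 0, [(nat_lit 0, nat_lit 0)],
  [(nat_lit 0, nat_lit 0)], [nat_lit 0], [nat_lit 0], nat_lit 0⟩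

/-- component data of a record -/
structure Cm (n : ℕ) (ps : ℕ → ℕ → ℕ → ℕ) (l u p q b : ℤ) (m o : ℕ) (r : Rc) : Prop where
  c0 : ∀ j ≤ m, cy r.c0 j = cp n ps (eN l p q b m j)
  c1 : ∀ j < m, cy r.c1 j = cp n ps (eM u p q b m j)
  l0 : r.c0.length = o
  l1 : r.c1.length = o
  o0 : 0 < o

/-- multiplicities of a record -/
structure Am (n : ℕ) (l u p q b : ℤ) (o : ℕ) (r : Rc) : Prop where
  a0 : ∀ j, cy r.a0 j = rs n (-(l * q * p ^ j))
  a1 : ∀ j, cy r.a1 j = rs n (-(u * q * p ^ j))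
  be : r.be = rs n (-(l * b))
  l0 : r.a0.length = o
  l1 : r.a1.length = o
  o0 : 0 < o

lemma Cm_of {n : ℕ} {ps : ℕ → ℕ → ℕ → ℕ} {l u p q b : ℤ} {m o : ℕ} {r : Rc}
    (h : RcOK n ps l u p q b m r) (h' : RcL o r) (ho : 0 < o) : Cm n ps l u p q b m o r :=
  ⟨h.c0, h.c1, h'.c0, h'.c1, ho⟩

lemma Am_of {n : ℕ} {ps : ℕ → ℕ → ℕ → ℕ} {l u p q b : ℤ} {m o : ℕ} {r : Rc}
    (h : RcOK n ps l u p q b m r) (h' : RcL o r) (ho : 0 < o) : Am n l u p q b o r :=
  ⟨h.a0, h.a1, h.be, h'.a0, h'.a1, ho⟩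

lemma Cm_one (l u p q b : ℤ) (m : ℕ) : Cm 1 (pos 1 0 PT1) l u p q b m 1 one where
  c0 j _ := by
    rw [Pool.Agent.PSX.Ev.cp_one]
    unfold cy one
    simp [Nat.mod_one]
  c1 j _ := by
    rw [Pool.Agent.PSX.Ev.cp_one]
    unfold cy one
    simp [Nat.mod_one]
  l0 := rfl
  l1 := rfl
  o0 := by norm_num

lemma ne_of_len {α : Type} {l : List α} {o : ℕ} (h : l.length = o) (ho : 0 < o) : l ≠ [] := by
  intro hc
  rw [hc, List.length_nil] at h
  omega

lemma Ne_one : Ne one := ⟨by decide, by decide, by decide, by decide⟩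

/-- a relation on records -/
def relR (l lam : ℕ) (F : Tm) (x y z w : Rc) (ml r M : ℕ) (e : Bool) (k : ℕ → Bool) : Bool :=
  relM l lam F x.c0 y.c0 z.c0 w.a0 x.c1 y.c1 z.c1 w.a1 w.be ml r M e k

lemma relR_keep {l lam : ℕ} {F : Tm} {x y z w : Rc} (hx : Ne x) (hy : Ne y) (hz : Ne z)
    (hw : Ne w) {ml r M : ℕ} {e : Bool} {k : ℕ → Bool}
    (h : relR l lam F x y z w ml r M e k = true) : e = true ∨ ∃ M', k M' = true :=
  relM_keep l lam F w.be ml r M hx.c0 hy.c0 hz.c0 hw.a0 hx.c1 hy.c1 hz.c1 hw.a1 h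

variable {n1 n2 n3 : ℕ} {ps1 ps2 ps3 : ℕ → ℕ → ℕ → ℕ}

theorem relR_spec {L : ℕ} (hL : L.Prime) {t1 t2 t3 : ℕ} {X Y : ℕ → ℕ → ℕ → ℕ} {l u p q b : ℤ}
    {m : ℕ} (h : HV n1 n2 n3 L ps1 ps2 ps3 t1 t2 t3 X Y (J1 l u p q b m)) {F : Tm}
    (hF : ∀ x y z w, F x y z w = vf t1 t2 t3 X Y x y z w) {lam ml t r : ℕ}
    (hm : m = lam * t + ml) (hml : lam = ml + 1 + r)
    {o1 o2 o3 ow : ℕ} {x y z w : Rc} (hx : Cm n1 ps1 l u p q b m o1 x)
    (hy : Cm n2 ps2 l u p q b m o2 y) (hz : Cm n3 ps3 l u p q b m o3 z)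
    (hw : Am L l u p q b ow w) (d1 : o1 ∣ lam) (d2 : o2 ∣ lam) (d3 : o3 ∣ lam) (dw : ow ∣ lam)
    {M : ℕ} (hM : M.testBit (m % L) = true) {e : Bool} {k : ℕ → Bool}
    (hk : relR L lam F x y z w ml r M e k = true) :
    ∃ M', M'.testBit (m % L) = true ∧ k M' = true :=
  relM_spec hL h hm hml hF hx.c0 hy.c0 hz.c0 hx.c1 hy.c1 hz.c1 hw.a0 hw.a1 hw.be
    (ne_of_len hx.l0 hx.o0) (ne_of_len hy.l0 hy.o0) (ne_of_len hz.l0 hz.o0)
    (ne_of_len hw.l0 hw.o0) (ne_of_len hx.l1 hx.o0) (ne_of_len hy.l1 hy.o0)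
    (ne_of_len hz.l1 hz.o0) (ne_of_len hw.l1 hw.o0)
    (hx.l0 ▸ d1) (hy.l0 ▸ d2) (hz.l0 ▸ d3) (hx.l1 ▸ d1) (hy.l1 ▸ d2) (hz.l1 ▸ d3)
    (hw.l0 ▸ dw) (hw.l1 ▸ dw) hM hk

/-! ### bits, ghosts -/

/-- bit -/
def tb (M i : ℕ) : Bool := Nat.beq (Nat.land (Nat.shiftRight M i) (nat_lit 1)) (nat_lit 1)

lemma tb_eq (M i : ℕ) : tb M i = M.testBit i := by
  have h : (M >>> i) &&& 1 = (M >>> i) % 2 := Nat.and_one_is_mod _
  rw [Bool.eq_iff_iff]
  constructor
  · intro h1
    have h2 : (M >>> i) &&& 1 = 1 := Nat.eq_of_beq_eq_true h1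
    rw [Nat.testBit_eq_decide_div_mod_eq, decide_eq_true_eq, ← Nat.shiftRight_eq_div_pow, ← h]
    exact h2
  · intro h1
    rw [Nat.testBit_eq_decide_div_mod_eq, decide_eq_true_eq, ← Nat.shiftRight_eq_div_pow, ← h] at h1
    change Nat.beq ((M >>> i) &&& 1) 1 = true
    rw [h1]
    rfl

/-- `p = u l`, `b = 0` modulo `n` -/
def gh (n : ℕ) (s : Bool) (x : Rc) : Bool :=
  @Bool.rec (fun _ => Bool) false (Nat.beq x.B (nat_lit 0)) (Nat.beq x.P (sr s n))

/-- conjunction -/
def an (a b : Bool) : Bool := @Bool.rec (fun _ => Bool) false b a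

/-- disjunction -/
def oo (a b : Bool) : Bool := @Bool.rec (fun _ => Bool) b true a

lemma an_spec {a b : Bool} (h : an a b = true) : a = true ∧ b = true := by
  cases a
  · cases h
  · exact ⟨rfl, h⟩

lemma oo_spec {a b : Bool} (h : oo a b = true) : a = true ∨ b = true := by
  cases a
  · exact Or.inr h
  · exact Or.inl rfl

/-- inert -/
def ckI (n D : ℕ) : Bool :=
  Nat.beq (Nat.mod (Nat.pow D (Nat.div n (nat_lit 2))) n) (Nat.sub n (nat_lit 1))

end Pool.Agent.OEG.W
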