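import Pool.Agent.OEG.WH

/-!
Project OEG, elimination for the first family: the product test on records.
-/

set_option autoImplicit false

namespace Pool.Agent.OEG.W

open Pool.Agent.LibH4 Pool.Agent.LibH4.Ker
open Pool.Agent.Lib_helper5 Pool.Agent.Lib_helper5.LK Pool.Agent.Lib_helper5.TB
open Pool.Agent.LibH4.S7 (Rl)
open Pool.Agent.PSX.Ev (cp OSys adP_JO)
open Finset (range)

/-- constants of a factorised table -/
structure Ct where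
  /-- bits of a row -/
  zw : ℕ
  /-- mask of a row -/
  msk : ℕ
  /-- repetition -/
  rep : ℕ
  /-- bits of a vector -/
  shR : ℕ
  /-- modulus of the folding -/
  zR1 : ℕ
  /-- position of the inner product -/
  sh : ℕ

/-- the constants -/
def ct (K R e0 : ℕ) : Ct := ⟨40 * K, 2 ^ (40 * K) - 1, ∑ i ∈ range e0, (2 ^ (40 * K)) ^ (12 * i),
  40 * K * R, 2 ^ (40 * K * R) - 1, 40 * (2 * R * K - 1)⟩

/-- mask of a digit -/
def mkw : ℕ := nat_lit 1099511627775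

/-- repetition number -/
def repN (zw e0 : ℕ) : ℕ := @Nat.rec (fun _ => ℕ) (nat_lit 0)
  (fun i ih => Nat.add ih (Nat.pow (nat_lit 2) (Nat.mul zw (Nat.mul (nat_lit 12) i)))) e0

lemma repN_eq (zw e0 : ℕ) : repN zw e0 = ∑ i ∈ range e0, (2 ^ zw) ^ (12 * i) := by
  induction e0 with
  | zero => rfl
  | succ e ih =>
    have e1 : repN zw (e + 1) = repN zw e + 2 ^ (zw * (12 * e)) := rfl
    rw [e1, ih, Finset.sum_range_succ, pow_mul]

/-- the constants, evaluated -/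
def ctK (K R e0 : ℕ) (k : Ct → Bool) : Bool :=
  strict (Nat.mul (nat_lit 40) K) fun zw =>
  strict (Nat.sub (Nat.pow (nat_lit 2) zw) (nat_lit 1)) fun mk =>
  strict (repN zw e0) fun rep => strict (Nat.mul zw R) fun shR =>
  strict (Nat.sub (Nat.pow (nat_lit 2) shR) (nat_lit 1)) fun zR1 =>
  strict (Nat.mul (nat_lit 40) (Nat.sub (Nat.mul (Nat.mul (nat_lit 2) R) K) (nat_lit 1))) fun sh =>
  k ⟨zw, mk, rep, shR, zR1, sh⟩

lemma ctK_eq (K R e0 : ℕ) (k : Ct → Bool) : ctK K R e0 k = k (ct K R e0) := by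
  unfold ctK
  simp only [strict_eq]
  rw [repN_eq]
  rfl

/-- combination, with constants -/
def combC (c : Ct) (G0 G1 cor ml t : ℕ) (k : ℕ → Bool) : Bool :=
  comb c.rep c.zw c.shR c.zR1 G0 G1 cor ml t k

/-- value of the combination -/
def cmb (K R e0 G0 G1 cor ml t : ℕ) : ℕ :=
  ((G0 * (ct K R e0).rep) % (2 ^ (40 * K)) ^ (ml + 1) + t * (G0 * (ct K R e0).rep) +
      cor * (2 ^ (40 * K)) ^ ml) % ((2 ^ (40 * K)) ^ R - 1) +
    (2 ^ (40 * K)) ^ R * (((G1 * (ct K R e0).rep) % (2 ^ (40 * K)) ^ ml +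
      t * (G1 * (ct K R e0).rep)) % ((2 ^ (40 * K)) ^ R - 1))

lemma combC_eq (K R e0 G0 G1 cor ml t : ℕ) (k : ℕ → Bool) :
    combC (ct K R e0) G0 G1 cor ml t k = k (cmb K R e0 G0 G1 cor ml t) := by
  unfold combC comb
  simp only [strict_eq]
  congr 1
  have e1 : ∀ X s, Nat.land X (Nat.sub (Nat.pow (nat_lit 2) s) (nat_lit 1)) = X % 2 ^ s := by
    intro X s
    exact Nat.and_two_pow_sub_one_eq_mod X s
  have e2 : ∀ X s, Nat.shiftLeft X s = X * 2 ^ s := fun X s => Nat.shiftLeft_eq X s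
  have e3 : Nat.add (Nat.mul (ct K R e0).zw ml) (ct K R e0).zw = 40 * K * (ml + 1) := by
    change 40 * K * ml + 40 * K = _
    ring
  have e4 : Nat.mul (ct K R e0).zw ml = 40 * K * ml := rfl
  have e5 : (ct K R e0).zR1 = (2 ^ (40 * K)) ^ R - 1 := by
    rw [← pow_mul]
    rfl
  have e6 : (ct K R e0).shR = 40 * K * R := rfl
  rw [e3, e4, e1, e1, e2, e2, e5, e6, pow_mul 2 (40 * K) (ml + 1), pow_mul 2 (40 * K) ml,
    pow_mul 2 (40 * K) R]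
  unfold cmb
  rw [mul_comm ((2 ^ (40 * K)) ^ R)]
  rfl

/-- the test, with constants -/
def tstC (c : Ct) (U G : ℕ) : Bool := tst c.sh mkw (nat_lit 13) U G

lemma tstC_of {K R e0 U G : ℕ}
    (h : (U * G / (2 ^ 40) ^ (2 * R * K - 1) % 2 ^ 40) % 13 = 0) :
    tstC (ct K R e0) U G = true := by
  unfold tstC tst
  have e1 : Nat.land (Nat.shiftRight (Nat.mul U G) (ct K R e0).sh) mkw =
      U * G / (2 ^ 40) ^ (2 * R * K - 1) % 2 ^ 40 := by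
    change ((U * G) >>> (40 * (2 * R * K - 1))) &&& (2 ^ 40 - 1) = _
    rw [Nat.and_two_pow_sub_one_eq_mod, Nat.shiftRight_eq_div_pow, pow_mul]
  rw [e1]
  change Nat.beq ((U * G / (2 ^ 40) ^ (2 * R * K - 1) % 2 ^ 40) % 13) 0 = true
  rw [h]
  rfl

/-- class vector -/
def Uf (K R t1 BU : ℕ) (x : Rc) : ℕ :=
  rp (2 ^ (40 * K)) (fun r => dig t1 (cy x.c0 r).1 *
      rowU BU (40 * K) (2 ^ (40 * K) - 1) (cy x.c0 r).2) (List.range R) * (2 ^ (40 * K)) ^ R +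
    rp (2 ^ (40 * K)) (fun r => dig t1 (cy x.c1 r).1 *
      rowU BU (40 * K) (2 ^ (40 * K) - 1) (cy x.c1 r).2) (List.range R)

/-- evaluation of a class vector -/
def clUC (c : Ct) (t1 BU : ℕ) (x : Rc) (k : ℕ → Bool) : Bool := clU t1 BU c.zw c.msk x.c0 x.c1 k

lemma clUC_eq {K R e0 t1 BU : ℕ} {x : Rc} (h : RcL R x) (k : ℕ → Bool) :
    clUC (ct K R e0) t1 BU x k = k (Uf K R t1 BU x) :=
  clU_eq t1 BU (40 * K) (2 ^ (40 * K) - 1) h.c0 h.c1 k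

lemma clUC_keep {c : Ct} {t1 BU : ℕ} {x : Rc} {k : ℕ → Bool}
    (h : clUC c t1 BU x k = true) : ∃ U, k U = true := by
  unfold clUC clU at h
  rw [hU_eq, hU_eq] at h
  exact ⟨_, h⟩

/-- node vector, first kind -/
def G0f (K t2 t3 BX BY len3 : ℕ) (y z w : Rc) : ℕ :=
  packL (2 ^ (40 * K)) (fun j => tG t2 t3 BX BY len3 (40 * K) (2 ^ (40 * K) - 1) 13
      (cy y.c0 j) (cy z.c0 j) (cy w.a0 j)) (List.range 12)

/-- node vector, second kind -/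
def G1f (K t2 t3 BX BY len3 : ℕ) (y z w : Rc) : ℕ :=
  packL (2 ^ (40 * K)) (fun j => tG t2 t3 BX BY len3 (40 * K) (2 ^ (40 * K) - 1) 13
      (cy y.c1 j) (cy z.c1 j) (cy w.a1 j)) (List.range 12)

/-- correction of a node vector -/
def cof (K t2 t3 BY len3 : ℕ) (y z w : Rc) (m12 : ℕ) : ℕ :=
  tC t2 t3 BY len3 (40 * K) (2 ^ (40 * K) - 1) 13 (cy y.c0 m12) (cy z.c0 m12) w.be

/-- evaluation of a node vector -/
def gvC (c : Ct) (t2 t3 BX BY len3 : ℕ) (y z w : Rc) (m12 r12 : ℕ) (k : ℕ → ℕ → ℕ → Bool) : Bool :=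
  gvec (tG t2 t3 BX BY len3 c.zw c.msk (nat_lit 13)) (tC t2 t3 BY len3 c.zw c.msk (nat_lit 13)) c.zw
    y.c0 z.c0 w.a0 y.c1 z.c1 w.a1 w.be m12 r12 k

lemma gvC_eq {K R e0 t2 t3 BX BY len3 : ℕ} {y z w : Rc} (hy : Ne y) (hz : Ne z) (hw : Ne w)
    {m12 r12 : ℕ} (h : m12 + 1 + r12 = 12) (k : ℕ → ℕ → ℕ → Bool) :
    gvC (ct K R e0) t2 t3 BX BY len3 y z w m12 r12 k =
      k (G0f K t2 t3 BX BY len3 y z w) (G1f K t2 t3 BX BY len3 y z w)
        (cof K t2 t3 BY len3 y z w m12) := by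
  unfold gvC
  rw [gvec_spec _ _ _ hy.c0 hz.c0 hw.a0 hy.c1 hz.c1 hw.a1, h]
  rfl

lemma gvC_keep {c : Ct} {t2 t3 BX BY len3 : ℕ} {y z w : Rc} (hy : Ne y) (hz : Ne z) (hw : Ne w)
    {m12 r12 : ℕ} {k : ℕ → ℕ → ℕ → Bool}
    (h : gvC c t2 t3 BX BY len3 y z w m12 r12 k = true) : ∃ a b d, k a b d = true := by
  unfold gvC at h
  rw [gvec_spec _ _ _ hy.c0 hz.c0 hw.a0 hy.c1 hz.c1 hw.a1] at h
  exact ⟨_, _, _, h⟩

variable {n1 n2 n3 : ℕ} {ps1 ps2 ps3 : ℕ → ℕ → ℕ → ℕ}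

/-- **the product test** -/
theorem fastR {K m1 m2 BU BX BY len3 t1 t2 t3 : ℕ} (FT0 : FT 40 K m1 m2 BU BX BY)
    {l u p q b : ℤ} {m : ℕ}
    (h : HV n1 n2 n3 13 ps1 ps2 ps3 t1 t2 t3 (fun x y z => fT 40 K BU BX x (y * len3 + z))
      (fun x y z => fT 40 K BU BY x (y * len3 + z)) (J1 l u p q b m))
    {lam ml tt t R e1 e0 : ℕ} (hm : m = lam * tt + ml) (hml : ml < lam) (ht : t = tt % 13)
    (hR0 : 0 < R) (hR : lam = R * e1) (hP : lam = 12 * e0)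
    (hV : 2 * R * K * (3060 * (e1 * 29808)) < 2 ^ 40) (hV2 : e1 * 29808 + 2 < 2 ^ 40)
    {o2 o3 ow : ℕ} {x y z w : Rc} (hx : Cm n1 ps1 l u p q b m R x)
    (hy : Cm n2 ps2 l u p q b m o2 y) (hz : Cm n3 ps3 l u p q b m o3 z)
    (hw : Am 13 l u p q b ow w) (d2 : o2 ∣ 12) (d3 : o3 ∣ 12) (dw : ow ∣ 12) :
    tstC (ct K R e0) (Uf K R t1 BU x)
      (cmb K R e0 (G0f K t2 t3 BX BY len3 y z w) (G1f K t2 t3 BX BY len3 y z w)
        (cof K t2 t3 BY len3 y z w (ml % 12)) ml t) = true := by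
  apply tstC_of
  refine fast_spec FT0 h hm hml ht hR0 hR hP hV hV2 hx.c0 hy.c0 hz.c0 hx.c1 hy.c1 hz.c1
    hw.a0 hw.a1 hw.be hx.l0 hx.l1 (hy.l0 ▸ d2) (hz.l0 ▸ d3) (hy.l1 ▸ d2) (hz.l1 ▸ d3)
    (hw.l0 ▸ dw) (hw.l1 ▸ dw) (rep := (ct K R e0).rep) rfl rfl rfl rfl (cor :=
      cof K t2 t3 BY len3 y z w (ml % 12)) ?_ rfl
  unfold cof
  rw [cy_mod (hy.l0 ▸ d2), cy_mod (hz.l0 ▸ d3)]

end Pool.Agent.OEG.W
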