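import Pool.Agent.OEG.WI
import Pool.Agent.OEG.WFin

/-!
Project OEG, elimination for the first family: ghosts, common definitions.
-/

set_option autoImplicit false

namespace Pool.Agent.OEG.W

open Pool.Agent.LibH4 Pool.Agent.LibH4.Ker
open Pool.Agent.Lib_helper5 Pool.Agent.Lib_helper5.LK Pool.Agent.Lib_helper5.TB
open Pool.Agent.LibH4.S7 (Rl)
open Pool.Agent.PSX.Ev (cp OSys adP_JO)
open Finset (range)

/-- implication -/
def imp (a b : Bool) : Bool := @Bool.rec (fun _ => Bool) true b a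

lemma imp_spec {a b : Bool} (h : imp a b = true) (ha : a = true) : b = true := by
  subst ha
  exact h

/-- positions modulo 3 -/
def pk3 : ℕ → ℕ → ℕ → ℕ := pos (nat_lit 3) (nat_lit 1) PT3
/-- positions modulo 5 -/
def pk5 : ℕ → ℕ → ℕ → ℕ := pos (nat_lit 5) (nat_lit 3) PT5
/-- positions modulo 7 -/
def pk7 : ℕ → ℕ → ℕ → ℕ := pos (nat_lit 7) (nat_lit 5) PT7
/-- positions modulo 13 -/
def pk13 : ℕ → ℕ → ℕ → ℕ := pos (nat_lit 13) (nat_lit 11) PT13
/-- positions modulo 17 -/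
def pk17 : ℕ → ℕ → ℕ → ℕ := pos (nat_lit 17) (nat_lit 15) PT17
/-- positions modulo 19 -/
def pk19 : ℕ → ℕ → ℕ → ℕ := pos (nat_lit 19) (nat_lit 17) PT19

/-- class modulo 5 of a state -/
structure N5 where
  /-- record -/
  x : Rc
  /-- residues of `m` modulo 13 -/
  M : ℕ
  /-- vector -/
  G0 : ℕ
  /-- vector -/
  G1 : ℕ
  /-- correction -/
  co : ℕ
  /-- classes modulo 3 -/
  l3 : List (Rc × ℕ)

/-- state modulo 13 and 7 -/
structure Nd where
  /-- record modulo 13 -/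
  x13 : Rc
  /-- record modulo 7 -/
  x7 : Rc
  /-- vector -/
  G0 : ℕ
  /-- vector -/
  G1 : ℕ
  /-- correction -/
  co : ℕ
  /-- residues of `m` modulo 13 -/
  M : ℕ
  /-- classes modulo 5 -/
  l5 : List N5

/-- class modulo the large prime -/
structure Rt where
  /-- record -/
  x : Rc
  /-- first class vector -/
  U : ℕ
  /-- second class vector -/
  U' : ℕ

/-- hypotheses -/
structure Hy (r : ℤ) (bl bu : Bool) (D p q b : ℤ) (m : ℕ) : Prop where
  eq : q * b = sz bu * p - sz bl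
  hD : D = (q * p ^ m + b) ^ 2 + 4 * sz bl * p ^ m
  np : ∀ r : ℕ, r ∣ 9699690 → r ≠ 1 → ¬ (r : ℤ) ∣ p
  S : OSys 9699690 D (J1 (sz bl) (sz bu) p q b m)
  hq : rs 13 q < 7
  D455 : D % 455 = r

lemma rs_emod {n : ℕ} [NeZero n] {x : ℤ} {r : ℕ} (h : x % (n : ℤ) = r) (hr : r < n) :
    rs n x = r := by
  have h1 : ((x : ℤ) : ZMod n) = ((r : ℕ) : ZMod n) := by
    rw [← ZMod.intCast_mod, h, Int.cast_natCast]
  unfold rs
  rw [h1, ZMod.val_natCast, Nat.mod_eq_of_lt hr]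

lemma ckI_of {n : ℕ} (hn : n.Prime) (h2 : n ≠ 2) (hQ : n ∣ 9699690) {D : ℤ} {J : List Fm}
    (S : OSys 9699690 D J) : ckI n (rs n D) = true := S.inr n hn h2 hQ

lemma dvd_of_rs {n : ℕ} [NeZero n] {x y : ℤ} (h : rs n x = rs n y) : (n : ℤ) ∣ x - y := by
  have h1 : (x : ZMod n) = (y : ZMod n) := by rw [← rs_cast, ← rs_cast (x := y), h]
  rw [← ZMod.intCast_zmod_eq_zero_iff_dvd]
  push_cast
  rw [h1, sub_self]

lemma rs_zero' {n : ℕ} [NeZero n] : rs n 0 = 0 := by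
  unfold rs
  rw [Int.cast_zero, ZMod.val_zero]

section Ghost

variable {n : ℕ} {ps : ℕ → ℕ → ℕ → ℕ} {l u p q b : ℤ} {m ml : ℕ} {x : Rc}

lemma gh_spec (hn : n.Prime) {s : Bool} (hx : RcOK n ps l u p q b m x) (h : gh n s x = true) :
    (n : ℤ) ∣ p - sz s ∧ (n : ℤ) ∣ b := by
  have : NeZero n := ⟨hn.ne_zero⟩
  obtain ⟨h1, h2⟩ := boolrec_spec h
  have h3 := Nat.eq_of_beq_eq_true h1
  have h4 : x.B = 0 := Nat.eq_of_beq_eq_true h2
  constructor
  · apply dvd_of_rs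
    rw [← hx.P, h3, sr_eq hn.one_lt]
  · have : rs n b = rs n 0 := by rw [← hx.B, h4, rs_zero']
    have := dvd_of_rs this
    rwa [sub_zero] at this

/-- `q = ± 1` -/
def q1 (n : ℕ) (e : Bool) (x : Rc) : Bool := Nat.beq x.Q (sr e n)

/-- `p ^ m = p` -/
def e2 (n ml : ℕ) (x : Rc) : Bool := Nat.beq (Nat.mod (Nat.pow x.P ml) n) x.P

/-- `q = ± p` -/
def q2 (n : ℕ) (e : Bool) (x : Rc) : Bool := Nat.beq x.Q (Nat.mod (Nat.mul (sr e n) x.P) n)

/-- `p ^ (m + 2) = 1` -/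
def e3 (n ml : ℕ) (x : Rc) : Bool :=
  Nat.beq (Nat.mod (Nat.pow x.P (Nat.add ml (nat_lit 2))) n) (nat_lit 1)

lemma q1_spec (hn : n.Prime) {e : Bool} (hx : RcOK n ps l u p q b m x) (h : q1 n e x = true) :
    (n : ℤ) ∣ q - sz e := by
  have : NeZero n := ⟨hn.ne_zero⟩
  have h3 := Nat.eq_of_beq_eq_true h
  apply dvd_of_rs
  rw [← hx.Q, h3, sr_eq hn.one_lt]

lemma q2_spec (hn : n.Prime) {e : Bool} (hx : RcOK n ps l u p q b m x) (h : q2 n e x = true) :
    (n : ℤ) ∣ q - sz e * p := by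
  have : NeZero n := ⟨hn.ne_zero⟩
  have h3 := Nat.eq_of_beq_eq_true h
  apply dvd_of_rs
  rw [← hx.Q, h3, sr_eq hn.one_lt, hx.P]
  change (rs n (sz e) * rs n p) % n = _
  apply rs_of
  push_cast
  simp only [rs_cast]

lemma e2_spec (hn : n.Prime) (hp : ¬(n : ℤ) ∣ p) (hx : RcOK n ps l u p q b m x)
    (hm : ml % (n - 1) = m % (n - 1)) (h : e2 n ml x = true) : (n : ℤ) ∣ p ^ m - p := by
  have : Fact n.Prime := ⟨hn⟩
  have h3 := Nat.eq_of_beq_eq_true h
  have h4 : (rs n p ^ ml) % n = rs n p := by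
    rw [← hx.P]
    exact h3
  have h5 : (((rs n p ^ ml) % n : ℕ) : ZMod n) = (p : ZMod n) := by rw [h4, rs_cast]
  rw [ZMod.natCast_mod] at h5
  push_cast at h5
  rw [rs_cast, pw_congr hp hm] at h5
  rw [← ZMod.intCast_zmod_eq_zero_iff_dvd]
  push_cast
  rw [h5, sub_self]

lemma e3_spec (hn : n.Prime) (hp : ¬(n : ℤ) ∣ p) (hx : RcOK n ps l u p q b m x)
    (hm : ml % (n - 1) = m % (n - 1)) (h : e3 n ml x = true) : (n : ℤ) ∣ p ^ (m + 2) - 1 := by
  have : Fact n.Prime := ⟨hn⟩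
  have h3 := Nat.eq_of_beq_eq_true h
  have h4 : (rs n p ^ (ml + 2)) % n = 1 := by
    rw [← hx.P]
    exact h3
  have h5 : (((rs n p ^ (ml + 2)) % n : ℕ) : ZMod n) = 1 := by rw [h4, Nat.cast_one]
  rw [ZMod.natCast_mod] at h5
  push_cast at h5
  rw [rs_cast, pow_add, pw_congr hp hm, ← pow_add] at h5
  rw [← ZMod.intCast_zmod_eq_zero_iff_dvd]
  push_cast
  rw [h5, sub_self]

end Ghost

/-- second ghost -/
def g2e (e : Bool) (ml : ℕ) (x13 x7 x5 x3 : Rc) : Bool :=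
  an (an (q1 (nat_lit 13) e x13) (e2 (nat_lit 13) ml x13))
    (an (an (q1 (nat_lit 7) e x7) (e2 (nat_lit 7) ml x7))
      (an (an (q1 (nat_lit 5) e x5) (e2 (nat_lit 5) ml x5))
        (an (q1 (nat_lit 3) e x3) (e2 (nat_lit 3) ml x3))))

/-- third ghost -/
def g3e (e : Bool) (ml : ℕ) (x13 x7 x5 x3 : Rc) : Bool :=
  an (an (q2 (nat_lit 13) e x13) (e3 (nat_lit 13) ml x13))
    (an (an (q2 (nat_lit 7) e x7) (e3 (nat_lit 7) ml x7))
      (an (an (q2 (nat_lit 5) e x5) (e3 (nat_lit 5) ml x5))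
        (an (q2 (nat_lit 3) e x3) (e3 (nat_lit 3) ml x3))))

/-- first ghost -/
def g1e (T : ℕ) (s : Bool) (xT x13 x7 x5 x3 : Rc) : Bool :=
  an (gh T s xT) (an (gh (nat_lit 13) s x13) (an (gh (nat_lit 7) s x7)
    (an (gh (nat_lit 5) s x5) (gh (nat_lit 3) s x3))))

/-- the ghosts -/
def gok (T : ℕ) (s bl bu : Bool) (ml : ℕ) (xT x13 x7 x5 x3 : Rc) : Bool :=
  oo (g1e T s xT x13 x7 x5 x3)
    (oo (@Bool.rec (fun _ => Bool) (oo (g2e true ml x13 x7 x5 x3) (g2e false ml x13 x7 x5 x3))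
        false bu)
      (@Bool.rec (fun _ => Bool) (oo (g3e true ml x13 x7 x5 x3) (g3e false ml x13 x7 x5 x3))
        false bl))

lemma sg_sz (e : Bool) : OEX.Sg (sz e) := by
  cases e
  · right; rfl
  · left; rfl

lemma sz_mul (bl bu : Bool) : sz bu * sz bl = sz (bl == bu) := by
  cases bl <;> cases bu <;> rfl

/-- the conclusion -/
def Cc (T : ℕ) (bl bu : Bool) (p q b : ℤ) (m : ℕ) : Prop :=
  (∀ n : ℕ, n ∈ [3, 5, 7, 13, T] → (n : ℤ) ∣ p - sz bu * sz bl ∧ (n : ℤ) ∣ b) ∨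
  (sz bu = -1 ∧ ∃ e, OEX.Sg e ∧ ∀ n : ℕ, n ∈ [3, 5, 7, 13] → (n : ℤ) ∣ q - e ∧
    (n : ℤ) ∣ p ^ m - p) ∨
  (sz bl = -1 ∧ ∃ e, OEX.Sg e ∧ ∀ n : ℕ, n ∈ [3, 5, 7, 13] → (n : ℤ) ∣ q - e * p ∧
    (n : ℤ) ∣ p ^ (m + 2) - 1)

theorem gok_spec {T : ℕ} (hT : T.Prime) {bl bu : Bool} {p q b : ℤ} {m ml : ℕ}
    (np : ∀ n : ℕ, n ∈ [3, 5, 7, 13] → ¬ (n : ℤ) ∣ p) (hm : ml % 12 = m % 12)
    {psT : ℕ → ℕ → ℕ → ℕ} {xT x13 x7 x5 x3 : Rc}
    (hxT : RcOK T psT (sz bl) (sz bu) p q b m xT)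
    (hx13 : RcOK 13 pk13 (sz bl) (sz bu) p q b m x13)
    (hx7 : RcOK 7 pk7 (sz bl) (sz bu) p q b m x7)
    (hx5 : RcOK 5 pk5 (sz bl) (sz bu) p q b m x5)
    (hx3 : RcOK 3 pk3 (sz bl) (sz bu) p q b m x3)
    (h : gok T (bl == bu) bl bu ml xT x13 x7 x5 x3 = true) : Cc T bl bu p q b m := by
  have p3 : Nat.Prime 3 := by norm_num
  have p5 : Nat.Prime 5 := by norm_num
  have p7 : Nat.Prime 7 := by norm_num
  have p13 : Nat.Prime 13 := by norm_num
  have n3 := np 3 (by simp)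
  have n5 := np 5 (by simp)
  have n7 := np 7 (by simp)
  have n13 := np 13 (by simp)
  have m13 : ml % (13 - 1) = m % (13 - 1) := hm
  have m7 : ml % (7 - 1) = m % (7 - 1) := by
    change ml % 6 = m % 6
    omega
  have m5 : ml % (5 - 1) = m % (5 - 1) := by
    change ml % 4 = m % 4
    omega
  have m3 : ml % (3 - 1) = m % (3 - 1) := by
    change ml % 2 = m % 2
    omega
  unfold Cc
  rcases oo_spec h with h | h
  · left
    unfold g1e at h
    obtain ⟨h1, h⟩ := an_spec h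
    obtain ⟨h2, h⟩ := an_spec h
    obtain ⟨h3, h⟩ := an_spec h
    obtain ⟨h4, h5⟩ := an_spec h
    rw [sz_mul]
    intro n hn
    simp only [List.mem_cons, List.not_mem_nil, or_false] at hn
    rcases hn with rfl | rfl | rfl | rfl | rfl
    · exact gh_spec p3 hx3 h5
    · exact gh_spec p5 hx5 h4
    · exact gh_spec p7 hx7 h3
    · exact gh_spec p13 hx13 h2
    · exact gh_spec hT hxT h1
  · rcases oo_spec h with h | h
    · right; left
      cases bu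
      · refine ⟨rfl, ?_⟩
        have key : ∀ e : Bool, g2e e ml x13 x7 x5 x3 = true → ∃ e, OEX.Sg e ∧
            ∀ n : ℕ, n ∈ [3, 5, 7, 13] → (n : ℤ) ∣ q - e ∧ (n : ℤ) ∣ p ^ m - p := by
          intro e he
          refine ⟨sz e, sg_sz e, ?_⟩
          unfold g2e at he
          obtain ⟨h1, he⟩ := an_spec he
          obtain ⟨h2, he⟩ := an_spec he
          obtain ⟨h3, h4⟩ := an_spec he
          obtain ⟨a1, b1⟩ := an_spec h1
          obtain ⟨a2, b2⟩ := an_spec h2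
          obtain ⟨a3, b3⟩ := an_spec h3
          obtain ⟨a4, b4⟩ := an_spec h4
          intro n hn
          simp only [List.mem_cons, List.not_mem_nil, or_false] at hn
          rcases hn with rfl | rfl | rfl | rfl
          · exact ⟨q1_spec p3 hx3 a4, e2_spec p3 n3 hx3 m3 b4⟩
          · exact ⟨q1_spec p5 hx5 a3, e2_spec p5 n5 hx5 m5 b3⟩
          · exact ⟨q1_spec p7 hx7 a2, e2_spec p7 n7 hx7 m7 b2⟩
          · exact ⟨q1_spec p13 hx13 a1, e2_spec p13 n13 hx13 m13 b1⟩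
        rcases oo_spec h with h | h
        · exact key _ h
        · exact key _ h
      · cases h
    · right; right
      cases bl
      · refine ⟨rfl, ?_⟩
        have key : ∀ e : Bool, g3e e ml x13 x7 x5 x3 = true → ∃ e, OEX.Sg e ∧
            ∀ n : ℕ, n ∈ [3, 5, 7, 13] → (n : ℤ) ∣ q - e * p ∧ (n : ℤ) ∣ p ^ (m + 2) - 1 := by
          intro e he
          refine ⟨sz e, sg_sz e, ?_⟩
          unfold g3e at he
          obtain ⟨h1, he⟩ := an_spec he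
          obtain ⟨h2, he⟩ := an_spec he
          obtain ⟨h3, h4⟩ := an_spec he
          obtain ⟨a1, b1⟩ := an_spec h1
          obtain ⟨a2, b2⟩ := an_spec h2
          obtain ⟨a3, b3⟩ := an_spec h3
          obtain ⟨a4, b4⟩ := an_spec h4
          intro n hn
          simp only [List.mem_cons, List.not_mem_nil, or_false] at hn
          rcases hn with rfl | rfl | rfl | rfl
          · exact ⟨q2_spec p3 hx3 a4, e3_spec p3 n3 hx3 m3 b4⟩
          · exact ⟨q2_spec p5 hx5 a3, e3_spec p5 n5 hx5 m5 b3⟩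
          · exact ⟨q2_spec p7 hx7 a2, e3_spec p7 n7 hx7 m7 b2⟩
          · exact ⟨q2_spec p13 hx13 a1, e3_spec p13 n13 hx13 m13 b1⟩
        rcases oo_spec h with h | h
        · exact key _ h
        · exact key _ h
      · cases h

end Pool.Agent.OEG.W
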