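import Pool.Agent.OEG.WJ
import Pool.Agent.OEG.WTf19
import Pool.Agent.OEG.WTs1
import Pool.Agent.OEG.WTs19

/-!
Project OEG, elimination for the first family: the tree for the prime 19 (generated).
-/

set_option autoImplicit false

namespace Pool.Agent.OEG.W.T19

open Pool.Agent.LibH4 Pool.Agent.LibH4.Ker
open Pool.Agent.Lib_helper5 Pool.Agent.Lib_helper5.LK Pool.Agent.Lib_helper5.TB
open Pool.Agent.LibH4.S7 (Rl)
open Pool.Agent.PSX.K Pool.Agent.PSX.EL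
open Pool.Agent.PSX.Ev (cp OSys adP_JO)
open Finset (range)

/-- classes modulo 3 -/
def n3K (s : Bool) (m12 r12 M : ℕ) (x13 x7 x5 x3 : Rc) (acc : List (Rc × ℕ))
    (k : List (Rc × ℕ) → Bool) : Bool :=
  @Bool.rec (fun _ => Bool) (k ((x3, M) :: acc))
    (relR (nat_lit 13) (nat_lit 12) Tm_273F13 x13 x7 x3 x13 m12 r12 M (k acc) fun M =>
     relR (nat_lit 13) (nat_lit 12) Tm_195F13 x13 x5 x3 x13 m12 r12 M (k acc) fun M =>
     relR (nat_lit 13) (nat_lit 12) Tm_105N13 x7 x5 x3 x13 m12 r12 M (k acc) fun M =>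
     k ((x3, M) :: acc))
    (an (gh (nat_lit 13) s x13) (an (gh (nat_lit 7) s x7) (gh (nat_lit 5) s x5)))

/-- classes modulo 5 -/
def n5K (c' : Ct) (s : Bool) (m12 r12 : ℕ) (R3 : List Rc) (x13 x7 : Rc) (M : ℕ) (x5 : Rc)
    (acc : List N5) (k : List N5 → Bool) : Bool :=
  relR (nat_lit 13) (nat_lit 12) Tm_455F13a x13 x7 x5 x13 m12 r12 M (k acc) fun M =>
  relR (nat_lit 13) (nat_lit 12) Tm_455F13b x13 x7 x5 x13 m12 r12 M (k acc) fun M =>
  relR (nat_lit 13) (nat_lit 12) Tm_455F13c x13 x7 x5 x13 m12 r12 M (k acc) fun M =>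
  foldL (n3K s m12 r12 M x13 x7 x5) R3 [] fun l3 =>
  @List.rec (Rc × ℕ) (fun _ => Bool) (k acc) (fun _ _ _ =>
    gvC c' t2_95N13 t3_95N13 bX_95N13 bY_95N13 (nat_lit 1) x5 one x13 m12 r12 fun G0 G1 co =>
    k (⟨x5, M, G0, G1, co, l3⟩ :: acc)) l3

/-- classes modulo 7 -/
def n7K (c c' : Ct) (s : Bool) (m12 r12 : ℕ) (R5 R3 : List Rc) (x13 x7 : Rc)
    (acc : List Nd) (k : List Nd → Bool) : Bool :=
  relR (nat_lit 13) (nat_lit 12) Tm_91F13 x13 x7 one x13 m12 r12 (nat_lit 8191) (k acc) fun M =>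
  foldL (n5K c' s m12 r12 R3 x13 x7 M) R5 [] fun l5 =>
  @List.rec N5 (fun _ => Bool) (k acc) (fun _ _ _ =>
    gvC c t2_133N13 t3_133N13 bX_133N13 bY_133N13 (nat_lit 1) x7 one x13 m12 r12 fun G0 G1 co =>
    k (⟨x13, x7, G0, G1, co, M, l5⟩ :: acc)) l5

/-- the states modulo 13, 7, 5, 3 -/
def st1 (c c' : Ct) (bl bu : Bool) (m12 r12 f0 : ℕ) (k : List Nd → Bool) : Bool :=
  enR (nat_lit 13) (nat_lit 12) pk13 bl bu m12 (nat_lit 7) (fun D => Nat.beq D (nat_lit 8))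
    f0 (nat_lit 4) [] fun R13 =>
  enR (nat_lit 7) (nat_lit 6) pk7 bl bu (Nat.mod m12 (nat_lit 6)) (nat_lit 7)
    (fun D => Nat.beq D (nat_lit 3)) (nat_lit 0) (nat_lit 6) [] fun R7 =>
  enR (nat_lit 5) (nat_lit 4) pk5 bl bu (Nat.mod m12 (nat_lit 4)) (nat_lit 5)
    (fun D => Nat.beq D (nat_lit 2)) (nat_lit 0) (nat_lit 4) [] fun R5 =>
  enR (nat_lit 3) (nat_lit 2) pk3 bl bu (Nat.mod m12 (nat_lit 2)) (nat_lit 3)
    (ckI (nat_lit 3)) (nat_lit 0) (nat_lit 2) [] fun R3 =>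
  foldL (fun x13 acc k => foldL (n7K c c' (bl == bu) m12 r12 R5 R3 x13) R7 acc k) R13 [] k

/-- the classes modulo 19 -/
def stT (c c' : Ct) (bl bu : Bool) (mT : ℕ) (k : List Rt → Bool) : Bool :=
  enR (nat_lit 19) (nat_lit 18) pk19 bl bu mT (nat_lit 19) (ckI (nat_lit 19))
    (nat_lit 0) (nat_lit 18) [] fun RT =>
  foldL (fun x acc k => clUC c t1_133N13 bU_133N13 x fun U => clUC c' t1_95N13 bU_95N13 x fun U' =>
    k (⟨x, U, U'⟩ :: acc)) RT [] k

/-- last relations -/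
def ch3 (ml r M13 M5 : ℕ) (xT x13 x7 x5 x3 : Rc) : Bool :=
  relR (nat_lit 13) (nat_lit 36) Tm_273F13 x13 x7 x3 x13 ml r M13 true fun M13 =>
  relR (nat_lit 13) (nat_lit 36) Tm_105N13 x7 x5 x3 x13 ml r M13 true fun M13 =>
  relR (nat_lit 13) (nat_lit 36) Tm_195F13 x13 x5 x3 x13 ml r M13 true fun _ =>
  false

/-- middle relations -/
def ch5 (ml r M13 : ℕ) (xT x13 x7 x5 : Rc) (k : ℕ → ℕ → Bool) : Bool :=
  relR (nat_lit 13) (nat_lit 36) Tm_665N13a xT x7 x5 x13 ml r M13 true fun M13 =>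
  relR (nat_lit 19) (nat_lit 36) Tm_95F19 xT x5 one xT ml r (nat_lit 524287) true fun M19 =>
  relR (nat_lit 19) (nat_lit 36) Tm_247F19a xT x13 one xT ml r M19 true fun M19 =>
  relR (nat_lit 13) (nat_lit 36) Tm_665N13b xT x7 x5 x13 ml r M13 true fun M13 =>
  k M13 (nat_lit 31)

/-- classes modulo 3 of a leaf -/
def leaf3 (bl bu : Bool) (ml r i13 M13 M5 : ℕ) (xT x13 x7 x5 : Rc) (l3 : List (Rc × ℕ)) : Bool :=
  allL (fun z => @Bool.rec (fun _ => Bool) true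
    (@Bool.rec (fun _ => Bool) (ch3 ml r M13 M5 xT x13 x7 x5 z.1) true
      (gok (nat_lit 19) (bl == bu) bl bu ml xT x13 x7 x5 z.1)) (tb z.2 i13)) l3

/-- a leaf -/
def leaf5 (bl bu : Bool) (ml r i13 M13 : ℕ) (xT x13 x7 : Rc) (y : N5) : Bool :=
  @Bool.rec (fun _ => Bool)
    (ch5 ml r M13 xT x13 x7 y.x fun M13 M5 => leaf3 bl bu ml r i13 M13 M5 xT x13 x7 y.x y.l3)
    (leaf3 bl bu ml r i13 M13 (nat_lit 31) xT x13 x7 y.x y.l3)
    (an (gh (nat_lit 19) (bl == bu) xT) (an (gh (nat_lit 13) (bl == bu) x13)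
      (an (gh (nat_lit 7) (bl == bu) x7) (gh (nat_lit 5) (bl == bu) y.x))))

/-- selection of the classes modulo 5 -/
def selK (c' : Ct) (ml t i : ℕ) (y : N5) (acc : List (N5 × ℕ)) (k : List (N5 × ℕ) → Bool) : Bool :=
  @Bool.rec (fun _ => Bool) (k acc)
    (combC c' y.G0 y.G1 y.co ml t fun G => k ((y, G) :: acc)) (tb y.M i)

/-- a state and all the classes modulo 19 -/
def ndK (c c' : Ct) (bl bu : Bool) (ml r : ℕ) (TL : List Rt) (nd : Nd) : Bool :=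
  allR (fun i => imp (tb nd.M i)
    (strict (Nat.pow (nat_lit 2) i) fun M13 =>
     strict (Nat.mod (Nat.mul (nat_lit 4) (Nat.add i (Nat.mul (nat_lit 12) ml)))
       (nat_lit 13)) fun t =>
     foldL (selK c' ml t i) nd.l5 [] fun L5 =>
     @List.rec (N5 × ℕ) (fun _ => Bool) true (fun _ _ _ =>
       combC c nd.G0 nd.G1 nd.co ml t fun G =>
       allL (fun tc => imp (tstC c tc.U G)
         (allL (fun yg => imp (tstC c' tc.U' yg.2)
           (leaf5 bl bu ml r i M13 tc.x nd.x13 nd.x7 yg.1)) L5)) TL) L5)) (nat_lit 13)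

/-- `m` modulo 36 -/
def crt (m12 mT : ℕ) : ℕ := Nat.add mT (Nat.mul (nat_lit 18) (Nat.mod (Nat.div
  (Nat.sub (Nat.add m12 (nat_lit 36)) mT) (nat_lit 6)) (nat_lit 2)))

/-- one pair of residues of `m` -/
def prK (c c' : Ct) (bl bu : Bool) (m12 mT : ℕ) (TL : List Rt) (N : List Nd) : Bool :=
  strict (crt m12 mT) fun ml => strict (Nat.sub (nat_lit 35) ml) fun r =>
  allL (ndK c c' bl bu ml r TL) N

/-- the check for one residue of `m` modulo 12 -/
def wK (bl bu : Bool) (a g : ℕ) : Bool :=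
  ctK (nat_lit 9) (nat_lit 18) (nat_lit 3) fun c =>
  ctK (nat_lit 7) (nat_lit 18) (nat_lit 3) fun c' =>
  st1 c c' bl bu a (Nat.sub (nat_lit 11) a) (Nat.mul (nat_lit 4) g) fun N =>
  @List.rec Nd (fun _ => Bool) true (fun _ _ _ =>
    allR (fun i => strict (Nat.add (Nat.mod a (nat_lit 6)) (Nat.mul (nat_lit 6) i)) fun mT =>
      stT c c' bl bu mT fun TL => prK c c' bl bu a mT TL N) (nat_lit 3)) N

/-! ### specification -/

section Spec

attribute [local irreducible] G0f G1f cof Uf cmb ct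

variable {bl bu : Bool} {D p q b : ℤ} {m : ℕ} (H : Hy 437 bl bu D p q b m)

/-- abbreviation -/
abbrev OK (n : ℕ) (ps : ℕ → ℕ → ℕ → ℕ) (bl bu : Bool) (p q b : ℤ) (m : ℕ) (x : Rc) : Prop :=
  RcOK n ps (sz bl) (sz bu) p q b m x ∧ RcL (n - 1) x

/-- the class modulo 3 of the parameters -/
def P3 (bl bu : Bool) (p q b : ℤ) (m : ℕ) (y : Rc × ℕ) : Prop :=
  OK 3 pk3 bl bu p q b m y.1 ∧ y.2.testBit (m % 13) = true

/-- the class modulo 5 of the parameters -/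
def P5 (bl bu : Bool) (p q b : ℤ) (m : ℕ) (x13 x7 : Rc) (y : N5) : Prop :=
  OK 5 pk5 bl bu p q b m y.x ∧ y.M.testBit (m % 13) = true ∧
  y.G0 = G0f 7 t2_95N13 t3_95N13 bX_95N13 bY_95N13 1 y.x one x13 ∧
  y.G1 = G1f 7 t2_95N13 t3_95N13 bX_95N13 bY_95N13 1 y.x one x13 ∧
  y.co = cof 7 t2_95N13 t3_95N13 bY_95N13 1 y.x one x13 (m % 12) ∧
  ∃ z ∈ y.l3, P3 bl bu p q b m z

/-- the state of the parameters -/
def P7 (bl bu : Bool) (p q b : ℤ) (m : ℕ) (nd : Nd) : Prop :=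
  OK 13 pk13 bl bu p q b m nd.x13 ∧ OK 7 pk7 bl bu p q b m nd.x7 ∧
  nd.M.testBit (m % 13) = true ∧
  nd.G0 = G0f 9 t2_133N13 t3_133N13 bX_133N13 bY_133N13 1 nd.x7 one nd.x13 ∧
  nd.G1 = G1f 9 t2_133N13 t3_133N13 bX_133N13 bY_133N13 1 nd.x7 one nd.x13 ∧
  nd.co = cof 9 t2_133N13 t3_133N13 bY_133N13 1 nd.x7 one nd.x13 (m % 12) ∧
  ∃ y ∈ nd.l5, P5 bl bu p q b m nd.x13 nd.x7 y

/-- the class modulo 19 of the parameters -/
def PT (bl bu : Bool) (p q b : ℤ) (m : ℕ) (y : Rt) : Prop :=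
  OK 19 pk19 bl bu p q b m y.x ∧ y.U = Uf 9 18 t1_133N13 bU_133N13 y.x ∧
  y.U' = Uf 7 18 t1_95N13 bU_95N13 y.x

lemma n3K_kp {s : Bool} {m12 r12 M : ℕ} {x13 x7 x5 x3 : Rc} (h13 : Ne x13) (h7 : Ne x7)
    (h5 : Ne x5) (h3 : Ne x3) : Kp (n3K s m12 r12 M x13 x7 x5 x3) := by
  intro a k h
  unfold n3K at h
  rcases boolrec_or' h with h | h
  · exact ⟨_, fun y hy => List.mem_cons_of_mem _ hy, h⟩
  · rcases relR_keep h13 h7 h3 h13 h with h | ⟨M1, h⟩
    · exact ⟨a, fun y hy => hy, h⟩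
    rcases relR_keep h13 h5 h3 h13 h with h | ⟨M2, h⟩
    · exact ⟨a, fun y hy => hy, h⟩
    rcases relR_keep h7 h5 h3 h13 h with h | ⟨M3, h⟩
    · exact ⟨a, fun y hy => hy, h⟩
    exact ⟨_, fun y hy => List.mem_cons_of_mem _ hy, h⟩

lemma n5K_kp {e0 : ℕ} {s : Bool} {m12 r12 M : ℕ} {R3 : List Rc} {x13 x7 x5 : Rc} (h13 : Ne x13)
    (h7 : Ne x7) (h5 : Ne x5) (h3 : ∀ x ∈ R3, Ne x) :
    Kp (n5K (ct 7 18 e0) s m12 r12 R3 x13 x7 M x5) := by
  intro a k h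
  unfold n5K at h
  rcases relR_keep h13 h7 h5 h13 h with h | ⟨M1, h⟩
  · exact ⟨a, fun y hy => hy, h⟩
  rcases relR_keep h13 h7 h5 h13 h with h | ⟨M2, h⟩
  · exact ⟨a, fun y hy => hy, h⟩
  rcases relR_keep h13 h7 h5 h13 h with h | ⟨M3, h⟩
  · exact ⟨a, fun y hy => hy, h⟩
  obtain ⟨l3, _, h⟩ := foldL_kp (fun x hx => n3K_kp h13 h7 h5 (h3 x hx)) _ _ h
  cases l3 with
  | nil => exact ⟨a, fun y hy => hy, h⟩
  | cons z l3 =>
    replace h : gvC (ct 7 18 e0) t2_95N13 t3_95N13 bX_95N13 bY_95N13 (nat_lit 1) x5 one x13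
      m12 r12 (fun G0 G1 co => k (⟨x5, M3, G0, G1, co, z :: l3⟩ :: a)) = true := h
    obtain ⟨G0, G1, co, h⟩ := gvC_keep h5 Ne_one h13 h
    exact ⟨_, fun y hy => List.mem_cons_of_mem _ hy, h⟩

lemma n7K_kp {e0 : ℕ} {s : Bool} {m12 r12 : ℕ} {R5 R3 : List Rc} {x13 x7 : Rc} (h13 : Ne x13)
    (h7 : Ne x7) (h5 : ∀ x ∈ R5, Ne x) (h3 : ∀ x ∈ R3, Ne x) :
    Kp (n7K (ct 9 18 e0) (ct 7 18 e0) s m12 r12 R5 R3 x13 x7) := by
  intro a k h
  unfold n7K at h
  rcases relR_keep h13 h7 Ne_one h13 h with h | ⟨M1, h⟩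
  · exact ⟨a, fun y hy => hy, h⟩
  obtain ⟨l5, _, h⟩ := foldL_kp (fun x hx => n5K_kp h13 h7 (h5 x hx) h3) _ _ h
  cases l5 with
  | nil => exact ⟨a, fun y hy => hy, h⟩
  | cons y l5 =>
    replace h : gvC (ct 9 18 e0) t2_133N13 t3_133N13 bX_133N13 bY_133N13 (nat_lit 1) x7 one x13 m12
      r12 (fun G0 G1 co => k (⟨x13, x7, G0, G1, co, M1, y :: l5⟩ :: a)) = true := h
    obtain ⟨G0, G1, co, h⟩ := gvC_keep h7 Ne_one h13 h
    exact ⟨_, fun y hy => List.mem_cons_of_mem _ hy, h⟩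

lemma Jk : ∀ e ∈ J1 (sz bl) (sz bu) p q b m, e.κ = 3 := J1_kappa _ _ _ _ _ _

lemma m12eq : m = 12 * (m / 12) + m % 12 := (Nat.div_add_mod m 12).symm

include H

lemma n3K_ht {r12 M : ℕ} {x13 x7 x5 x3 : Rc} (h13 : OK 13 pk13 bl bu p q b m x13)
    (h7 : OK 7 pk7 bl bu p q b m x7) (h5 : OK 5 pk5 bl bu p q b m x5)
    (h3 : OK 3 pk3 bl bu p q b m x3) (hr : 12 = m % 12 + 1 + r12)
    (hM : M.testBit (m % 13) = true) {s : Bool} :
    Ht (n3K s (m % 12) r12 M x13 x7 x5 x3) (P3 bl bu p q b m) := by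
  intro a k h
  unfold n3K at h
  have c13 := Cm_of h13.1 h13.2 (by norm_num)
  have c7 := Cm_of h7.1 h7.2 (by norm_num)
  have c5 := Cm_of h5.1 h5.2 (by norm_num)
  have c3 := Cm_of h3.1 h3.2 (by norm_num)
  have a13 := Am_of h13.1 h13.2 (by norm_num)
  rcases boolrec_or' h with h | h
  · exact ⟨_, ⟨_, List.mem_cons_self, h3, hM⟩, h⟩
  · obtain ⟨M1, hM1, h⟩ := relR_spec (L := 13) (by norm_num) (hs_273F13 H.S Jk) tm_273F13 m12eq hr
      c13 c7 c3 a13 (by norm_num) (by norm_num) (by norm_num) (by norm_num) hM h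
    obtain ⟨M2, hM2, h⟩ := relR_spec (L := 13) (by norm_num) (hs_195F13 H.S Jk) tm_195F13 m12eq hr
      c13 c5 c3 a13 (by norm_num) (by norm_num) (by norm_num) (by norm_num) hM1 h
    obtain ⟨M3, hM3, h⟩ := relR_spec (L := 13) (by norm_num) (hs_105N13 H.S Jk) tm_105N13 m12eq hr
      c7 c5 c3 a13 (by norm_num) (by norm_num) (by norm_num) (by norm_num) hM2 h
    exact ⟨_, ⟨_, List.mem_cons_self, h3, hM3⟩, h⟩

lemma n5K_ht {e0 r12 M : ℕ} {R3 : List Rc} {x13 x7 x5 : Rc} (h13 : OK 13 pk13 bl bu p q b m x13)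
    (h7 : OK 7 pk7 bl bu p q b m x7) (h5 : OK 5 pk5 bl bu p q b m x5)
    (h3 : ∀ x ∈ R3, Ne x) (h3' : ∃ x ∈ R3, OK 3 pk3 bl bu p q b m x)
    (hr : 12 = m % 12 + 1 + r12) (hM : M.testBit (m % 13) = true) {s : Bool} :
    Ht (n5K (ct 7 18 e0) s (m % 12) r12 R3 x13 x7 M x5) (P5 bl bu p q b m x13 x7) := by
  intro a k h
  unfold n5K at h
  have c13 := Cm_of h13.1 h13.2 (by norm_num)
  have c7 := Cm_of h7.1 h7.2 (by norm_num)
  have c5 := Cm_of h5.1 h5.2 (by norm_num)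
  have a13 := Am_of h13.1 h13.2 (by norm_num)
  have e13 : Ne x13 := h13.2.ne (by norm_num)
  have e7 : Ne x7 := h7.2.ne (by norm_num)
  have e5 : Ne x5 := h5.2.ne (by norm_num)
  obtain ⟨M1, hM1, h⟩ := relR_spec (L := 13) (by norm_num) (hs_455F13a H.S Jk) tm_455F13a m12eq hr
    c13 c7 c5 a13 (by norm_num) (by norm_num) (by norm_num) (by norm_num) hM h
  obtain ⟨M2, hM2, h⟩ := relR_spec (L := 13) (by norm_num) (hs_455F13b H.S Jk) tm_455F13b m12eq hr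
    c13 c7 c5 a13 (by norm_num) (by norm_num) (by norm_num) (by norm_num) hM1 h
  obtain ⟨M3, hM3, h⟩ := relR_spec (L := 13) (by norm_num) (hs_455F13c H.S Jk) tm_455F13c m12eq hr
    c13 c7 c5 a13 (by norm_num) (by norm_num) (by norm_num) (by norm_num) hM2 h
  obtain ⟨x3, hx3, ok3⟩ := h3'
  obtain ⟨l3, hl3, h⟩ := foldL_ht hx3 (fun x hx => n3K_kp e13 e7 e5 (h3 x hx))
    (n3K_ht H h13 h7 h5 ok3 hr hM3) _ _ h
  cases l3 with
  | nil => obtain ⟨y, hy, _⟩ := hl3; cases hy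
  | cons z l3 =>
    replace h : gvC (ct 7 18 e0) t2_95N13 t3_95N13 bX_95N13 bY_95N13 (nat_lit 1) x5 one x13
      (m % 12) r12 (fun G0 G1 co => k (⟨x5, M3, G0, G1, co, z :: l3⟩ :: a)) = true := h
    rw [gvC_eq e5 Ne_one e13 hr.symm] at h
    refine ⟨_, ?_, h⟩
    exact ⟨_, List.mem_cons_self, h5, hM3, rfl, rfl, rfl, hl3⟩

lemma n7K_ht {e0 r12 : ℕ} {R5 R3 : List Rc} {x13 x7 : Rc} (h13 : OK 13 pk13 bl bu p q b m x13)
    (h7 : OK 7 pk7 bl bu p q b m x7) (h5 : ∀ x ∈ R5, Ne x)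
    (h5' : ∃ x ∈ R5, OK 5 pk5 bl bu p q b m x)
    (h3 : ∀ x ∈ R3, Ne x) (h3' : ∃ x ∈ R3, OK 3 pk3 bl bu p q b m x)
    (hr : 12 = m % 12 + 1 + r12) {s : Bool} :
    Ht (n7K (ct 9 18 e0) (ct 7 18 e0) s (m % 12) r12 R5 R3 x13 x7) (P7 bl bu p q b m) := by
  intro a k h
  unfold n7K at h
  have c13 := Cm_of h13.1 h13.2 (by norm_num)
  have c7 := Cm_of h7.1 h7.2 (by norm_num)
  have a13 := Am_of h13.1 h13.2 (by norm_num)
  have e13 : Ne x13 := h13.2.ne (by norm_num)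
  have e7 : Ne x7 := h7.2.ne (by norm_num)
  have h8191 : (nat_lit 8191).testBit (m % 13) = true := by
    have : m % 13 < 13 := Nat.mod_lt _ (by norm_num)
    revert this
    generalize m % 13 = i
    intro hi
    change (8191 : ℕ).testBit i = true
    interval_cases i <;> rfl
  obtain ⟨M1, hM1, h⟩ := relR_spec (L := 13) (by norm_num) (hs_91F13 H.S Jk) tm_91F13 m12eq hr
    c13 c7 (Cm_one _ _ _ _ _ _) a13 (by norm_num) (by norm_num) (by norm_num) (by norm_num)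
    h8191 h
  obtain ⟨x5, hx5, ok5⟩ := h5'
  obtain ⟨l5, hl5, h⟩ := foldL_ht hx5 (fun x hx => n5K_kp e13 e7 (h5 x hx) h3)
    (n5K_ht H h13 h7 ok5 h3 h3' hr hM1) _ _ h
  cases l5 with
  | nil => obtain ⟨y, hy, _⟩ := hl5; cases hy
  | cons y l5 =>
    replace h : gvC (ct 9 18 e0) t2_133N13 t3_133N13 bX_133N13 bY_133N13 (nat_lit 1) x7 one x13
      (m % 12) r12 (fun G0 G1 co => k (⟨x13, x7, G0, G1, co, M1, y :: l5⟩ :: a)) = true := h
    rw [gvC_eq e7 Ne_one e13 hr.symm] at h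
    refine ⟨_, ?_, h⟩
    exact ⟨_, List.mem_cons_self, h13, h7, hM1, rfl, rfl, rfl, hl5⟩

lemma npn {n : ℕ} (hn : n ∣ 9699690) (h1 : n ≠ 1) : ¬ (n : ℤ) ∣ p := H.np n hn h1

lemma Dn {n : ℕ} [NeZero n] : rs n ((q * p ^ m + b) ^ 2 + 4 * sz bl * p ^ m) = rs n D := by
  rw [H.hD]

lemma D13 : rs 13 D = 8 := rs_emod (by have := H.D455; norm_num; omega) (by norm_num)
lemma D7 : rs 7 D = 3 := rs_emod (by have := H.D455; norm_num; omega) (by norm_num)
lemma D5 : rs 5 D = 2 := rs_emod (by have := H.D455; norm_num; omega) (by norm_num)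

omit H in
lemma rs_pos {n : ℕ} [NeZero n] {p : ℤ} (hp : ¬(n : ℤ) ∣ p) : 0 < rs n p := by
  rcases Nat.eq_zero_or_pos (rs n p) with h0 | h0
  · exact absurd (by
      have h1 : ((rs n p : ℕ) : ZMod n) = (p : ZMod n) := rs_cast p
      rw [h0, Nat.cast_zero] at h1
      exact (ZMod.intCast_zmod_eq_zero_iff_dvd p n).1 h1.symm) hp
  · exact h0

theorem st1_ht {e0 r12 f0 : ℕ} (hr : 12 = m % 12 + 1 + r12) (hf1 : f0 < rs 13 p)
    (hf2 : rs 13 p ≤ f0 + 4) {k : List Nd → Bool}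
    (h : st1 (ct 9 18 e0) (ct 7 18 e0) bl bu (m % 12) r12 f0 k = true) :
    ∃ N, (∃ nd ∈ N, P7 bl bu p q b m nd) ∧ k N = true := by
  unfold st1 at h
  have q13 : Nat.beq (rs 13 ((q * p ^ m + b) ^ 2 + 4 * sz bl * p ^ m)) (nat_lit 8) = true := by
    rw [Dn H, D13 H]; rfl
  have q7 : Nat.beq (rs 7 ((q * p ^ m + b) ^ 2 + 4 * sz bl * p ^ m)) (nat_lit 3) = true := by
    rw [Dn H, D7 H]; rfl
  have q5 : Nat.beq (rs 5 ((q * p ^ m + b) ^ 2 + 4 * sz bl * p ^ m)) (nat_lit 2) = true := by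
    rw [Dn H, D5 H]; rfl
  have q3 : ckI 3 (rs 3 ((q * p ^ m + b) ^ 2 + 4 * sz bl * p ^ m)) = true := by
    rw [Dn H]; exact ckI_of (by norm_num) (by norm_num) (by norm_num) H.S
  have m12' : m % 12 = m % (13 - 1) := rfl
  have m6' : Nat.mod (m % 12) (nat_lit 6) = m % (7 - 1) := by
    change m % 12 % 6 = m % 6; omega
  have m4' : Nat.mod (m % 12) (nat_lit 4) = m % (5 - 1) := by
    change m % 12 % 4 = m % 4; omega
  have m2' : Nat.mod (m % 12) (nat_lit 2) = m % (3 - 1) := by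
    change m % 12 % 2 = m % 2; omega
  obtain ⟨R13, n13, ⟨x13, hx13, ok13⟩, h⟩ := enR_hq (n := 13) (by norm_num) (by norm_num)
    (ps := pk13) (qm := 7) (npn H (by norm_num) (by norm_num)) H.hq H.eq hf1 hf2
    (ck := fun D => Nat.beq D (nat_lit 8)) q13 [] _ (by simp) h
  rw [m6'] at h
  obtain ⟨R7, n7, ⟨x7, hx7, ok7⟩, h⟩ := enR_hq (n := 7) (by norm_num) (by norm_num)
    (ps := pk7) (qm := 7) (npn H (by norm_num) (by norm_num)) (rs_lt q) H.eq (f0 := 0)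
    (c := 6) (rs_pos (npn H (by norm_num) (by norm_num))) (by have := rs_lt (p := 7) p; omega)
    (ck := fun D => Nat.beq D (nat_lit 3)) q7 [] _ (by simp) h
  rw [m4'] at h
  obtain ⟨R5, n5, ⟨x5, hx5, ok5⟩, h⟩ := enR_hq (n := 5) (by norm_num) (by norm_num)
    (ps := pk5) (qm := 5) (npn H (by norm_num) (by norm_num)) (rs_lt q) H.eq (f0 := 0)
    (c := 4) (rs_pos (npn H (by norm_num) (by norm_num))) (by have := rs_lt (p := 5) p; omega)
    (ck := fun D => Nat.beq D (nat_lit 2)) q5 [] _ (by simp) h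
  rw [m2'] at h
  obtain ⟨R3, n3, ⟨x3, hx3, ok3⟩, h⟩ := enR_hq (n := 3) (by norm_num) (by norm_num)
    (ps := pk3) (qm := 3) (npn H (by norm_num) (by norm_num)) (rs_lt q) H.eq (f0 := 0)
    (c := 2) (rs_pos (npn H (by norm_num) (by norm_num))) (by have := rs_lt (p := 3) p; omega)
    (ck := ckI 3) q3 [] _ (by simp) h
  have e5 : ∀ x ∈ R5, Ne x := fun x hx => (n5 x hx).ne (by norm_num)
  have e3 : ∀ x ∈ R3, Ne x := fun x hx => (n3 x hx).ne (by norm_num)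
  obtain ⟨N, hN, h⟩ := foldL_ht (step := fun x13 acc k => foldL (n7K (ct 9 18 e0)
      (ct 7 18 e0) (bl == bu) (m % 12) r12 R5 R3 x13) R7 acc k) (φ := P7 bl bu p q b m) hx13
    (fun x hx => foldL_kp (fun y hy => n7K_kp ((n13 x hx).ne (by norm_num))
      ((n7 y hy).ne (by norm_num)) e5 e3))
    (foldL_ht hx7 (fun y hy => n7K_kp (ok13.2.ne (by norm_num)) ((n7 y hy).ne (by norm_num)) e5 e3)
      (n7K_ht H ok13 ok7 e5 ⟨x5, hx5, ok5⟩ e3 ⟨x3, hx3, ok3⟩ hr)) _ _ h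
  exact ⟨N, hN, h⟩

theorem stT_ht {e0 mT : ℕ} (hm : mT = m % 18) {k : List Rt → Bool}
    (h : stT (ct 9 18 e0) (ct 7 18 e0) bl bu mT k = true) :
    ∃ TL, (∃ y ∈ TL, PT bl bu p q b m y) ∧ k TL = true := by
  unfold stT at h
  have qT : ckI 19 (rs 19 ((q * p ^ m + b) ^ 2 + 4 * sz bl * p ^ m)) = true := by
    rw [Dn H]; exact ckI_of (by norm_num) (by norm_num) (by norm_num) H.S
  have hm' : mT = m % (19 - 1) := hm
  rw [hm'] at h
  obtain ⟨RT, nT, ⟨xT, hxT, okT⟩, h⟩ := enR_hq (n := 19) (by norm_num) (by norm_num)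
    (ps := pk19) (qm := 19) (npn H (by norm_num) (by norm_num)) (rs_lt q) H.eq (f0 := 0)
    (c := 18) (rs_pos (npn H (by norm_num) (by norm_num))) (by have := rs_lt (p := 19) p; omega)
    (ck := ckI 19) qT [] _ (by simp) h
  obtain ⟨TL, hTL, h⟩ := foldL_ht (φ := PT bl bu p q b m) hxT
    (fun x hx a k h => by
      obtain ⟨U, h⟩ := clUC_keep h
      obtain ⟨U', h⟩ := clUC_keep h
      exact ⟨_, fun y hy => List.mem_cons_of_mem _ hy, h⟩)
    (fun a k h => by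
      rw [clUC_eq okT.2, clUC_eq okT.2] at h
      refine ⟨_, ?_, h⟩
      exact ⟨_, List.mem_cons_self, okT, rfl, rfl⟩) _ _ h
  exact ⟨TL, hTL, h⟩

omit H in
lemma crt_eq : crt (m % 12) (m % 18) = m % 36 := by
  have h12 : m % 12 = m % 36 % 12 := by omega
  have hT : m % 18 = m % 36 % 18 := by omega
  have hl : m % 36 < 36 := Nat.mod_lt _ (by norm_num)
  rw [h12, hT]
  revert hl
  generalize m % 36 = i
  intro hi
  interval_cases i <;> rfl

lemma ch3_false {M13 M5 r : ℕ} {xT x13 x7 x5 x3 : Rc} (hT : OK 19 pk19 bl bu p q b m xT)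
    (h13 : OK 13 pk13 bl bu p q b m x13) (h7 : OK 7 pk7 bl bu p q b m x7)
    (h5 : OK 5 pk5 bl bu p q b m x5) (h3 : OK 3 pk3 bl bu p q b m x3)
    (hr : 36 = m % 36 + 1 + r) (hM13 : M13.testBit (m % 13) = true)
    (hM5 : M5.testBit (m % 5) = true) : ch3 (m % 36) r M13 M5 xT x13 x7 x5 x3 = false := by
  rw [Bool.eq_false_iff]
  intro h
  unfold ch3 at h
  have mL : m = 36 * (m / 36) + m % 36 := (Nat.div_add_mod m 36).symm
  have cT := Cm_of hT.1 hT.2 (by norm_num)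
  have c13 := Cm_of h13.1 h13.2 (by norm_num)
  have c7 := Cm_of h7.1 h7.2 (by norm_num)
  have c5 := Cm_of h5.1 h5.2 (by norm_num)
  have c3 := Cm_of h3.1 h3.2 (by norm_num)
  have a13 := Am_of h13.1 h13.2 (by norm_num)
  have a7 := Am_of h7.1 h7.2 (by norm_num)
  have a5 := Am_of h5.1 h5.2 (by norm_num)
  have h127 : (nat_lit 127).testBit (m % 7) = true := by
    have : m % 7 < 7 := Nat.mod_lt _ (by norm_num)
    revert this
    generalize m % 7 = i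
    intro hi
    change (127 : ℕ).testBit i = true
    interval_cases i <;> rfl
  obtain ⟨N1, hN1, h⟩ := relR_spec (L := 13) (by norm_num) (hs_273F13 H.S Jk) tm_273F13 mL hr
    c13 c7 c3 a13 (by norm_num) (by norm_num) (by norm_num) (by norm_num) hM13 h
  obtain ⟨N2, hN2, h⟩ := relR_spec (L := 13) (by norm_num) (hs_105N13 H.S Jk) tm_105N13 mL hr
    c7 c5 c3 a13 (by norm_num) (by norm_num) (by norm_num) (by norm_num) hN1 h
  obtain ⟨N3, hN3, h⟩ := relR_spec (L := 13) (by norm_num) (hs_195F13 H.S Jk) tm_195F13 mL hr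
    c13 c5 c3 a13 (by norm_num) (by norm_num) (by norm_num) (by norm_num) hN2 h
  cases h

lemma ch5_step {M13 r : ℕ} {xT x13 x7 x5 : Rc} (hT : OK 19 pk19 bl bu p q b m xT)
    (h13 : OK 13 pk13 bl bu p q b m x13) (h7 : OK 7 pk7 bl bu p q b m x7)
    (h5 : OK 5 pk5 bl bu p q b m x5)
    (hr : 36 = m % 36 + 1 + r) (hM13 : M13.testBit (m % 13) = true) {k : ℕ → ℕ → Bool}
    (h : ch5 (m % 36) r M13 xT x13 x7 x5 k = true) :
    ∃ M13 M5, M13.testBit (m % 13) = true ∧ M5.testBit (m % 5) = true ∧ k M13 M5 = true := by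
  unfold ch5 at h
  have mL : m = 36 * (m / 36) + m % 36 := (Nat.div_add_mod m 36).symm
  have cT := Cm_of hT.1 hT.2 (by norm_num)
  have c13 := Cm_of h13.1 h13.2 (by norm_num)
  have c7 := Cm_of h7.1 h7.2 (by norm_num)
  have c5 := Cm_of h5.1 h5.2 (by norm_num)
  have a13 := Am_of h13.1 h13.2 (by norm_num)
  have a5 := Am_of h5.1 h5.2 (by norm_num)
  have aT := Am_of hT.1 hT.2 (by norm_num)
  have h31 : (nat_lit 31).testBit (m % 5) = true := by
    have : m % 5 < 5 := Nat.mod_lt _ (by norm_num)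
    revert this
    generalize m % 5 = i
    intro hi
    change (31 : ℕ).testBit i = true
    interval_cases i <;> rfl
  have h524287 : (nat_lit 524287).testBit (m % 19) = true := by
    have : m % 19 < 19 := Nat.mod_lt _ (by norm_num)
    revert this
    generalize m % 19 = i
    intro hi
    change (524287 : ℕ).testBit i = true
    interval_cases i <;> rfl
  obtain ⟨N1, hN1, h⟩ := relR_spec (L := 13) (by norm_num) (hs_665N13a H.S Jk) tm_665N13a mL hr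
    cT c7 c5 a13 (by norm_num) (by norm_num) (by norm_num) (by norm_num) hM13 h
  obtain ⟨N2, hN2, h⟩ := relR_spec (L := 19) (by norm_num) (hs_95F19 H.S Jk) tm_95F19 mL hr
    cT c5 (Cm_one _ _ _ _ _ _) aT (by norm_num) (by norm_num) (by norm_num) (by norm_num) h524287 h
  obtain ⟨N3, hN3, h⟩ := relR_spec (L := 19) (by norm_num) (hs_247F19a H.S Jk) tm_247F19a mL hr
    cT c13 (Cm_one _ _ _ _ _ _) aT (by norm_num) (by norm_num) (by norm_num) (by norm_num) hN2 h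
  obtain ⟨N4, hN4, h⟩ := relR_spec (L := 13) (by norm_num) (hs_665N13b H.S Jk) tm_665N13b mL hr
    cT c7 c5 a13 (by norm_num) (by norm_num) (by norm_num) (by norm_num) hN1 h
  exact ⟨_, _, hN4, h31, h⟩

lemma leaf3_spec {M13 M5 r : ℕ} {xT x13 x7 x5 : Rc} {l3 : List (Rc × ℕ)}
    (hT : OK 19 pk19 bl bu p q b m xT)
    (h13 : OK 13 pk13 bl bu p q b m x13) (h7 : OK 7 pk7 bl bu p q b m x7)
    (h5 : OK 5 pk5 bl bu p q b m x5) (h3 : ∃ z ∈ l3, P3 bl bu p q b m z)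
    (hr : 36 = m % 36 + 1 + r) (hM13 : M13.testBit (m % 13) = true)
    (hM5 : M5.testBit (m % 5) = true)
    (h : leaf3 bl bu (m % 36) r (m % 13) M13 M5 xT x13 x7 x5 l3 = true) :
    Cc 19 bl bu p q b m := by
  obtain ⟨z, hz, ok3, hb⟩ := h3
  unfold leaf3 at h
  have h := allL_spec h z hz
  rw [tb_eq, hb, ch3_false H hT h13 h7 h5 ok3 hr hM13 hM5] at h
  replace h : @Bool.rec (fun _ => Bool) false true (gok (nat_lit 19) (bl == bu) bl bu (m % 36) xT
    x13 x7 x5 z.1) = true := h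
  have hg : gok 19 (bl == bu) bl bu (m % 36) xT x13 x7 x5 z.1 = true := by
    cases hc : gok 19 (bl == bu) bl bu (m % 36) xT x13 x7 x5 z.1
    · have hc' : gok (nat_lit 19) (bl == bu) bl bu (m % 36) xT x13 x7 x5 z.1 = false := hc
      rw [hc'] at h
      cases h
    · rfl
  refine gok_spec (by norm_num) ?_ (by omega) hT.1 h13.1 h7.1 h5.1 ok3.1 hg
  intro n hn
  simp only [List.mem_cons, List.not_mem_nil, or_false] at hn
  rcases hn with rfl | rfl | rfl | rfl <;> exact npn H (by norm_num) (by norm_num)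

lemma leaf5_spec {M13 r : ℕ} {xT x13 x7 : Rc} {y : N5}
    (hT : OK 19 pk19 bl bu p q b m xT)
    (h13 : OK 13 pk13 bl bu p q b m x13) (h7 : OK 7 pk7 bl bu p q b m x7)
    (h5 : OK 5 pk5 bl bu p q b m y.x) (h3 : ∃ z ∈ y.l3, P3 bl bu p q b m z)
    (hr : 36 = m % 36 + 1 + r) (hM13 : M13.testBit (m % 13) = true)
    (h : leaf5 bl bu (m % 36) r (m % 13) M13 xT x13 x7 y = true) :
    Cc 19 bl bu p q b m := by
  have h31 : (31 : ℕ).testBit (m % 5) = true := by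
    have : m % 5 < 5 := Nat.mod_lt _ (by norm_num)
    revert this
    generalize m % 5 = i
    intro hi
    interval_cases i <;> rfl
  unfold leaf5 at h
  rcases boolrec_or' h with h | h
  · obtain ⟨M13', M5, hM13', hM5, h⟩ := ch5_step H hT h13 h7 h5 hr hM13 h
    exact leaf3_spec H hT h13 h7 h5 h3 hr hM13' hM5 h
  · exact leaf3_spec H hT h13 h7 h5 h3 hr hM13 h31 h

theorem ndK_spec {r : ℕ} {TL : List Rt} {nd : Nd} (hnd : P7 bl bu p q b m nd)
    (hTL : ∃ y ∈ TL, PT bl bu p q b m y) (hr : 36 = m % 36 + 1 + r)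
    (h : ndK (ct 9 18 3) (ct 7 18 3) bl bu (m % 36) r TL nd = true) :
    Cc 19 bl bu p q b m := by
  obtain ⟨h13, h7, hM, eG0, eG1, eco, y, hy, h5, hM5, eG0', eG1', eco', h3⟩ := hnd
  obtain ⟨tc, htc, hT, eU, eU'⟩ := hTL
  have hL : m % 36 < 36 := Nat.mod_lt _ (by norm_num)
  have mL : m = 36 * (m / 36) + m % 36 := (Nat.div_add_mod m 36).symm
  have c13 := Cm_of h13.1 h13.2 (by norm_num)
  have c7 := Cm_of h7.1 h7.2 (by norm_num)
  have c5 := Cm_of h5.1 h5.2 (by norm_num)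
  have cT := Cm_of hT.1 hT.2 (by norm_num)
  have a13 := Am_of h13.1 h13.2 (by norm_num)
  have m12L : m % 36 % 12 = m % 12 := by omega
  unfold ndK at h
  have h := allR_spec h (m % 13) (Nat.mod_lt _ (by norm_num))
  have h := imp_spec h ((tb_eq _ _).trans hM)
  rw [strict_eq, strict_eq] at h
  have ht : Nat.mod (Nat.mul (nat_lit 4) (Nat.add (m % 13) (Nat.mul (nat_lit 12) (m % 36))))
      (nat_lit 13) = (m / 36) % 13 := by
    change (4 * (m % 13 + 12 * (m % 36))) % 13 = _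
    omega
  rw [ht] at h
  set t := (m / 36) % 13 with htt
  obtain ⟨L5, ⟨yg, hyg, e1, e2⟩, h⟩ := foldL_ht (φ := fun z : N5 × ℕ => z.1 = y ∧
      z.2 = cmb 7 18 3 y.G0 y.G1 y.co (m % 36) t) hy
    (fun x _ a k h => by
      rcases boolrec_or' h with h | h
      · exact ⟨a, fun y hy => hy, h⟩
      · rw [combC_eq] at h
        exact ⟨_, fun y hy => List.mem_cons_of_mem _ hy, h⟩)
    (fun a k h => by
      unfold selK at h
      rw [tb_eq, hM5] at h
      replace h : (combC (ct 7 18 3) y.G0 y.G1 y.co (m % 36) t fun G =>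
        k ((y, G) :: a)) = true := h
      rw [combC_eq] at h
      refine ⟨_, ?_, h⟩
      exact ⟨_, List.mem_cons_self, rfl, rfl⟩) _ _ h
  cases L5 with
  | nil => cases hyg
  | cons z L5 =>
    replace h : (combC (ct 9 18 3) nd.G0 nd.G1 nd.co (m % 36) t fun G =>
       allL (fun tc => imp (tstC (ct 9 18 3) tc.U G)
         (allL (fun yg => imp (tstC (ct 7 18 3) tc.U' yg.2)
           (leaf5 bl bu (m % 36) r (m % 13) (Nat.pow (nat_lit 2) (m % 13)) tc.x nd.x13 nd.x7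
             yg.1)) (z :: L5))) TL) = true := h
    rw [combC_eq] at h
    have h := allL_spec h tc htc
    have f1 := fastR (e0 := 3) ft_133N13 (hf_133N13 H.S Jk) mL hL htt (R := 18) (by norm_num)
      (e1 := 2) (by norm_num) (by norm_num) (by norm_num) (by norm_num) cT c7
      (Cm_one _ _ _ _ _ _) a13 (by norm_num) (by norm_num) (by norm_num)
    rw [m12L, ← eG0, ← eG1, ← eco, ← eU] at f1
    have h := imp_spec h f1
    have h := allL_spec h yg hyg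
    have f2 := fastR (e0 := 3) ft_95N13 (hf_95N13 H.S Jk) mL hL htt (R := 18) (by norm_num)
      (e1 := 2) (by norm_num) (by norm_num) (by norm_num) (by norm_num) cT c5
      (Cm_one _ _ _ _ _ _) a13 (by norm_num) (by norm_num) (by norm_num)
    rw [m12L, ← eG0', ← eG1', ← eco', ← eU'] at f2
    rw [e1, e2] at h
    have h := imp_spec h f2
    refine leaf5_spec H hT h13 h7 h5 h3 hr ?_ h
    change (2 ^ (m % 13)).testBit (m % 13) = true
    exact Nat.testBit_two_pow_self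

theorem prK_spec {TL : List Rt} {N : List Nd} (hN : ∃ nd ∈ N, P7 bl bu p q b m nd)
    (hTL : ∃ y ∈ TL, PT bl bu p q b m y)
    (h : prK (ct 9 18 3) (ct 7 18 3) bl bu (m % 12) (m % 18) TL N = true) :
    Cc 19 bl bu p q b m := by
  obtain ⟨nd, hnd, ok⟩ := hN
  unfold prK at h
  rw [strict_eq, strict_eq, crt_eq] at h
  have hL : m % 36 < 36 := Nat.mod_lt _ (by norm_num)
  have h := allL_spec h nd hnd
  refine ndK_spec H ok hTL ?_ h
  change 36 = m % 36 + 1 + (35 - m % 36)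
  omega

theorem wK_spec {a g : ℕ} (hm : m % 12 = a) (hg : (rs 13 p - 1) / 4 = g)
    (h : wK bl bu a g = true) :
    Cc 19 bl bu p q b m := by
  unfold wK at h
  rw [ctK_eq, ctK_eq] at h
  have hi : ∃ i < 3, m % 18 = m % 12 % 6 + 6 * i :=
    ⟨m % 18 / 6, by omega, by omega⟩
  obtain ⟨i, hi4, hi⟩ := hi
  rw [← hm] at h
  obtain ⟨N, hN, h⟩ := st1_ht H (r12 := Nat.sub (nat_lit 11) (m % 12)) (by
    change 12 = m % 12 + 1 + (11 - m % 12)
    omega) (f0 := Nat.mul (nat_lit 4) g) (by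
    have := rs_pos (n := 13) (npn H (by norm_num) (by norm_num))
    change 4 * g < _
    omega) (by
    change _ ≤ 4 * g + 4
    omega) h
  cases N with
  | nil => obtain ⟨y, hy, _⟩ := hN; cases hy
  | cons z N =>
    replace h : allR (fun i => strict (Nat.add (Nat.mod (m % 12) (nat_lit 6))
      (Nat.mul (nat_lit 6) i)) fun mT => stT (ct 9 18 3) (ct 7 18 3) bl bu mT
        fun TL => prK (ct 9 18 3) (ct 7 18 3) bl bu (m % 12) mT TL (z :: N))
      (nat_lit 3) = true := h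
    have h := allR_spec h i hi4
    rw [strict_eq] at h
    have e : Nat.add (Nat.mod (m % 12) (nat_lit 6)) (Nat.mul (nat_lit 6) i) = m % 18 :=
      hi.symm
    rw [e] at h
    obtain ⟨TL, hTL, h⟩ := stT_ht H rfl h
    exact prK_spec H hN hTL h

end Spec

end Pool.Agent.OEG.W.T19
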