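import Pool.Agent.OEG.WK17

/-!
Project OEG, elimination for the first family: a run of the check, prime 17 (generated).
-/

set_option autoImplicit false

namespace Pool.Agent.OEG.W.T17

theorem rA1 : ∀ a, 0 ≤ a → a < 3 → ∀ g < 3, wK true true a g = true := by
  intro a h1 h2 g hg
  interval_cases a <;> interval_cases g <;> decide +kernel

end Pool.Agent.OEG.W.T17
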